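import Pool.Agent.Lib.MP_d03834_ag.Core.N11V

/-! Eleven points: the nodal curve of bidegree (2, 2). -/

set_option autoImplicit false

namespace Pool.Agent.Lib.MP_d03834_ag.Core

open MvPolynomial BW

variable {K : Type} [Field K]

/-- a quadratic form in two elements of an ideal -/
theorem quad_mem {R : Type} [CommRing R] {I : Ideal R} {u v : R} (hu : u ∈ I) (hv : v ∈ I)
    (a b c : R) : a * (u * u) + b * (u * v) + c * (v * v) ∈ I ^ 2 := by
  rw [pow_two]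
  exact add_mem (add_mem (Ideal.mul_mem_left _ _ (Ideal.mul_mem_mul hu hu))
    (Ideal.mul_mem_left _ _ (Ideal.mul_mem_mul hu hv)))
    (Ideal.mul_mem_left _ _ (Ideal.mul_mem_mul hv hv))

/-- a curve with simple and double points -/
theorem eff_of2 {ι : Type} {P : ι → Fin 4 → K} (hP : ∀ l, Pt (P l)) {u : Cls ι} (F : Cx K)
    (h0 : F ≠ 0) (hF : Bih u.1 u.2.1 F) (h : ∀ l, u.2.2 l ≤ 0 ∨ u.2.2 l = 1 ∧ eval (P l) F = 0 ∨
      u.2.2 l = 2 ∧ F ∈ pid (P l) ^ 2) : 0 < rk P u := by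
  refine rk_pos.2 ⟨F, h0, hF, fun l => ?_⟩
  rcases h l with e | ⟨e, e'⟩ | ⟨e, e'⟩
  · rw [Int.toNat_eq_zero.2 e]
    simp
  · rw [e, Int.toNat_one, pow_one]
    exact pid_of_eval (hP l) hF e'
  · rw [e]
    exact e'

/-- the general form of bidegree (2, 2) with a double point at Q, in terms of the linear forms
of Q and of a second point R -/
noncomputable def nodF (Q R : Fin 4 → K) (c : Fin 6 → K) : Cx K :=
  (C (c 0) * (ly R * ly R) + C (c 1) * (ly R * ly Q) + C (c 2) * (ly Q * ly Q)) * (lx Q * lx Q) +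
    (C (c 3) * (lx R * ly R) + C (c 4) * (lx R * ly Q)) * (lx Q * ly Q) +
    C (c 5) * (lx R * lx R) * (ly Q * ly Q)

theorem nodF_bih (Q R : Fin 4 → K) (c : Fin 6 → K) : Bih 2 2 (nodF Q R c) :=
  (((((((bih_ly R).mul (bih_ly R)).cmul _).add (((bih_ly R).mul (bih_ly Q)).cmul _)).add
    (((bih_ly Q).mul (bih_ly Q)).cmul _)).mul ((bih_lx Q).mul (bih_lx Q))).add
    (((((bih_lx R).mul (bih_ly R)).cmul _).add (((bih_lx R).mul (bih_ly Q)).cmul _)).mul
      ((bih_lx Q).mul (bih_ly Q)))).add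
    ((((bih_lx R).mul (bih_lx R)).cmul _).mul ((bih_ly Q).mul (bih_ly Q)))

theorem nodF_mem (Q R : Fin 4 → K) (c : Fin 6 → K) : nodF Q R c ∈ pid Q ^ 2 :=
  quad_mem (lx_mem Q) (ly_mem Q) _ _ _

/-- the value of the form -/
def nodV {A : Type} [CommRing A] (Q R : Fin 4 → A) (c : Fin 6 → A) (S : Fin 4 → A) : A :=
  (c 0 * (dy R S * dy R S) + c 1 * (dy R S * dy Q S) + c 2 * (dy Q S * dy Q S)) *
      (dx Q S * dx Q S) +
    (c 3 * (dx R S * dy R S) + c 4 * (dx R S * dy Q S)) * (dx Q S * dy Q S) +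
    c 5 * (dx R S * dx R S) * (dy Q S * dy Q S)

theorem nodF_eval (Q R : Fin 4 → K) (c : Fin 6 → K) (S : Fin 4 → K) :
    eval S (nodF Q R c) = nodV Q R c S := by
  simp only [nodF, nodV, map_add, map_mul, eval_C, eval_lx, eval_ly]

/-- the nodal curve is effective as soon as the eight points satisfy one equation -/
theorem n11N_eff {P : Fin 10 → Fin 4 → K} (hP : ∀ l, Pt (P l)) (R : Fin 4 → K) (c : Fin 6 → K)
    (S : Fin 4 → K) (h0 : nodV (P 9) R c S ≠ 0)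
    (h : ∀ l : Fin 10, l.val < 8 → nodV (P 9) R c (P l) = 0) : 0 < rk P n11N := by
  refine eff_of2 hP (nodF (P 9) R c) (fun e => h0 (by rw [← nodF_eval, e, map_zero]))
    (nodF_bih _ _ _) fun l => ?_
  by_cases a : l.val < 8
  · exact .inr (.inl ⟨by revert l; decide, by rw [nodF_eval]; exact h l a⟩)
  by_cases b : l = 9
  · subst b
    exact .inr (.inr ⟨rfl, nodF_mem _ _ _⟩)
  · exact .inl (by revert l; decide)

namespace N11V

/-- the equation of the nodal curve at the point (p + t P, y) -/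
def Eq2 {O : Type} [CommRing O] (t p n κ P y : O) : Prop :=
  p * (p - 1) * (y - n) ^ 2 + t * P * (y - n) * (p * y - n * (2 * p - 1)) +
    P ^ 2 * (t ^ 2 * n ^ 2 + κ * y) = 0

/-- the nodal curve is effective on the arc, whatever the point eps -/
theorem n11_eff {t α β p n κ P1 P2 Q1 Q2 : K} (ht : t ≠ 0) (hn : n ≠ 0) (p0 : p ≠ 0)
    (p1 : p - 1 ≠ 0) (a1 : Eq2 t p n κ P1 α) (a2 : Eq2 t p n κ P2 α) (b1 : Eq2 t p n κ Q1 β)
    (b2 : Eq2 t p n κ Q2 β) {e : Fin 4 → K} (he : Pt e) :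
    0 < rk (F1 α β (p + t * P1) (p + t * P2) (p + t * Q1) (p + t * Q2) p n e) n11N := by
  have t2 := pow_ne_zero 2 ht
  refine n11N_eff (fun l => ?_) ![1, 0, 1, 0]
    ![t ^ 2 * n ^ 2 + κ * n, -κ, 0, t ^ 2 * (n * (1 - p)), -(t ^ 2 * p), t ^ 2 * (p * (p - 1))]
    ![p, 1, 0, 1] ?_ fun l hl => ?_
  · fin_cases l <;> first | exact he | simp [F1, Pt]
  · exact nz1 (mul_ne_zero (mul_ne_zero t2 (mul_ne_zero p0 p1)) (mul_ne_zero hn hn))
      (by simp [F1, nodV, dx, dy])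
  · unfold Eq2 at a1 a2 b1 b2
    fin_cases l
    · simp only [F1, nodV, dx, dy, Fin.zero_eta, Matrix.cons_val]
      linear_combination t ^ 2 * a1
    · simp only [F1, nodV, dx, dy, Fin.mk_one, Matrix.cons_val]
      linear_combination t ^ 2 * a2
    · simp only [F1, nodV, dx, dy, Fin.reduceFinMk, Matrix.cons_val]
      linear_combination t ^ 2 * b1
    · simp only [F1, nodV, dx, dy, Fin.reduceFinMk, Matrix.cons_val]
      linear_combination t ^ 2 * b2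
    all_goals first
      | exact absurd hl (by decide)
      | simp only [F1, nodV, dx, dy, Fin.reduceFinMk, Matrix.cons_val]; ring

variable {O k : Type} [CommRing O] [Field k] {π : O →+* k} {t r b p n : O}

/-- one point of the nodal curve -/
theorem eq2_pt (hπ : ∀ x, π x ≠ 0 → IsUnit x) (ht : π t = 0) (c0 : π (2 * (p * (p - 1))) ≠ 0)
    {κ y Γ : O} {s : k} (hs : π Γ * s = π (2 * (p * (p - 1))))
    (h : Γ ^ 2 = t ^ 2 * (n * (2 * p - 1) - p * y) ^ 2 -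
      4 * (p * (p - 1)) * (t ^ 2 * n ^ 2 + κ * y)) :
    ∃ P : O, π P = s * (π y - π n) ∧ Eq2 t p n κ P y := by
  have e : π (t * (n * (2 * p - 1) - p * y) + Γ) = π Γ := by
    rw [map_add, map_mul, ht, zero_mul, zero_add]
  have g0 : π Γ ≠ 0 := fun z => c0 (by rw [← hs, z, zero_mul])
  obtain ⟨D, hD⟩ := (hπ _ (e.trans_ne g0)).exists_right_inv
  obtain ⟨c, hc⟩ := (hπ _ c0).exists_right_inv
  refine ⟨2 * (p * (p - 1)) * (y - n) * D, ?_, ?_⟩
  · have := congrArg π hD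
    rw [map_mul, e, map_one] at this
    rw [map_mul, map_mul, ← hs, map_sub]
    linear_combination s * (π y - π n) * this
  · unfold Eq2
    generalize hT : n * (2 * p - 1) - p * y = T at h hD
    have e1 : p * y - n * (2 * p - 1) = -T := by rw [← hT]; ring
    rw [e1]
    generalize p * (p - 1) = C at *
    generalize t ^ 2 * n ^ 2 + κ * y = W at *
    linear_combination (y - n) ^ 2 * C * D ^ 2 * h -
      (y - n) ^ 2 * C * ((t * T + Γ) * D + 1 - 2 * t * T * D) * hD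

/-- the arc exists -/
theorem n11_arc (hπ : ∀ x, π x ≠ 0 → IsUnit x) (ht : π t = 0) (h : Res (π r) (π b) (π p) (π n)) :
    ∃ κ P1 P2 Q1 Q2 : O, Lead π r b n P1 P2 Q1 Q2 ∧ Eq2 t p n κ P1 (b * r ^ 2) ∧
      Eq2 t p n κ P2 (b * r ^ 2) ∧ Eq2 t p n κ Q1 b ∧ Eq2 t p n κ Q2 b := by
  have c0 : π (2 * (p * (p - 1))) ≠ 0 := by
    simpa only [map_mul, map_sub, map_one, map_ofNat] using
      mul_ne_zero h.h2 (mul_ne_zero h.p0 h.p1)
  obtain ⟨c, hc⟩ := (hπ _ c0).exists_right_inv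
  obtain ⟨r', hr⟩ := (hπ r h.hr).exists_right_inv
  obtain ⟨b', hb⟩ := (hπ b h.hb).exists_right_inv
  obtain ⟨i, hi⟩ := (hπ 2 (by simpa only [map_ofNat] using h.h2)).exists_right_inv
  obtain ⟨A, hA⟩ : ∃ A, A = (n * (2 * p - 1) - p * (b * r ^ 2)) ^ 2 - 4 * (p * (p - 1)) * n ^ 2 :=
    ⟨_, rfl⟩
  obtain ⟨B, hB⟩ : ∃ B, B = (n * (2 * p - 1) - p * b) ^ 2 - 4 * (p * (p - 1)) * n ^ 2 := ⟨_, rfl⟩
  obtain ⟨δ, hδ⟩ : ∃ δ, 4 * (2 * (p * (p - 1))) * δ = A - r ^ 2 * B :=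
    ⟨i ^ 2 * c * (A - r ^ 2 * B), by
      linear_combination (A - r ^ 2 * B) * ((2 * i) ^ 2 * hc + (2 * i + 1) * hi)⟩
  obtain ⟨κ, hκ⟩ : ∃ κ, 2 * (2 * (p * (p - 1))) * (κ * b) =
      t ^ 2 * B - (r' * (2 * (p * (p - 1)) - t ^ 2 * δ)) ^ 2 :=
    ⟨i * c * b' * (t ^ 2 * B - (r' * (2 * (p * (p - 1)) - t ^ 2 * δ)) ^ 2), by
      linear_combination (t ^ 2 * B - (r' * (2 * (p * (p - 1)) - t ^ 2 * δ)) ^ 2) *
        (2 * i * (b * b') * hc + b * b' * hi + hb)⟩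
  have ea : (2 * (p * (p - 1)) + t ^ 2 * δ) ^ 2 = t ^ 2 * (n * (2 * p - 1) - p * (b * r ^ 2)) ^ 2 -
      4 * (p * (p - 1)) * (t ^ 2 * n ^ 2 + κ * (b * r ^ 2)) := by
    linear_combination t ^ 2 * hδ + r ^ 2 * hκ + t ^ 2 * hA -
      (2 * (p * (p - 1)) - t ^ 2 * δ) ^ 2 * (r * r' + 1) * hr
  have eb : (r' * (2 * (p * (p - 1)) - t ^ 2 * δ)) ^ 2 = t ^ 2 * (n * (2 * p - 1) - p * b) ^ 2 -
      4 * (p * (p - 1)) * (t ^ 2 * n ^ 2 + κ * b) := by
    linear_combination hκ + t ^ 2 * hB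
  have hr' : π r * π r' = 1 := by rw [← map_mul, hr, map_one]
  have z : π (t ^ 2 * δ) = 0 := by rw [map_mul, map_pow, ht]; ring
  obtain ⟨P1, u1, v1⟩ := eq2_pt hπ ht c0 (s := 1) (by rw [map_add, z]; ring) ea
  obtain ⟨P2, u2, v2⟩ := eq2_pt hπ ht c0 (s := -1) (Γ := -(2 * (p * (p - 1)) + t ^ 2 * δ))
    (by rw [map_neg, map_add, z]; ring) ((neg_sq _).trans ea)
  obtain ⟨Q1, u3, v3⟩ := eq2_pt hπ ht c0 (s := π r)
    (by rw [map_mul, map_sub, z]; linear_combination π (2 * (p * (p - 1))) * hr') eb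
  obtain ⟨Q2, u4, v4⟩ := eq2_pt hπ ht c0 (s := -π r)
    (Γ := -(r' * (2 * (p * (p - 1)) - t ^ 2 * δ)))
    (by rw [map_neg, map_mul, map_sub, z]; linear_combination π (2 * (p * (p - 1))) * hr')
    ((neg_sq _).trans eb)
  refine ⟨κ, P1, P2, Q1, Q2, ⟨?_, ?_, u3, ?_⟩, v1, v2, v3, v4⟩
  · rw [u1, map_mul, map_pow, one_mul]
  · rw [u2, map_mul, map_pow, neg_one_mul]
  · rw [u4, neg_mul]

theorem Eq2.map {B : Type} [CommRing B] (g : O →+* B) {κ P y : O} (h : Eq2 t p n κ P y) :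
    Eq2 (g t) (g p) (g n) (g κ) (g P) (g y) := by
  have := congrArg g h
  simpa only [Eq2, map_add, map_mul, map_sub, map_pow, map_one, map_ofNat, map_zero] using this

theorem mp_F1 {B : Type} [CommRing B] (g : O →+* B) (α β p1 p2 q1 q2 m ν : O) (e : Fin 4 → O) :
    mp g (F1 α β p1 p2 q1 q2 m ν e) =
      F1 (g α) (g β) (g p1) (g p2) (g q1) (g q2) (g m) (g ν) fun c => g (e c) := by
  funext i c
  fin_cases i <;> fin_cases c <;> simp [mp, F1]

/-- the arc with a valid word and an effective nodal curve over every extension -/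
theorem n11_all [IsDomain O] (hπ : ∀ x, π x ≠ 0 → IsUnit x) (ht0 : t ≠ 0) (ht : π t = 0)
    (h : Res (π r) (π b) (π p) (π n)) : ∃ P1 P2 Q1 Q2 : O, Lead π r b n P1 P2 Q1 Q2 ∧
      ValidW n11W (F1 (b * r ^ 2) b (p + t * P1) (p + t * P2) (p + t * Q1) (p + t * Q2) p n
        ![1, 1, 1, 1]) ∧
      ∀ (L : Type) [Field L] (g : O →+* L), Function.Injective g → ∀ e : Fin 4 → L, Pt e →
        0 < rk (F1 (g (b * r ^ 2)) (g b) (g (p + t * P1)) (g (p + t * P2)) (g (p + t * Q1))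
          (g (p + t * Q2)) (g p) (g n) e) n11N := by
  obtain ⟨κ, P1, P2, Q1, Q2, l, a1, a2, b1, b2⟩ := n11_arc hπ ht h
  refine ⟨P1, P2, Q1, Q2, l, n11_valid ht0 ht h l, fun L _ g hg e he => ?_⟩
  have nz : ∀ {x : O}, π x ≠ 0 → g x ≠ 0 := fun a =>
    (map_ne_zero_iff g hg).2 fun e => a (by rw [e, map_zero])
  simp only [map_add, map_mul g t]
  refine n11_eff ((map_ne_zero_iff g hg).2 ht0) (nz h.hn) (nz h.p0) ?_ (a1.map g) (a2.map g)
    (b1.map g) (b2.map g) he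
  simpa only [map_sub, map_one] using nz (x := p - 1) (by simpa only [map_sub, map_one] using h.p1)

end N11V

end Pool.Agent.Lib.MP_d03834_ag.Core
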