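import Pool.Agent.Lib.MP_d03834_ag.Core.N11C
import Pool.Agent.Lib.MP_d03834_ag.Core.N11N

/-! Eleven points: the nodal curve through the family in the chart of the four lines. -/

set_option autoImplicit false

namespace Pool.Agent.Lib.MP_d03834_ag.Core

theorem eff11v {K : Type} [Field K] {κ α β sA sB x4 x5 e0 e1 σ : K} (h1 : κ = 2 * α * x4)
    (h2 : κ = -2 * β * x5) (hκ : κ ≠ 0) (hP : ∀ l, Pt (q11 κ α β sA sB x4 x5 e0 e1 σ l)) :
    0 < BW.rk (q11 κ α β sA sB x4 x5 e0 e1 σ) n11N := by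
  refine n11N_eff hP ![1, 0, 1, 0]
    ![(1 + α * β) ^ 2 - (α + β) ^ 2, 2 * β * (α + β) - (1 + α * β) ^ 2, -β ^ 2,
      -(2 * κ * (α + β)), 2 * κ * β, -κ ^ 2] ![0, 1, 0, 1] ?_ fun l hl => ?_
  · simpa [q11, nodV, dx, dy] using hκ
  · fin_cases l
    all_goals first
      | exact absurd hl (by decide)
      | (simp only [q11, nodV, dx, dy, Fin.zero_eta, Fin.mk_one, Fin.reduceFinMk, Matrix.cons_val]
         first
          | ring1
          | (rw [h1]; ring1)
          | (rw [h2]; ring1))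

end Pool.Agent.Lib.MP_d03834_ag.Core
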