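import Pool.Agent.Lib.MP_d03834_ag.Core.BiWord

/-! Words of elementary transformations: linearity, invariants, inverse words, certificates. -/

set_option autoImplicit false

namespace Pool.Agent.Lib.MP_d03834_ag.Core.BW

open MvPolynomial Module

variable {ι : Type} [DecidableEq ι]

theorem ac_add (a : Letter ι) (u v : Cls ι) : ac a (u + v) = ac a u + ac a v := by
  cases a <;> try rfl
  all_goals
    refine Prod.ext ?_ (Prod.ext ?_ (funext fun l => ?_)) <;>
      simp only [ac, Prod.fst_add, Prod.snd_add, Pi.add_apply] <;> (try split_ifs) <;> ring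

theorem ac_smul (a : Letter ι) (c : ℤ) (u : Cls ι) : ac a (c • u) = c • ac a u := by
  cases a <;> try rfl
  all_goals
    refine Prod.ext ?_ (Prod.ext ?_ (funext fun l => ?_)) <;>
      simp only [ac, Prod.smul_fst, Prod.smul_snd, Pi.smul_apply, smul_eq_mul] <;>
      (try split_ifs) <;> ring

theorem acW_add (w : List (Letter ι)) (u v : Cls ι) : acW w (u + v) = acW w u + acW w v := by
  induction w generalizing u v with
  | nil => rfl
  | cons a w ih => rw [acW, ac_add, ih, acW, acW]

theorem acW_smul (w : List (Letter ι)) (c : ℤ) (u : Cls ι) : acW w (c • u) = c • acW w u := by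
  induction w generalizing u with
  | nil => rfl
  | cons a w ih => rw [acW, ac_smul, ih, acW]

/-- the action of a word as a linear map -/
def acL (w : List (Letter ι)) : Cls ι →ₗ[ℤ] Cls ι where
  toFun := acW w
  map_add' := acW_add w
  map_smul' := acW_smul w

theorem acW_sub (w : List (Letter ι)) (u v : Cls ι) : acW w (u - v) = acW w u - acW w v :=
  (acL w).map_sub u v

theorem acW_neg (w : List (Letter ι)) (u : Cls ι) : acW w (-u) = -acW w u := (acL w).map_neg u

theorem acW_zero (w : List (Letter ι)) : acW w (0 : Cls ι) = 0 := (acL w).map_zero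

theorem acW_sum {σ : Type} (w : List (Letter ι)) (s : Finset σ) (c : σ → ℤ) (b : σ → Cls ι) :
    acW w (∑ i ∈ s, c i • b i) = ∑ i ∈ s, c i • acW w (b i) := by
  have := map_sum (acL w) (fun i => c i • b i) s
  simp only [map_smul] at this
  exact this

/-- a word agrees with a linear map as soon as it does so on the standard basis -/
theorem acW_ext [Fintype ι] (w : List (Letter ι)) (M : Cls ι → Cls ι)
    (ha : ∀ u v, M (u + v) = M u + M v) (hs : ∀ (c : ℤ) u, M (c • u) = c • M u)
    (h1 : acW w (1, 0, 0) = M (1, 0, 0)) (h2 : acW w (0, 1, 0) = M (0, 1, 0))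
    (h3 : ∀ l, acW w (0, 0, Pi.single l 1) = M (0, 0, Pi.single l 1)) (u : Cls ι) :
    acW w u = M u := by
  let N : Cls ι →ₗ[ℤ] Cls ι := ⟨⟨M, ha⟩, hs⟩
  have e : u = u.1 • ((1, 0, 0) : Cls ι) + u.2.1 • ((0, 1, 0) : Cls ι) +
      ∑ l, u.2.2 l • ((0, 0, Pi.single l 1) : Cls ι) := by
    refine Prod.ext ?_ (Prod.ext ?_ (funext fun l => ?_)) <;>
      simp [Prod.fst_sum, Prod.snd_sum, Finset.sum_apply, Pi.single_apply]
  change acL w u = N u
  rw [e]
  simp only [map_add, map_smul, map_sum]
  change u.1 • acW w _ + u.2.1 • acW w _ + ∑ l, u.2.2 l • acW w _ =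
    u.1 • M _ + u.2.1 • M _ + ∑ l, u.2.2 l • M _
  simp only [h1, h2, h3]

/-- letters which are involutions on classes -/
def Inv : Letter ι → Prop
  | .R σ => ∀ l, σ (σ l) = l
  | _ => True

instance decInv [Fintype ι] (a : Letter ι) : Decidable (Inv a) := by
  cases a <;> unfold Inv <;> infer_instance

theorem ac_ac {a : Letter ι} (h : Inv a) (u : Cls ι) : ac a (ac a u) = u := by
  cases a with
  | Ky i j => exact ac_ky_ky i j u
  | Kx i j => exact ac_kx_kx i j u
  | R σ => exact Prod.ext rfl (Prod.ext rfl (funext fun l => congrArg u.2.2 (h l)))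
  | _ => rfl

theorem acW_rev {w : List (Letter ι)} (h : ∀ a ∈ w, Inv a) (u : Cls ι) :
    acW w.reverse (acW w u) = u := by
  induction w generalizing u with
  | nil => rfl
  | cons a w ih =>
    rw [List.reverse_cons, acW_append]
    change ac a (acW w.reverse (acW w (ac a u))) = u
    rw [ih fun b hb => h b (List.mem_cons_of_mem _ hb)]
    exact ac_ac (h a List.mem_cons_self) u

theorem acW_rev' {w : List (Letter ι)} (h : ∀ a ∈ w, Inv a) (u : Cls ι) :
    acW w (acW w.reverse u) = u := by
  have := acW_rev (w := w.reverse) (fun a ha => h a (List.mem_reverse.1 ha)) u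
  rwa [List.reverse_reverse] at this

/-- the intersection form -/
def ipc [Fintype ι] (u v : Cls ι) : ℤ := u.1 * v.2.1 + u.2.1 * v.1 - ∑ l, u.2.2 l * v.2.2 l

/-- the anticanonical class -/
def akn : Cls ι := (2, 2, fun _ => 1)

/-- letters which are isometries -/
def Wf : Letter ι → Prop
  | .Ky i j => i ≠ j
  | .Kx i j => i ≠ j
  | .R σ => Function.Bijective σ
  | _ => True

instance decWf [Fintype ι] (a : Letter ι) : Decidable (Wf a) := by
  cases a <;> unfold Wf <;> infer_instance

theorem sum_two [Fintype ι] {i j : ι} (h : i ≠ j) (f g : ι → ℤ) :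
    ∑ l, (if l = i ∨ l = j then f l else g l) = ∑ l, g l + (f i - g i) + (f j - g j) := by
  have e : ∀ l, (if l = i ∨ l = j then f l else g l) =
      g l + (if l = i then f i - g i else 0) + (if l = j then f j - g j else 0) := fun l => by
    by_cases a : l = i
    · subst a
      simp [h]
    by_cases b : l = j
    · subst b
      simp [a]
    simp [a, b]
  simp only [e, Finset.sum_add_distrib, Finset.sum_ite_eq', Finset.mem_univ, if_true]

theorem ipc_ac [Fintype ι] {a : Letter ι} (h : Wf a) (u v : Cls ι) :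
    ipc (ac a u) (ac a v) = ipc u v := by
  cases a with
  | Ky i j =>
    simp only [ipc, ac, ite_mul, mul_ite]
    rw [Finset.sum_congr rfl (g := fun l => if l = i ∨ l = j then
      (u.1 - u.2.2 l) * (v.1 - v.2.2 l) else u.2.2 l * v.2.2 l) fun l _ => by
        split_ifs <;> rfl, sum_two h]
    ring
  | Kx i j =>
    simp only [ipc, ac, ite_mul, mul_ite]
    rw [Finset.sum_congr rfl (g := fun l => if l = i ∨ l = j then
      (u.2.1 - u.2.2 l) * (v.2.1 - v.2.2 l) else u.2.2 l * v.2.2 l) fun l _ => by
        split_ifs <;> rfl, sum_two h]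
    ring
  | S => simp only [ipc, ac, add_comm]
  | R σ =>
    simp only [ipc, ac]
    rw [Function.Bijective.sum_comp h fun l => u.2.2 l * v.2.2 l]
  | _ => rfl

theorem ipc_acW [Fintype ι] {w : List (Letter ι)} (h : ∀ a ∈ w, Wf a) (u v : Cls ι) :
    ipc (acW w u) (acW w v) = ipc u v := by
  induction w generalizing u v with
  | nil => rfl
  | cons a w ih =>
    rw [acW, acW, ih fun b hb => h b (List.mem_cons_of_mem _ hb), ipc_ac (h a List.mem_cons_self)]

theorem ac_akn (a : Letter ι) : ac a akn = akn := by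
  cases a <;> try rfl
  all_goals
    refine Prod.ext rfl (Prod.ext rfl (funext fun l => ?_))
    simp [ac, akn]

theorem acW_akn (w : List (Letter ι)) : acW w akn = akn := by
  induction w with
  | nil => rfl
  | cons a w ih => rw [acW, ac_akn, ih]

omit [DecidableEq ι] in
theorem Valid.wf {A : Type} [CommRing A] {a : Letter ι} {P : ι → Fin 4 → A} (h : Valid a P) :
    Wf a := by
  cases a with
  | Ky i j => exact fun e => h.1 (by rw [e, dx_self])
  | Kx i j => exact fun e => h.1 (by rw [e, dy_self])
  | R σ => exact h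
  | _ => trivial

theorem ValidW.wf {A : Type} [CommRing A] {w : List (Letter ι)} {P : ι → Fin 4 → A}
    (h : ValidW w P) : ∀ a ∈ w, Wf a := by
  induction w generalizing P with
  | nil => exact fun a ha => absurd ha List.not_mem_nil
  | cons a w ih =>
    intro b hb
    rcases List.mem_cons.1 hb with rfl | hb
    · exact h.1.wf
    · exact ih h.2 b hb

/-- the dimension on the new configuration in terms of the old one -/
theorem rk_mvW_rev {K : Type} [Field K] {w : List (Letter ι)} {P : ι → Fin 4 → K}
    (h : ValidW w P) (hP : ∀ l, Pt (P l)) (hi : ∀ a ∈ w, Inv a) (u : Cls ι) :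
    rk (mvW w P) u = rk P (acW w.reverse u) := by
  rw [rk_mvW h hP, acW_rev' hi]

/-- tests on the last configuration -/
theorem validW_tests {A : Type} [CommRing A] (sx sy : List (ι × ι)) (P : ι → Fin 4 → A) :
    ValidW (sx.map (fun e => Letter.NX e.1 e.2) ++ sy.map fun e => Letter.NY e.1 e.2) P ↔
      (∀ e ∈ sx, dx (P e.1) (P e.2) ≠ 0) ∧ ∀ e ∈ sy, dy (P e.1) (P e.2) ≠ 0 := by
  induction sx with
  | nil =>
    induction sy with
    | nil => simp [ValidW]
    | cons e s ih =>
      simp only [List.map_nil, List.nil_append, List.not_mem_nil, false_imp_iff, implies_true,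
        true_and, List.map_cons, List.forall_mem_cons] at ih ⊢
      exact and_congr Iff.rfl ih
  | cons e s ih =>
    simp only [List.map_cons, List.cons_append, List.forall_mem_cons, and_assoc]
    exact and_congr Iff.rfl ih

/-- families of configurations given by integral polynomial formulas -/
structure Fam (ι σ : Type) where
  /-- the points -/
  pt : ∀ (A : Type) [CommRing A], (σ → A) → ι → Fin 4 → A
  nat : ∀ (A B : Type) [CommRing A] [CommRing B] (f : A →+* B) (x : σ → A),
    mp f (pt A x) = pt B fun i => f (x i)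

/-- the image of a family under a word -/
def Fam.word {σ : Type} (F : Fam ι σ) (w : List (Letter ι)) : Fam ι σ where
  pt := fun A _ x => mvW w (F.pt A x)
  nat := fun A B _ _ f x => by rw [← mvW_mp, F.nat]

omit [DecidableEq ι] in
theorem Fam.ev {σ : Type} (F : Fam ι σ) {A : Type} [CommRing A] (x : σ → A) :
    F.pt A x = mp (eval₂Hom (Int.castRingHom A) x) (F.pt (MvPolynomial σ ℤ) X) := by
  rw [F.nat]
  simp

/-- from one specialisation to independent parameters -/
theorem Fam.valid {σ : Type} (F : Fam ι σ) {Z K : Type} [CommRing Z] [CommRing K] {y : σ → Z}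
    {x : σ → K} (hx : Function.Injective (eval₂Hom (Int.castRingHom K) x)) {w : List (Letter ι)}
    (h : ValidW w (F.pt Z y)) : ValidW w (F.pt K x) := by
  rw [F.ev] at h ⊢
  exact h.transfer _ _ hx

omit [DecidableEq ι] in
theorem Fam.isPt {σ : Type} (F : Fam ι σ) {Z K : Type} [CommRing Z] [CommRing K] {y : σ → Z}
    {x : σ → K} (hx : Function.Injective (eval₂Hom (Int.castRingHom K) x)) {l : ι}
    (h : Pt (F.pt Z y l)) : Pt (F.pt K x l) := by
  rw [F.ev] at h ⊢
  exact pt_transfer _ _ hx h

omit [DecidableEq ι] in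
theorem Fam.ne {σ : Type} (F : Fam ι σ) {Z K : Type} [CommRing Z] [CommRing K] {y : σ → Z}
    {x : σ → K} (hx : Function.Injective (eval₂Hom (Int.castRingHom K) x)) {l : ι} {c : Fin 4}
    (h : F.pt Z y l c ≠ 0) : F.pt K x l c ≠ 0 := by
  rw [F.ev] at h ⊢
  rw [mp, map_ne_zero_iff _ hx]
  intro e
  exact h (by rw [mp, e, map_zero])

/-- one kernel computation: the points are points, the word is valid, and the listed
determinants of the last configuration are not zero -/
def Fam.chk [Fintype ι] {σ : Type} (F : Fam ι σ) (ls : List ι) (ix : ι → ℕ) {p : ℕ}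
    (y : σ → ZMod p) (w : List (Letter ι)) (sx sy : List (ι × ι)) : Bool :=
  frcP ls ix (F.pt (ZMod p) y) fun P => decide (∀ l, Pt (P l)) &&
    chkW ls ix (fun Q => (sx.all fun e => decide (dx (Q e.1) (Q e.2) ≠ 0)) &&
      sy.all fun e => decide (dy (Q e.1) (Q e.2) ≠ 0)) w P

theorem Fam.cert [Fintype ι] {σ : Type} (F : Fam ι σ) {ls : List ι} {ix : ι → ℕ}
    (hl : ∀ l, ls[ix l]? = some l) {p : ℕ} [NeZero p] {y : σ → ZMod p} {w : List (Letter ι)}
    {sx sy : List (ι × ι)} (h : F.chk ls ix y w sx sy = true) {K : Type} [CommRing K] {x : σ → K}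
    (hx : Function.Injective (eval₂Hom (Int.castRingHom K) x)) :
    (∀ l, Pt (F.pt K x l)) ∧ ValidW w (F.pt K x) ∧
      (∀ e ∈ sx, dx (mvW w (F.pt K x) e.1) (mvW w (F.pt K x) e.2) ≠ 0) ∧
      ∀ e ∈ sy, dy (mvW w (F.pt K x) e.1) (mvW w (F.pt K x) e.2) ≠ 0 := by
  rw [Fam.chk, frcP_eq hl, Bool.and_eq_true, decide_eq_true_iff] at h
  obtain ⟨h1, h2⟩ := chkW_sound hl h.2
  simp only [Bool.and_eq_true, List.all_eq_true, decide_eq_true_iff] at h2
  have h3 := F.valid hx ((validW_append _ _ _).2 ⟨h1, (validW_tests sx sy _).2 h2⟩)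
  rw [validW_append, validW_tests] at h3
  exact ⟨fun l => F.isPt hx (h.1 l), h3⟩

end Pool.Agent.Lib.MP_d03834_ag.Core.BW
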