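import Pool.Agent.Lib.MP_d03834_ag.Core.BiShear

/-! Words of elementary transformations given by polynomial formulas, with certificates. -/

set_option autoImplicit false

namespace Pool.Agent.Lib.MP_d03834_ag.Core.BW

open MvPolynomial Module

/-- Ky keeps the fibres y = const, Kx keeps the fibres x = const, S exchanges the factors,
R relabels, X2 X3 Y2 Y3 send i, j, k to infinity, zero, one, NX NY only test -/
inductive Letter (ι : Type) where
  | Ky (i j : ι)
  | Kx (i j : ι)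
  | S
  | R (σ : ι → ι)
  | X2 (i j : ι)
  | Y2 (i j : ι)
  | X3 (i j k : ι)
  | Y3 (i j k : ι)
  | NX (i j : ι)
  | NY (i j : ι)

/-- classes (p, q, m) -/
abbrev Cls (ι : Type) : Type := ℤ × ℤ × (ι → ℤ)

variable {ι : Type} [DecidableEq ι]

/-- the action on classes -/
def ac : Letter ι → Cls ι → Cls ι
  | .Ky i j, u => (u.1, u.2.1 + u.1 - u.2.2 i - u.2.2 j,
      fun l => if l = i ∨ l = j then u.1 - u.2.2 l else u.2.2 l)
  | .Kx i j, u => (u.1 + u.2.1 - u.2.2 i - u.2.2 j, u.2.1,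
      fun l => if l = i ∨ l = j then u.2.1 - u.2.2 l else u.2.2 l)
  | .S, u => (u.2.1, u.1, u.2.2)
  | .R σ, u => (u.1, u.2.1, fun l => u.2.2 (σ l))
  | _, u => u

/-- the action of a word on classes, first letter first -/
def acW : List (Letter ι) → Cls ι → Cls ι
  | [], u => u
  | a :: w, u => acW w (ac a u)

section ring
variable {A B : Type} [CommRing A] [CommRing B]

/-- the action on configurations -/
def mv : Letter ι → (ι → Fin 4 → A) → ι → Fin 4 → A
  | .Ky i j, P, l => if l = i then ![1, 0, P l 2, P l 3] else if l = j then ![0, 1, P l 2, P l 3]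
      else ![dx (P i) (P l) * dy (P j) (P l), dx (P j) (P l) * dy (P i) (P l), P l 2, P l 3]
  | .Kx i j, P, l => if l = i then ![P l 0, P l 1, 1, 0] else if l = j then ![P l 0, P l 1, 0, 1]
      else ![P l 0, P l 1, dy (P i) (P l) * dx (P j) (P l), dy (P j) (P l) * dx (P i) (P l)]
  | .S, P, l => swP (P l)
  | .R σ, P, l => P (σ l)
  | .X2 i j, P, l => ![dx (P j) (P l), dx (P i) (P l), P l 2, P l 3]
  | .Y2 i j, P, l => ![P l 0, P l 1, dy (P j) (P l), dy (P i) (P l)]
  | .X3 i j k, P, l =>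
      ![dx (P j) (P l) * dx (P i) (P k), dx (P i) (P l) * dx (P j) (P k), P l 2, P l 3]
  | .Y3 i j k, P, l =>
      ![P l 0, P l 1, dy (P j) (P l) * dy (P i) (P k), dy (P i) (P l) * dy (P j) (P k)]
  | .NX _ _, P, l => P l
  | .NY _ _, P, l => P l

/-- the conditions for a letter -/
def Valid : Letter ι → (ι → Fin 4 → A) → Prop
  | .Ky i j, P => dx (P i) (P j) ≠ 0 ∧ dy (P i) (P j) ≠ 0 ∧
      ∀ l, l ≠ i → l ≠ j → dy (P i) (P l) ≠ 0 ∧ dy (P j) (P l) ≠ 0
  | .Kx i j, P => dy (P i) (P j) ≠ 0 ∧ dx (P i) (P j) ≠ 0 ∧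
      ∀ l, l ≠ i → l ≠ j → dx (P i) (P l) ≠ 0 ∧ dx (P j) (P l) ≠ 0
  | .S, _ => True
  | .R σ, _ => Function.Bijective σ
  | .X2 i j, P => dx (P i) (P j) ≠ 0
  | .Y2 i j, P => dy (P i) (P j) ≠ 0
  | .X3 i j k, P => dx (P i) (P j) ≠ 0 ∧ dx (P i) (P k) ≠ 0 ∧ dx (P j) (P k) ≠ 0
  | .Y3 i j k, P => dy (P i) (P j) ≠ 0 ∧ dy (P i) (P k) ≠ 0 ∧ dy (P j) (P k) ≠ 0
  | .NX i j, P => dx (P i) (P j) ≠ 0
  | .NY i j, P => dy (P i) (P j) ≠ 0

/-- the action of a word on configurations, first letter first -/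
def mvW : List (Letter ι) → (ι → Fin 4 → A) → ι → Fin 4 → A
  | [], P => P
  | a :: w, P => mvW w (mv a P)

/-- the conditions for a word -/
def ValidW : List (Letter ι) → (ι → Fin 4 → A) → Prop
  | [], _ => True
  | a :: w, P => Valid a P ∧ ValidW w (mv a P)

/-- image of a configuration -/
def mp (f : A →+* B) (P : ι → Fin 4 → A) : ι → Fin 4 → B := fun l c => f (P l c)

omit [DecidableEq ι] in
theorem dx_mp (f : A →+* B) (P : ι → Fin 4 → A) (i j : ι) :
    dx (mp f P i) (mp f P j) = f (dx (P i) (P j)) := by simp [dx, mp]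

omit [DecidableEq ι] in
theorem dy_mp (f : A →+* B) (P : ι → Fin 4 → A) (i j : ι) :
    dy (mp f P i) (mp f P j) = f (dy (P i) (P j)) := by simp [dy, mp]

theorem mv_mp (f : A →+* B) (a : Letter ι) (P : ι → Fin 4 → A) :
    mv a (mp f P) = mp f (mv a P) := by
  funext l c
  cases a <;> simp only [mv, dx_mp, dy_mp] <;> simp only [mp, mv] <;> (try split_ifs) <;>
    fin_cases c <;> simp [swP, mp]

theorem mvW_mp (f : A →+* B) (w : List (Letter ι)) (P : ι → Fin 4 → A) :
    mvW w (mp f P) = mp f (mvW w P) := by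
  induction w generalizing P with
  | nil => rfl
  | cons a w ih => rw [mvW, mvW, mv_mp, ih]

omit [DecidableEq ι] in
theorem Valid.tr {a : Letter ι} {P : ι → Fin 4 → A} {Q : ι → Fin 4 → B}
    (hx : ∀ i j, dx (P i) (P j) ≠ 0 → dx (Q i) (Q j) ≠ 0)
    (hy : ∀ i j, dy (P i) (P j) ≠ 0 → dy (Q i) (Q j) ≠ 0) (h : Valid a P) : Valid a Q := by
  cases a with
  | Ky i j => exact ⟨hx _ _ h.1, hy _ _ h.2.1, fun l a b =>
      ⟨hy _ _ (h.2.2 l a b).1, hy _ _ (h.2.2 l a b).2⟩⟩
  | Kx i j => exact ⟨hy _ _ h.1, hx _ _ h.2.1, fun l a b =>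
      ⟨hx _ _ (h.2.2 l a b).1, hx _ _ (h.2.2 l a b).2⟩⟩
  | S => trivial
  | R σ => exact h
  | X2 i j => exact hx _ _ h
  | Y2 i j => exact hy _ _ h
  | X3 i j k => exact ⟨hx _ _ h.1, hx _ _ h.2.1, hx _ _ h.2.2⟩
  | Y3 i j k => exact ⟨hy _ _ h.1, hy _ _ h.2.1, hy _ _ h.2.2⟩
  | NX i j => exact hx _ _ h
  | NY i j => exact hy _ _ h

theorem ValidW.of_mp (f : A →+* B) {w : List (Letter ι)} {P : ι → Fin 4 → A}
    (h : ValidW w (mp f P)) : ValidW w P := by
  induction w generalizing P with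
  | nil => trivial
  | cons a w ih =>
    refine ⟨h.1.tr (fun i j e e0 => e ?_) fun i j e e0 => e ?_, ih (mv_mp f a P ▸ h.2)⟩
    · rw [dx_mp, e0, map_zero]
    · rw [dy_mp, e0, map_zero]

theorem ValidW.to_mp (g : A →+* B) (hg : Function.Injective g) {w : List (Letter ι)}
    {P : ι → Fin 4 → A} (h : ValidW w P) : ValidW w (mp g P) := by
  induction w generalizing P with
  | nil => trivial
  | cons a w ih =>
    refine ⟨h.1.tr (fun i j e => ?_) fun i j e => ?_, (mv_mp g a P).symm ▸ ih h.2⟩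
    · rwa [dx_mp, map_ne_zero_iff g hg]
    · rwa [dy_mp, map_ne_zero_iff g hg]

/-- a certificate in a quotient gives the conditions in any extension -/
theorem ValidW.transfer {Z : Type} [CommRing Z] (f : A →+* Z) (g : A →+* B)
    (hg : Function.Injective g) {w : List (Letter ι)} {P : ι → Fin 4 → A}
    (h : ValidW w (mp f P)) : ValidW w (mp g P) := (h.of_mp f).to_mp g hg

omit [DecidableEq ι] in
theorem pt_transfer {Z : Type} [CommRing Z] (f : A →+* Z) (g : A →+* B)
    (hg : Function.Injective g) {P : ι → Fin 4 → A} {l : ι} (h : Pt (mp f P l)) :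
    Pt (mp g P l) := by
  have k : ∀ c, mp f P l c ≠ 0 → mp g P l c ≠ 0 := fun c e => by
    rw [mp, map_ne_zero_iff g hg]
    intro e0
    exact e (by rw [mp, e0, map_zero])
  exact ⟨h.1.imp (k _) (k _), h.2.imp (k _) (k _)⟩

theorem mvW_append (w w' : List (Letter ι)) (P : ι → Fin 4 → A) :
    mvW (w ++ w') P = mvW w' (mvW w P) := by
  induction w generalizing P with
  | nil => rfl
  | cons a w ih => exact ih _

theorem validW_append (w w' : List (Letter ι)) (P : ι → Fin 4 → A) :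
    ValidW (w ++ w') P ↔ ValidW w P ∧ ValidW w' (mvW w P) := by
  induction w generalizing P with
  | nil => exact ⟨fun h => ⟨trivial, h⟩, fun h => h.2⟩
  | cons a w ih =>
    change _ ∧ ValidW (w ++ w') _ ↔ (_ ∧ _) ∧ _
    rw [ih, and_assoc]
    rfl

instance decValid [Fintype ι] [DecidableEq A] (a : Letter ι) (P : ι → Fin 4 → A) :
    Decidable (Valid a P) := by
  cases a <;> unfold Valid <;> infer_instance

instance decPt [DecidableEq A] (P : Fin 4 → A) : Decidable (Pt P) := by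
  unfold Pt
  infer_instance

end ring

theorem acW_append (w w' : List (Letter ι)) (u : Cls ι) : acW (w ++ w') u = acW w' (acW w u) := by
  induction w generalizing u with
  | nil => rfl
  | cons a w ih => exact ih _

section cert

/-- evaluation of a number before it is used -/
def frc {α : Type} (n : ℕ) (f : ℕ → α) : α :=
  match n with
  | 0 => f 0
  | k + 1 => f (k + 1)

theorem frc_eq {α : Type} (n : ℕ) (f : ℕ → α) : frc n f = f n := by cases n <;> rfl

/-- evaluation of a list before it is used -/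
def frcL {α : Type} : List ℕ → (List ℕ → α) → α
  | [], f => f []
  | a :: l, f => frc a fun b => frcL l fun l' => f (b :: l')

theorem frcL_eq {α : Type} (l : List ℕ) (f : List ℕ → α) : frcL l f = f l := by
  induction l generalizing f with
  | nil => rfl
  | cons a l ih => rw [frcL, frc_eq, ih]

variable {p : ℕ}

/-- evaluation of a configuration before it is used -/
def frcP {α : Type} (ls : List ι) (ix : ι → ℕ) (P : ι → Fin 4 → ZMod p)
    (f : (ι → Fin 4 → ZMod p) → α) : α :=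
  frcL (ls.map fun l => (P l 0).val) fun L0 => frcL (ls.map fun l => (P l 1).val) fun L1 =>
    frcL (ls.map fun l => (P l 2).val) fun L2 => frcL (ls.map fun l => (P l 3).val) fun L3 =>
      f fun l => ![(L0.getD (ix l) 0 : ℕ), (L1.getD (ix l) 0 : ℕ), (L2.getD (ix l) 0 : ℕ),
        (L3.getD (ix l) 0 : ℕ)]

omit [DecidableEq ι] in
theorem frcP_eq [NeZero p] {α : Type} {ls : List ι} {ix : ι → ℕ} (h : ∀ l, ls[ix l]? = some l)
    (P : ι → Fin 4 → ZMod p) (f : (ι → Fin 4 → ZMod p) → α) : frcP ls ix P f = f P := by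
  simp only [frcP, frcL_eq]
  congr 1
  funext l c
  fin_cases c <;> simp [List.getD_eq_getElem?_getD, h l]

/-- the checker; k is any test on the last configuration -/
def chkW [Fintype ι] (ls : List ι) (ix : ι → ℕ) (k : (ι → Fin 4 → ZMod p) → Bool) :
    List (Letter ι) → (ι → Fin 4 → ZMod p) → Bool
  | [], P => frcP ls ix P k
  | a :: w, P => frcP ls ix P fun Q => decide (Valid a Q) && chkW ls ix k w (mv a Q)

theorem chkW_sound [Fintype ι] [NeZero p] {ls : List ι} {ix : ι → ℕ}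
    (h : ∀ l, ls[ix l]? = some l) {k : (ι → Fin 4 → ZMod p) → Bool} {w : List (Letter ι)}
    {P : ι → Fin 4 → ZMod p} (hc : chkW ls ix k w P = true) :
    ValidW w P ∧ k (mvW w P) = true := by
  induction w generalizing P with
  | nil => exact ⟨trivial, by rwa [chkW, frcP_eq h] at hc⟩
  | cons a w ih =>
    rw [chkW, frcP_eq h, Bool.and_eq_true, decide_eq_true_iff] at hc
    exact ⟨⟨hc.1, (ih hc.2).1⟩, (ih hc.2).2⟩

/-- the checker for points indexed by Fin n -/
theorem chk_fin {n : ℕ} [NeZero p] {k : (Fin n → Fin 4 → ZMod p) → Bool}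
    {w : List (Letter (Fin n))} {P : Fin n → Fin 4 → ZMod p}
    (hc : chkW (List.finRange n) Fin.val k w P = true) : ValidW w P ∧ k (mvW w P) = true :=
  chkW_sound (fun l => by simp) hc

end cert

section field
variable {K : Type} [Field K]

/-- the dimension of the class u on the configuration P -/
noncomputable def rk (P : ι → Fin 4 → K) (u : Cls ι) : ℕ := finrank K (H0 u.1 u.2.1 P u.2.2)

theorem dy_or {a b c : Fin 4 → K} (h : dy a b ≠ 0) (hc : Pt c) : dy a c ≠ 0 ∨ dy b c ≠ 0 := by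
  by_cases e : dy b c = 0
  · exact .inl (dy_ne h e hc)
  · exact .inr e

theorem dx_or {a b c : Fin 4 → K} (h : dx a b ≠ 0) (hc : Pt c) : dx a c ≠ 0 ∨ dx b c ≠ 0 :=
  dy_or (a := swP a) (b := swP b) (c := swP c) h hc.swP

theorem Valid.pt {a : Letter ι} {P : ι → Fin 4 → K} (h : Valid a P) (hP : ∀ l, Pt (P l)) (l : ι) :
    Pt (mv a P l) := by
  cases a with
  | Ky i j =>
    simp only [mv]
    split_ifs with e e'
    · exact ⟨.inl one_ne_zero, (hP l).2⟩
    · exact ⟨.inr one_ne_zero, (hP l).2⟩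
    · exact ⟨(dx_or h.1 (hP l)).imp (fun x => mul_ne_zero x (h.2.2 l e e').2)
        fun x => mul_ne_zero x (h.2.2 l e e').1, (hP l).2⟩
  | Kx i j =>
    simp only [mv]
    split_ifs with e e'
    · exact ⟨(hP l).1, .inl one_ne_zero⟩
    · exact ⟨(hP l).1, .inr one_ne_zero⟩
    · exact ⟨(hP l).1, (dy_or h.1 (hP l)).imp (fun x => mul_ne_zero x (h.2.2 l e e').2)
        fun x => mul_ne_zero x (h.2.2 l e e').1⟩
  | S => exact (hP l).swP
  | R σ => exact hP _
  | X2 i j => exact ⟨(dx_or h (hP l)).symm, (hP l).2⟩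
  | Y2 i j => exact ⟨(hP l).1, (dy_or h (hP l)).symm⟩
  | X3 i j k => exact ⟨(dx_or h.1 (hP l)).symm.imp (fun x => mul_ne_zero x h.2.1)
      fun x => mul_ne_zero x h.2.2, (hP l).2⟩
  | Y3 i j k => exact ⟨(hP l).1, (dy_or h.1 (hP l)).symm.imp (fun x => mul_ne_zero x h.2.1)
      fun x => mul_ne_zero x h.2.2⟩
  | NX i j => exact hP l
  | NY i j => exact hP l

theorem ValidW.pt {w : List (Letter ι)} {P : ι → Fin 4 → K} (h : ValidW w P)
    (hP : ∀ l, Pt (P l)) (l : ι) : Pt (mvW w P l) := by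
  induction w generalizing P with
  | nil => exact hP l
  | cons a w ih => exact ih h.2 (h.1.pt hP)

omit [DecidableEq ι] in
/-- the same projective points -/
theorem H0_congr {P Q : ι → Fin 4 → K} (hP : ∀ l, Pt (P l)) (hQ : ∀ l, Pt (Q l))
    (hx : ∀ l, dx (P l) (Q l) = 0) (hy : ∀ l, dy (P l) (Q l) = 0) (p q : ℤ) (m : ι → ℤ) :
    H0 p q P m = H0 p q Q m :=
  le_antisymm (H0_le fun l => .inr ⟨l, le_rfl, hQ l, hx l, hy l⟩)
    (H0_le fun l => .inr ⟨l, le_rfl, hP l, by rw [dx_comm, hx, neg_zero],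
      by rw [dy_comm, hy, neg_zero]⟩)

omit [DecidableEq ι] in
/-- change of coordinates -/
theorem rk_act {a b c d a' b' c' d' : K} (h : a * d - b * c ≠ 0) (h' : a' * d' - b' * c' ≠ 0)
    {P : ι → Fin 4 → K} (hP : ∀ l, Pt (P l)) (u : Cls ι) :
    rk P u = rk (fun l => act a b c d a' b' c' d' (P l)) u := by
  refine le_antisymm ?_ (rk_lin h h' _ _ _ _)
  refine le_trans (Submodule.finrank_mono (H0_le fun l => .inr ⟨l, le_rfl, ?_, ?_, ?_⟩))
    (rk_lin (a := d) (b := -b) (c := -c) (d := a) (a' := d') (b' := -b') (c' := -c') (d' := a')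
      (by convert h using 1; ring) (by convert h' using 1; ring) _ _ _ _)
  · refine ⟨(hP l).1.imp (fun x => ?_) fun x => ?_, (hP l).2.imp (fun x => ?_) fun x => ?_⟩
    · convert mul_ne_zero h x using 1
      simp [act]; ring
    · convert mul_ne_zero h x using 1
      simp [act]; ring
    · convert mul_ne_zero h' x using 1
      simp [act]; ring
    · convert mul_ne_zero h' x using 1
      simp [act]; ring
  · simp [act, dx]; ring
  · simp [act, dy]; ring

theorem ac_ky_ky (i j : ι) (u : Cls ι) : ac (.Ky i j) (ac (.Ky i j) u) = u := by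
  refine Prod.ext rfl (Prod.ext ?_ (funext fun l => ?_))
  · simp [ac]
    ring
  · simp only [ac]
    split_ifs
    · ring
    · rfl

theorem ac_kx_kx (i j : ι) (u : Cls ι) : ac (.Kx i j) (ac (.Kx i j) u) = u := by
  refine Prod.ext ?_ (Prod.ext rfl (funext fun l => ?_))
  · simp [ac]
    ring
  · simp only [ac]
    split_ifs
    · ring
    · rfl

theorem rk_ky {i j : ι} {P : ι → Fin 4 → K} (h : Valid (.Ky i j) P) (hP : ∀ l, Pt (P l))
    (u : Cls ι) : rk P u = rk (mv (.Ky i j) P) (ac (.Ky i j) u) := by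
  have hij : j ≠ i := fun e => h.1 (by rw [e, dx_self])
  have hM := h.pt hP
  let Q : ι → Fin 4 → K := fun l => if l = i then ![-1, 0, P l 2, P l 3] else mv (.Ky i j) P l
  have hQ : ∀ l, Pt (Q l) := fun l => by
    simp only [Q]
    split_ifs
    · exact ⟨.inl (neg_ne_zero.2 one_ne_zero), (hP l).2⟩
    · exact hM l
  have y2 : ∀ l, Q l 2 = P l 2 := fun l => by
    simp only [Q, mv]
    split_ifs <;> rfl
  have y3 : ∀ l, Q l 3 = P l 3 := fun l => by
    simp only [Q, mv]
    split_ifs <;> rfl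
  have i0 : Q i 0 = -1 := by simp [Q]
  have i1 : Q i 1 = 0 := by simp [Q]
  have j0 : Q j 0 = 0 := by simp [Q, mv, hij]
  have j1 : Q j 1 = 1 := by simp [Q, mv, hij]
  have l0 : ∀ l, l ≠ i → l ≠ j → Q l 0 = dx (P i) (P l) * dy (P j) (P l) := fun l a b => by
    simp [Q, mv, a, b]
  have l1 : ∀ l, l ≠ i → l ≠ j → Q l 1 = dx (P j) (P l) * dy (P i) (P l) := fun l a b => by
    simp [Q, mv, a, b]
  have d1 : ∀ a b, dy (P a) (Q b) = dy (P a) (P b) := fun a b => by rw [dy, dy, y2, y3]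
  have d2 : ∀ a b, dy (Q a) (P b) = dy (P a) (P b) := fun a b => by rw [dy, dy, y2, y3]
  have d3 : ∀ a b, dy (Q a) (Q b) = dy (P a) (P b) := fun a b => by rw [dy, dy, y2, y3, y2, y3]
  have hx : dx (Q i) (Q j) ≠ 0 := by simp [dx, i0, i1, j0, j1]
  have e : rk (mv (.Ky i j) P) (ac (.Ky i j) u) = rk Q (ac (.Ky i j) u) := by
    rw [rk, rk, H0_congr hM hQ (fun l => ?_) fun l => ?_] <;> simp only [Q] <;> split_ifs with a
    · simp [mv, a, dx]
    · exact dx_self _
    · simp [mv, a, dy, mul_comm]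
    · exact dy_self _
  rw [e]
  refine le_antisymm (shear hP hQ h.1 hx h.2.1 (fun l => by rw [d1, dy_self]) fun l a b => ?_) ?_
  · rw [d1, d1]
    refine ⟨(h.2.2 l a b).1, (h.2.2 l a b).2, ?_⟩
    have x1 : dx (Q j) (Q l) = Q l 0 := by simp [dx, j0, j1]
    have x2 : dx (Q i) (Q l) = Q l 1 := by simp [dx, i0, i1]
    rw [dx_comm (P l) (P j), dx_comm (P l) (P i), x1, x2, l0 l a b, l1 l a b]
    ring
  · refine (shear (i := i) (j := j) hQ hP hx h.1 (by rw [d3]; exact h.2.1)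
      (fun l => by rw [d2, dy_self]) fun l a b => ?_).trans (le_of_eq ?_)
    · rw [d2, d2]
      refine ⟨(h.2.2 l a b).1, (h.2.2 l a b).2, ?_⟩
      have x1 : dx (Q l) (Q j) = -Q l 0 := by simp [dx, j0, j1]
      have x2 : dx (Q l) (Q i) = -Q l 1 := by simp [dx, i0, i1]
      rw [x1, x2, l0 l a b, l1 l a b]
      ring
    · change rk P (ac (.Ky i j) (ac (.Ky i j) u)) = rk P u
      rw [ac_ky_ky]

omit [DecidableEq ι] in
theorem rk_S (P : ι → Fin 4 → K) (u : Cls ι) :
    rk P u = rk (fun l => swP (P l)) (u.2.1, u.1, u.2.2) := rk_swp _ _ _ _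

/-- a letter does not change the dimension -/
theorem rk_mv {a : Letter ι} {P : ι → Fin 4 → K} (h : Valid a P) (hP : ∀ l, Pt (P l))
    (u : Cls ι) : rk P u = rk (mv a P) (ac a u) := by
  cases a with
  | Ky i j => exact rk_ky h hP u
  | Kx i j =>
    rw [rk_S, rk_ky (i := i) (j := j) (P := fun l => swP (P l)) h fun l => (hP l).swP, rk_S]
    congr 1
    funext l c
    simp only [mv]
    split_ifs <;> fin_cases c <;> rfl
  | S => exact rk_S P u
  | R σ =>
    refine congrArg (fun S : Submodule K (Cx K) => finrank K S) ?_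
    refine le_antisymm (H0_le fun l => .inr ⟨σ l, le_rfl, hP _, dx_self _, dy_self _⟩)
      (H0_le fun l => ?_)
    obtain ⟨l, rfl⟩ := h.2 l
    exact .inr ⟨l, le_rfl, hP _, dx_self _, dy_self _⟩
  | X2 i j =>
    rw [rk_act (a := P j 1) (b := -P j 0) (c := P i 1) (d := -P i 0) (a' := 1) (b' := 0) (c' := 0)
      (d' := 1) (fun e => h (by rw [dx]; linear_combination e)) (by simp) hP]
    congr 1
    funext l c
    fin_cases c <;> simp [mv, act, dx, sub_eq_add_neg]
  | Y2 i j =>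
    rw [rk_act (a' := P j 3) (b' := -P j 2) (c' := P i 3) (d' := -P i 2) (a := 1) (b := 0) (c := 0)
      (d := 1) (by simp) (fun e => h (by rw [dy]; linear_combination e)) hP]
    congr 1
    funext l c
    fin_cases c <;> simp [mv, act, dy, sub_eq_add_neg]
  | X3 i j k =>
    rw [rk_act (a := P j 1 * dx (P i) (P k)) (b := -P j 0 * dx (P i) (P k))
      (c := P i 1 * dx (P j) (P k)) (d := -P i 0 * dx (P j) (P k)) (a' := 1) (b' := 0) (c' := 0)
      (d' := 1) (by
        convert mul_ne_zero h.1 (mul_ne_zero h.2.1 h.2.2) using 1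
        simp only [dx]; ring) (by simp) hP]
    congr 1
    funext l c
    fin_cases c <;> simp [mv, act, dx] <;> ring
  | Y3 i j k =>
    rw [rk_act (a' := P j 3 * dy (P i) (P k)) (b' := -P j 2 * dy (P i) (P k))
      (c' := P i 3 * dy (P j) (P k)) (d' := -P i 2 * dy (P j) (P k)) (a := 1) (b := 0) (c := 0)
      (d := 1) (by simp) (by
        convert mul_ne_zero h.1 (mul_ne_zero h.2.1 h.2.2) using 1
        simp only [dy]; ring) hP]
    congr 1
    funext l c
    fin_cases c <;> simp [mv, act, dy] <;> ring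
  | NX i j => rfl
  | NY i j => rfl

/-- a valid word does not change the dimension, for all integer classes -/
theorem rk_mvW {w : List (Letter ι)} {P : ι → Fin 4 → K} (h : ValidW w P) (hP : ∀ l, Pt (P l))
    (u : Cls ι) : rk P u = rk (mvW w P) (acW w u) := by
  induction w generalizing P u with
  | nil => rfl
  | cons a w ih => exact (rk_mv h.1 hP u).trans (ih h.2 (h.1.pt hP) _)

omit [DecidableEq ι] in
theorem rk_pos {P : ι → Fin 4 → K} {u : Cls ι} :
    0 < rk P u ↔ ∃ F, F ≠ 0 ∧ Bih u.1 u.2.1 F ∧ ∀ l, F ∈ pid (P l) ^ (u.2.2 l).toNat := by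
  rw [rk, Nat.pos_iff_ne_zero, Ne, Submodule.finrank_eq_zero, Submodule.eq_bot_iff]
  push Not
  exact ⟨fun ⟨F, a, b⟩ => ⟨F, b, mem_H0.1 a⟩, fun ⟨F, b, a⟩ => ⟨F, mem_H0.2 a, b⟩⟩

omit [DecidableEq ι] in
/-- a curve through simple points -/
theorem eff_of {P : ι → Fin 4 → K} (hP : ∀ l, Pt (P l)) {u : Cls ι} (F : Cx K) (h0 : F ≠ 0)
    (hF : Bih u.1 u.2.1 F) (h : ∀ l, u.2.2 l ≤ 0 ∨ u.2.2 l = 1 ∧ eval (P l) F = 0) :
    0 < rk P u := by
  refine rk_pos.2 ⟨F, h0, hF, fun l => ?_⟩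
  rcases h l with e | ⟨e, e'⟩
  · rw [Int.toNat_eq_zero.2 e]
    simp
  · rw [e, Int.toNat_one, pow_one]
    exact pid_of_eval (hP l) hF e'

omit [DecidableEq ι] in
/-- the equation of an effective class -/
theorem eff_ex {P : ι → Fin 4 → K} {u : Cls ι} (h : 0 < rk P u) :
    ∃ F, F ≠ 0 ∧ Bih u.1 u.2.1 F ∧ ∀ l, 1 ≤ u.2.2 l → eval (P l) F = 0 := by
  obtain ⟨F, a, b, c⟩ := rk_pos.1 h
  exact ⟨F, a, b, fun l hl => pid_eval (Ideal.pow_le_self (by omega) (c l))⟩

theorem bih10 {F : Cx K} (h : Bih 1 0 F) : ∃ a b : K, F = C a * X 0 + C b * X 1 := by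
  classical
  refine ⟨coeff (Finsupp.single 0 1) F, coeff (Finsupp.single 1 1) F, ?_⟩
  ext μ
  rw [coeff_add, coeff_C_mul, coeff_C_mul, coeff_X, coeff_X]
  by_cases h0 : Finsupp.single 0 1 = μ
  · subst h0
    simp [Finsupp.single_eq_single_iff]
  by_cases h1 : Finsupp.single 1 1 = μ
  · subst h1
    simp [h0]
  rw [if_neg h0, if_neg h1, mul_zero, mul_zero, add_zero]
  by_contra hn
  obtain ⟨a, b⟩ := bih_iff.1 h μ hn
  by_cases c : μ 0 = 1
  · refine h0 (Finsupp.ext fun k => ?_)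
    fin_cases k <;> simp <;> omega
  · refine h1 (Finsupp.ext fun k => ?_)
    fin_cases k <;> simp <;> omega

omit [DecidableEq ι] in
/-- points on an effective class of bidegree (1, 0) have the same x -/
theorem eff_dx {P : ι → Fin 4 → K} {u : Cls ι} (h : 0 < rk P u) (h1 : u.1 = 1) (h2 : u.2.1 = 0)
    {i j : ι} (hi : 1 ≤ u.2.2 i) (hj : 1 ≤ u.2.2 j) : dx (P i) (P j) = 0 := by
  obtain ⟨F, a, b, c⟩ := eff_ex h
  rw [h1, h2] at b
  obtain ⟨s, t, rfl⟩ := bih10 b
  have e1 := c i hi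
  have e2 := c j hj
  simp only [map_add, map_mul, eval_C, eval_X] at e1 e2
  by_contra hn
  refine a ?_
  have hs : s = 0 := (mul_eq_zero.1 (by
    rw [dx]; linear_combination P i 1 * e2 - P j 1 * e1 : s * dx (P i) (P j) = 0)).resolve_right hn
  have ht : t = 0 := (mul_eq_zero.1 (by
    rw [dx]; linear_combination P j 0 * e1 - P i 0 * e2 : t * dx (P i) (P j) = 0)).resolve_right hn
  simp [hs, ht]

omit [DecidableEq ι] in
/-- points on an effective class of bidegree (0, 1) have the same y -/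
theorem eff_dy {P : ι → Fin 4 → K} {u : Cls ι} (h : 0 < rk P u) (h1 : u.1 = 0) (h2 : u.2.1 = 1)
    {i j : ι} (hi : 1 ≤ u.2.2 i) (hj : 1 ≤ u.2.2 j) : dy (P i) (P j) = 0 :=
  eff_dx (P := fun l => swP (P l)) (u := (u.2.1, u.1, u.2.2)) (rk_S P u ▸ h) h2 h1 hi hj

omit [DecidableEq ι] in
/-- a fibre x = const through simple points -/
theorem eff_x {P : ι → Fin 4 → K} (hP : ∀ l, Pt (P l)) {u : Cls ι} (h1 : u.1 = 1)
    (h2 : u.2.1 = 0) (i : ι) (h : ∀ l, u.2.2 l ≤ 0 ∨ u.2.2 l = 1 ∧ dx (P i) (P l) = 0) :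
    0 < rk P u :=
  eff_of hP (lx (P i)) (lx_ne (hP i)) (h1 ▸ h2 ▸ bih_lx _) fun l => by
    rw [eval_lx]; exact h l

omit [DecidableEq ι] in
/-- a fibre y = const through simple points -/
theorem eff_y {P : ι → Fin 4 → K} (hP : ∀ l, Pt (P l)) {u : Cls ι} (h1 : u.1 = 0)
    (h2 : u.2.1 = 1) (i : ι) (h : ∀ l, u.2.2 l ≤ 0 ∨ u.2.2 l = 1 ∧ dy (P i) (P l) = 0) :
    0 < rk P u :=
  eff_of hP (ly (P i)) (ly_ne (hP i)) (h1 ▸ h2 ▸ bih_ly _) fun l => by
    rw [eval_ly]; exact h l

end field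

end Pool.Agent.Lib.MP_d03834_ag.Core.BW
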