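import Pool.Agent.Lib.MP_d03834_ag.Core.N11Fb
import Pool.Agent.Lib.MP_d03834_ag.Core.BiWord

/-! Eleven points: the free fold along the nodal curve of bidegree (2, 2). -/

set_option autoImplicit false

namespace Pool.Agent.Lib.MP_d03834_ag.Core

open Module BW

/-- the three shears; the labels are a1 a2 b1 b2 c1 c2 d1 d2 eps nu -/
def n11W0 : List (Letter (Fin 10)) := [.Kx 9 2, .Ky 7 0, .Ky 5 2]

/-- the tests in the last frame -/
def n11W1 : List (Letter (Fin 10)) :=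
  [.NY 1 3, .NY 1 4, .NY 1 6, .NY 3 4, .NY 3 6, .NY 4 6,
    .NX 1 0, .NX 1 2, .NX 1 5, .NX 1 7, .NX 1 8, .NX 1 9]

/-- the word from the chart of the four lines to the top chart -/
def n11W : List (Letter (Fin 10)) := n11W0 ++ n11W1

/-- the class of the uniform system minus j times the nodal curve -/
def n11Y (d m j : ℤ) : Cls (Fin 10) :=
  (3 * d - 7 * m - 2 * j, 5 * d - 13 * m - 2 * j,
    ![2 * d - 5 * m - j, d - 2 * m - j, 3 * d - 8 * m - j, m - j, d - 2 * m - j,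
      2 * d - 5 * m - j, m - j, 3 * d - 8 * m - j, d - 2 * m, m - 2 * j])

/-- the class of the nodal curve -/
def n11N : Cls (Fin 10) := (2, 2, ![1, 1, 1, 1, 1, 1, 1, 1, 0, 2])

theorem n11_acY (d m j : ℤ) :
    acW n11W0 (n11Y d m j) = (5 * d - 13 * m - j, 6 * d - 16 * m, n11S d m j) := by
  refine Prod.ext ?_ (Prod.ext ?_ (funext fun l => ?_))
  · simp [acW, ac, n11W0, n11Y]
    ring
  · simp [acW, ac, n11W0, n11Y]
    ring
  · fin_cases l <;> simp [acW, ac, n11W0, n11Y, n11S] <;> ring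

theorem n11_acN : acW n11W0 n11N = (1, 0, ![0, 1, 0, 1, 1, 0, 1, 0, 0, 0]) := by decide

/-- the free fold on top of the design for eleven points -/
theorem n11_top {K : Type} [Field K] [Algebra ℂ K] {d m t r : ℕ} (h3 : 3 * m ≤ d)
    (ht : t + 2 * d = 7 * m) (P : Fin 10 → Fin 4 → K) (hP : ∀ l, Pt (P l)) (hv : ValidW n11W P)
    (hN : 0 < rk P n11N) (h1 : rk P (n11Y d m t) ≤ r + t) (h2 : rk P (n11Y d m (t + 1)) ≤ r) :
    Hle d (fun _ : Fin 11 => m) r := by
  obtain ⟨v0, v1⟩ := (validW_append _ _ _).1 hv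
  rw [rk_mvW v0 hP, n11_acN] at hN
  rw [rk_mvW v0 hP, n11_acY] at h1 h2
  have hQ := v0.pt hP
  generalize mvW n11W0 P = Q at *
  obtain ⟨y13, y14, y16, y34, y36, y46, x0, x2, x5, x7, x8, x9, -⟩ := v1
  have sy : ∀ {a b : Fin 4 → K}, dy a b ≠ 0 → dy b a ≠ 0 := fun h => by
    rw [dy_comm]; exact neg_ne_zero.2 h
  refine n11_fib h3 ht Q hQ (fun i => eff_dx hN rfl rfl (by decide) (by revert i; decide))
    (fun i j hij => ?_) (fun j => ?_) h1 h2
  · fin_cases i <;> fin_cases j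
    exacts [absurd rfl hij, y13, y14, y16, sy y13, absurd rfl hij, y34, y36, sy y14, sy y34,
      absurd rfl hij, y46, sy y16, sy y36, sy y46, absurd rfl hij]
  · fin_cases j
    exacts [x0, x2, x5, x7, x8, x9]

end Pool.Agent.Lib.MP_d03834_ag.Core
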