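import Pool.Agent.Lib.MP_d03834_ag.Core.N11C
import Pool.Agent.Lib.MP_d03834_ag.Core.N11Top
import Pool.Agent.Lib.MP_d03834_ag.Core.BiWordB

/-! Eleven points: the word to the top chart is valid on the family. -/

set_option autoImplicit false

namespace Pool.Agent.Lib.MP_d03834_ag.Core

/-- the family of ten points in four parameters -/
def fam11v : BW.Fam (Fin 10) (Fin 4) where
  pt := fun _ _ x => pt11 (x 0) (x 1) (x 2) (x 3)
  nat := fun A B _ _ f x => by
    funext l c
    fin_cases l <;> fin_cases c <;> simp [BW.mp, pt11, q11, map_ofNat]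

theorem fam11v_chk : fam11v.chk (List.finRange 10) Fin.val (p := 10007) ![5, 7, 11, 13] n11W
    [] [] = true := by decide +kernel

theorem val11v {K : Type} [Field K] {x : Fin 4 → K}
    (hx : Function.Injective (MvPolynomial.eval₂Hom (Int.castRingHom K) x)) :
    (∀ l, Pt (pt11 (x 0) (x 1) (x 2) (x 3) l)) ∧ BW.ValidW n11W (pt11 (x 0) (x 1) (x 2) (x 3)) :=
  have h := fam11v.cert (by decide) fam11v_chk hx
  ⟨h.1, h.2.1⟩

end Pool.Agent.Lib.MP_d03834_ag.Core
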