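import Pool.Agent.Lib.MP_d03834_ag.Core.EightB

/-! Eleven points: the arithmetic of the windows. -/

set_option autoImplicit false

namespace Pool.Agent.Lib.MP_d03834_ag.Core

/-- the bound which the main theorem gives for a class of square q -/
def KB11 (q : ℤ) (x : ℕ) : Prop := (0 < q → (x : ℤ) ≤ 1 + q / 2) ∧ (q < 0 → x = 0)

/-- the critical range, with 3 d < 10 m and 16 ≤ m -/
structure R11 (m d : ℤ) : Prop where
  m16 : 16 ≤ m
  d0 : 0 ≤ d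
  lo : (d + 1) * d ≤ 11 * ((m + 1) * m)
  hi : 11 * ((m + 1) * m) < (d + 3) * (d + 2)
  k1 : 3 * d < 10 * m

/-- linear consequences: 2 ≤ ν = 4 d - 13 m, and 5 k ≤ e + 13 for k = 10 m - 3 d, e = d - 3 m -/
theorem R11.lin {m d : ℤ} (h : R11 m d) : 13 * m + 2 ≤ 4 * d ∧ 53 * m ≤ 16 * d + 13 := by
  obtain ⟨h0, hd, -, h2, -⟩ := h
  have a : 53 * m ≤ 16 * d + 13 := by
    by_contra hn
    nlinarith
  refine ⟨?_, a⟩
  by_contra hn
  rcases (by omega : m = 16 ∧ d ≤ 52 ∨ m = 17 ∧ d ≤ 55 ∨ m = 18 ∧ d ≤ 58 ∨ m = 19 ∧ d ≤ 62 ∨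
    m = 20 ∧ d ≤ 65) with ⟨rfl, b⟩ | ⟨rfl, b⟩ | ⟨rfl, b⟩ | ⟨rfl, b⟩ | ⟨rfl, b⟩ <;> nlinarith

/-- the square of the class with twists t, ν + 1, k + ε -/
def q110 (m d ε : ℤ) : ℤ :=
  d ^ 2 - 11 * m ^ 2 - (2 * (4 * d - 13 * m) + 1) - (4 * d - 13 * m + 1) % 2 -
    ε * (2 * (10 * m - 3 * d) + 1)

/-- the square of the class with twists t + 1, ν - 2, k + ε -/
def q111 (m d ε : ℤ) : ℤ :=
  d ^ 2 - 11 * m ^ 2 - 4 * (7 * m - 2 * d + 1) - (4 * d - 13 * m) % 2 -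
    ε * (2 * (10 * m - 3 * d) + 1)

/-- the windows -/
theorem n11_win {m d : ℤ} (h : R11 m d) {r y0 y1 x00 x01 x10 x11 : ℕ}
    (hr : (d + 2) * (d + 1) - 11 * ((m + 1) * m) ≤ 2 * r)
    (a0 : (y0 : ℤ) ≤ (4 * d - 13 * m) / 2 + 1 + x00)
    (a1 : (y0 : ℤ) ≤ (4 * d - 13 * m) / 2 + 1 + ((10 * m - 3 * d) / 2 + 1 + x01))
    (b0 : y1 ≤ x10) (b1 : (y1 : ℤ) ≤ (10 * m - 3 * d) / 2 + 1 + x11)
    (k00 : KB11 (q110 m d 0) x00) (k01 : KB11 (q110 m d 1) x01)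
    (k10 : KB11 (q111 m d 0) x10) (k11 : KB11 (q111 m d 1) x11) :
    (y0 : ℤ) ≤ r + (7 * m - 2 * d) ∧ y1 ≤ r := by
  obtain ⟨l1, l2⟩ := h.lin
  have l3 := h.k1
  have l4 := h.m16
  have e : (d + 2) * (d + 1) - 11 * ((m + 1) * m) = d ^ 2 - 11 * m ^ 2 + 3 * d - 11 * m + 2 := by
    ring
  rw [e] at hr
  simp only [KB11, q110, q111] at k00 k01 k10 k11
  generalize d ^ 2 - 11 * m ^ 2 = s at *
  constructor
  · rcases lt_trichotomy 0 (s - (2 * (4 * d - 13 * m) + 1) - (4 * d - 13 * m + 1) % 2 -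
      1 * (2 * (10 * m - 3 * d) + 1)) with c | c | c
    · have := k01.1 c
      omega
    · have := k00.1 (by omega)
      omega
    · have := k01.2 c
      omega
  · rcases lt_trichotomy 0 (s - 4 * (7 * m - 2 * d + 1) - (4 * d - 13 * m) % 2 -
      0 * (2 * (10 * m - 3 * d) + 1)) with c | c | c
    · have := k10.1 c
      omega
    · have := k11.2 (by omega)
      omega
    · have := k10.2 c
      omega

/-- the statement for eleven points from the main range -/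
theorem core11_of (H : ∀ m d r : ℕ, R11 m d →
    ((d : ℤ) + 2) * (d + 1) - 11 * ((m + 1) * m) ≤ 2 * r → Hle d (fun _ : Fin 11 => m) r) :
    CoreN 11 := by
  intro m d hm h1 h2
  by_cases h3 : m < 16 ∨ 10 * m ≤ 3 * d
  · exact core11_B m d hm h1 h2 h3
  have a0 := two_ch m
  have a1 := two_ch d
  have a2 : 2 * (d + 2).choose 2 = (d + 2) * (d + 1) := two_ch (d + 1)
  have a3 : 2 * (d + 3).choose 2 = (d + 3) * (d + 2) := two_ch (d + 2)
  have b1 : (d + 1) * d ≤ 11 * ((m + 1) * m) := by omega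
  have b2 : 11 * ((m + 1) * m) < (d + 3) * (d + 2) := by omega
  have b3 : (d + 2) * (d + 1) ≤
      2 * ((d + 2).choose 2 - 11 * (m + 1).choose 2) + 11 * ((m + 1) * m) := by omega
  refine H m d _ ⟨by omega, by omega, by exact_mod_cast b1, by exact_mod_cast b2, by omega⟩ ?_
  generalize (d + 2).choose 2 - 11 * (m + 1).choose 2 = r at b3
  rw [sub_le_iff_le_add]
  exact_mod_cast b3

end Pool.Agent.Lib.MP_d03834_ag.Core
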