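import Pool.Agent.Lib.MP_d03834_ag.Core.N11C
import Pool.Agent.Lib.MP_d03834_ag.Core.N11Top
import Pool.Agent.Lib.MP_d03834_ag.Core.N11Ar

/-! Eleven points: the four classes in the chart of the shape. -/

set_option autoImplicit false

namespace Pool.Agent.Lib.MP_d03834_ag.Core

/-- the class in the chart of the shape, with twists j, n and 10 m - 3 d + ε; g = (n + 1) / 2 -/
def u11k (d m j n g ε : ℤ) : CL :=
  ((12 * d - 37 * m - 2 * j - n - ε, 9 * d - 27 * m - 2 * j - n),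
    ![4 * d - 12 * m - j - g, 3 * d - 9 * m - j - g, 4 * d - 12 * m,
      4 * d - 12 * m - j - n + g, 3 * d - 9 * m - j - n + g], ![d - 3 * m, 2 * d - 6 * m - n])

theorem cl11k {m d j n ε : ℤ} (h : R11 m d) (hε : ε = 0 ∨ ε = 1)
    (hj : j = 7 * m - 2 * d ∧ n = 4 * d - 13 * m + 1 ∨
      j = 7 * m - 2 * d + 1 ∧ n = 4 * d - 13 * m - 2 + 0) :
    Cl11 ((n11Y d m j).1 - (10 * m - 3 * d + ε) - n)
      ((n11Y d m j).2.1 - 2 * ((10 * m - 3 * d + ε + 1) / 2) - 2 * ((n + 1) / 2))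
      (tw2 n (tw3 (10 * m - 3 * d + ε) (n11Y d m j).2.2)) ε (u11k d m j n ((n + 1) / 2) ε) := by
  obtain ⟨l1, l2⟩ := h.lin
  have l3 := h.k1
  have l4 := h.m16
  clear h
  refine ⟨⟨?_, ?_, ?_, fun s => ?_, ?_, ?_, fun s => ?_⟩, ?_, ?_, ?_, ?_, ?_, ?_, fun l => ?_,
    fun l => ?_, fun s => ?_, fun s => ?_⟩
  · rw [cD_M]
    simp [u11k, Fin.sum_univ_five]
    omega
  · simp [u11k]
    omega
  · simp [u11k]
    omega
  · fin_cases s <;> simp [u11k] <;> omega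
  · simp [u11k]
    omega
  · simp [u11k]
    omega
  · fin_cases s <;> simp [u11k, max_def] <;> omega
  · simp [n11Y, tw2, tw3]
    omega
  · simp [n11Y, tw2, tw3]
    omega
  · simp [n11Y, tw2, tw3]
    omega
  · simp [n11Y, tw2, tw3]
    omega
  · simp [n11Y, tw2, tw3, u11k, dgy, par]
    omega
  · simp [n11Y, tw2, tw3, u11k, dgx, dgy, par]
    omega
  · fin_cases l <;> simp [n11Y, tw2, tw3, u11k, dgy, par] <;> omega
  · fin_cases l <;> simp [n11Y, tw2, tw3, u11k, mlt] <;> omega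
  · fin_cases s <;> simp [n11Y, tw2, tw3, u11k, mlt, dgy, par] <;> omega
  · fin_cases s <;> simp [n11Y, tw2, tw3, u11k, mlt, dgy, par] <;> omega

theorem sq11k (d m j n g ε : ℤ) : cip (u11k d m j n g ε) (u11k d m j n g ε) =
    2 * (12 * d - 37 * m - 2 * j - n - ε) * (9 * d - 27 * m - 2 * j - n) -
      (12 * d - 37 * m - 2 * j - n - ε) ^ 2 - (4 * d - 12 * m - j - g) ^ 2 -
      (3 * d - 9 * m - j - g) ^ 2 - (4 * d - 12 * m) ^ 2 - (4 * d - 12 * m - j - n + g) ^ 2 -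
      (3 * d - 9 * m - j - n + g) ^ 2 - (d - 3 * m) ^ 2 - (2 * d - 6 * m - n) ^ 2 := by
  simp [cip, u11k, Fin.sum_univ_five, Fin.sum_univ_two]
  ring

theorem cls11 {m d ε : ℤ} (h : R11 m d) (hε : ε = 0 ∨ ε = 1) :
    (∃ u, cip u u = q110 m d ε ∧ Cl11
      ((n11Y d m (7 * m - 2 * d)).1 - (10 * m - 3 * d + ε) - (4 * d - 13 * m + 1))
      ((n11Y d m (7 * m - 2 * d)).2.1 - 2 * ((10 * m - 3 * d + ε + 1) / 2) -
        2 * ((4 * d - 13 * m + 1 + 1) / 2))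
      (tw2 (4 * d - 13 * m + 1) (tw3 (10 * m - 3 * d + ε) (n11Y d m (7 * m - 2 * d)).2.2)) ε u) ∧
    ∃ u, cip u u = q111 m d ε ∧ Cl11
      ((n11Y d m (7 * m - 2 * d + 1)).1 - (10 * m - 3 * d + ε) - (4 * d - 13 * m - 2 + 0))
      ((n11Y d m (7 * m - 2 * d + 1)).2.1 - 2 * ((10 * m - 3 * d + ε + 1) / 2) -
        2 * ((4 * d - 13 * m - 2 + 0 + 1) / 2))
      (tw2 (4 * d - 13 * m - 2 + 0) (tw3 (10 * m - 3 * d + ε)
        (n11Y d m (7 * m - 2 * d + 1)).2.2)) ε u := by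
  refine ⟨⟨_, ?_, cl11k h hε (.inl ⟨rfl, rfl⟩)⟩, _, ?_, cl11k h hε (.inr ⟨rfl, rfl⟩)⟩
  · rw [sq11k, q110]
    obtain ⟨a, rfl | rfl⟩ := Int.even_or_odd' m
    · rw [(by omega : (4 * d - 13 * (2 * a) + 1 + 1) / 2 = 2 * d - 13 * a + 1),
        (by omega : (4 * d - 13 * (2 * a) + 1) % 2 = 1)]
      rcases hε with rfl | rfl <;> ring
    · rw [(by omega : (4 * d - 13 * (2 * a + 1) + 1 + 1) / 2 = 2 * d - 13 * a - 6),
        (by omega : (4 * d - 13 * (2 * a + 1) + 1) % 2 = 0)]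
      rcases hε with rfl | rfl <;> ring
  · rw [sq11k, q111]
    obtain ⟨a, rfl | rfl⟩ := Int.even_or_odd' m
    · rw [(by omega : (4 * d - 13 * (2 * a) - 2 + 0 + 1) / 2 = 2 * d - 13 * a - 1),
        (by omega : (4 * d - 13 * (2 * a)) % 2 = 0)]
      rcases hε with rfl | rfl <;> ring
    · rw [(by omega : (4 * d - 13 * (2 * a + 1) - 2 + 0 + 1) / 2 = 2 * d - 13 * a - 7),
        (by omega : (4 * d - 13 * (2 * a + 1)) % 2 = 1)]
      rcases hε with rfl | rfl <;> ring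

end Pool.Agent.Lib.MP_d03834_ag.Core
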