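import Pool.Agent.Lib.MP_d03834_ag.Core.N11Up
import Pool.Agent.Lib.MP_d03834_ag.Core.N11K
import Pool.Agent.Lib.MP_d03834_ag.Core.N11Ev
import Pool.Agent.Lib.MP_d03834_ag.Core.N11Ef
import Pool.Agent.Lib.MP_d03834_ag.Core.N11Top

/-! Eleven points: the assembly. -/

set_option autoImplicit false

namespace Pool.Agent.Lib.MP_d03834_ag.Core

open Module MvPolynomial Function

section main
variable {K : Type} [Field K]

theorem n11_inj2 {a : K} (h : Injective (eval₂Hom (Int.castRingHom K) ![a])) :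
    Injective (eval₂Hom (Int.castRingHom (LS K)) ![lsT K, lsC K a]) :=
  inj_int (inj_consL h) fun l => by fin_cases l <;> rfl

theorem n11_inj3 {a b : K} (h : Injective (eval₂Hom (Int.castRingHom K) ![a, b])) :
    Injective (eval₂Hom (Int.castRingHom (LS K)) ![lsT K, lsC K a, lsC K b]) :=
  inj_int (inj_consL h) fun l => by fin_cases l <;> rfl

theorem n11_inj4 {a b c : K} (h : Injective (eval₂Hom (Int.castRingHom K) ![a, b, c])) :
    Injective (eval₂Hom (Int.castRingHom (LS K)) ![lsT K, lsC K a, lsC K b, lsC K c]) :=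
  inj_int (inj_consL h) fun l => by fin_cases l <;> rfl

theorem n11_ne {t s : K} (hx : Injective (eval₂Hom (Int.castRingHom K) ![t, s])) :
    6 - 9 * t - s ≠ 0 := by
  have := ne_of_mod hx (![5, 7] : Fin 2 → ℤ) (F := 6 - 9 * X 0 - X 1) (by simp)
  simp only [map_mul, map_sub, map_ofNat, eval₂Hom_X'] at this
  exact this

theorem n11_eff {σ τ t s : K} (hx : Injective (eval₂Hom (Int.castRingHom K) ![σ, τ, t, s]))
    (hP : ∀ l, Pt (pt11 σ τ t s l)) : 0 < BW.rk (pt11 σ τ t s) n11N := by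
  refine eff11v (by ring) (by ring) ?_ hP
  have := ne_of_mod hx (![1, 1, 5, 7] : Fin 4 → ℤ)
    (F := X 1 * (2 * ((1 - X 2) ^ 2 * (6 - 9 * X 2)) * ((1 - 3 * X 2) ^ 2 * (2 - X 2))))
    (by simp)
  simp only [map_mul, map_sub, map_pow, map_one, map_ofNat, eval₂Hom_X'] at this
  exact this

theorem n11_val {a b c e : K} (h : Injective (eval₂Hom (Int.castRingHom K) ![a, b, c, e])) :
    (∀ l, Pt (pt11 a b c e l)) ∧ BW.ValidW n11W (pt11 a b c e) := val11v h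

/-- both folds -/
theorem n11_two [CharZero K] {t s ye : K} (hx : Injective (eval₂Hom (Int.castRingHom K) ![t, s]))
    (ee : ye * (6 - 9 * t - s) = (2 * (1 - 3 * t)) ^ 2 * (2 - t - s)) {d m j n i ε : ℤ}
    (hε : ε = 0 ∨ ε = 1) (hi : i = 0 ∨ i = 1) (h1 : 3 * d < 10 * m) (h2 : 0 ≤ n + i)
    (h3 : n ≤ m - 2 * j) (h4 : n + i ≤ d - 3 * m) :
    (BW.rk (pt11 (lsT (LS K)) (lsC (LS K) (lsT K)) (lsC (LS K) (lsC K t)) (lsC (LS K) (lsC K s)))
      (n11Y d m j) : ℤ) ≤ ε * ((10 * m - 3 * d + 2) / 2) + (i * ((n + 2) / 2) +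
      finrank K (W11 ((2 * (1 - 3 * t)) ^ 2) ((2 * (1 - t)) ^ 2) ye ((1 - t) ^ 2 * (6 - 9 * t))
        ((1 - 3 * t) ^ 2 * (2 - t)) ((n11Y d m j).1 - (10 * m - 3 * d + ε) - (n + i))
        ((n11Y d m j).2.1 - 2 * ((10 * m - 3 * d + ε + 1) / 2) - 2 * ((n + i + 1) / 2))
        (tw2 (n + i) (tw3 (10 * m - 3 * d + ε) (n11Y d m j).2.2)))) := by
  have hx1 := n11_inj3 hx
  refine (up11b hx1 (p := (n11Y d m j).1) (q := (n11Y d m j).2.1) (m := (n11Y d m j).2.2)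
    (κ := 10 * m - 3 * d) hε (by omega) ?_ ?_ ?_).trans
      (add_le_add_right (up11a hx ee hi h2 ?_ ?_ ?_ ?_ ?_) _)
  all_goals
    simp [n11Y, tw3]
    omega

theorem n11_main [CharZero K] [Algebra ℂ K] {t s ye : K}
    (hx : Injective (eval₂Hom (Int.castRingHom K) ![t, s]))
    (ee : ye * (6 - 9 * t - s) = (2 * (1 - 3 * t)) ^ 2 * (2 - t - s))
    (HB : ∀ {p q ε : ℤ} {m : Fin 10 → ℤ} {u : CL}, Cl11 p q m ε u → ε = 0 ∨ ε = 1 →
      KB11 (cip u u) (finrank K (W11 ((2 * (1 - 3 * t)) ^ 2) ((2 * (1 - t)) ^ 2) ye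
        ((1 - t) ^ 2 * (6 - 9 * t)) ((1 - 3 * t) ^ 2 * (2 - t)) p q m))) : CoreN 11 := by
  refine core11_of fun m d r h hr => ?_
  obtain ⟨l1, l2⟩ := h.lin
  have l3 := h.k1
  have hx1 := n11_inj3 hx
  have hx2 := n11_inj4 hx1
  obtain ⟨hP, hv⟩ := n11_val hx2
  obtain ⟨⟨u00, e00, c00⟩, u10, e10, c10⟩ := cls11 h (.inl rfl)
  obtain ⟨⟨u01, e01, c01⟩, u11, e11, c11⟩ := cls11 h (.inr rfl)
  have a00 := n11_two hx ee (d := d) (m := m) (j := 7 * m - 2 * d) (n := 4 * d - 13 * m)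
    (.inl rfl) (.inr rfl) l3 (by omega) (by omega) (by omega)
  have a01 := n11_two hx ee (d := d) (m := m) (j := 7 * m - 2 * d) (n := 4 * d - 13 * m)
    (.inr rfl) (.inr rfl) l3 (by omega) (by omega) (by omega)
  have a10 := n11_two hx ee (d := d) (m := m) (j := 7 * m - 2 * d + 1) (n := 4 * d - 13 * m - 2)
    (.inl rfl) (.inl rfl) l3 (by omega) (by omega) (by omega)
  have a11 := n11_two hx ee (d := d) (m := m) (j := 7 * m - 2 * d + 1) (n := 4 * d - 13 * m - 2)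
    (.inr rfl) (.inl rfl) l3 (by omega) (by omega) (by omega)
  have b1 : (10 * m - 3 * d + 2 : ℤ) / 2 = (10 * m - 3 * d) / 2 + 1 := by omega
  have b2 : (4 * d - 13 * m + 2 : ℤ) / 2 = (4 * d - 13 * m) / 2 + 1 := by omega
  rw [b1, b2] at a00 a01
  rw [b1] at a10 a11
  have k00 := e00 ▸ HB c00 (.inl rfl)
  have k01 := e01 ▸ HB c01 (.inr rfl)
  have k10 := e10 ▸ HB c10 (.inl rfl)
  have k11 := e11 ▸ HB c11 (.inr rfl)
  have hN := n11_eff hx2 hP
  generalize pt11 (lsT (LS K)) (lsC (LS K) (lsT K)) (lsC (LS K) (lsC K t))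
    (lsC (LS K) (lsC K s)) = P at *
  obtain ⟨w1, w2⟩ := n11_win h hr (y0 := BW.rk P (n11Y d m (7 * m - 2 * d)))
    (y1 := BW.rk P (n11Y d m (7 * m - 2 * d + 1))) (by omega) (by omega) (by omega) (by omega)
    k00 k01 k10 k11
  obtain ⟨j, hj⟩ : ∃ j : ℕ, (j : ℤ) = 7 * m - 2 * d := ⟨7 * m - 2 * d, by omega⟩
  rw [← hj] at w1 w2
  exact n11_top (t := j) (by omega) (by omega) P hP hv hN (by omega) w2

end main

theorem n11_inj1 (F : Type) [Field F] [CharZero F] :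
    Injective (eval₂Hom (Int.castRingHom (RatFunc F)) ![RatFunc.X]) :=
  inj_int (inj_consR (inj_nil (g := Int.castRingHom F) Int.cast_injective ![])) fun l => by
    fin_cases l
    rfl

theorem n11_ye {K : Type} [Field K] {t s : K}
    (hx : Injective (eval₂Hom (Int.castRingHom K) ![t, s])) :
    ∃ ye, ye * (6 - 9 * t - s) = (2 * (1 - 3 * t)) ^ 2 * (2 - t - s) :=
  ⟨_, div_mul_cancel₀ _ (n11_ne hx)⟩

/-- the statement for eleven points -/
theorem core11 : CoreN 11 := by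
  have hx := n11_inj2 (n11_inj1 ℂ)
  obtain ⟨ye, ee⟩ := n11_ye hx
  exact n11_main hx ee fun h hε => w11_kb rfl rfl ee h hε

end Pool.Agent.Lib.MP_d03834_ag.Core

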