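import Pool.Agent.Lib.MP_d03834_ag.Core.All5
import Pool.Agent.Lib.MP_d03834_ag.Core.N11

/-! More than nine points. -/

set_option autoImplicit false

namespace Pool.Agent.Lib.MP_d03834_ag.Core

theorem shghAll {n m : ℕ} (hn : 9 < n) (hm : 0 < m) : Shgh n m := shgh_of11 core11 hn hm

end Pool.Agent.Lib.MP_d03834_ag.Core
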