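import Pool.Agent.Lib.MP_d03834_ag.Core.Top

/-! The collision of four points of the same multiplicity for general points. -/

set_option autoImplicit false

namespace Pool.Agent.Lib.MP_d03834_ag.Core

open MvPolynomial Module Nag

variable {ι : Type}

/-- affine polynomials of degree at most d with fat points -/
noncomputable def Aff (d : ℕ) (p : ι → Fin 2 → ℂ) (μ : ι → ℕ) : Submodule ℂ P2 :=
  ampV 1 d ⊓ ⨅ q, Fat (p q) (μ q)

theorem mem_Aff {d : ℕ} {p : ι → Fin 2 → ℂ} {μ : ι → ℕ} {F : P2} :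
    F ∈ Aff d p μ ↔ WB 1 d F ∧ ∀ q, F ∈ aid (p q) ^ μ q := by
  rw [Aff, Submodule.mem_inf, Submodule.mem_iInf]
  rfl

instance Aff_fin (d : ℕ) (p : ι → Fin 2 → ℂ) (μ : ι → ℕ) : FiniteDimensional ℂ (Aff d p μ) :=
  haveI := amp_fin one_pos d
  Submodule.finiteDimensional_of_le inf_le_left

theorem Aff_le (d : ℕ) (p : ι → Fin 2 → ℂ) (μ : ι → ℕ) :
    finrank ℂ (Aff d p μ) ≤ finrank ℂ (Sp d (fun q => hv (p q)) μ) := by
  refine le_trans (Submodule.finrank_mono fun F hF => ?_)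
    (Submodule.finrank_map_le H19.dh.toLinearMap _)
  obtain ⟨h1, h2⟩ := mem_Aff.1 hF
  obtain ⟨G, hG, rfl⟩ := H19.exists_hom d F ((H19.mem_sp _ _).2 fun ν hν => (H19.mem_tri _ _).2 (by
    by_contra hn
    exact mem_support_iff.1 hν (h1 ν (by omega))))
  refine ⟨G, mem_Sp.2 ⟨hG, fun q => ?_⟩, rfl⟩
  have e : H19.pid (p q) = aid (p q) := Ideal.ext fun x => H19.mem_pid _ x
  have := hid_a3 (p q) 1 _ (H19.mem_of_dh (p q) (μ q) d hG (e ▸ h2 q))
  rwa [one_smul] at this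

/-- the bound for one affine configuration -/
theorem hle_aff [Fintype ι] {d r : ℕ} {μ : ι → ℕ} (p : ι → Fin 2 → ℂ)
    (h : finrank ℂ (Aff d p μ) ≤ r) : Hle d μ r := by
  obtain ⟨s, -, hs⟩ := simple r _ h
  refine plane1 (Sum.elim p s) fun F h1 h2 => (Submodule.eq_bot_iff _).1 hs F
    ⟨mem_Aff.2 ⟨h1, fun q => h2 (.inl q)⟩, (Submodule.mem_iInf _).2 fun q => h2 (.inr q)⟩

theorem Sp_shift {K : Type} [Field K] (d : ℕ) (p : ι → Fin 2 → K) (μ : ι → ℕ) (a : Fin 2 → K) :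
    finrank K (Sp d (fun q => hv (p q + a)) μ) ≤ finrank K (Sp d (fun q => hv (p q)) μ) :=
  Sp_lin (M := !![1, 0, a 0; 0, 1, a 1; 0, 0, 1]) (by simp [Matrix.det_fin_three]) d _ _ μ
    fun q => ⟨1, one_ne_zero, by
      funext i
      fin_cases i <;> simp [Matrix.mulVec, dotProduct, Fin.sum_univ_three, hv]⟩

/-- the four point lemma -/
theorem Hle.four [Fintype ι] {d r m : ℕ} {μ : ι → ℕ} (hm : 0 < m)
    (h0 : Hle d (Sum.elim μ fun _ : Unit => 2 * m) (r + m))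
    (h1 : Hle d (Sum.elim μ fun _ : Unit => 2 * m + 1) r) :
    Hle d (Sum.elim μ fun _ : Fin 4 => m) r := by
  obtain ⟨p, a0, a1⟩ := (h0.gn.and h1.gn).ex
  let p' : ι ⊕ Unit → Fin 2 → ℂ := fun q => p q + (![1, 0] - p (.inr ()))
  have key : ∀ W, finrank ℂ ↥(Aff d (fun q => p' (.inl q)) μ ⊓ Cnd 1 0 1 1 W) ≤
      finrank ℂ (Sp d (fun q => hv (p q)) (Sum.elim μ fun _ : Unit => W)) := fun W => by
    refine le_trans (Submodule.finrank_mono fun F hF => ?_)
      ((Aff_le d p' _).trans (Sp_shift d p _ _))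
    refine mem_Aff.2 ⟨(mem_Aff.1 hF.1).1, ?_⟩
    rintro (q | q)
    · exact (mem_Aff.1 hF.1).2 q
    · have e : p' (.inr q) = ![1, 0] := by simp [p']
      rw [e]
      exact amp_cnd hF.2
  obtain ⟨τ, hτ⟩ := (dir_one m 1 _ r ((key _).trans a0) ((key _).trans a1)).exists
  obtain ⟨s, -, s1⟩ := simple r _ hτ
  obtain ⟨p4, -, b⟩ := replace_one m.succ_ne_zero hm.ne' (clu4 m) one_ne_zero τ
    (Aff d (fun q => p' (.inl q)) μ ⊓ ⨅ q, Fat (s q) 1) (by rw [inf_right_comm, s1])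
  refine plane1 (Sum.elim (Sum.elim (fun q => p' (.inl q)) p4) s) fun F h1 h2 =>
    (Submodule.eq_bot_iff _).1 b F ⟨⟨mem_Aff.2 ⟨h1, fun q => h2 (.inl (.inl q))⟩,
      (Submodule.mem_iInf _).2 fun q => h2 (.inr q)⟩,
      (Submodule.mem_iInf _).2 fun q => h2 (.inl (.inr q))⟩

/-- the four point lemma for uniform multiplicities -/
theorem Hle.four_unif {n d r m : ℕ} (hm : 0 < m)
    (h0 : Hle d (Sum.elim (fun _ : Fin n => m) fun _ : Unit => 2 * m) (r + m))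
    (h1 : Hle d (Sum.elim (fun _ : Fin n => m) fun _ : Unit => 2 * m + 1) r) :
    Hle d (fun _ : Fin (n + 4) => m) r :=
  (h0.four hm h1).mono finSumFinEquiv finSumFinEquiv.injective
    (by rintro (q | q) <;> exact le_rfl) le_rfl

/-- the statement for n points in the critical degrees -/
def CoreN (n : ℕ) : Prop :=
  ∀ m d : ℕ, 2 ≤ m → (d + 1).choose 2 ≤ n * (m + 1).choose 2 →
    n * (m + 1).choose 2 < (d + 3).choose 2 →
    Hle d (fun _ : Fin n => m) ((d + 2).choose 2 - n * (m + 1).choose 2)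

theorem CoreN.gen {n m : ℕ} (h : CoreN n) (hn : 0 < n) (hm : 0 < m) :
    H19.Gen n fun P => ∀ d, finrank ℂ ↥(homogeneousSubmodule (Fin 3) ℂ d ⊓
      Submodule.restrictScalars ℂ (⨅ i : Fin n, H19.hid (P i) ^ m)) =
      Nat.choose (d + 2) 2 - n * Nat.choose (m + 1) 2 := by
  refine assemble hn hm fun d h1 h2 => ?_
  rcases Nat.lt_or_ge m 2 with e | e
  · obtain rfl : m = 1 := by omega
    refine ampZ_one ?_
    simp only [Nat.reduceAdd, Nat.choose_self, mul_one]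
    omega
  · exact h m d e h1 h2

end Pool.Agent.Lib.MP_d03834_ag.Core
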