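import Pool.Agent.Lib.MP_d03834_ag.Core.Top

/-! Elementary comparison of linear systems of plane curves with fat points. -/

set_option autoImplicit false

namespace Pool.Agent.Lib.MP_d03834_ag.Core

open MvPolynomial Module H19

/-- multiplicity μ i at the point P i -/
noncomputable def vn {ι : Type} (μ : ι → ℕ) (P : ι → Pt) : Submodule ℂ R :=
  ⨅ i, (pid (P i) ^ μ i).restrictScalars ℂ

lemma mem_vn {ι : Type} (μ : ι → ℕ) (P : ι → Pt) (F : R) :
    F ∈ vn μ P ↔ ∀ i, F ∈ pid (P i) ^ μ i := by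
  simp [vn, Submodule.mem_iInf]

/-- polynomials of degree at most d with the multiplicities μ -/
noncomputable def Wa {ι : Type} (d : ℕ) (μ : ι → ℕ) (P : ι → Pt) : Submodule ℂ R :=
  sp (tri (d + 1)) ⊓ vn μ P

instance {ι : Type} (d : ℕ) (μ : ι → ℕ) (P : ι → Pt) : FiniteDimensional ℂ (Wa d μ P) :=
  Submodule.finiteDimensional_of_le inf_le_left

lemma ten_card (a b : ℕ) : (tri b \ tri a).card ≤ tn b - tn a := by
  rcases le_total a b with h | h
  · rw [Finset.card_sdiff_of_subset, card_tri, card_tri]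
    intro μ hμ
    rw [mem_tri] at hμ ⊢
    omega
  · rw [Finset.sdiff_eq_empty_iff_subset.2, Finset.card_empty]
    · exact Nat.zero_le _
    intro μ hμ
    rw [mem_tri] at hμ ⊢
    omega

/-- changing the multiplicities costs at most the number of new conditions -/
lemma ten_cmp {ι : Type} [Fintype ι] (U : Submodule ℂ R) [FiniteDimensional ℂ U] (μ ζ : ι → ℕ)
    (P : ι → Pt) :
    finrank ℂ ↥(U ⊓ vn μ P) ≤ finrank ℂ ↥(U ⊓ vn ζ P) + ∑ i, (tn (ζ i) - tn (μ i)) := by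
  have f1 : FiniteDimensional ℂ ↥(U ⊓ vn μ P) := Submodule.finiteDimensional_of_le inf_le_left
  have f2 : FiniteDimensional ℂ ↥(U ⊓ vn ζ P) := Submodule.finiteDimensional_of_le inf_le_left
  let φ : R →ₗ[ℂ] ((Σ i, ↥(tri (ζ i) \ tri (μ i))) → ℂ) :=
    LinearMap.pi fun k => (lcoeff ℂ k.2.1).comp (tr (P k.1)).toLinearMap
  have h := LinearMap.finrank_range_add_finrank_ker (φ.domRestrict (U ⊓ vn μ P))
  have h1 : finrank ℂ (LinearMap.range (φ.domRestrict (U ⊓ vn μ P))) ≤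
      ∑ i, (tn (ζ i) - tn (μ i)) := by
    refine (Submodule.finrank_le _).trans ?_
    rw [Module.finrank_fintype_fun_eq_card, Fintype.card_sigma]
    exact Finset.sum_le_sum fun i _ => by rw [Fintype.card_coe]; exact ten_card _ _
  have h2 : finrank ℂ (LinearMap.ker (φ.domRestrict (U ⊓ vn μ P))) ≤
      finrank ℂ ↥(U ⊓ vn ζ P) := by
    rw [← Submodule.finrank_map_subtype_eq]
    refine Submodule.finrank_mono ?_
    rintro _ ⟨G, hG, rfl⟩
    refine ⟨G.2.1, (mem_vn _ _ _).2 fun i => (mem_pow_iff _ _ _).2 fun ν hν => ?_⟩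
    by_cases e : ν 0 + ν 1 < μ i
    · exact (mem_pow_iff _ _ _).1 ((mem_vn _ _ _).1 G.2.2 i) ν e
    · exact congrFun (LinearMap.mem_ker.1 hG) ⟨i, ν, Finset.mem_sdiff.2
        ⟨(mem_tri _ _).2 hν, fun c => e ((mem_tri _ _).1 c)⟩⟩
  omega

lemma ten_raise {ι : Type} [Fintype ι] (d : ℕ) (μ ζ : ι → ℕ) (P : ι → Pt) :
    finrank ℂ (Wa d μ P) ≤ finrank ℂ (Wa d ζ P) + ∑ i, (tn (ζ i) - tn (μ i)) :=
  ten_cmp _ μ ζ P

lemma ten_lower {ι : Type} [Fintype ι] (d : ℕ) (μ : ι → ℕ) (P : ι → Pt) :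
    tn (d + 1) ≤ finrank ℂ (Wa d μ P) + ∑ i, tn (μ i) := by
  have h := ten_cmp (sp (tri (d + 1))) (fun _ => 0) μ P
  have e : vn (fun _ : ι => 0) P = ⊤ := by
    rw [eq_top_iff]
    intro F _
    simp [mem_vn]
  rw [e, inf_top_eq, finrank_sp, card_tri] at h
  simp only [tn_zero, Nat.sub_zero] at h
  exact h

lemma mem_sp_tri (d : ℕ) (F : R) : F ∈ sp (tri (d + 1)) ↔ F.totalDegree ≤ d := by
  rw [mem_sp, totalDegree, Finset.sup_le_iff]
  refine forall₂_congr fun μ _ => ?_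
  rw [mem_tri, Finsupp.sum_fintype _ _ fun _ => rfl, Fin.sum_univ_two]
  omega

lemma ten_mul {ι : Type} {d l : ℕ} {μ lam : ι → ℕ} {P : ι → Pt} {F : R} (hF : F ∈ Wa l lam P)
    (h0 : F ≠ 0) : finrank ℂ (Wa d μ P) ≤ finrank ℂ (Wa (d + l) (fun i => μ i + lam i) P) := by
  let φ : Wa d μ P →ₗ[ℂ] Wa (d + l) (fun i => μ i + lam i) P :=
    ((LinearMap.mulRight ℂ F).domRestrict (Wa d μ P)).codRestrict _ fun G => by
      refine ⟨(mem_sp_tri _ _).2 ((totalDegree_mul _ _).trans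
        (add_le_add ((mem_sp_tri _ _).1 G.2.1) ((mem_sp_tri _ _).1 hF.1))),
        (mem_vn _ _ _).2 fun i => ?_⟩
      rw [pow_add]
      exact Ideal.mul_mem_mul ((mem_vn _ _ _).1 G.2.2 i) ((mem_vn _ _ _).1 hF.2 i)
  refine LinearMap.finrank_le_finrank_of_injective (f := φ) fun G G' h => Subtype.ext ?_
  exact mul_right_cancel₀ h0 (congrArg Subtype.val h)

theorem hle_iff {ι : Type} [Fintype ι] {d r : ℕ} {μ : ι → ℕ} :
    Hle d μ r ↔ ∃ P, finrank ℂ (Wa d μ P) ≤ r := by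
  constructor
  · rintro ⟨G, G0, hG⟩
    obtain ⟨x, hx⟩ : ∃ x, eval x G ≠ 0 := by
      by_contra hn
      push Not at hn
      exact G0 (MvPolynomial.funext fun x => by rw [hn, map_zero])
    let P : ι → Pt := fun q a => x (.inl q, a)
    let Q : Fin r → Pt := fun q a => x (.inr q, a)
    have l := finrank_lower 1 r Q (Wa d μ P)
    have z : Wa d μ P ⊓ van 1 (Set.range Q) = ⊥ := by
      rw [eq_bot_iff]
      rintro F ⟨⟨a, b⟩, c⟩
      obtain ⟨F, hF, rfl⟩ := exists_hom d F a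
      rw [hG (fun q a => x (q, a)) hx F hF, map_zero]
      · exact Submodule.zero_mem _
      · rintro (i | q)
        · exact mem_of_dh (P i) (μ i) d hF ((mem_vn μ P _).1 b i)
        · exact mem_of_dh (Q q) 1 d hF (c _ ⟨q, rfl⟩)
    rw [z, finrank_bot] at l
    exact ⟨P, by simpa [tn] using l⟩
  · rintro ⟨P, h⟩
    obtain ⟨Q, -, hQ⟩ := Nag.simple r (Wa d μ P) h
    refine Nag.gen d _ (Sum.elim P Q) fun F hF hm => ?_
    have h0 : dh F = 0 := by
      refine (Submodule.eq_bot_iff _).1 hQ _ ⟨⟨?_, (mem_vn _ _ _).2 fun i => dh_mem (P i) (μ i) (hm (.inl i))⟩,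
        (Submodule.mem_iInf _).2 fun q => ?_⟩
      · rw [F.as_sum, map_sum]
        refine Submodule.sum_mem _ fun ν hν => ?_
        rw [dh_monomial, mem_sp]
        refine support_monomial_subset.trans ?_
        have := deg3 hF hν
        simp [mem_tri]; omega
      · have := dh_mem (Q q) 1 (hm (.inr q))
        rw [pow_one, mem_pid] at this
        simpa [Nag.Fat, Nag.pt0] using this
    by_contra hne
    obtain ⟨ν, hν⟩ := support_nonempty.mpr hne
    have := coeff_dh hF hν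
    rw [h0, coeff_zero] at this
    exact MvPolynomial.mem_support_iff.mp hν this.symm

theorem Hle.le {ι : Type} [Fintype ι] {d r r' : ℕ} {μ : ι → ℕ} (h : Hle d μ r) (e : r ≤ r') :
    Hle d μ r' := by
  obtain ⟨P, h⟩ := hle_iff.1 h
  exact hle_iff.2 ⟨P, h.trans e⟩

/-- lower or raise the multiplicities -/
theorem Hle.raise {ι : Type} [Fintype ι] {d u r : ℕ} {μ ζ : ι → ℕ} (h : Hle d ζ u)
    (e : u + ∑ i, (tn (ζ i) - tn (μ i)) ≤ r) : Hle d μ r := by
  obtain ⟨P, h⟩ := hle_iff.1 h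
  have := ten_raise d μ ζ P
  exact hle_iff.2 ⟨P, by omega⟩

/-- multiply by a curve of degree l, then lower or raise the multiplicities -/
theorem Hle.mul {ι : Type} [Fintype ι] {d l u r : ℕ} {μ ζ : ι → ℕ} (lam : ι → ℕ)
    (h : Hle (d + l) ζ u) (hl : ∑ i, tn (lam i) < tn (l + 1))
    (e : u + ∑ i, (tn (ζ i) - tn (μ i + lam i)) ≤ r) : Hle d μ r := by
  obtain ⟨P, h⟩ := hle_iff.1 h
  have h1 := ten_lower l lam P
  obtain ⟨F, hF, h0⟩ := (Submodule.ne_bot_iff (Wa l lam P)).1 fun c => by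
    rw [c, finrank_bot] at h1
    omega
  have h2 := ten_mul (d := d) (μ := μ) hF h0
  have h3 := ten_raise (d + l) (fun i => μ i + lam i) ζ P
  exact hle_iff.2 ⟨P, by omega⟩

/-- a curve of the system would give too many curves in the larger system -/
theorem Hle.empty {ι : Type} [Fintype ι] {d l u : ℕ} {μ ζ : ι → ℕ} (lam : ι → ℕ)
    (h : Hle (l + d) ζ u)
    (e : u + ∑ i, (tn (ζ i) - tn (lam i + μ i)) + ∑ i, tn (lam i) < tn (l + 1)) (r : ℕ) :
    Hle d μ r := by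
  obtain ⟨P, h⟩ := hle_iff.1 h
  refine hle_iff.2 ⟨P, ?_⟩
  by_cases c : Wa d μ P = ⊥
  · rw [c, finrank_bot]
    exact Nat.zero_le _
  obtain ⟨F, hF, h0⟩ := (Submodule.ne_bot_iff _).1 c
  have h1 := ten_lower l lam P
  have h2 := ten_mul (d := l) (μ := lam) hF h0
  have h3 := ten_raise (l + d) (fun i => lam i + μ i) ζ P
  omega

end Pool.Agent.Lib.MP_d03834_ag.Core
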