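import Pool.Agent.Lib.MP_d03834_ag.Core.N14Def
import Pool.Agent.Lib.MP_d03834_ag.Core.T4
import Pool.Agent.Lib.MP_d03834_ag.Core.Ten

/-! Fourteen points: from the bound on eleven general points to the critical degrees. -/

set_option autoImplicit false

namespace Pool.Agent.Lib.MP_d03834_ag.Core

open H19

/-- the raised multiplicity of the last point -/
def w14 (d M m : ℤ) : ℤ := m + max 0 (-1 - k14 d M m m)

/-- one of the four routes stays within the budget B -/
def Rt14 (d M m B : ℤ) : Prop :=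
  ∃ i ∈ [(0 : ℤ), 1], ∃ e ∈ [(0 : ℤ), 1], 0 ≤ k14 d M m (w14 d M m) + e ∧
    (M = 2 * m ∨ e = 0 ∨ k14 d M m (w14 d M m) = -1) ∧
    ((s14 d M m (w14 d M m) i e < 0 ∧
      2 * c14 d M m (w14 d M m) i e + w14 d M m * (w14 d M m + 1) ≤ B + m * (m + 1)) ∨
    (0 < s14 d M m (w14 d M m) i e ∧
      2 * (c14 d M m (w14 d M m) i e + 1 + s14 d M m (w14 d M m) i e / 2) +
        w14 d M m * (w14 d M m + 1) ≤ B + m * (m + 1)))

instance (d M m B : ℤ) : Decidable (Rt14 d M m B) := by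
  unfold Rt14
  infer_instance

/-- the two routes in a critical degree -/
def Ok14 (d m : ℤ) : Prop :=
  d * (d + 1) ≤ 14 * (m * (m + 1)) →
    Rt14 d (2 * m) m (max 0 ((d + 1) * (d + 2) - 14 * (m * (m + 1))) + 2 * m) ∧
      Rt14 d (2 * m + 1) m (max 0 ((d + 1) * (d + 2) - 14 * (m * (m + 1))))

instance (d m : ℤ) : Decidable (Ok14 d m) := by
  unfold Ok14
  infer_instance

theorem ok14_small : ∀ m : ℕ, m < 170 → 10 ≤ m → ∀ j : ℕ, j < 4 →
    101 * m ≤ 27 * (101 * m / 27 - 1 + j) + 18 → Ok14 (101 * m / 27 - 1 + j : ℕ) m := by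
  decide +kernel

theorem n14_lin {m d : ℤ} (hm : 10 ≤ m) (hd : 0 ≤ d) (h1 : d * (d + 1) ≤ 14 * (m * (m + 1)))
    (h2 : 14 * (m * (m + 1)) < (d + 2) * (d + 3)) :
    101 * m ≤ 27 * d + 18 ∧ 31 * d ≤ 116 * m + 42 := by
  constructor
  · by_contra h
    push Not at h
    nlinarith
  · by_contra h
    push Not at h
    nlinarith

theorem n14_par (x d m s : ℤ) (h : s = 2 * (x + m) - 3 + (15 * m - 4 * d) - (d - 3 * m) -
    (d - 2 * m - m + 1) % 2 - 1 * (2 * (15 * m - 4 * d) + 1)) :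
    (d - 2 * m - m) / 2 + (2 * (2 * m) + 10 * m + m - 4 * d + 2) / 2 + s / 2 + 2 ≤ x + m := by
  obtain ⟨a, rfl | rfl⟩ := Int.even_or_odd' m <;> obtain ⟨b, rfl | rfl⟩ := Int.even_or_odd' d <;>
    omega

theorem ok14_large {d m : ℤ} (hm : 170 ≤ m) (lo : 101 * m ≤ 27 * d + 18)
    (up : 31 * d ≤ 116 * m + 42) : Ok14 d m := by
  intro _
  obtain ⟨A, hA⟩ := Int.even_mul_succ_self (d + 1)
  obtain ⟨T, hT⟩ := Int.even_mul_succ_self m
  have w0 : w14 d (2 * m) m = m := by
    unfold w14 k14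
    omega
  have w1 : w14 d (2 * m + 1) m = m := by
    unfold w14 k14
    omega
  have e : (d + 1) * (d + 2) = A + A := by linear_combination hA
  have s0 : ∀ e : ℤ, s14 d (2 * m) m m 1 e = 2 * (A - 14 * T + m) - 3 + (15 * m - 4 * d) -
      (d - 3 * m) - (d - 2 * m - m + 1) % 2 - e * (2 * (15 * m - 4 * d) + 1) := fun e => by
    unfold s14 k14
    linear_combination hA - 14 * hT
  have s1 : s14 d (2 * m + 1) m m 0 0 = 2 * (A - 14 * T - m - 1) - 2 + (15 * m + 2 - 4 * d) +
      (d - 3 * m - 1) - (d - (2 * m + 1) - m + 0) % 2 := by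
    unfold s14 k14
    linear_combination hA - 14 * hT
  have s2 : s14 d (2 * m + 1) m m 1 0 = 2 * (A - 14 * T - m - 1) - 3 + (15 * m + 2 - 4 * d) -
      (d - 3 * m - 1) - (d - (2 * m + 1) - m + 1) % 2 := by
    unfold s14 k14
    linear_combination hA - 14 * hT
  have a0 := s0 0
  have a1 := s0 1
  unfold Rt14
  rw [w0, w1, e, hT]
  constructor
  · by_cases h : s14 d (2 * m) m m 1 1 = 0
    · refine ⟨1, by simp, 0, by simp, ?_⟩
      unfold c14 k14
      omega
    · refine ⟨1, by simp, 1, by simp, ?_⟩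
      have := n14_par (A - 14 * T) d m _ a1
      unfold c14 k14
      omega
  · by_cases h : s14 d (2 * m + 1) m m 0 0 = 0
    · refine ⟨1, by simp, 0, by simp, ?_⟩
      unfold c14 k14
      omega
    · refine ⟨0, by simp, 0, by simp, ?_⟩
      unfold c14 k14
      omega

theorem ok14 {d m : ℕ} (hm : 10 ≤ m) (lo : 101 * m ≤ 27 * d + 18) (up : 31 * d ≤ 116 * m + 42) :
    Ok14 d m := by
  rcases Nat.lt_or_ge m 170 with h | h
  · have e : d = 101 * m / 27 - 1 + (d - (101 * m / 27 - 1)) := by omega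
    have := ok14_small m h hm (d - (101 * m / 27 - 1)) (by omega) (by omega)
    rwa [← e] at this
  · exact ok14_large (by omega) (by omega) (by omega)

theorem hle_rt (hD : D14) {d M m r : ℕ} {B : ℤ} (hm : 10 ≤ m) (hM : M = 2 * m ∨ M = 2 * m + 1)
    (lo : 101 * m ≤ 27 * d + 18) (up : 31 * d ≤ 116 * m + 42) (h : Rt14 d M m B)
    (hB : B ≤ 2 * r) : Hle d (Sum.elim (fun _ : Fin 10 => m) fun _ : Unit => M) r := by
  obtain ⟨i, hi, e, he, h1, h2, h3⟩ := h
  have hw : (m : ℤ) ≤ w14 d M m := by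
    unfold w14
    omega
  have hk : w14 d M m = m ∨ k14 d M m (w14 d M m) = -1 := by
    unfold w14 k14
    omega
  obtain ⟨w, e1⟩ := Int.eq_ofNat_of_zero_le (a := w14 d M m) (by omega)
  rw [e1] at h1 h2 h3 hw hk
  have t1 : (w : ℤ) * (w + 1) = 2 * tn w := by exact_mod_cast (two_tn w).symm
  have t2 : (m : ℤ) * (m + 1) = 2 * tn m := by exact_mod_cast (two_tn m).symm
  have t3 : (m : ℤ) * (m + 1) ≤ w * (w + 1) := by nlinarith
  have hc : 0 ≤ c14 d M m w i e := by
    simp only [List.mem_cons, List.not_mem_nil, or_false] at hi he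
    unfold c14
    unfold k14 at *
    rcases hi with rfl | rfl <;> rcases he with rfl | rfl <;> omega
  have hb : Box14 d M m w i e := ⟨by omega, by omega, by omega, by omega, hw, hk, by simpa using hi,
    by simpa using he, h1, h2⟩
  have h4 : Hle d (y14 M m m) r :=
    (hD d M m w (r - (tn w - tn m)) i e hb (by omega)).raise (by
      simp [Fin.sum_univ_succ, y14]
      omega)
  refine h4.mono ![.inr (), .inl 0, .inl 1, .inl 2, .inl 3, .inl 4, .inl 5, .inl 6, .inl 7, .inl 8,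
    .inl 9] (by decide) (fun q => ?_) le_rfl
  fin_cases q <;> simp [y14]

/-- fourteen points from the bound on eleven general points and the small multiplicities -/
theorem core14_of (hD : D14) (hs : ∀ m d : ℕ, 2 ≤ m → m ≤ 9 →
    (d + 1).choose 2 ≤ 14 * (m + 1).choose 2 → 14 * (m + 1).choose 2 < (d + 3).choose 2 →
    Hle d (fun _ : Fin 14 => m) ((d + 2).choose 2 - 14 * (m + 1).choose 2)) : CoreN 14 := by
  intro m d hm h1 h2
  rcases Nat.lt_or_ge m 10 with h | h
  · exact hs m d hm (by omega) h1 h2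
  have c1 : 2 * (d + 1).choose 2 = d * (d + 1) := two_tn d
  have c2 : 2 * (d + 2).choose 2 = (d + 1) * (d + 2) := two_tn (d + 1)
  have c3 : 2 * (d + 3).choose 2 = (d + 2) * (d + 3) := two_tn (d + 2)
  have c4 : 2 * (m + 1).choose 2 = m * (m + 1) := two_tn m
  have a1 : (d : ℤ) * (d + 1) ≤ 14 * (m * (m + 1)) := by
    have : d * (d + 1) ≤ 14 * (m * (m + 1)) := by omega
    exact_mod_cast this
  have a2 : 14 * ((m : ℤ) * (m + 1)) < (d + 2) * (d + 3) := by
    have : 14 * (m * (m + 1)) < (d + 2) * (d + 3) := by omega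
    exact_mod_cast this
  obtain ⟨lo, up⟩ := n14_lin (by omega) (by omega) a1 a2
  obtain ⟨r0, r1⟩ := ok14 h (by omega) (by omega) a1
  have b2 : ((d : ℤ) + 1) * (d + 2) = 2 * ((d + 2).choose 2 : ℕ) := by exact_mod_cast c2.symm
  have b4 : (m : ℤ) * (m + 1) = 2 * ((m + 1).choose 2 : ℕ) := by exact_mod_cast c4.symm
  rw [b2, b4] at r0 r1
  exact Hle.four_unif (n := 10) (by omega)
    (hle_rt hD h (.inl rfl) (by omega) (by omega) (by push_cast; exact r0) (by omega))
    (hle_rt hD h (.inr rfl) (by omega) (by omega) (by push_cast; exact r1) (by omega))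

end Pool.Agent.Lib.MP_d03834_ag.Core
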