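import Pool.Agent.Lib.MP_d03834_ag.Core.Cert

/-! Small multiplicities for 14 general points. -/

set_option autoImplicit false

namespace Pool.Agent.Lib.MP_d03834_ag.Core.Cert

theorem e14_8 : Hle 30 (fun _ : Fin 14 => 8) 0 :=
  hle_cert 0 (n := 11) (fun _ => 8) (by decide +kernel)

theorem f14_8 : Hle 31 (fun _ : Fin 14 => 8) 24 :=
  hle_cert 0 (n := 11) (fun _ => 8) (by decide +kernel)

theorem c14_8 : CoreAt 14 8 :=
  coreAt_of 30 24 (by decide) (by decide) (by decide) e14_8 f14_8

end Pool.Agent.Lib.MP_d03834_ag.Core.Cert
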