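import Pool.Agent.Lib.MP_d03834_ag.Core.Cert

/-! Small multiplicities for 14 general points. -/

set_option autoImplicit false

namespace Pool.Agent.Lib.MP_d03834_ag.Core.Cert

theorem e14_9 : Hle 34 (fun _ : Fin 14 => 9) 0 :=
  hle_cert 0 (n := 11) (fun _ => 9) (by decide +kernel)

theorem f14_9 : Hle 35 (fun _ : Fin 14 => 9) 36 :=
  hle_cert 0 (n := 11) (fun _ => 9) (by decide +kernel)

theorem c14_9 : CoreAt 14 9 :=
  coreAt_of 34 36 (by decide) (by decide) (by decide) e14_9 f14_9

end Pool.Agent.Lib.MP_d03834_ag.Core.Cert
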