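import Pool.Agent.Lib.MP_d03834_ag.Core.Sm14a
import Pool.Agent.Lib.MP_d03834_ag.Core.Sm14b
import Pool.Agent.Lib.MP_d03834_ag.Core.Sm14c

/-! Small multiplicities for 14 general points, all together. -/

set_option autoImplicit false

namespace Pool.Agent.Lib.MP_d03834_ag.Core.Cert

theorem small14 {m : ℕ} (h2 : 2 ≤ m) (h : m ≤ 9) : CoreAt 14 m := by
  interval_cases m
  exacts [c14_2, c14_3, c14_4, c14_5, c14_6, c14_7, c14_8, c14_9]

end Pool.Agent.Lib.MP_d03834_ag.Core.Cert
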