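import Pool.Agent.Lib.MP_d03834_ag.Core.D14
import Pool.Agent.Lib.MP_d03834_ag.Core.N14
import Pool.Agent.Lib.MP_d03834_ag.Core.Sm14

/-! Fourteen general points, from the bound for start states. -/

set_option autoImplicit false

namespace Pool.Agent.Lib.MP_d03834_ag.Core

theorem core14 (hK : KPC (Arc.ps (RatFunc ℂ)) (LS (RatFunc ℂ)) (vX ℂ)) : CoreN 14 :=
  core14_of (N14.d14 hK) fun _ d a b => Cert.small14 a b d

end Pool.Agent.Lib.MP_d03834_ag.Core
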