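import Pool.Agent.Lib.MP_d03834_ag.Core.BiShear

/-! Honest multiplicities and divisibility of the normal coefficients along a graph. -/

set_option autoImplicit false

namespace Pool.Agent.Lib.MP_d03834_ag.Core.Hon

open Polynomial

section ring
variable {R : Type} [CommRing R]

theorem ps_dvd (a : R) (m : ℕ) {g : PowerSeries R}
    (h : g ∈ Ideal.span {PowerSeries.C a, PowerSeries.X} ^ m) (j : ℕ) :
    a ^ (m - j) ∣ PowerSeries.coeff j g := by
  induction m generalizing g j with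
  | zero => simp
  | succ m ih =>
    rw [pow_succ] at h
    refine Submodule.mul_induction_on h (fun x hx y hy => ?_) fun x y hx hy => by
      rw [map_add]; exact dvd_add hx hy
    obtain ⟨u, v, rfl⟩ := Ideal.mem_span_pair.1 hy
    rw [mul_add, map_add, ← mul_assoc, ← mul_assoc, PowerSeries.coeff_mul_C]
    refine dvd_add ?_ ?_
    · refine (pow_dvd_pow a (by omega : m + 1 - j ≤ m - j + 1)).trans ?_
      rw [pow_succ]
      exact mul_dvd_mul_right (ih (Ideal.mul_mem_right _ _ hx) j) a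
    · rcases j with _ | j
      · simp
      · rw [PowerSeries.coeff_succ_mul_X, Nat.add_sub_add_right]
        exact ih (Ideal.mul_mem_right _ _ hx) j

theorem pol_dvd (a : R) (m : ℕ) {g : R[X]} :
    g ∈ Ideal.span {C a, X} ^ m ↔ ∀ j, a ^ (m - j) ∣ g.coeff j := by
  constructor
  · intro h j
    have h3 := Ideal.mem_map_of_mem (Polynomial.coeToPowerSeries.ringHom (R := R)) h
    rw [Ideal.map_pow, Ideal.map_span, Set.image_pair] at h3
    simp only [coeToPowerSeries.ringHom_apply, coe_C, coe_X] at h3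
    simpa using ps_dvd a m h3 j
  · intro h
    rw [g.as_sum_range_C_mul_X_pow]
    refine Ideal.sum_mem _ fun j _ => ?_
    obtain ⟨b, hb⟩ := h j
    rw [hb, map_mul, map_pow, mul_right_comm]
    refine Ideal.mul_mem_right _ _ (Ideal.pow_le_pow_right (by omega : m ≤ m - j + j) ?_)
    rw [pow_add]
    exact Ideal.mul_mem_mul (Ideal.pow_mem_pow (Ideal.subset_span (Set.mem_insert _ _)) _)
      (Ideal.pow_mem_pow (Ideal.subset_span (Set.mem_insert_of_mem _ (Set.mem_singleton _))) _)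

end ring

variable {K : Type} [Field K]

theorem prod_dvd {ι : Type} [Fintype ι] {z : ι → K} (e : ι → ℕ)
    (hz : ∀ i l, i ≠ l → e i ≠ 0 → e l ≠ 0 → z i ≠ z l) {g : K[X]}
    (h : ∀ i, (X - C (z i)) ^ e i ∣ g) : ∏ i, (X - C (z i)) ^ e i ∣ g := by
  refine Finset.prod_dvd_of_coprime (fun i _ l _ hil => ?_) fun i _ => h i
  by_cases hi : e i = 0
  · simp only [Function.onFun, hi, pow_zero]; exact isCoprime_one_left
  by_cases hl : e l = 0
  · simp only [Function.onFun, hl, pow_zero]; exact isCoprime_one_right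
  exact (isCoprime_X_sub_C_of_isUnit_sub (sub_ne_zero.2 (hz i l hil hi hl)).isUnit).pow

/-- a point on the graph of q -/
theorem pid_theta {S : Type} [CommRing S] [Algebra K S] (θ : Cx K →ₐ[K] S) (ρ : K[X] →ₐ[K] S)
    (w : S) {q0 q1 : K[X]} (h0 : θ (.X 0) = ρ X) (h1 : θ (.X 1) = 1) (h2 : w ∣ θ (.X 2) - ρ q0)
    (h3 : w ∣ θ (.X 3) - ρ q1) {P : Fin 4 → K} {z : K} (hx : P 0 = z * P 1)
    (hy : P 3 * q0.eval z = P 2 * q1.eval z) {m : ℕ} {F : Cx K} (h : F ∈ pid P ^ m) :
    θ F ∈ Ideal.span {ρ (X - C z), w} ^ m := by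
  have hC : ∀ a : K, θ (MvPolynomial.C a) = ρ (C a) := fun a => by
    rw [← MvPolynomial.algebraMap_eq, AlgHom.commutes, ← Polynomial.algebraMap_eq, AlgHom.commutes]
  refine pid_map θ ?_ ?_ h
  · refine Ideal.mem_span_pair.2 ⟨ρ (C (P 1)), 0, ?_⟩
    simp only [lx, map_sub, map_mul, hC, h0, h1, hx]
    ring
  · obtain ⟨a, ha⟩ := h2
    obtain ⟨b, hb⟩ := h3
    obtain ⟨d, hd⟩ : X - C z ∣ C (P 3) * q0 - C (P 2) * q1 := by
      rw [dvd_iff_isRoot]; simp [hy]
    have hd' := congrArg ρ hd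
    refine Ideal.mem_span_pair.2 ⟨ρ d, ρ (C (P 3)) * a - ρ (C (P 2)) * b, ?_⟩
    simp only [ly, map_sub, map_mul, hC] at hd' ⊢
    linear_combination -hd' - ρ (C (P 3)) * ha + ρ (C (P 2)) * hb

/-- expansion along the graph of q in the direction r -/
noncomputable def th (q0 q1 r0 r1 : K[X]) : Cx K →ₐ[K] K[X][X] :=
  MvPolynomial.aeval ![C X, 1, C q0 + X * C r0, C q1 + X * C r1]

theorem th_dvd (q0 q1 r0 r1 : K[X]) {P : Fin 4 → K} {z : K} (hx : P 0 = z * P 1)
    (hy : P 3 * q0.eval z = P 2 * q1.eval z) {m : ℕ} {F : Cx K} (h : F ∈ pid P ^ m) (j : ℕ) :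
    (X - C z) ^ (m - j) ∣ (th q0 q1 r0 r1 F).coeff j :=
  (pol_dvd _ m).1 (pid_theta (th q0 q1 r0 r1) CAlgHom X (q0 := q0) (q1 := q1) (by simp [th])
    (by simp [th]) (by simp [th]) (by simp [th]) hx hy h) j

theorem pid_of_th {q0 q1 r0 r1 : K[X]} {P : Fin 4 → K} {z : K} (hP : Pt P) (hx : P 0 = z * P 1)
    (hy : P 3 * q0.eval z = P 2 * q1.eval z) (hd : (q0 * r1 - q1 * r0).eval z ≠ 0) {p q : ℤ}
    {F : Cx K} (hF : Bih p q F) {m : ℕ}
    (h : ∀ j, (X - C z) ^ (m - j) ∣ (th q0 q1 r0 r1 F).coeff j) : F ∈ pid P ^ m := by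
  have h1 : P 1 ≠ 0 := fun e => hP.1.elim (fun a => a (by rw [hx, e, mul_zero])) fun a => a e
  let M : Submonoid (Cx K) := (nonZeroDivisors K).comap (MvPolynomial.eval P)
  have hM : ∀ c, c ∈ M ↔ MvPolynomial.eval P c ≠ 0 := fun c => mem_nonZeroDivisors_iff_ne_zero
  let L := Localization M
  let ev : L →+* K := IsLocalization.lift (M := M) (g := MvPolynomial.eval P)
    fun c => ((hM c).1 c.2).isUnit
  have hev : ∀ c, ev (algebraMap (Cx K) L c) = MvPolynomial.eval P c := fun c =>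
    IsLocalization.lift_eq _ c
  have hu : ∀ x : L, ev x ≠ 0 → IsUnit x := fun x hx => by
    obtain ⟨a, s, rfl⟩ := IsLocalization.exists_mk'_eq M x
    have e := congrArg ev (IsLocalization.mk'_spec L a s)
    rw [map_mul, hev, hev] at e
    have ha : a ∈ M := (hM a).2 (e ▸ mul_ne_zero hx ((hM _).1 s.2))
    exact isUnit_of_mul_isUnit_left (y := algebraMap _ L (s : Cx K)) (by
      rw [IsLocalization.mk'_spec]; exact IsLocalization.map_units L ⟨a, ha⟩)
  let x : Fin 4 → L := fun i => algebraMap (Cx K) L (.X i)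
  have hx' : ∀ i, ev (x i) = P i := fun i => by simp [x, hev]
  have hC : ∀ a : K, algebraMap (Cx K) L (.C a) = algebraMap K L a := fun a => by
    rw [← MvPolynomial.algebraMap_eq, ← IsScalarTower.algebraMap_apply]
  have hK : ∀ a : K, ev (algebraMap K L a) = a := fun a => by rw [← hC, hev, MvPolynomial.eval_C]
  obtain ⟨i1, hi1⟩ := (hu (x 1) (by rwa [hx'])).exists_right_inv
  have e1 : P 1 * ev i1 = 1 := by rw [← hx', ← map_mul, hi1, map_one]
  let ρ : K[X] →ₐ[K] L := aeval (x 0 * i1)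
  have hρ : ∀ g, ev (ρ g) = g.eval z := fun g => by
    have : ev.comp ρ.toRingHom = evalRingHom z := by
      ext a
      · simp [ρ, hK]
      · simp [ρ, hx', hx, mul_assoc, e1]
    exact congrArg (· g) this
  obtain ⟨id, hid⟩ := (hu (ρ (q0 * r1 - q1 * r0)) (by rwa [hρ])).exists_right_inv
  have hu0 : ev (x 2 * ρ r1 - x 3 * ρ r0) ≠ 0 := fun e => by
    simp only [map_sub, map_mul, hx', hρ, eval_sub, eval_mul] at e hd
    rcases hP.2 with a | a
    · exact mul_ne_zero a hd (by linear_combination q0.eval z * e + r0.eval z * hy)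
    · exact mul_ne_zero a hd (by linear_combination q1.eval z * e + r1.eval z * hy)
  obtain ⟨iu, hiu⟩ := (hu _ hu0).exists_right_inv
  let ψ : K[X][X] →+* L := eval₂RingHom ρ.toRingHom ((x 3 * ρ q0 - x 2 * ρ q1) * iu)
  let I : Ideal L := (pid P).map (algebraMap (Cx K) L)
  have k1 : ρ (X - C z) ∈ I := by
    have := Ideal.mul_mem_right (i1 * algebraMap K L (P 1)⁻¹) I
      (Ideal.mem_map_of_mem _ (lx_mem P))
    convert this using 1
    have e2 : algebraMap K L (P 1) * algebraMap K L (P 1)⁻¹ = 1 := by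
      rw [← map_mul, mul_inv_cancel₀ h1, map_one]
    simp only [ρ, lx, map_sub, map_mul, hC, aeval_X, aeval_C, hx]
    linear_combination (algebraMap K L z * x 1 * i1 - x 0 * i1) * e2 + algebraMap K L z * hi1
  have k2 : x 3 * ρ q0 - x 2 * ρ q1 ∈ I := by
    obtain ⟨c, c0, c1⟩ : ∃ c, q0.eval z = c * P 2 ∧ q1.eval z = c * P 3 := by
      rcases hP.2 with a | a
      · exact ⟨q0.eval z / P 2, by field_simp, by field_simp; linear_combination -hy⟩
      · exact ⟨q1.eval z / P 3, by field_simp; linear_combination hy, by field_simp⟩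
    obtain ⟨d0, e0⟩ := X_sub_C_dvd_sub_C_eval (a := z) (p := q0)
    obtain ⟨d1, e1⟩ := X_sub_C_dvd_sub_C_eval (a := z) (p := q1)
    have f0 := congrArg ρ e0
    have f1 := congrArg ρ e1
    have := I.sub_mem (Ideal.mul_mem_right (x 3 * ρ d0 - x 2 * ρ d1) I k1)
      (Ideal.mul_mem_left I (algebraMap K L c) (Ideal.mem_map_of_mem _ (ly_mem P)))
    convert this using 1
    have hρC : ∀ a : K, ρ (C a) = algebraMap K L a := fun a => aeval_C _ a
    rw [map_sub, map_mul, hρC, c0, map_mul] at f0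
    rw [map_sub, map_mul, hρC, c1, map_mul] at f1
    simp only [ly, map_sub (algebraMap (Cx K) L), map_mul (algebraMap (Cx K) L), hC]
    linear_combination x 3 * f0 - x 2 * f1
  have k3 : ψ (th q0 q1 r0 r1 F) ∈ I ^ m := by
    have h3 := Ideal.mem_map_of_mem ψ ((pol_dvd _ m).2 h)
    rw [Ideal.map_pow] at h3
    refine Ideal.pow_right_mono (Ideal.map_le_iff_le_comap.2 (Ideal.span_le.2 ?_)) m h3
    rintro _ (rfl | rfl)
    · simpa [ψ] using k1
    · simpa [ψ] using Ideal.mul_mem_right iu I k2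
  let g : Fin 4 → L := fun i => ψ (th q0 q1 r0 r1 (.X i))
  have k4 : ψ (th q0 q1 r0 r1 F) = MvPolynomial.aeval g F := by
    have : ψ.comp (th q0 q1 r0 r1).toRingHom = (MvPolynomial.aeval g).toRingHom := by
      ext a
      · simp [ψ, th, ρ]
      · simp [g]
    exact congrArg (· F) this
  have k5 : algebraMap (Cx K) L F = MvPolynomial.aeval x F := by
    have : algebraMap (Cx K) L = (MvPolynomial.aeval x).toRingHom := by
      ext a
      · simp [hC]
      · simp [x]
    exact congrArg (· F) this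
  have k6 : x = ![x 1 * g 0, x 1 * g 1, (x 2 * ρ r1 - x 3 * ρ r0) * id * g 2,
      (x 2 * ρ r1 - x 3 * ρ r0) * id * g 3] := by
    rw [map_sub, map_mul, map_mul] at hid
    funext i
    fin_cases i
    · simp [g, ψ, th, ρ]
      linear_combination -x 0 * hi1
    · simp [g, ψ, th]
    · simp [g, ψ, th]
      linear_combination -x 2 * hid - (x 3 * ρ q0 - x 2 * ρ q1) * id * ρ r0 * hiu
    · simp [g, ψ, th]
      linear_combination -x 3 * hid - (x 3 * ρ q0 - x 2 * ρ q1) * id * ρ r1 * hiu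
  have k7 : algebraMap (Cx K) L F ∈ (pid P ^ m).map (algebraMap (Cx K) L) := by
    rw [k5, k6, hF.aeval_mul g, ← k4, Ideal.map_pow]
    exact Ideal.mul_mem_left _ _ k3
  obtain ⟨c, hc, h8⟩ := (IsLocalization.algebraMap_mem_map_algebraMap_iff M L _ F).1 k7
  simpa using pid_div hP (not_pid ((hM c).1 hc)) h8

/-- honest multiplicities at distinct points of a graph give the divisibility form -/
theorem hon_dvd {ι : Type} [Fintype ι] (q0 q1 r0 r1 : K[X]) {P : ι → Fin 4 → K} {z : ι → K}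
    {m : ι → ℕ} (hz : ∀ i l, i ≠ l → m i ≠ 0 → m l ≠ 0 → z i ≠ z l)
    (hx : ∀ i, P i 0 = z i * P i 1) (hy : ∀ i, P i 3 * q0.eval (z i) = P i 2 * q1.eval (z i))
    {F : Cx K} (h : ∀ i, F ∈ pid (P i) ^ m i) (j : ℕ) :
    ∏ i, (X - C (z i)) ^ (m i - j) ∣ (th q0 q1 r0 r1 F).coeff j :=
  prod_dvd (fun i => m i - j) (fun i l hil hi hl => hz i l hil (by omega) (by omega))
    fun i => th_dvd q0 q1 r0 r1 (hx i) (hy i) (h i) j

/-- the divisibility form gives the honest multiplicities, also for coinciding points -/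
theorem hon_of_dvd {ι : Type} [Fintype ι] {q0 q1 r0 r1 : K[X]} {P : ι → Fin 4 → K} {z : ι → K}
    {m : ι → ℕ} (hP : ∀ i, Pt (P i)) (hx : ∀ i, P i 0 = z i * P i 1)
    (hy : ∀ i, P i 3 * q0.eval (z i) = P i 2 * q1.eval (z i))
    (hd : ∀ i, (q0 * r1 - q1 * r0).eval (z i) ≠ 0) {p q : ℤ} {F : Cx K} (hF : Bih p q F)
    (h : ∀ j, ∏ i, (X - C (z i)) ^ (m i - j) ∣ (th q0 q1 r0 r1 F).coeff j) (i : ι) :
    F ∈ pid (P i) ^ m i :=
  pid_of_th (hP i) (hx i) (hy i) (hd i) hF fun j =>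
    (Finset.dvd_prod_of_mem (fun i => (X - C (z i)) ^ (m i - j)) (Finset.mem_univ i)).trans (h j)

/-- any expansion in power series along the same data has the same coefficients -/
theorem th_ps (q0 q1 r0 r1 : K[X]) (θ : Cx K →ₐ[K] PowerSeries K[X])
    (h0 : θ (.X 0) = PowerSeries.C X) (h1 : θ (.X 1) = 1)
    (h2 : θ (.X 2) = PowerSeries.C q0 + PowerSeries.X * PowerSeries.C r0)
    (h3 : θ (.X 3) = PowerSeries.C q1 + PowerSeries.X * PowerSeries.C r1) (F : Cx K) (j : ℕ) :
    PowerSeries.coeff j (θ F) = (th q0 q1 r0 r1 F).coeff j := by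
  have : θ.toRingHom = coeToPowerSeries.ringHom.comp (th q0 q1 r0 r1).toRingHom := by
    refine MvPolynomial.ringHom_ext (fun a => ?_) fun i => ?_
    · rw [← MvPolynomial.algebraMap_eq]
      simp [Polynomial.algebraMap_apply, PowerSeries.algebraMap_apply]
    · fin_cases i <;> simp [th, h0, h1, h2, h3, mul_comm PowerSeries.X]
  have e : θ F = ↑(th q0 q1 r0 r1 F) := congrArg (· F) this
  rw [e, coeff_coe]

end Pool.Agent.Lib.MP_d03834_ag.Core.Hon
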