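import Pool.Agent.Lib.MP_d03834_ag.Core.ClDefs
import Pool.Agent.Lib.MP_d03834_ag.Core.ClHon

/-! Honest sections and sections in divisibility form. -/

set_option autoImplicit false

namespace Pool.Agent.Lib.MP_d03834_ag.Core

open Polynomial

section field
variable {K : Type} [Field K]

theorem nx_th (q : Fin 2 → K[X]) (n : Fin 2 → K) :
    nx q n = Hon.th (q 0) (q 1) (C (n 0)) (C (n 1)) := rfl

/-- honest multiplicities at distinct points of a graph -/
theorem Dv.of_pid {ι : Type} [Fintype ι] (q : Fin 2 → K[X]) (n : Fin 2 → K) {P : ι → Fin 4 → K}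
    {z : ι → K} {m : ι → ℤ} (hz : ∀ i l, i ≠ l → 0 < m i → 0 < m l → z i ≠ z l)
    (hx : ∀ i, P i 0 = z i * P i 1)
    (hy : ∀ i, P i 3 * (q 0).eval (z i) = P i 2 * (q 1).eval (z i)) {F : Cx K}
    (h : ∀ i, F ∈ pid (P i) ^ (m i).toNat) : Dv q n z m F := fun j => by
  have := Hon.hon_dvd (q 0) (q 1) (C (n 0)) (C (n 1)) (m := fun i => (m i).toNat)
    (fun i l hil hi hl => hz i l hil (by omega) (by omega)) hx hy h j
  rwa [Finset.prod_congr rfl fun l _ => by rw [show (m l - j).toNat = (m l).toNat - j by omega]]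

/-- the divisibility form gives the honest multiplicity at each point -/
theorem Dv.pid {ι : Type} [Fintype ι] {q : Fin 2 → K[X]} {n : Fin 2 → K} {z : ι → K} {m : ι → ℤ}
    {F : Cx K} (h : Dv q n z m F) {p d : ℤ} (hF : Bih p d F) (i : ι) {P : Fin 4 → K} (hP : Pt P)
    (hx : P 0 = z i * P 1) (hy : P 3 * (q 0).eval (z i) = P 2 * (q 1).eval (z i))
    (hn : (q 0).eval (z i) * n 1 - (q 1).eval (z i) * n 0 ≠ 0) : F ∈ pid P ^ (m i).toNat :=
  Hon.pid_of_th (r0 := C (n 0)) (r1 := C (n 1)) hP hx hy (by simpa using hn) hF fun j => by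
    rw [← show (m i - j).toNat = (m i).toNat - j by omega]
    exact (Finset.dvd_prod_of_mem (fun l => (X - C (z l)) ^ (m l - j).toNat)
      (Finset.mem_univ i)).trans (h j)

instance HD_fin (t : K) (q : Fin 2 → Fin 3 → K) (z : Fin 5 → K) (a b : Fin 2 → K) (p d : ℤ)
    (m : Ix → ℤ) : FiniteDimensional K (HD t q z a b p d m) :=
  Submodule.finiteDimensional_of_le (S₂ := MvPolynomial.weightedHomogeneousSubmodule K bw (p, d))
    fun _ hF => (mem_HD.1 hF).1

/-- nine points on the three carriers -/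
structure OnC (t : K) (q : Fin 2 → Fin 3 → K) (z : Fin 5 → K) (a b : Fin 2 → K)
    (P : Ix → Fin 4 → K) : Prop where
  ex : ∀ l, P (.inl l) 0 = z l * P (.inl l) 1
  ey : ∀ l, P (.inl l) 3 * qv (q 0) (z l) = P (.inl l) 2 * qv (q 1) (z l)
  ax : ∀ s, P (.inr (.inl s)) 0 = a s * P (.inr (.inl s)) 1
  ay : ∀ s, P (.inr (.inl s)) 2 = 0
  bx : ∀ s, P (.inr (.inr s)) 0 = b s * P (.inr (.inr s)) 1
  by' : ∀ s, P (.inr (.inr s)) 2 = t * P (.inr (.inr s)) 3

theorem H0_le_HD {t : K} {q : Fin 2 → Fin 3 → K} {z : Fin 5 → K} {a b : Fin 2 → K}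
    {P : Ix → Fin 4 → K} (h : OnC t q z a b P) (p d : ℤ) {m : Ix → ℤ}
    (hz : ∀ i l, i ≠ l → 0 < m (.inl i) → 0 < m (.inl l) → z i ≠ z l)
    (ha : 0 < m (.inr (.inl 0)) → 0 < m (.inr (.inl 1)) → a 0 ≠ a 1)
    (hb : 0 < m (.inr (.inr 0)) → 0 < m (.inr (.inr 1)) → b 0 ≠ b 1) :
    H0 p d P m ≤ HD t q z a b p d m := fun F hF => by
  obtain ⟨h0, h1⟩ := mem_H0.1 hF
  have two : ∀ (w : Fin 2 → K) (e : Fin 2 → ℤ), (0 < e 0 → 0 < e 1 → w 0 ≠ w 1) →
      ∀ i l, i ≠ l → 0 < e i → 0 < e l → w i ≠ w l := fun w e hw i l hil hi hl => by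
    fin_cases i <;> fin_cases l
    exacts [absurd rfl hil, hw hi hl, (hw hl hi).symm, absurd rfl hil]
  refine mem_HD.2 ⟨h0, Dv.of_pid _ _ (P := fun l => P (.inl l)) hz h.ex (fun l => ?_) fun _ => h1 _,
    Dv.of_pid _ _ (P := fun s => P (.inr (.inl s))) (two _ _ ha) h.ax (fun s => ?_) fun _ => h1 _,
    Dv.of_pid _ _ (P := fun s => P (.inr (.inr s))) (two _ _ hb) h.bx (fun s => ?_) fun _ => h1 _⟩
  · simpa [qd_eval] using h.ey l
  · simp [h.ay]
  · simp [h.by', mul_comm]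

theorem HD_le_H0 {t : K} {q : Fin 2 → Fin 3 → K} {z : Fin 5 → K} {a b : Fin 2 → K}
    {P : Ix → Fin 4 → K} (h : OnC t q z a b P) (hP : ∀ i, Pt (P i))
    (h0 : ∀ l, qv (q 0) (z l) ≠ 0) (p d : ℤ) (m : Ix → ℤ) :
    HD t q z a b p d m ≤ H0 p d P m := fun F hF => by
  obtain ⟨k0, k1, k2, k3⟩ := mem_HD.1 hF
  refine mem_H0.2 ⟨k0, ?_⟩
  rintro (l | s | s)
  · exact k1.pid k0 l (hP _) (h.ex l) (by simpa [qd_eval] using h.ey l)
      (by simpa [qd_eval] using h0 l)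
  · exact k2.pid k0 s (hP _) (h.ax s) (by simp [h.ay]) (by simp)
  · exact k3.pid k0 s (hP _) (h.bx s) (by simp [h.by', mul_comm]) (by simp)

end field

variable {O k : Type} [CommRing O] [Field k] {A : Arc O k} (K : Type) [Field K] [Algebra O K]

instance HC_fin (c : CCfg O k) (ε : ℤ) (u : CL) : FiniteDimensional K (c.HC A K ε u) :=
  HD_fin _ _ _ _ _ _ _ _

theorem qv_alg (a : Fin 3 → O) (z : O) :
    qv (fun i => algebraMap O K (a i)) (algebraMap O K z) = algebraMap O K (qv a z) := by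
  simp [qv]

theorem Ex.onC {c : CCfg O k} (h : Ex A c) :
    OnC (algebraMap O K A.t) (fun r i => algebraMap O K (c.q r i))
      (fun l => algebraMap O K (c.z l)) (fun s => algebraMap O K (A.t * c.al s))
      (fun s => algebraMap O K (A.t * c.be s)) (c.toCfg.pts A K) := by
  refine ⟨fun l => ?_, fun l => ?_, fun s => ?_, fun s => ?_, fun s => ?_, fun s => ?_⟩
  · simp [Cfg.pts, Cfg.pO]
  · rw [qv_alg, qv_alg, h.on l]
    simp [Cfg.pts, Cfg.pO]
  all_goals simp [Cfg.pts, Cfg.pO]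

theorem Cfg.pts_pt (c : Cfg O k) (i : Ix) : Pt (c.pts A K i) := by
  rcases i with l | s | s <;> simp [Pt, Cfg.pts, Cfg.pO]

/-- distinct points: the honest sections are sections in divisibility form -/
theorem H_le_HC {c : CCfg O k} (h : Ex A c) (ε : ℤ) (u : CL)
    (hz : ∀ i l, i ≠ l → ε < u.2.1 i → ε < u.2.1 l →
      algebraMap O K (c.z i) ≠ algebraMap O K (c.z l))
    (ha : 0 < mlt ε u (.inr (.inl 0)) → 0 < mlt ε u (.inr (.inl 1)) →
      algebraMap O K (A.t * c.al 0) ≠ algebraMap O K (A.t * c.al 1))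
    (hb : 0 < mlt ε u (.inr (.inr 0)) → 0 < mlt ε u (.inr (.inr 1)) →
      algebraMap O K (A.t * c.be 0) ≠ algebraMap O K (A.t * c.be 1)) :
    c.toCfg.H A K ε u ≤ c.HC A K ε u :=
  H0_le_HD (h.onC K) _ _ (fun i l hil hi hl => hz i l hil (sub_pos.1 hi) (sub_pos.1 hl)) ha hb

/-- the same with the conditions in O -/
theorem H_le_HC' (hK : Function.Injective (algebraMap O K)) {c : CCfg O k} (h : Ex A c)
    (hz : ∀ i l, i ≠ l → c.z i ≠ c.z l) (ha : c.al 0 ≠ c.al 1) (hb : c.be 0 ≠ c.be 1) (ε : ℤ)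
    (u : CL) : c.toCfg.H A K ε u ≤ c.HC A K ε u := by
  have ht : algebraMap O K A.t ≠ 0 := fun e => A.t0 (hK (e.trans (map_zero _).symm))
  refine H_le_HC K h ε u (fun i l hil _ _ e => hz i l hil (hK e)) (fun _ _ e => ha (hK ?_))
    fun _ _ e => hb (hK ?_) <;> rw [map_mul, map_mul] at e <;> exact mul_left_cancel₀ ht e

/-- sections in divisibility form are honest sections, whatever coincides -/
theorem HC_le_H {c : CCfg O k} (h : Ex A c) (z0 : ∀ l, A.res (c.z l) ≠ 0) (ε : ℤ) (u : CL) :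
    c.HC A K ε u ≤ c.toCfg.H A K ε u := by
  refine HD_le_H0 (h.onC K) (Cfg.pts_pt K _) (fun l => ?_) _ _ _
  rw [qv_alg]
  refine ((A.unit _ ?_).map _).ne_zero
  simpa [qv, h.r00, h.r01, h.r02] using z0 l

end Pool.Agent.Lib.MP_d03834_ag.Core
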