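import Pool.Agent.Lib.MP_d03834_ag.Core.ShDefs

/-! The lattice of the chart: lines, roots, reflections, non degeneracy. -/

set_option autoImplicit false

namespace Pool.Agent.Lib.MP_d03834_ag.Core

theorem cip_e5 (u : CL) : cip u e5 = u.1.2 - u.1.1 := by simp [cip, e5]

theorem cip_eb (u : CL) (s : Fin 2) : cip u (eb s) = u.2.2 s := by
  simp [cip, eb, Pi.single_apply]

theorem cip_aV (u : CL) (i j : Fin 5) : cip u (aV i j) = u.1.1 - u.2.1 i - u.2.1 j := by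
  simp [cip, aV, Pi.single_apply, mul_add, Finset.sum_add_distrib]
  ring

theorem cip_aH (u : CL) (s : Fin 2) : cip u (aH s) = u.1.2 - u.1.1 - u.2.2 s := by
  simp [cip, aH, Pi.single_apply]

theorem cip_hC (u : CL) : cip u hC = u.1.1 + u.1.2 := by
  simp [cip, hC]
  ring

instance (u : CL) : Decidable (u ∈ cD.lat.Λ) :=
  decidable_of_iff (cip u u = -1 ∧ cip u ((4, 5), fun _ => 2, fun _ => 1) = 1 ∧
    ∑ i, u.2.1 i = 2 * u.1.2) Iff.rfl

instance (u : CL) : Decidable (u ∈ cD.lat.Φ) :=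
  decidable_of_iff (cip u u = -2 ∧ cip u ((4, 5), fun _ => 2, fun _ => 1) = 0 ∧
    ∑ i, u.2.1 i = 2 * u.1.2) Iff.rfl

theorem e5_line : e5 ∈ cD.lat.Λ := by decide
theorem eb_line : ∀ s, eb s ∈ cD.lat.Λ := by decide
theorem aV_root : ∀ i j, i ≠ j → aV i j ∈ cD.lat.Φ := by decide
theorem aH_root : ∀ s, aH s ∈ cD.lat.Φ := by decide
theorem aH_eq : ∀ s, aH s = e5 - eb s := by decide
theorem aV_line : ∀ i j, i ≠ j → aV i j + e5 ∈ cD.lat.Λ := by decide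
theorem aV_sub : ∀ i j, i ≠ j → ∃ l, l ≠ i ∧ l ≠ j ∧ aV l i - aV l j ∈ cD.lat.Φ := by decide
theorem eb_sub : eb 0 - eb 1 ∈ cD.lat.Φ ∧ eb 1 - eb 0 ∈ cD.lat.Φ := by decide
theorem eb_e5 : ∀ s, eb s - e5 ∈ cD.lat.Φ ∧ e5 - eb s ∈ cD.lat.Φ := by decide

theorem rf_aV (i j : Fin 5) (u : CL) : cD.rf (aV i j) u =
    ((u.1.1, u.1.2 + (u.1.1 - u.2.1 i - u.2.1 j)),
      fun l => u.2.1 l + ((if l = i then u.1.1 - u.2.1 i - u.2.1 j else 0) +
        if l = j then u.1.1 - u.2.1 i - u.2.1 j else 0), u.2.2) := by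
  rw [DP.rf, cD_ip, cip_aV]
  refine Prod.ext (Prod.ext ?_ ?_) (Prod.ext (funext fun l => ?_) ?_) <;>
    simp [aV, Pi.single_apply]

theorem rf_aH (s : Fin 2) (u : CL) : cD.rf (aH s) u =
    ((u.1.1 + (u.1.2 - u.1.1 - u.2.2 s), u.1.2), u.2.1,
      fun r => u.2.2 r + if r = s then u.1.2 - u.1.1 - u.2.2 s else 0) := by
  rw [DP.rf, cD_ip, cip_aH]
  refine Prod.ext (Prod.ext ?_ ?_) (Prod.ext ?_ (funext fun l => ?_)) <;>
    simp [aH, Pi.single_apply]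

theorem refl_eb (s : Fin 2) (u : CL) : cD.lat.refl (eb s) u =
    (u.1, u.2.1, fun r => if r = s then -u.2.2 r else u.2.2 r) := by
  rw [Lat.refl, DP.lat_ip, cD_ip, cip_eb]
  refine Prod.ext (Prod.ext ?_ ?_) (Prod.ext ?_ (funext fun l => ?_)) <;>
    simp [eb, Pi.single_apply]
  split_ifs with h
  · rw [h]
    ring
  · ring

/-- a dominant class has a non negative square -/
theorem Dmn.sq {u : CL} (h : Dmn u) : 0 ≤ cip u u := by
  obtain ⟨i, -, hi⟩ := Finset.exists_max_image Finset.univ u.2.1 Finset.univ_nonempty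
  obtain ⟨j, hj0, hj⟩ := Finset.exists_max_image (Finset.univ.erase i) u.2.1
    ⟨i + 1, by simp⟩
  have hji : j ≠ i := (Finset.mem_erase.1 hj0).1
  have h0 := h.M
  have h1 : ∀ l, 2 * (u.1.2 - u.1.1) ≤ u.2.1 l := by
    intro l
    rw [Fin.sum_univ_five] at h0
    have a1 := h.V 0 1 (by decide)
    have a2 := h.V 2 3 (by decide)
    have a3 := h.V 0 4 (by decide)
    have a4 := h.V 3 4 (by decide)
    have a5 := h.V 1 2 (by decide)
    have a6 := h.V 0 2 (by decide)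
    fin_cases l <;> simp <;> omega
  have h2 : ∑ l, u.2.1 l * u.2.1 l ≤ u.2.1 i * u.2.1 i + u.2.1 j * (2 * u.1.2 - u.2.1 i) := by
    rw [← h0, ← Finset.add_sum_erase _ _ (Finset.mem_univ i),
      ← Finset.add_sum_erase _ u.2.1 (Finset.mem_univ i), add_sub_cancel_left, Finset.mul_sum]
    refine add_le_add_right (Finset.sum_le_sum fun l hl => ?_) _
    have := h1 l
    have := h.c 0
    have := h.H 0
    exact mul_le_mul_of_nonneg_right (hj l hl) (by omega)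
  have h3 := h.V i j hji.symm
  have h4 := hi j (Finset.mem_univ j)
  have h5 := h1 j
  have c0 := h.c 0
  have c1 := h.c 1
  have d0 := h.H 0
  have d1 := h.H 1
  rw [cip, Fin.sum_univ_two]
  obtain ⟨w, hw⟩ : ∃ w, u.1.2 = u.1.1 + w := ⟨u.1.2 - u.1.1, by ring⟩
  obtain ⟨e, he⟩ : ∃ e, u.1.1 = u.2.1 i + u.2.1 j + e := ⟨u.1.1 - u.2.1 i - u.2.1 j, by ring⟩
  have k0 : u.2.2 0 * u.2.2 0 ≤ w * w := by nlinarith
  have k1 : u.2.2 1 * u.2.2 1 ≤ w * w := by nlinarith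
  have he0 : 0 ≤ e := by omega
  have hw0 : 0 ≤ w := by omega
  have hb : 2 * w ≤ u.2.1 j := by omega
  rw [hw] at h2 ⊢
  rw [he] at h2 ⊢
  nlinarith [mul_nonneg he0 hw0, mul_nonneg he0 he0, mul_nonneg he0 (by omega : 0 ≤ u.2.1 i),
    mul_nonneg (by omega : 0 ≤ u.2.1 j) (sub_nonneg.2 h4),
    mul_nonneg hw0 (by omega : 0 ≤ u.2.1 i - w)]

variable {O k Γ : Type} [CommRing O] [Field k] [LinearOrderedCommGroupWithZero Γ] {A : Arc O k}

theorem Shp.Q0 {c : Cfg O k} {χ : CL → k} (h : Shp A c χ) (hχ : IsCh χ) : c.Q0 ≠ 0 := by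
  have := mul_ne_zero (hχ.2 Core.e5) h.N0
  rwa [h.e5, neg_ne_zero] at this

theorem Shp.Q2 {c : Cfg O k} {χ : CL → k} (h : Shp A c χ) (hχ : IsCh χ) : c.Q2 ≠ 0 := by
  have := mul_ne_zero (hχ.2 (Core.aV 0 1)) (h.Q0 hχ)
  rw [h.aV 0 1 (by decide)] at this
  exact left_ne_zero_of_mul (left_ne_zero_of_mul this)

theorem Shp.zz {c : Cfg O k} {χ : CL → k} (h : Shp A c χ) (hχ : IsCh χ) {i j l : Fin 5}
    (hi : l ≠ i) (hj : l ≠ j) (h1 : χ (Core.aV l i - Core.aV l j) ≠ 1) :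
    A.res (c.z i) ≠ A.res (c.z j) := fun e => h1 <| by
  rw [hχ.sub, div_eq_one_iff_eq (hχ.2 _)]
  refine mul_right_cancel₀ (h.Q0 hχ) ?_
  rw [h.aV l i hi, h.aV l j hj, e]

theorem Shp.ka {c : Cfg O k} {χ : CL → k} (h : Shp A c χ) (hχ : IsCh χ) {i j : Fin 5}
    (hij : i ≠ j) (h1 : χ (Core.aV i j) ≠ 1) :
    c.Q2 * A.res (c.z i) * A.res (c.z j) ≠ c.Q0 := fun e => h1 <| by
  refine mul_right_cancel₀ (h.Q0 hχ) ?_
  rw [h.aV i j hij, e, one_mul]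

theorem Shp.sl {c : Cfg O k} {χ : CL → k} (h : Shp A c χ) (hχ : IsCh χ) (s : Fin 2) :
    A.res (c.be s) - A.res (c.al 1) ≠ c.Q0 := by
  have := mul_ne_zero (hχ.2 (Core.eb s)) h.N0
  rwa [h.eb, sub_ne_zero] at this

theorem Shp.a1b {c : Cfg O k} {χ : CL → k} (h : Shp A c χ) (hχ : IsCh χ) {s : Fin 2}
    (h1 : χ (aH s) ≠ 1) : A.res (c.al 1) ≠ A.res (c.be s) := fun e => h1 <| by
  rw [aH_eq, hχ.sub, div_eq_one_iff_eq (hχ.2 _)]
  refine mul_right_cancel₀ h.N0 ?_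
  rw [h.e5, h.eb, e]
  ring

theorem Shp.bb {c : Cfg O k} {χ : CL → k} (h : Shp A c χ) (hχ : IsCh χ)
    (h1 : χ (Core.eb 0 - Core.eb 1) ≠ 1) : A.res (c.be 0) ≠ A.res (c.be 1) := fun e => h1 <| by
  rw [hχ.sub, div_eq_one_iff_eq (hχ.2 _)]
  refine mul_right_cancel₀ h.N0 ?_
  rw [h.eb, h.eb, e]

theorem Shp.aa {c : Cfg O k} {χ : CL → k} (h : Shp A c χ)
    (h1 : χ (Core.eb 0) + χ (Core.eb 1) ≠ 1) : A.res (c.al 0) ≠ A.res (c.al 1) := fun e => h1 <| by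
  refine mul_right_cancel₀ h.N0 ?_
  rw [add_mul, h.eb, h.eb, Cfg.N, e]
  ring

theorem Shp.a0b {c : Cfg O k} {χ : CL → k} (h : Shp A c χ) {s : Fin 2}
    (h1 : χ Core.e5 + χ (Core.eb s.rev) ≠ 1) : A.res (c.al 0) ≠ A.res (c.be s) := fun e => h1 <| by
  refine mul_right_cancel₀ h.N0 ?_
  rw [add_mul, h.eb, h.e5, Cfg.N, e]
  fin_cases s <;> simp <;> ring

/-- no effective root: the residue data are not degenerate -/
theorem Shp.ndg {v : Valuation k Γ} {c : Cfg O k} {χ : CL → k} {n : ℕ} {U : Set k}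
    (h : Shp A c χ) (hP : cD.lat.P (Invo.one v) n χ ∅) (hz : cD.lat.Fz (Invo.one v) U χ)
    (hU : ∀ u ∈ U, ∀ w ∈ U, u + w ≠ 1) : Ndg A c := by
  have hχ := hP.j.ch
  have hr : ∀ α ∈ cD.lat.Φ, χ α ≠ 1 := fun α hα e => by simpa using hP.root α hα e
  refine ⟨h.z0, h.cur, h.N0, h.Q0 hχ, h.Q2 hχ, fun i j hij => ?_,
    fun i j hij => h.ka hχ hij (hr _ (aV_root i j hij)), h.sl hχ, fun r s => ?_,
    h.aa fun e => ?_, h.bb hχ (hr _ eb_sub.1)⟩
  · obtain ⟨l, h1, h2, h3⟩ := aV_sub i j hij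
    exact h.zz hχ h1 h2 (hr _ h3)
  · fin_cases r
    · refine h.a0b fun e => ?_
      simpa using hP.conj_one hz hU (eb_line s.rev) e5_line (eb_e5 _).2 (eb_e5 _).1
        (by rw [DP.lat_ip, cD_ip, cip_eb]; rfl) e
    · exact h.a1b hχ (hr _ (aH_root s))
  · simpa using hP.conj_one hz hU (eb_line 1) (eb_line 0) eb_sub.1 eb_sub.2 (by decide) e

end Pool.Agent.Lib.MP_d03834_ag.Core
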