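import Pool.Agent.Lib.MP_d03834_ag.Core.Cl
import Pool.Agent.Lib.MP_d03834_ag.Core.ShLat

/-! Configurations with an exact curve through the five free points, and their sections in
divisibility form. -/

set_option autoImplicit false

namespace Pool.Agent.Lib.MP_d03834_ag.Core

open scoped Polynomial

/-- the quadratic polynomial with coefficients a -/
noncomputable def qd {R : Type} [CommRing R] (a : Fin 3 → R) : R[X] :=
  Polynomial.C (a 0) + Polynomial.C (a 1) * Polynomial.X + Polynomial.C (a 2) * Polynomial.X ^ 2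

/-- its value -/
def qv {R : Type} [CommRing R] (a : Fin 3 → R) (z : R) : R := a 0 + a 1 * z + a 2 * z ^ 2

theorem qd_eval {R : Type} [CommRing R] (a : Fin 3 → R) (z : R) : (qd a).eval z = qv a z := by
  simp [qd, qv]

theorem qd_aeval {R S : Type} [CommRing R] [CommRing S] [Algebra R S] (a : Fin 3 → R) (z : S) :
    Polynomial.aeval z (qd a) = qv (fun i => algebraMap R S (a i)) z := by
  simp [qd, qv]

/-- forms of bidegree (p, d) -/
noncomputable def BiS (K : Type) [CommRing K] (p d : ℤ) : Submodule K (Cx K) :=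
  MvPolynomial.weightedHomogeneousSubmodule K bw (p, d)

theorem mem_BiS {K : Type} [CommRing K] {p d : ℤ} {F : Cx K} : F ∈ BiS K p d ↔ Bih p d F := Iff.rfl

/-- Sections in divisibility form over any ring: multiplicities m at the points over z of the
graph y = (q 0 : q 1), at the points over a of the line y = (0 : 1) and at the points over b of
the line y = (t : 1). -/
noncomputable def HD {K : Type} [CommRing K] (t : K) (q : Fin 2 → Fin 3 → K) (z : Fin 5 → K)
    (a b : Fin 2 → K) (p d : ℤ) (m : Ix → ℤ) : Submodule K (Cx K) :=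
  BiS K p d ⊓ DvS ![qd (q 0), qd (q 1)] ![0, 1] z (fun l => m (.inl l)) ⊓
    DvS ![0, 1] ![1, 0] a (fun s => m (.inr (.inl s))) ⊓
    DvS ![Polynomial.C t, 1] ![1, 0] b (fun s => m (.inr (.inr s)))

theorem mem_HD {K : Type} [CommRing K] {t : K} {q : Fin 2 → Fin 3 → K} {z : Fin 5 → K}
    {a b : Fin 2 → K} {p d : ℤ} {m : Ix → ℤ} {F : Cx K} : F ∈ HD t q z a b p d m ↔
      Bih p d F ∧ Dv ![qd (q 0), qd (q 1)] ![0, 1] z (fun l => m (.inl l)) F ∧
        Dv ![0, 1] ![1, 0] a (fun s => m (.inr (.inl s))) F ∧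
        Dv ![Polynomial.C t, 1] ![1, 0] b (fun s => m (.inr (.inr s))) F := by
  simp only [HD, Submodule.mem_inf, and_assoc]
  rfl

/-- a configuration together with a curve y = (q 0 : q 1) of bidegree (2, 1) -/
structure CCfg (O k : Type) extends Cfg O k where
  /-- the coefficients of the two quadratic polynomials -/
  q : Fin 2 → Fin 3 → O

variable {O k : Type} [CommRing O] [Field k] (A : Arc O k)

/-- the curve passes exactly through the five free points and has the right residue -/
structure Ex (c : CCfg O k) : Prop where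
  r00 : A.res (c.q 0 0) = 0
  r01 : A.res (c.q 0 1) = 1
  r02 : A.res (c.q 0 2) = 0
  r10 : A.res (c.q 1 0) = c.Q0
  r11 : A.res (c.q 1 1) = c.Q1
  r12 : A.res (c.q 1 2) = c.Q2
  on : ∀ l, qv (c.q 1) (c.z l) = c.η l * qv (c.q 0) (c.z l)

/-- the sections of the class u + ε K on c, in divisibility form -/
noncomputable def CCfg.HC (K : Type) [Field K] [Algebra O K] (c : CCfg O k) (ε : ℤ) (u : CL) :
    Submodule K (Cx K) :=
  HD (algebraMap O K A.t) (fun r i => algebraMap O K (c.q r i)) (fun l => algebraMap O K (c.z l))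
    (fun s => algebraMap O K (A.t * c.al s)) (fun s => algebraMap O K (A.t * c.be s))
    (dgx ε u) (dgy ε u) (mlt ε u)

/-- the residue conditions which the last step uses -/
structure NdgC (c : Cfg O k) : Prop where
  z0 : ∀ i, A.res (c.z i) ≠ 0
  cur : ∀ i, A.res (c.η i) * A.res (c.z i) =
    c.Q0 + c.Q1 * A.res (c.z i) + c.Q2 * A.res (c.z i) ^ 2
  N0 : c.N A ≠ 0
  Q0 : c.Q0 ≠ 0
  Q2 : c.Q2 ≠ 0
  sl : ∀ s, A.res (c.be s) - A.res (c.al 1) ≠ c.Q0

end Pool.Agent.Lib.MP_d03834_ag.Core
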