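import Pool.Agent.Lib.MP_d03834_ag.Core.DownCfg
import Pool.Agent.Lib.MP_d03834_ag.Core.ClDefs

/-! The explicit configuration with its exact curve, and constant parameters. -/

set_option autoImplicit false

namespace Pool.Agent.Lib.MP_d03834_ag.Core

namespace Dn

section general
variable {O k : Type} [CommRing O] [Field k] {A : Arc O k} (D : Dn A)

/-- the configuration with its curve -/
def ccfg : CCfg O k where
  toCfg := D.cfg
  q := ![![0, 1, 0], ![D.q, -(A.t * D.q * (D.q * D.a')), D.q * D.a']]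

theorem ccfg_toCfg : D.ccfg.toCfg = D.cfg := rfl

theorem ex : Ex A D.ccfg where
  r00 := map_zero _
  r01 := map_one _
  r02 := map_zero _
  r10 := rfl
  r11 := by
    change A.res (-(A.t * D.q * (D.q * D.a'))) = 0
    simp [rt A]
  r12 := map_mul _ _ _
  on := fun l => by
    change D.q + -(A.t * D.q * (D.q * D.a')) * D.z l + D.q * D.a' * D.z l ^ 2 =
      D.cfg.η l * (0 + 1 * D.z l + 0 * D.z l ^ 2)
    linear_combination -D.gam l

end general

section const
open PowerSeries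
variable {k : Type} [Field k]

/-- the conditions on constant parameters -/
structure Ok (q a b : k) : Prop where
  q0 : q ≠ 0
  a0 : a ≠ 0
  b0 : b ≠ 0
  two : (2 : k) ≠ 0
  a1 : a ≠ 1
  a2 : a ≠ -1
  b1 : b ≠ 1
  b2 : b ≠ -1
  b3 : b ≠ a
  b4 : b ≠ -a

theorem ps_ne {x y : PowerSeries k} (h : constantCoeff x ≠ constantCoeff y) : x ≠ y :=
  fun e => h (by rw [e])

/-- constant parameters -/
noncomputable def cst {q a b : k} (h : Ok q a b) (β : PowerSeries k) (h0 : constantCoeff β ≠ 0)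
    (h1 : constantCoeff β ≠ q) : Dn (Arc.ps k) where
  q := C q
  a := C a
  a' := C a⁻¹
  b := C b
  b' := C b⁻¹
  β := β
  aa := by rw [← map_mul, mul_inv_cancel₀ h.a0, map_one]
  bb := by rw [← map_mul, mul_inv_cancel₀ h.b0, map_one]
  q0 := by simpa [Arc.ps] using h.q0
  β0 := h0
  two := ps_ne (by rw [map_ofNat, map_zero]; exact h.two)
  a1 := ps_ne (by simpa using h.a1)
  a2 := ps_ne (by simpa using h.a2)
  b1 := ps_ne (by simpa using h.b1)
  b2 := ps_ne (by simpa using h.b2)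
  b3 := ps_ne (by simpa using h.b3)
  b4 := ps_ne (by simpa using h.b4)
  βq := ps_ne (by simpa using h1)

theorem cst_ch {q a b : k} (h : Ok q a b) (β : PowerSeries k) (h0 : constantCoeff β ≠ 0)
    (h1 : constantCoeff β ≠ q) (u : CL) : (cst h β h0 h1).ch u =
      (-1) ^ (u.1.1 + u.2.1 0 + u.2.1 1) * (q / constantCoeff β) ^ (u.1.1 - u.2.2 0) *
        a ^ (u.2.1 1 + u.2.1 3 - u.1.2) * b ^ u.2.1 2 := by
  simp [ch, r, cst, Arc.ps]

/-- the parameters for fifteen points -/
noncomputable def d15 {q a b : k} (h : Ok q a b) (h1 : q ≠ 1) : Dn (Arc.ps k) :=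
  cst h 1 (by simp) (by simpa using h1.symm)

theorem d15_ch {q a b : k} (h : Ok q a b) (h1 : q ≠ 1) (u : CL) : (d15 h h1).ch u =
    (-1) ^ (u.1.1 + u.2.1 0 + u.2.1 1) * q ^ (u.1.1 - u.2.2 0) *
      a ^ (u.2.1 1 + u.2.1 3 - u.1.2) * b ^ u.2.1 2 := by
  rw [d15, cst_ch]
  simp

theorem d15_r {q a b : k} (h : Ok q a b) (h1 : q ≠ 1) : (d15 h h1).r = q := by
  simp [r, d15, cst, Arc.ps]

theorem d15_a {q a b : k} (h : Ok q a b) (h1 : q ≠ 1) : (Arc.ps k).res (d15 h h1).a = a := by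
  simp [d15, cst, Arc.ps]

theorem d15_b {q a b : k} (h : Ok q a b) (h1 : q ≠ 1) : (Arc.ps k).res (d15 h h1).b = b := by
  simp [d15, cst, Arc.ps]

/-- the second point of B on the curve η = ρ + 2 q / x -/
noncomputable def bq (q a : k) : PowerSeries k :=
  2 * C q * (1 - X * (C q - C q * C a⁻¹ - X * C q ^ 2 * C a⁻¹))⁻¹

theorem bq_res (q a : k) : constantCoeff (bq q a) = 2 * q := by
  simp [bq, map_ofNat]

/-- the parameters for twelve points -/
noncomputable def d12 {q a b : k} (h : Ok q a b) : Dn (Arc.ps k) :=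
  cst h (bq q a) (by rw [bq_res]; exact mul_ne_zero h.two h.q0)
    (by rw [bq_res]; exact fun e => h.q0 (by linear_combination e))

theorem d12_ch {q a b : k} (h : Ok q a b) (u : CL) : (d12 h).ch u =
    (-1) ^ (u.1.1 + u.2.1 0 + u.2.1 1) * (2⁻¹ : k) ^ (u.1.1 - u.2.2 0) *
      a ^ (u.2.1 1 + u.2.1 3 - u.1.2) * b ^ u.2.1 2 := by
  rw [d12, cst_ch, bq_res, show q / (2 * q) = 2⁻¹ by field_simp [h.q0]]

theorem d12_r {q a b : k} (h : Ok q a b) : (d12 h).r = 2⁻¹ := by
  change constantCoeff (C q) / constantCoeff (bq q a) = _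
  rw [bq_res, constantCoeff_C]
  field_simp [h.q0]

theorem d12_a {q a b : k} (h : Ok q a b) : (Arc.ps k).res (d12 h).a = a := by
  simp [d12, cst, Arc.ps]

theorem d12_b {q a b : k} (h : Ok q a b) : (Arc.ps k).res (d12 h).b = b := by
  simp [d12, cst, Arc.ps]

/-- the curve η x = ρ x + 2 q passes through b 1 -/
theorem d12_rq {q a b : k} (h : Ok q a b) :
    (d12 h).β * (1 - (Arc.ps k).t * (d12 h).ρ) = 2 * (d12 h).q := by
  change bq q a * (1 - X * (C q - C q * C a⁻¹ - X * C q ^ 2 * C a⁻¹)) = 2 * C q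
  rw [bq, mul_assoc, PowerSeries.inv_mul_cancel _ (by simp), mul_one]

end const

end Dn

end Pool.Agent.Lib.MP_d03834_ag.Core
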