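import Pool.Agent.Lib.MP_d03834_ag.Core.Bi

/-! The quotient of the product of two lines by the sign involution, as a monomial map. -/

set_option autoImplicit false

namespace Pool.Agent.Lib.MP_d03834_ag.Core

open MvPolynomial Module

/-- the weights which measure the multiplicity at the four corners -/
def cw : Fin 4 → Fin 4 → ℕ := ![![0, 1, 1, 0], ![1, 0, 0, 1], ![1, 0, 1, 0], ![0, 1, 0, 1]]

theorem cw_wt (μ : Fin 4 →₀ ℕ) (c : Fin 4) : Finsupp.weight (cw c) μ =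
    ![μ 1 + μ 2, μ 0 + μ 3, μ 0 + μ 2, μ 1 + μ 3] c := by
  rw [Finsupp.weight_apply, Finsupp.sum_fintype _ _ (by simp), Fin.sum_univ_four]
  fin_cases c <;> simp [cw]

/-- the exponent map of the quotient -/
noncomputable def qex (s : Fin 4 → ℤ) (μ : Fin 4 →₀ ℕ) : Fin 4 →₀ ℕ :=
  Finsupp.equivFunOnFinite.symm fun c => (((Finsupp.weight (cw c) μ : ℕ) - s c) / 2).toNat

/-- the exponents of a section and of its image -/
def Qr (k : Fin 4 → ℤ) (a b : ℤ) (μ ν : Fin 4 →₀ ℕ) : Prop :=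
  (ν 0 + ν 1 : ℤ) = a ∧ (ν 2 + ν 3 : ℤ) = b ∧ (ν 1 + ν 2 : ℤ) = μ 0 + k 0 ∧
    (ν 0 + ν 3 : ℤ) = μ 1 + k 1 ∧ (ν 0 + ν 2 : ℤ) = μ 2 + k 2 ∧ (ν 1 + ν 3 : ℤ) = μ 3 + k 3

/-- the degrees on the four toric lines -/
def rt (k : Fin 4 → ℤ) (a b : ℤ) : Fin 4 → ℤ :=
  ![b - k 1 - k 2, b - k 0 - k 3, a - k 0 - k 2, a - k 1 - k 3]

section ring
variable {K : Type} [CommRing K]

/-- the four corners -/
def cor : Fin 4 → Fin 4 → K := ![![1, 0, 0, 1], ![0, 1, 1, 0], ![0, 1, 0, 1], ![1, 0, 1, 0]]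

/-- the involution on points -/
def ngP (P : Fin 4 → K) : Fin 4 → K := ![P 0, -P 1, P 2, -P 3]

/-- the quotient map on points -/
def quo (P : Fin 4 → K) : Fin 4 → K := ![P 1 * P 2, P 0 * P 3, P 0 * P 2, P 1 * P 3]

theorem pid_eq {P : Fin 4 → K} {x y : Cx K} (h1 : lx P = x ∨ lx P = -x)
    (h2 : ly P = y ∨ ly P = -y) : pid P = Ideal.span {x, y} := by
  rw [pid, Ideal.span_insert, Ideal.span_insert]
  congr 1
  · rcases h1 with h | h <;> simp [h]
  · rcases h2 with h | h <;> simp [h]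

theorem cor_iff (c : Fin 4) (m : ℕ) (F : Cx K) : F ∈ pid (cor c) ^ m ↔ Low (cw c) m F := by
  fin_cases c
  · rw [← low_span 1 2 (by decide) _ rfl rfl (by decide), pid_eq (x := X 1) (y := X 2)] <;>
      simp [lx, ly, cor]
  · rw [← low_span 0 3 (by decide) _ rfl rfl (by decide), pid_eq (x := X 0) (y := X 3)] <;>
      simp [lx, ly, cor]
  · rw [← low_span 0 2 (by decide) _ rfl rfl (by decide), pid_eq (x := X 0) (y := X 2)] <;>
      simp [lx, ly, cor]
  · rw [← low_span 1 3 (by decide) _ rfl rfl (by decide), pid_eq (x := X 1) (y := X 3)] <;>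
      simp [lx, ly, cor]

/-- the linear map given by a map of exponents -/
noncomputable def mon (f : (Fin 4 →₀ ℕ) → Fin 4 →₀ ℕ) : Cx K →ₗ[K] Cx K :=
  (basisMonomials (Fin 4) K).constr K fun μ => monomial (f μ) 1

theorem mon_one (f : (Fin 4 →₀ ℕ) → Fin 4 →₀ ℕ) (μ : Fin 4 →₀ ℕ) :
    mon f (monomial μ (1 : K)) = monomial (f μ) 1 :=
  (basisMonomials (Fin 4) K).constr_basis K (fun μ => monomial (f μ) (1 : K)) μ

theorem mon_ind {M : Type} [AddCommGroup M] [Module K M] (f : Cx K →ₗ[K] M) (S : Submodule K M)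
    (F : Cx K) (h : ∀ μ, coeff μ F ≠ 0 → f (monomial μ 1) ∈ S) : f F ∈ S := by
  rw [F.as_sum, map_sum]
  refine S.sum_mem fun μ hμ => ?_
  rw [← mul_one (coeff μ F), ← smul_eq_mul, ← smul_monomial, map_smul]
  exact S.smul_mem _ (h μ (mem_support_iff.1 hμ))

theorem mon_ext {M : Type} [AddCommGroup M] [Module K M] (f g : Cx K →ₗ[K] M)
    (F : Cx K) (h : ∀ μ, coeff μ F ≠ 0 → f (monomial μ 1) = g (monomial μ 1)) : f F = g F :=
  sub_eq_zero.1 ((Submodule.mem_bot K).1 (mon_ind (f - g) ⊥ F fun μ hμ => by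
    rw [LinearMap.sub_apply, h μ hμ, sub_self]; exact Submodule.zero_mem _))

/-- the operator X i times the derivative in X i -/
noncomputable def th (i : Fin 4) : Cx K →ₗ[K] Cx K :=
  (LinearMap.mulLeft K (X i : Cx K)).comp (pderiv i : Derivation K (Cx K) (Cx K)).toLinearMap

theorem th_def (i : Fin 4) (F : Cx K) : th i F = X i * pderiv i F := rfl

theorem th_mon (i : Fin 4) (μ : Fin 4 →₀ ℕ) (c : K) :
    th i (monomial μ c) = (μ i : K) • monomial μ c := by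
  rw [th_def, X_mul_pderiv_monomial, Nat.cast_smul_eq_nsmul]

theorem th_coeff (i : Fin 4) (F : Cx K) (μ : Fin 4 →₀ ℕ) :
    coeff μ (th i F) = μ i * coeff μ F := by
  classical
  induction F using MvPolynomial.induction_on' with
  | monomial ν a =>
    rw [th_mon, coeff_smul, coeff_monomial, smul_eq_mul]
    split_ifs with e
    · rw [e]
    · simp
  | add a b ha hb => rw [map_add, coeff_add, coeff_add, ha, hb, mul_add]

theorem der_pow (D : Derivation K (Cx K) (Cx K)) (I : Ideal (Cx K)) (m : ℕ) {F : Cx K}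
    (h : F ∈ I ^ (m + 1)) : D F ∈ I ^ m := by
  induction m generalizing F with
  | zero => simp
  | succ m ih =>
    rw [pow_succ] at h
    refine Submodule.mul_induction_on h (fun a ha b hb => ?_) fun a b ha hb => by
      rw [map_add]; exact Ideal.add_mem _ ha hb
    rw [Derivation.leibniz, smul_eq_mul, smul_eq_mul]
    refine Ideal.add_mem _ (Ideal.mul_mem_right _ _ ha) ?_
    rw [pow_succ']
    exact Ideal.mul_mem_mul hb (ih ha)

/-- the Euler relation at a point -/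
theorem euler_pid (Q : Fin 4 → K) (a b : K) (ha : a * Q 0 = -1) (hb : b * Q 2 = -1) (m : ℕ)
    {G : Cx K} (h : G ∈ pid Q ^ m) :
    C a * lx Q * pderiv 1 G + C b * ly Q * pderiv 3 G - (m : Cx K) * G ∈ pid Q ^ (m + 1) := by
  have k0 : ∀ x : Cx K, C a * lx Q * pderiv 1 x + C b * ly Q * pderiv 3 x ∈ pid Q := fun x =>
    Ideal.add_mem _ (Ideal.mul_mem_right _ _ (Ideal.mul_mem_left _ _ (lx_mem Q)))
      (Ideal.mul_mem_right _ _ (Ideal.mul_mem_left _ _ (ly_mem Q)))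
  have ha' : (C a * C (Q 0) : Cx K) = -1 := by rw [← map_mul, ha, map_neg, map_one]
  have hb' : (C b * C (Q 2) : Cx K) = -1 := by rw [← map_mul, hb, map_neg, map_one]
  have d1 : pderiv 1 (lx Q) = -C (Q 0) := by simp [lx]
  have d2 : pderiv 3 (lx Q) = 0 := by simp [lx]
  have d3 : pderiv 1 (ly Q) = 0 := by simp [ly]
  have d4 : pderiv 3 (ly Q) = -C (Q 2) := by simp [ly]
  induction m generalizing G with
  | zero => simpa using k0 G
  | succ m ih =>
    rw [pow_succ] at h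
    refine Submodule.mul_induction_on h (fun u hu v hv => ?_) fun u v hu hv => by
      have := Ideal.add_mem _ hu hv
      rw [map_add, map_add]
      refine (congrArg (· ∈ _) ?_).mp this
      ring
    obtain ⟨x, y, rfl⟩ := Ideal.mem_span_pair.1 hv
    have h1 := Ideal.mul_mem_mul (ih hu) hv
    have h2 := Ideal.mul_mem_mul (Ideal.mul_mem_mul hu (k0 x)) (lx_mem Q)
    have h3 := Ideal.mul_mem_mul (Ideal.mul_mem_mul hu (k0 y)) (ly_mem Q)
    rw [← pow_succ] at h1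
    rw [← pow_succ, ← pow_succ] at h2 h3
    refine (congrArg (· ∈ _) ?_).mp (Ideal.add_mem _ (Ideal.add_mem _ h1 h2) h3)
    simp only [pderiv_mul, map_add, d1, d2, d3, d4]
    push_cast
    linear_combination (u * x * lx Q) * ha' + (u * y * ly Q) * hb'

/-- the sign involution -/
noncomputable def ng : Cx K →ₐ[K] Cx K := aeval ![X 0, -X 1, X 2, -X 3]

theorem ng_mon (μ : Fin 4 →₀ ℕ) (c : K) :
    ng (monomial μ c) = ((-1 : K) ^ (μ 1 + μ 3)) • monomial μ c := by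
  rw [ng, aeval_monomial, monomial_eq, Finsupp.prod_fintype _ _ fun _ => pow_zero _,
    Finsupp.prod_fintype _ _ fun _ => pow_zero _, Fin.prod_univ_four, Fin.prod_univ_four,
    algebraMap_eq, smul_eq_C_mul, map_pow, map_neg, C_1]
  simp only [Matrix.cons_val]
  rw [neg_pow (X 1 : Cx K), neg_pow (X 3 : Cx K)]
  ring

theorem ng_coeff (F : Cx K) (μ : Fin 4 →₀ ℕ) :
    coeff μ (ng F) = (-1) ^ (μ 1 + μ 3) * coeff μ F := by
  classical
  induction F using MvPolynomial.induction_on' with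
  | monomial ν a =>
    rw [ng_mon, coeff_smul, coeff_monomial, smul_eq_mul]
    split_ifs with e
    · rw [e]
    · simp
  | add a b ha hb => rw [map_add, coeff_add, coeff_add, ha, hb, mul_add]

theorem ng_pid {P : Fin 4 → K} {m : ℕ} {F : Cx K} (h : F ∈ pid (ngP P) ^ m) :
    ng F ∈ pid P ^ m := by
  refine pid_map ng ?_ ?_ h
  · refine (congrArg (· ∈ _) ?_).mp ((pid P).neg_mem (lx_mem P))
    simp [ng, ngP, lx]
    ring
  · refine (congrArg (· ∈ _) ?_).mp ((pid P).neg_mem (ly_mem P))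
    simp [ng, ngP, ly]
    ring

theorem mon_bih {k : Fin 4 → ℤ} {a b : ℤ} {f : (Fin 4 →₀ ℕ) → Fin 4 →₀ ℕ} {F : Cx K}
    (hA : ∀ μ, coeff μ F ≠ 0 → Qr k a b μ (f μ)) : Bih a b (mon f F) :=
  mon_ind (mon f) (weightedHomogeneousSubmodule K bw (a, b)) F fun μ hμ => by
    rw [mon_one]
    exact isWeightedHomogeneous_monomial _ _ _ (by rw [bw_wt, (hA μ hμ).1, (hA μ hμ).2.1])

theorem mon_cor {k : Fin 4 → ℤ} {a b : ℤ} {f : (Fin 4 →₀ ℕ) → Fin 4 →₀ ℕ} {F : Cx K}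
    (hA : ∀ μ, coeff μ F ≠ 0 → Qr k a b μ (f μ)) (c : Fin 4) :
    mon f F ∈ pid (cor c) ^ (k c).toNat :=
  mon_ind (mon f) ((pid (cor c) ^ (k c).toNat).restrictScalars K) F fun μ hμ => by
    classical
    rw [mon_one, Submodule.restrictScalars_mem, cor_iff]
    intro ν hν
    rw [coeff_monomial] at hν
    obtain rfl : f μ = ν := by
      by_contra e
      exact hν (if_neg e)
    obtain ⟨-, -, h0, h1, h2, h3⟩ := hA μ hμ
    rw [cw_wt]
    fin_cases c <;> simp <;> omega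

theorem mon_inj {k : Fin 4 → ℤ} {a b : ℤ} {f : (Fin 4 →₀ ℕ) → Fin 4 →₀ ℕ} {F : Cx K}
    (hA : ∀ μ, coeff μ F ≠ 0 → Qr k a b μ (f μ)) (h : mon f F = 0) : F = 0 := by
  let g : (Fin 4 →₀ ℕ) → Fin 4 →₀ ℕ := fun ν => Finsupp.equivFunOnFinite.symm fun c =>
    (((Finsupp.weight (cw c) ν : ℕ) : ℤ) - k c).toNat
  have := mon_ext ((mon g).comp (mon f)) LinearMap.id F fun μ hμ => by
    rw [LinearMap.comp_apply, mon_one, mon_one, LinearMap.id_apply]
    obtain ⟨-, -, h0, h1, h2, h3⟩ := hA μ hμ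
    congr 2
    ext c
    simp only [g, Finsupp.equivFunOnFinite_symm_apply_apply, cw_wt]
    fin_cases c <;> simp <;> omega
  rw [LinearMap.comp_apply, h, map_zero] at this
  exact this.symm

end ring

theorem qr_of (k : Fin 4 → ℤ) (a b : ℤ) (μ : Fin 4 →₀ ℕ)
    (hp : (μ 0 + μ 1 : ℤ) = a + b - k 0 - k 1) (hq : (μ 2 + μ 3 : ℤ) = a + b - k 2 - k 3)
    (hn : ∀ c, rt k a b c ≤ (Finsupp.weight (cw c) μ : ℕ) + 1)
    (par : (μ 1 + μ 3 - (a - k 1 - k 3) : ℤ) % 2 = 0) : Qr k a b μ (qex (rt k a b) μ) := by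
  have h0 := hn 0
  have h1 := hn 1
  have h2 := hn 2
  have h3 := hn 3
  simp only [Qr, qex, Finsupp.equivFunOnFinite_symm_apply_apply, cw_wt, rt, Matrix.cons_val]
    at h0 h1 h2 h3 ⊢
  omega

section field
variable {K : Type} [Field K]

theorem pid_ev0 {Q : Fin 4 → K} (h0 : Q 0 ≠ 0) (h2 : Q 2 ≠ 0) {a b : ℤ} {G : Cx K}
    (hG : Bih a b G) (h : eval Q G = 0) : G ∈ pid Q := by
  let π := Ideal.Quotient.mk (pid Q)
  have e1 : π (C (Q 1) * X 0) = π (C (Q 0) * X 1) := Ideal.Quotient.eq.2 (lx_mem Q)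
  have e2 : π (C (Q 3) * X 2) = π (C (Q 2) * X 3) := Ideal.Quotient.eq.2 (ly_mem Q)
  have := mon_ind ((Q 0 ^ a.toNat * Q 2 ^ b.toNat) • LinearMap.id -
    (aeval Q : Cx K →ₐ[K] K).toLinearMap.smulRight (X 0 ^ a.toNat * X 2 ^ b.toNat : Cx K))
    ((pid Q).restrictScalars K) G fun μ hμ => by
      obtain ⟨rfl, rfl⟩ := bih_iff.1 hG μ hμ
      have e : π ((C (Q 0) * X 0) ^ μ 0 * (C (Q 0) * X 1) ^ μ 1 *
          ((C (Q 2) * X 2) ^ μ 2 * (C (Q 2) * X 3) ^ μ 3)) = π ((C (Q 0) * X 0) ^ μ 0 *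
          (C (Q 1) * X 0) ^ μ 1 * ((C (Q 2) * X 2) ^ μ 2 * (C (Q 3) * X 2) ^ μ 3)) := by
        simp only [map_mul π _ (_ ^ _), map_mul π _ (_ * _ ^ _), map_pow π, e1, e2]
      refine (congrArg (· ∈ _) ?_).mp (Ideal.Quotient.eq.1 e)
      rw [← Nat.cast_add, ← Nat.cast_add, Int.toNat_natCast, Int.toNat_natCast]
      simp only [LinearMap.sub_apply, LinearMap.smul_apply, LinearMap.id_apply,
        LinearMap.smulRight_apply, AlgHom.toLinearMap_apply, monomial_eq,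
        Finsupp.prod_fintype _ _ fun _ => pow_zero _, Fin.prod_univ_four, smul_eq_C_mul, map_mul,
        map_pow, map_one, aeval_X]
      ring
  rw [Submodule.restrictScalars_mem, LinearMap.sub_apply, LinearMap.smulRight_apply,
    AlgHom.toLinearMap_apply, show aeval Q G = 0 from h, zero_smul, sub_zero,
    LinearMap.smul_apply, LinearMap.id_apply] at this
  exact ((pid Q).restrictScalars K).smul_mem_iff
    (mul_ne_zero (pow_ne_zero _ h0) (pow_ne_zero _ h2)) |>.1 this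

theorem pid_step [CharZero K] {Q : Fin 4 → K} (hQ : ∀ c, Q c ≠ 0) {a b : ℤ} {G : Cx K}
    (hG : Bih a b G) (m : ℕ) (h0 : eval Q G = 0) (hm : G ∈ pid Q ^ m) (h1 : th 1 G ∈ pid Q ^ m)
    (h3 : th 3 G ∈ pid Q ^ m) : G ∈ pid Q ^ (m + 1) := by
  rcases m with _ | m
  · simpa using pid_ev0 (hQ 0) (hQ 2) hG h0
  have hP : Pt Q := ⟨.inl (hQ 0), .inl (hQ 2)⟩
  rw [th_def] at h1 h3
  have a1 := pid_div hP (not_pid (by rw [eval_X]; exact hQ 1)) h1
  have a3 := pid_div hP (not_pid (by rw [eval_X]; exact hQ 3)) h3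
  have e := euler_pid Q (-(Q 0)⁻¹) (-(Q 2)⁻¹) (by rw [neg_mul, inv_mul_cancel₀ (hQ 0)])
    (by rw [neg_mul, inv_mul_cancel₀ (hQ 2)]) _ hm
  have b1 := Ideal.mul_mem_mul (Ideal.mul_mem_left _ (C (-(Q 0)⁻¹)) (lx_mem Q)) a1
  have b3 := Ideal.mul_mem_mul (Ideal.mul_mem_left _ (C (-(Q 2)⁻¹)) (ly_mem Q)) a3
  rw [Nat.sub_zero, ← pow_succ'] at b1 b3
  have := Ideal.sub_mem _ (Ideal.add_mem _ b1 b3) e
  rw [sub_sub_cancel, ← nsmul_eq_mul, ← Nat.cast_smul_eq_nsmul K] at this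
  exact ((pid Q ^ (m + 1 + 1)).restrictScalars K).smul_mem_iff
    (Nat.cast_ne_zero.2 (Nat.succ_ne_zero m)) |>.1 this

theorem quo_eval {P : Fin 4 → K} (hP : ∀ c, P c ≠ 0) {k : Fin 4 → ℤ} {a b : ℤ}
    {f : (Fin 4 →₀ ℕ) → Fin 4 →₀ ℕ} {F : Cx K} (hA : ∀ μ, coeff μ F ≠ 0 → Qr k a b μ (f μ)) :
    eval (quo P) (mon f F) = (P 0 ^ k 0 * P 1 ^ k 1 * P 2 ^ k 2 * P 3 ^ k 3) * eval P F := by
  have := mon_ext ((aeval (quo P) : Cx K →ₐ[K] K).toLinearMap.comp (mon f))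
    ((P 0 ^ k 0 * P 1 ^ k 1 * P 2 ^ k 2 * P 3 ^ k 3) • (aeval P : Cx K →ₐ[K] K).toLinearMap) F
    fun μ hμ => by
      obtain ⟨-, -, h0, h1, h2, h3⟩ := hA μ hμ
      have e : ∀ (c : Fin 4) (x y z : ℕ), (x + y : ℤ) = z + k c →
          P c ^ x * P c ^ y = P c ^ z * P c ^ k c := fun c x y z h => by
        rw [← pow_add, ← zpow_natCast, ← zpow_natCast, ← zpow_add₀ (hP c), ← h, Nat.cast_add]
      simp only [LinearMap.comp_apply, mon_one, LinearMap.smul_apply, AlgHom.toLinearMap_apply,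
        aeval_monomial, Finsupp.prod_fintype _ _ fun _ => pow_zero _, Fin.prod_univ_four, quo,
        Matrix.cons_val, map_one, smul_eq_mul, mul_pow]
      calc _ = (P 0 ^ f μ 1 * P 0 ^ f μ 2) * (P 1 ^ f μ 0 * P 1 ^ f μ 3) *
          (P 2 ^ f μ 0 * P 2 ^ f μ 2) * (P 3 ^ f μ 1 * P 3 ^ f μ 3) := by ring
        _ = _ := by rw [e 0 _ _ _ h0, e 1 _ _ _ h1, e 2 _ _ _ h2, e 3 _ _ _ h3]; ring
  exact this

/-- the quotient map is unramified on the torus -/
theorem quo_pid [CharZero K] {P : Fin 4 → K} (hP : ∀ c, P c ≠ 0) {k : Fin 4 → ℤ} {a b : ℤ}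
    {f : (Fin 4 →₀ ℕ) → Fin 4 →₀ ℕ} (m : ℕ) {F : Cx K}
    (hA : ∀ μ, coeff μ F ≠ 0 → Qr k a b μ (f μ)) (h : F ∈ pid P ^ m) :
    mon f F ∈ pid (quo P) ^ m := by
  induction m generalizing F with
  | zero => simp
  | succ m ih =>
    have hF := ih hA (Ideal.pow_le_pow_right (Nat.le_succ m) h)
    have ht : ∀ i, mon f (th i F) ∈ pid (quo P) ^ m := fun i =>
      ih (fun μ hμ => hA μ fun e => hμ (by rw [th_coeff, e, mul_zero]))
        (Ideal.mul_mem_left _ _ (der_pow _ _ _ h))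
    have key : ∀ (i : Fin 4) (e : K) (z : ℤ), (∀ μ ν, Qr k a b μ ν →
        (2 * ν i : K) = e * μ 1 + μ 3 + z) → th i (mon f F) ∈ pid (quo P) ^ m := by
      intro i e z hz
      have := mon_ext ((2 : K) • (th i).comp (mon f)) (e • (mon f).comp (th 1) +
        (mon f).comp (th 3) + (z : K) • mon f) F fun μ hμ => by
          simp only [LinearMap.smul_apply, LinearMap.comp_apply, LinearMap.add_apply, th_mon,
            map_smul, mon_one, smul_smul, ← add_smul, hz μ _ (hA μ hμ)]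
      refine ((pid (quo P) ^ m).restrictScalars K).smul_mem_iff (two_ne_zero (α := K)) |>.1 ?_
      refine (congrArg (· ∈ _) this).mpr ?_
      exact Submodule.add_mem _ (Submodule.add_mem _ (Submodule.smul_mem _ _ (ht 1)) (ht 3))
        (Submodule.smul_mem _ _ hF)
    refine pid_step (fun c => ?_) (mon_bih hA) m ?_ hF (key 1 (-1) (k 3 - k 1 + a) ?_)
      (key 3 1 (k 1 + k 3 - a) ?_)
    · fin_cases c <;> simp [quo, hP]
    · rw [quo_eval hP hA, pid_eval (Ideal.pow_le_self (Nat.succ_ne_zero m) h), mul_zero]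
    · rintro μ ν ⟨h1, -, -, h2, -, h3⟩
      have : (2 * ν 1 : ℤ) = -1 * μ 1 + μ 3 + (k 3 - k 1 + a) := by omega
      exact_mod_cast congrArg (Int.cast : ℤ → K) this
    · rintro μ ν ⟨h1, -, -, h2, -, h3⟩
      have : (2 * ν 3 : ℤ) = 1 * μ 1 + μ 3 + (k 1 + k 3 - a) := by omega
      exact_mod_cast congrArg (Int.cast : ℤ → K) this

/-- the image of the even or odd part of a section -/
theorem invol_half [CharZero K] {ι : Type} {P : ι → Fin 4 → K} (hP : ∀ i c, P i c ≠ 0)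
    {m : ι → ℤ} {n k : Fin 4 → ℤ} {p q a b : ℤ} (hp : p = a + b - k 0 - k 1)
    (hq : q = a + b - k 2 - k 3) (hn : ∀ c, rt k a b c ≤ max (n c) 0 + 1) (e : ℕ)
    (he : (e - (a - k 1 - k 3) : ℤ) % 2 = 0) {F : Cx K}
    (hF : F ∈ H0 p q (Sum.elim cor (Sum.elim P fun i => ngP (P i))) (Sum.elim n (Sum.elim m m))) :
    mon (qex (rt k a b)) (F + (-1 : K) ^ e • ng F) ∈
      H0 a b (Sum.elim cor fun i => quo (P i)) (Sum.elim k m) ∧
    (mon (qex (rt k a b)) (F + (-1 : K) ^ e • ng F) = 0 → F + (-1 : K) ^ e • ng F = 0) := by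
  obtain ⟨h1, h2⟩ := mem_H0.1 hF
  have hA : ∀ μ, coeff μ (F + (-1 : K) ^ e • ng F) ≠ 0 → Qr k a b μ (qex (rt k a b) μ) := by
    intro μ hμ
    rw [coeff_add, coeff_smul, ng_coeff, smul_eq_mul, ← mul_assoc, ← pow_add, ← one_add_mul,
      mul_ne_zero_iff] at hμ
    obtain ⟨e1, e2⟩ := bih_iff.1 h1 μ hμ.2
    refine qr_of k a b μ (e1.trans hp) (e2.trans hq) (fun c => ?_) ?_
    · have := (cor_iff c _ F).1 (h2 (.inl c)) μ hμ.2
      have := hn c
      simp only [Sum.elim_inl] at *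
      omega
    · rcases Nat.even_or_odd (e + (μ 1 + μ 3)) with ⟨j, h⟩ | h
      · omega
      · exact absurd (by rw [h.neg_one_pow, add_neg_cancel]) hμ.1
  refine ⟨mem_H0.2 ⟨mon_bih hA, ?_⟩, mon_inj hA⟩
  rintro (c | i)
  · exact mon_cor hA c
  · exact quo_pid (hP i) _ hA (((pid (P i) ^ (m i).toNat).restrictScalars K).add_mem
      (h2 (.inr (.inl i))) (Submodule.smul_mem _ _ (ng_pid (h2 (.inr (.inr i))))))

/-- a symmetric configuration: the sections split into two spaces on the quotient -/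
theorem invol [CharZero K] {ι : Type} (P : ι → Fin 4 → K) (hP : ∀ i c, P i c ≠ 0)
    (m : ι → ℤ) (n k k' : Fin 4 → ℤ) (p q a b a' b' : ℤ) (hp : p = a + b - k 0 - k 1)
    (hq : q = a + b - k 2 - k 3) (hn : ∀ c, rt k a b c ≤ max (n c) 0 + 1)
    (hp' : p = a' + b' - k' 0 - k' 1) (hq' : q = a' + b' - k' 2 - k' 3)
    (hn' : ∀ c, rt k' a' b' c ≤ max (n c) 0 + 1)
    (he : (a - k 1 - k 3) % 2 = 0) (he' : (a' - k' 1 - k' 3) % 2 = 1) :
    finrank K (H0 p q (Sum.elim cor (Sum.elim P fun i => ngP (P i)))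
      (Sum.elim n (Sum.elim m m))) ≤
    finrank K (H0 a b (Sum.elim cor fun i => quo (P i)) (Sum.elim k m)) +
      finrank K (H0 a' b' (Sum.elim cor fun i => quo (P i)) (Sum.elim k' m)) := by
  have h0 := fun F => invol_half (F := F) (m := m) hP hp hq hn 0 (by omega)
  have h1 := fun F => invol_half (F := F) (m := m) hP hp' hq' hn' 1 (by omega)
  let φ : ∀ (s : Fin 4 → ℤ) (e : ℕ), Cx K →ₗ[K] Cx K := fun s e =>
    (mon (qex s)).comp (LinearMap.id + (-1 : K) ^ e • ng.toLinearMap)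
  rw [← finrank_prod]
  refine LinearMap.finrank_le_finrank_of_injective (f := LinearMap.prod
    ((φ (rt k a b) 0).restrict fun F hF => (h0 F hF).1)
    ((φ (rt k' a' b') 1).restrict fun F hF => (h1 F hF).1)) ?_
  refine LinearMap.ker_eq_bot.1 (LinearMap.ker_eq_bot'.2 fun F hF => Subtype.ext ?_)
  have a0 := (h0 F F.2).2 (congrArg (fun z => z.1.1) hF)
  have a1 := (h1 F F.2).2 (congrArg (fun z => z.2.1) hF)
  rw [pow_zero, one_smul] at a0
  rw [pow_one, neg_smul, one_smul] at a1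
  have : (2 : K) • (F : Cx K) = 0 := by rw [two_smul]; linear_combination a0 + a1
  exact (smul_eq_zero.1 this).resolve_left two_ne_zero

end field

end Pool.Agent.Lib.MP_d03834_ag.Core
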