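import Mathlib

/-! The dimension of a space of polynomials can only grow in the limit over a valuation ring. -/

set_option autoImplicit false

namespace Pool.Agent.Lib.MP_d03834_ag.Core

open MvPolynomial Module

variable {O K k σ : Type} [CommRing O] [IsDomain O] [ValuationRing O] [Field K] [Algebra O K]
  [IsFractionRing O K]

/-- a non zero polynomial has an integral multiple with a coefficient equal to one -/
theorem lim_prim {F : MvPolynomial σ K} (hF : F ≠ 0) :
    ∃ (c : K) (G : MvPolynomial σ O) (μ : σ →₀ ℕ),
      c ≠ 0 ∧ map (algebraMap O K) G = c • F ∧ coeff μ G = 1 := by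
  classical
  obtain ⟨μ, hμ, hmax⟩ := F.support.exists_max_image
    (fun ν => ValuationRing.valuation O K (coeff ν F)) (support_nonempty.2 hF)
  have h0 : coeff μ F ≠ 0 := mem_support_iff.1 hμ
  have hO : ∀ ν, ∃ a : O, algebraMap O K a = (coeff μ F)⁻¹ * coeff ν F := fun ν => by
    by_cases hν : ν ∈ F.support
    · rw [← ValuationRing.mem_integer_iff, Valuation.mem_integer_iff, map_mul, map_inv₀,
        inv_mul_le_iff₀ (zero_lt_iff.2 ((map_ne_zero _).2 h0)), mul_one]
      exact hmax ν hν
    · exact ⟨0, by rw [notMem_support_iff.1 hν, mul_zero, map_zero]⟩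
  choose a ha using hO
  have hc : ∀ ν, coeff ν (∑ l ∈ F.support, monomial l (a l)) = a ν := fun ν => by
    rw [coeff_sum]
    simp only [coeff_monomial]
    rw [Finset.sum_ite_eq']
    split_ifs with h
    · rfl
    · exact IsFractionRing.injective O K (by rw [ha, notMem_support_iff.1 h, mul_zero, map_zero])
  refine ⟨(coeff μ F)⁻¹, ∑ l ∈ F.support, monomial l (a l), μ, inv_ne_zero h0, ?_, ?_⟩
  · ext ν
    rw [coeff_map, hc, coeff_smul, ha, smul_eq_mul]
  · rw [hc]
    exact IsFractionRing.injective O K (by rw [ha, inv_mul_cancel₀ h0, map_one])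

/-- the dimension can only grow in the limit -/
theorem lim_le [Field k] (π : O →+* k)
    (S : Submodule K (MvPolynomial σ K)) [FiniteDimensional K S]
    (T : Submodule k (MvPolynomial σ k)) [FiniteDimensional k T]
    (h : ∀ G : MvPolynomial σ O, map (algebraMap O K) G ∈ S → map π G ∈ T) :
    finrank K S ≤ finrank k T := by
  generalize hn : finrank K S = n
  induction n generalizing S T with
  | zero => exact Nat.zero_le _
  | succ n ih =>
    obtain ⟨F, hF, hF0⟩ := Submodule.exists_mem_ne_zero_of_ne_bot (p := S) (by
      rintro rfl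
      simp at hn)
    obtain ⟨c, G, μ, -, hG, hμ⟩ := lim_prim (O := O) hF0
    have hGS : map (algebraMap O K) G ∈ S := hG ▸ S.smul_mem c hF
    have hS : FiniteDimensional K ↥(S ⊓ LinearMap.ker (lcoeff K μ)) :=
      Submodule.finiteDimensional_of_le inf_le_left
    have hT : FiniteDimensional k ↥(T ⊓ LinearMap.ker (lcoeff k μ)) :=
      Submodule.finiteDimensional_of_le inf_le_left
    have h1 : finrank K ↥(S ⊓ LinearMap.ker (lcoeff K μ)) = n := by
      have a := LinearMap.finrank_range_add_finrank_ker ((lcoeff K μ).comp S.subtype)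
      have b : LinearMap.range ((lcoeff K μ).comp S.subtype) = ⊤ := by
        rw [LinearMap.range_eq_top]
        intro x
        refine ⟨x • ⟨_, hGS⟩, ?_⟩
        simp [coeff_map, hμ]
      have e : LinearMap.ker ((lcoeff K μ).comp S.subtype) =
          (S ⊓ LinearMap.ker (lcoeff K μ)).comap S.subtype := by
        ext x
        simp
      rw [b, finrank_top, finrank_self, e, hn,
        (Submodule.comapSubtypeEquivOfLe inf_le_left).finrank_eq] at a
      omega
    have h2 : finrank k ↥(T ⊓ LinearMap.ker (lcoeff k μ)) < finrank k T :=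
      Submodule.finrank_lt_finrank_of_lt (lt_of_le_of_ne inf_le_left fun e => by
        have := (e.ge (h G hGS)).2
        simp [coeff_map, hμ] at this)
    have h3 := ih (S ⊓ LinearMap.ker (lcoeff K μ)) (T ⊓ LinearMap.ker (lcoeff k μ))
      (fun H hH => ⟨h H hH.1, by
        have a : algebraMap O K (coeff μ H) = 0 := by simpa [coeff_map] using hH.2
        have b : coeff μ H = 0 := IsFractionRing.injective O K (by rw [a, map_zero])
        simp [coeff_map, b]⟩) h1
    omega

end Pool.Agent.Lib.MP_d03834_ag.Core
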