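import Pool.Agent.Lib.MP_d03834_ag.Core.Bi
import Pool.Agent.Lib.MP_d03834_ag.Core.Lim

/-! Multiplicities and degrees pass to the limit; weighted blow up of a limit. -/

set_option autoImplicit false

namespace Pool.Agent.Lib.MP_d03834_ag.Core

open MvPolynomial Module

section ring
variable {A B σ : Type} [CommRing A] [CommRing B]

theorem lim_aeval {τ : Type} (f : A →+* B) (g : σ → MvPolynomial τ A) (F : MvPolynomial σ A) :
    map f (aeval g F) = aeval (fun i => map f (g i)) (map f F) := map_bind₁ f g F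

theorem lim_ideal {R S Φ : Type} [CommRing R] [CommRing S] [FunLike Φ R S] [RingHomClass Φ R S]
    (φ : Φ) {I : Ideal R} {J : Ideal S} (h : ∀ x ∈ I, φ x ∈ J) {m : ℕ} {F : R} (hF : F ∈ I ^ m) :
    φ F ∈ J ^ m := by
  have h3 := Ideal.mem_map_of_mem φ hF
  rw [Ideal.map_pow] at h3
  exact Ideal.pow_right_mono (Ideal.map_le_iff_le_comap.2 h) m h3

theorem Low.map {w : σ → ℕ} {g : ℕ} {F : MvPolynomial σ A} (h : Low w g F) (f : A →+* B) :
    Low w g (map f F) := fun μ hμ => h μ fun e => hμ (by rw [coeff_map, e, map_zero])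

theorem Top.map {w : σ → ℕ} {g : ℕ} {F : MvPolynomial σ A} (h : Top w g F) (f : A →+* B) :
    Top w g (map f F) := fun μ hμ => h μ fun e => hμ (by rw [coeff_map, e, map_zero])

theorem Low.of_map {w : σ → ℕ} {g : ℕ} {F : MvPolynomial σ A} {f : A →+* B}
    (hf : Function.Injective f) (h : Low w g (MvPolynomial.map f F)) : Low w g F :=
  fun μ hμ => h μ fun e => hμ (hf (by rw [← coeff_map, e, map_zero]))

theorem Top.of_map {w : σ → ℕ} {g : ℕ} {F : MvPolynomial σ A} {f : A →+* B}
    (hf : Function.Injective f) (h : Top w g (MvPolynomial.map f F)) : Top w g F :=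
  fun μ hμ => h μ fun e => hμ (hf (by rw [← coeff_map, e, map_zero]))

theorem Bih.map {p q : ℤ} {F : Cx A} (h : Bih p q F) (f : A →+* B) : Bih p q (map f F) :=
  fun μ hμ => h fun e => hμ (by rw [coeff_map, e, map_zero])

theorem Bih.of_map {p q : ℤ} {F : Cx A} {f : A →+* B} (hf : Function.Injective f)
    (h : Bih p q (MvPolynomial.map f F)) : Bih p q F :=
  fun μ hμ => h fun e => hμ (hf (by rw [← coeff_map, e, map_zero]))

theorem Bih.of_cmul [IsDomain A] {p q : ℤ} {F : Cx A} {c : A} (hc : c ≠ 0)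
    (h : Bih p q (C c * F)) : Bih p q F :=
  fun μ hμ => h (by rw [coeff_C_mul]; exact mul_ne_zero hc hμ)

/-- the substitution which moves the point P to the origin -/
noncomputable def nrm (a c a' c' : A) (P : Fin 4 → A) : Cx A →ₐ[A] Cx A :=
  aeval ![C a * X 0 + C (P 0) * X 1, C c * X 0 + C (P 1) * X 1,
    C a' * X 2 + C (P 2) * X 3, C c' * X 2 + C (P 3) * X 3]

theorem nrm_map (f : A →+* B) (a c a' c' : A) (P : Fin 4 → A) (F : Cx A) :
    map f (nrm a c a' c' P F) = nrm (f a) (f c) (f a') (f c') (fun i => f (P i)) (map f F) := by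
  rw [nrm, lim_aeval, nrm]
  congr 2
  funext i
  fin_cases i <;> simp

theorem pid_nrm {a c a' c' : A} {P : Fin 4 → A} (h : a * P 1 - P 0 * c = 1)
    (h' : a' * P 3 - P 2 * c' = 1) (m : ℕ) (F : Cx A) :
    F ∈ pid P ^ m ↔ Low ![1, 0, 1, 0] m (nrm a c a' c' P F) := by
  have hC : (C a * C (P 1) - C (P 0) * C c : Cx A) = 1 := by
    rw [← map_mul, ← map_mul, ← map_sub, h, map_one]
  have hC' : (C a' * C (P 3) - C (P 2) * C c' : Cx A) = 1 := by
    rw [← map_mul, ← map_mul, ← map_sub, h', map_one]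
  rw [← low_span 0 2 (by decide) _ rfl rfl (by decide)]
  refine ⟨pid_map _ ?_ ?_, fun hF => ?_⟩
  · refine Ideal.subset_span (Or.inl ?_)
    simp [nrm, lx]
    linear_combination X 0 * hC
  · refine Ideal.subset_span (Or.inr ?_)
    simp [nrm, ly]
    linear_combination X 2 * hC'
  · let ψ : Cx A →ₐ[A] Cx A :=
      aeval ![lx P, C a * X 1 - C c * X 0, ly P, C a' * X 3 - C c' * X 2]
    have e : ψ.comp (nrm a c a' c' P) = AlgHom.id A _ := by
      refine algHom_ext fun i => ?_
      fin_cases i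
      · simp [ψ, nrm, lx]
        linear_combination X 0 * hC
      · simp [ψ, nrm, lx]
        linear_combination X 1 * hC
      · simp [ψ, nrm, ly]
        linear_combination X 2 * hC'
      · simp [ψ, nrm, ly]
        linear_combination X 3 * hC'
    rw [← show ψ (nrm a c a' c' P F) = F from DFunLike.congr_fun e F]
    refine lim_ideal ψ (fun x hx => ?_) hF
    obtain ⟨u, v, rfl⟩ := Ideal.mem_span_pair.1 hx
    simp only [map_add, map_mul, ψ, aeval_X]
    exact Ideal.add_mem _ (Ideal.mul_mem_left _ _ (lx_mem P)) (Ideal.mul_mem_left _ _ (ly_mem P))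

/-- both pairs of coordinates generate the unit ideal -/
def Uni (P : Fin 4 → A) : Prop :=
  (∃ a c, a * P 1 - P 0 * c = 1) ∧ ∃ a c, a * P 3 - P 2 * c = 1

theorem pid_push (f : A →+* B) {P : Fin 4 → A} {m : ℕ} {F : Cx A} (h : F ∈ pid P ^ m) :
    map f F ∈ pid (fun i => f (P i)) ^ m :=
  pid_map (map f) (by simpa [lx] using lx_mem fun i => f (P i))
    (by simpa [ly] using ly_mem fun i => f (P i)) h

theorem pid_pull {f : A →+* B} (hf : Function.Injective f) {P : Fin 4 → A} (hP : Uni P) {m : ℕ}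
    {F : Cx A} (h : map f F ∈ pid (fun i => f (P i)) ^ m) : F ∈ pid P ^ m := by
  obtain ⟨⟨a, c, e⟩, a', c', e'⟩ := hP
  rw [pid_nrm (a := f a) (c := f c) (a' := f a') (c' := f c')
    (by rw [← map_mul, ← map_mul, ← map_sub, e, map_one])
    (by rw [← map_mul, ← map_mul, ← map_sub, e', map_one]), ← nrm_map] at h
  exact (pid_nrm e e' m F).2 (h.of_map hf)

theorem pid_cancel [IsDomain A] {P : Fin 4 → A} (hP : Uni P) {m : ℕ} {c : A} (hc : c ≠ 0)
    {F : Cx A} (h : C c * F ∈ pid P ^ m) : F ∈ pid P ^ m := by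
  obtain ⟨⟨a, b, e⟩, a', b', e'⟩ := hP
  rw [pid_nrm e e'] at h ⊢
  intro μ hμ
  refine h μ ?_
  rw [map_mul, ← algebraMap_eq, AlgHom.commutes, algebraMap_eq, coeff_C_mul]
  exact mul_ne_zero hc hμ

theorem uni_of {k : Type} [CommRing k] (π : A →+* k) (hπ : ∀ x, π x ≠ 0 → IsUnit x)
    {P : Fin 4 → A} (hP : Pt fun i => π (P i)) : Uni P := by
  have key : ∀ u v : A, π u ≠ 0 ∨ π v ≠ 0 → ∃ a c, a * v - u * c = 1 := by
    rintro u v (h | h)
    · obtain ⟨x, hx⟩ := (hπ u h).exists_right_inv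
      exact ⟨0, -x, by linear_combination hx⟩
    · obtain ⟨x, hx⟩ := (hπ v h).exists_right_inv
      exact ⟨x, 0, by linear_combination hx⟩
  exact ⟨key _ _ hP.1, key _ _ hP.2⟩

theorem lim_eval {τ : Type} (v : τ → A) (g : σ → MvPolynomial τ A) (F : MvPolynomial σ A) :
    eval v (aeval g F) = eval (fun i => eval v (g i)) F := by
  induction F using MvPolynomial.induction_on with
  | C a => rw [aeval_C, algebraMap_eq, eval_C, eval_C]
  | add a b ha hb => rw [map_add, map_add, map_add, ha, hb]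
  | mul_X a i ha => rw [map_mul, map_mul, map_mul, ha, aeval_X, eval_X]

/-- multiplicity at a point of affine space -/
theorem ker_pow (v : σ → A) (m : ℕ) (F : MvPolynomial σ A) :
    F ∈ RingHom.ker (eval v) ^ m ↔ ∀ μ : σ →₀ ℕ, μ.degree < m →
      coeff μ (aeval (fun i => C (v i) + X i) F : MvPolynomial σ A) = 0 := by
  rw [← mem_pow_idealOfVars_iff']
  constructor
  · refine lim_ideal _ fun x hx => ?_
    rw [← pow_one (idealOfVars σ A), mem_pow_idealOfVars_iff']
    intro μ hμ
    obtain rfl : μ = 0 := (Finsupp.degree_eq_zero_iff _).1 (by omega)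
    rw [← constantCoeff_eq, ← eval_zero, lim_eval]
    simp only [map_add, eval_C, eval_X, Pi.zero_apply, add_zero]
    exact hx
  · intro h
    have e : (aeval fun i => C (-v i) + X i : MvPolynomial σ A →ₐ[A] MvPolynomial σ A).comp
        (aeval fun i => C (v i) + X i) = AlgHom.id A _ := algHom_ext fun i => by simp
    rw [← show aeval (fun i => C (-v i) + X i) (aeval (fun i => C (v i) + X i) F) = F from
      DFunLike.congr_fun e F]
    refine lim_ideal _ (fun x hx => ?_) h
    refine (Ideal.span_le (I := (RingHom.ker (eval v)).comap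
      (aeval fun i => C (-v i) + X i : MvPolynomial σ A →ₐ[A] MvPolynomial σ A))).2 ?_ hx
    rintro _ ⟨i, rfl⟩
    simp

theorem ker_push (f : A →+* B) {v : σ → A} {m : ℕ} {F : MvPolynomial σ A}
    (h : F ∈ RingHom.ker (eval v) ^ m) : map f F ∈ RingHom.ker (eval fun i => f (v i)) ^ m := by
  rw [ker_pow] at h ⊢
  intro μ hμ
  have := lim_aeval f (fun i => C (v i) + X i) F
  simp only [map_add, map_C, map_X] at this
  rw [← this, coeff_map, h μ hμ, map_zero]

theorem ker_pull {f : A →+* B} (hf : Function.Injective f) {v : σ → A} {m : ℕ}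
    {F : MvPolynomial σ A} (h : map f F ∈ RingHom.ker (eval fun i => f (v i)) ^ m) :
    F ∈ RingHom.ker (eval v) ^ m := by
  rw [ker_pow] at h ⊢
  intro μ hμ
  have := lim_aeval f (fun i => C (v i) + X i) F
  simp only [map_add, map_C, map_X] at this
  exact hf (by rw [← coeff_map, this, h μ hμ, map_zero])

theorem ker_cancel [IsDomain A] {v : σ → A} {m : ℕ} {c : A} (hc : c ≠ 0) {F : MvPolynomial σ A}
    (h : C c * F ∈ RingHom.ker (eval v) ^ m) : F ∈ RingHom.ker (eval v) ^ m := by
  rw [ker_pow] at h ⊢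
  intro μ hμ
  have := h μ hμ
  rw [map_mul, aeval_C, algebraMap_eq, coeff_C_mul] at this
  exact (mul_eq_zero.1 this).resolve_left hc

/-- the weighted scaling of the variables -/
noncomputable def scl (w : σ → ℕ) (t : A) : MvPolynomial σ A →ₐ[A] MvPolynomial σ A :=
  aeval fun i => C (t ^ w i) * X i

theorem scl_coeff (w : σ → ℕ) (t : A) (μ : σ →₀ ℕ) (F : MvPolynomial σ A) :
    coeff μ (scl w t F) = t ^ Finsupp.weight w μ * coeff μ F := by
  classical
  induction F using MvPolynomial.induction_on' with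
  | monomial ν a =>
    have e : scl w t (monomial ν a) = C (t ^ Finsupp.weight w ν) * monomial ν a := by
      rw [scl, aeval_monomial, monomial_eq, Finsupp.weight_apply, Finsupp.prod, Finsupp.prod,
        Finsupp.sum, algebraMap_eq, ← Finset.prod_pow_eq_pow_sum, map_prod, mul_left_comm,
        ← Finset.prod_mul_distrib]
      congr 1
      refine Finset.prod_congr rfl fun i _ => ?_
      rw [mul_pow, ← map_pow, ← pow_mul, smul_eq_mul, mul_comm (w i)]
    rw [e, coeff_C_mul, coeff_monomial]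
    split_ifs with h
    · rw [h]
    · simp
  | add a b ha hb => rw [map_add, coeff_add, coeff_add, ha, hb, mul_add]

theorem Bih.scl {p q : ℤ} {F : Cx A} (h : Bih p q F) (w : Fin 4 → ℕ) (t : A) :
    Bih p q (scl w t F) := fun μ hμ => h fun e => hμ (by rw [scl_coeff, e, mul_zero])

theorem scl_pid (w : Fin 4 → ℕ) (t : A) {Q : Fin 4 → A} {m : ℕ} {F : Cx A}
    (h : F ∈ pid (fun i => t ^ w i * Q i) ^ m) : scl w t F ∈ pid Q ^ m := by
  refine pid_map _ ?_ ?_ h
  · have e : scl w t (lx fun i => t ^ w i * Q i) = C (t ^ w 0 * t ^ w 1) * lx Q := by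
      simp [scl, lx]
      ring
    exact e ▸ Ideal.mul_mem_left _ _ (lx_mem Q)
  · have e : scl w t (ly fun i => t ^ w i * Q i) = C (t ^ w 2 * t ^ w 3) * ly Q := by
      simp [scl, ly]
      ring
    exact e ▸ Ideal.mul_mem_left _ _ (ly_mem Q)

theorem scl_ker (w : σ → ℕ) (t : A) {q : σ → A} {m : ℕ} {F : MvPolynomial σ A}
    (h : F ∈ RingHom.ker (eval fun i => t ^ w i * q i) ^ m) :
    scl w t F ∈ RingHom.ker (eval q) ^ m := by
  refine lim_ideal _ (fun x hx => ?_) h
  rw [RingHom.mem_ker, scl, lim_eval]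
  simp only [map_mul, eval_C, eval_X]
  exact hx

end ring

section val
variable {O K k σ : Type} [CommRing O] [IsDomain O] [ValuationRing O] [Field k]

/-- content of a polynomial over a valuation ring -/
theorem lim_content {G : MvPolynomial σ O} (hG : G ≠ 0) :
    ∃ (c : O) (H : MvPolynomial σ O) (μ : σ →₀ ℕ), c ≠ 0 ∧ G = C c * H ∧ coeff μ H = 1 := by
  have hi := IsFractionRing.injective O (FractionRing O)
  obtain ⟨c, H, μ, hc, h1, h2⟩ := lim_prim (O := O) (K := FractionRing O)
    (F := map (algebraMap O _) G) fun e => hG (map_injective _ hi (by rw [e, map_zero]))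
  have h3 : ∀ ν, algebraMap O (FractionRing O) (coeff ν H) =
      c * algebraMap O (FractionRing O) (coeff ν G) := fun ν => by
    rw [← coeff_map, h1, coeff_smul, coeff_map, smul_eq_mul]
  have h4 := h3 μ
  rw [h2, map_one] at h4
  refine ⟨coeff μ G, H, μ, fun e => ?_, ?_, h2⟩
  · rw [e, map_zero, mul_zero] at h4
    exact one_ne_zero h4
  · ext ν
    refine hi ?_
    rw [coeff_C_mul, map_mul, h3]
    linear_combination (algebraMap O (FractionRing O) (coeff ν G)) * h4

/-- weighted blow up: the top form on the bubble is the initial form of the limit -/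
theorem lim_blow (π : O →+* k) (hπ : ∀ x, π x ≠ 0 → IsUnit x) {t : O} (ht0 : t ≠ 0)
    (ht : π t = 0) (w : σ → ℕ) {G : MvPolynomial σ O} (hG : G ≠ 0) :
    ∃ (n : ℕ) (c : O) (H : MvPolynomial σ O) (lam : k), c ≠ 0 ∧ scl w t G = C c * H ∧
      (∃ μ, Finsupp.weight w μ = n ∧ coeff μ (map π H) ≠ 0) ∧ Top w n (map π H) ∧
      Low w n (map π G) ∧
      ∀ μ, Finsupp.weight w μ = n → coeff μ (map π G) = lam * coeff μ (map π H) := by
  obtain ⟨c, H, ν, hc, h1, h2⟩ := lim_content (G := scl w t G) fun e => hG (by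
    ext μ
    have := scl_coeff w t μ G
    rw [e, coeff_zero] at this
    exact (mul_eq_zero.1 this.symm).resolve_left (pow_ne_zero _ ht0))
  obtain ⟨μ0, hμ0, hmax⟩ := (map π H).support.exists_max_image (Finsupp.weight w)
    ⟨ν, by rw [MvPolynomial.mem_support_iff, coeff_map, h2, map_one]; exact one_ne_zero⟩
  have h3 : ∀ μ, t ^ Finsupp.weight w μ * coeff μ G = c * coeff μ H := fun μ => by
    rw [← scl_coeff, h1, coeff_C_mul]
  obtain ⟨u, hu⟩ := (hπ _ (coeff_map π H μ0 ▸ mem_support_iff.1 hμ0)).exists_right_inv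
  have h4 : ∀ μ j, Finsupp.weight w μ0 = Finsupp.weight w μ + j →
      coeff μ G = t ^ j * (coeff μ0 G * u * coeff μ H) := fun μ j e => by
    refine mul_left_cancel₀ (pow_ne_zero (Finsupp.weight w μ) ht0) ?_
    have := h3 μ0
    rw [e, pow_add] at this
    rw [h3]
    linear_combination (-u * coeff μ H) * this - c * coeff μ H * hu
  refine ⟨_, c, H, π (coeff μ0 G * u), hc, h1, ⟨μ0, rfl, mem_support_iff.1 hμ0⟩,
    fun μ hμ => hmax μ (mem_support_iff.2 hμ), fun μ hμ => ?_, fun μ hμ => ?_⟩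
  · by_contra hlt
    obtain ⟨j, hj⟩ := Nat.exists_eq_add_of_lt (not_le.1 hlt)
    rw [coeff_map, h4 μ (j + 1) hj, map_mul, map_pow, ht, pow_succ, mul_zero, zero_mul] at hμ
    exact hμ rfl
  · rw [coeff_map, coeff_map, h4 μ 0 hμ.symm, pow_zero, one_mul, map_mul]

variable [Field K] [Algebra O K] [IsFractionRing O K]

omit [IsDomain O] [ValuationRing O] in
theorem pid_lim (π : O →+* k) (hπ : ∀ x, π x ≠ 0 → IsUnit x) {P : Fin 4 → O}
    (hP : Pt fun i => π (P i)) {m : ℕ} {G : Cx O}
    (h : map (algebraMap O K) G ∈ pid (fun i => algebraMap O K (P i)) ^ m) :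
    map π G ∈ pid (fun i => π (P i)) ^ m :=
  pid_push π (pid_pull (IsFractionRing.injective O K) (uni_of π hπ hP) h)

omit [IsDomain O] [ValuationRing O] in
theorem ker_lim (π : O →+* k) {v : σ → O} {m : ℕ} {G : MvPolynomial σ O}
    (h : map (algebraMap O K) G ∈ RingHom.ker (eval fun i => algebraMap O K (v i)) ^ m) :
    map π G ∈ RingHom.ker (eval fun i => π (v i)) ^ m :=
  ker_push π (ker_pull (IsFractionRing.injective O K) h)

/-- semicontinuity -/
theorem H0_lim {ι : Type} (π : O →+* k) (hπ : ∀ x, π x ≠ 0 → IsUnit x) (p q : ℤ)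
    (P : ι → Fin 4 → O) (hP : ∀ l, Pt fun i => π (P l i)) (m : ι → ℤ) :
    finrank K (H0 p q (fun l i => algebraMap O K (P l i)) m) ≤
      finrank k (H0 p q (fun l i => π (P l i)) m) :=
  lim_le π _ _ fun _ hG => mem_H0.2
    ⟨((mem_H0.1 hG).1.of_map (IsFractionRing.injective O K)).map π,
      fun l => pid_lim π hπ (hP l) ((mem_H0.1 hG).2 l)⟩

end val

end Pool.Agent.Lib.MP_d03834_ag.Core
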