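import Mathlib

/-! The Cox ring of the product of two projective lines: bidegrees, points, orders. -/

set_option autoImplicit false

namespace Pool.Agent.Lib.MP_d03834_ag.Core

open MvPolynomial

/-- the Cox ring, variables x0 x1 y0 y1 -/
abbrev Cx (K : Type) [CommRing K] : Type := MvPolynomial (Fin 4) K

/-- the bidegrees of the variables -/
def bw : Fin 4 → ℤ × ℤ := ![(1, 0), (1, 0), (0, 1), (0, 1)]

section ring
variable {K : Type} [CommRing K]

/-- bihomogeneous of degree p in x and q in y -/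
def Bih (p q : ℤ) (F : Cx K) : Prop := IsWeightedHomogeneous bw F (p, q)

/-- the linear form in x which vanishes at P -/
noncomputable def lx (P : Fin 4 → K) : Cx K := C (P 1) * X 0 - C (P 0) * X 1

/-- the linear form in y which vanishes at P -/
noncomputable def ly (P : Fin 4 → K) : Cx K := C (P 3) * X 2 - C (P 2) * X 3

/-- the ideal of the point P -/
noncomputable def pid (P : Fin 4 → K) : Ideal (Cx K) := Ideal.span {lx P, ly P}

/-- the determinant of the x parts -/
def dx (P Q : Fin 4 → K) : K := P 1 * Q 0 - P 0 * Q 1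

/-- the determinant of the y parts -/
def dy (P Q : Fin 4 → K) : K := P 3 * Q 2 - P 2 * Q 3

/-- a point of the product of two projective lines -/
def Pt (P : Fin 4 → K) : Prop := (P 0 ≠ 0 ∨ P 1 ≠ 0) ∧ (P 2 ≠ 0 ∨ P 3 ≠ 0)

/-- sections of bidegree (p, q) with the multiplicities m at the points P -/
noncomputable def H0 {ι : Type} (p q : ℤ) (P : ι → Fin 4 → K) (m : ι → ℤ) :
    Submodule K (Cx K) :=
  weightedHomogeneousSubmodule K bw (p, q) ⊓ ⨅ i, (pid (P i) ^ (m i).toNat).restrictScalars K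

theorem mem_H0 {ι : Type} {p q : ℤ} {P : ι → Fin 4 → K} {m : ι → ℤ} {F : Cx K} :
    F ∈ H0 p q P m ↔ Bih p q F ∧ ∀ i, F ∈ pid (P i) ^ (m i).toNat := by
  simp [H0, Bih]

theorem bw_wt (μ : Fin 4 →₀ ℕ) :
    Finsupp.weight bw μ = ((μ 0 + μ 1 : ℤ), (μ 2 + μ 3 : ℤ)) := by
  rw [Finsupp.weight_apply, Finsupp.sum_fintype _ _ (by simp), Fin.sum_univ_four]
  simp [bw]

theorem bih_iff {p q : ℤ} {F : Cx K} :
    Bih p q F ↔ ∀ μ, coeff μ F ≠ 0 → (μ 0 + μ 1 : ℤ) = p ∧ (μ 2 + μ 3 : ℤ) = q := by
  simp only [Bih, IsWeightedHomogeneous, bw_wt, Prod.mk.injEq]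

theorem Bih.mul {p q p' q' : ℤ} {F G : Cx K} (h : Bih p q F) (h' : Bih p' q' G) :
    Bih (p + p') (q + q') (F * G) := IsWeightedHomogeneous.mul h h'

theorem Bih.add {p q : ℤ} {F G : Cx K} (h : Bih p q F) (h' : Bih p q G) : Bih p q (F + G) :=
  IsWeightedHomogeneous.add h h'

theorem Bih.sub {p q : ℤ} {F G : Cx K} (h : Bih p q F) (h' : Bih p q G) : Bih p q (F - G) :=
  IsWeightedHomogeneous.sub h h'

theorem Bih.cmul {p q : ℤ} {F : Cx K} (h : Bih p q F) (c : K) : Bih p q (C c * F) :=
  IsWeightedHomogeneous.C_mul h c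

theorem Bih.pow {p q : ℤ} {F : Cx K} (h : Bih p q F) (n : ℕ) : Bih (n * p) (n * q) (F ^ n) := by
  have := IsWeightedHomogeneous.pow h n
  simpa [Bih] using this

theorem Bih.of_eq {p q p' q' : ℤ} {F : Cx K} (h : Bih p q F) (e : p = p') (e' : q = q') :
    Bih p' q' F := e ▸ e' ▸ h

theorem bih_zero (p q : ℤ) : Bih p q (0 : Cx K) := isWeightedHomogeneous_zero K bw _

theorem bih_C (c : K) : Bih 0 0 (C c : Cx K) := isWeightedHomogeneous_C bw c

theorem bih_X0 : Bih 1 0 (X 0 : Cx K) := isWeightedHomogeneous_X K bw 0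
theorem bih_X1 : Bih 1 0 (X 1 : Cx K) := isWeightedHomogeneous_X K bw 1
theorem bih_X2 : Bih 0 1 (X 2 : Cx K) := isWeightedHomogeneous_X K bw 2
theorem bih_X3 : Bih 0 1 (X 3 : Cx K) := isWeightedHomogeneous_X K bw 3

theorem bih_lx (P : Fin 4 → K) : Bih 1 0 (lx P) := (bih_X0.cmul _).sub (bih_X1.cmul _)
theorem bih_ly (P : Fin 4 → K) : Bih 0 1 (ly P) := (bih_X2.cmul _).sub (bih_X3.cmul _)

theorem Bih.neg_deg {p q : ℤ} {F : Cx K} (h : Bih p q F) (hn : p < 0 ∨ q < 0) : F = 0 := by
  ext μ
  by_contra h0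
  have := bih_iff.1 h μ h0
  omega

/-- substitution of bihomogeneous polynomials -/
theorem Bih.aeval {p q a b c d : ℤ} {F : Cx K} (h : Bih p q F) (g : Fin 4 → Cx K)
    (h0 : Bih a b (g 0)) (h1 : Bih a b (g 1)) (h2 : Bih c d (g 2)) (h3 : Bih c d (g 3)) :
    Bih (p * a + q * c) (p * b + q * d) (aeval g F) := by
  rw [F.as_sum, map_sum]
  refine IsWeightedHomogeneous.sum _ _ _ fun μ hμ => ?_
  obtain ⟨rfl, rfl⟩ := bih_iff.1 h μ (mem_support_iff.1 hμ)
  rw [aeval_monomial, Finsupp.prod_fintype _ _ fun _ => pow_zero _, Fin.prod_univ_four,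
    algebraMap_eq]
  exact (((((h0.pow _).mul (h1.pow _)).mul (h2.pow _)).mul (h3.pow _)).cmul _).of_eq
    (by ring) (by ring)

theorem Bih.of_mul [IsDomain K] {p q a b : ℤ} {c G : Cx K} (h : Bih p q (c * G))
    (hc : Bih a b c) (h0 : c ≠ 0) : Bih (p - a) (q - b) G := by
  classical
  have e : G = weightedHomogeneousComponent bw (p - a, q - b) G := by
    refine mul_left_cancel₀ h0 (MvPolynomial.ext _ _ fun μ => ?_)
    by_cases hμ : Finsupp.weight bw μ = (p, q)
    · rw [coeff_mul, coeff_mul]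
      refine Finset.sum_congr rfl fun x hx => ?_
      by_cases hx1 : coeff x.1 c = 0
      · rw [hx1, zero_mul, zero_mul]
      · rw [coeff_weightedHomogeneousComponent, if_pos]
        have e1 := hc hx1
        rw [← Finset.HasAntidiagonal.mem_antidiagonal.1 hx, map_add, e1] at hμ
        rw [eq_sub_of_add_eq' hμ]
        rfl
    · have h2 : Bih p q (c * weightedHomogeneousComponent bw (p - a, q - b) G) :=
        (hc.mul (weightedHomogeneousComponent_isWeightedHomogeneous _ _)).of_eq (by ring) (by ring)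
      rw [IsWeightedHomogeneous.coeff_eq_zero h μ hμ, IsWeightedHomogeneous.coeff_eq_zero h2 μ hμ]
  rw [e]
  exact weightedHomogeneousComponent_isWeightedHomogeneous _ _

/-- grading by natural weights -/
noncomputable def gr {σ : Type} (w : σ → ℕ) :
    MvPolynomial σ K →ₐ[K] Polynomial (MvPolynomial σ K) :=
  aeval fun i => Polynomial.monomial (w i) (X i)

theorem gr_coeff {σ : Type} (w : σ → ℕ) (n : ℕ) (μ : σ →₀ ℕ) (F : MvPolynomial σ K) :
    coeff μ ((gr w F).coeff n) = if Finsupp.weight w μ = n then coeff μ F else 0 := by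
  classical
  induction F using MvPolynomial.induction_on' with
  | monomial ν a =>
    have e : gr w (monomial ν a) = Polynomial.monomial (Finsupp.weight w ν) (monomial ν a) := by
      rw [gr, aeval_monomial, monomial_eq, Finsupp.weight_apply, Finsupp.prod, Finsupp.prod,
        Finsupp.sum, Polynomial.algebraMap_apply, algebraMap_eq, ← Polynomial.C_mul_monomial]
      congr 1
      induction ν.support using Finset.induction_on with
      | empty => simp
      | insert i s hi ih =>
        rw [Finset.prod_insert hi, Finset.prod_insert hi, Finset.sum_insert hi, ih,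
          Polynomial.monomial_pow, Polynomial.monomial_mul_monomial, smul_eq_mul, mul_comm (ν i)]
    rw [e, Polynomial.coeff_monomial]
    by_cases h : ν = μ
    · subst h
      split_ifs <;> simp
    · split_ifs <;> simp [coeff_monomial, h]
  | add a b ha hb =>
    rw [map_add, Polynomial.coeff_add, coeff_add, coeff_add, ha, hb]
    split_ifs <;> simp

theorem gr_ne {σ : Type} (w : σ → ℕ) {F : MvPolynomial σ K} (h : F ≠ 0) : gr w F ≠ 0 :=
  fun h0 => h <| MvPolynomial.ext _ _ fun μ => by
    have := gr_coeff w (Finsupp.weight w μ) μ F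
    rw [h0, if_pos rfl] at this
    rw [← this]; simp

/-- all monomials have weight at most g -/
def Top {σ : Type} (w : σ → ℕ) (g : ℕ) (F : MvPolynomial σ K) : Prop :=
  ∀ μ, coeff μ F ≠ 0 → Finsupp.weight w μ ≤ g

/-- all monomials have weight at least g -/
def Low {σ : Type} (w : σ → ℕ) (g : ℕ) (F : MvPolynomial σ K) : Prop :=
  ∀ μ, coeff μ F ≠ 0 → g ≤ Finsupp.weight w μ

theorem top_iff {σ : Type} (w : σ → ℕ) (g : ℕ) (F : MvPolynomial σ K) :
    Top w g F ↔ (gr w F).natDegree ≤ g := by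
  rw [Polynomial.natDegree_le_iff_coeff_eq_zero]
  constructor
  · intro h n hn
    ext μ
    rw [gr_coeff, coeff_zero]
    split_ifs with e
    · by_contra h0
      have := h μ h0
      omega
    · rfl
  · intro h μ hμ
    by_contra hlt
    have := gr_coeff w (Finsupp.weight w μ) μ F
    rw [h _ (not_le.1 hlt), if_pos rfl] at this
    exact hμ this.symm

theorem low_iff {σ : Type} (w : σ → ℕ) (g : ℕ) {F : MvPolynomial σ K} (h0 : F ≠ 0) :
    Low w g F ↔ g ≤ (gr w F).natTrailingDegree := by
  constructor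
  · intro h
    refine Polynomial.le_natTrailingDegree (gr_ne w h0) fun n hn => ?_
    ext μ
    rw [gr_coeff, coeff_zero]
    split_ifs with e
    · by_contra h1
      have := h μ h1
      omega
    · rfl
  · intro h μ hμ
    by_contra hlt
    have := gr_coeff w (Finsupp.weight w μ) μ F
    rw [Polynomial.coeff_eq_zero_of_lt_natTrailingDegree (by omega), if_pos rfl] at this
    exact hμ this.symm

theorem Top.div [IsDomain K] {σ : Type} {w : σ → ℕ} {g e : ℕ} {c G : MvPolynomial σ K}
    (h : Top w g (c * G)) (ν : σ →₀ ℕ) (hc : coeff ν c ≠ 0) (he : e ≤ Finsupp.weight w ν)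
    (h0 : G ≠ 0) : e ≤ g ∧ Top w (g - e) G := by
  have c0 : c ≠ 0 := fun e => hc (by rw [e, coeff_zero])
  have h1 := (top_iff w _ c).2 le_rfl ν hc
  rw [top_iff, map_mul, Polynomial.natDegree_mul (gr_ne w c0) (gr_ne w h0)] at h
  rw [top_iff]
  omega

theorem Low.div [IsDomain K] {σ : Type} {w : σ → ℕ} {g e : ℕ} {c G : MvPolynomial σ K}
    (h : Low w g (c * G)) (ν : σ →₀ ℕ) (hc : coeff ν c ≠ 0) (he : Finsupp.weight w ν ≤ e) :
    Low w (g - e) G := by
  by_cases h0 : G = 0
  · intro μ hμ
    exact absurd (by rw [h0, coeff_zero]) hμ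
  have c0 : c ≠ 0 := fun e => hc (by rw [e, coeff_zero])
  have h1 := (low_iff w _ c0).2 le_rfl ν hc
  rw [low_iff w _ (mul_ne_zero c0 h0), map_mul,
    Polynomial.natTrailingDegree_mul (gr_ne w c0) (gr_ne w h0)] at h
  rw [low_iff w _ h0]
  omega

/-- powers of the ideal of the variables of weight one -/
theorem low_span {σ : Type} (i j : σ) (hij : i ≠ j) (w : σ → ℕ) (hi : w i = 1) (hj : w j = 1)
    (h0 : ∀ k, k ≠ i → k ≠ j → w k = 0) (m : ℕ) (G : MvPolynomial σ K) :
    G ∈ Ideal.span {X i, X j} ^ m ↔ Low w m G := by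
  classical
  have hw : ∀ μ : σ →₀ ℕ, Finsupp.weight w μ = μ i + μ j := fun μ => by
    rw [Finsupp.weight_apply, Finsupp.sum_of_support_subset _ (s := insert i (insert j μ.support))
      (fun k hk => by simp [Finset.mem_insert, Finsupp.mem_support_iff.1 hk]) _ (by simp),
      ← Finset.sum_subset (s₁ := {i, j}) (by intro k; simp; tauto) fun k _ hk => by
        simp only [Finset.mem_insert, Finset.mem_singleton, not_or] at hk
        rw [h0 k hk.1 hk.2, smul_zero], Finset.sum_pair hij, hi, hj]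
    simp
  constructor
  · induction m generalizing G with
    | zero => intro _ μ _; omega
    | succ m ih =>
      intro h
      rw [pow_succ] at h
      refine Submodule.mul_induction_on h (fun a ha b hb μ hμ => ?_) fun a b ha hb μ hμ => by
        rw [coeff_add] at hμ
        by_cases e : coeff μ a = 0
        · exact hb μ (by rwa [e, zero_add] at hμ)
        · exact ha μ e
      obtain ⟨x, y, rfl⟩ := Ideal.mem_span_pair.1 hb
      have k : ∀ z, Low w m (a * z) := fun z => ih _ (Ideal.mul_mem_right _ _ ha)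
      rw [mul_add, ← mul_assoc, ← mul_assoc, coeff_add, coeff_mul_X', coeff_mul_X'] at hμ
      by_contra hlt
      apply hμ
      rw [hw] at hlt
      have k0 : ∀ l z, l = i ∨ l = j →
          (if l ∈ μ.support then coeff (μ - Finsupp.single l 1) (a * z) else 0) = 0 := by
        intro l z hl
        split_ifs with h1
        · by_contra h2
          have h3 := k z _ h2
          rw [Finsupp.mem_support_iff] at h1
          rw [hw] at h3
          rcases hl with rfl | rfl
          · simp [hij.symm] at h3; omega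
          · simp [hij] at h3; omega
        · rfl
      rw [k0 i x (.inl rfl), k0 j y (.inr rfl), add_zero]
  · intro h
    rw [G.as_sum]
    refine Ideal.sum_mem _ fun μ hμ => ?_
    have h1 := h μ (mem_support_iff.1 hμ)
    rw [hw] at h1
    have e : μ = (μ - Finsupp.single i (μ i) - Finsupp.single j (μ j)) +
        (Finsupp.single i (μ i) + Finsupp.single j (μ j)) := by
      ext k
      by_cases a : k = i
      · subst a; simp [hij]
      by_cases b : k = j
      · subst b; simp [a]
      simp [a, b]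
    rw [e, ← mul_one (coeff _ G), ← monomial_mul, ← one_mul (1 : K), ← monomial_mul,
      ← X_pow_eq_monomial, ← X_pow_eq_monomial]
    refine Ideal.mul_mem_left _ _ (Ideal.pow_le_pow_right h1 ?_)
    rw [pow_add]
    exact Ideal.mul_mem_mul (Ideal.pow_mem_pow (Ideal.subset_span (Set.mem_insert _ _)) _)
      (Ideal.pow_mem_pow (Ideal.subset_span (Set.mem_insert_of_mem _ (Set.mem_singleton _))) _)

theorem lx_mem (P : Fin 4 → K) : lx P ∈ pid P := Ideal.subset_span (Set.mem_insert _ _)

theorem ly_mem (P : Fin 4 → K) : ly P ∈ pid P :=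
  Ideal.subset_span (Set.mem_insert_of_mem _ (Set.mem_singleton _))

theorem pid_le {P : Fin 4 → K} {I : Ideal (Cx K)} (h1 : lx P ∈ I) (h2 : ly P ∈ I) : pid P ≤ I :=
  Ideal.span_le.2 (by
    rintro _ (rfl | rfl)
    · exact h1
    · exact h2)

/-- transport of a multiplicity along a ring homomorphism -/
theorem pid_map {S : Type} [CommRing S] {Φ : Type} [FunLike Φ (Cx K) S] [RingHomClass Φ (Cx K) S]
    (φ : Φ) {P : Fin 4 → K} {I : Ideal S} (h1 : φ (lx P) ∈ I) (h2 : φ (ly P) ∈ I) {m : ℕ}
    {F : Cx K} (h : F ∈ pid P ^ m) : φ F ∈ I ^ m := by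
  have h3 := Ideal.mem_map_of_mem φ h
  rw [Ideal.map_pow] at h3
  exact Ideal.pow_right_mono (Ideal.map_le_iff_le_comap.2 (pid_le h1 h2)) m h3

theorem eval_lx (P Q : Fin 4 → K) : eval Q (lx P) = dx P Q := by simp [lx, dx]

theorem eval_ly (P Q : Fin 4 → K) : eval Q (ly P) = dy P Q := by simp [ly, dy]

theorem pid_eval {P : Fin 4 → K} {F : Cx K} (h : F ∈ pid P) : eval P F = 0 :=
  pid_le (I := RingHom.ker (eval P)) (by rw [RingHom.mem_ker, eval_lx, dx]; ring)
    (by rw [RingHom.mem_ker, eval_ly, dy]; ring) h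

/-- a smooth point -/
theorem pid_sq {P : Fin 4 → K} {F : Cx K} (i : Fin 4) (h : F ∈ pid P ^ 2) :
    eval P (pderiv i F) = 0 := by
  rw [pow_two] at h
  refine Submodule.mul_induction_on h (fun a ha b hb => ?_) fun a b ha hb => by
    rw [map_add, map_add, ha, hb, add_zero]
  simp [pid_eval ha, pid_eval hb]

/-- linear substitution -/
noncomputable def blin (a b c d a' b' c' d' : K) : Cx K →ₐ[K] Cx K :=
  aeval ![C a * X 0 + C b * X 1, C c * X 0 + C d * X 1,
    C a' * X 2 + C b' * X 3, C c' * X 2 + C d' * X 3]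

theorem Bih.blin {p q : ℤ} {F : Cx K} (h : Bih p q F) (a b c d a' b' c' d' : K) :
    Bih p q (blin a b c d a' b' c' d' F) :=
  (h.aeval _ ((bih_X0.cmul _).add (bih_X1.cmul _)) ((bih_X0.cmul _).add (bih_X1.cmul _))
    ((bih_X2.cmul _).add (bih_X3.cmul _)) ((bih_X2.cmul _).add (bih_X3.cmul _))).of_eq
      (by ring) (by ring)

/-- exchange of the two factors -/
noncomputable def swp : Cx K →ₐ[K] Cx K := aeval ![X 2, X 3, X 0, X 1]

/-- exchange of the two factors, for points -/
def swP (P : Fin 4 → K) : Fin 4 → K := ![P 2, P 3, P 0, P 1]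

theorem Bih.swp {p q : ℤ} {F : Cx K} (h : Bih p q F) : Bih q p (swp F) :=
  (h.aeval _ bih_X2 bih_X3 bih_X0 bih_X1).of_eq (by ring) (by ring)

theorem swp_swp (F : Cx K) : swp (swp F) = F := by
  have : (swp (K := K)).comp swp = AlgHom.id K _ := by
    refine algHom_ext fun i => ?_
    fin_cases i <;> simp [swp]
  exact DFunLike.congr_fun this F

theorem swp_pid {P : Fin 4 → K} {m : ℕ} {F : Cx K} (h : F ∈ pid P ^ m) :
    swp F ∈ pid (swP P) ^ m :=
  pid_map swp (by convert ly_mem (swP P); simp [swp, swP, lx, ly])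
    (by convert lx_mem (swP P); simp [swp, swP, lx, ly]) h

end ring

section field
variable {K : Type} [Field K]

theorem blin_lin {a b c d a' b' c' d' : K} (h : a * d - b * c ≠ 0) (h' : a' * d' - b' * c' ≠ 0)
    (F : Cx K) : blin (d / (a * d - b * c)) (-b / (a * d - b * c)) (-c / (a * d - b * c))
      (a / (a * d - b * c)) (d' / (a' * d' - b' * c')) (-b' / (a' * d' - b' * c'))
      (-c' / (a' * d' - b' * c')) (a' / (a' * d' - b' * c')) (blin a b c d a' b' c' d' F) = F := by
  have key : ∀ (u v : K) (x y : Cx K), u = 1 → v = 0 → C u * x + C v * y = x := by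
    rintro _ _ x y rfl rfl
    simp
  have : (blin (d / (a * d - b * c)) (-b / (a * d - b * c)) (-c / (a * d - b * c))
      (a / (a * d - b * c)) (d' / (a' * d' - b' * c')) (-b' / (a' * d' - b' * c'))
      (-c' / (a' * d' - b' * c')) (a' / (a' * d' - b' * c'))).comp (blin a b c d a' b' c' d') =
        AlgHom.id K _ := by
    refine algHom_ext fun i => ?_
    fin_cases i
    · refine Eq.trans ?_ (key (a * (d / (a * d - b * c)) + b * (-c / (a * d - b * c)))
        (a * (-b / (a * d - b * c)) + b * (a / (a * d - b * c))) (X 0) (X 1)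
        (by field_simp; ring) (by field_simp; ring))
      simp only [blin, map_add, map_mul]
      simp
      ring
    · refine Eq.trans ?_ (key (c * (-b / (a * d - b * c)) + d * (a / (a * d - b * c)))
        (c * (d / (a * d - b * c)) + d * (-c / (a * d - b * c))) (X 1) (X 0)
        (by rw [← mul_div_assoc, ← mul_div_assoc, ← add_div, div_eq_one_iff_eq h]; ring)
        (by field_simp; ring))
      simp only [blin, map_add, map_mul]
      simp
      ring
    · refine Eq.trans ?_ (key (a' * (d' / (a' * d' - b' * c')) + b' * (-c' / (a' * d' - b' * c')))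
        (a' * (-b' / (a' * d' - b' * c')) + b' * (a' / (a' * d' - b' * c'))) (X 2) (X 3)
        (by field_simp; ring) (by field_simp; ring))
      simp only [blin, map_add, map_mul]
      simp
      ring
    · refine Eq.trans ?_ (key (c' * (-b' / (a' * d' - b' * c')) + d' * (a' / (a' * d' - b' * c')))
        (c' * (d' / (a' * d' - b' * c')) + d' * (-c' / (a' * d' - b' * c'))) (X 3) (X 2)
        (by rw [← mul_div_assoc, ← mul_div_assoc, ← add_div, div_eq_one_iff_eq h']; ring)
        (by field_simp; ring))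
      simp only [blin, map_add, map_mul]
      simp
      ring
  exact DFunLike.congr_fun this F

theorem blin_inj {a b c d a' b' c' d' : K} (h : a * d - b * c ≠ 0) (h' : a' * d' - b' * c' ≠ 0) :
    Function.Injective (blin a b c d a' b' c' d') :=
  Function.LeftInverse.injective (blin_lin h h')

theorem exists_det {u v : K} (h : u ≠ 0 ∨ v ≠ 0) : ∃ a c : K, a * v - u * c = 1 := by
  rcases h with h | h
  · exact ⟨0, -u⁻¹, by field_simp; ring⟩
  · exact ⟨v⁻¹, 0, by field_simp; ring⟩

/-- normal form of a point -/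
theorem pid_norm {P : Fin 4 → K} (hP : Pt P) : ∃ φ : Cx K →ₐ[K] Cx K, Function.Injective φ ∧
    ∀ (m : ℕ) (F : Cx K), F ∈ pid P ^ m ↔ Low ![1, 0, 1, 0] m (φ F) := by
  obtain ⟨a, c, h⟩ := exists_det hP.1
  obtain ⟨a', c', h'⟩ := exists_det hP.2
  have h1 : a * P 1 - P 0 * c ≠ 0 := h ▸ one_ne_zero
  have h2 : a' * P 3 - P 2 * c' ≠ 0 := h' ▸ one_ne_zero
  have hC : (C a * C (P 1) - C (P 0) * C c : Cx K) = 1 := by
    rw [← map_mul, ← map_mul, ← map_sub, h, map_one]
  have hC' : (C a' * C (P 3) - C (P 2) * C c' : Cx K) = 1 := by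
    rw [← map_mul, ← map_mul, ← map_sub, h', map_one]
  refine ⟨blin a (P 0) c (P 1) a' (P 2) c' (P 3), blin_inj h1 h2, fun m F => ?_⟩
  rw [← low_span 0 2 (by decide) _ rfl rfl (by decide)]
  refine ⟨pid_map _ ?_ ?_, fun hF => ?_⟩
  · refine Ideal.subset_span (Or.inl ?_)
    simp only [blin, lx, map_sub, map_mul, aeval_C, aeval_X, algebraMap_eq]
    simp
    linear_combination X 0 * hC
  · refine Ideal.subset_span (Or.inr ?_)
    simp only [blin, ly, map_sub, map_mul, aeval_C, aeval_X, algebraMap_eq]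
    simp
    linear_combination X 2 * hC'
  · rw [← blin_lin h1 h2 F]
    have h3 := Ideal.mem_map_of_mem (blin (P 1 / (a * P 1 - P 0 * c)) (-P 0 / (a * P 1 - P 0 * c))
      (-c / (a * P 1 - P 0 * c)) (a / (a * P 1 - P 0 * c)) (P 3 / (a' * P 3 - P 2 * c'))
      (-P 2 / (a' * P 3 - P 2 * c')) (-c' / (a' * P 3 - P 2 * c')) (a' / (a' * P 3 - P 2 * c'))) hF
    rw [Ideal.map_pow] at h3
    refine Ideal.pow_right_mono (Ideal.map_le_iff_le_comap.2 (Ideal.span_le.2 ?_)) m h3
    rintro _ (rfl | rfl)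
    · change blin _ _ _ _ _ _ _ _ (X 0) ∈ pid P
      convert lx_mem P
      simp [blin, lx, h, sub_eq_add_neg]
    · change blin _ _ _ _ _ _ _ _ (X 2) ∈ pid P
      convert ly_mem P
      simp [blin, ly, h', sub_eq_add_neg]

/-- the order at a point is a valuation -/
theorem pid_div {P : Fin 4 → K} (hP : Pt P) {c G : Cx K} {j n : ℕ} (hc : c ∉ pid P ^ (j + 1))
    (h : c * G ∈ pid P ^ n) : G ∈ pid P ^ (n - j) := by
  obtain ⟨φ, -, hφ⟩ := pid_norm hP
  rw [hφ] at hc h ⊢
  rw [map_mul] at h
  unfold Low at hc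
  push Not at hc
  obtain ⟨ν, h1, h2⟩ := hc
  exact h.div ν h1 (by omega)

theorem pid_div_pow {P : Fin 4 → K} (hP : Pt P) {c G : Cx K} {j n : ℕ}
    (hc : c ∉ pid P ^ (j + 1)) (a : ℕ) (h : c ^ a * G ∈ pid P ^ n) : G ∈ pid P ^ (n - a * j) := by
  induction a generalizing n with
  | zero => simpa using h
  | succ a ih =>
    rw [pow_succ', mul_assoc] at h
    have := ih (pid_div hP hc h)
    rwa [Nat.sub_sub, add_comm, ← Nat.succ_mul] at this

theorem not_pid {P : Fin 4 → K} {c : Cx K} (h : eval P c ≠ 0) : c ∉ pid P ^ (0 + 1) :=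
  fun h1 => h (pid_eval (by simpa using h1))

theorem ly_sq {P : Fin 4 → K} (Q : Fin 4 → K) (hP : Pt P) : ly P ∉ pid Q ^ (1 + 1) := fun h => by
  have h2 := pid_sq 2 h
  have h3 := pid_sq 3 h
  simp [ly] at h2 h3
  exact hP.2.elim (fun e => e h3) fun e => e h2

theorem lx_sq {P : Fin 4 → K} (Q : Fin 4 → K) (hP : Pt P) : lx P ∉ pid Q ^ (1 + 1) := fun h => by
  have h2 := pid_sq 0 h
  have h3 := pid_sq 1 h
  simp [lx] at h2 h3
  exact hP.1.elim (fun e => e h3) fun e => e h2

instance bih_fin (p q : ℤ) : FiniteDimensional K (weightedHomogeneousSubmodule K bw (p, q)) := by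
  refine Submodule.finiteDimensional_of_le (S₂ := restrictTotalDegree (Fin 4) K (p + q).toNat)
    fun F hF => ?_
  rw [mem_restrictTotalDegree, totalDegree, Finset.sup_le_iff]
  intro μ hμ
  have := bih_iff.1 hF μ (mem_support_iff.1 hμ)
  rw [Finsupp.sum_fintype _ _ fun _ => rfl, Fin.sum_univ_four]
  omega

instance H0_fin {ι : Type} (p q : ℤ) (P : ι → Fin 4 → K) (m : ι → ℤ) :
    FiniteDimensional K (H0 p q P m) := Submodule.finiteDimensional_of_le inf_le_left

/-- comparison of dimensions along an injective correspondence -/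
theorem brk_le {V W : Submodule K (Cx K)} [FiniteDimensional K W] (φ : Cx K →ₗ[K] Cx K)
    (c : Cx K) (hφ : ∀ F ∈ V, φ F = 0 → F = 0) (h : ∀ F ∈ V, ∃ G ∈ W, φ F = c * G) :
    Module.finrank K V ≤ Module.finrank K W := by
  let ψ : Cx K →ₗ[K] Cx K := LinearMap.mulLeft K c
  refine le_trans ?_ (Submodule.finrank_map_le ψ W)
  refine LinearMap.finrank_le_finrank_of_injective (f := φ.restrict (p := V) (q := W.map ψ)
    fun F hF => ?_) ?_
  · obtain ⟨G, hG, e⟩ := h F hF
    exact ⟨G, hG, e.symm⟩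
  · exact LinearMap.ker_eq_bot.1 (LinearMap.ker_eq_bot'.2 fun F hF =>
      Subtype.ext (hφ F F.2 (congrArg Subtype.val hF)))

end field

end Pool.Agent.Lib.MP_d03834_ag.Core
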