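import Pool.Agent.Lib.MP_d03834_ag.Core.DP
import Pool.Agent.Lib.MP_d03834_ag.Core.Bi

/-! The shape of nine points of the product of two projective lines near a folded del Pezzo
surface of degree two: the lattice of the chart, the configurations and their residue data. -/

set_option autoImplicit false

namespace Pool.Agent.Lib.MP_d03834_ag.Core

/-- a ring of arcs with parameter t and residue field k -/
structure Arc (O k : Type) [CommRing O] [Field k] where
  /-- the residue map -/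
  res : O →+* k
  /-- the parameter -/
  t : O
  t0 : t ≠ 0
  ker : ∀ a, res a = 0 ↔ t ∣ a
  unit : ∀ a, res a ≠ 0 → IsUnit a

/-- power series -/
noncomputable def Arc.ps (k : Type) [Field k] : Arc (PowerSeries k) k where
  res := PowerSeries.constantCoeff
  t := PowerSeries.X
  t0 := PowerSeries.X_ne_zero
  ker := fun _ => PowerSeries.X_dvd_iff.symm
  unit := fun _ h => PowerSeries.isUnit_iff_constantCoeff.2 (Ne.isUnit h)

/-- classes ((n, J), m, c) -/
abbrev CL : Type := (ℤ × ℤ) × (Fin 5 → ℤ) × (Fin 2 → ℤ)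

/-- the intersection form of the chart -/
def cip (u w : CL) : ℤ :=
  u.1.1 * w.1.2 + u.1.2 * w.1.1 - u.1.1 * w.1.1 - ∑ i, u.2.1 i * w.2.1 i - ∑ s, u.2.2 s * w.2.2 s

theorem cip_key (u : CL) (hu : ∑ i, u.2.1 i = 2 * u.1.2)
    (h : cip u ((4, 5), fun _ => 2, fun _ => 1) = 0) :
    4 * (5 * u.2.1 0 - 2 * u.1.2) ^ 2 + 4 * (5 * u.2.1 1 - 2 * u.1.2) ^ 2 +
      4 * (5 * u.2.1 2 - 2 * u.1.2) ^ 2 + 4 * (5 * u.2.1 3 - 2 * u.1.2) ^ 2 +
      4 * (5 * u.2.1 4 - 2 * u.1.2) ^ 2 + 25 * (2 * u.2.2 0 - u.1.1) ^ 2 +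
      25 * (2 * u.2.2 1 - u.1.1) ^ 2 + 5 * (4 * u.1.2 - 5 * u.1.1) ^ 2 + 25 * u.1.1 ^ 2 =
      -100 * cip u u := by
  simp only [cip, Fin.sum_univ_five, Fin.sum_univ_two] at h hu ⊢
  have e1 : u.2.1 4 = 2 * u.1.2 - u.2.1 0 - u.2.1 1 - u.2.1 2 - u.2.1 3 := by omega
  have e2 : u.2.2 1 = u.1.1 - u.2.2 0 := by omega
  rw [e1, e2]
  ring

/-- the lattice of the chart; the sublattice ∑ m = 2 J is I(1,7) -/
def cD : DP CL where
  ip := AddMonoidHom.mk' (fun u => AddMonoidHom.mk' (cip u) fun w w' => by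
      simp only [cip, Prod.fst_add, Prod.snd_add, Pi.add_apply, mul_add, Finset.sum_add_distrib]
      ring) fun u u' => by
    refine AddMonoidHom.ext fun w => ?_
    simp only [cip, AddMonoidHom.mk'_apply, AddMonoidHom.add_apply, Prod.fst_add, Prod.snd_add,
      Pi.add_apply, add_mul, Finset.sum_add_distrib]
    ring
  a := ((4, 5), fun _ => 2, fun _ => 1)
  M :=
    { carrier := {u | ∑ i, u.2.1 i = 2 * u.1.2}
      add_mem' := fun {u w} hu hw => by
        simp only [Set.mem_ofPred_eq, Prod.fst_add, Prod.snd_add, Pi.add_apply,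
          Finset.sum_add_distrib] at hu hw ⊢
        omega
      zero_mem' := by simp
      neg_mem' := fun {u} hu => by
        simp only [Set.mem_ofPred_eq, Prod.fst_neg, Prod.snd_neg, Pi.neg_apply,
          Finset.sum_neg_distrib] at hu ⊢
        omega }
  symm := fun u w => by
    simp only [AddMonoidHom.mk'_apply, cip, mul_comm]
    ring
  semi := fun u hu h => by
    have key := cip_key u hu h
    change cip u u ≤ 0
    have k0 := sq_nonneg (5 * u.2.1 0 - 2 * u.1.2)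
    have k1 := sq_nonneg (5 * u.2.1 1 - 2 * u.1.2)
    have k2 := sq_nonneg (5 * u.2.1 2 - 2 * u.1.2)
    have k3 := sq_nonneg (5 * u.2.1 3 - 2 * u.1.2)
    have k4 := sq_nonneg (5 * u.2.1 4 - 2 * u.1.2)
    have k5 := sq_nonneg (2 * u.2.2 0 - u.1.1)
    have k6 := sq_nonneg (2 * u.2.2 1 - u.1.1)
    have k7 := sq_nonneg (4 * u.1.2 - 5 * u.1.1)
    have k8 := sq_nonneg u.1.1
    omega
  rad := fun u hu g _ h h1 _ _ => by
    have key := cip_key u hu h
    change cip u u = 0 at h1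
    have k0 := sq_nonneg (5 * u.2.1 0 - 2 * u.1.2)
    have k1 := sq_nonneg (5 * u.2.1 1 - 2 * u.1.2)
    have k2 := sq_nonneg (5 * u.2.1 2 - 2 * u.1.2)
    have k3 := sq_nonneg (5 * u.2.1 3 - 2 * u.1.2)
    have k4 := sq_nonneg (5 * u.2.1 4 - 2 * u.1.2)
    have k5 := sq_nonneg (2 * u.2.2 0 - u.1.1)
    have k6 := sq_nonneg (2 * u.2.2 1 - u.1.1)
    have k7 := sq_nonneg (4 * u.1.2 - 5 * u.1.1)
    have k8 := sq_nonneg u.1.1
    have z : ∀ a : ℤ, a ^ 2 ≤ 0 → a = 0 := fun a ha => by nlinarith [sq_nonneg a]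
    have l0 := z (5 * u.2.1 0 - 2 * u.1.2) (by omega)
    have l1 := z (5 * u.2.1 1 - 2 * u.1.2) (by omega)
    have l2 := z (5 * u.2.1 2 - 2 * u.1.2) (by omega)
    have l3 := z (5 * u.2.1 3 - 2 * u.1.2) (by omega)
    have l4 := z (5 * u.2.1 4 - 2 * u.1.2) (by omega)
    have l5 := z (2 * u.2.2 0 - u.1.1) (by omega)
    have l6 := z (2 * u.2.2 1 - u.1.1) (by omega)
    have l7 := z (4 * u.1.2 - 5 * u.1.1) (by omega)
    have l8 := z u.1.1 (by omega)
    refine Prod.ext (Prod.ext l8 (by simp only [Prod.fst_zero, Prod.snd_zero]; omega))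
      (Prod.ext (funext fun i => ?_) (funext fun i => ?_))
    · fin_cases i <;> simp <;> omega
    · fin_cases i <;> simp <;> omega

theorem cD_ip (u w : CL) : cD.ip u w = cip u w := rfl

theorem cD_M {u : CL} : u ∈ cD.M ↔ ∑ i, u.2.1 i = 2 * u.1.2 := Iff.rfl

/-- the line x = 0 through the centre; its degree is J - n -/
def e5 : CL := ((1, 0), 0, 0)
/-- the line through the second point of A and the point s of B; its degree is c s -/
def eb (s : Fin 2) : CL := ((0, 0), 0, -Pi.single s 1)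
/-- the root (y = const) - e i - e j; its degree is n - m i - m j -/
def aV (i j : Fin 5) : CL := ((0, 1), Pi.single i 1 + Pi.single j 1, 0)
/-- the root (x = const) - a 1 - b s; its degree is J - n - c s -/
def aH (s : Fin 2) : CL := ((1, 0), 0, Pi.single s 1)
/-- the degree n + J of the chart -/
def hC : CL := ((1, 2), 0, 0)

/-- the nine points e i, a s, b s -/
abbrev Ix : Type := Fin 5 ⊕ Fin 2 ⊕ Fin 2

/-- the parity of a class, its degree on A and on B -/
def par (u : CL) : ℤ := (u.1.1 + u.2.2 0 + u.2.2 1) % 2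
/-- the degree in x of the class u + ε K -/
def dgx (ε : ℤ) (u : CL) : ℤ := u.1.1 - 2 * ε
/-- the degree in y of the class u + ε K -/
def dgy (ε : ℤ) (u : CL) : ℤ := u.1.2 - par u - 2 * ε
/-- the multiplicities of the class u + ε K -/
def mlt (ε : ℤ) (u : CL) : Ix → ℤ
  | .inl i => u.2.1 i - ε
  | .inr (.inl s) => (if s = 0 then (u.1.1 - u.2.2 0 - u.2.2 1) / 2
      else (u.1.1 + u.2.2 0 + u.2.2 1) / 2) - ε
  | .inr (.inr s) => (u.1.1 + u.2.2 s - u.2.2 s.rev) / 2 - ε

/-- configurations: e i = (z i, 1 / η i), a s = (t * al s, 0), b s = (t * be s, t);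
the curve η = Q0 / x + Q1 + Q2 x over the residue field -/
structure Cfg (O k : Type) where
  /-- x coordinates of the free points -/
  z : Fin 5 → O
  /-- inverse y coordinates of the free points -/
  η : Fin 5 → O
  /-- the points on A -/
  al : Fin 2 → O
  /-- the points on B -/
  be : Fin 2 → O
  /-- slope at the centre -/
  Q0 : k
  /-- middle coefficient -/
  Q1 : k
  /-- slope at infinity -/
  Q2 : k

variable {O k : Type} [CommRing O] [Field k] (A : Arc O k)

/-- the points over O -/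
def Cfg.pO (c : Cfg O k) : Ix → Fin 4 → O
  | .inl i => ![c.z i, 1, 1, c.η i]
  | .inr (.inl s) => ![A.t * c.al s, 1, 0, 1]
  | .inr (.inr s) => ![A.t * c.be s, 1, A.t, 1]

/-- the points over K -/
def Cfg.pts (K : Type) [Field K] [Algebra O K] (c : Cfg O k) (i : Ix) (l : Fin 4) : K :=
  algebraMap O K (c.pO A i l)

/-- the sections of the class u + ε K on the configuration c -/
noncomputable def Cfg.H (K : Type) [Field K] [Algebra O K] (c : Cfg O k) (ε : ℤ) (u : CL) :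
    Submodule K (Cx K) := H0 (dgx ε u) (dgy ε u) (c.pts A K) (mlt ε u)

/-- the scale of the involution -/
def Cfg.N (c : Cfg O k) : k :=
  A.res (c.be 0) + A.res (c.be 1) - A.res (c.al 0) - A.res (c.al 1) - 2 * c.Q0

/-- the configuration c has the shape, with the character χ -/
structure Shp (c : Cfg O k) (χ : CL → k) : Prop where
  z0 : ∀ i, A.res (c.z i) ≠ 0
  cur : ∀ i, A.res (c.η i) * A.res (c.z i) =
    c.Q0 + c.Q1 * A.res (c.z i) + c.Q2 * A.res (c.z i) ^ 2
  N0 : c.N A ≠ 0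
  e5 : χ e5 * c.N A = -c.Q0
  eb : ∀ s, χ (eb s) * c.N A = A.res (c.be s) - A.res (c.al 1) - c.Q0
  aV : ∀ i j, i ≠ j → χ (aV i j) * c.Q0 = c.Q2 * A.res (c.z i) * A.res (c.z j)

/-- the residue data are not degenerate -/
structure Ndg (c : Cfg O k) : Prop where
  z0 : ∀ i, A.res (c.z i) ≠ 0
  cur : ∀ i, A.res (c.η i) * A.res (c.z i) =
    c.Q0 + c.Q1 * A.res (c.z i) + c.Q2 * A.res (c.z i) ^ 2
  N0 : c.N A ≠ 0
  Q0 : c.Q0 ≠ 0
  Q2 : c.Q2 ≠ 0
  zz : ∀ i j, i ≠ j → A.res (c.z i) ≠ A.res (c.z j)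
  ka : ∀ i j, i ≠ j → c.Q2 * A.res (c.z i) * A.res (c.z j) ≠ c.Q0
  sl : ∀ s, A.res (c.be s) - A.res (c.al 1) ≠ c.Q0
  ab : ∀ r s, A.res (c.al r) ≠ A.res (c.be s)
  aa : A.res (c.al 0) ≠ A.res (c.al 1)
  bb : A.res (c.be 0) ≠ A.res (c.be 1)

/-- dominant classes -/
structure Dmn (u : CL) : Prop where
  M : ∑ i, u.2.1 i = 2 * u.1.2
  V : ∀ i j, i ≠ j → u.2.1 i + u.2.1 j ≤ u.1.1
  H : ∀ s, u.2.2 s ≤ u.1.2 - u.1.1
  c : ∀ s, 0 ≤ u.2.2 s

end Pool.Agent.Lib.MP_d03834_ag.Core
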