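import Pool.Agent.Lib.MP_d03834_ag.Core.BiShear
import Pool.Agent.Lib.MP_d03834_ag.Core.Invol
import Pool.Agent.Lib.MP_d03834_ag.Core.LimB
import Pool.Agent.Lib.MP_d03834_ag.Core.ShDefs

/-! From the toric chart to the shape frame: one shear and one limit. -/

set_option autoImplicit false

namespace Pool.Agent.Lib.MP_d03834_ag.Core.Fr

open MvPolynomial Module

/-- the labels of the free points -/
abbrev e (i : Fin 5) : Ix := .inl i
/-- the labels of the points on A -/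
abbrev a (s : Fin 2) : Ix := .inr (.inl s)
/-- the labels of the points on B -/
abbrev b (s : Fin 2) : Ix := .inr (.inr s)

/-- the labels of the five points of the torus -/
def tix : Fin 5 → Ix := ![a 1, b 0, a 0, b 1, e 2]

/-- multiplicities: corners k, points of the torus m, with x and y at a 1 and b 0 -/
def mu (k : Fin 4 → ℤ) (m : Fin 5 → ℤ) (x y : ℤ) : Ix → ℤ :=
  Sum.elim ![k 1, k 2, m 4, k 3, k 0] (Sum.elim ![m 2, x] ![y, m 3])

section ring
variable {R S : Type} [CommRing R] [CommRing S]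

/-- the image of a point under the shear with the centres U and W -/
def sh (U W X : Fin 4 → R) : Fin 4 → R := ![dy W X * dx U X, -(dy U X * dx W X), X 2, X 3]

/-- the points after the shear -/
def G (P : Ix → Fin 4 → R) (l : Ix) : Fin 4 → R :=
  if l = a 1 then ![1, 0, P l 2, P l 3] else if l = b 0 then ![0, 1, P l 2, P l 3]
  else sh (P (a 1)) (P (b 0)) (P l)

/-- the points in toric coordinates -/
def T (P : Ix → Fin 4 → R) (l : Ix) : Fin 4 → R :=
  ![dy (P (e 0)) (P l), dy (P (e 3)) (P l), dx (G P (e 1)) (G P l), dx (G P (e 0)) (G P l)]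

/-- the determinant which vanishes if U, W, X, Y are on a curve of bidegree (1, 1) -/
def du (U W X Y : Fin 4 → R) : R :=
  dy W X * dx U X * (dy U Y * dx W Y) - dy U X * dx W X * (dy W Y * dx U Y)

theorem dx_sh (U W X Y : Fin 4 → R) : dx (sh U W X) (sh U W Y) = du U W X Y := by
  simp [dx, sh, du]
  ring

/-- after the shear the points e 0, e 1, e 3, e 4 are the corners of a grid -/
structure Grd (P : Ix → Fin 4 → R) : Prop where
  h01 : dy (P (e 0)) (P (e 1)) = 0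
  h34 : dy (P (e 3)) (P (e 4)) = 0
  h03 : dy (P (e 0)) (P (e 3)) ≠ 0
  u03 : du (P (a 1)) (P (b 0)) (P (e 0)) (P (e 3)) = 0
  u14 : du (P (a 1)) (P (b 0)) (P (e 1)) (P (e 4)) = 0
  u01 : du (P (a 1)) (P (b 0)) (P (e 0)) (P (e 1)) ≠ 0
  xab : dx (P (a 1)) (P (b 0)) ≠ 0
  ya : ∀ l, l ≠ a 1 → dy (P (a 1)) (P l) ≠ 0
  yb : ∀ l, l ≠ b 0 → dy (P (b 0)) (P l) ≠ 0

theorem map_dx (f : R →+* S) (X Y : Fin 4 → R) :
    dx (fun i => f (X i)) (fun i => f (Y i)) = f (dx X Y) := by simp [dx]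

theorem map_dy (f : R →+* S) (X Y : Fin 4 → R) :
    dy (fun i => f (X i)) (fun i => f (Y i)) = f (dy X Y) := by simp [dy]

theorem map_du (f : R →+* S) (U W X Y : Fin 4 → R) : du (fun i => f (U i)) (fun i => f (W i))
    (fun i => f (X i)) (fun i => f (Y i)) = f (du U W X Y) := by simp [du, map_dx, map_dy]

theorem map_G (f : R →+* S) (P : Ix → Fin 4 → R) (l : Ix) :
    G (fun l i => f (P l i)) l = fun i => f (G P l i) := by
  funext i
  unfold G
  split_ifs <;> fin_cases i <;> simp [sh, map_dx, map_dy]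

theorem map_T (f : R →+* S) (P : Ix → Fin 4 → R) (l : Ix) :
    T (fun l i => f (P l i)) l = fun i => f (T P l i) := by
  funext i
  fin_cases i <;> simp [T, map_G, map_dx, map_dy]

theorem Grd.map {P : Ix → Fin 4 → R} (h : Grd P) (f : R →+* S) (hf : Function.Injective f) :
    Grd fun l i => f (P l i) := by
  have n : ∀ {x : R}, x ≠ 0 → f x ≠ 0 := fun hx => (map_ne_zero_iff f hf).2 hx
  refine ⟨?_, ?_, ?_, ?_, ?_, ?_, ?_, fun l hl => ?_, fun l hl => ?_⟩ <;>
    simp only [map_dx, map_dy, map_du, h.h01, h.h34, h.u03, h.u14, map_zero]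
  exacts [n h.h03, n h.u01, n h.xab, n (h.ya l hl), n (h.yb l hl)]

end ring

section field
variable {K : Type} [Field K]

theorem dx_two {U W X : Fin 4 → K} (h : dx U W ≠ 0) (hX : Pt X) : dx U X ≠ 0 ∨ dx W X ≠ 0 := by
  by_contra hn
  push Not at hn
  obtain ⟨h1, h2⟩ := hn
  simp only [dx] at h h1 h2
  rcases hX.1 with h0 | h0
  · exact mul_ne_zero h h0 (by linear_combination W 0 * h1 - U 0 * h2)
  · exact mul_ne_zero h h0 (by linear_combination W 1 * h1 - U 1 * h2)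

theorem dy_two {U W X : Fin 4 → K} (h : dy U W ≠ 0) (hX : Pt X) : dy U X ≠ 0 ∨ dy W X ≠ 0 :=
  dx_two (U := swP U) (W := swP W) (X := swP X) h hX.swP

theorem Grd.pt {P : Ix → Fin 4 → K} (h : Grd P) (hP : ∀ l, Pt (P l)) (l : Ix) : Pt (G P l) := by
  unfold G
  split_ifs with h1 h2
  · exact ⟨.inl one_ne_zero, (hP l).2⟩
  · exact ⟨.inr one_ne_zero, (hP l).2⟩
  · exact ⟨(dx_two h.xab (hP l)).imp (mul_ne_zero (h.yb l h2))
      fun z => neg_ne_zero.2 (mul_ne_zero (h.ya l h1) z), (hP l).2⟩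

theorem on_cor (X : Fin 4 → K) :
    (X 1 = 0 → X 2 = 0 → dx (cor 0) X = 0 ∧ dy (cor 0) X = 0) ∧
    (X 0 = 0 → X 3 = 0 → dx (cor 1) X = 0 ∧ dy (cor 1) X = 0) ∧
    (X 0 = 0 → X 2 = 0 → dx (cor 2) X = 0 ∧ dy (cor 2) X = 0) ∧
    (X 1 = 0 → X 3 = 0 → dx (cor 3) X = 0 ∧ dy (cor 3) X = 0) := by
  refine ⟨?_, ?_, ?_, ?_⟩ <;> intro h1 h2 <;> simp [cor, dx, dy, h1, h2]

theorem G_e (P : Ix → Fin 4 → K) (i : Fin 5) :
    G P (e i) = sh (P (a 1)) (P (b 0)) (P (e i)) := by simp [G]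

/-- the toric chart and the shape frame differ by one shear -/
theorem Grd.le {P : Ix → Fin 4 → K} (h : Grd P) (hP : ∀ l, Pt (P l)) (p q : ℤ) (k : Fin 4 → ℤ)
    (m : Fin 5 → ℤ) :
    finrank K (H0 p q (Sum.elim cor fun i => T P (tix i)) (Sum.elim k m)) ≤
      finrank K (H0 q (p + q - m 0 - m 1) P (mu k m (q - m 0) (q - m 1))) := by
  have hG := h.pt hP
  have u01 : dx (G P (e 0)) (G P (e 1)) ≠ 0 := by rw [G_e, G_e, dx_sh]; exact h.u01
  have u03 : dx (G P (e 0)) (G P (e 3)) = 0 := by rw [G_e, G_e, dx_sh]; exact h.u03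
  have u14 : dx (G P (e 1)) (G P (e 4)) = 0 := by rw [G_e, G_e, dx_sh]; exact h.u14
  have hT : ∀ l, Pt (T P l) := fun l => ⟨dy_two h.h03 (hP l), (dx_two u01 (hG l)).symm⟩
  have hy : ∀ l, G P l 2 = P l 2 ∧ G P l 3 = P l 3 := fun l => by
    unfold G
    split_ifs <;> exact ⟨rfl, rfl⟩
  have s1 : H0 p q (Sum.elim cor fun i => T P (tix i)) (Sum.elim k m) ≤
      H0 p q (T P) (mu k m (m 0) (m 1)) := by
    refine H0_le fun l => .inr ?_
    rcases l with i | s | s
    · fin_cases i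
      · exact ⟨.inl 1, le_rfl, hT _, (on_cor _).2.1 (dy_self _) (dx_self _)⟩
      · exact ⟨.inl 2, le_rfl, hT _, (on_cor _).2.2.1 h.h01 (dx_self _)⟩
      · exact ⟨.inr 4, le_rfl, hT _, dx_self _, dy_self _⟩
      · exact ⟨.inl 3, le_rfl, hT _, (on_cor _).2.2.2 (dy_self _) u03⟩
      · exact ⟨.inl 0, le_rfl, hT _, (on_cor _).1 h.h34 u14⟩
    · fin_cases s
      · exact ⟨.inr 2, le_rfl, hT _, dx_self _, dy_self _⟩
      · exact ⟨.inr 0, le_rfl, hT _, dx_self _, dy_self _⟩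
    · fin_cases s
      · exact ⟨.inr 1, le_rfl, hT _, dx_self _, dy_self _⟩
      · exact ⟨.inr 3, le_rfl, hT _, dx_self _, dy_self _⟩
  refine (Submodule.finrank_mono s1).trans ?_
  rw [rk_swp]
  have s2 : (fun l => swP (T P l)) = fun l => act (G P (e 1) 1) (-G P (e 1) 0) (G P (e 0) 1)
      (-G P (e 0) 0) (P (e 0) 3) (-P (e 0) 2) (P (e 3) 3) (-P (e 3) 2) (G P l) := by
    funext l i
    fin_cases i <;> simp [swP, T, act, dx, dy, (hy l).1, (hy l).2, sub_eq_add_neg]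
  rw [s2]
  refine (rk_lin (fun z => u01 ?_) (fun z => h.h03 ?_) _ _ _ _).trans ?_
  · rw [dx]; linear_combination z
  · rw [dy]; linear_combination -z
  have s3 := shear (p := q) (q := p) (m := mu k m (m 0) (m 1)) (P := G P) (P' := P) (i := a 1)
    (j := b 0) hG hP (by simp [G, dx]) h.xab
    (by rw [dy, (hy _).1, (hy _).1, (hy _).2, (hy _).2]; exact h.ya (b 0) (by simp))
    (fun l => by rw [dy, (hy _).1, (hy _).2]; ring) fun l h1 h2 => by
      have z1 : dy (G P (a 1)) (P l) = dy (P (a 1)) (P l) := by rw [dy, dy, (hy _).1, (hy _).2]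
      have z2 : dy (G P (b 0)) (P l) = dy (P (b 0)) (P l) := by rw [dy, dy, (hy _).1, (hy _).2]
      rw [z1, z2]
      refine ⟨h.ya l h1, h.yb l h2, ?_⟩
      have z3 : dx (G P l) (G P (b 0)) = -(dy (P (b 0)) (P l) * dx (P (a 1)) (P l)) := by
        simp [G, h1, h2, sh, Core.dx.eq_1 ![_, _, _, _]]
      have z4 : dx (G P l) (G P (a 1)) = -(dy (P (a 1)) (P l) * dx (P (b 0)) (P l)) := by
        simp [G, h1, h2, sh, Core.dx.eq_1 ![_, _, _, _]]
      rw [z3, z4]
      ring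
  have s4 : (fun l => if l = a 1 ∨ l = b 0 then q - mu k m (m 0) (m 1) l
      else mu k m (m 0) (m 1) l) = mu k m (q - m 0) (q - m 1) := by
    funext l
    rcases l with i | s | s
    · simp [mu]
    · fin_cases s <;> simp [mu]
    · fin_cases s <;> simp [mu]
  rwa [s4] at s3

/-- the limit position: a 0, a 1 and b 0, b 1 have the same height -/
structure Grl (P : Ix → Fin 4 → K) : Prop where
  pt : ∀ l, Pt (P l)
  h01 : dy (P (e 0)) (P (e 1)) = 0
  h34 : dy (P (e 3)) (P (e 4)) = 0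
  h03 : dy (P (e 0)) (P (e 3)) ≠ 0
  u03 : du (P (a 1)) (P (b 0)) (P (e 0)) (P (e 3)) = 0
  u14 : du (P (a 1)) (P (b 0)) (P (e 1)) (P (e 4)) = 0
  u01 : du (P (a 1)) (P (b 0)) (P (e 0)) (P (e 1)) ≠ 0
  aa : dy (P (a 1)) (P (a 0)) = 0
  bb : dy (P (b 0)) (P (b 1)) = 0
  xab : dx (P (a 1)) (P (b 0)) ≠ 0
  yab : dy (P (a 1)) (P (b 0)) ≠ 0
  xaa : dx (P (a 1)) (P (a 0)) ≠ 0
  xbb : dx (P (b 0)) (P (b 1)) ≠ 0
  ya : ∀ i, dy (P (a 1)) (P (e i)) ≠ 0
  yb : ∀ i, dy (P (b 0)) (P (e i)) ≠ 0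
  xa0 : dx (P (a 1)) (P (e 0)) ≠ 0
  xa1 : dx (P (a 1)) (P (e 1)) ≠ 0
  xb0 : dx (P (b 0)) (P (e 0)) ≠ 0
  xb1 : dx (P (b 0)) (P (e 1)) ≠ 0
  h02 : dy (P (e 0)) (P (e 2)) ≠ 0
  h32 : dy (P (e 3)) (P (e 2)) ≠ 0
  u02 : du (P (a 1)) (P (b 0)) (P (e 0)) (P (e 2)) ≠ 0
  u12 : du (P (a 1)) (P (b 0)) (P (e 1)) (P (e 2)) ≠ 0

/-- the points a 0 and b 1 move in the directions D and E -/
noncomputable def arc (P : Ix → Fin 4 → K) (D E : Fin 4 → K) (l : Ix) (i : Fin 4) :
    PowerSeries K :=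
  PowerSeries.C (P l i) + PowerSeries.X * PowerSeries.C
    (if l = a 0 then D i else if l = b 1 then E i else 0)

theorem arc_res (P : Ix → Fin 4 → K) (D E : Fin 4 → K) (l : Ix) :
    (fun i => PowerSeries.constantCoeff (arc P D E l i)) = P l := by
  funext i
  simp [arc]

theorem arc_fix (P : Ix → Fin 4 → K) (D E : Fin 4 → K) {l : Ix} (h1 : l ≠ a 0) (h2 : l ≠ b 1) :
    arc P D E l = fun i => PowerSeries.C (P l i) := by
  funext i
  simp [arc, h1, h2]

theorem ne_res {x : PowerSeries K} {y : K} (h : PowerSeries.constantCoeff x = y) (hy : y ≠ 0) :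
    x ≠ 0 := fun z => hy (by rw [← h, z, map_zero])

theorem Grl.grd {P : Ix → Fin 4 → K} (h : Grl P) {D E : Fin 4 → K} (hD : dy (P (a 1)) D ≠ 0)
    (hE : dy (P (b 0)) E ≠ 0) : Grd (arc P D E) := by
  have ny : ∀ l l', dy (P l) (P l') ≠ 0 → dy (arc P D E l) (arc P D E l') ≠ 0 := fun l l' =>
    ne_res (by rw [← map_dy, arc_res, arc_res])
  have mv : ∀ (l l' : Ix) (V : Fin 4 → K), l ≠ a 0 → l ≠ b 1 → dy (P l) (P l') = 0 →
      dy (P l) V ≠ 0 → (∀ i, arc P D E l' i = PowerSeries.C (P l' i) +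
        PowerSeries.X * PowerSeries.C (V i)) → dy (arc P D E l) (arc P D E l') ≠ 0 := by
    intro l l' V h1 h2 h3 h4 h5
    have : dy (arc P D E l) (arc P D E l') = PowerSeries.C (dy (P l) (P l')) +
        PowerSeries.X * PowerSeries.C (dy (P l) V) := by
      rw [arc_fix P D E h1 h2, dy, h5, h5]
      simp only [dy, map_sub, map_mul]
      ring
    rw [this, h3, map_zero, zero_add]
    exact mul_ne_zero PowerSeries.X_ne_zero ((map_ne_zero_iff _ PowerSeries.C_injective).2 h4)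
  have fe : ∀ i, arc P D E (e i) = fun j => PowerSeries.C (P (e i) j) := fun i =>
    arc_fix P D E (by simp) (by simp)
  have fa : arc P D E (a 1) = fun j => PowerSeries.C (P (a 1) j) :=
    arc_fix P D E (by simp) (by simp)
  have fb : arc P D E (b 0) = fun j => PowerSeries.C (P (b 0) j) :=
    arc_fix P D E (by simp) (by simp)
  refine ⟨?_, ?_, ny _ _ h.h03, ?_, ?_, ne_res (by rw [← map_du, arc_res, arc_res, arc_res, arc_res])
    h.u01, ne_res (by rw [← map_dx, arc_res, arc_res]) h.xab, ?_, ?_⟩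
  · rw [fe, fe, map_dy, h.h01, map_zero]
  · rw [fe, fe, map_dy, h.h34, map_zero]
  · rw [fe, fe, fa, fb, map_du, h.u03, map_zero]
  · rw [fe, fe, fa, fb, map_du, h.u14, map_zero]
  · rintro (i | s | s) hl
    · exact ny _ _ (h.ya i)
    · fin_cases s
      · exact mv _ _ D (by simp) (by simp) h.aa hD fun i => by simp [arc]
      · exact absurd rfl hl
    · fin_cases s
      · exact ny _ _ h.yab
      · exact ny _ _ (dy_ne h.yab h.bb (h.pt _))
  · have yba : dy (P (b 0)) (P (a 1)) ≠ 0 := by rw [dy_comm]; exact neg_ne_zero.2 h.yab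
    rintro (i | s | s) hl
    · exact ny _ _ (h.yb i)
    · fin_cases s
      · exact ny _ _ (dy_ne yba h.aa (h.pt _))
      · exact ny _ _ yba
    · fin_cases s
      · exact absurd rfl hl
      · exact mv _ _ E (by simp) (by simp) h.bb hE fun i => by simp [arc]

/-- in the limit position the five points are still in the torus -/
theorem Grl.tor {P : Ix → Fin 4 → K} (h : Grl P) (i : Fin 5) (c : Fin 4) : T P (tix i) c ≠ 0 := by
  have yba : dy (P (b 0)) (P (a 1)) ≠ 0 := by rw [dy_comm]; exact neg_ne_zero.2 h.yab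
  have ya : ∀ i, dy (P (e i)) (P (a 1)) ≠ 0 := fun i => by
    rw [dy_comm]; exact neg_ne_zero.2 (h.ya i)
  have yb : ∀ i, dy (P (e i)) (P (b 0)) ≠ 0 := fun i => by
    rw [dy_comm]; exact neg_ne_zero.2 (h.yb i)
  have ya0 : ∀ i, dy (P (e i)) (P (a 0)) ≠ 0 := fun i => dy_ne (ya i) h.aa (h.pt _)
  have yb1 : ∀ i, dy (P (e i)) (P (b 1)) ≠ 0 := fun i => dy_ne (yb i) h.bb (h.pt _)
  have z1 := dy_ne yba h.aa (h.pt _)
  have z2 := dy_ne h.yab h.bb (h.pt _)
  have ga : ∀ X : Fin 4 → K, dx X (G P (a 1)) = X 1 := fun X => by simp [G, dx]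
  have gb : ∀ X : Fin 4 → K, dx X (G P (b 0)) = -X 0 := fun X => by simp [G, dx]
  have ga0 : G P (a 0) = sh (P (a 1)) (P (b 0)) (P (a 0)) := by simp [G]
  have gb1 : G P (b 1) = sh (P (a 1)) (P (b 0)) (P (b 1)) := by simp [G]
  fin_cases i <;> fin_cases c <;>
    simp [T, tix, ya, yb, ya0, yb1, ga, gb, ga0, gb1, G_e, dx_sh, h.h02, h.h32, h.u02, h.u12] <;>
    simp [sh, du, h.aa, h.bb, h.ya, h.yb, h.xa0, h.xa1, h.xb0, h.xb1, h.xaa, h.xbb, z1, z2]

/-- the bound for the toric chart over the field of Laurent series -/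
theorem Grl.le {P : Ix → Fin 4 → K} (h : Grl P) {D E : Fin 4 → K} (hD : dy (P (a 1)) D ≠ 0)
    (hE : dy (P (b 0)) E ≠ 0) (L : Type) [Field L] [Algebra (PowerSeries K) L]
    [IsFractionRing (PowerSeries K) L] :
    (∀ i c, T (fun l j => algebraMap _ L (arc P D E l j)) (tix i) c ≠ 0) ∧
    ∀ (p q : ℤ) (k : Fin 4 → ℤ) (m : Fin 5 → ℤ), finrank L (H0 p q (Sum.elim cor fun i =>
      T (fun l j => algebraMap _ L (arc P D E l j)) (tix i)) (Sum.elim k m)) ≤
      finrank K (H0 q (p + q - m 0 - m 1) P (mu k m (q - m 0) (q - m 1))) := by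
  have hi := IsFractionRing.injective (PowerSeries K) L
  have hπ : ∀ x : PowerSeries K, PowerSeries.constantCoeff x ≠ 0 → IsUnit x := fun _ h =>
    PowerSeries.isUnit_iff_constantCoeff.2 (Ne.isUnit h)
  have hr : (fun l j => PowerSeries.constantCoeff (arc P D E l j)) = P :=
    funext fun l => arc_res P D E l
  have n : ∀ l j, P l j ≠ 0 → algebraMap _ L (arc P D E l j) ≠ 0 := fun l j z =>
    (map_ne_zero_iff _ hi).2 (ne_res (congrFun (arc_res P D E l) j) z)
  refine ⟨fun i c => ?_, fun p q k m => ?_⟩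
  · rw [map_T]
    refine (map_ne_zero_iff _ hi).2 (ne_res ?_ (h.tor i c))
    rw [← hr, map_T, hr]
  · refine (((h.grd hD hE).map _ hi).le (fun l => ⟨(h.pt l).1.imp (n l 0) (n l 1),
      (h.pt l).2.imp (n l 2) (n l 3)⟩) p q k m).trans ?_
    have := H0_lim (K := L) PowerSeries.constantCoeff hπ q (p + q - m 0 - m 1) (arc P D E)
      (fun l => by rw [arc_res]; exact h.pt l) (mu k m (q - m 0) (q - m 1))
    rwa [hr] at this

/-- the frame change for fifteen points -/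
theorem Grl.ex {P : Ix → Fin 4 → K} (h : Grl P) :
    ∃ (L : Type) (_ : Field L) (_ : K →+* L) (Q : Fin 5 → Fin 4 → L), (∀ i c, Q i c ≠ 0) ∧
      ∀ (p q : ℤ) (k : Fin 4 → ℤ) (m : Fin 5 → ℤ),
        finrank L (H0 p q (Sum.elim cor Q) (Sum.elim k m)) ≤
        finrank K (H0 q (p + q - m 0 - m 1) P (mu k m (q - m 0) (q - m 1))) :=
  ⟨FractionRing (PowerSeries K), inferInstance, (algebraMap _ _).comp PowerSeries.C, _,
    h.le h.yab (by rw [dy_comm]; exact neg_ne_zero.2 h.yab) _⟩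

end field

end Pool.Agent.Lib.MP_d03834_ag.Core.Fr
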