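import Pool.Agent.Lib.MP_d03834_ag.Core.DownCfg
import Pool.Agent.Lib.MP_d03834_ag.Core.Frame

/-! The explicit configuration, with the free point moved, is in the limit position of the
toric chart. -/

set_option autoImplicit false

namespace Pool.Agent.Lib.MP_d03834_ag.Core

namespace Dn

variable {O k L : Type} [CommRing O] [Field k] [Field L] {A : Arc O k} (D : Dn A)

/-- the points over L, the free point e 2 moved by δ -/
def pm (f : O →+* L) (δ : L) : Ix → Fin 4 → L :=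
  grP (fun i => f (D.cfg.z i)) (fun i => f (D.cfg.η i) + if i = 2 then δ else 0)
    (fun s => f (A.t * D.cfg.al s)) (fun s => f (A.t * D.cfg.be s)) (f A.t)

variable (f : O →+* L) (δ : L)

theorem pm_e (i : Fin 5) : D.pm f δ (Fr.e i) =
    ![f (D.z i), 1, 1, f (D.cfg.η i) + if i = 2 then δ else 0] := rfl
theorem pm_a0 : D.pm f δ (Fr.a 0) = ![f (A.t * 0), 1, 0, 1] := rfl
theorem pm_a1 : D.pm f δ (Fr.a 1) = ![f (A.t * -D.q), 1, 0, 1] := rfl
theorem pm_b0 : D.pm f δ (Fr.b 0) = ![f (A.t * D.q), 1, f A.t, 1] := rfl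
theorem pm_b1 : D.pm f δ (Fr.b 1) = ![f (A.t * D.β), 1, f A.t, 1] := rfl

theorem dy_ee (i j : Fin 5) : dy (D.pm f δ (Fr.e i)) (D.pm f δ (Fr.e j)) =
    f (D.cfg.η i - D.cfg.η j) + ((if i = 2 then δ else 0) - if j = 2 then δ else 0) := by
  simp [pm_e, dy]
  ring

theorem dy_ae (i : Fin 5) : dy (D.pm f δ (Fr.a 1)) (D.pm f δ (Fr.e i)) = 1 := by
  simp [pm_e, pm_a1, dy]

theorem dy_be (i : Fin 5) : dy (D.pm f δ (Fr.b 0)) (D.pm f δ (Fr.e i)) =
    f (1 - A.t * D.cfg.η i) + f (-A.t) * if i = 2 then δ else 0 := by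
  simp only [pm_e, pm_b0, dy, Matrix.cons_val, map_sub, map_mul, map_one, map_neg]
  ring

theorem dx_ae (i : Fin 5) : dx (D.pm f δ (Fr.a 1)) (D.pm f δ (Fr.e i)) =
    f (D.z i + A.t * D.q) := by
  simp [pm_e, pm_a1, dx]

theorem dx_be (i : Fin 5) : dx (D.pm f δ (Fr.b 0)) (D.pm f δ (Fr.e i)) =
    f (D.z i - A.t * D.q) := by
  simp [pm_e, pm_b0, dx]

theorem du_ee (i j : Fin 5) (hi : i ≠ 2) :
    Fr.du (D.pm f δ (Fr.a 1)) (D.pm f δ (Fr.b 0)) (D.pm f δ (Fr.e i)) (D.pm f δ (Fr.e j)) =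
      f ((D.u i - D.u j) * (D.z i - A.t * D.q) * (D.z j - A.t * D.q)) +
        f (A.t * (D.z i - A.t * D.q) * (D.z j + A.t * D.q)) * if j = 2 then δ else 0 := by
  have h1 := congrArg f (D.u_rel i)
  have h2 := congrArg f (D.u_rel j)
  rw [Fr.du, dy_ae, dy_ae, dy_be, dy_be, dx_ae, dx_ae, dx_be, dx_be, if_neg hi]
  simp only [map_sub, map_mul, map_add, map_one, map_neg] at h1 h2 ⊢
  linear_combination (f (D.z i) - f A.t * f D.q) * h2 - (f (D.z j) - f A.t * f D.q) * h1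

variable {f δ}

/-- the limit position -/
theorem grl [IsDomain O] (h : ∀ y w : O, y ≠ 0 → f y + f w * δ ≠ 0) : Fr.Grl (D.pm f δ) := by
  have n : ∀ {y : O}, y ≠ 0 → f y ≠ 0 := fun {y} hy => by simpa using h y 0 hy
  have n' : ∀ {y : O} (w : O) (i : Fin 5), y ≠ 0 → f y + f w * (if i = 2 then δ else 0) ≠ 0 :=
    fun {y} w i hy => by
      split_ifs
      · exact h y w hy
      · simpa using n hy
  have nu : ∀ i j, D.u i ≠ D.u j →
      (D.u i - D.u j) * (D.z i - A.t * D.q) * (D.z j - A.t * D.q) ≠ 0 := fun i j e =>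
    mul_ne_zero (mul_ne_zero (sub_ne_zero.2 e) (D.zt_ne i _)) (D.zt_ne j _)
  have ne : ∀ i, i ≠ 2 → D.cfg.η i ≠ D.cfg.η 2 →
      dy (D.pm f δ (Fr.e i)) (D.pm f δ (Fr.e 2)) ≠ 0 := fun i hi e => by
    have := h _ (-1) (sub_ne_zero.2 e)
    rw [dy_ee, if_neg hi, if_pos rfl]
    simpa using this
  exact
  { pt := grP_pt _ _ _ _ _
    h01 := by simp [dy_ee, η0, η1]
    h34 := by simp [dy_ee, η3, η4]
    h03 := by
      rw [dy_ee, η0, η3]
      simpa using n (sub_ne_zero.2 D.h_ne.symm)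
    u03 := by simp [du_ee, u_0, u_3]
    u14 := by simp [du_ee, u_1, u_4]
    u01 := by
      rw [du_ee _ _ _ _ _ (by decide)]
      exact n' _ _ (nu 0 1 (by rw [u_0, u_1]; exact D.u_ne'.symm))
    aa := by simp [pm_a0, pm_a1, dy]
    bb := by simp [pm_b0, pm_b1, dy]
    xab := by simpa [pm_a1, pm_b0, dx] using n (sub_ne_zero.2 D.tq_ne.symm)
    yab := by simpa [pm_a1, pm_b0, dy] using n A.t0
    xaa := by simpa [pm_a1, pm_a0, dx] using And.intro (n A.t0) (n D.q_ne)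
    xbb := by
      have := n (mul_ne_zero A.t0 (sub_ne_zero.2 D.βq))
      rw [mul_sub, map_sub] at this
      simpa [pm_b0, pm_b1, dx] using this
    ya := fun i => by rw [dy_ae]; exact one_ne_zero
    yb := fun i => by rw [dy_be]; exact n' _ _ (tη_ne A _)
    xa0 := by rw [dx_ae]; exact n (D.zt_ne' _ _)
    xa1 := by rw [dx_ae]; exact n (D.zt_ne' _ _)
    xb0 := by rw [dx_be]; exact n (D.zt_ne _ _)
    xb1 := by rw [dx_be]; exact n (D.zt_ne _ _)
    h02 := ne 0 (by decide) (by rw [η0]; exact D.η2_ne0.symm)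
    h32 := ne 3 (by decide) (by rw [η3]; exact D.η2_ne1.symm)
    u02 := by
      rw [du_ee _ _ _ _ _ (by decide)]
      exact n' _ _ (nu 0 2 (by rw [u_0]; exact D.u2_ne0.symm))
    u12 := by
      rw [du_ee _ _ _ _ _ (by decide)]
      exact n' _ _ (nu 1 2 (by rw [u_1]; exact D.u2_ne1.symm)) }

/-- the form of the hypothesis which the fold gives -/
theorem grl' [IsDomain O] {K : Type} [Field K] [Algebra O K]
    (hi : Function.Injective (algebraMap O K)) {g : K →+* L}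
    (h : ∀ y w : K, y ≠ 0 → g y + g w * δ ≠ 0) :
    Fr.Grl (D.pm (g.comp (algebraMap O K)) δ) :=
  D.grl fun _ _ hy => h _ _ ((map_ne_zero_iff _ hi).2 hy)

end Dn

end Pool.Agent.Lib.MP_d03834_ag.Core
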