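import Pool.Agent.Lib.MP_d03834_ag.Core.BiT5

/-! The collision of three points with a fibre between two arms, without coordinates, and the
two collisions in the chart of four fibres. -/

set_option autoImplicit false

namespace Pool.Agent.Lib.MP_d03834_ag.Core

open Module

/-- three points e on one fibre x = const, two points a and two points b on two levels -/
structure T5G {k ι : Type} [Field k] (Q : ι → Fin 4 → k) (e : Fin 3 → ι) (a b : Fin 2 → ι) :
    Prop where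
  pt : ∀ l, Pt (Q l)
  ex : ∀ i, dx (Q (e 0)) (Q (e i)) = 0
  ey : ∀ i j, i ≠ j → dy (Q (e i)) (Q (e j)) ≠ 0
  ea : ∀ i, dy (Q (a 0)) (Q (e i)) ≠ 0
  eb : ∀ i, dy (Q (b 0)) (Q (e i)) ≠ 0
  ay : dy (Q (a 0)) (Q (a 1)) = 0
  bv : dy (Q (b 0)) (Q (b 1)) = 0
  ab : dy (Q (a 0)) (Q (b 0)) ≠ 0
  ax : ∀ s, dx (Q (e 0)) (Q (a s)) ≠ 0
  bx : ∀ s, dx (Q (e 0)) (Q (b s)) ≠ 0
  aa : dx (Q (a 0)) (Q (a 1)) ≠ 0
  bb : dx (Q (b 0)) (Q (b 1)) ≠ 0

open Classical in
/-- the multiplicities after j twists along the fibre through u, with the arms through A and B -/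
noncomputable def redG {k ι : Type} [Field k] (Q : ι → Fin 4 → k) (u A B : ι) (j : ℤ)
    (m : ι → ℤ) (l : ι) : ℤ :=
  m l - (if dx (Q u) (Q l) = 0 then j else 0) - (if dy (Q A) (Q l) = 0 then (j + 1) / 2 else 0) -
    (if dy (Q B) (Q l) = 0 then (j + 1) / 2 else 0)

theorem dx_ne45 {k : Type} [Field k] {a b c : Fin 4 → k} (h : dx a b ≠ 0) (h1 : dx b c = 0)
    (hc : Pt c) : dx a c ≠ 0 :=
  dy_ne (a := swP a) (b := swP b) (c := swP c) h h1 hc.swP

theorem Pt.act45 {k : Type} [Field k] {a b c d a' b' c' d' : k} (h : a * d - b * c ≠ 0)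
    (h' : a' * d' - b' * c' ≠ 0) {P : Fin 4 → k} (hP : Pt P) : Pt (act a b c d a' b' c' d' P) := by
  have key : ∀ {a b c d u v : k}, a * d - b * c ≠ 0 → u ≠ 0 ∨ v ≠ 0 →
      a * u + b * v ≠ 0 ∨ c * u + d * v ≠ 0 := fun {a b c d u v} h h1 => by
    by_contra h2
    rw [not_or, not_not, not_not] at h2
    rcases h1 with e | e
    · exact mul_ne_zero h e (by linear_combination d * h2.1 - b * h2.2)
    · exact mul_ne_zero h e (by linear_combination a * h2.2 - c * h2.1)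
  exact ⟨key h hP.1, key h' hP.2⟩

/-- change of coordinates, the other direction -/
theorem rk_lin45 {k ι : Type} [Field k] {a b c d a' b' c' d' : k} (h : a * d - b * c ≠ 0)
    (h' : a' * d' - b' * c' ≠ 0) (p q : ℤ) {P : ι → Fin 4 → k} (hP : ∀ l, Pt (P l)) (m : ι → ℤ) :
    finrank k (H0 p q P m) ≤ finrank k (H0 p q (fun l => act a b c d a' b' c' d' (P l)) m) := by
  have g : d * a - -b * -c ≠ 0 := fun e => h (by linear_combination e)
  have g' : d' * a' - -b' * -c' ≠ 0 := fun e => h' (by linear_combination e)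
  refine le_trans (Submodule.finrank_mono (H0_le fun l => .inr ⟨l, le_rfl,
    ((hP l).act45 h h').act45 g g', ?_, ?_⟩)) (rk_lin g g' p q _ m)
  · simp [act, dx]
    ring
  · simp [act, dy]
    ring

/-- the integral form of the two bounds -/
theorem t5_int {O k K ι : Type} [CommRing O] [IsDomain O] [ValuationRing O] [Field k] [Field K]
    [Algebra O K] [IsFractionRing O K] {π : O →+* k} (hπ : ∀ x, π x ≠ 0 → IsUnit x) {t : O}
    (ht0 : t ≠ 0) (ht : π t = 0) {P : ι → Fin 4 → O} {e : Fin 3 → ι} {a b : Fin 2 → ι}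
    {ξ y : Fin 3 → O} {al be ga : k} (h : T5 π t P e a b ξ y al be ga) {p q κ ε : ℤ} {m : ι → ℤ}
    (hε : ε = 0 ∨ ε = 1) (h0 : 0 ≤ κ + ε) (ha : p ≤ m (a 0) + m (a 1))
    (hb : p ≤ m (b 0) + m (b 1)) (he : q + κ ≤ m (e 0) + m (e 1) + m (e 2)) :
    (finrank K (H0 p q (fun l c => algebraMap O K (P l c)) m) : ℤ) ≤ ε * ((κ + 2) / 2) +
      finrank k (H0 (p - (κ + ε)) (q - 2 * ((κ + ε + 1) / 2)) (fun l c => π (P l c))
        (red (κ + ε).toNat (fun l c => π (P l c)) m)) := by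
  rcases hε with rfl | rfl
  · obtain ⟨n, rfl⟩ := Int.eq_ofNat_of_zero_le (show 0 ≤ κ by omega)
    have := t5a (K := K) hπ ht0 ht h ha hb he
    rw [show (n : ℤ) + 0 = n from add_zero _, Int.toNat_natCast,
      show ((n : ℤ) + 1) / 2 = ((n + 1) / 2 : ℕ) by omega]
    omega
  rcases lt_or_ge κ 0 with h1 | h1
  · obtain rfl : κ = -1 := by omega
    have := H0_lim (K := K) π hπ p q P h.arms.pt m
    have e : red (-1 + 1 : ℤ).toNat (fun l c => π (P l c)) m = m := funext fun l => by simp [red]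
    rw [e, show p - (-1 + 1) = p by ring, show q - 2 * ((-1 + 1 + 1) / 2) = q by omega]
    omega
  · obtain ⟨n, rfl⟩ := Int.eq_ofNat_of_zero_le h1
    have := t5b (K := K) hπ ht0 ht h ha hb he
    rw [show ((n : ℤ) + 1).toNat = n + 1 by omega,
      show ((n : ℤ) + 1 + 1) / 2 = ((n + 1 + 1) / 2 : ℕ) by omega,
      show (n : ℤ) + 1 = (n + 1 : ℕ) by omega]
    omega

theorem t5g {k ι : Type} [Field k] [CharZero k] {Q : ι → Fin 4 → k} {e : Fin 3 → ι}
    {a b : Fin 2 → ι} (h : T5G Q e a b) :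
    ∃ (K : Type) (_ : Field K) (g : k →+* K) (P : ι → Fin 4 → K), (∀ l, Pt (P l)) ∧
      (∀ l, (∀ i, e i ≠ l) → P l = fun c => g (Q l c)) ∧
      (∀ l l', dy (P l) (P l') = g (dy (Q l) (Q l'))) ∧
      (∀ l l', dx (Q l) (Q l') ≠ 0 → dx (P l) (P l') ≠ 0) ∧
      ∀ (p q κ ε : ℤ) (m : ι → ℤ), ε = 0 ∨ ε = 1 → 0 ≤ κ + ε → p ≤ m (a 0) + m (a 1) →
        p ≤ m (b 0) + m (b 1) → q + κ ≤ m (e 0) + m (e 1) + m (e 2) →
        (finrank K (H0 p q P m) : ℤ) ≤ ε * ((κ + 2) / 2) +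
          finrank k (H0 (p - (κ + ε)) (q - 2 * ((κ + ε + 1) / 2)) Q
            (redG Q (e 0) (a 0) (b 0) (κ + ε) m)) := by
  classical
  let π : PowerSeries k →+* k := PowerSeries.constantCoeff
  let f := algebraMap (PowerSeries k) (FractionRing (PowerSeries k))
  let c : k →+* PowerSeries k := PowerSeries.C
  let t : PowerSeries k := PowerSeries.X
  have hπ : ∀ x, π x ≠ 0 → IsUnit x := fun x hx =>
    PowerSeries.isUnit_iff_constantCoeff.2 (Ne.isUnit hx)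
  have πc : ∀ x, π (c x) = x := fun x => PowerSeries.constantCoeff_C x
  have πt : π t = 0 := PowerSeries.constantCoeff_X
  have fi : Function.Injective f := IsFractionRing.injective _ _
  have f0 : ∀ x, π x ≠ 0 → f x ≠ 0 := fun x hx e0 =>
    hx (by rw [(map_eq_zero_iff f fi).1 e0, map_zero])
  have ei : Function.Injective e := fun i j hij => by
    by_contra hn
    exact h.ey i j hn (by rw [hij, dy_self])
  have hA : ∀ i, dx (Q (a 0)) (Q (e i)) ≠ 0 := fun i =>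
    dx_ne45 (by rw [dx_comm]; exact neg_ne_zero.2 (h.ax 0)) (h.ex i) (h.pt _)
  let y : Fin 3 → k := fun i => dy (Q (a 0)) (Q (e i)) / dy (Q (b 0)) (Q (e i))
  have hy : ∀ i, y i * dy (Q (b 0)) (Q (e i)) = dy (Q (a 0)) (Q (e i)) := fun i =>
    div_mul_cancel₀ _ (h.eb i)
  have y0 : ∀ i, y i ≠ 0 := fun i => div_ne_zero (h.ea i) (h.eb i)
  let ξ : Fin 3 → k := fun i => y i + (y i)⁻¹
  let cc : ι → k := Function.extend e
    (fun i => ξ i * dx (Q (a 0)) (Q (e i)) / dx (Q (e 0)) (Q (a 0))) 0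
  have hc : ∀ i, cc (e i) * dx (Q (e 0)) (Q (a 0)) = ξ i * dx (Q (a 0)) (Q (e i)) := fun i => by
    simp only [cc, ei.extend_apply]
    exact div_mul_cancel₀ _ (h.ax 0)
  have hc0 : ∀ l, ¬(∃ i, e i = l) → cc l = 0 := fun l hl => Function.extend_apply' _ _ _ hl
  let PO : ι → Fin 4 → PowerSeries k := fun l => ![c (Q l 0) + t * c (cc l * Q (a 0) 0),
    c (Q l 1) + t * c (cc l * Q (a 0) 1), c (Q l 2), c (Q l 3)]
  have hPO : ∀ l i, π (PO l i) = Q l i := fun l i => by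
    fin_cases i <;> simp [PO, πc, πt]
  let G : ι → Fin 4 → k := fun l => act (Q (e 0) 1) (-Q (e 0) 0) (Q (a 0) 1) (-Q (a 0) 0)
    (Q (a 0) 3) (-Q (a 0) 2) (Q (b 0) 3) (-Q (b 0) 2) (Q l)
  have G0 : ∀ l, G l 0 = dx (Q (e 0)) (Q l) := fun l => by simp [G, act, dx]; ring
  have G1 : ∀ l, G l 1 = dx (Q (a 0)) (Q l) := fun l => by simp [G, act, dx]; ring
  have G2 : ∀ l, G l 2 = dy (Q (a 0)) (Q l) := fun l => by simp [G, act, dy]; ring
  have G3 : ∀ l, G l 3 = dy (Q (b 0)) (Q l) := fun l => by simp [G, act, dy]; ring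
  have d1 : Q (e 0) 1 * -Q (a 0) 0 - -Q (e 0) 0 * Q (a 0) 1 ≠ 0 := fun e0 =>
    h.ax 0 (by rw [dx]; linear_combination -e0)
  have d2 : Q (a 0) 3 * -Q (b 0) 2 - -Q (a 0) 2 * Q (b 0) 3 ≠ 0 := fun e0 =>
    h.ab (by rw [dy]; linear_combination -e0)
  have hG : ∀ l, Pt (G l) := fun l => (h.pt l).act45 d1 d2
  let T : ι → Fin 4 → PowerSeries k :=
    Function.extend e (fun i => ![t * c (ξ i), 1, c (y i), 1]) fun l i => c (G l i)
  have Te : ∀ i, T (e i) = ![t * c (ξ i), 1, c (y i), 1] := fun i => ei.extend_apply _ _ _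
  have To : ∀ l, ¬(∃ i, e i = l) → T l = fun i => c (G l i) := fun l hl =>
    Function.extend_apply' _ _ _ hl
  have ya : ∀ s, dy (Q (a 0)) (Q (a s)) = 0 := fun s => by
    fin_cases s
    exacts [dy_self _, h.ay]
  have yb : ∀ s, dy (Q (b 0)) (Q (b s)) = 0 := fun s => by
    fin_cases s
    exacts [dy_self _, h.bv]
  have Ta : ∀ s, T (a s) = fun i => c (G (a s) i) := fun s =>
    To _ fun ⟨i, hi⟩ => h.ea i (by rw [hi, ya])
  have Tb : ∀ s, T (b s) = fun i => c (G (b s) i) := fun s =>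
    To _ fun ⟨i, hi⟩ => h.eb i (by rw [hi, yb])
  have dG : ∀ l l', (dx (fun i => G l i) fun i => G l' i) =
      -dx (Q (e 0)) (Q (a 0)) * dx (Q l) (Q l') := fun l l' => by
    simp only [dx, G0, G1]
    ring
  have hT : T5 π t T e a b (fun i => c (ξ i)) (fun i => c (y i)) 1 0 1 := by
    refine ⟨⟨fun l => ?_, fun s => by simp only [Ta, G2, ya, map_zero],
      fun s => by simp only [Tb, G3, yb, map_zero], fun s => by rw [Ta, πc, G0]; exact h.ax s,
      fun s => by rw [Tb, πc, G0]; exact h.bx s, ?_, ?_⟩, ⟨fun i => by rw [πc]; exact y0 i,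
      fun i j hij => ?_, fun i => ?_, one_ne_zero, one_ne_zero⟩, Te,
      fun s => by simp only [Ta, G2, ya, map_zero], fun s => by simp only [Tb, G3, yb, map_zero]⟩
    · by_cases hl : ∃ i, e i = l
      · obtain ⟨i, rfl⟩ := hl
        simp [Te, Pt]
      · simpa only [To l hl, πc] using hG l
    · simp only [Ta, πc, dG]
      exact mul_ne_zero (neg_ne_zero.2 (h.ax 0)) h.aa
    · simp only [Tb, πc, dG]
      exact mul_ne_zero (neg_ne_zero.2 (h.ax 0)) h.bb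
    · rw [πc, πc]
      intro e0
      refine mul_ne_zero h.ab (h.ey i j hij) ?_
      have h1 := hy i
      have h2 := hy j
      rw [← e0] at h2
      simp only [dy] at h1 h2 ⊢
      linear_combination (Q (b 0) 3 * Q (e i) 2 - Q (b 0) 2 * Q (e i) 3) * h2 -
        (Q (b 0) 3 * Q (e j) 2 - Q (b 0) 2 * Q (e j) 3) * h1
    · rw [πc, πc]
      simp only [ξ]
      rw [add_mul, inv_mul_cancel₀ (y0 i)]
      ring
  have hP : ∀ l, Pt fun i => f (PO l i) := fun l =>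
    ⟨(h.pt l).1.imp (fun e0 => f0 _ (by rwa [hPO])) fun e0 => f0 _ (by rwa [hPO]),
      (h.pt l).2.imp (fun e0 => f0 _ (by rwa [hPO])) fun e0 => f0 _ (by rwa [hPO])⟩
  refine ⟨FractionRing (PowerSeries k), inferInstance, f.comp c, fun l i => f (PO l i), hP,
    fun l hl => funext fun i => ?_, fun l l' => by simp [PO, dy], fun l l' hx => ?_,
    fun p q κ ε m hε h0 ha hb he => ?_⟩
  · have := hc0 l fun ⟨i, hi⟩ => hl i hi
    fin_cases i <;> simp [PO, this]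
  · have := f0 (dx (PO l) (PO l')) (by simpa only [dx, map_sub, map_mul, hPO] using hx)
    simpa only [dx, map_sub, map_mul] using this
  have key := t5_int (K := FractionRing (PowerSeries k)) hπ PowerSeries.X_ne_zero πt hT hε h0
    ha hb he
  have up : finrank (FractionRing (PowerSeries k)) (H0 p q (fun l i => f (PO l i)) m) ≤
      finrank (FractionRing (PowerSeries k)) (H0 p q (fun l i => f (T l i)) m) := by
    have g1 := (map_ne_zero (f.comp c)).2 d1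
    have g2 := (map_ne_zero (f.comp c)).2 d2
    rw [map_sub, map_mul, map_mul] at g1 g2
    refine (rk_lin45 g1 g2 p q hP m).trans (Submodule.finrank_mono (H0_le fun l =>
      .inr ⟨l, le_rfl, ?_, ?_⟩))
    · exact ⟨(hT.arms.pt l).1.imp (f0 _) (f0 _), (hT.arms.pt l).2.imp (f0 _) (f0 _)⟩
    by_cases hl : ∃ i, e i = l
    · obtain ⟨i, rfl⟩ := hl
      have h1 := congrArg (f.comp c) (hc i)
      have h2 := congrArg (f.comp c) (hy i)
      have h3 := congrArg (f.comp c) (h.ex i)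
      simp only [dx, dy, map_mul, map_sub, map_zero, RingHom.comp_apply] at h1 h2 h3
      constructor
      · simp [Te, act, dx, PO]
        linear_combination (-f t) * h1 - h3
      · simp [Te, act, dy, PO]
        linear_combination h2
    · have := hc0 l hl
      constructor
      · simp [To l hl, act, dx, PO, this, G]
        ring
      · simp [To l hl, act, dy, PO, G]
        ring
  have dn : finrank k (H0 (p - (κ + ε)) (q - 2 * ((κ + ε + 1) / 2)) (fun l i => π (T l i))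
      (red (κ + ε).toNat (fun l i => π (T l i)) m)) ≤
      finrank k (H0 (p - (κ + ε)) (q - 2 * ((κ + ε + 1) / 2)) Q
        (redG Q (e 0) (a 0) (b 0) (κ + ε) m)) := by
    refine le_trans (Submodule.finrank_mono (H0_le fun l => .inr ⟨l, ?_, hG l, ?_⟩))
      (rk_lin d1 d2 _ _ Q _)
    · by_cases hl : ∃ i, e i = l
      · obtain ⟨i, rfl⟩ := hl
        simp [redG, red, Te, πt, πc, y0 i, h.ex i, h.ea i, h.eb i]
        omega
      · simp only [redG, red, To l hl, πc, G0, G2, G3]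
        split_ifs <;> omega
    by_cases hl : ∃ i, e i = l
    · obtain ⟨i, rfl⟩ := hl
      refine ⟨?_, ?_⟩
      · change π (T (e i) 1) * G (e i) 0 - π (T (e i) 0) * G (e i) 1 = 0
        simp [Te, G0, h.ex i, πt]
      · change π (T (e i) 3) * G (e i) 2 - π (T (e i) 2) * G (e i) 3 = 0
        simp [Te, G2, G3, πc, hy i]
    · simp only [To l hl, πc]
      exact ⟨dx_self _, dy_self _⟩
  exact (Int.ofNat_le.2 up).trans (key.trans (add_le_add_right (Int.ofNat_le.2 dn) _))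

/-- nine points a1 a2 b1 b2 c1 c2 d1 d2 e on four levels; a1 b1 lie on one fibre x = const and
c1 d1 e lie on another one -/
structure Four {k : Type} [Field k] (F : Fin 9 → Fin 4 → k) : Prop where
  pt : ∀ l, Pt (F l)
  lev : dy (F 0) (F 1) = 0 ∧ dy (F 2) (F 3) = 0 ∧ dy (F 4) (F 5) = 0 ∧ dy (F 6) (F 7) = 0
  hts : ∀ i j : Fin 5, i ≠ j → dy (F (![0, 2, 4, 6, 8] i)) (F (![0, 2, 4, 6, 8] j)) ≠ 0
  fib : dx (F 0) (F 2) = 0 ∧ dx (F 4) (F 6) = 0 ∧ dx (F 4) (F 8) = 0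
  of0 : ∀ i : Fin 5, dx (F 0) (F (![1, 3, 4, 5, 7] i)) ≠ 0
  of4 : ∀ i : Fin 4, dx (F 4) (F (![1, 3, 5, 7] i)) ≠ 0

/-- the multiplicities after j1 twists along a1 b1 f and j2 twists along c1 d1 e -/
def m4 (j1 j2 : ℤ) (m : Fin 10 → ℤ) : Fin 9 → ℤ :=
  ![m 0 - j1 - (j2 + 1) / 2, m 1 - (j2 + 1) / 2, m 2 - j1 - (j2 + 1) / 2, m 3 - (j2 + 1) / 2,
    m 4 - j2 - (j1 + 1) / 2, m 5 - (j1 + 1) / 2, m 6 - j2 - (j1 + 1) / 2, m 7 - (j1 + 1) / 2,
    m 8 - j2]

/-- both collisions; the ten points are a1 a2 b1 b2 c1 c2 d1 d2 e f -/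
theorem t5g2 {k : Type} [Field k] [Algebra ℂ k] {F : Fin 9 → Fin 4 → k} (h : Four F) :
    ∃ (K : Type) (_ : Field K) (_ : Algebra ℂ K) (P : Fin 10 → Fin 4 → K), (∀ l, Pt (P l)) ∧
      ∀ (p q n κ i ε : ℤ) (m : Fin 10 → ℤ), i = 0 ∨ i = 1 → ε = 0 ∨ ε = 1 → 0 ≤ n + i →
        0 ≤ κ + ε → p ≤ m 0 + m 1 → p ≤ m 2 + m 3 → p ≤ m 4 + m 5 → p ≤ m 6 + m 7 →
        q + n ≤ m 0 + m 2 + m 9 → q + κ ≤ m 4 + m 6 + m 8 → m 9 ≤ n + i →
        (finrank K (H0 p q P m) : ℤ) ≤ i * ((n + 2) / 2) + ε * ((κ + 2) / 2) +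
          finrank k (H0 (p - (n + i) - (κ + ε))
            (q - 2 * ((n + i + 1) / 2) - 2 * ((κ + ε + 1) / 2)) F (m4 (n + i) (κ + ε) m)) := by
  classical
  have : CharZero k := ((algebraMap ℂ k).charZero_iff (algebraMap ℂ k).injective).1 inferInstance
  obtain ⟨y, hy⟩ := Infinite.exists_notMem_finset
    ({F 0 2 / F 0 3, F 2 2 / F 2 3, F 4 2 / F 4 3, F 6 2 / F 6 3} : Finset k)
  let z : Fin 4 → k := ![F 0 0, F 0 1, y, 1]
  have hz : ∀ l, y ≠ F l 2 / F l 3 → dy (F l) z ≠ 0 := fun l hl e0 => by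
    have e1 : F l 3 * y = F l 2 := by simpa [dy, z, sub_eq_zero] using e0
    by_cases e2 : F l 3 = 0
    · rw [e2, zero_mul] at e1
      exact (h.pt l).2.elim (fun e3 => e3 e1.symm) fun e3 => e3 e2
    · exact hl (by rw [← e1, mul_div_cancel_left₀ _ e2])
  simp only [Finset.mem_insert, Finset.mem_singleton, not_or] at hy
  have z0 := hz 0 hy.1
  have z2 := hz 2 hy.2.1
  have z4 := hz 4 hy.2.2.1
  have z6 := hz 6 hy.2.2.2
  have zp : Pt z := ⟨(h.pt 0).1, .inr one_ne_zero⟩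
  have zx : dx (F 0) z = 0 := dx_self (F 0)
  obtain ⟨l0, l2, l4, l6⟩ := h.lev
  obtain ⟨f2, f6, f8⟩ := h.fib
  have x01 : dx (F 0) (F 1) ≠ 0 := h.of0 0
  have x03 : dx (F 0) (F 3) ≠ 0 := h.of0 1
  have x04 : dx (F 0) (F 4) ≠ 0 := h.of0 2
  have x05 : dx (F 0) (F 5) ≠ 0 := h.of0 3
  have x07 : dx (F 0) (F 7) ≠ 0 := h.of0 4
  have x41 : dx (F 4) (F 1) ≠ 0 := h.of4 0
  have x43 : dx (F 4) (F 3) ≠ 0 := h.of4 1
  have x45 : dx (F 4) (F 5) ≠ 0 := h.of4 2
  have x47 : dx (F 4) (F 7) ≠ 0 := h.of4 3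
  have sx : ∀ {u v : Fin 4 → k}, dx u v ≠ 0 → dx v u ≠ 0 := fun e0 => by
    rw [dx_comm]; exact neg_ne_zero.2 e0
  have sy : ∀ {u v : Fin 4 → k}, dy u v ≠ 0 → dy v u ≠ 0 := fun e0 => by
    rw [dy_comm]; exact neg_ne_zero.2 e0
  have x06 := dx_ne45 x04 f6 (h.pt 6)
  have x08 := dx_ne45 x04 f8 (h.pt 8)
  have x40 := sx x04
  have x42 := dx_ne45 x40 f2 (h.pt 2)
  have x4z := dx_ne45 x40 zx zp
  have x23 := sx (dx_ne45 (sx x03) f2 (h.pt 2))
  have x67 := sx (dx_ne45 (sx x47) f6 (h.pt 6))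
  have y02 : dy (F 0) (F 2) ≠ 0 := h.hts 0 1 (by decide)
  have y04 : dy (F 0) (F 4) ≠ 0 := h.hts 0 2 (by decide)
  have y06 : dy (F 0) (F 6) ≠ 0 := h.hts 0 3 (by decide)
  have y08 : dy (F 0) (F 8) ≠ 0 := h.hts 0 4 (by decide)
  have y24 : dy (F 2) (F 4) ≠ 0 := h.hts 1 2 (by decide)
  have y26 : dy (F 2) (F 6) ≠ 0 := h.hts 1 3 (by decide)
  have y28 : dy (F 2) (F 8) ≠ 0 := h.hts 1 4 (by decide)
  have y46 : dy (F 4) (F 6) ≠ 0 := h.hts 2 3 (by decide)
  have y48 : dy (F 4) (F 8) ≠ 0 := h.hts 2 4 (by decide)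
  have y68 : dy (F 6) (F 8) ≠ 0 := h.hts 3 4 (by decide)
  have y20 := sy y02
  have y40 := sy y04
  have y60 := sy y06
  have y42 := sy y24
  have y62 := sy y26
  have y64 := sy y46
  have y03 := dy_ne y02 l2 (h.pt 3)
  have y05 := dy_ne y04 l4 (h.pt 5)
  have y07 := dy_ne y06 l6 (h.pt 7)
  have y21 := dy_ne y20 l0 (h.pt 1)
  have y25 := dy_ne y24 l4 (h.pt 5)
  have y27 := dy_ne y26 l6 (h.pt 7)
  have y41 := dy_ne y40 l0 (h.pt 1)
  have y43 := dy_ne y42 l2 (h.pt 3)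
  have y47 := dy_ne y46 l6 (h.pt 7)
  have y61 := dy_ne y60 l0 (h.pt 1)
  have y63 := dy_ne y62 l2 (h.pt 3)
  have y65 := dy_ne y64 l4 (h.pt 5)
  let Q : Fin 10 → Fin 4 → k := ![F 0, F 1, F 2, F 3, F 4, F 5, F 6, F 7, F 8, z]
  have hQ : ∀ l, Pt (Q l) := fun l => by
    fin_cases l
    exacts [h.pt 0, h.pt 1, h.pt 2, h.pt 3, h.pt 4, h.pt 5, h.pt 6, h.pt 7, h.pt 8, zp]
  have h1 : T5G Q ![4, 6, 8] ![0, 1] ![2, 3] := by
    refine ⟨hQ, fun i => ?_, fun i j hij => ?_, fun i => ?_, fun i => ?_, l0, l2, y02, fun s => ?_,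
      fun s => ?_, x01, x23⟩
    · fin_cases i
      exacts [dx_self _, f6, f8]
    · fin_cases i <;> fin_cases j
      exacts [absurd rfl hij, y46, y48, y64, absurd rfl hij, y68, sy y48, sy y68, absurd rfl hij]
    · fin_cases i
      exacts [y04, y06, y08]
    · fin_cases i
      exacts [y24, y26, y28]
    · fin_cases s
      exacts [x40, x41]
    · fin_cases s
      exacts [x42, x43]
  obtain ⟨K1, _, g1, P1, p1, c1, v1, w1, b1⟩ := t5g h1
  have : CharZero K1 := (g1.charZero_iff g1.injective).1 inferInstance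
  have yn : ∀ l l', dy (Q l) (Q l') ≠ 0 → dy (P1 l) (P1 l') ≠ 0 := fun l l' e0 => by
    rw [v1]
    exact (map_ne_zero g1).2 e0
  have yz : ∀ l l', dy (Q l) (Q l') = 0 → dy (P1 l) (P1 l') = 0 := fun l l' e0 => by
    rw [v1, e0, map_zero]
  have xz : ∀ l, (∀ i, ![4, 6, 8] i ≠ l) → dx (Q 0) (Q l) = 0 → dx (P1 0) (P1 l) = 0 :=
    fun l hl e0 => by
      rw [c1 0 (by decide), c1 l hl]
      simpa only [dx, map_sub, map_mul, map_zero] using congrArg g1 e0
  have h2 : T5G P1 ![0, 2, 9] ![4, 5] ![6, 7] := by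
    refine ⟨p1, fun i => ?_, fun i j hij => ?_, fun i => ?_, fun i => ?_, yz 4 5 l4, yz 6 7 l6,
      yn 4 6 y46, fun s => ?_, fun s => ?_, w1 4 5 x45, w1 6 7 x67⟩
    · fin_cases i
      exacts [dx_self _, xz 2 (by decide) f2, xz 9 (by decide) zx]
    · fin_cases i <;> fin_cases j
      exacts [absurd rfl hij, yn 0 2 y02, yn 0 9 z0, yn 2 0 y20, absurd rfl hij, yn 2 9 z2,
        yn 9 0 (sy z0), yn 9 2 (sy z2), absurd rfl hij]
    · fin_cases i
      exacts [yn 4 0 y40, yn 4 2 y42, yn 4 9 z4]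
    · fin_cases i
      exacts [yn 6 0 y60, yn 6 2 y62, yn 6 9 z6]
    · fin_cases s
      exacts [w1 0 4 x04, w1 0 5 x05]
    · fin_cases s
      exacts [w1 0 6 x06, w1 0 7 x07]
  obtain ⟨K2, _, g2, P2, p2, -, -, -, b2⟩ := t5g h2
  refine ⟨K2, inferInstance, (g2.comp (g1.comp (algebraMap ℂ k))).toAlgebra, P2, p2,
    fun p q n κ i ε m hi hε hn hκ a0 a2 a4 a6 an aκ a9 => ?_⟩
  have r1 : redG P1 0 4 6 (n + i) m = ![m 0 - (n + i), m 1, m 2 - (n + i), m 3,
      m 4 - (n + i + 1) / 2, m 5 - (n + i + 1) / 2, m 6 - (n + i + 1) / 2, m 7 - (n + i + 1) / 2,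
      m 8, m 9 - (n + i)] := by
    funext l
    fin_cases l
    · simp [redG, dx_self, yn 4 0 y40, yn 6 0 y60]
    · simp [redG, w1 0 1 x01, yn 4 1 y41, yn 6 1 y61]
    · simp [redG, xz 2 (by decide) f2, yn 4 2 y42, yn 6 2 y62]
    · simp [redG, w1 0 3 x03, yn 4 3 y43, yn 6 3 y63]
    · simp [redG, w1 0 4 x04, dy_self, yn 6 4 y64]
    · simp [redG, w1 0 5 x05, yz 4 5 l4, yn 6 5 y65]
    · simp [redG, w1 0 6 x06, yn 4 6 y46, dy_self]
    · simp [redG, w1 0 7 x07, yn 4 7 y47, yz 6 7 l6]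
    · simp [redG, w1 0 8 x08, yn 4 8 y48, yn 6 8 y68]
    · simp [redG, xz 9 (by decide) zx, yn 4 9 z4, yn 6 9 z6]
  have s2 := b2 p q n i m hi hn a4 a6 an
  change _ ≤ _ + (finrank K1 (H0 _ _ P1 (redG P1 0 4 6 (n + i) m)) : ℤ) at s2
  rw [r1] at s2
  have s1 := b1 (p - (n + i)) (q - 2 * ((n + i + 1) / 2)) κ ε ![m 0 - (n + i), m 1, m 2 - (n + i),
    m 3, m 4 - (n + i + 1) / 2, m 5 - (n + i + 1) / 2, m 6 - (n + i + 1) / 2,
    m 7 - (n + i + 1) / 2, m 8, m 9 - (n + i)] hε hκ (by simp; omega) (by simp; omega)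
    (by simp; omega)
  rw [add_assoc]
  refine s2.trans (add_le_add_right (s1.trans (add_le_add_right (Int.ofNat_le.2
    (Submodule.finrank_mono (H0_le fun l => .inr ⟨l.castSucc, ?_, h.pt l, ?_⟩))) _)) _)
  · fin_cases l <;>
      simp [redG, m4, Q, dx_self, dy_self, x40, x41, x42, x43, x45, x47, f6, f8, l0, l2, y02, y03,
        y04, y05, y06, y07, y08, y20, y21, y24, y25, y26, y27, y28] <;>
      omega
  · fin_cases l <;> exact ⟨dx_self _, dy_self _⟩

end Pool.Agent.Lib.MP_d03834_ag.Core
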