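import Pool.Agent.Lib.MP_d03834_ag.Core.DownSh
import Pool.Agent.Lib.MP_d03834_ag.Core.T5G

/-! The fold in the graph frame, with one moving point. -/

set_option autoImplicit false

namespace Pool.Agent.Lib.MP_d03834_ag.Core

open Module

/-- multiplicities of a class of degree p in x orthogonal to A, B, C (graph frame) -/
def dnM (p bb : ℤ) (me : Fin 5 → ℤ) : Ix → ℤ
  | .inl i => me i
  | .inr (.inl s) => ![bb, p - bb] s
  | .inr (.inr s) => ![p - bb, bb] s

/-- the canonical degree -/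
def dnK (qq : ℤ) (me : Fin 5 → ℤ) : ℤ := ∑ i, me i - 2 * qq

/-- the class after j twists; read with ε = j - dnK qq me -/
def dnU (p qq bb : ℤ) (me : Fin 5 → ℤ) (j : ℤ) : CL :=
  ((p - 2 * dnK qq me, qq - 2 * dnK qq me), fun i => me i - dnK qq me, ![p - 2 * bb, j])

/-- the points of c over L, the free point e 2 moved off R by δ -/
def Cfg.mv {O k : Type} [CommRing O] [Field k] (A : Arc O k) (c : Cfg O k) {L : Type} [Field L]
    (f : O →+* L) (δ : L) : Ix → Fin 4 → L :=
  grP (fun i => f (c.z i)) (fun i => f (c.η i) + if i = 2 then δ else 0)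
    (fun s => f (A.t * c.al s)) (fun s => f (A.t * c.be s)) (f A.t)

/-- multiplicities in the fibre frame -/
def dnF (p qq bb : ℤ) (me : Fin 5 → ℤ) : Ix → ℤ
  | .inl i => ![me 0, me 1, me 2, qq - me 3, qq - me 4] i
  | .inr (.inl s) => ![qq - bb, p - bb] s
  | .inr (.inr s) => ![qq - p + bb, bb] s

/-- multiplicities in the fibre frame after j twists -/
def dnR (p qq bb : ℤ) (me : Fin 5 → ℤ) (j : ℤ) : Ix → ℤ
  | .inl i => ![me 0 - j, me 1 - j, me 2 - j, qq - me 3, qq - me 4] i
  | .inr (.inl s) => ![qq - bb - (j + 1) / 2, p - bb - (j + 1) / 2] s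
  | .inr (.inr s) => ![qq - p + bb - (j + 1) / 2, bb - (j + 1) / 2] s

open PowerSeries in
/-- the fold over a field -/
theorem gr_t5 {K : Type} [Field K] {z η : Fin 5 → K} {a b : Fin 2 → K} {t la mu : K} (ht : t ≠ 0)
    (hm : mu ≠ 0) (hR : ∀ i, (z i - a 0) * (t * η i - 1) = (z i - b 0) * (la + mu * z i))
    (hab : b 0 ≠ a 0) (hza : ∀ i, z i ≠ a 0) (hzb : ∀ i, z i ≠ b 0) (h1 : a 1 ≠ a 0)
    (h2 : a 1 ≠ b 0) (h3 : b 1 ≠ a 0) (h4 : b 1 ≠ b 0) (hz : ∀ i j, i ≠ j → z i ≠ z j)
    (h0 : ∀ i, la + mu * z i ≠ 0) (ha : la + mu * a 0 ≠ 0) (hb : la + mu * b 1 ≠ 0) :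
    ∃ (L : Type) (_ : Field L) (g : K →+* L) (δ : L), (∀ y w : K, y ≠ 0 → g y + g w * δ ≠ 0) ∧
      ∀ (p qq bb ε : ℤ) (me : Fin 5 → ℤ), ε = 0 ∨ ε = 1 → 0 ≤ dnK qq me + ε →
        (finrank L (H0 p qq (grP (fun i => g (z i)) (fun i => g (η i) + if i = 2 then δ else 0)
          (fun s => g (a s)) (fun s => g (b s)) (g t)) (dnM p bb me)) : ℤ) ≤
          ε * ((dnK qq me + 2) / 2) + finrank K (H0 (qq - (dnK qq me + ε))
            (qq + qq - me 3 - me 4 - 2 * ((dnK qq me + ε + 1) / 2)) (fbP z a b la mu)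
            (dnR p qq bb me (dnK qq me + ε))) := by
  have hi := IsFractionRing.injective (PowerSeries K) (FractionRing (PowerSeries K))
  have hπ : ∀ x : PowerSeries K, constantCoeff x ≠ 0 → IsUnit x := fun _ h =>
    isUnit_iff_constantCoeff.2 (Ne.isUnit h)
  generalize hj : algebraMap (PowerSeries K) (FractionRing (PowerSeries K)) = j at hi
  have nz : ∀ x : PowerSeries K, constantCoeff x ≠ 0 → j x ≠ 0 := fun x hx e =>
    hx (by rw [hi (e.trans (map_zero j).symm), map_zero])
  have d := fun i l (h : i ≠ l) => sub_ne_zero.2 (hz i l h)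
  obtain ⟨g, hg⟩ : ∃ g : K →+* FractionRing (PowerSeries K), g = j.comp C := ⟨_, rfl⟩
  have gC : ∀ x, j (C x) = g x := fun x => by rw [hg, RingHom.comp_apply]
  have gn : ∀ {x y : K}, x ≠ y → g x ≠ g y := fun h => g.injective.ne h
  have g0 : ∀ {x : K}, x ≠ 0 → g x ≠ 0 := fun h => (map_ne_zero g).2 h
  have gl : ∀ {x : K}, la + mu * x ≠ 0 → g la + g mu * g x ≠ 0 := fun h => by
    rw [← map_mul, ← map_add]
    exact g0 h
  have gX : ∀ y w : K, y ≠ 0 → g y + g w * j X ≠ 0 := fun y w hy => by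
    rw [← gC, ← gC, ← map_mul, ← map_add]
    exact nz _ (by simpa using hy)
  obtain ⟨y, hy⟩ := (hπ (C (la + mu * z 2) + X) (by simpa using h0 2)).exists_left_inv
  obtain ⟨x, hx⟩ := (hπ ((C (mu * (z 3 - z 2)) - X) * C (z 2 - z 4)) (by
    simpa using ⟨⟨hm, d 3 2 (by decide)⟩, d 2 4 (by decide)⟩)).exists_left_inv
  have ry : constantCoeff y = (la + mu * z 2)⁻¹ := eq_inv_of_mul_eq_one_left (by
    simpa using congrArg constantCoeff hy)
  have rx : constantCoeff x ≠ 0 := fun e => by simpa [e] using congrArg constantCoeff hx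
  obtain ⟨P, hP⟩ : ∃ P : Ix → Fin 4 → PowerSeries K, P = fun l => if l = .inl 2 then
      ![X * (C (z 4 - z 3) * x), 1, y, 1]
      else fun c => C (fbN z a b la mu 0 (la + mu * z 2)⁻¹ l c) := ⟨_, rfl⟩
  have P0 : (fun l c => constantCoeff (P l c)) = fbN z a b la mu 0 (la + mu * z 2)⁻¹ := by
    funext l c
    by_cases e : l = .inl 2
    · subst e
      fin_cases c <;> simp [hP, fbN, ry]
    · simp [hP, e]
  have P1 : (fun l c => j (P l c)) = fbN (fun i => g (z i)) (fun s => g (a s)) (fun s => g (b s))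
      (g la) (g mu) (j (X * (C (z 4 - z 3) * x))) (j y) := by
    funext l c
    by_cases e : l = .inl 2
    · subst e
      fin_cases c <;> simp [hP, fbN]
    · rw [hP]
      simp only [if_neg e, gC, fbN_map]
      revert e
      revert l
      refine ix_all ?_ ?_ ?_ ?_ ?_ ?_ ?_ ?_ ?_ <;> intro e <;> first | rfl | exact absurd rfl e
  have i0 := fun i => inv_ne_zero (h0 i)
  have ii : ∀ i l : Fin 5, i ≠ l → (la + mu * z i)⁻¹ ≠ (la + mu * z l)⁻¹ := fun i l h e =>
    hz i l h (mul_left_cancel₀ hm (add_left_cancel (inv_injective e)))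
  obtain ⟨α, hα⟩ : ∃ α, α * (((la + mu * z 2)⁻¹ - (la + mu * z 0)⁻¹) *
      ((la + mu * z 2)⁻¹ - (la + mu * z 1)⁻¹)) =
      (z 4 - z 3) * constantCoeff x * (la + mu * z 2)⁻¹ :=
    ⟨_, div_mul_cancel₀ _ (mul_ne_zero (sub_ne_zero.2 (ii 2 0 (by decide)))
      (sub_ne_zero.2 (ii 2 1 (by decide))))⟩
  have α0 : α ≠ 0 := fun e => mul_ne_zero (mul_ne_zero (d 4 3 (by decide)) rx) (i0 2)
    (by rw [← hα, e, zero_mul])
  have T : T5 constantCoeff X P ![.inl 0, .inl 1, .inl 2] ![.inr (.inr 0), .inr (.inl 1)]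
      ![.inr (.inl 0), .inr (.inr 1)] ![0, 0, C (z 4 - z 3) * x]
      ![C (la + mu * z 0)⁻¹, C (la + mu * z 1)⁻¹, y] α
      (-(α * ((la + mu * z 0)⁻¹ + (la + mu * z 1)⁻¹)))
      (α * ((la + mu * z 0)⁻¹ * (la + mu * z 1)⁻¹)) := by
    refine ⟨?_, ⟨fun i => ?_, fun i l h => ?_, fun i => ?_, α0,
      mul_ne_zero α0 (mul_ne_zero (i0 0) (i0 1))⟩, fun i => ?_, fun s => ?_, fun s => ?_⟩
    · rw [P0]
      refine ⟨fbN_pt _ _ (hz 3 4 (by decide)) ha hb, fun s => ?_, fun s => ?_, fun s => ?_,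
        fun s => ?_, ?_, ?_⟩
      · fin_cases s <;> rfl
      · fin_cases s <;> rfl
      · fin_cases s <;> exact d 4 3 (by decide)
      · fin_cases s
        · exact mul_ne_zero (d 3 4 (by decide)) ha
        · exact mul_ne_zero (d 3 4 (by decide)) hb
      · have := mul_ne_zero (d 4 3 (by decide)) (sub_ne_zero.2 h2)
        simp only [fbN, fbA, dx, Matrix.cons_val_zero, Matrix.cons_val_one]
        exact fun e => this (by linear_combination e)
      · have := mul_ne_zero (mul_ne_zero (d 3 4 (by decide)) (h0 3))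
          (mul_ne_zero (h0 4) (sub_ne_zero.2 h3))
        simp only [fbN, fbB, dx, Matrix.cons_val_zero, Matrix.cons_val_one]
        exact fun e => this (by linear_combination -e)
    · fin_cases i
      · simpa using h0 0
      · simpa using h0 1
      · simpa [ry] using h0 2
    · have := ii 0 1 (by decide)
      have := ii 0 2 (by decide)
      have := ii 1 2 (by decide)
      have := ii 1 0 (by decide)
      have := ii 2 0 (by decide)
      have := ii 2 1 (by decide)
      fin_cases i <;> fin_cases l <;> first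
        | exact absurd rfl h
        | simp only [Fin.reduceFinMk, Fin.zero_eta, Fin.mk_one, Matrix.cons_val, constantCoeff_C,
            ry]
          assumption
    · fin_cases i <;> simp only [Fin.reduceFinMk, Fin.zero_eta, Fin.mk_one, Matrix.cons_val,
        constantCoeff_C, ry, map_zero, map_mul]
      · ring
      · ring
      · linear_combination -hα
    · fin_cases i <;> funext c <;> fin_cases c <;> simp [hP, fbN]
    · fin_cases s <;> simp [hP, fbN, fbA]
    · fin_cases s <;> simp [hP, fbN, fbB]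
  have n2 := mul_ne_zero ht (sub_ne_zero.2 (hza 2))
  refine ⟨_, inferInstance, g, g ((z 2 - b 0) / (t * (z 2 - a 0))) * j X, fun y w hy => by
    rw [← mul_assoc, ← map_mul]
    exact gX _ _ hy, fun p qq bb ε me hε hk => ?_⟩
  have s1 := gr_le_mdQ (z := fun i => g (z i))
    (η := fun i => g (η i) + if i = 2 then g ((z 2 - b 0) / (t * (z 2 - a 0))) * j X else 0)
    (v := fun i => g la + g mu * g (z i) + if i = 2 then j X else 0) (a := fun s => g (a s))
    (b := fun s => g (b s)) (g0 ht) (fun i => by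
      have e := congrArg g (hR i)
      have e' := congrArg g (div_mul_cancel₀ (z 2 - b 0) n2)
      simp only [map_mul, map_sub, map_add, map_one] at e e'
      split_ifs with h
      · subst h
        linear_combination e + j X * e'
      · linear_combination e)
    (gn hab) (fun i => gn (hza i)) (fun i => gn (hzb i)) (gn h1) (gn h2) (gn h3) (gn h4)
    p qq (dnM p bb me)
  have y1 := congrArg j hy
  have x1 := congrArg j hx
  simp only [map_mul, map_add, map_sub, map_one, gC] at y1 x1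
  have s2 := mdQ_le_fbN (z := fun i => g (z i))
    (v := fun i => g la + g mu * g (z i) + if i = 2 then j X else 0) (a := fun s => g (a s))
    (b := fun s => g (b s)) (la := g la) (mu := g mu) (ξ := j (X * (C (z 4 - z 3) * x)))
    (y := j y) (g0 hm) (fun i l h => gn (hz i l h)) (fun i h => by simp [h])
    (fun i => gl (h0 i)) (gl ha) (gl hb) (by simpa using y1)
    (fun e => gX (mu * (z 2 - z 3)) 1 (mul_ne_zero hm (d 2 3 (by decide))) (by
      simp only [if_true, if_neg (by decide : (3 : Fin 5) ≠ 2)] at e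
      simp only [map_mul, map_sub, map_one]
      linear_combination -e))
    (fun e => gX (mu * (z 2 - z 4)) 1 (mul_ne_zero hm (d 2 4 (by decide))) (by
      simp only [if_true, if_neg (by decide : (4 : Fin 5) ≠ 2)] at e
      simp only [map_mul, map_sub, map_one]
      linear_combination -e))
    (by
      simp only [if_true, if_neg (by decide : (3 : Fin 5) ≠ 2), if_neg (by decide : (4 : Fin 5) ≠ 2),
        map_mul, map_sub, gC]
      linear_combination (-(j X * (g (z 4) - g (z 3)))) * x1)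
    qq qq fun l => if l = .inr (.inl 0) ∨ l = .inr (.inr 0) then qq - dnM p bb me l
      else dnM p bb me l
  have e1 : p + qq - dnM p bb me (.inr (.inl 0)) - dnM p bb me (.inr (.inr 0)) = qq := by
    simp [dnM]
  have e2 : (fun l : Ix => if l = .inl 3 ∨ l = .inl 4 then qq - (if l = .inr (.inl 0) ∨
      l = .inr (.inr 0) then qq - dnM p bb me l else dnM p bb me l) else if l = .inr (.inl 0) ∨
      l = .inr (.inr 0) then qq - dnM p bb me l else dnM p bb me l) = dnF p qq bb me := by
    funext l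
    revert l
    refine ix_all ?_ ?_ ?_ ?_ ?_ ?_ ?_ ?_ ?_ <;> simp [dnM, dnF]
    ring
  rw [e1] at s1
  rw [e2, ← P1] at s2
  have s3 := t5_int (K := FractionRing (PowerSeries K)) hπ X_ne_zero constantCoeff_X T
    (p := qq) (q := qq + qq - me 3 - me 4) (κ := dnK qq me) (m := dnF p qq bb me) hε hk
    (by simp [dnF]) (by simp [dnF]) (by
      simp [dnF, dnK, Fin.sum_univ_five]
      omega)
  obtain ⟨n, hn⟩ := Int.eq_ofNat_of_zero_le hk
  have e3 : red (dnK qq me + ε).toNat (fbN z a b la mu 0 (la + mu * z 2)⁻¹) (dnF p qq bb me) =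
      dnR p qq bb me (dnK qq me + ε) := by
    have d43 := d 4 3 (by decide)
    have d34 := d 3 4 (by decide)
    rw [hn, Int.toNat_natCast]
    funext l
    revert l
    refine ix_all ?_ ?_ ?_ ?_ ?_ ?_ ?_ ?_ ?_ <;>
      simp [red, dnF, dnR, fbN, fbA, fbB, h0, ha, hb, d43, d34]
  rw [P0, e3, hj] at s3
  have s4 := Submodule.finrank_mono (fbN_le_fbP (hz 3 4 (by decide)) h0 ha hb
    (qq - (dnK qq me + ε)) (qq + qq - me 3 - me 4 - 2 * ((dnK qq me + ε + 1) / 2))
    (dnR p qq bb me (dnK qq me + ε)))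
  have s5 : finrank _ (H0 qq (qq + qq - me 3 - me 4) (fun l c => j (P l c)) (dnF p qq bb me)) ≥ _ :=
    s1.trans s2
  exact (Int.ofNat_le.2 s5).trans (s3.trans (add_le_add le_rfl (Int.ofNat_le.2 s4)))

/-- T5 in the graph frame -/
theorem Rex.t5 {O k : Type} [CommRing O] [IsDomain O] [Field k] {A : Arc O k} {c : Cfg O k}
    {la mu : O} (h : Rex A c la mu) (K : Type) [Field K] [CharZero K] [Algebra O K]
    (hi : Function.Injective (algebraMap O K)) :
    ∃ (L : Type) (_ : Field L) (g : K →+* L) (δ : L),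
      (∀ y w : K, y ≠ 0 → g y + g w * δ ≠ 0) ∧
      ∀ (p qq bb : ℤ) (me : Fin 5 → ℤ),
        (0 ≤ dnK qq me → finrank L (H0 p qq (c.mv A (g.comp (algebraMap O K)) δ) (dnM p bb me)) ≤
          finrank K (c.H A K 0 (dnU p qq bb me (dnK qq me)))) ∧
        (-1 ≤ dnK qq me → finrank L (H0 p qq (c.mv A (g.comp (algebraMap O K)) δ) (dnM p bb me)) ≤
          (dnK qq me / 2 + 1).toNat + finrank K (c.H A K 1 (dnU p qq bb me (dnK qq me + 1)))) := by
  have n : ∀ x y : O, x ≠ y → algebraMap O K (A.t * x) ≠ algebraMap O K (A.t * y) :=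
    fun x y hxy => hi.ne fun e => hxy (mul_left_cancel₀ A.t0 e)
  obtain ⟨L, _, g, δ, h1, h2⟩ := gr_t5 (z := fun i => algebraMap O K (c.z i))
    (η := fun i => algebraMap O K (c.η i)) (a := fun s => algebraMap O K (A.t * c.al s))
    (b := fun s => algebraMap O K (A.t * c.be s)) ((map_ne_zero_iff _ hi).2 A.t0)
    ((map_ne_zero_iff _ hi).2 h.mu0) (fun i => by simpa using congrArg (algebraMap O K) (h.R i))
    (n _ _ h.ba) (fun i => hi.ne (h.zt i _)) (fun i => hi.ne (h.zt i _)) (n _ _ h.aa) (n _ _ h.ab)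
    (n _ _ h.ba') (n _ _ h.bb) (fun i j hij => hi.ne (h.zz i j hij)) (fun _ => h.lin hi _)
    (h.lin hi _) (h.lin hi _)
  have key : ∀ (p qq bb ε : ℤ) (me : Fin 5 → ℤ), ε = 0 ∨ ε = 1 → 0 ≤ dnK qq me + ε →
      (finrank L (H0 p qq (c.mv A (g.comp (algebraMap O K)) δ) (dnM p bb me)) : ℤ) ≤
        ε * ((dnK qq me + 2) / 2) +
          finrank K (c.H A K ε (dnU p qq bb me (dnK qq me + ε))) := fun p qq bb ε me hε hk => by
    have e1 : dgy ε (dnU p qq bb me (dnK qq me + ε)) =
        qq - 2 * dnK qq me - (dnK qq me + ε) % 2 - 2 * ε := by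
      simp only [dgy, par, dnU, Matrix.cons_val_zero, Matrix.cons_val_one]
      omega
    have := h.le hi (p := qq - (dnK qq me + ε))
      (q := qq + qq - me 3 - me 4 - 2 * ((dnK qq me + ε + 1) / 2)) (ε := ε)
      (m := dnR p qq bb me (dnK qq me + ε)) (u := dnU p qq bb me (dnK qq me + ε))
      (by
        rw [e1]
        simp only [dnR, Matrix.cons_val]
        omega)
      (by
        rw [e1]
        simp only [dgx, dnU, dnR, Matrix.cons_val_zero]
        omega)
      (by
        rw [e1]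
        refine ix_all ?_ ?_ ?_ ?_ ?_ ?_ ?_ ?_ ?_ <;> simp [mlt, grM, dnU, dnR] <;> omega)
    exact (h2 p qq bb ε me hε hk).trans (add_le_add_right (by exact_mod_cast this) _)
  refine ⟨L, inferInstance, g, δ, h1, fun p qq bb me => ⟨fun hk => ?_, fun hk => ?_⟩⟩
  · have := key p qq bb 0 me (Or.inl rfl) (by omega)
    rw [add_zero] at this
    omega
  · have := key p qq bb 1 me (Or.inr rfl) (by omega)
    omega

end Pool.Agent.Lib.MP_d03834_ag.Core
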