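import Pool.Agent.Lib.MP_d03834_ag.Core.Frame

/-! The frame change with one more curve of bidegree (1, 1) through a 0, b 1, e 0, e 3. -/

set_option autoImplicit false

namespace Pool.Agent.Lib.MP_d03834_ag.Core.Fr

open MvPolynomial Module

section ring
variable {R S : Type} [CommRing R] [CommRing S]

/-- a bilinear form in the x part of X and the y part of Y -/
def bil (r X Y : Fin 4 → R) : R :=
  r 0 * X 0 * Y 2 + r 1 * X 0 * Y 3 + r 2 * X 1 * Y 2 + r 3 * X 1 * Y 3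

/-- the equation of the curve after the shear, polarised -/
def psi (r U W Z Y Y' : Fin 4 → R) : R :=
  Z 0 * dy U Y * bil r W Y' + Z 1 * dy W Y * bil r U Y'

/-- the coefficients of the curve in the toric chart -/
def rq (r : Fin 4 → R) (P : Ix → Fin 4 → R) : Fin 4 → R :=
  ![-(psi r (P (a 1)) (P (b 0)) (G P (e 0)) (P (e 3)) (P (e 0)) +
      psi r (P (a 1)) (P (b 0)) (G P (e 0)) (P (e 0)) (P (e 3))),
    psi r (P (a 1)) (P (b 0)) (G P (e 1)) (P (e 3)) (P (e 3)),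
    -(psi r (P (a 1)) (P (b 0)) (G P (e 1)) (P (e 3)) (P (e 0)) +
      psi r (P (a 1)) (P (b 0)) (G P (e 1)) (P (e 0)) (P (e 3))),
    psi r (P (a 1)) (P (b 0)) (G P (e 1)) (P (e 0)) (P (e 0))]

theorem psi_sh (r U W X : Fin 4 → R) :
    psi r U W (sh U W X) X X = dx U W * dy U X * dy W X * bil r X X := by
  simp [psi, sh, bil, dx]
  ring

theorem psi_y (r U W Z Y E F : Fin 4 → R) : dy E F ^ 2 * psi r U W Z Y Y =
    dy E Y ^ 2 * psi r U W Z F F - dy E Y * dy F Y * (psi r U W Z F E + psi r U W Z E F) +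
      dy F Y ^ 2 * psi r U W Z E E := by
  simp only [psi, bil, dy]
  ring

theorem psi_x (r U W Z Y Y' E F : Fin 4 → R) : dx E F * psi r U W Z Y Y' =
    dx E Z * psi r U W F Y Y' - dx F Z * psi r U W E Y Y' := by
  simp only [psi, dx]
  ring

theorem map_bil (f : R →+* S) (r X Y : Fin 4 → R) :
    bil (fun i => f (r i)) (fun i => f (X i)) (fun i => f (Y i)) = f (bil r X Y) := by simp [bil]

theorem map_rq (f : R →+* S) (r : Fin 4 → R) (P : Ix → Fin 4 → R) (c : Fin 4) :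
    rq (fun i => f (r i)) (fun l i => f (P l i)) c = f (rq r P c) := by
  fin_cases c <;> simp [rq, psi, map_G, map_dy, map_bil]

theorem rq_congr (r : Fin 4 → R) {P P' : Ix → Fin 4 → R}
    (h : ∀ l, l ≠ a 0 → l ≠ b 1 → P l = P' l) : rq r P = rq r P' := by
  have h1 : ∀ i, P (e i) = P' (e i) := fun i => h _ (by simp) (by simp)
  have h2 := h (a 1) (by simp) (by simp)
  have h3 := h (b 0) (by simp) (by simp)
  simp [rq, G, h1, h2, h3]

end ring

section field
variable {K : Type} [Field K]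

theorem psi_par {r U W Z Z' Y Y' : Fin 4 → K} (hZ : Pt Z') (h : dx Z Z' = 0)
    (h0 : psi r U W Z' Y Y' = 0) : psi r U W Z Y Y' = 0 := by
  simp only [psi, dx] at h h0 ⊢
  rcases hZ.1 with z | z
  · exact (mul_eq_zero.1 (by linear_combination Z 0 * h0 + dy W Y * bil r U Y' * h)).resolve_left z
  · exact (mul_eq_zero.1 (by linear_combination Z 1 * h0 - dy U Y * bil r W Y' * h)).resolve_left z

/-- the equation of the curve in the toric chart -/
theorem Grd.rel {P : Ix → Fin 4 → K} (h : Grd P) (hP : ∀ l, Pt (P l)) {r : Fin 4 → K}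
    (h0 : bil r (P (e 0)) (P (e 0)) = 0) (h3 : bil r (P (e 3)) (P (e 3)) = 0) (l : Ix)
    (hl : l = a 1 ∨ l = b 0 ∨ bil r (P l) (P l) = 0) :
    rq r P 0 * (T P l 0 * T P l 1 * T P l 2) =
      T P l 3 * (rq r P 1 * T P l 0 ^ 2 + rq r P 2 * (T P l 0 * T P l 1) + rq r P 3 * T P l 1 ^ 2) := by
  have z : ∀ l, l = a 1 ∨ l = b 0 ∨ bil r (P l) (P l) = 0 →
      psi r (P (a 1)) (P (b 0)) (G P l) (P l) (P l) = 0 := by
    intro l hl
    unfold G
    split_ifs with h1 h2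
    · simp [psi, h1, dy_self]
    · simp [psi, h2, dy_self]
    · rw [psi_sh, (hl.resolve_left h1).resolve_left h2, mul_zero]
  have z0 := z _ (.inr (.inr h0))
  have z3 := psi_par (Z := G P (e 0)) (h.pt hP _) (by rw [G_e, G_e, dx_sh]; exact h.u03)
    (z _ (.inr (.inr h3)))
  have x1 := psi_x r (P (a 1)) (P (b 0)) (G P l) (P l) (P l) (G P (e 0)) (G P (e 1))
  have y0 := psi_y r (P (a 1)) (P (b 0)) (G P (e 0)) (P l) (P (e 0)) (P (e 3))
  have y1 := psi_y r (P (a 1)) (P (b 0)) (G P (e 1)) (P l) (P (e 0)) (P (e 3))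
  rw [z l hl] at x1
  rw [z0, z3] at y0
  simp only [rq, T, Matrix.cons_val]
  linear_combination dy (P (e 0)) (P (e 3)) ^ 2 * x1 - dx (G P (e 1)) (G P l) * y0 +
    dx (G P (e 0)) (G P l) * y1

theorem bil_ne {r X Y : Fin 4 → K} (hr : r 0 * r 3 - r 1 * r 2 ≠ 0) (hX : Pt X)
    (h : bil r X X = 0) (hy : dy X Y ≠ 0) : bil r X Y ≠ 0 := fun z => by
  simp only [bil, dy] at h hy z
  rcases hX.1 with x | x
  · exact mul_ne_zero (mul_ne_zero hr x) hy (by
      linear_combination (r 3 * X 3 + r 2 * X 2) * z - (r 3 * Y 3 + r 2 * Y 2) * h)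
  · exact mul_ne_zero (mul_ne_zero hr x) hy (by
      linear_combination (r 0 * Y 2 + r 1 * Y 3) * h - (r 0 * X 2 + r 1 * X 3) * z)

/-- the direction of the curve at X, towards E -/
def dir (r X E : Fin 4 → K) : Fin 4 → K :=
  ![-bil r X E * E 0, -bil r X E * E 1, bil r E X * E 2, bil r E X * E 3]

theorem bil_dir {r X E : Fin 4 → K} (hX : bil r X X = 0) (hE : bil r E E = 0)
    {V : Fin 4 → PowerSeries K}
    (hV : ∀ i, V i = PowerSeries.C (X i) + PowerSeries.X * PowerSeries.C (dir r X E i)) :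
    bil (fun i => PowerSeries.C (r i)) V V = 0 := by
  have : bil (fun i => PowerSeries.C (r i)) V V = PowerSeries.C (bil r X X) -
      PowerSeries.X ^ 2 * PowerSeries.C (bil r X E * bil r E X * bil r E E) := by
    simp only [bil, hV, dir, Matrix.cons_val, map_add, map_mul, map_neg]
    ring
  rw [this, hX, hE, mul_zero, map_zero, mul_zero, sub_zero]

/-- the frame change for twelve points -/
theorem Grl.exR {P : Ix → Fin 4 → K} (h : Grl P) {r : Fin 4 → K} (hr : r 0 * r 3 - r 1 * r 2 ≠ 0)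
    (h0 : bil r (P (e 0)) (P (e 0)) = 0) (h3 : bil r (P (e 3)) (P (e 3)) = 0)
    (ha : bil r (P (a 0)) (P (a 0)) = 0) (hb : bil r (P (b 1)) (P (b 1)) = 0) :
    ∃ (L : Type) (_ : Field L) (g : K →+* L) (Q : Fin 5 → Fin 4 → L), (∀ i c, Q i c ≠ 0) ∧
      (∀ i, i ≠ 4 → g (rq r P 0) * (Q i 0 * Q i 1 * Q i 2) = Q i 3 * (g (rq r P 1) * Q i 0 ^ 2 +
        g (rq r P 2) * (Q i 0 * Q i 1) + g (rq r P 3) * Q i 1 ^ 2)) ∧
      ∀ (p q : ℤ) (k : Fin 4 → ℤ) (m : Fin 5 → ℤ),
        finrank L (H0 p q (Sum.elim cor Q) (Sum.elim k m)) ≤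
        finrank K (H0 q (p + q - m 0 - m 1) P (mu k m (q - m 0) (q - m 1))) := by
  have yba : dy (P (b 0)) (P (a 1)) ≠ 0 := by rw [dy_comm]; exact neg_ne_zero.2 h.yab
  have ya0 : ∀ i, dy (P (e i)) (P (a 0)) ≠ 0 := fun i =>
    dy_ne (by rw [dy_comm]; exact neg_ne_zero.2 (h.ya i)) h.aa (h.pt _)
  have yb1 : ∀ i, dy (P (e i)) (P (b 1)) ≠ 0 := fun i =>
    dy_ne (by rw [dy_comm]; exact neg_ne_zero.2 (h.yb i)) h.bb (h.pt _)
  have dd : ∀ U X E : Fin 4 → K, dy U (dir r X E) = bil r E X * dy U E := fun U X E => by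
    simp [dy, dir]
    ring
  have hD : dy (P (a 1)) (dir r (P (a 0)) (P (e 0))) ≠ 0 := by
    rw [dd]; exact mul_ne_zero (bil_ne hr (h.pt _) h0 (ya0 0)) (h.ya 0)
  have hE : dy (P (b 0)) (dir r (P (b 1)) (P (e 0))) ≠ 0 := by
    rw [dd]; exact mul_ne_zero (bil_ne hr (h.pt _) h0 (yb1 0)) (h.yb 0)
  let L := FractionRing (PowerSeries K)
  let f := algebraMap (PowerSeries K) L
  have hi : Function.Injective f := IsFractionRing.injective _ _
  let P' := arc P (dir r (P (a 0)) (P (e 0))) (dir r (P (b 1)) (P (e 0)))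
  have hg := h.grd hD hE
  have n : ∀ l j, P l j ≠ 0 → f (P' l j) ≠ 0 := fun l j z =>
    (map_ne_zero_iff _ hi).2 (ne_res (congrFun (arc_res P _ _ l) j) z)
  have hp : ∀ l, Pt fun j => f (P' l j) := fun l =>
    ⟨(h.pt l).1.imp (n l 0) (n l 1), (h.pt l).2.imp (n l 2) (n l 3)⟩
  have fe : ∀ i, P' (e i) = fun j => PowerSeries.C (P (e i) j) := fun i =>
    arc_fix P _ _ (by simp) (by simp)
  refine ⟨L, inferInstance, f.comp PowerSeries.C, _, (h.le hD hE L).1, fun i hi4 => ?_,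
    (h.le hD hE L).2⟩
  · have mb : ∀ l, bil (fun i => PowerSeries.C (r i)) (P' l) (P' l) = 0 →
        bil (fun i => f (PowerSeries.C (r i))) (fun j => f (P' l j)) (fun j => f (P' l j)) = 0 :=
      fun l z => by rw [map_bil, z, map_zero]
    have := (hg.map f hi).rel hp (r := fun i => f (PowerSeries.C (r i)))
      (mb _ (by rw [fe, map_bil, h0, map_zero])) (mb _ (by rw [fe, map_bil, h3, map_zero])) (tix i)
      (by
        fin_cases i
        · exact .inl rfl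
        · exact .inr (.inl rfl)
        · exact .inr (.inr (mb _ (bil_dir ha h0 fun i => by simp [P', arc, tix])))
        · exact .inr (.inr (mb _ (bil_dir hb h0 fun i => by simp [P', arc, tix])))
        · exact absurd rfl hi4)
    have e2 : rq (fun i => PowerSeries.C (r i)) P' = fun c => PowerSeries.C (rq r P c) := by
      rw [rq_congr _ (P' := fun l j => PowerSeries.C (P l j)) fun l h1 h2 => arc_fix P _ _ h1 h2]
      exact funext fun c => map_rq _ r P c
    simp only [map_rq f] at this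
    rw [e2] at this
    exact this

theorem Grl.rq_ne {P : Ix → Fin 4 → K} (h : Grl P) {r : Fin 4 → K}
    (hr : r 0 * r 3 - r 1 * r 2 ≠ 0) (h0 : bil r (P (e 0)) (P (e 0)) = 0)
    (h3 : bil r (P (e 3)) (P (e 3)) = 0) (ha : bil r (P (a 0)) (P (a 0)) = 0) : rq r P 0 ≠ 0 := by
  have n1 : bil r (P (a 1)) (P (a 1)) ≠ 0 := fun z => by
    have x := h.xaa
    have y := h.aa
    simp only [bil, dx, dy] at z ha x y
    have w : r 0 * P (a 0) 0 * P (a 1) 2 + r 1 * P (a 0) 0 * P (a 1) 3 +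
        r 2 * P (a 0) 1 * P (a 1) 2 + r 3 * P (a 0) 1 * P (a 1) 3 = 0 := by
      rcases (h.pt (a 0)).2 with t | t
      · exact (mul_eq_zero.1 (by
          linear_combination P (a 1) 2 * ha +
            (r 1 * P (a 0) 0 + r 3 * P (a 0) 1) * y)).resolve_left t
      · exact (mul_eq_zero.1 (by
          linear_combination P (a 1) 3 * ha -
            (r 0 * P (a 0) 0 + r 2 * P (a 0) 1) * y)).resolve_left t
    rcases (h.pt (a 1)).2 with t | t
    · exact mul_ne_zero (mul_ne_zero hr t) x (by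
        linear_combination (r 3 * P (a 1) 1 + r 1 * P (a 1) 0) * w -
          (r 3 * P (a 0) 1 + r 1 * P (a 0) 0) * z)
    · exact mul_ne_zero (mul_ne_zero hr t) x (by
        linear_combination (r 0 * P (a 0) 0 + r 2 * P (a 0) 1) * z -
          (r 0 * P (a 1) 0 + r 2 * P (a 1) 1) * w)
  have z0 : psi r (P (a 1)) (P (b 0)) (G P (e 0)) (P (e 0)) (P (e 0)) = 0 := by
    rw [G_e, psi_sh, h0, mul_zero]
  have z3 : psi r (P (a 1)) (P (b 0)) (G P (e 0)) (P (e 3)) (P (e 3)) = 0 :=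
    psi_par (Z' := G P (e 3)) ⟨by
      rw [G_e]
      exact (dx_two h.xab (h.pt _)).imp (mul_ne_zero (h.yb 3))
        fun z => neg_ne_zero.2 (mul_ne_zero (h.ya 3) z), by rw [G_e]; exact (h.pt _).2⟩
      (by rw [G_e, G_e, dx_sh]; exact h.u03) (by rw [G_e, psi_sh, h3, mul_zero])
  have y0 := psi_y r (P (a 1)) (P (b 0)) (G P (e 0)) (P (a 1)) (P (e 0)) (P (e 3))
  have y1 : psi r (P (a 1)) (P (b 0)) (G P (e 0)) (P (a 1)) (P (a 1)) ≠ 0 := by
    rw [psi, dy_self, mul_zero, zero_mul, zero_add, G_e, dy_comm (P (b 0))]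
    exact mul_ne_zero (mul_ne_zero (neg_ne_zero.2 (mul_ne_zero (h.ya 0) h.xb0))
      (neg_ne_zero.2 h.yab)) n1
  intro z
  rw [z0, z3, neg_eq_zero.1 z] at y0
  exact mul_ne_zero (pow_ne_zero 2 h.h03) y1 (by rw [y0]; ring)

/-- the frame change for twelve points, normalised -/
theorem Grl.exQ {P : Ix → Fin 4 → K} (h : Grl P) {r : Fin 4 → K} (hr : r 0 * r 3 - r 1 * r 2 ≠ 0)
    (h0 : bil r (P (e 0)) (P (e 0)) = 0) (h3 : bil r (P (e 3)) (P (e 3)) = 0)
    (ha : bil r (P (a 0)) (P (a 0)) = 0) (hb : bil r (P (b 1)) (P (b 1)) = 0) :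
    ∃ (L : Type) (_ : Field L) (_ : K →+* L) (al be ga : L) (Q : Fin 5 → Fin 4 → L),
      (∀ i c, Q i c ≠ 0) ∧ (∀ i, i ≠ 4 → Q i 0 * Q i 1 * Q i 2 =
        Q i 3 * (al * Q i 0 ^ 2 + be * Q i 0 * Q i 1 + ga * Q i 1 ^ 2)) ∧
      ∀ (p q : ℤ) (k : Fin 4 → ℤ) (m : Fin 5 → ℤ),
        finrank L (H0 p q (Sum.elim cor Q) (Sum.elim k m)) ≤
        finrank K (H0 q (p + q - m 0 - m 1) P (mu k m (q - m 0) (q - m 1))) := by
  obtain ⟨L, _, g, Q, h1, h2, h4⟩ := h.exR hr h0 h3 ha hb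
  have n : g (rq r P 0) ≠ 0 := (map_ne_zero g).2 (h.rq_ne hr h0 h3 ha)
  refine ⟨L, inferInstance, g, g (rq r P 1) / g (rq r P 0), g (rq r P 2) / g (rq r P 0),
    g (rq r P 3) / g (rq r P 0), Q, h1, fun i hi => ?_, h4⟩
  have := h2 i hi
  field_simp
  linear_combination this

end field

end Pool.Agent.Lib.MP_d03834_ag.Core.Fr
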