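import Pool.Agent.Lib.MP_d03834_ag.Core.ClE
import Pool.Agent.Lib.MP_d03834_ag.Core.ClDefs

/-! The bound for the sections in divisibility form, from the three moves and the last step. -/

set_option autoImplicit false

namespace Pool.Agent.Lib.MP_d03834_ag.Core

open Module

variable {O k Γ : Type} [CommRing O] [Field k] [LinearOrderedCommGroupWithZero Γ]

/-- the shear at two free points -/
def StepVC (A : Arc O k) (K : Type) [Field K] [Algebra O K] : Prop :=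
  ∀ (c : CCfg O k) (χ : CL → k) (u : CL) (i j : Fin 5), i ≠ j → Shp A c.toCfg χ → Ex A c →
    Sg χ u → (∀ s, 0 ≤ u.2.2 s) → u.1.1 < u.2.1 i + u.2.1 j →
    (∀ l r, l ≠ r → u.2.1 l + u.2.1 r ≤ u.2.1 i + u.2.1 j) → χ (aV i j) ≠ 1 →
    ∃ c' : CCfg O k, Shp A c'.toCfg (χ ∘ cD.rf (aV i j)) ∧ Ex A c' ∧ ∀ ε : ℤ, ε = 0 ∨ ε = 1 →
      finrank K (c.HC A K ε u) ≤ finrank K (c'.HC A K ε (cD.rf (aV i j) u))

/-- the shear at a point of A and a point of B -/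
def StepHC (A : Arc O k) (K : Type) [Field K] [Algebra O K] : Prop :=
  ∀ (c : CCfg O k) (χ : CL → k) (u : CL) (s : Fin 2), Shp A c.toCfg χ → Ex A c →
    Sg χ u → (∀ s, 0 ≤ u.2.2 s) → u.1.2 - u.1.1 < u.2.2 s → u.2.2 s.rev ≤ u.2.2 s →
    χ (aH s) ≠ 1 →
    ∃ c' : CCfg O k, Shp A c'.toCfg (χ ∘ cD.rf (aH s)) ∧ Ex A c' ∧ ∀ ε : ℤ, ε = 0 ∨ ε = 1 →
      finrank K (c.HC A K ε u) ≤ finrank K (c'.HC A K ε (cD.rf (aH s) u))

/-- the exchange of A and B -/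
def StepFC (A : Arc O k) (K : Type) [Field K] [Algebra O K] (v : Valuation k Γ) : Prop :=
  ∀ (c : CCfg O k) (χ : CL → k) (u : CL) (s : Fin 2), Shp A c.toCfg χ → Ex A c → IsCh χ →
    ∃ c' : CCfg O k, Shp A c'.toCfg (cD.lat.flip (Invo.one v) (eb s) χ) ∧ Ex A c' ∧ ∀ ε : ℤ,
      finrank K (c.HC A K ε u) ≤ finrank K (c'.HC A K ε (cD.lat.refl (eb s) u))

/-- the count for dominant classes -/
def EndC (A : Arc O k) (K : Type) [Field K] [Algebra O K] : Prop :=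
  ∀ (c : CCfg O k) (u : CL) (ε : ℤ), NdgC A c.toCfg → Ex A c → Dmn u → 0 < cip u u →
    ε = 0 ∨ ε = 1 → (finrank K (c.HC A K ε u) : ℤ) ≤ 1 + cip u u / 2

/-- a start state for the class u -/
structure Sta (A : Arc O k) (v : Valuation k Γ) (c : CCfg O k) (χ : CL → k) (u : CL) : Prop where
  shp : Shp A c.toCfg χ
  ex : Ex A c
  ch : IsCh χ
  le : ∀ g ∈ cD.lat.Λ, v (χ g) ≤ 1
  nb : ∀ g ∈ cD.lat.Λ, ¬Lat.Bk (Invo.one v) (χ g)
  M : u ∈ cD.M
  pos : cD.lat.Pos (Invo.one v) χ u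
  rt : ∀ α ∈ cD.lat.Φ, χ α = 1 → 0 < cip u α → 0 ≤ cip hC α

/-- the bound for all start states -/
def KPC (A : Arc O k) (K : Type) [Field K] [Algebra O K] (v : Valuation k Γ) : Prop :=
  ∀ (c : CCfg O k) (χ : CL → k) (u : CL) (ε : ℤ), Sta A v c χ u → ε = 0 ∨ ε = 1 →
    (0 < cip u u → (finrank K (c.HC A K ε u) : ℤ) ≤ 1 + cip u u / 2) ∧
      (cip u u < 0 → finrank K (c.HC A K ε u) = 0)

theorem Shp.ndgC {A : Arc O k} {c : Cfg O k} {χ : CL → k} (h : Shp A c χ) (hχ : IsCh χ) :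
    NdgC A c := ⟨h.z0, h.cur, h.N0, h.Q0 hχ, h.Q2 hχ, h.sl hχ⟩

theorem HC_neg (A : Arc O k) (K : Type) [Field K] [Algebra O K] (c : CCfg O k) {ε : ℤ}
    (hε : 0 ≤ ε) {u : CL} (h : u.1.1 + u.1.2 < 0) : finrank K (c.HC A K ε u) = 0 := by
  have : c.HC A K ε u = ⊥ := (Submodule.eq_bot_iff _).2 fun F hF =>
    (mem_HD.1 hF).1.neg_deg (by
      simp only [dgx, dgy, par]
      omega)
  rw [this, finrank_bot]

theorem kpc_of {A : Arc O k} {K : Type} [Field K] [Algebra O K] {v : Valuation k Γ}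
    (hV : StepVC A K) (hH : StepHC A K) (hF : StepFC A K v) (hE : EndC A K) : KPC A K v := by
  intro c χ u ε hs hε
  have key : ∀ r : ℤ, 0 ≤ r → (∀ (c : CCfg O k) (w : CL), NdgC A c.toCfg → Ex A c → Dmn w →
      cip w w = cip u u → (finrank K (c.HC A K ε w) : ℤ) ≤ r) →
      (finrank K (c.HC A K ε u) : ℤ) ≤ r := fun r hr hfin =>
    kpe_base (v := v) (cip u u) (fun (c : CCfg O k) χ => Shp A c.toCfg χ ∧ Ex A c)
      (fun c w => (finrank K (c.HC A K ε w) : ℤ) ≤ r)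
      (fun c χ w i j hij h h1 h2 h3 h4 h5 => by
        obtain ⟨c', a1, a2, a3⟩ := hV c χ w i j hij h.1 h.2 h1 h2 h3 h4 h5
        exact ⟨c', ⟨a1, a2⟩, fun g => le_trans (by exact_mod_cast a3 ε hε) g⟩)
      (fun c χ w s h h1 h2 h3 h4 h5 => by
        obtain ⟨c', a1, a2, a3⟩ := hH c χ w s h.1 h.2 h1 h2 h3 h4 h5
        exact ⟨c', ⟨a1, a2⟩, fun g => le_trans (by exact_mod_cast a3 ε hε) g⟩)
      (fun c χ w s h h1 _ _ => by
        obtain ⟨c', a1, a2, a3⟩ := hF c χ w s h.1 h.2 h1.ch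
        exact ⟨c', ⟨a1, a2⟩, fun g => le_trans (by exact_mod_cast a3 ε) g⟩)
      (fun c _ w _ h => by
        rw [HC_neg A K c (by omega) h]
        exact_mod_cast hr)
      (fun c χ w h h1 h2 h3 => hfin c w (h.1.ndgC h1.ch) h.2 h2 h3)
      ⟨hs.shp, hs.ex⟩ hs.ch hs.le hs.nb hs.M hs.pos hs.rt rfl
  refine ⟨fun h => key _ (by omega) fun c w h1 h2 h3 h4 => ?_, fun h => ?_⟩
  · have := hE c w ε h1 h2 h3 (by omega) hε
    rwa [h4] at this
  · have := key 0 le_rfl fun c w _ _ h3 h4 => absurd h3.sq (by omega)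
    omega

end Pool.Agent.Lib.MP_d03834_ag.Core
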