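import Mathlib

/-! Window arithmetic for twelve points. -/

set_option autoImplicit false

namespace Pool.Agent.Lib.MP_d03834_ag.Core

/-- square of the class on the quotient -/
def dy2 (dl al me p : ℤ) : ℤ :=
  2 * (dl / 2) * (dl - dl / 2) - p ^ 2 - 2 * (((me + 1) / 2) ^ 2 + (me / 2) ^ 2) - 4 * al ^ 2

/-- canonical degree of the class on the quotient -/
def dk (dl al me p : ℤ) : ℤ := 4 * al + p + 2 * me - 2 * dl

/-- the class is not negative on the effective roots and on the unit lines -/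
def DPos (dl al me p : ℤ) : Prop :=
  0 ≤ al ∧ 0 ≤ me ∧ 0 ≤ p ∧ 2 * me ≤ dl ∧ 2 * al ≤ dl / 2 ∧ 2 * al + 2 * ((me + 1) / 2) ≤ dl ∧
    -1 ≤ dk dl al me p ∧ dk dl al me p + 1 ≤ 2 * dl - 4 * al - 2 * me

instance (dl al me p : ℤ) : Decidable (DPos dl al me p) := by
  unfold DPos
  infer_instance

/-- the bound for a class of square y and canonical degree k -/
def db (y k : ℤ) : ℤ :=
  if y < 0 then 0 else if y < 2 * k + 1 then k / 2 + 1 else if y = 2 * k + 1 then k + 1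
    else 1 + (y - k) / 2

theorem db_le (y k : ℤ) (hk : 0 ≤ k) : (y < 0 ∧ db y k = 0) ∨
    (0 ≤ y ∧ 2 * db y k ≤ 2 * k + 2) ∨ (0 ≤ y ∧ 2 * db y k ≤ 2 + y - k) := by
  unfold db
  split_ifs <;> omega

theorem dy2_two (dl al me p : ℤ) :
    2 * dy2 dl al me p = dl ^ 2 - dl % 2 - 2 * p ^ 2 - 2 * me ^ 2 - 2 * (me % 2) - 8 * al ^ 2 := by
  unfold dy2
  obtain ⟨a, i, rfl, hi⟩ : ∃ a i : ℤ, dl = 2 * a + i ∧ (i = 0 ∨ i = 1) :=
    ⟨dl / 2, dl % 2, by omega, by omega⟩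
  obtain ⟨b, j, rfl, hj⟩ : ∃ b j : ℤ, me = 2 * b + j ∧ (j = 0 ∨ j = 1) :=
    ⟨me / 2, me % 2, by omega, by omega⟩
  have e1 : (2 * a + i) / 2 = a := by omega
  have e2 : (2 * a + i) % 2 = i := by omega
  have e3 : (2 * b + j) / 2 = b := by omega
  have e4 : (2 * b + j) % 2 = j := by omega
  have e5 : (2 * b + j + 1) / 2 = b + j := by omega
  rw [e1, e2, e3, e4, e5]
  rcases hi with rfl | rfl <;> rcases hj with rfl | rfl <;> ring

theorem dy2_par (dl al me p : ℤ) : (dy2 dl al me p - dk dl al me p) % 2 = 0 := by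
  unfold dy2 dk
  have : ∃ c, p ^ 2 + p = 2 * c := by
    obtain ⟨c, hc⟩ := Int.even_mul_succ_self p
    exact ⟨c, by linarith⟩
  obtain ⟨c, hc⟩ := this
  generalize dl / 2 * (dl - dl / 2) = A at *
  have e : 2 * (dl / 2) * (dl - dl / 2) - p ^ 2 - 2 * (((me + 1) / 2) ^ 2 + (me / 2) ^ 2) -
      4 * al ^ 2 - (4 * al + p + 2 * me - 2 * dl) = 2 * ((dl / 2) * (dl - dl / 2) - c -
      (((me + 1) / 2) ^ 2 + (me / 2) ^ 2) - 2 * al ^ 2 - 2 * al - me + dl) := by linarith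
  rw [e]
  omega

theorem n12_lin {m d : ℤ} (hm : 2 ≤ m) (hd : 0 ≤ d) (h1 : d * (d + 1) ≤ 12 * (m * (m + 1)))
    (h2 : 12 * (m * (m + 1)) < (d + 2) * (d + 3)) :
    15 * d ≤ 52 * m + 19 ∧ 45 * m ≤ 13 * d + 11 := by
  constructor
  · by_contra h
    push Not at h
    nlinarith
  · by_contra h
    push Not at h
    nlinarith

/-- the conclusion of the window arithmetic -/
def N12ok (m d : ℤ) : Prop :=
  1 ≤ 4 * m - d ∧ 1 ≤ d - 3 * m ∧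
    DPos (3 * d - 8 * m) (d - 3 * m) m m ∧ DPos (3 * d - 8 * m - 1) (d - 3 * m) (m - 1) m ∧
    DPos (3 * d - 8 * m - 2) (d - 3 * m - 1) m m ∧
    DPos (3 * d - 8 * m - 3) (d - 3 * m - 1) (m - 1) m ∧
    2 * (db (dy2 (3 * d - 8 * m) (d - 3 * m) m m) (7 * m - 2 * d) +
      db (dy2 (3 * d - 8 * m - 1) (d - 3 * m) (m - 1) m) (7 * m - 2 * d)) ≤
      max 0 ((d + 1) * (d + 2) - 12 * (m * (m + 1))) + 2 * (4 * m - d) ∧
    2 * (db (dy2 (3 * d - 8 * m - 2) (d - 3 * m - 1) m m) (7 * m - 2 * d) +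
      db (dy2 (3 * d - 8 * m - 3) (d - 3 * m - 1) (m - 1) m) (7 * m - 2 * d)) ≤
      max 0 ((d + 1) * (d + 2) - 12 * (m * (m + 1)))

instance (m d : ℤ) : Decidable (N12ok m d) := by
  unfold N12ok
  infer_instance

theorem n12_big {m d : ℤ} (hm : 40 ≤ m) (hd : 0 ≤ d) (h1 : d * (d + 1) ≤ 12 * (m * (m + 1)))
    (h2 : 12 * (m * (m + 1)) < (d + 2) * (d + 3)) : N12ok m d := by
  obtain ⟨l1, l2⟩ := n12_lin (by omega) hd h1 h2
  have a1 := dy2_two (3 * d - 8 * m) (d - 3 * m) m m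
  have a2 := dy2_two (3 * d - 8 * m - 1) (d - 3 * m) (m - 1) m
  have a3 := dy2_two (3 * d - 8 * m - 2) (d - 3 * m - 1) m m
  have a4 := dy2_two (3 * d - 8 * m - 3) (d - 3 * m - 1) (m - 1) m
  unfold N12ok
  generalize dy2 (3 * d - 8 * m) (d - 3 * m) m m = y1 at *
  generalize dy2 (3 * d - 8 * m - 1) (d - 3 * m) (m - 1) m = y2 at *
  generalize dy2 (3 * d - 8 * m - 2) (d - 3 * m - 1) m m = y3 at *
  generalize dy2 (3 * d - 8 * m - 3) (d - 3 * m - 1) (m - 1) m = y4 at *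
  obtain ⟨w, hw⟩ : ∃ w, w = (d + 1) * (d + 2) - 12 * (m * (m + 1)) := ⟨_, rfl⟩
  rw [← hw]
  have w1 : w ≤ 2 * d + 2 := by nlinarith
  have w2 : -(2 * d + 4) < w := by nlinarith
  have c1 : 2 * y1 = w - 3 * d - 2 + 12 * m - (3 * d - 8 * m) % 2 - 2 * (m % 2) := by
    rw [a1, hw]; ring
  have c2 : 2 * y2 = w - 9 * d - 3 + 32 * m - (3 * d - 8 * m - 1) % 2 - 2 * ((m - 1) % 2) := by
    rw [a2, hw]; ring
  have c3 : 2 * y3 = w + d - 6 - 4 * m - (3 * d - 8 * m - 2) % 2 - 2 * (m % 2) := by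
    rw [a3, hw]; ring
  have c4 : 2 * y4 = w - 5 * d - 3 + 16 * m - (3 * d - 8 * m - 3) % 2 - 2 * ((m - 1) % 2) := by
    rw [a4, hw]; ring
  clear a1 a2 a3 a4 hw h1 h2
  have hk : 0 ≤ 7 * m - 2 * d := by omega
  have f1 := db_le y1 _ hk
  have f2 := db_le y2 _ hk
  have f3 := db_le y3 _ hk
  have f4 := db_le y4 _ hk
  generalize db y1 (7 * m - 2 * d) = u1 at *
  generalize db y2 (7 * m - 2 * d) = u2 at *
  generalize db y3 (7 * m - 2 * d) = u3 at *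
  generalize db y4 (7 * m - 2 * d) = u4 at *
  have g1 : (3 * d - 8 * m) % 2 + (3 * d - 8 * m - 1) % 2 = 1 := by omega
  have g2 : m % 2 + (m - 1) % 2 = 1 := by omega
  have g3 : (3 * d - 8 * m - 2) % 2 + (3 * d - 8 * m - 3) % 2 = 1 := by omega
  have g4 : 0 ≤ (3 * d - 8 * m) % 2 ∧ 0 ≤ (3 * d - 8 * m - 1) % 2 ∧ 0 ≤ m % 2 ∧ 0 ≤ (m - 1) % 2 ∧
    0 ≤ (3 * d - 8 * m - 2) % 2 ∧ 0 ≤ (3 * d - 8 * m - 3) % 2 := by omega
  refine ⟨by omega, by omega, ?_, ?_, ?_, ?_, ?_, ?_⟩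
  · clear c1 c2 c3 c4 f1 f2 f3 f4 g1 g2 g3 g4
    unfold DPos dk
    omega
  · clear c1 c2 c3 c4 f1 f2 f3 f4 g1 g2 g3 g4
    unfold DPos dk
    omega
  · clear c1 c2 c3 c4 f1 f2 f3 f4 g1 g2 g3 g4
    unfold DPos dk
    omega
  · clear c1 c2 c3 c4 f1 f2 f3 f4 g1 g2 g3 g4
    unfold DPos dk
    omega
  · generalize (3 * d - 8 * m) % 2 = i1 at *
    generalize (3 * d - 8 * m - 1) % 2 = i2 at *
    generalize (m - 1) % 2 = j2 at *
    generalize m % 2 = j1 at *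
    clear c3 c4 f3 f4 g3
    omega
  · generalize (3 * d - 8 * m - 2) % 2 = i1 at *
    generalize (3 * d - 8 * m - 3) % 2 = i2 at *
    generalize (m - 1) % 2 = j2 at *
    generalize m % 2 = j1 at *
    clear c1 c2 f1 f2 g1
    omega

theorem n12_small : ∀ m ∈ Finset.Icc (2 : ℤ) 39, ∀ j ∈ Finset.Icc (0 : ℤ) 2,
    ∀ d ∈ ({(45 * m + 1) / 13 + j} : Finset ℤ), d * (d + 1) ≤ 12 * (m * (m + 1)) →
    12 * (m * (m + 1)) < (d + 2) * (d + 3) →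
    (m, d) ∈ ({(2, 7), (2, 8), (3, 10), (4, 15), (5, 17), (6, 20), (8, 27)} : Finset (ℤ × ℤ)) ∨
      N12ok m d := by
  decide +kernel

/-- window arithmetic for twelve points -/
theorem n12_ar {m d : ℤ} (hm : 2 ≤ m) (hd : 0 ≤ d) (h1 : d * (d + 1) ≤ 12 * (m * (m + 1)))
    (h2 : 12 * (m * (m + 1)) < (d + 2) * (d + 3)) :
    (m, d) ∈ ({(2, 7), (2, 8), (3, 10), (4, 15), (5, 17), (6, 20), (8, 27)} : Finset (ℤ × ℤ)) ∨
      N12ok m d := by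
  rcases le_or_gt 40 m with h | h
  · exact Or.inr (n12_big h hd h1 h2)
  · obtain ⟨l1, l2⟩ := n12_lin hm hd h1 h2
    exact n12_small m (Finset.mem_Icc.2 ⟨hm, by omega⟩) (d - (45 * m + 1) / 13)
      (Finset.mem_Icc.2 ⟨by omega, by omega⟩) d (by simp) h1 h2

theorem n12_small2 : ∀ m ∈ Finset.Icc (2 : ℤ) 39, ∀ j ∈ Finset.Icc (0 : ℤ) 2,
    ∀ d ∈ ({(45 * m + 1) / 13 + j} : Finset ℤ), d * (d + 1) ≤ 12 * (m * (m + 1)) →
    7 * m - 2 * d = -1 → 0 < dy2 (3 * d - 8 * m) (d - 3 * m) m m ∧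
      0 < dy2 (3 * d - 8 * m - 1) (d - 3 * m) (m - 1) m ∧
      0 < dy2 (3 * d - 8 * m - 2) (d - 3 * m - 1) m m ∧
      0 < dy2 (3 * d - 8 * m - 3) (d - 3 * m - 1) (m - 1) m := by
  decide +kernel

/-- for canonical degree -1 the four squares are positive -/
theorem n12_neg {m d : ℤ} (hm : 2 ≤ m) (hd : 0 ≤ d) (h1 : d * (d + 1) ≤ 12 * (m * (m + 1)))
    (h2 : 12 * (m * (m + 1)) < (d + 2) * (d + 3)) (hk : 7 * m - 2 * d = -1) :
    0 < dy2 (3 * d - 8 * m) (d - 3 * m) m m ∧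
      0 < dy2 (3 * d - 8 * m - 1) (d - 3 * m) (m - 1) m ∧
      0 < dy2 (3 * d - 8 * m - 2) (d - 3 * m - 1) m m ∧
      0 < dy2 (3 * d - 8 * m - 3) (d - 3 * m - 1) (m - 1) m := by
  obtain ⟨l1, l2⟩ := n12_lin hm hd h1 h2
  exact n12_small2 m (Finset.mem_Icc.2 ⟨hm, by omega⟩) (d - (45 * m + 1) / 13)
    (Finset.mem_Icc.2 ⟨by omega, by omega⟩) d (by simp) h1 hk

end Pool.Agent.Lib.MP_d03834_ag.Core
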