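import Pool.Agent.Lib.MP_d03834_ag.Core.N15Defs
import Pool.Agent.Lib.MP_d03834_ag.Core.N12Ar

/-! Twelve points: the statement on the quotient. -/

set_option autoImplicit false

namespace Pool.Agent.Lib.MP_d03834_ag.Core

open MvPolynomial Module

/-- the point lies on a curve of bidegree (2, 1) through the corners 1 and 3 -/
def OnQ {K : Type} [CommRing K] (α β γ : K) (Q : Fin 4 → K) : Prop :=
  Q 0 * Q 1 * Q 2 = Q 3 * (α * Q 0 ^ 2 + β * Q 0 * Q 1 + γ * Q 1 ^ 2)

/-- the bounds on one configuration of five points of the torus, four of them on the curve -/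
def Down12 : Prop :=
  ∃ (K : Type) (_ : Field K) (_ : Algebra ℂ K) (α β γ : K) (Q : Fin 5 → Fin 4 → K),
    (∀ i c, Q i c ≠ 0) ∧ (∀ i, i ≠ 4 → OnQ α β γ (Q i)) ∧
    ∀ g al me p : ℤ, DPos g al me p → me ≤ p → p ≤ me + 1 → 0 ≤ dk g al me p →
      dk g al me p + 1 ≤ al → 2 * dk g al me p + 3 ≤ me →
      (finrank K (H0 (pa g me me) (g / 2) (Sum.elim cor Q)
        (Sum.elim (pk g me me) ![al, al, al, al, p])) : ℤ) ≤ db (dy2 g al me p) (dk g al me p)

end Pool.Agent.Lib.MP_d03834_ag.Core
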