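import Mathlib

/-! The tower of fields of Laurent series, injective maps from polynomial rings into it, and the
valuation at the origin of a field of rational functions with a calculus of leading terms. -/

set_option autoImplicit false

namespace Pool.Agent.Lib.MP_d03834_ag.Core

open Function

/-- the field of fractions of the ring of power series -/
abbrev LS (K : Type) [Field K] : Type := FractionRing (PowerSeries K)

section inst
variable (K : Type) [Field K]

instance psVR : ValuationRing (PowerSeries K) := inferInstance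

instance psCZ [CharZero K] : CharZero (PowerSeries K) :=
  algebraRat.charZero _

instance lsCZ [CharZero K] : CharZero (LS K) :=
  charZero_of_injective_algebraMap (IsFractionRing.injective (PowerSeries K) (LS K))

noncomputable example : Field (LS K) := inferInstance
noncomputable example : Algebra (PowerSeries K) (LS K) := inferInstance
example : IsFractionRing (PowerSeries K) (LS K) := inferInstance
noncomputable example : Algebra K (LS K) := inferInstance
example : IsScalarTower K (PowerSeries K) (LS K) := inferInstance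
noncomputable example [Algebra ℂ K] : Algebra ℂ (PowerSeries K) := inferInstance
noncomputable example [Algebra ℂ K] : Algebra ℂ (LS K) := inferInstance
example [Algebra ℂ K] : IsScalarTower ℂ (PowerSeries K) (LS K) := inferInstance
example [Algebra ℂ K] : IsScalarTower ℂ K (LS K) := inferInstance
noncomputable example : Algebra ℂ (LS (LS (LS (RatFunc ℂ)))) := inferInstance
example : CharZero (LS (LS (LS (RatFunc ℂ)))) := inferInstance

/-- the residue map -/
noncomputable def psRes : PowerSeries K →+* K := PowerSeries.constantCoeff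

/-- the residue map as a map of algebras -/
noncomputable def psResA : PowerSeries K →ₐ[K] K :=
  { psRes K with commutes' := fun a => PowerSeries.constantCoeff_C a }

/-- power series inside their field of fractions -/
noncomputable def psIn : PowerSeries K →+* LS K := algebraMap _ _

/-- constants -/
noncomputable def lsC : K →+* LS K := (psIn K).comp PowerSeries.C

/-- the parameter -/
noncomputable def lsT : LS K := psIn K PowerSeries.X

variable {K}

theorem psRes_eq (a : PowerSeries K) : psRes K a = PowerSeries.constantCoeff a := rfl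

@[simp] theorem psResA_eq (a : PowerSeries K) : psResA K a = psRes K a := rfl

theorem psResA_coe : (psResA K : PowerSeries K →+* K) = psRes K := rfl

@[simp] theorem psRes_C (a : K) : psRes K (PowerSeries.C a) = a := PowerSeries.constantCoeff_C a

@[simp] theorem psRes_X : psRes K PowerSeries.X = 0 := PowerSeries.constantCoeff_X

@[simp] theorem psRes_alg (a : K) : psRes K (algebraMap K _ a) = a := PowerSeries.constantCoeff_C a

theorem psRes_unit (a : PowerSeries K) (h : psRes K a ≠ 0) : IsUnit a :=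
  PowerSeries.isUnit_iff_constantCoeff.2 (Ne.isUnit h)

theorem psRes_ker (a : PowerSeries K) : psRes K a = 0 ↔ PowerSeries.X ∣ a :=
  PowerSeries.X_dvd_iff.symm

theorem psRes_surj : Surjective (psRes K) := fun a => ⟨_, psRes_C a⟩

theorem psIn_eq (a : PowerSeries K) : psIn K a = algebraMap _ (LS K) a := rfl

theorem psIn_coe : psIn K = algebraMap _ (LS K) := rfl

theorem psIn_inj : Injective (psIn K) := IsFractionRing.injective _ _

theorem lsC_eq (a : K) : lsC K a = algebraMap (PowerSeries K) (LS K) (PowerSeries.C a) := rfl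

theorem lsC_alg (a : K) : lsC K a = algebraMap K (LS K) a := rfl

theorem lsC_coe : lsC K = algebraMap K (LS K) := rfl

theorem lsT_eq : lsT K = algebraMap (PowerSeries K) (LS K) PowerSeries.X := rfl

theorem lsT_ne : lsT K ≠ 0 := (map_ne_zero_iff _ psIn_inj).2 PowerSeries.X_ne_zero

theorem ps_ne_of_res {a : PowerSeries K} (h : psRes K a ≠ 0) : a ≠ 0 := fun e =>
  h (by rw [e, map_zero])

theorem ls_ne_of_res {a : PowerSeries K} (h : psRes K a ≠ 0) :
    algebraMap (PowerSeries K) (LS K) a ≠ 0 :=
  (map_ne_zero_iff _ psIn_inj).2 (ps_ne_of_res h)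

end inst

section lift
variable {R K : Type} [CommRing R] [Field K]

/-- polynomials to power series -/
noncomputable def liftP (f : R →+* K) : Polynomial R →+* PowerSeries K :=
  Polynomial.coeToPowerSeries.ringHom.comp (Polynomial.mapRingHom f)

/-- polynomials to the next field of the tower -/
noncomputable def liftL (f : R →+* K) : Polynomial R →+* LS K := (psIn K).comp (liftP f)

/-- polynomials to rational functions -/
noncomputable def liftR (f : R →+* K) : Polynomial R →+* RatFunc K :=
  (algebraMap (Polynomial K) (RatFunc K)).comp (Polynomial.mapRingHom f)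

variable (f : R →+* K)

theorem liftP_eq (p : Polynomial R) : liftP f p = ((p.map f : Polynomial K) : PowerSeries K) := rfl

@[simp] theorem liftP_C (a : R) : liftP f (Polynomial.C a) = PowerSeries.C (f a) := by
  rw [liftP_eq, Polynomial.map_C, Polynomial.coe_C]

@[simp] theorem liftP_X : liftP f Polynomial.X = PowerSeries.X := by
  rw [liftP_eq, Polynomial.map_X, Polynomial.coe_X]

@[simp] theorem liftP_coeff (p : Polynomial R) (n : ℕ) :
    PowerSeries.coeff n (liftP f p) = f (p.coeff n) := by
  rw [liftP_eq, Polynomial.coeff_coe, Polynomial.coeff_map]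

theorem liftP_res (p : Polynomial R) : psRes K (liftP f p) = f (p.coeff 0) := by
  rw [psRes_eq, liftP_eq, Polynomial.constantCoeff_coe, Polynomial.coeff_map]

theorem liftP_res' (p : Polynomial R) : psRes K (liftP f p) = f (p.eval 0) := by
  rw [liftP_res, Polynomial.coeff_zero_eq_eval_zero]

theorem liftP_res_comp : (psRes K).comp (liftP f) = f.comp (Polynomial.evalRingHom 0) :=
  RingHom.ext (liftP_res' f)

theorem liftL_eq (p : Polynomial R) :
    liftL f p = algebraMap (PowerSeries K) (LS K) (liftP f p) := rfl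

theorem liftL_comp : (algebraMap (PowerSeries K) (LS K)).comp (liftP f) = liftL f := rfl

@[simp] theorem liftL_C (a : R) : liftL f (Polynomial.C a) = lsC K (f a) := by
  rw [liftL_eq, liftP_C, lsC_eq]

@[simp] theorem liftL_X : liftL f Polynomial.X = lsT K := by
  rw [liftL_eq, liftP_X, lsT_eq]

theorem liftR_eq (p : Polynomial R) :
    liftR f p = algebraMap (Polynomial K) (RatFunc K) (p.map f) := rfl

@[simp] theorem liftR_C (a : R) : liftR f (Polynomial.C a) = RatFunc.C (f a) := by
  rw [liftR_eq, Polynomial.map_C, RatFunc.algebraMap_C]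

@[simp] theorem liftR_X : liftR f Polynomial.X = RatFunc.X := by
  rw [liftR_eq, Polynomial.map_X, RatFunc.algebraMap_X]

variable {f}

theorem liftP_inj (hf : Injective f) : Injective (liftP f) :=
  (Polynomial.coe_injective K).comp (Polynomial.map_injective f hf)

theorem liftL_inj (hf : Injective f) : Injective (liftL f) := psIn_inj.comp (liftP_inj hf)

theorem liftR_inj (hf : Injective f) : Injective (liftR f) :=
  (IsFractionRing.injective (Polynomial K) (RatFunc K)).comp (Polynomial.map_injective f hf)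

/-- a non zero value under some map gives a non zero value under every injective map -/
theorem ne_of_ev {R S T : Type} [CommRing R] [CommRing S] [CommRing T] {f : R →+* S}
    (hf : Injective f) (g : R →+* T) {x : R} (h : g x ≠ 0) : f x ≠ 0 :=
  (map_ne_zero_iff f hf).2 fun e => h (by rw [e, map_zero])

theorem int_inj (K : Type) [CommRing K] [CharZero K] : Injective (Int.castRingHom K) :=
  Int.cast_injective

end lift

section mv
open MvPolynomial
variable {S K L : Type} [CommRing S] [Field K] [CommRing L] {n : ℕ}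

theorem inj_nil {g : S →+* L} (hg : Injective g) (x : Fin 0 → L) : Injective (eval₂Hom g x) := by
  have e : (eval₂Hom g x).comp (isEmptyRingEquiv S (Fin 0)).symm.toRingHom = g := by
    ext a
    simp
  have h : Injective ((eval₂Hom g x).comp (isEmptyRingEquiv S (Fin 0)).symm.toRingHom) :=
    e.symm ▸ hg
  exact Injective.of_comp_right h (isEmptyRingEquiv S (Fin 0)).symm.surjective

/-- one more variable -/
theorem inj_step {g : S →+* K} {x : Fin n → K} (F : Polynomial (MvPolynomial (Fin n) S) →+* L)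
    (hF : Injective F) (c : K →+* L) (t : L) (hC : ∀ a, F (Polynomial.C a) = c (eval₂Hom g x a))
    (hX : F Polynomial.X = t) :
    Injective (eval₂Hom (c.comp g) (Fin.cons t fun i => c (x i) : Fin (n + 1) → L)) := by
  have e : eval₂Hom (c.comp g) (Fin.cons t fun i => c (x i) : Fin (n + 1) → L) =
      F.comp (finSuccEquiv S n).toRingEquiv.toRingHom := by
    refine ringHom_ext (fun a => ?_) fun i => ?_
    · have : finSuccEquiv S n (C a) = Polynomial.C (C a) := by
        simpa using (finSuccEquiv S n).commutes a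
      simp [this, hC]
    · refine Fin.cases ?_ (fun j => ?_) i
      · simp [finSuccEquiv_X_zero, hX]
      · simp [finSuccEquiv_X_succ, hC]
  rw [e]
  exact hF.comp (finSuccEquiv S n).injective

theorem inj_consP {g : S →+* K} {x : Fin n → K} (h : Injective (eval₂Hom g x)) :
    Injective (eval₂Hom ((PowerSeries.C : K →+* PowerSeries K).comp g)
      (Fin.cons PowerSeries.X fun i => PowerSeries.C (x i) : Fin (n + 1) → PowerSeries K)) :=
  inj_step (liftP (eval₂Hom g x)) (liftP_inj h) _ _ (liftP_C _) (liftP_X _)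

theorem inj_consL {g : S →+* K} {x : Fin n → K} (h : Injective (eval₂Hom g x)) :
    Injective (eval₂Hom ((lsC K).comp g)
      (Fin.cons (lsT K) fun i => lsC K (x i) : Fin (n + 1) → LS K)) :=
  inj_step (liftL (eval₂Hom g x)) (liftL_inj h) _ _ (liftL_C _) (liftL_X _)

theorem inj_consR {g : S →+* K} {x : Fin n → K} (h : Injective (eval₂Hom g x)) :
    Injective (eval₂Hom ((RatFunc.C : K →+* RatFunc K).comp g)
      (Fin.cons RatFunc.X fun i => RatFunc.C (x i) : Fin (n + 1) → RatFunc K)) :=
  inj_step (liftR (eval₂Hom g x)) (liftR_inj h) _ _ (liftR_C _) (liftR_X _)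

/-- over the integers the map on constants plays no role -/
theorem inj_int {σ : Type} {g : ℤ →+* L} {x y : σ → L} (h : Injective (eval₂Hom g x))
    (e : ∀ i, x i = y i) : Injective (eval₂Hom (Int.castRingHom L) y) := by
  rwa [← funext e, Subsingleton.elim (Int.castRingHom L) g]

/-- non vanishing modulo p at one point gives non vanishing at independent elements -/
theorem ne_of_mod {σ : Type} {x : σ → L} (h : Injective (eval₂Hom (Int.castRingHom L) x))
    {T : Type} [CommRing T] (y : σ → T) {F : MvPolynomial σ ℤ}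
    (hF : eval₂Hom (Int.castRingHom T) y F ≠ 0) : eval₂Hom (Int.castRingHom L) x F ≠ 0 :=
  ne_of_ev h _ hF

end mv

section val
open WithZero
variable (F : Type) [Field F]

/-- the value group -/
abbrev ZV : Type := WithZero (Multiplicative ℤ)

/-- the valuation at the origin -/
noncomputable def vX : Valuation (RatFunc F) ZV := (Polynomial.idealX F).valuation (RatFunc F)

variable {F}

@[simp] theorem vX_X : vX F RatFunc.X = exp (-1 : ℤ) := Polynomial.valuation_X_eq_neg_one F

theorem vX_poly_le (p : Polynomial F) : vX F (algebraMap _ _ p) ≤ 1 :=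
  IsDedekindDomain.HeightOneSpectrum.valuation_le_one _ _

theorem vX_poly_lt (p : Polynomial F) : vX F (algebraMap _ _ p) < 1 ↔ p.coeff 0 = 0 := by
  rw [vX, IsDedekindDomain.HeightOneSpectrum.valuation_lt_one_iff_mem, Polynomial.idealX_span,
    Ideal.mem_span_singleton, Polynomial.X_dvd_iff]

theorem vX_poly_eq (p : Polynomial F) : vX F (algebraMap _ _ p) = 1 ↔ p.coeff 0 ≠ 0 := by
  rw [Ne, ← vX_poly_lt, not_lt]
  exact ⟨fun h => h.ge, le_antisymm (vX_poly_le p)⟩

theorem vX_C {c : F} (hc : c ≠ 0) : vX F (RatFunc.C c) = 1 := by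
  rw [← RatFunc.algebraMap_C, vX_poly_eq]
  simpa using hc

theorem vX_C_le (c : F) : vX F (RatFunc.C c) ≤ 1 := by
  rw [← RatFunc.algebraMap_C]
  exact vX_poly_le _

theorem vX_alg {c : F} (hc : c ≠ 0) : vX F (algebraMap F _ c) = 1 := vX_C hc

theorem vX_int [CharZero F] {c : ℤ} (hc : c ≠ 0) : vX F (c : RatFunc F) = 1 := by
  rw [← map_intCast (RatFunc.C : F →+* RatFunc F)]
  exact vX_C (Int.cast_ne_zero.2 hc)

theorem vX_nat [CharZero F] {c : ℕ} (hc : c ≠ 0) : vX F (c : RatFunc F) = 1 := by
  rw [← map_natCast (RatFunc.C : F →+* RatFunc F)]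
  exact vX_C (Nat.cast_ne_zero.2 hc)

@[simp] theorem vX_ofNat [CharZero F] (c : ℕ) [c.AtLeastTwo] :
    vX F (OfNat.ofNat c : RatFunc F) = 1 :=
  vX_nat (c := OfNat.ofNat c) (NeZero.ne _)

theorem vX_zpow (a : ℤ) : vX F (RatFunc.X ^ a) = exp (-a) := by
  rw [map_zpow₀, vX_X, ← exp_zsmul]
  simp

theorem vX_pow (a : ℕ) : vX F (RatFunc.X ^ a) = exp (-(a : ℤ)) := by
  rw [← vX_zpow (F := F), zpow_natCast]

theorem vX_mon {c : F} (hc : c ≠ 0) (a : ℤ) : vX F (RatFunc.C c * RatFunc.X ^ a) = exp (-a) := by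
  rw [map_mul, vX_C hc, vX_zpow, one_mul]

theorem ex_lt (a : ℤ) : (exp (-a) : ZV) < 1 ↔ 0 < a := by
  rw [← exp_zero, exp_lt_exp]
  omega

theorem ex_le (a : ℤ) : (exp (-a) : ZV) ≤ 1 ↔ 0 ≤ a := by
  rw [← exp_zero, exp_le_exp]
  omega

theorem ex_eq (a : ℤ) : (exp (-a) : ZV) = 1 ↔ a = 0 := by
  rw [← exp_zero, exp_inj]
  omega

theorem vX_liftR_le {R : Type} [CommRing R] (f : R →+* F) (p : Polynomial R) :
    vX F (liftR f p) ≤ 1 := vX_poly_le _

theorem vX_liftR_lt {R : Type} [CommRing R] (f : R →+* F) (p : Polynomial R) :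
    vX F (liftR f p) < 1 ↔ f (p.coeff 0) = 0 := by
  rw [liftR_eq, vX_poly_lt, Polynomial.coeff_map]

theorem vX_liftR_eq {R : Type} [CommRing R] (f : R →+* F) (p : Polynomial R) :
    vX F (liftR f p) = 1 ↔ f (p.coeff 0) ≠ 0 := by
  rw [liftR_eq, vX_poly_eq, Polynomial.coeff_map]

theorem vX_one_sub {z : RatFunc F} (h : vX F z < 1) : vX F (1 - z) = 1 :=
  (vX F).map_one_sub_of_lt h

theorem vX_one_sub_C {c : F} (hc : c ≠ 1) : vX F (1 - RatFunc.C c) = 1 := by
  rw [← map_one (RatFunc.C : F →+* RatFunc F), ← map_sub]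
  exact vX_C (sub_ne_zero.2 hc.symm)

/-- the leading term of z at the origin is c X ^ a -/
structure Ld (z : RatFunc F) (c : F) (a : ℤ) : Prop where
  c0 : c ≠ 0
  lt : vX F (z - RatFunc.C c * RatFunc.X ^ a) < exp (-a)

namespace Ld
variable {z w : RatFunc F} {c e : F} {a b : ℤ}

theorem val (h : Ld z c a) : vX F z = exp (-a) := by
  rw [← vX_mon h.c0 a]
  exact (vX F).map_eq_of_sub_lt (by rw [vX_mon h.c0]; exact h.lt)

theorem ne (h : Ld z c a) : z ≠ 0 := fun e0 => by
  have := h.val
  rw [e0, map_zero] at this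
  exact exp_ne_zero this.symm

theorem le_iff (h : Ld z c a) : vX F z ≤ 1 ↔ 0 ≤ a := by rw [h.val, ex_le]

theorem lt_iff (h : Ld z c a) : vX F z < 1 ↔ 0 < a := by rw [h.val, ex_lt]

theorem eq_iff (h : Ld z c a) : vX F z = 1 ↔ a = 0 := by rw [h.val, ex_eq]

theorem mon (hc : c ≠ 0) (a : ℤ) : Ld (RatFunc.C c * RatFunc.X ^ a) c a :=
  ⟨hc, by rw [sub_self, map_zero]; exact exp_pos⟩

theorem cast (h : Ld z c a) (hz : z = w) (hc : c = e) (ha : a = b) : Ld w e b :=
  hz ▸ hc ▸ ha ▸ h

theorem const (hc : c ≠ 0) : Ld (RatFunc.C c) c 0 := (mon hc 0).cast (by simp) rfl rfl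

theorem one : Ld (1 : RatFunc F) 1 0 := (const one_ne_zero).cast (by simp) rfl rfl

theorem X : Ld (RatFunc.X : RatFunc F) 1 1 := (mon one_ne_zero 1).cast (by simp) rfl rfl

theorem int [CharZero F] {m : ℤ} (hm : m ≠ 0) : Ld (m : RatFunc F) m 0 :=
  (const (Int.cast_ne_zero.2 hm)).cast (by simp) rfl rfl

theorem poly {p : Polynomial F} (hp : p.coeff 0 ≠ 0) :
    Ld (algebraMap _ (RatFunc F) p) (p.coeff 0) 0 := ⟨hp, by
  rw [zpow_zero, mul_one, neg_zero, exp_zero, ← RatFunc.algebraMap_C, ← map_sub, vX_poly_lt]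
  simp⟩

theorem lift {R : Type} [CommRing R] (f : R →+* F) {p : Polynomial R} (hp : f (p.coeff 0) ≠ 0) :
    Ld (liftR f p) (f (p.coeff 0)) 0 :=
  (poly (p := p.map f) (by rwa [Polynomial.coeff_map])).cast rfl (Polynomial.coeff_map _ _) rfl

theorem neg (h : Ld z c a) : Ld (-z) (-c) a := ⟨neg_ne_zero.2 h.c0, by
  have : -z - RatFunc.C (-c) * RatFunc.X ^ a = -(z - RatFunc.C c * RatFunc.X ^ a) := by
    rw [map_neg]
    ring
  rw [this, Valuation.map_neg]
  exact h.lt⟩

theorem mul (h : Ld z c a) (h' : Ld w e b) : Ld (z * w) (c * e) (a + b) :=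
  ⟨mul_ne_zero h.c0 h'.c0, by
  have : z * w - RatFunc.C (c * e) * RatFunc.X ^ (a + b) =
      (z - RatFunc.C c * RatFunc.X ^ a) * w +
        RatFunc.C c * RatFunc.X ^ a * (w - RatFunc.C e * RatFunc.X ^ b) := by
    rw [map_mul, zpow_add₀ RatFunc.X_ne_zero]
    ring
  rw [this, neg_add, exp_add]
  refine (vX F).map_add_lt ?_ ?_
  · rw [map_mul, h'.val]
    exact mul_lt_mul_of_pos_right h.lt exp_pos
  · rw [map_mul, vX_mon h.c0]
    exact mul_lt_mul_of_pos_left h'.lt exp_pos⟩

theorem inv (h : Ld z c a) : Ld z⁻¹ c⁻¹ (-a) := ⟨inv_ne_zero h.c0, by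
  have hc : (RatFunc.C c : RatFunc F) ≠ 0 := (map_ne_zero _).2 h.c0
  have hX : (RatFunc.X ^ a : RatFunc F) ≠ 0 := zpow_ne_zero _ RatFunc.X_ne_zero
  have hz := h.ne
  have : z⁻¹ - RatFunc.C c⁻¹ * RatFunc.X ^ (-a) =
      -(z - RatFunc.C c * RatFunc.X ^ a) * (z⁻¹ * (RatFunc.C c * RatFunc.X ^ a)⁻¹) := by
    rw [map_inv₀, zpow_neg]
    field_simp
    ring
  rw [this, map_mul, map_mul, map_inv₀, map_inv₀, h.val, vX_mon h.c0, Valuation.map_neg,
    ← mul_assoc, ← exp_neg]
  refine (mul_lt_mul_of_pos_right (mul_lt_mul_of_pos_right h.lt exp_pos) exp_pos).trans_eq ?_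
  rw [← exp_add, add_neg_cancel, exp_zero, one_mul]⟩

theorem div (h : Ld z c a) (h' : Ld w e b) : Ld (z / w) (c / e) (a - b) :=
  (h.mul h'.inv).cast (div_eq_mul_inv _ _).symm (div_eq_mul_inv _ _).symm (sub_eq_add_neg _ _).symm

theorem pow (h : Ld z c a) (n : ℕ) : Ld (z ^ n) (c ^ n) (n * a) := by
  induction n with
  | zero => exact one.cast (by simp) (by simp) (by simp)
  | succ n ih => exact (ih.mul h).cast (pow_succ _ _).symm (pow_succ _ _).symm (by push_cast; ring)

theorem zpow (h : Ld z c a) (n : ℤ) : Ld (z ^ n) (c ^ n) (n * a) := by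
  cases n with
  | ofNat n => exact (h.pow n).cast (by simp) (by simp) (by simp)
  | negSucc n =>
    exact (h.pow (n + 1)).inv.cast (zpow_negSucc _ _).symm (zpow_negSucc _ _).symm
      (by rw [Int.negSucc_eq]; push_cast; ring)

theorem add_small (h : Ld z c a) (hw : vX F w < exp (-a)) : Ld (z + w) c a := ⟨h.c0, by
  rw [add_sub_right_comm]
  exact (vX F).map_add_lt h.lt hw⟩

theorem add_lt (h : Ld z c a) (h' : Ld w e b) (hab : a < b) : Ld (z + w) c a :=
  h.add_small (by rw [h'.val, exp_lt_exp]; omega)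

theorem add_gt (h : Ld z c a) (h' : Ld w e b) (hab : b < a) : Ld (z + w) e b :=
  (h'.add_lt h hab).cast (add_comm _ _) rfl rfl

theorem add_eq (h : Ld z c a) (h' : Ld w e a) (hce : c + e ≠ 0) : Ld (z + w) (c + e) a :=
  ⟨hce, by
  have : z + w - RatFunc.C (c + e) * RatFunc.X ^ a =
      (z - RatFunc.C c * RatFunc.X ^ a) + (w - RatFunc.C e * RatFunc.X ^ a) := by
    rw [map_add]
    ring
  rw [this]
  exact (vX F).map_add_lt h.lt h'.lt⟩

theorem sub_lt (h : Ld z c a) (h' : Ld w e b) (hab : a < b) : Ld (z - w) c a :=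
  (h.add_lt h'.neg hab).cast (sub_eq_add_neg _ _).symm rfl rfl

theorem sub_gt (h : Ld z c a) (h' : Ld w e b) (hab : b < a) : Ld (z - w) (-e) b :=
  (h.add_gt h'.neg hab).cast (sub_eq_add_neg _ _).symm rfl rfl

theorem sub_eq (h : Ld z c a) (h' : Ld w e a) (hce : c ≠ e) : Ld (z - w) (c - e) a :=
  (h.add_eq h'.neg (by rw [← sub_eq_add_neg]; exact sub_ne_zero.2 hce)).cast
    (sub_eq_add_neg _ _).symm (sub_eq_add_neg _ _).symm rfl

/-- the value of 1 - z is one unless the leading term is 1 or has a pole -/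
theorem one_sub (h : Ld z c a) (ha : 0 ≤ a) (hc : a = 0 → c ≠ 1) : vX F (1 - z) = 1 := by
  rcases ha.eq_or_lt with rfl | ha
  · exact (one.sub_eq h (hc rfl).symm).eq_iff.2 rfl
  · exact vX_one_sub (h.lt_iff.2 ha)

/-- such a value is not the value of a line which has been flipped -/
theorem not_bk (h : Ld z c a) (hc : a = 0 → c ≠ 1) :
    ¬(vX F z = 1 ∧ 1 - z ≠ 0 ∧ vX F (1 - z) < 1 ∧ 1 - (1 - z) = z) := fun hb =>
  (h.one_sub (h.eq_iff.1 hb.1).ge hc).not_lt hb.2.2.1

theorem uniq (h : Ld z c a) (h' : Ld z e b) : c = e ∧ a = b := by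
  have hab : a = b := by
    have := h.val.symm.trans h'.val
    rw [exp_inj] at this
    omega
  subst hab
  refine ⟨by_contra fun hce => (h.sub_eq h' hce).ne (sub_self _), rfl⟩

theorem ne_one (h : Ld z c a) (hc : a = 0 → c ≠ 1) : z ≠ 1 := fun e1 =>
  hc ((e1 ▸ h).uniq one).2 ((e1 ▸ h).uniq one).1

theorem prod {ι : Type} (s : Finset ι) {z : ι → RatFunc F} {c : ι → F} {a : ι → ℤ}
    (h : ∀ i ∈ s, Ld (z i) (c i) (a i)) : Ld (∏ i ∈ s, z i) (∏ i ∈ s, c i) (∑ i ∈ s, a i) := by
  classical
  induction s using Finset.induction_on with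
  | empty => exact one.cast (by simp) (by simp) (by simp)
  | insert i s hi ih =>
    rw [Finset.prod_insert hi, Finset.prod_insert hi, Finset.sum_insert hi]
    exact (h i (Finset.mem_insert_self _ _)).mul (ih fun j hj => h j (Finset.mem_insert_of_mem hj))

end Ld

end val

end Pool.Agent.Lib.MP_d03834_ag.Core
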