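import Pool.Agent.Lib.MP_d03834_ag.Core.S12
import Pool.Agent.Lib.MP_d03834_ag.Core.DownCfgB
import Pool.Agent.Lib.MP_d03834_ag.Core.DownGrl
import Pool.Agent.Lib.MP_d03834_ag.Core.DownT5
import Pool.Agent.Lib.MP_d03834_ag.Core.FrameR
import Pool.Agent.Lib.MP_d03834_ag.Core.KPC
import Pool.Agent.Lib.MP_d03834_ag.Core.ClHonB
import Pool.Agent.Lib.MP_d03834_ag.Core.Tower
import Pool.Agent.Lib.MP_d03834_ag.Core.N12Defs

/-! Twelve points: the bounds on the quotient. -/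

set_option autoImplicit false

namespace Pool.Agent.Lib.MP_d03834_ag.Core

open Module

namespace D12

/-- the multiplicities at the five free points -/
def m5 (g me p : ℤ) : Fin 5 → ℤ := ![pk g me me 1, pk g me me 2, p, pk g me me 3, pk g me me 0]

/-- the second degree in the graph frame -/
def qq (g al me : ℤ) : ℤ := pa g me me + g / 2 - al - al

/-- the class after j twists -/
def cl (g al me p j : ℤ) : CL := dnU (g / 2) (qq g al me) al (m5 g me p) j

theorem mu_eq (g al me p : ℤ) : Fr.mu (pk g me me) ![al, al, al, al, p] (g / 2 - al) (g / 2 - al) =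
    dnM (g / 2) al (m5 g me p) := by
  funext l
  rcases l with l | l | l <;> fin_cases l <;> rfl

theorem k_eq (g al me p : ℤ) : dnK (qq g al me) (m5 g me p) = dk g al me p := by
  simp only [dnK, qq, m5, pk, pa, dk, Fin.sum_univ_five, Matrix.cons_val]
  omega

theorem cl_eq (g al me p j : ℤ) : cl g al me p j =
    ((g / 2 - 2 * dk g al me p, qq g al me - 2 * dk g al me p),
      fun i => m5 g me p i - dk g al me p, ![g / 2 - 2 * al, j]) := by
  rw [cl, dnU, k_eq]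

theorem ok {g al me p j : ℤ} (h : DPos g al me p) (h0 : 0 ≤ j) (h1 : j ≤ dk g al me p + 1) :
    S12.Ok (cl g al me p j) := by
  obtain ⟨a1, a2, a3, a4, a5, a6, a7, a8⟩ := h
  rw [cl_eq]
  constructor <;>
    simp only [cD_M, Fin.sum_univ_five, qq, m5, pk, pa, dk, Matrix.cons_val] at * <;> omega

theorem sq (g al me p j : ℤ) : cip (cl g al me p j) (cl g al me p j) =
    dy2 g al me p + dk g al me p ^ 2 - j ^ 2 := by
  rw [cl_eq]
  simp only [cip, Fin.sum_univ_five, Fin.sum_univ_two, qq, m5, pk, pa, dk, dy2, Matrix.cons_val]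
  have e : me = (me + 1) / 2 + me / 2 := by omega
  generalize (me + 1) / 2 = x at *
  generalize me / 2 = y at *
  rw [e]
  ring

theorem bound {y k : ℤ} {h h0 h1 : ℕ} (hk : 0 ≤ k) (hp : (y - k) % 2 = 0) (a0 : h ≤ h0)
    (a1 : h ≤ (k / 2 + 1).toNat + h1) (b0 : 0 < y → (h0 : ℤ) ≤ 1 + y / 2) (c0 : y < 0 → h0 = 0)
    (b1 : 0 < y - 2 * k - 1 → (h1 : ℤ) ≤ 1 + (y - 2 * k - 1) / 2) (c1 : y - 2 * k - 1 < 0 → h1 = 0) :
    (h : ℤ) ≤ db y k := by
  unfold db
  split_ifs <;> omega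

theorem par_ok : Dn.Ok (1 : RatFunc ℂ) 3 RatFunc.X := by
  have n : ∀ r : ℤ, r ≠ 0 → (RatFunc.X : RatFunc ℂ) ≠ r := fun r hr e => by
    have := vX_int (F := ℂ) hr
    rw [← e, vX_X] at this
    simp at this
  exact ⟨one_ne_zero, by norm_num, RatFunc.X_ne_zero, by norm_num, by norm_num, by norm_num,
    by simpa using n 1 (by norm_num), by simpa using n (-1) (by norm_num),
    by simpa using n 3 (by norm_num), by simpa using n (-3) (by norm_num)⟩

theorem sta {u : CL} (hu : S12.Ok u) :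
    Sta (Arc.ps (RatFunc ℂ)) (vX ℂ) (Dn.d12 par_ok).ccfg (Dn.d12 par_ok).ch u := by
  obtain ⟨h1, h2, h3⟩ := S12.start (vX ℂ) (fun x hx => by
      rw [← map_ratCast (RatFunc.C : ℂ →+* RatFunc ℂ)]
      exact vX_C (by exact_mod_cast hx)) (r := 2⁻¹) (a := 3) (b := RatFunc.X) (by norm_num) rfl
    RatFunc.X_ne_zero (by rw [vX_X, ← WithZero.exp_zero, WithZero.exp_lt_exp]; norm_num)
    (Dn.d12_ch par_ok)
  exact ⟨Dn.shp _, Dn.ex _, Dn.isCh _, h1, h2, hu.M, (h3 u hu).1, (h3 u hu).2⟩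

theorem hon (ε : ℤ) (u : CL) :
    finrank (LS (RatFunc ℂ)) ((Dn.d12 par_ok).cfg.H (Arc.ps _) (LS (RatFunc ℂ)) ε u) ≤
      finrank (LS (RatFunc ℂ)) ((Dn.d12 par_ok).ccfg.HC (Arc.ps _) (LS (RatFunc ℂ)) ε u) :=
  Submodule.finrank_mono (H_le_HC' _ (IsFractionRing.injective _ _) (Dn.ex _) (Dn.zz _)
    (Dn.rex _).aa.symm (Dn.rex _).bb.symm ε u)

end D12

open D12 in
/-- the bounds for twelve points from the bound for all start states -/
theorem down12_of (hK : KPC (Arc.ps (RatFunc ℂ)) (LS (RatFunc ℂ)) (vX ℂ)) : Down12 := by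
  have hi := IsFractionRing.injective (PowerSeries (RatFunc ℂ)) (LS (RatFunc ℂ))
  obtain ⟨L, _, g, δ, hδ, hT⟩ := (Dn.d12 par_ok).rex.t5 (LS (RatFunc ℂ)) hi
  generalize hf : g.comp (algebraMap (PowerSeries (RatFunc ℂ)) (LS (RatFunc ℂ))) = f at hT
  have hG : Fr.Grl ((Dn.d12 par_ok).pm f δ) := hf ▸ Dn.grl' _ hi hδ
  have hfi : Function.Injective f := fun x y e => by
    by_contra n
    have := hδ _ 0 ((map_ne_zero_iff _ hi).2 (sub_ne_zero.2 n))
    rw [map_zero, zero_mul, add_zero, ← RingHom.comp_apply, hf, map_sub, e, sub_self] at this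
    exact this rfl
  have r0 := congrArg f (Dn.d12 par_ok).rq0
  have r3 := congrArg f (Dn.d12 par_ok).rq3
  have rb := congrArg f (Dn.d12_rq par_ok)
  have q2 := (map_ne_zero_iff f hfi).2 (mul_ne_zero (Dn.d12 par_ok).two (Dn.d12 par_ok).q_ne)
  simp only [map_mul, map_add, map_sub, map_one] at r0 r3 rb q2
  obtain ⟨L', _, g', al, be, ga, Q, h1, h2, h3⟩ := hG.exQ
    (r := ![-f (Dn.d12 par_ok).ρ, 1, -(f 2 * f (Dn.d12 par_ok).q), 0]) (by simpa using q2)
    (by
      simp only [Fr.bil, Dn.pm_e, Matrix.cons_val, if_neg (by decide : (0 : Fin 5) ≠ 2)]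
      linear_combination r0)
    (by
      simp only [Fr.bil, Dn.pm_e, Matrix.cons_val, if_neg (by decide : (3 : Fin 5) ≠ 2)]
      linear_combination r3)
    (by simp [Fr.bil, Dn.pm_a0])
    (by
      simp only [Fr.bil, Dn.pm_b1, Matrix.cons_val, map_mul]
      linear_combination f (Arc.ps (RatFunc ℂ)).t * rb)
  refine ⟨L', inferInstance, (g'.comp (g.comp (algebraMap ℂ (LS (RatFunc ℂ))))).toAlgebra,
    al, be, ga, Q, h1, h2, fun d a me p hp _ _ hk _ _ => ?_⟩
  have h4 : _ ≤ finrank L (H0 (d / 2) (qq d a me) (Cfg.mv _ (Dn.d12 par_ok).cfg f δ)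
      (Fr.mu (pk d me me) ![a, a, a, a, p] (d / 2 - a) (d / 2 - a))) :=
    h3 (pa d me me) (d / 2) (pk d me me) ![a, a, a, a, p]
  rw [mu_eq] at h4
  obtain ⟨t0, t1⟩ := hT (d / 2) (qq d a me) a (m5 d me p)
  rw [k_eq] at t0 t1
  obtain ⟨b0, c0⟩ := hK _ _ _ 0 (sta (ok hp hk (by omega))) (Or.inl rfl)
  obtain ⟨b1, c1⟩ := hK _ _ _ 1 (sta (ok hp (j := dk d a me p + 1) (by omega) le_rfl)) (Or.inr rfl)
  rw [D12.sq, add_sub_cancel_right] at b0 c0
  rw [D12.sq, show dy2 d a me p + dk d a me p ^ 2 - (dk d a me p + 1) ^ 2 =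
    dy2 d a me p - 2 * dk d a me p - 1 by ring] at b1 c1
  exact bound hk (dy2_par d a me p) (h4.trans ((t0 hk).trans (hon _ _)))
    (h4.trans ((t1 (by omega)).trans (Nat.add_le_add_left (hon _ _) _))) b0 c0 b1 c1

end Pool.Agent.Lib.MP_d03834_ag.Core
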