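import Pool.Agent.Lib.MP_d03834_ag.Core.Invol

/-! Classes of the toric chart: four corners and five points of the same multiplicity. -/

set_option autoImplicit false

namespace Pool.Agent.Lib.MP_d03834_ag.Core

open MvPolynomial Module

/-- the square of the class (a, b; k; m ^ 5) -/
def tsq (a b m : ℤ) (k : Fin 4 → ℤ) : ℤ :=
  2 * a * b - (k 0 ^ 2 + k 1 ^ 2 + k 2 ^ 2 + k 3 ^ 2) - 5 * m ^ 2

/-- the canonical degree of the class (a, b; k; m ^ 5) -/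
def tkd (a b m : ℤ) (k : Fin 4 → ℤ) : ℤ := k 0 + k 1 + k 2 + k 3 + 5 * m - 2 * a - 2 * b

/-- the three bounds for a class of square Y and canonical degree κ -/
def Bd3 (Y κ : ℤ) (h : ℕ) : Prop :=
  (Y < 0 → h = 0) ∧ (0 < Y → (h : ℤ) ≤ 1 + Y / 2) ∧ (2 * κ + 1 < Y → 2 * (h : ℤ) ≤ Y - κ + 2)

/-- the range of the classes which occur for fifteen points -/
structure Box15 (a b m : ℤ) (k : Fin 4 → ℤ) : Prop where
  rt0 : ∀ c, 0 ≤ rt k a b c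
  kd : 0 ≤ tkd a b m k
  m2 : 2 ≤ m
  r0 : rt k a b 0 ≤ 2
  r1 : rt k a b 1 ≤ 1
  r3 : rt k a b 3 ≤ 1
  k0 : m - 1 ≤ k 0 ∧ k 0 ≤ m
  k2 : m - 4 ≤ 2 * k 2 ∧ 2 * k 2 ≤ m ∧ 0 ≤ k 2
  b : 27 * m - 18 ≤ 14 * b ∧ 16 * b ≤ 31 * m + 12

/-- the bounds on one configuration of five points of the torus -/
def Down15 : Prop :=
  ∃ (K : Type) (_ : Field K) (_ : Algebra ℂ K) (Q : Fin 5 → Fin 4 → K), (∀ i c, Q i c ≠ 0) ∧
    ∀ (a b m : ℤ) (k : Fin 4 → ℤ), Box15 a b m k → Bd3 (tsq a b m k) (tkd a b m k)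
      (finrank K (H0 a b (Sum.elim cor Q) (Sum.elim k fun _ => m)))

/-- the degree in x of the part (g; M, m) -/
def pa (g M m : ℤ) : ℤ := g - (M + 1) / 2 - (m + 1) / 2

/-- the multiplicities at the corners of the part (g; M, m) -/
def pk (g M m : ℤ) : Fin 4 → ℤ := ![M / 2, g / 2 - (m + 1) / 2, m / 2, g / 2 - (M + 1) / 2]

/-- the bounds for the part (g; M, m1), five points of multiplicity m -/
def Bd4 (g M m1 m : ℤ) (h : ℕ) : Prop :=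
  Bd3 (tsq (pa g M m1) (g / 2) m (pk g M m1)) (tkd (pa g M m1) (g / 2) m (pk g M m1)) h ∧
    (tsq (pa g M m1) (g / 2) m (pk g M m1) = 0 → 1 ≤ tkd (pa g M m1) (g / 2) m (pk g M m1) →
      2 ≤ m1 → (h : ℤ) ≤ m1 / 2)

end Pool.Agent.Lib.MP_d03834_ag.Core
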