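import Pool.Agent.Lib.MP_d03834_ag.Core.S15
import Pool.Agent.Lib.MP_d03834_ag.Core.KPC
import Pool.Agent.Lib.MP_d03834_ag.Core.ClHonB
import Pool.Agent.Lib.MP_d03834_ag.Core.DownCfgB
import Pool.Agent.Lib.MP_d03834_ag.Core.DownT5
import Pool.Agent.Lib.MP_d03834_ag.Core.DownGrl
import Pool.Agent.Lib.MP_d03834_ag.Core.N15Defs
import Pool.Agent.Lib.MP_d03834_ag.Core.Tower

/-! The bounds in the toric chart for fifteen points. -/

set_option autoImplicit false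

namespace Pool.Agent.Lib.MP_d03834_ag.Core

open Module

/-- the multiplicities at the five free points -/
def me15 (m : ℤ) (k : Fin 4 → ℤ) : Fin 5 → ℤ := ![k 1, k 2, m, k 3, k 0]

/-- the class (a, b; k; m ^ 5) after j twists -/
def u15 (a b m : ℤ) (k : Fin 4 → ℤ) (j : ℤ) : CL := dnU b (a + b - m - m) m (me15 m k) j

theorem dnK15 (a b m : ℤ) (k : Fin 4 → ℤ) : dnK (a + b - m - m) (me15 m k) = tkd a b m k := by
  simp only [dnK, me15, tkd, Fin.sum_univ_five, Matrix.cons_val]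
  ring

theorem u15_eq (a b m : ℤ) (k : Fin 4 → ℤ) (j : ℤ) : u15 a b m k j =
    ((b - 2 * tkd a b m k, a + b - m - m - 2 * tkd a b m k),
      fun i => me15 m k i - tkd a b m k, ![b - 2 * m, j]) := by
  rw [u15, dnU, dnK15]

theorem u15_M (a b m : ℤ) (k : Fin 4 → ℤ) (j : ℤ) : u15 a b m k j ∈ cD.M := by
  rw [cD_M, u15_eq]
  simp only [me15, tkd, Fin.sum_univ_five, Matrix.cons_val]
  ring

theorem u15_sq (a b m : ℤ) (k : Fin 4 → ℤ) (j : ℤ) :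
    cip (u15 a b m k j) (u15 a b m k j) = tsq a b m k + tkd a b m k ^ 2 - j ^ 2 := by
  rw [u15_eq]
  simp only [cip, me15, tsq, tkd, Fin.sum_univ_five, Fin.sum_univ_two, Matrix.cons_val]
  ring

theorem tsq_par (a b m : ℤ) (k : Fin 4 → ℤ) : (tsq a b m k + tkd a b m k) % 2 = 0 := by
  have h : ∀ x : ℤ, ∃ y, x ^ 2 = x + 2 * y := fun x => by
    obtain ⟨y, hy⟩ := Int.even_mul_succ_self (x - 1)
    exact ⟨y, by linear_combination hy⟩
  obtain ⟨y0, h0⟩ := h (k 0)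
  obtain ⟨y1, h1⟩ := h (k 1)
  obtain ⟨y2, h2⟩ := h (k 2)
  obtain ⟨y3, h3⟩ := h (k 3)
  obtain ⟨y4, h4⟩ := h m
  rw [tsq, tkd, h0, h1, h2, h3, h4, mul_assoc 2 a b]
  generalize a * b = c
  omega

theorem bd3_of {Y κ : ℤ} {h h0 h1 : ℕ} (hp : (Y + κ) % 2 = 0) (hκ : 0 ≤ κ) (a0 : h ≤ h0)
    (a1 : h ≤ (κ / 2 + 1).toNat + h1) (b0 : (0 < Y → (h0 : ℤ) ≤ 1 + Y / 2) ∧ (Y < 0 → h0 = 0))
    (b1 : 0 < Y - 2 * κ - 1 → (h1 : ℤ) ≤ 1 + (Y - 2 * κ - 1) / 2) : Bd3 Y κ h := by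
  refine ⟨fun h2 => ?_, fun h2 => ?_, fun h2 => ?_⟩
  · have := b0.2 h2
    omega
  · have := b0.1 h2
    omega
  · have := b1 (by omega)
    omega

section general
variable {O k Γ : Type} [CommRing O] [IsDomain O] [Field k] [LinearOrderedCommGroupWithZero Γ]
  {A : Arc O k} {v : Valuation k Γ} {K : Type} [Field K] [Algebra O K]

omit [IsDomain O] in
/-- the start state -/
theorem Dn.sta15 (D : Dn A) (hs : Sm15 v D.r (A.res D.a) (A.res D.b)) {u : CL} (hu : u ∈ cD.M)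
    (c1 : 0 ≤ u.2.2 1) (t0 : u.2.1 0 + u.2.1 1 ≤ u.1.1) (t1 : u.2.1 3 + u.2.1 4 ≤ u.1.1)
    (t2 : u.2.1 0 + u.2.1 3 + u.2.2 0 ≤ u.1.2) (t3 : u.2.1 1 + u.2.1 4 + u.2.2 0 ≤ u.1.2) :
    Sta A v D.ccfg D.ch u :=
  ⟨D.shp, D.ex, D.isCh, hs.le, hs.nb, hu, hs.pos c1, hs.rt t0 t1 t2 t3⟩

/-- the bound for the honest sections -/
theorem Dn.kpH (D : Dn A) (hi : Function.Injective (algebraMap O K)) (hK : KPC A K v) {u : CL}
    (hs : Sta A v D.ccfg D.ch u) {ε : ℤ} (hε : ε = 0 ∨ ε = 1) :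
    (0 < cip u u → (finrank K (D.cfg.H A K ε u) : ℤ) ≤ 1 + cip u u / 2) ∧
      (cip u u < 0 → finrank K (D.cfg.H A K ε u) = 0) := by
  have h1 : finrank K (D.cfg.H A K ε u) ≤ finrank K (D.ccfg.HC A K ε u) :=
    Submodule.finrank_mono (H_le_HC' K hi D.ex D.zz (neg_ne_zero.2 D.q_ne).symm D.βq.symm ε u)
  obtain ⟨h2, h3⟩ := hK _ _ u ε hs hε
  refine ⟨fun h => ?_, fun h => ?_⟩
  · have := h2 h
    omega
  · have := h3 h
    omega

omit [IsDomain O] in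
theorem Dn.sta_u15 (D : Dn A) (hs : Sm15 v D.r (A.res D.a) (A.res D.b)) {a b m j : ℤ}
    {k : Fin 4 → ℤ} (h : ∀ c, 0 ≤ Core.rt k a b c) (hj : 0 ≤ j) :
    Sta A v D.ccfg D.ch (u15 a b m k j) := by
  have h0 := h 0
  have h1 := h 1
  have h2 := h 2
  have h3 := h 3
  simp only [Core.rt, Matrix.cons_val] at h0 h1 h2 h3
  refine D.sta15 hs (u15_M _ _ _ _ _) ?_ ?_ ?_ ?_ ?_ <;> rw [u15_eq] <;>
    simp only [me15, Matrix.cons_val] <;> omega

/-- the three bounds from the two bounds of the fold -/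
theorem Dn.bd15 (D : Dn A) (hs : Sm15 v D.r (A.res D.a) (A.res D.b))
    (hi : Function.Injective (algebraMap O K)) (hK : KPC A K v) {a b m : ℤ} {k : Fin 4 → ℤ}
    (h : ∀ c, 0 ≤ Core.rt k a b c) (hκ : 0 ≤ tkd a b m k) {r : ℕ}
    (a0 : r ≤ finrank K (D.cfg.H A K 0 (u15 a b m k (tkd a b m k))))
    (a1 : r ≤ (tkd a b m k / 2 + 1).toNat +
      finrank K (D.cfg.H A K 1 (u15 a b m k (tkd a b m k + 1)))) :
    Bd3 (tsq a b m k) (tkd a b m k) r := by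
  have b0 := D.kpH hi hK (D.sta_u15 (m := m) hs h hκ) (Or.inl rfl)
  have b1 := (D.kpH hi hK (D.sta_u15 (m := m) hs h (by omega : 0 ≤ tkd a b m k + 1))
    (Or.inr rfl)).1
  rw [u15_sq, add_sub_cancel_right] at b0
  rw [u15_sq, show tsq a b m k + tkd a b m k ^ 2 - (tkd a b m k + 1) ^ 2 =
    tsq a b m k - 2 * tkd a b m k - 1 by ring] at b1
  exact bd3_of (tsq_par a b m k) hκ a0 a1 b0 b1

theorem mu15 (b m : ℤ) (k : Fin 4 → ℤ) :
    Fr.mu k (fun _ => m) (b - m) (b - m) = dnM b m (me15 m k) := by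
  funext i
  rcases i with i | s | s
  · rfl
  · fin_cases s <;> rfl
  · fin_cases s <;> rfl

/-- the bounds in the toric chart -/
theorem Dn.down15 [CharZero K] [Algebra ℂ K] (D : Dn A)
    (hs : Sm15 v D.r (A.res D.a) (A.res D.b)) (hi : Function.Injective (algebraMap O K))
    (hK : KPC A K v) : Down15 := by
  obtain ⟨L, _, g, δ, h1, h2⟩ := D.rex.t5 K hi
  obtain ⟨L', _, g', Q, h3, h4⟩ := (D.grl' hi h1).ex
  refine ⟨L', inferInstance, (g'.comp (g.comp (algebraMap ℂ K))).toAlgebra, Q, h3,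
    fun a b m k hb => ?_⟩
  have h5 := h4 a b k fun _ => m
  rw [mu15] at h5
  have h6 := h2 b (a + b - m - m) m (me15 m k)
  rw [dnK15] at h6
  have hκ := hb.kd
  exact D.bd15 hs hi hK hb.rt0 hκ (h5.trans (h6.1 hκ)) (h5.trans (h6.2 (by omega)))

end general

theorem ok15 : Dn.Ok (RatFunc.X : RatFunc ℂ) 2 3 :=
  ⟨RatFunc.X_ne_zero, by norm_num, by norm_num, by norm_num, by norm_num, by norm_num,
    by norm_num, by norm_num, by norm_num, by norm_num⟩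

theorem vX_lt : vX ℂ RatFunc.X < 1 := (Ld.X (F := ℂ)).lt_iff.2 one_pos

theorem X_ne_one : (RatFunc.X : RatFunc ℂ) ≠ 1 := fun e => by
  have := vX_lt
  rw [e, map_one] at this
  exact lt_irrefl _ this

/-- the configuration for fifteen points -/
noncomputable def D15 : Dn (Arc.ps (RatFunc ℂ)) := Dn.d15 ok15 X_ne_one

theorem sm_D15 : Sm15 (vX ℂ) D15.r ((Arc.ps _).res D15.a) ((Arc.ps _).res D15.b) := by
  rw [D15, Dn.d15_r, Dn.d15_a, Dn.d15_b]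
  exact sm15_23 RatFunc.X_ne_zero vX_lt (vX_ofNat 2) (vX_ofNat 3)

theorem down15_of (hK : KPC (Arc.ps (RatFunc ℂ)) (LS (RatFunc ℂ)) (vX ℂ)) : Down15 :=
  D15.down15 sm_D15 (IsFractionRing.injective _ _) hK

end Pool.Agent.Lib.MP_d03834_ag.Core
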