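import Pool.Agent.Lib.MP_d03834_ag.Core.BiEndD
import Pool.Agent.Lib.MP_d03834_ag.Core.ShDefs

/-! The count for dominant classes at the end of the descent. -/

set_option autoImplicit false

namespace Pool.Agent.Lib.MP_d03834_ag.Core

open MvPolynomial Module End

variable {O k K : Type} [CommRing O] [IsDomain O] [ValuationRing O] [Field k] [Field K]
  [Algebra O K] [IsFractionRing O K]

/-- the sections are bounded by the limit system -/
theorem H0_le_LL (A : Arc O k) (c : Cfg O k) (hc : Ndg A c) (φ a p μ0 μ1 : ℕ) (m : Fin 5 → ℕ)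
    {n j : ℤ} {l : Ix → ℤ} (hn : n = (μ0 + μ1 + 2 * a + φ : ℕ)) (hj : j = (μ0 + μ1 + 2 * a + p : ℕ))
    (he : ∀ i, (l (.inl i)).toNat = m i) (a0 : (l (.inr (.inl 0))).toNat = a)
    (a1 : (l (.inr (.inl 1))).toNat = μ0 + μ1 + a) (b0 : (l (.inr (.inr 0))).toNat = μ0 + a)
    (b1 : (l (.inr (.inr 1))).toNat = μ1 + a) :
    finrank K (H0 n j (c.pts A K) l) ≤ finrank k (LL c.Q0 c.Q1 c.Q2
      ![0, A.res (c.be 0) - A.res (c.al 1), A.res (c.be 1) - A.res (c.al 1)]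
      (fun i => A.res (c.z i)) ((Polynomial.X - Polynomial.C (A.res (c.be 0) - A.res (c.al 1))) *
        (Polynomial.X - Polynomial.C (A.res (c.be 1) - A.res (c.al 0))))
      (μ0 + μ1 + 2 * a + p + φ + 1) φ ![p, μ0, μ1] m) := by
  subst hn hj
  generalize hL : LL c.Q0 c.Q1 c.Q2 _ _ _ _ _ ![p, μ0, μ1] m = L
  have : FiniteDimensional k L := hL ▸ inferInstance
  let W : Submodule k (A2 k) := L.map (LinearMap.mulLeft k (X 0 ^ (μ0 + μ1 + 2 * a)))
  let T : Submodule k (Cx k) := weightedHomogeneousSubmodule k bw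
    ((μ0 + μ1 + 2 * a + φ : ℕ), (μ0 + μ1 + 2 * a + p : ℕ)) ⊓ W.comap th.toLinearMap
  have : FiniteDimensional k T := Submodule.finiteDimensional_of_le inf_le_left
  have hi := IsFractionRing.injective O K
  refine (lim_le A.res _ T fun G hG => ?_).trans (le_trans ?_
    (Submodule.finrank_map_le (LinearMap.mulLeft k (X 0 ^ (μ0 + μ1 + 2 * a))) L))
  · obtain ⟨h1, h2⟩ := mem_H0.1 hG
    have h3 : ∀ i, G ∈ pid (c.pO A i) ^ (l i).toNat := fun i => by
      refine pid_pull hi ?_ (h2 i)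
      rcases i with i | i | i
      exacts [⟨⟨1, 0, by simp [Cfg.pO]⟩, 0, -1, by simp [Cfg.pO]⟩,
        ⟨⟨1, 0, by simp [Cfg.pO]⟩, 1, 0, by simp [Cfg.pO]⟩,
        ⟨⟨1, 0, by simp [Cfg.pO]⟩, 1, 0, by simp [Cfg.pO]⟩]
    refine ⟨(h1.of_map hi).map A.res, ?_⟩
    obtain ⟨H, h4, h5⟩ := lim_LL A.res A.unit A.t0 ((A.ker _).2 dvd_rfl) hc.cur hc.z0 hc.aa hc.bb
      (sub_ne_zero.2 (hc.ab 1 0).symm) (sub_ne_zero.2 (hc.ab 1 1).symm) φ a p μ0 μ1 m
      (h1.of_map hi) (fun i => he i ▸ h3 (.inl i)) (a0 ▸ h3 (.inr (.inl 0)))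
      (a1 ▸ h3 (.inr (.inl 1))) (b0 ▸ h3 (.inr (.inr 0))) (b1 ▸ h3 (.inr (.inr 1)))
    exact ⟨H, hL ▸ h4, h5⟩
  · exact LinearMap.finrank_le_finrank_of_injective (f := th.toLinearMap.restrict (p := T) (q := W)
      fun F hF => hF.2) (LinearMap.ker_eq_bot.1 (LinearMap.ker_eq_bot'.2 fun F hF =>
        Subtype.ext (th_inj F.2.1 (congrArg Subtype.val hF))))

theorem inj3 {x y : k} (hx : x ≠ 0) (hy : y ≠ 0) (h : x ≠ y) : Function.Injective ![0, x, y] := by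
  intro i j e
  fin_cases i <;> fin_cases j <;> simp_all [eq_comm]

theorem end_ar {r a p φ μ0 μ1 b0 b1 b2 b3 b4 : ℕ}
    (key : 2 * r + (TT (p - 1) + TT (μ0 - 1) + TT (μ1 - 1)) +
      (TT b0 + TT b1 + TT b2 + TT b3 + TT b4) ≤ TT (μ0 + μ1 + 2 * a + p + φ))
    (e : b0 + b1 + b2 + b3 + b4 + 5 = 2 * (μ0 + μ1 + 2 * a + p + φ + 2)) {J : ℤ}
    (hJ : J = μ0 + μ1 + 2 * a + p + φ + 2) :
    2 * ((r : ℤ) + (a + 1)) + φ ≤ J * J - p * p - μ0 * μ0 - μ1 * μ1 - ((b0 + 1) * (b0 + 1) +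
      (b1 + 1) * (b1 + 1) + (b2 + 1) * (b2 + 1) + (b3 + 1) * (b3 + 1) + (b4 + 1) * (b4 + 1)) + 2 := by
  have t0 := TT_pred p
  have t1 := TT_pred μ0
  have t2 := TT_pred μ1
  generalize TT (p - 1) = x0 at key t0
  generalize TT (μ0 - 1) = x1 at key t1
  generalize TT (μ1 - 1) = x2 at key t2
  simp only [TT] at key t0 t1 t2
  zify at key t0 t1 t2 e
  rw [hJ]
  linarith

/-- the count at the end of the descent -/
theorem end_count (A : Arc O k) (c : Cfg O k) (hc : Ndg A c) {u : CL} (hu : Dmn u)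
    (h0 : 0 < cip u u) {ε : ℤ} (hε : ε = 0 ∨ ε = 1) :
    (finrank K (c.H A K ε u) : ℤ) ≤ 1 + cip u u / 2 := by
  obtain ⟨⟨n, J⟩, m, d⟩ := u
  obtain ⟨u1, u2, u3, u4⟩ := hu
  simp only at u1 u2 u3 u4
  let σ := Tuple.sort m
  have mo : Monotone (m ∘ σ) := Tuple.monotone_sort m
  have m0 : m (σ 0) ≤ m (σ 1) := mo (by decide : (0 : Fin 5) ≤ 1)
  have m1 : m (σ 1) ≤ m (σ 2) := mo (by decide : (1 : Fin 5) ≤ 2)
  have m2 : m (σ 2) ≤ m (σ 3) := mo (by decide : (2 : Fin 5) ≤ 3)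
  have m3 : m (σ 3) ≤ m (σ 4) := mo (by decide : (3 : Fin 5) ≤ 4)
  have m4 := u2 (σ 3) (σ 4) (σ.injective.ne (by decide))
  have m5 : ∀ i, m (σ 0) ≤ m i := fun i => by
    simpa using mo (Fin.zero_le (σ.symm i))
  rw [← Equiv.sum_comp σ, Fin.sum_univ_five] at u1
  have e : cip ((n, J), m, d) ((n, J), m, d) = J * J - (J - n) * (J - n) - d 0 * d 0 - d 1 * d 1 -
      (m (σ 0) * m (σ 0) + m (σ 1) * m (σ 1) + m (σ 2) * m (σ 2) + m (σ 3) * m (σ 3) +
        m (σ 4) * m (σ 4)) := by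
    simp only [cip]
    rw [← Equiv.sum_comp σ, Fin.sum_univ_five, Fin.sum_univ_two]
    ring
  have d0 := u3 0
  have d1 := u3 1
  have d2 := u4 0
  have d3 := u4 1
  have m6 : 1 ≤ m (σ 0) := by
    by_contra hlt
    have : m (σ 0) = 0 ∧ m (σ 1) = m (σ 4) ∧ m (σ 2) = m (σ 4) ∧ m (σ 3) = m (σ 4) ∧ d 0 = 0 ∧
      d 1 = 0 ∧ n = 2 * m (σ 4) ∧ J = 2 * m (σ 4) := by omega
    obtain ⟨e0, e1, e2, e3, e4, e5, e6, e7⟩ := this
    rw [e, e0, e1, e2, e3, e4, e5, e6, e7] at h0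
    nlinarith
  obtain ⟨b, hb⟩ : ∃ b : Fin 5 → ℕ, ∀ i, m i = b i + 1 :=
    ⟨fun i => (m i - 1).toNat, fun i => by have := m5 i; beta_reduce; omega⟩
  obtain ⟨μ0, h1⟩ := Int.eq_ofNat_of_zero_le d2
  obtain ⟨μ1, h2⟩ := Int.eq_ofNat_of_zero_le d3
  obtain ⟨p, h3⟩ := Int.eq_ofNat_of_zero_le (d2.trans d0)
  obtain ⟨φ, h4⟩ := Int.eq_ofNat_of_zero_le (Int.emod_nonneg (n + d 0 + d 1) two_ne_zero)
  obtain ⟨a, h5⟩ := Int.eq_ofNat_of_zero_le (by omega : 0 ≤ (n - d 0 - d 1) / 2 - 1)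
  have q0 := hb (σ 0)
  have q1 := hb (σ 1)
  have q2 := hb (σ 2)
  have q3 := hb (σ 3)
  have q4 := hb (σ 4)
  have eJ : J = μ0 + μ1 + 2 * a + p + φ + 2 := by omega
  have en : n = μ0 + μ1 + 2 * a + φ + 2 := by omega
  have eb : b (σ 0) + b (σ 1) + b (σ 2) + b (σ 3) + b (σ 4) + 5 =
    2 * (μ0 + μ1 + 2 * a + p + φ + 2) := by omega
  have hz : Function.Injective fun i => A.res (c.z i) := fun i j h => by
    by_contra hne
    exact hc.zz i j hne h
  have hs : Function.Injective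
      ![0, A.res (c.be 0) - A.res (c.al 1), A.res (c.be 1) - A.res (c.al 1)] := by
    exact inj3 (sub_ne_zero.2 (hc.ab 1 0).symm) (sub_ne_zero.2 (hc.ab 1 1).symm)
      fun h => hc.bb (sub_left_injective h)
  have hs0 : ∀ r, ![0, A.res (c.be 0) - A.res (c.al 1), A.res (c.be 1) - A.res (c.al 1)] r ≠
      c.Q0 := fun r => by
    fin_cases r
    exacts [hc.Q0.symm, hc.sl 0, hc.sl 1]
  have hq : ((Polynomial.X - Polynomial.C (A.res (c.be 0) - A.res (c.al 1))) *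
      (Polynomial.X - Polynomial.C (A.res (c.be 1) - A.res (c.al 0)))).natDegree = 2 := by
    rw [Polynomial.natDegree_mul (Polynomial.X_sub_C_ne_zero _) (Polynomial.X_sub_C_ne_zero _),
      Polynomial.natDegree_X_sub_C, Polynomial.natDegree_X_sub_C]
  have key := PH_num (Q1 := c.Q1) hc.Q2 hs hs0 (hz.comp σ.injective) (fun i => hc.z0 (σ i))
    (N := μ0 + μ1 + 2 * a + p + φ) (p := fun r => ![p, μ0, μ1] r - 1) (m := b ∘ σ) (by
      simp only [Pl, Function.comp_apply, Matrix.cons_val_zero, Matrix.cons_val_one,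
        Matrix.cons_val]
      omega)
  rw [← PH_perm σ] at key
  have hk : finrank K (c.H A K ε ((n, J), m, d)) ≤ finrank k (PH c.Q0 c.Q1 c.Q2
      ![0, A.res (c.be 0) - A.res (c.al 1), A.res (c.be 1) - A.res (c.al 1)]
      (fun i => A.res (c.z i)) (μ0 + μ1 + 2 * a + p + φ) (fun r => ![p, μ0, μ1] r - 1) b) +
      (a + 1) := by
    rcases hε with rfl | rfl
    · refine (H0_le_LL A c hc φ (a + 1) p μ0 μ1 (fun i => b i + 1) (by simp only [dgx]; omega)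
        (by simp only [dgy, par]; omega) (fun i => by have := hb i; simp only [mlt]; omega)
        (by simp [mlt]; omega) (by simp [mlt]; omega) (by simp [mlt]; omega)
        (by simp [mlt]; omega)).trans ((LL_two hc.Q2 hs0 hz hc.z0 hq _ φ (a + 1 + φ) (by omega) _ _
          (by simp [Fin.sum_univ_three]; omega)).trans ?_)
      rw [← Equiv.sum_comp σ, Fin.sum_univ_five, show μ0 + μ1 + 2 * (a + 1) + p + φ + 1 - 3 =
        μ0 + μ1 + 2 * a + p + φ by omega]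
      rw [show (fun i => b i + 1 - 1) = b from rfl]
      omega
    · exact (H0_le_LL A c hc φ a p μ0 μ1 b (by simp only [dgx]; omega)
        (by simp only [dgy, par]; omega) (fun i => by have := hb i; simp only [mlt]; omega)
        (by simp [mlt]; omega) (by simp [mlt]; omega) (by simp [mlt]; omega)
        (by simp [mlt]; omega)).trans (LL_one hc.z0 hq _ φ (a + 1) _ _
          (by simp [Fin.sum_univ_three]; omega))
  have h6 := end_ar (p := p) (μ0 := μ0) (μ1 := μ1) (b0 := b (σ 0)) (b1 := b (σ 1))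
    (b2 := b (σ 2)) (b3 := b (σ 3)) (b4 := b (σ 4)) key eb eJ
  rw [← h3, ← h1, ← h2, ← q0, ← q1, ← q2, ← q3, ← q4, ← e] at h6
  have h7 := Int.ofNat_le.2 hk
  push_cast at h7
  have h8 := Int.natCast_nonneg φ
  rw [← sub_le_iff_le_add', Int.le_ediv_iff_mul_le two_pos]
  linarith

end Pool.Agent.Lib.MP_d03834_ag.Core
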