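import Pool.Agent.Lib.MP_d03834_ag.Core.CEndC
import Pool.Agent.Lib.MP_d03834_ag.Core.BiEnd
import Pool.Agent.Lib.MP_d03834_ag.Core.KPC

/-! The count for dominant classes at the end of the descent, in divisibility form. -/

set_option autoImplicit false

namespace Pool.Agent.Lib.MP_d03834_ag.Core

open Module End CE
open scoped Polynomial

theorem CE.dv_JC {R ι : Type} [CommRing R] [Fintype ι] {q : Fin 2 → R[X]} {n : Fin 2 → R}
    {z : ι → R} {l : ι → ℤ} {m : ι → ℕ} {F : Cx R} (h : Dv q n z l F)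
    (e : ∀ i, (l i).toNat = m i) : nx q n F ∈ JC z m := fun j =>
  (dvd_of_eq (Finset.prod_congr rfl fun i _ => by beta_reduce; rw [← e]; congr 1; omega)).trans (h j)

theorem CE.nx_A {R : Type} [CommRing R] (t : R) : nx ![Polynomial.C t, 1] ![1, 0] = nA t := by
  refine MvPolynomial.algHom_ext fun i => ?_
  fin_cases i <;> simp [nx, nA]

theorem CE.nx_G {R : Type} [CommRing R] (q0 q1 : R[X]) : nx ![q0, q1] ![0, 1] = nG q0 q1 := by
  refine MvPolynomial.algHom_ext fun i => ?_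
  fin_cases i <;> simp [nx, nG]

variable {O k K : Type} [CommRing O] [IsDomain O] [ValuationRing O] [Field k] [Field K]
  [Algebra O K] [IsFractionRing O K]

/-- the sections are bounded by the limit system -/
theorem HD_le_LC (A : Arc O k) (c : CCfg O k) (hc : NdgC A c.toCfg) (hx : Ex A c)
    (φ a p μ0 μ1 : ℕ) (p0 : μ0 ≤ p) (p1 : μ1 ≤ p) (m : Fin 5 → ℕ) {n j : ℤ} {l : Ix → ℤ}
    (hn : n = (μ0 + μ1 + 2 * a + φ : ℕ)) (hj : j = (μ0 + μ1 + 2 * a + p : ℕ))
    (he : ∀ i, (l (.inl i)).toNat = m i) (a0 : (l (.inr (.inl 0))).toNat = a)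
    (a1 : (l (.inr (.inl 1))).toNat = μ0 + μ1 + a) (b0 : (l (.inr (.inr 0))).toNat = μ0 + a)
    (b1 : (l (.inr (.inr 1))).toNat = μ1 + a) :
    finrank K (HD (algebraMap O K A.t) (fun r i => algebraMap O K (c.q r i))
      (fun l => algebraMap O K (c.z l)) (fun s => algebraMap O K (A.t * c.al s))
      (fun s => algebraMap O K (A.t * c.be s)) n j l) ≤ finrank k (LC c.Q0 c.Q1 c.Q2
      ![0, A.res (c.be 0) - A.res (c.al 1), A.res (c.be 1) - A.res (c.al 1)]
      (fun i => A.res (c.z i)) ((Polynomial.X - Polynomial.C (A.res (c.be 0) - A.res (c.al 1))) *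
        (Polynomial.X - Polynomial.C (A.res (c.be 1) - A.res (c.al 0))))
      (μ0 + μ1 + 2 * a + p + φ + 1) φ ![p, μ0, μ1] m) := by
  subst hn hj
  generalize hL : LC c.Q0 c.Q1 c.Q2 _ _ _ _ _ ![p, μ0, μ1] m = L
  have : FiniteDimensional k L := hL ▸ inferInstance
  let W : Submodule k (A2 k) := L.map (LinearMap.mulLeft k (MvPolynomial.X 0 ^ (μ0 + μ1 + 2 * a)))
  let T : Submodule k (Cx k) := MvPolynomial.weightedHomogeneousSubmodule k bw
    ((μ0 + μ1 + 2 * a + φ : ℕ), (μ0 + μ1 + 2 * a + p : ℕ)) ⊓ W.comap th.toLinearMap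
  have : FiniteDimensional k T := Submodule.finiteDimensional_of_le inf_le_left
  have hi := IsFractionRing.injective O K
  generalize hS : HD (algebraMap O K A.t) _ _ _ _ _ _ l = S
  have : FiniteDimensional K S := Submodule.finiteDimensional_of_le
    (S₂ := MvPolynomial.weightedHomogeneousSubmodule K bw
      ((μ0 + μ1 + 2 * a + φ : ℕ), (μ0 + μ1 + 2 * a + p : ℕ))) fun F hF => (mem_HD.1 (hS ▸ hF)).1
  refine (lim_le A.res _ T fun G hG => ?_).trans (le_trans ?_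
    (Submodule.finrank_map_le (LinearMap.mulLeft k (MvPolynomial.X 0 ^ (μ0 + μ1 + 2 * a))) L))
  · obtain ⟨h1, h2, h3, h4⟩ := mem_HD.1 (hS ▸ hG)
    have k2 := dv_JC h2 he
    have k3 := dv_JC h3 (m := ![a, μ0 + μ1 + a]) (Fin.forall_fin_two.2 ⟨a0, a1⟩)
    have k4 := dv_JC h4 (m := ![μ0 + a, μ1 + a]) (Fin.forall_fin_two.2 ⟨b0, b1⟩)
    have q1 : ∀ r, qd (fun i => algebraMap O K (c.q r i)) = (qd (c.q r)).map (algebraMap O K) :=
      fun r => by simp [qd]
    rw [nx_G, q1, q1, ← nG_map] at k2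
    rw [← Polynomial.C_0, nx_A, ← map_zero (algebraMap O K), ← nA_map] at k3
    rw [nx_A, ← nA_map] at k4
    refine ⟨(h1.of_map hi).map A.res, ?_⟩
    obtain ⟨H, h5, h6⟩ := lim_LC A.res A.unit A.t0 ((A.ker _).2 dvd_rfl) (Q0 := c.Q0) (Q1 := c.Q1)
      (Q2 := c.Q2) (by simp [qd, hx.r00, hx.r01, hx.r02])
      (by simp [qd, qq, hx.r10, hx.r11, hx.r12]) hc.z0 φ a p μ0 μ1 p0 p1 m
      (h1.of_map hi) (JC_pull hi k2) (JC_pull hi k3) (JC_pull hi k4)
    exact ⟨H, hL ▸ h5, h6⟩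
  · exact LinearMap.finrank_le_finrank_of_injective (f := th.toLinearMap.restrict (p := T) (q := W)
      fun F hF => hF.2) (LinearMap.ker_eq_bot.1 (LinearMap.ker_eq_bot'.2 fun F hF =>
        Subtype.ext (th_inj F.2.1 (congrArg Subtype.val hF))))

/-- the count at the end of the descent -/
theorem endC (A : Arc O k) : EndC A K := by
  intro c u ε hc hx hu h0 hε
  obtain ⟨⟨n, J⟩, m, d⟩ := u
  obtain ⟨u1, u2, u3, u4⟩ := hu
  simp only at u1 u2 u3 u4
  let σ := Tuple.sort m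
  have mo : Monotone (m ∘ σ) := Tuple.monotone_sort m
  have m0 : m (σ 0) ≤ m (σ 1) := mo (by decide : (0 : Fin 5) ≤ 1)
  have m1 : m (σ 1) ≤ m (σ 2) := mo (by decide : (1 : Fin 5) ≤ 2)
  have m2 : m (σ 2) ≤ m (σ 3) := mo (by decide : (2 : Fin 5) ≤ 3)
  have m3 : m (σ 3) ≤ m (σ 4) := mo (by decide : (3 : Fin 5) ≤ 4)
  have m4 := u2 (σ 3) (σ 4) (σ.injective.ne (by decide))
  have m5 : ∀ i, m (σ 0) ≤ m i := fun i => by
    simpa using mo (Fin.zero_le (σ.symm i))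
  rw [← Equiv.sum_comp σ, Fin.sum_univ_five] at u1
  have e : cip ((n, J), m, d) ((n, J), m, d) = J * J - (J - n) * (J - n) - d 0 * d 0 - d 1 * d 1 -
      (m (σ 0) * m (σ 0) + m (σ 1) * m (σ 1) + m (σ 2) * m (σ 2) + m (σ 3) * m (σ 3) +
        m (σ 4) * m (σ 4)) := by
    simp only [cip]
    rw [← Equiv.sum_comp σ, Fin.sum_univ_five, Fin.sum_univ_two]
    ring
  have d0 := u3 0
  have d1 := u3 1
  have d2 := u4 0
  have d3 := u4 1
  have m6 : 1 ≤ m (σ 0) := by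
    by_contra hlt
    have : m (σ 0) = 0 ∧ m (σ 1) = m (σ 4) ∧ m (σ 2) = m (σ 4) ∧ m (σ 3) = m (σ 4) ∧ d 0 = 0 ∧
      d 1 = 0 ∧ n = 2 * m (σ 4) ∧ J = 2 * m (σ 4) := by omega
    obtain ⟨e0, e1, e2, e3, e4, e5, e6, e7⟩ := this
    rw [e, e0, e1, e2, e3, e4, e5, e6, e7] at h0
    nlinarith
  obtain ⟨b, hb⟩ : ∃ b : Fin 5 → ℕ, ∀ i, m i = b i + 1 :=
    ⟨fun i => (m i - 1).toNat, fun i => by have := m5 i; beta_reduce; omega⟩
  obtain ⟨μ0, h1⟩ := Int.eq_ofNat_of_zero_le d2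
  obtain ⟨μ1, h2⟩ := Int.eq_ofNat_of_zero_le d3
  obtain ⟨p, h3⟩ := Int.eq_ofNat_of_zero_le (d2.trans d0)
  obtain ⟨φ, h4⟩ := Int.eq_ofNat_of_zero_le (Int.emod_nonneg (n + d 0 + d 1) two_ne_zero)
  obtain ⟨a, h5⟩ := Int.eq_ofNat_of_zero_le (by omega : 0 ≤ (n - d 0 - d 1) / 2 - 1)
  have q0 := hb (σ 0)
  have q1 := hb (σ 1)
  have q2 := hb (σ 2)
  have q3 := hb (σ 3)
  have q4 := hb (σ 4)
  have eJ : J = μ0 + μ1 + 2 * a + p + φ + 2 := by omega
  have en : n = μ0 + μ1 + 2 * a + φ + 2 := by omega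
  have eb : b (σ 0) + b (σ 1) + b (σ 2) + b (σ 3) + b (σ 4) + 5 =
    2 * (μ0 + μ1 + 2 * a + p + φ + 2) := by omega
  have hs0 : ∀ r, ![0, A.res (c.be 0) - A.res (c.al 1), A.res (c.be 1) - A.res (c.al 1)] r ≠
      c.Q0 := fun r => by
    fin_cases r
    exacts [hc.Q0.symm, hc.sl 0, hc.sl 1]
  have hq : ((Polynomial.X - Polynomial.C (A.res (c.be 0) - A.res (c.al 1))) *
      (Polynomial.X - Polynomial.C (A.res (c.be 1) - A.res (c.al 0)))).natDegree = 2 := by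
    rw [Polynomial.natDegree_mul (Polynomial.X_sub_C_ne_zero _) (Polynomial.X_sub_C_ne_zero _),
      Polynomial.natDegree_X_sub_C, Polynomial.natDegree_X_sub_C]
  have key := PC_num (Q1 := c.Q1) hc.Q2 hs0 (z := (fun i => A.res (c.z i)) ∘ σ)
    (fun i => hc.z0 (σ i))
    (N := μ0 + μ1 + 2 * a + p + φ) (p := fun r => ![p, μ0, μ1] r - 1) (m := b ∘ σ) (by
      simp only [End.Pl, Function.comp_apply, Matrix.cons_val_zero, Matrix.cons_val_one,
        Matrix.cons_val]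
      omega)
  rw [← PC_perm σ] at key
  have hk : finrank K (c.HC A K ε ((n, J), m, d)) ≤ finrank k (PC c.Q0 c.Q1 c.Q2
      ![0, A.res (c.be 0) - A.res (c.al 1), A.res (c.be 1) - A.res (c.al 1)]
      (fun i => A.res (c.z i)) (μ0 + μ1 + 2 * a + p + φ) (fun r => ![p, μ0, μ1] r - 1) b) +
      (a + 1) := by
    rcases hε with rfl | rfl
    · refine (HD_le_LC A c hc hx φ (a + 1) p μ0 μ1 (by omega) (by omega) (fun i => b i + 1)
        (by simp only [dgx]; omega)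
        (by simp only [dgy, par]; omega) (fun i => by have := hb i; simp only [mlt]; omega)
        (by simp [mlt]; omega) (by simp [mlt]; omega) (by simp [mlt]; omega)
        (by simp [mlt]; omega)).trans ((LC_two hc.Q2 hs0 hc.z0 hq _ φ (a + 1 + φ) (by omega) _ _
          (by simp [Fin.sum_univ_three]; omega)).trans ?_)
      rw [← Equiv.sum_comp σ, Fin.sum_univ_five, show μ0 + μ1 + 2 * (a + 1) + p + φ + 1 - 3 =
        μ0 + μ1 + 2 * a + p + φ by omega]
      rw [show (fun i => b i + 1 - 1) = b from rfl]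
      omega
    · exact (HD_le_LC A c hc hx φ a p μ0 μ1 (by omega) (by omega) b (by simp only [dgx]; omega)
        (by simp only [dgy, par]; omega) (fun i => by have := hb i; simp only [mlt]; omega)
        (by simp [mlt]; omega) (by simp [mlt]; omega) (by simp [mlt]; omega)
        (by simp [mlt]; omega)).trans (LC_one hc.z0 hq _ φ (a + 1) _ _
          (by simp [Fin.sum_univ_three]; omega))
  have h6 := end_ar (p := p) (μ0 := μ0) (μ1 := μ1) (b0 := b (σ 0)) (b1 := b (σ 1))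
    (b2 := b (σ 2)) (b3 := b (σ 3)) (b4 := b (σ 4)) key eb eJ
  rw [← h3, ← h1, ← h2, ← q0, ← q1, ← q2, ← q3, ← q4, ← e] at h6
  have h7 := Int.ofNat_le.2 hk
  push_cast at h7
  have h8 := Int.natCast_nonneg φ
  rw [← sub_le_iff_le_add', Int.le_ediv_iff_mul_le two_pos]
  linarith

end Pool.Agent.Lib.MP_d03834_ag.Core
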