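import Pool.Agent.Lib.MP_d03834_ag.Core.ClG
import Pool.Agent.Lib.MP_d03834_ag.Core.ClHonB
import Pool.Agent.Lib.MP_d03834_ag.Core.KPC

/-! The exchange of the lines A and B for sections in divisibility form. -/

set_option autoImplicit false

namespace Pool.Agent.Lib.MP_d03834_ag.Core.Fb

open scoped Polynomial
open MvPolynomial (aeval C X)
open Module

section field
variable {K : Type} [Field K]

/-- the involution y 0 ↦ t y 1 - y 0 -/
noncomputable def fl (t : K) : Cx K →ₐ[K] Cx K := aeval ![X 0, X 1, C t * X 3 - X 2, X 3]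

theorem fl_fl (t : K) (F : Cx K) : fl t (fl t F) = F := by
  have : (fl t).comp (fl t) = AlgHom.id K _ := by
    refine MvPolynomial.algHom_ext fun i => ?_
    fin_cases i <;> simp [fl]
  exact DFunLike.congr_fun this F

theorem fl_bih (t : K) {p d : ℤ} {F : Cx K} (h : Bih p d F) : Bih p d (fl t F) :=
  (h.aeval (a := 1) (b := 0) (c := 0) (d := 1) ![X 0, X 1, C t * X 3 - X 2, X 3] bih_X0 bih_X1
    ((bih_X3.cmul t).sub bih_X2) bih_X3).of_eq (by ring) (by ring)

theorem fl_dv {ι : Type} [Fintype ι] (t : K) {q : Fin 2 → K[X]} {n : Fin 2 → K} {z : ι → K}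
    {m : ι → ℤ} {F : Cx K}
    (h : Dv ![Polynomial.C t * q 1 - q 0, q 1] ![t * n 1 - n 0, n 1] z m F) :
    Dv q n z m (fl t F) := by
  have : (nx q n).comp (fl t) = nx ![Polynomial.C t * q 1 - q 0, q 1] ![t * n 1 - n 0, n 1] := by
    refine MvPolynomial.algHom_ext fun i => ?_
    fin_cases i <;> simp [fl, nx]
    ring
  intro j
  rw [← AlgHom.comp_apply, this]
  exact h j

theorem dv_perm {q : Fin 2 → K[X]} {n : Fin 2 → K} {z z' : Fin 2 → K} {m m' : Fin 2 → ℤ}
    {F : Cx K} (h : Dv q n z m F) (s : Fin 2) (h0 : z' 0 = z s) (h1 : z' 1 = z s.rev)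
    (m0 : m' 0 = m s) (m1 : m' 1 = m s.rev) : Dv q n z' m' F := fun j => by
  have := h j
  rw [Fin.prod_univ_two] at this ⊢
  rw [h0, h1, m0, m1]
  fin_cases s
  · exact this
  · rw [mul_comm]
    exact this

theorem flip_HD {t : K} {q q' : Fin 2 → Fin 3 → K} {z : Fin 5 → K} {a b a' b' : Fin 2 → K}
    {p d : ℤ} {m m' : Ix → ℤ} (s : Fin 2) (hz : ∀ l, qv (q 0) (z l) ≠ 0)
    (q0 : ∀ r, q' 0 r = q 0 r - t * q 1 r) (q1 : ∀ r, q' 1 r = -q 1 r) (a0 : a' 0 = b s)
    (a1 : a' 1 = b s.rev) (b0 : b' 0 = a s) (b1 : b' 1 = a s.rev)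
    (me : ∀ l, m' (.inl l) = m (.inl l)) (ma0 : m' (.inr (.inl 0)) = m (.inr (.inr s)))
    (ma1 : m' (.inr (.inl 1)) = m (.inr (.inr s.rev)))
    (mb0 : m' (.inr (.inr 0)) = m (.inr (.inl s)))
    (mb1 : m' (.inr (.inr 1)) = m (.inr (.inl s.rev))) :
    finrank K (HD t q z a b p d m) ≤ finrank K (HD t q' z a' b' p d m') := by
  have := HD_fin t q' z a' b' p d m'
  refine brk_le (fl t).toLinearMap 1 (fun F _ e => ?_)
    fun F hF => ⟨fl t F, ?_, (one_mul _).symm⟩
  · rw [← fl_fl t F, show fl t F = 0 from e, map_zero]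
  obtain ⟨h1, h2, h3, h4⟩ := mem_HD.1 hF
  refine mem_HD.2 ⟨fl_bih t h1, fl_dv t ?_, fl_dv t ?_, fl_dv t ?_⟩
  · rw [funext me]
    refine Dv.regraph h1 (fun l => by simpa [qd_eval] using hz l) (fun l => Or.inl ?_) ?_ h2
    · have := hz l
      simp only [qv] at this
      simp only [Matrix.cons_val_zero, Matrix.cons_val_one, Polynomial.eval_sub,
        Polynomial.eval_mul, Polynomial.eval_C, qd_eval, qv, q0, q1]
      exact fun e => this (by linear_combination -e)
    · convert dvd_zero _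
      simp only [Matrix.cons_val_zero, Matrix.cons_val_one, qd, q0, q1, map_sub, map_mul, map_neg]
      ring
  · exact Dv.regraph h1 (by simp) (by simp) (by simp) (dv_perm h4 s a0 a1 ma0 ma1)
  · exact Dv.regraph h1 (by simp) (by simp) (by simp) (dv_perm h3 s b0 b1 mb0 mb1)

end field

variable {O k Γ : Type} [CommRing O] [Field k] [LinearOrderedCommGroupWithZero Γ]

theorem stepFC (A : Arc O k) (K : Type) [Field K] [Algebra O K] (v : Valuation k Γ) :
    StepFC A K v := by
  intro c χ u s h hx hχ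
  have k1 : ∀ l, ∃ x, x * (A.t * c.η l - 1) = c.η l := fun l => A.div _ (by simp [A.rt])
  choose η' hη using k1
  have hN : Cfg.N A ⟨c.z, η', ![c.be s, c.be s.rev], fun r => if r = s then c.al 0 else c.al 1,
      -c.Q0, -c.Q1, -c.Q2⟩ = -c.N A := by
    fin_cases s <;> simp [Cfg.N] <;> ring
  refine ⟨⟨⟨c.z, η', ![c.be s, c.be s.rev], fun r => if r = s then c.al 0 else c.al 1,
      -c.Q0, -c.Q1, -c.Q2⟩, ![fun r => c.q 0 r - A.t * c.q 1 r, fun r => -c.q 1 r]⟩,
      ⟨h.z0, fun l => ?_, ?_, ?_, fun r => ?_, fun l l' hl => ?_⟩,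
      ⟨?_, ?_, ?_, ?_, ?_, ?_, fun l => ?_⟩, fun ε => ?_⟩
  · have e := congrArg A.res (hη l)
    simp only [map_sub, map_mul, map_one, A.rt] at e
    linear_combination -A.res (c.z l) * e - h.cur l
  · rw [hN]
    exact neg_ne_zero.2 h.N0
  · rw [hN, Lat.flip_orth χ (by rw [DP.lat_ip, cD_ip, cip_eb]; rfl)]
    linear_combination -h.e5
  · rw [hN]
    by_cases e : r = s
    · rw [e, Lat.flip_self (eb_line s) (hχ.2 _)]
      have := h.eb s
      simp only [Invo.one, if_true, Matrix.cons_val_one, Matrix.cons_val_zero]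
      fin_cases s <;> simp [Cfg.N] at this ⊢ <;> linear_combination this
    · rw [Lat.flip_orth χ (by
        rw [DP.lat_ip, cD_ip, cip_eb]
        simp [eb, Pi.single_eq_of_ne (Ne.symm e)])]
      have e' : s.rev = r := by fin_cases s <;> fin_cases r <;> simp at e ⊢
      simp only [if_neg e, e', Matrix.cons_val_one, Matrix.cons_val_zero]
      linear_combination -h.eb r
  · rw [Lat.flip_orth χ (by rw [DP.lat_ip, cD_ip, cip_eb]; rfl)]
    linear_combination -h.aV l l' hl
  · simp [A.rt, hx.r00]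
  · simp [A.rt, hx.r01]
  · simp [A.rt, hx.r02]
  · simp [hx.r10]
  · simp [hx.r11]
  · simp [hx.r12]
  · have := hx.on l
    simp only [qv, Matrix.cons_val_zero, Matrix.cons_val_one] at this ⊢
    linear_combination (c.q 0 0 + c.q 0 1 * c.z l + c.q 0 2 * c.z l ^ 2) * hη l +
      (A.t * η' l - 1) * this
  · have e1 : dgy ε (cD.lat.refl (eb s) u) = dgy ε u := by
      rw [refl_eb]
      fin_cases s <;> simp [dgy, par] <;> omega
    have e2 : dgx ε (cD.lat.refl (eb s) u) = dgx ε u := by rw [refl_eb]; rfl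
    rw [CCfg.HC, CCfg.HC, e1, e2, refl_eb]
    refine flip_HD s (fun l => ?_) (fun r => by simp) (fun r => by simp) rfl rfl ?_ ?_
      (fun l => rfl) ?_ ?_ ?_ ?_
    · have : IsUnit (qv (c.q 0) (c.z l)) := A.unit _ (by
        simpa [qv, hx.r00, hx.r01, hx.r02] using h.z0 l)
      simpa [qv] using (this.map (algebraMap O K)).ne_zero
    all_goals fin_cases s <;> simp [mlt] <;> omega

end Pool.Agent.Lib.MP_d03834_ag.Core.Fb
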