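import Pool.Agent.Lib.MP_d03834_ag.Core.ClG
import Pool.Agent.Lib.MP_d03834_ag.Core.KPC

/-! The shear at a point of A and a point of B for sections in divisibility form. -/

set_option autoImplicit false

namespace Pool.Agent.Lib.MP_d03834_ag.Core

open Polynomial Module
open scoped PowerSeries

namespace Hs

/-- triangular systems of divisibility conditions -/
theorem tri {S : Type} [CommRing S] (D c : ℕ → S) (g : ℕ → S[X]) (n : ℕ)
    (hD : ∀ i j, i ≤ j → D j ∣ D i) (hg : ∀ l, IsUnit ((g l).coeff 0)) :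
    (∀ j, D j ∣ (∑ l ∈ Finset.range n, C (c l) * (X ^ l * g l)).coeff j) ↔
      ∀ l, l < n → D l ∣ c l := by
  have e : ∀ j l, (C (c l) * (X ^ l * g l)).coeff j =
      if l ≤ j then c l * (g l).coeff (j - l) else 0 := fun j l => by
    rw [coeff_C_mul, coeff_X_pow_mul']
    split_ifs <;> simp
  simp only [finsetSum_coeff, e]
  refine ⟨fun h j => ?_, fun h j => Finset.dvd_sum fun l hl => ?_⟩
  · induction j using Nat.strong_induction_on with
    | _ j ih =>
      intro hj
      have h1 := h j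
      rw [← Finset.add_sum_erase _ _ (Finset.mem_range.2 hj), if_pos le_rfl, Nat.sub_self] at h1
      refine (hg j).dvd_mul_right.1 ((dvd_add_left (Finset.dvd_sum fun l hl => ?_)).1 h1)
      obtain ⟨h2, h3⟩ := Finset.mem_erase.1 hl
      split_ifs with h4
      · exact ((hD l j h4).trans (ih l (by omega) (Finset.mem_range.1 h3))).mul_right _
      · exact dvd_zero _
  · split_ifs with h4
    · exact ((hD l j h4).trans (h l (Finset.mem_range.1 hl))).mul_right _
    · exact dvd_zero _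

variable {K : Type} [Field K]

/-- the expansion of F in the basis y0, y0 - t y1 has the coefficients c -/
def Rep (t : K) (d : ℕ) (c : ℕ → K[X]) (F : Cx K) : Prop :=
  ∀ (R : Type) [CommRing R] [Algebra K R] (x u v : R), MvPolynomial.aeval ![x, 1, u, v] F =
    ∑ l ∈ Finset.range (d + 1), aeval x (c l) * (u ^ l * (u - algebraMap K R t * v) ^ (d - l))

theorem blin_ev {R : Type} [CommRing R] [Algebra K R] (a b c d : K) (x u v : R) (F : Cx K) :
    MvPolynomial.aeval ![x, 1, u, v] (blin 1 0 0 1 a b c d F) =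
      MvPolynomial.aeval ![x, 1, algebraMap K R a * u + algebraMap K R b * v,
        algebraMap K R c * u + algebraMap K R d * v] F := by
  rw [← AlgHom.comp_apply]
  congr 1
  refine MvPolynomial.algHom_ext fun i => ?_
  fin_cases i <;> simp [blin]

theorem exists_rep {t : K} (ht : t ≠ 0) {p d : ℕ} {F : Cx K} (h : Bih p d F) :
    ∃ c, Rep t d c F ∧ ∀ l, (c l).natDegree ≤ p := by
  classical
  have h1 := bih_iff.1 (h.blin 1 0 0 1 1 0 t⁻¹ (-t⁻¹))
  have h2 : ∀ (R : Type) [CommRing R] [Algebra K R] (x u v : R),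
      MvPolynomial.aeval ![x, 1, u, v] F = MvPolynomial.aeval
        ![x, 1, u, u - algebraMap K R t * v] (blin 1 0 0 1 1 0 t⁻¹ (-t⁻¹) F) := by
    intro R _ _ x u v
    have e : algebraMap K R t⁻¹ * algebraMap K R t = 1 := by
      rw [← map_mul, inv_mul_cancel₀ ht, map_one]
    rw [blin_ev, map_one, map_zero, one_mul, zero_mul, add_zero, map_neg,
      show algebraMap K R t⁻¹ * u + -algebraMap K R t⁻¹ * (u - algebraMap K R t * v) = v by
        linear_combination v * e]
  generalize blin 1 0 0 1 1 0 t⁻¹ (-t⁻¹) F = G at h1 h2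
  refine ⟨fun l => ∑ μ ∈ G.support with μ 2 = l, monomial (μ 0) (G.coeff μ), ?_, fun l => ?_⟩
  · intro R _ _ x u v
    rw [h2]
    conv_lhs => rw [G.as_sum, map_sum]
    rw [← Finset.sum_fiberwise_of_maps_to (g := fun μ : Fin 4 →₀ ℕ => μ 2)
      (t := Finset.range (d + 1)) fun μ hμ => by
        have := h1 μ (MvPolynomial.mem_support_iff.1 hμ)
        rw [Finset.mem_range]
        omega]
    refine Finset.sum_congr rfl fun l _ => ?_
    rw [map_sum, Finset.sum_mul]
    refine Finset.sum_congr rfl fun μ hμ => ?_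
    obtain ⟨h3, h4⟩ := Finset.mem_filter.1 hμ
    have := h1 μ (MvPolynomial.mem_support_iff.1 h3)
    rw [MvPolynomial.aeval_monomial, Finsupp.prod_fintype _ _ fun _ => pow_zero _,
      Fin.prod_univ_four, aeval_monomial, h4, show μ 3 = d - l by omega]
    simp only [Matrix.cons_val_zero, Matrix.cons_val_one, Matrix.cons_val]
    ring
  · refine natDegree_sum_le_of_forall_le _ _ fun μ hμ => (natDegree_monomial_le _).trans ?_
    have := h1 μ (MvPolynomial.mem_support_iff.1 (Finset.mem_filter.1 hμ).1)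
    omega

theorem exists_form (t : K) (p : ℤ) (d : ℕ) (c : ℕ → K[X])
    (h : ∀ l, l ≤ d → c l ≠ 0 → ((c l).natDegree : ℤ) ≤ p) : ∃ F, Rep t d c F ∧ Bih p d F := by
  refine ⟨blin 1 0 0 1 1 0 1 (-t) (∑ l ∈ Finset.range (d + 1), ∑ i ∈ (c l).support,
    MvPolynomial.C ((c l).coeff i) * (MvPolynomial.X 0 ^ i * MvPolynomial.X 1 ^ (p.toNat - i) *
      (MvPolynomial.X 2 ^ l * MvPolynomial.X 3 ^ (d - l)))), ?_, Bih.blin ?_ ..⟩
  · intro R _ _ x u v
    rw [blin_ev, map_sum]
    refine Finset.sum_congr rfl fun l _ => ?_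
    rw [map_sum, aeval_def, eval₂_eq_sum, sum_def, Finset.sum_mul]
    refine Finset.sum_congr rfl fun i _ => ?_
    simp [sub_eq_add_neg, mul_assoc]
  · refine MvPolynomial.IsWeightedHomogeneous.sum _ _ _ fun l hl =>
      MvPolynomial.IsWeightedHomogeneous.sum _ _ _ fun i hi => ?_
    have h1 := Finset.mem_range.1 hl
    have h2 := h l (by omega) fun e => by simp [e] at hi
    have h3 := le_natDegree_of_mem_supp i hi
    exact ((((bih_X0.pow _).mul (bih_X1.pow _)).mul ((bih_X2.pow _).mul (bih_X3.pow _))).cmul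
      _).of_eq (by omega) (by omega)

theorem aeval_CX (c : K[X]) : aeval (C X : K[X][X]) c = C c := by
  have : (aeval (C X : K[X][X]) : K[X] →ₐ[K] K[X][X]) = IsScalarTower.toAlgHom K K[X] K[X][X] :=
    algHom_ext (by simp)
  rw [this]
  simp

theorem Rep.dA {t : K} (ht : t ≠ 0) {d : ℕ} {c : ℕ → K[X]} {F : Cx K} (h : Rep t d c F)
    (D : ℕ → K[X]) (hD : ∀ i j, i ≤ j → D j ∣ D i) :
    (∀ j, D j ∣ (nx ![0, 1] ![1, 0] F).coeff j) ↔ ∀ l, l < d + 1 → D l ∣ c l := by
  rw [← tri D c (fun l => (X - C (C t)) ^ (d - l)) (d + 1) hD fun l => by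
    rw [coeff_zero_eq_eval_zero]
    simpa using ((Ne.isUnit ht).map C).neg.pow _, nx, h]
  simp [aeval_CX]

theorem Rep.dB {t : K} (ht : t ≠ 0) {d : ℕ} {c : ℕ → K[X]} {F : Cx K} (h : Rep t d c F)
    (D : ℕ → K[X]) (hD : ∀ i j, i ≤ j → D j ∣ D i) :
    (∀ j, D j ∣ (nx ![C t, 1] ![1, 0] F).coeff j) ↔ ∀ l, l < d + 1 → D l ∣ c (d - l) := by
  rw [← tri D (fun l => c (d - l)) (fun l => (C (C t) + X) ^ (d - l)) (d + 1) hD fun l => by
    rw [coeff_zero_eq_eval_zero]
    simpa using ((Ne.isUnit ht).map C).pow _, nx, h, ← Finset.sum_range_reflect]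
  rw [Finset.sum_congr rfl fun l hl => ?_]
  have := Finset.mem_range.1 hl
  rw [Nat.add_sub_cancel, show d - (d - l) = l by omega]
  simp [aeval_CX, mul_comm]

theorem pw_dvd (a b : K) (m n : ℤ) (i j : ℕ) (h : i ≤ j) :
    (X - C a) ^ (m - j).toNat * (X - C b) ^ (n - j).toNat ∣
      (X - C a) ^ (m - i).toNat * (X - C b) ^ (n - i).toNat :=
  mul_dvd_mul (pow_dvd_pow _ (by omega)) (pow_dvd_pow _ (by omega))

theorem cop {a b : K} {m n : ℕ} (h : a = b → m = 0 ∨ n = 0) :
    IsCoprime ((X - C a) ^ m) ((X - C b) ^ n) := by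
  by_cases e : a = b
  · rcases h e with rfl | rfl
    · exact isCoprime_one_left
    · exact isCoprime_one_right
  · exact (isCoprime_X_sub_C_of_isUnit_sub (sub_ne_zero.2 e).isUnit).pow

/-- G is the transform of F -/
def Rel (α β δ : K) (μ ν : ℤ) (F G : Cx K) : Prop :=
  ∀ (R : Type) [CommRing R] [Algebra K R] (x u v : R),
    MvPolynomial.aeval ![x, 1, (x - algebraMap K R α) * u,
      (x - algebraMap K R β) * v - algebraMap K R δ * u] F *
      ((x - algebraMap K R α) ^ (-μ).toNat * (x - algebraMap K R β) ^ (-ν).toNat) =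
    MvPolynomial.aeval ![x, 1, u, v] G *
      ((x - algebraMap K R α) ^ μ.toNat * (x - algebraMap K R β) ^ ν.toNat)

theorem core {t α β δ a b : K} (ht : t ≠ 0) (hδ : α - β = t * δ) {p d μ ν m n : ℤ} {F : Cx K}
    (hF : Bih p d F) (c1 : a = β → m + ν ≤ d) (c2 : a = b → m + n ≤ d) (c3 : α = β → μ + ν ≤ d)
    (c4 : α = b → μ + n ≤ d)
    (hA : ∀ j : ℕ, (X - C a) ^ (m - j).toNat * (X - C α) ^ (μ - j).toNat ∣
      (nx ![0, 1] ![1, 0] F).coeff j)
    (hB : ∀ j : ℕ, (X - C β) ^ (ν - j).toNat * (X - C b) ^ (n - j).toNat ∣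
      (nx ![C t, 1] ![1, 0] F).coeff j) :
    ∃ G, Bih (p + d - μ - ν) d G ∧ Rel α β δ μ ν F G ∧
      (∀ j : ℕ, (X - C a) ^ (m - j).toNat * (X - C β) ^ (d - ν - j).toNat ∣
        (nx ![0, 1] ![1, 0] G).coeff j) ∧
      ∀ j : ℕ, (X - C α) ^ (d - μ - j).toNat * (X - C b) ^ (n - j).toNat ∣
        (nx ![C t, 1] ![1, 0] G).coeff j := by
  by_cases h0 : F = 0
  · exact ⟨0, bih_zero _ _, fun R _ _ x u v => by simp [h0], by simp, by simp⟩
  lift p to ℕ using not_lt.1 fun e => h0 (hF.neg_deg (.inl e))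
  lift d to ℕ using not_lt.1 fun e => h0 (hF.neg_deg (.inr e))
  obtain ⟨c, hc, hd⟩ := exists_rep ht hF
  rw [hc.dA ht _ (pw_dvd _ _ _ _)] at hA
  rw [hc.dB ht _ (pw_dvd _ _ _ _)] at hB
  have h1 : ∀ l : ℕ, ∃ r, l ≤ d → c l = (X - C a) ^ (m - l).toNat * (X - C α) ^ (μ - l).toNat *
      ((X - C β) ^ (ν - (d - l : ℕ)).toNat * (X - C b) ^ (n - (d - l : ℕ)).toNat) * r := by
    intro l
    by_cases hl : l ≤ d
    · have h2 := hB (d - l) (by omega)
      rw [show d - (d - l) = l by omega] at h2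
      obtain ⟨r, hr⟩ := IsCoprime.mul_dvd (IsCoprime.mul_left
        ((cop fun e => by have := c1 e; omega).mul_right (cop fun e => by have := c2 e; omega))
        ((cop fun e => by have := c3 e; omega).mul_right (cop fun e => by have := c4 e; omega)))
        (hA l (by omega)) h2
      exact ⟨r, fun _ => hr⟩
    · exact ⟨0, fun e => absurd e hl⟩
  choose r hr using h1
  let c' : ℕ → K[X] := fun l => (X - C a) ^ (m - l).toNat * (X - C β) ^ (d - ν - l).toNat *
    ((X - C α) ^ (d - μ - (d - l : ℕ)).toNat * (X - C b) ^ (n - (d - l : ℕ)).toNat) * r l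
  have h2 : ∀ l, l ≤ d → c l * ((X - C α) ^ l * (X - C β) ^ (d - l)) *
      ((X - C α) ^ (-μ).toNat * (X - C β) ^ (-ν).toNat) =
      c' l * ((X - C α) ^ μ.toNat * (X - C β) ^ ν.toNat) := fun l hl => by
    have e1 : (X - C α) ^ (μ - l).toNat * (X - C α) ^ l * (X - C α) ^ (-μ).toNat =
        (X - C α) ^ (d - μ - (d - l : ℕ)).toNat * (X - C α) ^ μ.toNat := by
      simp only [← pow_add]
      congr 1
      omega
    have e2 : (X - C β) ^ (ν - (d - l : ℕ)).toNat * (X - C β) ^ (d - l) * (X - C β) ^ (-ν).toNat =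
        (X - C β) ^ (d - ν - l).toNat * (X - C β) ^ ν.toNat := by
      simp only [← pow_add]
      congr 1
      omega
    have e3 := congrArg₂ (· * ·) e1 e2
    rw [hr l hl]
    simp only [c']
    linear_combination (X - C a) ^ (m - l).toNat * (X - C b) ^ (n - (d - l : ℕ)).toNat * r l * e3
  obtain ⟨G, hG, hb⟩ := exists_form t (p + d - μ - ν) d c' fun l hl h3 => by
    have h4 := congrArg natDegree (h2 l hl)
    have mo : ∀ i j : ℕ, ((X - C α) ^ i * (X - C β) ^ j).Monic := fun i j =>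
      ((monic_X_sub_C _).pow _).mul ((monic_X_sub_C _).pow _)
    have de : ∀ i j : ℕ, ((X - C α) ^ i * (X - C β) ^ j).natDegree = i + j := fun i j => by
      rw [((monic_X_sub_C _).pow _).natDegree_mul ((monic_X_sub_C _).pow _)]
      simp
    rw [natDegree_mul h3 (mo _ _).ne_zero, de] at h4
    have h5 := natDegree_mul_le (p := c l * ((X - C α) ^ l * (X - C β) ^ (d - l)))
      (q := (X - C α) ^ (-μ).toNat * (X - C β) ^ (-ν).toNat)
    have h6 := natDegree_mul_le (p := c l) (q := (X - C α) ^ l * (X - C β) ^ (d - l))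
    rw [de] at h5 h6
    have := hd l
    omega
  refine ⟨G, hb, fun R _ _ x u v => ?_, (hG.dA ht _ (pw_dvd _ _ _ _)).2 fun l _ =>
    (dvd_mul_right _ _).mul_right _, (hG.dB ht _ (pw_dvd _ _ _ _)).2 fun l hl => ?_⟩
  · rw [hc, hG, Finset.sum_mul, Finset.sum_mul]
    refine Finset.sum_congr rfl fun l hl => ?_
    have h3 := congrArg (aeval x) (h2 l (by have := Finset.mem_range.1 hl; omega))
    have h4 := congrArg (algebraMap K R) hδ
    simp only [map_mul, map_pow, map_sub, aeval_X, aeval_C] at h3 h4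
    rw [show (x - algebraMap K R α) * u - algebraMap K R t *
      ((x - algebraMap K R β) * v - algebraMap K R δ * u) =
      (x - algebraMap K R β) * (u - algebraMap K R t * v) by linear_combination (-u) * h4,
      mul_pow, mul_pow]
    linear_combination u ^ l * (u - algebraMap K R t * v) ^ (d - l) * h3
  · simp only [c']
    rw [show d - (d - l) = l by omega]
    exact (dvd_mul_left _ _).mul_right _

/-- the transform along a graph whose nodes are off the two fibres -/
theorem Rel.gam {ι : Type} [Fintype ι] {α β δ : K} {p d μ ν : ℤ} {F G : Cx K}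
    (h : Rel α β δ μ ν F G) (hF : Bih p d F) {q0 q1 : K[X]} {z : ι → K} {m : ι → ℤ}
    (h1 : ∀ l, z l ≠ α) (h2 : ∀ l, z l ≠ β) (hD : Dv ![q0, q1] ![0, 1] z m F) :
    Dv ![q0 * (X - C β), C δ * q0 + q1 * (X - C α)] ![0, 1] z m G := by
  intro j
  have e := h K[X][X] (C X) (C (q0 * (X - C β)))
    (C (C δ * q0 + q1 * (X - C α)) + C (X - C α) * X)
  have e1 := hF.scale (R := K[X][X]) 1 (C ((X - C α) * (X - C β))) (C X) 1 (C q0) (C q1 + X)
  have e2 := nx_eval ![q0 * (X - C β), C δ * q0 + q1 * (X - C α)] ![0, 1] G (C X : K[X][X])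
    (C (X - C α) * X)
  have e3 : ((aeval (C X : K[X][X]) : K[X] →ₐ[K] K[X][X]) : K[X] →+* K[X][X]) = C :=
    RingHom.ext aeval_CX
  have e4 : ∀ a : K, (C X : K[X][X]) - algebraMap K K[X][X] a = C (X - C a) := fun a => by simp
  have e5 : nx ![q0, q1] ![0, 1] F = MvPolynomial.aeval ![C X, 1, C q0, C q1 + X] F := by
    simp [nx]
  rw [e3, ← comp] at e2
  simp only [aeval_CX, Matrix.cons_val_zero, Matrix.cons_val_one, map_zero, map_one, mul_zero,
    add_zero, mul_one] at e2
  rw [one_mul, one_mul, one_pow, one_mul, ← e5] at e1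
  rw [e2, e4, e4, show C (X - C α) * C (q0 * (X - C β)) =
      (C ((X - C α) * (X - C β)) * C q0 : K[X][X]) by simp only [map_mul]; ring,
    show C (X - C β) * (C (C δ * q0 + q1 * (X - C α)) + C (X - C α) * X) -
      algebraMap K K[X][X] δ * C (q0 * (X - C β)) =
      (C ((X - C α) * (X - C β)) * (C q1 + X) : K[X][X]) by
        simp only [map_mul, map_add, Polynomial.algebraMap_apply, Algebra.algebraMap_self,
          RingHom.id_apply]
        ring, e1] at e
  have e6 := congrArg (coeff · j) e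
  simp only [← map_pow, ← map_mul, coeff_mul_C, coeff_C_mul, comp_C_mul_X_coeff] at e6
  refine Rgr.dvd_cancel _ _ _ (D := (X - C α) ^ j * ((X - C α) ^ μ.toNat * (X - C β) ^ ν.toNat))
    (fun l _ => ?_) ?_
  · have k1 := sub_ne_zero.2 (h1 l)
    have k2 := sub_ne_zero.2 (h2 l)
    simp [k1, k2]
  · rw [mul_comm, ← mul_assoc, ← e6]
    exact ((hD j).mul_left _).mul_right _

theorem rank_le {α β δ : K} {p d μ ν : ℤ} {V W : Submodule K (Cx K)} [FiniteDimensional K W]
    (hV : ∀ F ∈ V, Bih p d F) (h : ∀ F ∈ V, ∃ G ∈ W, Rel α β δ μ ν F G) :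
    finrank K V ≤ finrank K W := by
  let R := FractionRing (Cx K)
  let ι := algebraMap (Cx K) R
  have hι : Function.Injective ι := IsFractionRing.injective _ _
  have h1 : ι (MvPolynomial.X 1) ≠ 0 := (map_ne_zero_iff _ hι).2 (MvPolynomial.X_ne_zero _)
  obtain ⟨x, hx⟩ : ∃ x, ι (MvPolynomial.X 1) * x = ι (MvPolynomial.X 0) :=
    ⟨_, mul_div_cancel₀ _ h1⟩
  have h2 : ∀ a : K, x - algebraMap K R a ≠ 0 := fun a e => by
    have e1 : ι (MvPolynomial.X 0) = ι (MvPolynomial.X 1 * MvPolynomial.C a) := by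
      rw [← hx, sub_eq_zero.1 e, map_mul]
      rfl
    simpa using congrArg (MvPolynomial.eval ![a + 1, 1, 0, 0]) (hι e1)
  let φ : Cx K →ₗ[K] R × R → R := LinearMap.pi fun e => (LinearMap.mulRight K
    ((x - algebraMap K R α) ^ (-μ).toNat * (x - algebraMap K R β) ^ (-ν).toNat)).comp
      (MvPolynomial.aeval ![x, 1, (x - algebraMap K R α) * e.1,
        (x - algebraMap K R β) * e.2 - algebraMap K R δ * e.1]).toLinearMap
  let ψ : Cx K →ₗ[K] R × R → R := LinearMap.pi fun e => (LinearMap.mulRight K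
    ((x - algebraMap K R α) ^ μ.toNat * (x - algebraMap K R β) ^ ν.toNat)).comp
      (MvPolynomial.aeval ![x, 1, e.1, e.2]).toLinearMap
  refine le_trans ?_ (Submodule.finrank_map_le ψ W)
  refine LinearMap.finrank_le_finrank_of_injective (f := φ.restrict (p := V) (q := W.map ψ)
    fun F hF => ?_) (LinearMap.ker_eq_bot.1 (LinearMap.ker_eq_bot'.2 fun F hF => ?_))
  · obtain ⟨G, hG, e⟩ := h F hF
    exact ⟨G, hG, funext fun y => (e R x y.1 y.2).symm⟩
  obtain ⟨u, hu⟩ : ∃ u, (x - algebraMap K R α) * u = ι (MvPolynomial.X 2) :=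
    ⟨_, mul_div_cancel₀ _ (h2 α)⟩
  obtain ⟨v, hv⟩ : ∃ v, (x - algebraMap K R β) * v = ι (MvPolynomial.X 3) + algebraMap K R δ * u :=
    ⟨_, mul_div_cancel₀ _ (h2 β)⟩
  have e1 : MvPolynomial.aeval ![x, 1, (x - algebraMap K R α) * u,
      (x - algebraMap K R β) * v - algebraMap K R δ * u] F.1 * _ = 0 :=
    congrFun (congrArg Subtype.val hF) (u, v)
  have e2 := (mul_eq_zero.1 e1).resolve_right
    (mul_ne_zero (pow_ne_zero _ (h2 α)) (pow_ne_zero _ (h2 β)))
  have e3 := (hV F F.2).scale (ι (MvPolynomial.X 1)) 1 x 1 (ι (MvPolynomial.X 2))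
    (ι (MvPolynomial.X 3))
  rw [hu, hv, add_sub_cancel_right] at e2
  rw [e2, mul_zero, hx, mul_one, one_mul, one_mul] at e3
  have e4 : (MvPolynomial.aeval ![ι (MvPolynomial.X 0), ι (MvPolynomial.X 1), ι (MvPolynomial.X 2),
      ι (MvPolynomial.X 3)] : Cx K →ₐ[K] R) = IsScalarTower.toAlgHom K (Cx K) R :=
    MvPolynomial.algHom_ext fun i => by fin_cases i <;> simp [ι]
  rw [e4] at e3
  exact Subtype.ext (hι (e3.trans (map_zero ι).symm))

end Hs

/-- the shear at the points a 1 and b s, over a field -/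
theorem shearHD {K : Type} [Field K] {t δ : K} (ht : t ≠ 0) {q q' : Fin 2 → Fin 3 → K}
    {z : Fin 5 → K} {a b a' b' : Fin 2 → K} {p p' d : ℤ} {m m' : Ix → ℤ} {s : Fin 2}
    (hδ : a 1 - b s = t * δ) (h1 : ∀ l, z l ≠ a 1) (h2 : ∀ l, z l ≠ b s)
    (hco : ∀ r r', a r = b r' → m (.inr (.inl r)) + m (.inr (.inr r')) ≤ d)
    (a0 : a' 0 = a 0) (a1 : a' 1 = b s) (bs : b' s = a 1) (br : b' s.rev = b s.rev)
    (hp : p' = p + d - m (.inr (.inl 1)) - m (.inr (.inr s))) (ml : ∀ l, m' (.inl l) = m (.inl l))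
    (m0 : m' (.inr (.inl 0)) = m (.inr (.inl 0))) (m1 : m' (.inr (.inl 1)) = d - m (.inr (.inr s)))
    (ms : m' (.inr (.inr s)) = d - m (.inr (.inl 1)))
    (mr : m' (.inr (.inr s.rev)) = m (.inr (.inr s.rev)))
    (hreg : ∀ F, Bih p' d F → Dv ![qd (q 0) * (X - C (b s)),
      C δ * qd (q 0) + qd (q 1) * (X - C (a 1))] ![0, 1] z (fun l => m (.inl l)) F →
      Dv ![qd (q' 0), qd (q' 1)] ![0, 1] z (fun l => m (.inl l)) F) :
    finrank K (HD t q z a b p d m) ≤ finrank K (HD t q' z a' b' p' d m') := by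
  have : FiniteDimensional K (HD t q' z a' b' p' d m') := Submodule.finiteDimensional_of_le
    (S₂ := MvPolynomial.weightedHomogeneousSubmodule K bw (p', d)) fun _ hF => (mem_HD.1 hF).1
  have e : ∀ f : Fin 2 → K[X], ∏ r, f r = f s * f s.rev := fun f => by
    fin_cases s <;> simp [mul_comm]
  refine Hs.rank_le (α := a 1) (β := b s) (δ := δ) (μ := m (.inr (.inl 1)))
    (ν := m (.inr (.inr s))) (fun F hF => (mem_HD.1 hF).1) fun F hF => ?_
  obtain ⟨k1, k2, k3, k4⟩ := mem_HD.1 hF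
  obtain ⟨G, g1, g2, g3, g4⟩ := Hs.core ht hδ k1 (hco 0 s) (hco 0 s.rev) (hco 1 s) (hco 1 s.rev)
    (fun j => by simpa only [Fin.prod_univ_two] using k3 j) fun j => by simpa only [e] using k4 j
  refine ⟨G, mem_HD.2 ⟨hp ▸ g1, ?_, fun j => ?_, fun j => ?_⟩, g2⟩
  · simp only [ml]
    exact hreg G (hp ▸ g1) (g2.gam k1 h1 h2 k2)
  · simpa only [Fin.prod_univ_two, a0, a1, m0, m1] using g3 j
  · simpa only [e, bs, br, ms, mr] using g4 j

/-- the shear at a point of A and a point of B -/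
theorem stepHC {O k : Type} [CommRing O] [IsDomain O] [Field k] (A : Arc O k) (K : Type)
    [Field K] [Algebra O K] [IsFractionRing O K] : StepHC A K := by
  intro c χ u s h e hg _ _ _ hs
  obtain ⟨c', hr, h', e', hd⟩ := moveHD h hg.ch e s
  refine ⟨c', h', e', fun ε _ => ?_⟩
  have hK := IsFractionRing.injective O K
  have n1 : ∀ l a, algebraMap O K (c.z l) ≠ algebraMap O K (A.t * a) := fun l a e =>
    h.z0 l (by rw [hK e, map_mul, A.rt, zero_mul])
  have e1 : dgy ε (cD.rf (aH s) u) = dgy ε u := by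
    rw [rf_aH]
    fin_cases s <;> simp [dgy, par] <;> omega
  rw [CCfg.HC, CCfg.HC, e1, hr.z, rf_aH]
  refine shearHD (δ := algebraMap O K (c.al 1 - c.be s)) (s := s)
    ((map_ne_zero_iff _ hK).2 A.t0) (by simp only [map_mul, map_sub]; ring) (fun l => n1 l _)
    (fun l => n1 l _) (fun r r' e => ?_) (by simp only [hr.a0]) (by simp only [hr.a1])
    (by simp only [hr.bs]) (by simp only [hr.br])
    (by fin_cases s <;> simp [dgx, dgy, mlt, par] <;> omega) (fun l => rfl)
    (by fin_cases s <;> simp [mlt] <;> omega) (by fin_cases s <;> simp [dgy, mlt, par] <;> omega)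
    (by fin_cases s <;> simp [dgy, mlt, par] <;> omega) (by fin_cases s <;> simp [mlt] <;> omega)
    fun F => hd K _ _ _ F
  have e2 := congrArg A.res (mul_left_cancel₀ A.t0 (hK e))
  fin_cases r
  · have := hg.P r'.rev (not_not.1 fun k => h.a0b k e2)
    fin_cases r' <;> simp [dgy, mlt, par] at this ⊢ <;> omega
  · have := hg.H r' (not_not.1 fun k => h.a1b hg.ch k e2)
    fin_cases r' <;> simp [dgy, mlt, par] at this ⊢ <;> omega

end Pool.Agent.Lib.MP_d03834_ag.Core
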