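import Pool.Agent.Lib.MP_d03834_ag.Core.ClVd
import Pool.Agent.Lib.MP_d03834_ag.Core.KPC
import Pool.Agent.Lib.MP_d03834_ag.Core.ClHonB

/-! The vertical shear for sections in divisibility form. -/

set_option autoImplicit false

namespace Pool.Agent.Lib.MP_d03834_ag.Core.Vc

open MvPolynomial Module
open scoped PowerSeries

section field
variable {K : Type} [Field K] {a b : Fin 3 → K}

theorem s_hom {S : Type} [CommRing S] [Algebra K S] (θ : Cx K →ₐ[K] S) (c : Fin 3 → K) :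
    θ ∘ C ∘ c = algebraMap K S ∘ c := funext fun i => θ.commutes (c i)

theorem s_C {S : Type} [CommRing S] [Algebra K S] (θ : Cx K →ₐ[K] S) (c : K) :
    θ (C c) = algebraMap K S c := θ.commutes c

theorem s_L {S : Type} [CommRing S] [Algebra K S] (g : Fin 4 → S) (z : K) :
    aeval g (L a b z) = lf (algebraMap K S ∘ a) (algebraMap K S ∘ b) (algebraMap K S z)
      (g 2) (g 3) := by
  rw [L, map_lf, s_hom, s_hom, s_C, aeval_X, aeval_X]

theorem s_Phi {S : Type} [CommRing S] [Algebra K S] (g : Fin 4 → S) (z w : K) (F : Cx K) :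
    aeval g (Phi a b z w F) = aeval ![m0 (algebraMap K S ∘ a) (algebraMap K S ∘ b)
      (algebraMap K S z) (algebraMap K S w) (g 2) (g 3) (g 0) (g 1),
      m1 (algebraMap K S ∘ a) (algebraMap K S ∘ b) (algebraMap K S z) (algebraMap K S w)
        (g 2) (g 3) (g 0) (g 1), g 2, g 3] F := by
  rw [← AlgHom.comp_apply, Phi, comp_aeval]
  congr 2
  funext i
  fin_cases i
  · simp only [Fin.zero_eta, Matrix.cons_val_zero, map_m0, s_hom, s_C, aeval_X]
  · simp only [Fin.mk_one, Matrix.cons_val_one, Matrix.cons_val_zero, map_m1, s_hom, s_C, aeval_X]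
  · simp
  · simp

theorem s_L_ly (z : K) : L a b z = ly ![z, 1, qv a z, qv b z] := by
  simp [L, ly, lf, qv]

theorem s_L_bih (z : K) : Bih 0 1 (L a b z) := by
  rw [s_L_ly]
  exact bih_ly _

theorem s_L_ne {z : K} (h : qv a z ≠ 0) : L a b z ≠ 0 := by
  rw [s_L_ly]
  exact ly_ne ⟨Or.inr (by simp), Or.inl (by simpa using h)⟩

theorem s_lin (u v : K) : Bih 0 1 (C u * X 2 + C v * X 3 : Cx K) :=
  (bih_X2.cmul _).add (bih_X3.cmul _)

theorem s_nl (z w : K) : Bih 0 1 (nl (C ∘ a) (C ∘ b) (C z) (C w) (X 2) (X 3) : Cx K) := by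
  have := s_lin (nl a b z w 1 0) (nl a b z w 0 1)
  convert this using 1
  simp [nl, br]

theorem s_gc (z w : K) (i : Fin 3) :
    Bih 0 1 (bz (C ∘ a) (C ∘ b) (C z) (C w) * gc (C ∘ a) (C ∘ b) (X 2) (X 3) i : Cx K) := by
  have := s_lin (bz a b z w * b i) (-(bz a b z w * a i))
  convert this using 1
  simp [gc, bz, br]
  ring

theorem s_Phi_bih {p d : ℤ} {F : Cx K} (h : Bih p d F) (z w : K) :
    Bih p (p + d) (Phi a b z w F) := by
  have h0 : Bih 1 1 (m0 (C ∘ a) (C ∘ b) (C z) (C w) (X 2) (X 3) (X 0) (X 1) : Cx K) :=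
    ((s_nl z w).mul bih_X0).add ((s_gc z w 0).mul bih_X1)
  have h1 : Bih 1 1 (m1 (C ∘ a) (C ∘ b) (C z) (C w) (X 2) (X 3) (X 0) (X 1) : Cx K) :=
    (((s_nl z w).sub (s_gc z w 1)).mul bih_X1).sub ((s_gc z w 2).mul bih_X0)
  exact (h.aeval ![_, _, X 2, X 3] h0 h1 bih_X2 bih_X3).of_eq (by ring) (by ring)

theorem s_Phi_inj {p d : ℤ} {F : Cx K} (h : Bih p d F) {z w : K} (hrs : rs a b ≠ 0)
    (hz : qv a z ≠ 0) (hw : qv a w ≠ 0) (h0 : Phi a b z w F = 0) : F = 0 := by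
  have e := s_Phi (a := a) (b := b)
    ![n0 (C ∘ a) (C ∘ b) (C z) (C w) (X 2) (X 3) (X 0) (X 1),
      n1 (C ∘ a) (C ∘ b) (C z) (C w) (X 2) (X 3) (X 0) (X 1), (X 2 : Cx K), X 3] z w F
  have e1 := h.scale (-rs (C ∘ a) (C ∘ b) * (L a b z * L a b w)) 1 (X 0 : Cx K) (X 1) (X 2) (X 3)
  simp only [Matrix.cons_val_zero, Matrix.cons_val_one, Matrix.cons_val, algebraMap_eq, h0,
    map_zero, m0_n, m1_n] at e
  rw [one_mul, one_mul, one_pow, mul_one, show (![X 0, X 1, X 2, X 3] : Fin 4 → Cx K) = X by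
    funext i; fin_cases i <;> rfl, aeval_X_left_apply] at e1
  refine (mul_eq_zero.1 (e1.symm.trans e.symm)).resolve_left (pow_ne_zero _ (mul_ne_zero ?_
    (mul_ne_zero (s_L_ne hz) (s_L_ne hw))))
  rw [← map_rs, neg_ne_zero, C_ne_zero]
  exact hrs

/-- the shear on a line y = const which is not one of the two fibres -/
theorem line_part {ι : Type} [Fintype ι] {t z w : K} {x x' : ι → K} {m : ι → ℤ} {p d : ℤ}
    {F G D : Cx K} {e f : ℕ} (hrs : rs a b ≠ 0) (hz : lf a b z t 1 ≠ 0) (hw : lf a b w t 1 ≠ 0)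
    (hx : ∀ s, n0 a b z w t 1 (x s) 1 = x' s * n1 a b z w t 1 (x s) 1) (hF : Bih p d F)
    (h : Dv ![Polynomial.C t, 1] ![1, 0] x m F)
    (hG : G * L a b z ^ e * L a b w ^ f = Phi a b z w F * D) :
    Dv ![Polynomial.C t, 1] ![1, 0] x' m G := by
  have hd : -rs a b * (lf a b z t 1 * lf a b w t 1) ≠ 0 :=
    mul_ne_zero (neg_ne_zero.2 hrs) (mul_ne_zero hz hw)
  have k : ∀ s, m1 a b z w t 1 (x' s) 1 ≠ 0 ∧
      m0 a b z w t 1 (x' s) 1 = x s * m1 a b z w t 1 (x' s) 1 := fun s => by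
    have e0 := m0_n a b z w t 1 (x s) 1
    have e1 := m1_n a b z w t 1 (x s) 1
    rw [hx] at e0 e1
    have f0 : n1 a b z w t 1 (x s) 1 * m0 a b z w t 1 (x' s) 1 =
        -rs a b * (lf a b z t 1 * lf a b w t 1) * x s := by
      rw [← e0]; unfold m0; ring
    have f1 : n1 a b z w t 1 (x s) 1 * m1 a b z w t 1 (x' s) 1 =
        -rs a b * (lf a b z t 1 * lf a b w t 1) := by
      rw [← mul_one (-rs a b * _), ← e1]; unfold m1; ring
    have f2 := mul_ne_zero_iff.1 (f1 ▸ hd)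
    exact ⟨f2.2, mul_left_cancel₀ f2.1 (by linear_combination f0 - x s * f1)⟩
  refine dv_of_arc fun w0 j S hS hne E _ _ β ξ _ hξ => ?_
  obtain ⟨l0, hl0⟩ := hne
  have hw0 := ((hS l0).1 hl0).1
  simp only [Matrix.cons_val_zero, Matrix.cons_val_one, Polynomial.aeval_C, map_one, map_zero,
    mul_one, mul_zero, add_zero]
  set y := algebraMap K E⟦X⟧ t + PowerSeries.X ^ S.card * PowerSeries.C β with hy
  let κ : E⟦X⟧ →+* E := PowerSeries.constantCoeff
  have κ0 : ∀ c : K, κ (algebraMap K E⟦X⟧ c) = algebraMap K E c := fun c => by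
    simp [κ, PowerSeries.algebraMap_apply]
  have κ1 : ∀ c : Fin 3 → K, κ ∘ algebraMap K E⟦X⟧ ∘ c = algebraMap K E ∘ c :=
    fun c => funext fun i => κ0 (c i)
  have κy : κ y = algebraMap K E t := by
    simp [hy, κ, (Finset.card_pos.2 ⟨l0, hl0⟩).ne', PowerSeries.algebraMap_apply]
  have κξ : κ ξ = algebraMap K E w0 := by simp [hξ, κ, PowerSeries.algebraMap_apply]
  have un : ∀ (g : E⟦X⟧) (c : K), c ≠ 0 → κ g = algebraMap K E c → IsUnit g := fun g c hc hg =>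
    PowerSeries.isUnit_iff_constantCoeff.2 (Ne.isUnit (by
      change κ g ≠ 0
      rwa [hg, map_ne_zero]))
  have uL : ∀ u, lf a b u t 1 ≠ 0 → IsUnit (aeval ![ξ, 1, y, 1] (L a b u)) := fun u hu =>
    un _ _ hu (by
      simp only [s_L, map_lf, κ1, κ0, Matrix.cons_val, κy, map_one])
  have e1 := congrArg (aeval ![ξ, 1, y, 1]) hG
  rw [map_mul, map_mul, map_mul, map_pow, map_pow, s_Phi] at e1
  simp only [Matrix.cons_val_zero, Matrix.cons_val_one, Matrix.cons_val] at e1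
  set M0 := m0 (algebraMap K E⟦X⟧ ∘ a) (algebraMap K E⟦X⟧ ∘ b) (algebraMap K E⟦X⟧ z)
    (algebraMap K E⟦X⟧ w) y 1 ξ 1 with hM0
  set M1 := m1 (algebraMap K E⟦X⟧ ∘ a) (algebraMap K E⟦X⟧ ∘ b) (algebraMap K E⟦X⟧ z)
    (algebraMap K E⟦X⟧ w) y 1 ξ 1 with hM1
  have κM0 : κ M0 = algebraMap K E (m0 a b z w t 1 w0 1) := by
    simp only [hM0, map_m0, κ1, κ0, κy, κξ, map_one]
  have κM1 : κ M1 = algebraMap K E (m1 a b z w t 1 w0 1) := by
    simp only [hM1, map_m1, κ1, κ0, κy, κξ, map_one]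
  obtain ⟨ν, hν⟩ := (un M1 _ (hw0 ▸ (k l0).1) κM1).exists_right_inv
  have e2 := hF.scale M1 1 (M0 * ν) 1 y 1
  rw [show M1 * (M0 * ν) = M0 by linear_combination M0 * hν, mul_one, one_mul, one_mul] at e2
  have h3 := h.arc hF (w := x l0) (by simp) S (fun l hl => ?_) (L := E) (x := M0 * ν) (y0 := y)
    (y1 := 1) ?_ (Or.inr isUnit_one) (by simp [hy])
  · rw [← ((uL w hw).pow f).dvd_mul_right, ← ((uL z hz).pow e).dvd_mul_right, mul_right_comm, e1,
      e2]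
    exact (h3.mul_left _).mul_right _
  · have a1 := k l
    have a2 := k l0
    rw [((hS l).1 hl).1] at a1
    rw [hw0] at a2
    exact mul_right_cancel₀ a1.1 (a1.2.symm.trans a2.2)
  · rw [PowerSeries.X_dvd_iff]
    change κ _ = 0
    have a1 := congrArg κ hν
    have a2 := (k l0).2
    rw [hw0] at a2
    rw [map_mul, map_one, κM1] at a1
    rw [map_sub, map_mul, κM0, κ0, a2, map_mul, mul_assoc, a1, mul_one, sub_self]

/-- the vertical shear in divisibility form, over a field -/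
theorem shearVD {t : K} {q : Fin 2 → Fin 3 → K} {z z' : Fin 5 → K} {α β α' β' : Fin 2 → K}
    {p d d' : ℤ} {m m' : Ix → ℤ} {i j : Fin 5} (hij : i ≠ j) (hrs : rs (q 0) (q 1) ≠ 0)
    (hbz : bz (q 0) (q 1) (z i) (z j) ≠ 0) (h0 : ∀ l, qv (q 0) (z l) ≠ 0)
    (ht : ∀ l, lf (q 0) (q 1) (z l) t 1 ≠ 0)
    (hi : bz (q 0) (q 1) (z j) (z' i) = 0) (hj : bz (q 0) (q 1) (z i) (z' j) = 0)
    (hl : ∀ l, l ≠ i → l ≠ j → z' l = z l ∧ m' (.inl l) = m (.inl l))
    (mi : m' (.inl i) = p - m (.inl j)) (mj : m' (.inl j) = p - m (.inl i))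
    (mr : ∀ s, m' (.inr s) = m (.inr s)) (hd : d' = d + p - m (.inl i) - m (.inl j))
    (ho : ∀ l r, l ≠ i → l ≠ j → r = i ∨ r = j → bz (q 0) (q 1) (z r) (z l) = 0 →
      m (.inl l) + m (.inl r) ≤ p)
    (hα : ∀ s, n0 (q 0) (q 1) (z i) (z j) 0 1 (α s) 1 = α' s * n1 (q 0) (q 1) (z i) (z j) 0 1 (α s) 1)
    (hβ : ∀ s, n0 (q 0) (q 1) (z i) (z j) t 1 (β s) 1 = β' s * n1 (q 0) (q 1) (z i) (z j) t 1 (β s) 1) :
    finrank K (HD t q z α β p d m) ≤ finrank K (HD t q z' α' β' p d' m') := by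
  have hi0 : L (q 0) (q 1) (z i) ≠ 0 := s_L_ne (h0 i)
  have hj0 : L (q 0) (q 1) (z j) ≠ 0 := s_L_ne (h0 j)
  have hA : ∀ l, lf (q 0) (q 1) (z l) 0 1 ≠ 0 := fun l => by simpa [lf] using h0 l
  refine brk_le ((LinearMap.mulRight K (L (q 0) (q 1) (z i) ^ (-m (.inl i)).toNat *
    L (q 0) (q 1) (z j) ^ (-m (.inl j)).toNat)).comp (Phi (q 0) (q 1) (z i) (z j)).toLinearMap)
    (L (q 0) (q 1) (z i) ^ (m (.inl i)).toNat * L (q 0) (q 1) (z j) ^ (m (.inl j)).toNat)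
    (fun F hF h1 => ?_) fun F hF => ?_
  · exact s_Phi_inj (mem_HD.1 hF).1 hrs (h0 i) (h0 j) ((mul_eq_zero.1 h1).resolve_right
      (mul_ne_zero (pow_ne_zero _ hi0) (pow_ne_zero _ hj0)))
  obtain ⟨h1, h2, h3, h4⟩ := mem_HD.1 hF
  obtain ⟨G, hG⟩ := div_part (m := fun l => m (.inl l)) hij hbz h0 h1 h2
  have bp : ∀ u v : ℕ, Bih 0 (u + v) (L (q 0) (q 1) (z i) ^ u * L (q 0) (q 1) (z j) ^ v) :=
    fun u v => (((s_L_bih (z i)).pow u).mul ((s_L_bih (z j)).pow v)).of_eq (by ring) (by ring)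
  have hG' : G * L (q 0) (q 1) (z i) ^ (m (.inl i)).toNat *
      L (q 0) (q 1) (z j) ^ (m (.inl j)).toNat = Phi (q 0) (q 1) (z i) (z j) F *
      L (q 0) (q 1) (z i) ^ (-m (.inl i)).toNat * L (q 0) (q 1) (z j) ^ (-m (.inl j)).toNat := by
    rw [hG]; ring
  refine ⟨G, mem_HD.2 ⟨?_, gam_part (m := fun l => m (.inl l)) hij hrs hbz h0 hi hj
    (fun l a b => (hl l a b).1) (fun l a b => (hl l a b).2) mi mj ho h1 h2 hG', ?_, ?_⟩, by rw [← hG, mul_assoc]; rfl⟩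
  · have b1 := (s_Phi_bih (a := q 0) (b := q 1) h1 (z i) (z j)).mul
      (bp (-m (.inl i)).toNat (-m (.inl j)).toNat)
    rw [← mul_assoc, hG] at b1
    exact (b1.of_mul (bp _ _) (mul_ne_zero (pow_ne_zero _ hi0) (pow_ne_zero _ hj0))).of_eq
      (by ring) (by omega)
  · simp only [mr]
    rw [← Polynomial.C_0] at h3 ⊢
    exact line_part hrs (hA i) (hA j) hα h1 h3 (hG'.trans (mul_assoc _ _ _))
  · simp only [mr]
    exact line_part hrs (ht i) (ht j) hβ h1 h4 (hG'.trans (mul_assoc _ _ _))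

end field

variable {O k : Type} [CommRing O] [Field k]

theorem stepVC (A : Arc O k) (K : Type) [Field K] [Algebra O K] : StepVC A K := by
  intro c χ u i j hij h hx hs _ _ _ hκ
  have hx1 : Ex A c.toCfg (c.q 0) (c.q 1) :=
    ⟨hx.r00, hx.r01, hx.r02, hx.r10, hx.r11, hx.r12, fun l => (hx.on l).symm⟩
  obtain ⟨c', hr, hx', h'⟩ := moveV h hs.ch hx1 hij
  refine ⟨⟨c', c.q⟩, h', ⟨hx'.a0, hx'.a1, hx'.a2, hx'.b0, hx'.b1, hx'.b2,
    fun l => (hx'.on l).symm⟩, fun ε _ => ?_⟩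
  have un : ∀ x : O, A.res x ≠ 0 → algebraMap O K x ≠ 0 := fun x hx =>
    ((A.unit x hx).map _).ne_zero
  have hQ0 := h.Q0 hs.ch
  have hp : dgx ε (cD.rf (aV i j) u) = dgx ε u := by simp only [dgx, rf_aV]
  rw [CCfg.HC, CCfg.HC, hp]
  have hb : ∀ r l, r ≠ l → χ (aV r l) ≠ 1 → bz (algebraMap O K ∘ c.q 0) (algebraMap O K ∘ c.q 1)
      (algebraMap O K (c.z r)) (algebraMap O K (c.z l)) ≠ 0 := fun r l hrl h1 => by
    rw [← map_bz]
    refine un _ fun e => h1 (mul_right_cancel₀ hQ0 ?_)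
    rw [hx1.rbz] at e
    linear_combination h.aV r l hrl + e
  refine shearVD (t := algebraMap O K A.t) (q := fun r => algebraMap O K ∘ c.q r)
    (z := fun l => algebraMap O K (c.z l)) (z' := fun l => algebraMap O K (c'.z l))
    (α := fun s => algebraMap O K (A.t * c.al s)) (β := fun s => algebraMap O K (A.t * c.be s))
    (α' := fun s => algebraMap O K (A.t * c'.al s)) (β' := fun s => algebraMap O K (A.t * c'.be s))
    (p := dgx ε u) (d := dgy ε u) (d' := dgy ε (cD.rf (aV i j) u)) (m := mlt ε u)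
    (m' := mlt ε (cD.rf (aV i j) u)) hij ?_ (hb i j hij hκ) (fun l => ?_)
    (fun l => ?_) ?_ ?_ (fun l hi hj => ⟨?_, ?_⟩) ?_ ?_ ?_ ?_ (fun l r hi hj e h1 => ?_)
    (fun s => ?_) fun s => ?_
  · rw [← map_rs]
    exact un _ (by rw [hx1.rrs]; exact neg_ne_zero.2 (mul_ne_zero hQ0 (h.Q2 hs.ch)))
  · rw [← map_qv]
    exact un _ (by rw [hx1.rqa]; exact h.z0 l)
  · rw [← map_one (algebraMap O K), ← map_lf]
    exact un _ (by simpa [lf, A.rt, hx1.rqa] using h.z0 l)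
  · rw [← map_bz, hr.zi, map_zero]
  · rw [← map_bz, hr.zj, map_zero]
  · exact congrArg _ (hr.zl l hi hj)
  · simp [mlt, rf_aV, hi, hj]
  · simp only [mlt, rf_aV, dgx, if_true, if_neg hij]
    ring
  · simp only [mlt, rf_aV, dgx, if_true, if_neg hij.symm]
    ring
  · rintro (s | s) <;> simp only [mlt, rf_aV]
  · simp only [mlt, rf_aV, dgx, dgy, par]
    ring
  · have hrl : r ≠ l := by rcases e with rfl | rfl <;> exact Ne.symm ‹_›
    have := hs.V r l hrl (not_not.1 fun h2 => hb r l hrl h2 h1)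
    simp only [mlt, dgx]
    omega
  · have := congrArg (algebraMap O K) (hr.al s)
    rwa [map_mul, map_n0, map_n1, map_zero, map_one] at this
  · have := congrArg (algebraMap O K) (hr.be s)
    rwa [map_mul, map_n0, map_n1, map_one] at this

end Pool.Agent.Lib.MP_d03834_ag.Core.Vc
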