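import Pool.Agent.Lib.MP_d03834_ag.Core.KPE
import Pool.Agent.Lib.MP_d03834_ag.Core.ClVs
import Pool.Agent.Lib.MP_d03834_ag.Core.ClH
import Pool.Agent.Lib.MP_d03834_ag.Core.ClFb
import Pool.Agent.Lib.MP_d03834_ag.Core.CEnd

/-! The bound for the sections in divisibility form, without hypotheses. -/

set_option autoImplicit false

namespace Pool.Agent.Lib.MP_d03834_ag.Core

variable {O k Γ : Type} [CommRing O] [IsDomain O] [ValuationRing O] [Field k]
  [LinearOrderedCommGroupWithZero Γ]

theorem kpe (A : Arc O k) (K : Type) [Field K] [Algebra O K] [IsFractionRing O K]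
    (v : Valuation k Γ) : KPE A K v :=
  kpe_of (Vc.stepVC A K) (stepHC A K) (Fb.stepFC A K v) (endC A)

theorem kpc (A : Arc O k) (K : Type) [Field K] [Algebra O K] [IsFractionRing O K]
    (v : Valuation k Γ) : KPC A K v := (kpe A K v).kpc

end Pool.Agent.Lib.MP_d03834_ag.Core
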