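import Pool.Agent.Lib.MP_d03834_ag.Core.ShDefs

/-! Ten points: the class in the chart and the statement for the folded range. -/

set_option autoImplicit false

namespace Pool.Agent.Lib.MP_d03834_ag.Core

open Module

/-- the multiplicities in the fibre frame of the class of degree 10 e + 3 k with ten points of
multiplicity 3 e + k -/
def m10 (e k : ℤ) : Ix → ℤ
  | .inl i => ![3 * e + k, 3 * e + k, 4 * e + k, 5 * e + k, 5 * e + k] i
  | .inr (.inl s) => ![4 * e + k, 7 * e + k] s
  | .inr (.inr s) => ![5 * e + k, 6 * e + k] s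

/-- one configuration in the chart with at most r sections -/
def Ch10 (e k : ℤ) (r : ℕ) : Prop :=
  ∃ (K : Type) (_ : Field K) (_ : Algebra ℂ K) (P : Ix → Fin 4 → K), (∀ l, Pt (P l)) ∧
    finrank K (H0 (11 * e + 2 * k) (10 * e + 2 * k) P (m10 e k)) ≤ r

/-- the range of the fold with the broken curve -/
def Down10 : Prop := ∀ e k r : ℕ, 1 ≤ e → 3 * e ≤ k → k ≤ 4 * e + 2 →
  10 * e ^ 2 + 2 ≤ k ^ 2 + k + 2 * r → Ch10 e k r

/-- the range of the plain fold -/
def Up10 : Prop := ∀ e k r : ℕ, k < 3 * e → 10 * e ^ 2 + 2 ≤ k ^ 2 + k + 2 * r → Ch10 e k r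

end Pool.Agent.Lib.MP_d03834_ag.Core
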