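import Pool.Agent.Lib.MP_d03834_ag.Core.D10A
import Pool.Agent.Lib.MP_d03834_ag.Core.N10Def

/-! Ten points: the fold with the broken curve. -/

set_option autoImplicit false

namespace Pool.Agent.Lib.MP_d03834_ag.Core

open Module

/-- the multiplicities in the frame of the broken curve -/
def n10 (e k : ℤ) : Ix → ℤ
  | .inl i => ![3 * e, 3 * e, 4 * e, 6 * e, 6 * e] i
  | .inr (.inl s) => ![6 * e - k + k / 2, 7 * e + k / 2] s
  | .inr (.inr s) => ![7 * e - k + k / 2, 6 * e + k / 2] s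

/-- the bound for a class of square y -/
def KB10 (y : ℤ) (x : ℕ) : Prop := (0 < y → (x : ℤ) ≤ 1 + y / 2) ∧ (y < 0 → x = 0)

/-- the three bounds on the surface with the broken curve -/
def Br10 {K : Type} [Field K] (P : Ix → Fin 4 → K) (e k : ℤ) : Prop :=
  KB10 (10 * e ^ 2 - k ^ 2) (finrank K (H0 (13 * e) (11 * e - k % 2) P (n10 e k))) ∧
  KB10 (10 * e ^ 2 - k ^ 2 - 2 * e - 1) (finrank K (H0 (13 * e - 1)
    (11 * e - k % 2 - 2 * (1 - k % 2)) P (kS (n10 e k) 1 0 (1 - k % 2)))) ∧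
  KB10 (10 * e ^ 2 - k ^ 2 - 4 * e - 1) (finrank K (H0 (13 * e - 1)
    (11 * e - k % 2 - 1 - 2 * (1 - k % 2)) P (kS (n10 e k) 1 1 (1 - k % 2))))

theorem d10_sq0 (e : ℕ) : ∀ k : ℕ, 10 * e ^ 2 = k ^ 2 → e = 0 := by
  induction e using Nat.strong_induction_on with
  | _ e ih => ?_
  intro k h
  obtain ⟨k, rfl⟩ : 2 ∣ k := Nat.prime_two.dvd_of_dvd_pow (n := 2) ⟨5 * e ^ 2, by omega⟩
  rw [mul_pow] at h
  obtain ⟨e, rfl⟩ : 2 ∣ e := Nat.prime_two.dvd_of_dvd_pow (n := 2) (by omega)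
  rw [mul_pow] at h
  rcases e.eq_zero_or_pos with e0 | e0
  · omega
  · have := ih e (by omega) k (by omega)
    omega

theorem d10_sq1 (e k : ℤ) : 10 * e ^ 2 - k ^ 2 - 2 * e - 1 ≠ 0 := fun h => by
  have h1 := congrArg (Int.cast : ℤ → ZMod 4) h
  push_cast at h1
  generalize (e : ZMod 4) = a, (k : ZMod 4) = b at h1
  revert a b
  decide

theorem d10_sq2 (e k : ℤ) : 10 * e ^ 2 - k ^ 2 - 4 * e - 1 ≠ 0 := fun h => by
  have h1 := congrArg (Int.cast : ℤ → ZMod 8) h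
  push_cast at h1
  generalize (e : ZMod 8) = a, (k : ZMod 8) = b at h1
  revert a b
  decide

theorem d10_ballot {e k r a a0 a1 : ℕ} (h1 : 1 ≤ e) (h2 : 3 * e ≤ k) (h3 : k ≤ 4 * e + 2)
    (h4 : 10 * e ^ 2 + 2 ≤ k ^ 2 + k + 2 * r) (ha : KB10 (10 * e ^ 2 - k ^ 2) a)
    (h0 : KB10 (10 * e ^ 2 - k ^ 2 - 2 * e - 1) a0) (h1' : KB10 (10 * e ^ 2 - k ^ 2 - 4 * e - 1) a1)
    (j N : ℕ) (b : N ≤ a) (b0 : N ≤ a0 + (2 * j + 1 - (e + (k - 2 * e))))
    (b1 : 2 * j < e + (k - 2 * e) → N ≤ a1 + (2 * j + 1 - (k - 2 * e))) : N ≤ r + j := by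
  have s0 : (10 * e ^ 2 - k ^ 2 : ℤ) ≠ 0 := fun h => by
    have := d10_sq0 e k (by zify; omega)
    omega
  have s1 := d10_sq1 e k
  have s2 := d10_sq2 e k
  obtain ⟨w, hw⟩ := Int.even_mul_succ_self (k : ℤ)
  have e1 : (k : ℤ) ^ 2 = w + w - k := by linear_combination hw
  zify at h4
  unfold KB10 at ha h0 h1'
  rw [e1] at ha h0 h1' h4 s0 s1 s2
  generalize (e : ℤ) ^ 2 = E at *
  omega

theorem fibN_fc {K : Type} [Field K] {y : Fin 3 → K} {y0 xg xa xb : K} (h : BrN y y0 xg xa xb) :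
    FibN (fun l i => algebraMap (PowerSeries K) (LS K) (kfP (fun i => PowerSeries.C (y i))
      (PowerSeries.C y0) (PowerSeries.C y0 - PowerSeries.X) (PowerSeries.C xg)
      (PowerSeries.C xg + PowerSeries.X) (PowerSeries.C xa) (PowerSeries.C xb) l i))
      fun i => algebraMap (PowerSeries K) (LS K) (PowerSeries.C (y i)) := by
  have z0 : algebraMap (PowerSeries K) (LS K) (PowerSeries.C y0 - PowerSeries.X) ≠ 0 :=
    ls_ne_of_res (by simpa using h.zn)
  have z1 : algebraMap (PowerSeries K) (LS K) (PowerSeries.C y0) ≠ 0 :=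
    ls_ne_of_res (by simpa using h.zn)
  have k1 : ∀ x : K, x ≠ 1 → x * y0 - y0 ≠ 0 := fun x hx e =>
    mul_ne_zero (sub_ne_zero.2 hx) h.zn (by linear_combination e)
  refine ⟨?_, fun i => ?_, fun i => ls_ne_of_res (by simpa using h.yn i),
    fun i j hij => psIn_inj.ne fun e => h.yy i j hij (by simpa using congrArg (psRes K) e),
    by simpa [kfP] using z1, by simpa [kfP] using z0, fun s => ?_, fun s => ?_, fun s => ?_,
    fun s => ?_, ?_, ?_⟩
  · refine ix_all ?_ ?_ ?_ ?_ ?_ ⟨.inr z0, ?_⟩ ⟨.inr z0, ?_⟩ ?_ ?_ <;> simp [kfP, Pt]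
  · funext l
    fin_cases i <;> fin_cases l <;> simp [kfP]
  · fin_cases s <;> simp [kfP]
  · fin_cases s <;> simp [kfP]
  · fin_cases s
    · exact ls_ne_of_res (by simpa [kfP] using k1 _ h.g1)
    · exact ls_ne_of_res (by simpa [kfP] using k1 _ h.a1)
  · fin_cases s
    · exact ls_ne_of_res (by simpa [kfP, sub_eq_zero] using h.g1)
    · exact ls_ne_of_res (by simpa [kfP, sub_eq_zero] using h.b1)
  · rw [dx, ← map_mul, ← map_mul, ← map_sub]
    refine ls_ne_of_res fun e => mul_ne_zero (mul_ne_zero h.zn h.zn) (sub_ne_zero.2 h.ga) ?_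
    simp [kfP] at e
    linear_combination -e
  · rw [dx, ← map_mul, ← map_mul, ← map_sub]
    refine ls_ne_of_res fun e => sub_ne_zero.2 h.gb ?_
    simp [kfP] at e
    linear_combination -e

/-- the fold, from the three bounds -/
theorem down10_of {K : Type} [Field K] [Algebra ℂ K] {y : Fin 3 → K} {y0 xg xa xb : K}
    (h : BrN y y0 xg xa xb)
    (hb : ∀ e k : ℕ, 1 ≤ e → 3 * e ≤ k → k ≤ 4 * e + 2 → Br10 (brP y y0 xg xa xb) e k) :
    Down10 := by
  intro e k r h1 h2 h3 h4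
  have : CharZero K := charZero_of_injective_algebraMap (algebraMap ℂ K).injective
  obtain ⟨b, b0, b1⟩ := hb e k h1 h2 h3
  have em : kM (11 * e + 2 * k - k) (11 * e - k % 2) (kS (m10 e k) k 0 ((k + 1) / 2)) =
      n10 e k := by
    funext l
    revert l
    refine ix_all ?_ ?_ ?_ ?_ ?_ ?_ ?_ ?_ ?_ <;> simp [kM, kS, m10, n10] <;> omega
  have eb : brP (fun i => psRes K (PowerSeries.C (y i))) (psRes K (PowerSeries.C y0))
      (psRes K (PowerSeries.C xg)) (psRes K (PowerSeries.C xa)) (psRes K (PowerSeries.C xb)) =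
      brP y y0 xg xa xb := by simp only [psRes_C]
  have hf := brkC (O := PowerSeries K) (K := LS K) (psRes K) psRes_surj psRes_unit
    (y := fun i => PowerSeries.C (y i)) (y4 := PowerSeries.C y0)
    (y5 := PowerSeries.C y0 - PowerSeries.X) (g4 := PowerSeries.C xg)
    (g5 := PowerSeries.C xg + PowerSeries.X) (xa := PowerSeries.C xa) (xb := PowerSeries.C xb)
    (by simp [eq_sub_iff_add_eq]) (by simp) (by simp) (by simp) (by simpa using h)
    (p := 11 * e + 2 * k - k) (q := 10 * e + 2 * k - 2 * ((k + 1) / 2)) (P := 13 * e)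
    (Q := 11 * e - k % 2) (ε := 1 - k % 2) (m := kS (m10 e k) k 0 ((k + 1) / 2)) (d1 := e)
    (d2 := k - 2 * e) (τ := k / 2) (r := r)
    (by simp [kS, m10]; omega) (by simp [kS, m10]; omega) (by simp [kS, m10]; omega)
    (by simp [kS, m10]; omega) (by simp [kS, m10]; omega) (by simp [kS, m10]; omega)
    (by simp [kS, m10]; omega) (by simp [kS, m10]; omega) (by simp [kS, m10]; omega)
    le_rfl le_rfl le_rfl (by
      rw [em, eb]
      exact d10_ballot h1 h2 h3 h4 b b0 b1)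
  obtain ⟨w, hw⟩ := (hf.insert 0).exists_notMem
  rw [Set.mem_insert_iff, not_or] at hw
  obtain ⟨P, hP, hle⟩ := t5W (fibN_fc h)
    (η := algebraMap (PowerSeries K) (LS K) (PowerSeries.C w)) (ls_ne_of_res (by simpa using hw.1))
  refine ⟨LS (LS K), inferInstance, inferInstance, P, hP, (hle _ _ (m10 e k) k
    (by simp [m10]; omega) (by simp [m10]; omega) (by simp [m10]; omega)
    fun i => by fin_cases i <;> simp [m10]).trans (not_lt.1 fun hlt => hw.2 ⟨_, psRes_C w, hlt⟩)⟩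

end Pool.Agent.Lib.MP_d03834_ag.Core
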