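import Pool.Agent.Lib.MP_d03834_ag.Core.BiShear
import Pool.Agent.Lib.MP_d03834_ag.Core.ShDefs

/-! From the frame in which the curve R is a fibre to the frame in which R is a graph:
two elementary transformations. -/

set_option autoImplicit false

namespace Pool.Agent.Lib.MP_d03834_ag.Core

open Module

variable {K : Type} [Field K]

/-- the graph frame -/
def grP (z η : Fin 5 → K) (a b : Fin 2 → K) (t : K) : Ix → Fin 4 → K
  | .inl i => ![z i, 1, 1, η i]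
  | .inr (.inl s) => ![a s, 1, 0, 1]
  | .inr (.inr s) => ![b s, 1, t, 1]

/-- the middle frame; the labels a 0 and b 0 lie on B and on A -/
def mdP (z : Fin 5 → K) (a b : Fin 2 → K) (la mu : K) : Ix → Fin 4 → K
  | .inl i => ![z i, 1, 1, la + mu * z i]
  | .inr (.inl s) => ![![a 0, 1, 1, 0], ![a 1, 1, 0, 1]] s
  | .inr (.inr s) => ![![b 0, 1, 0, 1], ![b 1, 1, 1, 0]] s

/-- a point of A in the fibre frame -/
def fbA (z : Fin 5 → K) (x : K) : Fin 4 → K := ![z 4 - z 3, z 4 - x, 0, 1]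

/-- a point of B in the fibre frame -/
def fbB (z : Fin 5 → K) (la mu x : K) : Fin 4 → K :=
  ![(z 3 - z 4) * (la + mu * x), (la + mu * z 3) * (x - z 4), 1, 0]

/-- the fibre frame; the labels a 0 and b 0 lie on B and on A -/
def fbP (z : Fin 5 → K) (a b : Fin 2 → K) (la mu : K) : Ix → Fin 4 → K
  | .inl i => ![![0, 0, 0, 1, 1] i, ![1, 1, 1, 0, 1] i, 1, la + mu * z i]
  | .inr (.inl s) => ![fbB z la mu (a 0), fbA z (a 1)] s
  | .inr (.inr s) => ![fbA z (b 0), fbB z la mu (b 1)] s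

theorem ix_all {Q : Ix → Prop} (e0 : Q (.inl 0)) (e1 : Q (.inl 1)) (e2 : Q (.inl 2))
    (e3 : Q (.inl 3)) (e4 : Q (.inl 4)) (a0 : Q (.inr (.inl 0))) (a1 : Q (.inr (.inl 1)))
    (b0 : Q (.inr (.inr 0))) (b1 : Q (.inr (.inr 1))) : ∀ l, Q l := by
  rintro (i | s | s)
  · fin_cases i
    exacts [e0, e1, e2, e3, e4]
  · fin_cases s
    exacts [a0, a1]
  · fin_cases s
    exacts [b0, b1]

theorem grP_pt (z η : Fin 5 → K) (a b : Fin 2 → K) (t : K) : ∀ l, Pt (grP z η a b t l) := by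
  rintro (i | s | s) <;> simp [grP, Pt]

theorem mdP_pt (z : Fin 5 → K) (a b : Fin 2 → K) (la mu : K) : ∀ l, Pt (mdP z a b la mu l) := by
  refine ix_all ?_ ?_ ?_ ?_ ?_ ?_ ?_ ?_ ?_ <;> simp [mdP, Pt]

theorem fbP_pt {z : Fin 5 → K} {a b : Fin 2 → K} {la mu : K} (hz : z 3 ≠ z 4)
    (ha : la + mu * a 0 ≠ 0) (hb : la + mu * b 1 ≠ 0) : ∀ l, Pt (fbP z a b la mu l) := by
  have h1 := sub_ne_zero.2 hz
  have h2 := sub_ne_zero.2 hz.symm
  refine ix_all ?_ ?_ ?_ ?_ ?_ ?_ ?_ ?_ ?_ <;> simp [fbP, fbA, fbB, Pt, h1, h2, ha, hb]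

theorem md_le_gr {z η : Fin 5 → K} {a b : Fin 2 → K} {t la mu : K} (ht : t ≠ 0)
    (hR : ∀ i, (z i - a 0) * (t * η i - 1) = (z i - b 0) * (la + mu * z i))
    (hab : b 0 ≠ a 0) (hza : ∀ i, z i ≠ a 0) (hzb : ∀ i, z i ≠ b 0) (h1 : a 1 ≠ a 0)
    (h2 : a 1 ≠ b 0) (h3 : b 1 ≠ a 0) (h4 : b 1 ≠ b 0) (p q : ℤ) (m : Ix → ℤ) :
    finrank K (H0 p q (mdP z a b la mu) m) ≤
      finrank K (H0 (p + q - m (.inr (.inl 0)) - m (.inr (.inr 0))) q (grP z η a b t)
        fun l => if l = .inr (.inl 0) ∨ l = .inr (.inr 0) then q - m l else m l) := by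
  refine shear' (mdP_pt z a b la mu) (grP_pt z η a b t) (by simp [mdP, dy]) (by simpa [grP, dy])
    (by simpa [mdP, dx, sub_eq_zero]) ?_ ?_
  · refine ix_all ?_ ?_ ?_ ?_ ?_ ?_ ?_ ?_ ?_ <;> simp [mdP, grP, dx]
  · rintro (i | s | s) hi hj
    · refine ⟨by simpa [mdP, grP, dx, sub_eq_zero] using hza i,
        by simpa [mdP, grP, dx, sub_eq_zero] using hzb i, ?_⟩
      simp only [mdP, grP, dx, dy, Matrix.cons_val_zero, Matrix.cons_val_one, Matrix.cons_val]
      linear_combination hR i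
    · fin_cases s
      · exact absurd rfl hi
      · simpa [mdP, grP, dx, dy, sub_eq_zero] using ⟨h1, h2⟩
    · fin_cases s
      · exact absurd rfl hj
      · simpa [mdP, grP, dx, dy, sub_eq_zero] using ⟨h3, h4⟩

theorem fb_le_md {z : Fin 5 → K} {a b : Fin 2 → K} {la mu : K} (hm : mu ≠ 0)
    (hz : ∀ i j, i ≠ j → z i ≠ z j) (h3 : la + mu * z 3 ≠ 0) (h4 : la + mu * z 4 ≠ 0)
    (ha : la + mu * a 0 ≠ 0) (hb : la + mu * b 1 ≠ 0) (p q : ℤ) (m : Ix → ℤ) :
    finrank K (H0 p q (fbP z a b la mu) m) ≤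
      finrank K (H0 p (q + p - m (.inl 3) - m (.inl 4)) (mdP z a b la mu)
        fun l => if l = .inl 3 ∨ l = .inl 4 then p - m l else m l) := by
  have h34 := hz 3 4 (by decide)
  refine shear (fbP_pt h34 ha hb) (mdP_pt z a b la mu) (by simp [fbP, dx])
    (by simpa [mdP, dx, sub_eq_zero] using h34.symm)
    (by simpa [fbP, dy, sub_eq_zero, hm] using h34) ?_ ?_
  · refine ix_all ?_ ?_ ?_ ?_ ?_ ?_ ?_ ?_ ?_ <;> simp [fbP, mdP, fbA, fbB, dy]
  · have k : ∀ i : Fin 5, i ≠ 3 → i ≠ 4 → la + mu * z 3 - (la + mu * z i) ≠ 0 ∧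
        la + mu * z 4 - (la + mu * z i) ≠ 0 := fun i e e' =>
      ⟨by simpa [sub_eq_zero, hm] using hz 3 i e.symm,
        by simpa [sub_eq_zero, hm] using hz 4 i e'.symm⟩
    refine ix_all ?_ ?_ ?_ (fun h => absurd rfl h) (fun _ h => absurd rfl h) ?_ ?_ ?_ ?_ <;>
      intro _ _ <;>
      simp only [fbP, mdP, fbA, fbB, dx, dy, Matrix.cons_val_zero, Matrix.cons_val_one,
        Matrix.cons_val, mul_one, one_mul, mul_zero, sub_zero, zero_sub]
    · exact ⟨(k 0 (by decide) (by decide)).1, (k 0 (by decide) (by decide)).2, by ring⟩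
    · exact ⟨(k 1 (by decide) (by decide)).1, (k 1 (by decide) (by decide)).2, by ring⟩
    · exact ⟨(k 2 (by decide) (by decide)).1, (k 2 (by decide) (by decide)).2, by ring⟩
    · exact ⟨h3, h4, by ring⟩
    · exact ⟨by simp, by simp, by ring⟩
    · exact ⟨by simp, by simp, by ring⟩
    · exact ⟨h3, h4, by ring⟩

/-- the multiplicities in the graph frame; q2 is the degree in y of the graph frame -/
def grM (p q2 : ℤ) (m : Ix → ℤ) (l : Ix) : ℤ :=
  if l = .inr (.inl 0) ∨ l = .inr (.inr 0) then q2 - m l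
  else if l = .inl 3 ∨ l = .inl 4 then p - m l else m l

/-- the two elementary transformations -/
theorem fb_le_gr {z η : Fin 5 → K} {a b : Fin 2 → K} {t la mu : K} (ht : t ≠ 0) (hm : mu ≠ 0)
    (hR : ∀ i, (z i - a 0) * (t * η i - 1) = (z i - b 0) * (la + mu * z i))
    (hab : b 0 ≠ a 0) (hza : ∀ i, z i ≠ a 0) (hzb : ∀ i, z i ≠ b 0) (h1 : a 1 ≠ a 0)
    (h2 : a 1 ≠ b 0) (h3 : b 1 ≠ a 0) (h4 : b 1 ≠ b 0) (hz : ∀ i j, i ≠ j → z i ≠ z j)
    (k3 : la + mu * z 3 ≠ 0) (k4 : la + mu * z 4 ≠ 0) (ka : la + mu * a 0 ≠ 0)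
    (kb : la + mu * b 1 ≠ 0) {p q p2 q2 : ℤ} {m m2 : Ix → ℤ}
    (e1 : q2 = q + p - m (.inl 3) - m (.inl 4))
    (e2 : p2 = p + q2 - m (.inr (.inl 0)) - m (.inr (.inr 0))) (e3 : ∀ l, m2 l ≤ grM p q2 m l) :
    finrank K (H0 p q (fbP z a b la mu) m) ≤ finrank K (H0 p2 q2 (grP z η a b t) m2) := by
  subst e1 e2
  refine (fb_le_md hm hz k3 k4 ka kb p q m).trans
    ((md_le_gr ht hR hab hza hzb h1 h2 h3 h4 _ _ _).trans (Submodule.finrank_mono ?_))
  refine H0_le fun l => Or.inr ⟨l, (e3 l).trans (le_of_eq ?_), grP_pt _ _ _ _ _ l, dx_self _,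
    dy_self _⟩
  revert l
  refine ix_all ?_ ?_ ?_ ?_ ?_ ?_ ?_ ?_ ?_ <;> simp [grM]

variable {O k : Type} [CommRing O] [Field k]

/-- The curve R is the graph through the free points, a 0 and b 0, and the two elementary
transformations are honest. -/
structure Rex (A : Arc O k) (c : Cfg O k) (la mu : O) : Prop where
  z0 : ∀ i, A.res (c.z i) ≠ 0
  mu0 : mu ≠ 0
  mur : A.res mu = 0
  lar : A.res la ≠ 0
  R : ∀ i, (c.z i - A.t * c.al 0) * (A.t * c.η i - 1) = (c.z i - A.t * c.be 0) * (la + mu * c.z i)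
  zz : ∀ i j, i ≠ j → c.z i ≠ c.z j
  ba : c.be 0 ≠ c.al 0
  aa : c.al 1 ≠ c.al 0
  ab : c.al 1 ≠ c.be 0
  ba' : c.be 1 ≠ c.al 0
  bb : c.be 1 ≠ c.be 0

/-- the fibre frame of a configuration -/
def Cfg.fb (A : Arc O k) (K : Type) [Field K] [Algebra O K] (c : Cfg O k) (la mu : O) :
    Ix → Fin 4 → K :=
  fbP (fun i => algebraMap O K (c.z i)) (fun s => algebraMap O K (A.t * c.al s))
    (fun s => algebraMap O K (A.t * c.be s)) (algebraMap O K la) (algebraMap O K mu)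

theorem Rex.lin {A : Arc O k} {c : Cfg O k} {la mu : O} (h : Rex A c la mu) [Algebra O K]
    (hi : Function.Injective (algebraMap O K)) (x : O) :
    algebraMap O K la + algebraMap O K mu * algebraMap O K x ≠ 0 := by
  rw [← map_mul, ← map_add, map_ne_zero_iff _ hi]
  intro e
  have := congrArg A.res e
  rw [map_add, map_mul, h.mur, zero_mul, add_zero, map_zero] at this
  exact h.lar this

theorem Rex.zt {A : Arc O k} {c : Cfg O k} {la mu : O} (h : Rex A c la mu) (i : Fin 5) (x : O) :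
    c.z i ≠ A.t * x := fun e => h.z0 i (by rw [e, (A.ker _).2 (dvd_mul_right _ _)])

theorem Rex.pt {A : Arc O k} {c : Cfg O k} {la mu : O} (h : Rex A c la mu) [Algebra O K]
    (hi : Function.Injective (algebraMap O K)) : ∀ l, Pt (c.fb A K la mu l) :=
  fbP_pt (hi.ne (h.zz 3 4 (by decide))) (h.lin hi _) (h.lin hi _)

/-- from the fibre frame to the shape -/
theorem Rex.le [IsDomain O] {A : Arc O k} {c : Cfg O k} {la mu : O} (h : Rex A c la mu)
    [Algebra O K] (hi : Function.Injective (algebraMap O K)) {p q ε : ℤ} {m : Ix → ℤ} {u : CL}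
    (e1 : dgy ε u = q + p - m (.inl 3) - m (.inl 4))
    (e2 : dgx ε u = p + dgy ε u - m (.inr (.inl 0)) - m (.inr (.inr 0)))
    (e3 : ∀ l, mlt ε u l ≤ grM p (dgy ε u) m l) :
    finrank K (H0 p q (c.fb A K la mu) m) ≤ finrank K (c.H A K ε u) := by
  have e : c.pts A K = grP (fun i => algebraMap O K (c.z i)) (fun i => algebraMap O K (c.η i))
      (fun s => algebraMap O K (A.t * c.al s)) (fun s => algebraMap O K (A.t * c.be s))
      (algebraMap O K A.t) := by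
    funext l j
    rcases l with i | s | s <;> fin_cases j <;> simp [Cfg.pts, Cfg.pO, grP]
  have k : ∀ x y : O, x ≠ y → algebraMap O K (A.t * x) ≠ algebraMap O K (A.t * y) :=
    fun x y hxy => hi.ne fun e => hxy (mul_left_cancel₀ A.t0 e)
  rw [Cfg.H, e]
  refine fb_le_gr ((map_ne_zero_iff _ hi).2 A.t0) ((map_ne_zero_iff _ hi).2 h.mu0) (fun i => ?_)
    (k _ _ h.ba) (fun i => hi.ne (h.zt i _)) (fun i => hi.ne (h.zt i _)) (k _ _ h.aa) (k _ _ h.ab)
    (k _ _ h.ba') (k _ _ h.bb) (fun i j hij => hi.ne (h.zz i j hij)) (h.lin hi _) (h.lin hi _)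
    (h.lin hi _) (h.lin hi _) e1 e2 e3
  simpa using congrArg (algebraMap O K) (h.R i)

end Pool.Agent.Lib.MP_d03834_ag.Core
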