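import Pool.Agent.Lib.MP_d03834_ag.Core.KPC
import Pool.Agent.Lib.MP_d03834_ag.Core.ClHonB
import Pool.Agent.Lib.MP_d03834_ag.Core.TwoSh

/-! The bound for honest sections on a configuration with an exact curve. -/

set_option autoImplicit false

namespace Pool.Agent.Lib.MP_d03834_ag.Core

open Module

variable {O k Γ : Type} [CommRing O] [Field k] [LinearOrderedCommGroupWithZero Γ] {A : Arc O k}

/-- the bound for honest sections from a start state with distinct points -/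
theorem Sta.kpH {K : Type} [Field K] [Algebra O K] {v : Valuation k Γ} (hK : KPC A K v)
    (hi : Function.Injective (algebraMap O K)) {c : CCfg O k} {χ : CL → k} {u : CL}
    (h : Sta A v c χ u) (hz : ∀ i l, i ≠ l → c.z i ≠ c.z l) (ha : c.al 0 ≠ c.al 1)
    (hb : c.be 0 ≠ c.be 1) {ε : ℤ} (hε : ε = 0 ∨ ε = 1) :
    (0 < cip u u → (finrank K (c.toCfg.H A K ε u) : ℤ) ≤ 1 + cip u u / 2) ∧
      (cip u u < 0 → finrank K (c.toCfg.H A K ε u) = 0) := by
  have h1 := Submodule.finrank_mono (H_le_HC' K hi h.ex hz ha hb ε u)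
  obtain ⟨h2, h3⟩ := hK c χ u ε h hε
  exact ⟨fun e => by have := h2 e; omega, fun e => by have := h3 e; omega⟩

/-- the equation of the exact curve -/
theorem Rex.cur [IsDomain O] {c : Cfg O k} {la mu : O} (h : Rex A c la mu) :
    ∃ q : Fin 3 → O, A.res (q 0) = A.res (c.be 0) - A.res (c.al 0) ∧
      ∀ l, qv q (c.z l) = c.η l * qv ![-(A.t * c.al 0), 1, 0] (c.z l) := by
  obtain ⟨m, hm⟩ := (A.ker mu).1 h.mur
  have h1 : A.res (1 + la) = 0 := by
    have := congrArg A.res (h.R 0)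
    simp only [map_mul, map_sub, map_add, A.rt, h.mur, map_one, zero_mul, sub_zero, zero_sub,
      add_zero] at this
    rw [map_add, map_one]
    exact mul_left_cancel₀ (h.z0 0) (by linear_combination -this)
  obtain ⟨n, hn⟩ := (A.ker _).1 h1
  refine ⟨![-(c.al 0 + c.be 0 * la), n - c.be 0 * mu, m], ?_, fun l => ?_⟩
  · rw [map_add, map_one] at h1
    simp only [Matrix.cons_val_zero, map_neg, map_add, map_mul]
    linear_combination -A.res (c.be 0) * h1
  · refine mul_left_cancel₀ A.t0 ?_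
    simp only [qv, Matrix.cons_val_zero, Matrix.cons_val_one, Matrix.cons_val]
    linear_combination -h.R l - c.z l * hn - c.z l ^ 2 * hm

theorem Rex.ex_aux [IsDomain O] {c : Cfg O k} {la mu : O} (h : Rex A c la mu)
    (cur : ∀ i, A.res (c.η i) * A.res (c.z i) =
      c.Q0 + c.Q1 * A.res (c.z i) + c.Q2 * A.res (c.z i) ^ 2)
    (H : ∀ a b d : k, a = A.res (c.be 0) - A.res (c.al 0) - c.Q0 →
      (∀ i, a + b * A.res (c.z i) + d * A.res (c.z i) ^ 2 = 0) → a = 0 ∧ b = 0 ∧ d = 0) :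
    ∃ q, Ex A ⟨c, q⟩ := by
  obtain ⟨q, h0, h1⟩ := h.cur
  obtain ⟨e0, e1, e2⟩ := H (A.res (q 0) - c.Q0) (A.res (q 1) - c.Q1) (A.res (q 2) - c.Q2)
    (by rw [h0]) fun i => by
      have := congrArg A.res (h1 i)
      simp only [qv, Matrix.cons_val_zero, Matrix.cons_val_one, Matrix.cons_val, map_add, map_mul,
        map_neg, map_pow, A.rt, map_one, map_zero] at this
      linear_combination this + cur i
  exact ⟨![![-(A.t * c.al 0), 1, 0], q], by simp [A.rt], by simp, by simp, sub_eq_zero.1 e0,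
    sub_eq_zero.1 e1, sub_eq_zero.1 e2, h1⟩

/-- three different residues -/
theorem Rex.ex [IsDomain O] {c : Cfg O k} {la mu : O} (h : Rex A c la mu)
    (cur : ∀ i, A.res (c.η i) * A.res (c.z i) =
      c.Q0 + c.Q1 * A.res (c.z i) + c.Q2 * A.res (c.z i) ^ 2) {i j l : Fin 5}
    (hij : A.res (c.z i) ≠ A.res (c.z j)) (hil : A.res (c.z i) ≠ A.res (c.z l))
    (hjl : A.res (c.z j) ≠ A.res (c.z l)) : ∃ q, Ex A ⟨c, q⟩ := by
  refine h.ex_aux cur fun a b d _ H => ?_
  have e1 : b + d * (A.res (c.z i) + A.res (c.z j)) = 0 :=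
    mul_left_cancel₀ (sub_ne_zero.2 hij) (by linear_combination H i - H j)
  have e2 : b + d * (A.res (c.z i) + A.res (c.z l)) = 0 :=
    mul_left_cancel₀ (sub_ne_zero.2 hil) (by linear_combination H i - H l)
  have e3 : d = 0 := mul_left_cancel₀ (sub_ne_zero.2 hjl) (by linear_combination e1 - e2)
  have e4 : b = 0 := by rw [e3] at e1; linear_combination e1
  have e5 := H i
  rw [e3, e4] at e5
  exact ⟨by linear_combination e5, e4, e3⟩

/-- the slope at the centre and two different residues -/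
theorem Rex.ex' [IsDomain O] {c : Cfg O k} {la mu : O} (h : Rex A c la mu)
    (cur : ∀ i, A.res (c.η i) * A.res (c.z i) =
      c.Q0 + c.Q1 * A.res (c.z i) + c.Q2 * A.res (c.z i) ^ 2)
    (h0 : c.Q0 = A.res (c.be 0) - A.res (c.al 0)) {i j : Fin 5}
    (hij : A.res (c.z i) ≠ A.res (c.z j)) : ∃ q, Ex A ⟨c, q⟩ := by
  refine h.ex_aux cur fun a b d ha H => ?_
  rw [h0, sub_self] at ha
  subst ha
  have e1 : ∀ l, b + d * A.res (c.z l) = 0 := fun l =>
    mul_left_cancel₀ (h.z0 l) (by linear_combination H l)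
  have e3 : d = 0 := mul_left_cancel₀ (sub_ne_zero.2 hij) (by linear_combination e1 i - e1 j)
  have e4 := e1 i
  rw [e3] at e4
  exact ⟨rfl, by linear_combination e4, e3⟩

theorem Shp.slope {c : Cfg O k} {χ : CL → k} (h : Shp A c χ) (h1 : χ (Core.eb 1) = 1) :
    c.Q0 = A.res (c.be 0) - A.res (c.al 0) := by
  have := h.eb 1
  rw [h1, one_mul, Cfg.N] at this
  linear_combination -this

/-- the bound for honest sections, from any exact curve -/
theorem Rex.kp_ex {K : Type} [Field K] [Algebra O K] {v : Valuation k Γ} (hK : KPC A K v)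
    (hi : Function.Injective (algebraMap O K)) {c : Cfg O k} {la mu : O} (h : Rex A c la mu)
    (hq : ∃ q, Ex A ⟨c, q⟩) {χ : CL → k} (hs : Shp A c χ) (ch : IsCh χ)
    (le : ∀ g ∈ cD.lat.Λ, v (χ g) ≤ 1) (nb : ∀ g ∈ cD.lat.Λ, ¬Lat.Bk (Invo.one v) (χ g))
    {u : CL} (M : u ∈ cD.M) (pos : cD.lat.Pos (Invo.one v) χ u)
    (rt : ∀ α ∈ cD.lat.Φ, χ α = 1 → 0 < cip u α → 0 ≤ cip hC α) {ε : ℤ} (hε : ε = 0 ∨ ε = 1) :
    (0 < cip u u → (finrank K (c.H A K ε u) : ℤ) ≤ 1 + cip u u / 2) ∧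
      (cip u u < 0 → finrank K (c.H A K ε u) = 0) := by
  obtain ⟨q, hq⟩ := hq
  exact Sta.kpH (c := ⟨c, q⟩) hK hi ⟨hs, hq, ch, le, nb, M, pos, rt⟩ h.zz h.aa.symm h.bb.symm hε

/-- the bound for honest sections when the curve is the line eb 1 -/
theorem Rex.kp [IsDomain O] {K : Type} [Field K] [Algebra O K] {v : Valuation k Γ}
    (hK : KPC A K v) (hi : Function.Injective (algebraMap O K)) {c : Cfg O k} {la mu : O}
    (h : Rex A c la mu) {χ : CL → k} (hs : Shp A c χ) (h1 : χ (eb 1) = 1) {i j : Fin 5}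
    (hij : A.res (c.z i) ≠ A.res (c.z j)) (ch : IsCh χ)
    (le : ∀ g ∈ cD.lat.Λ, v (χ g) ≤ 1) (nb : ∀ g ∈ cD.lat.Λ, ¬Lat.Bk (Invo.one v) (χ g))
    {u : CL} (M : u ∈ cD.M) (pos : cD.lat.Pos (Invo.one v) χ u)
    (rt : ∀ α ∈ cD.lat.Φ, χ α = 1 → 0 < cip u α → 0 ≤ cip hC α) {ε : ℤ} (hε : ε = 0 ∨ ε = 1) :
    (0 < cip u u → (finrank K (c.H A K ε u) : ℤ) ≤ 1 + cip u u / 2) ∧
      (cip u u < 0 → finrank K (c.H A K ε u) = 0) :=
  h.kp_ex hK hi (h.ex' hs.cur (hs.slope h1) hij) hs ch le nb M pos rt hε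

end Pool.Agent.Lib.MP_d03834_ag.Core
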