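import Pool.Agent.Lib.MP_d03834_ag.Core.ShStep
import Pool.Agent.Lib.MP_d03834_ag.Core.TwoSh

/-! Start states: a configuration on an exact graph curve through a 0 and b 0,
for any character with the value one on the line eb 1, and the generic character. -/

set_option autoImplicit false

namespace Pool.Agent.Lib.MP_d03834_ag.Core

variable {O k Γ : Type} [CommRing O] [Field k] [LinearOrderedCommGroupWithZero Γ]

/-- the five free points, a 0 = origin and b 0 lie on the curve y (q0 + q1 x + q2 x ^ 2) = x -/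
structure Exa (A : Arc O k) (c : Cfg O k) (q0 q1 q2 : O) : Prop where
  e : ∀ i, c.η i * c.z i = q0 + q1 * c.z i + q2 * c.z i ^ 2
  a : c.al 0 = 0
  b : c.be 0 = q0 + q1 * (A.t * c.be 0) + q2 * (A.t * c.be 0) ^ 2

/-- the vector of the free point i -/
def dl (i : Fin 5) : CL := ((0, 0), Pi.single i 1, 0)
/-- the vector of the degree in y -/
def dJ : CL := ((0, 1), 0, 0)

theorem aV_eq (i j : Fin 5) : aV i j = dJ + dl i + dl j := by
  simp [aV, dJ, dl]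

/-- the constant coefficient of the curve -/
noncomputable def q0Of (A : Arc O k) (σ : k →+* O) (χ : CL → k) : O :=
  σ (-χ e5) - σ (-χ e5 * χ dJ) * (A.t * σ (-χ e5)) ^ 2

/-- the configuration of a character -/
noncomputable def cfgOf (A : Arc O k) (σ : k →+* O) (χ : CL → k) : Cfg O k where
  z := fun i => σ (χ (dl i))
  η := fun i => q0Of A σ χ * σ (χ (dl i))⁻¹ + σ (-χ e5 * χ dJ) * σ (χ (dl i))
  al := ![0, σ (-χ (eb 0))]
  be := ![σ (-χ e5), σ (1 - χ (eb 0) - χ e5)]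
  Q0 := -χ e5
  Q1 := 0
  Q2 := -χ e5 * χ dJ

variable {A : Arc O k} {σ : k →+* O} {χ : CL → k}

theorem cfgOf_exa (hχ : IsCh χ) :
    Exa A (cfgOf A σ χ) (q0Of A σ χ) 0 (σ (-χ e5 * χ dJ)) := by
  refine ⟨fun i => ?_, rfl, ?_⟩
  · have : σ (χ (dl i))⁻¹ * σ (χ (dl i)) = 1 := by
      rw [← map_mul, inv_mul_cancel₀ (hχ.2 _), map_one]
    simp only [cfgOf]
    linear_combination q0Of A σ χ * this
  · simp only [cfgOf, q0Of, Matrix.cons_val_zero]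
    ring

theorem cfgOf_N (hσ : ∀ x, A.res (σ x) = x) : (cfgOf A σ χ).N A = 1 := by
  simp only [Cfg.N, cfgOf, Matrix.cons_val_zero, Matrix.cons_val_one, hσ, map_zero]
  ring

theorem cfgOf_shp (hσ : ∀ x, A.res (σ x) = x) (hχ : IsCh χ) (h1 : χ (eb 1) = 1) :
    Shp A (cfgOf A σ χ) χ := by
  refine ⟨fun i => ?_, fun i => ?_, ?_, ?_, fun s => ?_, fun i j _ => ?_⟩
  · simpa only [cfgOf, hσ] using hχ.2 _
  · have := congrArg A.res ((cfgOf_exa (A := A) (σ := σ) hχ).e i)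
    simp only [map_mul, map_add, map_pow, map_zero, q0Of, map_sub, A.rt, hσ] at this
    rw [this]
    simp [cfgOf]
  · rw [cfgOf_N hσ]
    exact one_ne_zero
  · rw [cfgOf_N hσ]
    simp [cfgOf]
  · rw [cfgOf_N hσ]
    fin_cases s
    · simp only [cfgOf, Fin.zero_eta, Matrix.cons_val_zero, Matrix.cons_val_one, hσ]
      ring
    · simp only [cfgOf, Fin.mk_one, Matrix.cons_val_zero, Matrix.cons_val_one, hσ, h1]
      ring
  · simp only [cfgOf, hσ, aV_eq, hχ.1]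
    ring

/-- the character of an additive exponent -/
def chiOf (s : k) (ψ : CL →+ ℤ) : CL → k := fun u => s ^ ψ u

theorem chiOf_ch {s : k} (hs : s ≠ 0) (ψ : CL →+ ℤ) : IsCh (chiOf s ψ) :=
  ⟨fun u w => by simp only [chiOf, map_add, zpow_add₀ hs], fun _ => zpow_ne_zero _ hs⟩

theorem v_chiOf (v : Valuation k Γ) {s : k} (hs : s ≠ 0) (hv : v s < 1) (ψ : CL →+ ℤ) (u : CL) :
    (0 < ψ u → v (chiOf s ψ u) < 1) ∧ (chiOf s ψ u = 1 ↔ ψ u = 0) := by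
  have h0 : 0 < v s := by rwa [zero_lt_iff, Valuation.ne_zero_iff]
  refine ⟨fun h => by rw [chiOf, map_zpow₀]; exact zpow_lt_one₀ h0 hv h,
    fun h => ?_, fun h => by rw [chiOf, h, zpow_zero]⟩
  have h1 := congrArg v h
  rw [chiOf, map_zpow₀, map_one] at h1
  exact (zpow_eq_one_iff_right₀ h0.le hv.ne).1 h1

/-- bounds for the coordinates of a root -/
theorem root_bd {u : CL} (h : u ∈ cD.lat.Φ) : (-2 ≤ u.1.1 ∧ u.1.1 ≤ 2) ∧
    (-4 ≤ u.1.2 ∧ u.1.2 ≤ 4) ∧ (∀ i, -3 ≤ u.2.1 i ∧ u.2.1 i ≤ 3) ∧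
      ∀ s, -2 ≤ u.2.2 s ∧ u.2.2 s ≤ 2 := by
  have key := cip_key u h.2.2 h.2.1
  rw [show cip u u = -2 from h.1] at key
  have k0 := sq_nonneg (5 * u.2.1 0 - 2 * u.1.2)
  have k1 := sq_nonneg (5 * u.2.1 1 - 2 * u.1.2)
  have k2 := sq_nonneg (5 * u.2.1 2 - 2 * u.1.2)
  have k3 := sq_nonneg (5 * u.2.1 3 - 2 * u.1.2)
  have k4 := sq_nonneg (5 * u.2.1 4 - 2 * u.1.2)
  have k5 := sq_nonneg (2 * u.2.2 0 - u.1.1)
  have k6 := sq_nonneg (2 * u.2.2 1 - u.1.1)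
  have k7 := sq_nonneg (4 * u.1.2 - 5 * u.1.1)
  have k8 := sq_nonneg u.1.1
  have z : ∀ a b : ℤ, 0 ≤ b → a ^ 2 < (b + 1) ^ 2 → -b ≤ a ∧ a ≤ b := fun a b hb ha => by
    have := abs_lt.1 (abs_lt_of_sq_lt_sq ha (by omega))
    omega
  have l0 := z (5 * u.2.1 0 - 2 * u.1.2) 7 (by omega) (by omega)
  have l1 := z (5 * u.2.1 1 - 2 * u.1.2) 7 (by omega) (by omega)
  have l2 := z (5 * u.2.1 2 - 2 * u.1.2) 7 (by omega) (by omega)
  have l3 := z (5 * u.2.1 3 - 2 * u.1.2) 7 (by omega) (by omega)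
  have l4 := z (5 * u.2.1 4 - 2 * u.1.2) 7 (by omega) (by omega)
  have l5 := z (2 * u.2.2 0 - u.1.1) 2 (by omega) (by omega)
  have l6 := z (2 * u.2.2 1 - u.1.1) 2 (by omega) (by omega)
  have l7 := z (4 * u.1.2 - 5 * u.1.1) 6 (by omega) (by omega)
  have l8 := z u.1.1 2 (by omega) (by omega)
  clear key k0 k1 k2 k3 k4 k5 k6 k7 k8 z
  refine ⟨l8, by omega, fun i => ?_, fun s => ?_⟩
  · fin_cases i <;> simp <;> omega
  · fin_cases s <;> simp <;> omega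

/-- bounds for the coordinates of a line -/
theorem line_bd {u : CL} (h : u ∈ cD.lat.Λ) : (0 ≤ u.1.1 ∧ u.1.1 ≤ 4) ∧
    (-1 ≤ u.1.2 ∧ u.1.2 ≤ 6) ∧ (∀ i, -1 ≤ u.2.1 i ∧ u.2.1 i ≤ 3) ∧
      ∀ s, -1 ≤ u.2.2 s ∧ u.2.2 s ≤ 2 := by
  have hM : ∑ i, u.2.1 i = 2 * u.1.2 := h.2.2
  have h1 : cip u u = -1 := h.1
  have h2 : cip u ((4, 5), fun _ => 2, fun _ => 1) = 1 := h.2.1
  have key := cip_key ((2 * u.1.1 - 4, 2 * u.1.2 - 5), fun i => 2 * u.2.1 i - 2,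
    fun s => 2 * u.2.2 s - 1) (by simp only [Fin.sum_univ_five] at hM ⊢; omega)
    (by simp only [cip, Fin.sum_univ_five, Fin.sum_univ_two] at h2 ⊢; omega)
  have e : cip ((2 * u.1.1 - 4, 2 * u.1.2 - 5), fun i => 2 * u.2.1 i - 2, fun s => 2 * u.2.2 s - 1)
      ((2 * u.1.1 - 4, 2 * u.1.2 - 5), fun i => 2 * u.2.1 i - 2, fun s => 2 * u.2.2 s - 1) = -6 := by
    simp only [cip, Fin.sum_univ_five, Fin.sum_univ_two] at h1 h2 ⊢
    linear_combination 4 * h1 - 4 * h2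
  rw [e] at key
  dsimp only at key
  have k0 := sq_nonneg (5 * (2 * u.2.1 0 - 2) - 2 * (2 * u.1.2 - 5))
  have k1 := sq_nonneg (5 * (2 * u.2.1 1 - 2) - 2 * (2 * u.1.2 - 5))
  have k2 := sq_nonneg (5 * (2 * u.2.1 2 - 2) - 2 * (2 * u.1.2 - 5))
  have k3 := sq_nonneg (5 * (2 * u.2.1 3 - 2) - 2 * (2 * u.1.2 - 5))
  have k4 := sq_nonneg (5 * (2 * u.2.1 4 - 2) - 2 * (2 * u.1.2 - 5))
  have k5 := sq_nonneg (2 * (2 * u.2.2 0 - 1) - (2 * u.1.1 - 4))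
  have k6 := sq_nonneg (2 * (2 * u.2.2 1 - 1) - (2 * u.1.1 - 4))
  have k7 := sq_nonneg (4 * (2 * u.1.2 - 5) - 5 * (2 * u.1.1 - 4))
  have k8 := sq_nonneg (2 * u.1.1 - 4)
  have z : ∀ a b : ℤ, 0 ≤ b → a ^ 2 < (b + 1) ^ 2 → -b ≤ a ∧ a ≤ b := fun a b hb ha => by
    have := abs_lt.1 (abs_lt_of_sq_lt_sq ha (by omega))
    omega
  have l0 := z (5 * (2 * u.2.1 0 - 2) - 2 * (2 * u.1.2 - 5)) 12 (by omega) (by omega)
  have l1 := z (5 * (2 * u.2.1 1 - 2) - 2 * (2 * u.1.2 - 5)) 12 (by omega) (by omega)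
  have l2 := z (5 * (2 * u.2.1 2 - 2) - 2 * (2 * u.1.2 - 5)) 12 (by omega) (by omega)
  have l3 := z (5 * (2 * u.2.1 3 - 2) - 2 * (2 * u.1.2 - 5)) 12 (by omega) (by omega)
  have l4 := z (5 * (2 * u.2.1 4 - 2) - 2 * (2 * u.1.2 - 5)) 12 (by omega) (by omega)
  have l5 := z (2 * (2 * u.2.2 0 - 1) - (2 * u.1.1 - 4)) 4 (by omega) (by omega)
  have l6 := z (2 * (2 * u.2.2 1 - 1) - (2 * u.1.1 - 4)) 4 (by omega) (by omega)
  have l7 := z (4 * (2 * u.1.2 - 5) - 5 * (2 * u.1.1 - 4)) 10 (by omega) (by omega)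
  have l8 := z (2 * u.1.1 - 4) 4 (by omega) (by omega)
  clear key k0 k1 k2 k3 k4 k5 k6 k7 k8 z e h1 h2 hM
  refine ⟨by omega, by omega, fun i => ?_, fun s => ?_⟩
  · fin_cases i <;> simp <;> omega
  · fin_cases s <;> simp <;> omega

/-- the generic exponent: 10 ^ 8 times the degree n - c 0 of -K + eb 1, and a perturbation -/
def psi0 : CL →+ ℤ := AddMonoidHom.mk' (fun u => 100000000 * (u.1.1 - u.2.2 0) + u.1.1 +
    10 * u.2.1 0 + 100 * u.2.1 1 + 1000 * u.2.1 2 + 10000 * u.2.1 3 + 100000 * u.2.1 4)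
  fun u w => by
    simp only [Prod.fst_add, Prod.snd_add, Pi.add_apply]
    ring

theorem psi0_line {g : CL} (hg : g ∈ cD.lat.Λ) (hne : g ≠ eb 1) : 0 < psi0 g := by
  have h1 := cD.lat.nonneg g hg _ (eb_line 1) hne
  have h2 : cip g ((4, 5), fun _ => 2, fun _ => 1) = 1 := hg.2.1
  have hM : ∑ i, g.2.1 i = 2 * g.1.2 := hg.2.2
  obtain ⟨b1, -, b3, -⟩ := line_bd hg
  have a0 := b3 0
  have a1 := b3 1
  have a2 := b3 2
  have a3 := b3 3
  have a4 := b3 4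
  rw [DP.lat_ip, cD_ip, cip_eb] at h1
  simp only [cip, Fin.sum_univ_five, Fin.sum_univ_two] at h2 hM
  simp only [psi0, AddMonoidHom.mk'_apply]
  omega

theorem psi0_root {α : CL} (hα : α ∈ cD.lat.Φ) : psi0 α ≠ 0 := by
  intro h
  have h1 : cip α α = -2 := hα.1
  have h2 : cip α ((4, 5), fun _ => 2, fun _ => 1) = 0 := hα.2.1
  have hM : ∑ i, α.2.1 i = 2 * α.1.2 := hα.2.2
  obtain ⟨b1, -, b3, b4⟩ := root_bd hα
  have a0 := b3 0
  have a1 := b3 1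
  have a2 := b3 2
  have a3 := b3 3
  have a4 := b3 4
  have a5 := b4 0
  simp only [cip, Fin.sum_univ_five, Fin.sum_univ_two] at h1 h2 hM
  simp only [psi0, AddMonoidHom.mk'_apply] at h
  have e0 : α.1.1 = 0 := by omega
  have e1 : α.2.1 0 = 0 := by omega
  have e2 : α.2.1 1 = 0 := by omega
  have e3 : α.2.1 2 = 0 := by omega
  have e4 : α.2.1 3 = 0 := by omega
  have e5 : α.2.1 4 = 0 := by omega
  have e6 : α.2.2 0 = 0 := by omega
  have e7 : α.2.2 1 = 0 := by omega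
  rw [e0, e1, e2, e3, e4, e5, e6, e7] at h1
  omega

/-- a base state from an exponent which is positive on the lines outside F and zero on F -/
theorem chiOf_base (v : Valuation k Γ) {s : k} (hs : s ≠ 0) (hv : v s < 1) {ψ : CL →+ ℤ}
    (hl : ∀ g ∈ cD.lat.Λ, 0 ≤ ψ g) {E : Set CL} (hr : ∀ α ∈ cD.lat.Φ, ψ α = 0 → α ∈ E ∨ -α ∈ E) :
    cD.lat.P (Invo.one v) 0 (chiOf s ψ) E ∧ cD.lat.Fz (Invo.one v) {1} (chiOf s ψ) ∧
      ∀ u, (∀ g ∈ cD.lat.Λ, ψ g = 0 → 0 ≤ cip u g) → cD.lat.Pos (Invo.one v) (chiOf s ψ) u := by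
  have key : ∀ g ∈ cD.lat.Λ, v (chiOf s ψ g) < 1 ∨ (ψ g = 0 ∧ chiOf s ψ g = 1) := fun g hg =>
    (hl g hg).lt_or_eq.imp (v_chiOf v hs hv ψ g).1
      fun e => ⟨e.symm, (v_chiOf v hs hv ψ g).2.2 e.symm⟩
  refine ⟨Lat.P.base (chiOf_ch hs ψ) (fun g hg => ?_) (fun g hg hb => ?_)
    fun α hα h => hr α hα ((v_chiOf v hs hv ψ α).2.1 h), fun g hg h => ?_, fun u hu g hg h => ?_⟩
  · rcases key g hg with e | e
    · exact e.le
    · exact (e.2 ▸ v.map_one).le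
  · rcases key g hg with e | e
    · exact e.ne hb.1
    · exact hb.2.1 (by rw [e.2]; exact sub_self _)
  · exact Or.inr ((key g hg).resolve_left h.not_lt).2
  · exact hu g hg ((key g hg).resolve_left h.not_lt).1

/-- the generic start state -/
theorem start0 (hσ : ∀ x, A.res (σ x) = x) (v : Valuation k Γ) {s : k} (hs : s ≠ 0)
    (hv : v s < 1) : St A v {1} (cfgOf A σ (chiOf s psi0)) (chiOf s psi0) ∅ ∧
      ∀ u : CL, 0 ≤ u.2.2 1 → cD.lat.Pos (Invo.one v) (chiOf s psi0) u := by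
  have h0 : psi0 (eb 1) = 0 := by decide
  obtain ⟨h1, h2, h3⟩ := chiOf_base v hs hv (ψ := psi0) (E := ∅) (fun g hg => by
    by_cases e : g = eb 1
    · rw [e, h0]
    · exact (psi0_line hg e).le) fun α hα h => absurd h (psi0_root hα)
  refine ⟨⟨cfgOf_shp hσ (chiOf_ch hs _) ((v_chiOf v hs hv _ _).2.2 h0), ⟨0, h1⟩, h2,
    fun _ h => h.elim⟩, fun u hu => h3 u fun g hg e => ?_⟩
  obtain rfl : g = eb 1 := by
    by_contra hne
    exact (psi0_line hg hne).ne' e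
  rwa [cip_eb]

theorem one_one [CharZero k] : ∀ u ∈ ({1} : Set k), ∀ w ∈ ({1} : Set k), u + w ≠ 1 := by
  rintro _ rfl _ rfl
  norm_num

theorem Exa.rex [IsDomain O] {c : Cfg O k} {q0 q1 q2 : O} (h : Exa A c q0 q1 q2) (h2 : q2 ≠ 0)
    (hz : ∀ i, A.res (c.z i) ≠ 0) (zz : ∀ i j, i ≠ j → c.z i ≠ c.z j) (ba : c.be 0 ≠ c.al 0)
    (aa : c.al 1 ≠ c.al 0) (ab : c.al 1 ≠ c.be 0) (ba' : c.be 1 ≠ c.al 0)
    (bb : c.be 1 ≠ c.be 0) :
    Rex A c (A.t * q1 + A.t ^ 2 * q2 * c.be 0 - 1) (A.t * q2) := by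
  refine ⟨hz, mul_ne_zero A.t0 h2, by simp [A.rt], by simp [A.rt], fun i => ?_, zz, ba, aa, ab,
    ba', bb⟩
  rw [h.a]
  linear_combination A.t * h.e i - A.t * h.b

theorem Exa.rex' [IsDomain O] {c : Cfg O k} {q0 q1 q2 : O} (h : Exa A c q0 q1 q2) (h2 : q2 ≠ 0)
    (hn : Ndg A c) : Rex A c (A.t * q1 + A.t ^ 2 * q2 * c.be 0 - 1) (A.t * q2) := by
  have ne : ∀ a b : O, A.res a ≠ A.res b → a ≠ b := fun a b h e => h (by rw [e])
  exact h.rex h2 hn.z0 (fun i j hij => ne _ _ (hn.zz i j hij)) (ne _ _ (hn.ab 0 0).symm)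
    (ne _ _ hn.aa.symm) (ne _ _ (hn.ab 1 0)) (ne _ _ (hn.ab 0 1).symm) (ne _ _ hn.bb.symm)

/-- the bound for dominant classes of positive square -/
def EndH (A : Arc O k) (K : Type) [Field K] [Algebra O K] (ε : ℤ) : Prop :=
  ∀ c u, Ndg A c → Dmn u → 0 < cip u u →
    (Module.finrank K (Cfg.H A K c ε u) : ℤ) ≤ 1 + cip u u / 2

/-- the theorem on V for any state without effective roots -/
theorem kp_st [IsDomain O] {K : Type} [Field K] [Algebra O K]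
    (hK : Function.Injective (algebraMap O K)) {v : Valuation k Γ} {U : Set k}
    (hU : ∀ u ∈ U, ∀ w ∈ U, u + w ≠ 1) {ε : ℤ} (hε : 0 ≤ ε) (hend : EndH A K ε)
    {c : Cfg O k} {χ : CL → k} {E : Set CL} {u : CL} (hs : St A v U c χ E)
    (hx : cD.lat.Pos (Invo.one v) χ u) (hu : u ∈ cD.M) :
    (0 < cip u u → (Module.finrank K (c.H A K ε u) : ℤ) ≤ 1 + cip u u / 2) ∧
      (cip u u < 0 → Module.finrank K (c.H A K ε u) = 0) := by
  refine ⟨fun h => ?_, kp_neg hK hU hε hs hx hu⟩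
  have := kp_of_end hK hU hε (cip u u) (1 + cip u u / 2).toNat (fun c' u' h1 h2 e => by
    have := hend c' u' h1 h2 (e ▸ h)
    rw [e] at this
    omega) hs hx hu rfl
  omega

/-- the theorem on the general V -/
theorem kp0 [IsDomain O] [CharZero k] {K : Type} [Field K] [Algebra O K]
    (hK : Function.Injective (algebraMap O K)) (hσ : ∀ x, A.res (σ x) = x) (v : Valuation k Γ)
    {s : k} (hs : s ≠ 0) (hv : v s < 1) :
    ∃ (c : Cfg O k) (la mu : O), Rex A c la mu ∧ Ndg A c ∧ ∀ ε, 0 ≤ ε → EndH A K ε →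
      ∀ u ∈ cD.M, 0 ≤ u.2.2 1 →
        (0 < cip u u → (Module.finrank K (c.H A K ε u) : ℤ) ≤ 1 + cip u u / 2) ∧
          (cip u u < 0 → Module.finrank K (c.H A K ε u) = 0) := by
  obtain ⟨h1, h2⟩ := start0 hσ v hs hv
  have hχ := chiOf_ch hs psi0
  refine ⟨_, _, _, (cfgOf_exa hχ).rex' (A.ne ?_) (h1.ndg one_one), h1.ndg one_one,
    fun ε hε hend u hu h0 => kp_st hK one_one hε hend h1 (h2 u h0) hu⟩
  rw [hσ]
  exact mul_ne_zero (neg_ne_zero.2 (hχ.2 _)) (hχ.2 _)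

end Pool.Agent.Lib.MP_d03834_ag.Core
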