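import Pool.Agent.Lib.MP_d03834_ag.Core.StartL

/-! A calculator for start states: characters with monomial leading terms. -/

set_option autoImplicit false

namespace Pool.Agent.Lib.MP_d03834_ag.Core

section chG

variable {k : Type} [Field k]

/-- the character with the value a on e5, b on ((0, 1), 0, 0), z i on the i-th multiplicity and
g s on eb s -/
def chG (a b : k) (z : Fin 5 → k) (g : Fin 2 → k) (u : CL) : k :=
  a ^ u.1.1 * b ^ u.1.2 * (∏ i, z i ^ u.2.1 i) * ∏ s, g s ^ (-u.2.2 s)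

theorem chG_ch {a b : k} {z : Fin 5 → k} {g : Fin 2 → k} (ha : a ≠ 0) (hb : b ≠ 0)
    (hz : ∀ i, z i ≠ 0) (hg : ∀ s, g s ≠ 0) : IsCh (chG a b z g) := by
  refine ⟨fun u w => ?_, fun u => mul_ne_zero (mul_ne_zero (mul_ne_zero (zpow_ne_zero _ ha)
    (zpow_ne_zero _ hb)) (Finset.prod_ne_zero_iff.2 fun i _ => zpow_ne_zero _ (hz i)))
    (Finset.prod_ne_zero_iff.2 fun i _ => zpow_ne_zero _ (hg i))⟩
  simp only [chG, Prod.fst_add, Prod.snd_add, Pi.add_apply, neg_add, zpow_add₀ ha, zpow_add₀ hb,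
    zpow_add₀ (hz _), zpow_add₀ (hg _), Finset.prod_mul_distrib]
  ring

theorem chG_cl (a b : k) (z : Fin 5 → k) (g : Fin 2 → k) (n J m0 m1 m2 m3 m4 c0 c1 : ℤ) :
    chG a b z g (cl n J m0 m1 m2 m3 m4 c0 c1) = a ^ n * b ^ J *
      (z 0 ^ m0 * z 1 ^ m1 * z 2 ^ m2 * z 3 ^ m3 * z 4 ^ m4) * (g 0 ^ (-c0) * g 1 ^ (-c1)) := by
  simp only [chG, Fin.prod_univ_five, Fin.prod_univ_two]
  rfl

theorem chG_e5 (a b : k) (z : Fin 5 → k) (g : Fin 2 → k) : chG a b z g e5 = a := by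
  simp [chG, e5]

theorem chG_eb (a b : k) (z : Fin 5 → k) (g : Fin 2 → k) (s : Fin 2) :
    chG a b z g (eb s) = g s := by
  fin_cases s <;> simp [chG, eb]

theorem chG_aV (a b : k) (z : Fin 5 → k) (g : Fin 2 → k) {i j : Fin 5} (h : i ≠ j) :
    chG a b z g (aV i j) = b * z i * z j := by
  have e : ∀ l, z l ^ (Pi.single i 1 + Pi.single j 1 : Fin 5 → ℤ) l =
      (if l = i then z i else 1) * if l = j then z j else 1 := fun l => by
    by_cases h1 : l = i
    · subst h1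
      simp [h]
    · by_cases h2 : l = j
      · subst h2
        simp [h1]
      · simp [h1, h2]
  simp only [chG, aV, e, Finset.prod_mul_distrib]
  simp [mul_assoc]

variable {O : Type} [CommRing O] {A : Arc O k}

/-- the shape from the values on the generators -/
theorem Shp.of_chG {c : Cfg O k} {a b : k} {z : Fin 5 → k} {g : Fin 2 → k}
    (z0 : ∀ i, z i ≠ 0) (hz : ∀ i, A.res (c.z i) = z i)
    (cur : ∀ i, A.res (c.η i) * z i = c.Q0 + c.Q1 * z i + c.Q2 * z i ^ 2) (N0 : c.N A ≠ 0)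
    (ha : a * c.N A = -c.Q0) (hb : b * c.Q0 = c.Q2)
    (hg : ∀ s, g s * c.N A = A.res (c.be s) - A.res (c.al 1) - c.Q0) : Shp A c (chG a b z g) :=
  ⟨fun i => by rw [hz]; exact z0 i, fun i => by rw [hz]; exact cur i, N0, by rw [chG_e5, ha],
    fun s => by rw [chG_eb, hg], fun i j h => by rw [chG_aV _ _ _ _ h, hz, hz, ← hb]; ring⟩

/-- the character of a configuration -/
def Cfg.chi (A : Arc O k) (c : Cfg O k) : CL → k :=
  chG (-c.Q0 / c.N A) (c.Q2 / c.Q0) (fun i => A.res (c.z i))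
    fun s => (A.res (c.be s) - A.res (c.al 1) - c.Q0) / c.N A

theorem Cfg.chi_shp {c : Cfg O k} (z0 : ∀ i, A.res (c.z i) ≠ 0)
    (cur : ∀ i, A.res (c.η i) * A.res (c.z i) =
      c.Q0 + c.Q1 * A.res (c.z i) + c.Q2 * A.res (c.z i) ^ 2) (N0 : c.N A ≠ 0) (Q0 : c.Q0 ≠ 0) :
    Shp A c (c.chi A) :=
  Shp.of_chG z0 (fun _ => rfl) cur N0 (div_mul_cancel₀ _ N0) (div_mul_cancel₀ _ Q0)
    fun _ => div_mul_cancel₀ _ N0

end chG

variable {k Γ : Type} [Field k] [LinearOrderedCommGroupWithZero Γ]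

/-- x and y have the same leading term -/
def Nr (v : Valuation k Γ) (x y : k) : Prop := v (x - y) < v y

namespace Nr

variable {v : Valuation k Γ} {x y x' y' : k}

theorem ne (h : Nr v x y) : y ≠ 0 := fun e => by
  rw [Nr, e, map_zero] at h
  exact not_lt_zero' h

theorem val (h : Nr v x y) : v x = v y := v.map_eq_of_sub_lt h

theorem ne' (h : Nr v x y) : x ≠ 0 := fun e => by
  have := h.val
  rw [e, map_zero] at this
  exact h.ne (v.zero_iff.1 this.symm)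

theorem rfl' (h : x ≠ 0) : Nr v x x := by
  rw [Nr, sub_self, map_zero, zero_lt_iff]
  exact v.ne_zero_iff.2 h

theorem of_eq (e : x = y) (h : y ≠ 0) : Nr v x y := e ▸ rfl' (e ▸ h)

/-- a small relative error -/
theorem of_mul {e : k} (h : y ≠ 0) (he : v e < 1) : Nr v (y * (1 + e)) y := by
  rw [Nr, show y * (1 + e) - y = y * e by ring, map_mul]
  exact mul_lt_of_lt_one_right (zero_lt_iff.2 (v.ne_zero_iff.2 h)) he

theorem mul (h : Nr v x y) (h' : Nr v x' y') : Nr v (x * x') (y * y') := by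
  have p : 0 < v y := zero_lt_iff.2 (v.ne_zero_iff.2 h.ne)
  have p' : 0 < v y' := zero_lt_iff.2 (v.ne_zero_iff.2 h'.ne)
  rw [Nr, show x * x' - y * y' = (x - y) * x' + y * (x' - y') by ring, map_mul]
  refine v.map_add_lt ?_ ?_
  · rw [map_mul, h'.val]
    exact mul_lt_mul_of_pos_right h p'
  · rw [map_mul]
    exact mul_lt_mul_of_pos_left h' p

theorem inv (h : Nr v x y) : Nr v x⁻¹ y⁻¹ := by
  have p : 0 < v y := zero_lt_iff.2 (v.ne_zero_iff.2 h.ne)
  have e : x⁻¹ - y⁻¹ = -(x - y) * (x⁻¹ * y⁻¹) := by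
    have := h.ne
    have := h.ne'
    field_simp
    ring
  rw [Nr, e, map_mul, map_mul, v.map_neg, map_inv₀, map_inv₀, h.val, ← mul_assoc]
  refine mul_lt_of_lt_one_left (inv_pos.2 p) ?_
  rw [mul_inv_lt_iff₀ p, one_mul]
  exact h

theorem div (h : Nr v x y) (h' : Nr v x' y') : Nr v (x / x') (y / y') := by
  rw [div_eq_mul_inv, div_eq_mul_inv]
  exact h.mul h'.inv

theorem neg (h : Nr v x y) : Nr v (-x) (-y) := by
  rw [Nr, neg_sub_neg, v.map_sub_swap, v.map_neg]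
  exact h

theorem pow (h : Nr v x y) (n : ℕ) : Nr v (x ^ n) (y ^ n) := by
  induction n with
  | zero => simpa using rfl' one_ne_zero
  | succ n ih => simpa only [pow_succ] using ih.mul h

theorem zpow (h : Nr v x y) (n : ℤ) : Nr v (x ^ n) (y ^ n) := by
  obtain ⟨m, rfl | rfl⟩ := n.eq_nat_or_neg
  · simpa using h.pow m
  · simpa using (h.pow m).inv

theorem prod {ι : Type} (s : Finset ι) {f g : ι → k} (h : ∀ i ∈ s, Nr v (f i) (g i)) :
    Nr v (∏ i ∈ s, f i) (∏ i ∈ s, g i) := by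
  classical
  induction s using Finset.induction_on with
  | empty => simpa using rfl' one_ne_zero
  | insert a s ha ih =>
    rw [Finset.prod_insert ha, Finset.prod_insert ha]
    exact (h a (Finset.mem_insert_self _ _)).mul
      (ih fun i hi => h i (Finset.mem_insert_of_mem hi))

/-- adding a smaller term -/
theorem add (h : Nr v x y) {e : k} (he : v e < v y) : Nr v (x + e) y := by
  rw [Nr, show x + e - y = x - y + e by ring]
  exact v.map_add_lt h he

theorem chG {a b a' b' : k} {z z' : Fin 5 → k} {g g' : Fin 2 → k} (ha : Nr v a a')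
    (hb : Nr v b b') (hz : ∀ i, Nr v (z i) (z' i)) (hg : ∀ s, Nr v (g s) (g' s)) (u : CL) :
    Nr v (chG a b z g u) (chG a' b' z' g' u) :=
  (((ha.zpow _).mul (hb.zpow _)).mul (prod _ fun i _ => (hz i).zpow _)).mul
    (prod _ fun i _ => (hg i).zpow _)

end Nr

/-- the valuation is trivial on the rational numbers, and s is small -/
structure Triv [CharZero k] (v : Valuation k Γ) (s : k) : Prop where
  s0 : s ≠ 0
  lt : v s < 1
  rat : ∀ q : ℚ, q ≠ 0 → v (q : k) = 1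

theorem Triv.of_alg [CharZero k] [Algebra ℂ k] {v : Valuation k Γ} {s : k} (s0 : s ≠ 0)
    (lt : v s < 1) (h : ∀ c : ℂ, v (algebraMap ℂ k c) ≤ 1) : Triv v s := by
  refine ⟨s0, lt, fun q hq => ?_⟩
  have h1 := h q
  have h2 := h (q⁻¹ : ℚ)
  rw [map_ratCast] at h1 h2
  rw [Rat.cast_inv, map_inv₀, inv_le_one₀ (zero_lt_iff.2 (v.ne_zero_iff.2 (by exact_mod_cast hq)))]
    at h2
  exact le_antisymm h1 h2

/-- monomial data: the orders are the degrees on lam, the leading coefficients are rational -/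
structure Mon where
  /-- the order of the value at u is the degree of lam on u -/
  lam : CL
  /-- leading coefficient at e5 -/
  a : ℚ
  /-- leading coefficient at ((0, 1), 0, 0) -/
  b : ℚ
  /-- leading coefficients of the z i -/
  z : Fin 5 → ℚ
  /-- leading coefficients at eb s -/
  g : Fin 2 → ℚ

namespace Mon

variable (D : Mon)

/-- the leading coefficient -/
def cq (u : CL) : ℚ := chG D.a D.b D.z D.g u

/-- the leading coefficients are not zero -/
def Nz : Prop := D.a ≠ 0 ∧ D.b ≠ 0 ∧ (∀ i, D.z i ≠ 0) ∧ ∀ s, D.g s ≠ 0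

/-- The check. UL contains the unit lines, OL the unit lines with leading coefficient one,
EL (up to sign) the roots of order zero with leading coefficient one. -/
def Ok (UL OL EL : List CL) : Prop :=
  D.Nz ∧ (∀ g ∈ lineL, 0 < cip D.lam g ∨ cip D.lam g = 0 ∧ g ∈ UL ∧ (D.cq g = 1 → g ∈ OL)) ∧
    (∀ α ∈ rootL, cip D.lam α = 0 → D.cq α = 1 → α ∈ EL ∨ -α ∈ EL) ∧ ∀ α ∈ EL, 0 ≤ cip hC α

instance : Decidable D.Nz := by unfold Nz; infer_instance

instance (UL OL EL : List CL) : Decidable (D.Ok UL OL EL) :=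
  @instDecidableAnd _ _ _ (@instDecidableAnd _ _ (List.decidableBAll _ _)
    (@instDecidableAnd _ _ (List.decidableBAll _ _) (List.decidableBAll _ _)))

/-- the unit lines, for #eval -/
def uL : List CL := lineL.filter fun g => cip D.lam g = 0

/-- the unit lines with leading coefficient one -/
def oL : List CL := D.uL.filter fun g => D.cq g = 1

/-- the positive roots of order zero with leading coefficient one -/
def eL : List CL := rootL.filter fun g => cip D.lam g = 0 ∧ D.cq g = 1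

variable [CharZero k]

/-- the value at e5 -/
def va (s : k) : k := D.a * s ^ (D.lam.1.2 - D.lam.1.1)
/-- the value at ((0, 1), 0, 0) -/
def vb (s : k) : k := D.b * s ^ D.lam.1.1
/-- the value of z i -/
def vz (s : k) (i : Fin 5) : k := D.z i * s ^ (-D.lam.2.1 i)
/-- the value at eb r -/
def vg (s : k) (r : Fin 2) : k := D.g r * s ^ D.lam.2.2 r

/-- the monomial character -/
def chi (s : k) : CL → k := chG (D.va s) (D.vb s) (D.vz s) (D.vg s)

variable {D} {s : k}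

theorem chi_eq (hs : s ≠ 0) (u : CL) : D.chi s u = D.cq u * s ^ cip D.lam u := by
  simp only [chi, cq, chG, va, vb, vz, vg, cip, Fin.prod_univ_five, Fin.prod_univ_two,
    Fin.sum_univ_five, Fin.sum_univ_two, mul_zpow, ← zpow_mul]
  push_cast
  have e : ∀ a b : ℤ, s ^ a * s ^ b = s ^ (a + b) := fun a b => (zpow_add₀ hs a b).symm
  trans (D.a : k) ^ u.1.1 * (D.b : k) ^ u.1.2 * ((D.z 0 : k) ^ u.2.1 0 * (D.z 1 : k) ^ u.2.1 1 *
    (D.z 2 : k) ^ u.2.1 2 * (D.z 3 : k) ^ u.2.1 3 * (D.z 4 : k) ^ u.2.1 4) *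
    ((D.g 0 : k) ^ (-u.2.2 0) * (D.g 1 : k) ^ (-u.2.2 1)) *
    (s ^ ((D.lam.1.2 - D.lam.1.1) * u.1.1) * s ^ (D.lam.1.1 * u.1.2) *
      s ^ (-D.lam.2.1 0 * u.2.1 0) * s ^ (-D.lam.2.1 1 * u.2.1 1) *
      s ^ (-D.lam.2.1 2 * u.2.1 2) * s ^ (-D.lam.2.1 3 * u.2.1 3) *
      s ^ (-D.lam.2.1 4 * u.2.1 4) * s ^ (D.lam.2.2 0 * -u.2.2 0) * s ^ (D.lam.2.2 1 * -u.2.2 1))
  · ring
  · simp only [e]
    congr 2
    ring

theorem Nz.ch (h : D.Nz) : IsCh D.cq := chG_ch h.1 h.2.1 h.2.2.1 h.2.2.2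

theorem Nz.va (h : D.Nz) (hs : s ≠ 0) : D.va s ≠ 0 :=
  mul_ne_zero (by exact_mod_cast h.1) (zpow_ne_zero _ hs)

theorem Nz.vb (h : D.Nz) (hs : s ≠ 0) : D.vb s ≠ 0 :=
  mul_ne_zero (by exact_mod_cast h.2.1) (zpow_ne_zero _ hs)

theorem Nz.vz (h : D.Nz) (hs : s ≠ 0) (i : Fin 5) : D.vz s i ≠ 0 :=
  mul_ne_zero (by exact_mod_cast h.2.2.1 i) (zpow_ne_zero _ hs)

theorem Nz.vg (h : D.Nz) (hs : s ≠ 0) (r : Fin 2) : D.vg s r ≠ 0 :=
  mul_ne_zero (by exact_mod_cast h.2.2.2 r) (zpow_ne_zero _ hs)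

theorem Nz.chi (h : D.Nz) (hs : s ≠ 0) : IsCh (D.chi s) :=
  chG_ch (h.va hs) (h.vb hs) (h.vz hs) (h.vg hs)

end Mon

variable [CharZero k] {v : Valuation k Γ} {s : k} {D : Mon} {χ : CL → k}

/-- the leading terms of χ are those of D -/
def Lead (v : Valuation k Γ) (s : k) (D : Mon) (χ : CL → k) : Prop :=
  ∀ u, Nr v (χ u) (D.chi s u)

theorem Lead.self (h : D.Nz) (hs : s ≠ 0) : Lead v s D (D.chi s) :=
  fun u => Nr.rfl' ((h.chi hs).2 u)

theorem Lead.of_chG {a b : k} {z : Fin 5 → k} {g : Fin 2 → k} (ha : Nr v a (D.va s))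
    (hb : Nr v b (D.vb s)) (hz : ∀ i, Nr v (z i) (D.vz s i)) (hg : ∀ r, Nr v (g r) (D.vg s r)) :
    Lead v s D (chG a b z g) := Nr.chG ha hb hz hg

theorem Lead.val (T : Triv v s) (h0 : D.Nz) (h : Lead v s D χ) (u : CL) :
    v (χ u) = v s ^ cip D.lam u := by
  rw [(h u).val, Mon.chi_eq T.s0, map_mul, T.rat _ (h0.ch.2 u), one_mul, map_zpow₀]

theorem Lead.ord (T : Triv v s) (h0 : D.Nz) (h : Lead v s D χ) {u : CL} (h1 : v (χ u) = 1) :
    cip D.lam u = 0 := by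
  rw [h.val T h0] at h1
  exact (zpow_eq_one_iff_right₀ zero_le' T.lt.ne).1 h1

theorem Lead.small (T : Triv v s) (h0 : D.Nz) (h : Lead v s D χ) {u : CL}
    (h1 : 0 < cip D.lam u) : v (χ u) < 1 := by
  rw [h.val T h0]
  exact zpow_lt_one₀ (zero_lt_iff.2 (v.ne_zero_iff.2 T.s0)) T.lt h1

/-- the residue of a unit value -/
theorem Lead.res (T : Triv v s) (h : Lead v s D χ) {u : CL} (h1 : cip D.lam u = 0) {q : ℚ}
    (h2 : v ((q : k) - χ u) < 1) : D.cq u = q := by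
  by_contra h3
  have h4 := h u
  rw [Nr, Mon.chi_eq T.s0, h1, zpow_zero, mul_one] at h4
  have h5 : D.cq u ≠ 0 := fun e => by
    rw [e, Rat.cast_zero, map_zero] at h4
    exact not_lt_zero' h4
  rw [T.rat _ h5] at h4
  have h6 := v.map_add_lt h2 h4
  rw [sub_add_sub_cancel, ← Rat.cast_sub, T.rat _ (sub_ne_zero.2 (Ne.symm h3))] at h6
  exact lt_irrefl _ h6

theorem Lead.one (T : Triv v s) (h0 : D.Nz) (h : Lead v s D χ) {u : CL} (h1 : χ u = 1) :
    cip D.lam u = 0 ∧ D.cq u = 1 := by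
  have h2 := h.ord T h0 (u := u) (by rw [h1, map_one])
  exact ⟨h2, h.res T h2 (by simp [h1])⟩

variable {UL OL EL : List CL}

theorem start_le (T : Triv v s) (hD : D.Ok UL OL EL) (h : Lead v s D χ) :
    ∀ g ∈ cD.lat.Λ, v (χ g) ≤ 1 := fun g hg => by
  rcases hD.2.1 g (line_mem hg) with h1 | h1
  · exact (h.small T hD.1 h1).le
  · rw [h.val T hD.1, h1.1, zpow_zero]

theorem start_unit (T : Triv v s) (hD : D.Ok UL OL EL) (h : Lead v s D χ) :
    ∀ g ∈ cD.lat.Λ, v (χ g) = 1 → g ∈ UL := fun g hg h1 => by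
  rcases hD.2.1 g (line_mem hg) with h2 | h2
  · exact absurd h1 (h.small T hD.1 h2).ne
  · exact h2.2.1

theorem start_nb (T : Triv v s) (hD : D.Ok UL OL EL) (h : Lead v s D χ)
    (hO : ∀ g ∈ OL, χ g = 1) : ∀ g ∈ cD.lat.Λ, ¬Lat.Bk (Invo.one v) (χ g) := fun g hg hb => by
  rcases hD.2.1 g (line_mem hg) with h2 | h2
  · exact (h.small T hD.1 h2).ne hb.1
  · refine hb.2.1 (sub_eq_zero.2 (hO g (h2.2.2 (h.res T h2.1 ?_))).symm)
    rw [Rat.cast_one]
    exact hb.2.2.1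

theorem start_root (T : Triv v s) (hD : D.Ok UL OL EL) (h : Lead v s D χ) :
    ∀ α ∈ cD.lat.Φ, χ α = 1 → α ∈ EL ∨ -α ∈ EL := fun α hα h1 => by
  obtain ⟨h2, h3⟩ := h.one T hD.1 h1
  rcases root_mem hα with h4 | h4
  · exact hD.2.2.1 α h4 h2 h3
  · have := hD.2.2.1 _ h4 (by rw [cip_neg, h2, neg_zero]) (by rw [hD.1.ch.neg, h3, inv_one])
    rw [neg_neg] at this
    exact this.symm

theorem start_pos (T : Triv v s) (hD : D.Ok UL OL EL) (h : Lead v s D χ) {u : CL}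
    (hU : ∀ g ∈ UL, 0 ≤ cip u g) : cD.lat.Pos (Invo.one v) χ u :=
  fun g hg h1 => hU g (start_unit T hD h g hg h1)

theorem start_rt (T : Triv v s) (hD : D.Ok UL OL EL) (h : Lead v s D χ) {u : CL}
    (hE : ∀ α ∈ EL, 0 ≤ cip u α) :
    ∀ α ∈ cD.lat.Φ, χ α = 1 → 0 < cip u α → 0 ≤ cip hC α := fun α hα h1 h2 => by
  rcases start_root T hD h α hα h1 with h3 | h3
  · exact hD.2.2.2 α h3
  · have := hE _ h3
    rw [cip_neg] at this
    omega

/-- the base state of the residue dynamics -/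
theorem start_P (T : Triv v s) (hD : D.Ok UL OL EL) (hχ : IsCh χ) (h : Lead v s D χ)
    (hO : ∀ g ∈ OL, χ g = 1) : cD.lat.P (Invo.one v) 0 χ {α | α ∈ EL} :=
  ⟨⟨hχ, start_le T hD h, fun g hg _ _ _ hb => absurd hb (start_nb T hD h hO g hg)⟩,
    start_nb T hD h hO, start_root T hD h⟩

theorem start_fz (T : Triv v s) (hD : D.Ok UL OL EL) (h : Lead v s D χ) {U : Set k}
    (hU : ∀ g ∈ UL, χ g ∈ U) : cD.lat.Fz (Invo.one v) U χ :=
  fun g hg h1 => Or.inr (hU g (start_unit T hD h g hg h1))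

/-- the four hypotheses le, nb, pos, rt of the theorem KP -/
theorem start_ok (T : Triv v s) (hD : D.Ok UL OL EL) (h : Lead v s D χ)
    (hO : ∀ g ∈ OL, χ g = 1) {u : CL} (hU : ∀ g ∈ UL, 0 ≤ cip u g)
    (hE : ∀ α ∈ EL, 0 ≤ cip u α) :
    (∀ g ∈ cD.lat.Λ, v (χ g) ≤ 1) ∧ (∀ g ∈ cD.lat.Λ, ¬Lat.Bk (Invo.one v) (χ g)) ∧
      cD.lat.Pos (Invo.one v) χ u ∧ ∀ α ∈ cD.lat.Φ, χ α = 1 → 0 < cip u α → 0 ≤ cip hC α :=
  ⟨start_le T hD h, start_nb T hD h hO, start_pos T hD h hU, start_rt T hD h hE⟩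

/-- for the monomial character itself the hypothesis on OL is a check -/
theorem Mon.chi_one (hs : s ≠ 0) (h : ∀ g ∈ OL, cip D.lam g = 0 ∧ D.cq g = 1) :
    ∀ g ∈ OL, D.chi s g = 1 := fun g hg => by
  rw [Mon.chi_eq hs, (h g hg).1, (h g hg).2]
  simp

end Pool.Agent.Lib.MP_d03834_ag.Core
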