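import Pool.Agent.Lib.MP_d03834_ag.Core.N10B
import Pool.Agent.Lib.MP_d03834_ag.Core.RexKP
import Pool.Agent.Lib.MP_d03834_ag.Core.Start
import Pool.Agent.Lib.MP_d03834_ag.Core.ShStart

/-! The three bounds on the surface with the broken curve. -/

set_option autoImplicit false

namespace Pool.Agent.Lib.MP_d03834_ag.Core

open Module

/-- the three bounds in the frame of the broken curve -/
def Tb10 {K : Type} [Field K] (P : Ix → Fin 4 → K) : Prop := ∀ e κ : ℤ, 1 ≤ e → 2 * e < κ →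
  finrank K (H0 (13 * e) (11 * e - κ % 2) P (nb10 e κ 0 0 0)) ≤
    (1 + (10 * e ^ 2 - κ ^ 2) / 2).toNat ∧
  finrank K (H0 (13 * e - 1) (11 * e - 2 + κ % 2) P (nb10 e κ 1 0 (1 - κ % 2))) ≤
    (1 + (10 * e ^ 2 - κ ^ 2 - 2 * e - 1) / 2).toNat ∧
  finrank K (H0 (13 * e - 1) (11 * e - 3 + κ % 2) P (nb10 e κ 1 1 (1 - κ % 2))) ≤
    (1 + (10 * e ^ 2 - κ ^ 2 - 4 * e - 1) / 2).toNat

theorem sq10_a {e κ : ℤ} (he : 1 ≤ e) : 10 * e ^ 2 - κ ^ 2 ≠ 0 := fun h => by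
  have h1 : IsSquare ((10 : ℤ) * e ^ 2) := ⟨κ, by linear_combination h⟩
  have h2 : Irrational √10 := by
    simpa using (irrational_sqrt_natCast_iff (n := 10)).2 (by decide +kernel)
  have h3 : (e : ℝ) ≠ 0 := by exact_mod_cast (by omega : e ≠ 0)
  have h4 : (10 : ℝ) = ((κ : ℝ) / e) ^ 2 := by
    have : (10 : ℝ) * (e : ℝ) ^ 2 - (κ : ℝ) ^ 2 = 0 := by exact_mod_cast h
    field_simp
    linear_combination this
  rw [h4, Real.sqrt_sq_eq_abs] at h2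
  exact h2 ⟨|(κ : ℚ) / e|, by simp⟩

theorem sq10_b (e κ : ℤ) : 10 * e ^ 2 - κ ^ 2 - 2 * e - 1 ≠ 0 := fun h => by
  have k1 : ∀ a b : ZMod 11, 10 * a ^ 2 - b ^ 2 - 2 * a - 1 = 0 → a + 1 = 0 ∧ b = 0 := by decide
  obtain ⟨h1, h2⟩ := k1 e κ (by exact_mod_cast congrArg (Int.cast : ℤ → ZMod 11) h)
  obtain ⟨f, hf⟩ := (ZMod.intCast_zmod_eq_zero_iff_dvd (e + 1) 11).1 (by exact_mod_cast h1)
  obtain ⟨g, rfl⟩ := (ZMod.intCast_zmod_eq_zero_iff_dvd κ 11).1 h2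
  obtain rfl : e = 11 * f - 1 := by push_cast at hf; omega
  have : 11 * (10 * f ^ 2 - 2 * f - g ^ 2) = -1 := by
    push_cast at h
    nlinarith
  omega

theorem sq10_c (e κ : ℤ) : 10 * e ^ 2 - κ ^ 2 - 4 * e - 1 ≠ 0 := fun h => by
  have k1 : ∀ a b : ZMod 7, 10 * a ^ 2 - b ^ 2 - 4 * a - 1 = 0 → a + 4 = 0 ∧ b = 0 := by decide
  obtain ⟨h1, h2⟩ := k1 e κ (by exact_mod_cast congrArg (Int.cast : ℤ → ZMod 7) h)
  obtain ⟨f, hf⟩ := (ZMod.intCast_zmod_eq_zero_iff_dvd (e + 4) 7).1 (by exact_mod_cast h1)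
  obtain ⟨g, rfl⟩ := (ZMod.intCast_zmod_eq_zero_iff_dvd κ 7).1 h2
  obtain rfl : e = 7 * f - 4 := by push_cast at hf; omega
  have : 7 * (10 * f ^ 2 - 12 * f - g ^ 2) = -25 := by
    push_cast at h
    nlinarith
  omega

/-- the leading terms of the character -/
def D10 : Mon := ⟨cl 6 6 2 2 2 3 3 1 0, 1, 1, ![3, 5, 7, 2, 1 / 2], ![1, 1]⟩

/-- the three unit lines -/
def U10 : List CL := [cl 0 0 0 0 0 0 0 0 (-1), cl 1 0 0 0 0 0 0 0 0, cl 1 1 0 0 0 1 1 0 0]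

/-- the three effective roots -/
def E10 : List CL := [cl 1 0 0 0 0 0 0 0 1, cl 0 1 0 0 0 1 1 0 0, cl 1 1 0 0 0 1 1 0 1]

theorem D10_ok : D10.Ok U10 U10 E10 := by decide +kernel

theorem D10_one : ∀ g ∈ U10, cip D10.lam g = 0 ∧ D10.cq g = 1 := by decide +kernel

theorem E10_ne : ∀ i j : Fin 5, i ≠ j → ∃ l, l ≠ i ∧ l ≠ j ∧ aV l i - aV l j ∈ cD.lat.Φ ∧
    aV l i - aV l j ∉ E10 ∧ -(aV l i - aV l j) ∉ E10 := by decide +kernel

variable {O k Γ : Type} [CommRing O] [Field k] [LinearOrderedCommGroupWithZero Γ] [CharZero k]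

/-- the configuration -/
noncomputable def c10 (A : Arc O k) (σ : k →+* O) (s : k) : Cfg O k where
  z := fun i => σ (D10.vz s i)
  η := fun i => -σ ((D10.vz s i)⁻¹ + s ^ 6 * D10.vz s i) - σ (s ^ 6) * A.t
  al := ![0, σ (-s)]
  be := ![-1, σ (-s)]
  Q0 := -1
  Q1 := 0
  Q2 := -s ^ 6

variable {A : Arc O k} {σ : k →+* O} {v : Valuation k Γ} {s : k}

theorem c10_exa (hs : s ≠ 0) : Exa A (c10 A σ s) (-1) (-(σ (s ^ 6) * A.t)) (-σ (s ^ 6)) := by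
  refine ⟨fun i => ?_, rfl, ?_⟩
  · have : σ (D10.vz s i)⁻¹ * σ (D10.vz s i) = 1 := by
      rw [← map_mul, inv_mul_cancel₀ (D10_ok.1.vz hs i), map_one]
    simp only [c10, map_add, map_mul]
    linear_combination -this
  · simp only [c10, Matrix.cons_val_zero]
    ring

theorem c10_eta (hs : s ≠ 0) : (c10 A σ s).η 3 = (c10 A σ s).η 4 := by
  have : (D10.vz s 3)⁻¹ + s ^ 6 * D10.vz s 3 = (D10.vz s 4)⁻¹ + s ^ 6 * D10.vz s 4 := by
    simp [D10, Mon.vz, cl, zpow_ofNat]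
    field_simp
    ring
  simp only [c10, this]

theorem c10_shp (hσ : ∀ x, A.res (σ x) = x) (hs : s ≠ 0) : Shp A (c10 A σ s) (D10.chi s) := by
  have hN : (c10 A σ s).N A = 1 := by
    simp only [Cfg.N, c10, Matrix.cons_val_zero, Matrix.cons_val_one, hσ, map_zero, map_neg,
      map_one]
    ring
  refine Shp.of_chG (D10_ok.1.vz hs) (fun i => hσ _) (fun i => ?_) (by rw [hN]; exact one_ne_zero)
    ?_ ?_ fun r => ?_
  · have := D10_ok.1.vz hs i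
    simp only [c10, map_sub, map_neg, map_mul, hσ, A.rt]
    field_simp
    ring
  · rw [hN]
    simp [c10, D10, Mon.va, cl]
  · simp [c10, D10, Mon.vb, cl, zpow_ofNat]
  · rw [hN]
    fin_cases r <;> simp [c10, D10, Mon.vg, cl, hσ]

theorem c10_zz (hσ : ∀ x, A.res (σ x) = x) (T : Triv v s) (i j : Fin 5) (hij : i ≠ j) :
    A.res ((c10 A σ s).z i) ≠ A.res ((c10 A σ s).z j) := by
  obtain ⟨l, h1, h2, h3, h4, h5⟩ := E10_ne i j hij
  exact (c10_shp hσ T.s0).zz (D10_ok.1.chi T.s0) h1 h2 fun e =>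
    (start_root T D10_ok (Lead.self D10_ok.1 T.s0) _ h3 e).elim h4 h5

theorem c10_rex [IsDomain O] (hσ : ∀ x, A.res (σ x) = x) (T : Triv v s) :
    ∃ la mu, Rex A (c10 A σ s) la mu := by
  have ne : ∀ a b : O, A.res a ≠ A.res b → a ≠ b := fun a b h e => h (by rw [e])
  have s0 := T.s0
  have s1 : s ≠ 1 := fun e => by simpa [e] using T.lt
  refine ⟨_, _, (c10_exa s0).rex (A.ne ?_) (c10_shp hσ s0).z0
    (fun i j hij => ne _ _ (c10_zz hσ T i j hij)) (ne _ _ ?_) (ne _ _ ?_) (ne _ _ ?_) (ne _ _ ?_)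
    (ne _ _ ?_)⟩ <;> simp [c10, hσ, s0, s1, -map_pow]

/-- The three bounds. -/
theorem tb10 [IsDomain O] {K : Type} [Field K] [Algebra O K] (hK : KPC A K v)
    (hi : Function.Injective (algebraMap O K)) (hσ : ∀ x, A.res (σ x) = x) (T : Triv v s) :
    ∃ (y : Fin 3 → K) (y0 xg xa xb : K), BrN y y0 xg xa xb ∧ Tb10 (brP y y0 xg xa xb) := by
  obtain ⟨la, mu, hR⟩ := c10_rex hσ T
  obtain ⟨y, y0, xg, xa, xb, hN, hb⟩ := hR.brk3 rfl (c10_eta T.s0) hi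
  have key : ∀ (u : CL) (ε : ℤ), ε = 0 ∨ ε = 1 → u ∈ cD.M → (∀ g ∈ U10, 0 ≤ cip u g) →
      (∀ α ∈ E10, 0 ≤ cip u α) → cip u u ≠ 0 →
      finrank K ((c10 A σ s).H A K ε u) ≤ (1 + cip u u / 2).toNat := fun u ε hε hM hU hE h0 => by
    obtain ⟨a1, a2, a3, a4⟩ := start_ok T D10_ok (Lead.self D10_ok.1 T.s0)
      (Mon.chi_one T.s0 D10_one) hU hE
    obtain ⟨b1, b2⟩ := hR.kp hK hi (c10_shp hσ T.s0)
      (by simp [Mon.chi, chG_eb, D10, Mon.vg, cl]) (c10_zz hσ T 0 1 (by decide))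
      (D10_ok.1.chi T.s0) a1 a2 hM a3 a4 hε
    rcases lt_or_gt_of_ne h0 with h | h
    · rw [b2 h]
      exact Nat.zero_le _
    · have := b1 h
      omega
  refine ⟨y, y0, xg, xa, xb, hN, fun e κ he hκ => ?_⟩
  obtain ⟨h1, h2, h3⟩ := hb e κ
  rw [← u10_sq1, ← u10_sq2, ← u10_sq]
  refine ⟨h1.trans (key _ _ (.inl rfl) (u10_M e κ) ?_ ?_ (by rw [u10_sq]; exact sq10_a he)),
    h2.trans (key _ _ (.inr rfl) (sub_mem (u10_M e κ) (eb_line 1).2.2) ?_ ?_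
      (by rw [u10_sq1]; exact sq10_b e κ)),
    h3.trans (key _ _ (.inr rfl) (sub_mem (u10_M e κ) e5_line.2.2) ?_ ?_
      (by rw [u10_sq2]; exact sq10_c e κ))⟩
  all_goals
    try rw [u10_eb]
    try rw [u10_e5]
    simp [U10, E10, cip_cl, u10]
    omega

end Pool.Agent.Lib.MP_d03834_ag.Core
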