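import Pool.Agent.Lib.MP_d03834_ag.Core.N10Sw
import Pool.Agent.Lib.MP_d03834_ag.Core.N10S
import Pool.Agent.Lib.MP_d03834_ag.Core.BiEnd
import Pool.Agent.Lib.MP_d03834_ag.Core.Tower

/-! Ten points: the surface with the broken curve, its start state and the three bounds. -/

set_option autoImplicit false

namespace Pool.Agent.Lib.MP_d03834_ag.Core.S10

open Module

variable {O k Γ K : Type} [CommRing O] [Field k] [LinearOrderedCommGroupWithZero Γ] [Field K]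
  [Algebra O K] {A : Arc O k}

/-- the effective roots -/
def L10 : List CL := [cv 1 0 0 0 0 0 0 0 1, cv 0 1 0 0 0 1 1 0 0, cv 1 1 0 0 0 1 1 0 1]

/-- the generators of the cone of classes -/
def Y10 : Fin 4 → CL := ![cv 5 7 3 3 4 2 2 1 1, cv (-1) (-1) 0 0 0 (-1) (-1) 0 0,
  cv 0 0 0 0 0 0 0 0 1, cv (-1) 0 0 0 0 0 0 0 0]

/-- the word after which the three roots have left -/
theorem word10 [IsDomain O] (hK : Function.Injective (algebraMap O K)) {v : Valuation k Γ}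
    {ε σ : ℤ} {r : ℕ} (hε : 0 ≤ ε)
    (fin : ∀ c u, Ndg A c → Dmn u → cip u u = σ → finrank K (Cfg.H A K c ε u) ≤ r)
    {c : Cfg O k} {χ : CL → k} (h : Sw A v c χ L10 [] Y10) : Gd A K ε σ r c Y10 := by
  refine h.goV hK 0 2
    [cv 1 1 1 0 1 0 0 0 1, cv 0 1 0 0 0 1 1 0 0, cv 1 2 1 0 1 1 1 0 1]
    []
    ![cv 5 5 1 3 2 2 2 1 1, cv (-1) (-2) (-1) 0 (-1) (-1) (-1) 0 0,
      cv 0 0 0 0 0 0 0 0 1, cv (-1) (-1) (-1) 0 (-1) 0 0 0 0]
    (by and_intros <;> decide) fun c χ h => ?_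
  refine h.goH hK 0
    [cv 1 1 1 0 1 0 0 0 1, cv 1 1 0 0 0 1 1 1 0, cv 2 2 1 0 1 1 1 1 1]
    []
    ![cv 4 5 1 3 2 2 2 0 1, cv (-2) (-2) (-1) 0 (-1) (-1) (-1) (-1) 0,
      cv 0 0 0 0 0 0 0 0 1, cv (-1) (-1) (-1) 0 (-1) 0 0 0 0]
    (by and_intros <;> decide) fun c χ h => ?_
  refine h.goV hK 1 2
    [cv 1 1 1 0 1 0 0 0 1, cv 1 2 0 1 1 1 1 1 0, cv 2 3 1 1 2 1 1 1 1]
    []
    ![cv 4 4 1 2 1 2 2 0 1, cv (-2) (-3) (-1) (-1) (-2) (-1) (-1) (-1) 0,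
      cv 0 0 0 0 0 0 0 0 1, cv (-1) (-1) (-1) 0 (-1) 0 0 0 0]
    (by and_intros <;> decide) fun c χ h => ?_
  refine h.goH hK 1
    [cv 0 1 1 0 1 0 0 0 0, cv 2 2 0 1 1 1 1 1 1, cv 2 3 1 1 2 1 1 1 1]
    []
    ![cv 3 4 1 2 1 2 2 0 0, cv (-3) (-3) (-1) (-1) (-2) (-1) (-1) (-1) (-1),
      cv (-1) 0 0 0 0 0 0 0 0, cv (-1) (-1) (-1) 0 (-1) 0 0 0 0]
    (by and_intros <;> decide) fun c χ h => ?_
  refine h.goV hK 1 3
    [cv 0 1 1 0 1 0 0 0 0, cv 2 2 0 1 1 1 1 1 1, cv 2 3 1 1 2 1 1 1 1]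
    []
    ![cv 3 3 1 1 1 1 2 0 0, cv (-3) (-4) (-1) (-2) (-2) (-2) (-1) (-1) (-1),
      cv (-1) (-1) 0 (-1) 0 (-1) 0 0 0,
      cv (-1) (-2) (-1) (-1) (-1) (-1) 0 0 0]
    (by and_intros <;> decide) fun c χ h => ?_
  refine h.goF 0
    [cv 0 1 1 0 1 0 0 0 0, cv 2 2 0 1 1 1 1 (-1) 1, cv 2 3 1 1 2 1 1 (-1) 1]
    [cv 0 0 0 0 0 0 0 (-1) 0]
    ![cv 3 3 1 1 1 1 2 0 0, cv (-3) (-4) (-1) (-2) (-2) (-2) (-1) 1 (-1),
      cv (-1) (-1) 0 (-1) 0 (-1) 0 0 0,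
      cv (-1) (-2) (-1) (-1) (-1) (-1) 0 0 0]
    (by and_intros <;> decide) fun c χ h => ?_
  refine h.goH hK 0
    [cv 1 1 1 0 1 0 0 1 0, cv 3 2 0 1 1 1 1 0 1, cv 4 3 1 1 2 1 1 1 1]
    [cv 1 0 0 0 0 0 0 0 0]
    ![cv 3 3 1 1 1 1 2 0 0, cv (-5) (-4) (-1) (-2) (-2) (-2) (-1) (-1) (-1),
      cv (-1) (-1) 0 (-1) 0 (-1) 0 0 0,
      cv (-2) (-2) (-1) (-1) (-1) (-1) 0 (-1) 0]
    (by and_intros <;> decide) fun c χ h => ?_
  refine h.goV hK 1 4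
    [cv 1 2 1 1 1 0 1 1 0, cv 3 3 0 2 1 1 2 0 1, cv 4 5 1 3 2 1 3 1 1]
    [cv 1 1 0 1 0 0 1 0 0]
    ![cv 3 3 1 1 1 1 2 0 0, cv (-5) (-6) (-1) (-4) (-2) (-2) (-3) (-1) (-1),
      cv (-1) (-1) 0 (-1) 0 (-1) 0 0 0,
      cv (-2) (-3) (-1) (-2) (-1) (-1) (-1) (-1) 0]
    (by and_intros <;> decide) fun c χ h => ?_
  refine h.goF 0
    [cv 1 2 1 1 1 0 1 (-1) 0, cv 3 3 0 2 1 1 2 0 1, cv 4 5 1 3 2 1 3 (-1) 1]
    [cv 1 1 0 1 0 0 1 0 0, cv 0 0 0 0 0 0 0 (-1) 0]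
    ![cv 3 3 1 1 1 1 2 0 0, cv (-5) (-6) (-1) (-4) (-2) (-2) (-3) 1 (-1),
      cv (-1) (-1) 0 (-1) 0 (-1) 0 0 0,
      cv (-2) (-3) (-1) (-2) (-1) (-1) (-1) 1 0]
    (by and_intros <;> decide) fun c χ h => ?_
  refine h.goH hK 0
    [cv 3 2 1 1 1 0 1 1 0, cv 3 3 0 2 1 1 2 0 1, cv 6 5 1 3 2 1 3 1 1]
    [cv 1 1 0 1 0 0 1 0 0, cv 1 0 0 0 0 0 0 0 0]
    ![cv 3 3 1 1 1 1 2 0 0, cv (-7) (-6) (-1) (-4) (-2) (-2) (-3) (-1) (-1),
      cv (-1) (-1) 0 (-1) 0 (-1) 0 0 0,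
      cv (-4) (-3) (-1) (-2) (-1) (-1) (-1) (-1) 0]
    (by and_intros <;> decide) fun c χ h => ?_
  refine h.goF 0
    [cv 3 2 1 1 1 0 1 (-1) 0, cv 3 3 0 2 1 1 2 0 1, cv 6 5 1 3 2 1 3 (-1) 1]
    [cv 1 1 0 1 0 0 1 0 0, cv 1 0 0 0 0 0 0 0 0, cv 0 0 0 0 0 0 0 (-1) 0]
    ![cv 3 3 1 1 1 1 2 0 0, cv (-7) (-6) (-1) (-4) (-2) (-2) (-3) 1 (-1),
      cv (-1) (-1) 0 (-1) 0 (-1) 0 0 0,
      cv (-4) (-3) (-1) (-2) (-1) (-1) (-1) 1 0]
    (by and_intros <;> decide) fun c χ h => ?_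
  refine h.goF 1
    [cv 3 2 1 1 1 0 1 (-1) 0, cv 3 3 0 2 1 1 2 0 (-1), cv 6 5 1 3 2 1 3 (-1) (-1)]
    [cv 1 1 0 1 0 0 1 0 0, cv 1 0 0 0 0 0 0 0 0, cv 0 0 0 0 0 0 0 (-1) 0, cv 0 0 0 0 0 0 0 0 (-1)]
    ![cv 3 3 1 1 1 1 2 0 0, cv (-7) (-6) (-1) (-4) (-2) (-2) (-3) 1 1,
      cv (-1) (-1) 0 (-1) 0 (-1) 0 0 0,
      cv (-4) (-3) (-1) (-2) (-1) (-1) (-1) 1 0]
    (by and_intros <;> decide) fun c χ h => ?_
  have ha : ∀ g ∈ cD.lat.Λ, cD.lat.ip g cD.a = 1 := fun g hg => hg.2.1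
  have g1 := gone_two (I := Invo.one v) ha (l := cv 2 2 1 1 1 0 1 1 0)
    (b := cv 1 0 0 0 0 0 0 0 0) (c := cv 0 0 0 0 0 0 0 (-1) 0) (by decide) (by decide) (by decide)
    (by decide) (by decide) (by decide) (h.un _ (by decide)) (h.un _ (by decide))
  have g2 := gone_two (I := Invo.one v) ha (l := cv 2 2 0 1 1 1 1 0 1)
    (b := cv 1 1 0 1 0 0 1 0 0) (c := cv 0 0 0 0 0 0 0 0 (-1)) (by decide) (by decide) (by decide)
    (by decide) (by decide) (by decide) (h.un _ (by decide)) (h.un _ (by decide))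
  refine h.fin hK hε fin (fun p hp => ?_) fun i => cD_M.2 (by revert i; decide)
  simp only [List.mem_cons, List.not_mem_nil, or_false] at hp
  rcases hp with rfl | rfl | rfl
  · exact Eq.mp (congrArg _ (by decide)) g1
  · exact Eq.mp (congrArg _ (by decide)) g2
  · exact Eq.mp (congrArg _ (by decide)) (gone_add g1 g2)

/-- the positions of the free points -/
def w10 (s : k) : Fin 5 → k := ![2 * s, 3 * s, 5 * s, 11, 11⁻¹]

/-- the character -/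
def χ10 (s : k) (u : CL) : k := (∏ i, w10 s i ^ u.2.1 i) * (7 * s) ^ (-u.2.2 0)

/-- the configuration -/
def c10 (A : Arc O k) (ι : k →+* O) (s : k) : Cfg O k where
  z := fun i => ι (w10 s i)
  η := fun i => ι (w10 s i)⁻¹ + (ι (w10 s i) - A.t)
  al := ![0, ι (7 * s)]
  be := ![1, ι (7 * s)]
  Q0 := 1
  Q1 := 0
  Q2 := 1

theorem w10_ne [CharZero k] {s : k} (hs : s ≠ 0) (i : Fin 5) : w10 s i ≠ 0 := by
  fin_cases i <;> simp [w10, hs]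

theorem χ10_ch [CharZero k] {s : k} (hs : s ≠ 0) : IsCh (χ10 s) := by
  have h7 : (7 * s) ≠ 0 := by simp [hs]
  refine ⟨fun u w => ?_, fun u => mul_ne_zero (Finset.prod_ne_zero_iff.2 fun i _ =>
    zpow_ne_zero _ (w10_ne hs i)) (zpow_ne_zero _ h7)⟩
  simp only [χ10, Prod.fst_add, Prod.snd_add, Pi.add_apply, neg_add, zpow_add₀ h7,
    zpow_add₀ (w10_ne hs _), Finset.prod_mul_distrib]
  ring

theorem χ10_eq [CharZero k] {s : k} (hs : s ≠ 0) (u : CL) : χ10 s u =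
    ((2 ^ u.2.1 0 * 3 ^ u.2.1 1 * 5 ^ u.2.1 2 * 11 ^ (u.2.1 3 - u.2.1 4) * 7 ^ (-u.2.2 0) : ℚ) : k) *
      s ^ (u.2.1 0 + u.2.1 1 + u.2.1 2 + -u.2.2 0) := by
  simp only [χ10, Fin.prod_univ_five, w10, Matrix.cons_val_zero, Matrix.cons_val_one,
    Matrix.cons_val, mul_zpow, zpow_add₀ hs, inv_zpow', sub_eq_add_neg,
    zpow_add₀ (show (11 : ℚ) ≠ 0 by norm_num)]
  push_cast
  ring

theorem primes_ind {a b c d e : ℤ} (h : (2 ^ a * 3 ^ b * 5 ^ c * 11 ^ d * 7 ^ e : ℚ) = 1) :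
    a = 0 ∧ b = 0 ∧ c = 0 ∧ d = 0 ∧ e = 0 := by
  have key : ∀ (p : ℕ) [Fact p.Prime], a * padicValNat p 2 + b * padicValNat p 3 +
      c * padicValNat p 5 + d * padicValNat p 11 + e * padicValNat p 7 = 0 := by
    intro p _
    have h1 := congrArg (padicValRat p) h
    rw [padicValRat.mul (by positivity) (by positivity), padicValRat.mul (by positivity)
      (by positivity), padicValRat.mul (by positivity) (by positivity),
      padicValRat.mul (by positivity) (by positivity), padicValRat.one] at h1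
    simp only [padicValRat.zpow] at h1
    rw [← padicValRat.of_nat, ← padicValRat.of_nat, ← padicValRat.of_nat, ← padicValRat.of_nat,
      ← padicValRat.of_nat]
    exact_mod_cast h1
  have : Fact (Nat.Prime 5) := ⟨by norm_num⟩
  have : Fact (Nat.Prime 7) := ⟨by norm_num⟩
  have : Fact (Nat.Prime 11) := ⟨by norm_num⟩
  have h2 := key 2
  have h3 := key 3
  have h5 := key 5
  have h7 := key 7
  have h11 := key 11
  simp [padicValNat_primes] at h2 h3 h5 h7 h11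
  exact ⟨h2, h3, h5, h11, h7⟩

theorem χ10_v [CharZero k] {v : Valuation k Γ} (hv : ∀ q : ℚ, q ≠ 0 → v q = 1) {s : k}
    (hs : s ≠ 0) (u : CL) :
    v (χ10 s u) = v s ^ (u.2.1 0 + u.2.1 1 + u.2.1 2 + -u.2.2 0) := by
  rw [χ10_eq hs, map_mul, hv _ (by positivity), one_mul, map_zpow₀]

theorem line10 {g : CL} (hg : g ∈ cD.lat.Λ) : g = eb 1 ∨ g = e5 ∨ g = aV 3 4 + e5 ∨
    0 < g.2.1 0 + g.2.1 1 + g.2.1 2 + -g.2.2 0 := by
  by_contra h
  push Not at h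
  have h1 := cD.lat.nonneg g hg _ (eb_line 1) h.1
  have h2 := cD.lat.nonneg g hg _ e5_line h.2.1
  have h3 := cD.lat.nonneg g hg _ (aV_line 3 4 (by decide)) h.2.2.1
  have h4 := hg.2.1
  have h5 := cD_M.1 hg.2.2
  rw [DP.lat_ip, map_add, cD_ip, cD_ip, cip_aV, cip_e5] at h3
  rw [DP.lat_ip, cD_ip, cip_eb] at h1
  rw [DP.lat_ip, cD_ip, cip_e5] at h2
  simp only [cip, cD, Fin.sum_univ_five, Fin.sum_univ_two, AddMonoidHom.mk'_apply] at h4 h5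
  omega

theorem root10 {α : CL} (hα : α ∈ cD.lat.Φ) (h0 : α.2.1 0 = 0) (h1 : α.2.1 1 = 0)
    (h2 : α.2.1 2 = 0) (h3 : α.2.1 3 - α.2.1 4 = 0) (h4 : -α.2.2 0 = 0) :
    α ∈ L10 ∨ -α ∈ L10 := by
  have k1 := hα.1
  have k2 := hα.2.1
  have k3 := cD_M.1 hα.2.2
  simp only [cip, cD, Fin.sum_univ_five, Fin.sum_univ_two, AddMonoidHom.mk'_apply] at k1 k2 k3
  have e : α = cv α.1.1 α.1.2 0 0 0 α.1.2 α.1.2 0 α.1.1 := by
    refine Prod.ext rfl (Prod.ext (funext fun i => ?_) (funext fun i => ?_)) <;> fin_cases i <;>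
      simp [cv] <;> omega
  have e3 : α.2.1 3 = α.1.2 := by omega
  have e4 : α.2.1 4 = α.1.2 := by omega
  have e5 : α.2.2 0 = 0 := by omega
  have e6 : α.2.2 1 = α.1.1 := by omega
  rw [h0, h1, h2, e3, e4, e5, e6] at k1
  rw [e]
  generalize α.1.1 = n at k1
  generalize α.1.2 = J at k1
  have b1 : -2 < n ∧ n < 2 := by constructor <;> nlinarith [sq_nonneg (n - 2 * J)]
  have b2 : -2 < J ∧ J < 2 := by constructor <;> nlinarith [sq_nonneg (J - 2 * n)]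
  obtain ⟨b1, b1'⟩ := b1
  obtain ⟨b2, b2'⟩ := b2
  interval_cases n <;> interval_cases J <;> first | omega | decide

theorem shp10 [CharZero k] (ι : k →+* O) (hι : ∀ a, A.res (ι a) = a) {s : k} (hs : s ≠ 0) :
    Shp A (c10 A ι s) (χ10 s) := by
  have hN : (c10 A ι s).N A = -1 := by
    simp [Cfg.N, c10]
    ring
  refine ⟨fun i => ?_, fun i => ?_, ?_, ?_, fun r => ?_, fun i j hij => ?_⟩
  · simpa [c10, hι] using w10_ne hs i
  · have := w10_ne hs i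
    simp only [c10, map_add, map_sub, hι, A.rt]
    field_simp
    ring
  · simp [hN]
  · rw [hN]
    simp [χ10, e5, c10]
  · rw [hN]
    fin_cases r <;> simp [χ10, eb, c10, hι]
  · simp only [χ10, aV, c10, hι, Pi.add_apply, zpow_add₀ (w10_ne hs _), Finset.prod_mul_distrib,
      Pi.single_apply]
    simp

theorem sw10 [CharZero k] (ι : k →+* O) (hι : ∀ a, A.res (ι a) = a) {v : Valuation k Γ}
    (hv : ∀ q : ℚ, q ≠ 0 → v q = 1) {s : k} (hs : s ≠ 0) (h1 : v s < 1) :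
    Sw A v (c10 A ι s) (χ10 s) L10 [] Y10 := by
  have h0 : 0 < v s := by rwa [zero_lt_iff, Valuation.ne_zero_iff]
  have key : ∀ g ∈ cD.lat.Λ, (χ10 s g = 1 ∧ ∀ i, 0 ≤ cD.ip (Y10 i) g) ∨ v (χ10 s g) < 1 := by
    intro g hg
    rcases line10 hg with rfl | rfl | rfl | h
    · exact Or.inl ⟨by simp [χ10, eb], by decide⟩
    · exact Or.inl ⟨by simp [χ10, e5], by decide⟩
    · exact Or.inl ⟨by simp [χ10_eq hs, e5, aV], by decide⟩
    · exact Or.inr (by rw [χ10_v hv hs]; exact zpow_lt_one₀ h0 h1 h)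
  refine ⟨shp10 ι hι hs, ⟨0, Lat.P.base (χ10_ch hs) (fun g hg => ?_) (fun g hg hb => ?_)
    fun α hα e => ?_⟩, fun g hg e => ?_, by simp, fun i g hg e => ?_⟩
  · rcases key g hg with e | e
    · exact le_of_eq (by rw [e.1]; exact v.map_one)
    · exact e.le
  · rcases key g hg with e | e
    · exact hb.2.1 (by rw [e.1]; exact sub_self _)
    · exact e.ne hb.1
  · have k1 := χ10_v hv hs α
    rw [e, map_one] at k1
    have k2 := (zpow_eq_one_iff_right₀ h0.le h1.ne).1 k1.symm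
    rw [χ10_eq hs, k2, zpow_zero, mul_one] at e
    obtain ⟨a0, a1, a2, a3, a4⟩ := primes_ind (by exact_mod_cast e)
    exact root10 hα a0 a1 a2 a3 a4
  · exact Or.inr ((key g hg).resolve_right e.not_lt).1
  · exact ((key g hg).resolve_right e.not_lt).2 i

theorem rex10 [CharZero k] (ι : k →+* O) (hι : ∀ a, A.res (ι a) = a) {v : Valuation k Γ}
    (hv : ∀ q : ℚ, q ≠ 0 → v q = 1) {s : k} (hs : s ≠ 0) (h1 : v s < 1) :
    Rex A (c10 A ι s) (-1) A.t := by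
  have h := sw10 (A := A) ι hι hv hs h1
  have h7 : (7 * s) ≠ 0 := by simp [hs]
  have h8 : (7 * s) ≠ 1 := fun e => by
    have k1 := congrArg v e
    rw [map_mul, map_one, show (7 : k) = (7 : ℚ) by simp, hv _ (by norm_num), one_mul] at k1
    exact h1.ne k1
  have n0 : ι (7 * s) ≠ 0 := fun e => h7 (by rw [← hι (7 * s), e, map_zero])
  have n1 : ι (7 * s) ≠ 1 := fun e => h8 (by rw [← hι (7 * s), e, map_one])
  refine ⟨h.shp.z0, A.t0, A.rt, by simp, fun i => ?_,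
    fun i j hij e => h.zz (by decide) hij (congrArg _ e), fun e => ?_, n0, n1, n0, n1⟩
  · have e : ι (w10 s i) * ι (w10 s i)⁻¹ = 1 := by
      rw [← map_mul, mul_inv_cancel₀ (w10_ne hs i), map_one]
    simp only [c10, Matrix.cons_val_zero]
    linear_combination A.t * e
  · simpa [c10] using congrArg A.res e

theorem comb10 {e n i j : ℤ} (he : 0 ≤ e) (hk : 3 * e ≤ n) (hi : 0 ≤ i) (hj : 0 ≤ j) :
    ∃ a : Fin 4 → ℕ, ∑ l, a l • Y10 l = u10 e n - i • eb 1 - j • e5 := by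
  refine ⟨![e.toNat, (n - 3 * e).toNat, i.toNat, j.toNat], ?_⟩
  rw [Fin.sum_univ_four]
  refine Prod.ext (Prod.ext ?_ ?_) (Prod.ext (funext fun l => ?_) (funext fun l => ?_))
  · simp [Y10, cv, u10, eb, e5]
    omega
  · simp [Y10, cv, u10, eb, e5]
    omega
  · fin_cases l <;> simp [Y10, cv, u10, eb, e5] <;> omega
  · fin_cases l <;> simp [Y10, cv, u10, eb, e5, Matrix.vecHead, Matrix.vecTail] <;> omega

/-- the bounds in the shape -/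
theorem st10 [CharZero k] [IsDomain O] [ValuationRing O] [IsFractionRing O K] (ι : k →+* O)
    (hι : ∀ a, A.res (ι a) = a) {v : Valuation k Γ} (hv : ∀ q : ℚ, q ≠ 0 → v q = 1) {s : k}
    (hs : s ≠ 0) (h1 : v s < 1) {u : CL} (hu : ∃ a : Fin 4 → ℕ, ∑ l, a l • Y10 l = u) {ε : ℤ}
    (hε : ε = 0 ∨ ε = 1) (h0 : cip u u ≠ 0) :
    finrank K ((c10 A ι s).H A K ε u) ≤ (1 + cip u u / 2).toNat := by
  obtain ⟨a, rfl⟩ := hu
  refine word10 (IsFractionRing.injective O K) (by omega) (fun c u k1 k2 k3 => ?_)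
    (sw10 ι hι hv hs h1) a rfl
  have k4 := k2.sq
  have k5 := end_count (K := K) A c k1 k2 (by omega) hε
  omega

/-- the three bounds in the frame of the broken curve -/
def Tb10g {K : Type} [Field K] (P : Ix → Fin 4 → K) : Prop := ∀ e κ : ℤ, 1 ≤ e → 3 * e ≤ κ →
  finrank K (H0 (13 * e) (11 * e - κ % 2) P (nb10 e κ 0 0 0)) ≤
    (1 + (10 * e ^ 2 - κ ^ 2) / 2).toNat ∧
  finrank K (H0 (13 * e - 1) (11 * e - 2 + κ % 2) P (nb10 e κ 1 0 (1 - κ % 2))) ≤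
    (1 + (10 * e ^ 2 - κ ^ 2 - 2 * e - 1) / 2).toNat ∧
  finrank K (H0 (13 * e - 1) (11 * e - 3 + κ % 2) P (nb10 e κ 1 1 (1 - κ % 2))) ≤
    (1 + (10 * e ^ 2 - κ ^ 2 - 4 * e - 1) / 2).toNat

theorem Tb10g.of {P : Ix → Fin 4 → K} (h : Tb10 P) : Tb10g P :=
  fun e κ h1 h2 => h e κ h1 (by omega)

theorem tb10g_gen [CharZero k] [IsDomain O] [ValuationRing O] [IsFractionRing O K] (ι : k →+* O)
    (hι : ∀ a, A.res (ι a) = a) {v : Valuation k Γ} (hv : ∀ q : ℚ, q ≠ 0 → v q = 1) {s : k}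
    (hs : s ≠ 0) (h1 : v s < 1) :
    ∃ (y : Fin 3 → K) (y0 xg xa xb : K), BrN y y0 xg xa xb ∧ Tb10g (brP y y0 xg xa xb) := by
  obtain ⟨y, y0, xg, xa, xb, hN, hb⟩ := (rex10 (A := A) ι hι hv hs h1).brk3 rfl
    (by simp [c10, w10, add_sub, add_comm]) (IsFractionRing.injective O K)
  refine ⟨y, y0, xg, xa, xb, hN, fun e κ he hκ => ?_⟩
  obtain ⟨k1, k2, k3⟩ := hb e κ
  rw [← u10_sq1, ← u10_sq2, ← u10_sq]
  exact ⟨k1.trans (st10 ι hι hv hs h1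
      (by simpa using comb10 (by omega) hκ le_rfl le_rfl) (.inl rfl)
      (by rw [u10_sq]; exact sq10_a he)),
    k2.trans (st10 ι hι hv hs h1
      (by simpa using comb10 (by omega) hκ zero_le_one le_rfl) (.inr rfl)
      (by rw [u10_sq1]; exact sq10_b e κ)),
    k3.trans (st10 ι hι hv hs h1
      (by simpa using comb10 (by omega) hκ le_rfl zero_le_one) (.inr rfl)
      (by rw [u10_sq2]; exact sq10_c e κ))⟩

/-- The three bounds, over the field of Laurent series over the rational functions. -/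
theorem tb10g : ∃ (y : Fin 3 → LS (RatFunc ℂ)) (y0 xg xa xb : LS (RatFunc ℂ)),
    BrN y y0 xg xa xb ∧ Tb10g (brP y y0 xg xa xb) :=
  tb10g_gen (A := Arc.ps (RatFunc ℂ)) PowerSeries.C PowerSeries.constantCoeff_C (v := vX ℂ)
    (fun q hq => by
      rw [← map_ratCast (algebraMap ℂ (RatFunc ℂ))]
      exact vX_alg (by exact_mod_cast hq))
    RatFunc.X_ne_zero (by rw [vX_X]; exact WithZero.exp_lt_exp.2 (by norm_num))

end Pool.Agent.Lib.MP_d03834_ag.Core.S10
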