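import Pool.Agent.Lib.MP_d03834_ag.Core.BiT5A

/-! The orbifold fold: three points approach the fibre x0 = 0. -/

set_option autoImplicit false

namespace Pool.Agent.Lib.MP_d03834_ag.Core

open MvPolynomial Module

section div
variable {k ι : Type} [Field k]

theorem pid_X {Q : Fin 4 → k} (hQ : Pt Q) (i : Fin 4) (j : ℕ) {n : ℕ} {G : Cx k}
    [Decidable (Q i = 0)] (h : X i ^ j * G ∈ pid Q ^ n) :
    G ∈ pid Q ^ (n - if Q i = 0 then j else 0) := by
  split_ifs with e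
  · simpa using pid_div_pow hQ (j := 1) (fun e => by simpa using pid_sq i e) j h
  · simpa using pid_div_pow hQ (not_pid (by simpa using e)) j h

/-- vanishing on the fibre forces vanishing on an arm -/
theorem arm_low {p q : ℤ} {u v : Fin 4 → k} (hu : Pt u) (hv : Pt v) (huv : dx u v ≠ 0) {a b : ℤ}
    {w : Fin 4 → ℕ} {j : ℕ} (hp : p + j ≤ a + b) {G : Cx k} (hG : Bih p q G)
    (h1 : ∀ i, lx u ^ (a.toNat - i) ∣ cmp w i G) (h2 : ∀ i, lx v ^ (b.toNat - i) ∣ cmp w i G) :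
    Low w ((j + 1) / 2) G := fun μ hμ => by
  by_contra hlt
  obtain ⟨c, hc⟩ := (lx_rel huv).pow.mul_dvd (h1 (Finsupp.weight w μ)) (h2 (Finsupp.weight w μ))
  have h3 := hG.cmp w (Finsupp.weight w μ)
  rw [hc] at h3
  have h4 := (h3.of_mul (((bih_lx u).pow _).mul ((bih_lx v).pow _)) (mul_ne_zero
    (pow_ne_zero _ (lx_ne hu)) (pow_ne_zero _ (lx_ne hv)))).neg_deg (.inl (by omega))
  have h5 := cmp_coeff w (Finsupp.weight w μ) μ G
  rw [if_pos rfl, hc, h4, mul_zero, coeff_zero] at h5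
  exact hμ h5.symm

open Classical in
/-- the multiplicities after the removal of j R + ⌈j / 2⌉ (A + B) -/
noncomputable def red (j : ℕ) (Q : ι → Fin 4 → k) (m : ι → ℤ) (l : ι) : ℤ :=
  m l - (if Q l 0 = 0 then j else 0 : ℕ) - (if Q l 2 = 0 then (j + 1) / 2 else 0 : ℕ) -
    (if Q l 3 = 0 then (j + 1) / 2 else 0 : ℕ)

/-- two points on each of the arms y0 = 0 and y1 = 0, away from x0 = 0 -/
structure Arms (Q : ι → Fin 4 → k) (a b : Fin 2 → ι) : Prop where
  pt : ∀ l, Pt (Q l)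
  a2 : ∀ s, Q (a s) 2 = 0
  b3 : ∀ s, Q (b s) 3 = 0
  a0 : ∀ s, Q (a s) 0 ≠ 0
  b0 : ∀ s, Q (b s) 0 ≠ 0
  aa : dx (Q (a 0)) (Q (a 1)) ≠ 0
  bb : dx (Q (b 0)) (Q (b 1)) ≠ 0

theorem t5_fac {Q : ι → Fin 4 → k} {a b : Fin 2 → ι} (h : Arms Q a b) {p q : ℤ} {m : ι → ℤ}
    (ha : p ≤ m (a 0) + m (a 1)) (hb : p ≤ m (b 0) + m (b 1)) (j : ℕ) {F : Cx k}
    (hF : F ∈ H0 p q Q m) (hj : Low ![1, 0, 0, 0] j F) :
    ∃ G ∈ H0 (p - j) (q - 2 * ((j + 1) / 2 : ℕ)) Q (red j Q m),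
      F = X 0 ^ j * X 2 ^ ((j + 1) / 2) * X 3 ^ ((j + 1) / 2) * G := by
  classical
  obtain ⟨h1, h2⟩ := mem_H0.1 hF
  obtain ⟨F1, rfl⟩ : X 0 ^ j ∣ F := (X_pow_dvd_iff _ _ _).2 fun μ hμ => by
    have := hj μ hμ
    rw [wt4] at this
    omega
  have b1 := h1.of_mul (bih_X0.pow j) (pow_ne_zero _ (X_ne_zero _))
  have c1 := fun l => pid_X (h.pt l) 0 j (h2 l)
  have l2 := arm_low (h.pt _) (h.pt _) h.aa (w := ![0, 0, 1, 0]) (j := j) (a := m (a 0))
    (b := m (a 1)) (by omega) b1 (arm2 (h.a2 0) (by simpa [h.a0] using c1 (a 0)))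
    (arm2 (h.a2 1) (by simpa [h.a0] using c1 (a 1)))
  have l3 := arm_low (h.pt _) (h.pt _) h.bb (w := ![0, 0, 0, 1]) (j := j) (a := m (b 0))
    (b := m (b 1)) (by omega) b1 (arm3 (h.b3 0) (by simpa [h.b0] using c1 (b 0)))
    (arm3 (h.b3 1) (by simpa [h.b0] using c1 (b 1)))
  have d2 : X 2 ^ ((j + 1) / 2) ∣ F1 := (X_pow_dvd_iff _ _ _).2 fun μ hμ => by
    have := l2 μ hμ
    rw [wt4] at this
    omega
  have d3 : X 3 ^ ((j + 1) / 2) ∣ F1 := (X_pow_dvd_iff _ _ _).2 fun μ hμ => by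
    have := l3 μ hμ
    rw [wt4] at this
    omega
  have r : IsRelPrime (X 2 : Cx k) (X 3) :=
    X_prime.irreducible.isRelPrime_iff_not_dvd.2 fun e => absurd (X_dvd_X.1 e) (by decide)
  obtain ⟨G, rfl⟩ := r.pow.mul_dvd d2 d3
  refine ⟨G, mem_H0.2 ⟨?_, fun l => ?_⟩, by ring⟩
  · have b2 := b1.of_mul ((bih_X2.pow _).mul (bih_X3.pow _))
      (mul_ne_zero (pow_ne_zero _ (X_ne_zero _)) (pow_ne_zero _ (X_ne_zero _)))
    exact b2.of_eq (by ring) (by ring)
  · have c2 := c1 l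
    rw [mul_assoc] at c2
    refine Ideal.pow_le_pow_right ?_ (pid_X (h.pt l) 3 _ (pid_X (h.pt l) 2 _ c2))
    unfold red
    generalize (if Q l 0 = 0 then j else 0) = u
    generalize (if Q l 2 = 0 then (j + 1) / 2 else 0) = v
    generalize (if Q l 3 = 0 then (j + 1) / 2 else 0) = w
    omega

/-- removal of the fixed curves -/
theorem t5_div {Q : ι → Fin 4 → k} {a b : Fin 2 → ι} (h : Arms Q a b) {p q : ℤ} {m : ι → ℤ}
    (ha : p ≤ m (a 0) + m (a 1)) (hb : p ≤ m (b 0) + m (b 1)) (j : ℕ) :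
    finrank k ↥(H0 p q Q m ⊓ LowS k ![1, 0, 0, 0] j) ≤
      finrank k (H0 (p - j) (q - 2 * ((j + 1) / 2 : ℕ)) Q (red j Q m)) :=
  brk_le LinearMap.id _ (fun _ _ e => e) fun _ hF => t5_fac h ha hb j hF.1 hF.2

/-- the leading part along x0 = 0 lies in the leading parts of S -/
theorem t5_split (V S : Submodule k (Cx k)) [FiniteDimensional k V] [FiniteDimensional k S]
    (w : Fin 4 → ℕ) (j : ℕ) :
    finrank k ↥(V ⊓ LowS k w j ⊓ (S.map (cmp w j)).comap (cmp w j)) ≤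
      finrank k S + finrank k ↥(V ⊓ LowS k w (j + 1)) := by
  set T := V ⊓ LowS k w j ⊓ (S.map (cmp w j)).comap (cmp w j)
  have : FiniteDimensional k T := Submodule.finiteDimensional_of_le (inf_le_left.trans inf_le_left)
  have h2 := LinearMap.finrank_range_add_finrank_ker ((cmp w j).domRestrict T)
  have h3 : finrank k (LinearMap.range ((cmp w j).domRestrict T)) ≤ finrank k S :=
    (Submodule.finrank_mono (t := S.map (cmp w j)) (by
      rintro _ ⟨F, rfl⟩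
      exact F.2.2)).trans (Submodule.finrank_map_le _ _)
  have h4 : finrank k (LinearMap.ker ((cmp w j).domRestrict T)) ≤
      finrank k ↥(V ⊓ LowS k w (j + 1)) := by
    rw [LinearMap.ker_domRestrict, ← Submodule.finrank_map_subtype_eq, Submodule.map_comap_subtype]
    refine Submodule.finrank_mono fun F hF => ⟨hF.1.1.1, fun μ hμ => ?_⟩
    refine lt_of_le_of_ne (hF.1.1.2 μ hμ) fun e => hμ ?_
    have := cmp_coeff w j μ F
    rw [if_pos e.symm, show cmp w j F = 0 from hF.2, coeff_zero] at this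
    exact this.symm
  exact h2.ge.trans (add_le_add h3 h4)

end div

section lim
variable {O K k ι : Type} [CommRing O] [IsDomain O] [ValuationRing O] [Field K] [Algebra O K]
  [IsFractionRing O K] [Field k]

/-- two points of an arm collide in the corner x1 = 0 -/
theorem arm_lim (π : O →+* k) {u v : Fin 4 → O} (u0 : π (u 0) ≠ 0) (v0 : π (v 0) ≠ 0)
    (u1 : π (u 1) = 0) (v1 : π (v 1) = 0) (huv : dx u v ≠ 0) {a b : ℕ} {w w' : Fin 4 → ℕ}
    (hw : ∀ μ : Fin 4 →₀ ℕ, Finsupp.weight w' μ = μ 1 + 2 * Finsupp.weight w μ) {H : Cx O}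
    (h1 : ∀ i, lx (fun l => algebraMap O K (u l)) ^ (a - i) ∣ cmp w i (map (algebraMap O K) H))
    (h2 : ∀ i, lx (fun l => algebraMap O K (v l)) ^ (b - i) ∣ cmp w i (map (algebraMap O K) H)) :
    Low w' (a + b) (map π H) := fun μ hμ => by
  have e : dx (fun l => algebraMap O K (u l)) (fun l => algebraMap O K (v l)) ≠ 0 := fun e =>
    huv (IsFractionRing.injective O K (by simpa [dx] using e))
  have h3 := (lx_rel e).pow.mul_dvd (h1 (Finsupp.weight w μ)) (h2 (Finsupp.weight w μ))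
  have e1 : map π (lx u ^ (a - Finsupp.weight w μ) * lx v ^ (b - Finsupp.weight w μ)) =
      C ((-π (u 0)) ^ (a - Finsupp.weight w μ) * (-π (v 0)) ^ (b - Finsupp.weight w μ)) *
        X 1 ^ (a - Finsupp.weight w μ + (b - Finsupp.weight w μ)) := by
    have : ∀ z : Fin 4 → O, π (z 1) = 0 → map π (lx z) = C (-π (z 0)) * X 1 := fun z hz => by
      simp [lx, hz]
    rw [map_mul, map_pow, map_pow, this u u1, this v v1, map_mul, map_pow, map_pow]
    ring
  have h4 := dvd_lim (K := K) π (U := lx u ^ (a - Finsupp.weight w μ) *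
    lx v ^ (b - Finsupp.weight w μ)) (H := cmp w (Finsupp.weight w μ) H) (by
      rw [e1]
      exact mul_ne_zero (C_ne_zero.2 (mul_ne_zero (pow_ne_zero _ (neg_ne_zero.2 u0))
        (pow_ne_zero _ (neg_ne_zero.2 v0)))) (pow_ne_zero _ (X_ne_zero _))) (by
      rw [cmp_map]
      simpa [lx] using h3)
  rw [e1, cmp_map] at h4
  have h5 := (X_pow_dvd_iff _ _ _).1 (dvd_of_mul_left_dvd h4) μ (by rwa [cmp_coeff, if_pos rfl])
  rw [hw]
  omega

/-- the limit of one section -/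
theorem t5_el (π : O →+* k) (hπ : ∀ x, π x ≠ 0 → IsUnit x) {t : O} (ht0 : t ≠ 0) (ht : π t = 0)
    {ξ y : Fin 3 → O} {α β γ : k} (h : Tri (fun i => π (ξ i)) (fun i => π (y i)) α β γ)
    {p q j : ℕ} {m : Fin 3 → ℕ} (hj : q + j ≤ m 0 + m 1 + m 2) {G : Cx O} (hG : Bih p q G)
    (hm : ∀ i, G ∈ pid ![t * ξ i, 1, y i, 1] ^ m i)
    (harm : ∀ c H, c ≠ 0 → scl ![1, 0, 0, 0] t G = C c * H →
      Low ![0, 1, 2, 0] p (map π H) ∧ Low ![0, 1, 0, 2] p (map π H)) :
    Low ![1, 0, 0, 0] j (map π G) ∧ ∃ Z ∈ Zs (fun i => π (ξ i)) (fun i => π (y i)) p q j m,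
      cmp ![1, 0, 0, 0] j Z = cmp ![1, 0, 0, 0] j (map π G) := by
  by_cases h0 : G = 0
  · rw [h0, map_zero]
    exact ⟨fun _ e => absurd rfl e, 0, Submodule.zero_mem _, rfl⟩
  obtain ⟨n, c, H, lam, c0, e, ⟨ν, n1, n2⟩, h1, h2, h3⟩ := lim_blow π hπ ht0 ht ![1, 0, 0, 0] h0
  obtain ⟨h4, h5⟩ := harm c H c0 e
  have h6 : map π H ∈ Zs (fun i => π (ξ i)) (fun i => π (y i)) p q n m := by
    refine mem_Zs.2 ⟨(Bih.of_cmul c0 (e ▸ hG.scl _ t)).map π, fun i => ?_, h1, h4, h5⟩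
    have a1 : scl ![1, 0, 0, 0] t G ∈ pid ![ξ i, 1, y i, 1] ^ m i := by
      refine scl_pid _ t ?_
      convert hm i using 3
      funext l
      fin_cases l <;> simp
    rw [e] at a1
    have a2 := pid_push π (pid_cancel ⟨⟨1, 0, by simp⟩, 1, 0, by simp⟩ c0 a1)
    convert a2 using 3
    funext l
    fin_cases l <;> simp [tE]
  have h7 : n ≤ p := by
    have := (bih_iff.1 (mem_Zs.1 h6).1 ν n2).1
    rw [wt4] at n1
    omega
  have h8 : j ≤ n := by_contra fun e => n2 (by rw [t5_zero h h6 h7 (by omega), coeff_zero])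
  refine ⟨h2.mono h8, ?_⟩
  rcases h8.eq_or_lt with rfl | h9
  · refine ⟨lam • map π H, Submodule.smul_mem _ _ h6, MvPolynomial.ext _ _ fun μ => ?_⟩
    rw [cmp_coeff, cmp_coeff]
    split_ifs with e
    · rw [h3 μ e, coeff_smul, smul_eq_mul]
    · rfl
  · refine ⟨0, Submodule.zero_mem _, MvPolynomial.ext _ _ fun μ => ?_⟩
    rw [map_zero, coeff_zero, cmp_coeff]
    split_ifs with e
    · by_contra e'
      have := h2 μ (Ne.symm e')
      omega
    · rfl

/-- the family of configurations -/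
structure T5 (π : O →+* k) (t : O) (P : ι → Fin 4 → O) (e : Fin 3 → ι) (a b : Fin 2 → ι)
    (ξ y : Fin 3 → O) (α β γ : k) : Prop where
  arms : Arms (fun l i => π (P l i)) a b
  tri : Tri (fun i => π (ξ i)) (fun i => π (y i)) α β γ
  he : ∀ i, P (e i) = ![t * ξ i, 1, y i, 1]
  a2 : ∀ s, P (a s) 2 = 0
  b3 : ∀ s, P (b s) 3 = 0

variable {π : O →+* k} {t : O} {P : ι → Fin 4 → O} {e : Fin 3 → ι} {a b : Fin 2 → ι}
  {ξ y : Fin 3 → O} {α β γ : k}

/-- the limit of a section of the family -/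
theorem T5.el (hπ : ∀ x, π x ≠ 0 → IsUnit x) (ht0 : t ≠ 0) (ht : π t = 0)
    (h : T5 π t P e a b ξ y α β γ) {p q : ℤ} {m : ι → ℤ} (ha : p ≤ m (a 0) + m (a 1))
    (hb : p ≤ m (b 0) + m (b 1)) {j : ℕ} (hj : q + j ≤ m (e 0) + m (e 1) + m (e 2)) {G : Cx O}
    (hG : map (algebraMap O K) G ∈ H0 p q (fun l i => algebraMap O K (P l i)) m) :
    map π G ∈ H0 p q (fun l i => π (P l i)) m ⊓ LowS k ![1, 0, 0, 0] j ⊓
      ((Zs (fun i => π (ξ i)) (fun i => π (y i)) p.toNat q.toNat j fun i => (m (e i)).toNat).map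
        (cmp ![1, 0, 0, 0] j)).comap (cmp ![1, 0, 0, 0] j) := by
  have hi := IsFractionRing.injective O K
  obtain ⟨h1, h2⟩ := mem_H0.1 hG
  have h3 := h1.of_map hi
  by_cases h0 : p < 0 ∨ q < 0
  · rw [h3.neg_deg h0, map_zero]
    exact Submodule.zero_mem _
  have h4 : ∀ l, G ∈ pid (P l) ^ (m l).toNat := fun l =>
    pid_pull hi (uni_of π hπ (h.arms.pt l)) (h2 l)
  have h5 : ∀ c H, c ≠ 0 → scl ![1, 0, 0, 0] t G = C c * H → ∀ l, map (algebraMap O K) H ∈
      pid (fun i => algebraMap O K (![P l 0, t * P l 1, P l 2, P l 3] i)) ^ (m l).toNat := by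
    intro c H c0 e l
    have a1 : scl ![1, 0, 0, 0] t G ∈ pid ![P l 0, t * P l 1, P l 2, P l 3] ^ (m l).toNat :=
      pid_map _ (by convert lx_mem _; simp [scl, lx]; ring) (by convert ly_mem _; simp [scl, ly])
        (h4 l)
    have a2 := pid_push (algebraMap O K) a1
    rw [e, map_mul, map_C] at a2
    exact (Ideal.unit_mul_mem_iff_mem _ ((IsUnit.mk0 _ fun e => c0 (hi (e.trans
      (map_zero _).symm))).map C)).1 a2
  have h6 : ∀ u v : ι, π (dx (P u) (P v)) ≠ 0 →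
      dx ![P u 0, t * P u 1, P u 2, P u 3] ![P v 0, t * P v 1, P v 2, P v 3] ≠ 0 := by
    intro u v e e'
    have : t * dx (P u) (P v) = 0 := by
      rw [← e']
      simp [dx]
      ring
    exact e (by rw [(mul_eq_zero.1 this).resolve_left ht0, map_zero])
  obtain ⟨h7, Z, h8, h9⟩ := t5_el π hπ ht0 ht h.tri (p := p.toNat) (q := q.toNat) (j := j)
    (m := fun i => (m (e i)).toNat) (by omega) (h3.of_eq (by omega) (by omega))
    (fun i => h.he i ▸ h4 (e i)) fun c H c0 e => ⟨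
      (arm_lim (K := K) π (u := ![P (a 0) 0, t * P (a 0) 1, P (a 0) 2, P (a 0) 3])
        (v := ![P (a 1) 0, t * P (a 1) 1, P (a 1) 2, P (a 1) 3]) (h.arms.a0 0) (h.arms.a0 1)
        (by simp [ht]) (by simp [ht]) (h6 _ _ (by simpa [dx] using h.arms.aa))
        (w := ![0, 0, 1, 0]) (fun μ => by rw [wt4, wt4]; omega)
        (arm2 (by simp [h.a2]) (h5 c H c0 e _)) (arm2 (by simp [h.a2]) (h5 c H c0 e _))).mono
          (by omega),
      (arm_lim (K := K) π (u := ![P (b 0) 0, t * P (b 0) 1, P (b 0) 2, P (b 0) 3])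
        (v := ![P (b 1) 0, t * P (b 1) 1, P (b 1) 2, P (b 1) 3]) (h.arms.b0 0) (h.arms.b0 1)
        (by simp [ht]) (by simp [ht]) (h6 _ _ (by simpa [dx] using h.arms.bb))
        (w := ![0, 0, 0, 1]) (fun μ => by rw [wt4, wt4]; omega)
        (arm3 (by simp [h.b3]) (h5 c H c0 e _)) (arm3 (by simp [h.b3]) (h5 c H c0 e _))).mono
          (by omega)⟩
  exact ⟨⟨mem_H0.2 ⟨h3.map π, fun l => pid_push π (h4 l)⟩, h7⟩, Z, h8, h9⟩

/-- the fold, first bound -/
theorem t5a (hπ : ∀ x, π x ≠ 0 → IsUnit x) (ht0 : t ≠ 0) (ht : π t = 0)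
    (h : T5 π t P e a b ξ y α β γ) {p q : ℤ} {m : ι → ℤ} (ha : p ≤ m (a 0) + m (a 1))
    (hb : p ≤ m (b 0) + m (b 1)) {j : ℕ} (hj : q + j ≤ m (e 0) + m (e 1) + m (e 2)) :
    finrank K (H0 p q (fun l i => algebraMap O K (P l i)) m) ≤
      finrank k (H0 (p - j) (q - 2 * ((j + 1) / 2 : ℕ)) (fun l i => π (P l i))
        (red j (fun l i => π (P l i)) m)) :=
  (lim_le π _ _ fun _ hG => (h.el hπ ht0 ht ha hb hj hG).1).trans (t5_div h.arms ha hb j)

/-- the fold, second bound -/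
theorem t5b (hπ : ∀ x, π x ≠ 0 → IsUnit x) (ht0 : t ≠ 0) (ht : π t = 0)
    (h : T5 π t P e a b ξ y α β γ) {p q : ℤ} {m : ι → ℤ} (ha : p ≤ m (a 0) + m (a 1))
    (hb : p ≤ m (b 0) + m (b 1)) {j : ℕ} (hj : q + j ≤ m (e 0) + m (e 1) + m (e 2)) :
    finrank K (H0 p q (fun l i => algebraMap O K (P l i)) m) ≤ j / 2 + 1 +
      finrank k (H0 (p - (j + 1 : ℕ)) (q - 2 * ((j + 1 + 1) / 2 : ℕ)) (fun l i => π (P l i))
        (red (j + 1) (fun l i => π (P l i)) m)) := by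
  have : FiniteDimensional k ↥(H0 p q (fun l i => π (P l i)) m ⊓ LowS k ![1, 0, 0, 0] j ⊓
      ((Zs (fun i => π (ξ i)) (fun i => π (y i)) p.toNat q.toNat j fun i => (m (e i)).toNat).map
        (cmp ![1, 0, 0, 0] j)).comap (cmp ![1, 0, 0, 0] j)) :=
    Submodule.finiteDimensional_of_le (inf_le_left.trans inf_le_left)
  by_cases h0 : p < j ∨ q < 0
  · refine (t5a hπ ht0 ht h ha hb hj).trans ?_
    rw [(Submodule.eq_bot_iff (H0 _ _ _ _)).2 fun F hF => (mem_H0.1 hF).1.neg_deg (by omega),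
      finrank_bot]
    exact Nat.zero_le _
  exact (lim_le π _ _ fun _ hG => h.el hπ ht0 ht ha hb hj hG).trans ((t5_split _ _ _ j).trans
    (add_le_add (t5_dim h.tri (by omega) (by omega)) (t5_div h.arms ha hb (j + 1))))

end lim

section ps
variable {k ι : Type} [Field k]

/-- the fold with constant data: Q is the limit configuration -/
theorem t5ps {Q : ι → Fin 4 → k} {e : Fin 3 → ι} {a b : Fin 2 → ι} (he : Function.Injective e)
    (h : Arms Q a b) {ξ y : Fin 3 → k} {α β γ : k} (h' : Tri ξ y α β γ)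
    (hQ : ∀ i, Q (e i) = ![0, 1, y i, 1]) :
    ∃ P : ι → Fin 4 → PowerSeries k, T5 PowerSeries.constantCoeff PowerSeries.X P e a b
      (fun i => PowerSeries.C (ξ i)) (fun i => PowerSeries.C (y i)) α β γ ∧
      (fun l i => PowerSeries.constantCoeff (P l i)) = Q ∧
      ∀ l, (∀ i, e i ≠ l) → P l = fun i => PowerSeries.C (Q l i) := by
  let P : ι → Fin 4 → PowerSeries k := Function.extend e
    (fun i => ![PowerSeries.X * PowerSeries.C (ξ i), 1, PowerSeries.C (y i), 1])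
    fun l i => PowerSeries.C (Q l i)
  have h1 : ∀ l, (∀ i, e i ≠ l) → P l = fun i => PowerSeries.C (Q l i) := fun l hl =>
    Function.extend_apply' _ _ _ fun ⟨i, hi⟩ => hl i hi
  have h2 : (fun l i => PowerSeries.constantCoeff (P l i)) = Q := by
    funext l s
    by_cases c : ∃ i, e i = l
    · obtain ⟨i, rfl⟩ := c
      rw [show P (e i) = _ from he.extend_apply _ _ i, hQ]
      fin_cases s <;> simp
    · rw [h1 l fun i hi => c ⟨i, hi⟩]
      simp
  refine ⟨P, ⟨h2 ▸ h, by simpa using h', fun i => he.extend_apply _ _ i, fun s => ?_,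
    fun s => ?_⟩, h2, h1⟩
  · rw [h1 _ fun i hi => h.a0 s (by rw [← hi, hQ]; rfl)]
    simp [h.a2]
  · rw [h1 _ fun i hi => h.b0 s (by rw [← hi, hQ]; rfl)]
    simp [h.b3]

/-- both bounds for one configuration over the field of Laurent series -/
theorem t5_bounds {Q : ι → Fin 4 → k} {e : Fin 3 → ι} {a b : Fin 2 → ι}
    (he : Function.Injective e) (h : Arms Q a b) {ξ y : Fin 3 → k} {α β γ : k}
    (h' : Tri ξ y α β γ) (hQ : ∀ i, Q (e i) = ![0, 1, y i, 1]) :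
    ∃ P : ι → Fin 4 → FractionRing (PowerSeries k), (∀ l, Pt (P l)) ∧
      ∀ (p q : ℤ) (m : ι → ℤ) (j : ℕ), p ≤ m (a 0) + m (a 1) → p ≤ m (b 0) + m (b 1) →
        q + j ≤ m (e 0) + m (e 1) + m (e 2) →
        finrank (FractionRing (PowerSeries k)) (H0 p q P m) ≤
          finrank k (H0 (p - j) (q - 2 * ((j + 1) / 2 : ℕ)) Q (red j Q m)) ∧
        finrank (FractionRing (PowerSeries k)) (H0 p q P m) ≤ j / 2 + 1 +
          finrank k (H0 (p - (j + 1 : ℕ)) (q - 2 * ((j + 1 + 1) / 2 : ℕ)) Q (red (j + 1) Q m)) := by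
  obtain ⟨P, h1, h2, -⟩ := t5ps he h h' hQ
  have hπ : ∀ x : PowerSeries k, PowerSeries.constantCoeff x ≠ 0 → IsUnit x := fun _ h =>
    PowerSeries.isUnit_iff_constantCoeff.2 (Ne.isUnit h)
  have hi := IsFractionRing.injective (PowerSeries k) (FractionRing (PowerSeries k))
  have key : ∀ x : PowerSeries k, PowerSeries.constantCoeff x ≠ 0 →
      algebraMap _ (FractionRing (PowerSeries k)) x ≠ 0 := fun x hx e =>
    hx (by rw [hi (e.trans (map_zero _).symm), map_zero])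
  refine ⟨fun l i => algebraMap _ _ (P l i), fun l => ⟨(h1.arms.pt l).1.imp (key _) (key _),
    (h1.arms.pt l).2.imp (key _) (key _)⟩, fun p q m j ha hb hj => ?_⟩
  subst h2
  exact ⟨t5a hπ PowerSeries.X_ne_zero PowerSeries.constantCoeff_X h1 ha hb hj,
    t5b hπ PowerSeries.X_ne_zero PowerSeries.constantCoeff_X h1 ha hb hj⟩

/-- a curve through any three points with different non zero y coordinates -/
theorem tri_of {y : Fin 3 → k} (h0 : ∀ i, y i ≠ 0) (h : ∀ i j, i ≠ j → y i ≠ y j) {α γ : k}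
    (hα : α ≠ 0) (hγ : γ ≠ 0) (β : k) : Tri (fun i => α * y i + β + γ / y i) y α β γ :=
  ⟨h0, h, fun i => by have := h0 i; field_simp, hα, hγ⟩

end ps

end Pool.Agent.Lib.MP_d03834_ag.Core
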