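import Pool.Agent.Lib.MP_d03834_ag.Core.TenB0
import Pool.Agent.Lib.MP_d03834_ag.Core.BiT5
import Pool.Agent.Lib.MP_d03834_ag.Core.ShStart
import Pool.Agent.Lib.MP_d03834_ag.Core.BiEnd

/-! Ten general points, four of the same multiplicity: the theorem. -/

set_option autoImplicit false

namespace Pool.Agent.Lib.MP_d03834_ag.Core

open Module

variable {K : Type} [Field K]

/-- the fibre frame with affine heights -/
def fbQ (z : Fin 5 → K) (a b : Fin 2 → K) (la mu : K) : Ix → Fin 4 → K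
  | .inl i => ![![0, 0, 0, 1, 1] i, ![1, 1, 1, 0, 1] i, (la + mu * z i)⁻¹, 1]
  | .inr s => fbP z a b la mu (.inr s)

theorem fbP_fold {z : Fin 5 → K} {a b : Fin 2 → K} {la mu : K} (hm : mu ≠ 0)
    (hz : ∀ i j, i ≠ j → z i ≠ z j) (hv : ∀ i, la + mu * z i ≠ 0) (ha : la + mu * a 0 ≠ 0)
    (hb : la + mu * b 1 ≠ 0) (h1 : a 1 ≠ b 0) (h2 : b 1 ≠ a 0) :
    ∃ P : Ix → Fin 4 → FractionRing (PowerSeries K), (∀ l, Pt (P l)) ∧
      Fold (fbP z a b la mu) P := by
  have h34 := hz 3 4 (by decide)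
  have k1 := sub_ne_zero.2 h34
  have k2 := sub_ne_zero.2 h34.symm
  have hP := fbP_pt h34 ha hb
  have hA : Arms (fbQ z a b la mu) ![.inr (.inr 0), .inr (.inl 1)]
      ![.inr (.inl 0), .inr (.inr 1)] := by
    refine ⟨?_, fun s => ?_, fun s => ?_, fun s => ?_, fun s => ?_, ?_, ?_⟩
    · rintro (i | s)
      · exact ⟨(hP (.inl i)).1, Or.inr one_ne_zero⟩
      · exact hP _
    · fin_cases s <;> rfl
    · fin_cases s <;> rfl
    · fin_cases s <;> exact k2
    · fin_cases s
      exacts [mul_ne_zero k1 ha, mul_ne_zero k1 hb]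
    · have e : dx (fbA z (b 0)) (fbA z (a 1)) = (z 4 - z 3) * (a 1 - b 0) := by
        simp only [fbA, dx, Matrix.cons_val_zero, Matrix.cons_val_one]
        ring
      exact e ▸ mul_ne_zero k2 (sub_ne_zero.2 h1)
    · have e : dx (fbB z la mu (a 0)) (fbB z la mu (b 1)) =
          (z 4 - z 3) * (la + mu * z 3) * (la + mu * z 4) * (b 1 - a 0) := by
        simp only [fbB, dx, Matrix.cons_val_zero, Matrix.cons_val_one]
        ring
      exact e ▸ mul_ne_zero (mul_ne_zero (mul_ne_zero k2 (hv 3)) (hv 4)) (sub_ne_zero.2 h2)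
  obtain ⟨P, p1, p2⟩ := t5_bounds (e := ![.inl 0, .inl 1, .inl 2]) (by decide) hA
    (tri_of (y := fun i => (la + mu * z (![0, 1, 2] i))⁻¹) (fun _ => inv_ne_zero (hv _))
      (fun i j hij e => hz _ _ ((by decide : Function.Injective (![0, 1, 2] : Fin 3 → Fin 5)).ne hij)
        (mul_left_cancel₀ hm (add_left_cancel (inv_injective e)))) one_ne_zero one_ne_zero 0)
    (fun i => by fin_cases i <;> rfl)
  have key : ∀ (p q : ℤ) (m : Ix → ℤ) (j : ℕ),
      finrank K (H0 p q (fbQ z a b la mu) (red j (fbQ z a b la mu) m)) ≤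
        finrank K (H0 p q (fbP z a b la mu) (tenR j m)) := fun p q m j => by
    refine Submodule.finrank_mono (H0_le fun l => Or.inr ⟨l, le_of_eq ?_, hP l, ?_, ?_⟩)
    · revert l
      refine ix_all ?_ ?_ ?_ ?_ ?_ ?_ ?_ ?_ ?_ <;>
        simp [red, tenR, fbQ, fbP, fbA, fbB, k1, k2, hv, ha, hb]
    · rcases l with i | s
      exacts [dx_self (fbP z a b la mu (.inl i)), dx_self _]
    · rcases l with i | s
      · simp [dy, fbQ, fbP, hv]
      · exact dy_self _
  refine ⟨P, p1, fun p q m n a1 a2 a3 => ?_⟩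
  obtain ⟨b0, b1⟩ := p2 p q m n a1 a2 a3
  exact ⟨b0.trans (key _ _ _ _), b1.trans (Nat.add_le_add_left (key _ _ _ _) _)⟩

theorem Rex.fold {O k : Type} [CommRing O] [IsDomain O] [Field k] [Algebra O K]
    {A : Arc O k} {c : Cfg O k} {la mu : O} (h : Rex A c la mu)
    (hi : Function.Injective (algebraMap O K)) :
    ∃ P : Ix → Fin 4 → FractionRing (PowerSeries K), (∀ l, Pt (P l)) ∧
      Fold (c.fb A K la mu) P := by
  have n : ∀ x y : O, x ≠ y → algebraMap O K (A.t * x) ≠ algebraMap O K (A.t * y) :=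
    fun x y hxy => hi.ne fun e => hxy (mul_left_cancel₀ A.t0 e)
  exact fbP_fold ((map_ne_zero_iff _ hi).2 h.mu0) (fun i j hij => hi.ne (h.zz i j hij))
    (fun _ => h.lin hi _) (h.lin hi _) (h.lin hi _) (n _ _ h.ab) (n _ _ h.ba')

/-- all bounds for ten general points, four of the same multiplicity -/
theorem pz : PZ := by
  obtain ⟨c, la, mu, h, -, kp⟩ := kp0 (A := Arc.ps (RatFunc ℂ)) (σ := PowerSeries.C)
    (K := FractionRing (PowerSeries (RatFunc ℂ))) (IsFractionRing.injective _ _)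
    (fun x => PowerSeries.constantCoeff_C x) ((Polynomial.idealX ℂ).valuation (RatFunc ℂ))
    RatFunc.X_ne_zero (by
      rw [Polynomial.valuation_X_eq_neg_one, ← WithZero.exp_zero, WithZero.exp_lt_exp]
      norm_num)
  obtain ⟨P, h1, h2⟩ := h.fold (K := FractionRing (PowerSeries (RatFunc ℂ)))
    (IsFractionRing.injective _ _)
  exact pz_of h (IsFractionRing.injective _ _) h1 h2 fun ε u hε hu h0 =>
    kp ε (by omega) (fun c u a1 a2 a3 => end_count _ c a1 a2 a3 hε) u hu h0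

theorem pu : PU := pz.pu
theorem ps : PS := pz.ps
theorem px : PX := pz.px
theorem pe : PE := pz.pe

end Pool.Agent.Lib.MP_d03834_ag.Core
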