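import Pool.Agent.Lib.MP_d03834_ag.Core.N10
import Pool.Agent.Lib.MP_d03834_ag.Core.N10St
import Pool.Agent.Lib.MP_d03834_ag.Core.Down10
import Pool.Agent.Lib.MP_d03834_ag.Core.TenB

/-! Ten points of the same multiplicity. -/

set_option autoImplicit false

namespace Pool.Agent.Lib.MP_d03834_ag.Core

open Module

theorem KB10.of_le {y : ℤ} {x : ℕ} (h : x ≤ (1 + y / 2).toNat) : KB10 y x :=
  ⟨fun _ => by omega, fun _ => by omega⟩

theorem kS_n10 (e k i j l : ℤ) : kS (n10 e k) i j l = nb10 e k i j l := by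
  funext q
  revert q
  refine ix_all ?_ ?_ ?_ ?_ ?_ ?_ ?_ ?_ ?_ <;> simp [kS, n10, nb10] <;> omega

theorem n10_nb (e k : ℤ) : n10 e k = nb10 e k 0 0 0 := by
  funext q
  revert q
  refine ix_all ?_ ?_ ?_ ?_ ?_ ?_ ?_ ?_ ?_ <;> simp [n10, nb10] <;> omega

/-- the three bounds in the form used by the fold -/
theorem Br10.of_le {K : Type} [Field K] {P : Ix → Fin 4 → K} {e κ : ℤ}
    (h : finrank K (H0 (13 * e) (11 * e - κ % 2) P (nb10 e κ 0 0 0)) ≤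
      (1 + (10 * e ^ 2 - κ ^ 2) / 2).toNat ∧
    finrank K (H0 (13 * e - 1) (11 * e - 2 + κ % 2) P (nb10 e κ 1 0 (1 - κ % 2))) ≤
      (1 + (10 * e ^ 2 - κ ^ 2 - 2 * e - 1) / 2).toNat ∧
    finrank K (H0 (13 * e - 1) (11 * e - 3 + κ % 2) P (nb10 e κ 1 1 (1 - κ % 2))) ≤
      (1 + (10 * e ^ 2 - κ ^ 2 - 4 * e - 1) / 2).toNat) : Br10 P e κ := by
  obtain ⟨a, b, c⟩ := h
  rw [Br10, kS_n10, kS_n10, n10_nb,
    show 11 * e - κ % 2 - 2 * (1 - κ % 2) = 11 * e - 2 + κ % 2 by omega,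
    show 11 * e - κ % 2 - 1 - 2 * (1 - κ % 2) = 11 * e - 3 + κ % 2 by omega]
  exact ⟨.of_le a, .of_le b, .of_le c⟩

theorem down10 : Down10 := by
  obtain ⟨y, y0, xg, xa, xb, hN, hT⟩ := S10.tb10g
  exact down10_of hN fun e k h1 h2 _ => .of_le (hT e k (by omega) (by omega))

/-- Ten points. -/
theorem core10 : CoreN 10 := core10_of pz down10

end Pool.Agent.Lib.MP_d03834_ag.Core
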