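import Pool.Agent.Lib.MP_d03834_ag.Core.HarbS

/-! The critical degrees for small multiplicities, ten to fourteen points. -/

set_option autoImplicit false

namespace Pool.Agent.Lib.MP_d03834_ag.Core

open Harb

theorem Harb.sm10 :
    rng 10 316 100 (fun m d => Nat.ble m 4 || Nat.ble (10 * m) (3 * d + 1)) 2 7 = true := by
  decide +kernel

theorem Harb.sm11 :
    rng 11 331 100 (fun m d => Nat.ble m 27 || Nat.ble (10 * m) (3 * d)) 2 68 = true := by
  decide +kernel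

theorem Harb.sm12 :
    rng 12 346 100 (fun m d => Nat.ble m 20 || Nat.ble (7 * m) (2 * d)) 2 33 = true := by
  decide +kernel

theorem Harb.sm13 :
    rng 13 360 100 (fun m d => Nat.ble m 15 || Nat.ble (11 * m) (3 * d + 1)) 2 25 = true := by
  decide +kernel

theorem Harb.sm14 :
    rng 14 374 100 (fun m d => Nat.ble m 70 || Nat.ble (15 * m) (4 * d)) 2 163 = true := by
  decide +kernel

theorem Harb.dbl {n m d : ℕ} (h : (d + 1).choose 2 ≤ n * (m + 1).choose 2) :
    d * (d + 1) ≤ n * (m * (m + 1)) := by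
  rw [← two_choose, ← two_choose, mul_left_comm]
  omega

theorem smH10 {m d : ℕ} (hm : 2 ≤ m) (h : m ≤ 4 ∨ 10 * m ≤ 3 * d + 1)
    (h1 : (d + 1).choose 2 ≤ 10 * (m + 1).choose 2)
    (h2 : 10 * (m + 1).choose 2 < (d + 3).choose 2) :
    Hle d (fun _ : Fin 10 => m) ((d + 2).choose 2 - 10 * (m + 1).choose 2) := by
  refine rng_sound sm10 hm ?_ (by simpa using h) h1 h2
  rcases h with h | h
  · omega
  · have := dbl h1
    by_contra hn
    obtain ⟨x, rfl⟩ : ∃ x, m = x + 9 := ⟨m - 9, by omega⟩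
    have : (10 * x + 89) * (10 * x + 92) ≤ (3 * d) * (3 * d + 3) :=
      Nat.mul_le_mul (by omega) (by omega)
    nlinarith

theorem smH11 {m d : ℕ} (hm : 2 ≤ m) (h : m ≤ 27 ∨ 10 * m ≤ 3 * d)
    (h1 : (d + 1).choose 2 ≤ 11 * (m + 1).choose 2)
    (h2 : 11 * (m + 1).choose 2 < (d + 3).choose 2) :
    Hle d (fun _ : Fin 11 => m) ((d + 2).choose 2 - 11 * (m + 1).choose 2) := by
  refine rng_sound sm11 hm ?_ (by simpa using h) h1 h2
  rcases h with h | h
  · omega
  · have := dbl h1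
    by_contra hn
    obtain ⟨x, rfl⟩ : ∃ x, m = x + 70 := ⟨m - 70, by omega⟩
    have : (10 * x + 700) * (10 * x + 703) ≤ (3 * d) * (3 * d + 3) :=
      Nat.mul_le_mul (by omega) (by omega)
    nlinarith

theorem smH12 {m d : ℕ} (hm : 2 ≤ m) (h : m ≤ 20 ∨ 7 * m ≤ 2 * d)
    (h1 : (d + 1).choose 2 ≤ 12 * (m + 1).choose 2)
    (h2 : 12 * (m + 1).choose 2 < (d + 3).choose 2) :
    Hle d (fun _ : Fin 12 => m) ((d + 2).choose 2 - 12 * (m + 1).choose 2) := by
  refine rng_sound sm12 hm ?_ (by simpa using h) h1 h2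
  rcases h with h | h
  · omega
  · have := dbl h1
    by_contra hn
    obtain ⟨x, rfl⟩ : ∃ x, m = x + 35 := ⟨m - 35, by omega⟩
    have : (7 * x + 245) * (7 * x + 247) ≤ (2 * d) * (2 * d + 2) :=
      Nat.mul_le_mul (by omega) (by omega)
    nlinarith

theorem smH13 {m d : ℕ} (hm : 2 ≤ m) (h : m ≤ 15 ∨ 11 * m ≤ 3 * d + 1)
    (h1 : (d + 1).choose 2 ≤ 13 * (m + 1).choose 2)
    (h2 : 13 * (m + 1).choose 2 < (d + 3).choose 2) :
    Hle d (fun _ : Fin 13 => m) ((d + 2).choose 2 - 13 * (m + 1).choose 2) := by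
  refine rng_sound sm13 hm ?_ (by simpa using h) h1 h2
  rcases h with h | h
  · omega
  · have := dbl h1
    by_contra hn
    obtain ⟨x, rfl⟩ : ∃ x, m = x + 27 := ⟨m - 27, by omega⟩
    have : (11 * x + 296) * (11 * x + 299) ≤ (3 * d) * (3 * d + 3) :=
      Nat.mul_le_mul (by omega) (by omega)
    nlinarith

theorem smH14 {m d : ℕ} (hm : 2 ≤ m) (h : m ≤ 70 ∨ 15 * m ≤ 4 * d)
    (h1 : (d + 1).choose 2 ≤ 14 * (m + 1).choose 2)
    (h2 : 14 * (m + 1).choose 2 < (d + 3).choose 2) :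
    Hle d (fun _ : Fin 14 => m) ((d + 2).choose 2 - 14 * (m + 1).choose 2) := by
  refine rng_sound sm14 hm ?_ (by simpa using h) h1 h2
  rcases h with h | h
  · omega
  · have := dbl h1
    by_contra hn
    obtain ⟨x, rfl⟩ : ∃ x, m = x + 165 := ⟨m - 165, by omega⟩
    have : (15 * x + 2475) * (15 * x + 2479) ≤ (4 * d) * (4 * d + 4) :=
      Nat.mul_le_mul (by omega) (by omega)
    nlinarith

end Pool.Agent.Lib.MP_d03834_ag.Core
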