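import Pool.Agent.Lib.MP_d03834_ag.Core.N12B
import Pool.Agent.Lib.MP_d03834_ag.Core.SmallH

/-! Twelve points from the statement on the quotient. -/

set_option autoImplicit false

namespace Pool.Agent.Lib.MP_d03834_ag.Core

theorem Down12.core (h : Down12) : CoreN 12 :=
  core12_of h fun _ _ hm e h1 h2 => smH12 hm (.inl (by omega)) h1 h2

end Pool.Agent.Lib.MP_d03834_ag.Core
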