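import Pool.Agent.Lib.MP_d03834_ag.Core.N13A
import Pool.Agent.Lib.MP_d03834_ag.Core.TenB

/-! Thirteen points. -/

set_option autoImplicit false

namespace Pool.Agent.Lib.MP_d03834_ag.Core

/-- the statement for thirteen general points -/
theorem core13 : CoreN 13 := core13_of pu ps

end Pool.Agent.Lib.MP_d03834_ag.Core
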