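import Mathlib

/-! The numerical windows for fifteen points: the even and the odd part after the collision of
four points and the linear involution. -/

set_option autoImplicit false

namespace Pool.Agent.Lib.MP_d03834_ag.Core

/-- the square of the class
(g - m; g/2 - m + g % 2, g/2 - m, (M+1)/2, M/2, (n+1)/2, n/2 | m, m, m, m) -/
def sq15 (g m M n : ℤ) : ℤ :=
  (g - m) ^ 2 - ((g / 2 - m + g % 2) ^ 2 + (g / 2 - m) ^ 2 + ((M + 1) / 2) ^ 2 + (M / 2) ^ 2 +
    ((n + 1) / 2) ^ 2 + (n / 2) ^ 2) - 4 * m ^ 2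

/-- its degree on the canonical class -/
def k15 (g m M n : ℤ) : ℤ := 5 * m + M + n - 2 * g

theorem k15_eq (g m M n : ℤ) : k15 g m M n = (g / 2 - m + g % 2) + (g / 2 - m) + (M + 1) / 2 +
    M / 2 + (n + 1) / 2 + n / 2 + 4 * m - 3 * (g - m) := by
  unfold k15
  omega

theorem half_sq (x : ℤ) : 2 * (((x + 1) / 2) ^ 2 + (x / 2) ^ 2) = x ^ 2 + x % 2 := by
  obtain ⟨a, rfl | rfl⟩ := Int.even_or_odd' x
  · rw [show (2 * a + 1) / 2 = a by omega, show 2 * a / 2 = a by omega,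
      show 2 * a % 2 = 0 by omega]
    ring
  · rw [show (2 * a + 1 + 1) / 2 = a + 1 by omega, show (2 * a + 1) / 2 = a by omega,
      show (2 * a + 1) % 2 = 1 by omega]
    ring

theorem sq15_eq (g m M n : ℤ) : 2 * sq15 g m M n =
    g ^ 2 - 10 * m ^ 2 - M ^ 2 - n ^ 2 - (g % 2 + M % 2 + n % 2) := by
  have h1 := half_sq (g - 2 * m)
  rw [show (g - 2 * m + 1) / 2 = g / 2 - m + g % 2 by omega,
    show (g - 2 * m) / 2 = g / 2 - m by omega, show (g - 2 * m) % 2 = g % 2 by omega] at h1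
  unfold sq15
  linear_combination -h1 - half_sq M - half_sq n

theorem sq_par (x : ℤ) : (x ^ 2 + x % 2) % 4 = 2 * (x % 2) := by
  obtain ⟨a, rfl | rfl⟩ := Int.even_or_odd' x
  · rw [show (2 * a) ^ 2 = 4 * a ^ 2 by ring]
    omega
  · rw [show (2 * a + 1) ^ 2 = 4 * (a ^ 2 + a) + 1 by ring]
    omega

theorem sq15_par (g m M n : ℤ) : (sq15 g m M n - k15 g m M n) % 2 = 0 := by
  have h := sq15_eq g m M n
  have h1 := sq_par g
  have h2 := sq_par m
  have h3 := sq_par M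
  have h4 := sq_par n
  unfold k15
  omega

/-- the number r bounds the part (g, m, M, n) by one of the three forms (E), (U), (X) -/
structure Bd15 (g m M n r : ℤ) : Prop where
  a : 2 * m ≤ g
  n0 : 0 ≤ n
  M0 : n ≤ M
  B : M + n ≤ g
  k : 0 ≤ k15 g m M n
  r0 : 0 ≤ r
  bd : sq15 g m M n < 0 ∨ (0 < sq15 g m M n ∧ 1 + sq15 g m M n / 2 ≤ r) ∨
    (2 * k15 g m M n + 1 < sq15 g m M n ∧ sq15 g m M n - k15 g m M n + 2 ≤ 2 * r)

/-- the best of the three bounds -/
def bd15 (g m M n : ℤ) : ℤ :=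
  if sq15 g m M n < 0 then 0 else if 2 * k15 g m M n + 1 < sq15 g m M n then
    (sq15 g m M n - k15 g m M n) / 2 + 1 else 1 + sq15 g m M n / 2

/-- the multiplicity n is lowered if the class is isotropic -/
def lw15 (g m M n : ℤ) : ℤ := if sq15 g m M n = 0 then n - 1 else n

/-- the window -/
def Ok15 (m d M al : ℤ) : Prop :=
  0 ≤ k15 d m M (lw15 d m M m) ∧ 0 ≤ k15 (d - 1) m (M - 1) (lw15 (d - 1) m (M - 1) (m - 1)) ∧
    bd15 d m M (lw15 d m M m) + bd15 (d - 1) m (M - 1) (lw15 (d - 1) m (M - 1) (m - 1)) ≤ al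

instance (m d M al : ℤ) : Decidable (Ok15 m d M al) := by
  unfold Ok15
  infer_instance

theorem lw15_sq {g m M n : ℤ} (hn : 1 ≤ n) : sq15 g m M (lw15 g m M n) ≠ 0 := by
  unfold lw15
  split_ifs with h
  · have h1 := sq15_eq g m M n
    have h2 := sq15_eq g m M (n - 1)
    rw [show (n - 1) ^ 2 = n ^ 2 - 2 * n + 1 by ring] at h2
    omega
  · exact h

theorem bd15_ok {g m M n : ℤ} (h1 : 2 * m ≤ g) (h2 : 1 ≤ n) (h3 : n ≤ M) (h4 : M + n ≤ g)
    (h5 : 0 ≤ k15 g m M (lw15 g m M n)) :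
    lw15 g m M n ≤ n ∧ Bd15 g m M (lw15 g m M n) (bd15 g m M (lw15 g m M n)) := by
  have h6 := lw15_sq (g := g) (m := m) (M := M) h2
  have h7 : lw15 g m M n ≤ n ∧ n - 1 ≤ lw15 g m M n := by
    unfold lw15
    split_ifs <;> omega
  have h8 := sq15_par g m M (lw15 g m M n)
  refine ⟨h7.1, h1, by omega, by omega, by omega, h5, ?_, ?_⟩ <;> unfold bd15 <;>
    split_ifs <;> omega

theorem ok15_big {m d v : ℤ} (hm : 40 ≤ m) (h1 : 27 * m ≤ 7 * d + 4) (h2 : 8 * d ≤ 31 * m + 12)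
    (hv : 2 * v = d ^ 2 + 3 * d + 2 - 15 * m ^ 2 - 15 * m) :
    Ok15 m d (2 * m) (max v 0 + m) ∧ Ok15 m d (2 * m + 1) (max v 0) := by
  obtain ⟨x, hx, x0, x1⟩ : ∃ x, d % 2 = x ∧ 0 ≤ x ∧ x ≤ 1 := ⟨_, rfl, by omega, by omega⟩
  obtain ⟨y, hy, y0, y1⟩ : ∃ y, m % 2 = y ∧ 0 ≤ y ∧ y ≤ 1 := ⟨_, rfl, by omega, by omega⟩
  have p1 : (2 * m) % 2 = 0 := by omega
  have p2 : (2 * m - 1) % 2 = 1 := by omega
  have p3 : (2 * m + 1) % 2 = 1 := by omega
  have p4 : (2 * m + 1 - 1) % 2 = 0 := by omega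
  have p5 : (m - 1) % 2 = 1 - y := by omega
  have p6 : (m - 1 - 1) % 2 = y := by omega
  have p7 : (d - 1) % 2 = 1 - x := by omega
  have hr : v ≤ max v 0 ∧ 0 ≤ max v 0 := ⟨le_max_left _ _, le_max_right _ _⟩
  generalize max v 0 = r at hr
  constructor
  · have a1 : 2 * sq15 d m (2 * m) m = 2 * v - 3 * d - 2 + 15 * m - x - y := by
      rw [sq15_eq, hx, hy, p1, hv]
      ring
    have a2 : 2 * sq15 d m (2 * m) (m - 1) = 2 * v - 3 * d - 4 + 17 * m - x + y := by
      rw [sq15_eq, hx, p5, p1, hv]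
      ring
    have a3 : 2 * sq15 (d - 1) m (2 * m - 1) (m - 1) = 2 * v - 5 * d - 6 + 21 * m + x + y := by
      rw [sq15_eq, p7, p5, p2, hv]
      ring
    have a4 : 2 * sq15 (d - 1) m (2 * m - 1) (m - 1 - 1) =
        2 * v - 5 * d - 8 + 23 * m + x - y := by
      rw [sq15_eq, p7, p6, p2, hv]
      ring
    clear hv hx hy p1 p2 p3 p4 p5 p6 p7
    unfold Ok15 lw15
    split_ifs <;> unfold bd15 k15 <;> split_ifs <;> omega
  · have b1 : 2 * sq15 d m (2 * m + 1) m = 2 * v - 3 * d - 4 + 11 * m - x - y := by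
      rw [sq15_eq, hx, hy, p3, hv]
      ring
    have b3 : 2 * sq15 (d - 1) m (2 * m + 1 - 1) (m - 1) =
        2 * v - 5 * d - 4 + 17 * m + x + y := by
      rw [sq15_eq, p7, p5, p4, hv]
      ring
    have c1 := sq15_par d m (2 * m + 1) m
    have c3 := sq15_par (d - 1) m (2 * m + 1 - 1) (m - 1)
    clear hv hx hy p1 p2 p3 p4 p5 p6 p7
    unfold Ok15 lw15
    unfold k15 at c1 c3
    rw [if_neg (by omega), if_neg (by omega)]
    clear c1 c3
    unfold bd15 k15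
    split_ifs <;> omega

/-- the two windows for (m, d) -/
def W15 (m d : ℤ) : Prop :=
  d * (d + 1) ≤ 15 * m * (m + 1) → 15 * m * (m + 1) < (d + 2) * (d + 3) →
    Ok15 m d (2 * m) (max (((d + 1) * (d + 2) - 15 * m * (m + 1)) / 2) 0 + m) ∧
    Ok15 m d (2 * m + 1) (max (((d + 1) * (d + 2) - 15 * m * (m + 1)) / 2) 0)

instance (m d : ℤ) : Decidable (W15 m d) := by
  unfold W15
  infer_instance

theorem ok15_small : ∀ m : Fin 40, ∀ e : Fin 7, 2 ≤ m.1 → (m.1, e.1) ≠ (3, 0) →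
    W15 (m.1 : ℤ) (4 * (m.1 : ℤ) - (e.1 : ℤ)) := by
  decide +kernel

theorem w15 {m d : ℤ} (hm : 2 ≤ m) (hd : 0 ≤ d) (e1 : ¬(m = 2 ∧ d = 9)) (e2 : ¬(m = 3 ∧ d = 12)) :
    W15 m d := by
  intro h1 h2
  have l1 : 27 * m ≤ 7 * d + 4 := by
    by_contra h
    have : 7 * (d + 2) ≤ 27 * m + 9 := by omega
    nlinarith
  have l2 : 8 * d ≤ 31 * m + 12 := by
    by_contra h
    have : 31 * m + 13 ≤ 8 * d := by omega
    nlinarith
  rcases le_or_gt 40 m with h | h
  · refine ok15_big h l1 l2 ?_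
    obtain ⟨a, ha⟩ := Int.even_mul_succ_self (d + 1)
    obtain ⟨b, hb⟩ := Int.even_mul_succ_self m
    have e : (d + 1) * (d + 2) - 15 * m * (m + 1) = 2 * (a - 15 * b) := by
      linear_combination ha - 15 * hb
    rw [e, Int.mul_ediv_cancel_left _ two_ne_zero]
    linear_combination -e
  · have l3 : d ≤ 4 * m := by
      by_contra h
      rcases hm.eq_or_lt with rfl | h3
      · have : 10 ≤ d := by omega
        nlinarith
      · have : 4 * m + 1 ≤ d := by omega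
        nlinarith
    have := ok15_small ⟨m.toNat, by omega⟩ ⟨(4 * m - d).toNat, by omega⟩ (by simp only; omega)
      (by simp only [ne_eq, Prod.mk.injEq]; omega)
    simp only at this
    rw [show ((m.toNat : ℕ) : ℤ) = m by omega,
      show 4 * m - (((4 * m - d).toNat : ℕ) : ℤ) = d by omega] at this
    exact this h1 h2

theorem choose_two (n : ℕ) : 2 * ((n + 1).choose 2 : ℤ) = n * (n + 1) := by
  induction n with
  | zero => simp
  | succ n ih =>
    rw [Nat.choose_succ_succ' (n + 1), Nat.choose_one_right]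
    push_cast at ih ⊢
    linear_combination ih

/-- the windows for fifteen points; j = 0 is the system with the point 2m, j = 1 with 2m+1 -/
theorem ar15 {m d : ℕ} (hm : 2 ≤ m) (h1 : (d + 1).choose 2 ≤ 15 * (m + 1).choose 2)
    (h2 : 15 * (m + 1).choose 2 < (d + 3).choose 2) (e1 : (m, d) ≠ (2, 9))
    (e2 : (m, d) ≠ (3, 12)) (j : ℕ) (hj : j ≤ 1) :
    ∃ re ro ne no : ℕ, ne ≤ m ∧ no + 1 ≤ m ∧
      re + ro ≤ (d + 2).choose 2 - 15 * (m + 1).choose 2 + (1 - j) * m ∧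
      Bd15 d m (2 * m + j) ne re ∧ Bd15 (d - 1) m (2 * m + j - 1) no ro := by
  have c1 := choose_two d
  have c2 : 2 * ((d + 2).choose 2 : ℤ) = (d + 1) * (d + 2) := by
    have := choose_two (d + 1)
    push_cast at this
    linear_combination this
  have c3 : 2 * ((d + 3).choose 2 : ℤ) = (d + 2) * (d + 3) := by
    have := choose_two (d + 2)
    push_cast at this
    linear_combination this
  have c4 : 2 * (15 * ((m + 1).choose 2 : ℤ)) = 15 * m * (m + 1) := by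
    linear_combination 15 * choose_two m
  have g1 : (d : ℤ) * (d + 1) ≤ 15 * m * (m + 1) := by omega
  have g2 : 15 * (m : ℤ) * (m + 1) < (d + 2) * (d + 3) := by omega
  have hw := w15 (m := m) (d := d) (by omega) (by omega)
    (fun h => e1 (Prod.ext (by omega) (by omega))) (fun h => e2 (Prod.ext (by omega) (by omega)))
    g1 g2
  have g3 : 3 * m + 1 ≤ d := by
    by_contra h
    have : (d : ℤ) ≤ 3 * m := by omega
    have : (2 : ℤ) ≤ m := by omega
    nlinarith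
  rw [← c4, ← c2] at hw
  have hw' : Ok15 m d (2 * m + j)
      (((d + 2).choose 2 - 15 * (m + 1).choose 2 + (1 - j) * m : ℕ) : ℤ) := by
    obtain rfl | rfl : j = 0 ∨ j = 1 := by omega
    · convert hw.1 using 1 <;> omega
    · convert hw.2 using 1 <;> omega
  obtain ⟨k1, k2, k3⟩ := hw'
  obtain ⟨a1, a2⟩ := bd15_ok (by omega) (by omega) (by omega) (by omega) k1
  obtain ⟨b1, b2⟩ := bd15_ok (by omega) (by omega) (by omega) (by omega) k2
  have := a2.n0
  have := a2.r0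
  have := b2.n0
  have := b2.r0
  refine ⟨(bd15 d m (2 * m + j) (lw15 d m (2 * m + j) m)).toNat,
    (bd15 (d - 1) m (2 * m + j - 1) (lw15 (d - 1) m (2 * m + j - 1) (m - 1))).toNat,
    (lw15 d m (2 * m + j) m).toNat, (lw15 (d - 1) m (2 * m + j - 1) (m - 1)).toNat,
    by omega, by omega, by omega, ?_, ?_⟩ <;>
    rwa [Int.toNat_of_nonneg ‹_›, Int.toNat_of_nonneg ‹_›]

end Pool.Agent.Lib.MP_d03834_ag.Core
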