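import Pool.Agent.Lib.MP_d03834_ag.Core.Crem
import Pool.Agent.Lib.MP_d03834_ag.Core.T4

/-! A computable upper bound for plane curves through general points: quadratic maps, raising
of the largest multiplicity, simple points. -/

set_option autoImplicit false

namespace Pool.Agent.Lib.MP_d03834_ag.Core

open MvPolynomial Module Nag

variable {ι : Type}

theorem Sp_up {K : Type} [Field K] {d : ℕ} {v : ι → Fin 3 → K} {μ ν : ι → ℕ} (q : ι)
    (hq : v q = Pi.single 2 1) (h1 : ν q ≤ μ q + 1) (h2 : ∀ x, x ≠ q → ν x ≤ μ x) :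
    finrank K (Sp d v μ) ≤ finrank K (Sp d v ν) + (μ q + 1) := by
  classical
  let e : Fin (μ q + 1) → Fin 3 →₀ ℕ := fun j =>
    Finsupp.equivFunOnFinite.symm ![j, μ q - j, d - μ q]
  let φ : Sp d v μ →ₗ[K] Fin (μ q + 1) → K :=
    (LinearMap.pi fun j => lcoeff K (e j)).comp (Sp d v μ).subtype
  have a1 := LinearMap.finrank_range_add_finrank_ker φ
  have a2 : finrank K (LinearMap.range φ) ≤ μ q + 1 := by
    have := Submodule.finrank_le (LinearMap.range φ)
    rwa [Module.finrank_fintype_fun_eq_card, Fintype.card_fin] at this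
  have a3' : finrank K (LinearMap.ker φ) ≤ finrank K (Sp d v ν) := by
    rw [← Submodule.finrank_map_subtype_eq]
    refine Submodule.finrank_mono ?_
    rintro _ ⟨⟨F, hF⟩, h0, rfl⟩
    obtain ⟨b1, b2⟩ := mem_Sp.1 hF
    refine mem_Sp.2 ⟨b1, fun x => ?_⟩
    by_cases hx : x = q
    · subst hx
      refine Ideal.pow_le_pow_right h1 ?_
      have b3 := b2 x
      rw [hq] at b3 ⊢
      refine (vert_iff 2 b1).2 fun s hs => ?_
      have b4 := (vert_iff 2 b1).1 b3 s hs
      have b5 := deg3 b1 hs
      by_contra hn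
      refine mem_support_iff.1 hs ?_
      have b6 : s = e ⟨s 0, by omega⟩ := by
        ext i
        fin_cases i <;> simp [e] <;> omega
      rw [b6]
      exact congrFun (LinearMap.mem_ker.1 h0) _
    · exact Ideal.pow_le_pow_right (h2 x hx) (b2 x)
  omega

/-- raising one multiplicity -/
theorem Hle.up [Fintype ι] {d r : ℕ} {μ ν : ι → ℕ} (q : ι) (h1 : ν q ≤ μ q + 1)
    (h2 : ∀ x, x ≠ q → ν x ≤ μ x) (h : Hle d ν r) : Hle d μ (r + (μ q + 1)) := by
  obtain ⟨p, hp⟩ := h.gn.ex
  refine hle_of (fun x => hv (p x + -p q)) (fun _ => hv_ne_zero _) ((Sp_up q ?_ h1 h2).trans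
    (Nat.add_le_add_right ((Sp_shift d p ν _).trans hp) _))
  funext i
  fin_cases i <;> simp [hv]

/-- simple points -/
theorem Hle.drop [Fintype ι] {d r : ℕ} {μ ν : ι → ℕ} (q : ι) (h1 : 1 ≤ μ q) (h0 : ν q = 0)
    (h2 : ∀ x, x ≠ q → ν x ≤ μ x) (h : Hle d ν (r + 1)) : Hle d μ r := by
  classical
  obtain ⟨p, hp⟩ := h.gn.ex
  obtain ⟨s, hs⟩ := simple3 d (r + 1) _ inf_le_left hp
  refine hle_of (fun x => hv (Function.update p q (s 0) x)) (fun _ => hv_ne_zero _)
    (rk_simple r _ (fun j => hv (s j.succ)) fun F hF hz => hs F ?_ fun j => ?_)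
  · refine mem_Sp.2 ⟨(mem_Sp.1 hF).1, fun x => ?_⟩
    by_cases hx : x = q
    · subst hx
      rw [h0, pow_zero, Ideal.one_eq_top]
      trivial
    · have := (mem_Sp.1 hF).2 x
      rw [Function.update_of_ne hx] at this
      exact Ideal.pow_le_pow_right (h2 x hx) this
  · refine Fin.cases ?_ hz j
    have := Ideal.pow_le_pow_right h1 ((mem_Sp.1 hF).2 q)
    rwa [Function.update_self, pow_one] at this

/-- multiplicities from a list -/
def lm (n : ℕ) (l : List ℤ) : Fin n → ℕ := fun i => (l.getD i 0).toNat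

/-- position of a largest entry outside the positions a and b -/
def amx (l : List ℤ) (a b n : ℕ) : ℕ :=
  (List.range n).foldl (fun k i => if i ≠ a ∧ i ≠ b ∧ l.getD k 0 < l.getD i 0 then i else k)
    (if a = 0 ∨ b = 0 then (if a = 1 ∨ b = 1 then 2 else 1) else 0)

/-- the bound holds if the procedure accepts -/
def bnd (n : ℕ) : ℕ → ℕ → List ℤ → ℕ → Bool
  | 0, _, _, _ => false
  | f + 1, d, l, r =>
    let a := amx l n n n
    let b := amx l a n n
    let c := amx l a b n
    let x := l.getD a 0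
    let y := l.getD b 0
    let z := l.getD c 0
    decide (a < n ∧ b < n ∧ c < n ∧ a ≠ b ∧ a ≠ c ∧ b ≠ c ∧ l.length = n) &&
    if 2 * (d : ℤ) < x + y + z then true
    else if (d : ℤ) < x + y + z then
      bnd n f (2 * d - (x + y + z)).toNat
        (((l.set a (max 0 (d - y - z))).set b (max 0 (d - x - z))).set c (max 0 (d - x - y))) r
    else if y = 1 then bnd n f d (l.set b 0) (r + 1)
    else decide (0 ≤ x ∧ x.toNat + 1 ≤ r) && bnd n f d (l.set a (x + 1)) (r - (x.toNat + 1))

theorem getD_set (l : List ℤ) (a i : ℕ) (x : ℤ) (h : a < l.length) :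
    (l.set a x).getD i 0 = if a = i then x else l.getD i 0 := by
  simp only [List.getD_eq_getElem?_getD, List.getElem?_set]
  split_ifs <;> simp

theorem bnd_sound (n f d : ℕ) (l : List ℤ) (r : ℕ) (h : bnd n f d l r = true) :
    Hle d (lm n l) r := by
  induction f generalizing d l r with
  | zero => simp [bnd] at h
  | succ f ih =>
    simp only [bnd, Bool.and_eq_true, decide_eq_true_eq] at h
    obtain ⟨⟨ha, hb, hc, ab, ac, bc, hl⟩, h⟩ := h
    generalize amx l n n n = a at *
    generalize amx l a n n = b at *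
    generalize amx l a b n = c at *
    have hi : Function.Injective (![⟨a, ha⟩, ⟨b, hb⟩, ⟨c, hc⟩] : Fin 3 → Fin n) := by
      intro i j
      fin_cases i <;> fin_cases j <;> simp [ab, ac, bc, ab.symm, ac.symm, bc.symm]
    split_ifs at h with c1 c2 c3
    · exact Hle.crem_neg (μ := fun i : Fin n => l.getD i 0) hi c1
    · refine Hle.crem (μ := fun i : Fin n => l.getD i 0) hi ?_ ?_ ?_ ((ih _ _ _ h).mono id
        Function.injective_id (ν := fun i : Fin n => (if (i : ℕ) = a then d - l.getD b 0 - l.getD c 0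
          else if (i : ℕ) = b then d - l.getD a 0 - l.getD c 0 else if (i : ℕ) = c then
          d - l.getD a 0 - l.getD b 0 else l.getD i 0).toNat) (fun i => ?_) le_rfl)
      · exact Eq.trans (Int.toNat_of_nonneg (by omega)) rfl
      · intro i
        fin_cases i <;> simp [ab.symm, ac.symm, bc.symm] <;> omega
      · intro q hq
        have n1 : (q : ℕ) ≠ a := fun e => hq ⟨0, Fin.ext e.symm⟩
        have n2 : (q : ℕ) ≠ b := fun e => hq ⟨1, Fin.ext e.symm⟩
        have n3 : (q : ℕ) ≠ c := fun e => hq ⟨2, Fin.ext e.symm⟩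
        simp [n1, n2, n3]
      · simp only [lm, id]
        rw [getD_set _ _ _ _ (by simp; omega), getD_set _ _ _ _ (by simp; omega),
          getD_set _ _ _ _ (by omega)]
        split_ifs <;> omega
    · refine (ih _ _ _ h).drop ⟨b, hb⟩ (by simp only [lm]; omega) ?_ fun x hx => ?_
      · simp only [lm]
        rw [getD_set _ _ _ _ (by omega), if_pos rfl]
        rfl
      · simp only [lm]
        rw [getD_set _ _ _ _ (by omega), if_neg fun e => hx (Fin.ext e.symm)]
    · simp only [Bool.and_eq_true, decide_eq_true_eq] at h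
      refine ((ih _ _ _ h.2).up (μ := lm n l) ⟨a, ha⟩ ?_ fun x hx => ?_).mono id
        Function.injective_id (fun _ => le_rfl) (by simp only [lm]; omega)
      · simp only [lm]
        rw [getD_set _ _ _ _ (by omega), if_pos rfl]
        omega
      · simp only [lm]
        rw [getD_set _ _ _ _ (by omega), if_neg fun e => hx (Fin.ext e.symm)]

/-- the check of one pair for eleven points by the four point lemma -/
def chkB (m d r : ℕ) : Bool :=
  bnd 8 200 d ((2 * m : ℕ) :: List.replicate 7 (m : ℤ)) (r + m) &&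
    bnd 8 200 d ((2 * m + 1 : ℕ) :: List.replicate 7 (m : ℤ)) r

theorem lm_four {d r m M : ℕ} (h : Hle d (lm 8 ((M : ℤ) :: List.replicate 7 (m : ℤ))) r) :
    Hle d (Sum.elim (fun _ : Fin 7 => m) fun _ : Unit => M) r :=
  h.mono (Fin.cases (.inr ()) .inl) (by decide)
    (fun q => by fin_cases q <;> exact (Int.toNat_natCast _).le) le_rfl

theorem chkB_sound {m d r : ℕ} (hm : 0 < m) (h : chkB m d r = true) :
    Hle d (fun _ : Fin 11 => m) r := by
  simp only [chkB, Bool.and_eq_true] at h
  exact Hle.four_unif (n := 7) hm (lm_four (bnd_sound _ _ _ _ _ h.1))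
    (lm_four (bnd_sound _ _ _ _ _ h.2))

/-- all critical pairs for eleven points with m < 16 or 10 m ≤ 3 d -/
def chkAll (M : ℕ) : Bool := (List.range M).all fun m => (List.range (m + 4)).all fun j =>
  let d := 3 * m + j
  !decide (2 ≤ m ∧ (d + 1) * d ≤ 11 * ((m + 1) * m) ∧ 11 * ((m + 1) * m) < (d + 3) * (d + 2) ∧
    (m < 16 ∨ 10 * m ≤ 3 * d)) || chkB m d (((d + 2) * (d + 1) - 11 * ((m + 1) * m)) / 2)

theorem chkAll_true : chkAll 72 = true := by decide +kernel

theorem two_ch (a : ℕ) : 2 * (a + 1).choose 2 = (a + 1) * a := by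
  rw [Nat.choose_two_right, Nat.add_sub_cancel, Nat.mul_div_cancel' (by
    rw [mul_comm]; exact (Nat.even_mul_succ_self a).two_dvd)]

/-- eleven points, small multiplicity or large degree -/
theorem core11_B (m d : ℕ) (hm : 2 ≤ m) (h1 : (d + 1).choose 2 ≤ 11 * (m + 1).choose 2)
    (h2 : 11 * (m + 1).choose 2 < (d + 3).choose 2) (h3 : m < 16 ∨ 10 * m ≤ 3 * d) :
    Hle d (fun _ : Fin 11 => m) ((d + 2).choose 2 - 11 * (m + 1).choose 2) := by
  have a0 := two_ch m
  have a1 := two_ch d
  have a2 : 2 * (d + 2).choose 2 = (d + 2) * (d + 1) := two_ch (d + 1)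
  have a3 : 2 * (d + 3).choose 2 = (d + 3) * (d + 2) := two_ch (d + 2)
  have b1 : (d + 1) * d ≤ 11 * ((m + 1) * m) := by omega
  have b2 : 11 * ((m + 1) * m) < (d + 3) * (d + 2) := by omega
  have c1 : 3 * m ≤ d := by
    by_contra hn
    nlinarith
  have c2 : d < 4 * m + 4 := by
    by_contra hn
    nlinarith
  have c3 : m < 72 := by
    by_contra hn
    have : 10 * m ≤ 3 * d := by omega
    nlinarith
  obtain ⟨j, rfl⟩ := Nat.exists_eq_add_of_le c1
  have := List.all_eq_true.1 (List.all_eq_true.1 chkAll_true m (List.mem_range.2 c3)) j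
    (List.mem_range.2 (by omega))
  simp only [Bool.or_eq_true, Bool.not_eq_true', decide_eq_false_iff_not] at this
  have h := chkB_sound (by omega) (this.resolve_left (not_not.2 ⟨hm, b1, b2, h3⟩))
  exact h.mono id Function.injective_id (fun _ => le_rfl) (by omega)

end Pool.Agent.Lib.MP_d03834_ag.Core
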