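import Pool.Agent.Lib.MP_d03834_ag.Core.Top

/-! The quadratic transformation. -/

set_option autoImplicit false

namespace Pool.Agent.Lib.MP_d03834_ag.Core

open MvPolynomial Module Nag

variable {K : Type} [Field K] {ι : Type}

/-- the standard quadratic substitution -/
noncomputable def sig : P3 K →ₐ[K] P3 K := aeval ![X 1 * X 2, X 0 * X 2, X 0 * X 1]

/-- the standard quadratic map -/
def sg (w : Fin 3 → K) : Fin 3 → K := ![w 1 * w 2, w 0 * w 2, w 0 * w 1]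

theorem sig_X (w : Fin 3 → K) (i : Fin 3) : eval w (sig (X i : P3 K)) = sg w i := by
  fin_cases i <;> simp [sig, sg]

theorem deg3 {d : ℕ} {F : P3 K} (hF : F.IsHomogeneous d) {ν : Fin 3 →₀ ℕ} (h : ν ∈ F.support) :
    ν 0 + ν 1 + ν 2 = d := by
  have h1 : ν.degree = d := by
    by_contra hn
    exact mem_support_iff.1 h (hF.coeff_eq_zero hn)
  rwa [Finsupp.degree_eq_sum, Fin.sum_univ_three] at h1

theorem mon3 (ν : Fin 3 →₀ ℕ) (c : K) :
    (monomial ν c : P3 K) = C c * (X 0 ^ ν 0 * X 1 ^ ν 1 * X 2 ^ ν 2) := by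
  rw [monomial_eq, Finsupp.prod_fintype _ _ fun _ => pow_zero _, Fin.prod_univ_three]

/-- multiplicity at a vertex of the coordinate triangle -/
theorem vert_iff (i : Fin 3) {d m : ℕ} {F : P3 K} (hF : F.IsHomogeneous d) :
    F ∈ a3 (Pi.single i 1) ^ m ↔ ∀ ν ∈ F.support, ν i + m ≤ d := by
  classical
  constructor
  · intro h ν hν
    let ψ : P3 K →ₐ[K] P3 K := aeval fun j => if j = i then 1 else X j
    have h1 : (a3 (Pi.single i (1 : K))).map ψ ≤ idealOfVars (Fin 3) K := by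
      rw [Ideal.map_le_iff_le_comap]
      intro G hG
      rw [Ideal.mem_comap, ← pow_one (idealOfVars (Fin 3) K), mem_pow_idealOfVars_iff']
      intro μ hμ
      have : μ = 0 := (Finsupp.degree_eq_zero_iff μ).1 (by omega)
      rw [this, ← constantCoeff_eq, ← eval_zero, eval_aeval3]
      refine Eq.trans ?_ hG
      congr 2
      funext j
      by_cases e : j = i <;> simp [ψ, e]
    have h2 := Ideal.mem_map_of_mem ψ h
    rw [Ideal.map_pow] at h2
    have h3 := (mem_pow_idealOfVars_iff' _ _).1 (Ideal.pow_right_mono h1 m h2)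
    have h4 : ∀ (μ : Fin 3 →₀ ℕ) (c : K), ψ (monomial μ c) = monomial (μ.erase i) c := by
      intro μ c
      rw [mon3, mon3]
      fin_cases i <;> simp [ψ]
    have h5 := deg3 hF hν
    by_contra hn
    have h6 := h3 (ν.erase i) (by
      rw [Finsupp.degree_eq_sum, Fin.sum_univ_three]
      fin_cases i <;> simp at hn ⊢ <;> omega)
    rw [F.as_sum, map_sum, coeff_sum, Finset.sum_eq_single ν, h4, coeff_monomial, if_pos rfl] at h6
    · exact mem_support_iff.1 hν h6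
    · intro μ hμ hne
      rw [h4, coeff_monomial, if_neg]
      intro e
      have h7 := deg3 hF hμ
      have e0 := DFunLike.congr_fun e 0
      have e1 := DFunLike.congr_fun e 1
      have e2 := DFunLike.congr_fun e 2
      refine hne (Finsupp.ext fun j => ?_)
      fin_cases i <;> simp at e0 e1 e2 <;> fin_cases j <;> simp <;> omega
    · exact fun h => (h hν).elim
  · intro h
    rw [F.as_sum]
    refine Ideal.sum_mem _ fun ν hν => ?_
    have h1 := deg3 hF hν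
    have h2 := h ν hν
    have hX : ∀ j, j ≠ i → ∀ k, (X j ^ k : P3 K) ∈ a3 (Pi.single i 1) ^ k := fun j hj k =>
      Ideal.pow_mem_pow (by simp [a3, RingHom.mem_ker, hj]) k
    have hm : ∀ {a b : ℕ} {f g : P3 K}, m ≤ a + b → f ∈ a3 (Pi.single i 1) ^ a →
        g ∈ a3 (Pi.single i 1) ^ b → f * g ∈ a3 (Pi.single i (1 : K)) ^ m := fun h hf hg =>
      Ideal.pow_le_pow_right h (by rw [pow_add]; exact Ideal.mul_mem_mul hf hg)
    rw [mon3]
    refine Ideal.mul_mem_left _ _ ?_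
    fin_cases i
    · rw [mul_assoc]
      exact Ideal.mul_mem_left _ _ (hm (by simp at h2; omega) (hX 1 (by decide) _)
        (hX 2 (by decide) _))
    · rw [mul_right_comm]
      exact Ideal.mul_mem_right _ _ (hm (by simp at h2; omega) (hX 0 (by decide) _)
        (hX 2 (by decide) _))
    · exact Ideal.mul_mem_right _ _ (hm (by simp at h2; omega) (hX 0 (by decide) _)
        (hX 1 (by decide) _))

theorem sig_inj {d : ℕ} {F : P3 K} (hF : F.IsHomogeneous d) (h : sig F = 0) : F = 0 := by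
  have e : (sig : P3 K →ₐ[K] P3 K).comp sig = aeval fun i => (X 0 * X 1 * X 2) * X i := by
    refine algHom_ext fun i => ?_
    fin_cases i <;> simp [sig] <;> ring
  have h1 := DFunLike.congr_fun e F
  rw [AlgHom.comp_apply, h, map_zero, scale_hom hF] at h1
  exact (mul_eq_zero.1 h1.symm).resolve_left
    (pow_ne_zero _ (mul_ne_zero (mul_ne_zero (X_ne_zero _) (X_ne_zero _)) (X_ne_zero _)))

/-- the transform of a form with integer multiplicities at the three vertices -/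
theorem crem_ex (d : ℕ) (m : Fin 3 → ℤ) : ∃ T : P3 K →ₗ[K] P3 K, ∀ F : P3 K, F.IsHomogeneous d →
    (∀ i, F ∈ a3 (Pi.single i 1) ^ (m i).toNat) →
    (F ≠ 0 → m 0 + m 1 + m 2 ≤ 2 * d ∧ T F ≠ 0) ∧
    (T F).IsHomogeneous (2 * d - (m 0 + m 1 + m 2)).toNat ∧
    (∀ i, T F ∈ a3 (Pi.single i 1) ^ (d - (m 0 + m 1 + m 2) + m i).toNat) ∧
    sig F * ∏ i, X i ^ (-m i).toNat = (∏ i, X i ^ (m i).toNat) * T F := by
  classical
  let f : (Fin 3 →₀ ℕ) → Fin 3 →₀ ℕ := fun ν =>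
    Finsupp.equivFunOnFinite.symm fun i => (d - m i - ν i).toNat
  have hf : ∀ ν i, f ν i = (d - m i - ν i).toNat := fun _ _ => rfl
  let T : P3 K →ₗ[K] P3 K := (basisMonomials (Fin 3) K).constr K fun ν => monomial (f ν) 1
  have hT : ∀ ν c, T (monomial ν c) = monomial (f ν) c := by
    intro ν c
    have : (monomial ν c : P3 K) = c • basisMonomials (Fin 3) K ν := by simp [smul_monomial]
    rw [this, map_smul, Module.Basis.constr_basis, smul_monomial, smul_eq_mul, mul_one]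
  refine ⟨T, fun F hF hm => ?_⟩
  have hT2 : T F = ∑ ν ∈ F.support, monomial (f ν) (coeff ν F) := by
    conv_lhs => rw [F.as_sum, map_sum]
    exact Finset.sum_congr rfl fun ν _ => hT _ _
  have hs : ∀ ν ∈ F.support, (ν 0 + ν 1 + ν 2 = d) ∧ (ν 0 + (m 0).toNat ≤ d) ∧
      (ν 1 + (m 1).toNat ≤ d) ∧ ν 2 + (m 2).toNat ≤ d := fun ν hν =>
    ⟨deg3 hF hν, (vert_iff 0 hF).1 (hm 0) ν hν, (vert_iff 1 hF).1 (hm 1) ν hν,
      (vert_iff 2 hF).1 (hm 2) ν hν⟩
  have h4 : sig F * ∏ i, X i ^ (-m i).toNat = (∏ i, X i ^ (m i).toNat) * T F := by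
    rw [hT2, Finset.mul_sum]
    conv_lhs => rw [F.as_sum, map_sum, Finset.sum_mul]
    refine Finset.sum_congr rfl fun ν hν => ?_
    obtain ⟨a, a0, a1, a2⟩ := hs ν hν
    have e0 : ν 1 + ν 2 + (-m 0).toNat = (m 0).toNat + f ν 0 := by rw [hf]; omega
    have e1 : ν 0 + ν 2 + (-m 1).toNat = (m 1).toNat + f ν 1 := by rw [hf]; omega
    have e2 : ν 0 + ν 1 + (-m 2).toNat = (m 2).toNat + f ν 2 := by rw [hf]; omega
    have : (X 0 ^ (ν 1 + ν 2 + (-m 0).toNat) * X 1 ^ (ν 0 + ν 2 + (-m 1).toNat) *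
        X 2 ^ (ν 0 + ν 1 + (-m 2).toNat) : P3 K) = X 0 ^ ((m 0).toNat + f ν 0) *
        X 1 ^ ((m 1).toNat + f ν 1) * X 2 ^ ((m 2).toNat + f ν 2) := by rw [e0, e1, e2]
    rw [mon3, mon3, Fin.prod_univ_three, Fin.prod_univ_three]
    simp only [sig, map_mul, map_pow, aeval_X, aeval_C, algebraMap_eq, Matrix.cons_val_zero,
      Matrix.cons_val_one, Matrix.cons_val_two, Matrix.tail_cons, Matrix.head_cons]
    linear_combination C (coeff ν F) * this
  have h2 : (T F).IsHomogeneous (2 * d - (m 0 + m 1 + m 2)).toNat := by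
    rw [hT2]
    refine IsHomogeneous.sum _ _ _ fun ν hν => isHomogeneous_monomial _ ?_
    obtain ⟨a, a0, a1, a2⟩ := hs ν hν
    rw [Finsupp.degree_eq_sum, Fin.sum_univ_three, hf, hf, hf]
    omega
  refine ⟨fun h0 => ⟨?_, fun h => h0 (sig_inj hF ?_)⟩, h2, fun i => ?_, h4⟩
  · obtain ⟨ν, hν⟩ := ne_zero_iff.1 h0
    obtain ⟨a, a0, a1, a2⟩ := hs ν (mem_support_iff.2 hν)
    omega
  · rw [h, mul_zero] at h4
    exact (mul_eq_zero.1 h4).resolve_right
      (Finset.prod_ne_zero_iff.2 fun i _ => pow_ne_zero _ (X_ne_zero _))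
  · rw [hT2]
    refine Ideal.sum_mem _ fun ν hν => ?_
    obtain ⟨a, a0, a1, a2⟩ := hs ν hν
    refine (vert_iff i (isHomogeneous_monomial _ rfl)).2 fun μ hμ => ?_
    rw [Finset.mem_singleton.1 (support_monomial_subset hμ), Finsupp.degree_eq_sum,
      Fin.sum_univ_three]
    fin_cases i <;> simp only [hf, Fin.zero_eta, Fin.mk_one, Fin.reduceFinMk] <;> omega

/-- transport of a multiplicity at a point off the triangle -/
theorem crem_pt {d k : ℕ} {m : Fin 3 → ℤ} {F G : P3 K} (hF : F.IsHomogeneous d)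
    (h : sig F * ∏ i, X i ^ (-m i).toNat = (∏ i, X i ^ (m i).toNat) * G) {v w : Fin 3 → K}
    (hw : ∀ j, w j ≠ 0) {c : K} (hc : c ≠ 0) (e : sg w = c • v) (hk : F ∈ a3 v ^ k) :
    G ∈ a3 w ^ k := by
  have h1 : F ∈ a3 (sg w) ^ k := a3_smul (inv_ne_zero hc) hF (by
    rwa [e, smul_smul, inv_mul_cancel₀ hc, one_smul])
  have h2 := Ideal.mul_mem_right (∏ i, X i ^ (-m i).toNat) _ (a3_map sig w _ (sig_X w) k h1)
  rw [h] at h2
  refine a3_cancel ?_ h2
  rw [map_prod]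
  exact Finset.prod_ne_zero_iff.2 fun i _ => by simpa using fun h => (hw i h).elim

/-- the point is the vertex i -/
def Vx (i : Fin 3) (v : Fin 3 → K) : Prop := ∃ c : K, c ≠ 0 ∧ v = c • Pi.single i 1

theorem Vx.iff {i : Fin 3} {v : Fin 3 → K} (h : Vx i v) {d m : ℕ} {F : P3 K}
    (hF : F.IsHomogeneous d) : F ∈ a3 v ^ m ↔ F ∈ a3 (Pi.single i 1) ^ m := by
  obtain ⟨c, hc, rfl⟩ := h
  exact ⟨a3_smul hc hF, fun h => a3_smul (inv_ne_zero hc) hF (by
    rwa [smul_smul, inv_mul_cancel₀ hc, one_smul])⟩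

theorem Sp_crem_neg (b : Fin 3 → ι) {d : ℕ} {μ : ι → ℤ} {v : ι → Fin 3 → K}
    (hv : ∀ i, Vx i (v (b i))) (h : 2 * (d : ℤ) < μ (b 0) + μ (b 1) + μ (b 2)) :
    Sp d v (fun q => (μ q).toNat) = ⊥ := by
  obtain ⟨T, hT⟩ := crem_ex (K := K) d fun i => μ (b i)
  refine (Submodule.eq_bot_iff _).2 fun F hF => by_contra fun h0 => ?_
  obtain ⟨h1, h2⟩ := mem_Sp.1 hF
  have := ((hT F h1 fun i => ((hv i).iff h1).1 (h2 (b i))).1 h0).1
  omega

/-- the quadratic map with base points b 0, b 1, b 2 at the vertices -/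
theorem Sp_crem (b : Fin 3 → ι) {d d' : ℕ} {μ μ' : ι → ℤ} {v w : ι → Fin 3 → K}
    (hv : ∀ i, Vx i (v (b i))) (hw : ∀ i, Vx i (w (b i)))
    (ho : ∀ q, q ∉ Set.range b → (∀ j, w q j ≠ 0) ∧ ∃ c : K, c ≠ 0 ∧ sg (w q) = c • v q)
    (hd : (d' : ℤ) = 2 * d - (μ (b 0) + μ (b 1) + μ (b 2)))
    (h1 : ∀ i, μ' (b i) ≤ d - (μ (b 0) + μ (b 1) + μ (b 2)) + μ (b i))
    (h2 : ∀ q, q ∉ Set.range b → μ' q ≤ μ q) :
    finrank K (Sp d v fun q => (μ q).toNat) ≤ finrank K (Sp d' w fun q => (μ' q).toNat) := by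
  obtain ⟨T, hT⟩ := crem_ex (K := K) d fun i => μ (b i)
  have key := fun F (hF : F ∈ Sp d v fun q => (μ q).toNat) =>
    hT F (mem_Sp.1 hF).1 fun i => ((hv i).iff (mem_Sp.1 hF).1).1 ((mem_Sp.1 hF).2 (b i))
  refine rk3_le T (fun F hF => ?_) fun F hF h => by_contra fun h0 => ((key F hF).1 h0).2 h
  obtain ⟨-, a2, a3', a4⟩ := key F hF
  rw [← hd, Int.toNat_natCast] at a2
  refine mem_Sp.2 ⟨a2, fun q => ?_⟩
  by_cases hq : q ∈ Set.range b
  · obtain ⟨i, rfl⟩ := hq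
    exact ((hw i).iff a2).2 (Ideal.pow_le_pow_right (Int.toNat_le_toNat (h1 i)) (a3' i))
  · obtain ⟨e1, c, hc, e2⟩ := ho q hq
    exact Ideal.pow_le_pow_right (Int.toNat_le_toNat (h2 q hq))
      (crem_pt (mem_Sp.1 hF).1 a4 e1 hc e2 ((mem_Sp.1 hF).2 q))

/-- the determinant of three affine points -/
def D3 {R : Type} [CommRing R] (x b c : Fin 2 → R) : R :=
  x 0 * (b 1 - c 1) + x 1 * (c 0 - b 0) + (b 0 * c 1 - b 1 * c 0)

theorem D3_gn {a b c : ι} (hab : a ≠ b) (hac : a ≠ c) (hbc : b ≠ c) :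
    Gn ι fun p => D3 (p a) (p b) (p c) ≠ 0 := by
  classical
  obtain ⟨G, h0, hG⟩ := Gn.of_ne (D3 (fun j => X (a, j)) (fun j => X (b, j)) fun j => X (c, j))
    (fun q => if q = a then ![0, 0] else if q = b then ![1, 0] else ![0, 1])
    (by simp [D3, hab.symm, hac.symm, hbc.symm])
  exact ⟨G, h0, fun p hp => by simpa [D3] using hG p hp⟩

/-- the matrix which sends three points to the vertices -/
def N3 (a b c : Fin 2 → K) : Matrix (Fin 3) (Fin 3) K :=
  !![b 1 - c 1, c 0 - b 0, b 0 * c 1 - b 1 * c 0; c 1 - a 1, a 0 - c 0, c 0 * a 1 - c 1 * a 0;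
    a 1 - b 1, b 0 - a 0, a 0 * b 1 - a 1 * b 0]

theorem N3_det (a b c : Fin 2 → K) : (N3 a b c).det = D3 a b c ^ 2 := by
  simp [N3, D3, Matrix.det_fin_three]
  ring

theorem N3_mul (a b c x : Fin 2 → K) :
    (N3 a b c).mulVec (hv x) = ![D3 x b c, D3 x c a, D3 x a b] := by
  funext i
  fin_cases i <;> simp [N3, D3, hv, Matrix.mulVec, dotProduct, Fin.sum_univ_three] <;> ring

theorem N3_vx {p : Fin 3 → Fin 2 → K} (h : D3 (p 0) (p 1) (p 2) ≠ 0) (i : Fin 3) :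
    Vx i ((N3 (p 0) (p 1) (p 2)).mulVec (hv (p i))) := by
  refine ⟨_, h, ?_⟩
  rw [N3_mul]
  funext j
  fin_cases i <;> fin_cases j <;> simp [D3] <;> ring

theorem crem_gn [Fintype ι] {b : Fin 3 → ι} (hb : Function.Injective b) :
    Gn ι fun p => D3 (p (b 0)) (p (b 1)) (p (b 2)) ≠ 0 ∧ ∀ q, q ∉ Set.range b → ∀ j,
      (N3 (p (b 0)) (p (b 1)) (p (b 2))).mulVec (hv (p q)) j ≠ 0 := by
  have n01 : b 0 ≠ b 1 := hb.ne (by decide)
  have n02 : b 0 ≠ b 2 := hb.ne (by decide)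
  have n12 : b 1 ≠ b 2 := hb.ne (by decide)
  refine (D3_gn n01 n02 n12).and (Gn.all fun q => ?_)
  by_cases hq : q ∈ Set.range b
  · exact ⟨1, one_ne_zero, fun p _ h => (h hq).elim⟩
  have hn : ∀ i, q ≠ b i := fun i e => hq ⟨i, e.symm⟩
  obtain ⟨G, h0, hG⟩ := (D3_gn (hn 1) (hn 2) n12).and
    ((D3_gn (hn 2) (hn 0) n02.symm).and (D3_gn (hn 0) (hn 1) n01))
  refine ⟨G, h0, fun p hp _ j => ?_⟩
  obtain ⟨a0, a1, a2⟩ := hG p hp
  rw [N3_mul]
  fin_cases j
  exacts [a0, a1, a2]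

/-- invariance under quadratic maps for general points -/
theorem Hle.crem [Fintype ι] {b : Fin 3 → ι} (hb : Function.Injective b) {d d' r : ℕ}
    {μ μ' : ι → ℤ} (hd : (d' : ℤ) = 2 * d - (μ (b 0) + μ (b 1) + μ (b 2)))
    (h1 : ∀ i, μ' (b i) ≤ d - (μ (b 0) + μ (b 1) + μ (b 2)) + μ (b i))
    (h2 : ∀ q, q ∉ Set.range b → μ' q ≤ μ q) (h : Hle d' (fun q => (μ' q).toNat) r) :
    Hle d (fun q => (μ q).toNat) r := by
  classical
  obtain ⟨p, hp, a1, a2⟩ := (h.gn.and (crem_gn hb)).ex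
  let w : ι → Fin 3 → ℂ := fun q => (N3 (p (b 0)) (p (b 1)) (p (b 2))).mulVec (hv (p q))
  have hw : ∀ i, Vx i (w (b i)) := N3_vx (p := fun i => p (b i)) a1
  refine hle_of (fun q => if q ∈ Set.range b then w q else sg (w q)) (fun q => ?_)
    ((Sp_crem b (w := w) (fun i => ?_) hw (fun q hq => ⟨a2 q hq, 1, one_ne_zero, ?_⟩) hd h1
      h2).trans ((Sp_lin (by rw [N3_det]; exact pow_ne_zero _ a1) d' _ _ _ fun q =>
        ⟨1, one_ne_zero, (one_smul _ _).symm⟩).trans hp))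
  · split_ifs with hq
    · obtain ⟨i, rfl⟩ := hq
      obtain ⟨c, hc, e⟩ := hw i
      intro h0
      have := congrFun (e.symm.trans h0) i
      simp [hc] at this
    · intro h0
      exact mul_ne_zero (a2 q hq 1) (a2 q hq 2) (congrFun h0 0)
  · rw [if_pos ⟨i, rfl⟩]
    exact hw i
  · rw [if_neg hq, one_smul]

theorem Hle.crem_neg [Fintype ι] {b : Fin 3 → ι} (hb : Function.Injective b) {d r : ℕ}
    {μ : ι → ℤ} (h : 2 * (d : ℤ) < μ (b 0) + μ (b 1) + μ (b 2)) :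
    Hle d (fun q => (μ q).toNat) r := by
  classical
  refine hle_of (K := ℂ) (Function.extend b (fun i => Pi.single i 1) fun _ => 1) (fun q => ?_) ?_
  · by_cases hq : ∃ i, b i = q
    · obtain ⟨i, rfl⟩ := hq
      rw [hb.extend_apply]
      intro h0
      simpa using congrFun h0 i
    · rw [Function.extend_apply' _ _ _ hq]
      exact one_ne_zero
  · rw [Sp_crem_neg b (fun i => ⟨1, one_ne_zero, by rw [hb.extend_apply, one_smul]⟩) h,
      finrank_bot]
    exact r.zero_le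

end Pool.Agent.Lib.MP_d03834_ag.Core
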