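import Pool.Agent.Lib.MP_d03834_ag.Core.InvB
import Pool.Agent.Lib.MP_d03834_ag.Core.Crem

/-! Symmetric configurations of points in the plane. -/

set_option autoImplicit false

namespace Pool.Agent.Lib.MP_d03834_ag.Core.Inv

open MvPolynomial

variable {K : Type} [Field K]

/-- two points on the fixed line and pairs of points -/
def sym {ι : Type} (v : ι → Fin 3 → K) : Fin 2 ⊕ ι ⊕ ι → Fin 3 → K :=
  Sum.elim ![Pi.single 0 1, Pi.single 2 1] (Sum.elim v fun i => rf (v i))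

theorem Sp_split (h2 : (2 : K) ≠ 0) {ι : Type} {d M m a c J a' c' J' : ℕ} {v : ι → Fin 3 → K}
    (hv : ∀ i j, v i j ≠ 0) {μ : ι → ℕ} (ha : 2 * a ≤ m + 1) (hc : 2 * c ≤ M + 1)
    (hJ : d ≤ 2 * J + 1) (ha' : 2 * a' ≤ m) (hc' : 2 * c' ≤ M) (hJ' : d ≤ 2 * J' + 2) :
    Module.finrank K (Sp d (sym v) (Sum.elim ![M, m] (Sum.elim μ μ))) ≤
      Module.finrank K (Hq d M m 0 a c J v μ) + Module.finrank K (Hq d M m 1 a' c' J' v μ) := by
  refine split_raw h2 hv ha hc hJ ha' hc' hJ' _ (fun F hF ν hν => ?_) fun F hF i =>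
    ⟨(mem_Sp.1 hF).2 (.inr (.inl i)), (mem_Sp.1 hF).2 (.inr (.inr i))⟩
  obtain ⟨h1, h3⟩ := mem_Sp.1 hF
  exact ⟨deg3 h1 hν, (vert_iff 0 h1).1 (h3 (.inl 0)) ν hν, (vert_iff 2 h1).1 (h3 (.inl 1)) ν hν⟩

theorem sym_ne {ι : Type} {v : ι → Fin 3 → K} (hv : ∀ i j, v i j ≠ 0) (q : Fin 2 ⊕ ι ⊕ ι) :
    sym v q ≠ 0 := by
  rcases q with q | q | q
  · fin_cases q <;> simp [sym]
  · exact fun h => hv q 0 (congrFun h 0)
  · exact fun h => hv q 0 (congrFun h 0)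

/-- bounds for the two parts on the quotient give a bound for general points -/
theorem hle_inv [Algebra ℂ K] {ι : Type} [Fintype ι] {d M m a c J a' c' J' r r' : ℕ}
    (Q : ι → Fin 4 → K) (hQ : ∀ i c, Q i c ≠ 0) (μ : ι → ℕ) (ha : 2 * a ≤ m + 1)
    (hc : 2 * c ≤ M + 1) (hJ : d ≤ 2 * J + 1) (ha' : 2 * a' ≤ m) (hc' : 2 * c' ≤ M)
    (hJ' : d ≤ 2 * J' + 2)
    (h0 : Module.finrank K (H0 ((d : ℤ) - a - c) J (Sum.elim crn Q) (Sum.elim
      ![(m : ℤ) - a, (M : ℤ) - c, (J : ℤ) - a, (J : ℤ) - c] fun i => (μ i : ℤ))) ≤ r)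
    (h1 : Module.finrank K (H0 ((d : ℤ) - 1 - a' - c') J' (Sum.elim crn Q) (Sum.elim
      ![(m : ℤ) - 1 - a', (M : ℤ) - 1 - c', (J' : ℤ) - a', (J' : ℤ) - c'] fun i => (μ i : ℤ))) ≤
        r') :
    Hle d (Sum.elim ![M, m] (Sum.elim μ μ) : Fin 2 ⊕ ι ⊕ ι → ℕ) (r + r') := by
  obtain ⟨v, hv, -, h⟩ := ex_Hq (L := AlgebraicClosure K) Q hQ
  have : CharZero (AlgebraicClosure K) :=
    charZero_of_injective_algebraMap (algebraMap ℂ (AlgebraicClosure K)).injective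
  refine hle_of (sym v) (sym_ne hv) ((Sp_split two_ne_zero hv ha hc hJ ha' hc' hJ').trans
    (add_le_add ((h d M m 0 a c J μ).trans ?_) ((h d M m 1 a' c' J' μ).trans ?_)))
  · rw [Nat.cast_zero, sub_zero, sub_zero, sub_zero]
    exact h0
  · exact h1

end Pool.Agent.Lib.MP_d03834_ag.Core.Inv
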