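import Pool.Agent.Lib.MP_d03834_ag.Core.N15Defs
import Pool.Agent.Lib.MP_d03834_ag.Core.Ar15
import Pool.Agent.Lib.MP_d03834_ag.Core.Inv
import Pool.Agent.Lib.MP_d03834_ag.Core.EightB

/-! Fifteen points: reduction to the bounds in the toric chart. -/

set_option autoImplicit false

namespace Pool.Agent.Lib.MP_d03834_ag.Core

open MvPolynomial Module

theorem tkd_pk15 (g M n m : ℤ) : tkd (pa g M n) (g / 2) m (pk g M n) = k15 g m M n := by
  simp only [tkd, pa, pk, k15, Matrix.cons_val]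
  omega

theorem tsq_pk15 (g M n m : ℤ) : tsq (pa g M n) (g / 2) m (pk g M n) = sq15 g m M n := by
  have h := sq15_eq g m M n
  obtain ⟨a, x, hx, rfl⟩ : ∃ a x : ℤ, (x = 0 ∨ x = 1) ∧ g = 2 * a + x := ⟨g / 2, g % 2, by omega⟩
  obtain ⟨b, y, hy, rfl⟩ : ∃ b y : ℤ, (y = 0 ∨ y = 1) ∧ M = 2 * b + y := ⟨M / 2, M % 2, by omega⟩
  obtain ⟨c, z, hz, rfl⟩ : ∃ c z : ℤ, (z = 0 ∨ z = 1) ∧ n = 2 * c + z := ⟨n / 2, n % 2, by omega⟩
  have e1 : (2 * a + x) / 2 = a ∧ (2 * a + x) % 2 = x := by omega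
  have e2 : (2 * b + y) / 2 = b ∧ (2 * b + y) % 2 = y ∧ (2 * b + y + 1) / 2 = b + y := by omega
  have e3 : (2 * c + z) / 2 = c ∧ (2 * c + z) % 2 = z ∧ (2 * c + z + 1) / 2 = c + z := by omega
  rw [e1.2, e2.2.1, e3.2.1] at h
  simp only [tsq, pa, pk, Matrix.cons_val, e1.1, e2.1, e2.2.2, e3.1, e3.2.2]
  refine mul_left_cancel₀ (two_ne_zero (α := ℤ)) ?_
  rw [h]
  rcases hx with rfl | rfl <;> rcases hy with rfl | rfl <;> rcases hz with rfl | rfl <;> ring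

theorem box_pk {g m M n r : ℤ} (hb : Bd15 g m M n r) (hm : 2 ≤ m) (h2 : m ≤ n + 2) (h3 : n ≤ m)
    (h4 : 2 * m - 1 ≤ M) (h5 : M ≤ 2 * m + 1) (h6 : 27 * m ≤ 7 * g + 11)
    (h7 : 8 * g ≤ 31 * m + 12) : Box15 (pa g M n) (g / 2) m (pk g M n) := by
  have b1 := hb.n0
  have b2 := hb.B
  have e0 : pk g M n 0 = M / 2 := rfl
  have e1 : pk g M n 1 = g / 2 - (n + 1) / 2 := rfl
  have e2 : pk g M n 2 = n / 2 := rfl
  have e3 : pk g M n 3 = g / 2 - (M + 1) / 2 := rfl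
  have e4 : pa g M n = g - (M + 1) / 2 - (n + 1) / 2 := rfl
  have r0 : rt (pk g M n) (pa g M n) (g / 2) 0 = g / 2 - pk g M n 1 - pk g M n 2 := rfl
  have r1 : rt (pk g M n) (pa g M n) (g / 2) 1 = g / 2 - pk g M n 0 - pk g M n 3 := rfl
  have r2 : rt (pk g M n) (pa g M n) (g / 2) 2 = pa g M n - pk g M n 0 - pk g M n 2 := rfl
  have r3 : rt (pk g M n) (pa g M n) (g / 2) 3 = pa g M n - pk g M n 1 - pk g M n 3 := rfl
  refine ⟨Fin.forall_fin_succ.2 ⟨by rw [r0]; omega, Fin.forall_fin_succ.2 ⟨?_,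
    Fin.forall_fin_succ.2 ⟨?_, Fin.forall_fin_one.2 ?_⟩⟩⟩, by rw [tkd_pk15]; exact hb.k, hm,
    by omega, by omega, by omega, by omega, by omega, by omega⟩
  · exact le_of_le_of_eq (by omega) r1.symm
  · exact le_of_le_of_eq (by omega) r2.symm
  · exact le_of_le_of_eq (by omega) r3.symm

/-- the order of the corners -/
def cpm15 : Fin 4 → Fin 4 := ![1, 2, 0, 3]

theorem cor_crn {K : Type} [Field K] (c : Fin 4) :
    (cor c : Fin 4 → K) = Inv.crn (cpm15 c) := by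
  fin_cases c <;> simp [cor, Inv.crn, cpm15]

theorem H0_sub15 {K ι κ : Type} [Field K] {P : ι → Fin 4 → K} {Q : κ → Fin 4 → K} {p q : ℤ}
    {m : ι → ℤ} {n : κ → ℤ} (f : κ → ι) (h1 : ∀ l, Q l = P (f l)) (h2 : ∀ l, n l ≤ m (f l)) :
    H0 p q P m ≤ H0 p q Q n := fun _ hF => mem_H0.2 ⟨(mem_H0.1 hF).1, fun l => by
  rw [h1]
  exact Ideal.pow_le_pow_right (Int.toNat_le_toNat (h2 l)) ((mem_H0.1 hF).2 (f l))⟩

theorem crn_le {K ι : Type} [Field K] {Q : ι → Fin 4 → K} {p q : ℤ} {k k' : Fin 4 → ℤ}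
    {μ : ι → ℤ} (h : ∀ c, k' c ≤ k (cpm15 c)) :
    H0 p q (Sum.elim Inv.crn Q) (Sum.elim k μ) ≤ H0 p q (Sum.elim cor Q) (Sum.elim k' μ) := by
  refine H0_sub15 (Sum.map cpm15 id) ?_ ?_
  · rintro (c | i)
    · rw [Sum.map_inl, Sum.elim_inl, Sum.elim_inl, cor_crn]
    · rw [Sum.map_inr, Sum.elim_inr, Sum.elim_inr, id]
  · rintro (c | i)
    · exact h c
    · exact le_rfl

theorem part15 {K : Type} [Field K] {Q : Fin 5 → Fin 4 → K}
    (h : ∀ (a b m : ℤ) (k : Fin 4 → ℤ), Box15 a b m k → Bd3 (tsq a b m k) (tkd a b m k)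
      (finrank K (H0 a b (Sum.elim cor Q) (Sum.elim k fun _ => m))))
    {g m M n p J x0 x1 x2 x3 : ℤ} {r : ℕ} (hb : Bd15 g m M n r) (hm : 2 ≤ m)
    (h2 : m ≤ n + 2) (h3 : n ≤ m) (h4 : 2 * m - 1 ≤ M) (h5 : M ≤ 2 * m + 1)
    (h6 : 27 * m ≤ 7 * g + 11) (h7 : 8 * g ≤ 31 * m + 12) (hJ : J = g / 2)
    (hp : p = g - (M + 1) / 2 - (n + 1) / 2) (y0 : n / 2 ≤ x0) (y1 : M / 2 ≤ x1)
    (y2 : g / 2 - (n + 1) / 2 ≤ x2) (y3 : g / 2 - (M + 1) / 2 ≤ x3) :
    finrank K (H0 p J (Sum.elim Inv.crn Q) (Sum.elim ![x0, x1, x2, x3] fun _ => m)) ≤ r := by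
  obtain ⟨k1, k2, k3⟩ := h _ _ _ _ (box_pk hb hm h2 h3 h4 h5 h6 h7)
  rw [tsq_pk15] at k1 k2
  rw [tsq_pk15, tkd_pk15] at k3
  obtain rfl : p = pa g M n := hp
  subst hJ
  refine (Submodule.finrank_mono (crn_le (k' := pk g M n) fun c => ?_)).trans ?_
  · fin_cases c
    exacts [y1, y2, y0, y3]
  · rcases hb.bd with e | e | e
    · exact (k1 e).le.trans r.zero_le
    · have := k2 e.1
      omega
    · have := k3 e.1
      omega

theorem win15 {m d : ℕ} (hm : 2 ≤ m) (h1 : (d + 1).choose 2 ≤ 15 * (m + 1).choose 2)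
    (h2 : 15 * (m + 1).choose 2 < (d + 3).choose 2) :
    27 * m ≤ 7 * d + 4 ∧ 8 * d ≤ 31 * m + 12 := by
  have a0 := two_ch m
  have a1 := two_ch d
  have a3 : 2 * (d + 3).choose 2 = (d + 3) * (d + 2) := two_ch (d + 2)
  have g1 : (d + 1) * d ≤ 15 * ((m + 1) * m) := by omega
  have g2 : 15 * ((m + 1) * m) < (d + 3) * (d + 2) := by omega
  constructor
  · by_contra h
    have : 7 * (d + 2) ≤ 27 * m + 9 := by omega
    nlinarith
  · by_contra h
    have : 31 * m + 13 ≤ 8 * d := by omega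
    nlinarith

theorem lw15_ge (g m M n : ℤ) : n - 1 ≤ lw15 g m M n := by
  unfold lw15
  split_ifs <;> omega

theorem ar15' {m d : ℕ} (hm : 2 ≤ m) (h1 : (d + 1).choose 2 ≤ 15 * (m + 1).choose 2)
    (h2 : 15 * (m + 1).choose 2 < (d + 3).choose 2) (e1 : (m, d) ≠ (2, 9))
    (e2 : (m, d) ≠ (3, 12)) (j : ℕ) (hj : j ≤ 1) :
    ∃ re ro ne no : ℕ, ne ≤ m ∧ m ≤ ne + 1 ∧ no + 1 ≤ m ∧ m ≤ no + 2 ∧
      re + ro ≤ (d + 2).choose 2 - 15 * (m + 1).choose 2 + (1 - j) * m ∧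
      Bd15 d m (2 * m + j) ne re ∧ Bd15 (d - 1) m (2 * m + j - 1) no ro := by
  have c1 := choose_two d
  have c2 : 2 * ((d + 2).choose 2 : ℤ) = (d + 1) * (d + 2) := by
    have := choose_two (d + 1)
    push_cast at this
    linear_combination this
  have c3 : 2 * ((d + 3).choose 2 : ℤ) = (d + 2) * (d + 3) := by
    have := choose_two (d + 2)
    push_cast at this
    linear_combination this
  have c4 : 2 * (15 * ((m + 1).choose 2 : ℤ)) = 15 * m * (m + 1) := by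
    linear_combination 15 * choose_two m
  have g1 : (d : ℤ) * (d + 1) ≤ 15 * m * (m + 1) := by omega
  have g2 : 15 * (m : ℤ) * (m + 1) < (d + 2) * (d + 3) := by omega
  have hw := w15 (m := m) (d := d) (by omega) (by omega)
    (fun h => e1 (Prod.ext (by omega) (by omega))) (fun h => e2 (Prod.ext (by omega) (by omega)))
    g1 g2
  have g3 := (win15 hm h1 h2).1
  rw [← c4, ← c2] at hw
  have hw' : Ok15 m d (2 * m + j)
      (((d + 2).choose 2 - 15 * (m + 1).choose 2 + (1 - j) * m : ℕ) : ℤ) := by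
    obtain rfl | rfl : j = 0 ∨ j = 1 := by omega
    · convert hw.1 using 1 <;> omega
    · convert hw.2 using 1 <;> omega
  obtain ⟨k1, k2, k3⟩ := hw'
  obtain ⟨a1, a2⟩ := bd15_ok (by omega) (by omega) (by omega) (by omega) k1
  obtain ⟨b1, b2⟩ := bd15_ok (by omega) (by omega) (by omega) (by omega) k2
  have := lw15_ge d m (2 * m + j) m
  have := lw15_ge (d - 1) m (2 * m + j - 1) (m - 1)
  have := a2.n0
  have := a2.r0
  have := b2.n0
  have := b2.r0
  refine ⟨(bd15 d m (2 * m + j) (lw15 d m (2 * m + j) m)).toNat,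
    (bd15 (d - 1) m (2 * m + j - 1) (lw15 (d - 1) m (2 * m + j - 1) (m - 1))).toNat,
    (lw15 d m (2 * m + j) m).toNat, (lw15 (d - 1) m (2 * m + j - 1) (m - 1)).toNat,
    by omega, by omega, by omega, by omega, by omega, ?_, ?_⟩ <;>
    rwa [Int.toNat_of_nonneg ‹_›, Int.toNat_of_nonneg ‹_›]

/-- the twelve points of the symmetric position -/
def sy12 : Fin 2 ⊕ Fin 5 ⊕ Fin 5 → Fin 11 ⊕ Unit :=
  Sum.elim ![.inr (), .inl 10]
    (Sum.elim (fun i => .inl ⟨i, by omega⟩) fun i => .inl ⟨i + 5, by omega⟩)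

theorem twelve15 (h : Down15) {m d : ℕ} (hm : 2 ≤ m)
    (h1 : (d + 1).choose 2 ≤ 15 * (m + 1).choose 2)
    (h2 : 15 * (m + 1).choose 2 < (d + 3).choose 2) (e1 : (m, d) ≠ (2, 9))
    (e2 : (m, d) ≠ (3, 12)) (j : ℕ) (hj : j ≤ 1) :
    Hle d (Sum.elim (fun _ : Fin 11 => m) fun _ : Unit => 2 * m + j)
      ((d + 2).choose 2 - 15 * (m + 1).choose 2 + (1 - j) * m) := by
  obtain ⟨K, _, _, Q, hQ, hK⟩ := h
  obtain ⟨re, ro, ne, no, a1, a2, a3, a4, a5, a6, a7⟩ := ar15' hm h1 h2 e1 e2 j hj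
  obtain ⟨w1, w2⟩ := win15 hm h1 h2
  refine (Inv.hle_inv (d := d) (M := 2 * m + j) (m := m) (a := (ne + 1) / 2)
    (c := (2 * m + j + 1) / 2) (J := d / 2) (a' := (no + 1) / 2) (c' := (2 * m + j) / 2)
    (J' := (d - 1) / 2) (r := re) (r' := ro) Q hQ (fun _ => m) (by omega) (by omega) (by omega)
    (by omega) (by omega) (by omega) ?_ ?_).mono sy12 (by decide) ?_ a5
  · exact part15 hK a6 (by omega) (by omega) (by omega) (by omega) (by omega) (by omega)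
      (by omega) (by omega) (by omega) (by omega) (by omega) (by omega) (by omega)
  · exact part15 hK a7 (by omega) (by omega) (by omega) (by omega) (by omega) (by omega)
      (by omega) (by omega) (by omega) (by omega) (by omega) (by omega) (by omega)
  · rintro (q | q | q)
    · fin_cases q <;> exact le_rfl
    · exact le_rfl
    · exact le_rfl

theorem lm12 {d r m M : ℕ} (h : Hle d (lm 12 ((M : ℤ) :: List.replicate 11 (m : ℤ))) r) :
    Hle d (Sum.elim (fun _ : Fin 11 => m) fun _ : Unit => M) r :=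
  h.mono (Fin.cases (.inr ()) .inl) (by decide)
    (fun q => by fin_cases q <;> exact (Int.toNat_natCast _).le) le_rfl

theorem lm9 {d r m M N : ℕ}
    (h : Hle d (lm 9 ((N : ℤ) :: (M : ℤ) :: List.replicate 7 (m : ℤ))) r) :
    Hle d (Sum.elim (Sum.elim (fun _ : Fin 7 => m) fun _ : Unit => M) fun _ : Unit => N) r :=
  h.mono (Fin.cases (.inr ()) (Fin.cases (.inl (.inr ())) fun i => .inl (.inl i))) (by decide)
    (fun q => by fin_cases q <;> exact (Int.toNat_natCast _).le) le_rfl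

/-- the eleven points after one collision -/
def sy9 : (Fin 7 ⊕ Unit) ⊕ Fin 4 → Fin 11 ⊕ Unit :=
  Sum.elim (Sum.elim (fun i => .inl ⟨i, by omega⟩) .inr) fun i => .inl ⟨i + 7, by omega⟩

theorem four9 {d r m M : ℕ} (hm : 0 < m)
    (h0 : bnd 9 200 d ((2 * m : ℕ) :: (M : ℤ) :: List.replicate 7 (m : ℤ)) (r + m) = true)
    (h1 : bnd 9 200 d ((2 * m + 1 : ℕ) :: (M : ℤ) :: List.replicate 7 (m : ℤ)) r = true) :
    Hle d (Sum.elim (fun _ : Fin 11 => m) fun _ : Unit => M) r :=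
  ((lm9 (bnd_sound _ _ _ _ _ h0)).four hm (lm9 (bnd_sound _ _ _ _ _ h1))).mono
    sy9 (by decide) (by rintro ((q | q) | q) <;> exact le_rfl) le_rfl

theorem small15a : Hle 9 (fun _ : Fin 15 => 2) 10 :=
  Hle.four_unif (n := 11) (m := 2) two_pos
    (lm12 (bnd_sound 12 200 9 _ 12 (by decide +kernel)))
    (lm12 (bnd_sound 12 200 9 _ 10 (by decide +kernel)))

theorem small15b : Hle 12 (fun _ : Fin 15 => 3) 1 :=
  Hle.four_unif (n := 11) (m := 3) three_pos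
    (four9 three_pos (by decide +kernel) (by decide +kernel))
    (four9 three_pos (by decide +kernel) (by decide +kernel))

/-- fifteen points from the bounds in the toric chart -/
theorem core15_of (h : Down15) : CoreN 15 := by
  intro m d hm h1 h2
  by_cases e1 : (m, d) = (2, 9)
  · obtain ⟨rfl, rfl⟩ := Prod.mk.inj e1
    exact small15a
  by_cases e2 : (m, d) = (3, 12)
  · obtain ⟨rfl, rfl⟩ := Prod.mk.inj e2
    exact small15b
  refine Hle.four_unif (n := 11) (by omega) ?_ ?_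
  · simpa using twelve15 h hm h1 h2 e1 e2 0 (by omega)
  · simpa using twelve15 h hm h1 h2 e1 e2 1 le_rfl

end Pool.Agent.Lib.MP_d03834_ag.Core
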