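import Pool.Agent.Lib.MP_d03834_ag.Core.Asm
import Pool.Agent.Lib.MP_d03834_ag.Core.KPF
import Pool.Agent.Lib.MP_d03834_ag.Core.N10F
import Pool.Agent.Lib.MP_d03834_ag.Core.N12
import Pool.Agent.Lib.MP_d03834_ag.Core.Down12
import Pool.Agent.Lib.MP_d03834_ag.Core.N13
import Pool.Agent.Lib.MP_d03834_ag.Core.Core14
import Pool.Agent.Lib.MP_d03834_ag.Core.N15Top
import Pool.Agent.Lib.MP_d03834_ag.Core.Down15
import Pool.Agent.Lib.MP_d03834_ag.Rul.Fin

/-! Everything except eleven points. -/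

set_option autoImplicit false

namespace Pool.Agent.Lib.MP_d03834_ag.Core

theorem shgh_of11 (h11 : CoreN 11) {n m : ℕ} (hn : 9 < n) (hm : 0 < m) : Shgh n m :=
  shgh_of core10 h11 (down12_of (kpc _ _ _)).core core13 (core14 (kpc _ _ _))
    (core15_of (down15_of (kpc _ _ _))) (fun _ _ a b => Nag.shgh16 a b) hn hm

end Pool.Agent.Lib.MP_d03834_ag.Core
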