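import Pool.Agent.Lib.MP_d03834_ag.Core.Ar15
import Pool.Agent.Lib.MP_d03834_ag.Core.N15Defs

/-! The numerical windows for fifteen points in the toric chart. -/

set_option autoImplicit false

namespace Pool.Agent.Lib.MP_d03834_ag.Core

theorem tsq_pk (g M n m : ℤ) : tsq (pa g M n) (g / 2) m (pk g M n) = sq15 g m M n := by
  have h : g = 2 * (g / 2) + g % 2 := by omega
  simp only [tsq, pa, pk, sq15, Matrix.cons_val]
  generalize g / 2 = J at *
  generalize g % 2 = e at *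
  subst h
  ring

theorem tkd_pk (g M n m : ℤ) : tkd (pa g M n) (g / 2) m (pk g M n) = k15 g m M n := by
  simp only [tkd, pa, pk, k15, Matrix.cons_val]
  omega

/-- the best bound for a part -/
def be15 (g m M n : ℤ) : ℤ := if sq15 g m M n = 0 then n / 2 else bd15 g m M n

/-- the window -/
def Ob15 (m d M al : ℤ) : Prop :=
  (sq15 d m M m = 0 → 1 ≤ k15 d m M m) ∧
    (sq15 (d - 1) m (M - 1) (m - 1) = 0 → 1 ≤ k15 d m M m ∧ 3 ≤ m) ∧
    be15 d m M m + be15 (d - 1) m (M - 1) (m - 1) ≤ al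

instance (m d M al : ℤ) : Decidable (Ob15 m d M al) := by
  unfold Ob15
  infer_instance

theorem bd4_le {g M n m : ℤ} {h : ℕ} (hb : Bd4 g M n m h)
    (h0 : sq15 g m M n = 0 → 1 ≤ k15 g m M n ∧ 2 ≤ n) : (h : ℤ) ≤ be15 g m M n := by
  have hp := sq15_par g m M n
  rw [Bd4, Bd3, tsq_pk, tkd_pk] at hb
  unfold be15 bd15
  split_ifs <;> omega

theorem ob15_big {m d v : ℤ} (hm : 40 ≤ m) (h1 : 27 * m ≤ 7 * d + 4) (h2 : 8 * d ≤ 31 * m + 12)
    (hv : 2 * v = d ^ 2 + 3 * d + 2 - 15 * m ^ 2 - 15 * m) :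
    Ob15 m d (2 * m) (max v 0 + m) ∧ Ob15 m d (2 * m + 1) (max v 0) := by
  obtain ⟨x, hx, x0, x1⟩ : ∃ x, d % 2 = x ∧ 0 ≤ x ∧ x ≤ 1 := ⟨_, rfl, by omega, by omega⟩
  obtain ⟨y, hy, y0, y1⟩ : ∃ y, m % 2 = y ∧ 0 ≤ y ∧ y ≤ 1 := ⟨_, rfl, by omega, by omega⟩
  have p1 : (2 * m) % 2 = 0 := by omega
  have p2 : (2 * m - 1) % 2 = 1 := by omega
  have p3 : (2 * m + 1) % 2 = 1 := by omega
  have p4 : (2 * m + 1 - 1) % 2 = 0 := by omega
  have p5 : (m - 1) % 2 = 1 - y := by omega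
  have p7 : (d - 1) % 2 = 1 - x := by omega
  have hr : v ≤ max v 0 ∧ 0 ≤ max v 0 := ⟨le_max_left _ _, le_max_right _ _⟩
  generalize max v 0 = r at hr
  constructor
  · have a1 : 2 * sq15 d m (2 * m) m = 2 * v - 3 * d - 2 + 15 * m - x - y := by
      rw [sq15_eq, hx, hy, p1, hv]
      ring
    have a3 : 2 * sq15 (d - 1) m (2 * m - 1) (m - 1) = 2 * v - 5 * d - 6 + 21 * m + x + y := by
      rw [sq15_eq, p7, p5, p2, hv]
      ring
    clear hv hx hy p1 p2 p3 p4 p5 p7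
    unfold Ob15 be15 bd15 k15
    split_ifs <;> omega
  · have b1 : 2 * sq15 d m (2 * m + 1) m = 2 * v - 3 * d - 4 + 11 * m - x - y := by
      rw [sq15_eq, hx, hy, p3, hv]
      ring
    have b3 : 2 * sq15 (d - 1) m (2 * m + 1 - 1) (m - 1) =
        2 * v - 5 * d - 4 + 17 * m + x + y := by
      rw [sq15_eq, p7, p5, p4, hv]
      ring
    have c1 := sq15_par d m (2 * m + 1) m
    have c3 := sq15_par (d - 1) m (2 * m + 1 - 1) (m - 1)
    clear hv hx hy p1 p2 p3 p4 p5 p7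
    unfold Ob15 be15
    unfold k15 at c1 c3
    rw [if_neg (by omega), if_neg (by omega)]
    clear c1 c3
    unfold bd15 k15
    split_ifs <;> omega

/-- the two windows for (m, d) -/
def V15 (m d : ℤ) : Prop :=
  d * (d + 1) ≤ 15 * m * (m + 1) → 15 * m * (m + 1) < (d + 2) * (d + 3) →
    (d ≤ 4 * m ∧ 8 * d ≤ 31 * m + 12 ∧ 27 * m - 16 ≤ 14 * ((d - 1) / 2) ∧ 3 * m + 1 ≤ d) ∧
    Ob15 m d (2 * m) (max (((d + 1) * (d + 2) - 15 * m * (m + 1)) / 2) 0 + m) ∧
    Ob15 m d (2 * m + 1) (max (((d + 1) * (d + 2) - 15 * m * (m + 1)) / 2) 0)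

instance (m d : ℤ) : Decidable (V15 m d) := by
  unfold V15
  infer_instance

theorem ob15_small : ∀ m : Fin 40, ∀ e : Fin 7, 2 ≤ m.1 → (m.1, e.1) ≠ (3, 0) →
    V15 (m.1 : ℤ) (4 * (m.1 : ℤ) - (e.1 : ℤ)) := by
  decide +kernel

theorem v15 {m d : ℤ} (hm : 2 ≤ m) (hd : 0 ≤ d) (e1 : ¬(m = 2 ∧ d = 9)) (e2 : ¬(m = 3 ∧ d = 12)) :
    V15 m d := by
  intro h1 h2
  have l1 : 27 * m ≤ 7 * d + 4 := by
    by_contra h
    have : 7 * (d + 2) ≤ 27 * m + 9 := by omega
    nlinarith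
  have l2 : 8 * d ≤ 31 * m + 12 := by
    by_contra h
    have : 31 * m + 13 ≤ 8 * d := by omega
    nlinarith
  rcases le_or_gt 40 m with h | h
  · have l3 : 27 * m ≤ 7 * d + 2 := by
      by_contra h
      have : 7 * (d + 2) ≤ 27 * m + 11 := by omega
      nlinarith
    refine ⟨by omega, ob15_big h l1 l2 ?_⟩
    obtain ⟨a, ha⟩ := Int.even_mul_succ_self (d + 1)
    obtain ⟨b, hb⟩ := Int.even_mul_succ_self m
    have e : (d + 1) * (d + 2) - 15 * m * (m + 1) = 2 * (a - 15 * b) := by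
      linear_combination ha - 15 * hb
    rw [e, Int.mul_ediv_cancel_left _ two_ne_zero]
    linear_combination -e
  · have l3 : d ≤ 4 * m := by
      by_contra h
      rcases hm.eq_or_lt with rfl | h3
      · have : 10 ≤ d := by omega
        nlinarith
      · have : 4 * m + 1 ≤ d := by omega
        nlinarith
    have := ob15_small ⟨m.toNat, by omega⟩ ⟨(4 * m - d).toNat, by omega⟩ (by simp only; omega)
      (by simp only [ne_eq, Prod.mk.injEq]; omega)
    simp only at this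
    rw [show ((m.toNat : ℕ) : ℤ) = m by omega,
      show 4 * m - (((4 * m - d).toNat : ℕ) : ℤ) = d by omega] at this
    exact this h1 h2

theorem box15_of {g M n m : ℤ} (hm : 2 ≤ m) (h1 : 2 * m - 2 ≤ M) (h2 : M ≤ 2 * m + 1)
    (h3 : m - 1 ≤ n) (h4 : n ≤ m) (h5 : M + n ≤ g) (h6 : 2 * g ≤ 5 * m + M + n)
    (h7 : 27 * m - 16 ≤ 14 * (g / 2)) (h8 : 8 * g ≤ 31 * m + 12) :
    Box15 (pa g M n) (g / 2) m (pk g M n) ∧ rt (pk g M n) (pa g M n) (g / 2) 0 ≤ 1 := by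
  refine ⟨⟨fun c => ?_, ?_, hm, ?_, ?_, ?_, ?_, ?_, by omega⟩, ?_⟩
  · fin_cases c <;> simp [rt, pa, pk] <;> omega
  · rw [tkd_pk, k15]
    omega
  all_goals
    simp only [rt, pa, pk, Matrix.cons_val]
    omega

/-- the windows for fifteen points in the toric chart -/
theorem ar15B (m d o he ho : ℕ) (hm : 2 ≤ m) (h1 : (d + 1).choose 2 ≤ 15 * (m + 1).choose 2)
    (h2 : 15 * (m + 1).choose 2 < (d + 3).choose 2) (ho1 : o ≤ 1) (e1 : (m, d) ≠ (2, 9))
    (e2 : (m, d) ≠ (3, 12)) :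
    (Box15 (pa d (2 * m + o) m) (d / 2) m (pk d (2 * m + o) m) ∧
      rt (pk d (2 * m + o) m) (pa d (2 * m + o) m) (d / 2) 0 ≤ 1) ∧
    (Box15 (pa (d - 1) (2 * m + o - 1) (m - 1)) ((d - 1) / 2) m
        (pk (d - 1) (2 * m + o - 1) (m - 1)) ∧
      rt (pk (d - 1) (2 * m + o - 1) (m - 1)) (pa (d - 1) (2 * m + o - 1) (m - 1))
        ((d - 1) / 2) 0 ≤ 1) ∧
    (Bd4 d (2 * m + o) m m he → Bd4 (d - 1) (2 * m + o - 1) (m - 1) m ho →
      he + ho ≤ (d + 2).choose 2 - 15 * (m + 1).choose 2 + m * (1 - o)) := by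
  have c1 := choose_two d
  have c2 : 2 * ((d + 2).choose 2 : ℤ) = (d + 1) * (d + 2) := by
    have := choose_two (d + 1)
    push_cast at this
    linear_combination this
  have c3 : 2 * ((d + 3).choose 2 : ℤ) = (d + 2) * (d + 3) := by
    have := choose_two (d + 2)
    push_cast at this
    linear_combination this
  have c4 : 2 * (15 * ((m + 1).choose 2 : ℤ)) = 15 * m * (m + 1) := by
    linear_combination 15 * choose_two m
  have g1 : (d : ℤ) * (d + 1) ≤ 15 * m * (m + 1) := by omega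
  have g2 : 15 * (m : ℤ) * (m + 1) < (d + 2) * (d + 3) := by omega
  obtain ⟨⟨l1, l2, l3, l4⟩, hw⟩ := v15 (m := m) (d := d) (by omega) (by omega)
    (fun h => e1 (Prod.ext (by omega) (by omega))) (fun h => e2 (Prod.ext (by omega) (by omega)))
    g1 g2
  refine ⟨box15_of (by omega) (by omega) (by omega) (by omega) (by omega) (by omega) (by omega)
    (by omega) (by omega), box15_of (by omega) (by omega) (by omega) (by omega) (by omega)
    (by omega) (by omega) (by omega) (by omega), fun b1 b2 => ?_⟩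
  rw [← c4, ← c2] at hw
  have hw' : Ob15 m d (2 * m + o)
      (((d + 2).choose 2 - 15 * (m + 1).choose 2 + m * (1 - o) : ℕ) : ℤ) := by
    obtain rfl | rfl : o = 0 ∨ o = 1 := by omega
    · convert hw.1 using 1 <;> omega
    · convert hw.2 using 1 <;> omega
  obtain ⟨k1, k2, k3⟩ := hw'
  have a1 := bd4_le b1 fun h => ⟨k1 h, by omega⟩
  have a2 := bd4_le b2 fun h => by
    have := k2 h
    unfold k15 at this ⊢
    omega
  omega

end Pool.Agent.Lib.MP_d03834_ag.Core
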