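import Pool.Agent.Lib.MP_d03834_ag.Core.T4

/-! Assembly of the six small numbers of points with the large ones. -/

set_option autoImplicit false

namespace Pool.Agent.Lib.MP_d03834_ag.Core

open MvPolynomial Module Nag

/-- the Hilbert function of n general points of multiplicity m is the expected one -/
def Shgh (n m : ℕ) : Prop :=
  H19.Gen n fun P => ∀ d, finrank ℂ ↥(homogeneousSubmodule (Fin 3) ℂ d ⊓
    Submodule.restrictScalars ℂ (⨅ i : Fin n, H19.hid (P i) ^ m)) =
    Nat.choose (d + 2) 2 - n * Nat.choose (m + 1) 2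

theorem shgh_of (h10 : CoreN 10) (h11 : CoreN 11) (h12 : CoreN 12) (h13 : CoreN 13)
    (h14 : CoreN 14) (h15 : CoreN 15) (h16 : ∀ n m : ℕ, 16 ≤ n → 0 < m → Shgh n m) {n m : ℕ}
    (hn : 9 < n) (hm : 0 < m) : Shgh n m := by
  rcases le_or_gt 16 n with h | h
  · exact h16 n m h hm
  refine CoreN.gen ?_ (by omega) hm
  interval_cases n <;> assumption

end Pool.Agent.Lib.MP_d03834_ag.Core
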