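import Pool.Agent.Lib.MP_d03834_ag.Core.BiShear
import Pool.Agent.Lib.MP_d03834_ag.Core.LimB

/-! Components, binary forms and graph curves in the Cox ring. -/

set_option autoImplicit false

namespace Pool.Agent.Lib.MP_d03834_ag.Core

open MvPolynomial Module

section ring
variable {K σ : Type} [CommRing K]

theorem wt4 (a b c d : ℕ) (μ : Fin 4 →₀ ℕ) :
    Finsupp.weight ![a, b, c, d] μ = a * μ 0 + b * μ 1 + c * μ 2 + d * μ 3 := by
  rw [Finsupp.weight_apply, Finsupp.sum_fintype _ _ (by simp), Fin.sum_univ_four]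
  simp [mul_comm]

theorem bc_mul {F G : MvPolynomial σ K} {μ : σ →₀ ℕ} (h : coeff μ (F * G) ≠ 0) :
    ∃ a b, a + b = μ ∧ coeff a F ≠ 0 ∧ coeff b G ≠ 0 := by
  classical
  rw [coeff_mul] at h
  obtain ⟨x, hx, h1⟩ := Finset.exists_ne_zero_of_sum_ne_zero h
  exact ⟨x.1, x.2, Finset.HasAntidiagonal.mem_antidiagonal.1 hx, left_ne_zero_of_mul h1,
    right_ne_zero_of_mul h1⟩

theorem bc_add {F G : MvPolynomial σ K} {μ : σ →₀ ℕ} (h : coeff μ (F + G) ≠ 0) :
    coeff μ F ≠ 0 ∨ coeff μ G ≠ 0 := by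
  by_contra hn
  push Not at hn
  exact h (by rw [coeff_add, hn.1, hn.2, add_zero])

variable {w : σ → ℕ} {a b : ℕ} {F G : MvPolynomial σ K}

theorem Low.mul (h : Low w a F) (h' : Low w b G) : Low w (a + b) (F * G) := fun μ hμ => by
  obtain ⟨x, y, rfl, h1, h2⟩ := bc_mul hμ
  rw [map_add]
  exact add_le_add (h x h1) (h' y h2)

theorem Top.mul (h : Top w a F) (h' : Top w b G) : Top w (a + b) (F * G) := fun μ hμ => by
  obtain ⟨x, y, rfl, h1, h2⟩ := bc_mul hμ
  rw [map_add]
  exact add_le_add (h x h1) (h' y h2)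

theorem low_zero (w : σ → ℕ) (F : MvPolynomial σ K) : Low w 0 F := fun _ _ => Nat.zero_le _

theorem Low.mono (h : Low w a F) (e : b ≤ a) : Low w b F := fun μ hμ => e.trans (h μ hμ)

theorem Top.mono (h : Top w a F) (e : a ≤ b) : Top w b F := fun μ hμ => (h μ hμ).trans e

theorem Low.add (h : Low w a F) (h' : Low w a G) : Low w a (F + G) := fun μ hμ =>
  (bc_add hμ).elim (h μ) (h' μ)

theorem Top.add (h : Top w a F) (h' : Top w a G) : Top w a (F + G) := fun μ hμ =>
  (bc_add hμ).elim (h μ) (h' μ)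

theorem Low.cmul (h : Low w a F) (c : K) : Low w a (C c * F) := fun μ hμ =>
  h μ (right_ne_zero_of_mul (by rwa [coeff_C_mul] at hμ))

theorem Top.cmul (h : Top w a F) (c : K) : Top w a (C c * F) := fun μ hμ =>
  h μ (right_ne_zero_of_mul (by rwa [coeff_C_mul] at hμ))

theorem Low.sub (h : Low w a F) (h' : Low w a G) : Low w a (F - G) := by
  simpa [sub_eq_add_neg] using h.add (h'.cmul (-1))

theorem Top.sub (h : Top w a F) (h' : Top w a G) : Top w a (F - G) := by
  simpa [sub_eq_add_neg] using h.add (h'.cmul (-1))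

theorem top_one (w : σ → ℕ) : Top w 0 (1 : MvPolynomial σ K) := fun μ hμ => by
  classical
  rw [coeff_one] at hμ
  obtain rfl : 0 = μ := by_contra fun e => hμ (if_neg e)
  simp

theorem Low.pow (h : Low w a F) (n : ℕ) : Low w (n * a) (F ^ n) := by
  induction n with
  | zero => exact (low_zero _ _).mono (by omega)
  | succ n ih => rw [pow_succ, Nat.succ_mul]; exact ih.mul h

theorem Top.pow (h : Top w a F) (n : ℕ) : Top w (n * a) (F ^ n) := by
  induction n with
  | zero => rw [pow_zero, zero_mul]; exact top_one w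
  | succ n ih => rw [pow_succ, Nat.succ_mul]; exact ih.mul h

theorem bc_X {i : σ} {μ : σ →₀ ℕ} (h : coeff μ (X i : MvPolynomial σ K) ≠ 0) (w : σ → ℕ) :
    Finsupp.weight w μ = w i := by
  classical
  rw [coeff_X] at h
  obtain rfl : Finsupp.single i 1 = μ := by_contra fun e => h (if_neg e)
  simp [Finsupp.weight_apply]

theorem low_X (w : σ → ℕ) (i : σ) : Low w (w i) (X i : MvPolynomial σ K) := fun _ h =>
  (bc_X h w).ge

theorem top_X (w : σ → ℕ) (i : σ) : Top w (w i) (X i : MvPolynomial σ K) := fun _ h =>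
  (bc_X h w).le

/-- polynomials with weights at least a -/
def LowS (K : Type) [CommRing K] (w : σ → ℕ) (a : ℕ) : Submodule K (MvPolynomial σ K) where
  carrier := {F | Low w a F}
  zero_mem' := fun _ h => absurd rfl h
  add_mem' := Low.add
  smul_mem' := fun c F h => by rw [smul_eq_C_mul]; exact Low.cmul h c

/-- polynomials with weights at most a -/
def TopS (K : Type) [CommRing K] (w : σ → ℕ) (a : ℕ) : Submodule K (MvPolynomial σ K) where
  carrier := {F | Top w a F}
  zero_mem' := fun _ h => absurd rfl h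
  add_mem' := Top.add
  smul_mem' := fun c F h => by rw [smul_eq_C_mul]; exact Top.cmul h c

theorem X_pow_dvd_iff (i : σ) (n : ℕ) (F : MvPolynomial σ K) :
    X i ^ n ∣ F ↔ ∀ μ, coeff μ F ≠ 0 → n ≤ μ i := by
  constructor
  · rintro ⟨G, rfl⟩ μ hμ
    classical
    rw [X_pow_eq_monomial, coeff_monomial_mul'] at hμ
    exact Finsupp.single_le_iff.1 (by_contra fun e => hμ (if_neg e))
  · intro h
    rw [X_pow_eq_monomial, monomial_one_dvd_iff_modMonomial_eq_zero]
    ext μ
    by_cases e : Finsupp.single i n ≤ μ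
    · exact coeff_modMonomial_of_le _ e
    · rw [coeff_modMonomial_of_not_le _ e]
      by_contra h0
      exact e (Finsupp.single_le_iff.2 (h μ h0))

/-- the component of weight n -/
noncomputable def cmp (w : σ → ℕ) (n : ℕ) : MvPolynomial σ K →ₗ[K] MvPolynomial σ K :=
  weightedHomogeneousComponent w n

theorem cmp_coeff (w : σ → ℕ) (n : ℕ) (μ : σ →₀ ℕ) (F : MvPolynomial σ K) :
    coeff μ (cmp w n F) = if Finsupp.weight w μ = n then coeff μ F else 0 :=
  coeff_weightedHomogeneousComponent _ _ _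

theorem cmp_gr (w : σ → ℕ) (n : ℕ) (F : MvPolynomial σ K) : cmp w n F = (gr w F).coeff n :=
  MvPolynomial.ext _ _ fun μ => by rw [cmp_coeff, gr_coeff]

theorem cmp_map {B : Type} [CommRing B] (f : K →+* B) (w : σ → ℕ) (n : ℕ)
    (F : MvPolynomial σ K) : map f (cmp w n F) = cmp w n (map f F) :=
  MvPolynomial.ext _ _ fun μ => by
    rw [coeff_map, cmp_coeff, cmp_coeff, coeff_map]
    split_ifs <;> simp

theorem Bih.cmp {p q : ℤ} {F : Cx K} (h : Bih p q F) (w : Fin 4 → ℕ) (n : ℕ) :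
    Bih p q (cmp w n F) := fun μ hμ => h fun e => hμ (by rw [cmp_coeff, e, ite_self])

theorem scl_map {B : Type} [CommRing B] (f : K →+* B) (w : σ → ℕ) (t : K)
    (F : MvPolynomial σ K) : map f (scl w t F) = scl w (f t) (map f F) :=
  MvPolynomial.ext _ _ fun μ => by
    rw [coeff_map, scl_coeff, scl_coeff, coeff_map, map_mul, map_pow]

theorem bc_filt {R : Type} [CommRing R] (l : R) (n : ℕ) (f : Polynomial R)
    (h : f ∈ Ideal.span {Polynomial.C l, Polynomial.X} ^ n) (i : ℕ) : l ^ (n - i) ∣ f.coeff i := by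
  induction n generalizing f i with
  | zero => simp
  | succ n ih =>
    rw [pow_succ] at h
    refine Submodule.mul_induction_on h (fun a ha b hb => ?_) fun a b ha hb => by
      rw [Polynomial.coeff_add]
      exact dvd_add ha hb
    obtain ⟨x, y, rfl⟩ := Ideal.mem_span_pair.1 hb
    rw [mul_add, ← mul_assoc, ← mul_assoc, Polynomial.coeff_add, Polynomial.coeff_mul_C]
    refine dvd_add ?_ ?_
    · refine (pow_dvd_pow l (show n + 1 - i ≤ n - i + 1 by omega)).trans ?_
      rw [pow_succ]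
      exact mul_dvd_mul_right (ih _ (Ideal.mul_mem_right _ _ ha) i) l
    · rcases i with _ | i
      · simp
      · rw [Polynomial.coeff_mul_X, Nat.add_sub_add_right]
        exact ih _ (Ideal.mul_mem_right _ _ ha) i

/-- a point on the line y0 = 0 -/
theorem arm2 {P : Fin 4 → K} (h : P 2 = 0) {n : ℕ} {F : Cx K} (hF : F ∈ pid P ^ n) (i : ℕ) :
    lx P ^ (n - i) ∣ cmp ![0, 0, 1, 0] i F := by
  rw [cmp_gr]
  refine bc_filt _ _ _ (pid_map (gr ![0, 0, 1, 0]) ?_ ?_ hF) i
  · refine Ideal.subset_span (Or.inl ?_)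
    simp [gr, lx]
  · refine Ideal.mem_span_pair.2 ⟨0, Polynomial.C (C (P 3) * X 2), ?_⟩
    simp [gr, ly, h, ← Polynomial.C_mul_X_eq_monomial, mul_assoc]

/-- a point on the line y1 = 0 -/
theorem arm3 {P : Fin 4 → K} (h : P 3 = 0) {n : ℕ} {F : Cx K} (hF : F ∈ pid P ^ n) (i : ℕ) :
    lx P ^ (n - i) ∣ cmp ![0, 0, 0, 1] i F := by
  rw [cmp_gr]
  refine bc_filt _ _ _ (pid_map (gr ![0, 0, 0, 1]) ?_ ?_ hF) i
  · refine Ideal.subset_span (Or.inl ?_)
    simp [gr, lx]
  · refine Ideal.mem_span_pair.2 ⟨0, Polynomial.C (-(C (P 2) * X 3)), ?_⟩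
    simp [gr, ly, h, ← Polynomial.C_mul_X_eq_monomial]
    ring

theorem bih_prod {ι : Type} (s : Finset ι) (f : ι → Cx K) (p q : ι → ℤ)
    (h : ∀ i, Bih (p i) (q i) (f i)) : Bih (∑ i ∈ s, p i) (∑ i ∈ s, q i) (∏ i ∈ s, f i) := by
  classical
  induction s using Finset.induction_on with
  | empty => simpa using bih_C (1 : K)
  | insert i s hi ih =>
    rw [Finset.sum_insert hi, Finset.sum_insert hi, Finset.prod_insert hi]
    exact (h i).mul ih

/-- restriction to the graph x = (B : A) -/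
noncomputable def grf (A B : Cx K) : Cx K →ₐ[K] Cx K := aeval ![B, A, X 2, X 3]

theorem grf_fix (A B : Cx K) {q : ℤ} {g : Cx K} (h : Bih 0 q g) : grf A B g = g := by
  conv_rhs => rw [g.as_sum]
  conv_lhs => rw [g.as_sum, map_sum]
  refine Finset.sum_congr rfl fun μ hμ => ?_
  have := (bih_iff.1 h μ (mem_support_iff.1 hμ)).1
  have e0 : μ 0 = 0 := by omega
  have e1 : μ 1 = 0 := by omega
  rw [grf, aeval_monomial, monomial_eq, Finsupp.prod_fintype _ _ fun _ => pow_zero _,
    Finsupp.prod_fintype _ _ fun _ => pow_zero _, Fin.prod_univ_four, Fin.prod_univ_four, e0, e1]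
  simp

theorem Bih.grf {p q d : ℤ} {A B F : Cx K} (h : Bih p q F) (hA : Bih 0 d A) (hB : Bih 0 d B) :
    Bih 0 (p * d + q) (grf A B F) := by
  have := h.aeval ![B, A, X 2, X 3] hB hA bih_X2 bih_X3
  exact this.of_eq (by ring) (by ring)

end ring

variable {K : Type} [Field K]

theorem lx_rel {a b : Fin 4 → K} (h : dx a b ≠ 0) : IsRelPrime (lx a) (lx b) := by
  intro d h1 h2
  have e : ∀ c : Fin 4 → K, swp (lx c) = ly (swP c) := fun c => by simp [swp, swP, lx, ly]
  have h3 := ly_rel (a := swP a) (b := swP b) h (e a ▸ map_dvd swp h1) (e b ▸ map_dvd swp h2)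
  exact swp_swp d ▸ h3.map swp

/-- the zeros of a binary form split off -/
theorem bin_dvd {ι : Type} [Fintype ι] {v : ι → Fin 4 → K}
    (hv : ∀ i j, i ≠ j → dy (v i) (v j) ≠ 0) {e : ι → ℕ} {g : Cx K}
    (h : ∀ i, ly (v i) ^ e i ∣ g) : ∏ i, ly (v i) ^ e i ∣ g :=
  Fintype.prod_dvd_of_isRelPrime (fun i j hij => (ly_rel (hv i j hij)).pow) h

theorem bih_lys {ι : Type} [Fintype ι] (v : ι → Fin 4 → K) (e : ι → ℕ) :
    Bih 0 (∑ i, e i : ℕ) (∏ i, ly (v i) ^ e i) :=
  (bih_prod Finset.univ _ _ _ fun i => (bih_ly (v i)).pow (e i)).of_eq (by simp) (by simp)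

/-- a form with too many zeros -/
theorem bin_zero {ι : Type} [Fintype ι] {v : ι → Fin 4 → K} (hp : ∀ i, Pt (v i))
    (hv : ∀ i j, i ≠ j → dy (v i) (v j) ≠ 0) {e : ι → ℕ} {p q : ℤ} {g : Cx K} (hg : Bih p q g)
    (h : ∀ i, ly (v i) ^ e i ∣ g) (hq : q < (∑ i, e i : ℕ)) : g = 0 := by
  obtain ⟨u, rfl⟩ := bin_dvd hv h
  rw [(hg.of_mul (bih_lys v e) (Finset.prod_ne_zero_iff.2 fun i _ =>
    pow_ne_zero _ (ly_ne (hp i)))).neg_deg (.inr (by omega)), mul_zero]

theorem Bih.const {g : Cx K} (h : Bih 0 0 g) : g = C (coeff 0 g) := by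
  classical
  ext μ
  rw [coeff_C]
  split_ifs with e
  · rw [e]
  · by_contra h0
    obtain ⟨h1, h2⟩ := bih_iff.1 h μ h0
    refine e (Finsupp.ext fun i => ?_)
    fin_cases i <;> simp <;> omega

/-- a polynomial which vanishes on a graph -/
theorem graph_dvd {d : ℤ} {A B : Cx K} (hA : Bih 0 d A) (hB : Bih 0 d B) (hA0 : A ≠ 0)
    (hr : IsRelPrime A B) {p q : ℤ} {G : Cx K} (hG : Bih p q G) (h : grf A B G = 0) :
    A * X 0 - B * X 1 ∣ G := by
  rcases lt_or_ge p 0 with e | e
  · rw [hG.neg_deg (.inl e)]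
    exact dvd_zero _
  obtain ⟨p, rfl⟩ := Int.eq_ofNat_of_zero_le e
  clear e
  have g0 : grf A B (X 0) = B := by simp [grf]
  have g1 : grf A B (X 1) = A := by simp [grf]
  have x1 : (X 1 : Cx K) ≠ 0 := X_ne_zero _
  induction p generalizing G with
  | zero =>
    rw [← grf_fix A B hG, h]
    exact dvd_zero _
  | succ p ih =>
    obtain ⟨g, hg⟩ : X 0 ^ (p + 1) ∣ cmp ![1, 0, 0, 0] (p + 1) G := by
      rw [X_pow_dvd_iff]
      intro μ hμ
      rw [cmp_coeff, wt4] at hμ
      by_contra e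
      exact hμ (if_neg (by omega))
    obtain ⟨G1, hG1⟩ : X 1 ^ 1 ∣ G - cmp ![1, 0, 0, 0] (p + 1) G := by
      rw [X_pow_dvd_iff]
      intro μ hμ
      rw [coeff_sub, cmp_coeff, wt4] at hμ
      split_ifs at hμ with e
      · exact absurd (sub_self _) hμ
      · have := (bih_iff.1 hG μ (by rwa [sub_zero] at hμ)).1
        omega
    have b1 : Bih 0 q g := by
      have := hG.cmp ![1, 0, 0, 0] (p + 1)
      rw [hg] at this
      exact (this.of_mul (bih_X0.pow _) (pow_ne_zero _ (X_ne_zero _))).of_eq (by ring) (by ring)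
    have e1 : G = X 0 ^ (p + 1) * g + X 1 * G1 := by rw [← hg, ← pow_one (X 1), ← hG1]; ring
    have e2 : B ^ (p + 1) * g + A * grf A B G1 = 0 := by
      rw [← h, e1, map_add, map_mul, map_mul, map_pow, g0, g1, grf_fix A B b1]
    obtain ⟨u, rfl⟩ : A ∣ g := (hr.pow_right (n := p + 1)).dvd_of_dvd_mul_left
      ⟨-grf A B G1, by linear_combination e2⟩
    have b2 := b1.of_mul hA hA0
    have b3 : Bih (p + 1 : ℕ) q (X 1 * (G1 + B * u * X 0 ^ p)) := by
      have e3 : X 1 * (G1 + B * u * X 0 ^ p) = G - (A * X 0 - B * X 1) * (u * X 0 ^ p) := by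
        rw [e1]; ring
      rw [e3]
      exact hG.sub ((((hA.mul bih_X0).sub (hB.mul bih_X1)).mul (b2.mul (bih_X0.pow p))).of_eq
        (by push_cast; ring) (by ring))
    have b4 : A * X 0 - B * X 1 ∣ G1 + B * u * X 0 ^ p := by
      refine ih (mul_left_cancel₀ hA0 ?_)
        ((b3.of_mul bih_X1 x1).of_eq (by push_cast; ring) (by ring))
      rw [map_add, map_mul, map_mul, map_pow, g0, grf_fix A B hB,
        grf_fix A B (b2.of_eq (sub_self _) rfl)]
      linear_combination e2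
    have e4 : G = (A * X 0 - B * X 1) * (u * X 0 ^ p) + X 1 * (G1 + B * u * X 0 ^ p) := by
      rw [e1]; ring
    rw [e4]
    exact dvd_add (dvd_mul_right _ _) (b4.mul_left _)

/-- divisibility passes to the limit -/
theorem dvd_lim {O k σ : Type} [CommRing O] [IsDomain O] [ValuationRing O] [Algebra O K]
    [IsFractionRing O K] [Field k] (π : O →+* k) {U H : MvPolynomial σ O} (hU : map π U ≠ 0)
    (h : map (algebraMap O K) U ∣ map (algebraMap O K) H) : map π U ∣ map π H := by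
  have hi := map_injective (σ := σ) _ (IsFractionRing.injective O K)
  obtain ⟨ψ, hψ⟩ := h
  by_cases h0 : ψ = 0
  · rw [hi (hψ.trans (by rw [h0, mul_zero, map_zero])), map_zero]
    exact dvd_zero _
  obtain ⟨c, G, μ, hc, h1, h2⟩ := lim_prim (O := O) h0
  rcases ValuationRing.isInteger_or_isInteger O c with ⟨a, ha⟩ | ⟨a, ha⟩
  · have e : C a * H = U * G := hi (by
      rw [map_mul, map_mul, map_C, ha, hψ, h1, smul_eq_C_mul]; ring)
    have e1 := congrArg (map π) e
    rw [map_mul, map_mul, map_C] at e1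
    have g0 : map π G ≠ 0 := fun e => by
      have := congrArg (coeff μ) e
      rw [coeff_map, h2, map_one, coeff_zero] at this
      exact one_ne_zero this
    have a0 : π a ≠ 0 := fun e => mul_ne_zero hU g0 (by rw [← e1, e, map_zero, zero_mul])
    exact ((IsUnit.mk0 _ a0).map C).dvd_mul_left.1 ⟨_, e1⟩
  · have e : H = U * (C a * G) := hi (by
      rw [map_mul, map_mul, map_C, ha, hψ, h1, smul_eq_C_mul, ← mul_assoc (C _), ← map_mul,
        inv_mul_cancel₀ hc, map_one, one_mul])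
    rw [e, map_mul]
    exact dvd_mul_right _ _

end Pool.Agent.Lib.MP_d03834_ag.Core
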