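import Pool.Agent.Lib.MP_d03834_ag.Core.Bi

/-! Plane curves with fat points on a line and on a parabola: peeling. -/

set_option autoImplicit false

namespace Pool.Agent.Lib.MP_d03834_ag.Core.End

open MvPolynomial Module

/-- the affine plane -/
abbrev A2 (k : Type) [CommRing k] : Type := MvPolynomial (Fin 2) k

section ring
variable {k : Type} [CommRing k]

/-- the ideal of the point (a, b) -/
noncomputable def aid (a b : k) : Ideal (A2 k) := Ideal.span {X 0 - C a, X 1 - C b}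

/-- translation -/
noncomputable def tr (a b : k) : A2 k →ₐ[k] A2 k := aeval ![X 0 + C a, X 1 + C b]

theorem aid_map {S : Type} [CommRing S] {Φ : Type} [FunLike Φ (A2 k) S] [RingHomClass Φ (A2 k) S]
    (φ : Φ) {a b : k} {I : Ideal S} (h1 : φ (X 0 - C a) ∈ I) (h2 : φ (X 1 - C b) ∈ I) {m : ℕ}
    {F : A2 k} (h : F ∈ aid a b ^ m) : φ F ∈ I ^ m := by
  have h3 := Ideal.mem_map_of_mem φ h
  rw [Ideal.map_pow] at h3
  refine Ideal.pow_right_mono (Ideal.map_le_iff_le_comap.2 (Ideal.span_le.2 ?_)) m h3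
  rintro _ (rfl | rfl)
  · exact h1
  · exact h2

theorem aid0 (a b : k) : X 0 - C a ∈ aid a b := Ideal.subset_span (Set.mem_insert _ _)

theorem aid1 (a b : k) : X 1 - C b ∈ aid a b :=
  Ideal.subset_span (Set.mem_insert_of_mem _ (Set.mem_singleton _))

theorem tr_tr (a b : k) (F : A2 k) : tr (-a) (-b) (tr a b F) = F := by
  have : (tr (-a) (-b)).comp (tr a b) = AlgHom.id k _ := by
    refine algHom_ext fun i => ?_
    fin_cases i <;> simp [tr]
  exact DFunLike.congr_fun this F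

theorem aid_iff (a b : k) (m : ℕ) (F : A2 k) : F ∈ aid a b ^ m ↔ Low ![1, 1] m (tr a b F) := by
  rw [← low_span 0 1 (by decide) _ rfl rfl (by decide)]
  constructor
  · refine aid_map (tr a b) ?_ ?_
    · exact Ideal.subset_span (by simp [tr])
    · exact Ideal.subset_span (by simp [tr])
  · intro h
    have h' : tr a b F ∈ aid (0 : k) 0 ^ m := by simpa [aid] using h
    rw [← tr_tr a b F]
    exact aid_map _ (by simpa [tr, sub_eq_add_neg] using aid0 a b)
      (by simpa [tr, sub_eq_add_neg] using aid1 a b) h'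

theorem aid_div [IsDomain k] {a b : k} {c G : A2 k} {j n : ℕ} (hc : c ∉ aid a b ^ (j + 1))
    (h : c * G ∈ aid a b ^ n) : G ∈ aid a b ^ (n - j) := by
  rw [aid_iff] at hc h ⊢
  rw [map_mul] at h
  unfold Low at hc
  push Not at hc
  obtain ⟨ν, h1, h2⟩ := hc
  exact h.div ν h1 (by omega)

theorem aid_eval {a b : k} {F : A2 k} (h : F ∈ aid a b) : eval ![a, b] F = 0 := by
  have := aid_map (eval ![a, b]) (I := ⊥) (a := a) (b := b) (m := 1) (by simp) (by simp)
    (by simpa using h)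
  simpa using this

theorem not_aid {a b : k} {c : A2 k} (h : eval ![a, b] c ≠ 0) : c ∉ aid a b ^ (0 + 1) :=
  fun h1 => h (aid_eval (by simpa using h1))

theorem not_sq {a b : k} {F : A2 k} (i : Fin 2) (h0 : eval ![a, b] (pderiv i F) ≠ 0) :
    F ∉ aid a b ^ (1 + 1) := fun h => h0 <| by
  rw [pow_succ, pow_one] at h
  refine Submodule.mul_induction_on h (fun x hx y hy => ?_) fun x y hx hy => by
    rw [map_add, map_add, hx, hy, add_zero]
  simp [aid_eval hx, aid_eval hy]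

theorem wt2 (a b : ℕ) (μ : Fin 2 →₀ ℕ) : Finsupp.weight ![a, b] μ = a * μ 0 + b * μ 1 := by
  rw [Finsupp.weight_apply, Finsupp.sum_fintype _ _ (by simp), Fin.sum_univ_two]
  simp [mul_comm]

/-- polynomials of weighted degree less than N -/
def Dg (a b N : ℕ) : Submodule k (A2 k) where
  carrier := {G | ∀ μ, coeff μ G ≠ 0 → a * μ 0 + b * μ 1 < N}
  add_mem' := fun {F G} hF hG μ hμ => by
    rw [coeff_add] at hμ
    by_cases e : coeff μ F = 0
    · exact hG μ (by rwa [e, zero_add] at hμ)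
    · exact hF μ e
  zero_mem' := fun μ hμ => absurd (coeff_zero μ) hμ
  smul_mem' := fun c G hG μ hμ => hG μ fun e => hμ (by rw [coeff_smul, e, smul_zero])

theorem Dg.zero {a b : ℕ} {G : A2 k} (h : G ∈ Dg a b 0) : G = 0 := by
  ext μ
  by_contra h0
  exact absurd (h μ h0) (Nat.not_lt_zero _)

theorem Dg.div [IsDomain k] {a b N e : ℕ} {c G : A2 k} (h : c * G ∈ Dg a b N) (ν : Fin 2 →₀ ℕ)
    (hc : coeff ν c ≠ 0) (he : e ≤ a * ν 0 + b * ν 1) : G ∈ Dg a b (N - e) := by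
  by_cases h0 : G = 0
  · rw [h0]; exact zero_mem _
  rcases N with _ | N
  · exact absurd (Dg.zero h) (mul_ne_zero (fun e => hc (by rw [e, coeff_zero])) h0)
  have h1 : Top ![a, b] N (c * G) := fun μ hμ => by
    have := h μ hμ
    rw [wt2]; omega
  obtain ⟨h2, h3⟩ := h1.div ν hc ((wt2 a b ν).symm ▸ he) h0
  intro μ hμ
  have := h3 μ hμ
  rw [wt2] at this
  omega

theorem Dg.aeval {a b N : ℕ} {G : A2 k} (h : G ∈ Dg a b N) {f g : Polynomial k}
    (hf : f.natDegree ≤ a) (hg : g.natDegree ≤ b) :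
    aeval ![f, g] G ∈ Polynomial.degreeLT k N := by
  rw [G.as_sum, map_sum]
  refine Submodule.sum_mem _ fun μ hμ => ?_
  have h1 := h μ (mem_support_iff.1 hμ)
  rw [aeval_monomial, Finsupp.prod_fintype _ _ fun _ => pow_zero _, Fin.prod_univ_two,
    ← Algebra.smul_def]
  refine Submodule.smul_mem _ _ (Polynomial.mem_degreeLT.2 ?_)
  refine lt_of_le_of_lt Polynomial.degree_le_natDegree (Nat.cast_lt.2 (lt_of_le_of_lt ?_ h1))
  refine Polynomial.natDegree_mul_le.trans (add_le_add ?_ ?_)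
  · exact Polynomial.natDegree_pow_le.trans (by rw [mul_comm]; exact Nat.mul_le_mul_right _ hf)
  · exact Polynomial.natDegree_pow_le.trans (by rw [mul_comm]; exact Nat.mul_le_mul_right _ hg)

theorem sub_dvd (f : Fin 2 → A2 k) (c : A2 k) (h : ∀ i, c ∣ X i - f i) (G : A2 k) :
    c ∣ G - aeval f G := by
  induction G using MvPolynomial.induction_on with
  | C a => simp
  | add p q hp hq =>
    rw [map_add, add_sub_add_comm]
    exact dvd_add hp hq
  | mul_X p i hp =>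
    rw [map_mul, aeval_X]
    have : p * X i - aeval f p * f i = (p - aeval f p) * X i + aeval f p * (X i - f i) := by ring
    rw [this]
    exact dvd_add (hp.mul_right _) ((h i).mul_left _)

/-- restriction to the line -/
noncomputable def rF : A2 k →ₐ[k] Polynomial k := aeval ![0, Polynomial.X]

/-- the quadratic polynomial -/
noncomputable def qq (Q0 Q1 Q2 : k) : Polynomial k :=
  Polynomial.C Q0 + Polynomial.C Q1 * Polynomial.X + Polynomial.C Q2 * Polynomial.X ^ 2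

/-- restriction to the parabola -/
noncomputable def rG (Q0 Q1 Q2 : k) : A2 k →ₐ[k] Polynomial k :=
  aeval ![Polynomial.X, qq Q0 Q1 Q2]

/-- the equation of the parabola -/
noncomputable def gam (Q0 Q1 Q2 : k) : A2 k := X 1 - (C Q0 + C Q1 * X 0 + C Q2 * X 0 ^ 2)

theorem rF_dvd {G : A2 k} (h : rF G = 0) : X 0 ∣ G := by
  have e : (Polynomial.aeval (X 1 : A2 k)).comp (rF (k := k)) = aeval ![0, X 1] := by
    refine algHom_ext fun i => ?_
    fin_cases i <;> simp [rF]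
  have h1 := sub_dvd ![0, X 1] (X 0) (fun i => by fin_cases i <;> simp) G
  rwa [← e, AlgHom.comp_apply, h, map_zero, sub_zero] at h1

theorem rG_dvd {Q0 Q1 Q2 : k} {G : A2 k} (h : rG Q0 Q1 Q2 G = 0) : gam Q0 Q1 Q2 ∣ G := by
  have e : (Polynomial.aeval (X 0 : A2 k)).comp (rG Q0 Q1 Q2) =
      aeval ![X 0, C Q0 + C Q1 * X 0 + C Q2 * X 0 ^ 2] := by
    refine algHom_ext fun i => ?_
    fin_cases i <;> simp [rG, qq]
  have h1 := sub_dvd ![X 0, C Q0 + C Q1 * X 0 + C Q2 * X 0 ^ 2] (gam Q0 Q1 Q2)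
    (fun i => by fin_cases i <;> simp [gam]) G
  rwa [← e, AlgHom.comp_apply, h, map_zero, sub_zero] at h1

theorem rF_aid {b : k} {m : ℕ} {G : A2 k} (h : G ∈ aid 0 b ^ m) :
    (Polynomial.X - Polynomial.C b) ^ m ∣ rF G := by
  rw [← Ideal.mem_span_singleton, ← Ideal.span_singleton_pow]
  exact aid_map rF (by simp [rF]) (by simp [rF]) h

theorem rG_aid {Q0 Q1 Q2 a : k} {m : ℕ} {G : A2 k}
    (h : G ∈ aid a (Q0 + Q1 * a + Q2 * a ^ 2) ^ m) :
    (Polynomial.X - Polynomial.C a) ^ m ∣ rG Q0 Q1 Q2 G := by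
  rw [← Ideal.mem_span_singleton, ← Ideal.span_singleton_pow]
  refine aid_map (rG Q0 Q1 Q2) (by simp [rG]) ?_ h
  rw [Ideal.mem_span_singleton, Polynomial.dvd_iff_isRoot]
  simp [rG, qq]

theorem qq_deg (Q0 Q1 Q2 : k) : (qq Q0 Q1 Q2).natDegree ≤ 2 := by
  unfold qq
  compute_degree

end ring

section field
variable {k : Type} [Field k]

instance Dg_fin (N : ℕ) : FiniteDimensional k (Dg (k := k) 1 1 N) := by
  refine Submodule.finiteDimensional_of_le (S₂ := restrictTotalDegree (Fin 2) k N) fun F hF => ?_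
  rw [mem_restrictTotalDegree, totalDegree, Finset.sup_le_iff]
  intro μ hμ
  have := hF μ (mem_support_iff.1 hμ)
  rw [Finsupp.sum_fintype _ _ fun _ => rfl, Fin.sum_univ_two]
  omega

/-- restriction and residual -/
theorem rk_peel {M N : Type} [AddCommGroup M] [Module k M] [AddCommGroup N] [Module k N]
    (V W : Submodule k M) (U : Submodule k N) [FiniteDimensional k V] [FiniteDimensional k W]
    [FiniteDimensional k U] (ρ : M →ₗ[k] N) (ψ : M →ₗ[k] M) (h1 : ∀ G ∈ V, ρ G ∈ U)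
    (h2 : ∀ G ∈ V, ρ G = 0 → ∃ H ∈ W, ψ H = G) :
    finrank k V ≤ finrank k W + finrank k U := by
  have a := LinearMap.finrank_range_add_finrank_ker (ρ.comp V.subtype)
  have b : finrank k (LinearMap.range (ρ.comp V.subtype)) ≤ finrank k U :=
    Submodule.finrank_mono (by
      rintro _ ⟨G, rfl⟩
      exact h1 G G.2)
  have c : finrank k (LinearMap.ker (ρ.comp V.subtype)) ≤ finrank k W := by
    rw [← (Submodule.equivMapOfInjective _ V.injective_subtype _).finrank_eq.symm.symm.symm]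
    refine le_trans (Submodule.finrank_mono ?_) (Submodule.finrank_map_le ψ W)
    rintro _ ⟨G, hG, rfl⟩
    exact h2 G G.2 hG
  omega

/-- multiples of a polynomial -/
noncomputable def Mu (f : Polynomial k) (N : ℕ) : Submodule k (Polynomial k) :=
  (Polynomial.degreeLT k N).map (LinearMap.mulLeft k f)

instance (N : ℕ) : FiniteDimensional k (Polynomial.degreeLT k N) :=
  (Polynomial.degreeLTEquiv k N).symm.finiteDimensional

theorem rk_lt (N : ℕ) : finrank k (Polynomial.degreeLT k N) = N := by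
  rw [(Polynomial.degreeLTEquiv k N).finrank_eq]
  simp

instance (f : Polynomial k) (N : ℕ) : FiniteDimensional k (Mu f N) := by
  unfold Mu; infer_instance

theorem rk_Mu (f : Polynomial k) (N : ℕ) : finrank k (Mu f N) ≤ N :=
  (Submodule.finrank_map_le _ _).trans (rk_lt N).le

theorem lt_div {f q : Polynomial k} {N : ℕ} (hf : f ≠ 0) (h : f * q ∈ Polynomial.degreeLT k N) :
    q ∈ Polynomial.degreeLT k (N - f.natDegree) := by
  by_cases h0 : q = 0
  · rw [h0]; exact zero_mem _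
  rw [Polynomial.mem_degreeLT, ← Polynomial.natDegree_lt_iff_degree_lt (mul_ne_zero hf h0),
    Polynomial.natDegree_mul hf h0] at h
  rw [Polynomial.mem_degreeLT, ← Polynomial.natDegree_lt_iff_degree_lt h0]
  omega

/-- the product of the roots -/
noncomputable def pr {ι : Type} [Fintype ι] (r : ι → k) (m : ι → ℕ) : Polynomial k :=
  ∏ i, (Polynomial.X - Polynomial.C (r i)) ^ m i

theorem pr_ne {ι : Type} [Fintype ι] (r : ι → k) (m : ι → ℕ) : pr r m ≠ 0 :=
  Finset.prod_ne_zero_iff.2 fun _ _ => pow_ne_zero _ (Polynomial.X_sub_C_ne_zero _)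

theorem pr_deg {ι : Type} [Fintype ι] (r : ι → k) (m : ι → ℕ) : (pr r m).natDegree = ∑ i, m i := by
  rw [pr, Polynomial.natDegree_prod _ _ fun _ _ => pow_ne_zero _ (Polynomial.X_sub_C_ne_zero _)]
  simp

theorem pr_dvd {ι : Type} [Fintype ι] {r : ι → k} (hr : Function.Injective r) {m : ι → ℕ}
    {p : Polynomial k} (h : ∀ i, (Polynomial.X - Polynomial.C (r i)) ^ m i ∣ p) : pr r m ∣ p :=
  Finset.prod_dvd_of_coprime (fun _ _ _ _ hij =>
    (Polynomial.pairwise_coprime_X_sub_C hr hij).pow) fun i _ => h i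

theorem mem_Mu {ι : Type} [Fintype ι] {r : ι → k} (hr : Function.Injective r) {m : ι → ℕ}
    {p : Polynomial k} {N : ℕ} (hp : p ∈ Polynomial.degreeLT k N)
    (h : ∀ i, (Polynomial.X - Polynomial.C (r i)) ^ m i ∣ p) : p ∈ Mu (pr r m) (N - ∑ i, m i) := by
  obtain ⟨q, rfl⟩ := pr_dvd hr h
  exact ⟨q, pr_deg r m ▸ lt_div (pr_ne r m) hp, rfl⟩

variable {ι κ : Type} [Fintype ι] [Fintype κ]

/-- curves of degree less than N with fat points on the line and on the parabola -/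
noncomputable def PH (Q0 Q1 Q2 : k) (s : ι → k) (z : κ → k) (N : ℕ) (p : ι → ℕ) (m : κ → ℕ) :
    Submodule k (A2 k) :=
  Dg 1 1 N ⊓ ((⨅ a, (aid 0 (s a) ^ p a).restrictScalars k) ⊓
    ⨅ i, (aid (z i) (Q0 + Q1 * z i + Q2 * z i ^ 2) ^ m i).restrictScalars k)

variable {Q0 Q1 Q2 : k} {s : ι → k} {z : κ → k}

omit [Fintype ι] [Fintype κ] in
theorem mem_PH {N : ℕ} {p : ι → ℕ} {m : κ → ℕ} {G : A2 k} :
    G ∈ PH Q0 Q1 Q2 s z N p m ↔ G ∈ Dg 1 1 N ∧ (∀ a, G ∈ aid 0 (s a) ^ p a) ∧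
      ∀ i, G ∈ aid (z i) (Q0 + Q1 * z i + Q2 * z i ^ 2) ^ m i := by
  simp [PH]

instance (N : ℕ) (p : ι → ℕ) (m : κ → ℕ) : FiniteDimensional k (PH Q0 Q1 Q2 s z N p m) :=
  Submodule.finiteDimensional_of_le inf_le_left

omit [Fintype ι] [Fintype κ] in
theorem PH_divF (hz : ∀ i, z i ≠ 0) {N : ℕ} {p : ι → ℕ} {m : κ → ℕ} {G : A2 k}
    (h : X 0 * G ∈ PH Q0 Q1 Q2 s z N p m) :
    G ∈ PH Q0 Q1 Q2 s z (N - 1) (fun a => p a - 1) m := by
  rw [mem_PH] at h ⊢
  refine ⟨Dg.div h.1 (Finsupp.single 0 1) (by simp [coeff_X]) (by simp), fun a => ?_, fun i => ?_⟩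
  · exact aid_div (not_sq 0 (by simp)) (h.2.1 a)
  · exact aid_div (not_aid (by simpa using hz i)) (h.2.2 i)

omit [Fintype ι] [Fintype κ] in
theorem PH_divG (h2 : Q2 ≠ 0) (hs : ∀ a, s a ≠ Q0) {N : ℕ} {p : ι → ℕ} {m : κ → ℕ} {G : A2 k}
    (h : gam Q0 Q1 Q2 * G ∈ PH Q0 Q1 Q2 s z N p m) :
    G ∈ PH Q0 Q1 Q2 s z (N - 2) p (fun i => m i - 1) := by
  rw [mem_PH] at h ⊢
  refine ⟨Dg.div h.1 (Finsupp.single 0 2) ?_ (by simp), fun a => ?_, fun i => ?_⟩
  · have e1 : (Finsupp.single 1 1 : Fin 2 →₀ ℕ) ≠ Finsupp.single 0 2 := fun e => by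
      simpa using DFunLike.congr_fun e 0
    have e2 : (Finsupp.single 0 1 : Fin 2 →₀ ℕ) ≠ Finsupp.single 0 2 := fun e => by
      simpa using DFunLike.congr_fun e 0
    have e3 : (0 : Fin 2 →₀ ℕ) ≠ Finsupp.single 0 2 := fun e => by
      simpa using DFunLike.congr_fun e 0
    simp [gam, coeff_X, coeff_X_pow, coeff_C, e1, e2, e3, h2]
  · exact aid_div (not_aid (by simpa [gam, sub_eq_zero] using hs a)) (h.2.1 a)
  · exact aid_div (not_sq 1 (by simp [gam])) (h.2.2 i)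

omit [Fintype κ] in
theorem peelF (hs : Function.Injective s) (hz : ∀ i, z i ≠ 0) (N : ℕ) (p : ι → ℕ) (m : κ → ℕ) :
    finrank k (PH Q0 Q1 Q2 s z N p m) ≤
      finrank k (PH Q0 Q1 Q2 s z (N - 1) (fun a => p a - 1) m) + (N - ∑ a, p a) := by
  refine le_trans (rk_peel _ _ (Mu (pr s p) (N - ∑ a, p a)) rF.toLinearMap
    (LinearMap.mulLeft k (X 0)) (fun G hG => ?_) fun G hG h0 => ?_)
    (Nat.add_le_add_left (rk_Mu _ _) _)
  · rw [mem_PH] at hG
    exact mem_Mu hs (Dg.aeval hG.1 (by simp) (by simp)) fun a => rF_aid (hG.2.1 a)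
  · obtain ⟨H, rfl⟩ := rF_dvd h0
    exact ⟨H, PH_divF hz hG, rfl⟩

omit [Fintype ι] in
theorem peelG (h2 : Q2 ≠ 0) (hs : ∀ a, s a ≠ Q0) (hz : Function.Injective z) (N : ℕ) (p : ι → ℕ)
    (m : κ → ℕ) : finrank k (PH Q0 Q1 Q2 s z N p m) ≤
      finrank k (PH Q0 Q1 Q2 s z (N - 2) p (fun i => m i - 1)) + (2 * N - 1 - ∑ i, m i) := by
  refine le_trans (rk_peel _ _ (Mu (pr z m) (2 * N - 1 - ∑ i, m i)) (rG Q0 Q1 Q2).toLinearMap
    (LinearMap.mulLeft k (gam Q0 Q1 Q2)) (fun G hG => ?_) fun G hG h0 => ?_)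
    (Nat.add_le_add_left (rk_Mu _ _) _)
  · rw [mem_PH] at hG
    have h1 : G ∈ Dg 1 2 (2 * N - 1) := fun μ hμ => by
      have := hG.1 μ hμ
      omega
    exact mem_Mu hz (Dg.aeval h1 (by simp) (qq_deg _ _ _)) fun i => rG_aid (hG.2.2 i)
  · obtain ⟨H, rfl⟩ := rG_dvd h0
    exact ⟨H, PH_divG h2 hs hG, rfl⟩

theorem tr_Dg {N : ℕ} {G : A2 k} (h : G ∈ Dg 1 1 N) (a b : k) : tr a b G ∈ Dg 1 1 N := by
  rw [G.as_sum, map_sum]
  refine Submodule.sum_mem _ fun μ hμ ν hν => ?_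
  have h1 := h μ (mem_support_iff.1 hμ)
  have h2 := le_totalDegree (mem_support_iff.2 hν)
  rw [Finsupp.sum_fintype _ _ fun _ => rfl, Fin.sum_univ_two] at h2
  have h3 : (tr a b (monomial μ (coeff μ G))).totalDegree ≤ μ 0 + μ 1 := by
    rw [tr, aeval_monomial, Finsupp.prod_fintype _ _ fun _ => pow_zero _, Fin.prod_univ_two,
      algebraMap_eq]
    have d : ∀ (i : Fin 2) (c : k) (n : ℕ), ((X i + C c : A2 k) ^ n).totalDegree ≤ n := by
      intro i c n
      refine (totalDegree_pow _ _).trans ?_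
      have := (totalDegree_add (X i : A2 k) (C c)).trans (by simp : _ ≤ 1)
      nlinarith
    refine (totalDegree_mul _ _).trans ?_
    rw [totalDegree_C, zero_add]
    exact (totalDegree_mul _ _).trans (add_le_add (d 0 a _) (d 1 b _))
  omega

/-- a point of multiplicity above the degree -/
theorem Dg_aid {N m : ℕ} {G : A2 k} {a b : k} (h : G ∈ Dg 1 1 N) (h1 : G ∈ aid a b ^ m)
    (hm : N ≤ m) : G = 0 := by
  rw [← tr_tr a b G, show tr a b G = 0 from ?_, map_zero]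
  ext μ
  by_contra h0
  have a1 := tr_Dg h a b μ h0
  have a2 := (aid_iff a b m G).1 h1 μ h0
  rw [wt2] at a2
  omega

omit [Fintype ι] [Fintype κ] in
theorem PH_zero {N : ℕ} {p : ι → ℕ} {m : κ → ℕ} (i : κ) (h : N ≤ m i) :
    finrank k (PH Q0 Q1 Q2 s z N p m) = 0 := by
  rw [Submodule.finrank_eq_zero, eq_bot_iff]
  intro G hG
  rw [mem_PH] at hG
  exact Dg_aid hG.1 (hG.2.2 i) h

end field

end Pool.Agent.Lib.MP_d03834_ag.Core.End
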