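import Pool.Agent.Lib.MP_d03834_ag.Core.BiEndA

/-! The count for three points on the line and five points on the parabola. -/

set_option autoImplicit false

namespace Pool.Agent.Lib.MP_d03834_ag.Core.End

open MvPolynomial Module

/-- twice the triangular number -/
def TT (x : ℕ) : ℕ := x * (x + 1)

theorem TT_pred (x : ℕ) : TT x = TT (x - 1) + 2 * x := by
  rcases x with _ | x
  · rfl
  · simp only [TT, Nat.add_sub_cancel]
    ring

/-- the classes which can be peeled without loss -/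
def Pl (N : ℕ) (p : Fin 3 → ℕ) (m : Fin 5 → ℕ) : Prop :=
  p 1 ≤ p 0 ∧ p 2 ≤ p 0 ∧ m 0 ≤ m 1 ∧ m 1 ≤ m 2 ∧ m 2 ≤ m 3 ∧ m 3 ≤ m 4 ∧
    ((p 0 = 0 ∧ m 3 = 0 ∧ N = m 4) ∨ (p 0 + p 1 + p 2 ≤ N ∧ m 0 + m 1 + m 2 + m 3 + m 4 < 2 * N ∧
      (p 0 + m 3 + m 4 < N ∨ (p 0 = 0 ∧ m 3 + m 4 ≤ N))))

theorem num (h : ℕ → (Fin 3 → ℕ) → (Fin 5 → ℕ) → ℕ) (hz : ∀ N p m, N ≤ m 4 → h N p m = 0)
    (pF : ∀ N p m, h N p m ≤ h (N - 1) (fun a => p a - 1) m + (N - ∑ a, p a))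
    (pG : ∀ N p m, h N p m ≤ h (N - 2) p (fun i => m i - 1) + (2 * N - 1 - ∑ i, m i))
    (N : ℕ) (p : Fin 3 → ℕ) (m : Fin 5 → ℕ) (hP : Pl N p m) :
    2 * h N p m + (TT (p 0) + TT (p 1) + TT (p 2)) +
      (TT (m 0) + TT (m 1) + TT (m 2) + TT (m 3) + TT (m 4)) ≤ TT N := by
  induction N using Nat.strong_induction_on generalizing p m with
  | _ N ih =>
  obtain ⟨a1, a2, a3, a4, a5, a6, a7⟩ := hP
  by_cases h0 : N ≤ m 4
  · have e : p 0 = 0 ∧ p 1 = 0 ∧ p 2 = 0 ∧ m 0 = 0 ∧ m 1 = 0 ∧ m 2 = 0 ∧ m 3 = 0 ∧ m 4 = N := by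
      omega
    obtain ⟨e0, e1, e2, e3, e4, e5, e6, e7⟩ := e
    rw [hz N p m h0, e0, e1, e2, e3, e4, e5, e6, e7]
    simp [TT]
  by_cases hF : (1 ≤ p 0 ∧ m 0 + m 1 + m 2 + m 3 + m 4 + 3 ≤ 2 * N) ∨ (p 0 = 0 ∧ m 4 = 0)
  · have k := ih (N - 1) (by omega) (fun a => p a - 1) m (by unfold Pl; beta_reduce; omega)
    have k1 := pF N p m
    rw [Fin.sum_univ_three] at k1
    have t0 := TT_pred (p 0)
    have t1 := TT_pred (p 1)
    have t2 := TT_pred (p 2)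
    have t3 := TT_pred N
    beta_reduce at k
    omega
  · have k := ih (N - 2) (by omega) p (fun i => m i - 1) (by unfold Pl; beta_reduce; omega)
    have k1 := pG N p m
    rw [Fin.sum_univ_five] at k1
    have t0 := TT_pred (m 0)
    have t1 := TT_pred (m 1)
    have t2 := TT_pred (m 2)
    have t3 := TT_pred (m 3)
    have t4 := TT_pred (m 4)
    have t5 := TT_pred N
    have t6 := TT_pred (N - 1)
    rw [show N - 1 - 1 = N - 2 from Nat.sub_sub N 1 1] at t6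
    beta_reduce at k
    omega

variable {k : Type} [Field k] {Q0 Q1 Q2 : k}

theorem PH_num {s : Fin 3 → k} {z : Fin 5 → k} (h2 : Q2 ≠ 0) (hs : Function.Injective s)
    (hs0 : ∀ a, s a ≠ Q0) (hz : Function.Injective z) (hz0 : ∀ i, z i ≠ 0) {N : ℕ}
    {p : Fin 3 → ℕ} {m : Fin 5 → ℕ} (hP : Pl N p m) :
    2 * finrank k (PH Q0 Q1 Q2 s z N p m) + (TT (p 0) + TT (p 1) + TT (p 2)) +
      (TT (m 0) + TT (m 1) + TT (m 2) + TT (m 3) + TT (m 4)) ≤ TT N :=
  num (fun N p m => finrank k (PH Q0 Q1 Q2 s z N p m)) (fun _ _ _ h => PH_zero 4 h)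
    (peelF hs hz0) (peelG h2 hs0 hz) N p m hP

variable {ι κ : Type} [Fintype ι] [Fintype κ] {s : ι → k} {z : κ → k}

omit [Fintype ι] [Fintype κ] in
theorem PH_perm (σ : Equiv.Perm κ) (N : ℕ) (p : ι → ℕ) (m : κ → ℕ) :
    PH Q0 Q1 Q2 s z N p m = PH Q0 Q1 Q2 s (z ∘ σ) N p (m ∘ σ) := by
  ext G
  simp only [mem_PH, Function.comp_apply]
  exact and_congr_right fun _ => and_congr_right fun _ => σ.surjective.forall

/-- the map P ↦ f * P(u) -/
noncomputable def cu (f u : Polynomial k) : Polynomial k →ₗ[k] Polynomial k :=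
  (LinearMap.mulLeft k f).comp (Polynomial.aeval u).toLinearMap

theorem cu_apply (f u P : Polynomial k) : cu f u P = f * P.comp u := by
  simp [cu, Polynomial.comp_eq_aeval]

/-- the limit system: the restriction to the line is invariant under the involution -/
noncomputable def LL (Q0 Q1 Q2 : k) (s : ι → k) (z : κ → k) (u : Polynomial k) (N φ : ℕ)
    (p : ι → ℕ) (m : κ → ℕ) : Submodule k (A2 k) :=
  PH Q0 Q1 Q2 s z N p m ⊓ (Dg 0 1 (N - φ) ⊓ (LinearMap.range (cu (pr s p) u)).comap rF.toLinearMap)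

omit [Fintype κ] in
theorem mem_LL {u : Polynomial k} {N φ : ℕ} {p : ι → ℕ} {m : κ → ℕ} {G : A2 k} :
    G ∈ LL Q0 Q1 Q2 s z u N φ p m ↔ G ∈ PH Q0 Q1 Q2 s z N p m ∧ G ∈ Dg 0 1 (N - φ) ∧
      ∃ P : Polynomial k, pr s p * P.comp u = rF G := by
  simp [LL, cu_apply]

instance (u : Polynomial k) (N φ : ℕ) (p : ι → ℕ) (m : κ → ℕ) :
    FiniteDimensional k (LL Q0 Q1 Q2 s z u N φ p m) :=
  Submodule.finiteDimensional_of_le inf_le_left

theorem comp_lt {u P : Polynomial k} (hu : u.natDegree = 2) {N c : ℕ}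
    (h : P.comp u ∈ Polynomial.degreeLT k N) (hc : N ≤ 2 * c) : P ∈ Polynomial.degreeLT k c := by
  by_cases h0 : P = 0
  · rw [h0]; exact zero_mem _
  have h1 : P.comp u ≠ 0 := fun e => by
    rcases Polynomial.comp_eq_zero_iff.1 e with e | ⟨-, e⟩
    · exact h0 e
    · rw [e, Polynomial.natDegree_C] at hu
      omega
  rw [Polynomial.mem_degreeLT, ← Polynomial.natDegree_lt_iff_degree_lt h1,
    Polynomial.natDegree_comp, hu] at h
  rw [Polynomial.mem_degreeLT, ← Polynomial.natDegree_lt_iff_degree_lt h0]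
  omega

omit [Fintype κ] in
/-- first the line -/
theorem LL_one (hz : ∀ i, z i ≠ 0) {u : Polynomial k} (hu : u.natDegree = 2) (N φ c : ℕ)
    (p : ι → ℕ) (m : κ → ℕ) (hc : N - φ - ∑ a, p a ≤ 2 * c) :
    finrank k (LL Q0 Q1 Q2 s z u N φ p m) ≤
      finrank k (PH Q0 Q1 Q2 s z (N - 1) (fun a => p a - 1) m) + c := by
  refine le_trans (rk_peel _ _ ((Polynomial.degreeLT k c).map (cu (pr s p) u)) rF.toLinearMap
    (LinearMap.mulLeft k (X 0)) (fun G hG => ?_) fun G hG h0 => ?_)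
    (Nat.add_le_add_left ((Submodule.finrank_map_le _ _).trans (rk_lt c).le) _)
  · obtain ⟨-, h1, P, h2⟩ := mem_LL.1 hG
    have h3 : rF G ∈ Polynomial.degreeLT k (N - φ) := Dg.aeval h1 (by simp) (by simp)
    rw [← h2] at h3
    exact ⟨P, comp_lt hu (lt_div (pr_ne s p) h3) (pr_deg s p ▸ hc), (cu_apply _ _ _).trans h2⟩
  · obtain ⟨H, rfl⟩ := rF_dvd h0
    exact ⟨H, PH_divF hz (mem_LL.1 hG).1, rfl⟩

/-- first the parabola -/
theorem LL_two (h2 : Q2 ≠ 0) (hs : ∀ a, s a ≠ Q0) (hz : Function.Injective z)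
    (hz0 : ∀ i, z i ≠ 0) {u : Polynomial k} (hu : u.natDegree = 2) (N φ c : ℕ) (hφ : φ ≤ 1)
    (p : ι → ℕ) (m : κ → ℕ) (hc : N - 1 - ∑ a, p a ≤ 2 * c) :
    finrank k (LL Q0 Q1 Q2 s z u N φ p m) ≤
      finrank k (PH Q0 Q1 Q2 s z (N - 3) (fun a => p a - 1) fun i => m i - 1) + (c - 1) +
        (2 * N - 1 - φ - ∑ i, m i) := by
  let V : Submodule k (A2 k) := LL Q0 Q1 Q2 s z u N φ p m ⊓ LinearMap.ker (rG Q0 Q1 Q2).toLinearMap
  have : FiniteDimensional k V := Submodule.finiteDimensional_of_le inf_le_left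
  refine le_trans (rk_peel _ V (Mu (pr z m) (2 * N - 1 - φ - ∑ i, m i)) (rG Q0 Q1 Q2).toLinearMap
    LinearMap.id (fun G hG => ?_) fun G hG h0 => ⟨G, ⟨hG, h0⟩, rfl⟩) (add_le_add ?_ (rk_Mu _ _))
  · obtain ⟨h1, h3, -⟩ := mem_LL.1 hG
    rw [mem_PH] at h1
    have h4 : G ∈ Dg 1 2 (2 * N - 1 - φ) := fun μ hμ => by
      have a := h1.1 μ hμ
      have b := h3 μ hμ
      omega
    exact mem_Mu hz (Dg.aeval h4 (by simp) (qq_deg _ _ _)) fun i => rG_aid (h1.2.2 i)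
  refine le_trans (rk_peel _ _ ((Mu (Polynomial.X - Polynomial.C (u.eval Q0)) (c - 1)).map
    (cu (pr s p) u)) rF.toLinearMap (LinearMap.mulLeft k (gam Q0 Q1 Q2 * X 0)) (fun G hG => ?_)
    fun G hG h0 => ?_) (Nat.add_le_add_left ((Submodule.finrank_map_le _ _).trans (rk_Mu _ _)) _)
  · obtain ⟨h1, -, P, h3⟩ := mem_LL.1 hG.1
    obtain ⟨H, rfl⟩ := rG_dvd hG.2
    have h4 : rF H ∈ Polynomial.degreeLT k (N - 2) :=
      Dg.aeval (mem_PH.1 (PH_divG h2 hs h1)).1 (by simp) (by simp)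
    have h5 : rF (gam Q0 Q1 Q2 * H) = (Polynomial.X - Polynomial.C Q0) * rF H := by
      simp [rF, gam]
    have h6 : pr s p * P.comp u ∈ Polynomial.degreeLT k (N - 1) := by
      rw [h3, h5]
      by_cases h0 : rF H = 0
      · rw [h0, mul_zero]; exact zero_mem _
      rw [Polynomial.mem_degreeLT, ← Polynomial.natDegree_lt_iff_degree_lt h0] at h4
      rw [Polynomial.mem_degreeLT, ← Polynomial.natDegree_lt_iff_degree_lt
        (mul_ne_zero (Polynomial.X_sub_C_ne_zero _) h0),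
        Polynomial.natDegree_mul (Polynomial.X_sub_C_ne_zero _) h0, Polynomial.natDegree_X_sub_C]
      omega
    have h7 := comp_lt hu (lt_div (pr_ne s p) h6) (pr_deg s p ▸ hc)
    have h8 : P.IsRoot (u.eval Q0) := by
      have e := congrArg (Polynomial.eval Q0) (h3.trans h5)
      rw [Polynomial.eval_mul, Polynomial.eval_comp, Polynomial.eval_mul, Polynomial.eval_sub,
        Polynomial.eval_X, Polynomial.eval_C, sub_self, zero_mul] at e
      refine (mul_eq_zero.1 e).resolve_left ?_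
      rw [pr, Polynomial.eval_prod]
      exact Finset.prod_ne_zero_iff.2 fun a _ => by
        simpa using fun e => absurd (sub_eq_zero.1 e).symm (hs a)
    obtain ⟨R, rfl⟩ := Polynomial.dvd_iff_isRoot.2 h8
    have h9 := lt_div (Polynomial.X_sub_C_ne_zero _) h7
    rw [Polynomial.natDegree_X_sub_C] at h9
    exact ⟨_, ⟨R, h9, rfl⟩, (cu_apply _ _ _).trans h3⟩
  · obtain ⟨H, rfl⟩ := rG_dvd hG.2
    have h5 : rF (gam Q0 Q1 Q2 * H) = (Polynomial.X - Polynomial.C Q0) * rF H := by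
      simp [rF, gam]
    obtain ⟨R, rfl⟩ := rF_dvd ((mul_eq_zero.1 (h5.symm.trans h0)).resolve_left
      (Polynomial.X_sub_C_ne_zero _))
    exact ⟨R, PH_divF hz0 (PH_divG h2 hs (mem_LL.1 hG.1).1), mul_assoc _ _ _⟩

end Pool.Agent.Lib.MP_d03834_ag.Core.End
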