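import Pool.Agent.Lib.MP_d03834_ag.Core.BiEndB

/-! Four fat points on two parallel lines: the leading form; two colliding fat points. -/

set_option autoImplicit false

namespace Pool.Agent.Lib.MP_d03834_ag.Core.End

open MvPolynomial Module

section ring
variable {k σ τ : Type} [CommRing k]

theorem top_mul {w : σ → ℕ} {a b : ℕ} {F G : MvPolynomial σ k} (hF : Top w a F) (hG : Top w b G) :
    Top w (a + b) (F * G) := by
  rw [top_iff] at hF hG ⊢
  rw [map_mul]
  exact Polynomial.natDegree_mul_le.trans (add_le_add hF hG)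

theorem top_pow {w : σ → ℕ} {a : ℕ} {F : MvPolynomial σ k} (hF : Top w a F) (n : ℕ) :
    Top w (n * a) (F ^ n) := by
  rw [top_iff] at hF ⊢
  rw [map_pow]
  exact Polynomial.natDegree_pow_le.trans (Nat.mul_le_mul_left _ hF)

theorem top_mono {w : σ → ℕ} {a b : ℕ} {F : MvPolynomial σ k} (hF : Top w a F) (h : a ≤ b) :
    Top w b F := fun μ hμ => (hF μ hμ).trans h

theorem top_C (w : σ → ℕ) (c : k) : Top w 0 (C c : MvPolynomial σ k) := by
  rw [top_iff, ← algebraMap_eq, AlgHom.commutes]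
  exact (Polynomial.natDegree_C _).le

theorem top_X (w : σ → ℕ) (i : σ) : Top w (w i) (X i : MvPolynomial σ k) := by
  rw [top_iff, gr, aeval_X]
  exact Polynomial.natDegree_monomial_le _

theorem top_sub {w : σ → ℕ} {a : ℕ} {F G : MvPolynomial σ k} (hF : Top w a F) (hG : Top w a G) :
    Top w a (F - G) := by
  rw [top_iff] at hF hG ⊢
  rw [map_sub]
  exact (Polynomial.natDegree_sub_le _ _).trans (max_le hF hG)

theorem top_aeval {w : Fin 4 → ℕ} {v : τ → ℕ} {n : ℕ} {F : Cx k} (hF : Top w n F)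
    (g : Fin 4 → MvPolynomial τ k) (hg : ∀ i, Top v (w i) (g i)) : Top v n (aeval g F) := by
  rw [top_iff, F.as_sum, map_sum, map_sum]
  refine Polynomial.natDegree_sum_le_of_forall_le _ _ fun μ hμ => ?_
  have h1 := hF μ (mem_support_iff.1 hμ)
  rw [Finsupp.weight_apply, Finsupp.sum_fintype _ _ (by simp), Fin.sum_univ_four] at h1
  rw [← top_iff, aeval_monomial, Finsupp.prod_fintype _ _ fun _ => pow_zero _, Fin.prod_univ_four,
    algebraMap_eq]
  exact top_mono (top_mul (top_C v _) (top_mul (top_mul (top_mul (top_pow (hg 0) _)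
    (top_pow (hg 1) _)) (top_pow (hg 2) _)) (top_pow (hg 3) _))) (by simpa using h1)

theorem Dg_top {a b N : ℕ} {G : A2 k} : G ∈ Dg a b (N + 1) ↔ Top ![a, b] N G :=
  forall_congr' fun μ => imp_congr_right fun _ => by rw [wt2]; exact Nat.lt_succ_iff

/-- grading followed by an evaluation -/
noncomputable def Gm (w : σ → ℕ) (e : σ → Polynomial k) :
    MvPolynomial σ k →ₐ[k] Polynomial (Polynomial k) :=
  aeval fun i => Polynomial.monomial (w i) (e i)

theorem Gm_coeff (w : σ → ℕ) (e : σ → Polynomial k) (n : ℕ) (F : MvPolynomial σ k) :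
    (Gm w e F).coeff n = aeval e ((gr w F).coeff n) := by
  have : Gm w e = (Polynomial.mapAlgHom (aeval e)).comp (gr w) := by
    refine algHom_ext fun i => ?_
    simp [Gm, gr]
  rw [this]
  simp

theorem Gm_deg {w : σ → ℕ} (e : σ → Polynomial k) {n : ℕ} {F : MvPolynomial σ k} (h : Top w n F) :
    (Gm w e F).natDegree ≤ n := by
  rw [top_iff, Polynomial.natDegree_le_iff_coeff_eq_zero] at h
  exact Polynomial.natDegree_le_iff_coeff_eq_zero.2 fun m hm => by rw [Gm_coeff, h m hm, map_zero]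

theorem Gm_smul (w : σ → ℕ) (e : σ → Polynomial k) {n : ℕ} {F H : MvPolynomial σ k} {l : k}
    (h : ∀ μ, Finsupp.weight w μ = n → coeff μ F = l * coeff μ H) :
    (Gm w e F).coeff n = Polynomial.C l * (Gm w e H).coeff n := by
  have : (gr w F).coeff n = C l * (gr w H).coeff n := by
    ext μ
    rw [coeff_C_mul, gr_coeff, gr_coeff]
    split_ifs with h1
    · exact h μ h1
    · rw [mul_zero]
  rw [Gm_coeff, Gm_coeff, this, map_mul, aeval_C]
  rfl

theorem aid_div_pow [IsDomain k] {a b : k} {c G : A2 k} {j n : ℕ} (hc : c ∉ aid a b ^ (j + 1))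
    (e : ℕ) (h : c ^ e * G ∈ aid a b ^ n) : G ∈ aid a b ^ (n - e * j) := by
  induction e generalizing n with
  | zero => simpa using h
  | succ e ih =>
    rw [pow_succ', mul_assoc] at h
    have := ih (aid_div hc h)
    rwa [Nat.sub_sub, add_comm, ← Nat.succ_mul] at this

/-- the line through (0, a) with slope s -/
noncomputable def ln (a s : k) : A2 k := X 1 - C a - C s * X 0

theorem ln_top (a s : k) : Top ![1, 1] 1 (ln a s) :=
  top_sub (top_sub (top_X _ 1) (top_mono (top_C _ _) zero_le_one)) (top_mul (top_C _ _) (top_X _ 0))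

theorem ln_a (a s : k) : ln a s ∈ aid 0 a :=
  sub_mem (aid1 _ _) (Ideal.mul_mem_left _ _ (by simpa using aid0 0 a))

theorem ln_b (a b : k) : ln a (b - a) ∈ aid 1 b := by
  have : ln a (b - a) = (X 1 - C b) - C (b - a) * (X 0 - C 1) := by
    simp only [ln, map_sub, map_one]
    ring
  rw [this]
  exact sub_mem (aid1 _ _) (Ideal.mul_mem_left _ _ (aid0 1 b))

theorem ln_Gm (a s : k) :
    (Gm ![1, 1] ![1, Polynomial.X] (ln a s)).coeff 1 = Polynomial.X - Polynomial.C s := by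
  simp [Gm, ln]

theorem ln_rF (a s : k) : rF (ln a s) = Polynomial.X - Polynomial.C a := by simp [rF, ln]

/-- the coefficients of an element of a power of (c, X) -/
theorem coeff_dvd {c : k} {b : ℕ} {H : Polynomial k}
    (h : H ∈ Ideal.span {Polynomial.C c, Polynomial.X} ^ b) (l : ℕ) : c ^ (b - l) ∣ H.coeff l := by
  induction b generalizing H l with
  | zero => simp
  | succ b ih =>
    rw [pow_succ] at h
    refine Submodule.mul_induction_on h (fun a ha x hx => ?_) fun x y hx hy => by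
      rw [Polynomial.coeff_add]
      exact dvd_add hx hy
    obtain ⟨x, y, rfl⟩ := Ideal.mem_span_pair.1 hx
    rw [mul_add, ← mul_assoc, ← mul_assoc, Polynomial.coeff_add, Polynomial.coeff_mul_C]
    refine dvd_add ((pow_dvd_pow c (by omega : b + 1 - l ≤ b - l + 1)).trans ?_) ?_
    · rw [pow_succ]
      exact mul_dvd_mul_right (ih (Ideal.mul_mem_right _ _ ha) l) c
    · rcases l with _ | l
      · simp
      · rw [Polynomial.coeff_mul_X, Nat.add_sub_add_right]
        exact ih (Ideal.mul_mem_right _ _ ha) l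

/-- homogeneity -/
theorem bih_scale {S : Type} [CommRing S] [Algebra k S] {p q : ℕ} {F : Cx k} (h : Bih p q F)
    (c d x0 x1 y0 y1 : S) : aeval ![c * x0, c * x1, d * y0, d * y1] F =
      c ^ p * d ^ q * aeval ![x0, x1, y0, y1] F := by
  rw [F.as_sum, map_sum, map_sum, Finset.mul_sum]
  refine Finset.sum_congr rfl fun μ hμ => ?_
  obtain ⟨h1, h2⟩ := bih_iff.1 h μ (mem_support_iff.1 hμ)
  obtain rfl : μ 0 + μ 1 = p := by omega
  obtain rfl : μ 2 + μ 3 = q := by omega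
  rw [aeval_monomial, aeval_monomial, Finsupp.prod_fintype _ _ fun _ => pow_zero _,
    Finsupp.prod_fintype _ _ fun _ => pow_zero _, Fin.prod_univ_four, Fin.prod_univ_four]
  simp only [Matrix.cons_val_zero, Matrix.cons_val_one, Matrix.cons_val]
  ring

/-- projection from the centre: x = X 0 and y = X 0 / X 1 -/
noncomputable def th : Cx k →ₐ[k] A2 k := aeval ![X 0, 1, X 0, X 1]

theorem th_inj {p q : ℤ} {F : Cx k} (h : Bih p q F) (h0 : th F = 0) : F = 0 := by
  classical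
  ext ν
  by_contra hν
  have e : ∀ (μ : Fin 4 →₀ ℕ) (a : k), th (monomial μ a) =
      monomial (Finsupp.single 0 (μ 0 + μ 2) + Finsupp.single 1 (μ 3)) a := fun μ a => by
    rw [th, aeval_monomial, Finsupp.prod_fintype _ _ fun _ => pow_zero _, Fin.prod_univ_four,
      ← mul_one a, ← C_mul_monomial, ← one_mul (1 : k), ← monomial_mul, ← X_pow_eq_monomial,
      ← X_pow_eq_monomial, mul_one, algebraMap_eq]
    simp only [Matrix.cons_val_zero, Matrix.cons_val_one, Matrix.cons_val]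
    ring
  have h1 := congrArg (coeff (Finsupp.single 0 (ν 0 + ν 2) + Finsupp.single 1 (ν 3))) h0
  rw [F.as_sum, map_sum, coeff_sum, Finset.sum_eq_single ν] at h1
  · rw [e, coeff_monomial, if_pos rfl] at h1
    exact hν h1
  · intro μ hμ hne
    rw [e, coeff_monomial, if_neg]
    intro h2
    have a0 := DFunLike.congr_fun h2 0
    have a1 := DFunLike.congr_fun h2 1
    have b0 := bih_iff.1 h μ (mem_support_iff.1 hμ)
    have b1 := bih_iff.1 h ν hν
    simp at a0 a1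
    refine hne (Finsupp.ext fun i => ?_)
    fin_cases i <;> simp <;> omega
  · intro h2
    exact absurd (mem_support_iff.2 hν) h2

end ring

section field
variable {k : Type} [Field k]

theorem line_div {c r0 r1 : k} (hr : r0 ≠ r1) {N m0 m1 : ℕ} {G : A2 k} (h : G ∈ Dg 1 1 N)
    (h0 : G ∈ aid c r0 ^ m0) (h1 : G ∈ aid c r1 ^ m1) (hN : N ≤ m0 + m1) : X 0 - C c ∣ G := by
  have d : ∀ {r : k} {m : ℕ}, G ∈ aid c r ^ m → (Polynomial.X - Polynomial.C r) ^ m ∣
      aeval ![Polynomial.C c, Polynomial.X] G := fun {r m} hm => by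
    rw [← Ideal.mem_span_singleton, ← Ideal.span_singleton_pow]
    exact aid_map _ (by simp) (by simp) hm
  have hi : Function.Injective ![r0, r1] := by
    intro i j e
    fin_cases i <;> fin_cases j <;> simp_all
  obtain ⟨q, hq, e⟩ := mem_Mu hi (m := ![m0, m1]) (Dg.aeval h (f := Polynomial.C c)
    (g := Polynomial.X) (by simp) (by simp)) (Fin.forall_fin_two.2 ⟨d h0, d h1⟩)
  rw [Fin.sum_univ_two, show N - (![m0, m1] 0 + ![m0, m1] 1) = 0 from
    Nat.sub_eq_zero_of_le hN] at hq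
  have hq0 : q = 0 := by simpa [Polynomial.mem_degreeLT] using hq
  rw [hq0, map_zero] at e
  have e1 : (Polynomial.aeval (X 1 : A2 k)).comp (aeval ![Polynomial.C c, Polynomial.X]) =
      (aeval ![C c, X 1] : A2 k →ₐ[k] A2 k) := by
    refine algHom_ext fun i => ?_
    fin_cases i <;> simp
  have h2 := sub_dvd ![C c, X 1] (X 0 - C c) (fun i => by fin_cases i <;> simp) G
  rwa [← e1, AlgHom.comp_apply, ← e, map_zero, sub_zero] at h2

variable {α0 α1 β0 β1 : k}

/-- division by the two lines -/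
theorem two_div (hβ : β0 ≠ β1) {N a0 a1 b0 b1 : ℕ} {H : A2 k} (h : X 0 * H ∈ Dg 1 1 N)
    (h0 : X 0 * H ∈ aid 0 α0 ^ a0) (h1 : X 0 * H ∈ aid 0 α1 ^ a1) (h2 : X 0 * H ∈ aid 1 β0 ^ b0)
    (h3 : X 0 * H ∈ aid 1 β1 ^ b1) (hN : N - 1 ≤ b0 + b1) : ∃ R, H = (X 0 - C 1) * R ∧
      R ∈ Dg 1 1 (N - 2) ∧ R ∈ aid 0 α0 ^ (a0 - 1) ∧ R ∈ aid 0 α1 ^ (a1 - 1) ∧
      R ∈ aid 1 β0 ^ (b0 - 1) ∧ R ∈ aid 1 β1 ^ (b1 - 1) := by
  have g := Dg.div h (e := 1) (Finsupp.single 0 1) (by simp [coeff_X]) (by simp)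
  have g0 := aid_div (not_sq 0 (by simp)) h0
  have g1 := aid_div (not_sq 0 (by simp)) h1
  have g2 := aid_div (not_aid (by simp)) h2
  have g3 := aid_div (not_aid (by simp)) h3
  obtain ⟨R, rfl⟩ := line_div hβ g g2 g3 hN
  have e : (0 : Fin 2 →₀ ℕ) ≠ Finsupp.single 0 1 := fun e => by
    simpa using DFunLike.congr_fun e 0
  have f := Dg.div g (e := 1) (Finsupp.single 0 1) (by simp [coeff_X, coeff_one, e]) (by simp)
  have f0 := aid_div (not_aid (by simp)) g0
  have f1 := aid_div (not_aid (by simp)) g1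
  have f2 := aid_div (not_sq 0 (by simp)) g2
  have f3 := aid_div (not_sq 0 (by simp)) g3
  exact ⟨R, rfl, f, f0, f1, f2, f3⟩

theorem tz0 (hα : α0 ≠ α1) (hβ : β0 ≠ β1) {N a0 a1 b0 b1 : ℕ} {H : A2 k} (h : H ∈ Dg 1 1 N)
    (h0 : H ∈ aid 0 α0 ^ a0) (h1 : H ∈ aid 0 α1 ^ a1) (h2 : H ∈ aid 1 β0 ^ b0)
    (h3 : H ∈ aid 1 β1 ^ b1) (ha : N ≤ a0 + a1) (hb : N ≤ b0 + b1) : H = 0 := by
  induction N using Nat.strong_induction_on generalizing H a0 a1 b0 b1 with
  | _ N ih =>
  rcases Nat.eq_zero_or_pos N with rfl | hN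
  · exact Dg.zero h
  obtain ⟨H, rfl⟩ : X 0 ∣ H := by simpa using line_div hα h h0 h1 ha
  obtain ⟨R, rfl, g, g0, g1, g2, g3⟩ := two_div hβ h h0 h1 h2 h3 (by omega)
  rw [ih (N - 2) (by omega) g g0 g1 g2 g3 (by omega) (by omega), mul_zero, mul_zero]

/-- the leading form of a curve of the least possible degree -/
theorem tz (hα : α0 ≠ α1) (hβ : β0 ≠ β1) (μ0 μ1 c : ℕ) {H : A2 k}
    (h : Top ![1, 1] (μ0 + μ1 + 2 * c) H)
    (h0 : H ∈ aid 0 α0 ^ c) (h1 : H ∈ aid 0 α1 ^ (μ0 + μ1 + c)) (h2 : H ∈ aid 1 β0 ^ (μ0 + c))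
    (h3 : H ∈ aid 1 β1 ^ (μ1 + c)) : ∃ P : Polynomial k,
      (Gm ![1, 1] ![1, Polynomial.X] H).coeff (μ0 + μ1 + 2 * c) =
        (Polynomial.X - Polynomial.C (β0 - α1)) ^ μ0 * (Polynomial.X - Polynomial.C (β1 - α1)) ^ μ1 *
          P.comp ((Polynomial.X - Polynomial.C (β0 - α1)) *
            (Polynomial.X - Polynomial.C (β1 - α0))) := by
  induction c using Nat.strong_induction_on generalizing H with
  | _ c ih =>
  have hi : Function.Injective ![α0, α1] := by
    intro i j e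
    fin_cases i <;> fin_cases j <;> simp_all
  obtain ⟨q, hq, e⟩ := mem_Mu hi (m := ![c, μ0 + μ1 + c]) (p := rF H) (Dg.aeval (Dg_top.2 h)
    (by simp) (by simp)) (Fin.forall_fin_two.2 ⟨rF_aid h0, rF_aid h1⟩)
  rw [Fin.sum_univ_two, show μ0 + μ1 + 2 * c + 1 - _ = 1 by simp; omega] at hq
  obtain ⟨l, rfl⟩ : ∃ l, q = Polynomial.C l :=
    ⟨_, Polynomial.eq_C_of_degree_le_zero (by
      simpa [Polynomial.mem_degreeLT, ← Nat.WithBot.lt_one_iff_le_zero] using hq)⟩
  set R : A2 k := ln α1 (β0 - α1) ^ (μ0 + c) * ln α1 (β1 - α1) ^ μ1 * ln α0 (β1 - α0) ^ c with hR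
  have t1 := fun (a s : k) (n : ℕ) => top_pow (ln_top a s) n
  have r : Top ![1, 1] (μ0 + μ1 + 2 * c) (C l * R) :=
    top_mono (top_mul (top_C _ _) (top_mul (top_mul (t1 _ _ _) (t1 _ _ _)) (t1 _ _ _))) (by omega)
  have r0 : C l * R ∈ aid 0 α0 ^ c :=
    Ideal.mul_mem_left _ _ (Ideal.mul_mem_left _ _ (Ideal.pow_mem_pow (ln_a _ _) _))
  have r1 : C l * R ∈ aid 0 α1 ^ (μ0 + μ1 + c) := by
    rw [add_right_comm, pow_add]
    exact Ideal.mul_mem_left _ _ (Ideal.mul_mem_right _ _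
      (Ideal.mul_mem_mul (Ideal.pow_mem_pow (ln_a _ _) _) (Ideal.pow_mem_pow (ln_a _ _) _)))
  have r2 : C l * R ∈ aid 1 β0 ^ (μ0 + c) := Ideal.mul_mem_left _ _ (Ideal.mul_mem_right _ _
    (Ideal.mul_mem_right _ _ (Ideal.pow_mem_pow (ln_b _ _) _)))
  have r3 : C l * R ∈ aid 1 β1 ^ (μ1 + c) := by
    rw [pow_add, hR, mul_assoc]
    exact Ideal.mul_mem_left _ _ (Ideal.mul_mem_left _ _
      (Ideal.mul_mem_mul (Ideal.pow_mem_pow (ln_b _ _) _) (Ideal.pow_mem_pow (ln_b _ _) _)))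
  have rG : (Gm ![1, 1] ![1, Polynomial.X] (C l * R)).coeff (μ0 + μ1 + 2 * c) =
      Polynomial.C l * ((Polynomial.X - Polynomial.C (β0 - α1)) ^ (μ0 + c) *
        (Polynomial.X - Polynomial.C (β1 - α1)) ^ μ1 *
          (Polynomial.X - Polynomial.C (β1 - α0)) ^ c) := by
    rw [Gm_smul _ _ (l := l) (H := R) fun μ _ => coeff_C_mul _ _ _, hR, map_mul,
      show μ0 + μ1 + 2 * c = (μ0 + c) * 1 + μ1 * 1 + c * 1 by ring,
      Polynomial.coeff_mul_add_eq_of_natDegree_le (Gm_deg _ (top_mul (t1 _ _ _) (t1 _ _ _)))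
        (Gm_deg _ (t1 _ _ _)), map_mul,
      Polynomial.coeff_mul_add_eq_of_natDegree_le (Gm_deg _ (t1 _ _ _)) (Gm_deg _ (t1 _ _ _)),
      map_pow, map_pow, map_pow, Polynomial.coeff_pow_of_natDegree_le (Gm_deg _ (ln_top _ _)),
      Polynomial.coeff_pow_of_natDegree_le (Gm_deg _ (ln_top _ _)),
      Polynomial.coeff_pow_of_natDegree_le (Gm_deg _ (ln_top _ _)), ln_Gm, ln_Gm, ln_Gm]
  have hd : rF (H - C l * R) = 0 := by
    rw [map_sub, ← e, hR, map_mul, map_mul, map_mul, map_pow, map_pow, map_pow, ln_rF, ln_rF, ln_rF]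
    simp [pr, rF]
    ring
  obtain ⟨H1, e1⟩ := rF_dvd hd
  obtain ⟨H2, rfl, g, g0, g1, g2, g3⟩ := two_div hβ (e1 ▸ Dg_top.2 (top_sub h r))
    (e1 ▸ sub_mem h0 r0) (e1 ▸ sub_mem h1 r1) (e1 ▸ sub_mem h2 r2) (e1 ▸ sub_mem h3 r3) (by omega)
  rw [sub_eq_iff_eq_add.1 e1, map_add, Polynomial.coeff_add, rG]
  rcases c with _ | c
  · refine ⟨Polynomial.C l, ?_⟩
    rw [Dg_aid g g1 (by omega)]
    simp [mul_comm]
  · have g' : Top ![1, 1] (μ0 + μ1 + 2 * c) H2 := Dg_top.1 g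
    obtain ⟨P, hP⟩ := ih c (by omega) g' g0 g1 g2 g3
    refine ⟨P + Polynomial.C l * Polynomial.X ^ (c + 1), ?_⟩
    have t2 : Top ![1, 1] 2 (X 0 * (X 0 - C 1) : A2 k) :=
      top_mul (top_X _ 0) (top_sub (top_X _ 0) (top_mono (top_C _ _) zero_le_one))
    have t3 : (Gm ![1, 1] ![1, Polynomial.X] (X 0 * (X 0 - C 1) : A2 k)).coeff 2 = 1 := by
      simp [Gm, mul_sub, Polynomial.monomial_mul_monomial, Polynomial.coeff_monomial]
    rw [← mul_assoc, map_mul, show μ0 + μ1 + 2 * (c + 1) = 2 + (μ0 + μ1 + 2 * c) by ring,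
      Polynomial.coeff_mul_add_eq_of_natDegree_le (Gm_deg _ t2) (Gm_deg _ g'), hP, t3]
    simp only [Polynomial.add_comp, Polynomial.mul_comp, Polynomial.C_comp, Polynomial.pow_comp,
      Polynomial.X_comp, mul_pow]
    ring

end field

end Pool.Agent.Lib.MP_d03834_ag.Core.End
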