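import Pool.Agent.Lib.MP_d03834_ag.Core.BiEndC
import Pool.Agent.Lib.MP_d03834_ag.Core.LimB

/-! The limit of the sections when the four points on the two fibres come together. -/

set_option autoImplicit false

namespace Pool.Agent.Lib.MP_d03834_ag.Core.End

open MvPolynomial Module

variable {O k : Type} [CommRing O] [IsDomain O] [Field k]

/-- the affine chart y = X 0, x = X 1 -/
noncomputable def dl {R : Type} [CommRing R] : Cx R →ₐ[R] A2 R := aeval ![X 1, 1, X 0, 1]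

theorem dl_inj {p q : ℕ} {F : Cx k} (h : Bih p q F) (h0 : dl F = 0) : F = 0 := by
  let L := FractionRing (A2 k)
  have hi := IsFractionRing.injective (A2 k) L
  have h1 : algebraMap (A2 k) L (X 1) ≠ 0 := (map_ne_zero_iff _ hi).2 (X_ne_zero 1)
  have e := bih_scale h 1 (algebraMap (A2 k) L (X 1)) (algebraMap (A2 k) L (X 0)) 1
    (algebraMap (A2 k) L (X 0) / algebraMap (A2 k) L (X 1)) 1
  have e1 : (aeval ![algebraMap (A2 k) L (X 0), 1,
      algebraMap (A2 k) L (X 0) / algebraMap (A2 k) L (X 1), 1] : Cx k →ₐ[k] L) =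
      (aeval ![algebraMap (A2 k) L (X 0) / algebraMap (A2 k) L (X 1),
        algebraMap (A2 k) L (X 0)]).comp dl := by
    refine algHom_ext fun i => ?_
    fin_cases i <;> simp [dl]
  have e2 : (aeval ![1 * algebraMap (A2 k) L (X 0), 1 * 1, algebraMap (A2 k) L (X 1) *
      (algebraMap (A2 k) L (X 0) / algebraMap (A2 k) L (X 1)), algebraMap (A2 k) L (X 1) * 1] :
      Cx k →ₐ[k] L) = (IsScalarTower.toAlgHom k (A2 k) L).comp th := by
    refine algHom_ext fun i => ?_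
    fin_cases i <;> simp [th, mul_div_cancel₀ _ h1]
  rw [e1, e2, AlgHom.comp_apply, AlgHom.comp_apply, h0, map_zero, mul_zero] at e
  exact th_inj h (hi (e.trans (map_zero _).symm))

theorem dl_pid {a b : k} {m : ℕ} {F : Cx k} (h : F ∈ pid ![a, 1, b, 1] ^ m) :
    dl F ∈ aid b a ^ m :=
  pid_map dl (by simpa [dl, lx] using aid1 b a) (by simpa [dl, ly] using aid0 b a) h

/-- two fat points collide along a line -/
theorem two_pt (π : O →+* k) {t α β : O} (t0 : t ≠ 0) (ht : π t = 0) (hσ : π β - π α ≠ 0)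
    {p q a b : ℕ} {G : Cx O} (hB : Bih p q G) (ha : G ∈ pid ![t * α, 1, 0, 1] ^ a)
    (hb : G ∈ pid ![t * β, 1, t, 1] ^ b) : th (map π G) ∈ aid 0 (π β - π α) ^ (a + b) := by
  let Ψ : Cx O →ₐ[O] Polynomial (A2 O) :=
    aeval ![Polynomial.C (C (t * α) * X 1 + C (β - α) * X 0) + Polynomial.X, Polynomial.C (X 1),
      Polynomial.C (X 0), Polynomial.C (X 1)]
  let Λ : Polynomial (A2 O) →+* A2 k :=
    Polynomial.eval₂RingHom (map π) (X 0 * (X 1 - C (π β - π α)))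
  have h1 : Ψ G ∈ Ideal.span {Polynomial.C (X 0 : A2 O), Polynomial.X} ^ a := by
    refine pid_map Ψ (Ideal.mem_span_pair.2 ⟨Polynomial.C (C (β - α)), 1, ?_⟩)
      (Ideal.mem_span_pair.2 ⟨1, 0, ?_⟩) ha
    · simp [Ψ, lx]
      ring
    · simp [Ψ, ly]
  have h2 : Ψ G ∈ Ideal.span {Polynomial.C (X 0 - C t * X 1 : A2 O), Polynomial.X} ^ b := by
    refine pid_map Ψ (Ideal.mem_span_pair.2 ⟨Polynomial.C (C (β - α)), 1, ?_⟩)
      (Ideal.mem_span_pair.2 ⟨1, 0, ?_⟩) hb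
    · simp [Ψ, lx]
      ring
    · simp [Ψ, ly]
  have h3 : ¬ (X 0 : A2 O) ∣ X 0 - C t * X 1 := fun ⟨x, hx⟩ => by
    simpa [t0] using congrArg (eval ![0, 1]) hx
  have h4 : Λ (Ψ G) ∈ aid 0 (π β - π α) ^ (a + b) := by
    rw [Polynomial.coe_eval₂RingHom, Polynomial.eval₂_eq_sum, Polynomial.sum_def]
    refine Ideal.sum_mem _ fun l _ => ?_
    obtain ⟨g, e⟩ := coeff_dvd h2 l
    have d := coeff_dvd h1 l
    rw [e] at d
    obtain ⟨f, rfl⟩ := X_prime.pow_dvd_of_dvd_mul_left _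
      (fun h => h3 (X_prime.dvd_of_dvd_pow h)) d
    have x0 : (X 0 : A2 k) ∈ aid 0 (π β - π α) := by simpa using aid0 0 (π β - π α)
    have e' : map π ((Ψ G).coeff l) * (X 0 * (X 1 - C (π β - π α))) ^ l =
        map π f * (X 0 ^ (b - l + (a - l) + l) * (X 1 - C (π β - π α)) ^ l) := by
      rw [e, mul_pow]
      simp [ht]
      ring
    rw [e']
    refine Ideal.mul_mem_left _ _ (Ideal.pow_le_pow_right
      (by omega : a + b ≤ b - l + (a - l) + l + l) ?_)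
    rw [pow_add _ _ l]
    exact Ideal.mul_mem_mul (Ideal.pow_mem_pow x0 _) (Ideal.pow_mem_pow (aid1 _ _) _)
  have h5 : Λ.comp Ψ.toRingHom = (aeval ![X 1 * X 0, X 1 * 1, 1 * X 0, 1 * X 1] :
      Cx k →ₐ[k] A2 k).toRingHom.comp (map π) := by
    refine ringHom_ext (fun r => by simp [Λ, Ψ]) fun i => ?_
    fin_cases i <;> simp [Λ, Ψ, ht]
    ring
  have h6 : Λ (Ψ G) = X 1 ^ p * th (map π G) := by
    refine (DFunLike.congr_fun h5 G).trans ((bih_scale (hB.map π) _ _ _ _ _ _).trans ?_)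
    rw [one_pow, mul_one]
    rfl
  rw [h6] at h4
  exact aid_div_pow (not_aid (by simpa using hσ)) p h4

/-- the limit of a section lies in the limit system -/
theorem lim_LL [ValuationRing O] {κ : Type} (π : O →+* k) (hπ : ∀ x, π x ≠ 0 → IsUnit x) {t : O}
    (t0 : t ≠ 0) (ht : π t = 0) {α0 α1 β0 β1 : O} {z η : κ → O} {Q0 Q1 Q2 : k}
    (cur : ∀ i, π (η i) * π (z i) = Q0 + Q1 * π (z i) + Q2 * π (z i) ^ 2) (z0 : ∀ i, π (z i) ≠ 0)
    (aa : π α0 ≠ π α1) (bb : π β0 ≠ π β1) (s0 : π β0 - π α1 ≠ 0) (s1 : π β1 - π α1 ≠ 0)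
    (φ c p μ0 μ1 : ℕ) (m : κ → ℕ) {G : Cx O}
    (hB : Bih (μ0 + μ1 + 2 * c + φ : ℕ) (μ0 + μ1 + 2 * c + p : ℕ) G)
    (he : ∀ i, G ∈ pid ![z i, 1, 1, η i] ^ m i) (a0 : G ∈ pid ![t * α0, 1, 0, 1] ^ c)
    (a1 : G ∈ pid ![t * α1, 1, 0, 1] ^ (μ0 + μ1 + c)) (b0 : G ∈ pid ![t * β0, 1, t, 1] ^ (μ0 + c))
    (b1 : G ∈ pid ![t * β1, 1, t, 1] ^ (μ1 + c)) :
    ∃ H ∈ LL Q0 Q1 Q2 ![0, π β0 - π α1, π β1 - π α1] (fun i => π (z i))
      ((Polynomial.X - Polynomial.C (π β0 - π α1)) * (Polynomial.X - Polynomial.C (π β1 - π α0)))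
      (μ0 + μ1 + 2 * c + p + φ + 1) φ ![p, μ0, μ1] m,
      X 0 ^ (μ0 + μ1 + 2 * c) * H = th (map π G) := by
  by_cases hG : G = 0
  · exact ⟨0, zero_mem _, by simp [hG]⟩
  obtain ⟨n, l, H, lam, hl, e, ⟨ν, -, hν⟩, top, low, prop⟩ := lim_blow π hπ t0 ht ![1, 0, 1, 0] hG
  have pt : ∀ {x y : O} {r : ℕ}, G ∈ pid ![t * x, 1, t * y, 1] ^ r →
      dl (map π H) ∈ aid (π y) (π x) ^ r := fun {x y r} h => by
    have h1 := scl_pid ![1, 0, 1, 0] t (Q := ![x, 1, y, 1]) (m := r) (F := G) (by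
      rwa [show (fun i => t ^ (![1, 0, 1, 0] : Fin 4 → ℕ) i * (![x, 1, y, 1] : Fin 4 → O) i) =
        ![t * x, 1, t * y, 1] from funext fun i => by fin_cases i <;> simp])
    rw [e] at h1
    have h2 := pid_push π (pid_cancel ⟨⟨1, 0, by simp⟩, 1, 0, by simp⟩ hl h1)
    rw [show (fun i => π ((![x, 1, y, 1] : Fin 4 → O) i)) = ![π x, 1, π y, 1] from
      funext fun i => by fin_cases i <;> simp] at h2
    exact dl_pid h2
  have c0 := pt (x := α0) (y := 0) (by rwa [mul_zero])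
  have c1 := pt (x := α1) (y := 0) (by rwa [mul_zero])
  have c2 := pt (x := β0) (y := 1) (by rwa [mul_one])
  have c3 := pt (x := β1) (y := 1) (by rwa [mul_one])
  rw [map_zero] at c0 c1
  rw [map_one] at c2 c3
  have tp : Top ![1, 1] n (dl (map π H)) := top_aeval top _ fun i => by
    fin_cases i
    exacts [top_X _ 1, top_C _ 1, top_X _ 0, top_C _ 1]
  have hH : Bih _ _ (map π H) := (Bih.of_cmul hl (e ▸ hB.scl _ t)).map π
  have hn : μ0 + μ1 + 2 * c ≤ n := by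
    by_contra hlt
    rw [dl_inj hH (tz0 aa bb (Dg_top.2 tp) c0 c1 c2 c3 (by omega) (by omega))] at hν
    exact hν (coeff_zero _)
  have F0 := hB.map π
  have f0 := two_pt π t0 ht s0 hB a1 b0
  have f1 := two_pt π t0 ht s1 hB a1 b1
  have fe : ∀ i, th (map π G) ∈ aid (π (z i)) (Q0 + Q1 * π (z i) + Q2 * π (z i) ^ 2) ^ m i := by
    intro i
    refine pid_map th (by simpa [th, lx] using aid0 _ _) ?_ (pid_push π (he i))
    have : th (ly fun l => π ((![z i, 1, 1, η i] : Fin 4 → O) l)) =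
        C (π (η i)) * (X 0 - C (π (z i))) - (X 1 - C (π (η i) * π (z i))) := by
      simp [th, ly]
      ring
    rw [this, cur]
    exact sub_mem (Ideal.mul_mem_left _ _ (aid0 _ _)) (aid1 _ _)
  have hP : ∃ P : Polynomial k, (Gm ![1, 0, 1, 0] ![Polynomial.X, 1, 1, 1] (map π G)).coeff
      (μ0 + μ1 + 2 * c) = (Polynomial.X - Polynomial.C (π β0 - π α1)) ^ μ0 *
        (Polynomial.X - Polynomial.C (π β1 - π α1)) ^ μ1 * P.comp
          ((Polynomial.X - Polynomial.C (π β0 - π α1)) *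
            (Polynomial.X - Polynomial.C (π β1 - π α0))) := by
    rcases hn.eq_or_lt with rfl | hlt
    · obtain ⟨P, hP⟩ := tz aa bb μ0 μ1 c tp c0 c1 c2 c3
      have e1 : Gm ![1, 0, 1, 0] ![Polynomial.X, 1, 1, 1] =
          (Gm ![1, 1] ![1, Polynomial.X]).comp (dl (R := k)) := by
        refine algHom_ext fun i => ?_
        fin_cases i <;> simp [Gm, dl]
      refine ⟨Polynomial.C lam * P, ?_⟩
      rw [Gm_smul _ _ prop, e1, AlgHom.comp_apply, hP, Polynomial.mul_comp, Polynomial.C_comp]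
      ring
    · refine ⟨0, ?_⟩
      rw [Gm_smul _ _ (l := 0) (H := 0) fun μ hμ => by
        by_contra h0
        have := low μ (by simpa using h0)
        omega]
      simp
  generalize map π G = F at *
  have lw : ∀ {w : Fin 4 → ℕ} {r : ℕ}, (∀ μ : Fin 4 →₀ ℕ, μ 0 + μ 1 = μ0 + μ1 + 2 * c + φ →
      μ 2 + μ 3 = μ0 + μ1 + 2 * c + p →
      μ 0 * w 0 + μ 1 * w 1 + μ 2 * w 2 + μ 3 * w 3 ≤ r) → Top w r F := fun h μ hμ => by
    have := bih_iff.1 F0 μ hμ
    rw [Finsupp.weight_apply, Finsupp.sum_fintype _ _ (by simp), Fin.sum_univ_four]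
    exact h μ (by omega) (by omega)
  obtain ⟨R, hR⟩ : X 0 ^ (μ0 + μ1 + 2 * c) ∣ th F := by
    rw [← Ideal.mem_span_singleton, ← Ideal.span_singleton_pow]
    refine lim_ideal th (fun x hx => ?_) ((low_span 0 2 (by decide) _ rfl rfl (by decide) _ F).2
      fun μ hμ => hn.trans (low μ hμ))
    obtain ⟨u, v, rfl⟩ := Ideal.mem_span_pair.1 hx
    exact Ideal.mem_span_singleton'.2 ⟨th u + th v, by simp [th]; ring⟩
  have f2 : th F ∈ aid 0 0 ^ (μ0 + μ1 + 2 * c + p) := by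
    refine lim_ideal th (fun x hx => ?_) ((low_span 2 3 (by decide) ![0, 0, 1, 1] rfl rfl
      (by decide) _ F).2 fun μ hμ => ?_)
    · obtain ⟨u, v, rfl⟩ := Ideal.mem_span_pair.1 hx
      exact Ideal.mem_span_pair.2 ⟨th u, th v, by simp [th]⟩
    · have := bih_iff.1 F0 μ hμ
      rw [Finsupp.weight_apply, Finsupp.sum_fintype _ _ (by simp), Fin.sum_univ_four]
      simp
      omega
  have g1 : th F ∈ Dg 1 1 (μ0 + μ1 + 2 * c + p + φ + 1 + (μ0 + μ1 + 2 * c) - 1 + 1) :=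
    Dg_top.2 (top_aeval (w := ![1, 0, 1, 1]) (lw fun μ h1 h2 => by simp; omega) _ fun i => by
      fin_cases i
      exacts [top_X _ 0, top_C _ 1, top_X _ 0, top_X _ 1])
  have g2 : th F ∈ Dg 0 1 (μ0 + μ1 + 2 * c + p + 1) :=
    Dg_top.2 (top_aeval (w := ![0, 0, 0, 1]) (lw fun μ h1 h2 => by simp; omega) _ fun i => by
      fin_cases i
      exacts [top_X _ 0, top_C _ 1, top_X _ 0, top_X _ 1])
  rw [hR] at f0 f1 f2 g1 g2
  have cx : coeff (Finsupp.single 0 (μ0 + μ1 + 2 * c)) (X 0 ^ (μ0 + μ1 + 2 * c) : A2 k) ≠ 0 := by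
    simp [coeff_X_pow]
  have k0 := aid_div_pow (not_sq 0 (by simp)) _ f0
  have k1 := aid_div_pow (not_sq 0 (by simp)) _ f1
  have k2 := aid_div_pow (not_sq 0 (by simp)) _ f2
  have k3 := Dg.div g1 (e := μ0 + μ1 + 2 * c) _ cx (by simp)
  have k4 := Dg.div g2 (e := 0) _ cx (by simp)
  rw [show μ0 + μ1 + c + (μ0 + c) - (μ0 + μ1 + 2 * c) * 1 = μ0 by omega] at k0
  rw [show μ0 + μ1 + c + (μ1 + c) - (μ0 + μ1 + 2 * c) * 1 = μ1 by omega] at k1
  rw [show μ0 + μ1 + 2 * c + p - (μ0 + μ1 + 2 * c) * 1 = p by omega] at k2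
  rw [show μ0 + μ1 + 2 * c + p + φ + 1 + (μ0 + μ1 + 2 * c) - 1 + 1 - (μ0 + μ1 + 2 * c) =
    μ0 + μ1 + 2 * c + p + φ + 1 by omega] at k3
  rw [show μ0 + μ1 + 2 * c + p + 1 - 0 = μ0 + μ1 + 2 * c + p + φ + 1 - φ by omega] at k4
  refine ⟨R, mem_LL.2 ⟨mem_PH.2 ⟨k3, fun a => ?_, fun i => ?_⟩, k4, ?_⟩, hR.symm⟩
  · fin_cases a
    exacts [k2, k0, k1]
  · exact aid_div_pow (not_aid (by simpa using z0 i)) _ (hR ▸ fe i)
  obtain ⟨P, hP⟩ := hP
  refine ⟨P, mul_left_cancel₀ (pow_ne_zero (μ0 + μ1 + 2 * c) Polynomial.X_ne_zero) ?_⟩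
  let B : A2 k →ₐ[k] Polynomial (Polynomial k) :=
    aeval ![Polynomial.C Polynomial.X * Polynomial.X, Polynomial.C Polynomial.X]
  have e1 : B.comp th = (aeval ![1 * (Polynomial.C Polynomial.X * Polynomial.X), 1 * 1,
      Polynomial.C Polynomial.X * Polynomial.X, Polynomial.C Polynomial.X * 1] :
        Cx k →ₐ[k] Polynomial (Polynomial k)) := by
    refine algHom_ext fun i => ?_
    fin_cases i <;> simp [B, th]
  have e2 : Gm ![1, 0, 1, 0] ![Polynomial.X, 1, 1, 1] = (aeval ![Polynomial.C Polynomial.X *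
      Polynomial.X, 1, Polynomial.X, 1] : Cx k →ₐ[k] Polynomial (Polynomial k)) := by
    refine algHom_ext fun i => ?_
    fin_cases i <;> simp [Gm, ← Polynomial.C_mul_X_pow_eq_monomial]
  have e3 : Polynomial.constantCoeff.comp B.toRingHom = (rF (k := k)).toRingHom := by
    refine ringHom_ext (fun r => by simp [B, rF]) fun i => ?_
    fin_cases i <;> simp [B, rF]
  have e4 : (B R).coeff 0 = rF R := DFunLike.congr_fun e3 R
  have e5 := (DFunLike.congr_fun e1 F).trans (bih_scale F0 _ _ _ _ _ _)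
  rw [AlgHom.comp_apply, hR, map_mul, map_pow, ← e2, one_pow, one_mul,
    show B (X 0) = Polynomial.C Polynomial.X * Polynomial.X by simp [B], mul_pow,
    ← Polynomial.C_pow, ← Polynomial.C_pow, mul_assoc] at e5
  have e6 := congrArg (fun q => Polynomial.coeff q (0 + (μ0 + μ1 + 2 * c))) e5
  simp only [Polynomial.coeff_C_mul, Polynomial.coeff_X_pow_mul] at e6
  rw [← e4, e6, zero_add, hP]
  simp [pr, Fin.prod_univ_three]
  ring

end Pool.Agent.Lib.MP_d03834_ag.Core.End
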