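import Pool.Agent.Lib.MP_d03834_ag.Core.Crem
import Pool.Agent.Lib.MP_d03834_ag.Core.Bi

/-! The bridge between the plane and the product of two projective lines. -/

set_option autoImplicit false

namespace Pool.Agent.Lib.MP_d03834_ag.Core

open MvPolynomial Module Nag

section ring
variable {K : Type} [CommRing K]

theorem scale_hom' {S : Type} [CommRing S] [Algebra K S] {d : ℕ} {F : P3 K}
    (h : F.IsHomogeneous d) (c : S) (g : Fin 3 → S) :
    aeval (fun i => c * g i) F = c ^ d * aeval g F := by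
  conv_lhs => rw [F.as_sum, map_sum]
  conv_rhs => rw [F.as_sum, map_sum, Finset.mul_sum]
  refine Finset.sum_congr rfl fun ν hν => ?_
  have h1 : ν.degree = d := by
    by_contra hn
    exact mem_support_iff.1 hν (h.coeff_eq_zero hn)
  rw [Finsupp.degree_eq_sum, Fin.sum_univ_three] at h1
  rw [aeval_monomial, aeval_monomial, Finsupp.prod_fintype _ _ fun _ => pow_zero _,
    Finsupp.prod_fintype _ _ fun _ => pow_zero _, Fin.prod_univ_three, Fin.prod_univ_three, ← h1]
  ring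

/-- the multiplicity of a form at a point, seen through any substitution -/
theorem a3_loc {S : Type} [CommRing S] [Algebra K S] (g : Fin 3 → S) (J : Ideal S) (s : S)
    (v : Fin 3 → K) (h : ∀ i, g i - algebraMap K S (v i) * s ∈ J) {d m : ℕ} {F : P3 K}
    (hF : F.IsHomogeneous d) (hm : F ∈ a3 v ^ m) : ∃ N : ℕ, s ^ N * aeval g F ∈ J ^ m := by
  let T := Localization.Away s
  let f := algebraMap S T
  let u : T := IsLocalization.Away.invSelf s
  have hu : f s * u = 1 := IsLocalization.Away.mul_invSelf s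
  let θ : P3 K →ₐ[K] T := aeval fun i => u * f (g i)
  have h1 : (a3 v).map θ ≤ J.map f := by
    rw [Ideal.map_le_iff_le_comap]
    intro x hx
    have e : (Ideal.Quotient.mkₐ K (J.map f)).comp θ = (Algebra.ofId K _).comp (aeval v) := by
      refine algHom_ext fun i => ?_
      rw [AlgHom.comp_apply, AlgHom.comp_apply, aeval_X, aeval_X, Algebra.ofId_apply,
        Ideal.Quotient.mkₐ_eq_mk, ← Ideal.Quotient.mk_algebraMap, Ideal.Quotient.eq]
      have h2 := Ideal.mul_mem_left _ u (Ideal.mem_map_of_mem f (h i))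
      rw [map_sub, map_mul, ← IsScalarTower.algebraMap_apply] at h2
      have e2 : u * f (g i) - algebraMap K T (v i) =
          u * (f (g i) - algebraMap K T (v i) * f s) := by
        linear_combination (algebraMap K T (v i)) * hu
      rw [e2]
      exact h2
    have h3 := DFunLike.congr_fun e x
    rw [AlgHom.comp_apply, AlgHom.comp_apply, show aeval v x = 0 from hx, map_zero] at h3
    exact Ideal.mem_comap.2 (Ideal.Quotient.eq_zero_iff_mem.1 h3)
  have h2 := Ideal.mem_map_of_mem θ hm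
  rw [Ideal.map_pow] at h2
  have h3 := Ideal.pow_right_mono h1 m h2
  rw [← Ideal.map_pow] at h3
  have e : f s ^ d * θ F = f (aeval g F) := by
    rw [show θ F = u ^ d * aeval (fun i => f (g i)) F from scale_hom' hF u _, ← mul_assoc,
      ← mul_pow, hu, one_pow, one_mul]
    exact (DFunLike.congr_fun (comp_aeval g (IsScalarTower.toAlgHom K S T)) F).symm
  have h4 := Ideal.mul_mem_left _ (f s ^ d) h3
  rw [e] at h4
  obtain ⟨_, ⟨n, rfl⟩, h5⟩ :=
    (IsLocalization.algebraMap_mem_map_algebraMap_iff (Submonoid.powers s) T _ _).1 h4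
  exact ⟨n, h5⟩

theorem low_a3 [IsDomain K] {d m : ℕ} {F : P3 K} (hF : F.IsHomogeneous d) (l i j : Fin 3)
    (hij : i ≠ j) (v : Fin 3 → K) (w : Fin 3 → ℕ) (h1 : v l = 1) (h2 : v i = 0) (h3 : v j = 0)
    (h4 : w l = 0) (h5 : w i = 1) (h6 : w j = 1) (h7 : ∀ k, k = l ∨ k = i ∨ k = j)
    (h : F ∈ a3 v ^ m) : Low w m F := by
  obtain ⟨N, hN⟩ := a3_loc (S := P3 K) X (Ideal.span {X i, X j}) (X l) v (fun k => by
    rcases h7 k with rfl | rfl | rfl
    · simp [h1]
    · simpa [h2] using Ideal.subset_span (Set.mem_insert _ _)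
    · simpa [h3] using Ideal.subset_span (Set.mem_insert_of_mem _ (Set.mem_singleton _))) hF h
  rw [aeval_X_left_apply, low_span i j hij w h5 h6 (fun k a b => by
    rcases h7 k with rfl | rfl | rfl
    · exact h4
    · exact absurd rfl a
    · exact absurd rfl b)] at hN
  exact hN.div (e := 0) (Finsupp.single l N) (by simp [coeff_X_pow]) (by
    simp [Finsupp.weight_apply, Finsupp.sum_single_index, h4])

/-- the linear form in x which vanishes at (1 : ξ) -/
noncomputable def fx (ξ : K) : Cx K := X 1 - C ξ * X 0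

/-- the linear form in y which vanishes at (1 : η) -/
noncomputable def fy (η : K) : Cx K := X 3 - C η * X 2

/-- the projection of the quadric from the point (1 : ξ, 1 : η) -/
noncomputable def prj (ξ η : K) : Fin 3 → Cx K := ![X 0 * fy η, fx ξ * X 2, fx ξ * fy η]

/-- the image of a point under the projection -/
def prP (ξ η : K) (P : Fin 4 → K) : Fin 3 → K :=
  ![P 0 * (P 3 - η * P 2), (P 1 - ξ * P 0) * P 2, (P 1 - ξ * P 0) * (P 3 - η * P 2)]

theorem bih_fx (ξ : K) : Bih 1 0 (fx ξ) := bih_X1.sub (bih_X0.cmul _)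

theorem bih_fy (η : K) : Bih 0 1 (fy η) := bih_X3.sub (bih_X2.cmul _)

theorem hom_deg {d : ℕ} {F : P3 K} (h : F.IsHomogeneous d) {ν : Fin 3 →₀ ℕ}
    (hν : ν ∈ F.support) : ν 0 + ν 1 + ν 2 = d := by
  have h1 : ν.degree = d := by
    by_contra hn
    exact mem_support_iff.1 hν (h.coeff_eq_zero hn)
  rwa [Finsupp.degree_eq_sum, Fin.sum_univ_three] at h1

theorem bih_prj (ξ η : K) {d : ℕ} {F : P3 K} (h : F.IsHomogeneous d) :
    Bih d d (aeval (prj ξ η) F) := by
  rw [F.as_sum, map_sum]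
  refine IsWeightedHomogeneous.sum _ _ _ fun ν hν => ?_
  rw [aeval_monomial, Finsupp.prod_fintype _ _ fun _ => pow_zero _, Fin.prod_univ_three,
    algebraMap_eq, ← hom_deg h hν]
  exact (((((bih_X0.mul (bih_fy η)).pow _).mul (((bih_fx ξ).mul bih_X2).pow _)).mul
    (((bih_fx ξ).mul (bih_fy η)).pow _)).cmul _).of_eq (by push_cast; ring) (by push_cast; ring)

theorem prj_inj [IsDomain K] (ξ η : K) {d : ℕ} {F : P3 K} (h : F.IsHomogeneous d)
    (h0 : aeval (prj ξ η) F = 0) : F = 0 := by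
  let ψ : Cx K →ₐ[K] P3 K := aeval ![X 0, X 2 + C ξ * X 0, X 1, X 2 + C η * X 1]
  have e : ψ.comp (aeval (prj ξ η)) = aeval fun i => X 2 * X i := by
    refine algHom_ext fun i => ?_
    fin_cases i <;> simp [ψ, prj, fx, fy, mul_comm]
  have h1 := DFunLike.congr_fun e F
  rw [AlgHom.comp_apply, h0, map_zero, scale_hom h] at h1
  exact (mul_eq_zero.1 h1.symm).resolve_left (pow_ne_zero _ (X_ne_zero 2))

theorem prj_dvd [IsDomain K] (ξ η : K) {d a b : ℕ} {F : P3 K} (h : F.IsHomogeneous d)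
    (h0 : F ∈ a3 ![1, 0, 0] ^ a) (h1 : F ∈ a3 ![0, 1, 0] ^ b) :
    fx ξ ^ a * fy η ^ b ∣ aeval (prj ξ η) F := by
  have k0 := low_a3 h 0 1 2 (by decide) _ ![0, 1, 1] rfl rfl rfl rfl rfl rfl (by decide) h0
  have k1 := low_a3 h 1 0 2 (by decide) _ ![1, 0, 1] rfl rfl rfl rfl rfl rfl (by decide) h1
  rw [F.as_sum, map_sum]
  refine Finset.dvd_sum fun ν hν => ?_
  have l0 := k0 ν (mem_support_iff.1 hν)
  have l1 := k1 ν (mem_support_iff.1 hν)
  rw [Finsupp.weight_apply, Finsupp.sum_fintype _ _ (by simp), Fin.sum_univ_three] at l0 l1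
  simp at l0 l1
  rw [aeval_monomial, Finsupp.prod_fintype _ _ fun _ => pow_zero _, Fin.prod_univ_three]
  refine Dvd.dvd.mul_left ((mul_dvd_mul (pow_dvd_pow _ l0) (pow_dvd_pow _ l1)).trans
    ⟨X 0 ^ ν 0 * X 2 ^ ν 1, ?_⟩) _
  simp only [prj, Matrix.cons_val_zero, Matrix.cons_val_one, Matrix.cons_val]
  ring

end ring

section field
variable {K : Type} [Field K] {ι : Type}

theorem fx_eval (ξ : K) (P : Fin 4 → K) : eval P (fx ξ) = P 1 - ξ * P 0 := by simp [fx]

theorem fy_eval (η : K) (P : Fin 4 → K) : eval P (fy η) = P 3 - η * P 2 := by simp [fy]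

theorem pt_of {ξ η : K} {P : Fin 4 → K} (hx : P 1 - ξ * P 0 ≠ 0) (hy : P 3 - η * P 2 ≠ 0) :
    Pt P := by
  refine ⟨?_, ?_⟩ <;> by_contra h <;> push Not at h
  · exact hx (by simp [h.1, h.2])
  · exact hy (by simp [h.1, h.2])

theorem prj_pid {ξ η : K} {P : Fin 4 → K} (hx : P 1 - ξ * P 0 ≠ 0) (hy : P 3 - η * P 2 ≠ 0)
    {d m : ℕ} {F : P3 K} (h : F.IsHomogeneous d) (hm : F ∈ a3 (prP ξ η P) ^ m) :
    aeval (prj ξ η) F ∈ pid P ^ m := by
  have hA : (C (P 1 - ξ * P 0)⁻¹ * (C (P 1) - C ξ * C (P 0)) : Cx K) = 1 := by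
    rw [← map_mul, ← map_sub, ← map_mul, inv_mul_cancel₀ hx, map_one]
  have hB : (C (P 3 - η * P 2)⁻¹ * (C (P 3) - C η * C (P 2)) : Cx K) = 1 := by
    rw [← map_mul, ← map_sub, ← map_mul, inv_mul_cancel₀ hy, map_one]
  obtain ⟨N, hN⟩ := a3_loc (prj ξ η) (pid P)
    (C (P 1 - ξ * P 0)⁻¹ * fx ξ * (C (P 3 - η * P 2)⁻¹ * fy η)) (prP ξ η P) (fun i => by
      fin_cases i
      · convert Ideal.mul_mem_left _ (C (P 1 - ξ * P 0)⁻¹ * fy η) (lx_mem P) using 1
        simp only [prj, prP, fx, fy, lx, algebraMap_eq, map_mul, map_sub, Fin.zero_eta,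
          Matrix.cons_val_zero]
        linear_combination (-X 0 * (X 3 - C η * X 2)) * hA -
          (C (P 0) * C (P 1 - ξ * P 0)⁻¹ * (X 1 - C ξ * X 0) * (X 3 - C η * X 2)) * hB
      · convert Ideal.mul_mem_left _ (C (P 3 - η * P 2)⁻¹ * fx ξ) (ly_mem P) using 1
        simp only [prj, prP, fx, fy, ly, algebraMap_eq, map_mul, map_sub, Fin.mk_one,
          Matrix.cons_val_one, Matrix.cons_val_zero]
        linear_combination (-X 2 * (X 1 - C ξ * X 0)) * hB -
          (C (P 2) * C (P 3 - η * P 2)⁻¹ * (X 1 - C ξ * X 0) * (X 3 - C η * X 2)) * hA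
      · convert (pid P).zero_mem using 1
        simp only [prj, prP, algebraMap_eq, map_mul, map_sub, Fin.reduceFinMk, Matrix.cons_val]
        linear_combination (-fx ξ * fy η) * hA - (C (P 1 - ξ * P 0)⁻¹ *
          (C (P 1) - C ξ * C (P 0)) * fx ξ * fy η) * hB) h hm
  simpa using pid_div_pow (pt_of hx hy) (not_pid (by
    simp [fx_eval, fy_eval, hx, hy])) N hN

theorem fx_ne (ξ : K) : fx ξ ≠ 0 := fun h => by
  simpa [fx_eval] using congrArg (eval ![0, 1, 0, 0]) h

theorem fy_ne (η : K) : fy η ≠ 0 := fun h => by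
  simpa [fy_eval] using congrArg (eval ![0, 0, 0, 1]) h

theorem fx_eq (ξ η : K) : fx ξ = -lx ![1, ξ, 1, η] := by simp [fx, lx]

theorem fy_eq (ξ η : K) : fy η = -ly ![1, ξ, 1, η] := by simp [fy, ly]

/-- the centre of the projection -/
theorem prj_ctr (ξ η : K) {d a b : ℕ} {F : P3 K} (h : F.IsHomogeneous d) {G : Cx K}
    (e : aeval (prj ξ η) F = fx ξ ^ a * fy η ^ b * G) :
    G ∈ pid ![1, ξ, 1, η] ^ (d - a - b) := by
  have hQ : Pt ![1, ξ, 1, η] := ⟨.inl (by simp), .inl (by simp)⟩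
  have hx : fx ξ ∈ pid ![1, ξ, 1, η] := fx_eq ξ η ▸ Submodule.neg_mem _ (lx_mem _)
  have hy : fy η ∈ pid ![1, ξ, 1, η] := fy_eq ξ η ▸ Submodule.neg_mem _ (ly_mem _)
  have h1 : aeval (prj ξ η) F ∈ pid ![1, ξ, 1, η] ^ d := by
    rw [F.as_sum, map_sum]
    refine Ideal.sum_mem _ fun ν hν => ?_
    rw [aeval_monomial, Finsupp.prod_fintype _ _ fun _ => pow_zero _, Fin.prod_univ_three,
      ← hom_deg h hν, pow_add, pow_add]
    exact Ideal.mul_mem_left _ _ (Ideal.mul_mem_mul (Ideal.mul_mem_mul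
      (Ideal.pow_mem_pow (Ideal.mul_mem_left _ _ hy) _)
      (Ideal.pow_mem_pow (Ideal.mul_mem_right _ _ hx) _))
      (Ideal.pow_mem_pow (Ideal.mul_mem_right _ _ hx) _))
  rw [e, mul_assoc] at h1
  have h2 := pid_div_pow hQ (j := 1) (fun h0 => lx_sq _ hQ (by
    rw [fx_eq ξ η] at h0
    exact neg_mem_iff.1 h0)) a h1
  simpa using pid_div_pow hQ (j := 1) (fun h0 => ly_sq _ hQ (by
    rw [fy_eq ξ η] at h0
    exact neg_mem_iff.1 h0)) b h2

theorem rk_div {V W : Type} [AddCommGroup V] [Module K V] [CommRing W] [Algebra K W]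
    {S : Submodule K V} {T : Submodule K W} [FiniteDimensional K T] (φ : V →ₗ[K] W) (c : W)
    (hφ : ∀ F ∈ S, φ F = 0 → F = 0) (h : ∀ F ∈ S, ∃ G ∈ T, φ F = c * G) :
    finrank K S ≤ finrank K T := by
  let ψ : W →ₗ[K] W := LinearMap.mulLeft K c
  refine le_trans ?_ (Submodule.finrank_map_le ψ T)
  refine LinearMap.finrank_le_finrank_of_injective (f := φ.restrict (p := S) (q := T.map ψ)
    fun F hF => ?_) ?_
  · obtain ⟨G, hG, e⟩ := h F hF
    exact ⟨G, hG, e.symm⟩
  · exact LinearMap.ker_eq_bot.1 (LinearMap.ker_eq_bot'.2 fun F hF =>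
      Subtype.ext (hφ F F.2 (congrArg Subtype.val hF)))

/-- plane to chart; the centre of the projection is the point of index none -/
theorem Sp_le_H0 (ξ η : K) (d a b : ℕ) (P : ι → Fin 4 → K) (hx : ∀ i, P i 1 - ξ * P i 0 ≠ 0)
    (hy : ∀ i, P i 3 - η * P i 2 ≠ 0) (m : ι → ℤ) :
    finrank K (Sp d (Sum.elim ![![1, 0, 0], ![0, 1, 0]] fun i => prP ξ η (P i))
      (Sum.elim ![a, b] fun i => (m i).toNat)) ≤
    finrank K (H0 (d - a) (d - b) (fun o : Option ι => o.elim ![1, ξ, 1, η] P)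
      fun o => o.elim (d - a - b) m) := by
  refine rk_div (aeval (prj ξ η)).toLinearMap (fx ξ ^ a * fy η ^ b)
    (fun F hF => prj_inj ξ η (mem_Sp.1 hF).1) fun F hF => ?_
  obtain ⟨h, hm⟩ := mem_Sp.1 hF
  obtain ⟨G, e⟩ := prj_dvd ξ η h (hm (.inl 0)) (hm (.inl 1))
  refine ⟨G, mem_H0.2 ⟨?_, ?_⟩, e⟩
  · exact ((e ▸ bih_prj ξ η h).of_mul (((bih_fx ξ).pow a).mul ((bih_fy η).pow b))
      (mul_ne_zero (pow_ne_zero _ (fx_ne ξ)) (pow_ne_zero _ (fy_ne η)))).of_eq (by ring) (by ring)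
  rintro (_ | i)
  · exact Ideal.pow_le_pow_right (by simp only [Option.elim_none]; omega)
      (prj_ctr (a := a) (b := b) ξ η h e)
  · have h1 := prj_pid (hx i) (hy i) h (hm (.inr i))
    rw [e] at h1
    simpa using pid_div (pt_of (hx i) (hy i)) (not_pid (by
      simp [fx_eval, fy_eval, hx i, hy i])) h1

theorem H0_mono {κ : Type} {p q : ℤ} {P : ι → Fin 4 → K} {m : ι → ℤ} {Q : κ → Fin 4 → K}
    {n : κ → ℤ} (h : ∀ j, n j ≤ 0 ∨ ∃ i, P i = Q j ∧ n j ≤ m i) : H0 p q P m ≤ H0 p q Q n :=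
  fun F hF => mem_H0.2 ⟨(mem_H0.1 hF).1, fun j => by
    rcases h j with h0 | ⟨i, e, h1⟩
    · rw [Int.toNat_eq_zero.2 h0, pow_zero, Ideal.one_eq_top]
      trivial
    · exact Ideal.pow_le_pow_right (Int.toNat_le_toNat h1) (e ▸ (mem_H0.1 hF).2 i)⟩

theorem ex_ctr [Fintype ι] [Infinite K] (u w : ι → K) (h : ∀ i, u i ≠ 0 ∨ w i ≠ 0) :
    ∃ ξ, ∀ i, w i - ξ * u i ≠ 0 := by
  obtain ⟨x, hx⟩ := ex_ne (G := ∏ i, (C (w i) - X () * C (u i) : MvPolynomial Unit K))
    (Finset.prod_ne_zero_iff.2 fun i _ h0 => by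
      have a := congrArg (eval fun _ => 0) h0
      have b := congrArg (eval fun _ => 1) h0
      simp at a b
      rw [a, zero_sub, neg_eq_zero] at b
      exact (h i).elim (fun e => e b) fun e => e a)
  rw [map_prod, Finset.prod_ne_zero_iff] at hx
  exact ⟨x (), fun i => by simpa using hx i (Finset.mem_univ _)⟩

theorem prP_ne {ξ η : K} {P : Fin 4 → K} (hx : P 1 - ξ * P 0 ≠ 0) (hy : P 3 - η * P 2 ≠ 0) :
    prP ξ η P ≠ 0 := fun h => mul_ne_zero hx hy (congrFun h 2)

/-- one configuration in the chart, over any field, gives the bound for general plane points -/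
theorem hle_chart0 [Fintype ι] [Algebra ℂ K] {d a b r : ℕ} (P : ι → Fin 4 → K)
    (hP : ∀ i, Pt (P i)) (m : ι → ℤ) (h : finrank K (H0 (d - a) (d - b) P m) ≤ r) :
    Hle d (Sum.elim ![a, b] fun i => (m i).toNat) r := by
  have : Infinite K := Infinite.of_injective _ (algebraMap ℂ K).injective
  obtain ⟨ξ, hx⟩ := ex_ctr _ _ fun i => (hP i).1
  obtain ⟨η, hy⟩ := ex_ctr _ _ fun i => (hP i).2
  refine hle_of _ ?_ ((Sp_le_H0 ξ η d a b P hx hy m).trans (le_trans ?_ h))
  · rintro (i | i)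
    · fin_cases i <;> simp
    · exact prP_ne (hx i) (hy i)
  · exact Submodule.finrank_mono (H0_mono fun j => .inr ⟨some j, rfl, le_rfl⟩)

theorem hle_chart [Fintype ι] [Algebra ℂ K] {p q r : ℕ} (P : ι → Fin 4 → K) (hP : ∀ i, Pt (P i))
    (m : ι → ℤ) (h : finrank K (H0 p q P m) ≤ r) :
    Hle (p + q) (Sum.elim ![q, p] fun i => (m i).toNat) r :=
  hle_chart0 P hP m (by
    rwa [show ((p + q : ℕ) : ℤ) - q = p by push_cast; ring,
      show ((p + q : ℕ) : ℤ) - p = q by push_cast; ring])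

theorem H0_neg {p q : ℤ} (P : ι → Fin 4 → K) (m : ι → ℤ) (h : p < 0 ∨ q < 0) :
    finrank K (H0 p q P m) = 0 :=
  Submodule.finrank_eq_zero.2 ((Submodule.eq_bot_iff _).2 fun _ hF => (mem_H0.1 hF).1.neg_deg h)

end field

/-- relabelling, where the points of multiplicity zero may be dropped -/
theorem Hle.part {ι κ : Type} [Fintype κ] {d r : ℕ} {μ : ι → ℕ} {ν : κ → ℕ} (h : Hle d μ r)
    (f : ι → κ) (hf : ∀ i j, μ i ≠ 0 → μ j ≠ 0 → f i = f j → i = j) (h1 : ∀ i, μ i ≤ ν (f i)) :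
    Hle d ν r := by
  classical
  obtain ⟨p, hp⟩ := h.gn.ex
  refine hle_of (fun k => hv (if e : ∃ i, μ i ≠ 0 ∧ f i = k then p e.choose else 0))
    (fun _ => hv_ne_zero _) ((Submodule.finrank_mono fun F hF =>
      mem_Sp.2 ⟨(mem_Sp.1 hF).1, fun i => ?_⟩).trans hp)
  by_cases h0 : μ i = 0
  · rw [h0, pow_zero, Ideal.one_eq_top]
    trivial
  have e : ∃ j, μ j ≠ 0 ∧ f j = f i := ⟨i, h0, rfl⟩
  have h2 := (mem_Sp.1 hF).2 (f i)
  rw [dif_pos e, hf _ _ e.choose_spec.1 h0 e.choose_spec.2] at h2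
  exact Ideal.pow_le_pow_right (h1 i) h2

/-- a multiplicity larger than the degree -/
theorem hle_big {κ : Type} [Fintype κ] {d r : ℕ} {ν : κ → ℕ} (k : κ) (h : d < ν k) :
    Hle d ν r := by
  refine (hle_chart0 (K := ℂ) (ι := Empty) (d := d) (a := d + 1) (b := 0) (r := r)
    (fun i => i.elim) (fun i => i.elim) (fun i => i.elim) ?_).part (fun _ => k) ?_ ?_
  · rw [H0_neg _ _ (.inl (by push_cast; omega))]
    exact r.zero_le
  · rintro (i | i) (j | j) hi hj -
    · fin_cases i <;> fin_cases j <;> simp_all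
    all_goals first | exact i.elim | exact j.elim
  · rintro (i | i)
    · fin_cases i
      · exact h
      · exact Nat.zero_le _
    · exact i.elim

/-- The bridge for integer classes. The plane points g none and g (some i0) are the base points
of the two rulings, the chart point i0 is the line which joins them. -/
theorem hle_chartZ {K ι κ : Type} [Field K] [Algebra ℂ K] [Fintype ι] [Fintype κ] {d r : ℕ}
    {μ : κ → ℤ} (g : Option ι → κ) (hg : Function.Injective g) (i0 : ι) {p q : ℤ}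
    (P : ι → Fin 4 → K) (hP : ∀ i, Pt (P i)) (m : ι → ℤ) (hp : p = d - μ (g none))
    (hq : q = d - μ (g (some i0))) (h0 : m i0 ≤ d - μ (g none) - μ (g (some i0)))
    (h1 : ∀ i, i ≠ i0 → m i ≤ μ (g (some i))) (h : finrank K (H0 p q P m) ≤ r) :
    Hle d (fun j => (μ j).toNat) r := by
  classical
  by_cases a1 : p < 0
  · exact hle_big (g none) (by omega)
  by_cases a2 : q < 0
  · exact hle_big (g (some i0)) (by omega)
  obtain ⟨p, rfl⟩ := Int.eq_ofNat_of_zero_le (not_lt.1 a1)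
  obtain ⟨q, rfl⟩ := Int.eq_ofNat_of_zero_le (not_lt.1 a2)
  have h2 := Hle.crem (ι := Fin 2 ⊕ ι) (b := ![.inl 0, .inl 1, .inr i0]) (d := d) (d' := p + q)
    (μ := Sum.elim ![μ (g none), μ (g (some i0))] fun i => if i = i0 then 0 else μ (g (some i)))
    (μ' := Sum.elim ![(q : ℤ), p] m) (r := r)
    (fun i j e => by fin_cases i <;> fin_cases j <;> simp_all) (by simp; omega)
    (fun i => by fin_cases i <;> simp <;> omega) (by
      rintro (i | i) hi
      · exact absurd (by fin_cases i; exacts [⟨0, rfl⟩, ⟨1, rfl⟩]) hi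
      · have : i ≠ i0 := fun e => hi ⟨2, e ▸ rfl⟩
        simpa [this] using h1 i this)
    ((hle_chart P hP m h).mono id Function.injective_id (by
      rintro (i | i)
      · fin_cases i <;> simp
      · exact le_rfl) le_rfl)
  refine h2.part (Sum.elim ![g none, g (some i0)] fun i => g (some i)) ?_ ?_
  · rintro (i | i) (j | j) hi hj e
    · fin_cases i <;> fin_cases j <;> simp_all [hg.eq_iff]
    · have : j ≠ i0 := fun e => by simp [e] at hj
      fin_cases i <;> simp_all [hg.eq_iff]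
    · have : i ≠ i0 := fun e => by simp [e] at hi
      fin_cases j <;> simp_all [hg.eq_iff]
    · simp_all [hg.eq_iff]
  · rintro (i | i)
    · fin_cases i <;> simp
    · by_cases e : i = i0 <;> simp [e]

end Pool.Agent.Lib.MP_d03834_ag.Core
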