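import Pool.Agent.Lib.MP_d03834_ag.Core.BiWord

/-! Configurations which agree up to scalars and linear maps satisfy the same words. -/

set_option autoImplicit false

namespace Pool.Agent.Lib.MP_d03834_ag.Core.BW

variable {ι : Type} {A : Type} [CommRing A]

/-- proportional tables of determinants -/
def Prp (f g : ι → ι → A) : Prop :=
  ∃ (u : A) (a : ι → A), u ≠ 0 ∧ (∀ i, a i ≠ 0) ∧ ∀ i j, u * f i j = a i * a j * g i j

/-- the same configuration up to scalars and linear maps -/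
def Rel (P Q : ι → Fin 4 → A) : Prop :=
  Prp (fun i j => dx (P i) (P j)) (fun i j => dx (Q i) (Q j)) ∧
    Prp (fun i j => dy (P i) (P j)) (fun i j => dy (Q i) (Q j))

theorem prp_x {P Q : ι → Fin 4 → A} (a b c d : A) (s : ι → A) (h : a * d - b * c ≠ 0)
    (hs : ∀ l, s l ≠ 0) (h0 : ∀ l, a * P l 0 + b * P l 1 = s l * Q l 0)
    (h1 : ∀ l, c * P l 0 + d * P l 1 = s l * Q l 1) :
    Prp (fun i j => dx (P i) (P j)) (fun i j => dx (Q i) (Q j)) :=
  ⟨_, s, h, hs, fun i j => by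
    simp only [dx]
    linear_combination (c * P i 0 + d * P i 1) * h0 j + s j * Q j 0 * h1 i -
      (a * P i 0 + b * P i 1) * h1 j - s j * Q j 1 * h0 i⟩

theorem prp_y {P Q : ι → Fin 4 → A} (a b c d : A) (s : ι → A) (h : a * d - b * c ≠ 0)
    (hs : ∀ l, s l ≠ 0) (h0 : ∀ l, a * P l 2 + b * P l 3 = s l * Q l 2)
    (h1 : ∀ l, c * P l 2 + d * P l 3 = s l * Q l 3) :
    Prp (fun i j => dy (P i) (P j)) (fun i j => dy (Q i) (Q j)) :=
  prp_x (P := fun l => swP (P l)) (Q := fun l => swP (Q l)) a b c d s h hs h0 h1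

variable [IsDomain A]

theorem Prp.refl (f : ι → ι → A) : Prp f f := ⟨1, fun _ => 1, one_ne_zero, fun _ => one_ne_zero,
  fun _ _ => by ring⟩

theorem Prp.ne {f g : ι → ι → A} (h : Prp f g) {i j : ι} (e : g i j ≠ 0) : f i j ≠ 0 := by
  obtain ⟨u, a, -, ha, h⟩ := h
  intro e0
  have := h i j
  rw [e0, mul_zero] at this
  exact mul_ne_zero (mul_ne_zero (ha i) (ha j)) e this.symm

theorem Prp.trans {f g k : ι → ι → A} (h : Prp f g) (h' : Prp g k) : Prp f k := by
  obtain ⟨u, a, hu, ha, h⟩ := h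
  obtain ⟨v, b, hv, hb, h'⟩ := h'
  exact ⟨u * v, fun i => a i * b i, mul_ne_zero hu hv, fun i => mul_ne_zero (ha i) (hb i),
    fun i j => by linear_combination v * h i j + a i * a j * h' i j⟩

/-- scalars only -/
theorem rel_sc {P Q : ι → Fin 4 → A} (s s' : ι → A) (hs : ∀ l, s l ≠ 0) (hs' : ∀ l, s' l ≠ 0)
    (h : ∀ l, P l 0 = s l * Q l 0 ∧ P l 1 = s l * Q l 1 ∧ P l 2 = s' l * Q l 2 ∧
      P l 3 = s' l * Q l 3) : Rel P Q :=
  ⟨prp_x 1 0 0 1 s (by simp) hs (fun l => by simp [(h l).1]) fun l => by simp [(h l).2.1],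
    prp_y 1 0 0 1 s' (by simp) hs' (fun l => by simp [(h l).2.2.1]) fun l => by
      simp [(h l).2.2.2]⟩

theorem Rel.trans {P Q R : ι → Fin 4 → A} (h : Rel P Q) (h' : Rel Q R) : Rel P R :=
  ⟨h.1.trans h'.1, h.2.trans h'.2⟩

theorem Rel.x {P Q : ι → Fin 4 → A} (h : Rel P Q) (i j : ι) (e : dx (Q i) (Q j) ≠ 0) :
    dx (P i) (P j) ≠ 0 := h.1.ne (i := i) (j := j) e

theorem Rel.y {P Q : ι → Fin 4 → A} (h : Rel P Q) (i j : ι) (e : dy (Q i) (Q j) ≠ 0) :
    dy (P i) (P j) ≠ 0 := h.2.ne (i := i) (j := j) e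

variable [DecidableEq ι]

omit [IsDomain A] in
theorem dy_ky (i j : ι) (P : ι → Fin 4 → A) (l l' : ι) :
    dy (mv (.Ky i j) P l) (mv (.Ky i j) P l') = dy (P l) (P l') := by
  simp only [mv]
  split_ifs <;> rfl

omit [IsDomain A] in
theorem dx_kx (i j : ι) (P : ι → Fin 4 → A) (l l' : ι) :
    dx (mv (.Kx i j) P l) (mv (.Kx i j) P l') = dx (P l) (P l') := by
  simp only [mv]
  split_ifs <;> rfl

theorem Rel.ky {P Q : ι → Fin 4 → A} (h : Rel P Q) (i j : ι) :
    Rel (mv (.Ky i j) P) (mv (.Ky i j) Q) := by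
  refine ⟨?_, by simpa only [dy_ky] using h.2⟩
  obtain ⟨⟨u, a, hu, ha, h⟩, v, b, hv, hb, h'⟩ := h
  have huv := mul_ne_zero hu hv
  have c0 := mul_ne_zero huv (mul_ne_zero (ha j) (hb i))
  have c1 := mul_ne_zero huv (mul_ne_zero (ha i) (hb j))
  refine prp_x (u * v * (a j * b i)) 0 0 (u * v * (a i * b j))
    (fun l => if l = i then u * v * (a j * b i) else if l = j then u * v * (a i * b j) else
      a i * b j * (a j * b i) * (a l * b l)) (by simpa only [mul_zero, sub_zero] using mul_ne_zero c0 c1)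
    (fun l => ?_) (fun l => ?_) fun l => ?_
  · split_ifs
    exacts [c0, c1, mul_ne_zero (mul_ne_zero (mul_ne_zero (ha i) (hb j))
      (mul_ne_zero (ha j) (hb i))) (mul_ne_zero (ha l) (hb l))]
  · simp only [mv]
    split_ifs <;> simp only [Matrix.cons_val]
    · ring
    · ring
    · linear_combination a j * b i * v * dy (P j) (P l) * h i l +
        a j * b i * (a i * a l * dx (Q i) (Q l)) * h' j l
  · simp only [mv]
    split_ifs <;> simp only [Matrix.cons_val]
    · ring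
    · ring
    · linear_combination a i * b j * v * dy (P i) (P l) * h j l +
        a i * b j * (a j * a l * dx (Q j) (Q l)) * h' i l

theorem Rel.kx {P Q : ι → Fin 4 → A} (h : Rel P Q) (i j : ι) :
    Rel (mv (.Kx i j) P) (mv (.Kx i j) Q) := by
  refine ⟨by simpa only [dx_kx] using h.1, ?_⟩
  have e : ∀ (R : ι → Fin 4 → A) (l l' : ι), dy (mv (.Kx i j) R l) (mv (.Kx i j) R l') =
      dx (mv (.Ky i j) (fun l => swP (R l)) l) (mv (.Ky i j) (fun l => swP (R l)) l') := by
    intro R l l'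
    simp only [mv]
    split_ifs <;> rfl
  simpa only [e] using
    (Rel.ky (P := fun l => swP (P l)) (Q := fun l => swP (Q l)) ⟨h.2, h.1⟩ i j).1

/-- shears and tests -/
def Shr : Letter ι → Prop
  | .Ky _ _ => True
  | .Kx _ _ => True
  | .NX _ _ => True
  | .NY _ _ => True
  | _ => False

theorem Rel.mv {P Q : ι → Fin 4 → A} (h : Rel P Q) {a : Letter ι} (ha : Shr a) :
    Rel (mv a P) (mv a Q) := by
  cases a with
  | Ky i j => exact h.ky i j
  | Kx i j => exact h.kx i j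
  | NX i j => exact h
  | NY i j => exact h
  | _ => exact ha.elim

theorem Rel.mvW {P Q : ι → Fin 4 → A} (h : Rel P Q) {w : List (Letter ι)} (hw : ∀ a ∈ w, Shr a) :
    Rel (mvW w P) (mvW w Q) := by
  induction w generalizing P Q with
  | nil => exact h
  | cons a w ih =>
    exact ih (h.mv (hw a List.mem_cons_self)) fun b hb => hw b (List.mem_cons_of_mem _ hb)

theorem Rel.validW {P Q : ι → Fin 4 → A} (h : Rel P Q) {w : List (Letter ι)}
    (hw : ∀ a ∈ w, Shr a) (hv : ValidW w Q) : ValidW w P := by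
  induction w generalizing P Q with
  | nil => trivial
  | cons a w ih =>
    exact ⟨hv.1.tr h.x h.y, ih (h.mv (hw a List.mem_cons_self))
      (fun b hb => hw b (List.mem_cons_of_mem _ hb)) hv.2⟩

end Pool.Agent.Lib.MP_d03834_ag.Core.BW
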