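import Pool.Agent.Lib.MP_d03834_ag.Core.Bi

/-! Elementary transformations at a pair of points. -/

set_option autoImplicit false

namespace Pool.Agent.Lib.MP_d03834_ag.Core

open MvPolynomial Module

section ring
variable {K : Type} [CommRing K]

theorem Bih.aeval_mul {S : Type} [CommRing S] [Algebra K S] {p q : ℤ} {F : Cx K} (h : Bih p q F)
    (g : Fin 4 → S) (s t : S) : MvPolynomial.aeval ![s * g 0, s * g 1, t * g 2, t * g 3] F =
      s ^ p.toNat * t ^ q.toNat * MvPolynomial.aeval g F := by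
  rw [F.as_sum, map_sum, map_sum, Finset.mul_sum]
  refine Finset.sum_congr rfl fun μ hμ => ?_
  obtain ⟨h1, h2⟩ := bih_iff.1 h μ (mem_support_iff.1 hμ)
  have e1 : p.toNat = μ 0 + μ 1 := by omega
  have e2 : q.toNat = μ 2 + μ 3 := by omega
  rw [aeval_monomial, aeval_monomial, Finsupp.prod_fintype _ _ fun _ => pow_zero _,
    Finsupp.prod_fintype _ _ fun _ => pow_zero _, Fin.prod_univ_four, Fin.prod_univ_four, e1, e2]
  simp only [Matrix.cons_val_zero, Matrix.cons_val_one, Matrix.cons_val]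
  ring

theorem Bih.mem_x {p q : ℤ} {F : Cx K} (h : Bih p q F) :
    F ∈ Ideal.span {X 0, X 1} ^ p.toNat := by
  rw [low_span 0 1 (by decide) ![1, 1, 0, 0] rfl rfl (by decide)]
  intro μ hμ
  have := (bih_iff.1 h μ hμ).1
  rw [Finsupp.weight_apply, Finsupp.sum_fintype _ _ (by simp), Fin.sum_univ_four]
  simp
  omega

/-- the substitution which sends lx a and lx b to multiples of u and w -/
noncomputable def shr (a b : Fin 4 → K) (u w : Cx K) : Cx K →ₐ[K] Cx K :=
  aeval ![C (b 0) * u - C (a 0) * w, C (b 1) * u - C (a 1) * w, X 2, X 3]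

theorem shr_lx (a b c : Fin 4 → K) (u w : Cx K) :
    shr a b u w (lx c) = C (dx c b) * u - C (dx c a) * w := by
  simp [shr, lx, dx]
  ring

theorem shr_ly (a b c : Fin 4 → K) (u w : Cx K) : shr a b u w (ly c) = ly c := by
  simp [shr, ly]

theorem Bih.shr {p q : ℤ} {F u w : Cx K} (h : Bih p q F) (a b : Fin 4 → K) (hu : Bih 1 1 u)
    (hw : Bih 1 1 w) : Bih p (p + q) (shr a b u w F) := by
  have h0 : Bih 1 1 (C (b 0) * u - C (a 0) * w) := (hu.cmul _).sub (hw.cmul _)
  have h1 : Bih 1 1 (C (b 1) * u - C (a 1) * w) := (hu.cmul _).sub (hw.cmul _)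
  have := h.aeval ![C (b 0) * u - C (a 0) * w, C (b 1) * u - C (a 1) * w, X 2, X 3] h0 h1
    bih_X2 bih_X3
  exact this.of_eq (by ring) (by ring)

theorem dx_self (a : Fin 4 → K) : dx a a = 0 := by rw [dx]; ring
theorem dy_self (a : Fin 4 → K) : dy a a = 0 := by rw [dy]; ring
theorem dx_comm (a b : Fin 4 → K) : dx a b = -dx b a := by rw [dx, dx]; ring
theorem dy_comm (a b : Fin 4 → K) : dy a b = -dy b a := by rw [dy, dy]; ring

end ring

variable {K : Type} [Field K]

theorem pid_of_eval {P : Fin 4 → K} (hP : Pt P) {p q : ℤ} {F : Cx K} (hF : Bih p q F)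
    (h : eval P F = 0) : F ∈ pid P := by
  obtain ⟨a, c, h1⟩ := exists_det hP.1
  obtain ⟨a', c', h2⟩ := exists_det hP.2
  have hC : (C a * C (P 1) - C (P 0) * C c : Cx K) = 1 := by
    rw [← map_mul, ← map_mul, ← map_sub, h1, map_one]
  have hC' : (C a' * C (P 3) - C (P 2) * C c' : Cx K) = 1 := by
    rw [← map_mul, ← map_mul, ← map_sub, h2, map_one]
  let π := Ideal.Quotient.mkₐ K (pid P)
  have key : ∀ x y z u : Cx K, u ∈ pid P → x - y = z * u → π x = π y := fun x y z u hu e =>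
    Ideal.Quotient.eq.2 (e ▸ Ideal.mul_mem_left _ _ hu)
  have e := hF.aeval_mul (fun i => π (C (P i))) (π (C a * X 1 - C c * X 0))
    (π (C a' * X 3 - C c' * X 2))
  have e1 : π = aeval ![π (C a * X 1 - C c * X 0) * π (C (P 0)),
      π (C a * X 1 - C c * X 0) * π (C (P 1)), π (C a' * X 3 - C c' * X 2) * π (C (P 2)),
      π (C a' * X 3 - C c' * X 2) * π (C (P 3))] := by
    refine algHom_ext fun i => ?_
    rw [aeval_X]
    simp only [← map_mul]
    fin_cases i
    · exact key (X 0) _ (C a) _ (lx_mem P) (by rw [lx]; linear_combination (-X 0) * hC)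
    · exact key (X 1) _ (C c) _ (lx_mem P) (by rw [lx]; linear_combination (-X 1) * hC)
    · exact key (X 2) _ (C a') _ (ly_mem P) (by rw [ly]; linear_combination (-X 2) * hC')
    · exact key (X 3) _ (C c') _ (ly_mem P) (by rw [ly]; linear_combination (-X 3) * hC')
  have e2 : aeval (fun i => π (C (P i))) F = π (C (eval P F)) := by
    have : aeval (fun i => π (C (P i))) = π.comp ((Algebra.ofId K (Cx K)).comp (aeval P)) :=
      algHom_ext fun i => by simp [Algebra.ofId_apply]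
    rw [this]
    rfl
  rw [← e1, e2, h, map_zero, map_zero, mul_zero] at e
  exact Ideal.Quotient.eq_zero_iff_mem.1 e

theorem dy_ne {a b c : Fin 4 → K} (h : dy a b ≠ 0) (h1 : dy b c = 0) (hc : Pt c) : dy a c ≠ 0 := by
  intro h2
  rw [dy] at h h1 h2
  rcases hc.2 with e | e
  · exact mul_ne_zero h e (by linear_combination b 2 * h2 - a 2 * h1)
  · exact mul_ne_zero h e (by linear_combination b 3 * h2 - a 3 * h1)

theorem ly_rel {a b : Fin 4 → K} (h : dy a b ≠ 0) : IsRelPrime (ly a) (ly b) := by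
  intro d h1 h2
  have u : IsUnit (C (dy a b) : Cx K) := (IsUnit.mk0 _ h).map C
  have h3 : d ∣ X 2 := by
    rw [← u.dvd_mul_left]
    convert dvd_sub (h1.mul_left (C (b 2))) (h2.mul_left (C (a 2))) using 1
    simp [ly, dy]
    ring
  have h4 : d ∣ X 3 := by
    rw [← u.dvd_mul_left]
    convert dvd_sub (h1.mul_left (C (b 3))) (h2.mul_left (C (a 3))) using 1
    simp [ly, dy]
    ring
  rcases (X_prime (i := (2 : Fin 4)) (R := K)).irreducible.dvd_iff.1 h3 with e | e
  · exact e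
  · exact absurd (X_dvd_X.1 (e.dvd.trans h4)) (by decide)

theorem ly_ne {a : Fin 4 → K} (h : Pt a) : ly a ≠ 0 := fun e =>
  ly_sq a h (e ▸ Submodule.zero_mem _)

theorem lx_ne {a : Fin 4 → K} (h : Pt a) : lx a ≠ 0 := fun e =>
  lx_sq a h (e ▸ Submodule.zero_mem _)

theorem shear_aux {P : Fin 4 → K} (hP : Pt P) {c d G : Cx K} (hc : c ∉ pid P ^ (1 + 1))
    (hc' : c ∈ pid P) (hd : eval P d ≠ 0) {a b n : ℕ} (h : c ^ a * d ^ b * G ∈ pid P ^ n) (u : ℕ) :
    G * c ^ u ∈ pid P ^ (n - a + u) := by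
  rw [mul_assoc] at h
  have h1 := pid_div_pow hP (not_pid hd) b (pid_div_pow hP hc a h)
  rw [mul_zero, mul_one, Nat.sub_zero] at h1
  rw [pow_add]
  exact Ideal.mul_mem_mul h1 (Ideal.pow_mem_pow hc' u)

/-- elementary transformation at the points i and j; the fibres y = const are preserved -/
theorem shear {ι : Type} [DecidableEq ι] {p q : ℤ} {m : ι → ℤ} {P P' : ι → Fin 4 → K} {i j : ι}
    (hP : ∀ l, Pt (P l)) (hP' : ∀ l, Pt (P' l)) (hx : dx (P i) (P j) ≠ 0)
    (hx' : dx (P' i) (P' j) ≠ 0) (hy : dy (P i) (P j) ≠ 0) (hv : ∀ l, dy (P l) (P' l) = 0)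
    (ho : ∀ l, l ≠ i → l ≠ j → dy (P i) (P' l) ≠ 0 ∧ dy (P j) (P' l) ≠ 0 ∧
      dx (P l) (P j) * dy (P i) (P' l) * dx (P' j) (P' l) =
        dx (P l) (P i) * dy (P j) (P' l) * dx (P' i) (P' l)) :
    finrank K (H0 p q P m) ≤ finrank K (H0 p (q + p - m i - m j) P'
      fun l => if l = i ∨ l = j then p - m l else m l) := by
  let ψ := shr (P i) (P j) (ly (P i) * lx (P' j)) (ly (P j) * lx (P' i))
  let ψ' := shr (P' j) (P' i) (ly (P j) * lx (P i)) (ly (P i) * lx (P j))
  have hi := ly_ne (hP i)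
  have hj := ly_ne (hP j)
  have b0 : ∀ a b : K, Bih 1 1 (C a * (ly (P i) * lx (P' j)) - C b * (ly (P j) * lx (P' i))) :=
    fun a b => (((bih_ly _).mul (bih_lx _)).cmul _).sub (((bih_ly _).mul (bih_lx _)).cmul _)
  have inj : ∀ F, Bih p q F → ψ F = 0 → F = 0 := fun F hF h0 => by
    have e : ψ'.comp ψ = aeval ![C (dx (P' j) (P' i) * dx (P i) (P j)) * ly (P i) * ly (P j) * X 0,
        C (dx (P' j) (P' i) * dx (P i) (P j)) * ly (P i) * ly (P j) * X 1, 1 * X 2, 1 * X 3] := by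
      refine algHom_ext fun k => ?_
      fin_cases k <;> simp [ψ, ψ', shr, lx, ly, dx] <;> ring
    have e1 := DFunLike.congr_fun e F
    rw [hF.aeval_mul X, AlgHom.comp_apply, h0, map_zero, aeval_X_left_apply, one_pow,
      mul_one] at e1
    refine (mul_eq_zero.1 e1.symm).resolve_left (pow_ne_zero _ (mul_ne_zero (mul_ne_zero ?_ hi) hj))
    rw [C_ne_zero, dx_comm]
    exact mul_ne_zero (neg_ne_zero.2 hx') hx
  refine brk_le ((LinearMap.mulRight K (ly (P i) ^ (-m i).toNat * ly (P j) ^ (-m j).toNat)).comp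
    ψ.toLinearMap) (ly (P i) ^ (m i).toNat * ly (P j) ^ (m j).toNat) (fun F hF h0 => ?_)
    fun F hF => ?_
  · exact inj F (mem_H0.1 hF).1 ((mul_eq_zero.1 h0).resolve_right
      (mul_ne_zero (pow_ne_zero _ hi) (pow_ne_zero _ hj)))
  obtain ⟨h1, h2⟩ := mem_H0.1 hF
  have d1 : ly (P i) ^ (m i).toNat ∣ ψ F := by
    rw [← Ideal.mem_span_singleton, ← Ideal.span_singleton_pow]
    refine pid_map ψ ?_ ?_ (h2 i) <;> rw [Ideal.mem_span_singleton]
    · rw [shr_lx, dx_self, map_zero, zero_mul, sub_zero]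
      exact (dvd_mul_right _ _).mul_left _
    · rw [shr_ly]
  have d2 : ly (P j) ^ (m j).toNat ∣ ψ F := by
    rw [← Ideal.mem_span_singleton, ← Ideal.span_singleton_pow]
    refine pid_map ψ ?_ ?_ (h2 j) <;> rw [Ideal.mem_span_singleton]
    · rw [shr_lx, dx_self, map_zero, zero_mul, zero_sub, dvd_neg]
      exact (dvd_mul_right _ _).mul_left _
    · rw [shr_ly]
  obtain ⟨G, hG⟩ := (ly_rel hy).pow.mul_dvd d1 d2
  have yv : ∀ l, ly (P l) ∈ pid (P' l) := fun l =>
    pid_of_eval (hP' l) (bih_ly _) (by rw [eval_ly, hv])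
  have hb : Bih p (p + q) (ψ F) := h1.shr _ _ ((bih_ly _).mul (bih_lx _))
    ((bih_ly _).mul (bih_lx _))
  have hx0 : ∀ I : Ideal (Cx K), ly (P i) * lx (P' j) ∈ I → ly (P j) * lx (P' i) ∈ I →
      ψ F ∈ I ^ p.toNat := fun I a b => by
    have h3 := Ideal.mem_map_of_mem ψ h1.mem_x
    rw [Ideal.map_pow] at h3
    refine Ideal.pow_right_mono (Ideal.map_le_iff_le_comap.2 (Ideal.span_le.2 ?_)) _ h3
    rintro _ (rfl | rfl)
    · change ψ (X 0) ∈ I
      simpa [ψ, shr] using I.sub_mem (I.mul_mem_left _ a) (I.mul_mem_left _ b)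
    · change ψ (X 1) ∈ I
      simpa [ψ, shr] using I.sub_mem (I.mul_mem_left _ a) (I.mul_mem_left _ b)
  refine ⟨G * (ly (P i) ^ (-m i).toNat * ly (P j) ^ (-m j).toNat), mem_H0.2 ⟨?_, fun l => ?_⟩, ?_⟩
  · rw [hG] at hb
    have bp : ∀ u v : ℕ, Bih 0 (u + v) (ly (P i) ^ u * ly (P j) ^ v) := fun u v =>
      (((bih_ly (P i)).pow u).mul ((bih_ly (P j)).pow v)).of_eq (by ring) (by ring)
    have b1 := (hb.of_mul (bp _ _) (mul_ne_zero (pow_ne_zero _ hi) (pow_ne_zero _ hj))).mul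
      (bp (-m i).toNat (-m j).toNat)
    exact b1.of_eq (by ring) (by omega)
  · by_cases e : l = i
    · subst e
      have a1 := hx0 (pid (P' l)) (Ideal.mul_mem_right _ _ (yv l))
        (Ideal.mul_mem_left _ _ (lx_mem _))
      rw [hG] at a1
      have a2 := shear_aux (hP' l) (ly_sq _ (hP l)) (yv l) (by
        rw [eval_ly]
        exact dy_ne (by rwa [dy_comm, neg_ne_zero]) (hv l) (hP' l)) a1 (-m l).toNat
      rw [if_pos (.inl rfl), ← mul_assoc]
      exact Ideal.mul_mem_right _ _ (Ideal.pow_le_pow_right (by omega) a2)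
    by_cases e' : l = j
    · subst e'
      have a1 := hx0 (pid (P' l)) (Ideal.mul_mem_left _ _ (lx_mem _))
        (Ideal.mul_mem_right _ _ (yv l))
      rw [hG, mul_comm (ly (P i) ^ _)] at a1
      have a2 := shear_aux (hP' l) (ly_sq _ (hP l)) (yv l) (by
        rw [eval_ly]
        exact dy_ne hy (hv l) (hP' l)) a1 (-m l).toNat
      rw [if_pos (.inr rfl), mul_comm (ly (P i) ^ _), ← mul_assoc]
      exact Ideal.mul_mem_right _ _ (Ideal.pow_le_pow_right (by omega) a2)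
    obtain ⟨c1, c2, c3⟩ := ho l e e'
    have a1 : ψ F ∈ pid (P' l) ^ (m l).toNat := by
      refine pid_map ψ ?_ ?_ (h2 l)
      · rw [shr_lx]
        refine pid_of_eval (hP' l) (b0 _ _) ?_
        simp only [map_sub, map_mul, eval_C, eval_lx, eval_ly]
        linear_combination c3
      · rw [shr_ly]
        exact yv l
    rw [hG, mul_assoc] at a1
    rw [← eval_ly] at c1 c2
    have a2 := pid_div_pow (hP' l) (not_pid c2) _ (pid_div_pow (hP' l) (not_pid c1) _ a1)
    rw [mul_zero, mul_zero, Nat.sub_zero, Nat.sub_zero] at a2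
    rw [if_neg (not_or.2 ⟨e, e'⟩)]
    exact Ideal.mul_mem_right _ _ a2
  · change ψ F * _ = _
    rw [hG, mul_assoc]

omit [Field K] in
theorem swP_swP (P : Fin 4 → K) : swP (swP P) = P := by
  funext i
  fin_cases i <;> rfl

theorem Pt.swP {P : Fin 4 → K} (h : Pt P) : Pt (swP P) := ⟨h.2, h.1⟩

theorem dx_swP (P Q : Fin 4 → K) : dx (swP P) (swP Q) = dy P Q := rfl
theorem dy_swP (P Q : Fin 4 → K) : dy (swP P) (swP Q) = dx P Q := rfl

theorem rk_swp {ι : Type} (p q : ℤ) (P : ι → Fin 4 → K) (m : ι → ℤ) :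
    finrank K (H0 p q P m) = finrank K (H0 q p (fun l => swP (P l)) m) := by
  have h : ∀ (p q : ℤ) (P : ι → Fin 4 → K),
      finrank K (H0 p q P m) ≤ finrank K (H0 q p (fun l => swP (P l)) m) := fun p q P =>
    brk_le swp.toLinearMap 1 (fun F _ h => by rw [← swp_swp F]; exact (congrArg swp h).trans (map_zero _))
      fun F hF => ⟨swp F, mem_H0.2 ⟨(mem_H0.1 hF).1.swp, fun l => swp_pid ((mem_H0.1 hF).2 l)⟩,
        (one_mul _).symm⟩
  refine le_antisymm (h p q P) ?_
  have := h q p fun l => swP (P l)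
  rwa [show (fun l => swP (swP (P l))) = P from funext fun l => swP_swP _] at this

/-- elementary transformation at the points i and j; the fibres x = const are preserved -/
theorem shear' {ι : Type} [DecidableEq ι] {p q : ℤ} {m : ι → ℤ} {P P' : ι → Fin 4 → K} {i j : ι}
    (hP : ∀ l, Pt (P l)) (hP' : ∀ l, Pt (P' l)) (hy : dy (P i) (P j) ≠ 0)
    (hy' : dy (P' i) (P' j) ≠ 0) (hx : dx (P i) (P j) ≠ 0) (hv : ∀ l, dx (P l) (P' l) = 0)
    (ho : ∀ l, l ≠ i → l ≠ j → dx (P i) (P' l) ≠ 0 ∧ dx (P j) (P' l) ≠ 0 ∧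
      dy (P l) (P j) * dx (P i) (P' l) * dy (P' j) (P' l) =
        dy (P l) (P i) * dx (P j) (P' l) * dy (P' i) (P' l)) :
    finrank K (H0 p q P m) ≤ finrank K (H0 (p + q - m i - m j) q P'
      fun l => if l = i ∨ l = j then q - m l else m l) := by
  rw [rk_swp, rk_swp _ q]
  exact shear (P := fun l => swP (P l)) (P' := fun l => swP (P' l)) (fun l => (hP l).swP)
    (fun l => (hP' l).swP) hy hy' hx hv ho

/-- the same projective points -/
theorem pid_congr {P Q : Fin 4 → K} (hQ : Pt Q) (hx : dx P Q = 0) (hy : dy P Q = 0) :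
    pid P ≤ pid Q :=
  pid_le (pid_of_eval hQ (bih_lx _) (by rwa [eval_lx])) (pid_of_eval hQ (bih_ly _) (by rwa [eval_ly]))

/-- relabelling, rescaling, forgetting points and lowering multiplicities -/
theorem H0_le {ι κ : Type} {p q : ℤ} {P : ι → Fin 4 → K} {Q : κ → Fin 4 → K} {m : ι → ℤ}
    {n : κ → ℤ} (h : ∀ k, n k ≤ 0 ∨ ∃ i, n k ≤ m i ∧ Pt (Q k) ∧ dx (P i) (Q k) = 0 ∧
      dy (P i) (Q k) = 0) : H0 p q P m ≤ H0 p q Q n := fun F hF => by
  refine mem_H0.2 ⟨(mem_H0.1 hF).1, fun k => ?_⟩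
  rcases h k with e | ⟨i, e, a, b, c⟩
  · rw [Int.toNat_eq_zero.2 e]
    simp
  · exact Ideal.pow_right_mono (pid_congr a b c) _
      (Ideal.pow_le_pow_right (by omega) ((mem_H0.1 hF).2 i))

/-- the action of a pair of matrices on points -/
def act (a b c d a' b' c' d' : K) (P : Fin 4 → K) : Fin 4 → K :=
  ![a * P 0 + b * P 1, c * P 0 + d * P 1, a' * P 2 + b' * P 3, c' * P 2 + d' * P 3]

/-- change of coordinates -/
theorem rk_lin {ι : Type} {a b c d a' b' c' d' : K} (h : a * d - b * c ≠ 0)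
    (h' : a' * d' - b' * c' ≠ 0) (p q : ℤ) (P : ι → Fin 4 → K) (m : ι → ℤ) :
    finrank K (H0 p q (fun l => act a b c d a' b' c' d' (P l)) m) ≤ finrank K (H0 p q P m) :=
  brk_le (blin a b c d a' b' c' d').toLinearMap 1
    (fun _ _ e => blin_inj h h' (e.trans (map_zero _).symm)) fun F hF =>
    ⟨blin a b c d a' b' c' d' F, mem_H0.2 ⟨(mem_H0.1 hF).1.blin .., fun l => pid_map _
      (by
        convert (pid (P l)).mul_mem_left (C (a * d - b * c)) (lx_mem _)
        simp [blin, lx, act]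
        ring)
      (by
        convert (pid (P l)).mul_mem_left (C (a' * d' - b' * c')) (ly_mem _)
        simp [blin, ly, act]
        ring) ((mem_H0.1 hF).2 l)⟩, (one_mul _).symm⟩

end Pool.Agent.Lib.MP_d03834_ag.Core
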