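import Pool.Agent.Lib.MP_d03834_ag.Core.BiCurve

/-! The bubble of the orbifold fold: three points and two corners. -/

set_option autoImplicit false

namespace Pool.Agent.Lib.MP_d03834_ag.Core

open MvPolynomial Module

variable {k : Type} [Field k]

/-- three points on the curve ξ y = α y ^ 2 + β y + γ -/
structure Tri (ξ y : Fin 3 → k) (α β γ : k) : Prop where
  y0 : ∀ i, y i ≠ 0
  yy : ∀ i j, i ≠ j → y i ≠ y j
  cur : ∀ i, ξ i * y i = α * y i ^ 2 + β * y i + γ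
  α0 : α ≠ 0
  γ0 : γ ≠ 0

/-- the three points -/
def tE (ξ y : Fin 3 → k) (i : Fin 3) : Fin 4 → k := ![ξ i, 1, y i, 1]

/-- the quadratic form -/
noncomputable def tQ (α β γ : k) : Cx k := C α * (X 2 * X 2) + C β * (X 2 * X 3) + C γ * (X 3 * X 3)

/-- the curve through the three points -/
noncomputable def tc (α β γ : k) : Cx k := X 2 * X 3 * X 0 - tQ α β γ * X 1

/-- the sections on the bubble -/
noncomputable def Zs (ξ y : Fin 3 → k) (p q n : ℕ) (m : Fin 3 → ℕ) : Submodule k (Cx k) :=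
  H0 p q (tE ξ y) (fun i => m i) ⊓ TopS k ![1, 0, 0, 0] n ⊓ LowS k ![0, 1, 2, 0] p ⊓
    LowS k ![0, 1, 0, 2] p

variable {ξ y : Fin 3 → k} {α β γ : k} {p q n : ℕ} {m : Fin 3 → ℕ} {Z : Cx k}

theorem mem_Zs : Z ∈ Zs ξ y p q n m ↔ Bih p q Z ∧ (∀ i, Z ∈ pid (tE ξ y i) ^ m i) ∧
    Top ![1, 0, 0, 0] n Z ∧ Low ![0, 1, 2, 0] p Z ∧ Low ![0, 1, 0, 2] p Z := by
  simp only [Zs, Submodule.mem_inf, mem_H0, Int.toNat_natCast, and_assoc]
  rfl

instance Zs_fin : FiniteDimensional k (Zs ξ y p q n m) :=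
  Submodule.finiteDimensional_of_le (inf_le_left.trans (inf_le_left.trans inf_le_left))

theorem tE_pt (i : Fin 3) : Pt (tE ξ y i) := ⟨.inr one_ne_zero, .inr one_ne_zero⟩

theorem bih_t23 : Bih 0 2 (X 2 * X 3 : Cx k) := bih_X2.mul bih_X3

theorem bih_tQ : Bih 0 2 (tQ α β γ) :=
  (((bih_X2.mul bih_X2).cmul _).add (bih_t23.cmul _)).add ((bih_X3.mul bih_X3).cmul _)

theorem bih_tc : Bih 1 2 (tc α β γ) := (bih_t23.mul bih_X0).sub (bih_tQ.mul bih_X1)

theorem t5_rel (h : Tri ξ y α β γ) : IsRelPrime (X 2 * X 3) (tQ α β γ) := by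
  refine IsRelPrime.mul_left ?_ ?_ <;>
    refine X_prime.irreducible.isRelPrime_iff_not_dvd.2 fun e => ?_
  · have := map_dvd (eval ![0, 0, 0, 1]) e
    simp [tQ, h.γ0] at this
  · have := map_dvd (eval ![0, 0, 1, 0]) e
    simp [tQ, h.α0] at this

/-- the five points of the parametrised curve -/
def tV (ξ y : Fin 3 → k) : Fin 3 ⊕ Fin 2 → Fin 4 → k :=
  Sum.elim (tE ξ y) ![![1, 0, 0, 1], ![1, 0, -1, 0]]

theorem tV_pt : ∀ i, Pt (tV ξ y i)
  | .inl i => tE_pt i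
  | .inr 0 => ⟨.inl one_ne_zero, .inr one_ne_zero⟩
  | .inr 1 => ⟨.inl one_ne_zero, .inl (neg_ne_zero.2 one_ne_zero)⟩

theorem tV_dy (h : Tri ξ y α β γ) : ∀ i j, i ≠ j → dy (tV ξ y i) (tV ξ y j) ≠ 0
  | .inl i, .inl j, e => by
    simpa [tV, tE, dy, sub_eq_zero] using h.yy j i fun e' => e (by rw [e'])
  | .inl i, .inr 0, _ => by simpa [tV, tE, dy] using h.y0 i
  | .inl i, .inr 1, _ => by simp [tV, tE, dy]
  | .inr 0, .inl i, _ => by simpa [tV, tE, dy] using h.y0 i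
  | .inr 1, .inl i, _ => by simp [tV, tE, dy]
  | .inr 0, .inr 0, e => absurd rfl e
  | .inr 0, .inr 1, _ => by simp [tV, dy]
  | .inr 1, .inr 0, _ => by simp [tV, dy]
  | .inr 1, .inr 1, e => absurd rfl e

theorem t5_dvd (h : Tri ξ y α β γ) (hZ : Z ∈ Zs ξ y p q n m) (i : Fin 3 ⊕ Fin 2) :
    ly (tV ξ y i) ^ Sum.elim m (fun _ => p - n / 2) i ∣ grf (X 2 * X 3) (tQ α β γ) Z := by
  obtain ⟨h1, h2, h3, h4, h5⟩ := mem_Zs.1 hZ
  have key : ∀ l : Cx k, (∀ μ, coeff μ Z ≠ 0 → l ^ (p - n / 2) ∣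
      (X 2 * X 3) ^ μ 1 * X 2 ^ μ 2 * X 3 ^ μ 3) →
      l ^ (p - n / 2) ∣ grf (X 2 * X 3) (tQ α β γ) Z := fun l hl => by
    rw [Z.as_sum, map_sum]
    refine Finset.dvd_sum fun μ hμ => ?_
    rw [grf, aeval_monomial, Finsupp.prod_fintype _ _ fun _ => pow_zero _, Fin.prod_univ_four]
    refine Dvd.dvd.mul_left ?_ _
    rw [mul_assoc, mul_assoc, ← mul_assoc _ (_ ^ μ 2)]
    exact (hl μ (mem_support_iff.1 hμ)).mul_left _
  rcases i with i | i
  · change ly (tE ξ y i) ^ m i ∣ _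
    rw [← Ideal.mem_span_singleton, ← Ideal.span_singleton_pow]
    refine pid_map _ ?_ ?_ (h2 i) <;> rw [Ideal.mem_span_singleton]
    · have e := congrArg (C : k → Cx k) (h.cur i)
      have u : IsUnit (C (y i) : Cx k) := (IsUnit.mk0 _ (h.y0 i)).map C
      rw [← u.dvd_mul_left]
      refine ⟨C α * C (y i) * X 2 - C γ * X 3, ?_⟩
      simp only [map_add, map_mul, map_pow] at e
      simp [grf, lx, ly, tE, tQ]
      linear_combination (-(X 2 * X 3)) * e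
    · simp [grf, ly]
  · fin_cases i
    · have e : ly (tV ξ y (.inr 0)) = X 2 := by simp [tV, ly]
      change ly (tV ξ y (.inr 0)) ^ (p - n / 2) ∣ _
      rw [e]
      refine key _ fun μ hμ => ?_
      have a1 := (bih_iff.1 h1 μ hμ).1
      have a2 := h3 μ hμ
      have a3 := h4 μ hμ
      rw [wt4] at a2 a3
      refine (pow_dvd_pow _ (show p - n / 2 ≤ μ 1 + μ 2 by omega)).trans
        ⟨X 3 ^ μ 1 * X 3 ^ μ 3, by ring⟩
    · have e : ly (tV ξ y (.inr 1)) = X 3 := by simp [tV, ly]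
      change ly (tV ξ y (.inr 1)) ^ (p - n / 2) ∣ _
      rw [e]
      refine key _ fun μ hμ => ?_
      have a1 := (bih_iff.1 h1 μ hμ).1
      have a2 := h3 μ hμ
      have a3 := h5 μ hμ
      rw [wt4] at a2 a3
      refine (pow_dvd_pow _ (show p - n / 2 ≤ μ 1 + μ 3 by omega)).trans
        ⟨X 2 ^ μ 1 * X 2 ^ μ 2, by ring⟩

theorem t5_sum (m : Fin 3 → ℕ) (a : ℕ) :
    ∑ i : Fin 3 ⊕ Fin 2, Sum.elim m (fun _ => a) i = m 0 + m 1 + m 2 + 2 * a := by
  simp [Fin.sum_univ_three, two_mul]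

theorem t5_coeff (i j l : Fin 4) (μ : Fin 4 →₀ ℕ) : coeff μ (X i * X j * X l : Cx k) =
    if ∀ s, μ s = (Finsupp.single i 1 + Finsupp.single j 1 + Finsupp.single l 1 : Fin 4 →₀ ℕ) s
      then 1 else 0 := by
  rw [X, X, X, monomial_mul, monomial_mul, coeff_monomial]
  simp only [Finsupp.ext_iff, mul_one, eq_comm]

theorem tc_eq : tc α β γ = X 2 * X 3 * X 0 - C α * (X 2 * X 2 * X 1) - C β * (X 2 * X 3 * X 1) -
    C γ * (X 3 * X 3 * X 1) := by
  rw [tc, tQ]; ring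

theorem t5_ker (h : Tri ξ y α β γ) (hZ : Z ∈ Zs ξ y p q n m)
    (h0 : grf (X 2 * X 3) (tQ α β γ) Z = 0) : Z = 0 ∨ (1 ≤ p ∧ 2 ≤ q ∧ 1 ≤ n ∧
      ∃ Z' ∈ Zs ξ y (p - 1) (q - 2) (n - 1) fun i => m i - 1, Z = tc α β γ * Z') := by
  obtain ⟨h1, h2, h3, h4, h5⟩ := mem_Zs.1 hZ
  obtain ⟨Z', rfl⟩ : tc α β γ ∣ Z := graph_dvd bih_t23 bih_tQ
    (mul_ne_zero (X_ne_zero _) (X_ne_zero _)) (t5_rel h) h1 h0
  by_cases e : Z' = 0
  · exact .inl (by rw [e, mul_zero])
  have c1 : coeff (Finsupp.single 2 1 + Finsupp.single 3 1 + Finsupp.single 0 1) (tc α β γ) ≠ 0 := by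
    simp only [tc_eq, coeff_sub, coeff_C_mul, t5_coeff]
    simp [Fin.forall_fin_succ]
  have c2 : coeff (Finsupp.single 3 1 + Finsupp.single 3 1 + Finsupp.single 1 1) (tc α β γ) ≠ 0 := by
    simp only [tc_eq, coeff_sub, coeff_C_mul, t5_coeff]
    simp [Fin.forall_fin_succ, h.γ0]
  have c3 : coeff (Finsupp.single 2 1 + Finsupp.single 2 1 + Finsupp.single 1 1) (tc α β γ) ≠ 0 := by
    simp only [tc_eq, coeff_sub, coeff_C_mul, t5_coeff]
    simp [Fin.forall_fin_succ, h.α0]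
  have c0 : tc α β γ ≠ 0 := fun e => c1 (by rw [e, coeff_zero])
  have b1 := h1.of_mul bih_tc c0
  have b2 : 1 ≤ p := by_contra fun e' => e (b1.neg_deg (.inl (by omega)))
  have b3 : 2 ≤ q := by_contra fun e' => e (b1.neg_deg (.inr (by omega)))
  obtain ⟨b4, b5⟩ := h3.div (e := 1) _ c1 (by simp [wt4]) e
  refine .inr ⟨b2, b3, b4, Z', mem_Zs.2 ⟨b1.of_eq (by omega) (by omega), fun i => ?_, b5,
    h4.div (e := 1) _ c2 (by simp [wt4]), h5.div (e := 1) _ c3 (by simp [wt4])⟩, rfl⟩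
  refine pid_div (tE_pt i) (j := 1) (fun e => h.y0 i ?_) (h2 i)
  simpa [tc, tQ, tE] using pid_sq 0 e

theorem t5_bih (hZ : Z ∈ Zs ξ y p q n m) :
    Bih 0 (p * 2 + q) (grf (X 2 * X 3) (tQ α β γ) Z) := (mem_Zs.1 hZ).1.grf bih_t23 bih_tQ

theorem t5_van (h : Tri ξ y α β γ) (hZ : Z ∈ Zs ξ y p q n m)
    (hm : q + 2 * (n / 2) < m 0 + m 1 + m 2) : grf (X 2 * X 3) (tQ α β γ) Z = 0 :=
  bin_zero tV_pt (tV_dy h) (t5_bih hZ) (t5_dvd h hZ) (by rw [t5_sum]; omega)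

/-- no sections of small order -/
theorem t5_zero (h : Tri ξ y α β γ) (hZ : Z ∈ Zs ξ y p q n m) (hn : n ≤ p)
    (hm : q + n < m 0 + m 1 + m 2) : Z = 0 := by
  induction n generalizing p q m Z with
  | zero => exact (t5_ker h hZ (t5_van h hZ (by omega))).resolve_right (by omega)
  | succ n ih =>
    rcases t5_ker h hZ (t5_van h hZ (by omega)) with e | ⟨a, b, -, Z', c, rfl⟩
    · exact e
    · rw [ih c (by omega) (by omega), mul_zero]

theorem t5_one (h : Tri ξ y α β γ) (hZ : Z ∈ Zs ξ y p q n m) (hn : n ≤ p)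
    (hm : q + 2 * (n / 2) = m 0 + m 1 + m 2) : ∃ c : k, grf (X 2 * X 3) (tQ α β γ) Z =
      c • ∏ i, ly (tV ξ y i) ^ Sum.elim m (fun _ => p - n / 2) i := by
  obtain ⟨u, hu⟩ := bin_dvd (tV_dy h) (t5_dvd h hZ)
  have h1 := t5_bih (α := α) (β := β) (γ := γ) hZ
  rw [hu] at h1
  have h2 : Bih 0 0 u := (h1.of_mul (bih_lys _ _) (Finset.prod_ne_zero_iff.2 fun i _ =>
    pow_ne_zero _ (ly_ne (tV_pt i)))).of_eq (by ring) (by rw [t5_sum]; omega)
  exact ⟨coeff 0 u, by rw [hu, smul_eq_C_mul, ← h2.const, mul_comm]⟩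

/-- the dimension of the space of sections of the critical order -/
theorem t5_dim (h : Tri ξ y α β γ) (hn : n ≤ p) (hm : q + n ≤ m 0 + m 1 + m 2) :
    finrank k (Zs ξ y p q n m) ≤ n / 2 + 1 := by
  induction n using Nat.strong_induction_on generalizing p q m with
  | _ n ih =>
  let θ := (grf (X 2 * X 3) (tQ α β γ)).toLinearMap
  have h1 : finrank k ↥(Zs ξ y p q n m ⊓ LinearMap.ker θ) ≤ (n + 1) / 2 := by
    by_cases e : 1 ≤ p ∧ 2 ≤ q ∧ 1 ≤ n
    · refine (brk_le (W := Zs ξ y (p - 1) (q - 2) (n - 1) fun i => m i - 1) LinearMap.id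
        (tc α β γ) (fun _ _ e => e) fun F hF => ?_).trans
          ((ih (n - 1) (by omega) (by omega) (by omega)).trans (by omega))
      rcases t5_ker h hF.1 hF.2 with e | ⟨-, -, -, c⟩
      · exact ⟨0, Submodule.zero_mem _, by rw [e, mul_zero, map_zero]⟩
      · exact c
    · rw [(Submodule.eq_bot_iff (Zs ξ y p q n m ⊓ LinearMap.ker θ)).2 fun F hF =>
        (t5_ker h hF.1 hF.2).resolve_right fun c => e ⟨c.1, c.2.1, c.2.2.1⟩, finrank_bot]
      omega
  by_cases e : q + 2 * (n / 2) < m 0 + m 1 + m 2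
  · rw [inf_eq_left.2 fun F hF => t5_van h hF e] at h1
    omega
  have h2 := LinearMap.finrank_range_add_finrank_ker (θ.domRestrict (Zs ξ y p q n m))
  have h3 : finrank k (LinearMap.range (θ.domRestrict (Zs ξ y p q n m))) ≤ 1 := by
    refine (Submodule.finrank_mono (t := k ∙ ∏ i, ly (tV ξ y i) ^
      Sum.elim m (fun _ => p - n / 2) i) ?_).trans (by simpa using finrank_span_le_card ({_} : Set _))
    rintro _ ⟨F, rfl⟩
    obtain ⟨c, hc⟩ := t5_one h F.2 hn (by omega)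
    exact Submodule.mem_span_singleton.2 ⟨c, hc.symm⟩
  have h4 : finrank k (LinearMap.ker (θ.domRestrict (Zs ξ y p q n m))) =
      finrank k ↥(Zs ξ y p q n m ⊓ LinearMap.ker θ) := by
    rw [LinearMap.ker_domRestrict, ← Submodule.finrank_map_subtype_eq, Submodule.map_comap_subtype]
  omega

/-- the coefficient of x0 ^ n as a polynomial in y -/
noncomputable def tp (n : ℕ) : Cx k →ₗ[k] Polynomial k :=
  (aeval ![1, 1, Polynomial.X, 1] : Cx k →ₐ[k] Polynomial k).toLinearMap.comp (cmp ![1, 0, 0, 0] n)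

theorem tp_mul {a b : ℕ} {F G : Cx k} (hF : Top ![1, 0, 0, 0] a F) (hG : Top ![1, 0, 0, 0] b G) :
    tp (a + b) (F * G) = tp a F * tp b G := by
  simp only [tp, LinearMap.comp_apply, AlgHom.toLinearMap_apply, cmp_gr]
  rw [map_mul, Polynomial.coeff_mul_add_eq_of_natDegree_le ((top_iff _ _ _).1 hF)
    ((top_iff _ _ _).1 hG), map_mul]

theorem tp_zero {F : Cx k} (hF : Top ![1, 0, 0, 0] 0 F) :
    tp 0 F = aeval ![1, 1, Polynomial.X, 1] F := by
  have : cmp ![1, 0, 0, 0] 0 F = F := MvPolynomial.ext _ _ fun μ => by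
    rw [cmp_coeff]
    split_ifs with e
    · rfl
    · by_contra h0
      exact e (Nat.le_zero.1 (hF μ (Ne.symm h0)))
  simp only [tp, LinearMap.comp_apply, AlgHom.toLinearMap_apply, this]

theorem tp_pow {F : Cx k} (hF : Top ![1, 0, 0, 0] 1 F) (n : ℕ) : tp n (F ^ n) = tp 1 F ^ n := by
  induction n with
  | zero => rw [pow_zero, pow_zero, tp_zero (top_one _), map_one]
  | succ n ih => rw [pow_succ, pow_succ, tp_mul (by simpa using hF.pow n) hF, ih]

theorem Bih.top0 {q : ℤ} {F : Cx k} (h : Bih 0 q F) : Top ![1, 0, 0, 0] 0 F := fun μ hμ => by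
  have := (bih_iff.1 h μ hμ).1
  rw [wt4]
  omega

theorem tp_lin {d : ℤ} {A B : Cx k} (hA : Bih 0 d A) (hB : Bih 0 d B) :
    Top ![1, 0, 0, 0] 1 (A * X 0 - B * X 1) ∧
      tp 1 (A * X 0 - B * X 1) = aeval ![1, 1, Polynomial.X, 1] A := by
  have h1 : Top ![1, 0, 0, 0] 0 (B * X 1) := hB.top0.mul (top_X _ 1)
  refine ⟨(hA.top0.mul (top_X _ 0)).sub (h1.mono (by omega)), ?_⟩
  simp only [tp, LinearMap.comp_apply, AlgHom.toLinearMap_apply, cmp_gr]
  rw [map_sub, Polynomial.coeff_sub, Polynomial.coeff_eq_zero_of_natDegree_lt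
    (((top_iff _ _ _).1 h1).trans_lt one_pos), sub_zero, map_mul,
    Polynomial.eq_C_of_natDegree_le_zero ((top_iff _ _ _).1 hA.top0), ← cmp_gr]
  have := tp_zero hA.top0
  simp only [tp, LinearMap.comp_apply, AlgHom.toLinearMap_apply] at this
  simp [gr, this]

/-- the space of the leading coefficients -/
noncomputable def tW (y : Fin 3 → k) (η : k) (n : ℕ) (μ : Fin 3 → ℕ) :
    Submodule k (Polynomial k) :=
  Submodule.span k {f | ∃ i ≤ n / 2, f = Polynomial.X ^ ((n + 1) / 2) *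
    (∏ l, (Polynomial.X - Polynomial.C (y l)) ^ μ l) *
    (Polynomial.X ^ (n / 2 - i) * (Polynomial.X - Polynomial.C η) ^ (2 * i))}

theorem tW_mul {η : k} {μ : Fin 3 → ℕ} {f : Polynomial k} (h : f ∈ tW y η n μ) :
    Polynomial.X * f ∈ tW y η (n + 1) μ := by
  induction h using Submodule.span_induction with
  | zero => simp
  | add a b _ _ ha hb => rw [mul_add]; exact add_mem ha hb
  | smul c a _ ha => rw [mul_smul_comm]; exact Submodule.smul_mem _ c ha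
  | mem f hf =>
    obtain ⟨i, hi, rfl⟩ := hf
    refine Submodule.subset_span ⟨i, by omega, ?_⟩
    have e : (n + 1 + 1) / 2 + ((n + 1) / 2 - i) = 1 + ((n + 1) / 2 + (n / 2 - i)) := by omega
    have e1 := congrArg ((Polynomial.X : Polynomial k) ^ ·) e
    simp only [pow_add, pow_one] at e1
    linear_combination (-(∏ l, (Polynomial.X - Polynomial.C (y l)) ^ μ l) *
      (Polynomial.X - Polynomial.C η) ^ (2 * i)) * e1

/-- the leading coefficients are symmetric under the involution y ↦ η ^ 2 / y -/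
theorem t5_W (h : Tri ξ y α β γ) {η : k} (hη : γ * η = α * (y 0 * y 1 * y 2)) {μ : Fin 3 → ℕ}
    (hZ : Z ∈ Zs ξ y p q n fun i => μ i + n) (hn : n ≤ p) (hm : q = μ 0 + μ 1 + μ 2 + 2 * n) :
    tp n Z ∈ tW y η n μ := by
  induction n using Nat.strong_induction_on generalizing p q Z with
  | _ n ih =>
  have key : ∀ Z ∈ Zs ξ y p q n fun i => μ i + n, grf (X 2 * X 3) (tQ α β γ) Z = 0 →
      tp n Z ∈ tW y η n μ := fun Z hZ h0 => by
    rcases t5_ker h hZ h0 with rfl | ⟨a, b, c, Z', d, rfl⟩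
    · simp
    obtain ⟨n, rfl⟩ : ∃ n', n = n' + 1 := ⟨n - 1, by omega⟩
    obtain ⟨t1, t2⟩ := tp_lin (bih_t23 (k := k)) (bih_tQ (α := α) (β := β) (γ := γ))
    have t3 := tp_mul t1 (show Top ![1, 0, 0, 0] n Z' from (mem_Zs.1 d).2.2.1)
    rw [add_comm 1 n] at t3
    rw [tc, t3, t2]
    have := tW_mul (ih n n.lt_succ_self (p := p - 1) (q := q - 2) d (by omega) (by omega))
    simpa using this
  rcases Nat.even_or_odd' n with ⟨τ, rfl | rfl⟩
  swap
  · exact key Z hZ (t5_van h hZ (by omega))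
  obtain ⟨r, rfl⟩ := Nat.exists_eq_add_of_le hn
  let A : Cx k := X 2 - C η * X 3
  let B : Cx k := C (β - α * η + α * (y 0 + y 1 + y 2)) * X 2 +
    C (γ - β * η - α * (y 0 * y 1 + y 0 * y 2 + y 1 * y 2)) * X 3
  have hA : Bih 0 1 A := bih_X2.sub (bih_X3.cmul _)
  have hB : Bih 0 1 B := (bih_X2.cmul _).add (bih_X3.cmul _)
  obtain ⟨t1, t2⟩ := tp_lin hA hB
  have e0 : grf (X 2 * X 3) (tQ α β γ) (A * X 0 - B * X 1) = C α * ∏ i, ly (tE ξ y i) := by
    have e := congrArg (C : k → Cx k) hη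
    simp only [map_mul] at e
    simp [grf, A, B, tQ, ly, tE, Fin.prod_univ_three]
    linear_combination (-(X 3 * X 3 * X 3)) * e
  have hL := bih_lys (tE ξ y) μ
  have hR : Top ![1, 0, 0, 0] 0 ((X 2 * X 3) ^ τ * X 1 ^ r * ∏ i, ly (tE ξ y i) ^ μ i) := by
    simpa using (((bih_t23 (k := k)).top0.pow τ).mul ((top_X ![1, 0, 0, 0] 1).pow r)).mul hL.top0
  have hc : ∀ i, A * X 0 - B * X 1 ∈ pid (tE ξ y i) := fun i => by
    refine pid_of_eval (tE_pt i) ((hA.mul bih_X0).sub (hB.mul bih_X1)) ?_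
    refine mul_left_cancel₀ (h.y0 i) ?_
    have e1 := congrArg (eval (tE ξ y i)) e0
    rw [map_mul, map_prod, Finset.prod_eq_zero (Finset.mem_univ i)
      (by rw [eval_ly, dy_self])] at e1
    rw [mul_zero]
    simp [grf, A, B, tQ, tE, -mul_eq_zero] at e1 ⊢
    linear_combination e1 + (y i - η) * h.cur i
  have z0 : (A * X 0 - B * X 1) ^ (2 * τ) *
      ((X 2 * X 3) ^ τ * X 1 ^ r * ∏ i, ly (tE ξ y i) ^ μ i) ∈
        Zs ξ y (2 * τ + r) q (2 * τ) fun i => μ i + 2 * τ := by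
    refine mem_Zs.2 ⟨?_, fun i => ?_, by simpa using (t1.pow (2 * τ)).mul hR, ?_, ?_⟩
    · refine ((((hA.mul bih_X0).sub (hB.mul bih_X1)).pow _).mul
        (((bih_t23.pow τ).mul (bih_X1.pow r)).mul hL)).of_eq (by push_cast; ring) ?_
      rw [hm, Fin.sum_univ_three]
      push_cast
      ring
    · rw [add_comm (μ i), pow_add]
      exact Ideal.mul_mem_mul (Ideal.pow_mem_pow (hc i) _) (Ideal.mul_mem_left _ _
        (Ideal.prod_mem _ (Finset.mem_univ i) (Ideal.pow_mem_pow (ly_mem _) _)))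
    · exact ((low_zero _ _).mul (((((low_X _ 2).mul (low_zero _ _)).pow τ).mul
        ((low_X _ 1).pow r)).mul (low_zero _ _))).mono (by simp; omega)
    · exact ((low_zero _ _).mul (((((low_zero _ _).mul (low_X _ 3)).pow τ).mul
        ((low_X _ 1).pow r)).mul (low_zero _ _))).mono (by simp; omega)
  obtain ⟨c, hc1⟩ := t5_one h hZ hn (by omega)
  have z1 := key _ (sub_mem hZ (Submodule.smul_mem _ (c / α ^ (2 * τ)) z0)) (by
    have g1 : grf (X 2 * X 3) (tQ α β γ) (X 1) = X 2 * X 3 := by simp [grf]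
    have l0 : ly (tV ξ y (.inr 0)) = X 2 := by simp [tV, ly]
    have l1 : ly (tV ξ y (.inr 1)) = X 3 := by simp [tV, ly]
    have e2 : 2 * τ + r - 2 * τ / 2 = τ + r := by omega
    have e3 : (C c : Cx k) = C (c / α ^ (2 * τ)) * C α ^ (2 * τ) := by
      rw [← map_pow, ← map_mul, div_mul_cancel₀ _ (pow_ne_zero _ h.α0)]
    rw [map_sub, map_smul, hc1, map_mul, map_mul, map_mul, map_pow, map_pow, map_pow, e0, g1,
      grf_fix _ _ hL, grf_fix _ _ bih_t23, Fintype.prod_sum_type, Fin.prod_univ_two, l0, l1,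
      smul_eq_C_mul, smul_eq_C_mul]
    simp only [Sum.elim_inl, Sum.elim_inr, e2, tV, Fin.prod_univ_three]
    conv_lhs => rw [e3]
    rw [← e3]
    ring_nf
    rw [e3]
    ring)
  rw [map_sub, map_smul] at z1
  rw [← sub_add_cancel (tp (2 * τ) Z) _]
  refine add_mem z1 (Submodule.smul_mem _ _ (Submodule.subset_span ⟨τ, by omega, ?_⟩))
  have e4 := tp_mul (show Top ![1, 0, 0, 0] (2 * τ) _ by simpa using t1.pow (2 * τ)) hR
  rw [add_zero] at e4
  rw [e4, tp_pow t1, t2, tp_zero hR, show (2 * τ + 1) / 2 = τ by omega,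
    show 2 * τ / 2 - τ = 0 by omega]
  simp [A, ly, tE]
  ring

end Pool.Agent.Lib.MP_d03834_ag.Core
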