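import Pool.Agent.Lib.MP_d03834_ag.Core.Polya

/-! Zoom lemma: a space of polynomials that is highly ramified at a point is transversal to the
polynomials symmetric under an involution whose fixed point is close to that point. -/

set_option autoImplicit false

namespace Pool.Agent.Lib.MP_d03834_ag.Core

open Polynomial Module

variable {k : Type} [Field k]

/-- polynomials vanishing to order at least `n` at the origin -/
def ordZ (k : Type) [Field k] (n : ℕ) : Submodule k k[X] where
  carrier := {f | ∀ b, b < n → f.coeff b = 0}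
  add_mem' := fun {f g} hf hg b hb => by rw [coeff_add, hf b hb, hg b hb, add_zero]
  zero_mem' := fun b _ => coeff_zero b
  smul_mem' := fun c f hf b hb => by rw [coeff_smul, hf b hb, smul_zero]

theorem mem_ordZ {n : ℕ} {f : k[X]} : f ∈ ordZ k n ↔ ∀ b, b < n → f.coeff b = 0 := Iff.rfl

theorem ordZ_anti {a b : ℕ} (h : a ≤ b) : ordZ k b ≤ ordZ k a :=
  fun _ hf c hc => hf c (hc.trans_le h)

/-- the even powers basis attached to the two fixed points -/
noncomputable def evB {R : Type} [CommRing R] (β w : R) (τ i : ℕ) : R[X] :=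
  (X - C w) ^ (2 * i) * (X + C (β + w)) ^ (2 * (τ - i))

theorem evB_map {R S : Type} [CommRing R] [CommRing S] (φ : R →+* S) (β w : R) (τ i : ℕ) :
    (evB β w τ i).map φ = evB (φ β) (φ w) τ i := by
  simp [evB, Polynomial.map_mul, Polynomial.map_pow]

theorem evB_deg {R : Type} [CommRing R] [Nontrivial R] (β w : R) {τ i : ℕ} (hi : i ≤ τ) :
    (evB β w τ i).natDegree < 2 * τ + 1 := by
  have h1 := natDegree_mul_le (p := (X - C w) ^ (2 * i)) (q := (X + C (β + w)) ^ (2 * (τ - i)))
  have h2 := natDegree_pow_le (p := (X - C w : R[X])) (n := 2 * i)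
  have h3 := natDegree_pow_le (p := (X + C (β + w) : R[X])) (n := 2 * (τ - i))
  rw [natDegree_X_sub_C] at h2
  rw [natDegree_X_add_C] at h3
  unfold evB
  omega

theorem ord_count (U : Submodule k k[X]) [FiniteDimensional k U] (Q : k[X])
    (h : ∀ b, Q.coeff b ≠ 0 → ∃ f ∈ U, f ∈ ordZ k b ∧ f.coeff b ≠ 0) (n : ℕ) :
    lowCnt Q n + finrank k ↥(U ⊓ ordZ k n) ≤ finrank k U := by
  induction n with
  | zero => rw [lowCnt_zero, zero_add]; exact Submodule.finrank_mono inf_le_left
  | succ n ih =>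
    have hle : U ⊓ ordZ k (n + 1) ≤ U ⊓ ordZ k n := inf_le_inf_left _ (ordZ_anti (by omega))
    have : FiniteDimensional k ↥(U ⊓ ordZ k n) := Submodule.finiteDimensional_of_le inf_le_left
    by_cases hn : Q.coeff n = 0
    · rw [lowCnt_succ_zero Q n hn]
      have := Submodule.finrank_mono hle
      omega
    · rw [lowCnt_succ_ne Q n hn]
      obtain ⟨f, hf, hf1, hf2⟩ := h n hn
      have := Submodule.finrank_lt_finrank_of_lt (lt_of_le_of_ne hle fun he => hf2 (by
        have : f ∈ U ⊓ ordZ k (n + 1) := he ▸ ⟨hf, hf1⟩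
        exact this.2 n (by omega)))
      omega

/-- generic injectivity over the polynomial ring in the position of the fixed point -/
theorem zoom_gen [CharZero k] (U : Submodule k k[X]) [FiniteDimensional k U] (β : k) (hβ : β ≠ 0)
    (τ : ℕ) (h : ∀ j, finrank k U ≤ finrank k ↥(U ⊓ ordZ k (2 * j + 1)) + j) (μ : ℕ → k[X])
    (hU : ∀ l, ∃ f ∈ U, ∀ b, f.coeff b =
      ((∑ i ∈ Finset.range (τ + 1), C (μ i) * evB (C β) X τ i).coeff b).coeff l) :
    ∀ i, i ≤ τ → μ i = 0 := by
  classical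
  by_contra hc
  push Not at hc
  have hex : ∃ N, ∃ i, i ≤ τ ∧ (X ^ (2 * i) * μ i).coeff N ≠ 0 := by
    obtain ⟨i, hi, h0⟩ := hc
    have : X ^ (2 * i) * μ i ≠ 0 := mul_ne_zero (pow_ne_zero _ X_ne_zero) h0
    exact ⟨_, i, hi, leadingCoeff_ne_zero.2 this⟩
  obtain ⟨i0, hi0, hN⟩ := Nat.find_spec hex
  set N := Nat.find hex with hNd
  have hdv : ∀ i, ∃ ν : k[X], i ≤ τ → X ^ (2 * i) * μ i = X ^ N * ν := fun i => by
    by_cases hi : i ≤ τ
    · have : X ^ N ∣ X ^ (2 * i) * μ i := X_pow_dvd_iff.2 fun d hd => by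
        by_contra hne
        exact Nat.find_min hex hd ⟨i, hi, hne⟩
      obtain ⟨ν, hν⟩ := this
      exact ⟨ν, fun _ => hν⟩
    · exact ⟨0, fun h => absurd h hi⟩
  choose ν hν using hdv
  set u : k[X][X] := ∑ i ∈ Finset.range (τ + 1), C (μ i) * evB (C β) X τ i with hu
  set u' : k[X][X] := ∑ i ∈ Finset.range (τ + 1),
    C (ν i) * ((X - 1) ^ (2 * i) * (C X * X + C (C β + X)) ^ (2 * (τ - i))) with hu'
  have hs : u.comp (C X * X) = C (X ^ N) * u' := by
    rw [hu, hu', sum_comp, Finset.mul_sum]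
    refine Finset.sum_congr rfl fun i hi => ?_
    have e := hν i (by have := Finset.mem_range.1 hi; omega)
    simp only [evB, mul_comp, C_comp, pow_comp, sub_comp, add_comp, X_comp]
    rw [← mul_assoc (C (X ^ N)), ← C_mul, ← e, C_mul, C_pow,
      show (C X * X - C X : k[X][X]) = C X * (X - 1) by ring, mul_pow]
    ring
  have hb : ∀ b, X ^ b * u.coeff b = X ^ N * u'.coeff b := fun b => by
    have := congrArg (fun p => p.coeff b) hs
    simp only [comp_C_mul_X_coeff, coeff_C_mul] at this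
    rw [← this, mul_comm]
  set Q : k[X] := ∑ i ∈ Finset.range (τ + 1),
    C ((ν i).coeff 0 * β ^ (2 * (τ - i))) * (X - 1 : k[X]) ^ (2 * i) with hQ
  have hQu : Q = u'.map (evalRingHom 0) := by
    rw [hQ, hu', Polynomial.map_sum]
    refine Finset.sum_congr rfl fun i _ => ?_
    simp only [Polynomial.map_mul, Polynomial.map_pow, Polynomial.map_sub, Polynomial.map_add,
      map_C, map_X, Polynomial.map_one, coe_evalRingHom, eval_X, eval_add, eval_C, C_0, zero_mul,
      zero_add, add_zero, C_mul, C_pow, coeff_zero_eq_eval_zero]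
    ring
  have hQc : ∀ b, Q.coeff b = (u'.coeff b).coeff 0 := fun b => by
    rw [hQu, coeff_map, coe_evalRingHom, coeff_zero_eq_eval_zero]
  obtain ⟨j, hj⟩ := polya τ (fun i => (ν i).coeff 0 * β ^ (2 * (τ - i))) i0 hi0 (by
    refine mul_ne_zero ?_ (pow_ne_zero _ hβ)
    rw [hν i0 hi0] at hN
    have := coeff_X_pow_mul (ν i0) N 0
    rw [zero_add] at this
    rwa [this] at hN)
  have hcnt := ord_count U Q (fun b hQb => by
    have e1 : (X ^ b * u.coeff b).coeff N = Q.coeff b := by
      rw [hb, hQc]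
      have := coeff_X_pow_mul (u'.coeff b) N 0
      rwa [zero_add] at this
    have hbN : b ≤ N := by
      by_contra hlt
      rw [coeff_X_pow_mul', if_neg hlt] at e1
      exact hQb e1.symm
    obtain ⟨f, hf, hfc⟩ := hU (N - b)
    refine ⟨f, hf, fun a ha => ?_, ?_⟩
    · rw [hfc]
      have e2 : (X ^ a * u.coeff a).coeff (N - b + a) = (X ^ N * u'.coeff a).coeff (N - b + a) := by
        rw [hb a]
      rw [coeff_X_pow_mul, coeff_X_pow_mul', if_neg (by omega)] at e2
      exact e2
    · rw [hfc]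
      rw [coeff_X_pow_mul', if_pos hbN] at e1
      rwa [e1]) (2 * j + 1)
  have := h j
  rw [← hQ] at hj
  omega

/-- span of the even powers basis -/
noncomputable def evW (β w : k) (τ : ℕ) : Submodule k k[X] :=
  Submodule.span k (Set.range fun i : Fin (τ + 1) => evB β w τ i)

theorem zoom_zero [CharZero k] (U : Submodule k k[X]) [FiniteDimensional k U] (β : k) (hβ : β ≠ 0)
    (τ : ℕ) (h : ∀ j, finrank k U ≤ finrank k ↥(U ⊓ ordZ k (2 * j + 1)) + j) :
    Set.Finite {w : k | U ⊓ evW β w τ ≠ ⊥} := by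
  classical
  let T : (Fin (2 * τ + 1) → k) →ₗ[k] k[X] :=
    ∑ b : Fin (2 * τ + 1), (monomial (b : ℕ)).comp (LinearMap.proj b)
  have hT : ∀ c : Fin (2 * τ + 1) → k, ∀ b, (T c).coeff b =
      if hb : b < 2 * τ + 1 then c ⟨b, hb⟩ else 0 := fun c b => by
    simp only [T, LinearMap.sum_apply, LinearMap.comp_apply, LinearMap.proj_apply,
      finsetSum_coeff, coeff_monomial]
    split_ifs with hb
    · rw [Finset.sum_eq_single ⟨b, hb⟩ (fun a _ ha => if_neg fun e => ha (Fin.ext e))
        (fun hn => absurd (Finset.mem_univ _) hn), if_pos rfl]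
    · exact Finset.sum_eq_zero fun a _ => if_neg fun e : (a : ℕ) = b => hb (e ▸ a.2)
  let U0 := U.comap T
  let q := (Module.finBasis k ((Fin (2 * τ + 1) → k) ⧸ U0)).equivFun.toLinearMap.comp U0.mkQ
  have hq : ∀ c, (LinearMap.toMatrix' q).mulVec c = 0 ↔ T c ∈ U := fun c => by
    rw [LinearMap.toMatrix'_mulVec]
    simp only [q, LinearMap.comp_apply, LinearEquiv.coe_coe, LinearEquiv.map_eq_zero_iff,
      Submodule.mkQ_apply, Submodule.Quotient.mk_eq_zero]
    rfl
  let P := LinearMap.toMatrix' q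
  let Bm : Matrix (Fin (2 * τ + 1)) (Fin (τ + 1)) k[X] :=
    Matrix.of fun b i => (evB (C β) X τ i).coeff b
  obtain ⟨δ, L, hδ, hL⟩ := left_quasi (P.map C * Bm) fun μ hμ => by
    let μ' : ℕ → k[X] := fun i => if hi : i < τ + 1 then μ ⟨i, hi⟩ else 0
    have hco : ∀ b : Fin (2 * τ + 1), (Bm.mulVec μ) b =
        (∑ i ∈ Finset.range (τ + 1), C (μ' i) * evB (C β) X τ i).coeff b := fun b => by
      rw [finsetSum_coeff, Finset.sum_range]
      simp only [Matrix.mulVec, dotProduct, Bm, Matrix.of_apply, coeff_C_mul, μ', Fin.is_lt,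
        dif_pos, Fin.eta]
      exact Finset.sum_congr rfl fun i _ => mul_comm _ _
    have := zoom_gen U β hβ τ h μ' fun l => by
      refine ⟨T fun b => ((Bm.mulVec μ) b).coeff l, (hq _).1 ?_, fun b => ?_⟩
      · funext e
        have h1 := congrFun hμ e
        rw [← Matrix.mulVec_mulVec] at h1
        have h2 : (((P.map C).mulVec (Bm.mulVec μ)) e).coeff l = 0 := by
          rw [h1, Pi.zero_apply, coeff_zero]
        rw [Pi.zero_apply, ← h2]
        simp only [Matrix.mulVec, dotProduct, Matrix.map_apply, finsetSum_coeff, coeff_C_mul, P]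
      · rw [hT]
        split_ifs with hb
        · rw [hco]
        · rw [finsetSum_coeff, Finset.sum_eq_zero, coeff_zero]
          intro i hi
          rw [coeff_C_mul, coeff_eq_zero_of_natDegree_lt, mul_zero]
          have := evB_deg (C β) X (τ := τ) (i := i) (by have := Finset.mem_range.1 hi; omega)
          omega
    funext i
    have h3 := this i (by omega)
    simp only [μ', i.2, dif_pos, Fin.eta] at h3
    exact h3
  refine (δ.roots.toFinset.finite_toSet).subset fun w hw => ?_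
  simp only [Finset.mem_coe, Multiset.mem_toFinset, mem_roots hδ, IsRoot.def]
  by_contra hδw
  obtain ⟨f, ⟨hfU, hfW⟩, hf0⟩ := Submodule.exists_mem_ne_zero_of_ne_bot hw
  obtain ⟨μ, rfl⟩ := (Submodule.mem_span_range_iff_exists_fun k).1 hfW
  let φ := evalRingHom w
  have hB : T ((Bm.map φ).mulVec μ) = ∑ i : Fin (τ + 1), μ i • evB β w τ i := by
    ext b
    rw [hT, finsetSum_coeff]
    have hm : ∀ i : ℕ, evB β w τ i = (evB (C β) X τ i).map φ := fun i => by
      rw [evB_map]; simp [φ]
    split_ifs with hb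
    · simp only [Matrix.mulVec, dotProduct, Bm, Matrix.map_apply, Matrix.of_apply, coeff_smul, hm,
        coeff_map, smul_eq_mul]
      exact Finset.sum_congr rfl fun i _ => mul_comm _ _
    · refine (Finset.sum_eq_zero fun i _ => ?_).symm
      rw [coeff_smul, coeff_eq_zero_of_natDegree_lt, smul_zero]
      have := evB_deg β w (τ := τ) (i := i) (by omega)
      omega
  have h1 := (hq ((Bm.map φ).mulVec μ)).2 (hB ▸ hfU)
  have h2 := congrArg (fun M => M.map φ) hL
  simp only [Matrix.map_mul] at h2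
  have hP : (P.map C).map φ = P := by
    ext a b; simp [φ]
  rw [hP] at h2
  have h3 := congrArg (fun M => M.mulVec μ) h2
  simp only [← Matrix.mulVec_mulVec] at h3
  rw [show P.mulVec ((Bm.map φ).mulVec μ) = 0 from h1, Matrix.mulVec_zero] at h3
  apply hf0
  refine Finset.sum_eq_zero fun i _ => ?_
  have h4 := congrFun h3 i
  simp only [Matrix.mulVec, dotProduct, Matrix.map_apply, Matrix.smul_apply, smul_eq_mul, map_mul,
    Pi.zero_apply] at h4
  rw [Finset.sum_eq_single i (fun a _ ha => by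
    rw [Matrix.one_apply_ne ha.symm, map_zero, mul_zero, zero_mul])
    (fun hn => absurd (Finset.mem_univ _) hn), Matrix.one_apply_eq, map_one, mul_one] at h4
  have : μ i = 0 := (mul_eq_zero.1 h4.symm).resolve_left hδw
  rw [this, zero_smul]

theorem rk_ker (S : Submodule k k[X]) [FiniteDimensional k S] (i : ℕ) :
    finrank k S ≤ finrank k ↥(S ⊓ LinearMap.ker (lcoeff k i)) + 1 := by
  have h1 := LinearMap.finrank_range_add_finrank_ker ((lcoeff k i).domRestrict S)
  have h2 : finrank k (LinearMap.range ((lcoeff k i).domRestrict S)) ≤ 1 :=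
    (Submodule.finrank_le _).trans (finrank_self k).le
  have h3 : finrank k (LinearMap.ker ((lcoeff k i).domRestrict S)) =
      finrank k ↥(S ⊓ LinearMap.ker (lcoeff k i)) := by
    rw [LinearMap.ker_domRestrict, ← Submodule.finrank_map_subtype_eq, Submodule.map_comap_subtype]
  omega

theorem zoom_ctr [CharZero k] (β : k) (hβ : β ≠ 0) (τ r : ℕ) (U : Submodule k k[X])
    [FiniteDimensional k U]
    (h : ∀ j, finrank k U ≤ finrank k ↥(U ⊓ ordZ k (2 * j + 1)) + r + j) :
    Set.Finite {w : k | r < finrank k ↥(U ⊓ evW β w τ)} := by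
  classical
  induction r generalizing U with
  | zero =>
    refine (zoom_zero U β hβ τ h).subset fun w hw hb => ?_
    simp only [Set.mem_ofPred_eq] at hw
    rw [hb, finrank_bot] at hw
    exact lt_irrefl _ hw
  | succ r ih =>
    by_cases hU : U = ⊥
    · refine Set.finite_empty.subset fun w hw => ?_
      simp only [Set.mem_ofPred_eq] at hw
      rw [hU, bot_inf_eq, finrank_bot] at hw
      omega
    obtain ⟨f, hf, hf0⟩ := Submodule.exists_mem_ne_zero_of_ne_bot hU
    have hex : ∃ i, ¬ U ≤ ordZ k (i + 1) :=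
      ⟨f.natDegree, fun hle => leadingCoeff_ne_zero.2 hf0 (hle hf _ (by omega))⟩
    set i := Nat.find hex with hi
    have h1 : ¬ U ≤ ordZ k (i + 1) := Nat.find_spec hex
    have h2 : U ≤ ordZ k i := fun g hg b hb => by
      have := Nat.find_min hex (m := i - 1) (by omega)
      exact not_not.1 this hg b (by omega)
    have h3 : U ⊓ LinearMap.ker (lcoeff k i) = U ⊓ ordZ k (i + 1) := by
      ext g
      refine ⟨fun hg => ⟨hg.1, fun b hb => ?_⟩, fun hg => ⟨hg.1, hg.2 i (by omega)⟩⟩
      rcases Nat.lt_succ_iff_lt_or_eq.1 hb with hb | rfl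
      · exact h2 hg.1 b hb
      · exact hg.2
    have : FiniteDimensional k ↥(U ⊓ ordZ k (i + 1)) :=
      Submodule.finiteDimensional_of_le inf_le_left
    have h4 := Submodule.finrank_lt_finrank_of_lt
      (lt_of_le_of_ne (inf_le_left : U ⊓ ordZ k (i + 1) ≤ U) fun he => h1 (he ▸ inf_le_right))
    refine (ih (U ⊓ ordZ k (i + 1)) fun j => ?_).subset fun w hw => ?_
    · rcases le_total (i + 1) (2 * j + 1) with hj | hj
      · rw [inf_assoc, inf_eq_right.2 (ordZ_anti hj)]
        have := h j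
        omega
      · rw [inf_assoc, inf_eq_left.2 (ordZ_anti hj)]
        omega
    · simp only [Set.mem_ofPred_eq] at hw ⊢
      have : FiniteDimensional k ↥(U ⊓ evW β w τ) := Submodule.finiteDimensional_of_le inf_le_left
      have h5 := rk_ker (U ⊓ evW β w τ) i
      rw [inf_right_comm, h3] at h5
      omega

/-- forms of degree `n` in two polynomials -/
noncomputable def pw2 (a b : k[X]) (n : ℕ) : Submodule k k[X] :=
  Submodule.span k (Set.range fun i : Fin (n + 1) => a ^ (i : ℕ) * b ^ (n - i))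

theorem pw2_step (a b : k[X]) (n : ℕ) (s t : k) {f : k[X]} (hf : f ∈ pw2 a b n) :
    (C s * a + C t * b) * f ∈ pw2 a b (n + 1) := by
  induction hf using Submodule.span_induction with
  | mem f hf =>
    obtain ⟨i, rfl⟩ := hf
    have hi := i.2
    have e : (C s * a + C t * b) * (a ^ (i : ℕ) * b ^ (n - i)) =
        s • (a ^ ((i : ℕ) + 1) * b ^ (n + 1 - (i + 1))) + t • (a ^ (i : ℕ) * b ^ (n + 1 - i)) := by
      rw [smul_eq_C_mul, smul_eq_C_mul, show n + 1 - (i + 1) = n - i by omega,
        show n + 1 - i = n - i + 1 by omega]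
      ring
    show (C s * a + C t * b) * (a ^ (i : ℕ) * b ^ (n - i)) ∈ _
    rw [e]
    exact Submodule.add_mem _
      (Submodule.smul_mem _ _ (Submodule.subset_span ⟨⟨i + 1, by omega⟩, rfl⟩))
      (Submodule.smul_mem _ _ (Submodule.subset_span ⟨⟨i, by omega⟩, rfl⟩))
  | zero => rw [mul_zero]; exact Submodule.zero_mem _
  | add f g _ _ hf hg => rw [mul_add]; exact Submodule.add_mem _ hf hg
  | smul c f _ hf => rw [mul_smul_comm]; exact Submodule.smul_mem _ _ hf

theorem pw2_pow (a b : k[X]) (n : ℕ) (s t : k) {f : k[X]} (hf : f ∈ pw2 a b n) (j : ℕ) :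
    (C s * a + C t * b) ^ j * f ∈ pw2 a b (n + j) := by
  induction j with
  | zero => simpa using hf
  | succ j ih => rw [pow_succ', mul_assoc]; exact pw2_step a b _ s t ih

theorem pw2_le (a b : k[X]) (n : ℕ) (s t s' t' : k) :
    pw2 (C s * a + C t * b) (C s' * a + C t' * b) n ≤ pw2 a b n := by
  refine Submodule.span_le.2 ?_
  rintro _ ⟨i, rfl⟩
  have h0 : (1 : k[X]) ∈ pw2 a b 0 := Submodule.subset_span ⟨0, by simp⟩
  have h1 := pw2_pow a b _ s t (pw2_pow a b 0 s' t' h0 (n - i)) i
  have hi := i.2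
  rw [mul_one, show 0 + (n - i) + i = n by omega] at h1
  exact h1

/-- polynomials vanishing to order at least `n` at `y` -/
noncomputable def ordS (y : k) (n : ℕ) : Submodule k k[X] := (ordZ k n).comap (taylor y)

theorem mem_ordS {y : k} {n : ℕ} {f : k[X]} : f ∈ ordS y n ↔ (X - C y) ^ n ∣ f := by
  rw [ordS, Submodule.mem_comap, mem_ordZ, ← X_pow_dvd_iff]
  constructor
  · rintro ⟨g, hg⟩
    refine ⟨taylor (-y) g, ?_⟩
    have := congrArg (taylor (-y)) hg
    rwa [taylor_taylor, neg_add_cancel, taylor_zero, taylor_mul, taylor_pow, taylor_X, C_neg,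
      ← sub_eq_add_neg] at this
  · rintro ⟨g, rfl⟩
    exact ⟨taylor y g, by rw [taylor_mul, taylor_pow, map_sub, taylor_X, taylor_C,
      add_sub_cancel_right]⟩

/-- Laurent polynomials symmetric under the involution with constant `c`, times `X ^ τ` -/
noncomputable def symW (c : k) (τ : ℕ) : Submodule k k[X] := pw2 (X ^ 2 + C c) X τ

/-- the zoom lemma -/
theorem zoom [CharZero k] (y : k) (hy : y ≠ 0) (τ r : ℕ) (U : Submodule k k[X])
    [FiniteDimensional k U]
    (h : ∀ j, finrank k U ≤ finrank k ↥(U ⊓ ordS y (2 * j + 1)) + r + j) :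
    Set.Finite {w : k | r < finrank k ↥(U ⊓ symW (w ^ 2) τ)} := by
  have inj : Function.Injective (taylor y : k[X] →ₗ[k] k[X]) := taylor_injective y
  have hrk : ∀ S : Submodule k k[X], finrank k (S.map (taylor y)) = finrank k S := fun S =>
    (Submodule.equivMapOfInjective _ inj S).finrank_eq.symm
  have hfin := zoom_ctr (2 * y) (mul_ne_zero two_ne_zero hy) τ r (U.map (taylor y)) fun j => by
    have e : U.map (taylor y) ⊓ ordZ k (2 * j + 1) = (U ⊓ ordS y (2 * j + 1)).map (taylor y) := by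
      rw [ordS, Submodule.map_inf_eq_map_inf_comap]
    rw [e, hrk, hrk]
    exact h j
  refine ((hfin.image (· + y)).insert 0).subset fun w hw => ?_
  by_cases hw0 : w = 0
  · exact Or.inl hw0
  refine Or.inr ⟨w - y, ?_, sub_add_cancel w y⟩
  simp only [Set.mem_ofPred_eq] at hw ⊢
  refine hw.trans_le ?_
  rw [← hrk]
  have : FiniteDimensional k ↥(U.map (taylor y) ⊓ evW (2 * y) (w - y) τ) :=
    Submodule.finiteDimensional_of_le inf_le_left
  refine Submodule.finrank_mono ((Submodule.map_inf_le _).trans (inf_le_inf_left _ ?_))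
  have h4 : (4 : k) * w ≠ 0 := mul_ne_zero (by norm_num) hw0
  have e1 : (X ^ 2 + C (w ^ 2) : k[X]) =
      C (2⁻¹ : k) * (X - C w) ^ 2 + C (2⁻¹ : k) * (X + C w) ^ 2 := by
    have : (C (2⁻¹ : k) * 2 : k[X]) = 1 := by
      rw [show (2 : k[X]) = C 2 from rfl, ← C_mul, inv_mul_cancel₀ two_ne_zero, C_1]
    rw [C_pow]
    linear_combination (-(X ^ 2 + C w ^ 2) : k[X]) * this
  have e2 : (X : k[X]) = C (-(4 * w)⁻¹) * (X - C w) ^ 2 + C (4 * w)⁻¹ * (X + C w) ^ 2 := by
    have : (C (4 * w)⁻¹ * (4 * C w) : k[X]) = 1 := by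
      rw [show (4 : k[X]) = C 4 from rfl, ← C_mul, ← C_mul, inv_mul_cancel₀ h4, C_1]
    rw [C_neg]
    linear_combination (-X : k[X]) * this
  have hle : symW (w ^ 2) τ ≤ pw2 ((X - C w) ^ 2) ((X + C w) ^ 2) τ := by
    have := pw2_le ((X - C w) ^ 2) ((X + C w) ^ 2) τ (2⁻¹ : k) 2⁻¹ (-(4 * w)⁻¹) (4 * w)⁻¹
    rwa [← e1, ← e2] at this
  refine (Submodule.map_mono hle).trans ?_
  rw [pw2, Submodule.map_span, Submodule.span_le]
  rintro _ ⟨_, ⟨i, rfl⟩, rfl⟩
  refine Submodule.subset_span ⟨i, ?_⟩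
  simp only [evB, taylor_mul, taylor_pow, map_sub, map_add, taylor_X, taylor_C, ← pow_mul, C_mul]
  rw [show (C 2 : k[X]) = 2 from rfl]
  congr 2 <;> ring

/-- the arithmetic of the break: three bounds give the ballot inequality -/
theorem ballot_arith (τ δ δ1 δ2 v N j : ℤ) (hs : δ + δ1 + δ2 = 2 * τ) (h0 : δ ≤ τ)
    (h1 : δ1 ≤ τ + 1) (h2 : δ2 ≤ τ + 1) (hj : 0 ≤ j) (ha : N ≤ max (τ + v) 0)
    (hb : N ≤ max (τ + v - δ - 1) 0 + max (2 * j + 1 - δ1 - δ2) 0)
    (hc : 2 * j < δ1 + δ2 → N ≤ max (τ + v - δ - δ1 - 1) 0 + max (2 * j + 1 - δ2) 0) :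
    N ≤ max v 0 + j := by
  omega

end Pool.Agent.Lib.MP_d03834_ag.Core
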