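import Pool.Agent.Lib.MP_d03834_ag.Core.LimB
import Pool.Agent.Lib.MP_d03834_ag.Core.Zoom

/-! A rational curve breaks into a chain; orders of the limit system at the first node. -/

set_option autoImplicit false

namespace Pool.Agent.Lib.MP_d03834_ag.Core

open Polynomial Module

section ring
variable {A B : Type} [CommRing A] [CommRing B]

theorem Bih.kscale [Algebra A B] {p q : ℕ} {G : Cx A} (h : Bih p q G) (a b f0 f1 g0 g1 : B) :
    MvPolynomial.aeval ![a * f0, a * f1, b * g0, b * g1] G =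
      a ^ p * b ^ q * MvPolynomial.aeval ![f0, f1, g0, g1] G := by
  rw [G.as_sum, map_sum, map_sum, Finset.mul_sum]
  refine Finset.sum_congr rfl fun μ hμ => ?_
  obtain ⟨h1, h2⟩ := bih_iff.1 h μ (MvPolynomial.mem_support_iff.1 hμ)
  obtain rfl : p = μ 0 + μ 1 := by omega
  obtain rfl : q = μ 2 + μ 3 := by omega
  rw [MvPolynomial.aeval_monomial, MvPolynomial.aeval_monomial,
    Finsupp.prod_fintype _ _ fun _ => pow_zero _, Finsupp.prod_fintype _ _ fun _ => pow_zero _,
    Fin.prod_univ_four, Fin.prod_univ_four]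
  simp only [Matrix.cons_val, mul_pow, pow_add]
  ring

theorem brk_map (f : A →+* B) (g : Fin 4 → A[X]) (G : Cx A) :
    (MvPolynomial.aeval g G).map f =
      MvPolynomial.aeval (fun i => (g i).map f) (MvPolynomial.map f G) := by
  induction G using MvPolynomial.induction_on with
  | C a => simp
  | add a b ha hb => simp only [map_add, Polynomial.map_add, ha, hb]
  | mul_X a i ha =>
    simp only [map_mul, Polynomial.map_mul, ha, MvPolynomial.aeval_X, MvPolynomial.map_X]

theorem brk_comp (r : A[X]) (g : Fin 4 → A[X]) (G : Cx A) :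
    (MvPolynomial.aeval g G).comp r = MvPolynomial.aeval (fun i => (g i).comp r) G := by
  induction G using MvPolynomial.induction_on with
  | C a => simp
  | add a b ha hb => simp only [map_add, add_comp, ha, hb]
  | mul_X a i ha => simp only [map_mul, mul_comp, ha, MvPolynomial.aeval_X]

/-- the form x0 - x * x1 on the curve -/
noncomputable def bL (y4 y5 x : A) : A[X] := (X - C y5) - C x * (X - C y4)

/-- the parametrisation of the curve -/
noncomputable def bP (y4 y5 xa xb : A) : Fin 4 → A[X] :=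
  ![X - C y5, X - C y4, X * bL y4 y5 xb, bL y4 y5 xa]

/-- restriction to the curve -/
noncomputable def bR (y4 y5 xa xb : A) : Cx A →ₐ[A] A[X] := MvPolynomial.aeval (bP y4 y5 xa xb)

/-- the fixed divisor -/
noncomputable def bD (y4 y5 xa xb : A) (E : A[X]) (m4 m5 ma mb : ℕ) : A[X] :=
  E * (X - C y5) ^ m4 * (X - C y4) ^ m5 * bL y4 y5 xb ^ ma * bL y4 y5 xa ^ mb

theorem bL_map (f : A →+* B) (y4 y5 x : A) : (bL y4 y5 x).map f = bL (f y4) (f y5) (f x) := by
  simp [bL]

theorem bR_map (f : A →+* B) (y4 y5 xa xb : A) (G : Cx A) :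
    (bR y4 y5 xa xb G).map f = bR (f y4) (f y5) (f xa) (f xb) (MvPolynomial.map f G) := by
  rw [bR, brk_map, bR]
  congr 2
  funext i
  fin_cases i <;> simp [bP, bL_map]

theorem bD_map (f : A →+* B) (y4 y5 xa xb : A) (E : A[X]) (m4 m5 ma mb : ℕ) :
    (bD y4 y5 xa xb E m4 m5 ma mb).map f =
      bD (f y4) (f y5) (f xa) (f xb) (E.map f) m4 m5 ma mb := by
  simp [bD, bL_map]

/-- restriction to the line x0 = x1 -/
noncomputable def bR1 : Cx A →ₐ[A] A[X] := MvPolynomial.aeval ![1, 1, X, 1]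

/-- restriction to the line y0 = y * y1 -/
noncomputable def bG1 (y : A) : Cx A →ₐ[A] A[X] := MvPolynomial.aeval ![X + 1, X, C y, 1]

theorem bL_lim (y x : A) : bL y y x = C (1 - x) * (X - C y) := by
  simp only [bL, map_sub, map_one]
  ring

theorem bR_lim {p q : ℕ} {G : Cx A} (h : Bih p q G) (y x : A) :
    bR y y x x G = C (1 - x) ^ q * (X - C y) ^ (p + q) * bR1 G := by
  have := h.kscale (X - C y) (bL y y x) 1 1 X 1
  rw [mul_one, mul_one, mul_comm _ X] at this
  rw [bR, bP, this, bL_lim, bR1, mul_pow]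
  ring

theorem bD_lim (y x : A) (E : A[X]) (m4 m5 ma mb : ℕ) :
    bD y y x x E m4 m5 ma mb = C (1 - x) ^ (ma + mb) * E * (X - C y) ^ (m4 + m5 + ma + mb) := by
  rw [bD, bL_lim, mul_pow, mul_pow]
  ring

/-- the linear form on the scale of the first tail -/
noncomputable def bl (x : A) : A[X] := X + 1 - C x * X

theorem bL_zoom (y4 y5 x : A) :
    (bL y4 y5 x).comp (C y4 + C (y4 - y5) * X) = C (y4 - y5) * bl x := by
  simp only [bL, bl, map_sub, sub_comp, mul_comp, X_comp, C_comp]
  ring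

theorem bR_zoom {p q : ℕ} {G : Cx A} (h : Bih p q G) (y4 y5 xa xb : A) :
    (bR y4 y5 xa xb G).comp (C y4 + C (y4 - y5) * X) = C (y4 - y5) ^ (p + q) *
      MvPolynomial.aeval ![X + 1, X, (C y4 + C (y4 - y5) * X) * bl xb, bl xa] G := by
  rw [bR, brk_comp, pow_add, ← h.kscale]
  congr 2
  funext i
  fin_cases i
  · simp [bP]
    ring
  · simp [bP]
  · simp only [bP, Fin.reduceFinMk, Matrix.cons_val, mul_comp, X_comp, bL_zoom]
    ring
  · simp only [bP, Fin.reduceFinMk, Matrix.cons_val, bL_zoom]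

theorem bD_zoom (y4 y5 xa xb : A) (E : A[X]) (m4 m5 ma mb : ℕ) :
    (bD y4 y5 xa xb E m4 m5 ma mb).comp (C y4 + C (y4 - y5) * X) =
      C (y4 - y5) ^ (m4 + m5 + ma + mb) * (E.comp (C y4 + C (y4 - y5) * X) *
        (X + 1) ^ m4 * X ^ m5 * bl xb ^ ma * bl xa ^ mb) := by
  have e1 : (X - C y5).comp (C y4 + C (y4 - y5) * X) = C (y4 - y5) * (X + 1) := by
    simp only [map_sub, sub_comp, X_comp, C_comp]
    ring
  have e2 : (X - C y4).comp (C y4 + C (y4 - y5) * X) = C (y4 - y5) * X := by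
    simp only [map_sub, sub_comp, X_comp, C_comp]
    ring
  simp only [bD, mul_comp, pow_comp, bL_zoom, e1, e2, mul_pow, pow_add]
  ring

end ring

section count
variable {k : Type} [Field k]

theorem cnt_ord (V : Submodule k k[X]) (y : k) (a b : ℕ) (h1 : ∀ g ∈ V, (X - C y) ^ a ∣ g)
    (h2 : ∀ g ∈ V, (X - C y) ^ b ∣ g → g = 0) : finrank k V ≤ b - a := by
  let φ : V →ₗ[k] (Fin (b - a) → k) := LinearMap.pi fun j =>
    (lcoeff k (a + j)).comp ((taylor y).comp V.subtype)
  have hφ : Function.Injective φ := by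
    rw [← LinearMap.ker_eq_bot, LinearMap.ker_eq_bot']
    intro g hg
    refine Subtype.ext (h2 g g.2 ?_)
    have h3 := h1 g g.2
    rw [X_sub_C_pow_dvd_iff, X_pow_dvd_iff] at h3 ⊢
    intro d hd
    by_cases e : d < a
    · exact h3 d e
    · have := congrFun hg ⟨d - a, by omega⟩
      simpa [φ, taylor_apply, Nat.add_sub_cancel' (not_lt.1 e)] using this
  simpa using LinearMap.finrank_le_finrank_of_injective hφ

theorem cnt_deg (V : Submodule k k[X]) (W : k[X]) (hW : W ≠ 0) (n : ℕ) (h1 : ∀ g ∈ V, W ∣ g)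
    (h2 : ∀ g ∈ V, g ≠ 0 → g.natDegree < W.natDegree + n) : finrank k V ≤ n := by
  have e : V ≤ (degreeLT k n).map (LinearMap.mulLeft k W) := by
    intro g hg
    obtain ⟨h, rfl⟩ := h1 g hg
    refine ⟨h, ?_, rfl⟩
    by_cases h0 : h = 0
    · simp [h0]
    have := h2 _ hg (mul_ne_zero hW h0)
    rw [natDegree_mul hW h0] at this
    exact mem_degreeLT.2 ((natDegree_lt_iff_degree_lt h0).1 (by omega))
  have : FiniteDimensional k (degreeLT k n) := (degreeLTEquiv k n).symm.finiteDimensional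
  refine (Submodule.finrank_mono e).trans ((Submodule.finrank_map_le _ _).trans ?_)
  rw [(degreeLTEquiv k n).finrank_eq]
  simp

theorem cnt_ker {M N : Type} [AddCommGroup M] [Module k M] [AddCommGroup N] [Module k N]
    (V : Submodule k M) [FiniteDimensional k V] (f : M →ₗ[k] N) :
    finrank k V = finrank k (V.map f) + finrank k ↥(V ⊓ LinearMap.ker f) := by
  have a := LinearMap.finrank_range_add_finrank_ker (f.comp V.subtype)
  have e : LinearMap.ker (f.comp V.subtype) = (V ⊓ LinearMap.ker f).comap V.subtype := by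
    ext x
    simp
  rw [e, (Submodule.comapSubtypeEquivOfLe inf_le_left).finrank_eq, LinearMap.range_comp,
    Submodule.range_subtype] at a
  exact a.symm

end count

section val
variable {O K k : Type} [CommRing O] [IsDomain O] [ValuationRing O] [Field K] [Algebra O K]
  [IsFractionRing O K] [Field k]

theorem brk_dvd {ι : Type} (s : Finset ι) (hs : s.Nonempty) (f : ι → O) :
    ∃ j ∈ s, ∀ i ∈ s, f j ∣ f i := by
  classical
  induction hs using Finset.Nonempty.cons_induction with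
  | singleton a => exact ⟨a, Finset.mem_singleton_self a, fun i hi => by
      rw [Finset.mem_singleton.1 hi]⟩
  | cons a s ha _ ih =>
    obtain ⟨j, hj, h⟩ := ih
    rcases ValuationRing.dvd_total (f a) (f j) with e | e
    · refine ⟨a, Finset.mem_cons_self a s, fun i hi => ?_⟩
      rcases Finset.mem_cons.1 hi with rfl | hi
      · exact dvd_rfl
      · exact e.trans (h i hi)
    · refine ⟨j, Finset.mem_cons_of_mem hj, fun i hi => ?_⟩
      rcases Finset.mem_cons.1 hi with rfl | hi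
      · exact e
      · exact h i hi

theorem brk_content {P : O[X]} (hP : P ≠ 0) :
    ∃ (c : O) (H : O[X]) (j : ℕ), c ≠ 0 ∧ P = C c * H ∧ H.coeff j = 1 := by
  obtain ⟨j, hj, h⟩ := brk_dvd P.support (support_nonempty.2 hP) P.coeff
  have h0 := mem_support_iff.1 hj
  obtain ⟨H, hH⟩ := (C_dvd_iff_dvd_coeff (P.coeff j) P).2 fun i => by
    by_cases e : i ∈ P.support
    · exact h i e
    · rw [notMem_support_iff.1 e]
      exact dvd_zero _
  refine ⟨_, H, j, h0, hH, mul_left_cancel₀ h0 ?_⟩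
  rw [← coeff_C_mul, ← hH, mul_one]

theorem brk_norm {ι : Type} [Fintype ι] (l : ι → K) (hl : l ≠ 0) :
    ∃ (μ : K) (l' : ι → O) (j : ι), μ ≠ 0 ∧ l' j = 1 ∧ ∀ i, l i = μ * algebraMap O K (l' i) := by
  obtain ⟨b, hb⟩ := IsLocalization.exist_integer_multiples_of_finite (nonZeroDivisors O) l
  choose a ha using hb
  obtain ⟨i0, hi0⟩ := Function.ne_iff.1 hl
  obtain ⟨j, -, h⟩ := brk_dvd Finset.univ ⟨i0, Finset.mem_univ _⟩ a
  choose l' hl' using fun i => h i (Finset.mem_univ i)
  have hb0 : algebraMap O K b ≠ 0 := IsFractionRing.to_map_ne_zero_of_mem_nonZeroDivisors b.2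
  have e : ∀ i, l i = (algebraMap O K b)⁻¹ * algebraMap O K (a j) * algebraMap O K (l' i) :=
    fun i => by
      rw [mul_assoc, ← map_mul, ← hl', ha, Algebra.smul_def, inv_mul_cancel_left₀ hb0]
  have h0 : a j ≠ 0 := fun h0 => hi0 (by rw [e, h0]; simp)
  refine ⟨_, l', j, mul_ne_zero (inv_ne_zero hb0) fun h1 =>
    h0 (IsFractionRing.injective O K (by rw [h1, map_zero])), ?_, e⟩
  exact mul_left_cancel₀ h0 (by rw [← hl', mul_one])

theorem brk_span (π : O →+* k) {ι : Type} [Fintype ι] (P : ι → O[X])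
    (hP : LinearIndependent k fun j => (P j).map π) (l : ι → K) (hl : l ≠ 0) :
    ∃ (μ : K) (Q : O[X]), μ ≠ 0 ∧
      ∑ j, l j • (P j).map (algebraMap O K) = μ • Q.map (algebraMap O K) ∧ Q.map π ≠ 0 ∧
      Q.map π ∈ Submodule.span k (Set.range fun j => (P j).map π) := by
  obtain ⟨μ, l', j, h0, h1, h2⟩ := brk_norm (O := O) l hl
  have e : (∑ i, C (l' i) * P i).map π = ∑ i, π (l' i) • (P i).map π := by
    simp [Polynomial.map_sum, smul_eq_C_mul]
  refine ⟨μ, ∑ i, C (l' i) * P i, h0, ?_, ?_, ?_⟩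
  · simp [Polynomial.map_sum, smul_eq_C_mul, h2, Finset.mul_sum, mul_assoc]
  · rw [e]
    intro h3
    have := Fintype.linearIndependent_iff.1 hP _ h3 j
    rw [h1, map_one] at this
    exact one_ne_zero this
  · rw [e]
    exact Submodule.sum_mem _ fun i _ => Submodule.smul_mem _ _ (Submodule.subset_span ⟨i, rfl⟩)

theorem brk_indep (π : O →+* k) {ι : Type} [Fintype ι] (P : ι → O[X])
    (hP : LinearIndependent k fun j => (P j).map π) :
    LinearIndependent K fun j => (P j).map (algebraMap O K) := by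
  rw [Fintype.linearIndependent_iff]
  intro l hl
  by_contra h
  obtain ⟨μ, Q, h0, h1, h2, -⟩ := brk_span π P hP l fun e => h fun i => congrFun e i
  rw [hl, eq_comm, smul_eq_zero] at h1
  rw [map_injective _ (IsFractionRing.injective O K)
    ((h1.resolve_left h0).trans (Polynomial.map_zero _).symm)] at h2
  exact h2 (Polynomial.map_zero _)

omit [IsDomain O] [ValuationRing O] in
theorem brk_int (π : O →+* k) (hπ : ∀ x, π x ≠ 0 → IsUnit x) {μ : K} {Q R : O[X]}
    (h : R.map (algebraMap O K) = μ • Q.map (algebraMap O K)) (hQ : Q.map π ≠ 0) :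
    ∃ ν : O, R = C ν * Q := by
  obtain ⟨j, hj⟩ := support_nonempty.2 hQ
  rw [Polynomial.mem_support_iff, coeff_map] at hj
  obtain ⟨u, hu⟩ := (hπ _ hj).exists_right_inv
  have e := congrArg (fun P => P.coeff j * algebraMap O K u) h
  simp only [coeff_smul, coeff_map, smul_eq_mul, mul_assoc, ← map_mul, hu, map_one, mul_one] at e
  refine ⟨R.coeff j * u, map_injective _ (IsFractionRing.injective O K) ?_⟩
  rw [h, Polynomial.map_mul, map_C, e, smul_eq_C_mul]

omit [IsDomain O] [ValuationRing O] in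
/-- the order on the main component -/
theorem brk_main (π : O →+* k) {y4 y5 xa xb μ : O} {E P : O[X]} {m4 m5 ma mb d1 d2 i : ℕ}
    {G : Cx O} (hy : π y5 = π y4) (hx : π xb = π xa) (h1 : π xa ≠ 1)
    (hE : (E.map π).eval (π y4) ≠ 0) (hG : Bih (m4 + m5 + d1 : ℕ) (ma + mb + d2 : ℕ) G)
    (h : bR y4 y5 xa xb G = C μ * (bD y4 y5 xa xb E m4 m5 ma mb * P))
    (hP : ¬(X - C (π y4)) ^ (i + 1) ∣ P.map π)
    (hd : (X - C (π y4)) ^ (i + 1 - (d1 + d2)) ∣ bR1 (MvPolynomial.map π G)) :
    bR1 (MvPolynomial.map π G) = 0 := by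
  have e := congrArg (Polynomial.map π) h
  rw [bR_map, Polynomial.map_mul, Polynomial.map_mul, bD_map, map_C, hy, hx, bR_lim (hG.map π),
    bD_lim] at e
  have w0 : (X - C (π y4)) ≠ 0 := X_sub_C_ne_zero _
  have x0 : (1 - π xa) ≠ 0 := sub_ne_zero.2 h1.symm
  by_cases h0 : π μ = 0
  · rw [h0, map_zero, zero_mul] at e
    exact (mul_eq_zero.1 e).resolve_left
      (mul_ne_zero (pow_ne_zero _ (C_ne_zero.2 x0)) (pow_ne_zero _ w0))
  refine absurd ?_ hP
  obtain ⟨g, hg⟩ := hd
  have e2 : (X - C (π y4)) ^ (i + 1) ∣ (C (π μ * (1 - π xa) ^ (ma + mb)) * E.map π) * P.map π := by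
    rw [← mul_dvd_mul_iff_left (pow_ne_zero (m4 + m5 + ma + mb) w0), ← pow_add]
    have e3 : (X - C (π y4)) ^ (m4 + m5 + ma + mb) *
        (C (π μ * (1 - π xa) ^ (ma + mb)) * E.map π * P.map π) =
        (X - C (π y4)) ^ (m4 + m5 + d1 + (ma + mb + d2) + (i + 1 - (d1 + d2))) *
          (C (1 - π xa) ^ (ma + mb + d2) * g) := by
      rw [hg] at e
      rw [map_mul, map_pow, pow_add _ (m4 + m5 + d1 + (ma + mb + d2))]
      linear_combination -e
    rw [e3]
    exact Dvd.dvd.mul_right (pow_dvd_pow _ (by omega)) _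
  refine IsCoprime.dvd_of_dvd_mul_left (IsCoprime.pow_left ?_) e2
  refine (irreducible_X_sub_C _).coprime_iff_not_dvd.2 fun h3 => ?_
  rw [dvd_iff_isRoot, IsRoot, eval_mul, eval_C] at h3
  exact mul_ne_zero (mul_ne_zero h0 (pow_ne_zero _ x0)) hE h3

/-- the degree on the first tail -/
theorem brk_tail (π : O →+* k) (hπ : ∀ x, π x ≠ 0 → IsUnit x) {y4 y5 xa xb μ : O} {E P : O[X]}
    {m4 m5 ma mb d1 d2 i : ℕ} {G : Cx O} (hs : y4 ≠ y5) (hy : π y5 = π y4) (hx : π xb = π xa)
    (h0 : π xa ≠ 0) (h1 : π xa ≠ 1)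
    (hE : (E.map π).eval (π y4) ≠ 0) (hG : Bih (m4 + m5 + d1 : ℕ) (ma + mb + d2 : ℕ) G)
    (h : bR y4 y5 xa xb G = C μ * (bD y4 y5 xa xb E m4 m5 ma mb * P))
    (hP : ¬(X - C (π y4)) ^ (i + 1) ∣ P.map π) :
    (X + 1) ^ m4 * X ^ m5 ∣ bG1 (π y4) (MvPolynomial.map π G) ∧
      (bG1 (π y4) (MvPolynomial.map π G) ≠ 0 →
        (bG1 (π y4) (MvPolynomial.map π G)).natDegree + d2 ≤ m4 + m5 + i) := by
  set s := y4 - y5 with hs'
  have s0 : s ≠ 0 := sub_ne_zero.2 hs
  have sπ : π s = 0 := by rw [hs', map_sub, hy, sub_self]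
  rw [X_sub_C_pow_dvd_iff, X_pow_dvd_iff] at hP
  push Not at hP
  obtain ⟨j, hj, hP⟩ := hP
  have eP : ∀ n, (P.comp (C y4 + C s * X)).coeff n = (P.comp (X + C y4)).coeff n * s ^ n := by
    intro n
    rw [← comp_C_mul_X_coeff, comp_assoc]
    simp [add_comm]
  have hu : π ((P.comp (X + C y4)).coeff j) ≠ 0 := by
    rw [← coeff_map, map_comp]
    simpa using hP
  obtain ⟨c, H, j1, c0, hc, hH⟩ := brk_content (P := P.comp (C y4 + C s * X)) fun e => by
    have := eP j
    rw [e, coeff_zero] at this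
    exact hu (by rw [(mul_eq_zero.1 this.symm).resolve_right (pow_ne_zero _ s0), map_zero])
  have dH : (H.map π).natDegree ≤ i := by
    rw [natDegree_le_iff_coeff_eq_zero]
    intro n hn
    obtain ⟨r, rfl⟩ : ∃ r, n = j + (r + 1) := ⟨n - j - 1, by omega⟩
    have a1 := eP j
    have a2 := eP (j + (r + 1))
    rw [hc, coeff_C_mul] at a1 a2
    have a3 : H.coeff (j + (r + 1)) * (P.comp (X + C y4)).coeff j =
        (P.comp (X + C y4)).coeff (j + (r + 1)) * H.coeff j * s ^ (r + 1) :=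
      mul_left_cancel₀ c0 (by
        linear_combination (P.comp (X + C y4)).coeff j * a2 -
          (P.comp (X + C y4)).coeff (j + (r + 1)) * s ^ (r + 1) * a1)
    have a4 := congrArg π a3
    rw [map_mul, map_mul, map_pow, sπ, zero_pow (by omega), mul_zero] at a4
    rw [coeff_map]
    exact (mul_eq_zero.1 a4).resolve_right hu
  have H0 : H.map π ≠ 0 := fun e => by
    have := congrArg (fun Q => Q.coeff j1) e
    simp [coeff_map, hH] at this
  have e := congrArg (fun Q => Q.comp (C y4 + C s * X)) h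
  simp only [mul_comp, C_comp] at e
  rw [hs', bR_zoom hG, bD_zoom, ← hs', hc] at e
  set Γ := MvPolynomial.aeval ![X + 1, X, (C y4 + C s * X) * bl xb, bl xa] G with hΓ
  set D := E.comp (C y4 + C s * X) * (X + 1) ^ m4 * X ^ m5 * bl xb ^ ma * bl xa ^ mb with hD
  have bm : ∀ x, (bl x).map π = bl (π x) := fun x => by simp [bl]
  have x0 : (1 - π xa) ≠ 0 := sub_ne_zero.2 h1.symm
  have el : bl (π xa) = C (1 - π xa) * X + C 1 := by
    simp only [bl, map_sub, map_one]
    ring
  have l1 : (bl (π xa)).natDegree = 1 := by rw [el, natDegree_linear x0]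
  have l0 : bl (π xa) ≠ 0 := fun e => by
    rw [e, natDegree_zero] at l1
    exact zero_ne_one l1
  have πD : D.map π = C ((E.map π).eval (π y4)) * ((X + 1) ^ m4 * X ^ m5) * bl (π xa) ^ (ma + mb) := by
    simp only [hD, Polynomial.map_mul, Polynomial.map_pow, Polynomial.map_add, map_comp, map_C,
      map_X, bm, hx, sπ, map_zero, zero_mul, add_zero, comp_C, Polynomial.map_one]
    ring
  have πΓ : Γ.map π = bl (π xa) ^ (ma + mb + d2) * bG1 (π y4) (MvPolynomial.map π G) := by
    have := (hG.map π).kscale 1 (bl (π xa)) (X + 1) X (C (π y4)) 1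
    rw [one_pow, one_mul, one_mul, one_mul, mul_one] at this
    rw [hΓ, brk_map, bG1, ← this]
    congr 2
    funext i
    fin_cases i
    · simp
    · simp
    · simp only [Fin.reduceFinMk, Matrix.cons_val, Polynomial.map_mul, Polynomial.map_add, map_C,
        bm, hx, sπ, map_zero, zero_mul, add_zero]
      exact mul_comm _ _
    · simp only [Fin.reduceFinMk, Matrix.cons_val, bm]
  have W0 : ((X + 1) ^ m4 * X ^ m5 : k[X]) ≠ 0 :=
    mul_ne_zero (pow_ne_zero _ (by simpa using X_add_C_ne_zero (1 : k))) (pow_ne_zero _ X_ne_zero)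
  have dW : ((X + 1) ^ m4 * X ^ m5 : k[X]).natDegree = m4 + m5 := by
    rw [natDegree_mul (left_ne_zero_of_mul W0) (right_ne_zero_of_mul W0), natDegree_pow,
      natDegree_pow, natDegree_X, ← C_1, natDegree_X_add_C, mul_one, mul_one]
  have DH : (D * H).map π ≠ 0 := by
    rw [Polynomial.map_mul, πD]
    exact mul_ne_zero (mul_ne_zero (mul_ne_zero (C_ne_zero.2 hE) W0) (pow_ne_zero _ l0)) H0
  have e2 : C (s ^ (d1 + d2)) * Γ = C (μ * c) * (D * H) :=
    mul_left_cancel₀ (pow_ne_zero (m4 + m5 + ma + mb) (C_ne_zero.2 s0)) (by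
      rw [map_pow, map_mul]
      linear_combination e)
  obtain ⟨b, hb⟩ : ∃ b, Γ = C b * (D * H) := by
    obtain ⟨n, hn⟩ := support_nonempty.2 DH
    rw [Polynomial.mem_support_iff, coeff_map] at hn
    obtain ⟨u, hu⟩ := (hπ _ hn).exists_right_inv
    have a1 := congrArg (fun Q => Q.coeff n * u) e2
    simp only [coeff_C_mul, mul_assoc, hu, mul_one] at a1
    refine ⟨Γ.coeff n * u, mul_left_cancel₀ (C_ne_zero.2 (pow_ne_zero (d1 + d2) s0)) ?_⟩
    rw [e2, ← a1, map_mul, mul_assoc]
  have e3 : bl (π xa) ^ d2 * bG1 (π y4) (MvPolynomial.map π G) =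
      ((X + 1) ^ m4 * X ^ m5) * (C (π b * (E.map π).eval (π y4)) * H.map π) := by
    have a1 := congrArg (Polynomial.map π) hb
    rw [πΓ, Polynomial.map_mul, Polynomial.map_mul, πD, map_C] at a1
    refine mul_left_cancel₀ (pow_ne_zero (ma + mb) l0) ?_
    rw [map_mul]
    linear_combination a1
  refine ⟨IsCoprime.dvd_of_dvd_mul_left (IsCoprime.pow_right (IsCoprime.mul_left
    (IsCoprime.pow_left ?_) (IsCoprime.pow_left ?_))) ⟨_, e3⟩, fun g0 => ?_⟩
  · refine ⟨-C ((π xa)⁻¹ * (1 - π xa)), C (π xa)⁻¹, ?_⟩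
    have : (C (π xa)⁻¹ * C (π xa) : k[X]) = 1 := by rw [← map_mul, inv_mul_cancel₀ h0, map_one]
    simp only [bl, map_mul, map_sub, map_one]
    linear_combination this
  · refine ⟨-C (1 - π xa), 1, ?_⟩
    simp only [bl, map_sub, map_one]
    ring
  · have a1 := congrArg natDegree e3
    rw [natDegree_mul (pow_ne_zero _ l0) g0, natDegree_pow, l1] at a1
    have a2 := natDegree_mul_le (p := ((X + 1) ^ m4 * X ^ m5 : k[X]))
      (q := C (π b * (E.map π).eval (π y4)) * H.map π)
    have a3 := natDegree_C_mul_le (π b * (E.map π).eval (π y4)) (H.map π)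
    omega

theorem plim_prim {F : K[X]} (hF : F ≠ 0) :
    ∃ (c : K) (G : O[X]) (j : ℕ), c ≠ 0 ∧ G.map (algebraMap O K) = c • F ∧ G.coeff j = 1 := by
  obtain ⟨b, hb, e⟩ := IsLocalization.integerNormalization_spec (nonZeroDivisors O) F
  have b0 : algebraMap O K b ≠ 0 := IsFractionRing.to_map_ne_zero_of_mem_nonZeroDivisors hb
  rw [← algebraMap_smul K] at e
  obtain ⟨c, H, j, c0, h1, h2⟩ := brk_content
    (P := IsLocalization.integerNormalization (nonZeroDivisors O) F) fun h => by
      rw [h, Polynomial.map_zero] at e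
      exact smul_ne_zero b0 hF e.symm
  have c1 : algebraMap O K c ≠ 0 := fun h => c0 (IsFractionRing.injective O K (by rw [h, map_zero]))
  refine ⟨(algebraMap O K c)⁻¹ * algebraMap O K b, H, j, mul_ne_zero (inv_ne_zero c1) b0, ?_, h2⟩
  rw [mul_smul, ← e, h1, Polynomial.map_mul, map_C, ← smul_eq_C_mul, smul_smul,
    inv_mul_cancel₀ c1, one_smul]

theorem plim_le (π : O →+* k) (S : Submodule K K[X]) [FiniteDimensional K S]
    (T : Submodule k k[X]) [FiniteDimensional k T]
    (h : ∀ G : O[X], G.map (algebraMap O K) ∈ S → G.map π ∈ T) : finrank K S ≤ finrank k T := by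
  generalize hn : finrank K S = n
  induction n generalizing S T with
  | zero => exact Nat.zero_le _
  | succ n ih =>
    obtain ⟨F, hF, hF0⟩ := Submodule.exists_mem_ne_zero_of_ne_bot (p := S) (by
      rintro rfl
      simp at hn)
    obtain ⟨c, G, μ, -, hG, hμ⟩ := plim_prim (O := O) hF0
    have hGS : G.map (algebraMap O K) ∈ S := hG ▸ S.smul_mem c hF
    have h1 := rk_ker S μ
    have h2 : finrank k ↥(T ⊓ LinearMap.ker (lcoeff k μ)) < finrank k T :=
      Submodule.finrank_lt_finrank_of_lt (lt_of_le_of_ne inf_le_left fun e => by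
        have := (e.ge (h G hGS)).2
        simp [coeff_map, hμ] at this)
    have h4 : finrank K ↥(S ⊓ LinearMap.ker (lcoeff K μ)) < finrank K S :=
      Submodule.finrank_lt_finrank_of_lt (lt_of_le_of_ne inf_le_left fun e => by
        have := (e.ge hGS).2
        simp [coeff_map, hμ] at this)
    have h3 := ih (S ⊓ LinearMap.ker (lcoeff K μ)) (T ⊓ LinearMap.ker (lcoeff k μ))
      (fun H hH => ⟨h H hH.1, by
        have a : algebraMap O K (H.coeff μ) = 0 := by simpa [coeff_map] using hH.2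
        have b : H.coeff μ = 0 := IsFractionRing.injective O K (by rw [a, map_zero])
        simp [coeff_map, b]⟩) (by omega)
    omega

/-- the limit of a space of polynomials in one variable -/
def plim (π : O →+* k) (hs : Function.Surjective π) (V : Submodule K K[X]) : Submodule k k[X] where
  carrier := {f | ∃ P : O[X], P.map (algebraMap O K) ∈ V ∧ P.map π = f}
  add_mem' := by
    rintro _ _ ⟨P, hP, rfl⟩ ⟨Q, hQ, rfl⟩
    exact ⟨P + Q, by rw [Polynomial.map_add]; exact V.add_mem hP hQ, Polynomial.map_add _⟩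
  zero_mem' := ⟨0, by rw [Polynomial.map_zero]; exact V.zero_mem, Polynomial.map_zero _⟩
  smul_mem' := by
    rintro c _ ⟨P, hP, rfl⟩
    obtain ⟨a, rfl⟩ := hs c
    refine ⟨C a * P, ?_, ?_⟩
    · rw [Polynomial.map_mul, map_C, ← smul_eq_C_mul]
      exact V.smul_mem _ hP
    · rw [Polynomial.map_mul, map_C, smul_eq_C_mul]

omit [IsDomain O] [ValuationRing O] in
theorem plim_fin (π : O →+* k) (hs : Function.Surjective π) (V : Submodule K K[X])
    [FiniteDimensional K V] : FiniteDimensional k (plim π hs V) := by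
  obtain ⟨s, hs', e⟩ := Submodule.fg_def.1 (Module.Finite.iff_fg.1 ‹_›)
  obtain ⟨n, hn⟩ := span_of_finite_le_degreeLT hs'
  rw [e] at hn
  have : FiniteDimensional k (degreeLT k n) := (degreeLTEquiv k n).symm.finiteDimensional
  refine Submodule.finiteDimensional_of_le (S₂ := degreeLT k n) ?_
  rintro _ ⟨P, hP, rfl⟩
  have := mem_degreeLT.1 (hn hP)
  rw [degree_map_eq_of_injective (IsFractionRing.injective O K)] at this
  exact mem_degreeLT.2 (degree_map_le.trans_lt this)

/-- the limit of a space of forms -/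
def mlim (π : O →+* k) (hs : Function.Surjective π) (V : Submodule K (Cx K)) :
    Submodule k (Cx k) where
  carrier := {f | ∃ P : Cx O, MvPolynomial.map (algebraMap O K) P ∈ V ∧ MvPolynomial.map π P = f}
  add_mem' := by
    rintro _ _ ⟨P, hP, rfl⟩ ⟨Q, hQ, rfl⟩
    exact ⟨P + Q, by rw [map_add]; exact V.add_mem hP hQ, map_add _ _ _⟩
  zero_mem' := ⟨0, by rw [map_zero]; exact V.zero_mem, map_zero _⟩
  smul_mem' := by
    rintro c _ ⟨P, hP, rfl⟩
    obtain ⟨a, rfl⟩ := hs c
    refine ⟨MvPolynomial.C a * P, ?_, ?_⟩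
    · rw [map_mul, MvPolynomial.map_C, ← MvPolynomial.smul_eq_C_mul]
      exact V.smul_mem _ hP
    · rw [map_mul, MvPolynomial.map_C, MvPolynomial.smul_eq_C_mul]

end val

end Pool.Agent.Lib.MP_d03834_ag.Core
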