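import Pool.Agent.Lib.MP_d03834_ag.Core.Break

/-! The ballot bounds for the limit system on the main component of the chain. -/

set_option autoImplicit false

namespace Pool.Agent.Lib.MP_d03834_ag.Core

open Polynomial Module

/-- forms in S whose restriction ρ lies in D * W -/
noncomputable def bS {K : Type} [Field K] (S : Submodule K (Cx K)) (ρ : Cx K →ₐ[K] K[X])
    (D : K[X]) (W : Submodule K K[X]) : Submodule K (Cx K) :=
  S ⊓ (W.map (LinearMap.mulLeft K D)).comap ρ.toLinearMap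

theorem mem_bS {K : Type} [Field K] {S : Submodule K (Cx K)} {ρ : Cx K →ₐ[K] K[X]} {D : K[X]}
    {W : Submodule K K[X]} {F : Cx K} : F ∈ bS S ρ D W ↔ F ∈ S ∧ ∃ f ∈ W, D * f = ρ F := Iff.rfl

/-- the moving parts of the restrictions -/
noncomputable def bU {K : Type} [Field K] (S : Submodule K (Cx K)) (ρ : Cx K →ₐ[K] K[X])
    (D : K[X]) : Submodule K K[X] := (S.map ρ.toLinearMap).comap (LinearMap.mulLeft K D)

theorem mem_bU {K : Type} [Field K] {S : Submodule K (Cx K)} {ρ : Cx K →ₐ[K] K[X]} {D f : K[X]} :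
    f ∈ bU S ρ D ↔ ∃ F ∈ S, ρ F = D * f := Iff.rfl

theorem mul_inj {K : Type} [Field K] {D : K[X]} (h : D ≠ 0) :
    Function.Injective (LinearMap.mulLeft K D) := fun _ _ e => mul_left_cancel₀ h e

theorem bU_fin {K : Type} [Field K] (S : Submodule K (Cx K)) [FiniteDimensional K S]
    (ρ : Cx K →ₐ[K] K[X]) {D : K[X]} (h : D ≠ 0) : FiniteDimensional K (bU S ρ D) := by
  have : FiniteDimensional K ((bU S ρ D).map (LinearMap.mulLeft K D)) :=
    Submodule.finiteDimensional_of_le (Submodule.map_comap_le _ _)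
  exact (Submodule.equivMapOfInjective _ (mul_inj h) _).symm.finiteDimensional

theorem bS_rk {K : Type} [Field K] (S : Submodule K (Cx K)) [FiniteDimensional K S]
    (ρ : Cx K →ₐ[K] K[X]) {D : K[X]} (h : D ≠ 0) (W : Submodule K K[X]) :
    finrank K (bS S ρ D W) =
      finrank K ↥(S ⊓ LinearMap.ker ρ.toLinearMap) + finrank K ↥(bU S ρ D ⊓ W) := by
  have : FiniteDimensional K (bS S ρ D W) := Submodule.finiteDimensional_of_le inf_le_left
  have e1 : (bS S ρ D W).map ρ.toLinearMap = (bU S ρ D ⊓ W).map (LinearMap.mulLeft K D) := by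
    ext g
    constructor
    · rintro ⟨F, ⟨h1, f, h2, h3⟩, rfl⟩
      exact ⟨f, ⟨⟨F, h1, h3.symm⟩, h2⟩, h3⟩
    · rintro ⟨f, ⟨⟨F, h1, h3⟩, h2⟩, rfl⟩
      exact ⟨F, ⟨h1, f, h2, h3.symm⟩, h3⟩
  have e2 : bS S ρ D W ⊓ LinearMap.ker ρ.toLinearMap = S ⊓ LinearMap.ker ρ.toLinearMap := by
    refine le_antisymm (inf_le_inf_right _ inf_le_left) fun F hF => ⟨⟨hF.1, 0, W.zero_mem, ?_⟩, hF.2⟩
    rw [map_zero]
    exact (LinearMap.mem_ker.1 hF.2).symm
  rw [cnt_ker _ ρ.toLinearMap, e1, e2, add_comm,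
    ← (Submodule.equivMapOfInjective _ (mul_inj h) _).finrank_eq]

variable {O K k : Type} [CommRing O] [IsDomain O] [ValuationRing O] [Field K] [Algebra O K]
  [IsFractionRing O K] [Field k]

/-- a space over K whose limit is a complement of Z -/
theorem brk_lift (π : O →+* k) (hs : Function.Surjective π) (V : Submodule K K[X])
    [FiniteDimensional K V] (Z : Submodule k k[X]) :
    ∃ W : Submodule K K[X], W ≤ V ∧
      finrank k (plim π hs V) = finrank K W + finrank k ↥(plim π hs V ⊓ Z) ∧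
      ∀ f ∈ W, f ≠ 0 → ∃ (μ : K) (Q : O[X]), f = μ • Q.map (algebraMap O K) ∧ Q.map π ∉ Z := by
  have := plim_fin π hs V
  let b := Module.finBasis k ((plim π hs V).map Z.mkQ)
  have hb : ∀ j, ∃ P : O[X], P.map (algebraMap O K) ∈ V ∧ Z.mkQ (P.map π) = b j := fun j => by
    obtain ⟨_, ⟨P, h1, rfl⟩, h2⟩ := (b j).2
    exact ⟨P, h1, h2⟩
  choose P h1 h2 using hb
  have i1 : LinearIndependent k (Z.mkQ ∘ fun j => (P j).map π) := by
    have := b.linearIndependent.map' (Submodule.subtype _) (Submodule.ker_subtype _)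
    rwa [show (Z.mkQ ∘ fun j => (P j).map π) = _ from funext h2]
  have i2 := LinearIndependent.of_comp _ i1
  refine ⟨Submodule.span K (Set.range fun j => (P j).map (algebraMap O K)),
    Submodule.span_le.2 (by rintro _ ⟨j, rfl⟩; exact h1 j), ?_, fun f hf f0 => ?_⟩
  · rw [finrank_span_eq_card (brk_indep π P i2), cnt_ker _ Z.mkQ, Submodule.ker_mkQ,
      Fintype.card_fin]
  · obtain ⟨l, rfl⟩ := (Submodule.mem_span_range_iff_exists_fun K).1 hf
    obtain ⟨μ, Q, -, a1, a2, a3⟩ := brk_span π P i2 l fun e => f0 (by simp [e])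
    refine ⟨μ, Q, a1, fun hZ => a2 ?_⟩
    obtain ⟨c, hc⟩ := (Submodule.mem_span_range_iff_exists_fun k).1 a3
    have := Fintype.linearIndependent_iff.1 i1 c (by
      simp only [Function.comp, ← map_smul, ← map_sum]
      rw [hc]
      exact (Submodule.Quotient.mk_eq_zero Z).2 hZ)
    rw [← hc]
    simp [this]

theorem symW_lim (π : O →+* k) (hπ : ∀ x, π x ≠ 0 → IsUnit x) (c : O) (τ : ℕ) (P : O[X])
    (h : P.map (algebraMap O K) ∈ symW (algebraMap O K c) τ) : P.map π ∈ symW (π c) τ := by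
  let B : Fin (τ + 1) → O[X] := fun i => (X ^ 2 + C c) ^ (i : ℕ) * X ^ (τ - i)
  have e1 : ∀ {A : Type} [Field A] (f : O →+* A),
      symW (f c) τ = Submodule.span A (Set.range fun j => (B j).map f) := fun f => by
    simp [symW, pw2, B]
  have mo : ∀ j, ((B j).map π).Monic ∧ ((B j).map π).natDegree = τ + j := fun j => by
    have a : (X ^ 2 + C (π c) : k[X]).Monic := monic_X_pow_add_C _ two_ne_zero
    have e : (B j).map π = (X ^ 2 + C (π c)) ^ (j : ℕ) * X ^ (τ - j) := by simp [B]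
    rw [e]
    refine ⟨(a.pow _).mul (monic_X_pow _), ?_⟩
    rw [(a.pow _).natDegree_mul (monic_X_pow _), natDegree_pow, natDegree_X_pow_add_C,
      natDegree_X_pow]
    have := j.2
    omega
  have i1 : LinearIndependent k fun j => (B j).map π := by
    rw [Fintype.linearIndependent_iff]
    intro l hl
    by_contra h0
    push Not at h0
    classical
    obtain ⟨j, hj, hm⟩ := (Finset.univ.filter fun j => l j ≠ 0).exists_max_image id
      (by simpa [Finset.Nonempty] using h0)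
    have := congrArg (fun Q => Q.coeff (τ + j)) hl
    simp only [finsetSum_coeff, coeff_smul, coeff_zero, smul_eq_mul] at this
    rw [Finset.sum_eq_single j (fun i _ hi => ?_) (by simp), ← (mo j).2, (mo j).1.coeff_natDegree,
      mul_one] at this
    · exact (Finset.mem_filter.1 hj).2 this
    · by_cases e : l i = 0
      · rw [e, zero_mul]
      · have : i < j := lt_of_le_of_ne (hm i (by simpa using e)) hi
        rw [coeff_eq_zero_of_natDegree_lt (by rw [(mo i).2]; omega), mul_zero]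
  rw [e1] at h ⊢
  obtain ⟨l, hl⟩ := (Submodule.mem_span_range_iff_exists_fun K).1 h
  by_cases l0 : l = 0
  · have : P = 0 := map_injective _ (IsFractionRing.injective O K) (by simp [← hl, l0])
    simp [this]
  obtain ⟨μ, Q, -, a1, a2, a3⟩ := brk_span π B i1 l l0
  obtain ⟨ν, rfl⟩ := brk_int π hπ (hl.symm.trans a1) a2
  rw [Polynomial.map_mul, map_C, ← smul_eq_C_mul]
  exact Submodule.smul_mem _ _ a3

/-- the three bounds on the broken curve give the bound for a general involution -/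
theorem brk [CharZero k] (π : O →+* k) (hs : Function.Surjective π)
    (hπ : ∀ x, π x ≠ 0 → IsUnit x) {y4 y5 xa xb : O} {E : O[X]} {m4 m5 ma mb d1 d2 : ℕ}
    (h45 : y4 ≠ y5) (hy : π y5 = π y4) (hx : π xb = π xa) (y0 : π y4 ≠ 0) (h0 : π xa ≠ 0)
    (h1 : π xa ≠ 1) (hE : (E.map π).eval (π y4) ≠ 0)
    (S : Submodule K (Cx K)) [FiniteDimensional K S]
    (hb : ∀ F ∈ S, Bih (m4 + m5 + d1 : ℕ) (ma + mb + d2 : ℕ) F)
    (T : Submodule k (Cx k)) [FiniteDimensional k T]
    (hT : ∀ G : Cx O, MvPolynomial.map (algebraMap O K) G ∈ S → MvPolynomial.map π G ∈ T)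
    (τ r : ℕ)
    (hr : ∀ j N : ℕ, N ≤ finrank k T →
      N ≤ finrank k ↥(T ⊓ LinearMap.ker bR1.toLinearMap) + (2 * j + 1 - (d1 + d2)) →
      (2 * j < d1 + d2 → N ≤ finrank k ↥(T ⊓ LinearMap.ker bR1.toLinearMap ⊓
        LinearMap.ker (bG1 (π y4)).toLinearMap) + (2 * j + 1 - d2)) → N ≤ r + j) :
    Set.Finite {w : k | ∃ w' : O, π w' = w ∧ r < finrank K (bS S
      (bR (algebraMap O K y4) (algebraMap O K y5) (algebraMap O K xa) (algebraMap O K xb))
      ((bD y4 y5 xa xb E m4 m5 ma mb).map (algebraMap O K)) (symW (algebraMap O K w' ^ 2) τ))} := by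
  have inj := IsFractionRing.injective O K
  set ρ := bR (algebraMap O K y4) (algebraMap O K y5) (algebraMap O K xa) (algebraMap O K xb)
    with hρ
  set Δ := bD y4 y5 xa xb E m4 m5 ma mb with hΔ
  have Δπ : Δ.map π ≠ 0 := by
    rw [hΔ, bD_map, hy, hx, bD_lim]
    exact mul_ne_zero (mul_ne_zero (pow_ne_zero _ (C_ne_zero.2 (sub_ne_zero.2 h1.symm)))
      fun e => hE (by rw [e, eval_zero])) (pow_ne_zero _ (X_sub_C_ne_zero _))
  have Δ0 : Δ.map (algebraMap O K) ≠ 0 := fun e => Δπ (by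
    rw [map_injective _ inj (e.trans (Polynomial.map_zero _).symm), Polynomial.map_zero])
  have := bU_fin S ρ Δ0
  have := plim_fin π hs (bU S ρ (Δ.map (algebraMap O K)))
  set U := plim π hs (bU S ρ (Δ.map (algebraMap O K))) with hU
  set κ := finrank K ↥(S ⊓ LinearMap.ker ρ.toLinearMap) with hκ
  have key : ∀ j, κ + finrank k U ≤ finrank k ↥(U ⊓ ordS (π y4) (2 * j + 1)) + r + j := by
    intro j
    obtain ⟨W, w1, w2, w3⟩ := brk_lift π hs (bU S ρ (Δ.map (algebraMap O K)))
      (ordS (π y4) (2 * j + 1))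
    have a1 := bS_rk S ρ Δ0 W
    rw [inf_eq_right.2 w1, ← hκ] at a1
    rw [← hU] at w2
    set Sg := bS S ρ (Δ.map (algebraMap O K)) W with hSg
    have : FiniteDimensional K Sg := Submodule.finiteDimensional_of_le inf_le_left
    have le : mlim π hs Sg ≤ T := by
      rintro _ ⟨G, hG, rfl⟩
      exact hT G hG.1
    have : FiniteDimensional k (mlim π hs Sg) := Submodule.finiteDimensional_of_le le
    have a2 : finrank K Sg ≤ finrank k (mlim π hs Sg) :=
      lim_le π Sg (mlim π hs Sg) fun G hG => ⟨G, hG, rfl⟩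
    have el : ∀ G : Cx O, MvPolynomial.map (algebraMap O K) G ∈ Sg →
        ∃ μ P, bR y4 y5 xa xb G = C μ * (Δ * P) ∧ ¬(X - C (π y4)) ^ (2 * j + 1) ∣ P.map π := by
      rintro G ⟨-, f, g1, g2⟩
      by_cases f0 : f = 0
      · refine ⟨0, 1, map_injective _ inj ?_, fun h => ?_⟩
        · rw [bR_map, ← hρ, map_zero, zero_mul, Polynomial.map_zero]
          exact g2.symm.trans (by rw [f0, map_zero])
        · rw [Polynomial.map_one, ← isUnit_iff_dvd_one, isUnit_pow_iff (by omega)] at h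
          exact not_isUnit_X_sub_C _ h
      obtain ⟨μ, Q, rfl, g3⟩ := w3 f g1 f0
      rw [mem_ordS] at g3
      obtain ⟨ν, hν⟩ := brk_int π hπ (μ := μ) (Q := Δ * Q) (R := bR y4 y5 xa xb G) (K := K) (by
        rw [bR_map, ← hρ, Polynomial.map_mul, ← mul_smul_comm]
        exact g2.symm) (by
        rw [Polynomial.map_mul]
        exact mul_ne_zero Δπ fun e => g3 (e ▸ dvd_zero _))
      exact ⟨ν, Q, hν, g3⟩
    have bi : ∀ G : Cx O, MvPolynomial.map (algebraMap O K) G ∈ Sg →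
        Bih (m4 + m5 + d1 : ℕ) (ma + mb + d2 : ℕ) G := fun G hG => (hb _ hG.1).of_map inj
    have c1 := cnt_ker (mlim π hs Sg) bR1.toLinearMap
    have c2 := cnt_ord ((mlim π hs Sg).map bR1.toLinearMap) (π y4) 0 (2 * j + 1 - (d1 + d2))
      (fun _ _ => by simp) (by
        rintro _ ⟨_, ⟨G, hG, rfl⟩, rfl⟩ hd
        obtain ⟨μ, P, e1, e2⟩ := el G hG
        exact brk_main π hy hx h1 hE (bi G hG) e1 e2 hd)
    have c3 := cnt_ker (mlim π hs Sg ⊓ LinearMap.ker bR1.toLinearMap) (bG1 (π y4)).toLinearMap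
    have W0 : ((X + 1) ^ m4 * X ^ m5 : k[X]) ≠ 0 :=
      mul_ne_zero (pow_ne_zero _ (by simpa using X_add_C_ne_zero (1 : k))) (pow_ne_zero _ X_ne_zero)
    have dW : ((X + 1) ^ m4 * X ^ m5 : k[X]).natDegree = m4 + m5 := by
      rw [natDegree_mul (left_ne_zero_of_mul W0) (right_ne_zero_of_mul W0), natDegree_pow,
        natDegree_pow, natDegree_X, ← C_1, natDegree_X_add_C, mul_one, mul_one]
    have c4 := cnt_deg ((mlim π hs Sg ⊓ LinearMap.ker bR1.toLinearMap).map
      (bG1 (π y4)).toLinearMap) _ W0 (2 * j + 1 - d2) (by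
        rintro _ ⟨_, ⟨⟨G, hG, rfl⟩, -⟩, rfl⟩
        obtain ⟨μ, P, e1, e2⟩ := el G hG
        exact (brk_tail π hπ h45 hy hx h0 h1 hE (bi G hG) e1 e2).1) (by
        rintro _ ⟨_, ⟨⟨G, hG, rfl⟩, -⟩, rfl⟩ g0
        obtain ⟨μ, P, e1, e2⟩ := el G hG
        have b1 := brk_tail π hπ h45 hy hx h0 h1 hE (bi G hG) e1 e2
        have b2 := b1.2 g0
        have b3 := natDegree_le_of_dvd b1.1 g0
        rw [dW] at b3 ⊢
        change (bG1 (π y4) (MvPolynomial.map π G)).natDegree < _
        omega)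
    have m0 := Submodule.finrank_mono le
    have m1 := Submodule.finrank_mono (inf_le_inf_right (LinearMap.ker bR1.toLinearMap) le)
    have m2 := Submodule.finrank_mono (inf_le_inf_right (LinearMap.ker (bG1 (π y4)).toLinearMap)
      (inf_le_inf_right (LinearMap.ker bR1.toLinearMap) le))
    have := hr j (finrank k (mlim π hs Sg)) m0 (by omega) fun _ => by omega
    omega
  have k0 := key 0
  have k1 := Submodule.finrank_mono (inf_le_left : U ⊓ ordS (π y4) (2 * 0 + 1) ≤ U)
  refine (zoom (π y4) y0 τ (r - κ) U fun j => by have := key j; omega).subset ?_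
  rintro _ ⟨w, rfl, hw⟩
  rw [bS_rk S ρ Δ0, ← hκ] at hw
  have := plim_le π (bU S ρ (Δ.map (algebraMap O K)) ⊓ symW (algebraMap O K w ^ 2) τ)
    (U ⊓ symW (π w ^ 2) τ) fun G hG => ⟨⟨G, hG.1, rfl⟩, by
      rw [← map_pow]
      exact symW_lim (K := K) π hπ _ τ G (by rw [map_pow]; exact hG.2)⟩
  change r - κ < _
  omega

end Pool.Agent.Lib.MP_d03834_ag.Core
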