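import Pool.Agent.Lib.MP_d03834_ag.Core.ShKP
import Pool.Agent.Lib.MP_d03834_ag.Core.BiShear

/-! The three moves transport the dimension of the space of sections. -/

set_option autoImplicit false

namespace Pool.Agent.Lib.MP_d03834_ag.Core

open Module

section field
variable {K : Type} [Field K]

/-- the shear with the labels of the two centres exchanged -/
theorem shearS {ι : Type} [DecidableEq ι] {p q q' : ℤ} {m m' : ι → ℤ} {P P' : ι → Fin 4 → K}
    {i j : ι} (hP : ∀ l, Pt (P l)) (hP' : ∀ l, Pt (P' l))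
    (hx : dx (P i) (P j) ≠ 0) (hx' : dx (P' j) (P' i) ≠ 0) (hy : dy (P i) (P j) ≠ 0)
    (hi : dy (P i) (P' j) = 0) (hj : dy (P j) (P' i) = 0)
    (ho : ∀ l, l ≠ i → l ≠ j → dy (P l) (P' l) = 0 ∧ dy (P i) (P' l) ≠ 0 ∧ dy (P j) (P' l) ≠ 0 ∧
      dx (P l) (P j) * dy (P i) (P' l) * dx (P' i) (P' l) =
        dx (P l) (P i) * dy (P j) (P' l) * dx (P' j) (P' l))
    (hq : q' = q + p - m i - m j) (mi : m' i ≤ p - m j) (mj : m' j ≤ p - m i)
    (ml : ∀ l, l ≠ i → l ≠ j → m' l ≤ m l) :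
    finrank K (H0 p q P m) ≤ finrank K (H0 p q' P' m') := by
  subst hq
  refine (shear (P' := fun l => P' (Equiv.swap i j l)) (i := i) (j := j) hP (fun _ => hP' _) hx
    (by simpa using hx') hy (fun l => ?_) fun l h1 h2 => ?_).trans
    (Submodule.finrank_mono (H0_le fun l => Or.inr ⟨Equiv.swap i j l, ?_, hP' l, ?_, ?_⟩))
  · by_cases h1 : l = i
    · simpa [h1] using hi
    by_cases h2 : l = j
    · simpa [h2] using hj
    simpa [Equiv.swap_apply_of_ne_of_ne h1 h2] using (ho l h1 h2).1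
  · simpa [Equiv.swap_apply_of_ne_of_ne h1 h2] using (ho l h1 h2).2
  · by_cases h1 : l = i
    · simpa [h1] using mi
    by_cases h2 : l = j
    · simpa [h2] using mj
    simpa [Equiv.swap_apply_of_ne_of_ne h1 h2, h1, h2] using ml l h1 h2
  · simp [dx_self]
  · simp [dy_self]

/-- the same for the other ruling -/
theorem shearS' {ι : Type} [DecidableEq ι] {p p' q : ℤ} {m m' : ι → ℤ} {P P' : ι → Fin 4 → K}
    {i j : ι} (hP : ∀ l, Pt (P l)) (hP' : ∀ l, Pt (P' l))
    (hy : dy (P i) (P j) ≠ 0) (hy' : dy (P' j) (P' i) ≠ 0) (hx : dx (P i) (P j) ≠ 0)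
    (hi : dx (P i) (P' j) = 0) (hj : dx (P j) (P' i) = 0)
    (ho : ∀ l, l ≠ i → l ≠ j → dx (P l) (P' l) = 0 ∧ dx (P i) (P' l) ≠ 0 ∧ dx (P j) (P' l) ≠ 0 ∧
      dy (P l) (P j) * dx (P i) (P' l) * dy (P' i) (P' l) =
        dy (P l) (P i) * dx (P j) (P' l) * dy (P' j) (P' l))
    (hp : p' = p + q - m i - m j) (mi : m' i ≤ q - m j) (mj : m' j ≤ q - m i)
    (ml : ∀ l, l ≠ i → l ≠ j → m' l ≤ m l) :
    finrank K (H0 p q P m) ≤ finrank K (H0 p' q P' m') := by
  rw [rk_swp, rk_swp p']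
  exact shearS (fun l => (hP l).swP) (fun l => (hP' l).swP) hy hy' hx hi hj ho hp mi mj ml

end field

variable {O k K : Type} [CommRing O] [Field k] [Field K] [Algebra O K] {A : Arc O k}

theorem Cfg.pt (c : Cfg O k) (l : Ix) : Pt (c.pts A K l) := by
  rcases l with l | l | l <;> simp [Pt, Cfg.pts, Cfg.pO]

theorem Cfg.dx_pts (c c' : Cfg O k) (l l' : Ix) :
    dx (c.pts A K l) (c'.pts A K l') = algebraMap O K (dx (c.pO A l) (c'.pO A l')) := by
  simp [dx, Cfg.pts]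

theorem Cfg.dy_pts (c c' : Cfg O k) (l l' : Ix) :
    dy (c.pts A K l) (c'.pts A K l') = algebraMap O K (dy (c.pO A l) (c'.pO A l')) := by
  simp [dy, Cfg.pts]

theorem Arc.ne (A : Arc O k) {a : O} (h : A.res a ≠ 0) : a ≠ 0 := fun e => h (by rw [e, map_zero])

/-- the shear at two free points; no sign condition -/
theorem stepV (hK : Function.Injective (algebraMap O K)) {c c' : Cfg O k} {i j : Fin 5}
    (hij : i ≠ j) (h : RelV A c c' i j) (hz : c.z i ≠ c.z j) (hη : c.η i ≠ c.η j)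
    (ho : ∀ l, l ≠ i → l ≠ j → c.η i ≠ c.η l ∧ c.η j ≠ c.η l) (ε : ℤ) (u : CL) :
    finrank K (c.H A K ε u) ≤ finrank K (c'.H A K ε (cD.rf (aV i j) u)) := by
  have n0 : ∀ a : O, a ≠ 0 → algebraMap O K a ≠ 0 := fun a ha e =>
    ha (hK (e.trans (map_zero _).symm))
  have n1 : ∀ r, c.η r * A.t - 1 ≠ 0 := fun r => A.ne (by simp [A.rt])
  rw [rf_aV]
  refine shearS (i := .inl i) (j := .inl j) c.pt c'.pt ?_ ?_ ?_ ?_ ?_
    (fun l h1 h2 => ?_) (by simp only [dgx, dgy, mlt, par]; ring) (by simp [dgx, mlt, hij]; omega)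
    (by simp [dgx, mlt, hij.symm]; omega) fun l h1 h2 => ?_
  all_goals try simp only [Cfg.dx_pts, Cfg.dy_pts, ← map_mul]
  · exact n0 _ (by simpa [dx, Cfg.pO, sub_eq_zero] using hz.symm)
  · exact n0 _ (by simpa [dx, Cfg.pO, sub_eq_zero, h.zi, h.zj] using hz)
  · exact n0 _ (by simpa [dy, Cfg.pO, sub_eq_zero] using hη)
  · simp [dy, Cfg.pO, h.ej]
  · simp [dy, Cfg.pO, h.ei]
  · rcases l with l | l | l
    · have h3 : l ≠ i := by simpa using h1
      have h4 : l ≠ j := by simpa using h2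
      refine ⟨by simp [dy, Cfg.pO, h.el l h3 h4], n0 _ ?_, n0 _ ?_, congrArg _ ?_⟩
      · simpa [dy, Cfg.pO, sub_eq_zero, h.el l h3 h4] using (ho l h3 h4).1
      · simpa [dy, Cfg.pO, sub_eq_zero, h.el l h3 h4] using (ho l h3 h4).2
      · simp only [dx, dy, Cfg.pO, h.el l h3 h4, h.zi, h.zj]
        simp
        linear_combination -h.zl l h3 h4
    · refine ⟨by simp [dy, Cfg.pO], by simp [dy, Cfg.pO], by simp [dy, Cfg.pO], congrArg _ ?_⟩
      simp only [dx, dy, Cfg.pO, h.al, h.zi, h.zj]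
      simp
      ring
    · refine ⟨by simp [dy, Cfg.pO], n0 _ (by simpa [dy, Cfg.pO] using n1 i),
        n0 _ (by simpa [dy, Cfg.pO] using n1 j), congrArg _ ?_⟩
      simp only [dx, dy, Cfg.pO, h.zi, h.zj]
      simp
      linear_combination -h.be l
  · rcases l with l | l | l
    · have h3 : l ≠ i := by simpa using h1
      have h4 : l ≠ j := by simpa using h2
      simp [mlt, h3, h4]
    · simp [mlt]
    · simp [mlt]

/-- the shear at the points a 1 and b s; no sign condition -/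
theorem stepH [IsDomain O] (hK : Function.Injective (algebraMap O K)) {c c' : Cfg O k}
    {s : Fin 2} (h : RelH A c c' s) (hz : ∀ l, A.res (c.z l) ≠ 0) (h1 : c.al 1 ≠ c.be s)
    (h2 : c.al 0 ≠ c.al 1) (h3 : c.al 0 ≠ c.be s) (h4 : c.be s.rev ≠ c.al 1)
    (h5 : c.be s.rev ≠ c.be s) (ε : ℤ) (u : CL) :
    finrank K (c.H A K ε u) ≤ finrank K (c'.H A K ε (cD.rf (aH s) u)) := by
  have n0 : ∀ a : O, a ≠ 0 → algebraMap O K a ≠ 0 := fun a ha e =>
    ha (hK (e.trans (map_zero _).symm))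
  have n1 : ∀ a b : O, a ≠ b → A.t * a - A.t * b ≠ 0 := fun a b e => by
    rw [← mul_sub]
    exact mul_ne_zero A.t0 (sub_ne_zero.2 e)
  have n2 : ∀ l a, c.z l - A.t * a ≠ 0 := fun l a => A.ne (by simpa [A.rt] using hz l)
  have e1 : dgy ε (cD.rf (aH s) u) = dgy ε u := by
    rw [rf_aH]
    fin_cases s <;> simp [dgy, par] <;> omega
  rw [Cfg.H, Cfg.H, e1, rf_aH]
  refine shearS' (i := .inr (.inl 1)) (j := .inr (.inr s)) c.pt c'.pt ?_ ?_ ?_ ?_ ?_
    (fun l k1 k2 => ?_) (by fin_cases s <;> simp [dgx, dgy, mlt, par] <;> omega)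
    (by fin_cases s <;> simp [dgy, mlt, par] <;> omega)
    (by fin_cases s <;> simp [dgy, mlt, par] <;> omega) fun l k1 k2 => ?_
  all_goals try simp only [Cfg.dx_pts, Cfg.dy_pts, ← map_mul]
  · exact n0 _ (by simpa [dy, Cfg.pO] using A.t0)
  · exact n0 _ (by simpa [dy, Cfg.pO] using A.t0)
  · exact n0 _ (by simpa [dx, Cfg.pO] using n1 _ _ h1.symm)
  · simp [dx, Cfg.pO, h.bs]
  · simp [dx, Cfg.pO, h.a1]
  · rcases l with l | l | l
    · refine ⟨by simp [dx, Cfg.pO, h.z], n0 _ (by simpa [dx, Cfg.pO, h.z] using n2 l _),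
        n0 _ (by simpa [dx, Cfg.pO, h.z] using n2 l _), congrArg _ ?_⟩
      simp only [dx, dy, Cfg.pO, h.z]
      simp
      linear_combination -A.t * h.el l
    · obtain rfl : l = 0 := by
        fin_cases l
        exacts [rfl, absurd rfl k1]
      refine ⟨by simp [dx, Cfg.pO, h.a0], n0 _ (by simpa [dx, Cfg.pO, h.a0] using n1 _ _ h2),
        n0 _ (by simpa [dx, Cfg.pO, h.a0] using n1 _ _ h3), congrArg _ ?_⟩
      simp [dx, dy, Cfg.pO]
    · obtain rfl : l = s.rev := by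
        have : l ≠ s := by simpa using k2
        fin_cases l <;> fin_cases s <;> simp at this ⊢
      refine ⟨by simp [dx, Cfg.pO, h.br], n0 _ (by simpa [dx, Cfg.pO, h.br] using n1 _ _ h4),
        n0 _ (by simpa [dx, Cfg.pO, h.br] using n1 _ _ h5), congrArg _ ?_⟩
      simp [dx, dy, Cfg.pO]
  · rcases l with l | l | l
    · simp [mlt]
    · obtain rfl : l = 0 := by
        fin_cases l
        exacts [rfl, absurd rfl k1]
      fin_cases s <;> simp [mlt] <;> omega
    · have : l ≠ s := by simpa using k2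
      fin_cases l <;> fin_cases s <;> simp [mlt] at this ⊢ <;> omega

/-- the exchange of A and B; no sign condition -/
theorem stepF {c c' : Cfg O k} {s : Fin 2} (h : RelF A c c' s) (ε : ℤ) (u : CL) :
    finrank K (c.H A K ε u) ≤ finrank K (c'.H A K ε (cD.lat.refl (eb s) u)) := by
  have e1 : dgy ε (cD.lat.refl (eb s) u) = dgy ε u := by
    rw [refl_eb]
    fin_cases s <;> simp [dgy, par] <;> omega
  have e2 : dgx ε (cD.lat.refl (eb s) u) = dgx ε u := by rw [refl_eb]; rfl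
  rw [Cfg.H, Cfg.H, e1, e2, refl_eb]
  refine le_trans (Submodule.finrank_mono (H0_le fun l => Or.inr ?_))
    (rk_lin (a := 1) (b := 0) (c := 0) (d := 1) (a' := -1) (b' := algebraMap O K A.t) (c' := 0)
      (d' := 1) (by simp) (by simp) _ _ _ _)
  have hpt : ∀ l, Pt (act 1 0 0 1 (-1) (algebraMap O K A.t) 0 1 (c'.pts A K l)) := by
    rintro (l | l | l)
    · refine ⟨by simp [act, Cfg.pts, Cfg.pO], ?_⟩
      by_cases e : algebraMap O K (c'.η l) = 0 <;> simp [act, Cfg.pts, Cfg.pO, e]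
    · simp [Pt, act, Cfg.pts, Cfg.pO]
    · simp [Pt, act, Cfg.pts, Cfg.pO]
  rcases l with l | l | l
  · refine ⟨.inl l, le_rfl, hpt _, by simp [dx, act, Cfg.pts, Cfg.pO, h.z], ?_⟩
    have := congrArg (algebraMap O K) (h.el l)
    simp only [map_mul, map_sub, map_one] at this
    simp [dy, act, Cfg.pts, Cfg.pO]
    linear_combination this
  · fin_cases l
    · refine ⟨.inr (.inr s), ?_, hpt _, by simp [dx, act, Cfg.pts, Cfg.pO, h.a0],
        by simp [dy, act, Cfg.pts, Cfg.pO]⟩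
      fin_cases s <;> simp [mlt] <;> omega
    · refine ⟨.inr (.inr s.rev), ?_, hpt _, by simp [dx, act, Cfg.pts, Cfg.pO, h.a1],
        by simp [dy, act, Cfg.pts, Cfg.pO]⟩
      fin_cases s <;> simp [mlt] <;> omega
  · by_cases e : l = s
    · refine ⟨.inr (.inl 0), ?_, hpt _, by simp [dx, act, Cfg.pts, Cfg.pO, e, h.bs],
        by simp [dy, act, Cfg.pts, Cfg.pO]⟩
      subst e
      fin_cases l <;> simp [mlt] <;> omega
    · obtain rfl : l = s.rev := by fin_cases l <;> fin_cases s <;> simp at e ⊢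
      refine ⟨.inr (.inl 1), ?_, hpt _, by simp [dx, act, Cfg.pts, Cfg.pO, h.br],
        by simp [dy, act, Cfg.pts, Cfg.pO]⟩
      fin_cases s <;> simp [mlt] <;> omega

theorem Ndg.eta {c : Cfg O k} (h : Ndg A c) {i j : Fin 5} (hij : i ≠ j) : c.η i ≠ c.η j :=
  fun e => by
    have := cur_sub (h.cur i) (h.cur j)
    rw [e, sub_self, mul_zero] at this
    exact mul_ne_zero (sub_ne_zero.2 (h.zz i j hij)) (sub_ne_zero.2 (h.ka i j hij)) this.symm

/-- The bound for all classes from the bound for dominant classes. -/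
theorem kp_of_end [IsDomain O] (hK : Function.Injective (algebraMap O K))
    {Γ : Type} [LinearOrderedCommGroupWithZero Γ] {v : Valuation k Γ} {U : Set k}
    (hU : ∀ u ∈ U, ∀ w ∈ U, u + w ≠ 1) {ε : ℤ} (hε : 0 ≤ ε) (σ : ℤ) (r : ℕ)
    (fin : ∀ c u, Ndg A c → Dmn u → cip u u = σ → finrank K (Cfg.H A K c ε u) ≤ r)
    {c : Cfg O k} {χ : CL → k} {E : Set CL} {u : CL} (hs : St A v U c χ E)
    (hx : cD.lat.Pos (Invo.one v) χ u) (hu : u ∈ cD.M) (hσ : cip u u = σ) :
    finrank K (c.H A K ε u) ≤ r := by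
  have ne : ∀ a b : O, A.res a ≠ A.res b → a ≠ b := fun a b h e => h (by rw [e])
  refine kp_abs hU σ (fun c u => finrank K (c.H A K ε u) ≤ r) (fun c c' i j u hij hn h h1 => ?_)
    (fun c c' s u hn h h1 => ?_) (fun c c' s u h h1 => (stepF h ε u).trans h1)
    (fun c u h => ?_) fin hs hx hu hσ
  · exact (stepV hK hij h (ne _ _ (hn.zz i j hij)) (hn.eta hij)
      (fun l h2 h3 => ⟨hn.eta h2.symm, hn.eta h3.symm⟩) ε u).trans h1
  · refine (stepH hK h hn.z0 (ne _ _ (hn.ab 1 s)) (ne _ _ hn.aa) (ne _ _ (hn.ab 0 s))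
      (ne _ _ (hn.ab 1 _).symm) (ne _ _ ?_) ε u).trans h1
    fin_cases s
    exacts [hn.bb.symm, hn.bb]
  · have : c.H A K ε u = ⊥ := (Submodule.eq_bot_iff _).2 fun F hF =>
      (mem_H0.1 hF).1.neg_deg (by simp only [dgx, dgy, par]; omega)
    rw [this, finrank_bot]
    exact Nat.zero_le _

/-- no sections for a class of negative square -/
theorem kp_neg [IsDomain O] (hK : Function.Injective (algebraMap O K))
    {Γ : Type} [LinearOrderedCommGroupWithZero Γ] {v : Valuation k Γ} {U : Set k}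
    (hU : ∀ u ∈ U, ∀ w ∈ U, u + w ≠ 1) {ε : ℤ} (hε : 0 ≤ ε)
    {c : Cfg O k} {χ : CL → k} {E : Set CL} {u : CL} (hs : St A v U c χ E)
    (hx : cD.lat.Pos (Invo.one v) χ u) (hu : u ∈ cD.M) (hσ : cip u u < 0) :
    finrank K (c.H A K ε u) = 0 :=
  Nat.le_zero.1 (kp_of_end hK hU hε _ 0
    (fun _ _ _ h e => absurd (e ▸ h.sq) (not_le.2 hσ)) hs hx hu rfl)

end Pool.Agent.Lib.MP_d03834_ag.Core
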