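import Pool.Agent.Lib.MP_d03834_ag.Core.TwoSh
import Pool.Agent.Lib.MP_d03834_ag.Core.ShStep

/-! From the frame of the broken curve to the shape: three elementary transformations. -/

set_option autoImplicit false

namespace Pool.Agent.Lib.MP_d03834_ag.Core

open Module

variable {K : Type} [Field K]

/-- the frame of the broken curve: three points on x = 1, two points on y = y0,
two points on x = xg -/
def brP (y : Fin 3 → K) (y0 xg xa xb : K) : Ix → Fin 4 → K
  | .inl i => ![![1, 1, y 0, 1], ![1, 1, y 1, 1], ![1, 1, y 2, 1], ![1, 0, y0, 1],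
      ![0, 1, y0, 1]] i
  | .inr (.inl s) => ![![xg, 1, 0, 1], ![xa, 1, 0, 1]] s
  | .inr (.inr s) => ![![xg, 1, 1, 0], ![xb, 1, 1, 0]] s

/-- the parameters of the frame are not degenerate -/
structure BrN (y : Fin 3 → K) (y0 xg xa xb : K) : Prop where
  yn : ∀ i, y i ≠ 0
  yz : ∀ i, y i ≠ y0
  yy : ∀ i j, i ≠ j → y i ≠ y j
  zn : y0 ≠ 0
  g0 : xg ≠ 0
  g1 : xg ≠ 1
  a0 : xa ≠ 0
  a1 : xa ≠ 1
  b0 : xb ≠ 0
  b1 : xb ≠ 1
  ga : xg ≠ xa
  gb : xg ≠ xb
  ab : xa ≠ xb

theorem brP_pt (y : Fin 3 → K) (y0 xg xa xb : K) : ∀ l, Pt (brP y y0 xg xa xb l) := by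
  refine ix_all ?_ ?_ ?_ ?_ ?_ ?_ ?_ ?_ ?_ <;> simp [brP, Pt]

/-- the frame after the first transformation -/
def bmP (v : Fin 5 → K) (xg xa xb : K) : Ix → Fin 4 → K
  | .inl i => ![![1, 1, 1, 1, 0] i, ![1, 1, 1, 0, 1] i, 1, v i]
  | .inr (.inl s) => ![![xg, 1, 1, 0], ![xb, 1, 0, 1]] s
  | .inr (.inr s) => ![![xg, 1, 0, 1], ![xa, 1, 1, 0]] s

theorem bmP_pt (v : Fin 5 → K) (xg xa xb : K) : ∀ l, Pt (bmP v xg xa xb l) := by
  refine ix_all ?_ ?_ ?_ ?_ ?_ ?_ ?_ ?_ ?_ <;> simp [bmP, Pt]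

/-- the exchange of the labels a 0 and b 0 -/
def sw0 : Ix → Ix
  | .inl i => .inl i
  | .inr (.inl s) => ![.inr (.inr 0), .inr (.inl 1)] s
  | .inr (.inr s) => ![.inr (.inl 0), .inr (.inr 1)] s

/-- the multiplicities after the first transformation -/
def bmM (q : ℤ) (m : Ix → ℤ) : Ix → ℤ
  | .inl i => m (.inl i)
  | .inr (.inl s) => ![m (.inr (.inr 0)), q - m (.inr (.inr 1))] s
  | .inr (.inr s) => ![m (.inr (.inl 0)), q - m (.inr (.inl 1))] s

theorem br_le_bm {y : Fin 3 → K} {y0 xg xa xb : K} (h : BrN y y0 xg xa xb) {v : Fin 5 → K}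
    (h0 : y 0 * v 0 * (1 - xb) = 1 - xa) (h1 : y 1 * v 1 * (1 - xb) = 1 - xa)
    (h2 : y 2 * v 2 * (1 - xb) = 1 - xa) (h3 : y0 * v 3 = 1) (h4 : y0 * v 4 * xb = xa)
    (p q : ℤ) (m : Ix → ℤ) :
    finrank K (H0 p q (brP y y0 xg xa xb) m) ≤
      finrank K (H0 (p + q - m (.inr (.inl 1)) - m (.inr (.inr 1))) q (bmP v xg xa xb)
        (bmM q m)) := by
  refine le_trans (shearS' (P' := fun l => bmP v xg xa xb (sw0 l)) (m' := fun l => bmM q m (sw0 l))
    (i := .inr (.inl 1)) (j := .inr (.inr 1)) (brP_pt _ _ _ _ _) (fun l => bmP_pt _ _ _ _ _)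
    (by simp [brP, dy]) (by simp [bmP, sw0, dy]) (by simpa [brP, dx, sub_eq_zero] using h.ab.symm)
    (by simp [brP, bmP, sw0, dx]) (by simp [brP, bmP, sw0, dx]) ?_ rfl (by simp [bmM, sw0])
    (by simp [bmM, sw0]) ?_) (Submodule.finrank_mono (H0_le fun l => Or.inr ⟨sw0 l, ?_⟩))
  · have a0 := h.a0
    have b0 := h.b0
    have a1 := sub_ne_zero.2 h.a1.symm
    have b1 := sub_ne_zero.2 h.b1.symm
    have ga := sub_ne_zero.2 h.ga
    have gb := sub_ne_zero.2 h.gb
    refine ix_all ?_ ?_ ?_ ?_ ?_ ?_ (fun h => absurd rfl h) ?_ (fun _ h => absurd rfl h) <;>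
      intro _ _ <;>
      simp only [brP, bmP, sw0, dx, dy, Matrix.cons_val_zero, Matrix.cons_val_one,
        Matrix.cons_val, mul_one, one_mul, mul_zero, sub_zero, zero_sub, zero_mul, sub_self,
        true_and]
    · exact ⟨a1, b1, by linear_combination -h0⟩
    · exact ⟨a1, b1, by linear_combination -h1⟩
    · exact ⟨a1, b1, by linear_combination -h2⟩
    · exact ⟨one_ne_zero, one_ne_zero, by linear_combination -h3⟩
    · exact ⟨neg_ne_zero.2 a0, neg_ne_zero.2 b0, by linear_combination h4⟩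
    · exact ⟨ga, gb, by simp⟩
    · exact ⟨ga, gb, by simp⟩
  · refine ix_all ?_ ?_ ?_ ?_ ?_ ?_ (fun h => absurd rfl h) ?_ (fun _ h => absurd rfl h) <;>
      intro _ _ <;> simp [bmM, sw0]
  · have e : sw0 (sw0 l) = l := by
      revert l
      refine ix_all ?_ ?_ ?_ ?_ ?_ ?_ ?_ ?_ ?_ <;> simp [sw0]
    rw [e]
    exact ⟨le_rfl, bmP_pt _ _ _ _ _, dx_self _, dy_self _⟩

theorem bm_le_fb {z : Fin 5 → K} {a b : Fin 2 → K} {la mu xg xa xb : K} (hz : z 3 ≠ z 4)
    (ha : la + mu * a 0 ≠ 0) (hb : la + mu * b 1 ≠ 0)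
    (g1 : (1 - xg) * ((la + mu * z 3) * (a 0 - z 4)) = (z 3 - z 4) * (la + mu * a 0))
    (g2 : (1 - xg) * (z 4 - b 0) = z 4 - z 3) (g3 : (1 - xb) * (z 4 - a 1) = z 4 - z 3)
    (g4 : (1 - xa) * ((la + mu * z 3) * (b 1 - z 4)) = (z 3 - z 4) * (la + mu * b 1))
    (p q : ℤ) (m : Ix → ℤ) :
    finrank K (H0 p q (bmP (fun i => la + mu * z i) xg xa xb) m) ≤
      finrank K (H0 p q (fbP z a b la mu) m) := by
  have hp := fbP_pt hz ha hb
  refine le_trans (Submodule.finrank_mono (H0_le fun l => Or.inr ⟨l, le_rfl, ?_, ?_⟩))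
    (rk_lin (a := -1) (b := 1) (c := 0) (d := 1) (a' := 1) (b' := 0) (c' := 0) (d' := 1)
      (by simp) (by simp) p q (fbP z a b la mu) m)
  · refine ⟨?_, by simpa [act] using (hp l).2⟩
    have := (hp l).1
    simp only [act, Matrix.cons_val_zero, Matrix.cons_val_one, zero_mul, one_mul, zero_add]
    by_cases e : fbP z a b la mu l 1 = 0
    · exact Or.inl (by simpa [e] using this)
    · exact Or.inr e
  · revert l
    refine ix_all ?_ ?_ ?_ ?_ ?_ ?_ ?_ ?_ ?_ <;>
      simp only [bmP, fbP, fbA, fbB, act, dx, dy, Matrix.cons_val_zero, Matrix.cons_val_one,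
        Matrix.cons_val]
    · exact ⟨by ring, by ring⟩
    · exact ⟨by ring, by ring⟩
    · exact ⟨by ring, by ring⟩
    · exact ⟨by ring, by ring⟩
    · exact ⟨by ring, by ring⟩
    · exact ⟨by linear_combination g1, by ring⟩
    · exact ⟨by linear_combination g3, by ring⟩
    · exact ⟨by linear_combination g2, by ring⟩
    · exact ⟨by linear_combination g4, by ring⟩

variable {O k : Type} [CommRing O] [Field k]

/-- the multiplicities in the shape; P and Q are the degrees after the first and the second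
transformation -/
def brM (q P Q : ℤ) (m : Ix → ℤ) : Ix → ℤ
  | .inl i => if i = 3 ∨ i = 4 then P - m (.inl i) else m (.inl i)
  | .inr (.inl s) => ![Q - m (.inr (.inr 0)), q - m (.inr (.inr 1))] s
  | .inr (.inr s) => ![Q - m (.inr (.inl 0)), q - m (.inr (.inl 1))] s

/-- from the frame of the broken curve to the shape -/
theorem Rex.brk [IsDomain O] {A : Arc O k} {c : Cfg O k} {la mu : O} (h : Rex A c la mu)
    (h1 : c.al 1 = c.be 1) (h2 : c.η 3 = c.η 4) [Algebra O K]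
    (hi : Function.Injective (algebraMap O K)) :
    ∃ (y : Fin 3 → K) (y0 xg xa xb : K), BrN y y0 xg xa xb ∧
      ∀ (p q P ε : ℤ) (m : Ix → ℤ) (u : CL),
        P = p + q - m (.inr (.inl 1)) - m (.inr (.inr 1)) →
        dgy ε u = q + P - m (.inl 3) - m (.inl 4) →
        dgx ε u = P + dgy ε u - m (.inr (.inl 0)) - m (.inr (.inr 0)) →
        (∀ l, mlt ε u l ≤ brM q P (dgy ε u) m l) →
        finrank K (H0 p q (brP y y0 xg xa xb) m) ≤ finrank K (c.H A K ε u) := by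
  have k0 : ∀ x y : O, x ≠ y → algebraMap O K (A.t * x) ≠ algebraMap O K (A.t * y) :=
    fun x y hxy => hi.ne fun e => hxy (mul_left_cancel₀ A.t0 e)
  have hz : ∀ i j, i ≠ j → algebraMap O K (c.z i) - algebraMap O K (c.z j) ≠ 0 :=
    fun i j hij => sub_ne_zero.2 (hi.ne (h.zz i j hij))
  have ht : ∀ i x, algebraMap O K (c.z i) - algebraMap O K (A.t * x) ≠ 0 :=
    fun i x => sub_ne_zero.2 (hi.ne (h.zt i x))
  have hv := h.lin hi
  have hm : algebraMap O K mu ≠ 0 := (map_ne_zero_iff _ hi).2 h.mu0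
  have r3 := congrArg (algebraMap O K) (h.R 3)
  have r4 := congrArg (algebraMap O K) (h.R 4)
  rw [← h2] at r4
  simp only [map_mul (algebraMap O K) (_ - _), map_sub, map_add, map_one,
    map_mul (algebraMap O K) mu] at r3 r4
  have na := sub_ne_zero.2 (k0 _ _ h.aa)
  have nb := sub_ne_zero.2 (k0 _ _ h.ab)
  have hle := @Rex.le K _ O k _ _ _ A c la mu h _ hi
  rw [Cfg.fb] at hle
  have e1 : algebraMap O K (A.t * c.be 1) = algebraMap O K (A.t * c.al 1) := by rw [h1]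
  have va := hv (A.t * c.al 0)
  have vb := hv (A.t * c.al 1)
  have hv' := fun i => hv (c.z i)
  have t0 := fun i => ht i (c.al 0)
  have t1 := fun i => ht i (c.al 1)
  have t2 := fun i => ht i (c.be 0)
  clear hv ht k0
  set z : Fin 5 → K := fun i => algebraMap O K (c.z i) with hzd
  set a : Fin 2 → K := fun s => algebraMap O K (A.t * c.al s) with had
  set b : Fin 2 → K := fun s => algebraMap O K (A.t * c.be s) with hbd
  change ∀ i j, i ≠ j → z i - z j ≠ 0 at hz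
  change (z 3 - a 0) * _ = (z 3 - b 0) * (_ + _ * z 3) at r3
  change (z 4 - a 0) * _ = (z 4 - b 0) * (_ + _ * z 4) at r4
  change a 1 - a 0 ≠ 0 at na
  change a 1 - b 0 ≠ 0 at nb
  change b 1 = a 1 at e1
  change _ + _ * a 0 ≠ 0 at va
  change _ + _ * a 1 ≠ 0 at vb
  change ∀ i, _ + _ * z i ≠ 0 at hv'
  change ∀ i, z i - a 0 ≠ 0 at t0
  change ∀ i, z i - a 1 ≠ 0 at t1
  change ∀ i, z i - b 0 ≠ 0 at t2
  generalize algebraMap O K la = L at *
  generalize algebraMap O K mu = M at *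
  generalize algebraMap O K (A.t * c.η 3) - 1 = T at r3 r4
  have z34 := hz 3 4 (by decide)
  have hg : (L + M * z 3) * (a 0 - z 4) = (L + M * a 0) * (b 0 - z 4) :=
    mul_left_cancel₀ z34 (by linear_combination (z 4 - a 0) * r3 - (z 3 - a 0) * r4)
  have v3 := hv' 3
  have v4 := hv' 4
  have s3 := t1 3
  have s4 := t1 4
  have u3 := t2 3
  have u4 := t2 4
  obtain ⟨xg, hxg⟩ : ∃ x, x * (z 4 - b 0) = z 3 - b 0 := ⟨_, div_mul_cancel₀ _ u4⟩
  obtain ⟨xb, hxb⟩ : ∃ x, x * (z 4 - a 1) = z 3 - a 1 := ⟨_, div_mul_cancel₀ _ s4⟩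
  obtain ⟨xa, hxa⟩ : ∃ x, x * ((z 4 - a 1) * (L + M * z 3)) = (z 3 - a 1) * (L + M * z 4) :=
    ⟨_, div_mul_cancel₀ _ (mul_ne_zero s4 v3)⟩
  obtain ⟨y0, hy0⟩ : ∃ x, x * (L + M * z 3) = 1 := ⟨_, div_mul_cancel₀ _ v3⟩
  obtain ⟨y, hy⟩ : ∃ y : Fin 5 → K, ∀ i, y i * ((L + M * z 3) * (L + M * z i)) = L + M * a 1 :=
    ⟨fun i => _, fun i => div_mul_cancel₀ _ (mul_ne_zero v3 (hv' i))⟩
  have g1 : (1 - xg) * ((L + M * z 3) * (a 0 - z 4)) = (z 3 - z 4) * (L + M * a 0) := by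
    linear_combination (1 - xg) * hg + (L + M * a 0) * hxg
  have g2 : (1 - xg) * (z 4 - b 0) = z 4 - z 3 := by linear_combination -hxg
  have g3 : (1 - xb) * (z 4 - a 1) = z 4 - z 3 := by linear_combination -hxb
  have g4 : (1 - xa) * ((L + M * z 3) * (a 1 - z 4)) = (z 3 - z 4) * (L + M * a 1) := by
    linear_combination hxa
  have yn : ∀ i, y i ≠ 0 := fun i e => vb (by rw [← hy i, e, zero_mul])
  have k1 : ∀ i, y i * (L + M * z i) * (1 - xb) = 1 - xa := fun i =>
    mul_left_cancel₀ (mul_ne_zero s4 v3) (by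
      linear_combination (z 4 - z 3) * hy i - y i * (L + M * z i) * (L + M * z 3) * hxb + hxa)
  have hN : BrN (fun i : Fin 3 => y (i.castLE (by omega))) y0 xg xa xb := by
    refine ⟨fun i => yn _, fun i e => ?_, fun i j hij e => ?_,
      fun e => by simp [e] at hy0, fun e => u3 (by rw [← hxg, e, zero_mul]), fun e => ?_,
      fun e => mul_ne_zero s3 v4 (by rw [← hxa, e, zero_mul]), fun e => ?_,
      fun e => s3 (by rw [← hxb, e, zero_mul]), fun e => ?_, fun e => ?_, fun e => ?_, fun e => ?_⟩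
    · generalize i.castLE _ = i at e
      exact mul_ne_zero hm (t1 i) (by
        linear_combination hy i - (L + M * z 3) * (L + M * z i) * e - (L + M * z i) * hy0)
    · have h3 := hz (i.castLE (by omega)) (j.castLE (by omega))
        fun e' => hij (Fin.castLE_injective _ e')
      generalize i.castLE _ = i at e h3
      generalize j.castLE _ = j at e h3
      exact mul_ne_zero (mul_ne_zero (mul_ne_zero (yn i) v3) hm) h3 (by
        linear_combination hy i - hy j - (L + M * z 3) * (L + M * z j) * e)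
    · exact z34 (by linear_combination g2 + (z 4 - b 0) * e)
    · exact mul_ne_zero z34 vb (by
        linear_combination -g4 - (L + M * z 3) * (a 1 - z 4) * e)
    · exact z34 (by linear_combination g3 + (z 4 - a 1) * e)
    · exact mul_ne_zero (mul_ne_zero z34 na) v4 (by
        linear_combination -(L + M * z 3) * (a 0 - z 4) * (a 1 - z 4) * e - (a 1 - z 4) * g1 +
          (a 0 - z 4) * g4)
    · exact mul_ne_zero z34 nb (by
        linear_combination -(z 4 - b 0) * (z 4 - a 1) * e - (z 4 - a 1) * g2 + (z 4 - b 0) * g3)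
    · exact mul_ne_zero (mul_ne_zero s3 hm) z34 (by
        linear_combination -(z 4 - a 1) * (L + M * z 3) * e - (L + M * z 3) * hxb + hxa)
  refine ⟨_, _, _, _, _, hN, fun p q P ε m u eP eQ eX hm' => ?_⟩
  refine (br_le_bm hN (v := fun i => L + M * z i) (k1 0) (k1 1) (k1 2) hy0 ?_ p q m).trans
    ((bm_le_fb (a := a) (b := b) (sub_ne_zero.1 z34) va (e1 ▸ vb) g1 g2 g3 (e1 ▸ g4) _ _ _).trans
      (hle ?_ ?_ ?_))
  · exact mul_left_cancel₀ (mul_ne_zero s4 v3) (by
      linear_combination (L + M * z 4) * hxb + (L + M * z 4) * (z 4 - a 1) * xb * hy0 - hxa)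
  · rw [eQ, eP]
    simp [bmM]
  · rw [eX, eP]
    simp [bmM]
    ring
  · intro l
    refine (hm' l).trans (le_of_eq ?_)
    rw [← eP]
    revert l
    refine ix_all ?_ ?_ ?_ ?_ ?_ ?_ ?_ ?_ ?_ <;> simp [brM, grM, bmM]

end Pool.Agent.Lib.MP_d03834_ag.Core
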