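import Pool.Agent.Lib.MP_d03834_ag.Core.BreakE
import Pool.Agent.Lib.MP_d03834_ag.Core.N10W

/-! The broken curve in the frame in which the smooth curve is a fibre. -/

set_option autoImplicit false

namespace Pool.Agent.Lib.MP_d03834_ag.Core

open Module

/-- the frame in which the curve is the fibre x0 = 0 -/
def kfP {A : Type} [CommRing A] (y : Fin 3 → A) (y4 y5 g4 g5 xa xb : A) : Ix → Fin 4 → A
  | .inl i => ![![0, 1, y 0, 1], ![0, 1, y 1, 1], ![0, 1, y 2, 1], ![-1, 1, y4, 1],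
      ![1, 0, y5, 1]] i
  | .inr (.inl s) => ![![g4 * y4 - y5, y5, 0, 1], ![xa * y4 - y5, y5, 0, 1]] s
  | .inr (.inr s) => ![![g5 - 1, 1, 1, 0], ![xb - 1, 1, 1, 0]] s

/-- restriction to the fibre x0 = 0 -/
noncomputable def kfR {A : Type} [CommRing A] : Cx A →ₐ[A] Polynomial A :=
  MvPolynomial.aeval ![0, 1, Polynomial.X, 1]

/-- the multiplicities in the frame of the broken curve; Q is the new degree in y -/
def kM (p Q : ℤ) (m : Ix → ℤ) : Ix → ℤ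
  | .inl i => ![m (.inl 0), m (.inl 1), m (.inl 2), p - m (.inl 3), p - m (.inl 4)] i
  | .inr (.inl s) => ![Q - m (.inr (.inr 0)), m (.inr (.inl 1))] s
  | .inr (.inr s) => ![Q - m (.inr (.inl 0)), m (.inr (.inr 1))] s

/-- lowered multiplicities -/
def kS (n : Ix → ℤ) (u v w : ℤ) : Ix → ℤ
  | .inl i => n (.inl i) - ![u, u, u, v, v] i
  | .inr s => n (.inr s) - w

/-- the frame after the first transformation -/
def kmP {A : Type} [CommRing A] (y : Fin 3 → A) (y4 y5 g4 g5 xa xb : A) : Ix → Fin 4 → A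
  | .inl i => ![![y 0 - y5, y 0 - y4, y 0, 1], ![y 1 - y5, y 1 - y4, y 1, 1],
      ![y 2 - y5, y 2 - y4, y 2, 1], ![1, 0, y4, 1], ![0, 1, y5, 1]] i
  | .inr (.inl s) => ![![g4, 1, 0, 1], ![xa, 1, 0, 1]] s
  | .inr (.inr s) => ![![g5, 1, 1, 0], ![xb, 1, 1, 0]] s

/-- a point of the graph -/
def kgp {A : Type} [CommRing A] (y y4 y5 g4 g5 : A) : Fin 4 → A :=
  ![y - y5, y - y4, y * (y - y5 - g5 * (y - y4)), y - y5 - g4 * (y - y4)]

/-- the frame after the second transformation -/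
def kgP {A : Type} [CommRing A] (y : Fin 3 → A) (y4 y5 g4 g5 xa xb : A) : Ix → Fin 4 → A
  | .inl i => ![kgp (y 0) y4 y5 g4 g5, kgp (y 1) y4 y5 g4 g5, kgp (y 2) y4 y5 g4 g5,
      ![1, 0, y4, 1], ![0, 1, y5 * g5, g4]] i
  | .inr (.inl s) => ![![g4, 1, 1, 0], ![xa, 1, 0, 1]] s
  | .inr (.inr s) => ![![g5, 1, 0, 1], ![xb, 1, 1, 0]] s

theorem kfP_map {A B : Type} [CommRing A] [CommRing B] (f : A →+* B) (y : Fin 3 → A)
    (y4 y5 g4 g5 xa xb : A) : (fun l i => f (kfP y y4 y5 g4 g5 xa xb l i)) =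
      kfP (fun i => f (y i)) (f y4) (f y5) (f g4) (f g5) (f xa) (f xb) := by
  funext l i
  revert l
  refine ix_all ?_ ?_ ?_ ?_ ?_ ?_ ?_ ?_ ?_ <;> fin_cases i <;> simp [kfP]

theorem kgP_map {A B : Type} [CommRing A] [CommRing B] (f : A →+* B) (y : Fin 3 → A)
    (y4 y5 g4 g5 xa xb : A) : (fun l i => f (kgP y y4 y5 g4 g5 xa xb l i)) =
      kgP (fun i => f (y i)) (f y4) (f y5) (f g4) (f g5) (f xa) (f xb) := by
  funext l i
  revert l
  refine ix_all ?_ ?_ ?_ ?_ ?_ ?_ ?_ ?_ ?_ <;> fin_cases i <;> simp [kgP, kgp]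

section field
variable {K : Type} [Field K]

/-- the parameters are not degenerate -/
structure KfN (y : Fin 3 → K) (y4 y5 g4 g5 xa xb : K) : Prop where
  n4 : ∀ i, y i - y4 ≠ 0
  n5 : ∀ i, y i - y5 ≠ 0
  z4 : y4 ≠ 0
  z5 : y5 ≠ 0
  c4 : g4 ≠ 0
  c5 : g5 ≠ 0
  a4 : xa - g4 ≠ 0
  a5 : xa - g5 ≠ 0
  b4 : xb - g4 ≠ 0
  b5 : xb - g5 ≠ 0
  l4 : ∀ i, y i - y5 - g4 * (y i - y4) ≠ 0
  l5 : ∀ i, y i - y5 - g5 * (y i - y4) ≠ 0

variable {y : Fin 3 → K} {y4 y5 g4 g5 xa xb : K}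

theorem KfN.fb (h : KfN y y4 y5 g4 g5 xa xb) : ∀ l, Pt (kfP y y4 y5 g4 g5 xa xb l) := by
  refine ix_all ?_ ?_ ?_ ?_ ?_ ?_ ?_ ?_ ?_ <;> simp [kfP, Pt, h.z5]

theorem KfN.fm (h : KfN y y4 y5 g4 g5 xa xb) : ∀ l, Pt (kmP y y4 y5 g4 g5 xa xb l) := by
  refine ix_all ?_ ?_ ?_ ?_ ?_ ?_ ?_ ?_ ?_ <;> simp [kmP, Pt, h.n4]

theorem KfN.fg (h : KfN y y4 y5 g4 g5 xa xb) : ∀ l, Pt (kgP y y4 y5 g4 g5 xa xb l) := by
  refine ix_all ?_ ?_ ?_ ?_ ?_ ?_ ?_ ?_ ?_ <;> simp [kgP, kgp, Pt, h.n4, h.l4, h.c4]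

open Polynomial in
theorem fb_step1 (h : KfN y y4 y5 g4 g5 xa xb) (h45 : y4 - y5 ≠ 0) {p q : ℤ} {m : Ix → ℤ}
    (m3 : 0 ≤ m (.inl 3) ∧ m (.inl 3) ≤ p) (m4 : 0 ≤ m (.inl 4) ∧ m (.inl 4) ≤ p)
    (D : K[X]) (W : Submodule K K[X]) :
    finrank K (bS (H0 p q (kfP y y4 y5 g4 g5 xa xb) m) kfR D W) ≤
      finrank K (bS (H0 p (q + p - m (.inl 3) - m (.inl 4)) (kmP y y4 y5 g4 g5 xa xb)
        fun l => if l = .inl 3 ∨ l = .inl 4 then p - m l else m l)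
        (MvPolynomial.aeval ![X - C y5, X - C y4, X, 1])
        (D * (X - C y5) ^ (p - m (.inl 4)).toNat * (X - C y4) ^ (p - m (.inl 3)).toNat) W) := by
  have : FiniteDimensional K (bS (H0 p (q + p - m (.inl 3) - m (.inl 4)) (kmP y y4 y5 g4 g5 xa xb)
      fun l => if l = .inl 3 ∨ l = .inl 4 then p - m l else m l)
      (MvPolynomial.aeval ![X - C y5, X - C y4, X, 1])
      (D * (X - C y5) ^ (p - m (.inl 4)).toNat * (X - C y4) ^ (p - m (.inl 3)).toNat) W) :=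
    Submodule.finiteDimensional_of_le inf_le_left
  refine brk_le (shr (kfP y y4 y5 g4 g5 xa xb (.inl 3)) (kfP y y4 y5 g4 g5 xa xb (.inl 4))
    (ly (kfP y y4 y5 g4 g5 xa xb (.inl 3)) * lx (kmP y y4 y5 g4 g5 xa xb (.inl 4)))
    (ly (kfP y y4 y5 g4 g5 xa xb (.inl 4)) * lx (kmP y y4 y5 g4 g5 xa xb (.inl 3)))).toLinearMap
    (ly (kfP y y4 y5 g4 g5 xa xb (.inl 3)) ^ (m (.inl 3)).toNat *
      ly (kfP y y4 y5 g4 g5 xa xb (.inl 4)) ^ (m (.inl 4)).toNat)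
    (fun F hF e => shr_inj (h.fb (.inl 3)) (h.fb (.inl 4))
      (by simp [kfP, dx]) (by simp [kmP, dx]) (mem_H0.1 hF.1).1 e) ?_
  rintro F ⟨h1, f, h2, h3⟩
  obtain ⟨G, g1, g2⟩ := shear_el (i := .inl 3) (j := .inl 4) h.fb h.fm
    (by simpa [kfP, dy, sub_eq_zero, eq_comm] using h45)
    (by refine ix_all ?_ ?_ ?_ ?_ ?_ ?_ ?_ ?_ ?_ <;> simp [kfP, kmP, dy]) (by
      refine ix_all ?_ ?_ ?_ (fun e => absurd rfl e) (fun _ e => absurd rfl e) ?_ ?_ ?_ ?_ <;>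
        intro _ _ <;> simp [kfP, kmP, dx, dy, h.n4, h.n5, h.z4, h.z5] <;> ring) m3.1 m4.1 h1
  refine ⟨G, ⟨g1, f, h2, ?_⟩, g2⟩
  have e := congrArg (MvPolynomial.aeval ![X - C y5, X - C y4, X, 1]) g2
  have e1 : (MvPolynomial.aeval ![X - C y5, X - C y4, X, 1] : Cx K →ₐ[K] K[X]).comp
      (shr (kfP y y4 y5 g4 g5 xa xb (.inl 3)) (kfP y y4 y5 g4 g5 xa xb (.inl 4))
        (ly (kfP y y4 y5 g4 g5 xa xb (.inl 3)) * lx (kmP y y4 y5 g4 g5 xa xb (.inl 4)))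
        (ly (kfP y y4 y5 g4 g5 xa xb (.inl 4)) * lx (kmP y y4 y5 g4 g5 xa xb (.inl 3)))) =
      MvPolynomial.aeval ![(X - C y4) * (X - C y5) * 0, (X - C y4) * (X - C y5) * 1, 1 * X,
        1 * 1] := by
    refine MvPolynomial.algHom_ext fun i => ?_
    fin_cases i <;> simp [shr, lx, ly, kfP, kmP] <;> ring
  have e2 := (mem_H0.1 h1).1.aeval_mul ![0, 1, X, 1] ((X - C y4) * (X - C y5)) (1 : K[X])
  rw [← AlgHom.comp_apply, e1] at e
  replace e := e.symm.trans e2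
  have l3 : MvPolynomial.aeval ![X - C y5, X - C y4, X, 1]
      (ly (kfP y y4 y5 g4 g5 xa xb (.inl 3))) = X - C y4 := by simp [ly, kfP]
  have l4 : MvPolynomial.aeval ![X - C y5, X - C y4, X, 1]
      (ly (kfP y y4 y5 g4 g5 xa xb (.inl 4))) = X - C y5 := by simp [ly, kfP]
  have u3 : (X - C y4) ^ p.toNat = (X - C y4) ^ (m (.inl 3)).toNat *
      (X - C y4) ^ (p - m (.inl 3)).toNat := by
    rw [← pow_add]
    congr 1
    omega
  have u4 : (X - C y5) ^ p.toNat = (X - C y5) ^ (m (.inl 4)).toNat *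
      (X - C y5) ^ (p - m (.inl 4)).toNat := by
    rw [← pow_add]
    congr 1
    omega
  rw [map_mul, map_mul, map_pow, map_pow, l3, l4, mul_pow, u3, u4, one_pow] at e
  change D * f = MvPolynomial.aeval ![0, 1, X, 1] F at h3
  rw [← h3] at e
  refine mul_left_cancel₀ (mul_ne_zero (pow_ne_zero (m (.inl 3)).toNat (X_sub_C_ne_zero y4))
    (pow_ne_zero (m (.inl 4)).toNat (X_sub_C_ne_zero y5))) ?_
  change _ * (_ * f) = _ * MvPolynomial.aeval _ G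
  linear_combination -e

theorem bL_ne (h45 : y4 - y5 ≠ 0) (x : K) : bL y4 y5 x ≠ 0 := fun e => by
  have := congrArg (Polynomial.eval y4) e
  simp [bL, h45] at this

open Polynomial in
theorem fb_step2 (h : KfN y y4 y5 g4 g5 xa xb) (h45 : y4 - y5 ≠ 0) (hg : g4 - g5 ≠ 0) {p q : ℤ}
    {m : Ix → ℤ} (ma : 0 ≤ m (.inr (.inl 0)) ∧ m (.inr (.inl 0)) ≤ q)
    (mb : 0 ≤ m (.inr (.inr 0)) ∧ m (.inr (.inr 0)) ≤ q) (D : K[X]) (W : Submodule K K[X]) :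
    finrank K (bS (H0 p q (kmP y y4 y5 g4 g5 xa xb) m)
      (MvPolynomial.aeval ![X - C y5, X - C y4, X, 1]) D W) ≤
      finrank K (bS (H0 (p + q - m (.inr (.inl 0)) - m (.inr (.inr 0))) q (kgP y y4 y5 g4 g5 xa xb)
        fun l => if l = .inr (.inl 0) ∨ l = .inr (.inr 0) then q - m l else m l) (bR y4 y5 g4 g5)
        (D * bL y4 y5 g5 ^ (q - m (.inr (.inr 0))).toNat *
          bL y4 y5 g4 ^ (q - m (.inr (.inl 0))).toNat) W) := by
  have : FiniteDimensional K (bS (H0 (p + q - m (.inr (.inl 0)) - m (.inr (.inr 0))) q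
      (kgP y y4 y5 g4 g5 xa xb)
      fun l => if l = .inr (.inl 0) ∨ l = .inr (.inr 0) then q - m l else m l) (bR y4 y5 g4 g5)
      (D * bL y4 y5 g5 ^ (q - m (.inr (.inr 0))).toNat *
        bL y4 y5 g4 ^ (q - m (.inr (.inl 0))).toNat) W) :=
    Submodule.finiteDimensional_of_le inf_le_left
  let a := swP (kmP y y4 y5 g4 g5 xa xb (.inr (.inl 0)))
  let b := swP (kmP y y4 y5 g4 g5 xa xb (.inr (.inr 0)))
  let a' := swP (kgP y y4 y5 g4 g5 xa xb (.inr (.inl 0)))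
  let b' := swP (kgP y y4 y5 g4 g5 xa xb (.inr (.inr 0)))
  refine brk_le (swp.comp ((shr a b (ly a * lx b') (ly b * lx a')).comp swp)).toLinearMap
    (swp (ly a ^ (m (.inr (.inl 0))).toNat * ly b ^ (m (.inr (.inr 0))).toNat)) (fun F hF e => ?_) ?_
  · have e1 : shr a b (ly a * lx b') (ly b * lx a') (swp F) = 0 := by
      rw [← swp_swp (shr _ _ _ _ _)]
      exact (congrArg swp e).trans (map_zero _)
    rw [← swp_swp F, shr_inj (h.fm _).swP (h.fm _).swP (by simp [kmP, dx, swP])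
      (by simp [a', b', kgP, dx, swP]) (mem_H0.1 hF.1).1.swp e1, map_zero]
  rintro F ⟨h1, f, h2, h3⟩
  obtain ⟨G, g1, g2⟩ := shear_el (i := .inr (.inl 0)) (j := .inr (.inr 0))
    (P' := fun l => swP (kgP y y4 y5 g4 g5 xa xb l)) (fun l => (h.fm l).swP)
    (fun l => (h.fg l).swP) (by simpa [kmP, dy, swP, sub_eq_zero, eq_comm] using hg)
    (by refine ix_all ?_ ?_ ?_ ?_ ?_ ?_ ?_ ?_ ?_ <;> simp [kgP, kgp, kmP, dy, swP] <;> ring) (by
      refine ix_all ?_ ?_ ?_ ?_ ?_ (fun e => absurd rfl e) ?_ (fun _ e => absurd rfl e) ?_ <;>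
        intro _ _ <;>
        simp [kgP, kgp, kmP, dx, dy, swP, h.c4, h.c5, h.a4, h.a5, h.b4, h.b5, h.l4, h.l5] <;>
        ring) ma.1 mb.1 (swp_H0 h1)
  have g3 := swp_H0 g1
  simp only [swP_swP] at g3
  refine ⟨swp G, ⟨g3, f, h2, ?_⟩, by rw [← map_mul, ← g2]; rfl⟩
  have e := congrArg (fun Z => bR y4 y5 g4 g5 (swp Z)) g2
  have e1 : (bR y4 y5 g4 g5).comp (swp.comp ((shr a b (ly a * lx b') (ly b * lx a')).comp swp)) =
      MvPolynomial.aeval ![1 * (X - C y5), 1 * (X - C y4), bL y4 y5 g4 * bL y4 y5 g5 * X,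
        bL y4 y5 g4 * bL y4 y5 g5 * 1] := by
    refine MvPolynomial.algHom_ext fun i => ?_
    fin_cases i <;> simp [shr, lx, ly, kgP, kmP, a, b, a', b', swp, swP, bR, bP, bL] <;> ring
  have e2 := (mem_H0.1 h1).1.aeval_mul ![X - C y5, X - C y4, X, 1] (1 : K[X])
    (bL y4 y5 g4 * bL y4 y5 g5)
  replace e := e.symm.trans ((DFunLike.congr_fun e1 F).trans e2)
  have l3 : bR y4 y5 g4 g5 (swp (ly a)) = bL y4 y5 g4 := by
    simp [ly, kmP, a, swp, swP, bR, bP, bL]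
  have l4 : bR y4 y5 g4 g5 (swp (ly b)) = bL y4 y5 g5 := by
    simp [ly, kmP, b, swp, swP, bR, bP, bL]
  have u3 : bL y4 y5 g4 ^ q.toNat = bL y4 y5 g4 ^ (m (.inr (.inl 0))).toNat *
      bL y4 y5 g4 ^ (q - m (.inr (.inl 0))).toNat := by
    rw [← pow_add]
    congr 1
    omega
  have u4 : bL y4 y5 g5 ^ q.toNat = bL y4 y5 g5 ^ (m (.inr (.inr 0))).toNat *
      bL y4 y5 g5 ^ (q - m (.inr (.inr 0))).toNat := by
    rw [← pow_add]
    congr 1
    omega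
  simp only [map_mul, map_pow] at e
  rw [l3, l4, mul_pow, u3, u4, one_pow] at e
  change D * f = MvPolynomial.aeval ![X - C y5, X - C y4, X, 1] F at h3
  rw [← h3] at e
  refine mul_left_cancel₀ (mul_ne_zero (pow_ne_zero (m (.inr (.inl 0))).toNat (bL_ne h45 g4))
    (pow_ne_zero (m (.inr (.inr 0))).toNat (bL_ne h45 g5))) ?_
  change _ * (_ * f) = _ * bR y4 y5 g4 g5 (swp G)
  linear_combination -e

variable {y0 xg : K}

theorem kX_sq (i : Fin 4) (P : Fin 4 → K) : (MvPolynomial.X i : Cx K) ∉ pid P ^ (1 + 1) :=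
  fun h => by simpa using pid_sq i h

theorem br_arm (h : BrN y y0 xg xa xb) {P Q ε u v : ℤ} {n : Ix → ℤ}
    (hε : ε = 0 ∨ ε = 1 ∧ P < n (.inr (.inl 0)) + n (.inr (.inl 1)) ∧
      P < n (.inr (.inr 0)) + n (.inr (.inr 1))) :
    finrank K (H0 P Q (brP y y0 xg xa xb) (kS n u v 0)) ≤
      finrank K (H0 P (Q - 2 * ε) (brP y y0 xg xa xb) (kS n u v ε)) := by
  rcases hε with rfl | ⟨rfl, h1, h2⟩
  · rw [mul_zero, sub_zero]
  refine brk_le LinearMap.id (MvPolynomial.X 2 * MvPolynomial.X 3) (fun _ _ e => e) fun F hF => ?_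
  obtain ⟨G, rfl⟩ := arm2_dvd (brP_pt _ _ _ _ _) hF (i := .inr (.inl 0)) (j := .inr (.inl 1)) rfl rfl
    (by simpa [brP, dx, sub_eq_zero, eq_comm] using h.ga) (by simpa [kS] using h1)
  have g1 := H0_div (n := fun l => kS n u v 0 l - if l = .inr (.inl 0) ∨ l = .inr (.inl 1) then 1
    else 0) (brP_pt _ _ _ _ _) hF bih_X2 (fun _ => kX_sq 2 _) (MvPolynomial.X_ne_zero _) (by
      refine ix_all ?_ ?_ ?_ ?_ ?_ ?_ ?_ ?_ ?_ <;> simp [brP, h.yn, h.zn])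
  obtain ⟨H, rfl⟩ := arm3_dvd (brP_pt _ _ _ _ _) g1 (i := .inr (.inr 0)) (j := .inr (.inr 1)) rfl rfl
    (by simpa [brP, dx, sub_eq_zero, eq_comm] using h.gb) (by simpa [kS] using h2)
  have g2 := H0_div (n := kS n u v 1) (brP_pt _ _ _ _ _) g1 bih_X3 (fun _ => kX_sq 3 _)
    (MvPolynomial.X_ne_zero _) (by
      refine ix_all ?_ ?_ ?_ ?_ ?_ ?_ ?_ ?_ ?_ <;> simp [brP, kS])
  refine ⟨H, ?_, (mul_assoc _ _ _).symm⟩
  convert g2 using 2 <;> ring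

theorem br_R1 [Infinite K] (h : BrN y y0 xg xa xb) {P Q : ℤ} {n : Ix → ℤ} {F : Cx K}
    (hF : F ∈ H0 P Q (brP y y0 xg xa xb) n) (h0 : bR1 F = 0) :
    ∃ G ∈ H0 (P - 1) Q (brP y y0 xg xa xb) (kS n 1 0 0), F = lx ![1, 1, 0, 1] * G := by
  obtain ⟨G, rfl⟩ := bR1_dvd (mem_H0.1 hF).1 h0
  have pt : Pt (![1, 1, 0, 1] : Fin 4 → K) := by simp [Pt]
  have g := H0_div (n := kS n 1 0 0) (brP_pt _ _ _ _ _) hF (bih_lx _) (fun _ => lx_sq _ pt)
    (lx_ne pt) (by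
      refine ix_all ?_ ?_ ?_ ?_ ?_ ?_ ?_ ?_ ?_ <;>
        simp [brP, kS, eval_lx, dx, sub_eq_zero, h.g1, h.a1, h.b1])
  rw [sub_zero] at g
  exact ⟨G, g, rfl⟩

theorem br_G1 [Infinite K] (h : BrN y y0 xg xa xb) {P Q : ℤ} {n : Ix → ℤ} {F : Cx K}
    (hF : F ∈ H0 P Q (brP y y0 xg xa xb) (kS n 1 0 0)) (h0 : bG1 y0 F = 0) :
    ∃ G ∈ H0 P (Q - 1) (brP y y0 xg xa xb) (kS n 1 1 0), F = ly ![0, 1, y0, 1] * G := by
  obtain ⟨G, rfl⟩ := bG1_dvd (mem_H0.1 hF).1 h0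
  have pt : Pt (![0, 1, y0, 1] : Fin 4 → K) := by simp [Pt]
  have g := H0_div (n := kS n 1 1 0) (brP_pt _ _ _ _ _) hF (bih_ly _) (fun _ => ly_sq _ pt)
    (ly_ne pt) (by
      refine ix_all ?_ ?_ ?_ ?_ ?_ ?_ ?_ ?_ ?_ <;>
        simp [brP, kS, eval_ly, dy, sub_eq_zero, h.yz, h.zn])
  rw [sub_zero] at g
  exact ⟨G, g, rfl⟩

end field

variable {O K k : Type} [CommRing O] [IsDomain O] [ValuationRing O] [Field K] [Algebra O K]
  [IsFractionRing O K] [Field k]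

/-- three bounds on the surface with the broken curve bound the sections whose restriction to
the fibre is symmetric under a general involution -/
theorem brkC [CharZero k] (π : O →+* k) (hs : Function.Surjective π)
    (hπ : ∀ x, π x ≠ 0 → IsUnit x) {y : Fin 3 → O} {y4 y5 g4 g5 xa xb : O}
    (h45 : y4 ≠ y5) (hg45 : g4 ≠ g5) (hy : π y5 = π y4) (hg : π g5 = π g4)
    (hN : BrN (fun i => π (y i)) (π y4) (π g4) (π xa) (π xb))
    {p q P Q ε : ℤ} {m : Ix → ℤ} {d1 d2 τ r a a0 a1 : ℕ}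
    (hQ : Q = q + p - m (.inl 3) - m (.inl 4))
    (hP : P = p + Q - m (.inr (.inl 0)) - m (.inr (.inr 0)))
    (m3 : 0 ≤ m (.inl 3) ∧ m (.inl 3) ≤ p) (m4 : 0 ≤ m (.inl 4) ∧ m (.inl 4) ≤ p)
    (ma : 0 ≤ m (.inr (.inl 0)) ∧ m (.inr (.inl 0)) ≤ Q)
    (mb : 0 ≤ m (.inr (.inr 0)) ∧ m (.inr (.inr 0)) ≤ Q)
    (e1 : P = (p - m (.inl 3)) + (p - m (.inl 4)) + d1)
    (e2 : Q = (Q - m (.inr (.inl 0))) + (Q - m (.inr (.inr 0))) + d2)
    (hε : ε = 0 ∨ ε = 1 ∧ P - 1 < Q - m (.inr (.inr 0)) + m (.inr (.inl 1)) ∧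
      P - 1 < Q - m (.inr (.inl 0)) + m (.inr (.inr 1)))
    (ha : finrank k (H0 P Q (brP (fun i => π (y i)) (π y4) (π g4) (π xa) (π xb)) (kM p Q m)) ≤ a)
    (h0 : finrank k (H0 (P - 1) (Q - 2 * ε) (brP (fun i => π (y i)) (π y4) (π g4) (π xa) (π xb))
      (kS (kM p Q m) 1 0 ε)) ≤ a0)
    (h1 : finrank k (H0 (P - 1) (Q - 1 - 2 * ε)
      (brP (fun i => π (y i)) (π y4) (π g4) (π xa) (π xb)) (kS (kM p Q m) 1 1 ε)) ≤ a1)
    (hr : ∀ j N : ℕ, N ≤ a → N ≤ a0 + (2 * j + 1 - (d1 + d2)) →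
      (2 * j < d1 + d2 → N ≤ a1 + (2 * j + 1 - d2)) → N ≤ r + j) :
    Set.Finite {w : k | ∃ w' : O, π w' = w ∧ r < finrank K (bS
      (H0 p q (fun l i => algebraMap O K (kfP y y4 y5 g4 g5 xa xb l i)) m) kfR
      (∏ i : Fin 3, (Polynomial.X - Polynomial.C (algebraMap O K (y i))) ^
        (m (.inl (Fin.castLE (by decide) i))).toNat)
      (symW (algebraMap O K w' ^ 2) τ))} := by
  have inj := IsFractionRing.injective O K
  have nz : ∀ x : O, π x ≠ 0 → algebraMap O K x ≠ 0 := fun x hx e =>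
    hx (by rw [inj (e.trans (map_zero _).symm), map_zero])
  have s1 : ∀ i, π (y i) - π y4 ≠ 0 := fun i => sub_ne_zero.2 (hN.yz i)
  have s2 : ∀ i, π (y i) - π y4 - π g4 * (π (y i) - π y4) ≠ 0 := fun i => by
    rw [← one_sub_mul]
    exact mul_ne_zero (sub_ne_zero.2 hN.g1.symm) (s1 i)
  have s3 := sub_ne_zero.2 hN.ga.symm
  have s4 := sub_ne_zero.2 hN.gb.symm
  have nK : KfN (fun i => algebraMap O K (y i)) (algebraMap O K y4) (algebraMap O K y5)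
      (algebraMap O K g4) (algebraMap O K g5) (algebraMap O K xa) (algebraMap O K xb) := by
    refine ⟨fun i => ?_, fun i => ?_, ?_, ?_, ?_, ?_, ?_, ?_, ?_, ?_, fun i => ?_, fun i => ?_⟩ <;>
      (try simp only [← map_sub, ← map_mul]) <;> refine nz _ ?_ <;>
      (try simp only [map_sub, map_mul, hy, hg]) <;>
      first | exact s1 _ | exact s2 _ | exact s3 | exact s4 | exact hN.zn | exact hN.g0
  have nk : KfN (fun i => π (y i)) (π y4) (π y4) (π g4) (π g4) (π xa) (π xb) :=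
    ⟨s1, s1, hN.zn, hN.zn, hN.g0, hN.g0, s3, s3, s4, s4, s2, s2⟩
  have k45 : algebraMap O K y4 - algebraMap O K y5 ≠ 0 := sub_ne_zero.2 fun e => h45 (inj e)
  have kg : algebraMap O K g4 - algebraMap O K g5 ≠ 0 := sub_ne_zero.2 fun e => hg45 (inj e)
  let m1 : Ix → ℤ := fun l => if l = .inl 3 ∨ l = .inl 4 then p - m l else m l
  let m2 : Ix → ℤ := fun l => if l = .inr (.inl 0) ∨ l = .inr (.inr 0) then Q - m1 l else m1 l
  let E : Polynomial O := ∏ i : Fin 3, (Polynomial.X - Polynomial.C (y i)) ^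
    (m (.inl (Fin.castLE (by decide) i))).toNat
  have pk : ∀ l, Pt fun i => π (kgP y y4 y5 g4 g5 xa xb l i) := fun l => by
    have := congrFun (kgP_map π y y4 y5 g4 g5 xa xb) l
    rw [this, hy, hg]
    exact nk.fg l
  refine (brk (K := K) π hs hπ (E := E) (m4 := (p - m (.inl 4)).toNat) (m5 := (p - m (.inl 3)).toNat)
    (ma := (Q - m (.inr (.inr 0))).toNat) (mb := (Q - m (.inr (.inl 0))).toNat) (d1 := d1)
    (d2 := d2) h45 hy hg hN.zn hN.g0 hN.g1 ?_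
    (H0 P Q (fun l i => algebraMap O K (kgP y y4 y5 g4 g5 xa xb l i)) m2)
    (fun F hF => (mem_H0.1 hF).1.of_eq (by omega) (by omega))
    (H0 P Q (brP (fun i => π (y i)) (π y4) (π g4) (π xa) (π xb)) (kM p Q m)) (fun G hG => ?_)
    τ r fun j N b1 b2 b3 => hr j N (b1.trans ha) (b2.trans ?_) fun e => (b3 e).trans ?_).subset ?_
  · simp only [E, Polynomial.map_prod, Polynomial.eval_prod, Polynomial.map_pow,
      Polynomial.map_sub, Polynomial.map_X, Polynomial.map_C, Polynomial.eval_pow,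
      Polynomial.eval_sub, Polynomial.eval_X, Polynomial.eval_C]
    exact Finset.prod_ne_zero_iff.2 fun i _ => pow_ne_zero _ (sub_ne_zero.2 (hN.yz i).symm)
  · have g : MvPolynomial.map π G ∈ H0 P Q (fun l i => π (kgP y y4 y5 g4 g5 xa xb l i)) m2 :=
      mem_H0.2 ⟨((mem_H0.1 hG).1.of_map inj).map π,
        fun l => pid_lim π hπ (pk l) ((mem_H0.1 hG).2 l)⟩
    rw [kgP_map, hy, hg] at g
    refine H0_le (fun l => Or.inr ⟨sw0 l, ?_, brP_pt _ _ _ _ _ l, ?_⟩) g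
    · revert l
      refine ix_all ?_ ?_ ?_ ?_ ?_ ?_ ?_ ?_ ?_ <;> simp [kM, m2, m1, sw0]
    · revert l
      refine ix_all ?_ ?_ ?_ ?_ ?_ ?_ ?_ ?_ ?_ <;> simp [brP, kgP, kgp, sw0, dx, dy] <;> ring
  · refine Nat.add_le_add_right (le_trans ?_ ((br_arm hN ?_).trans h0)) _
    · exact brk_le LinearMap.id _ (fun _ _ e => e) fun F hF => br_R1 hN hF.1 hF.2
    · simpa [kM] using hε
  · refine Nat.add_le_add_right (le_trans ?_ ((br_arm hN ?_).trans h1)) _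
    · refine brk_le LinearMap.id (lx ![1, 1, 0, 1] * ly ![0, 1, π y4, 1]) (fun _ _ e => e)
        fun F hF => ?_
      obtain ⟨G, g1, rfl⟩ := br_R1 hN hF.1.1 hF.1.2
      obtain ⟨H, g2, rfl⟩ := br_G1 hN g1 (by
        have e : bG1 (π y4) (lx ![1, 1, 0, 1]) = 1 := by simp [bG1, lx]
        have := hF.2
        change bG1 _ _ = 0 at this
        rwa [map_mul, e, one_mul] at this)
      exact ⟨H, g2, (mul_assoc _ _ _).symm⟩
    · simpa [kM] using hε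
  · rintro w ⟨w', e, hw⟩
    refine ⟨w', e, hw.trans_le ?_⟩
    rw [kfP_map, kgP_map]
    refine (fb_step1 nK k45 m3 m4 _ _).trans ?_
    rw [← hQ]
    refine (fb_step2 nK k45 kg (m := m1) (by simpa [m1] using ma) (by simpa [m1] using mb) _ _).trans
      (le_of_eq ?_)
    have a1 : m1 (.inr (.inl 0)) = m (.inr (.inl 0)) := by simp [m1]
    have a2 : m1 (.inr (.inr 0)) = m (.inr (.inr 0)) := by simp [m1]
    have a3 : E.map (algebraMap O K) = ∏ i : Fin 3,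
        (Polynomial.X - Polynomial.C (algebraMap O K (y i))) ^
          (m (.inl (Fin.castLE (by decide) i))).toNat := by
      simp [E, Polynomial.map_prod]
    rw [a1, a2, ← hP, bD_map, a3]
    rfl

end Pool.Agent.Lib.MP_d03834_ag.Core
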