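import Pool.Agent.Lib.MP_d03834_ag.Core.BreakB
import Pool.Agent.Lib.MP_d03834_ag.Core.BiCurve
import Pool.Agent.Lib.MP_d03834_ag.Core.BiShear

/-! Elementary transformations of single sections; lines which split off. -/

set_option autoImplicit false

namespace Pool.Agent.Lib.MP_d03834_ag.Core

open MvPolynomial Module

variable {K : Type} [Field K]

theorem shr_inj {a b a' b' : Fin 4 → K} (ha : Pt a) (hb : Pt b) (hx : dx a b ≠ 0)
    (hx' : dx a' b' ≠ 0) {p q : ℤ} {F : Cx K} (hF : Bih p q F)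
    (h0 : shr a b (ly a * lx b') (ly b * lx a') F = 0) : F = 0 := by
  have e : (shr b' a' (ly b * lx a) (ly a * lx b)).comp (shr a b (ly a * lx b') (ly b * lx a')) =
      aeval ![C (dx b' a' * dx a b) * ly a * ly b * X 0,
        C (dx b' a' * dx a b) * ly a * ly b * X 1, 1 * X 2, 1 * X 3] := by
    refine algHom_ext fun k => ?_
    fin_cases k <;> simp [shr, lx, ly, dx] <;> ring
  have e1 := DFunLike.congr_fun e F
  rw [hF.aeval_mul X, AlgHom.comp_apply, h0, map_zero, aeval_X_left_apply, one_pow,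
    mul_one] at e1
  refine (mul_eq_zero.1 e1.symm).resolve_left
    (pow_ne_zero _ (mul_ne_zero (mul_ne_zero ?_ (ly_ne ha)) (ly_ne hb)))
  rw [C_ne_zero, dx_comm]
  exact mul_ne_zero (neg_ne_zero.2 hx') hx

/-- the elementary transformation of one section -/
theorem shear_el {ι : Type} [DecidableEq ι] {p q : ℤ} {m : ι → ℤ} {P P' : ι → Fin 4 → K} {i j : ι}
    (hP : ∀ l, Pt (P l)) (hP' : ∀ l, Pt (P' l)) (hy : dy (P i) (P j) ≠ 0)
    (hv : ∀ l, dy (P l) (P' l) = 0)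
    (ho : ∀ l, l ≠ i → l ≠ j → dy (P i) (P' l) ≠ 0 ∧ dy (P j) (P' l) ≠ 0 ∧
      dx (P l) (P j) * dy (P i) (P' l) * dx (P' j) (P' l) =
        dx (P l) (P i) * dy (P j) (P' l) * dx (P' i) (P' l))
    (mi : 0 ≤ m i) (mj : 0 ≤ m j) {F : Cx K} (hF : F ∈ H0 p q P m) :
    ∃ G ∈ H0 p (q + p - m i - m j) P' fun l => if l = i ∨ l = j then p - m l else m l,
      shr (P i) (P j) (ly (P i) * lx (P' j)) (ly (P j) * lx (P' i)) F =
        ly (P i) ^ (m i).toNat * ly (P j) ^ (m j).toNat * G := by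
  by_cases hp : p < 0
  · exact ⟨0, Submodule.zero_mem _, by rw [(mem_H0.1 hF).1.neg_deg (.inl hp), map_zero, mul_zero]⟩
  set ψ := shr (P i) (P j) (ly (P i) * lx (P' j)) (ly (P j) * lx (P' i)) with hψ
  have hi := ly_ne (hP i)
  have hj := ly_ne (hP j)
  have b0 : ∀ a b : K, Bih 1 1 (C a * (ly (P i) * lx (P' j)) - C b * (ly (P j) * lx (P' i))) :=
    fun a b => (((bih_ly _).mul (bih_lx _)).cmul _).sub (((bih_ly _).mul (bih_lx _)).cmul _)
  obtain ⟨h1, h2⟩ := mem_H0.1 hF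
  have d1 : ly (P i) ^ (m i).toNat ∣ ψ F := by
    rw [← Ideal.mem_span_singleton, ← Ideal.span_singleton_pow]
    refine pid_map ψ ?_ ?_ (h2 i) <;> rw [Ideal.mem_span_singleton]
    · rw [shr_lx, dx_self, map_zero, zero_mul, sub_zero]
      exact (dvd_mul_right _ _).mul_left _
    · rw [shr_ly]
  have d2 : ly (P j) ^ (m j).toNat ∣ ψ F := by
    rw [← Ideal.mem_span_singleton, ← Ideal.span_singleton_pow]
    refine pid_map ψ ?_ ?_ (h2 j) <;> rw [Ideal.mem_span_singleton]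
    · rw [shr_lx, dx_self, map_zero, zero_mul, zero_sub, dvd_neg]
      exact (dvd_mul_right _ _).mul_left _
    · rw [shr_ly]
  obtain ⟨G, hG⟩ := (ly_rel hy).pow.mul_dvd d1 d2
  have yv : ∀ l, ly (P l) ∈ pid (P' l) := fun l =>
    pid_of_eval (hP' l) (bih_ly _) (by rw [eval_ly, hv])
  have hb : Bih p (p + q) (ψ F) := h1.shr _ _ ((bih_ly _).mul (bih_lx _))
    ((bih_ly _).mul (bih_lx _))
  have hx0 : ∀ I : Ideal (Cx K), ly (P i) * lx (P' j) ∈ I → ly (P j) * lx (P' i) ∈ I →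
      ψ F ∈ I ^ p.toNat := fun I a b => by
    have h3 := Ideal.mem_map_of_mem ψ h1.mem_x
    rw [Ideal.map_pow] at h3
    refine Ideal.pow_right_mono (Ideal.map_le_iff_le_comap.2 (Ideal.span_le.2 ?_)) _ h3
    rintro _ (rfl | rfl)
    · change ψ (X 0) ∈ I
      simpa [ψ, shr] using I.sub_mem (I.mul_mem_left _ a) (I.mul_mem_left _ b)
    · change ψ (X 1) ∈ I
      simpa [ψ, shr] using I.sub_mem (I.mul_mem_left _ a) (I.mul_mem_left _ b)
  refine ⟨G, mem_H0.2 ⟨?_, fun l => ?_⟩, hG⟩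
  · rw [hG] at hb
    have bp : ∀ u v : ℕ, Bih 0 (u + v) (ly (P i) ^ u * ly (P j) ^ v) := fun u v =>
      (((bih_ly (P i)).pow u).mul ((bih_ly (P j)).pow v)).of_eq (by ring) (by ring)
    exact (hb.of_mul (bp _ _) (mul_ne_zero (pow_ne_zero _ hi) (pow_ne_zero _ hj))).of_eq
      (by ring) (by omega)
  · by_cases e : l = i
    · subst e
      have a1 := hx0 (pid (P' l)) (Ideal.mul_mem_right _ _ (yv l))
        (Ideal.mul_mem_left _ _ (lx_mem _))
      rw [hG] at a1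
      have a2 := shear_aux (hP' l) (ly_sq _ (hP l)) (yv l) (by
        rw [eval_ly]
        exact dy_ne (by rwa [dy_comm, neg_ne_zero]) (hv l) (hP' l)) a1 0
      rw [pow_zero, mul_one] at a2
      rw [if_pos (.inl rfl)]
      exact Ideal.pow_le_pow_right (by omega) a2
    by_cases e' : l = j
    · subst e'
      have a1 := hx0 (pid (P' l)) (Ideal.mul_mem_left _ _ (lx_mem _))
        (Ideal.mul_mem_right _ _ (yv l))
      rw [hG, mul_comm (ly (P i) ^ _)] at a1
      have a2 := shear_aux (hP' l) (ly_sq _ (hP l)) (yv l) (by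
        rw [eval_ly]
        exact dy_ne hy (hv l) (hP' l)) a1 0
      rw [pow_zero, mul_one] at a2
      rw [if_pos (.inr rfl)]
      exact Ideal.pow_le_pow_right (by omega) a2
    obtain ⟨c1, c2, c3⟩ := ho l e e'
    have a1 : ψ F ∈ pid (P' l) ^ (m l).toNat := by
      refine pid_map ψ ?_ ?_ (h2 l)
      · rw [shr_lx]
        refine pid_of_eval (hP' l) (b0 _ _) ?_
        simp only [map_sub, map_mul, eval_C, eval_lx, eval_ly]
        linear_combination c3
      · rw [shr_ly]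
        exact yv l
    rw [hG, mul_assoc] at a1
    rw [← eval_ly] at c1 c2
    have a2 := pid_div_pow (hP' l) (not_pid c2) _ (pid_div_pow (hP' l) (not_pid c1) _ a1)
    rw [mul_zero, mul_zero, Nat.sub_zero, Nat.sub_zero] at a2
    rwa [if_neg (not_or.2 ⟨e, e'⟩)]

theorem swp_H0 {ι : Type} {p q : ℤ} {P : ι → Fin 4 → K} {m : ι → ℤ} {F : Cx K}
    (h : F ∈ H0 p q P m) : swp F ∈ H0 q p (fun l => swP (P l)) m :=
  mem_H0.2 ⟨(mem_H0.1 h).1.swp, fun l => swp_pid ((mem_H0.1 h).2 l)⟩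

/-- division of a section by a curve -/
theorem H0_div {ι : Type} {p q a b : ℤ} {P : ι → Fin 4 → K} {m n : ι → ℤ} {c G : Cx K}
    (hP : ∀ l, Pt (P l)) (h : c * G ∈ H0 p q P m) (hc : Bih a b c)
    (h2 : ∀ l, c ∉ pid (P l) ^ (1 + 1)) (c0 : c ≠ 0)
    (hn : ∀ l, n l ≤ m l - 1 ∨ n l ≤ m l ∧ eval (P l) c ≠ 0) : G ∈ H0 (p - a) (q - b) P n := by
  refine mem_H0.2 ⟨(mem_H0.1 h).1.of_mul hc c0, fun l => ?_⟩
  rcases hn l with e | ⟨e, e'⟩
  · exact Ideal.pow_le_pow_right (by omega) (pid_div (hP l) (h2 l) ((mem_H0.1 h).2 l))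
  · exact Ideal.pow_le_pow_right (by omega) (pid_div (hP l) (not_pid e') ((mem_H0.1 h).2 l))

theorem ev_aeval (t : K) (g : Fin 4 → Polynomial K) (F : Cx K) :
    Polynomial.eval t (aeval g F) = aeval (fun i => Polynomial.eval t (g i)) F := by
  induction F using MvPolynomial.induction_on with
  | C a => simp
  | add a b ha hb => simp only [map_add, Polynomial.eval_add, ha, hb]
  | mul_X a i ha => simp only [map_mul, Polynomial.eval_mul, ha, aeval_X]

theorem bR1_dvd [Infinite K] {p q : ℤ} {F : Cx K} (hF : Bih p q F) (h : bR1 F = 0) :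
    lx ![1, 1, 0, 1] ∣ F := by
  have := graph_dvd (A := 1) (B := 1) (bih_C 1) (bih_C 1) one_ne_zero isRelPrime_one_left hF (by
    refine (mul_eq_zero.1 (MvPolynomial.funext (p := X 3 * grf 1 1 F) (q := 0) fun v => ?_)).resolve_left
      (X_ne_zero _)
    rw [map_mul, eval_X, map_zero]
    by_cases e : v 3 = 0
    · rw [e, zero_mul]
    have a1 := hF.aeval_mul ![1, 1, v 2 / v 3, 1] 1 (v 3)
    have a2 := congrArg (Polynomial.eval (v 2 / v 3)) h
    rw [bR1, ev_aeval, Polynomial.eval_zero] at a2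
    have a3 : (fun i => Polynomial.eval (v 2 / v 3) (![1, 1, Polynomial.X, 1] i)) =
        ![1, 1, v 2 / v 3, 1] := by
      funext i
      fin_cases i <;> simp
    rw [a3] at a2
    rw [a2, mul_zero] at a1
    rw [grf, lim_eval, ← aeval_eq_eval, ← mul_zero (v 3), ← a1]
    congr 3
    funext i
    fin_cases i <;> simp [mul_div_cancel₀ _ e])
  simpa [lx] using this

theorem bG1_dvd [Infinite K] {p q : ℤ} {F : Cx K} {y : K} (hF : Bih p q F) (h : bG1 y F = 0) :
    ly ![0, 1, y, 1] ∣ F := by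
  have := graph_dvd (A := 1) (B := C y) (bih_C 1) (bih_C y) one_ne_zero isRelPrime_one_left
    hF.swp (by
    refine (mul_eq_zero.1 (MvPolynomial.funext (p := (X 2 - X 3) * grf 1 (C y) (swp F)) (q := 0)
      fun v => ?_)).resolve_left (sub_ne_zero.2 fun e => absurd (X_injective e) (by decide))
    rw [map_mul, map_sub, eval_X, eval_X, map_zero]
    by_cases e : v 2 - v 3 = 0
    · rw [e, zero_mul]
    have a1 := hF.aeval_mul ![v 3 / (v 2 - v 3) + 1, v 3 / (v 2 - v 3), y, 1] (v 2 - v 3) 1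
    have a2 := congrArg (Polynomial.eval (v 3 / (v 2 - v 3))) h
    rw [bG1, ev_aeval, Polynomial.eval_zero] at a2
    have a3 : (fun i => Polynomial.eval (v 3 / (v 2 - v 3))
        (![Polynomial.X + 1, Polynomial.X, Polynomial.C y, 1] i)) =
        ![v 3 / (v 2 - v 3) + 1, v 3 / (v 2 - v 3), y, 1] := by
      funext i
      fin_cases i <;> simp
    rw [a3] at a2
    rw [a2, mul_zero] at a1
    rw [grf, lim_eval, swp, lim_eval, ← aeval_eq_eval, ← mul_zero (v 2 - v 3), ← a1]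
    congr 3
    funext i
    fin_cases i <;> simp [mul_add, mul_div_cancel₀ _ e])
  have e := map_dvd swp this
  rw [swp_swp] at e
  simpa [ly, swp] using e

theorem two_zero {a b : Fin 4 → K} (ha : Pt a) (hb : Pt b) (h : dx a b ≠ 0) {p q : ℤ} {u v : ℕ}
    {g : Cx K} (hg : Bih p q g) (h1 : lx a ^ u ∣ g) (h2 : lx b ^ v ∣ g) (hp : p < u + v) :
    g = 0 := by
  obtain ⟨G, rfl⟩ := (lx_rel h).pow.mul_dvd h1 h2
  rw [(hg.of_mul (((bih_lx a).pow u).mul ((bih_lx b).pow v))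
    (mul_ne_zero (pow_ne_zero _ (lx_ne ha)) (pow_ne_zero _ (lx_ne hb)))).neg_deg
      (.inl (by omega)), mul_zero]

theorem arm2_dvd {ι : Type} {p q : ℤ} {P : ι → Fin 4 → K} {m : ι → ℤ} {F : Cx K}
    (hP : ∀ l, Pt (P l)) (h : F ∈ H0 p q P m) {i j : ι} (hi : P i 2 = 0) (hj : P j 2 = 0)
    (hx : dx (P i) (P j) ≠ 0) (hp : p < m i + m j) : X 2 ∣ F := by
  have e := two_zero (hP i) (hP j) hx ((mem_H0.1 h).1.cmp ![0, 0, 1, 0] 0)
    (arm2 hi ((mem_H0.1 h).2 i) 0) (arm2 hj ((mem_H0.1 h).2 j) 0) (by omega)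
  rw [← pow_one (X 2), X_pow_dvd_iff]
  intro μ hμ
  by_contra h0
  have := cmp_coeff ![0, 0, 1, 0] 0 μ F
  rw [e, coeff_zero, wt4, if_pos (by omega)] at this
  exact hμ this.symm

theorem arm3_dvd {ι : Type} {p q : ℤ} {P : ι → Fin 4 → K} {m : ι → ℤ} {F : Cx K}
    (hP : ∀ l, Pt (P l)) (h : F ∈ H0 p q P m) {i j : ι} (hi : P i 3 = 0) (hj : P j 3 = 0)
    (hx : dx (P i) (P j) ≠ 0) (hp : p < m i + m j) : X 3 ∣ F := by
  have e := two_zero (hP i) (hP j) hx ((mem_H0.1 h).1.cmp ![0, 0, 0, 1] 0)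
    (arm3 hi ((mem_H0.1 h).2 i) 0) (arm3 hj ((mem_H0.1 h).2 j) 0) (by omega)
  rw [← pow_one (X 3), X_pow_dvd_iff]
  intro μ hμ
  by_contra h0
  have := cmp_coeff ![0, 0, 0, 1] 0 μ F
  rw [e, coeff_zero, wt4, if_pos (by omega)] at this
  exact hμ this.symm

end Pool.Agent.Lib.MP_d03834_ag.Core
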