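import Pool.Agent.Lib.MP_d03834_ag.Core.BiEndB

/-! Multiplicities along a curve in divisibility form; peeling of a line and of a parabola. -/

set_option autoImplicit false

namespace Pool.Agent.Lib.MP_d03834_ag.Core.CE

open Polynomial Module

section ring
variable {R S ι : Type} [CommRing R] [CommRing S] [Fintype ι]

/-- the product of the roots -/
noncomputable def dv (z : ι → R) (m : ι → ℕ) : R[X] := ∏ i, (X - C (z i)) ^ m i

theorem dv_dvd (z : ι → R) {m m' : ι → ℕ} (h : ∀ i, m i ≤ m' i) : dv z m ∣ dv z m' :=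
  Finset.prod_dvd_prod_of_dvd _ _ fun i _ => pow_dvd_pow _ (h i)

theorem dv_add (z : ι → R) (m m' : ι → ℕ) : dv z (m + m') = dv z m * dv z m' := by
  simp [dv, pow_add, Finset.prod_mul_distrib]

theorem dv_monic (z : ι → R) (m : ι → ℕ) : (dv z m).Monic :=
  monic_prod_of_monic _ _ fun _ _ => (monic_X_sub_C _).pow _

theorem dv_map (f : R →+* S) (z : ι → R) (m : ι → ℕ) :
    (dv z m).map f = dv (fun i => f (z i)) m := by
  simp [dv, Polynomial.map_prod]

theorem dv_zero (z : ι → R) {m : ι → ℕ} (h : ∀ i, m i = 0) : dv z m = 1 := by simp [dv, h]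

/-- the multiplicities m at the points z of the curve Y = 0 -/
def JC (z : ι → R) (m : ι → ℕ) : Ideal R[X][X] where
  carrier := {g | ∀ j, dv z (fun i => m i - j) ∣ g.coeff j}
  add_mem' := fun h h' j => by
    rw [coeff_add]
    exact dvd_add (h j) (h' j)
  zero_mem' := fun j => by simp
  smul_mem' := fun c g h j => by
    rw [smul_eq_mul, coeff_mul]
    refine Finset.dvd_sum fun x hx => ((dv_dvd z fun i => ?_).trans (h x.2)).mul_left _
    have := Finset.HasAntidiagonal.mem_antidiagonal.1 hx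
    omega

variable {z : ι → R} {m m' : ι → ℕ} {g g' : R[X][X]}

theorem mem_JC : g ∈ JC z m ↔ ∀ j, dv z (fun i => m i - j) ∣ g.coeff j := Iff.rfl

theorem JC_mono (h : g ∈ JC z m) (hm : ∀ i, m' i ≤ m i) : g ∈ JC z m' :=
  fun j => (dv_dvd z fun i => Nat.sub_le_sub_right (hm i) j).trans (h j)

theorem JC_zero (hm : ∀ i, m i = 0) : g ∈ JC z m := fun j => by
  rw [dv_zero z fun i => by rw [hm, Nat.zero_sub]]
  exact one_dvd _

theorem JC_mul (h : g ∈ JC z m) (h' : g' ∈ JC z m') : g * g' ∈ JC z (m + m') := fun j => by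
  rw [coeff_mul]
  refine Finset.dvd_sum fun x hx => Dvd.dvd.trans ?_ (mul_dvd_mul (h x.1) (h' x.2))
  rw [← dv_add]
  refine dv_dvd z fun i => ?_
  have := Finset.HasAntidiagonal.mem_antidiagonal.1 hx
  simp only [Pi.add_apply]
  omega

theorem JC_pow (h : g ∈ JC z m) (n : ℕ) : g ^ n ∈ JC z fun i => n * m i := by
  induction n with
  | zero => exact JC_zero fun i => by simp
  | succ n ih =>
    rw [pow_succ]
    exact JC_mono (JC_mul ih h) fun i => by simp [add_mul]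

theorem JC_one (hm : ∀ i, m i ≤ 1) (h : dv z m ∣ g.coeff 0) : g ∈ JC z m := by
  rintro (_ | j)
  · exact h
  · rw [dv_zero z fun i => by have := hm i; omega]
    exact one_dvd _

theorem JC_pt [DecidableEq ι] (i : ι) (h : X - C (z i) ∣ g.coeff 0) :
    g ∈ JC z (Pi.single i 1) := by
  refine JC_one (fun l => by rw [Pi.single_apply]; split_ifs <;> omega) ?_
  rwa [dv, Finset.prod_eq_single i (fun l _ hl => by simp [hl]) (by simp), Pi.single_eq_same,
    pow_one]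

theorem JC_divX (h : X * g ∈ JC z m) : g ∈ JC z fun i => m i - 1 := fun j => by
  have := h (j + 1)
  rw [coeff_X_mul] at this
  exact (dv_dvd z fun i => (Nat.sub_sub _ _ _).le.trans (by rw [add_comm])).trans this

theorem JC_cancel {c : R[X][X]} (hc : ∀ e p, dv z e ∣ c.coeff 0 * p → dv z e ∣ p)
    (h : c * g ∈ JC z m) : g ∈ JC z m := fun j => by
  induction j using Nat.strong_induction_on with
  | _ j ih =>
  have h1 := h j
  rw [coeff_mul, ← Finset.add_sum_erase _ _ (a := (0, j)) (by simp)] at h1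
  refine hc _ _ ((dvd_add_left (Finset.dvd_sum fun x hx => ?_)).1 h1)
  obtain ⟨h2, h3⟩ := Finset.mem_erase.1 hx
  have h4 := Finset.HasAntidiagonal.mem_antidiagonal.1 h3
  have h5 : x.2 < j := by
    by_contra hn
    exact h2 (Prod.ext (by omega) (by omega))
  exact ((dv_dvd z fun i => by omega).trans (ih x.2 h5)).mul_left _

theorem dvd_cmul [IsDomain R] {a : R} (ha : a ≠ 0) {D p : R[X]} (hD : D.Monic)
    (h : D ∣ C a * p) : D ∣ p := by
  rw [← modByMonic_eq_zero_iff_dvd hD] at h ⊢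
  rw [← smul_eq_C_mul, smul_modByMonic] at h
  exact (smul_eq_zero.1 h).resolve_left ha

theorem JC_cancelC [IsDomain R] {c : R[X][X]} {a : R} (ha : a ≠ 0) (hc : c.coeff 0 = C a)
    (h : c * g ∈ JC z m) : g ∈ JC z m :=
  JC_cancel (fun _ _ h => dvd_cmul ha (dv_monic _ _) (hc ▸ h)) h

/-- substitution -/
theorem JC_sub [DecidableEq ι] (φ : R[X][X] →+* S[X][X]) {w : ι → S}
    (h1 : ∀ i, X - C (w i) ∣ (φ (C (X - C (z i)))).coeff 0) (h2 : (φ X).coeff 0 = 0)
    (h : g ∈ JC z m) : φ g ∈ JC w m := by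
  rw [g.as_sum_range_C_mul_X_pow, map_sum]
  refine Ideal.sum_mem _ fun j _ => ?_
  obtain ⟨e, he⟩ := h j
  have a1 : φ X ^ j ∈ JC w fun _ => j * 1 :=
    JC_pow (JC_one (fun _ => le_rfl) (by rw [h2]; exact dvd_zero _)) j
  have a2 : ∀ s : Finset ι, φ (C (∏ i ∈ s, (X - C (z i)) ^ (m i - j))) ∈
      JC w fun i => if i ∈ s then m i - j else 0 := by
    intro s
    induction s using Finset.induction_on with
    | empty => exact JC_zero fun i => by simp
    | insert a s ha ih =>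
      rw [Finset.prod_insert ha, map_mul, map_mul, map_pow, map_pow]
      refine JC_mono (JC_mul (JC_pow (JC_pt a (h1 a)) _) ih) fun i => ?_
      by_cases e : i = a
      · simp [e]
      · simp [e]
  rw [he, map_mul, map_mul, map_mul, map_pow, mul_right_comm]
  refine Ideal.mul_mem_right _ _ (JC_mono (JC_mul (a2 Finset.univ) a1) fun i => ?_)
  simp only [Pi.add_apply, Finset.mem_univ, if_true]
  omega

theorem JC_map (f : R →+* S) (h : g ∈ JC z m) :
    g.map (mapRingHom f) ∈ JC (fun i => f (z i)) m := fun j => by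
  rw [coeff_map, ← dv_map]
  exact Polynomial.map_dvd f (h j)

theorem JC_pull {f : R →+* S} (hf : Function.Injective f)
    (h : g.map (mapRingHom f) ∈ JC (fun i => f (z i)) m) : g ∈ JC z m := fun j => by
  have := h j
  rw [coeff_map, ← dv_map] at this
  exact (map_dvd_map f hf (dv_monic _ _)).1 this

theorem JC_perm (σ : Equiv.Perm ι) : JC z m = JC (z ∘ σ) (m ∘ σ) := by
  ext g
  refine forall_congr' fun j => ?_
  rw [dv, dv, ← Equiv.prod_comp σ]
  rfl

open End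

/-- expansion along the line x = 0 -/
noncomputable def tF : A2 R →ₐ[R] R[X][X] := MvPolynomial.aeval ![X, C X]

/-- expansion along the graph of q -/
noncomputable def tq (q : R[X]) : A2 R →ₐ[R] R[X][X] := MvPolynomial.aeval ![C X, C q + X]

theorem co_zero {A : Type} [CommRing A] [Algebra R A] (f : Fin 2 → A[X]) (G : A2 R) :
    (MvPolynomial.aeval f G).coeff 0 = MvPolynomial.aeval (fun i => (f i).coeff 0) G := by
  induction G using MvPolynomial.induction_on with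
  | C a => simp
  | add p q hp hq => simp [hp, hq]
  | mul_X p i hp => simp [hp]

theorem tF_zero (G : A2 R) : (tF G).coeff 0 = rF G := by
  rw [tF, co_zero, rF]
  congr 2
  funext i
  fin_cases i <;> simp

theorem tq_zero (q : R[X]) (G : A2 R) : (tq q G).coeff 0 = MvPolynomial.aeval ![X, q] G := by
  rw [tq, co_zero]
  congr 2
  funext i
  fin_cases i <;> simp

/-- back to the plane -/
noncomputable def bk (a b : A2 R) : R[X][X] →+* A2 R :=
  eval₂RingHom (aeval a : R[X] →ₐ[R] A2 R).toRingHom b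

theorem bk_tq (q : R[X]) (G : A2 R) :
    bk (MvPolynomial.X 0) (MvPolynomial.X 1 - aeval (MvPolynomial.X 0) q) (tq q G) = G := by
  induction G using MvPolynomial.induction_on with
  | C a => simp [bk, tq]
  | add p q hp hq => simp [hp, hq]
  | mul_X p i hp =>
    rw [map_mul, map_mul, hp]
    fin_cases i <;> simp [bk, tq]

theorem bk_tF (G : A2 R) : bk (MvPolynomial.X 1) (MvPolynomial.X 0) (tF G) = G := by
  induction G using MvPolynomial.induction_on with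
  | C a => simp [bk, tF]
  | add p q hp hq => simp [hp, hq]
  | mul_X p i hp =>
    rw [map_mul, map_mul, hp]
    fin_cases i <;> simp [bk, tF]

theorem tq_dvd {q : R[X]} {G : A2 R} (h : (tq q G).coeff 0 = 0) :
    MvPolynomial.X 1 - aeval (MvPolynomial.X 0) q ∣ G := by
  have := map_dvd (bk (MvPolynomial.X 0) (MvPolynomial.X 1 - aeval (MvPolynomial.X 0) q))
    (X_dvd_iff.2 h)
  rwa [bk_tq, bk, coe_eval₂RingHom, eval₂_X] at this

theorem JC_aid {q : R[X]} {G : A2 R} (h : tq q G ∈ JC z m) (i : ι) :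
    G ∈ aid (z i) (q.eval (z i)) ^ m i := by
  classical
  rw [← bk_tq q G, (tq q G).as_sum_range_C_mul_X_pow, map_sum]
  refine Ideal.sum_mem _ fun j _ => ?_
  obtain ⟨e, he⟩ := (Finset.dvd_prod_of_mem _ (Finset.mem_univ i)).trans (h j)
  have a1 : MvPolynomial.X 1 - aeval (MvPolynomial.X 0) q ∈ aid (z i) (q.eval (z i)) := by
    obtain ⟨r, hr⟩ := X_sub_C_dvd_sub_C_eval (a := z i) (p := q)
    have := congrArg (aeval (MvPolynomial.X 0 : A2 R)) hr
    simp only [map_sub, map_mul, aeval_X, aeval_C, MvPolynomial.algebraMap_eq] at this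
    have e : MvPolynomial.X 1 - aeval (MvPolynomial.X 0) q = (MvPolynomial.X 1 -
        MvPolynomial.C (q.eval (z i)) : A2 R) - (MvPolynomial.X 0 - MvPolynomial.C (z i)) *
        aeval (MvPolynomial.X 0) r := by linear_combination -this
    rw [e]
    exact sub_mem (aid1 _ _) (Ideal.mul_mem_right _ _ (aid0 _ _))
  have a2 := Ideal.mul_mem_mul (Ideal.pow_mem_pow (aid0 (z i) (q.eval (z i))) (m i - j))
    (Ideal.pow_mem_pow a1 j)
  rw [← pow_add] at a2
  rw [he, map_mul, map_mul, map_mul, mul_right_comm]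
  refine Ideal.mul_mem_right _ _ (Ideal.pow_le_pow_right (by omega) (?_ : _ ∈ _ ^ (m i - j + j)))
  simpa [bk, eval₂_pow, eval₂_sub] using a2

end ring

section field
open End
variable {k ι κ : Type} [Field k] [Fintype ι] [Fintype κ]

theorem JC_cancelF {z : ι → k} {m : ι → ℕ} {c g : k[X][X]} (hc : ∀ i, (c.coeff 0).eval (z i) ≠ 0)
    (h : c * g ∈ JC z m) : g ∈ JC z m :=
  JC_cancel (fun _ _ h => IsCoprime.dvd_of_dvd_mul_left (IsCoprime.prod_left fun i _ =>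
    ((irreducible_X_sub_C (z i)).coprime_iff_not_dvd.2 fun e =>
      hc i (dvd_iff_isRoot.1 e)).pow_left) h) h

theorem mem_Mu' {r : ι → k} {m : ι → ℕ} {p : k[X]} {N : ℕ} (hp : p ∈ degreeLT k N)
    (h : dv r (fun i => m i - 0) ∣ p) : p ∈ Mu (pr r m) (N - ∑ i, m i) := by
  obtain ⟨q, rfl⟩ := h
  exact ⟨q, pr_deg r m ▸ lt_div (pr_ne r m) hp, rfl⟩

/-- curves of degree less than N with clusters on the line and on the parabola -/
noncomputable def PC (Q0 Q1 Q2 : k) (s : ι → k) (z : κ → k) (N : ℕ) (p : ι → ℕ) (m : κ → ℕ) :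
    Submodule k (A2 k) :=
  Dg 1 1 N ⊓ (((JC s p).restrictScalars k).comap tF.toLinearMap ⊓
    ((JC z m).restrictScalars k).comap (tq (qq Q0 Q1 Q2)).toLinearMap)

variable {Q0 Q1 Q2 : k} {s : ι → k} {z : κ → k}

theorem mem_PC {N : ℕ} {p : ι → ℕ} {m : κ → ℕ} {G : A2 k} :
    G ∈ PC Q0 Q1 Q2 s z N p m ↔ G ∈ Dg 1 1 N ∧ tF G ∈ JC s p ∧ tq (qq Q0 Q1 Q2) G ∈ JC z m :=
  Iff.rfl

instance (N : ℕ) (p : ι → ℕ) (m : κ → ℕ) : FiniteDimensional k (PC Q0 Q1 Q2 s z N p m) :=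
  Submodule.finiteDimensional_of_le inf_le_left

theorem PC_divF (hz : ∀ i, z i ≠ 0) {N : ℕ} {p : ι → ℕ} {m : κ → ℕ} {G : A2 k}
    (h : MvPolynomial.X 0 * G ∈ PC Q0 Q1 Q2 s z N p m) :
    G ∈ PC Q0 Q1 Q2 s z (N - 1) (fun a => p a - 1) m := by
  rw [mem_PC, map_mul, map_mul] at h
  refine ⟨Dg.div h.1 (Finsupp.single 0 1) (by simp [MvPolynomial.coeff_X]) (by simp),
    JC_divX (by simpa [tF] using h.2.1), JC_cancelF (fun i => ?_) h.2.2⟩
  simpa [tq] using hz i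

theorem PC_divG (h2 : Q2 ≠ 0) (hs : ∀ a, s a ≠ Q0) {N : ℕ} {p : ι → ℕ} {m : κ → ℕ} {G : A2 k}
    (h : gam Q0 Q1 Q2 * G ∈ PC Q0 Q1 Q2 s z N p m) :
    G ∈ PC Q0 Q1 Q2 s z (N - 2) p (fun i => m i - 1) := by
  have h0 := (mem_PH.1 (PH_divG (ι := Empty) (κ := Empty) (s := Empty.elim) (z := Empty.elim)
    (p := Empty.elim) (m := Empty.elim) h2 (fun a => a.elim)
    (mem_PH.2 ⟨h.1, fun a => a.elim, fun a => a.elim⟩))).1
  rw [mem_PC, map_mul, map_mul] at h
  have e : tq (qq Q0 Q1 Q2) (gam Q0 Q1 Q2) = X := by simp [tq, gam, qq]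
  refine ⟨h0, JC_cancelF (fun a => ?_) h.2.1, JC_divX (e ▸ h.2.2)⟩
  rw [tF_zero]
  simpa [rF, gam, sub_eq_zero] using hs a

theorem peelF (hz : ∀ i, z i ≠ 0) (N : ℕ) (p : ι → ℕ) (m : κ → ℕ) :
    finrank k (PC Q0 Q1 Q2 s z N p m) ≤
      finrank k (PC Q0 Q1 Q2 s z (N - 1) (fun a => p a - 1) m) + (N - ∑ a, p a) := by
  refine le_trans (rk_peel _ _ (Mu (pr s p) (N - ∑ a, p a)) rF.toLinearMap
    (LinearMap.mulLeft k (MvPolynomial.X 0)) (fun G hG => ?_) fun G hG h0 => ?_)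
    (Nat.add_le_add_left (rk_Mu _ _) _)
  · exact mem_Mu' (Dg.aeval hG.1 (by simp) (by simp)) (tF_zero G ▸ hG.2.1 0)
  · obtain ⟨H, rfl⟩ := rF_dvd h0
    exact ⟨H, PC_divF hz hG, rfl⟩

theorem peelG (h2 : Q2 ≠ 0) (hs : ∀ a, s a ≠ Q0) (N : ℕ) (p : ι → ℕ)
    (m : κ → ℕ) : finrank k (PC Q0 Q1 Q2 s z N p m) ≤
      finrank k (PC Q0 Q1 Q2 s z (N - 2) p (fun i => m i - 1)) + (2 * N - 1 - ∑ i, m i) := by
  refine le_trans (rk_peel _ _ (Mu (pr z m) (2 * N - 1 - ∑ i, m i)) (rG Q0 Q1 Q2).toLinearMap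
    (LinearMap.mulLeft k (gam Q0 Q1 Q2)) (fun G hG => ?_) fun G hG h0 => ?_)
    (Nat.add_le_add_left (rk_Mu _ _) _)
  · have h1 : G ∈ Dg 1 2 (2 * N - 1) := fun μ hμ => by
      have := hG.1 μ hμ
      omega
    exact mem_Mu' (Dg.aeval h1 (by simp) (qq_deg _ _ _)) (tq_zero _ G ▸ hG.2.2 0)
  · obtain ⟨H, rfl⟩ := rG_dvd h0
    exact ⟨H, PC_divG h2 hs hG, rfl⟩

theorem PC_zero {N : ℕ} {p : ι → ℕ} {m : κ → ℕ} (i : κ) (h : N ≤ m i) :
    finrank k (PC Q0 Q1 Q2 s z N p m) = 0 := by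
  rw [Submodule.finrank_eq_zero, eq_bot_iff]
  exact fun G hG => Dg_aid hG.1 (JC_aid hG.2.2 i) h

theorem PC_num {s : Fin 3 → k} {z : Fin 5 → k} (h2 : Q2 ≠ 0) (hs0 : ∀ a, s a ≠ Q0)
    (hz0 : ∀ i, z i ≠ 0) {N : ℕ} {p : Fin 3 → ℕ} {m : Fin 5 → ℕ} (hP : Pl N p m) :
    2 * finrank k (PC Q0 Q1 Q2 s z N p m) + (TT (p 0) + TT (p 1) + TT (p 2)) +
      (TT (m 0) + TT (m 1) + TT (m 2) + TT (m 3) + TT (m 4)) ≤ TT N :=
  num (fun N p m => finrank k (PC Q0 Q1 Q2 s z N p m)) (fun _ _ _ h => PC_zero 4 h)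
    (peelF hz0) (peelG h2 hs0) N p m hP

theorem PC_perm (σ : Equiv.Perm κ) (N : ℕ) (p : ι → ℕ) (m : κ → ℕ) :
    PC Q0 Q1 Q2 s z N p m = PC Q0 Q1 Q2 s (z ∘ σ) N p (m ∘ σ) := by
  rw [PC, PC, JC_perm σ]

/-- the limit system: the restriction to the line is invariant under the involution -/
noncomputable def LC (Q0 Q1 Q2 : k) (s : ι → k) (z : κ → k) (u : k[X]) (N φ : ℕ)
    (p : ι → ℕ) (m : κ → ℕ) : Submodule k (A2 k) :=
  PC Q0 Q1 Q2 s z N p m ⊓ (Dg 0 1 (N - φ) ⊓ (LinearMap.range (cu (pr s p) u)).comap rF.toLinearMap)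

theorem mem_LC {u : k[X]} {N φ : ℕ} {p : ι → ℕ} {m : κ → ℕ} {G : A2 k} :
    G ∈ LC Q0 Q1 Q2 s z u N φ p m ↔ G ∈ PC Q0 Q1 Q2 s z N p m ∧ G ∈ Dg 0 1 (N - φ) ∧
      ∃ P : k[X], pr s p * P.comp u = rF G := by
  simp [LC, cu_apply]

instance (u : k[X]) (N φ : ℕ) (p : ι → ℕ) (m : κ → ℕ) :
    FiniteDimensional k (LC Q0 Q1 Q2 s z u N φ p m) :=
  Submodule.finiteDimensional_of_le inf_le_left

/-- first the line -/
theorem LC_one (hz : ∀ i, z i ≠ 0) {u : k[X]} (hu : u.natDegree = 2) (N φ c : ℕ)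
    (p : ι → ℕ) (m : κ → ℕ) (hc : N - φ - ∑ a, p a ≤ 2 * c) :
    finrank k (LC Q0 Q1 Q2 s z u N φ p m) ≤
      finrank k (PC Q0 Q1 Q2 s z (N - 1) (fun a => p a - 1) m) + c := by
  refine le_trans (rk_peel _ _ ((degreeLT k c).map (cu (pr s p) u)) rF.toLinearMap
    (LinearMap.mulLeft k (MvPolynomial.X 0)) (fun G hG => ?_) fun G hG h0 => ?_)
    (Nat.add_le_add_left ((Submodule.finrank_map_le _ _).trans (rk_lt c).le) _)
  · obtain ⟨-, h1, P, h2⟩ := mem_LC.1 hG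
    have h3 : rF G ∈ degreeLT k (N - φ) := Dg.aeval h1 (by simp) (by simp)
    rw [← h2] at h3
    exact ⟨P, comp_lt hu (lt_div (pr_ne s p) h3) (pr_deg s p ▸ hc), (cu_apply _ _ _).trans h2⟩
  · obtain ⟨H, rfl⟩ := rF_dvd h0
    exact ⟨H, PC_divF hz (mem_LC.1 hG).1, rfl⟩

/-- first the parabola -/
theorem LC_two (h2 : Q2 ≠ 0) (hs : ∀ a, s a ≠ Q0) (hz0 : ∀ i, z i ≠ 0) {u : k[X]}
    (hu : u.natDegree = 2) (N φ c : ℕ) (hφ : φ ≤ 1) (p : ι → ℕ) (m : κ → ℕ)
    (hc : N - 1 - ∑ a, p a ≤ 2 * c) :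
    finrank k (LC Q0 Q1 Q2 s z u N φ p m) ≤
      finrank k (PC Q0 Q1 Q2 s z (N - 3) (fun a => p a - 1) fun i => m i - 1) + (c - 1) +
        (2 * N - 1 - φ - ∑ i, m i) := by
  let V : Submodule k (A2 k) := LC Q0 Q1 Q2 s z u N φ p m ⊓ LinearMap.ker (rG Q0 Q1 Q2).toLinearMap
  have : FiniteDimensional k V := Submodule.finiteDimensional_of_le inf_le_left
  refine le_trans (rk_peel _ V (Mu (pr z m) (2 * N - 1 - φ - ∑ i, m i)) (rG Q0 Q1 Q2).toLinearMap
    LinearMap.id (fun G hG => ?_) fun G hG h0 => ⟨G, ⟨hG, h0⟩, rfl⟩) (add_le_add ?_ (rk_Mu _ _))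
  · obtain ⟨h1, h3, -⟩ := mem_LC.1 hG
    have h4 : G ∈ Dg 1 2 (2 * N - 1 - φ) := fun μ hμ => by
      have a := h1.1 μ hμ
      have b := h3 μ hμ
      omega
    exact mem_Mu' (Dg.aeval h4 (by simp) (qq_deg _ _ _)) (tq_zero _ G ▸ h1.2.2 0)
  refine le_trans (rk_peel _ _ ((Mu (X - C (u.eval Q0)) (c - 1)).map
    (cu (pr s p) u)) rF.toLinearMap (LinearMap.mulLeft k (gam Q0 Q1 Q2 * MvPolynomial.X 0))
    (fun G hG => ?_) fun G hG h0 => ?_)
    (Nat.add_le_add_left ((Submodule.finrank_map_le _ _).trans (rk_Mu _ _)) _)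
  · obtain ⟨h1, -, P, h3⟩ := mem_LC.1 hG.1
    obtain ⟨H, rfl⟩ := rG_dvd hG.2
    have h4 : rF H ∈ degreeLT k (N - 2) := Dg.aeval (PC_divG h2 hs h1).1 (by simp) (by simp)
    have h5 : rF (gam Q0 Q1 Q2 * H) = (X - C Q0) * rF H := by simp [rF, gam]
    have h6 : pr s p * P.comp u ∈ degreeLT k (N - 1) := by
      rw [h3, h5]
      by_cases h0 : rF H = 0
      · rw [h0, mul_zero]; exact zero_mem _
      rw [mem_degreeLT, ← natDegree_lt_iff_degree_lt h0] at h4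
      rw [mem_degreeLT, ← natDegree_lt_iff_degree_lt (mul_ne_zero (X_sub_C_ne_zero _) h0),
        natDegree_mul (X_sub_C_ne_zero _) h0, natDegree_X_sub_C]
      omega
    have h7 := comp_lt hu (lt_div (pr_ne s p) h6) (pr_deg s p ▸ hc)
    have h8 : P.IsRoot (u.eval Q0) := by
      have e := congrArg (eval Q0) (h3.trans h5)
      rw [eval_mul, eval_comp, eval_mul, eval_sub, eval_X, eval_C, sub_self, zero_mul] at e
      refine (mul_eq_zero.1 e).resolve_left ?_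
      rw [pr, eval_prod]
      exact Finset.prod_ne_zero_iff.2 fun a _ => by
        simpa using fun e => absurd (sub_eq_zero.1 e).symm (hs a)
    obtain ⟨R, rfl⟩ := dvd_iff_isRoot.2 h8
    have h9 := lt_div (X_sub_C_ne_zero _) h7
    rw [natDegree_X_sub_C] at h9
    exact ⟨_, ⟨R, h9, rfl⟩, (cu_apply _ _ _).trans h3⟩
  · obtain ⟨H, rfl⟩ := rG_dvd hG.2
    have h5 : rF (gam Q0 Q1 Q2 * H) = (X - C Q0) * rF H := by simp [rF, gam]
    obtain ⟨R, rfl⟩ := rF_dvd ((mul_eq_zero.1 (h5.symm.trans h0)).resolve_left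
      (X_sub_C_ne_zero _))
    exact ⟨R, PC_divF hz0 (PC_divG h2 hs (mem_LC.1 hG.1).1), mul_assoc _ _ _⟩

end field

end Pool.Agent.Lib.MP_d03834_ag.Core.CE
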