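import Pool.Agent.Lib.MP_d03834_ag.Core.CEndA
import Pool.Agent.Lib.MP_d03834_ag.Core.BiEndD

/-! Two clusters on two parallel lines: the leading form. -/

set_option autoImplicit false

namespace Pool.Agent.Lib.MP_d03834_ag.Core.CE

open Polynomial Module End

section ring
variable {R S ι : Type} [CommRing R] [CommRing S] [Fintype ι]

theorem JC_ideal (φ : R[X][X] →+* S) {I : Ideal S} {z : ι → R} {m : ι → ℕ} {g : R[X][X]} (i : ι)
    (h1 : φ (C (X - C (z i))) ∈ I) (h2 : φ X ∈ I) (h : g ∈ JC z m) : φ g ∈ I ^ m i := by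
  classical
  rw [g.as_sum_range_C_mul_X_pow, map_sum]
  refine Ideal.sum_mem _ fun j _ => ?_
  obtain ⟨e, he⟩ := (Finset.dvd_prod_of_mem _ (Finset.mem_univ i)).trans (h j)
  have a2 := Ideal.mul_mem_mul (Ideal.pow_mem_pow h1 (m i - j)) (Ideal.pow_mem_pow h2 j)
  rw [← pow_add] at a2
  rw [he, map_mul, map_mul, map_mul, mul_right_comm, map_pow, map_pow, map_pow]
  exact Ideal.mul_mem_right _ _ (Ideal.pow_le_pow_right (by omega) a2)

/-- expansion along the line X 0 = c -/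
noncomputable def tL (c : R) : A2 R →ₐ[R] R[X][X] := MvPolynomial.aeval ![C (C c) + X, C X]

theorem tL_zero (c : R) (G : A2 R) : (tL c G).coeff 0 = MvPolynomial.aeval ![C c, X] G := by
  rw [tL, co_zero]
  congr 2
  funext i
  fin_cases i <;> simp

theorem tL_dvd {c : R} {G : A2 R} (h : (tL c G).coeff 0 = 0) :
    MvPolynomial.X 0 - MvPolynomial.C c ∣ G := by
  have e : ∀ G : A2 R, bk (MvPolynomial.X 1) (MvPolynomial.X 0 - MvPolynomial.C c) (tL c G) = G :=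
    fun G => by
      induction G using MvPolynomial.induction_on with
      | C a => simp [bk, tL]
      | add p q hp hq => simp [hp, hq]
      | mul_X p i hp =>
        rw [map_mul, map_mul, hp]
        fin_cases i <;> simp [bk, tL]
  have := map_dvd (bk (MvPolynomial.X 1) (MvPolynomial.X 0 - MvPolynomial.C c)) (X_dvd_iff.2 h)
  rwa [e, bk, coe_eval₂RingHom, eval₂_X] at this

end ring

variable {k : Type} [Field k]

theorem line_div {c : k} {r : Fin 2 → k} {N : ℕ} {m : Fin 2 → ℕ} {G : A2 k} (h : G ∈ Dg 1 1 N)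
    (h0 : tL c G ∈ JC r m) (hN : N ≤ m 0 + m 1) : MvPolynomial.X 0 - MvPolynomial.C c ∣ G := by
  obtain ⟨q, hq, e⟩ := mem_Mu' (tL_zero c G ▸ Dg.aeval h (f := C c) (g := X) (by simp) (by simp))
    (h0 0)
  rw [Fin.sum_univ_two, Nat.sub_eq_zero_of_le hN] at hq
  have hq0 : q = 0 := by simpa [mem_degreeLT] using hq
  rw [hq0, map_zero] at e
  exact tL_dvd e.symm

variable {α β : Fin 2 → k}

theorem div_a {N : ℕ} {H : A2 k} (h : MvPolynomial.X 0 * H ∈ Dg 1 1 N) : H ∈ Dg 1 1 (N - 1) :=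
  Dg.div h (e := 1) (Finsupp.single 0 1) (by simp [MvPolynomial.coeff_X]) (by simp)

theorem div_b {a : Fin 2 → ℕ} {H : A2 k} (h : tL 0 (MvPolynomial.X 0 * H) ∈ JC α a) :
    tL 0 H ∈ JC α fun i => a i - 1 := JC_divX (by simpa [tL] using h)

theorem one_pt {N : ℕ} {a : Fin 2 → ℕ} {H : A2 k} (h : H ∈ Dg 1 1 N) (h0 : tL 0 H ∈ JC α a)
    (ha : N ≤ a 1) : H = 0 := by
  induction N generalizing H a with
  | zero => exact Dg.zero h
  | succ N ih =>
    obtain ⟨H, rfl⟩ : MvPolynomial.X 0 ∣ H := by simpa using line_div h h0 (by omega)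
    rw [ih (div_a h) (div_b h0) (by omega), mul_zero]

/-- division by the two lines -/
theorem two_div {N : ℕ} {a b : Fin 2 → ℕ} {H : A2 k} (h : MvPolynomial.X 0 * H ∈ Dg 1 1 N)
    (h0 : tL 0 (MvPolynomial.X 0 * H) ∈ JC α a) (h1 : tL 1 (MvPolynomial.X 0 * H) ∈ JC β b)
    (hN : N - 1 ≤ b 0 + b 1) : ∃ R, H = (MvPolynomial.X 0 - MvPolynomial.C 1) * R ∧
      R ∈ Dg 1 1 (N - 2) ∧ (tL 0 R ∈ JC α fun i => a i - 1) ∧ tL 1 R ∈ JC β fun i => b i - 1 := by
  have g := div_a h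
  have g0 := div_b h0
  rw [map_mul] at h1
  have g1 := JC_cancelF (fun i => by simp [tL]) h1
  obtain ⟨R, rfl⟩ := line_div g g1 hN
  have e : (0 : Fin 2 →₀ ℕ) ≠ Finsupp.single 0 1 := fun e => by
    simpa using DFunLike.congr_fun e 0
  have f := Dg.div g (e := 1) (Finsupp.single 0 1)
    (by simp [MvPolynomial.coeff_X, MvPolynomial.coeff_one, e]) (by simp)
  rw [map_mul] at g0 g1
  exact ⟨R, rfl, f, JC_cancelF (fun i => by simp [tL]) g0, JC_divX (by simpa [tL] using g1)⟩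

theorem tz0 {N : ℕ} {a b : Fin 2 → ℕ} {H : A2 k} (h : H ∈ Dg 1 1 N) (h0 : tL 0 H ∈ JC α a)
    (h1 : tL 1 H ∈ JC β b) (ha : N ≤ a 0 + a 1) (hb : N ≤ b 0 + b 1) : H = 0 := by
  induction N using Nat.strong_induction_on generalizing H a b with
  | _ N ih =>
  rcases Nat.eq_zero_or_pos N with rfl | hN
  · exact Dg.zero h
  obtain ⟨H, rfl⟩ : MvPolynomial.X 0 ∣ H := by simpa using line_div h h0 ha
  obtain ⟨R, rfl, g, g0, g1⟩ := two_div h h0 h1 (by omega)
  rw [ih (N - 2) (by omega) g g0 g1 (by omega) (by omega), mul_zero, mul_zero]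

theorem ln_A (i : Fin 2) (s : k) : tL 0 (ln (α i) s) ∈ JC α (Pi.single i 1) :=
  JC_pt i (by rw [tL_zero]; simp [ln])

theorem ln_B (i : Fin 2) (a : k) : tL 1 (ln a (β i - a)) ∈ JC β (Pi.single i 1) :=
  JC_pt i (by rw [tL_zero]; simp [ln])

/-- the leading form of a curve of the least possible degree -/
theorem tz (μ0 μ1 c : ℕ) {H : A2 k} (h : Top ![1, 1] (μ0 + μ1 + 2 * c) H)
    (h0 : tL 0 H ∈ JC α ![c, μ0 + μ1 + c]) (h1 : tL 1 H ∈ JC β ![μ0 + c, μ1 + c]) : ∃ P : k[X],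
      (Gm ![1, 1] ![1, X] H).coeff (μ0 + μ1 + 2 * c) =
        (X - C (β 0 - α 1)) ^ μ0 * (X - C (β 1 - α 1)) ^ μ1 *
          P.comp ((X - C (β 0 - α 1)) * (X - C (β 1 - α 0))) := by
  induction c using Nat.strong_induction_on generalizing H with
  | _ c ih =>
  obtain ⟨q, hq, e⟩ := mem_Mu' (tL_zero 0 H ▸ Dg.aeval (Dg_top.2 h) (f := C 0) (g := X) (by simp)
    (by simp)) (h0 0)
  rw [Fin.sum_univ_two, show μ0 + μ1 + 2 * c + 1 - _ = 1 by simp; omega] at hq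
  obtain ⟨l, rfl⟩ : ∃ l, q = C l :=
    ⟨_, eq_C_of_degree_le_zero (by
      simpa [mem_degreeLT, ← Nat.WithBot.lt_one_iff_le_zero] using hq)⟩
  set R : A2 k := ln (α 1) (β 0 - α 1) ^ (μ0 + c) * ln (α 1) (β 1 - α 1) ^ μ1 *
    ln (α 0) (β 1 - α 0) ^ c with hR
  have t1 := fun (a s : k) (n : ℕ) => top_pow (ln_top a s) n
  have r : Top ![1, 1] (μ0 + μ1 + 2 * c) (MvPolynomial.C l * R) :=
    top_mono (top_mul (top_C _ _) (top_mul (top_mul (t1 _ _ _) (t1 _ _ _)) (t1 _ _ _))) (by omega)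
  have r0 : tL 0 (MvPolynomial.C l * R) ∈ JC α ![c, μ0 + μ1 + c] := by
    rw [hR, map_mul, map_mul, map_mul, map_pow, map_pow, map_pow]
    refine Ideal.mul_mem_left _ _ (JC_mono (JC_mul (JC_mul (JC_pow (ln_A 1 _) _)
      (JC_pow (ln_A 1 _) _)) (JC_pow (ln_A 0 _) _)) fun i => ?_)
    fin_cases i <;> simp
    omega
  have r1 : tL 1 (MvPolynomial.C l * R) ∈ JC β ![μ0 + c, μ1 + c] := by
    rw [hR, map_mul, map_mul, map_mul, map_pow, map_pow, map_pow]
    refine Ideal.mul_mem_left _ _ (JC_mono (JC_mul (JC_mul (JC_pow (ln_B 0 _) _)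
      (JC_pow (ln_B 1 _) _)) (JC_pow (ln_B 1 _) _)) fun i => ?_)
    fin_cases i <;> simp
  have rG : (Gm ![1, 1] ![1, X] (MvPolynomial.C l * R)).coeff (μ0 + μ1 + 2 * c) =
      C l * ((X - C (β 0 - α 1)) ^ (μ0 + c) * (X - C (β 1 - α 1)) ^ μ1 *
        (X - C (β 1 - α 0)) ^ c) := by
    rw [Gm_smul _ _ (l := l) (H := R) fun μ _ => MvPolynomial.coeff_C_mul _ _ _, hR, map_mul,
      show μ0 + μ1 + 2 * c = (μ0 + c) * 1 + μ1 * 1 + c * 1 by ring,
      coeff_mul_add_eq_of_natDegree_le (Gm_deg _ (top_mul (t1 _ _ _) (t1 _ _ _)))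
        (Gm_deg _ (t1 _ _ _)), map_mul,
      coeff_mul_add_eq_of_natDegree_le (Gm_deg _ (t1 _ _ _)) (Gm_deg _ (t1 _ _ _)),
      map_pow, map_pow, map_pow, coeff_pow_of_natDegree_le (Gm_deg _ (ln_top _ _)),
      coeff_pow_of_natDegree_le (Gm_deg _ (ln_top _ _)),
      coeff_pow_of_natDegree_le (Gm_deg _ (ln_top _ _)), ln_Gm, ln_Gm, ln_Gm]
  have hd : (tL 0 (H - MvPolynomial.C l * R)).coeff 0 = 0 := by
    rw [map_sub, coeff_sub, ← e, tL_zero, hR]
    simp [pr, ln]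
    ring
  obtain ⟨H1, e1⟩ : MvPolynomial.X 0 ∣ H - MvPolynomial.C l * R := by simpa using tL_dvd hd
  have s0 := sub_mem h0 r0
  have s1 := sub_mem h1 r1
  rw [← map_sub, e1] at s0 s1
  obtain ⟨H2, rfl, g, g0, g1⟩ := two_div (e1 ▸ Dg_top.2 (top_sub h r)) s0 s1 (by simp; omega)
  rw [sub_eq_iff_eq_add.1 e1, map_add, coeff_add, rG]
  rcases c with _ | c
  · refine ⟨C l, ?_⟩
    rw [one_pt g g0 (by simp)]
    simp [mul_comm]
  · have g' : Top ![1, 1] (μ0 + μ1 + 2 * c) H2 := Dg_top.1 g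
    obtain ⟨P, hP⟩ := ih c (by omega) g' (JC_mono g0 fun i => by fin_cases i <;> simp)
      (JC_mono g1 fun i => by fin_cases i <;> simp)
    refine ⟨P + C l * X ^ (c + 1), ?_⟩
    have t2 : Top ![1, 1] 2 (MvPolynomial.X 0 * (MvPolynomial.X 0 - MvPolynomial.C 1) : A2 k) :=
      top_mul (top_X _ 0) (top_sub (top_X _ 0) (top_mono (top_C _ _) zero_le_one))
    have t3 : (Gm ![1, 1] ![1, X]
        (MvPolynomial.X 0 * (MvPolynomial.X 0 - MvPolynomial.C 1) : A2 k)).coeff 2 = 1 := by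
      simp [Gm, mul_sub, monomial_mul_monomial, coeff_monomial]
    rw [← mul_assoc, map_mul, show μ0 + μ1 + 2 * (c + 1) = 2 + (μ0 + μ1 + 2 * c) by ring,
      coeff_mul_add_eq_of_natDegree_le (Gm_deg _ t2) (Gm_deg _ g'), hP, t3]
    simp only [add_comp, mul_comp, C_comp, pow_comp, X_comp, mul_pow]
    ring

end Pool.Agent.Lib.MP_d03834_ag.Core.CE
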