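import Pool.Agent.Lib.MP_d03834_ag.Core.CEndB

/-! The limit of the sections when the two clusters on the two fibres come together. -/

set_option autoImplicit false

namespace Pool.Agent.Lib.MP_d03834_ag.Core.CE

open Polynomial Module End

section ring
variable {R S : Type} [CommRing R] [CommRing S]

/-- expansion along the line y = t -/
noncomputable def nA (t : R) : Cx R →ₐ[R] R[X][X] := MvPolynomial.aeval ![C X, 1, C (C t) + X, 1]

/-- expansion along a graph -/
noncomputable def nG (q0 q1 : R[X]) : Cx R →ₐ[R] R[X][X] :=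
  MvPolynomial.aeval ![C X, 1, C q0, C q1 + X]

theorem mp_aeval (f : R →+* S) (v : Fin 4 → R[X][X]) (w : Fin 4 → S[X][X])
    (h : ∀ i, (v i).map (mapRingHom f) = w i) (G : Cx R) :
    (MvPolynomial.aeval v G).map (mapRingHom f) = MvPolynomial.aeval w (MvPolynomial.map f G) := by
  induction G using MvPolynomial.induction_on with
  | C a => simp
  | add p q hp hq => simp only [map_add, Polynomial.map_add, hp, hq]
  | mul_X p i hp =>
    simp only [map_mul, Polynomial.map_mul, hp, MvPolynomial.aeval_X, MvPolynomial.map_X, h]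

theorem nA_map (f : R →+* S) (t : R) (G : Cx R) :
    (nA t G).map (mapRingHom f) = nA (f t) (MvPolynomial.map f G) :=
  mp_aeval f _ _ (fun i => by fin_cases i <;> simp) G

theorem nG_map (f : R →+* S) (q0 q1 : R[X]) (G : Cx R) :
    (nG q0 q1 G).map (mapRingHom f) = nG (q0.map f) (q1.map f) (MvPolynomial.map f G) :=
  mp_aeval f _ _ (fun i => by fin_cases i <;> simp) G

theorem nA_eq (t : R) (G : Cx R) : tL t (dl G) = nA t G := by
  have : (tL t).comp dl = nA t := by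
    refine MvPolynomial.algHom_ext fun i => ?_
    fin_cases i <;> simp [tL, dl, nA]
  exact DFunLike.congr_fun this G

theorem nG_eq (q : R[X]) (G : Cx R) : tq q (th G) = nG X q G := by
  have : (tq q).comp th = nG X q := by
    refine MvPolynomial.algHom_ext fun i => ?_
    fin_cases i <;> simp [tq, th, nG]
  exact DFunLike.congr_fun this G

theorem sb_aeval {σ : Type} (a b : R[X][X]) (v w : σ → R[X][X])
    (h : ∀ i, aevalAeval a b (v i) = w i) (G : MvPolynomial σ R) :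
    aevalAeval a b (MvPolynomial.aeval v G) = MvPolynomial.aeval w G := by
  have : (aevalAeval a b).comp (MvPolynomial.aeval v) = MvPolynomial.aeval w :=
    MvPolynomial.algHom_ext fun i => by simp only [AlgHom.comp_apply, MvPolynomial.aeval_X, h]
  exact DFunLike.congr_fun this G

theorem sb_comp (b g : R[X][X]) : aevalAeval (C X : R[X][X]) b g = g.comp b := by
  induction g using Polynomial.induction_on' with
  | add p q hp hq => rw [map_add, hp, hq, add_comp]
  | monomial n a =>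
    rw [← C_mul_X_pow_eq_monomial, map_mul, map_pow, aevalAeval_C, aevalAeval_Y, mul_comp, C_comp,
      pow_comp, X_comp, ← algebraMap_eq, aeval_algebraMap_apply, aeval_X_left_apply, algebraMap_eq]

end ring

variable {O k : Type} [CommRing O] [IsDomain O] [Field k]

/-- rescaling of a cluster -/
theorem scl_JC {t l y : O} (hl : l ≠ 0) {x : Fin 2 → O} {r : Fin 2 → ℕ} {G H : Cx O}
    (e : scl ![1, 0, 1, 0] t G = MvPolynomial.C l * H)
    (h : nA (t * y) G ∈ JC (fun s => t * x s) r) : nA y H ∈ JC x r := by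
  have h1 := JC_sub (aevalAeval (C (C t * X) : O[X][X]) (C (C t) * X)).toRingHom (w := x)
    (fun i => ⟨C t, by simp; ring⟩) (by simp) h
  have h2 : aevalAeval (C (C t * X) : O[X][X]) (C (C t) * X) (nA (t * y) G) =
      nA y (scl ![1, 0, 1, 0] t G) := by
    have : nA y (scl ![1, 0, 1, 0] t G) = MvPolynomial.aeval
        ![C (C t * X), 1, C (C (t * y)) + C (C t) * X, 1] G := by
      refine DFunLike.congr_fun (f := (nA y).comp (scl ![1, 0, 1, 0] t))
        (MvPolynomial.algHom_ext fun i => ?_) G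
      fin_cases i <;> simp [nA, scl]
      ring
    rw [this]
    exact sb_aeval _ _ _ _ (fun i => by fin_cases i <;> simp) G
  rw [AlgHom.toRingHom_eq_coe, RingHom.coe_coe, h2, e, map_mul] at h1
  exact JC_cancelC hl (by simp [nA]) h1

/-- the infinitely near cluster in the limit -/
theorem near (π : O →+* k) {t : O} (t0 : t ≠ 0) (ht : π t = 0) {α β : Fin 2 → O}
    {a b : Fin 2 → ℕ} {G : Cx O} (ha : nA 0 G ∈ JC (fun s => t * α s) a)
    (hb : nA t G ∈ JC (fun s => t * β s) b) (j : ℕ) :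
    dv (fun s => π (β s) - π (α 1)) (fun s => b s - j) ∣
      (Gm ![1, 0, 1, 0] ![X, 1, 1, 1] (MvPolynomial.map π G)).coeff (j + a 1) := by
  let Ψ : O[X][X] := MvPolynomial.aeval ![C (C (t * α 1)) + X * C X, 1, X, 1] G
  have h1 : Ψ ∈ Ideal.span {X} ^ a 1 := by
    have := JC_ideal (aevalAeval (C (C (t * α 1)) + X * C X : O[X][X]) X).toRingHom
      (I := Ideal.span {X}) 1 (Ideal.mem_span_singleton.2 ⟨C X, by simp⟩)
      (Ideal.mem_span_singleton.2 ⟨1, by simp⟩) ha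
    rwa [AlgHom.toRingHom_eq_coe, RingHom.coe_coe, nA,
      sb_aeval _ _ _ ![C (C (t * α 1)) + X * C X, 1, X, 1] fun i => by fin_cases i <;> simp] at this
  rw [Ideal.span_singleton_pow, Ideal.mem_span_singleton] at h1
  obtain ⟨g, hg⟩ := h1
  have h2 := JC_sub (aevalAeval (C (C (t * α 1)) + (C (C t) + X) * C X : O[X][X]) X).toRingHom
    (w := fun s => β s - α 1) (fun i => ⟨C t, by simp; ring⟩) (by simp) hb
  have h3 : aevalAeval (C (C (t * α 1)) + (C (C t) + X) * C X : O[X][X]) X (nA t G) =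
      Ψ.comp (C (C t) + X) := by
    rw [← sb_comp, nA, sb_aeval _ _ _ ![C (C (t * α 1)) + (C (C t) + X) * C X, 1, C (C t) + X, 1]
      fun i => by fin_cases i <;> simp]
    refine (sb_aeval _ _ _ _ (fun i => ?_) G).symm
    fin_cases i <;> simp
    exact mul_comm _ _
  rw [AlgHom.toRingHom_eq_coe, RingHom.coe_coe, h3, hg, mul_comp, pow_comp, X_comp] at h2
  have h4 := JC_map π (JC_cancelC (pow_ne_zero (a 1) t0) (by
    rw [coeff_zero_eq_eval_zero]; simp) h2)
  have h5 : Ψ.map (mapRingHom π) = Gm ![1, 0, 1, 0] ![X, 1, 1, 1] (MvPolynomial.map π G) :=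
    mp_aeval π _ _ (fun i => by
      fin_cases i <;> simp [ht, ← C_mul_X_pow_eq_monomial]) G
  rw [map_comp] at h4
  simp only [Polynomial.map_add, map_C, coe_mapRingHom, ht, map_zero, map_X, zero_add, comp_X,
    map_sub] at h4
  rw [← h5, hg, Polynomial.map_mul, Polynomial.map_pow, map_X, coeff_X_pow_mul]
  exact h4 j

/-- the limit of a section lies in the limit system -/
theorem lim_LC [ValuationRing O] {κ : Type} [Fintype κ] (π : O →+* k)
    (hπ : ∀ x, π x ≠ 0 → IsUnit x) {t : O} (t0 : t ≠ 0) (ht : π t = 0) {α β : Fin 2 → O}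
    {z : κ → O} {q0 q1 : O[X]} {Q0 Q1 Q2 : k} (e0 : q0.map π = X) (e1 : q1.map π = qq Q0 Q1 Q2)
    (z0 : ∀ i, π (z i) ≠ 0) (φ c p μ0 μ1 : ℕ) (p0 : μ0 ≤ p) (p1 : μ1 ≤ p) (m : κ → ℕ) {G : Cx O}
    (hB : Bih (μ0 + μ1 + 2 * c + φ : ℕ) (μ0 + μ1 + 2 * c + p : ℕ) G)
    (he : nG q0 q1 G ∈ JC z m) (ha : nA 0 G ∈ JC (fun s => t * α s) ![c, μ0 + μ1 + c])
    (hb : nA t G ∈ JC (fun s => t * β s) ![μ0 + c, μ1 + c]) :
    ∃ H ∈ LC Q0 Q1 Q2 ![0, π (β 0) - π (α 1), π (β 1) - π (α 1)] (fun i => π (z i))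
      ((X - C (π (β 0) - π (α 1))) * (X - C (π (β 1) - π (α 0))))
      (μ0 + μ1 + 2 * c + p + φ + 1) φ ![p, μ0, μ1] m,
      MvPolynomial.X 0 ^ (μ0 + μ1 + 2 * c) * H = th (MvPolynomial.map π G) := by
  by_cases hG : G = 0
  · exact ⟨0, zero_mem _, by simp [hG]⟩
  obtain ⟨n, l, H, lam, hl, e, ⟨ν, -, hν⟩, top, low, prop⟩ := lim_blow π hπ t0 ht ![1, 0, 1, 0] hG
  have c0 := JC_map π (scl_JC (y := 0) (x := α) (r := ![c, μ0 + μ1 + c]) hl e (by rwa [mul_zero]))
  have c1 := JC_map π (scl_JC (y := 1) (x := β) (r := ![μ0 + c, μ1 + c]) hl e (by rwa [mul_one]))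
  rw [nA_map, ← nA_eq] at c0 c1
  rw [map_zero] at c0
  rw [map_one] at c1
  have tp : Top ![1, 1] n (dl (MvPolynomial.map π H)) := top_aeval top _ fun i => by
    fin_cases i
    exacts [top_X _ 1, top_C _ 1, top_X _ 0, top_C _ 1]
  have hH : Bih _ _ (MvPolynomial.map π H) := (Bih.of_cmul hl (e ▸ hB.scl _ t)).map π
  have hn : μ0 + μ1 + 2 * c ≤ n := by
    by_contra hlt
    rw [dl_inj hH (tz0 (Dg_top.2 tp) c0 c1 (by simp; omega) (by simp; omega))] at hν
    exact hν (MvPolynomial.coeff_zero _)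
  have F0 := hB.map π
  have f0 := near π t0 ht ha hb
  have fe := JC_map π he
  rw [nG_map, e0, e1, ← nG_eq] at fe
  have hP : ∃ P : k[X], (Gm ![1, 0, 1, 0] ![X, 1, 1, 1] (MvPolynomial.map π G)).coeff
      (μ0 + μ1 + 2 * c) = (X - C (π (β 0) - π (α 1))) ^ μ0 * (X - C (π (β 1) - π (α 1))) ^ μ1 *
        P.comp ((X - C (π (β 0) - π (α 1))) * (X - C (π (β 1) - π (α 0)))) := by
    rcases hn.eq_or_lt with rfl | hlt
    · obtain ⟨P, hP⟩ := tz μ0 μ1 c tp c0 c1
      have e1 : Gm ![1, 0, 1, 0] ![X, 1, 1, 1] = (Gm ![1, 1] ![1, X]).comp (dl (R := k)) := by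
        refine MvPolynomial.algHom_ext fun i => ?_
        fin_cases i <;> simp [Gm, dl]
      refine ⟨C lam * P, ?_⟩
      rw [Gm_smul _ _ prop, e1, AlgHom.comp_apply, hP, mul_comp, C_comp]
      ring
    · refine ⟨0, ?_⟩
      rw [Gm_smul _ _ (l := 0) (H := 0) fun μ hμ => by
        by_contra h0
        have := low μ (by simpa using h0)
        omega]
      simp
  generalize MvPolynomial.map π G = F at *
  have lw : ∀ {w : Fin 4 → ℕ} {r : ℕ}, (∀ μ : Fin 4 →₀ ℕ, μ 0 + μ 1 = μ0 + μ1 + 2 * c + φ →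
      μ 2 + μ 3 = μ0 + μ1 + 2 * c + p →
      μ 0 * w 0 + μ 1 * w 1 + μ 2 * w 2 + μ 3 * w 3 ≤ r) → Top w r F := fun h μ hμ => by
    have := bih_iff.1 F0 μ hμ
    rw [Finsupp.weight_apply, Finsupp.sum_fintype _ _ (by simp), Fin.sum_univ_four]
    exact h μ (by omega) (by omega)
  obtain ⟨R, hR⟩ : MvPolynomial.X 0 ^ (μ0 + μ1 + 2 * c) ∣ th F := by
    rw [← Ideal.mem_span_singleton, ← Ideal.span_singleton_pow]
    refine lim_ideal th (fun x hx => ?_) ((low_span 0 2 (by decide) _ rfl rfl (by decide) _ F).2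
      fun μ hμ => hn.trans (low μ hμ))
    obtain ⟨u, v, rfl⟩ := Ideal.mem_span_pair.1 hx
    exact Ideal.mem_span_singleton'.2 ⟨th u + th v, by simp [th]; ring⟩
  have g1 : th F ∈ Dg 1 1 (μ0 + μ1 + 2 * c + p + φ + 1 + (μ0 + μ1 + 2 * c) - 1 + 1) :=
    Dg_top.2 (top_aeval (w := ![1, 0, 1, 1]) (lw fun μ h1 h2 => by simp; omega) _ fun i => by
      fin_cases i
      exacts [top_X _ 0, top_C _ 1, top_X _ 0, top_X _ 1])
  have g2 : th F ∈ Dg 0 1 (μ0 + μ1 + 2 * c + p + 1) :=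
    Dg_top.2 (top_aeval (w := ![0, 0, 0, 1]) (lw fun μ h1 h2 => by simp; omega) _ fun i => by
      fin_cases i
      exacts [top_X _ 0, top_C _ 1, top_X _ 0, top_X _ 1])
  rw [hR] at g1 g2 fe
  have cx : MvPolynomial.coeff (Finsupp.single 0 (μ0 + μ1 + 2 * c))
      (MvPolynomial.X 0 ^ (μ0 + μ1 + 2 * c) : A2 k) ≠ 0 := by simp [MvPolynomial.coeff_X_pow]
  have k3 := Dg.div g1 (e := μ0 + μ1 + 2 * c) _ cx (by simp)
  have k4 := Dg.div g2 (e := 0) _ cx (by simp)
  rw [show μ0 + μ1 + 2 * c + p + φ + 1 + (μ0 + μ1 + 2 * c) - 1 + 1 - (μ0 + μ1 + 2 * c) =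
    μ0 + μ1 + 2 * c + p + φ + 1 by omega] at k3
  rw [show μ0 + μ1 + 2 * c + p + 1 - 0 = μ0 + μ1 + 2 * c + p + φ + 1 - φ by omega] at k4
  let B : A2 k →ₐ[k] k[X][X] := MvPolynomial.aeval ![C X * X, C X]
  have e1 : B.comp th = (MvPolynomial.aeval ![1 * (C X * X), 1 * 1, C X * X, C X * 1] :
      Cx k →ₐ[k] k[X][X]) := by
    refine MvPolynomial.algHom_ext fun i => ?_
    fin_cases i <;> simp [B, th]
  have e2 : Gm ![1, 0, 1, 0] ![X, 1, 1, 1] =
      (MvPolynomial.aeval ![C X * X, 1, X, 1] : Cx k →ₐ[k] k[X][X]) := by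
    refine MvPolynomial.algHom_ext fun i => ?_
    fin_cases i <;> simp [Gm, ← C_mul_X_pow_eq_monomial]
  have e3 : B R = (tF R).comp (C X * X) := by
    rw [← sb_comp]
    exact (sb_aeval _ _ _ _ (fun i => by fin_cases i <;> simp) R).symm
  have e5 := (DFunLike.congr_fun e1 F).trans (bih_scale F0 _ _ _ _ _ _)
  rw [AlgHom.comp_apply, hR, map_mul, map_pow, ← e2, one_pow, one_mul,
    show B (MvPolynomial.X 0) = C X * X by simp [B], mul_pow, ← C_pow, ← C_pow, mul_assoc, e3] at e5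
  have e6 : ∀ j, (tF R).coeff j * X ^ j =
      X ^ p * (Gm ![1, 0, 1, 0] ![X, 1, 1, 1] F).coeff (j + (μ0 + μ1 + 2 * c)) := fun j => by
    have := congrArg (fun q => coeff q (j + (μ0 + μ1 + 2 * c))) e5
    simp only [coeff_C_mul, coeff_X_pow_mul, comp_C_mul_X_coeff] at this
    rw [pow_add _ _ p, mul_assoc] at this
    exact mul_left_cancel₀ (pow_ne_zero _ X_ne_zero) this
  refine ⟨R, mem_LC.2 ⟨⟨k3, fun j => ?_, ?_⟩, k4, ?_⟩, hR.symm⟩
  · rcases le_or_gt j p with hj | hj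
    · obtain ⟨i, rfl⟩ := Nat.exists_eq_add_of_le hj
      have a1 := e6 j
      rw [pow_add, mul_comm, mul_assoc] at a1
      have a2 := f0 (c + j)
      rw [show c + j + ![c, μ0 + μ1 + c] 1 = j + (μ0 + μ1 + 2 * c) by simp; omega] at a2
      change _ ∣ (tF R).coeff j
      rw [mul_left_cancel₀ (pow_ne_zero _ X_ne_zero) a1]
      refine Dvd.dvd.trans (dvd_of_eq ?_) (mul_dvd_mul_left _ a2)
      simp [dv, Fin.prod_univ_three, mul_assoc, show μ0 + c - (c + j) = μ0 - j by omega,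
        show μ1 + c - (c + j) = μ1 - j by omega]
    · rw [dv_zero _ fun i => by fin_cases i <;> simp <;> omega]
      exact one_dvd _
  · rw [map_mul] at fe
    refine JC_cancelF (fun i => ?_) fe
    rw [tq_zero]
    simp [z0 i]
  obtain ⟨P, hP⟩ := hP
  have e7 := e6 0
  rw [pow_zero, mul_one, zero_add, hP, tF_zero] at e7
  refine ⟨P, e7 ▸ ?_⟩
  simp [pr, Fin.prod_univ_three]
  ring

end Pool.Agent.Lib.MP_d03834_ag.Core.CE
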