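import Pool.Agent.Lib.MP_d03834_ag.Core.CertA
import Pool.Agent.Lib.MP_d03834_ag.Core.Crem
import Pool.Agent.Lib.MP_d03834_ag.Core.Lim

/-! Rank certificates for small degree, checked by the kernel. -/

set_option autoImplicit false

namespace Pool.Agent.Lib.MP_d03834_ag.Core.Cert

open Finset MvPolynomial Module

/-- length of the block i of monomials -/
def len (d m1 m2 i : ℕ) : ℕ :=
  Nat.sub (Nat.succ (cond (Nat.ble i m1) (Nat.sub d m1) (Nat.sub d i))) (Nat.sub m2 i)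

/-- a packed segment of the second factor -/
noncomputable def seg (w p b v n : ℕ) : ℕ → ℕ :=
  Nat.rec (fun _ => 0) (fun _ ih l => Nat.add (Nat.mod (Nat.mul (Nat.pow l v) (Nat.pow b l)) p)
    (Nat.shiftLeft (ih (Nat.succ l)) w)) n

/-- a packed row -/
noncomputable def row (w p d m1 m2 I a b u v : ℕ) : ℕ :=
  Nat.rec 0 (fun i ih => Nat.add (Nat.mul (Nat.mod (Nat.mul (Nat.pow i u) (Nat.pow a i)) p)
    (seg w p b v (len d m1 m2 i) (Nat.sub m2 i))) (Nat.shiftLeft ih (Nat.mul w (len d m1 m2 i)))) I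

/-- number of columns -/
noncomputable def tot (d m1 m2 I : ℕ) : ℕ := Nat.rec 0 (fun i ih => Nat.add (len d m1 m2 i) ih) I

/-- the rows of one point -/
noncomputable def rowsP (f : ℕ → ℕ → ℕ) (m : ℕ) (acc : List ℕ) : List ℕ :=
  Nat.rec acc (fun u ih => Nat.rec ih (fun v jh => f u v :: jh) (Nat.sub m u)) m

/-- all rows -/
noncomputable def rows (f : ℕ → ℕ → ℕ → ℕ → ℕ) (px py mu : ℕ → ℕ) (n : ℕ) : List ℕ :=
  Nat.rec [] (fun q ih => rowsP (f (px q) (py q)) (mu q) ih) n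

/-- the check with given numbers of blocks and columns -/
noncomputable def chk1 (w k Bm p d m1 m2 n : ℕ) (px py mu : ℕ → ℕ) (I N : ℕ) : Bool :=
  cond (Nat.ble (Nat.mul p p) Bm) (elim w k Bm p N (Nat.mul p p)
    (Nat.mul p (Nat.div (Nat.sub (Nat.pow (Nat.pow 2 w) N) 1) Bm))
    (rows (row w p d m1 m2 I) px py mu n)) false

/-- the check -/
noncomputable def chk0 (w k Bm p d m0 m1 m2 n : ℕ) (px py mu : ℕ → ℕ) : Bool :=
  chk1 w k Bm p d m1 m2 n px py mu (Nat.sub (Nat.succ d) m0)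
    (tot d m1 m2 (Nat.sub (Nat.succ d) m0))

theorem seg_eq (w p b v n l : ℕ) :
    seg w p b v n l = pk w n fun t => (l + t) ^ v * b ^ (l + t) % p := by
  induction n generalizing l with
  | zero => rfl
  | succ n ih =>
    change l ^ v * b ^ l % p + seg w p b v n (l + 1) <<< w = _
    rw [ih, pk_succ, Nat.shiftLeft_eq, mul_comm _ (2 ^ w)]
    simp only [add_assoc, add_comm 1, add_zero]

theorem mem_rowsP {f : ℕ → ℕ → ℕ} {m : ℕ} {acc : List ℕ} {P : ℕ → Prop} (ha : ∀ x ∈ acc, P x)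
    (hf : ∀ u v, u + v < m → P (f u v)) : ∀ x ∈ rowsP f m acc, P x := by
  have h1 : ∀ (u n : ℕ) (l : List ℕ), n ≤ m - u → (∀ x ∈ l, P x) →
      ∀ x ∈ (Nat.rec l (fun v jh => f u v :: jh) n : List ℕ), P x := by
    intro u n l hn hl
    induction n with
    | zero => exact hl
    | succ n ih => exact List.forall_mem_cons.2 ⟨hf _ _ (by omega), ih (by omega)⟩
  have h2 : ∀ n : ℕ, ∀ x ∈ (Nat.rec acc
      (fun u ih => Nat.rec ih (fun v jh => f u v :: jh) (Nat.sub m u)) n : List ℕ), P x := by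
    intro n
    induction n with
    | zero => exact ha
    | succ n ih => exact h1 n _ _ le_rfl ih
  exact h2 m

theorem mem_rows {f : ℕ → ℕ → ℕ → ℕ → ℕ} {px py mu : ℕ → ℕ} {n : ℕ} {P : ℕ → Prop}
    (hf : ∀ q < n, ∀ u v, u + v < mu q → P (f (px q) (py q) u v)) :
    ∀ x ∈ rows f px py mu n, P x := by
  induction n with
  | zero => exact fun _ h => absurd h List.not_mem_nil
  | succ n ih => exact mem_rowsP (ih fun q hq => hf q (by omega)) (hf n (by omega))

section ring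
variable {R : Type} [CommRing R]

/-- the coefficients in one line -/
noncomputable def fl (d m1 m2 : ℕ) (g : ℕ → ℕ → R) (I : ℕ) : ℕ → R :=
  Nat.rec (fun _ => 0) (fun i ih t => if t < len d m1 m2 i then g i (m2 - i + t)
    else ih (t - len d m1 m2 i)) I

theorem fl_lt {d m1 m2 i t : ℕ} (g : ℕ → ℕ → R) (h : t < len d m1 m2 i) :
    fl d m1 m2 g (i + 1) t = g i (m2 - i + t) := if_pos h

theorem fl_add {d m1 m2 i : ℕ} (g : ℕ → ℕ → R) (t : ℕ) :
    fl d m1 m2 g (i + 1) (len d m1 m2 i + t) = fl d m1 m2 g i t :=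
  (if_neg (by omega)).trans (by rw [Nat.add_sub_cancel_left]; rfl)

theorem fl_zero {d m1 m2 I : ℕ} {g : ℕ → ℕ → R} (h : ∀ j < tot d m1 m2 I, fl d m1 m2 g I j = 0) :
    ∀ i < I, ∀ t < len d m1 m2 i, g i (m2 - i + t) = 0 := by
  induction I with
  | zero => exact fun i hi => absurd hi (Nat.not_lt_zero i)
  | succ I ih =>
    have e : tot d m1 m2 (I + 1) = len d m1 m2 I + tot d m1 m2 I := rfl
    intro i hi t ht
    rcases Nat.lt_succ_iff_lt_or_eq.1 hi with h1 | rfl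
    · exact ih (fun j hj => (fl_add g j).symm.trans (h _ (by omega))) i h1 t ht
    · exact (fl_lt g ht).symm.trans (h _ (by omega))

theorem Val.app {w a b T x y : ℕ} {c : ℕ → R} {s t : R} (h : Val w a T c x s)
    (h' : Val w b T (fun j => c (a + j)) y t) :
    Val w (a + b) T c (x + y <<< (w * a)) (s + t) := by
  obtain ⟨r, rfl, h1, rfl⟩ := h
  obtain ⟨q, rfl, g1, rfl⟩ := h'
  refine ⟨fun j => if j < a then r j else q (j - a), ?_, fun j => ?_, ?_⟩
  · rw [pk_add, Nat.shiftLeft_eq, mul_comm _ (2 ^ _)]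
    congr 1
    · exact sum_congr rfl fun j hj => by simp only [if_pos (mem_range.1 hj)]
    · simp
  · dsimp only
    split_ifs
    · exact h1 _
    · exact g1 _
  · rw [sum_range_add]
    congr 1
    · exact sum_congr rfl fun j hj => by simp only [if_pos (mem_range.1 hj)]
    · simp

theorem row_val {w p d m1 m2 I a b u v : ℕ} (hp : (p : R) = 0) (hp0 : 0 < p) (g : ℕ → ℕ → R) :
    Val w (tot d m1 m2 I) (p * p) (fl d m1 m2 g I) (row w p d m1 m2 I a b u v)
      (∑ i ∈ range I, ∑ t ∈ range (len d m1 m2 i),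
        ((i ^ u * a ^ i * ((m2 - i + t) ^ v * b ^ (m2 - i + t)) : ℕ) : R) * g i (m2 - i + t)) := by
  induction I with
  | zero => exact ⟨fun _ => 0, rfl, fun _ => Nat.zero_le _, rfl⟩
  | succ I ih =>
    rw [sum_range_succ_comm]
    refine Val.app (x := I ^ u * a ^ I % p * seg w p b v (len d m1 m2 I) (m2 - I))
      ⟨fun t => I ^ u * a ^ I % p * ((m2 - I + t) ^ v * b ^ (m2 - I + t) % p), ?_, fun t => ?_,
        sum_congr rfl fun t ht => ?_⟩ ?_
    · rw [seg_eq, pk, pk, mul_sum]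
      exact sum_congr rfl fun j _ => by ring
    · exact Nat.mul_le_mul (Nat.mod_lt _ hp0).le (Nat.mod_lt _ hp0).le
    · rw [fl_lt g (mem_range.1 ht), Nat.cast_mul, cast_md hp, cast_md hp, ← Nat.cast_mul]
    · rw [funext (fl_add g)]
      exact ih

theorem chk1_ok {w k d m1 m2 n I : ℕ} {px py mu : ℕ → ℕ} (hp : ((2 ^ k - 1 : ℕ) : R) = 0)
    (k0 : 0 < k) (kw : k < w) (g : ℕ → ℕ → R)
    (h : chk1 w k (2 ^ w - 1) (2 ^ k - 1) d m1 m2 n px py mu I (tot d m1 m2 I) = true)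
    (hg : ∀ q < n, ∀ u v, u + v < mu q → ∑ i ∈ range I, ∑ t ∈ range (len d m1 m2 i),
      ((i ^ u * px q ^ i * ((m2 - i + t) ^ v * py q ^ (m2 - i + t)) : ℕ) : R) * g i (m2 - i + t)
        = 0) : ∀ i < I, ∀ t < len d m1 m2 i, g i (m2 - i + t) = 0 := by
  obtain ⟨h1, h2⟩ := cond_false h
  have h3 : (2 ^ k - 1) * (2 ^ k - 1) ≤ 2 ^ w - 1 := Nat.le_of_ble_eq_true h1
  have hw : 2 ^ 1 ≤ 2 ^ w := Nat.pow_le_pow_right two_pos (by omega)
  have hk : 2 ^ 1 ≤ 2 ^ k := Nat.pow_le_pow_right two_pos k0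
  have e : (2 ^ k - 1) * (((2 ^ w) ^ tot d m1 m2 I - 1) / (2 ^ w - 1)) =
      pk w (tot d m1 m2 I) fun _ => 2 ^ k - 1 := by
    rw [pk, ← mul_sum, Nat.geomSum_eq hw]
  refine fl_zero (elim_ok hp k0 kw (T := (2 ^ k - 1) * (2 ^ k - 1)) (by omega)
    (mem_rows fun q hq u v huv => ?_) (by rw [← e]; exact h2))
  rw [← hg q hq u v huv]
  exact row_val hp (by omega) g

/-- the operator X i times the derivative in X i -/
noncomputable def th (i : Fin 3) (F : P3 R) : P3 R := X i * pderiv i F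

theorem th_coeff (i : Fin 3) (F : P3 R) (μ : Fin 3 →₀ ℕ) :
    coeff μ (th i F) = μ i * coeff μ F := by
  classical
  unfold th
  induction F using MvPolynomial.induction_on' with
  | monomial ν a =>
    rw [X_mul_pderiv_monomial, ← Nat.cast_smul_eq_nsmul R, coeff_smul, coeff_monomial, smul_eq_mul]
    split_ifs with e
    · rw [e]
    · simp
  | add a b ha hb => rw [map_add, mul_add, coeff_add, coeff_add, ha, hb, mul_add]

theorem th_mem (i : Fin 3) (J : Ideal (P3 R)) (m : ℕ) {F : P3 R} (h : F ∈ J ^ (m + 1)) :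
    th i F ∈ J ^ m := by
  refine Ideal.mul_mem_left _ _ ?_
  induction m generalizing F with
  | zero => simp
  | succ m ih =>
    rw [pow_succ] at h
    refine Submodule.mul_induction_on h (fun x hx y hy => ?_) fun x y hx hy => ?_
    · rw [Derivation.leibniz, smul_eq_mul, smul_eq_mul]
      refine Ideal.add_mem _ (Ideal.mul_mem_right _ _ hx) ?_
      rw [pow_succ']
      exact Ideal.mul_mem_mul hy (ih hx)
    · rw [map_add]
      exact Ideal.add_mem _ hx hy

theorem it_coeff (i : Fin 3) (u : ℕ) (F : P3 R) (μ : Fin 3 →₀ ℕ) :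
    coeff μ ((th i)^[u] F) = μ i ^ u * coeff μ F := by
  induction u with
  | zero => simp
  | succ u ih => rw [Function.iterate_succ_apply', th_coeff, ih, pow_succ', mul_assoc]

theorem it_mem (i : Fin 3) (J : Ideal (P3 R)) (m u : ℕ) {F : P3 R} (h : F ∈ J ^ (m + u)) :
    (th i)^[u] F ∈ J ^ m := by
  induction u generalizing F with
  | zero => exact h
  | succ u ih => exact ih (th_mem i J (m + u) h)

/-- the exponent vector of degree d -/
noncomputable def mn (d i j : ℕ) : Fin 3 →₀ ℕ := Finsupp.equivFunOnFinite.symm ![i, j, d - i - j]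

theorem mn_eq {d : ℕ} {ν : Fin 3 →₀ ℕ} (h : ν 0 + ν 1 + ν 2 = d) : mn d (ν 0) (ν 1) = ν := by
  ext i
  fin_cases i <;> simp [mn]
  omega

/-- the support lies in the blocks -/
def Sup (d m0 m1 m2 : ℕ) (F : P3 R) : Prop :=
  ∀ ν, coeff ν F ≠ 0 → ν 0 + ν 1 + ν 2 = d ∧ ν 0 + m0 ≤ d ∧ ν 1 + m1 ≤ d ∧ ν 2 + m2 ≤ d

theorem Sup.blk {d m0 m1 m2 : ℕ} {F : P3 R} (h : Sup d m0 m1 m2 F) {ν : Fin 3 →₀ ℕ}
    (hν : coeff ν F ≠ 0) : ν 0 < d + 1 - m0 ∧ ν 1 - (m2 - ν 0) < len d m1 m2 (ν 0) ∧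
      m2 - ν 0 + (ν 1 - (m2 - ν 0)) = ν 1 := by
  obtain ⟨h0, h1, h2, h3⟩ := h ν hν
  refine ⟨by omega, ?_, by omega⟩
  change _ < cond (Nat.ble (ν 0) m1) (d - m1) (d - ν 0) + 1 - (m2 - ν 0)
  cases Nat.ble (ν 0) m1
  · rw [_root_.cond_false]
    omega
  · rw [cond_true]
    omega

theorem Sup.eval {d m0 m1 m2 : ℕ} {F : P3 R} (h : Sup d m0 m1 m2 F) (a b : R) :
    eval ![a, b, 1] F = ∑ i ∈ range (d + 1 - m0), ∑ t ∈ range (len d m1 m2 i),
      coeff (mn d i (m2 - i + t)) F * (a ^ i * b ^ (m2 - i + t)) := by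
  rw [eval_eq', sum_sigma']
  refine sum_of_injOn (fun ν => ⟨ν 0, ν 1 - (m2 - ν 0)⟩) (fun ν hν μ hμ e => ?_) (fun ν hν => ?_)
    (fun x _ hx => ?_) fun ν hν => ?_
  · have h1 := mem_support_iff.1 hν
    have h2 := mem_support_iff.1 hμ
    have e0 : ν 0 = μ 0 := congrArg Sigma.fst e
    have e1 : ν 1 - (m2 - ν 0) = μ 1 - (m2 - μ 0) := congrArg (fun x : Σ _ : ℕ, ℕ => x.2) e
    have a1 := (h.blk h1).2.2
    have a2 := (h.blk h2).2.2
    rw [← mn_eq (h ν h1).1, ← mn_eq (h μ h2).1, e0, show ν 1 = μ 1 by omega]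
  · have a1 := h.blk (mem_support_iff.1 hν)
    exact mem_sigma.2 ⟨mem_range.2 a1.1, mem_range.2 a1.2.1⟩
  · refine mul_eq_zero_of_left (by_contra fun h0 => hx ⟨_, mem_support_iff.2 h0, ?_⟩) _
    simp [mn]
  · have h1 := mem_support_iff.1 hν
    dsimp only
    rw [(h.blk h1).2.2, mn_eq (h ν h1).1, Fin.prod_univ_three]
    simp

theorem Sup.rel {d m0 m1 m2 m u v : ℕ} {F : P3 R} (h : Sup d m0 m1 m2 F) (a b : ℕ)
    (hF : F ∈ a3 ![(a : R), b, 1] ^ m) (huv : u + v < m) :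
    ∑ i ∈ range (d + 1 - m0), ∑ t ∈ range (len d m1 m2 i),
      ((i ^ u * a ^ i * ((m2 - i + t) ^ v * b ^ (m2 - i + t)) : ℕ) : R) *
        coeff (mn d i (m2 - i + t)) F = 0 := by
  have h1 := it_mem 0 _ 1 u (it_mem 1 _ (1 + u) v (Ideal.pow_le_pow_right (by omega) hF))
  rw [pow_one, a3, RingHom.mem_ker, Sup.eval (d := d) (m0 := m0) (m1 := m1) (m2 := m2) fun ν hν =>
    h ν fun h0 => hν (by rw [it_coeff, it_coeff, h0, mul_zero, mul_zero])] at h1
  rw [← h1]
  refine sum_congr rfl fun i _ => sum_congr rfl fun t _ => ?_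
  rw [it_coeff, it_coeff]
  have e0 : mn d i (m2 - i + t) 0 = i := rfl
  have e1 : mn d i (m2 - i + t) 1 = m2 - i + t := rfl
  rw [e0, e1]
  generalize m2 - i + t = j
  push_cast
  ring

end ring

theorem ex_res {p : ℕ} (hp : 1 < p) :
    ∃ O : ValuationSubring ℂ, (p : IsLocalRing.ResidueField O) = 0 := by
  obtain ⟨O, -, h⟩ := Ideal.image_subset_nonunits_valuationSubring (A := (⊥ : Subring ℂ))
    (Ideal.span {(p : (⊥ : Subring ℂ))}) (by
      rw [Ne, Ideal.span_singleton_eq_top, isUnit_iff_exists_inv]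
      rintro ⟨⟨_, hb⟩, e⟩
      obtain ⟨n, rfl⟩ := Subring.mem_bot.1 hb
      have e1 : (p : ℂ) * n = 1 := congrArg Subtype.val e
      have e2 : (p : ℤ) * n = 1 := by exact_mod_cast e1
      have := Int.eq_one_of_mul_eq_one_right (by omega) e2
      omega)
  refine ⟨O, ?_⟩
  rw [← map_natCast (IsLocalRing.residue O), IsLocalRing.residue_eq_zero_iff,
    ← ValuationSubring.coe_mem_nonunits_iff]
  exact h ⟨_, Ideal.mem_span_singleton_self _, rfl⟩

theorem chk0_ok {w k d m0 m1 m2 n : ℕ} {px py mu : ℕ → ℕ} (k0 : 1 < k) (kw : k < w)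
    (h : chk0 w k (2 ^ w - 1) (2 ^ k - 1) d m0 m1 m2 n px py mu = true) {F : P3 ℂ}
    (hS : Sup d m0 m1 m2 F) (hF : ∀ q < n, F ∈ a3 ![(px q : ℂ), py q, 1] ^ mu q) : F = 0 := by
  have hk : 2 ^ 2 ≤ 2 ^ k := Nat.pow_le_pow_right two_pos k0
  obtain ⟨O, hO⟩ := ex_res (p := 2 ^ k - 1) (by omega)
  by_contra h0
  obtain ⟨c, G, μ, -, hG, hμ⟩ := lim_prim (O := O) h0
  have hc : ∀ ν, algebraMap O ℂ (coeff ν G) = c * coeff ν F := fun ν => by
    rw [← coeff_map, hG, coeff_smul, smul_eq_mul]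
  have h1 : coeff μ F ≠ 0 := fun e => by
    have := hc μ
    rw [hμ, e, map_one, mul_zero] at this
    exact one_ne_zero this
  have h2 := chk1_ok hO (by omega) kw
    (fun i j => IsLocalRing.residue O (coeff (mn d i j) G)) h (fun q hq u v huv => by
      have h3 := congrArg (c * ·) (hS.rel _ _ (hF q hq) huv)
      simp only [mul_sum, mul_zero, mul_left_comm c, ← hc] at h3
      simp only [← map_natCast (algebraMap O ℂ), ← map_mul, ← map_sum] at h3
      have h4 := congrArg (IsLocalRing.residue O)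
        ((map_eq_zero_iff _ (IsFractionRing.injective O ℂ)).1 h3)
      simp only [map_sum, map_mul, map_natCast, map_zero] at h4
      exact h4)
    _ (hS.blk h1).1 _ (hS.blk h1).2.1
  rw [(hS.blk h1).2.2, mn_eq (hS μ h1).1, hμ, map_one] at h2
  exact one_ne_zero h2

/-- first coordinates -/
def px (s q : ℕ) : ℕ :=
  Nat.succ (Nat.mod (Nat.mod (Nat.pow (Nat.add (Nat.add s q) 7) 5) 100003) 126)

/-- second coordinates -/
def py (s q : ℕ) : ℕ :=
  Nat.succ (Nat.mod (Nat.mod (Nat.pow (Nat.add (Nat.add s q) 11) 7) 200003) 126)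

/-- the check for n + 3 points with multiplicities μ and r simple points, seed s -/
noncomputable def chk (s d n r : ℕ) (μ : ℕ → ℕ) : Bool :=
  chk0 (nat_lit 26) (nat_lit 7) (nat_lit 67108863) (nat_lit 127) d (μ 0) (μ 1) (μ 2) (Nat.add n r)
    (px s) (py s) fun q => cond (Nat.blt q n) (μ (Nat.add q 3)) 1

/-- the certificate -/
theorem hle_cert (s : ℕ) {d n r : ℕ} (μ : ℕ → ℕ) (h : chk s d n r μ = true) :
    Hle d (fun i : Fin (n + 3) => μ i) r := by
  let v : Fin (n + 3) → Fin 3 → ℂ := fun i =>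
    if h : i.1 < 3 then Pi.single ⟨i.1, h⟩ 1 else ![px s (i.1 - 3), py s (i.1 - 3), 1]
  refine hle_of v (fun i h0 => ?_) (rk_simple r _
    (fun q => ![px s (n + q), py s (n + q), 1]) fun F hF h1 => ?_)
  · by_cases hi : i.1 < 3
    · have := congrFun h0 ⟨i.1, hi⟩
      simp [v, hi] at this
    · have := congrFun h0 2
      simp [v, hi] at this
  obtain ⟨h2, h3⟩ := mem_Sp.1 hF
  refine chk0_ok (w := 26) (k := 7) (by omega) (by omega) h (fun ν hν => ?_) fun q hq => ?_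
  · have hν := mem_support_iff.2 hν
    exact ⟨deg3 h2 hν, (vert_iff 0 h2).1 (h3 ⟨0, by omega⟩) ν hν,
      (vert_iff 1 h2).1 (h3 ⟨1, by omega⟩) ν hν, (vert_iff 2 h2).1 (h3 ⟨2, by omega⟩) ν hν⟩
  · by_cases e : q < n
    · rw [Nat.blt_eq.mpr e, cond_true]
      have := h3 ⟨q + 3, by omega⟩
      simp only [v, dif_neg (show ¬ q + 3 < 3 by omega), Nat.add_sub_cancel] at this
      exact this
    · have hq : q < n + r := hq
      rw [Bool.eq_false_iff.2 fun h => e (Nat.blt_eq.mp h), _root_.cond_false, pow_one]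
      have := h1 ⟨q - n, by omega⟩
      simp only [Nat.add_sub_cancel' (not_lt.1 e)] at this
      exact this

/-- the statement of CoreN for one multiplicity -/
def CoreAt (n m : ℕ) : Prop :=
  ∀ d : ℕ, (d + 1).choose 2 ≤ n * (m + 1).choose 2 → n * (m + 1).choose 2 < (d + 3).choose 2 →
    Hle d (fun _ : Fin n => m) ((d + 2).choose 2 - n * (m + 1).choose 2)

/-- the two degrees of the window -/
theorem coreAt_of {n m : ℕ} (d r : ℕ) (h1 : (d + 2) * (d + 1) ≤ n * ((m + 1) * m))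
    (h2 : n * ((m + 1) * m) + 2 * r = (d + 3) * (d + 2)) (hr : 0 < r)
    (H0 : Hle d (fun _ : Fin n => m) 0) (H1 : Hle (d + 1) (fun _ : Fin n => m) r) : CoreAt n m := by
  have c2 : ∀ a : ℕ, 2 * (a + 1).choose 2 = (a + 1) * a := fun a => by
    rw [Nat.choose_two_right, Nat.add_sub_cancel, Nat.mul_div_cancel' (mul_comm a (a + 1) ▸
      (Nat.even_mul_succ_self a).two_dvd)]
  have a0 : 2 * (n * (m + 1).choose 2) = n * ((m + 1) * m) := by rw [← c2]; ring
  have a1 : 2 * (d + 2).choose 2 = (d + 2) * (d + 1) := c2 (d + 1)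
  have a2 : 2 * (d + 3).choose 2 = (d + 3) * (d + 2) := c2 (d + 2)
  intro e g1 g2
  rcases lt_trichotomy e d with h | rfl | h
  · have := Nat.choose_le_choose 2 (show e + 3 ≤ d + 2 by omega)
    omega
  · rwa [Nat.sub_eq_zero_of_le (by omega)]
  · rcases Nat.lt_or_eq_of_le (Nat.succ_le_of_lt h) with h | rfl
    · have := Nat.choose_le_choose 2 (show d + 3 ≤ e + 1 by omega)
      omega
    · rwa [show (d.succ + 2).choose 2 - n * (m + 1).choose 2 = r by
        change (d + 3).choose 2 - _ = _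
        omega]

end Pool.Agent.Lib.MP_d03834_ag.Core.Cert
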