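import Mathlib

/-! Gaussian elimination modulo a number of the form two to the k minus one, on packed rows. -/

set_option autoImplicit false

namespace Pool.Agent.Lib.MP_d03834_ag.Core.Cert

open Finset

/-- lanes of w bits -/
def pk (w N : ℕ) (r : ℕ → ℕ) : ℕ := ∑ j ∈ range N, r j * (2 ^ w) ^ j

theorem pk_succ (w N : ℕ) (r : ℕ → ℕ) :
    pk w (N + 1) r = r 0 + 2 ^ w * pk w N fun j => r (j + 1) := by
  rw [pk, sum_range_succ', pk, mul_sum, pow_zero, mul_one, add_comm]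
  congr 1
  exact sum_congr rfl fun j _ => by ring

theorem pk_add (w a b : ℕ) (r : ℕ → ℕ) :
    pk w (a + b) r = pk w a r + 2 ^ (w * a) * pk w b fun j => r (a + j) := by
  rw [pk, sum_range_add, pk, pk, mul_sum]
  congr 1
  exact sum_congr rfl fun j _ => by ring

theorem pk_mod {w N : ℕ} {r : ℕ → ℕ} (h : r 0 < 2 ^ w) : pk w (N + 1) r % 2 ^ w = r 0 := by
  rw [pk_succ, Nat.add_mul_mod_self_left, Nat.mod_eq_of_lt h]

theorem pk_div {w N : ℕ} {r : ℕ → ℕ} (h : r 0 < 2 ^ w) :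
    pk w (N + 1) r / 2 ^ w = pk w N fun j => r (j + 1) := by
  rw [pk_succ, Nat.add_mul_div_left _ _ (by positivity), Nat.div_eq_of_lt h, zero_add]

theorem pk_land {w k N : ℕ} (hk : 2 ^ k - 1 < 2 ^ w) {r : ℕ → ℕ} (h : ∀ j, r j < 2 ^ w) :
    pk w N r &&& pk w N (fun _ => 2 ^ k - 1) = pk w N fun j => r j % 2 ^ k := by
  induction N generalizing r with
  | zero => simp [pk]
  | succ N ih =>
    rw [← Nat.mod_add_div (_ &&& _) (2 ^ w), Nat.and_mod_two_pow, Nat.and_div_two_pow,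
      pk_mod (h 0), pk_mod (r := fun _ => 2 ^ k - 1) hk, pk_div (h 0),
      pk_div (r := fun _ => 2 ^ k - 1) hk, ih fun j => h (j + 1), Nat.and_two_pow_sub_one_eq_mod,
      pk_succ]

/-- one lanewise reduction -/
def red (k M x : ℕ) : ℕ :=
  Nat.add (Nat.land x M) (Nat.shiftRight (Nat.sub x (Nat.land x M)) k)

/-- the bound after one reduction -/
def rb (k T : ℕ) : ℕ := 2 ^ k - 1 + T / 2 ^ k

theorem red_pk {w k N : ℕ} (hk : 2 ^ k - 1 < 2 ^ w) {r : ℕ → ℕ} (h : ∀ j, r j < 2 ^ w) :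
    red k (pk w N fun _ => 2 ^ k - 1) (pk w N r) = pk w N fun j => r j % 2 ^ k + r j / 2 ^ k := by
  have e : pk w N r = (pk w N fun j => r j % 2 ^ k) + 2 ^ k * pk w N fun j => r j / 2 ^ k := by
    rw [pk, pk, pk, mul_sum, ← sum_add_distrib]
    refine sum_congr rfl fun j _ => ?_
    rw [← mul_assoc, ← add_mul, Nat.mod_add_div]
  change (_ &&& _) + (_ - (_ &&& _)) >>> k = _
  rw [pk_land hk h, Nat.shiftRight_eq_div_pow]
  conv_lhs => rw [e]
  rw [Nat.add_sub_cancel_left, Nat.mul_div_cancel_left _ (by positivity), pk, pk, pk,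
    ← sum_add_distrib]
  exact sum_congr rfl fun j _ => by ring

/-- one row operation for every row -/
noncomputable def upd (w Bm p ni piv : ℕ) (xs : List ℕ) : List ℕ → List ℕ :=
  List.rec (fun acc => acc)
    (fun x _ ih acc => cond (Nat.beq (Nat.mod (Nat.land x Bm) p) 0)
      (ih (Nat.shiftRight x w :: acc))
      (ih (Nat.shiftRight (Nat.add x (Nat.mul (Nat.mod (Nat.mul (Nat.land x Bm) ni) p) piv)) w
        :: acc))) xs

/-- choice of a pivot row -/
noncomputable def pick (Bm p : ℕ) (xs : List ℕ) : List ℕ → (ℕ → List ℕ → List ℕ → Bool) → Bool :=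
  List.rec (fun _ _ => false)
    (fun x t ih acc f => cond (Nat.beq (Nat.mod (Nat.land x Bm) p) 0) (ih (x :: acc) f) (f x t acc))
    xs

/-- the step with a reduced pivot row -/
noncomputable def stp (w Bm p M : ℕ) (ih : ℕ → ℕ → List ℕ → Bool) (t acc : List ℕ)
    (piv ni T' : ℕ) : Bool :=
  cond (Nat.beq (Nat.mod (Nat.succ (Nat.mul ni (Nat.land piv Bm))) p) 0)
    (cond (Nat.ble T' Bm) (ih T' (Nat.shiftRight M w) (upd w Bm p ni piv t (upd w Bm p ni piv acc [])))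
      false) false

/-- the elimination -/
noncomputable def elim (w k Bm p N : ℕ) : ℕ → ℕ → List ℕ → Bool :=
  Nat.rec (fun _ _ _ => true)
    (fun _ ih T M xs => pick Bm p xs [] fun x t acc =>
      stp w Bm p M ih t acc (red k M (red k M (red k M x)))
        (Nat.sub p (Nat.mod (Nat.pow (Nat.mod (Nat.land x Bm) p) (Nat.sub p 2)) p))
        (Nat.add T (Nat.mul p (rb k (rb k (rb k T)))))) N

variable {R : Type} [CommRing R]

/-- x is a packed row with lanes at most T, and s is its product with c -/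
def Val (w N T : ℕ) (c : ℕ → R) (x : ℕ) (s : R) : Prop :=
  ∃ r : ℕ → ℕ, x = pk w N r ∧ (∀ j, r j ≤ T) ∧ ∑ j ∈ range N, (r j : R) * c j = s

theorem Val.red {w k N T : ℕ} {c : ℕ → R} {x : ℕ} {s : R} (hp : ((2 ^ k - 1 : ℕ) : R) = 0)
    (hk : 2 ^ k - 1 < 2 ^ w) (hT : T < 2 ^ w) (h : Val w N T c x s) :
    Val w N (rb k T) c (red k (pk w N fun _ => 2 ^ k - 1) x) s := by
  obtain ⟨r, rfl, h1, rfl⟩ := h
  refine ⟨_, red_pk hk fun j => (h1 j).trans_lt hT, fun j => ?_, sum_congr rfl fun j _ => ?_⟩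
  · have := Nat.mod_lt (r j) (show 0 < 2 ^ k by positivity)
    have := Nat.div_le_div_right (c := 2 ^ k) (h1 j)
    unfold rb
    omega
  · have e : ((2 ^ k : ℕ) : R) = 1 := by
      rw [← Nat.sub_add_cancel (show 1 ≤ 2 ^ k from Nat.one_le_two_pow), Nat.cast_add, hp]
      simp
    conv_rhs => rw [← Nat.mod_add_div (r j) (2 ^ k), Nat.cast_add, Nat.cast_mul, e, one_mul]
    rw [Nat.cast_add]

theorem cast_md {p : ℕ} (hp : (p : R) = 0) (a : ℕ) : ((a % p : ℕ) : R) = a := by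
  conv_rhs => rw [← Nat.mod_add_div a p, Nat.cast_add, Nat.cast_mul, hp, zero_mul, add_zero]

theorem Val.lane {w N T : ℕ} {c : ℕ → R} {x : ℕ} {s : R} (hT : T < 2 ^ w)
    (h : Val w (N + 1) T c x s) :
    Val w N T (fun j => c (j + 1)) (x >>> w) (s - (x &&& (2 ^ w - 1) : ℕ) * c 0) := by
  obtain ⟨r, rfl, h1, rfl⟩ := h
  have h0 := (h1 0).trans_lt hT
  refine ⟨fun j => r (j + 1), by rw [Nat.shiftRight_eq_div_pow, pk_div h0], fun j => h1 _, ?_⟩
  rw [Nat.and_two_pow_sub_one_eq_mod, pk_mod h0, sum_range_succ', add_sub_cancel_right]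

theorem Val.mono {w N T T' : ℕ} {c : ℕ → R} {x : ℕ} {s : R} (hT : T ≤ T') (h : Val w N T c x s) :
    Val w N T' c x s := by
  obtain ⟨r, h0, h1, h2⟩ := h
  exact ⟨r, h0, fun j => (h1 j).trans hT, h2⟩

theorem Val.row {w N T Tp p ni x piv : ℕ} {c : ℕ → R} (hp : (p : R) = 0) (hp0 : 0 < p)
    (hT : T + p * Tp < 2 ^ w) (hx : Val w (N + 1) T c x 0) (hv : Val w (N + 1) Tp c piv 0)
    (hn : (ni * (piv &&& (2 ^ w - 1)) + 1) % p = 0) :
    Val w N (T + p * Tp) (fun j => c (j + 1))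
      ((x + (x &&& (2 ^ w - 1)) * ni % p * piv) >>> w) 0 := by
  obtain ⟨r, rfl, h1, h2⟩ := hx
  obtain ⟨q, rfl, g1, g2⟩ := hv
  have h0 : r 0 < 2 ^ w := by have := h1 0; omega
  have g0 : q 0 < 2 ^ w := by have := g1 0; nlinarith
  rw [Nat.and_two_pow_sub_one_eq_mod, pk_mod g0] at hn
  rw [Nat.and_two_pow_sub_one_eq_mod, pk_mod h0]
  generalize hs : r 0 * ni % p = s
  have hs1 : s ≤ p := hs ▸ (Nat.mod_lt _ hp0).le
  have b : ∀ j, r j + s * q j ≤ T + p * Tp := fun j =>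
    add_le_add (h1 j) (Nat.mul_le_mul hs1 (g1 j))
  have e : pk w (N + 1) r + s * pk w (N + 1) q = pk w (N + 1) fun j => r j + s * q j := by
    rw [pk, pk, pk, mul_sum, ← sum_add_distrib]
    exact sum_congr rfl fun j _ => by ring
  have h3 : Val w (N + 1) (T + p * Tp) c (pk w (N + 1) fun j => r j + s * q j) 0 :=
    ⟨_, rfl, b, by
      simp only [Nat.cast_add, Nat.cast_mul, add_mul, mul_assoc]
      rw [sum_add_distrib, ← mul_sum, h2, g2, mul_zero, add_zero]⟩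
  have h4 := h3.lane hT
  rw [Nat.and_two_pow_sub_one_eq_mod, pk_mod ((b 0).trans_lt hT)] at h4
  have h5 : ((r 0 + s * q 0 : ℕ) : R) = 0 := by
    have a1 := cast_md hp (ni * q 0 + 1)
    rw [hn] at a1
    rw [Nat.cast_add, Nat.cast_mul, ← hs, cast_md hp]
    push_cast at a1 ⊢
    linear_combination (-(r 0 : R)) * a1
  rw [h5, zero_mul, sub_zero] at h4
  rwa [e]

theorem upd_all {w Bm p ni piv : ℕ} {P Q : ℕ → Prop}
    (h0 : ∀ x, P x → (x &&& Bm) % p = 0 → Q (x >>> w))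
    (h1 : ∀ x, P x → Q ((x + (x &&& Bm) * ni % p * piv) >>> w)) {xs acc : List ℕ}
    (hx : ∀ x ∈ xs, P x) (ha : ∀ y ∈ acc, Q y) : ∀ y ∈ upd w Bm p ni piv xs acc, Q y := by
  induction xs generalizing acc with
  | nil => exact ha
  | cons x t ih =>
    have ht : ∀ x ∈ t, P x := fun y hy => hx y (List.mem_cons_of_mem _ hy)
    have hx0 := hx x List.mem_cons_self
    change ∀ y ∈ cond (Nat.beq ((x &&& Bm) % p) 0) (upd w Bm p ni piv t _) (upd w Bm p ni piv t _), _
    cases e : Nat.beq ((x &&& Bm) % p) 0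
    · exact ih ht (List.forall_mem_cons.2 ⟨h1 x hx0, ha⟩)
    · exact ih ht (List.forall_mem_cons.2 ⟨h0 x hx0 (Nat.eq_of_beq_eq_true e), ha⟩)

theorem pick_ex {Bm p : ℕ} {P : ℕ → Prop} {xs acc : List ℕ} {f : ℕ → List ℕ → List ℕ → Bool}
    (hx : ∀ x ∈ xs, P x) (ha : ∀ x ∈ acc, P x) (h : pick Bm p xs acc f = true) :
    ∃ x t a, P x ∧ (∀ y ∈ t, P y) ∧ (∀ y ∈ a, P y) ∧ f x t a = true := by
  induction xs generalizing acc with
  | nil => exact absurd h Bool.false_ne_true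
  | cons x t ih =>
    have ht : ∀ x ∈ t, P x := fun y hy => hx y (List.mem_cons_of_mem _ hy)
    have hx0 := hx x List.mem_cons_self
    change cond (Nat.beq ((x &&& Bm) % p) 0) (pick Bm p t (x :: acc) f) (f x t acc) = true at h
    cases e : Nat.beq ((x &&& Bm) % p) 0
    · rw [e] at h
      exact ⟨x, t, acc, hx0, ht, ha, h⟩
    · rw [e] at h
      exact ih ht (List.forall_mem_cons.2 ⟨hx0, ha⟩) h

theorem cond_false {a b : Bool} (h : cond a b false = true) : a = true ∧ b = true := by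
  cases a <;> simp_all

theorem rb_lt {w k T : ℕ} (h0 : 0 < k) (h1 : k < w) (hT : T < 2 ^ w) : rb k T < 2 ^ w := by
  have a1 : 2 ^ 1 ≤ 2 ^ k := Nat.pow_le_pow_right two_pos h0
  have a2 := Nat.div_le_div_left (a := T) a1 (by positivity)
  have a3 : 2 ^ (k + 1) ≤ 2 ^ w := Nat.pow_le_pow_right two_pos h1
  unfold rb
  omega

/-- soundness of the elimination -/
theorem elim_ok {w k : ℕ} (hp : ((2 ^ k - 1 : ℕ) : R) = 0) (k0 : 0 < k) (kw : k < w) {N T : ℕ}
    {c : ℕ → R} {xs : List ℕ} (hT : T < 2 ^ w) (hx : ∀ x ∈ xs, Val w N T c x 0)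
    (h : elim w k (2 ^ w - 1) (2 ^ k - 1) N T (pk w N fun _ => 2 ^ k - 1) xs = true) :
    ∀ j < N, c j = 0 := by
  have hp0 : 0 < 2 ^ k - 1 := by
    have : 2 ^ 1 ≤ 2 ^ k := Nat.pow_le_pow_right two_pos k0
    omega
  have hk : 2 ^ k - 1 < 2 ^ w :=
    lt_of_le_of_lt (Nat.sub_le _ _) (Nat.pow_lt_pow_right one_lt_two kw)
  induction N generalizing T c xs with
  | zero => exact fun j hj => absurd hj (Nat.not_lt_zero j)
  | succ N ih =>
    obtain ⟨x, t, a, hx0, ht, ha, h1⟩ := pick_ex (P := fun x => Val w (N + 1) T c x 0) hx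
      (acc := []) (fun _ h => absurd h List.not_mem_nil) h
    obtain ⟨h2, h3⟩ := cond_false h1
    obtain ⟨h4, h5⟩ := cond_false h3
    generalize Nat.sub (2 ^ k - 1) _ = ni at h2 h5
    have h9 := rb_lt k0 kw hT
    have h9' := rb_lt k0 kw h9
    have h8 := rb_lt k0 kw h9'
    have hv := ((hx0.red hp hk hT).red hp hk h9).red hp hk h9'
    generalize red k _ (red k _ (red k _ x)) = piv at h2 h5 hv
    generalize rb k (rb k (rb k T)) = Tp at h4 h5 h8 hv
    have h6 : T + (2 ^ k - 1) * Tp ≤ 2 ^ w - 1 := Nat.le_of_ble_eq_true h4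
    have h7 : T + (2 ^ k - 1) * Tp < 2 ^ w := by omega
    have hn : (ni * (piv &&& (2 ^ w - 1)) + 1) % (2 ^ k - 1) = 0 := Nat.eq_of_beq_eq_true h2
    have u0 : ∀ x, Val w (N + 1) T c x 0 → (x &&& (2 ^ w - 1)) % (2 ^ k - 1) = 0 →
        Val w N (T + (2 ^ k - 1) * Tp) (fun j => c (j + 1)) (x >>> w) 0 := by
      intro x hx e
      have := hx.lane hT
      rw [← cast_md hp, e, Nat.cast_zero, zero_mul, sub_zero] at this
      exact this.mono (Nat.le_add_right _ _)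
    have u1 := fun x hx => Val.row (x := x) hp hp0 h7 hx hv hn
    have e : Nat.shiftRight (pk w (N + 1) fun _ => 2 ^ k - 1) w = pk w N fun _ => 2 ^ k - 1 :=
      (Nat.shiftRight_eq_div_pow _ _).trans (pk_div (r := fun _ => 2 ^ k - 1) hk)
    rw [e] at h5
    have hc := ih h7 (upd_all u0 u1 ht (upd_all u0 u1 ha fun _ h => absurd h List.not_mem_nil)) h5
    obtain ⟨r, -, -, h10⟩ := hv.lane h8
    rw [sum_eq_zero fun j hj => mul_eq_zero_of_right _ (hc j (mem_range.1 hj))] at h10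
    have a1 := cast_md hp (ni * (piv &&& (2 ^ w - 1)) + 1)
    rw [hn] at a1
    rintro (_ | j) hj
    · push_cast at a1
      linear_combination (-c 0) * a1 - (ni : R) * h10
    · exact hc j (by omega)

end Pool.Agent.Lib.MP_d03834_ag.Core.Cert
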