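import Pool.Agent.Lib.MP_d03834_ag.Core.Bi

/-! Multiplicities at points of a graph, in a form which allows the points to coincide. -/

set_option autoImplicit false

namespace Pool.Agent.Lib.MP_d03834_ag.Core

open scoped Polynomial PowerSeries

section ring
variable {K : Type} [CommRing K]

/-- expansion along the graph y = q x in the direction n -/
noncomputable def nx (q : Fin 2 → K[X]) (n : Fin 2 → K) : Cx K →ₐ[K] K[X][X] :=
  MvPolynomial.aeval ![Polynomial.C Polynomial.X, 1,
    Polynomial.C (q 0) + Polynomial.X * Polynomial.C (Polynomial.C (n 0)),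
    Polynomial.C (q 1) + Polynomial.X * Polynomial.C (Polynomial.C (n 1))]

/-- multiplicity m l at the point of the graph over z l; equal points are infinitely near along
the graph -/
def Dv {ι : Type} [Fintype ι] (q : Fin 2 → K[X]) (n : Fin 2 → K) (z : ι → K) (m : ι → ℤ)
    (F : Cx K) : Prop :=
  ∀ j : ℕ, ∏ l, (Polynomial.X - Polynomial.C (z l)) ^ (m l - j).toNat ∣ (nx q n F).coeff j

/-- the same as a submodule -/
noncomputable def DvS {ι : Type} [Fintype ι] (q : Fin 2 → K[X]) (n : Fin 2 → K) (z : ι → K)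
    (m : ι → ℤ) : Submodule K (Cx K) where
  carrier := {F | Dv q n z m F}
  zero_mem' := fun j => by simp
  add_mem' := fun h h' j => by
    rw [map_add, Polynomial.coeff_add]
    exact dvd_add (h j) (h' j)
  smul_mem' := fun c F h j => by
    rw [map_smul, Polynomial.coeff_smul, Algebra.smul_def]
    exact (h j).mul_left _

theorem Bih.scale {p d : ℤ} {F : Cx K} (h : Bih p d F) {R : Type} [CommRing R] [Algebra K R]
    (a b x0 x1 y0 y1 : R) : MvPolynomial.aeval ![a * x0, a * x1, b * y0, b * y1] F =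
      a ^ p.toNat * b ^ d.toNat * MvPolynomial.aeval ![x0, x1, y0, y1] F := by
  rw [F.as_sum, map_sum, map_sum, Finset.mul_sum]
  refine Finset.sum_congr rfl fun μ hμ => ?_
  obtain ⟨h1, h2⟩ := bih_iff.1 h μ (MvPolynomial.mem_support_iff.1 hμ)
  have e1 : p.toNat = μ 0 + μ 1 := by omega
  have e2 : d.toNat = μ 2 + μ 3 := by omega
  rw [MvPolynomial.aeval_monomial, MvPolynomial.aeval_monomial,
    Finsupp.prod_fintype _ _ fun _ => pow_zero _, Finsupp.prod_fintype _ _ fun _ => pow_zero _,
    Fin.prod_univ_four, Fin.prod_univ_four, e1, e2]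
  simp only [Matrix.cons_val_zero, Matrix.cons_val_one, Matrix.cons_val]
  ring

theorem nx_eval (q : Fin 2 → K[X]) (n : Fin 2 → K) (F : Cx K) {R : Type} [CommRing R]
    [Algebra K R] (x ζ : R) :
    MvPolynomial.aeval ![x, 1, Polynomial.aeval x (q 0) + ζ * algebraMap K R (n 0),
      Polynomial.aeval x (q 1) + ζ * algebraMap K R (n 1)] F =
      (nx q n F).eval₂ (Polynomial.aeval x : K[X] →ₐ[K] R) ζ := by
  induction F using MvPolynomial.induction_on with
  | C a => simp [nx]
  | add p q hp hq => simp only [map_add, hp, hq, Polynomial.eval₂_add]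
  | mul_X p i hp =>
    rw [map_mul, map_mul, hp, Polynomial.eval₂_mul]
    congr 1
    fin_cases i <;> simp [nx, Polynomial.eval₂_add, mul_comm ζ]

end ring

section field
variable {K : Type} [Field K]

theorem ps_unit {L : Type} [Field L] {f : L⟦X⟧} : IsUnit f ↔ ¬PowerSeries.X ∣ f := by
  rw [PowerSeries.isUnit_iff_constantCoeff, PowerSeries.X_dvd_iff, isUnit_iff_ne_zero]

theorem ps_aeval {L : Type} [Field L] [Algebra K L] {x : L⟦X⟧} {w : K}
    (hx : PowerSeries.X ∣ x - algebraMap K L⟦X⟧ w) (g : K[X]) :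
    PowerSeries.X ∣ Polynomial.aeval x g - algebraMap K L⟦X⟧ (g.eval w) := by
  obtain ⟨r, hr⟩ := Polynomial.X_sub_C_dvd_sub_C_eval (a := w) (p := g)
  have := congrArg (Polynomial.aeval x) hr
  simp only [map_sub, map_mul, Polynomial.aeval_X, Polynomial.aeval_C] at this
  rw [this]
  exact hx.mul_right _

theorem ps_const {L : Type} [Field L] [Algebra K L] {c : K} (hc : c ≠ 0) {f : L⟦X⟧}
    (h : PowerSeries.X ∣ f - algebraMap K L⟦X⟧ c) : IsUnit f := by
  rw [ps_unit]
  intro h1
  have h2 := dvd_sub h1 h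
  rw [sub_sub_cancel] at h2
  exact ps_unit.1 ((Ne.isUnit hc).map _) h2

/-- the order along an arc which touches the graph -/
theorem Dv.arc {ι : Type} [Fintype ι] {q : Fin 2 → K[X]} {n : Fin 2 → K} {z : ι → K} {m : ι → ℤ}
    {F : Cx K} {p d : ℤ} (hF : Bih p d F) (h : Dv q n z m F) {w : K}
    (hn : (q 0).eval w * n 1 - (q 1).eval w * n 0 ≠ 0) (S : Finset ι) (hS : ∀ l ∈ S, z l = w)
    {L : Type} [Field L] [Algebra K L] {x y0 y1 : L⟦X⟧}
    (hx : PowerSeries.X ∣ x - algebraMap K L⟦X⟧ w) (hy : IsUnit y0 ∨ IsUnit y1)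
    (hg : PowerSeries.X ^ S.card ∣ Polynomial.aeval x (q 1) * y0 - Polynomial.aeval x (q 0) * y1) :
    PowerSeries.X ^ (∑ l ∈ S, m l).toNat ∣ MvPolynomial.aeval ![x, 1, y0, y1] F := by
  classical
  rcases S.eq_empty_or_nonempty with rfl | hne
  · simp
  set a0 := Polynomial.aeval x (q 0)
  set a1 := Polynomial.aeval x (q 1)
  set n0 := algebraMap K L⟦X⟧ (n 0)
  set n1 := algebraMap K L⟦X⟧ (n 1)
  have hD : IsUnit (a0 * n1 - a1 * n0) := ps_const hn (by
    have := dvd_sub ((ps_aeval hx (q 0)).mul_right n1) ((ps_aeval hx (q 1)).mul_right n0)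
    convert this using 1
    simp only [map_sub, map_mul]
    ring)
  obtain ⟨D, hD⟩ := hD.exists_right_inv
  have h1 : PowerSeries.X ∣ a1 * y0 - a0 * y1 :=
    (dvd_pow_self _ (Finset.card_pos.2 hne).ne').trans hg
  have hμ : IsUnit ((y0 * n1 - y1 * n0) * D) := by
    rw [ps_unit]
    intro h2
    rcases hy with hy | hy <;> refine ps_unit.1 hy ?_
    · convert dvd_sub (h2.mul_right a0) (h1.mul_right (D * n0)) using 1
      linear_combination (-y0) * hD
    · convert dvd_sub (h2.mul_right a1) (h1.mul_right (D * n1)) using 1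
      linear_combination (-y1) * hD
  obtain ⟨ν, hν⟩ := hμ.exists_right_inv
  have e := hF.scale 1 ((y0 * n1 - y1 * n0) * D) x 1 (a0 + -((a1 * y0 - a0 * y1) * D * ν) * n0)
    (a1 + -((a1 * y0 - a0 * y1) * D * ν) * n1)
  have e0 : (y0 * n1 - y1 * n0) * D * (a0 + -((a1 * y0 - a0 * y1) * D * ν) * n0) = y0 := by
    linear_combination y0 * hD - (a1 * y0 - a0 * y1) * D * n0 * hν
  have e1 : (y0 * n1 - y1 * n0) * D * (a1 + -((a1 * y0 - a0 * y1) * D * ν) * n1) = y1 := by
    linear_combination y1 * hD - (a1 * y0 - a0 * y1) * D * n1 * hν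
  rw [e0, e1, one_mul, one_mul, nx_eval] at e
  rw [e, Polynomial.eval₂_eq_sum, Polynomial.sum_def]
  refine Dvd.dvd.mul_left (Finset.dvd_sum fun j _ => ?_) _
  have h3 : PowerSeries.X ^ (∑ l ∈ S, (m l - j).toNat) ∣
      Polynomial.aeval x ((nx q n F).coeff j) := by
    refine Dvd.dvd.trans ?_ (map_dvd (Polynomial.aeval x) (h j))
    rw [map_prod, ← Finset.prod_pow_eq_pow_sum]
    refine (Finset.prod_dvd_prod_of_dvd _ _ fun l hl => ?_).trans
      (Finset.prod_dvd_prod_of_subset _ _ _ S.subset_univ)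
    rw [map_pow, map_sub, Polynomial.aeval_X, Polynomial.aeval_C, hS l hl]
    exact pow_dvd_pow_of_dvd hx _
  have h4 : (PowerSeries.X ^ S.card) ^ j ∣ (-((a1 * y0 - a0 * y1) * D * ν)) ^ j :=
    pow_dvd_pow_of_dvd (((hg.mul_right D).mul_right ν).neg_right) j
  refine Dvd.dvd.trans ?_ (mul_dvd_mul h3 h4)
  rw [← pow_mul, ← pow_add]
  refine pow_dvd_pow _ ?_
  have h5 : ∑ l ∈ S, m l ≤ ((∑ l ∈ S, (m l - j).toNat + S.card * j : ℕ) : ℤ) := by
    push_cast
    rw [← nsmul_eq_mul, ← Finset.sum_const, ← Finset.sum_add_distrib]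
    exact Finset.sum_le_sum fun l _ => by omega
  omega

/-- b is not in the ground field -/
def Gnr (K : Type) {L : Type} [Field K] [Field L] [Algebra K L] (b : L) : Prop :=
  ∀ u v : K, algebraMap K L u + b * algebraMap K L v = 0 → u = 0 ∧ v = 0

theorem cl_theta (w : K) (i : ℕ) (G : K[X][X]) (e j : ℕ) :
    ((G.eval₂ ((Polynomial.mapRingHom (Polynomial.C : K →+* K[X])).comp
      (Polynomial.taylorAlgHom w : K[X] →ₐ[K] K[X]))
      (Polynomial.X ^ i * Polynomial.C Polynomial.X)).coeff (e + i * j)).coeff j =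
      (Polynomial.taylor w (G.coeff j)).coeff e := by
  induction G using Polynomial.induction_on' with
  | add p q hp hq => simp only [Polynomial.eval₂_add, Polynomial.coeff_add, map_add, hp, hq]
  | monomial k a =>
    rw [Polynomial.eval₂_monomial, mul_pow, ← pow_mul, ← map_pow, ← mul_assoc,
      Polynomial.coeff_mul_C, Polynomial.coeff_mul_X_pow' (n := i * k), Polynomial.coeff_monomial]
    simp only [RingHom.comp_apply, Polynomial.coe_mapRingHom, Polynomial.coeff_map,
      RingHom.coe_coe, Polynomial.taylorAlgHom_apply]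
    by_cases hk : k = j
    · subst hk
      rw [if_pos (Nat.le_add_left _ _), if_pos rfl, Nat.add_sub_cancel]
      simp
    · rw [if_neg hk]
      split_ifs
      · simp [Ne.symm hk]
      · simp

theorem prod_dvd_fiber {ι : Type} [Fintype ι] [DecidableEq K] (z : ι → K) (k : ι → ℕ) (g : K[X])
    (h : ∀ w, (Polynomial.X - Polynomial.C w) ^ (∑ l with z l = w, k l) ∣ g) :
    ∏ l, (Polynomial.X - Polynomial.C (z l)) ^ k l ∣ g := by
  rw [← Finset.prod_fiberwise_of_maps_to (t := Finset.univ.image z) (g := z)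
    fun l hl => Finset.mem_image_of_mem z hl]
  refine Finset.prod_dvd_of_coprime (fun a _ b _ hab => ?_) fun w _ => ?_
  · refine IsCoprime.prod_left fun l hl => IsCoprime.prod_right fun l' hl' => ?_
    rw [(Finset.mem_filter.1 hl).2, (Finset.mem_filter.1 hl').2]
    exact (Polynomial.isCoprime_X_sub_C_of_isUnit_sub (sub_ne_zero.2 hab).isUnit).pow
  · rw [Finset.prod_congr rfl fun l hl => by rw [(Finset.mem_filter.1 hl).2],
      Finset.prod_pow_eq_pow_sum]
    exact h w

/-- it is enough to test generic arcs -/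
theorem dv_of_arc {ι : Type} [Fintype ι] {q : Fin 2 → K[X]} {n : Fin 2 → K} {z : ι → K}
    {m : ι → ℤ} {F : Cx K}
    (h : ∀ (w : K) (j : ℕ) (S : Finset ι), (∀ l, l ∈ S ↔ z l = w ∧ j < m l) → S.Nonempty →
      ∀ (L : Type) [Field L] [Algebra K L] (b : L) (x : L⟦X⟧), Gnr K b →
        x = algebraMap K L⟦X⟧ w + PowerSeries.X →
        PowerSeries.X ^ (∑ l ∈ S, m l).toNat ∣ MvPolynomial.aeval ![x, 1,
          Polynomial.aeval x (q 0) +
            PowerSeries.X ^ S.card * PowerSeries.C b * algebraMap K L⟦X⟧ (n 0),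
          Polynomial.aeval x (q 1) +
            PowerSeries.X ^ S.card * PowerSeries.C b * algebraMap K L⟦X⟧ (n 1)] F) :
    Dv q n z m F := by
  classical
  intro j
  refine prod_dvd_fiber z _ _ fun w => ?_
  let S : Finset ι := Finset.univ.filter fun l => z l = w ∧ j < m l
  have hS : ∀ l, l ∈ S ↔ z l = w ∧ j < m l := fun l => by simp [S]
  have e1 : ∑ l with z l = w, (m l - j).toNat = ∑ l ∈ S, (m l - j).toNat := by
    refine (Finset.sum_subset (fun l hl => by simpa using ((hS l).1 hl).1) fun l h1 h2 => ?_).symm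
    rw [hS] at h2
    have := mt (And.intro (Finset.mem_filter.1 h1).2) h2
    omega
  rw [e1]
  rcases S.eq_empty_or_nonempty with h0 | h0
  · simp [h0]
  have e2 : (∑ l ∈ S, m l).toNat = ∑ l ∈ S, (m l - j).toNat + S.card * j := by
    have : ∑ l ∈ S, m l = ((∑ l ∈ S, (m l - j).toNat + S.card * j : ℕ) : ℤ) := by
      push_cast
      rw [← nsmul_eq_mul, ← Finset.sum_const, ← Finset.sum_add_distrib]
      exact Finset.sum_congr rfl fun l hl => by have := ((hS l).1 hl).2; omega
    omega
  have hb : Gnr K (RatFunc.X : RatFunc K) := fun u v huv => by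
    have e : algebraMap K[X] (RatFunc K) (Polynomial.C u + Polynomial.X * Polynomial.C v) = 0 := by
      rw [map_add, map_mul, RatFunc.algebraMap_X, RatFunc.algebraMap_C, RatFunc.algebraMap_C]
      exact huv
    rw [map_eq_zero_iff _ (RatFunc.algebraMap_injective K)] at e
    have e0 := congrArg (Polynomial.coeff · 0) e
    have e1 := congrArg (Polynomial.coeff · 1) e
    exact ⟨by simpa using e0, by simpa using e1⟩
  have h1 := h w j S hS h0 (RatFunc K) RatFunc.X _ hb rfl
  rw [nx_eval] at h1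
  generalize nx q n F = G at h1 ⊢
  let φ : K[X][X] →+* (RatFunc K)⟦X⟧ :=
    (Polynomial.coeToPowerSeries.ringHom).comp (Polynomial.mapRingHom (algebraMap K[X] (RatFunc K)))
  have e3 : φ (G.eval₂ ((Polynomial.mapRingHom (Polynomial.C : K →+* K[X])).comp
      (Polynomial.taylorAlgHom w : K[X] →ₐ[K] K[X]))
      (Polynomial.X ^ S.card * Polynomial.C Polynomial.X)) =
      G.eval₂ (Polynomial.aeval (algebraMap K (RatFunc K)⟦X⟧ w + PowerSeries.X) :
        K[X] →ₐ[K] (RatFunc K)⟦X⟧) (PowerSeries.X ^ S.card * PowerSeries.C RatFunc.X) := by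
    rw [Polynomial.hom_eval₂]
    congr 1
    · refine Polynomial.ringHom_ext (fun a => ?_) ?_
      · simp [φ, PowerSeries.algebraMap_apply]
      · simp [φ, PowerSeries.algebraMap_apply, add_comm]
    · rw [map_mul, map_pow]
      simp [φ]
  rw [← e3, PowerSeries.X_pow_dvd_iff] at h1
  have h2 : Polynomial.X ^ (∑ l ∈ S, (m l - j).toNat) ∣ Polynomial.taylor w (G.coeff j) := by
    rw [Polynomial.X_pow_dvd_iff]
    intro e he
    have h3 := h1 (e + S.card * j) (by omega)
    simp only [φ, RingHom.comp_apply, Polynomial.coeToPowerSeries.ringHom_apply,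
      Polynomial.coeff_coe, Polynomial.coe_mapRingHom, Polynomial.coeff_map] at h3
    rw [map_eq_zero_iff _ (RatFunc.algebraMap_injective K)] at h3
    rw [← cl_theta w S.card G e j, h3, Polynomial.coeff_zero]
  simpa [Polynomial.taylor_taylor, sub_eq_add_neg] using
    map_dvd (Polynomial.taylorAlgHom (-w)) h2

end field

end Pool.Agent.Lib.MP_d03834_ag.Core
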