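import Pool.Agent.Lib.MP_d03834_ag.Core.DP

/-! Two disjoint lines whose values add up to one. -/

set_option autoImplicit false

namespace Pool.Agent.Lib.MP_d03834_ag.Core

variable {L k Γ : Type} [AddCommGroup L] [Field k] [LinearOrderedCommGroupWithZero Γ]

namespace Lat

variable {T : Lat L} {I : Invo k Γ}

/-- a small line and a disjoint line with the conjugate value: the sum is in E up to sign -/
theorem P.pair_small {n : ℕ} {χ : L → k} {E : Set L} (h : T.P I n χ E) {g l : L}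
    (hl : l ∈ T.Λ) (h0 : T.ip g l = 0) (hr : g - l ∈ T.Φ) (hv : I.v (χ g) < 1)
    (h1 : χ l = I.ι (χ g)) : g + l ∈ E ∨ -(g + l) ∈ E := by
  have hj := h.j
  have hu := I.unit _ (hj.ch.2 g) hv
  have hi := I.invol _ (hj.ch.2 g) hv
  have hb : Bk I (χ l) := by
    rw [h1]
    exact ⟨hu, by rw [hi]; exact hj.ch.2 g, by rw [hi]; exact hv, by rw [hi]⟩
  rcases n with _ | n
  · exact absurd hb (h.2.1 l hl)
  have h2 := h.2.2 l hl hb
  have h3 := h2.root (g - l) hr (by
    rw [h2.j.ch.sub, flip_orth χ h0, flip_self hl (hj.ch.2 l), h1, hi, div_self (hj.ch.2 g)])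
  have h4 : T.refl l (g - l) = g + l := by
    rw [refl_sub, refl_orth h0, refl_self hl, sub_neg_eq_add]
  simpa only [Set.mem_preimage, refl_neg, h4] using h3

end Lat

namespace DP

variable {D : DP L}

/-- the difference of two disjoint lines is a root -/
theorem sub_root {g l : L} (hg : g ∈ D.lat.Λ) (hl : l ∈ D.lat.Λ) (h0 : D.ip g l = 0) :
    g - l ∈ D.lat.Φ := by
  refine ⟨?_, ?_, sub_mem hg.2.2 hl.2.2⟩
  · simp [hg.1, hl.1, h0, D.symm l g]
  · simp [hg.2.1, hl.2.1]

/-- two disjoint lines whose values add up to one -/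
theorem P_pair {v : Valuation k Γ} {n : ℕ} {χ : L → k} {E : Set L}
    (h : D.lat.P (Invo.one v) n χ E) {g l : L} (hg : g ∈ D.lat.Λ) (hl : l ∈ D.lat.Λ)
    (h0 : D.ip g l = 0) (h1 : χ g + χ l = 1) :
    (v (χ g) = 1 ∧ v (χ l) = 1) ∨ g + l ∈ E ∨ -(g + l) ∈ E := by
  rcases (h.j.le g hg).eq_or_lt with h2 | h2
  · rcases (h.j.le l hl).eq_or_lt with h3 | h3
    · exact Or.inl ⟨h2, h3⟩
    · have h0' : D.ip l g = 0 := (D.symm l g).trans h0
      have := h.pair_small hg h0' (sub_root hl hg h0') h3 (eq_sub_of_add_eq h1)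
      rw [add_comm] at this
      exact Or.inr this
  · exact Or.inr (h.pair_small hl h0 (sub_root hg hl h0) h2 (eq_sub_of_add_eq' h1))

/-- the form which the descent uses: the class x is not negative on E and on the unit lines;
the sign of the pair is fixed by any class y which is not negative on the part of E where
x is positive -/
theorem P_pair_nonneg {v : Valuation k Γ} {n : ℕ} {χ : L → k} {E : Set L} {x y : L}
    (h : D.lat.P (Invo.one v) n χ E) (hx : D.lat.Pos (Invo.one v) χ x)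
    (hE : ∀ b ∈ E, 0 ≤ D.ip x b ∧ (0 < D.ip x b → 0 ≤ D.ip y b)) {g l : L} (hg : g ∈ D.lat.Λ)
    (hl : l ∈ D.lat.Λ) (h0 : D.ip g l = 0) (h1 : χ g + χ l = 1) (hy : 0 < D.ip y (g + l)) :
    0 ≤ D.ip x (g + l) := by
  rcases P_pair h hg hl h0 h1 with h2 | h2 | h2
  · have h3 := hx g hg h2.1
    have h4 := hx l hl h2.2
    simp only [lat_ip] at h3 h4
    rw [map_add]
    omega
  · exact (hE _ h2).1
  · have h3 := hE _ h2
    simp only [map_neg] at h3
    omega

/-- the same for a root of period one -/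
theorem P_root_nonneg {I : Invo k Γ} {n : ℕ} {χ : L → k} {E : Set L} {x y : L}
    (h : D.lat.P I n χ E) (hE : ∀ b ∈ E, 0 ≤ D.ip x b ∧ (0 < D.ip x b → 0 ≤ D.ip y b)) {α : L}
    (hα : α ∈ D.lat.Φ) (h1 : χ α = 1) (hy : 0 < D.ip y α) : 0 ≤ D.ip x α := by
  rcases h.root α hα h1 with h2 | h2
  · exact (hE _ h2).1
  · have h3 := hE _ h2
    simp only [map_neg] at h3
    omega

end DP

end Pool.Agent.Lib.MP_d03834_ag.Core
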