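import Pool.Agent.Lib.MP_d03834_ag.Core.ShKP
import Pool.Agent.Lib.MP_d03834_ag.Core.Pair

/-! The greedy descent with any set of effective roots: the sign invariant. -/

set_option autoImplicit false

namespace Pool.Agent.Lib.MP_d03834_ag.Core

variable {k Γ : Type} [Field k] [LinearOrderedCommGroupWithZero Γ]

/-- The descent by steepest root reflections, after all flips. -/
theorem DP.descentE {L : Type} [AddCommGroup L] {D : DP L} {I : Invo k Γ} (S : Set L)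
    (hf : S.Finite) (hS : S ⊆ D.lat.Φ) (𝒢 : Finset L) (hG : ∀ G ∈ 𝒢, G ∈ D.lat.Λ)
    (hGG : ∀ G ∈ 𝒢, ∀ G' ∈ 𝒢, G ≠ G' → D.ip G G' = 0) (h : L)
    (h1 : ∀ α ∈ S, 1 ≤ D.ip α h) (h2 : ∀ G ∈ 𝒢, D.ip G h = 0)
    (Q : (L → k) → Set L → L → Prop)
    (neg : ∀ n χ E x, D.lat.P I n χ E → D.ip x h < 0 → Q χ E x)
    (nef : ∀ n χ E x, D.lat.P I n χ E → D.lat.Pos I χ x → (∀ α ∈ S, 0 ≤ D.ip x α) →
      (∀ G ∈ 𝒢, 0 ≤ D.ip x G) → Q χ E x)
    (stepR : ∀ n χ E x, ∀ α ∈ S, D.lat.P I n χ E → D.lat.Pos I χ x → D.ip x α < 0 →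
      (∀ β ∈ S, D.ip x α ≤ D.ip x β) → (∀ G ∈ 𝒢, 0 ≤ D.ip x G) →
      Q (χ ∘ D.rf α) (D.rf α ⁻¹' E) (D.rf α x) → Q χ E x)
    (stepG : ∀ n χ E x, ∀ G ∈ 𝒢, D.lat.P I n χ E → D.lat.Pos I χ x → I.v (χ G) < 1 →
      D.ip x G < 0 → Q (D.lat.flip I G χ) (D.lat.refl G ⁻¹' E) (D.lat.refl G x) → Q χ E x)
    {n : ℕ} {χ : L → k} {E : Set L} {x : L} (hP : D.lat.P I n χ E) (hx : D.lat.Pos I χ x) :
    Q χ E x := by
  classical
  generalize hN : (D.ip x h + 1).toNat = N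
  induction N using Nat.strong_induction_on generalizing n χ E x with
  | _ N ih => ?_
  generalize hM : (𝒢.filter fun G => D.ip x G < 0).card = M
  induction M using Nat.strong_induction_on generalizing n χ E x with
  | _ M ih' => ?_
  by_cases h3 : D.ip x h < 0
  · exact neg n χ E x hP h3
  by_cases h4 : ∀ G ∈ 𝒢, 0 ≤ D.ip x G
  · by_cases h5 : ∀ α ∈ S, 0 ≤ D.ip x α
    · exact nef n χ E x hP hx h5 h4
    push Not at h5
    obtain ⟨β, hβ, h5⟩ := h5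
    obtain ⟨α, hα, hm⟩ := Set.exists_min_image S (fun α => D.ip x α) hf ⟨β, hβ⟩
    have h7 : D.ip x α < 0 := (hm β hβ).trans_lt h5
    refine stepR n χ E x α hα hP hx h7 hm h4
      (ih _ ?_ (DP.P_rf (hS hα) hP) (DP.Pos_rf (hS hα) hx) rfl)
    have h6 : D.ip (D.rf α x) h < D.ip x h := by
      rw [DP.ip_rf]
      nlinarith [h1 α hα]
    omega
  push Not at h4
  obtain ⟨G, hG1, h4⟩ := h4
  have hv := hx.small hP.j (hG G hG1) h4
  have e : ∀ y, D.ip (D.lat.refl G x) y = D.ip x y + 2 * D.ip x G * D.ip G y :=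
    Lat.ip_refl (T := D.lat) G x
  refine stepG n χ E x G hG1 hP hx hv h4 (ih' _ ?_ (hP.flip (hG G hG1) hv)
    (hx.flip hP.j (hG G hG1) hv h4.le) (by rw [e, h2 G hG1, ← hN]; simp) rfl)
  rw [← hM]
  refine Finset.card_lt_card ⟨fun G' hG' => ?_, fun hh => ?_⟩
  · rw [Finset.mem_filter, e] at hG'
    refine Finset.mem_filter.2 ⟨hG'.1, ?_⟩
    by_cases h5 : G = G'
    · exact h5 ▸ h4
    · simpa [hGG G hG1 G' hG'.1 h5] using hG'.2
  · have h5 := (Finset.mem_filter.1 (hh (Finset.mem_filter.2 ⟨hG1, h4⟩))).2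
    rw [e, (hG G hG1).1] at h5
    omega

/-- the sign invariant -/
def Eok (u : CL) (E : Set CL) : Prop :=
  ∀ b ∈ E, b ∈ cD.M ∧ cip b b = -2 ∧ 0 ≤ cip u b ∧ (0 < cip u b → 0 ≤ cip hC b)

theorem cip_comm (u w : CL) : cip u w = cip w u := cD.symm u w

theorem eok_nJ {n J q : ℤ} (h : n * J + J * n - n * n - q = -2) (hq : 0 ≤ q) (hD : 0 ≤ n + J) :
    0 ≤ n ∧ 0 ≤ J := by
  constructor
  · by_contra h1
    nlinarith [mul_nonneg (by omega : 0 ≤ -n - 1) (by omega : 0 ≤ J - 1)]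
  · by_contra h1
    nlinarith [mul_nonneg (by omega : 0 ≤ n - 1) (by omega : 0 ≤ -J - 1)]

theorem eok_small {x : ℤ} (h : x * x ≤ 2) : x = -1 ∨ x = 0 ∨ x = 1 := by
  have h1 : x < 2 := by nlinarith
  have h2 : -2 < x := by nlinarith
  omega

theorem eok_H {n J q c d : ℤ} (h : n * J + J * n - n * n - q - (c * c + d * d) = -2) (hq : 0 ≤ q)
    (hD : 0 ≤ n + J) (h1 : n + J + (J - n - c) < 0) :
    J = 0 ∧ c = 1 ∧ ((n = 1 ∧ d = 0 ∧ q = 0) ∨ (n = 0 ∧ q + d * d = 1)) := by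
  have hd := mul_self_nonneg d
  obtain ⟨h2, h3⟩ := eok_nJ (q := q + (c * c + d * d)) (by omega)
    (by nlinarith [mul_self_nonneg c]) hD
  have h4 : (2 * J + 1) * (2 * J + 1) ≤ c * c := mul_self_le_mul_self (by omega) (by omega)
  have h5 : J = 0 := by
    by_contra h6
    nlinarith [mul_self_nonneg (n - J), mul_self_nonneg J, (by omega : 1 ≤ J)]
  subst h5
  have hn := mul_self_nonneg n
  rcases eok_small (x := c) (by omega) with rfl | rfl | rfl <;> try omega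
  rcases eok_small (x := n) (by omega) with rfl | rfl | rfl <;> try omega
  exact ⟨rfl, rfl, Or.inl ⟨rfl, mul_self_eq_zero.1 (by omega), by omega⟩⟩

theorem eok_V {n J q x y : ℤ} (h : n * J + J * n - n * n - (x * x + y * y + q) = -2) (hq : 0 ≤ q)
    (hD : 0 ≤ n + J) (h1 : n + J + (n - x - y) < 0) : n = 0 ∧ (J = 0 ∨ J = 1) := by
  obtain ⟨h2, h3⟩ := eok_nJ h (by nlinarith [mul_self_nonneg x, mul_self_nonneg y]) hD
  have h4 : (2 * n + J + 1) * (2 * n + J + 1) ≤ (x + y) * (x + y) :=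
    mul_self_le_mul_self (by omega) (by omega)
  have h5 : 6 * (n * n) + J * J + 4 * n + 2 * J ≤ 3 := by nlinarith [mul_self_nonneg (x - y)]
  have hn := mul_self_nonneg n
  have hJ := mul_self_nonneg J
  refine ⟨by omega, ?_⟩
  by_contra h6
  nlinarith [(by omega : 2 ≤ J)]

theorem five_split (i j : Fin 5) (hij : i ≠ j) : ∃ a b c : Fin 5, a ≠ j ∧ b ≠ j ∧ c ≠ j ∧
    a ≠ i ∧ b ≠ i ∧ c ≠ i ∧ ∀ f : Fin 5 → ℤ, ∑ l, f l = f i + f j + (f a + f b + f c) := by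
  obtain ⟨a, b, c, h1, h2, h3, h4, h5, h6, h7, h8, h9, h⟩ : ∃ a b c : Fin 5, a ≠ j ∧ b ≠ j ∧
      c ≠ j ∧ a ≠ i ∧ b ≠ i ∧ c ≠ i ∧ a ≠ b ∧ a ≠ c ∧ b ≠ c ∧
      (Finset.univ : Finset (Fin 5)) = {i, j, a, b, c} := by
    revert i j
    decide
  refine ⟨a, b, c, h1, h2, h3, h4, h5, h6, fun f => ?_⟩
  rw [h, Finset.sum_insert (by simp [hij, h4.symm, h5.symm, h6.symm]),
    Finset.sum_insert (by simp [h1.symm, h2.symm, h3.symm]), Finset.sum_insert (by simp [h7, h8]),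
    Finset.sum_pair h9]
  ring

theorem eok_stepH {u b : CL} (s : Fin 2) (hb : b ∈ cD.M) (h2 : cip b b = -2) (h3 : 0 < cip u b)
    (hD : 0 ≤ cip hC b) (h4 : cip u (aH s) < 0) (h5 : cip u (aH s) ≤ cip u (aH s.rev))
    (hc : ∀ r, 0 ≤ u.2.2 r) : 0 ≤ cip hC b + cip b (aH s) := by
  by_contra h6
  have e : ∀ f : Fin 2 → ℤ, ∑ r, f r = f s + f s.rev := fun f => by
    fin_cases s <;> simp [add_comm]
  rw [cip_comm hC, cip_hC] at hD h6
  rw [cip_aH] at h4 h6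
  rw [cip_aH, cip_aH] at h5
  rw [cip, e] at h2 h3
  rw [cD_M] at hb
  have hq : 0 ≤ ∑ i, b.2.1 i * b.2.1 i := Finset.sum_nonneg fun _ _ => mul_self_nonneg _
  obtain ⟨a1, a2, a3⟩ := eok_H h2 hq hD (not_le.1 h6)
  have z : ∑ i, b.2.1 i * b.2.1 i = 0 → ∑ i, u.2.1 i * b.2.1 i = 0 := fun h0 =>
    Finset.sum_eq_zero fun i hi => by
      rw [mul_self_eq_zero.1 ((Finset.sum_eq_zero_iff_of_nonneg
        fun _ _ => mul_self_nonneg _).1 h0 i hi), mul_zero]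
  have c0 := hc s
  have c1 := hc s.rev
  rcases a3 with ⟨a3, a4, a5⟩ | ⟨a3, a4⟩
  · rw [a1, a2, a3, a4, z a5] at h3
    omega
  · have p : Even (∑ i, b.2.1 i * b.2.1 i - ∑ i, b.2.1 i) := by
      rw [← Finset.sum_sub_distrib]
      exact Finset.even_sum _ fun i _ => by
        rw [← mul_sub_one]
        exact Int.even_mul_pred_self _
    obtain ⟨r, hr⟩ := p
    have := mul_self_nonneg (b.2.2 s.rev)
    have a5 : ∑ i, b.2.1 i * b.2.1 i = 0 := by omega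
    rw [a1, a2, a3, z a5] at h3
    rcases eok_small (x := b.2.2 s.rev) (by omega) with a6 | a6 | a6 <;> rw [a6] at h3 a4 <;> omega

theorem eok_stepV {u b : CL} {i j : Fin 5} (hij : i ≠ j) (hb : b ∈ cD.M) (h2 : cip b b = -2)
    (h3 : 0 < cip u b) (hD : 0 ≤ cip hC b) (h4 : cip u (aV i j) < 0)
    (h5 : ∀ l r, l ≠ r → cip u (aV i j) ≤ cip u (aV l r)) : 0 ≤ cip hC b + cip b (aV i j) := by
  by_contra h6
  obtain ⟨a, a', a'', j1, j2, j3, i1, i2, i3, e⟩ := five_split i j hij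
  have m1 := h5 _ _ j1
  have m2 := h5 _ _ j2
  have m3 := h5 _ _ j3
  have m4 := h5 _ _ i1
  have m5 := h5 _ _ i2
  have m6 := h5 _ _ i3
  simp only [cip_aV] at m1 m2 m3 m4 m5 m6 h4 h6
  rw [cip_comm hC, cip_hC] at hD h6
  rw [cip, e, Fin.sum_univ_two] at h2 h3
  rw [cD_M, e] at hb
  generalize b.2.1 i = x at *
  generalize b.2.1 j = y at *
  generalize b.2.1 a = p at *
  generalize b.2.1 a' = q at *
  generalize b.2.1 a'' = r at *
  generalize b.2.2 0 = c at *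
  generalize b.2.2 1 = d at *
  have k1 := mul_self_nonneg x
  have k2 := mul_self_nonneg y
  have k3 := mul_self_nonneg p
  have k4 := mul_self_nonneg q
  have k5 := mul_self_nonneg r
  have k6 := mul_self_nonneg c
  have k7 := mul_self_nonneg d
  obtain ⟨a1, a2⟩ := eok_V (q := p * p + q * q + r * r + (c * c + d * d)) (x := x) (y := y)
    (by omega) (by omega) hD (not_le.1 h6)
  rw [a1] at h2 h3 h6
  rcases a2 with a2 | a2 <;> rw [a2] at h2 h3 h6 hb <;>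
    rcases eok_small (x := x) (by omega) with rfl | rfl | rfl <;>
    rcases eok_small (x := y) (by omega) with rfl | rfl | rfl <;> (try omega) <;>
    rcases eok_small (x := p) (by omega) with rfl | rfl | rfl <;> (try omega) <;>
    rcases eok_small (x := q) (by omega) with rfl | rfl | rfl <;> (try omega) <;>
    rcases eok_small (x := r) (by omega) with rfl | rfl | rfl <;> (try omega) <;>
    rw [mul_self_eq_zero.1 (by omega : c * c = 0), mul_self_eq_zero.1 (by omega : d * d = 0)]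
      at h3 <;> omega

theorem Eok.rf {u α : CL} {E : Set CL} (h : Eok u E) (hα : α ∈ cD.lat.Φ) (h1 : cip hC α = 1)
    (h2 : ∀ b ∈ cD.M, cip b b = -2 → 0 < cip u b → 0 ≤ cip hC b → 0 ≤ cip hC b + cip b α) :
    Eok (cD.rf α u) (cD.rf α ⁻¹' E) := fun b hb => by
  obtain ⟨a1, a2, a3, a4⟩ := h _ hb
  have e : cip (cD.rf α u) b = cip u (cD.rf α b) := by
    conv_lhs => rw [← cD.rf_rf hα.1 b]
    exact (cD.rr_iso hα).ip u _
  refine ⟨cD.rf_rf hα.1 b ▸ rf_M hα a1, (cip_rf hα b).symm.trans a2, e ▸ a3, fun h3 => ?_⟩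
  have h4 := h2 _ a1 a2 (e ▸ h3) (a4 (e ▸ h3))
  have h5 := cD.ip_rf α (cD.rf α b) hC
  rw [cD.rf_rf hα.1, cD_ip, cD_ip, cD_ip, cD_ip, cip_comm α, h1, cip_comm b,
    cip_comm (cD.rf α b) hC] at h5
  omega

theorem Eok.flip {u : CL} {E : Set CL} (h : Eok u E) (s : Fin 2) :
    Eok (cD.lat.refl (eb s) u) (cD.lat.refl (eb s) ⁻¹' E) := fun b hb => by
  obtain ⟨a1, a2, a3, a4⟩ := h _ hb
  have e : cip (cD.lat.refl (eb s) u) b = cip u (cD.lat.refl (eb s) b) := by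
    conv_lhs => rw [← Lat.refl_refl (T := cD.lat) (eb_line s) b]
    exact Lat.ip_refl_refl (T := cD.lat) (eb_line s) u _
  refine ⟨Lat.refl_refl (T := cD.lat) (eb_line s) b ▸ refl_M s a1, (cip_refl s b).symm.trans a2,
    e ▸ a3, fun h3 => ?_⟩
  have h4 := a4 (e ▸ h3)
  rw [cip_comm, cip_hC, refl_eb] at h4
  rwa [cip_comm, cip_hC]

/-- the base state -/
theorem Eok.base {χ : CL → k} {u : CL}
    (rt : ∀ α ∈ cD.lat.Φ, χ α = 1 → 0 < cip u α → 0 ≤ cip hC α) :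
    Eok u {α | α ∈ cD.lat.Φ ∧ χ α = 1 ∧ 0 ≤ cip u α} := fun b hb =>
  ⟨hb.1.2.2, hb.1.1, hb.2.2, rt b hb.1 hb.2.1⟩

theorem neg_root {α : CL} (h : α ∈ cD.lat.Φ) : -α ∈ cD.lat.Φ :=
  ⟨by simpa using h.1, by simpa using h.2.1, neg_mem h.2.2⟩

theorem P_base {v : Valuation k Γ} {χ : CL → k} (u : CL) (hχ : IsCh χ)
    (le : ∀ g ∈ cD.lat.Λ, v (χ g) ≤ 1) (nb : ∀ g ∈ cD.lat.Λ, ¬Lat.Bk (Invo.one v) (χ g)) :
    cD.lat.P (Invo.one v) 0 χ {α | α ∈ cD.lat.Φ ∧ χ α = 1 ∧ 0 ≤ cip u α} :=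
  Lat.P.base hχ le nb fun α hα h1 => by
    rcases le_total 0 (cip u α) with h2 | h2
    · exact Or.inl ⟨hα, h1, h2⟩
    · refine Or.inr ⟨neg_root hα, by rw [hχ.neg, h1, inv_one], ?_⟩
      rw [← cD_ip, map_neg, cD_ip]
      omega

/-- the inequalities which the moves and the end of the descent may use -/
structure Sg (χ : CL → k) (u : CL) : Prop where
  ch : IsCh χ
  M : u ∈ cD.M
  V : ∀ i j, i ≠ j → χ (aV i j) = 1 → u.2.1 i + u.2.1 j ≤ u.1.1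
  H : ∀ s, χ (aH s) = 1 → u.2.2 s ≤ u.1.2 - u.1.1
  P : ∀ s, χ e5 + χ (eb s) = 1 → 0 ≤ u.1.2 - u.1.1 + u.2.2 s
  rt : ∀ α ∈ cD.lat.Φ, χ α = 1 → 0 < cip hC α → 0 ≤ cip u α

theorem Eok.sg {v : Valuation k Γ} {n : ℕ} {χ : CL → k} {E : Set CL} {u : CL} (h : Eok u E)
    (hP : cD.lat.P (Invo.one v) n χ E) (hx : cD.lat.Pos (Invo.one v) χ u) (hu : u ∈ cD.M) :
    Sg χ u := by
  have hE : ∀ b ∈ E, 0 ≤ cD.ip u b ∧ (0 < cD.ip u b → 0 ≤ cD.ip hC b) := fun b hb => (h b hb).2.2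
  have rt : ∀ α ∈ cD.lat.Φ, χ α = 1 → 0 < cip hC α → 0 ≤ cip u α := fun α hα h1 h2 =>
    DP.P_root_nonneg hP hE hα h1 h2
  refine ⟨hP.j.ch, hu, fun i j hij h1 => ?_, fun s h1 => ?_, fun s h1 => ?_, rt⟩
  · have := rt _ (aV_root i j hij) h1 (by rw [cip_comm, cip_hC]; exact Int.one_pos)
    rw [cip_aV] at this
    omega
  · have := rt _ (aH_root s) h1 (by rw [cip_comm, cip_hC]; exact Int.one_pos)
    rw [cip_aH] at this
    omega
  · have := DP.P_pair_nonneg hP hx hE e5_line (eb_line s) (by rw [cD_ip, cip_eb]; rfl) h1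
      (by rw [cD_ip, cip_comm, cip_hC]; exact Int.one_pos)
    rwa [map_add, cD_ip, cD_ip, cip_e5, cip_eb] at this

/-- The greedy descent for any kind of configuration and any transported property. -/
theorem kpe_abs {C : Type} {v : Valuation k Γ} (σ : ℤ) (Sh : C → (CL → k) → Prop)
    (Good : C → CL → Prop)
    (hV : ∀ c χ u i j, i ≠ j → Sh c χ → Sg χ u → (∀ s, 0 ≤ u.2.2 s) → u.1.1 < u.2.1 i + u.2.1 j →
      (∀ l r, l ≠ r → u.2.1 l + u.2.1 r ≤ u.2.1 i + u.2.1 j) → χ (aV i j) ≠ 1 →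
      ∃ c', Sh c' (χ ∘ cD.rf (aV i j)) ∧ (Good c' (cD.rf (aV i j) u) → Good c u))
    (hH : ∀ c χ u s, Sh c χ → Sg χ u → (∀ s, 0 ≤ u.2.2 s) → u.1.2 - u.1.1 < u.2.2 s →
      u.2.2 s.rev ≤ u.2.2 s → χ (aH s) ≠ 1 →
      ∃ c', Sh c' (χ ∘ cD.rf (aH s)) ∧ (Good c' (cD.rf (aH s) u) → Good c u))
    (hF : ∀ c χ u s, Sh c χ → Sg χ u → v (χ (eb s)) < 1 → u.2.2 s < 0 →
      ∃ c', Sh c' (cD.lat.flip (Invo.one v) (eb s) χ) ∧
        (Good c' (cD.lat.refl (eb s) u) → Good c u))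
    (neg : ∀ c χ u, Sh c χ → u.1.1 + u.1.2 < 0 → Good c u)
    (fin : ∀ c χ u, Sh c χ → Sg χ u → Dmn u → cip u u = σ → Good c u)
    {c : C} {n : ℕ} {χ : CL → k} {E : Set CL} {u : CL} (hs : Sh c χ)
    (hP : cD.lat.P (Invo.one v) n χ E) (hx : cD.lat.Pos (Invo.one v) χ u) (hE : Eok u E)
    (hu : u ∈ cD.M) (hσ : cip u u = σ) : Good c u := by
  refine DP.descentE (D := cD) (I := Invo.one v)
    {α | (∃ i j, i ≠ j ∧ α = aV i j) ∨ ∃ s, α = aH s} ?_ ?_ {eb 0, eb 1} ?_ (by decide) hC ?_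
    (by decide) (fun χ E u => ∀ c, Sh c χ → Eok u E → u ∈ cD.M → cip u u = σ → Good c u)
    ?_ ?_ ?_ ?_ hP hx c hs hE hu hσ
  · refine ((Set.finite_range fun p : Fin 5 × Fin 5 => aV p.1 p.2).union
      (Set.finite_range aH)).subset ?_
    rintro _ (⟨i, j, -, rfl⟩ | ⟨s, rfl⟩)
    exacts [Or.inl ⟨(i, j), rfl⟩, Or.inr ⟨s, rfl⟩]
  · rintro _ (⟨i, j, hij, rfl⟩ | ⟨s, rfl⟩)
    exacts [aV_root i j hij, aH_root s]
  · intro G hG
    rcases Finset.mem_insert.1 hG with rfl | hG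
    exacts [eb_line 0, Finset.mem_singleton.1 hG ▸ eb_line 1]
  · rintro _ (⟨i, j, -, rfl⟩ | ⟨s, rfl⟩) <;> rw [cD_ip, cip_hC] <;> rfl
  · intro n χ E u _ h1 c h _ _ _
    exact neg c χ u h (by rwa [cD_ip, cip_hC] at h1)
  · intro n χ E u hP hx h1 h2 c h hE hu hσ
    refine fin c χ u h (hE.sg hP hx hu) ⟨hu, fun i j hij => ?_, fun s => ?_, fun s => ?_⟩ hσ
    · have := h1 _ (Or.inl ⟨i, j, hij, rfl⟩)
      rw [cD_ip, cip_aV] at this
      omega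
    · have := h1 _ (Or.inr ⟨s, rfl⟩)
      rw [cD_ip, cip_aH] at this
      omega
    · have := h2 (eb s) (by fin_cases s <;> simp)
      rwa [cD_ip, cip_eb] at this
  · intro n χ E u α hα hP hx h1 h2 h3 ih c h hE hu hσ
    have hg := hE.sg hP hx hu
    have hc : ∀ s, 0 ≤ u.2.2 s := fun s => by
      have := h3 (eb s) (by fin_cases s <;> simp)
      rwa [cD_ip, cip_eb] at this
    rcases hα with ⟨i, j, hij, rfl⟩ | ⟨s, rfl⟩
    · have hr := aV_root i j hij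
      have h4 : ∀ l r, l ≠ r → cip u (aV i j) ≤ cip u (aV l r) := fun l r hl =>
        h2 _ (Or.inl ⟨l, r, hl, rfl⟩)
      have h5 : u.1.1 < u.2.1 i + u.2.1 j := by
        rw [cD_ip, cip_aV] at h1
        omega
      obtain ⟨c', h6, h7⟩ := hV c χ u i j hij h hg hc h5 (fun l r hl => by
        have := h4 l r hl
        rw [cip_aV, cip_aV] at this
        omega) fun e => absurd (hg.V i j hij e) (not_le.2 h5)
      exact h7 (ih c' h6 (hE.rf hr (by rw [cip_comm, cip_hC]; rfl) fun b b1 b2 b3 b4 =>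
        eok_stepV hij b1 b2 b3 b4 h1 h4) (rf_M hr hu) ((cip_rf hr u).trans hσ))
    · have hr := aH_root s
      have h4 : cip u (aH s) ≤ cip u (aH s.rev) := h2 _ (Or.inr ⟨_, rfl⟩)
      have h5 : u.1.2 - u.1.1 < u.2.2 s := by
        rw [cD_ip, cip_aH] at h1
        omega
      obtain ⟨c', h6, h7⟩ := hH c χ u s h hg hc h5 (by
        rw [cip_aH, cip_aH] at h4
        omega) fun e => absurd (hg.H s e) (not_le.2 h5)
      exact h7 (ih c' h6 (hE.rf hr (by rw [cip_comm, cip_hC]; rfl) fun b b1 b2 b3 b4 =>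
        eok_stepH s b1 b2 b3 b4 h1 h4 hc) (rf_M hr hu) ((cip_rf hr u).trans hσ))
  · intro n χ E u G hG hP hx hv h1 ih c h hE hu hσ
    obtain ⟨s, rfl⟩ : ∃ s, G = eb s := by
      rcases Finset.mem_insert.1 hG with rfl | hG
      exacts [⟨0, rfl⟩, ⟨1, Finset.mem_singleton.1 hG⟩]
    obtain ⟨c', h6, h7⟩ := hF c χ u s h (hE.sg hP hx hu) hv (by rwa [cD_ip, cip_eb] at h1)
    exact h7 (ih c' h6 (hE.flip s) (refl_M s hu) ((cip_refl s u).trans hσ))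

/-- The greedy descent from a base state, with the hypotheses of theorem KP. -/
theorem kpe_base {C : Type} {v : Valuation k Γ} (σ : ℤ) (Sh : C → (CL → k) → Prop)
    (Good : C → CL → Prop)
    (hV : ∀ c χ u i j, i ≠ j → Sh c χ → Sg χ u → (∀ s, 0 ≤ u.2.2 s) → u.1.1 < u.2.1 i + u.2.1 j →
      (∀ l r, l ≠ r → u.2.1 l + u.2.1 r ≤ u.2.1 i + u.2.1 j) → χ (aV i j) ≠ 1 →
      ∃ c', Sh c' (χ ∘ cD.rf (aV i j)) ∧ (Good c' (cD.rf (aV i j) u) → Good c u))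
    (hH : ∀ c χ u s, Sh c χ → Sg χ u → (∀ s, 0 ≤ u.2.2 s) → u.1.2 - u.1.1 < u.2.2 s →
      u.2.2 s.rev ≤ u.2.2 s → χ (aH s) ≠ 1 →
      ∃ c', Sh c' (χ ∘ cD.rf (aH s)) ∧ (Good c' (cD.rf (aH s) u) → Good c u))
    (hF : ∀ c χ u s, Sh c χ → Sg χ u → v (χ (eb s)) < 1 → u.2.2 s < 0 →
      ∃ c', Sh c' (cD.lat.flip (Invo.one v) (eb s) χ) ∧
        (Good c' (cD.lat.refl (eb s) u) → Good c u))
    (neg : ∀ c χ u, Sh c χ → u.1.1 + u.1.2 < 0 → Good c u)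
    (fin : ∀ c χ u, Sh c χ → Sg χ u → Dmn u → cip u u = σ → Good c u)
    {c : C} {χ : CL → k} {u : CL} (hs : Sh c χ) (hχ : IsCh χ)
    (le : ∀ g ∈ cD.lat.Λ, v (χ g) ≤ 1) (nb : ∀ g ∈ cD.lat.Λ, ¬Lat.Bk (Invo.one v) (χ g))
    (hu : u ∈ cD.M) (pos : cD.lat.Pos (Invo.one v) χ u)
    (rt : ∀ α ∈ cD.lat.Φ, χ α = 1 → 0 < cip u α → 0 ≤ cip hC α) (hσ : cip u u = σ) :
    Good c u :=
  kpe_abs σ Sh Good hV hH hF neg fin hs (P_base u hχ le nb) pos (Eok.base rt) hu hσ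

end Pool.Agent.Lib.MP_d03834_ag.Core
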