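import Pool.Agent.Lib.MP_d03834_ag.Core.ClG
import Pool.Agent.Lib.MP_d03834_ag.Core.KPC
import Pool.Agent.Lib.MP_d03834_ag.Core.ClHonB

/-! The exchange of A and B in divisibility form. -/

set_option autoImplicit false

namespace Pool.Agent.Lib.MP_d03834_ag.Core

open Module
open scoped Polynomial

namespace F2

section field
variable {K : Type} [Field K]

theorem nx_fl (t : K) (q p : Fin 2 → K[X]) (n n' : Fin 2 → K)
    (h0 : p 0 = q 0 - Polynomial.C t * q 1) (h1 : p 1 = -q 1) (g0 : n' 0 = n 0 - t * n 1)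
    (g1 : n' 1 = -n 1) (F : Cx K) : nx q n (blin 1 0 0 1 1 (-t) 0 (-1) F) = nx p n' F := by
  have : (nx q n).comp (blin 1 0 0 1 1 (-t) 0 (-1)) = nx p n' := by
    refine MvPolynomial.algHom_ext fun i => ?_
    fin_cases i <;> simp [nx, blin, h0, h1, g0, g1] <;> ring
  exact DFunLike.congr_fun this F

theorem dv_two {q : Fin 2 → K[X]} {n : Fin 2 → K} {z z' : Fin 2 → K} {m m' : Fin 2 → ℤ} {F : Cx K}
    (s : Fin 2) (z0 : z' 0 = z s) (z1 : z' 1 = z s.rev) (m0 : m' 0 = m s) (m1 : m' 1 = m s.rev) :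
    Dv q n z' m' F ↔ Dv q n z m F := by
  refine forall_congr' fun j => ?_
  rw [Fin.prod_univ_two, Fin.prod_univ_two, z0, z1, m0, m1]
  fin_cases s
  · rfl
  · rw [mul_comm]
    rfl

/-- the exchange over a field -/
theorem le {t : K} {q q' : Fin 2 → Fin 3 → K} {z z' : Fin 5 → K} {a b a' b' : Fin 2 → K}
    {p d : ℤ} {m m' : Ix → ℤ} (s : Fin 2) (zz : z' = z) (hz : ∀ l, qv (q 0) (z l) ≠ 0)
    (h0 : ∀ i, q' 0 i = q 0 i - t * q 1 i) (h1 : ∀ i, q' 1 i = -q 1 i)
    (a0 : a' 0 = b s) (a1 : a' 1 = b s.rev) (b0 : a 0 = b' s) (b1 : a 1 = b' s.rev)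
    (me : ∀ l, m' (.inl l) = m (.inl l))
    (m0 : m' (.inr (.inl 0)) = m (.inr (.inr s))) (m1 : m' (.inr (.inl 1)) = m (.inr (.inr s.rev)))
    (m2 : m (.inr (.inl 0)) = m' (.inr (.inr s)))
    (m3 : m (.inr (.inl 1)) = m' (.inr (.inr s.rev))) :
    finrank K (HD t q z a b p d m) ≤ finrank K (HD t q' z' a' b' p d m') := by
  subst zz
  refine brk_le (blin 1 0 0 1 1 (-t) 0 (-1)).toLinearMap 1
    (fun F _ h => blin_inj (by simp) (by simp) (h.trans (map_zero _).symm))
    fun F hF => ⟨_, ?_, (one_mul _).symm⟩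
  obtain ⟨k0, k1, k2, k3⟩ := mem_HD.1 hF
  refine mem_HD.2 ⟨k0.blin .., fun j => ?_, ?_, ?_⟩
  · rw [AlgHom.toLinearMap_apply, nx_fl t _ ![qd (q 0), qd (q 1)] _ ![-t, -1]
      (by simp [qd, h0, h1]; ring) (by simp [qd, h1]; ring) (by simp) (by simp)]
    simp only [me]
    exact k1.regraph k0 (fun l => by simpa [qd_eval] using hz l)
      (fun l => Or.inl (by simpa [qd_eval] using hz l)) (by simp [mul_comm]) j
  · refine (dv_two (z := b) (m := fun s => m (.inr (.inr s))) s a0 a1 m0 m1).2 fun j => ?_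
    rw [AlgHom.toLinearMap_apply, nx_fl t _ ![-Polynomial.C t, -1] _ ![1, 0]
      (by simp) (by simp) (by simp) (by simp)]
    exact k3.regraph k0 (fun l => by simp) (fun l => Or.inr (by simp)) (by simp) j
  · refine (dv_two (z' := a) (m' := fun s => m (.inr (.inl s))) s b0 b1 m2 m3).1 fun j => ?_
    rw [AlgHom.toLinearMap_apply, nx_fl t _ ![0, -1] _ ![1, 0]
      (by simp) (by simp) (by simp) (by simp)]
    exact k2.regraph k0 (fun l => by simp) (fun l => Or.inr (by simp)) (by simp) j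

end field

variable {O k Γ : Type} [CommRing O] [Field k] [LinearOrderedCommGroupWithZero Γ] {A : Arc O k}

theorem move (v : Valuation k Γ) {c : Cfg O k} {χ : CL → k} (h : Shp A c χ) (hχ : IsCh χ)
    (s : Fin 2) : ∃ c', RelF A c c' s ∧ Shp A c' (cD.lat.flip (Invo.one v) (eb s) χ) ∧
      c'.Q0 = -c.Q0 ∧ c'.Q1 = -c.Q1 ∧ c'.Q2 = -c.Q2 := by
  obtain ⟨c', h1, h2⟩ := moveF v h hχ s
  have hN : c'.N A + 2 * c'.Q0 = -(c.N A + 2 * c.Q0) := by
    have e0 := h1.a0
    have e1 := h1.a1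
    have e2 := h1.bs
    have e3 := h1.br
    fin_cases s <;> simp at e0 e1 e2 e3 <;> simp [Cfg.N, e0, e1, e2, e3] <;> ring
  have hN' : Cfg.N A ⟨c'.z, c'.η, c'.al, c'.be, -c.Q0, -c.Q1, -c.Q2⟩ = -c.N A := by
    simp only [Cfg.N] at hN ⊢
    linear_combination hN
  refine ⟨⟨c'.z, c'.η, c'.al, c'.be, -c.Q0, -c.Q1, -c.Q2⟩,
    ⟨h1.z, h1.el, h1.a0, h1.a1, h1.bs, h1.br⟩, ⟨h2.z0, fun l => ?_, ?_, ?_, fun r => ?_,
      fun l l' hl => ?_⟩, rfl, rfl, rfl⟩
  · have e := congrArg A.res (h1.el l)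
    simp only [map_sub, map_mul, map_one, A.rt] at e
    simp only [h1.z]
    linear_combination -A.res (c.z l) * e - h.cur l
  · rw [hN']
    exact neg_ne_zero.2 h.N0
  · rw [hN', Lat.flip_orth χ (by rw [DP.lat_ip, cD_ip, cip_eb]; rfl)]
    linear_combination -h.e5
  · rw [hN']
    by_cases e : r = s
    · rw [e, Lat.flip_self (eb_line s) (hχ.2 _)]
      have := h.eb s
      simp only [Invo.one, h1.bs, h1.a1]
      fin_cases s <;> simp [Cfg.N] at this ⊢ <;> linear_combination this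
    · rw [Lat.flip_orth χ (by
        rw [DP.lat_ip, cD_ip, cip_eb]
        simp [eb, Pi.single_eq_of_ne (Ne.symm e)])]
      have e' : r = s.rev := by fin_cases s <;> fin_cases r <;> simp at e ⊢
      simp only [e', h1.br, h1.a1]
      linear_combination -h.eb s.rev
  · rw [Lat.flip_orth χ (by rw [DP.lat_ip, cD_ip, cip_eb]; rfl)]
    simp only [h1.z]
    linear_combination -h.aV l l' hl

end F2

variable {O k Γ : Type} [CommRing O] [Field k] [LinearOrderedCommGroupWithZero Γ]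

theorem stepFC2 (A : Arc O k) (K : Type) [Field K] [Algebra O K] (v : Valuation k Γ) :
    StepFC A K v := by
  intro c χ u s h e hχ
  obtain ⟨c', h1, h2, q0, q1, q2⟩ := F2.move v h hχ s
  refine ⟨⟨c', ![fun i => c.q 0 i - A.t * c.q 1 i, fun i => -c.q 1 i]⟩, h2,
    ⟨by simp [e.r00, A.rt], by simp [e.r01, A.rt], by simp [e.r02, A.rt], by simp [e.r10, q0],
      by simp [e.r11, q1], by simp [e.r12, q2], fun l => ?_⟩, fun ε => ?_⟩
  · have a := e.on l
    have b := h1.el l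
    simp only [qv, h1.z, Matrix.cons_val_zero, Matrix.cons_val_one] at a ⊢
    linear_combination (c'.η l * A.t - 1) * a +
      (c.q 0 0 + c.q 0 1 * c.z l + c.q 0 2 * c.z l ^ 2) * b
  · have e1 : dgy ε (cD.lat.refl (eb s) u) = dgy ε u := by
      rw [refl_eb]
      fin_cases s <;> simp [dgy, par] <;> omega
    have e2 : dgx ε (cD.lat.refl (eb s) u) = dgx ε u := by rw [refl_eb]; rfl
    rw [CCfg.HC, CCfg.HC, e1, e2, refl_eb]
    refine F2.le s (by simp only [h1.z]) (fun l => ?_) (fun i => by simp) (fun i => by simp) (by simp only [h1.a0])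
      (by simp only [h1.a1]) (by simp only [h1.bs]) (by simp only [h1.br]) (fun l => rfl)
      ?_ ?_ ?_ ?_
    · have := ((A.unit _ (e.unit (h.z0 l))).map (algebraMap O K)).ne_zero
      simpa [qv] using this
    all_goals fin_cases s <;> simp [mlt] <;> omega

end Pool.Agent.Lib.MP_d03834_ag.Core
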