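import Mathlib

/-! Congruences modulo a product of linear factors over a ring of arcs: inverses, the lemma of
Nakayama, change of the parameter of a graph. -/

set_option autoImplicit false

namespace Pool.Agent.Lib.MP_d03834_ag.Core.Rgr

open Polynomial

variable {O k ι : Type} [CommRing O] [Field k]

/-- the product of the linear factors -/
noncomputable def pr (s : Finset ι) (u : ι → O) : O[X] := ∏ l ∈ s, (X - C (u l))

theorem pr_monic (s : Finset ι) (u : ι → O) : (pr s u).Monic :=
  monic_prod_of_monic _ _ fun _ _ => monic_X_sub_C _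

theorem pr_map {O' : Type} [CommRing O'] (f : O →+* O') (s : Finset ι) (u : ι → O) :
    (pr s u).map f = pr s fun l => f (u l) := by
  simp [pr, Polynomial.map_prod]

theorem dvd_pr {s : Finset ι} (u : ι → O) {l : ι} (h : l ∈ s) : X - C (u l) ∣ pr s u :=
  Finset.dvd_prod_of_mem _ h

theorem eval_of_dvd {s : Finset ι} {u : ι → O} {f : O[X]} (h : pr s u ∣ f) {l : ι} (hl : l ∈ s) :
    f.eval (u l) = 0 := dvd_iff_isRoot.1 ((dvd_pr u hl).trans h)

/-- a polynomial whose values at the roots are units is invertible modulo the product -/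
theorem inv_mod (s : Finset ι) (u : ι → O) (D : O[X]) (h : ∀ l ∈ s, IsUnit (D.eval (u l))) :
    ∃ E : O[X], pr s u ∣ D * E - 1 := by
  classical
  induction s using Finset.induction_on with
  | empty => exact ⟨0, by simp [pr]⟩
  | insert a s ha ih =>
    obtain ⟨E, hE⟩ := ih fun l hl => h l (Finset.mem_insert_of_mem hl)
    obtain ⟨w, hw⟩ := (h a (Finset.mem_insert_self a s)).exists_right_inv
    have h1 : X - C (u a) ∣ D * C w - 1 := by
      rw [dvd_iff_isRoot]
      simp [hw]
    refine ⟨E + C w - D * E * C w, ?_⟩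
    have := mul_dvd_mul h1 hE
    rw [pr, Finset.prod_insert ha, ← dvd_neg, ← pr,
      show -(D * (E + C w - D * E * C w) - 1) = (D * C w - 1) * (D * E - 1) by ring]
    exact this

/-- the same with powers of the linear factors -/
theorem inv_mod_pow (s : Finset ι) (u : ι → O) (e : ι → ℕ) (D : O[X])
    (h : ∀ l ∈ s, IsUnit (D.eval (u l))) :
    ∃ E : O[X], ∏ l ∈ s, (X - C (u l)) ^ e l ∣ D * E - 1 := by
  classical
  obtain ⟨E, hE⟩ := inv_mod (s.sigma fun l => Finset.range (e l)) (fun p => u p.1) D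
    fun p hp => h _ (Finset.mem_sigma.1 hp).1
  refine ⟨E, ?_⟩
  simpa [pr, Finset.prod_sigma] using hE

/-- cancellation of a factor whose values at the roots are units -/
theorem dvd_cancel (s : Finset ι) (u : ι → O) (e : ι → ℕ) {D G : O[X]}
    (h : ∀ l ∈ s, IsUnit (D.eval (u l))) (hG : ∏ l ∈ s, (X - C (u l)) ^ e l ∣ D * G) :
    ∏ l ∈ s, (X - C (u l)) ^ e l ∣ G := by
  obtain ⟨E, hE⟩ := inv_mod_pow s u e D h
  have := dvd_sub (hG.mul_right E) (hE.mul_right G)
  convert this using 1
  ring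

/-- the lemma of Nakayama modulo a monic polynomial -/
theorem nak_mod {p : O[X]} (hp : p.Monic) {t : O} (ht : ∀ a, IsUnit (1 + t * a))
    (S : Submodule O O[X]) (hS : ∀ f : O[X], ∃ g ∈ S, ∃ h : O[X], p ∣ f - g - C t * h)
    (f : O[X]) : ∃ g ∈ S, p ∣ f - g := by
  have hfin : Module.Finite O (AdjoinRoot p) := hp.finite_adjoinRoot
  let m : O[X] →ₗ[O] AdjoinRoot p := (AdjoinRoot.mkₐ p).toLinearMap
  have hm : ∀ g, m g = AdjoinRoot.mk p g := fun _ => rfl
  have h1 : (⊤ : Submodule O (AdjoinRoot p)) ≤ S.map m := by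
    refine Submodule.le_of_le_smul_of_le_jacobson_bot (I := Ideal.span {t})
      Module.Finite.fg_top ?_ ?_
    · rw [Ideal.span_singleton_le_iff_mem, Ideal.mem_jacobson_bot]
      intro a
      rw [add_comm]
      exact ht a
    · intro x _
      obtain ⟨x, rfl⟩ := AdjoinRoot.mk_surjective x
      obtain ⟨g, hg, h, hh⟩ := hS x
      have e : AdjoinRoot.mk p x = m g + t • m h := by
        rw [← map_smul, ← map_add, hm, AdjoinRoot.mk_eq_mk, smul_eq_C_mul, ← sub_sub]
        exact hh
      rw [e]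
      exact Submodule.add_mem_sup (Submodule.mem_map_of_mem hg)
        (Submodule.smul_mem_smul (Ideal.mem_span_singleton_self t) Submodule.mem_top)
  obtain ⟨g, hg, e⟩ := h1 (Submodule.mem_top (x := m f))
  exact ⟨g, hg, AdjoinRoot.mk_eq_mk.1 e.symm⟩

/-- the divided difference at a -/
noncomputable def dq (φ : O[X]) (a : O) : O[X] := φ /ₘ (X - C a)

theorem dq_spec (φ : O[X]) (a : O) : φ - C (φ.eval a) = (X - C a) * dq φ a := by
  have := modByMonic_add_div φ (X - C a)
  rw [modByMonic_X_sub_C_eq_C_eval] at this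
  rw [dq]
  linear_combination -this

theorem dq_map {O' : Type} [CommRing O'] (f : O →+* O') (φ : O[X]) (a : O) :
    (dq φ a).map f = dq (φ.map f) (f a) := by
  rw [dq, dq, map_divByMonic _ (monic_X_sub_C a)]
  simp

theorem pr_comp (s : Finset ι) (u : ι → O) (φ : O[X]) :
    (pr s fun l => φ.eval (u l)).comp φ = pr s u * ∏ l ∈ s, dq φ (u l) := by
  rw [pr, pr, Polynomial.prod_comp, ← Finset.prod_mul_distrib]
  exact Finset.prod_congr rfl fun l _ => by simp [dq_spec]

theorem dvd_comp {s : Finset ι} {u : ι → O} {φ f : O[X]}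
    (h : (pr s fun l => φ.eval (u l)) ∣ f) : pr s u ∣ f.comp φ := by
  obtain ⟨g, rfl⟩ := h
  rw [mul_comp, pr_comp]
  exact (dvd_mul_right _ _).mul_right _

/-- Newton interpolation: every polynomial is a polynomial in φ modulo the product -/
theorem newton (s : Finset ι) (u : ι → O) (φ f : O[X])
    (h : ∀ i ∈ s, ∀ j ∈ s, i ≠ j → IsUnit ((dq φ (u j)).eval (u i))) :
    ∃ ψ : O[X], pr s u ∣ ψ.comp φ - f := by
  classical
  induction s using Finset.induction_on with
  | empty => exact ⟨0, by simp [pr]⟩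
  | insert a s ha ih =>
    obtain ⟨ψ, w, hw⟩ := ih fun i hi j hj =>
      h i (Finset.mem_insert_of_mem hi) j (Finset.mem_insert_of_mem hj)
    have h1 : IsUnit ((∏ l ∈ s, dq φ (u l)).eval (u a)) := by
      rw [eval_prod, IsUnit.prod_iff]
      exact fun l hl => h a (Finset.mem_insert_self a s) l (Finset.mem_insert_of_mem hl)
        fun e => ha (e ▸ hl)
    obtain ⟨v, hv⟩ := h1.exists_right_inv
    refine ⟨ψ - C (w.eval (u a) * v) * pr s fun l => φ.eval (u l), ?_⟩
    have h2 : X - C (u a) ∣ w - C (w.eval (u a) * v) * ∏ l ∈ s, dq φ (u l) := by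
      rw [dvd_iff_isRoot, IsRoot, eval_sub, eval_mul, eval_C, mul_assoc, mul_comm v, hv]
      ring
    rw [sub_comp, mul_comp, C_comp, pr_comp, pr, Finset.prod_insert ha, ← pr]
    have := mul_dvd_mul h2 (dvd_refl (pr s u))
    convert this using 1
    linear_combination hw

/-- the divided differences of a polynomial which is linear modulo the product -/
theorem dq_lin {s : Finset ι} {u : ι → k} {φ : k[X]} {β δ : k}
    (h : pr s u ∣ φ - (C β * X + C δ)) {i j : ι} (hi : i ∈ s) (hj : j ∈ s) (hij : i ≠ j) :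
    (dq φ (u j)).eval (u i) = β := by
  classical
  obtain ⟨g, hg⟩ := h
  have h1 : φ.eval (u j) = β * u j + δ := by
    have := eval_of_dvd (⟨g, hg⟩ : pr s u ∣ _) hj
    simpa [sub_eq_zero] using this
  have h2 : pr s u = (X - C (u j)) * pr (s.erase j) u :=
    (Finset.mul_prod_erase s (fun l => X - C (u l)) hj).symm
  have h3 : dq φ (u j) = C β + pr (s.erase j) u * g := by
    refine mul_left_cancel₀ (X_sub_C_ne_zero (u j)) ?_
    rw [← dq_spec, h1, mul_add, ← mul_assoc, ← h2, ← hg]
    simp only [map_add, map_mul]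
    ring
  rw [h3, eval_add, eval_C, eval_mul,
    eval_of_dvd (dvd_refl _) (Finset.mem_erase.2 ⟨hij, hi⟩), zero_mul, add_zero]

/-- Change of the parameter: if φ is an invertible linear map modulo the maximal ideal, then it
has an inverse ψ modulo the products. -/
theorem regraph (π : O →+* k) (hπ : ∀ a, π a ≠ 0 → IsUnit a) (s : Finset ι) (u : ι → O)
    (φ : O[X]) {β δ : k} (hβ : β ≠ 0)
    (h : (pr s fun l => π (u l)) ∣ φ.map π - (C β * X + C δ)) :
    ∃ ψ : O[X], pr s u ∣ ψ.comp φ - X ∧ (pr s fun l => φ.eval (u l)) ∣ φ.comp ψ - X ∧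
      (pr s fun l => π (φ.eval (u l))) ∣ ψ.map π - (C β⁻¹ * X + C (-(β⁻¹ * δ))) := by
  have key : ∀ (u : ι → O) (φ : O[X]) (β δ : k), β ≠ 0 →
      (pr s fun l => π (u l)) ∣ φ.map π - (C β * X + C δ) → ∃ ψ : O[X], pr s u ∣ ψ.comp φ - X ∧
        (pr s fun l => π (φ.eval (u l))) ∣ ψ.map π - (C β⁻¹ * X + C (-(β⁻¹ * δ))) := by
    intro u φ β δ hβ h
    obtain ⟨ψ, hψ⟩ := newton s u φ X fun i hi j hj hij => hπ _ (by
      rw [← eval_map_apply, dq_map, dq_lin h hi hj hij]
      exact hβ)
    refine ⟨ψ, hψ, ?_⟩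
    have h1 := Polynomial.map_dvd π hψ
    rw [pr_map, Polynomial.map_sub, map_comp, map_X] at h1
    have h2 : (pr s fun l => π (u l)) ∣ (ψ.map π).comp (C β * X + C δ) - X := by
      have h3 := h.trans (sub_dvd_eval_sub (φ.map π) (C β * X + C δ) ((ψ.map π).map C))
      rw [eval_map, eval_map] at h3
      have := dvd_sub h1 h3
      convert this using 1
      rw [comp, comp]
      ring
    have h4 : (pr s fun l => π (u l)) =
        pr s fun l => (C β⁻¹ * X + C (-(β⁻¹ * δ))).eval (π (φ.eval (u l))) := by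
      refine Finset.prod_congr rfl fun l hl => ?_
      have h5 := eval_of_dvd h hl
      rw [eval_sub, eval_map_apply, sub_eq_zero] at h5
      beta_reduce
      rw [h5]
      congr 2
      simp only [eval_add, eval_mul, eval_C, eval_X]
      field_simp
      ring
    rw [h4] at h2
    have h6 := dvd_comp h2
    rw [sub_comp, comp_assoc, X_comp] at h6
    have h7 : (C β * X + C δ).comp (C β⁻¹ * X + C (-(β⁻¹ * δ))) = X := by
      simp only [add_comp, mul_comp, C_comp, X_comp, mul_add, ← mul_assoc, ← map_mul, mul_neg,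
        mul_inv_cancel₀ hβ, map_one, one_mul, map_neg]
      ring
    rwa [h7, comp_X] at h6
  obtain ⟨ψ, h1, h2⟩ := key u φ β δ hβ h
  refine ⟨ψ, h1, ?_, h2⟩
  obtain ⟨φ', h3, -⟩ := key (fun l => φ.eval (u l)) ψ _ _ (inv_ne_zero hβ) h2
  have h4 : pr s u ∣ φ' - φ := by
    have h5 := dvd_comp h3
    rw [sub_comp, comp_assoc, X_comp] at h5
    have h6 := h1.trans (sub_dvd_eval_sub (ψ.comp φ) X (φ'.map C))
    rw [eval_map, eval_map] at h6
    have := dvd_sub h5 h6
    convert this using 1
    rw [← comp, ← comp, comp_X]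
    ring
  have h7 : pr s u = pr s fun l => ψ.eval (φ.eval (u l)) := by
    refine Finset.prod_congr rfl fun l hl => ?_
    have := eval_of_dvd h1 hl
    rw [eval_sub, eval_comp, eval_X, sub_eq_zero] at this
    beta_reduce
    rw [this]
  rw [h7] at h4
  have := dvd_sub h3 (dvd_comp h4)
  convert this using 1
  rw [sub_comp]
  ring

end Pool.Agent.Lib.MP_d03834_ag.Core.Rgr
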