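import Pool.Agent.Lib.MP_d03834_ag.Core.ShLat

/-! The three moves keep the shape. -/

set_option autoImplicit false

namespace Pool.Agent.Lib.MP_d03834_ag.Core

variable {O k : Type} [CommRing O] [Field k] {A : Arc O k}

theorem Arc.rt (A : Arc O k) : A.res A.t = 0 := (A.ker _).2 dvd_rfl

theorem Arc.div (A : Arc O k) (a : O) {b : O} (h : A.res b ≠ 0) : ∃ x, x * b = a := by
  obtain ⟨u, rfl⟩ := A.unit b h
  exact ⟨a * ↑u⁻¹, by simp⟩

/-- the shear at the free points i and j -/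
structure RelV (A : Arc O k) (c c' : Cfg O k) (i j : Fin 5) : Prop where
  zi : c'.z i = c.z i
  zj : c'.z j = c.z j
  ei : c'.η i = c.η j
  ej : c'.η j = c.η i
  el : ∀ l, l ≠ i → l ≠ j → c'.η l = c.η l
  zl : ∀ l, l ≠ i → l ≠ j → (c'.z l - c.z i) * (c.z l - c.z j) * (c.η i - c.η l) =
    (c'.z l - c.z j) * (c.z l - c.z i) * (c.η j - c.η l)
  al : c'.al = c.al
  be : ∀ s, (A.t * c'.be s - c.z i) * (A.t * c.be s - c.z j) * (c.η i * A.t - 1) =
    (A.t * c'.be s - c.z j) * (A.t * c.be s - c.z i) * (c.η j * A.t - 1)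

/-- the shear at the points a 1 and b s -/
structure RelH (A : Arc O k) (c c' : Cfg O k) (s : Fin 2) : Prop where
  z : c'.z = c.z
  el : ∀ l, c'.η l * (c.z l - A.t * c.be s) = c.al 1 - c.be s + c.η l * (c.z l - A.t * c.al 1)
  a0 : c'.al 0 = c.al 0
  a1 : c'.al 1 = c.be s
  bs : c'.be s = c.al 1
  br : c'.be s.rev = c.be s.rev

/-- the exchange of A and B -/
structure RelF (A : Arc O k) (c c' : Cfg O k) (s : Fin 2) : Prop where
  z : c'.z = c.z
  el : ∀ l, c'.η l * (A.t * c.η l - 1) = c.η l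
  a0 : c'.al 0 = c.be s
  a1 : c'.al 1 = c.be s.rev
  bs : c'.be s = c.al 0
  br : c'.be s.rev = c.al 1

theorem cur_sub {z w a b Q0 Q1 Q2 : k} (h1 : a * z = Q0 + Q1 * z + Q2 * z ^ 2)
    (h2 : b * w = Q0 + Q1 * w + Q2 * w ^ 2) : z * w * (a - b) = (z - w) * (Q2 * z * w - Q0) := by
  linear_combination w * h1 - z * h2

theorem moveV {c : Cfg O k} {χ : CL → k} (h : Shp A c χ) (hχ : IsCh χ) {i j : Fin 5}
    (hij : i ≠ j) (h1 : A.res (c.z i) ≠ A.res (c.z j))
    (h2 : ∀ l, l ≠ i → l ≠ j → A.res (c.z l) ≠ A.res (c.z i) ∧ A.res (c.z l) ≠ A.res (c.z j)) :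
    ∃ c', RelV A c c' i j ∧ Shp A c' (χ ∘ cD.rf (aV i j)) := by
  have hQ0 := h.Q0 hχ
  have hκ := h.aV i j hij
  have hκ0 := hχ.2 (aV i j)
  generalize hk : χ (aV i j) = κ at hκ hκ0
  have hij0 := sub_ne_zero.2 h1
  have k1 : ∀ l, ∃ x, (l = i → x = c.z i) ∧ (l = j → x = c.z j) ∧ (l ≠ i → l ≠ j →
      (x - c.z i) * (c.z l - c.z j) * (c.η i - c.η l) =
        (x - c.z j) * (c.z l - c.z i) * (c.η j - c.η l) ∧ A.res x = κ * A.res (c.z l)) := by
    intro l
    by_cases hi : l = i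
    · exact ⟨c.z i, fun _ => rfl, fun e => absurd (hi.symm.trans e) hij, fun e => absurd hi e⟩
    by_cases hj : l = j
    · exact ⟨c.z j, fun e => absurd e hi, fun _ => rfl, fun _ e => absurd hj e⟩
    have e1 := cur_sub (h.cur i) (h.cur l)
    have e2 := cur_sub (h.cur j) (h.cur l)
    have n0 : (A.res (c.z l) - A.res (c.z i)) * (A.res (c.z l) - A.res (c.z j)) *
        (A.res (c.z i) - A.res (c.z j)) * c.Q0 ≠ 0 :=
      mul_ne_zero (mul_ne_zero (mul_ne_zero (sub_ne_zero.2 (h2 l hi hj).1)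
        (sub_ne_zero.2 (h2 l hi hj).2)) hij0) hQ0
    have e3 : A.res (c.z i) * A.res (c.z j) * A.res (c.z l) *
        A.res ((c.z l - c.z j) * (c.η i - c.η l) - (c.z l - c.z i) * (c.η j - c.η l)) =
        -((A.res (c.z l) - A.res (c.z i)) * (A.res (c.z l) - A.res (c.z j)) *
          (A.res (c.z i) - A.res (c.z j)) * c.Q0) := by
      simp only [map_sub, map_mul]
      linear_combination A.res (c.z j) * (A.res (c.z l) - A.res (c.z j)) * e1 -
        A.res (c.z i) * (A.res (c.z l) - A.res (c.z i)) * e2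
    obtain ⟨x, hx⟩ := A.div (c.z i * (c.z l - c.z j) * (c.η i - c.η l) -
      c.z j * (c.z l - c.z i) * (c.η j - c.η l))
      (b := (c.z l - c.z j) * (c.η i - c.η l) - (c.z l - c.z i) * (c.η j - c.η l))
      fun e => n0 (by rw [e, mul_zero] at e3; exact neg_eq_zero.1 e3.symm)
    refine ⟨x, fun e => absurd e hi, fun e => absurd e hj, fun _ _ =>
      ⟨by linear_combination hx, ?_⟩⟩
    have e4 := congrArg A.res hx
    rw [map_mul] at e4
    refine mul_right_cancel₀ n0 ?_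
    simp only [map_sub, map_mul] at e3 e4
    linear_combination A.res x * e3 - A.res (c.z i) * A.res (c.z j) * A.res (c.z l) * e4 -
      A.res (c.z i) * A.res (c.z j) * (A.res (c.z l) - A.res (c.z j)) * e1 +
      A.res (c.z i) * A.res (c.z j) * (A.res (c.z l) - A.res (c.z i)) * e2 -
      (A.res (c.z l) - A.res (c.z i)) * (A.res (c.z l) - A.res (c.z j)) *
        (A.res (c.z i) - A.res (c.z j)) * A.res (c.z l) * hκ
  have k2 : ∀ s, ∃ x, (A.t * x - c.z i) * (A.t * c.be s - c.z j) * (c.η i * A.t - 1) =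
      (A.t * x - c.z j) * (A.t * c.be s - c.z i) * (c.η j * A.t - 1) ∧
      A.res x = A.res (c.be s) + (κ - 1) * c.Q0 := by
    intro s
    obtain ⟨x, hx⟩ := A.div (c.be s * (c.z i * (c.η i * A.t - 1) - c.z j * (c.η j * A.t - 1)) -
      c.z i * c.z j * (c.η i - c.η j))
      (b := (A.t * c.be s - c.z j) * (c.η i * A.t - 1) - (A.t * c.be s - c.z i) * (c.η j * A.t - 1))
      (by simpa [A.rt, ← sub_eq_zero, sub_eq_zero] using h1.symm)
    refine ⟨x, by linear_combination A.t * hx, mul_right_cancel₀ hij0 ?_⟩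
    have e4 := congrArg A.res hx
    simp only [map_sub, map_mul, map_one, A.rt] at e4
    linear_combination cur_sub (h.cur i) (h.cur j) - e4 - (A.res (c.z i) - A.res (c.z j)) * hκ
  choose z' hz1 hz2 hz3 using k1
  choose b' hb1 hb2 using k2
  have hN : Cfg.N A ⟨z', fun l => if l = i then c.η j else if l = j then c.η i else c.η l, c.al, b',
      κ * c.Q0, c.Q1, c.Q2 / κ⟩ = c.N A := by
    simp only [Cfg.N, hb2]
    ring
  have hz4 : ∀ l, A.res (z' l) = κ ^ (1 - (aV i j).2.1 l) * A.res (c.z l) := by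
    intro l
    by_cases hi : l = i
    · rw [hz1 l hi, hi]
      simp [aV, hij]
    by_cases hj : l = j
    · rw [hz2 l hj, hj]
      simp [aV, hij.symm]
    rw [(hz3 l hi hj).2]
    simp [aV, hi, hj]
  have hv : ∀ u, (χ ∘ cD.rf (aV i j)) u = χ u * κ ^ cip u (aV i j) := fun u => by
    rw [Function.comp, DP.rf, hχ.1, hχ.zsmul, hk, cD_ip]
  refine ⟨⟨z', fun l => if l = i then c.η j else if l = j then c.η i else c.η l, c.al, b',
    κ * c.Q0, c.Q1, c.Q2 / κ⟩, ⟨hz1 i rfl, hz2 j rfl, if_pos rfl, ?_, fun l hi hj => ?_,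
      fun l hi hj => (hz3 l hi hj).1, rfl, hb1⟩, fun l => ?_, fun l => ?_, ?_, ?_, fun s => ?_,
      fun l l' hl => ?_⟩
  · simp [hij.symm]
  · simp [hi, hj]
  · rw [hz4]
    exact mul_ne_zero (zpow_ne_zero _ hκ0) (h.z0 l)
  · dsimp only
    by_cases hi : l = i
    · rw [if_pos hi, hz1 l hi]
      refine mul_left_cancel₀ (mul_ne_zero hκ0 (h.z0 j)) ?_
      field_simp
      linear_combination κ * A.res (c.z i) * h.cur j +
        (A.res (c.z i) - κ * A.res (c.z j)) * hκ
    by_cases hj : l = j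
    · rw [if_neg hi, if_pos hj, hz2 l hj]
      refine mul_left_cancel₀ (mul_ne_zero hκ0 (h.z0 i)) ?_
      field_simp
      linear_combination κ * A.res (c.z j) * h.cur i +
        (A.res (c.z j) - κ * A.res (c.z i)) * hκ
    rw [if_neg hi, if_neg hj, (hz3 l hi hj).2]
    field_simp
    linear_combination h.cur l
  · rw [hN]
    exact h.N0
  · rw [hN, hv, show cip e5 (aV i j) = 1 by simp [cip_aV, e5], zpow_one]
    linear_combination κ * h.e5
  · rw [hN, hv, show cip (eb s) (aV i j) = 0 by simp [cip_aV, eb], zpow_zero]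
    dsimp only
    rw [hb2]
    linear_combination h.eb s
  · rw [hv]
    dsimp only
    rw [hz4, hz4, ← cD_ip, cD.symm (aV l l') (aV i j), cD_ip, cip_aV]
    have e : (aV i j).1.1 = 0 := rfl
    rw [e, zpow_sub₀ hκ0, zpow_sub₀ hκ0, zpow_sub₀ hκ0, zpow_sub₀ hκ0]
    have n1 := zpow_ne_zero ((aV i j).2.1 l) hκ0
    have n2 := zpow_ne_zero ((aV i j).2.1 l') hκ0
    field_simp
    linear_combination h.aV l l' hl

theorem moveH {c : Cfg O k} {χ : CL → k} (h : Shp A c χ) (hχ : IsCh χ) (s : Fin 2) :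
    ∃ c', RelH A c c' s ∧ Shp A c' (χ ∘ cD.rf (aH s)) := by
  have k1 : ∀ l, ∃ x, x * (c.z l - A.t * c.be s) =
      c.al 1 - c.be s + c.η l * (c.z l - A.t * c.al 1) :=
    fun l => A.div _ (by simpa [A.rt] using h.z0 l)
  choose η' hη using k1
  have hρ0 := hχ.2 (aH s)
  have hρ : χ (aH s) * χ (eb s) = χ e5 := by rw [← hχ.1, aH_eq, sub_add_cancel]
  have hv : ∀ u, (χ ∘ cD.rf (aH s)) u = χ u * χ (aH s) ^ cip u (aH s) := fun u => by
    rw [Function.comp, DP.rf, hχ.1, hχ.zsmul, cD_ip]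
  have hN : Cfg.N A ⟨c.z, η', ![c.al 0, c.be s], fun r => if r = s then c.al 1 else c.be r,
      c.Q0 + A.res (c.al 1) - A.res (c.be s), c.Q1, c.Q2⟩ = c.N A := by
    fin_cases s <;> simp [Cfg.N] <;> ring
  refine ⟨⟨c.z, η', ![c.al 0, c.be s], fun r => if r = s then c.al 1 else c.be r,
      c.Q0 + A.res (c.al 1) - A.res (c.be s), c.Q1, c.Q2⟩, ⟨rfl, hη, rfl, rfl, if_pos rfl, ?_⟩,
      h.z0, fun l => ?_, ?_, ?_, fun r => ?_, fun l l' hl => ?_⟩
  · fin_cases s <;> simp
  · have e := congrArg A.res (hη l)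
    simp only [map_sub, map_mul, map_add, A.rt] at e
    linear_combination e + h.cur l
  · rw [hN]
    exact h.N0
  · rw [hN, hv, show cip e5 (aH s) = -1 by simp [cip_aH, e5], ← hρ, zpow_neg_one]
    field_simp
    linear_combination h.eb s
  · rw [hN, hv]
    by_cases e : r = s
    · rw [e, show cip (eb s) (aH s) = 1 by simp [cip_aH, eb], zpow_one]
      simp only [if_true, Matrix.cons_val_one, Matrix.cons_val_zero]
      linear_combination c.N A * hρ + h.e5
    · rw [show cip (eb r) (aH s) = 0 by simp [cip_aH, eb, Ne.symm e], zpow_zero]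
      simp only [if_neg e, Matrix.cons_val_one, Matrix.cons_val_zero]
      linear_combination h.eb r
  · rw [hv, show cip (aV l l') (aH s) = 1 by simp [cip_aH, aV], zpow_one]
    refine mul_right_cancel₀ h.N0 ?_
    linear_combination c.N A * h.aV l l' hl - χ (aV l l') * c.N A * h.e5 +
      χ (aV l l') * χ (aH s) * c.N A * h.eb s - χ (aV l l') * c.N A * c.N A * hρ

theorem moveF {Γ : Type} [LinearOrderedCommGroupWithZero Γ] (v : Valuation k Γ) {c : Cfg O k}
    {χ : CL → k} (h : Shp A c χ) (hχ : IsCh χ) (s : Fin 2) :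
    ∃ c', RelF A c c' s ∧ Shp A c' (cD.lat.flip (Invo.one v) (eb s) χ) := by
  have k1 : ∀ l, ∃ x, x * (A.t * c.η l - 1) = c.η l := fun l => A.div _ (by simp [A.rt])
  choose η' hη using k1
  have hN : Cfg.N A ⟨c.z, η', ![c.be s, c.be s.rev], fun r => if r = s then c.al 0 else c.al 1,
      -c.Q0, -c.Q1, -c.Q2⟩ = -c.N A := by
    fin_cases s <;> simp [Cfg.N] <;> ring
  refine ⟨⟨c.z, η', ![c.be s, c.be s.rev], fun r => if r = s then c.al 0 else c.al 1,
      -c.Q0, -c.Q1, -c.Q2⟩, ⟨rfl, hη, rfl, rfl, if_pos rfl, ?_⟩,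
      h.z0, fun l => ?_, ?_, ?_, fun r => ?_, fun l l' hl => ?_⟩
  · fin_cases s <;> simp
  · have e := congrArg A.res (hη l)
    simp only [map_sub, map_mul, map_one, A.rt] at e
    linear_combination -A.res (c.z l) * e - h.cur l
  · rw [hN]
    exact neg_ne_zero.2 h.N0
  · rw [hN, Lat.flip_orth χ (by rw [DP.lat_ip, cD_ip, cip_eb]; rfl)]
    linear_combination -h.e5
  · rw [hN]
    by_cases e : r = s
    · rw [e, Lat.flip_self (eb_line s) (hχ.2 _)]
      have := h.eb s
      simp only [Invo.one, if_true, Matrix.cons_val_one, Matrix.cons_val_zero]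
      fin_cases s <;> simp [Cfg.N] at this ⊢ <;> linear_combination this
    · rw [Lat.flip_orth χ (by
        rw [DP.lat_ip, cD_ip, cip_eb]
        simp [eb, Pi.single_eq_of_ne (Ne.symm e)])]
      have e' : s.rev = r := by fin_cases s <;> fin_cases r <;> simp at e ⊢
      simp only [if_neg e, e', Matrix.cons_val_one, Matrix.cons_val_zero]
      linear_combination -h.eb r
  · rw [Lat.flip_orth χ (by rw [DP.lat_ip, cD_ip, cip_eb]; rfl)]
    linear_combination -h.aV l l' hl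

end Pool.Agent.Lib.MP_d03834_ag.Core
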