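import Pool.Agent.Lib.MP_d03834_ag.Core.ClDefs
import Pool.Agent.Lib.MP_d03834_ag.Core.ShMove
import Pool.Agent.Lib.MP_d03834_ag.Core.Rgr

/-! Change of the graph curve: the conditions along a graph depend only on the graph modulo the
product of the linear factors; the new exact curve after the horizontal shear. -/

set_option autoImplicit false

namespace Pool.Agent.Lib.MP_d03834_ag.Core

open Polynomial

section field
variable {K : Type} [Field K]

/-- two graphs which agree modulo the product of the linear factors give the same conditions -/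
theorem Dv.regraph {ι : Type} [Fintype ι] {p q : Fin 2 → K[X]} {n n' : Fin 2 → K} {z : ι → K}
    {m : ι → ℤ} {F : Cx K} {a d : ℤ} (hF : Bih a d F)
    (hp : ∀ l, (p 0).eval (z l) * n 1 - (p 1).eval (z l) * n 0 ≠ 0)
    (hq : ∀ l, (q 0).eval (z l) ≠ 0 ∨ (q 1).eval (z l) ≠ 0)
    (hd : ∏ l, (X - C (z l)) ∣ q 0 * p 1 - q 1 * p 0) (h : Dv p n z m F) : Dv q n' z m F := by
  classical
  refine dv_of_arc fun w j S hS hne L _ _ b x _ hx => ?_
  obtain ⟨l, hl⟩ := hne
  have hw := ((hS l).1 hl).1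
  have hx' : PowerSeries.X ∣ x - algebraMap K (PowerSeries L) w := by simp [hx]
  have h1 : ∀ u : PowerSeries L, PowerSeries.X ∣ PowerSeries.X ^ S.card * u := fun u =>
    (dvd_pow_self _ (Finset.card_pos.2 ⟨l, hl⟩).ne').mul_right u
  have h2 : ∀ (g : K[X]) (u : PowerSeries L), g.eval (z l) ≠ 0 →
      IsUnit (aeval x g + PowerSeries.X ^ S.card * PowerSeries.C b * u) := fun g u hg =>
    ps_const (hw ▸ hg) (by
      convert dvd_add (ps_aeval hx' g) (h1 (PowerSeries.C b * u)) using 1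
      ring)
  refine h.arc hF (hw ▸ hp l) S (fun r hr => ((hS r).1 hr).1) hx'
    ((hq l).imp (h2 _ _) (h2 _ _)) ?_
  have h3 : PowerSeries.X ^ S.card ∣ aeval x (q 0 * p 1 - q 1 * p 0) := by
    refine Dvd.dvd.trans ?_ (map_dvd (aeval x) hd)
    rw [map_prod, ← Finset.prod_const]
    refine (Finset.prod_dvd_prod_of_dvd _ _ fun r hr => ?_).trans
      (Finset.prod_dvd_prod_of_subset _ _ _ S.subset_univ)
    rw [map_sub, aeval_X, aeval_C, ((hS r).1 hr).1]
    exact hx'
  simp only [map_sub, map_mul] at h3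
  convert dvd_add h3 (dvd_mul_right (PowerSeries.X ^ S.card) (PowerSeries.C b *
    (aeval x (p 1) * algebraMap K (PowerSeries L) (n' 0) -
      aeval x (p 0) * algebraMap K (PowerSeries L) (n' 1)))) using 1
  ring

end field

variable {O k : Type} [CommRing O] [Field k] (A : Arc O k)

theorem qd_map {R S : Type} [CommRing R] [CommRing S] (f : R →+* S) (a : Fin 3 → R) :
    (qd a).map f = qd fun i => f (a i) := by
  simp [qd]

/-- every polynomial is a combination with quadratic coefficients modulo the five points -/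
theorem gr12 (z : Fin 5 → O) (hz : ∀ l, A.res (z l) ≠ 0) (a : Fin 3 → O) (a0 : A.res (a 0) ≠ 0)
    (a2 : A.res (a 2) ≠ 0) (h0 h1 g : O[X]) : ∃ α β : Fin 3 → O,
      ∏ l, (X - C (z l)) ∣ g - (qd α * (X * qd a + C A.t * h1) - qd β * (X ^ 2 + C A.t * h0)) := by
  have := A.res.domain_nontrivial
  let S : Submodule O O[X] :=
    { carrier := {s | ∃ α β : Fin 3 → O,
        s = qd α * (X * qd a + C A.t * h1) - qd β * (X ^ 2 + C A.t * h0)}
      add_mem' := by
        rintro _ _ ⟨α, β, rfl⟩ ⟨α', β', rfl⟩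
        refine ⟨α + α', β + β', ?_⟩
        simp only [qd, Pi.add_apply, map_add]
        ring
      zero_mem' := ⟨0, 0, by simp [qd]⟩
      smul_mem' := by
        rintro c _ ⟨α, β, rfl⟩
        refine ⟨c • α, c • β, ?_⟩
        simp only [qd, Pi.smul_apply, smul_eq_mul, map_mul, smul_eq_C_mul]
        ring }
  have hm := Rgr.pr_monic Finset.univ z
  have hd : (Rgr.pr Finset.univ z).natDegree = 5 := by
    rw [Rgr.pr, natDegree_prod_of_monic _ _ fun _ _ => monic_X_sub_C _]
    simp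
  obtain ⟨E, hE⟩ := Rgr.inv_mod Finset.univ z X fun l _ => by simpa using A.unit _ (hz l)
  obtain ⟨u0, hu0⟩ := (A.unit _ a0).exists_right_inv
  obtain ⟨u2, hu2⟩ := (A.unit _ a2).exists_right_inv
  obtain ⟨s, ⟨α, β, rfl⟩, hs⟩ := Rgr.nak_mod hm (t := A.t)
    (fun x => A.unit _ (by simp [A.rt])) S (fun f => by
      have h5 : ((E * f) %ₘ Rgr.pr Finset.univ z).natDegree < 5 :=
        (natDegree_modByMonic_lt _ hm fun e => by simp [e] at hd).trans_eq hd
      have e1 := modByMonic_add_div (E * f) (Rgr.pr Finset.univ z)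
      have e2 := as_sum_range_C_mul_X_pow' _ h5
      generalize (E * f) %ₘ Rgr.pr Finset.univ z = r at e1 e2
      simp only [Finset.sum_range_succ, Finset.range_zero, Finset.sum_empty] at e2
      let α : Fin 3 → O := ![r.coeff 0 * u0, 0, r.coeff 4 * u2]
      let β : Fin 3 → O := ![r.coeff 0 * u0 * a 1 - r.coeff 1,
        r.coeff 0 * u0 * a 2 + r.coeff 4 * u2 * a 0 - r.coeff 2, r.coeff 4 * u2 * a 1 - r.coeff 3]
      refine ⟨_, ⟨α, β, rfl⟩, qd β * h0 - qd α * h1, ?_⟩
      have e3 : qd α * qd a - qd β * X = r := by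
        have c0 := congrArg C hu0
        have c2 := congrArg C hu2
        simp only [map_mul, map_one] at c0 c2
        simp only [qd, α, β, Matrix.cons_val_zero, Matrix.cons_val_one, Matrix.cons_val, map_sub,
          map_add, map_mul, map_zero]
        linear_combination C (r.coeff 0) * c0 + C (r.coeff 4) * X ^ 4 * c2 - e2
      convert dvd_sub (dvd_mul_right _ (X * (E * f /ₘ Rgr.pr Finset.univ z))) (hE.mul_right f)
        using 1
      linear_combination (-X) * e3 - X * e1) g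
  exact ⟨α, β, hs⟩

variable {A}

/-- the horizontal shear keeps the shape, with the new residue curve -/
theorem moveHQ {c : Cfg O k} {χ : CL → k} (h : Shp A c χ) (hχ : IsCh χ) (s : Fin 2) :
    ∃ c', RelH A c c' s ∧ Shp A c' (χ ∘ cD.rf (aH s)) ∧
      c'.Q0 = c.Q0 + A.res (c.al 1) - A.res (c.be s) ∧ c'.Q1 = c.Q1 ∧ c'.Q2 = c.Q2 := by
  have k1 : ∀ l, ∃ x, x * (c.z l - A.t * c.be s) =
      c.al 1 - c.be s + c.η l * (c.z l - A.t * c.al 1) :=
    fun l => A.div _ (by simpa [A.rt] using h.z0 l)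
  choose η' hη using k1
  have hρ0 := hχ.2 (aH s)
  have hρ : χ (aH s) * χ (eb s) = χ e5 := by rw [← hχ.1, aH_eq, sub_add_cancel]
  have hv : ∀ u, (χ ∘ cD.rf (aH s)) u = χ u * χ (aH s) ^ cip u (aH s) := fun u => by
    rw [Function.comp, DP.rf, hχ.1, hχ.zsmul, cD_ip]
  have hN : Cfg.N A ⟨c.z, η', ![c.al 0, c.be s], fun r => if r = s then c.al 1 else c.be r,
      c.Q0 + A.res (c.al 1) - A.res (c.be s), c.Q1, c.Q2⟩ = c.N A := by
    fin_cases s <;> simp [Cfg.N] <;> ring
  refine ⟨⟨c.z, η', ![c.al 0, c.be s], fun r => if r = s then c.al 1 else c.be r,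
      c.Q0 + A.res (c.al 1) - A.res (c.be s), c.Q1, c.Q2⟩, ⟨rfl, hη, rfl, rfl, if_pos rfl, ?_⟩,
      ⟨h.z0, fun l => ?_, ?_, ?_, fun r => ?_, fun l l' hl => ?_⟩, rfl, rfl, rfl⟩
  · fin_cases s <;> simp
  · have e := congrArg A.res (hη l)
    simp only [map_sub, map_mul, map_add, A.rt] at e
    linear_combination e + h.cur l
  · rw [hN]
    exact h.N0
  · rw [hN, hv, show cip e5 (aH s) = -1 by simp [cip_aH, e5], ← hρ, zpow_neg_one]
    field_simp
    linear_combination h.eb s
  · rw [hN, hv]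
    by_cases e : r = s
    · rw [e, show cip (eb s) (aH s) = 1 by simp [cip_aH, eb], zpow_one]
      simp only [if_true, Matrix.cons_val_one, Matrix.cons_val_zero]
      linear_combination c.N A * hρ + h.e5
    · rw [show cip (eb r) (aH s) = 0 by simp [cip_aH, eb, Ne.symm e], zpow_zero]
      simp only [if_neg e, Matrix.cons_val_one, Matrix.cons_val_zero]
      linear_combination h.eb r
  · rw [hv, show cip (aV l l') (aH s) = 1 by simp [cip_aH, aV], zpow_one]
    refine mul_right_cancel₀ h.N0 ?_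
    linear_combination c.N A * h.aV l l' hl - χ (aV l l') * c.N A * h.e5 +
      χ (aV l l') * χ (aH s) * c.N A * h.eb s - χ (aV l l') * c.N A * c.N A * hρ

theorem Ex.unit {c : CCfg O k} (e : Ex A c) {x : O} (hx : A.res x ≠ 0) :
    A.res (qv (c.q 0) x) ≠ 0 := by
  simpa [qv, e.r00, e.r01, e.r02] using hx

/-- the horizontal shear of a configuration with its exact curve -/
theorem moveHC {c : CCfg O k} {χ : CL → k} (h : Shp A c.toCfg χ) (hχ : IsCh χ) (e : Ex A c)
    (s : Fin 2) : ∃ c' : CCfg O k, RelH A c.toCfg c'.toCfg s ∧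
      Shp A c'.toCfg (χ ∘ cD.rf (aH s)) ∧ Ex A c' ∧ ∏ l, (X - C (c.z l)) ∣
        qd (c'.q 0) * (C (c.al 1 - c.be s) * qd (c.q 0) + qd (c.q 1) * (X - C (A.t * c.al 1))) -
          qd (c'.q 1) * (qd (c.q 0) * (X - C (A.t * c.be s))) := by
  obtain ⟨c', hr, hs, q0, q1, q2⟩ := moveHQ h hχ s
  obtain ⟨w0, hw0⟩ := (A.ker _).1 e.r00
  obtain ⟨w1, hw1⟩ := (A.ker (c.q 0 1 - 1)).1 (by simp [e.r01])
  obtain ⟨w2, hw2⟩ := (A.ker _).1 e.r02
  have hw : qd (c.q 0) = X + C A.t * qd ![w0, w1, w2] := by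
    simp only [qd, hw0, eq_add_of_sub_eq hw1, hw2, Matrix.cons_val_zero, Matrix.cons_val_one,
      Matrix.cons_val, map_mul, map_add, map_one]
    ring
  have hQ0 : c'.Q0 ≠ 0 := fun e0 => by
    have := hs.e5
    rw [e0, neg_zero, mul_eq_zero] at this
    exact this.elim (hχ.2 _) hs.N0
  let a : Fin 3 → O := ![c.q 1 0 + (c.al 1 - c.be s), c.q 1 1, c.q 1 2]
  have ha : qd a = qd (c.q 1) + C (c.al 1 - c.be s) := by
    simp only [qd, a, Matrix.cons_val_zero, Matrix.cons_val_one, Matrix.cons_val, map_add]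
    ring
  have a0 : A.res (a 0) = c'.Q0 := by
    simp only [a, Matrix.cons_val_zero, map_add, map_sub, e.r10, q0]
    ring
  obtain ⟨α, β, hd⟩ := gr12 A c.z h.z0 a (a0 ▸ hQ0) (by simpa [a, e.r12] using h.Q2 hχ)
    (qd ![w0, w1, w2] * X - C (c.be s) * qd (c.q 0))
    (C (c.al 1 - c.be s) * qd ![w0, w1, w2] - C (c.al 1) * qd (c.q 1))
    (C (c.al 1 - c.be s) * qd (c.q 0) * (qd (c.q 1) - qd ![w0, w1, w2] - C (c.be s)))
  let q' : Fin 2 → Fin 3 → O := ![fun i => c.q 0 i + A.t * α i, fun i => a i + A.t * β i]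
  have e0 : qd (q' 0) = qd (c.q 0) + C A.t * qd α := by
    simp only [qd, q', Matrix.cons_val_zero, map_add, map_mul]
    ring
  have e1 : qd (q' 1) = qd a + C A.t * qd β := by
    simp only [qd, q', Matrix.cons_val_zero, Matrix.cons_val_one, map_add, map_mul]
    ring
  have hd' : ∏ l, (X - C (c.z l)) ∣
      qd (q' 0) * (C (c.al 1 - c.be s) * qd (c.q 0) + qd (c.q 1) * (X - C (A.t * c.al 1))) -
        qd (q' 1) * (qd (c.q 0) * (X - C (A.t * c.be s))) := by
    rw [e0, e1]
    convert (hd.mul_left (C A.t)).neg_right using 1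
    simp only [ha, map_mul, map_sub]
    generalize qd ![w0, w1, w2] = W at hw
    rw [hw]
    ring
  refine ⟨⟨c', q'⟩, hr, hs, ⟨?_, ?_, ?_, ?_, ?_, ?_, fun l => ?_⟩, hd'⟩
  · simp [q', A.rt, e.r00]
  · simp [q', A.rt, e.r01]
  · simp [q', A.rt, e.r02]
  · simpa [q', A.rt] using a0
  · simp [q', a, A.rt, e.r11, q1]
  · simp [q', a, A.rt, e.r12, q2]
  · have e2 := Rgr.eval_of_dvd hd' (Finset.mem_univ l)
    simp only [eval_sub, eval_mul, eval_add, eval_C, eval_X, qd_eval] at e2
    have u : IsUnit (qv (c.q 0) (c.z l) * (c.z l - A.t * c.be s)) :=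
      (A.unit _ (e.unit (h.z0 l))).mul (A.unit _ (by simpa [A.rt] using h.z0 l))
    change qv (q' 1) (c'.z l) = c'.η l * qv (q' 0) (c'.z l)
    rw [hr.z]
    refine u.mul_right_cancel ?_
    linear_combination -e2 - qv (q' 0) (c.z l) * qv (c.q 0) (c.z l) * hr.el l +
      qv (q' 0) (c.z l) * (c.z l - A.t * c.al 1) * e.on l

/-- the same with the consequence for sections over any field -/
theorem moveHD {c : CCfg O k} {χ : CL → k} (h : Shp A c.toCfg χ) (hχ : IsCh χ) (e : Ex A c)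
    (s : Fin 2) : ∃ c' : CCfg O k, RelH A c.toCfg c'.toCfg s ∧
      Shp A c'.toCfg (χ ∘ cD.rf (aH s)) ∧ Ex A c' ∧
      ∀ (K : Type) [Field K] [Algebra O K] (p d : ℤ) (m : Fin 5 → ℤ) (F : Cx K), Bih p d F →
        Dv ![qd (fun i => algebraMap O K (c.q 0 i)) * (X - C (algebraMap O K (A.t * c.be s))),
          C (algebraMap O K (c.al 1 - c.be s)) * qd (fun i => algebraMap O K (c.q 0 i)) +
            qd (fun i => algebraMap O K (c.q 1 i)) * (X - C (algebraMap O K (A.t * c.al 1)))]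
          ![0, 1] (fun l => algebraMap O K (c.z l)) m F →
        Dv ![qd fun i => algebraMap O K (c'.q 0 i), qd fun i => algebraMap O K (c'.q 1 i)]
          ![0, 1] (fun l => algebraMap O K (c.z l)) m F := by
  obtain ⟨c', hr, hs, he, hd⟩ := moveHC h hχ e s
  refine ⟨c', hr, hs, he, fun K _ _ p d m F hF => Dv.regraph hF (fun l => ?_) (fun l => ?_) ?_⟩
  · have u : IsUnit (qv (c.q 0) (c.z l) * (c.z l - A.t * c.be s)) :=
      (A.unit _ (e.unit (h.z0 l))).mul (A.unit _ (by simpa [A.rt] using h.z0 l))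
    simpa [qv, qd] using (u.map (algebraMap O K)).ne_zero
  · left
    simpa [qv, qd] using ((A.unit _ (he.unit (h.z0 l))).map (algebraMap O K)).ne_zero
  · simpa [Polynomial.map_prod, qd_map] using Polynomial.map_dvd (algebraMap O K) hd

end Pool.Agent.Lib.MP_d03834_ag.Core
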