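import Pool.Agent.Lib.MP_d03834_ag.Core.ClG
import Pool.Agent.Lib.MP_d03834_ag.Core.KPC

/-! The horizontal move for configurations from the shear over a field. -/

set_option autoImplicit false

namespace Pool.Agent.Lib.MP_d03834_ag.Core

open Polynomial Module

/-- the shear at a 1 and b s in divisibility form over a field -/
def ShearHD (K : Type) [Field K] : Prop :=
  ∀ (t dl : K) (q q2 : Fin 2 → Fin 3 → K) (z : Fin 5 → K) (a b a2 b2 : Fin 2 → K) (p d p2 : ℤ)
    (m m2 : Ix → ℤ) (s : Fin 2), t ≠ 0 → dl ≠ 0 → a 1 - b s = t * dl →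
    (∀ l, z l ≠ a 1) → (∀ l, z l ≠ b s) →
    (∀ r s2, a r = b s2 → m (.inr (.inl r)) + m (.inr (.inr s2)) ≤ d) →
    a2 0 = a 0 → a2 1 = b s → b2 s = a 1 → b2 s.rev = b s.rev →
    p2 = p + d - m (.inr (.inl 1)) - m (.inr (.inr s)) →
    (∀ l, m2 (.inl l) = m (.inl l)) → m2 (.inr (.inl 0)) = m (.inr (.inl 0)) →
    m2 (.inr (.inl 1)) = d - m (.inr (.inr s)) → m2 (.inr (.inr s)) = d - m (.inr (.inl 1)) →
    m2 (.inr (.inr s.rev)) = m (.inr (.inr s.rev)) →
    (∀ F : Cx K, Bih p2 d F →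
      Dv ![qd (q 0) * (X - C (b s)), C dl * qd (q 0) + qd (q 1) * (X - C (a 1))] ![0, 1] z
        (fun l => m (.inl l)) F → Dv ![qd (q2 0), qd (q2 1)] ![0, 1] z (fun l => m (.inl l)) F) →
    finrank K (HD t q z a b p d m) ≤ finrank K (HD t q2 z a2 b2 p2 d m2)

variable {O k : Type} [CommRing O] [Field k] {A : Arc O k} {K : Type} [Field K] [Algebra O K]

theorem stepHC_of (hK : Function.Injective (algebraMap O K)) (hS : ShearHD K) : StepHC A K := by
  intro c χ u s h e hg _ _ _ h1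
  obtain ⟨c', hr, hs, he, hreg⟩ := moveHD h hg.ch e s
  refine ⟨c', hs, he, fun ε _ => ?_⟩
  have ht : algebraMap O K A.t ≠ 0 := fun e0 => A.t0 (hK (e0.trans (map_zero _).symm))
  have un : ∀ x : O, A.res x ≠ 0 → algebraMap O K x ≠ 0 := fun x hx =>
    ((A.unit x hx).map _).ne_zero
  have nz : ∀ l (x : O), algebraMap O K (c.z l) ≠ algebraMap O K (A.t * x) := fun l x => by
    rw [← sub_ne_zero, ← map_sub]
    exact un _ (by simpa [A.rt] using h.z0 l)
  have e1 : dgy ε (cD.rf (aH s) u) = dgy ε u := by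
    rw [rf_aH]
    fin_cases s <;> simp [dgy, par] <;> omega
  rw [CCfg.HC, CCfg.HC, e1, show c'.z = c.z from hr.z, rf_aH]
  refine hS _ (algebraMap O K (c.al 1 - c.be s)) _ _ _ _ _ _ _ _ _ _ _ _ s ht
    (un _ (by simpa [sub_ne_zero] using h.a1b hg.ch h1)) (by simp only [map_mul, map_sub]; ring)
    (fun l => nz l _) (fun l => nz l _) (fun r s2 e2 => ?_) (by simp only [hr.a0])
    (by simp only [hr.a1]) (by simp only [hr.bs]) (by simp only [hr.br])
    (by fin_cases s <;> simp [dgx, dgy, mlt, par] <;> omega) (fun l => rfl)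
    (by fin_cases s <;> simp [mlt] <;> omega)
    (by fin_cases s <;> simp [dgy, mlt, par] <;> omega)
    (by fin_cases s <;> simp [dgy, mlt, par] <;> omega)
    (by fin_cases s <;> simp [mlt] <;> omega) fun F hF => hreg K _ _ _ F hF
  have e3 : A.res (c.al r) = A.res (c.be s2) := by
    rw [map_mul, map_mul] at e2
    rw [hK (mul_left_cancel₀ ht e2)]
  fin_cases r
  · have := hg.P s2.rev (by
      by_contra h2
      exact h.a0b h2 e3)
    fin_cases s2 <;> simp [dgy, mlt, par] at this ⊢ <;> omega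
  · have := hg.H s2 (by
      by_contra h2
      exact h.a1b hg.ch h2 e3)
    fin_cases s2 <;> simp [dgy, mlt, par] at this ⊢ <;> omega

end Pool.Agent.Lib.MP_d03834_ag.Core
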