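import Pool.Agent.Lib.MP_d03834_ag.Core.BiShear
import Pool.Agent.Lib.MP_d03834_ag.Core.Cl

/-! Multiplicities along a curve in divisibility form: the filtration of K[z][w] and the
homogeneous ideal in the ring of bihomogeneous coordinates. -/

set_option autoImplicit false

namespace Pool.Agent.Lib.MP_d03834_ag.Core

open Polynomial

section ring
variable {K ι : Type} [CommRing K] [Fintype ι]

/-- the polynomial which divides the normal coefficient number j -/
noncomputable def jD (z : ι → K) (m : ι → ℤ) (j : ℕ) : K[X] :=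
  ∏ l, (X - C (z l)) ^ (m l - j).toNat

theorem jD_dvd (z : ι → K) {m m' : ι → ℤ} {j j' : ℕ} (h : ∀ l, m l - j ≤ max (m' l - j') 0) :
    jD z m j ∣ jD z m' j' :=
  Finset.prod_dvd_prod_of_dvd _ _ fun l _ => pow_dvd_pow _ (by have := h l; omega)

theorem jD_mul (z : ι → K) {m m' : ι → ℤ} (j j' : ℕ) :
    jD z (m + m') (j + j') ∣ jD z m j * jD z m' j' := by
  rw [jD, jD, jD, ← Finset.prod_mul_distrib]
  refine Finset.prod_dvd_prod_of_dvd _ _ fun l _ => ?_
  rw [← pow_add]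
  refine pow_dvd_pow _ ?_
  rw [Pi.add_apply]
  push_cast
  omega

theorem jD_one (z : ι → K) {m : ι → ℤ} {j : ℕ} (h : ∀ l, m l ≤ j) : jD z m j = 1 :=
  Finset.prod_eq_one fun l _ => by
    rw [show (m l - j).toNat = 0 by have := h l; omega, pow_zero]

theorem jD_monic (z : ι → K) (m : ι → ℤ) (j : ℕ) : (jD z m j).Monic :=
  monic_prod_of_monic _ _ fun l _ => (monic_X_sub_C (z l)).pow _

/-- multiplicities m at the points (z l, 0), along the curve w = 0 -/
def JJ (z : ι → K) (m : ι → ℤ) : Ideal K[X][X] where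
  carrier := {g | ∀ j, jD z m j ∣ g.coeff j}
  zero_mem' := fun _ => dvd_zero _
  add_mem' := fun h h' j => by
    rw [coeff_add]
    exact dvd_add (h j) (h' j)
  smul_mem' := fun a g h j => by
    rw [smul_eq_mul, coeff_mul]
    refine Finset.dvd_sum fun x hx => Dvd.dvd.mul_left ((jD_dvd z fun l => ?_).trans (h x.2)) _
    have := Finset.HasAntidiagonal.mem_antidiagonal.1 hx
    omega

theorem mem_JJ {z : ι → K} {m : ι → ℤ} {g : K[X][X]} :
    g ∈ JJ z m ↔ ∀ j, jD z m j ∣ g.coeff j := Iff.rfl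

theorem JJ_mono {z : ι → K} {m m' : ι → ℤ} (h : ∀ l, m l ≤ max (m' l) 0) {g : K[X][X]}
    (hg : g ∈ JJ z m') : g ∈ JJ z m := fun j =>
  (jD_dvd z fun l => by have := h l; omega).trans (hg j)

theorem JJ_top (z : ι → K) {m : ι → ℤ} (h : ∀ l, m l ≤ 0) (g : K[X][X]) : g ∈ JJ z m := fun j => by
  rw [jD_one z fun l => (h l).trans (Int.natCast_nonneg j)]
  exact one_dvd _

theorem JJ_mul {z : ι → K} {m m' : ι → ℤ} {g g' : K[X][X]} (h : g ∈ JJ z m) (h' : g' ∈ JJ z m') :
    g * g' ∈ JJ z (m + m') := fun j => by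
  rw [coeff_mul]
  refine Finset.dvd_sum fun x hx => ?_
  rw [← Finset.HasAntidiagonal.mem_antidiagonal.1 hx]
  exact (jD_mul z _ _).trans (mul_dvd_mul (h _) (h' _))

theorem JJ_pow {z : ι → K} {m : ι → ℤ} {g : K[X][X]} (h : g ∈ JJ z m) (n : ℕ) :
    g ^ n ∈ JJ z (n • m) := by
  induction n with
  | zero => exact JJ_top z (by simp) _
  | succ n ih =>
    rw [pow_succ, succ_nsmul]
    exact JJ_mul ih h

theorem JJ_prod {z : ι → K} {κ : Type} (s : Finset κ) {m : κ → ι → ℤ} {g : κ → K[X][X]}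
    (h : ∀ a ∈ s, g a ∈ JJ z (m a)) : ∏ a ∈ s, g a ∈ JJ z (∑ a ∈ s, m a) := by
  classical
  induction s using Finset.induction_on with
  | empty => exact JJ_top z (by simp) _
  | insert a s ha ih =>
    rw [Finset.prod_insert ha, Finset.sum_insert ha]
    exact JJ_mul (h a (Finset.mem_insert_self a s))
      (ih fun b hb => h b (Finset.mem_insert_of_mem hb))

theorem JJ_X (z : ι → K) {g : K[X][X]} (h : g.coeff 0 = 0) : g ∈ JJ z 1 := fun j => by
  rcases j with _ | j
  · rw [h]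
    exact dvd_zero _
  · rw [jD_one z fun l => by simp]
    exact one_dvd _

theorem JJ_lin [DecidableEq ι] (z : ι → K) (l : ι) {g : K[X][X]}
    (h : (g.coeff 0).eval (z l) = 0) : g ∈ JJ z (Pi.single l 1) := fun j => by
  rcases j with _ | j
  · rw [jD, Finset.prod_eq_single l (fun b _ hb => by simp [hb]) (by simp)]
    simpa using dvd_iff_isRoot.2 h
  · rw [jD_one z fun b => by
      rw [Pi.single_apply]
      split_ifs <;> omega]
    exact one_dvd _

/-- the generators of the homogeneous ideal go into the filtration -/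
theorem JJ_gen (z : ι → K) (m : ι → ℤ) (j : ℕ) {γ : K[X][X]} {u : ι → K[X][X]}
    (h : γ.coeff 0 = 0) (hu : ∀ l, 0 < m l → ((u l).coeff 0).eval (z l) = 0) :
    γ ^ j * ∏ l, u l ^ (m l - j).toNat ∈ JJ z m := by
  classical
  have h1 : ∀ l ∈ Finset.univ, u l ^ (m l - j).toNat ∈
      JJ z ((m l - j).toNat • (Pi.single l 1 : ι → ℤ)) := fun l _ => by
    by_cases hl : 0 < m l
    · exact JJ_pow (JJ_lin z l (hu l hl)) _
    · rw [show (m l - j).toNat = 0 by omega]
      exact JJ_top z (by simp) _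
  refine JJ_mono (fun l => ?_) (JJ_mul (JJ_pow (JJ_X z h) j) (JJ_prod _ h1))
  rw [Pi.add_apply, Finset.sum_apply, Finset.sum_eq_single l (fun b _ hb => by simp [hb.symm])
    (by simp)]
  simp only [Pi.smul_apply, Pi.one_apply, Pi.single_eq_same, nsmul_eq_mul, mul_one]
  omega

/-- the linear form which vanishes at x = z -/
noncomputable def lz (z : K) : Cx K := MvPolynomial.X 0 - MvPolynomial.C z * MvPolynomial.X 1

theorem bih_lz (z : K) : Bih 1 0 (lz z) := bih_X0.sub (bih_X1.cmul z)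

/-- the homogeneous ideal -/
noncomputable def JH (γ : Cx K) (z : ι → K) (m : ι → ℤ) : Ideal (Cx K) :=
  Ideal.span (Set.range fun j : ℕ => γ ^ j * ∏ l, lz (z l) ^ (m l - j).toNat)

theorem JH_map {S : Type} [CommRing S] {Φ : Type} [FunLike Φ (Cx K) S] [RingHomClass Φ (Cx K) S]
    (φ : Φ) {γ : Cx K} {z : ι → K} {m : ι → ℤ} (I : Ideal S)
    (h : ∀ j : ℕ, φ γ ^ j * ∏ l, φ (lz (z l)) ^ (m l - j).toNat ∈ I) {F : Cx K}
    (hF : F ∈ JH γ z m) : φ F ∈ I := by
  refine (Ideal.span_le (I := I.comap φ)).2 ?_ hF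
  rintro _ ⟨j, rfl⟩
  simpa [Ideal.mem_comap] using h j

/-- homogenisation in x -/
noncomputable def hx (r : K[X]) (d : ℕ) : Cx K :=
  ∑ i ∈ Finset.range (d + 1),
    MvPolynomial.C (r.coeff i) * (MvPolynomial.X 0 ^ i * MvPolynomial.X 1 ^ (d - i))

theorem bih_hx (r : K[X]) (d : ℕ) : Bih d 0 (hx r d) :=
  MvPolynomial.IsWeightedHomogeneous.sum _ _ _ fun i hi => by
    have := Finset.mem_range.1 hi
    exact (((bih_X0.pow i).mul (bih_X1.pow (d - i))).cmul _).of_eq (by omega) (by ring)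

theorem aeval_hx {S : Type} [CommRing S] [Algebra K S] {r : K[X]} {d : ℕ} (h : r.natDegree ≤ d)
    (g : Fin 4 → S) (h1 : g 1 = 1) : MvPolynomial.aeval g (hx r d) = aeval (g 0) r := by
  rw [aeval_eq_sum_range' (Nat.lt_succ_of_le h), hx, map_sum]
  simp [h1, Algebra.smul_def]

end ring

variable {K ι : Type} [Field K] [Fintype ι]

theorem Dv_iff {q : Fin 2 → K[X]} {n : Fin 2 → K} {z : ι → K} {m : ι → ℤ} {F : Cx K} :
    Dv q n z m F ↔ nx q n F ∈ JJ z m := Iff.rfl

theorem nx_lz (q : Fin 2 → K[X]) (n : Fin 2 → K) (z : K) : nx q n (lz z) = C (X - C z) := by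
  simp [nx, lz]

/-- the determinant of the point of the graph and the normal direction -/
noncomputable def dn (q : Fin 2 → K[X]) (n : Fin 2 → K) : K[X] := q 0 * C (n 1) - q 1 * C (n 0)

/-- from the divisibility form to the homogeneous ideal -/
theorem JH_of_Dv {q : Fin 2 → K[X]} {n : Fin 2 → K} {γ : Cx K} {e : ℤ}
    (hγ : Bih e 1 γ) (h1 : nx q n γ = -(X * C (dn q n))) {z : ι → K} {m : ι → ℤ} {p d : ℤ}
    {F : Cx K} (hF : Bih p d F) (h : Dv q n z m F) :
    ∃ (g : Cx K) (a b : ℤ) (N : ℕ), Bih a b g ∧ (nx q n g).coeff 0 = dn q n ^ N ∧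
      g * F ∈ JH γ z m := by
  let lam : Cx K := .C (n 1) * .X 2 - .C (n 0) * .X 3
  have b1 : Bih 0 1 lam := (bih_X2.cmul _).sub (bih_X3.cmul _)
  have b0 := bih_hx (dn q n) (dn q n).natDegree
  let g0 : Cx K := MvPolynomial.X 1 * lam * hx (dn q n) (dn q n).natDegree
  have b2 : Bih _ _ g0 := (bih_X1.mul b1).mul b0
  have t0 : (nx q n g0).coeff 0 = dn q n ^ 2 := by
    have e0 : nx q n (hx (dn q n) (dn q n).natDegree) = C (dn q n) := by
      rw [nx, aeval_hx le_rfl _ rfl]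
      exact (aeval_algebraMap_apply K[X][X] X (dn q n)).trans (by simp)
    have e1 : nx q n lam = C (dn q n) := by
      simp [nx, lam, dn]
      ring
    simp only [g0, map_mul, e0, e1]
    simp [nx, pow_two]
  let S := Localization.Away g0
  let π : Cx K →ₐ[K] S := IsScalarTower.toAlgHom K (Cx K) S
  have hu : IsUnit (π g0) := IsLocalization.Away.algebraMap_isUnit g0
  simp only [g0, map_mul] at hu
  obtain ⟨u, hu1⟩ := isUnit_of_mul_isUnit_left (isUnit_of_mul_isUnit_left hu)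
  obtain ⟨w, hw⟩ := isUnit_of_mul_isUnit_right (isUnit_of_mul_isUnit_left hu)
  obtain ⟨Z, hZ⟩ : ∃ Z : S, π (.X 0) = u * Z := ⟨↑u⁻¹ * π (.X 0), by simp⟩
  have sc : ∀ {a b : ℤ} {G : Cx K}, Bih a b G → ∀ (s y0 y1 : S), π (.X 2) = s * y0 →
      π (.X 3) = s * y1 → π G = u ^ a.toNat * s ^ b.toNat *
        MvPolynomial.aeval ![Z, 1, y0, y1] G := by
    intro a b G hG s y0 y1 e0 e1
    rw [← hG.aeval_mul ![Z, 1, y0, y1] u s]
    refine DFunLike.congr_fun (MvPolynomial.algHom_ext fun i => ?_) G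
    fin_cases i <;> simp [hZ, e0, e1, hu1]
  obtain ⟨v, hv⟩ : IsUnit (aeval Z (dn q n)) := by
    have h2 := isUnit_of_mul_isUnit_right hu
    rw [sc b0 1 _ _ (one_mul _).symm (one_mul _).symm, aeval_hx le_rfl _ rfl] at h2
    exact isUnit_of_mul_isUnit_right h2
  obtain ⟨W, hW⟩ : ∃ W : S, w * W = π (.X 3) * aeval Z (q 0) - π (.X 2) * aeval Z (q 1) :=
    ⟨↑w⁻¹ * _, Units.mul_inv_cancel_left _ _⟩
  have hw' : (w : S) = algebraMap K S (n 1) * π (.X 2) - algebraMap K S (n 0) * π (.X 3) := by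
    rw [hw]
    simp only [lam, map_sub, map_mul, ← MvPolynomial.algebraMap_eq, AlgHom.commutes]
  have hv' : (v : S) = aeval Z (q 0) * algebraMap K S (n 1) -
      aeval Z (q 1) * algebraMap K S (n 0) := by
    rw [hv]
    simp [dn]
  have hi : (v : S) * ↑v⁻¹ = 1 := v.mul_inv
  let ev : K[X][X] →+* S := eval₂RingHom (aeval Z : K[X] →ₐ[K] S) W
  have key : ∀ {a b : ℤ} {G : Cx K}, Bih a b G →
      π G = u ^ a.toNat * (w * ↑v⁻¹) ^ b.toNat * ev (nx q n G) := by
    intro a b G hG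
    rw [sc hG (w * ↑v⁻¹) (aeval Z (q 0) + W * algebraMap K S (n 0))
      (aeval Z (q 1) + W * algebraMap K S (n 1)), nx_eval]
    · rfl
    · linear_combination (-π (.X 2)) * hi + π (.X 2) * ↑v⁻¹ * hv' -
        ↑v⁻¹ * aeval Z (q 0) * hw' - ↑v⁻¹ * algebraMap K S (n 0) * hW
    · linear_combination (-π (.X 3)) * hi + π (.X 3) * ↑v⁻¹ * hv' -
        ↑v⁻¹ * aeval Z (q 1) * hw' - ↑v⁻¹ * algebraMap K S (n 1) * hW
  have hm : π F ∈ (JH γ z m).map (algebraMap (Cx K) S) := by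
    rw [key hF, (nx q n F).as_sum_support, map_sum]
    refine Ideal.mul_mem_left _ _ (Ideal.sum_mem _ fun j _ => ?_)
    obtain ⟨c, hc⟩ := h j
    have h2 : π (γ ^ j * ∏ l, lz (z l) ^ (m l - j).toNat) ∈
        (JH γ z m).map (algebraMap (Cx K) S) :=
      Ideal.mem_map_of_mem _ (Ideal.subset_span ⟨j, rfl⟩)
    have h3 : ∀ l, π (lz (z l)) = u * ev (C (X - C (z l))) := fun l => by
      simpa [nx_lz] using key (bih_lz (z l))
    have h5 : ev (C (dn q n)) = v := by
      rw [hv]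
      simp [ev]
    have h6 : π γ = u ^ e.toNat * (w * ↑v⁻¹) * -v * ev X := by
      rw [key hγ, h1, map_neg, map_mul, h5]
      simp only [Int.toNat_one]
      ring
    simp only [map_mul, map_pow, map_prod, h6, h3, mul_pow, Finset.prod_mul_distrib] at h2
    rw [← C_mul_X_pow_eq_monomial, hc]
    simp only [map_mul, map_pow, map_prod]
    have h4 : IsUnit (((u : S) ^ e.toNat) ^ j * ((w : S) ^ j * (↑v⁻¹ : S) ^ j) * (-v : S) ^ j *
        ∏ l, (u : S) ^ (m l - j).toNat) :=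
      ((((u.isUnit.pow _).pow _).mul ((w.isUnit.pow _).mul (v⁻¹.isUnit.pow _))).mul
        (v.isUnit.neg.pow _)).mul (IsUnit.prod_univ_iff.2 fun l => u.isUnit.pow _)
    refine (Ideal.unit_mul_mem_iff_mem _ h4).1 ?_
    convert Ideal.mul_mem_left _ (ev (C c)) h2 using 1
    ring
  obtain ⟨_, ⟨N, rfl⟩, hN⟩ :=
    (IsLocalization.algebraMap_mem_map_algebraMap_iff (Submonoid.powers g0) S _ F).1 hm
  refine ⟨g0 ^ N, _, _, 2 * N, b2.pow N, ?_, hN⟩
  rw [map_pow, coeff_zero_eq_eval_zero, eval_pow, ← coeff_zero_eq_eval_zero, t0, pow_mul]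

theorem jD_cop (z : ι → K) (m : ι → ℤ) (j : ℕ) {a : K[X]}
    (h : ∀ l, (j : ℤ) < m l → a.eval (z l) ≠ 0) : IsCoprime (jD z m j) a :=
  IsCoprime.prod_left fun l _ => by
    by_cases hl : (j : ℤ) < m l
    · exact ((irreducible_X_sub_C (z l)).coprime_iff_not_dvd.2 fun e =>
        h l hl (dvd_iff_isRoot.1 e)).pow_left
    · rw [show (m l - j).toNat = 0 by omega, pow_zero]
      exact isCoprime_one_left

/-- a factor which does not vanish at the points can be cancelled -/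
theorem JJ_cancel {z : ι → K} {m : ι → ℤ} {g G : K[X][X]}
    (h0 : ∀ l, 0 < m l → (g.coeff 0).eval (z l) ≠ 0) (h : g * G ∈ JJ z m) : G ∈ JJ z m := by
  intro j
  induction j using Nat.strong_induction_on with
  | _ j ih => ?_
  have h1 := h j
  rw [coeff_mul, ← Finset.add_sum_erase _ _ (a := (0, j)) (by simp)] at h1
  refine (jD_cop z m j fun l hl => h0 l (by omega)).dvd_of_dvd_mul_left
    ((dvd_add_left (Finset.dvd_sum fun x hx => ?_)).1 h1)
  obtain ⟨h2, h3⟩ := Finset.mem_erase.1 hx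
  have h4 := Finset.HasAntidiagonal.mem_antidiagonal.1 h3
  have h5 : x.2 < j := by
    by_contra h6
    exact h2 (Prod.ext (by omega) (by omega))
  exact ((jD_dvd z fun l => by omega).trans (ih _ h5)).mul_left _

/-- from the homogeneous ideal to the divisibility form -/
theorem JJ_of_JH (φ : Cx K →ₐ[K] K[X][X]) {γ g F : Cx K} {z z' : ι → K} {m : ι → ℤ}
    (h1 : (φ γ).coeff 0 = 0) (h2 : ∀ l, 0 < m l → ((φ (lz (z l))).coeff 0).eval (z' l) = 0)
    (h3 : ∀ l, 0 < m l → ((φ g).coeff 0).eval (z' l) ≠ 0) (h : g * F ∈ JH γ z m) :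
    φ F ∈ JJ z' m := by
  refine JJ_cancel h3 ?_
  rw [← map_mul]
  exact JH_map φ _ (fun j => JJ_gen z' m j h1 h2) h

end Pool.Agent.Lib.MP_d03834_ag.Core
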