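import Pool.Agent.Lib.MP_d03834_ag.Core.ShMove

/-! The vertical shear which fixes a graph curve of bidegree (2, 1) pointwise:
the matrix, its identities, and the new configuration. -/

set_option autoImplicit false

namespace Pool.Agent.Lib.MP_d03834_ag.Core.Vc

section alg
variable {R S : Type} [CommRing R] [CommRing S]

/-- the minors of the pair of quadratics -/
def br (a b : Fin 3 → R) (i j : Fin 3) : R := b i * a j - a i * b j

/-- the value of a quadratic -/
def qv (a : Fin 3 → R) (z : R) : R := a 0 + a 1 * z + a 2 * z ^ 2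

/-- the resultant -/
def rs (a b : Fin 3 → R) : R := br a b 1 0 * br a b 2 1 - br a b 2 0 ^ 2

/-- the Bezout form, it vanishes on conjugate points -/
def bz (a b : Fin 3 → R) (z w : R) : R := br a b 1 0 + br a b 2 0 * (z + w) + br a b 2 1 * (z * w)

/-- the coefficients of the equation of the curve -/
def gc (a b : Fin 3 → R) (y0 y1 : R) (i : Fin 3) : R := b i * y0 - a i * y1

/-- the equation of the curve y = (a(x) : b(x)) -/
def gam (a b : Fin 3 → R) (x0 x1 y0 y1 : R) : R :=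
  gc a b y0 y1 0 * x1 ^ 2 + gc a b y0 y1 1 * (x0 * x1) + gc a b y0 y1 2 * x0 ^ 2

/-- the fibre through the point z of the curve -/
def lf (a b : Fin 3 → R) (z y0 y1 : R) : R := qv b z * y0 - qv a z * y1

/-- the scalar part of the matrix -/
def nl (a b : Fin 3 → R) (z w y0 y1 : R) : R :=
  (br a b 2 0 * (b 0 - z * w * b 2) + br a b 2 1 * (z * w * b 1 + (z + w) * b 0)) * y0 +
  (br a b 2 0 * (z * w * a 2 - a 0) - br a b 2 1 * ((z + w) * a 0 + z * w * a 1)) * y1

/-- first coordinate of N(y) x -/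
def n0 (a b : Fin 3 → R) (z w y0 y1 x0 x1 : R) : R :=
  (nl a b z w y0 y1 - bz a b z w * gc a b y0 y1 1) * x0 - bz a b z w * gc a b y0 y1 0 * x1

/-- second coordinate of N(y) x -/
def n1 (a b : Fin 3 → R) (z w y0 y1 x0 x1 : R) : R :=
  bz a b z w * gc a b y0 y1 2 * x0 + nl a b z w y0 y1 * x1

/-- first coordinate of adj N(y) x -/
def m0 (a b : Fin 3 → R) (z w y0 y1 x0 x1 : R) : R :=
  nl a b z w y0 y1 * x0 + bz a b z w * gc a b y0 y1 0 * x1

/-- second coordinate of adj N(y) x -/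
def m1 (a b : Fin 3 → R) (z w y0 y1 x0 x1 : R) : R :=
  (nl a b z w y0 y1 - bz a b z w * gc a b y0 y1 1) * x1 - bz a b z w * gc a b y0 y1 2 * x0

/-- the Bezout form, homogeneous in x: the linear form which vanishes at the conjugate of w -/
def bx (a b : Fin 3 → R) (w x0 x1 : R) : R :=
  (br a b 2 0 + br a b 2 1 * w) * x0 + (br a b 1 0 + br a b 2 0 * w) * x1

variable (a b : Fin 3 → R) (z w y0 y1 x0 x1 x : R)

theorem bz_comm : bz a b z w = bz a b w z := by unfold bz; ring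
theorem nl_comm : nl a b z w y0 y1 = nl a b w z y0 y1 := by unfold nl; ring
theorem bx_one : bx a b w x 1 = bz a b w x := by unfold bx bz; ring
theorem gam_one : gam a b x 1 y0 y1 = lf a b x y0 y1 := by unfold gam gc lf qv; ring

theorem n0_comm : n0 a b z w y0 y1 x0 x1 = n0 a b w z y0 y1 x0 x1 := by
  rw [n0, n0, bz_comm, nl_comm]
theorem n1_comm : n1 a b z w y0 y1 x0 x1 = n1 a b w z y0 y1 x0 x1 := by
  rw [n1, n1, bz_comm, nl_comm]
theorem m0_comm : m0 a b z w y0 y1 x0 x1 = m0 a b w z y0 y1 x0 x1 := by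
  rw [m0, m0, bz_comm, nl_comm]
theorem m1_comm : m1 a b z w y0 y1 x0 x1 = m1 a b w z y0 y1 x0 x1 := by
  rw [m1, m1, bz_comm, nl_comm]

theorem lf_q : lf a b z (qv a x) (qv b x) = (z - x) * bz a b z x := by
  unfold lf qv bz br; ring

theorem n1_q : n1 a b z w (qv a x) (qv b x) x 1 = rs a b * ((x - z) * (x - w)) := by
  unfold n1 nl gc rs bz br qv; ring

theorem n0_q : n0 a b z w (qv a x) (qv b x) x 1 = rs a b * ((x - z) * (x - w)) * x := by
  unfold n0 nl gc rs bz br qv; ring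

theorem m1_q : m1 a b z w (qv a x) (qv b x) x 1 = -(bz a b z x * bz a b w x) := by
  unfold m1 nl gc bz br qv; ring

theorem m0_q : m0 a b z w (qv a x) (qv b x) x 1 = -(bz a b z x * bz a b w x) * x := by
  unfold m0 nl gc bz br qv; ring

/-- the determinant of N(y) -/
theorem det_n : (nl a b z w y0 y1 - bz a b z w * gc a b y0 y1 1) * nl a b z w y0 y1 +
    bz a b z w * gc a b y0 y1 0 * (bz a b z w * gc a b y0 y1 2) =
    -rs a b * (lf a b z y0 y1 * lf a b w y0 y1) := by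
  unfold nl gc rs lf bz br qv; ring

theorem n0_m : n0 a b z w y0 y1 (m0 a b z w y0 y1 x0 x1) (m1 a b z w y0 y1 x0 x1) =
    -rs a b * (lf a b z y0 y1 * lf a b w y0 y1) * x0 := by
  rw [← det_n]; unfold n0 m0 m1; ring

theorem n1_m : n1 a b z w y0 y1 (m0 a b z w y0 y1 x0 x1) (m1 a b z w y0 y1 x0 x1) =
    -rs a b * (lf a b z y0 y1 * lf a b w y0 y1) * x1 := by
  rw [← det_n]; unfold n1 m0 m1; ring

theorem m0_n : m0 a b z w y0 y1 (n0 a b z w y0 y1 x0 x1) (n1 a b z w y0 y1 x0 x1) =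
    -rs a b * (lf a b z y0 y1 * lf a b w y0 y1) * x0 := by
  rw [← det_n]; unfold n0 n1 m0; ring

theorem m1_n : m1 a b z w y0 y1 (n0 a b z w y0 y1 x0 x1) (n1 a b z w y0 y1 x0 x1) =
    -rs a b * (lf a b z y0 y1 * lf a b w y0 y1) * x1 := by
  rw [← det_n]; unfold n0 n1 m1; ring

theorem gam_m : gam a b (m0 a b z w y0 y1 x0 x1) (m1 a b z w y0 y1 x0 x1) y0 y1 =
    -rs a b * (lf a b z y0 y1 * lf a b w y0 y1) * gam a b x0 x1 y0 y1 := by
  rw [← det_n]; unfold gam m0 m1; ring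

theorem gam_n : gam a b (n0 a b z w y0 y1 x0 x1) (n1 a b z w y0 y1 x0 x1) y0 y1 =
    -rs a b * (lf a b z y0 y1 * lf a b w y0 y1) * gam a b x0 x1 y0 y1 := by
  rw [← det_n]; unfold gam n0 n1; ring

/-- the key identity: the pull back of the line x = z -/
theorem key : m0 a b z w y0 y1 x0 x1 - z * m1 a b z w y0 y1 x0 x1 =
    lf a b z y0 y1 * bx a b w x0 x1 := by
  unfold m0 m1 nl gc lf bx bz br qv; ring

theorem key' : m0 a b z w y0 y1 x0 x1 - w * m1 a b z w y0 y1 x0 x1 =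
    lf a b w y0 y1 * bx a b z x0 x1 := by
  rw [m0_comm, m1_comm, key]

/-- the key identity for N -/
theorem key_n : bx a b w (n0 a b z w y0 y1 x0 x1) (n1 a b z w y0 y1 x0 x1) =
    -rs a b * lf a b w y0 y1 * (x0 - z * x1) := by
  unfold n0 n1 nl gc lf rs bx bz br qv; ring

/-- the pull back of the line x = u, in terms of the image of u -/
theorem m_line (u : R) : m0 a b z w y0 y1 x0 x1 - u * m1 a b z w y0 y1 x0 x1 =
    n1 a b z w y0 y1 u 1 * x0 - n0 a b z w y0 y1 u 1 * x1 := by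
  unfold m0 m1 n0 n1; ring

variable {Φ : Type} [FunLike Φ R S] [RingHomClass Φ R S] (f : Φ)

theorem map_br (i j : Fin 3) : f (br a b i j) = br (f ∘ a) (f ∘ b) i j := by simp [br]
theorem map_qv : f (qv a z) = qv (f ∘ a) (f z) := by simp [qv]
theorem map_rs : f (rs a b) = rs (f ∘ a) (f ∘ b) := by simp [rs, br]
theorem map_bz : f (bz a b z w) = bz (f ∘ a) (f ∘ b) (f z) (f w) := by simp [bz, br]
theorem map_gc (i : Fin 3) : f (gc a b y0 y1 i) = gc (f ∘ a) (f ∘ b) (f y0) (f y1) i := by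
  simp [gc]
theorem map_gam : f (gam a b x0 x1 y0 y1) = gam (f ∘ a) (f ∘ b) (f x0) (f x1) (f y0) (f y1) := by
  simp [gam, gc]
theorem map_lf : f (lf a b z y0 y1) = lf (f ∘ a) (f ∘ b) (f z) (f y0) (f y1) := by simp [lf, qv]
theorem map_nl : f (nl a b z w y0 y1) = nl (f ∘ a) (f ∘ b) (f z) (f w) (f y0) (f y1) := by
  simp [nl, br]
theorem map_bx : f (bx a b w x0 x1) = bx (f ∘ a) (f ∘ b) (f w) (f x0) (f x1) := by simp [bx, br]
theorem map_n0 : f (n0 a b z w y0 y1 x0 x1) =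
    n0 (f ∘ a) (f ∘ b) (f z) (f w) (f y0) (f y1) (f x0) (f x1) := by
  simp only [n0, map_sub, map_mul, map_nl, map_bz, map_gc]
theorem map_n1 : f (n1 a b z w y0 y1 x0 x1) =
    n1 (f ∘ a) (f ∘ b) (f z) (f w) (f y0) (f y1) (f x0) (f x1) := by
  simp only [n1, map_add, map_mul, map_nl, map_bz, map_gc]
theorem map_m0 : f (m0 a b z w y0 y1 x0 x1) =
    m0 (f ∘ a) (f ∘ b) (f z) (f w) (f y0) (f y1) (f x0) (f x1) := by
  simp only [m0, map_add, map_mul, map_nl, map_bz, map_gc]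
theorem map_m1 : f (m1 a b z w y0 y1 x0 x1) =
    m1 (f ∘ a) (f ∘ b) (f z) (f w) (f y0) (f y1) (f x0) (f x1) := by
  simp only [m1, map_sub, map_mul, map_nl, map_bz, map_gc]

/-- the quadratic as a polynomial -/
noncomputable def qp (a : Fin 3 → R) : Polynomial R := qv (Polynomial.C ∘ a) Polynomial.X

theorem qp_eval : (qp a).eval z = qv a z := by simp [qp, qv]

theorem qp_map (g : R →+* S) : (qp a).map g = qp (g ∘ a) := by simp [qp, qv]

theorem qp_deg : (qp a).natDegree ≤ 2 := by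
  unfold qp qv
  simp only [Function.comp]
  compute_degree

theorem qp_coeff (i : Fin 3) : (qp a).coeff i = a i := by
  fin_cases i <;> simp [qp, qv, Polynomial.coeff_X, Polynomial.coeff_C]

theorem qp_of_deg {q : Polynomial R} (h : q.natDegree ≤ 2) : qp (fun i : Fin 3 => q.coeff i) = q := by
  ext n
  rcases Nat.lt_or_ge n 3 with e | e
  · exact qp_coeff _ ⟨n, e⟩
  · rw [Polynomial.coeff_eq_zero_of_natDegree_lt ((qp_deg _).trans_lt e),
      Polynomial.coeff_eq_zero_of_natDegree_lt (h.trans_lt e)]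

end alg

variable {O k : Type} [CommRing O] [Field k] {A : Arc O k}

/-- the curve y = (a(x) : b(x)) passes through the five free points and has the residue Q -/
structure Ex (A : Arc O k) (c : Cfg O k) (a b : Fin 3 → O) : Prop where
  a0 : A.res (a 0) = 0
  a1 : A.res (a 1) = 1
  a2 : A.res (a 2) = 0
  b0 : A.res (b 0) = c.Q0
  b1 : A.res (b 1) = c.Q1
  b2 : A.res (b 2) = c.Q2
  on : ∀ l, c.η l * qv a (c.z l) = qv b (c.z l)

/-- the shear at the free points i and j which fixes the curve pointwise -/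
structure Rel (A : Arc O k) (a b : Fin 3 → O) (c c' : Cfg O k) (i j : Fin 5) : Prop where
  zi : bz a b (c.z j) (c'.z i) = 0
  zj : bz a b (c.z i) (c'.z j) = 0
  ei : c'.η i = c.η j
  ej : c'.η j = c.η i
  zl : ∀ l, l ≠ i → l ≠ j → c'.z l = c.z l
  el : ∀ l, l ≠ i → l ≠ j → c'.η l = c.η l
  al : ∀ s, n0 a b (c.z i) (c.z j) 0 1 (A.t * c.al s) 1 =
    A.t * c'.al s * n1 a b (c.z i) (c.z j) 0 1 (A.t * c.al s) 1
  be : ∀ s, n0 a b (c.z i) (c.z j) A.t 1 (A.t * c.be s) 1 =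
    A.t * c'.be s * n1 a b (c.z i) (c.z j) A.t 1 (A.t * c.be s) 1

variable {c : Cfg O k} {a b : Fin 3 → O}

theorem Ex.r10 (h : Ex A c a b) : A.res (br a b 1 0) = -c.Q0 := by
  simp [br, h.a0, h.a1, h.b0]
theorem Ex.r20 (h : Ex A c a b) : A.res (br a b 2 0) = 0 := by simp [br, h.a0, h.a2]
theorem Ex.r21 (h : Ex A c a b) : A.res (br a b 2 1) = c.Q2 := by
  simp [br, h.a2, h.a1, h.b2]
theorem Ex.rrs (h : Ex A c a b) : A.res (rs a b) = -(c.Q0 * c.Q2) := by
  simp [rs, h.r10, h.r20, h.r21]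
theorem Ex.rbz (h : Ex A c a b) (z w : O) :
    A.res (bz a b z w) = c.Q2 * A.res z * A.res w - c.Q0 := by
  simp only [bz, map_add, map_mul, h.r10, h.r20, h.r21]
  ring
theorem Ex.rqa (h : Ex A c a b) (z : O) : A.res (qv a z) = A.res z := by
  simp [qv, h.a0, h.a1, h.a2]
theorem Ex.rqb (h : Ex A c a b) (z : O) :
    A.res (qv b z) = c.Q0 + c.Q1 * A.res z + c.Q2 * A.res z ^ 2 := by
  simp [qv, h.b0, h.b1, h.b2]
theorem Ex.rnl (h : Ex A c a b) (z w y : O) :
    A.res (nl a b z w (A.t * y) 1) = -(c.Q2 * A.res z * A.res w) := by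
  simp only [nl, map_add, map_mul, map_sub, h.r20, h.r21, A.rt, h.a0, h.a1, map_one]
  ring
theorem Ex.rn1 (h : Ex A c a b) (z w y x : O) :
    A.res (n1 a b z w (A.t * y) 1 (A.t * x) 1) = -(c.Q2 * A.res z * A.res w) := by
  simp only [n1, map_add, map_mul, h.rnl, A.rt, map_one]
  ring

theorem Ex.qa (h : Ex A c a b) : (qp a).map A.res = Polynomial.X := by
  simp [qp, qv, h.a0, h.a1, h.a2]
theorem Ex.qb (h : Ex A c a b) : (qp b).map A.res = Polynomial.C c.Q0 +
    Polynomial.C c.Q1 * Polynomial.X + Polynomial.C c.Q2 * Polynomial.X ^ 2 := by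
  simp [qp, qv, h.b0, h.b1, h.b2]

theorem Ex.cur (h : Ex A c a b) (l : Fin 5) : A.res (c.η l) * A.res (c.z l) =
    c.Q0 + c.Q1 * A.res (c.z l) + c.Q2 * A.res (c.z l) ^ 2 := by
  rw [← h.rqb, ← h.on, map_mul, h.rqa]

/-- the conjugate point -/
theorem Ex.conj (h : Ex A c a b) (h2 : c.Q2 ≠ 0) {z : O} (hz : A.res z ≠ 0) :
    ∃ w, bz a b z w = 0 ∧ c.Q2 * A.res z * A.res w = c.Q0 := by
  obtain ⟨w, hw⟩ := A.div (-(br a b 1 0 + br a b 2 0 * z)) (b := br a b 2 0 + br a b 2 1 * z)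
    (by simpa [h.r20, h.r21] using ⟨h2, hz⟩)
  have e : bz a b z w = 0 := by unfold bz; linear_combination hw
  exact ⟨w, e, by have := h.rbz z w; rw [e, map_zero] at this; exact (sub_eq_zero.1 this.symm)⟩

/-- the conjugate point lies on the same fibre -/
theorem Ex.on_conj (h : Ex A c a b) {l : Fin 5} (hz : A.res (c.z l) ≠ 0) {w : O}
    (hw : bz a b (c.z l) w = 0) : c.η l * qv a w = qv b w := by
  obtain ⟨u, hu⟩ := A.unit (qv a (c.z l)) (by rwa [h.rqa])
  have e := lf_q a b (c.z l) w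
  rw [hw, mul_zero, lf, ← h.on, ← hu] at e
  refine (Units.mul_right_inj u).1 ?_
  linear_combination e

/-- the image of a point near the centre -/
theorem Ex.near (h : Ex A c a b) {z w : O} (h1 : c.Q2 * A.res z * A.res w ≠ 0) {a' : O}
    (ha : a 0 = A.t * a') (y x : O) : ∃ x', n0 a b z w (A.t * y) 1 (A.t * x) 1 =
      A.t * x' * n1 a b z w (A.t * y) 1 (A.t * x) 1 ∧
      A.res x' * (c.Q2 * A.res z * A.res w) = c.Q0 * A.res x +
        (c.Q2 * A.res z * A.res w - c.Q0) * (c.Q0 * A.res y - A.res a') := by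
  obtain ⟨x', hx⟩ := A.div ((nl a b z w (A.t * y) 1 - bz a b z w * gc a b (A.t * y) 1 1) * x -
    bz a b z w * (b 0 * y - a')) (b := n1 a b z w (A.t * y) 1 (A.t * x) 1)
    (by rw [h.rn1]; exact neg_ne_zero.2 h1)
  refine ⟨x', ?_, ?_⟩
  · rw [mul_assoc, hx, n0, show gc a b (A.t * y) 1 0 = A.t * (b 0 * y - a') by rw [gc, ha]; ring]
    ring
  · have e := congrArg A.res hx
    rw [map_mul, h.rn1] at e
    simp only [map_sub, map_mul, h.rnl, h.rbz, gc, A.rt, h.a1, h.b0, map_one] at e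
    linear_combination -e

theorem moveV {χ : CL → k} (h : Shp A c χ) (hχ : IsCh χ) (hx : Ex A c a b) {i j : Fin 5}
    (hij : i ≠ j) : ∃ c', Rel A a b c c' i j ∧ Ex A c' a b ∧
      Shp A c' (χ ∘ cD.rf (aV i j)) := by
  have hQ0 := h.Q0 hχ
  have hQ2 := h.Q2 hχ
  have hκ := h.aV i j hij
  have hκ0 := hχ.2 (aV i j)
  generalize hk : χ (aV i j) = κ at hκ hκ0
  obtain ⟨a', ha⟩ := (A.ker _).1 hx.a0
  have h1 : c.Q2 * A.res (c.z i) * A.res (c.z j) ≠ 0 := hκ ▸ mul_ne_zero hκ0 hQ0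
  obtain ⟨wi, wi1, wi2⟩ := hx.conj hQ2 (h.z0 j)
  obtain ⟨wj, wj1, wj2⟩ := hx.conj hQ2 (h.z0 i)
  choose al' al1 al2 using fun s => hx.near h1 ha 0 (c.al s)
  choose be' be1 be2 using fun s => hx.near h1 ha 1 (c.be s)
  simp only [mul_zero, mul_one, map_zero, map_one, ← hκ] at al1 al2 be1 be2
  have al3 : ∀ s, A.res (al' s) * κ = A.res (c.al s) - (κ - 1) * A.res a' := fun s =>
    mul_right_cancel₀ hQ0 (by linear_combination al2 s)
  have be3 : ∀ s, A.res (be' s) * κ = A.res (c.be s) + (κ - 1) * (c.Q0 - A.res a') := fun s =>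
    mul_right_cancel₀ hQ0 (by linear_combination be2 s)
  let z' : Fin 5 → O := fun l => if l = i then wi else if l = j then wj else c.z l
  let η' : Fin 5 → O := fun l => if l = i then c.η j else if l = j then c.η i else c.η l
  have hN : Cfg.N A ⟨z', η', al', be', c.Q0, c.Q1, c.Q2⟩ * κ = c.N A := by
    simp only [Cfg.N]
    linear_combination be3 0 + be3 1 - al3 0 - al3 1
  have hz4 : ∀ l, A.res (z' l) * κ ^ (aV i j).2.1 l = A.res (c.z l) := by
    intro l
    by_cases hi : l = i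
    · rw [hi, show (aV i j).2.1 i = 1 by simp [aV, hij], zpow_one, show z' i = wi from if_pos rfl]
      refine mul_right_cancel₀ hQ0 ?_
      linear_combination A.res wi * hκ + A.res (c.z i) * wi2
    by_cases hj : l = j
    · rw [hj, show (aV i j).2.1 j = 1 by simp [aV, hij.symm], zpow_one,
        show z' j = wj by simp [z', hij.symm]]
      refine mul_right_cancel₀ hQ0 ?_
      linear_combination A.res wj * hκ + A.res (c.z j) * wj2
    simp [aV, hi, hj, z']
  have hv : ∀ u, (χ ∘ cD.rf (aV i j)) u = χ u * κ ^ cip u (aV i j) := fun u => by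
    rw [Function.comp, DP.rf, hχ.1, hχ.zsmul, hk, cD_ip]
  have hx' : Ex A ⟨z', η', al', be', c.Q0, c.Q1, c.Q2⟩ a b :=
    ⟨hx.a0, hx.a1, hx.a2, hx.b0, hx.b1, hx.b2, fun l => by
      dsimp only [z', η']
      split_ifs
      exacts [hx.on_conj (h.z0 j) wi1, hx.on_conj (h.z0 i) wj1, hx.on l]⟩
  refine ⟨⟨z', η', al', be', c.Q0, c.Q1, c.Q2⟩, ⟨?_, ?_, if_pos rfl, ?_, fun l hi hj => ?_,
    fun l hi hj => ?_, al1, be1⟩, hx', fun l => ?_, hx'.cur, ?_, ?_, fun s => ?_,
    fun l l' hl => ?_⟩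
  · simpa [z'] using wi1
  · simpa [z', hij.symm] using wj1
  · simp [η', hij.symm]
  · simp [z', hi, hj]
  · simp [η', hi, hj]
  · exact fun e => h.z0 l (by rw [← hz4, show A.res (z' l) = 0 from e, zero_mul])
  · exact fun e => h.N0 (by rw [← hN, e, zero_mul])
  · rw [hv, show cip e5 (aV i j) = 1 by simp [cip_aV, e5], zpow_one]
    linear_combination χ e5 * hN + h.e5
  · rw [hv, show cip (eb s) (aV i j) = 0 by simp [cip_aV, eb], zpow_zero]
    refine mul_right_cancel₀ hκ0 ?_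
    dsimp only
    linear_combination χ (eb s) * hN + h.eb s - be3 s + al3 1
  · rw [hv]
    dsimp only
    rw [← cD_ip, cD.symm (aV l l') (aV i j), cD_ip, cip_aV]
    have e : (aV i j).1.1 = 0 := rfl
    rw [e, zpow_sub₀ hκ0, zpow_sub₀ hκ0]
    have n1 := zpow_ne_zero ((aV i j).2.1 l) hκ0
    have n2 := zpow_ne_zero ((aV i j).2.1 l') hκ0
    have e3 := h.aV l l' hl
    rw [← hz4 l, ← hz4 l'] at e3
    field_simp
    linear_combination e3

end Pool.Agent.Lib.MP_d03834_ag.Core.Vc
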