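import Pool.Agent.Lib.MP_d03834_ag.Core.ClDefs
import Pool.Agent.Lib.MP_d03834_ag.Core.ClVc

/-! The vertical shear keeps the multiplicities along the curve which it fixes. -/

set_option autoImplicit false

namespace Pool.Agent.Lib.MP_d03834_ag.Core.Vc

open scoped Polynomial PowerSeries
open MvPolynomial (aeval C X)

variable {K : Type} [Field K]

/-- the fibre through the point over z -/
noncomputable def L (a b : Fin 3 → K) (z : K) : Cx K := lf (C ∘ a) (C ∘ b) (C z) (X 2) (X 3)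

/-- the substitution x ↦ adj N(y) x -/
noncomputable def Phi (a b : Fin 3 → K) (z w : K) : Cx K →ₐ[K] Cx K :=
  aeval ![m0 (C ∘ a) (C ∘ b) (C z) (C w) (X 2) (X 3) (X 0) (X 1),
    m1 (C ∘ a) (C ∘ b) (C z) (C w) (X 2) (X 3) (X 0) (X 1), X 2, X 3]

section ev
variable {R : Type} [CommRing R] [Algebra K R] (a b : Fin 3 → K) (z w : K) (x0 x1 y0 y1 : R)

theorem ev_C (v : Fin 4 → R) : (aeval v : Cx K →ₐ[K] R) ∘ (C ∘ a) = algebraMap K R ∘ a := by
  funext i
  simp

theorem ev_L : aeval ![x0, x1, y0, y1] (L a b z) =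
    lf (algebraMap K R ∘ a) (algebraMap K R ∘ b) (algebraMap K R z) y0 y1 := by
  rw [L, map_lf, ev_C, ev_C]
  simp

theorem ev_Phi (F : Cx K) : aeval ![x0, x1, y0, y1] (Phi a b z w F) =
    aeval ![m0 (algebraMap K R ∘ a) (algebraMap K R ∘ b) (algebraMap K R z) (algebraMap K R w)
      y0 y1 x0 x1, m1 (algebraMap K R ∘ a) (algebraMap K R ∘ b) (algebraMap K R z)
      (algebraMap K R w) y0 y1 x0 x1, y0, y1] F := by
  rw [← AlgHom.comp_apply]
  refine DFunLike.congr_fun (MvPolynomial.algHom_ext fun i => ?_) F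
  fin_cases i
  · simp [Phi, map_m0, ev_C]
  · simp [Phi, map_m1, ev_C]
  · simp [Phi]
  · simp [Phi]

theorem ev_qd (x : R) : Polynomial.aeval x (qd a) = qv (algebraMap K R ∘ a) x := by
  simp [qd, qv]

end ev

section zeta
variable {R : Type} [CommRing R] (a b : Fin 3 → R) (z w x ζ : R)

theorem lf_z : lf a b z (qv a x) (qv b x + ζ) = -((x - z) * bz a b z x) - ζ * qv a z := by
  unfold lf qv bz br; ring

theorem m1_z : m1 a b z w (qv a x) (qv b x + ζ) x 1 =
    -(bz a b z x * bz a b w x) + ζ * m1 a b z w 0 1 x 1 := by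
  rw [← m1_q]; unfold m1 nl gc; ring

theorem m0_z : m0 a b z w (qv a x) (qv b x + ζ) x 1 =
    -(bz a b z x * bz a b w x) * x + ζ * m0 a b z w 0 1 x 1 := by
  rw [← m0_q]; unfold m0 nl gc; ring

theorem gam_z : gam a b x 1 (qv a x) (qv b x + ζ) = -(ζ * qv a x) := by
  unfold gam gc qv; ring

end zeta

section ord
variable {E : Type} [Field E] [Algebra K E]

/-- order n, leading coefficient in the ground field -/
def Lk (K : Type) [Field K] [Algebra K E] (f : E⟦X⟧) (n : ℕ) : Prop :=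
  ∃ c : K, c ≠ 0 ∧ ∃ g, f = PowerSeries.X ^ n * (algebraMap K E⟦X⟧ c + PowerSeries.X * g)

theorem Lk.mul {f g : E⟦X⟧} {n r : ℕ} (h : Lk K f n) (h' : Lk K g r) : Lk K (f * g) (n + r) := by
  obtain ⟨c, hc, u, rfl⟩ := h
  obtain ⟨c', hc', v, rfl⟩ := h'
  refine ⟨c * c', mul_ne_zero hc hc', u * algebraMap K _ c' + algebraMap K _ c * v +
    PowerSeries.X * u * v, ?_⟩
  rw [map_mul]
  ring

theorem Lk.const {c : K} (hc : c ≠ 0) : Lk K (algebraMap K E⟦X⟧ c) 0 := ⟨c, hc, 0, by simp⟩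

open Classical in
theorem Lk.lin (w v : K) : Lk K (algebraMap K E⟦X⟧ w + PowerSeries.X - algebraMap K E⟦X⟧ v)
    (if v = w then 1 else 0) := by
  split_ifs with h
  · exact ⟨1, one_ne_zero, 0, by simp [h]⟩
  · exact ⟨w - v, sub_ne_zero.2 (Ne.symm h), 1, by rw [map_sub]; ring⟩

theorem unit_of {c : E} (hc : c ≠ 0) (g : E⟦X⟧) :
    IsUnit (PowerSeries.C c + PowerSeries.X * g) := by
  rw [PowerSeries.isUnit_iff_constantCoeff]
  simpa using hc

theorem Lk.sub {f : E⟦X⟧} {s : ℕ} (h : Lk K f s) {c : K} (hc : c ≠ 0) {β : E} (hβ : Gnr K β)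
    (i : ℕ) : Associated (f - PowerSeries.X ^ i * PowerSeries.C β * algebraMap K E⟦X⟧ c)
      (PowerSeries.X ^ min s i) := by
  obtain ⟨c0, h0, g, rfl⟩ := h
  have key : ∀ (n : ℕ) (e : E) (v f : E⟦X⟧), e ≠ 0 →
      f = PowerSeries.X ^ n * (PowerSeries.C e + PowerSeries.X * v) →
      Associated f (PowerSeries.X ^ n) := fun n e v f he hf =>
    hf ▸ associated_mul_unit_left _ _ (unit_of he v)
  simp only [PowerSeries.algebraMap_apply]
  rcases lt_trichotomy s i with e | rfl | e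
  · obtain ⟨t, rfl⟩ := Nat.exists_eq_add_of_lt e
    rw [min_eq_left e.le]
    exact key _ (algebraMap K E c0) (g - PowerSeries.X ^ t * PowerSeries.C β *
      PowerSeries.C (algebraMap K E c)) _ (by simpa using h0) (by ring)
  · rw [min_self]
    refine key _ (algebraMap K E c0 + β * algebraMap K E (-c)) g _ (fun e => h0 (hβ _ _ e).1) ?_
    simp only [map_add, map_mul, map_neg]
    ring
  · obtain ⟨t, rfl⟩ := Nat.exists_eq_add_of_lt e
    rw [min_eq_right e.le]
    refine key _ (algebraMap K E 0 + β * algebraMap K E (-c)) (PowerSeries.X ^ t *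
      (PowerSeries.C (algebraMap K E c0) + PowerSeries.X * g)) _
      (fun e => hc (neg_eq_zero.1 (hβ _ _ e).2)) ?_
    simp only [map_add, map_mul, map_neg, map_zero]
    ring

theorem ord_fin {F G l1 l2 : E⟦X⟧} {o1 o2 N' : ℕ} {m1 m2 N : ℤ}
    (h : F * l1 ^ m1.toNat * l2 ^ m2.toNat = G * l1 ^ (-m1).toNat * l2 ^ (-m2).toNat)
    (h1 : Associated l1 (PowerSeries.X ^ o1)) (h2 : Associated l2 (PowerSeries.X ^ o2))
    (hG : PowerSeries.X ^ N' ∣ G) (hN : N + o1 * m1 + o2 * m2 ≤ N') :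
    PowerSeries.X ^ N.toNat ∣ F := by
  rcases le_or_gt N 0 with e | e
  · rw [Int.toNat_of_nonpos e, pow_zero]
    exact one_dvd _
  have h3 := mul_dvd_mul (mul_dvd_mul hG (h1.symm.pow_pow (n := (-m1).toNat)).dvd)
    (h2.symm.pow_pow (n := (-m2).toNat)).dvd
  rw [← h] at h3
  have h4 := h3.trans (mul_dvd_mul (mul_dvd_mul_left F (h1.pow_pow (n := m1.toNat)).dvd)
    (h2.pow_pow (n := m2.toNat)).dvd)
  simp only [← pow_mul, ← pow_add, mul_assoc] at h4
  refine (mul_dvd_mul_iff_right (pow_ne_zero (o1 * m1.toNat + o2 * m2.toNat)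
    PowerSeries.X_ne_zero)).1 (Dvd.dvd.trans ?_ h4)
  rw [← pow_add]
  refine pow_dvd_pow _ ?_
  have e1 : m1 = m1.toNat - (-m1).toNat := by omega
  have e2 : m2 = m2.toNat - (-m2).toNat := by omega
  have e3 : N = N.toNat := by omega
  generalize m1.toNat = a1 at e1 ⊢
  generalize m2.toNat = a2 at e2 ⊢
  generalize (-m1).toNat = b1 at e1 ⊢
  generalize (-m2).toNat = b2 at e2 ⊢
  generalize N.toNat = n at e3 ⊢
  subst e1 e2 e3
  zify
  linarith

theorem arc0 {F : Cx K} {p d : ℤ} (hF : Bih p d F) {x0 x1 : E⟦X⟧} (y0 y1 : E⟦X⟧) {r : ℕ}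
    (h0 : PowerSeries.X ^ r ∣ x0) (h1 : PowerSeries.X ^ r ∣ x1) :
    PowerSeries.X ^ (r * p.toNat) ∣ aeval ![x0, x1, y0, y1] F := by
  obtain ⟨u, rfl⟩ := h0
  obtain ⟨v, rfl⟩ := h1
  have := hF.scale (PowerSeries.X ^ r) 1 u v y0 y1
  rw [one_mul, one_mul] at this
  rw [this, pow_mul, mul_assoc]
  exact dvd_mul_right _ _

theorem arc1 {ι : Type} [Fintype ι] {a b : Fin 3 → K} {z : ι → K} {m : ι → ℤ} {F : Cx K}
    {p d : ℤ} (hF : Bih p d F) (h : Dv ![qd a, qd b] ![0, 1] z m F) {w : K} (hw : qv a w ≠ 0)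
    (S : Finset ι) (hS : ∀ l ∈ S, z l = w) {x0 x1 y0 y1 : E⟦X⟧} {r : ℕ}
    (h1 : Associated x1 (PowerSeries.X ^ r))
    (h0 : PowerSeries.X ^ (r + 1) ∣ x0 - algebraMap K E⟦X⟧ w * x1) (hy : IsUnit y0)
    (hg : PowerSeries.X ^ (2 * r + S.card) ∣
      gam (algebraMap K E⟦X⟧ ∘ a) (algebraMap K E⟦X⟧ ∘ b) x0 x1 y0 y1) :
    PowerSeries.X ^ (r * p.toNat + (∑ l ∈ S, m l).toNat) ∣ aeval ![x0, x1, y0, y1] F := by
  obtain ⟨u, rfl⟩ := h1.symm
  obtain ⟨g, hg0⟩ := h0
  have e0 : x0 = PowerSeries.X ^ r * (u : E⟦X⟧) *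
      (algebraMap K E⟦X⟧ w + PowerSeries.X * g * (↑u⁻¹ : E⟦X⟧)) := by
    linear_combination hg0 - PowerSeries.X ^ (r + 1) * g * u.mul_inv
  generalize hx : algebraMap K E⟦X⟧ w + PowerSeries.X * g * (↑u⁻¹ : E⟦X⟧) = x at e0
  subst e0
  have e := hF.scale (PowerSeries.X ^ r * (u : E⟦X⟧)) 1 x 1 y0 y1
  rw [one_mul, one_mul, mul_one] at e
  rw [e, pow_add, pow_mul, mul_pow]
  refine mul_dvd_mul ((dvd_mul_right _ _).mul_right _) (Dv.arc hF h (w := w) ?_ S hS ?_
    (Or.inl hy) ?_)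
  · simpa [qd, qv] using hw
  · rw [← hx, add_sub_cancel_left, mul_assoc]
    exact dvd_mul_right _ _
  · have e1 : gam (algebraMap K E⟦X⟧ ∘ a) (algebraMap K E⟦X⟧ ∘ b)
        (PowerSeries.X ^ r * (u : E⟦X⟧) * x) (PowerSeries.X ^ r * (u : E⟦X⟧)) y0 y1 =
        PowerSeries.X ^ (2 * r) * (((u ^ 2 : E⟦X⟧ˣ) : E⟦X⟧) *
          lf (algebraMap K E⟦X⟧ ∘ a) (algebraMap K E⟦X⟧ ∘ b) x y0 y1) := by
      rw [← gam_one]
      simp only [gam, Units.val_pow_eq_pow_val]
      ring
    rw [e1, pow_add, mul_dvd_mul_iff_left (pow_ne_zero _ PowerSeries.X_ne_zero),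
      Units.dvd_mul_left] at hg
    simpa only [Matrix.cons_val_zero, Matrix.cons_val_one, ev_qd, lf] using hg

theorem Lk.add {f g : E⟦X⟧} {n : ℕ} (h : Lk K f n) (hg : PowerSeries.X ^ (n + 1) ∣ g) :
    Lk K (f + g) n := by
  obtain ⟨c, hc, u, rfl⟩ := h
  obtain ⟨v, rfl⟩ := hg
  exact ⟨c, hc, u + v, by ring⟩

theorem Lk.neg {f : E⟦X⟧} {n : ℕ} (h : Lk K f n) : Lk K (-f) n := by
  obtain ⟨c, hc, u, rfl⟩ := h
  exact ⟨-c, neg_ne_zero.2 hc, -u, by rw [map_neg]; ring⟩

theorem Lk.ass {f : E⟦X⟧} {n : ℕ} (h : Lk K f n) : Associated f (PowerSeries.X ^ n) := by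
  obtain ⟨c, hc, u, rfl⟩ := h
  refine associated_mul_unit_left _ _ ?_
  rw [PowerSeries.algebraMap_apply]
  exact unit_of (by simpa using hc) u

end ord

theorem bz_lin {a b : Fin 3 → K} (hr : rs a b ≠ 0) {u v : K} (h : bz a b u v = 0) :
    br a b 2 0 + br a b 2 1 * u ≠ 0 := fun e => hr <| by
  unfold bz at h
  unfold rs
  linear_combination br a b 2 1 * h - (br a b 2 0 + br a b 2 1 * v) * e

theorem qv_conj {a b : Fin 3 → K} (hr : rs a b ≠ 0) {u v : K} (h : bz a b u v = 0)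
    (hu : qv a u ≠ 0) : qv a v ≠ 0 := fun e => hr <| by
  have h1 := lf_q a b u v
  rw [h, mul_zero, lf, e, mul_zero, zero_sub, neg_eq_zero] at h1
  have h2 := n1_q a b (v + 1) (v + 1) v
  rw [e, (mul_eq_zero.1 h1).resolve_left hu] at h2
  simpa [n1, nl, gc] using h2.symm

theorem sum_two {ι : Type} [DecidableEq ι] {i j : ι} (hij : i ≠ j) (U : Finset ι) (f : ι → ℤ) :
    ∑ l ∈ U, f l = ∑ l ∈ (U.erase i).erase j, f l + (if i ∈ U then f i else 0) +
      (if j ∈ U then f j else 0) := by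
  have h : ∀ (V : Finset ι) (r : ι), ∑ l ∈ V, f l =
      ∑ l ∈ V.erase r, f l + if r ∈ V then f r else 0 := fun V r => by
    split_ifs with e
    · exact (Finset.sum_erase_add _ _ e).symm
    · rw [Finset.erase_eq_of_notMem e, add_zero]
  rw [h U i, h (U.erase i) j]
  simp only [Finset.mem_erase, ne_eq, hij.symm, not_false_eq_true, true_and]
  ring

/-- The multiplicities along the curve after the shear. -/
theorem gam_part {ι : Type} [Fintype ι] [DecidableEq ι] {a b : Fin 3 → K} {z z2 : ι → K}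
    {m m2 : ι → ℤ} {i j : ι} {p d : ℤ} {F F2 : Cx K} (hij : i ≠ j) (hr : rs a b ≠ 0)
    (hμ : bz a b (z i) (z j) ≠ 0) (hz : ∀ l, qv a (z l) ≠ 0) (zi : bz a b (z j) (z2 i) = 0)
    (zj : bz a b (z i) (z2 j) = 0) (zl : ∀ l, l ≠ i → l ≠ j → z2 l = z l)
    (ml : ∀ l, l ≠ i → l ≠ j → m2 l = m l) (mi : m2 i = p - m j) (mj : m2 j = p - m i)
    (hO : ∀ l r, l ≠ i → l ≠ j → r = i ∨ r = j → bz a b (z r) (z l) = 0 → m l + m r ≤ p)
    (hF : Bih p d F) (h : Dv ![qd a, qd b] ![0, 1] z m F)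
    (hrel : F2 * L a b (z i) ^ (m i).toNat * L a b (z j) ^ (m j).toNat =
      Phi a b (z i) (z j) F * L a b (z i) ^ (-m i).toNat * L a b (z j) ^ (-m j).toNat) :
    Dv ![qd a, qd b] ![0, 1] z2 m2 F2 := by
  classical
  refine dv_of_arc fun w t S hS hne E _ _ β x hβ hx => ?_
  have hw : qv a w ≠ 0 := by
    obtain ⟨l, hl⟩ := hne
    rw [← ((hS l).1 hl).1]
    by_cases e1 : l = i
    · exact e1 ▸ qv_conj hr zi (hz j)
    by_cases e2 : l = j
    · exact e2 ▸ qv_conj hr zj (hz i)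
    · rw [zl l e1 e2]
      exact hz l
  simp only [Matrix.cons_val_zero, Matrix.cons_val_one, ev_qd, map_zero, mul_zero, add_zero,
    map_one, mul_one]
  have hy : IsUnit (qv (algebraMap K E⟦X⟧ ∘ a) x) := by
    have := ps_aeval (x := x) (w := w) (L := E) (by simp [hx]) (qd a)
    rw [ev_qd, qd_eval] at this
    exact ps_const hw this
  have rel := congrArg (aeval ![x, 1, qv (algebraMap K E⟦X⟧ ∘ a) x,
    qv (algebraMap K E⟦X⟧ ∘ b) x + PowerSeries.X ^ S.card * PowerSeries.C β]) hrel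
  simp only [map_mul, map_pow, ev_L, ev_Phi] at rel
  have hB : ∀ u v, bz a b u v = 0 → Lk K (bz (algebraMap K E⟦X⟧ ∘ a) (algebraMap K E⟦X⟧ ∘ b)
      (algebraMap K E⟦X⟧ u) x) (if v = w then 1 else 0) := fun u v huv => by
    have e := congrArg (algebraMap K E⟦X⟧) huv
    rw [map_bz, map_zero] at e
    have := (Lk.const (E := E) (bz_lin hr huv)).mul (Lk.lin w v)
    rw [zero_add, ← hx, map_add, map_mul, map_br, map_br] at this
    convert this using 1
    unfold bz at e ⊢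
    linear_combination e
  have hl : ∀ u v, bz a b u v = 0 → qv a u ≠ 0 → Associated (lf (algebraMap K E⟦X⟧ ∘ a)
      (algebraMap K E⟦X⟧ ∘ b) (algebraMap K E⟦X⟧ u) (qv (algebraMap K E⟦X⟧ ∘ a) x)
      (qv (algebraMap K E⟦X⟧ ∘ b) x + PowerSeries.X ^ S.card * PowerSeries.C β))
      (PowerSeries.X ^ min ((if u = w then 1 else 0) + if v = w then 1 else 0) S.card) :=
    fun u v huv hu => by
    have := ((Lk.lin w u).mul (hB u v huv)).neg.sub hu hβ S.card
    rwa [← hx, map_qv, ← lf_z] at this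
  have li := hl _ _ zj (hz i)
  have lj := hl _ _ zi (hz j)
  have BB := (hB _ _ zj).mul (hB _ _ zi)
  have hg := (mul_dvd_mul (mul_dvd_mul li.symm.dvd lj.symm.dvd) (dvd_mul_right
    (PowerSeries.X ^ S.card) (-(PowerSeries.C β * qv (algebraMap K E⟦X⟧ ∘ a) x)))).mul_left
    (-rs (algebraMap K E⟦X⟧ ∘ a) (algebraMap K E⟦X⟧ ∘ b))
  rw [mul_neg, ← mul_assoc (PowerSeries.X ^ S.card), ← gam_z _ (algebraMap K E⟦X⟧ ∘ b),
    ← mul_assoc, ← gam_m, ← pow_add, ← pow_add] at hg
  have n1 : z2 j = w → z j ≠ w := fun e1 e2 => hμ (by rw [e2, ← e1, zj])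
  have n2 : z2 i = w → z i ≠ w := fun e1 e2 => hμ (by rw [e2, ← e1, bz_comm, zi])
  have c1 := sum_two hij S fun _ => 1
  have c2 := sum_two hij S m2
  have hT : ∀ l, l ∈ (S.erase i).erase j ↔ l ≠ i ∧ l ≠ j ∧ z l = w ∧ t < m l := fun l => by
    simp only [Finset.mem_erase, hS]
    exact ⟨fun ⟨h1, h2, h3⟩ => ⟨h2, h1, by rwa [zl l h2 h1, ml l h2 h1] at h3⟩,
      fun ⟨h2, h1, h3⟩ => ⟨h1, h2, by rwa [zl l h2 h1, ml l h2 h1]⟩⟩
  rw [Finset.sum_congr rfl fun l hl => ml l ((hT l).1 hl).1 ((hT l).1 hl).2.1] at c2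
  simp only [Finset.sum_const, nsmul_eq_mul, mul_one] at c1
  have hp : p ≤ p.toNat := Int.self_le_toNat p
  have si := (hS i).1
  have sj := (hS j).1
  rcases ((S.erase i).erase j).eq_empty_or_nonempty with hT0 | ⟨l, hl0⟩
  · rw [hT0] at c1 c2
    simp only [Finset.card_empty, Finset.sum_empty, Nat.cast_zero, zero_add] at c1 c2
    have hc := Finset.card_pos.2 hne
    by_cases hD : z2 i = w ∧ z2 j = w ∧ S.card = 1
    · obtain ⟨e1, e2, e3⟩ := hD
      have e4 : z j = z i := by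
        rw [e1, bz_comm] at zi
        rw [e2, bz_comm] at zj
        refine mul_left_cancel₀ (bz_lin hr zi) ?_
        unfold bz at zi zj
        linear_combination zi - zj
      have e5 : m1 a b (z i) (z j) 0 1 w 1 ≠ 0 := fun e => by
        have k1 := key a b (z i) (z j) 0 1 w 1
        rw [bx_one, ← e1, zi, e1, e, mul_zero, mul_zero, sub_zero] at k1
        have k2 := gam_m a b (z i) (z j) 0 1 w 1
        rw [k1, e, gam_one] at k2
        simp [gam, lf, hr, hz, hw] at k2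
      have hS1 : ∀ l ∈ S, z l = z i := fun l hl => by
        by_contra e
        have : l ∈ (S.erase i).erase j := by
          simp only [Finset.mem_erase]
          exact ⟨fun e' => e (e' ▸ e4), fun e' => e (e' ▸ rfl), hl⟩
        simp [hT0] at this
      simp only [if_pos e1, if_pos e2, if_neg (n1 e2), if_neg (n2 e1), e3] at li lj BB hg rel ⊢
      obtain ⟨g, hg1⟩ := BB.ass.symm.dvd
      have c3 := sum_two hij S m
      rw [hT0] at c3
      refine ord_fin rel li lj (arc1 (r := 1) hF h (hz i) S hS1 ?_ ?_ hy (by rw [e3]; exact hg)) ?_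
      · have e6 : m1 (algebraMap K E⟦X⟧ ∘ a) (algebraMap K E⟦X⟧ ∘ b) (algebraMap K E⟦X⟧ (z i))
            (algebraMap K E⟦X⟧ (z j)) 0 1 x 1 = algebraMap K E⟦X⟧ (m1 a b (z i) (z j) 0 1 w 1) -
            PowerSeries.X * algebraMap K E⟦X⟧ (bz a b (z i) (z j) * gc a b 0 1 2) := by
          rw [map_m1, map_mul, map_bz, map_gc, map_zero, map_one, hx]
          unfold m1
          ring
        have e7 := unit_of (c := β * algebraMap K E (m1 a b (z i) (z j) 0 1 w 1))
          (fun e => e5 (hβ 0 _ (by simpa using e)).2) (-g - PowerSeries.C β *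
            algebraMap K E⟦X⟧ (bz a b (z i) (z j) * gc a b 0 1 2))
        rw [m1_z, hg1, e6]
        convert associated_mul_unit_left (PowerSeries.X ^ 1) _ e7 using 1
        rw [map_mul PowerSeries.C, ← PowerSeries.algebraMap_apply]
        ring
      · rw [key, bx_one, pow_add]
        have := (hB _ _ zi).ass.symm.dvd
        rw [if_pos e1] at this
        exact mul_dvd_mul li.symm.dvd this
      · have := Int.self_le_toNat (∑ l ∈ S, m l)
        push_cast
        split_ifs at c1 c2 c3 <;> simp at c3 ⊢ <;> omega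
    · have e1 : PowerSeries.X ^ S.card ∣ _ := (pow_dvd_pow _ (by
        split_ifs at c1 ⊢ <;> first | omega | tauto)).trans BB.ass.symm.dvd
      refine ord_fin rel li lj (arc0 hF _ _ (r := S.card) ?_ ?_) ?_
      · rw [m0_z, mul_assoc]
        exact dvd_add (e1.neg_right.mul_right _) (dvd_mul_right _ _)
      · rw [m1_z, mul_assoc]
        exact dvd_add e1.neg_right (dvd_mul_right _ _)
      · rw [c2]
        by_cases h1 : i ∈ S <;> by_cases h2 : j ∈ S
        · have e2 : S.card = 2 := by simp only [h1, h2, if_true] at c1; omega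
          simp [h1, h2, e2, (si h1).1, (sj h2).1, n1 (sj h2).1, n2 (si h1).1, mi, mj]
          omega
        · have e2 : S.card = 1 := by simp only [h1, h2, if_true, if_false] at c1; omega
          have e3 : z2 j ≠ w := fun e => hD ⟨(si h1).1, e, e2⟩
          simp [h1, h2, e2, (si h1).1, e3, n2 (si h1).1, mi]
        · have e2 : S.card = 1 := by simp only [h1, h2, if_true, if_false] at c1; omega
          have e3 : z2 i ≠ w := fun e => hD ⟨e, (sj h2).1, e2⟩
          simp [h1, h2, e2, (sj h2).1, e3, n1 (sj h2).1, mj]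
        · simp only [h1, h2, if_false] at c1
          omega
  · obtain ⟨l1, l2, l3, l4⟩ := (hT l).1 hl0
    have hc := Finset.card_pos.2 ⟨l, hl0⟩
    have ti : i ∈ S ↔ z2 i = w := ⟨fun e => (si e).1, fun e => (hS i).2 ⟨e, by
      have := hO l j l1 l2 (Or.inr rfl) (by rw [l3, ← e, zi])
      omega⟩⟩
    have tj : j ∈ S ↔ z2 j = w := ⟨fun e => (sj e).1, fun e => (hS j).2 ⟨e, by
      have := hO l i l1 l2 (Or.inl rfl) (by rw [l3, ← e, zj])
      omega⟩⟩
    let U : Finset ι := Finset.univ.filter fun r => z r = w ∧ (r ≠ i → r ≠ j → t < m r)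
    have hU : (U.erase i).erase j = (S.erase i).erase j := by
      ext r
      rw [hT]
      simp only [U, Finset.mem_erase, Finset.mem_filter, Finset.mem_univ, true_and]
      tauto
    have ui : i ∈ U ↔ z i = w := by simp [U]
    have uj : j ∈ U ↔ z j = w := by simp [U]
    have c3 := sum_two hij U fun _ => 1
    have c4 := sum_two hij U m
    simp only [Finset.sum_const, nsmul_eq_mul, mul_one] at c3
    simp only [hU, ui, uj] at c3 c4
    simp only [ti, tj] at c1 c2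
    have e1 : PowerSeries.X ^ (((if z2 j = w then 1 else 0) + if z2 i = w then 1 else 0) + 1) ∣
        PowerSeries.X ^ S.card * PowerSeries.C β :=
      (pow_dvd_pow _ (by split_ifs at c1 ⊢ <;> omega)).mul_right _
    refine ord_fin rel li lj (arc1 hF h hw U (fun r hr => (Finset.mem_filter.1 hr).2.1)
      (r := (if z2 j = w then 1 else 0) + if z2 i = w then 1 else 0) ?_ ?_ hy
      ((pow_dvd_pow _ ?_).trans hg)) ?_
    · rw [m1_z]
      exact (BB.neg.add (e1.mul_right _)).ass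
    · rw [m0_z, m1_z]
      have e2 := mul_dvd_mul_right BB.ass.symm.dvd PowerSeries.X
      rw [← pow_succ] at e2
      have e3 : ∀ B ζ u v : E⟦X⟧, -B * x + ζ * u - algebraMap K E⟦X⟧ w * (-B + ζ * v) =
          ζ * (u - algebraMap K E⟦X⟧ w * v) - B * PowerSeries.X := fun B ζ u v => by
        rw [hx]
        ring
      rw [e3]
      exact dvd_sub (e1.mul_right _) e2
    · split_ifs at c1 c3 ⊢ <;> omega
    · have := Int.self_le_toNat (∑ l ∈ U, m l)
      have o : ∀ n, n ≤ S.card → min n S.card = n := fun n => min_eq_left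
      rw [o _ (by split_ifs at c1 ⊢ <;> omega), o _ (by split_ifs at c1 ⊢ <;> omega)]
      simp only [Nat.cast_add, Nat.cast_mul, Nat.cast_ite, Nat.cast_one, Nat.cast_zero]
      split_ifs at c2 c4 ⊢ <;> linarith

end Pool.Agent.Lib.MP_d03834_ag.Core.Vc
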