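import Pool.Agent.Lib.MP_d03834_ag.Core.ClV

/-! The pull back under the vertical shear is divisible by the two fibres. -/

set_option autoImplicit false

namespace Pool.Agent.Lib.MP_d03834_ag.Core.Vc

open scoped Polynomial PowerSeries
open MvPolynomial (aeval C X)

variable {K : Type} [Field K]

/-- divisibility by a power of a fibre is tested on one generic arc -/
theorem L_dvd {a : Fin 3 → K} (b : Fin 3 → K) {z : K} (hz : qv a z ≠ 0) (G : Cx K) (n : ℕ)
    (h : ∀ (E : Type) [Field E] [Algebra K E] (x0 x1 y0 : E) (y1 : E⟦X⟧),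
      (∀ u v : K, algebraMap K E u * x0 + algebraMap K E v * x1 = 0 → u = 0 ∧ v = 0) → y0 ≠ 0 →
      lf (algebraMap K E⟦X⟧ ∘ a) (algebraMap K E⟦X⟧ ∘ b) (algebraMap K E⟦X⟧ z)
        (PowerSeries.C y0) y1 = PowerSeries.X →
      PowerSeries.X ^ n ∣ aeval ![PowerSeries.C x0, PowerSeries.C x1, PowerSeries.C y0, y1] G) :
    L a b z ^ n ∣ G := by
  let E := FractionRing (Cx K)
  have inj : Function.Injective (algebraMap (Cx K) E) := IsFractionRing.injective _ _
  let θ : Cx K →ₐ[K] (Cx K)[X] := aeval ![Polynomial.C (X 0), Polynomial.C (X 1),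
    Polynomial.C (X 2), Polynomial.C (C (qv a z)⁻¹) *
      (Polynomial.C (C (qv b z) * X 2) - Polynomial.X)]
  have hψ : (Polynomial.evalRingHom (L a b z)).comp (θ : Cx K →+* (Cx K)[X]) = RingHom.id _ := by
    refine MvPolynomial.ringHom_ext (fun c => by simp [θ]) fun i => ?_
    fin_cases i
    · simp [θ]
    · simp [θ]
    · simp [θ]
    · have e : (C (qv a z)⁻¹ : Cx K) * C (qv a z) = 1 := by
        rw [← map_mul, inv_mul_cancel₀ hz, map_one]
      simp only [θ, L, lf, ← map_qv, RingHom.comp_apply, RingHom.coe_coe, MvPolynomial.aeval_X]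
      simp only [Fin.reduceFinMk, Matrix.cons_val, Polynomial.coe_evalRingHom,
        Polynomial.eval_mul, Polynomial.eval_C, Polynomial.eval_sub, Polynomial.eval_X,
        RingHom.id_apply]
      linear_combination X 3 * e
  let φ : (Cx K)[X] →+* E⟦X⟧ :=
    (Polynomial.coeToPowerSeries.ringHom).comp (Polynomial.mapRingHom (algebraMap (Cx K) E))
  have hC : ∀ c : K, algebraMap K E c = algebraMap (Cx K) E (C c) := fun c =>
    IsScalarTower.algebraMap_apply K (Cx K) E c
  have h1 := h E (algebraMap _ _ (X 0 : Cx K)) (algebraMap _ _ (X 1 : Cx K))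
    (algebraMap _ _ (X 2 : Cx K)) (φ (θ (X 3))) (fun u v huv => by
      rw [hC, hC, ← map_mul, ← map_mul, ← map_add, map_eq_zero_iff _ inj] at huv
      have e0 := congrArg (MvPolynomial.eval ![1, 0, 0, 0]) huv
      have e1 := congrArg (MvPolynomial.eval ![0, 1, 0, 0]) huv
      exact ⟨by simpa using e0, by simpa using e1⟩)
    (by rw [Ne, map_eq_zero_iff _ inj]; exact MvPolynomial.X_ne_zero _) (by
      have e : algebraMap K E⟦X⟧ (qv a z)⁻¹ * algebraMap K E⟦X⟧ (qv a z) = 1 := by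
        rw [← map_mul, inv_mul_cancel₀ hz, map_one]
      have e1 : φ (θ (X 3)) = algebraMap K E⟦X⟧ (qv a z)⁻¹ * (algebraMap K E⟦X⟧ (qv b z) *
          PowerSeries.C (algebraMap (Cx K) E (X 2)) - PowerSeries.X) := by
        simp [φ, θ, PowerSeries.algebraMap_apply, hC]
      rw [lf, ← map_qv, ← map_qv, e1]
      linear_combination (PowerSeries.X - algebraMap K E⟦X⟧ (qv b z) *
        PowerSeries.C (algebraMap (Cx K) E (X 2))) * e)
  have e3 : (aeval ![PowerSeries.C (algebraMap (Cx K) E (X 0)),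
      PowerSeries.C (algebraMap (Cx K) E (X 1)), PowerSeries.C (algebraMap (Cx K) E (X 2)),
      φ (θ (X 3))] : Cx K →ₐ[K] E⟦X⟧).toRingHom = φ.comp (θ : Cx K →+* (Cx K)[X]) := by
    refine MvPolynomial.ringHom_ext (fun c => ?_) fun i => ?_
    · simp [φ, θ, PowerSeries.algebraMap_apply, hC]
    · fin_cases i <;> simp [φ, θ]
  have e4 := DFunLike.congr_fun e3 G
  simp only [AlgHom.toRingHom_eq_coe, RingHom.coe_coe, RingHom.comp_apply] at e4
  rw [e4, PowerSeries.X_pow_dvd_iff] at h1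
  have h2 : Polynomial.X ^ n ∣ θ G := by
    rw [Polynomial.X_pow_dvd_iff]
    intro e he
    have h3 := h1 e he
    simp only [φ, RingHom.comp_apply, Polynomial.coeToPowerSeries.ringHom_apply,
      Polynomial.coeff_coe, Polynomial.coe_mapRingHom, Polynomial.coeff_map] at h3
    exact (map_eq_zero_iff _ inj).1 h3
  have h4 := map_dvd (Polynomial.evalRingHom (L a b z)) h2
  have h5 := DFunLike.congr_fun hψ G
  simp only [RingHom.comp_apply, RingHom.coe_coe, RingHom.id_apply] at h5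
  rw [h5] at h4
  simpa using h4

theorem fib {ι : Type} [Fintype ι] {a b : Fin 3 → K} {z : ι → K} {m : ι → ℤ} {F : Cx K}
    {p d : ℤ} (hF : Bih p d F) (h : Dv ![qd a, qd b] ![0, 1] z m F) {u v : K}
    (hμ : bz a b u v ≠ 0) (hu : qv a u ≠ 0) (S : Finset ι) (hS : ∀ l ∈ S, z l = u)
    {E : Type} [Field E] [Algebra K E] {x0 x1 y0 : E} {y1 : E⟦X⟧}
    (hx : ∀ u v : K, algebraMap K E u * x0 + algebraMap K E v * x1 = 0 → u = 0 ∧ v = 0)
    (hy : y0 ≠ 0) (hl : lf (algebraMap K E⟦X⟧ ∘ a) (algebraMap K E⟦X⟧ ∘ b) (algebraMap K E⟦X⟧ u)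
      (PowerSeries.C y0) y1 = PowerSeries.X)
    (hg : PowerSeries.X ^ S.card ∣ PowerSeries.X * lf (algebraMap K E⟦X⟧ ∘ a)
      (algebraMap K E⟦X⟧ ∘ b) (algebraMap K E⟦X⟧ v) (PowerSeries.C y0) y1) :
    PowerSeries.X ^ (∑ l ∈ S, m l).toNat ∣ aeval ![PowerSeries.C x0, PowerSeries.C x1,
      PowerSeries.C y0, y1] (Phi a b u v F) := by
  rw [ev_Phi]
  have := arc1 (E := E) (r := 0) hF h hu S hS (x0 := m0 _ _ (algebraMap K _ u) (algebraMap K _ v)
    (PowerSeries.C y0) y1 (PowerSeries.C x0) (PowerSeries.C x1)) ?_ ?_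
    ((Ne.isUnit hy).map PowerSeries.C) (by
      rw [gam_m, hl, mul_zero, zero_add]
      exact (hg.mul_left _).mul_right _)
  · simpa using this
  · have e1 : y0 * (algebraMap K E (m1 a b u v (qv a u) (qv b u) 1 0) * x0 +
        algebraMap K E (m1 a b u v (qv a u) (qv b u) 0 1) * x1) ≠ 0 := by
      refine mul_ne_zero hy fun e => hμ ?_
      obtain ⟨h1, h2⟩ := hx _ _ e
      have k1 := key a b u v (qv a u) (qv b u) 1 0
      have k2 := key a b u v (qv a u) (qv b u) 0 1
      rw [lf_q, sub_self, zero_mul, zero_mul] at k1 k2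
      rw [h1] at k1
      rw [h2] at k2
      simp only [m0, m1, mul_one, mul_zero, add_zero, zero_add, sub_zero, zero_sub] at h1 h2 k1 k2
      by_contra hμ
      have g0 := (mul_eq_zero.1 k2).resolve_left hμ
      have g2 := (mul_eq_zero.1 (neg_eq_zero.1 h1)).resolve_left hμ
      rw [k1, zero_sub] at h2
      have g1 := (mul_eq_zero.1 (neg_eq_zero.1 h2)).resolve_left hμ
      refine hμ (mul_left_cancel₀ hu ?_)
      unfold gc at g0 g1 g2
      unfold bz br
      linear_combination (a 0 - a 2 * (u * v)) * 0 * g1 + a 0 * g1 - a 1 * g0 +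
        (u + v) * (a 0 * g2 - a 2 * g0) + (u * v) * (a 1 * g2 - a 2 * g1)
    have e2 := unit_of e1 (-m1 (algebraMap K E⟦X⟧ ∘ a) (algebraMap K E⟦X⟧ ∘ b) (algebraMap K _ u)
      (algebraMap K _ v) 0 1 (PowerSeries.C x0) (PowerSeries.C x1))
    rw [pow_zero, associated_one_iff_isUnit]
    refine isUnit_of_mul_isUnit_right (x := algebraMap K E⟦X⟧ (qv a u)) ?_
    convert e2 using 1
    simp only [map_mul, map_add, ← PowerSeries.algebraMap_apply]
    rw [map_m1, map_m1, map_qv, map_qv, map_one, map_zero, ← hl]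
    unfold m1 nl gc lf
    ring
  · rw [key, hl, zero_add, pow_one]
    exact dvd_mul_right _ _

theorem div_part {ι : Type} [Fintype ι] {a b : Fin 3 → K} {z : ι → K} {m : ι → ℤ} {i j : ι}
    {p d : ℤ} {F : Cx K} (hij : i ≠ j) (hbz : bz a b (z i) (z j) ≠ 0)
    (h0 : ∀ l, qv a (z l) ≠ 0) (hF : Bih p d F) (h : Dv ![qd a, qd b] ![0, 1] z m F) :
    L a b (z i) ^ (m i).toNat * L a b (z j) ^ (m j).toNat ∣
      Phi a b (z i) (z j) F * L a b (z i) ^ (-m i).toNat * L a b (z j) ^ (-m j).toNat := by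
  classical
  by_cases e : z j = z i
  · rw [e, ← pow_add]
    rw [e] at hbz
    refine L_dvd b (h0 i) _ _ fun E _ _ x0 x1 y0 y1 hx hy hl => ?_
    have := fib hF h hbz (h0 i) {i, j} (by simp [e]) hx hy hl
      (by rw [hl, Finset.card_pair hij, pow_two])
    rw [Finset.sum_pair hij] at this
    simp only [map_mul, map_pow, ev_L, hl]
    refine Dvd.dvd.trans ?_ (mul_dvd_mul_right (mul_dvd_mul_right this _) _)
    rw [← pow_add, ← pow_add]
    exact pow_dvd_pow _ (by omega)
  · obtain ⟨G, hG⟩ : L a b (z i) ^ (m i).toNat ∣ Phi a b (z i) (z j) F := by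
      refine L_dvd b (h0 i) _ _ fun E _ _ x0 x1 y0 y1 hx hy hl => ?_
      simpa using fib hF h hbz (h0 i) {i} (by simp) hx hy hl (by simp)
    refine Dvd.dvd.mul_right (Dvd.dvd.mul_right ?_ _) _
    rw [hG]
    refine mul_dvd_mul_left _ (L_dvd b (h0 j) _ _ fun E _ _ x0 x1 y0 y1 hx hy hl => ?_)
    have h1 := fib hF h (bz_comm a b _ _ ▸ hbz) (h0 j) {j} (by simp) hx hy hl (by simp)
    have e1 : Phi a b (z j) (z i) = Phi a b (z i) (z j) := by
      rw [Phi, Phi, m0_comm, m1_comm]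
    rw [e1, hG, map_mul, map_pow, ev_L, Finset.sum_singleton] at h1
    refine (IsUnit.dvd_mul_left (IsUnit.pow _ ?_)).1 h1
    have e2 := unit_of (c := y0 * algebraMap K E ((z i - z j) * bz a b (z i) (z j)))
      (mul_ne_zero hy (by simpa [sub_eq_zero, hbz] using Ne.symm e))
      (algebraMap K E⟦X⟧ (qv a (z i)))
    refine isUnit_of_mul_isUnit_right (x := algebraMap K E⟦X⟧ (qv a (z j))) ?_
    convert e2 using 1
    rw [map_mul PowerSeries.C, ← PowerSeries.algebraMap_apply, ← lf_q, map_lf, map_qv, map_qv,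
      map_qv, ← hl]
    unfold lf
    ring

end Pool.Agent.Lib.MP_d03834_ag.Core.Vc
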