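import Pool.Agent.Lib.MP_d03834_ag.Nag.AmpC

/-! The collision of four points of multiplicity u and one point of multiplicity v. -/

set_option autoImplicit false

namespace Pool.Agent.Lib.MP_d03834_ag.Nag

open MvPolynomial Filter Topology Module

theorem clu5_chain (u : ℕ) : Clu (Fin 4) u 4 1 (4 * u) :=
  clu_of (α0 := 0) (α1 := 1) (γ0 := 1) (γ1 := 0) (by omega) (Finset.Ico 0 (4 * u)) 0
    (fun β => (u - β / 4).toNat) (fun x y h => by
      simp only [Finset.mem_Ico, Pi.zero_apply]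
      omega) fun i => hh_le 0 fun β h1 h2 => by
      rw [Finset.mem_Ico] at h1
      omega

lemma clu5_coeff_sc (a b : ℕ) (t : ℂ) (F : P2) (μ : Fin 2 →₀ ℕ) :
    coeff μ (sc a b t F) = t ^ (a * μ 0 + b * μ 1) * coeff μ F := by
  classical
  induction F using MvPolynomial.induction_on' with
  | add p q hp hq => simp only [map_add, coeff_add, hp, hq, mul_add]
  | monomial ν c =>
    rw [sc_monomial, coeff_smul, coeff_monomial, smul_eq_mul]
    split_ifs with h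
    · rw [h]
    · simp

lemma clu5_sc_mon {a b a' b' W : ℕ} (t : ℂ) {F : P2} (h : F ∈ Mon a' b' W) :
    sc a b t F ∈ Mon a' b' W := fun μ hμ => by rw [clu5_coeff_sc, h μ hμ, mul_zero]

/-- collision of finitely many points inside a scaling invariant monomial condition -/
theorem clu5_move {κ : Type} {a b : ℕ} (ha : a ≠ 0) (hb : b ≠ 0) (W a' b' W' : ℕ) (m : κ → ℕ)
    (p : κ → Fin 2 → ℂ) (hp : ∀ G ∈ Mon a' b' W', (∀ q, G ∈ Fat (p q) (m q)) →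
      (∀ μ ∈ G.support, a * μ 0 + b * μ 1 < W) → G = 0) (φ : P2 →ₐ[ℂ] P2)
    (V : Submodule ℂ P2) [FiniteDimensional ℂ V]
    (hV : ∀ F ∈ V, φ F ∈ Mon a' b' W' → φ F ∈ Mon a b W → F = 0) :
    ∃ p' : κ → Fin 2 → ℂ, ∀ F ∈ V, φ F ∈ Mon a' b' W' → (∀ q, F ∈ Fat (p' q) (m q)) → F = 0 := by
  have h1 := collide ha hb W (Mon a' b' W' ⊓ ⨅ q, Fat (p q) (m q))
    (fun G hG => hp G hG.1 ((Submodule.mem_iInf _).1 hG.2)) φ.toLinearMap
    (V ⊓ (Mon a' b' W').comap φ.toLinearMap) fun F hF h => hV F hF.1 hF.2 h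
  obtain ⟨t, h3⟩ := h1.exists
  refine ⟨fun q i => eval (p q) (((sc a b t).comp φ) (X i)), fun F hF h h' =>
    h3 F ⟨hF, h⟩ ⟨clu5_sc_mon t h, (Submodule.mem_iInf _).2 fun q => ?_⟩⟩
  exact Fat_map ((sc a b t).comp φ) _ _ (fun _ => rfl) _ (h' q)

/-- the tent with one point and r simple points -/
lemma clu5_tent (u v r : ℕ) (len : ℤ → ℕ) (K : ℕ) (U : Finset ℤ) (hK : hh U len K = 0)
    (hr : ∑ i ∈ Finset.range K, (hh U len i - 1 * (v - i)) ≤ r) :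
    ∃ p : Fin 1 ⊕ Fin r → Fin 2 → ℂ, ∀ G ∈ Mon 4 1 (4 * u),
      (∀ q, G ∈ Fat (p q) (Sum.elim (fun _ => v) (fun _ => 1) q)) →
      (∀ μ ∈ G.support, 4 * u ≤ 4 * μ 0 + μ 1 →
        (μ 0 : ℤ) ∈ U ∧ μ 1 < (4 * u - 4 * μ 0) + len (μ 0)) → G = 0 := by
  obtain ⟨z, σ, h⟩ := crit_pts (n := 1) (m := v) (r := r) (K := K) (U := U)
    (fun β => (4 * u - 4 * β).toNat) (len := len) hK hr
  refine ⟨fun q => ![((z q ^ (1 : ℤ) : ℂˣ) : ℂ) * σ q ^ 0, ((z q ^ (0 : ℤ) : ℂˣ) : ℂ) * σ q ^ 1],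
    fun G hM hG hs => ?_⟩
  have h0 := h (mo 1 0 0 1 G) (fun j β hj => by
    obtain ⟨μ, a1, rfl, rfl⟩ := mo_sup hj
    have a2 : 4 * u ≤ 4 * μ 0 + μ 1 := by
      by_contra hn
      exact mem_support_iff.1 a1 (hM μ (by omega))
    obtain ⟨a3, a4⟩ := hs μ a1 a2
    simp only [one_mul, zero_mul, add_zero, zero_add]
    refine ⟨a3, by omega, by omega⟩) fun q => by
      have a1 := Ideal.mem_map_of_mem (mo 1 0 0 1) (show G ∈ pt0 _ ^ _ from hG q)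
      rw [Ideal.map_pow] at a1
      exact Ideal.pow_right_mono (Ideal.map_le_iff_le_comap.2 fun x hx =>
        Ideal.mem_comap.2 ((mo_eval 1 0 0 1 _ _ x).2 hx)) _ a1
  exact link_inj h0

lemma clu5_fin {u : ℕ} {κ : Type} (m : κ → ℕ) (φ : P2 →ₐ[ℂ] P2) (V : Submodule ℂ P2)
    [FiniteDimensional ℂ V] (p' : κ → Fin 2 → ℂ)
    (h : ∀ F ∈ V, φ F ∈ Mon 4 1 (4 * u) → (∀ q, F ∈ Fat (p' q) (m q)) → F = 0) :
    ∃ p : Fin 4 → Fin 2 → ℂ, ∀ F ∈ V, (∀ i, F ∈ Fat (p i) u) → (∀ q, F ∈ Fat (p' q) (m q)) →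
      F = 0 := by
  obtain ⟨p0, hp0⟩ := clu5_chain u
  obtain ⟨p, hp⟩ := clu5_move (a := 4) (b := 1) (by norm_num) (by norm_num) (4 * u) 0 0 0
    (fun _ : Fin 4 => u) p0 (fun G _ => hp0 G) φ (V ⊓ ⨅ q, Fat (p' q) (m q))
    fun F hF _ h1 => h F hF.1 h1 ((Submodule.mem_iInf _).1 hF.2)
  exact ⟨p, fun F hF h1 h2 => hp F ⟨hF, (Submodule.mem_iInf _).2 h2⟩
    (fun μ hμ => absurd hμ (by omega)) h1⟩

/-- the exact monomial limit: the edge monomials with a large power of x survive -/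
theorem clu5c (u v N : ℕ) (hN : u + v < N) (φ : P2 →ₐ[ℂ] P2) (V : Submodule ℂ P2)
    [FiniteDimensional ℂ V] (hV : ∀ F ∈ V, φ F ∈ Mon 4 1 (4 * u) →
      φ F ∈ Mon (2 * N + 1) N (N * (2 * u + v) + u) → F = 0) :
    ∃ (p : Fin 4 → Fin 2 → ℂ) (q : Fin 2 → ℂ), ∀ F ∈ V, (∀ i, F ∈ Fat (p i) u) → F ∈ Fat q v →
      F = 0 := by
  obtain ⟨p0, hp0⟩ := clu5_tent u v 0
    (fun β => if β < u then (v + 1 - 2 * (u - β)).toNat else (v - 2 * (β - u)).toNat) v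
    (Finset.Ico (u - v) (u + v))
    (Nat.le_zero.1 (hh_le 0 fun β _ h2 => by split_ifs at h2 <;> omega))
    (by
      rw [Finset.sum_eq_zero fun i hi => Nat.sub_eq_zero_of_le
        (hh_le (u - ((v - i : ℕ) : ℤ) / 2) fun β _ h2 => by
          rw [Finset.mem_range] at hi
          split_ifs at h2 <;> omega)])
  obtain ⟨p1, hp1⟩ := clu5_move (a := 2 * N + 1) (b := N) (by omega) (by omega)
    (N * (2 * u + v) + u) 4 1 (4 * u) _ p0 (fun G hM hG hs => hp0 G hM hG fun μ hμ h4 => by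
      have h1 := hs μ hμ
      have h2 : 2 * μ 0 + μ 1 < 2 * u + v ∨ (2 * μ 0 + μ 1 = 2 * u + v ∧ μ 0 < u) := by
        rcases lt_trichotomy (2 * μ 0 + μ 1) (2 * u + v) with h2 | h2 | h2
        · exact Or.inl h2
        · refine Or.inr ⟨h2, ?_⟩
          rw [← h2] at h1
          nlinarith
        · nlinarith
      simp only [Finset.mem_Ico]
      split_ifs <;> omega) φ V hV
  obtain ⟨p, hp⟩ := clu5_fin _ φ V p1 hp1
  exact ⟨p, p1 (.inl 0), fun F hF h1 h2 => hp F hF h1 fun q => by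
    rcases q with q | q
    · rw [Subsingleton.elim q 0]; exact h2
    · exact q.elim0⟩

/-- (a) forget the conditions on the edge -/
theorem clu5a (u v : ℕ) (φ : P2 →ₐ[ℂ] P2) (V : Submodule ℂ P2) [FiniteDimensional ℂ V]
    (hV : ∀ F ∈ V, φ F ∈ Mon 4 1 (4 * u) → φ F ∈ Mon 2 1 (2 * u + v) → F = 0) :
    ∃ (p : Fin 4 → Fin 2 → ℂ) (q : Fin 2 → ℂ), ∀ F ∈ V, (∀ i, F ∈ Fat (p i) u) → F ∈ Fat q v →
      F = 0 :=
  clu5c u v (u + v + 1) (by omega) φ V fun F hF h1 h2 => hV F hF h1 fun μ hμ => h2 μ (by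
    have : 2 * μ 0 + 1 * μ 1 + 1 ≤ 2 * u + v := hμ
    have h3 : μ 0 ≤ u + v := by omega
    nlinarith)

/-- (b) kill the edge at the price of v / 2 + 1 simple points -/
theorem clu5b (u v : ℕ) (φ : P2 →ₐ[ℂ] P2) (V : Submodule ℂ P2) [FiniteDimensional ℂ V]
    (hV : ∀ F ∈ V, φ F ∈ Mon 4 1 (4 * u) → φ F ∈ Mon 2 1 (2 * u + v + 1) → F = 0) :
    ∃ (p : Fin 4 → Fin 2 → ℂ) (q : Fin 2 → ℂ) (s : Fin (v / 2 + 1) → Fin 2 → ℂ), ∀ F ∈ V,
      (∀ i, F ∈ Fat (p i) u) → F ∈ Fat q v → (∀ l, F ∈ Fat (s l) 1) → F = 0 := by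
  have hle : ∀ i, i < v + 1 → hh (Finset.Ico ((u : ℤ) - v) (u + v + 1))
      (fun β => if β < u then (v + 1 - 2 * (u - β)).toNat else (v + 1 - 2 * (β - u)).toNat) i ≤
      2 * ((v - i) / 2) + 1 := fun i hi =>
    hh_le (u - (((v - i) / 2 : ℕ) : ℤ)) fun β _ h2 => by split_ifs at h2 <;> omega
  have hsum : ∀ k, k ≤ v + 1 → ∑ i ∈ Finset.range k, (2 * ((v - i) / 2) + 1 - 1 * (v - i)) +
      (v + 2 - k) / 2 ≤ v / 2 + 1 := by
    intro k
    induction k with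
    | zero => intro _; simp only [Finset.range_zero, Finset.sum_empty]; omega
    | succ k ih =>
      intro hk
      have := ih (by omega)
      rw [Finset.sum_range_succ]
      omega
  obtain ⟨p0, hp0⟩ := clu5_tent u v (v / 2 + 1)
    (fun β => if β < u then (v + 1 - 2 * (u - β)).toNat else (v + 1 - 2 * (β - u)).toNat) (v + 1)
    (Finset.Ico (u - v) (u + v + 1))
    (Nat.le_zero.1 (hh_le 0 fun β _ h2 => by split_ifs at h2 <;> omega))
    (le_trans (Finset.sum_le_sum fun i hi =>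
      Nat.sub_le_sub_right (hle i (Finset.mem_range.1 hi)) _)
      (le_trans (Nat.le_add_right _ _) (hsum _ le_rfl)))
  obtain ⟨p1, hp1⟩ := clu5_move (a := 2) (b := 1) (by omega) (by omega)
    (2 * u + v + 1) 4 1 (4 * u) _ p0 (fun G hM hG hs => hp0 G hM hG fun μ hμ h4 => by
      have h1 := hs μ hμ
      simp only [Finset.mem_Ico]
      split_ifs <;> omega) φ V hV
  obtain ⟨p, hp⟩ := clu5_fin _ φ V p1 hp1
  exact ⟨p, p1 (.inl 0), fun l => p1 (.inr l), fun F hF h1 h2 h3 => hp F hF h1 fun q => by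
    rcases q with q | q
    · rw [Subsingleton.elim q 0]; exact h2
    · exact h3 q⟩

end Pool.Agent.Lib.MP_d03834_ag.Nag
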