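import Pool.Agent.Lib.MP_d03834_ag.Core.BreakC
import Pool.Agent.Lib.MP_d03834_ag.Core.BiT5
import Pool.Agent.Lib.MP_d03834_ag.Core.Tower

/-! The collision of three points with a fibre, with a prescribed involution. -/

set_option autoImplicit false

namespace Pool.Agent.Lib.MP_d03834_ag.Core

open Module

/-- nine points in the frame in which the curve is the fibre x0 = 0 -/
structure FibN {k : Type} [Field k] (Q : Ix → Fin 4 → k) (y : Fin 3 → k) : Prop where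
  pt : ∀ l, Pt (Q l)
  e : ∀ i : Fin 3, Q (.inl (Fin.castLE (by decide) i)) = ![0, 1, y i, 1]
  y0 : ∀ i, y i ≠ 0
  yy : ∀ i j, i ≠ j → y i ≠ y j
  e3 : Q (.inl 3) 0 ≠ 0 ∧ Q (.inl 3) 2 ≠ 0 ∧ Q (.inl 3) 3 ≠ 0
  e4 : Q (.inl 4) 0 ≠ 0 ∧ Q (.inl 4) 2 ≠ 0 ∧ Q (.inl 4) 3 ≠ 0
  a2 : ∀ s, Q (.inr (.inl s)) 2 = 0
  b3 : ∀ s, Q (.inr (.inr s)) 3 = 0
  a0 : ∀ s, Q (.inr (.inl s)) 0 ≠ 0
  b0 : ∀ s, Q (.inr (.inr s)) 0 ≠ 0
  aa : dx (Q (.inr (.inl 0))) (Q (.inr (.inl 1))) ≠ 0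
  bb : dx (Q (.inr (.inr 0))) (Q (.inr (.inr 1))) ≠ 0

theorem tp_low {k : Type} [Field k] (n : ℕ) (H : Cx k) :
    tp n (MvPolynomial.X 0 ^ n * H) = kfR H := by
  have e : ((MvPolynomial.aeval ![1, 1, Polynomial.X, 1] : Cx k →ₐ[k] Polynomial k) :
      Cx k →+* Polynomial k).comp (Polynomial.constantCoeff.comp
        ((gr ![1, 0, 0, 0] : Cx k →ₐ[k] Polynomial (Cx k)) : Cx k →+* Polynomial (Cx k))) =
      ((kfR : Cx k →ₐ[k] Polynomial k) : Cx k →+* Polynomial k) := by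
    refine MvPolynomial.ringHom_ext (fun a => ?_) fun i => ?_
    · simp [gr, kfR]
    · fin_cases i <;> simp [gr, kfR, Polynomial.coeff_monomial]
  have e1 : gr ![1, 0, 0, 0] (MvPolynomial.X 0 ^ n : Cx k) =
      Polynomial.C (MvPolynomial.X 0 ^ n) * Polynomial.X ^ n := by
    rw [map_pow, gr, MvPolynomial.aeval_X, Polynomial.monomial_pow,
      Polynomial.C_mul_X_pow_eq_monomial]
    simp
  simp only [tp, LinearMap.comp_apply, AlgHom.toLinearMap_apply, cmp_gr]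
  rw [map_mul, e1, mul_assoc, Polynomial.coeff_C_mul, Polynomial.coeff_X_pow_mul', if_pos le_rfl,
    Nat.sub_self, map_mul, map_pow, MvPolynomial.aeval_X, Matrix.cons_val_zero, one_pow, one_mul]
  exact RingHom.congr_fun e H

theorem tW_sym {k : Type} [Field k] {y : Fin 3 → k} {η : k} {n : ℕ} {μ : Fin 3 → ℕ}
    {f : Polynomial k} (h : Polynomial.X ^ ((n + 1) / 2) * f ∈ tW y η n μ) :
    ∃ g ∈ symW (η ^ 2) (n / 2), (∏ l, (Polynomial.X - Polynomial.C (y l)) ^ μ l) * g = f := by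
  have key : tW y η n μ ≤ (symW (η ^ 2) (n / 2)).map (LinearMap.mulLeft k
      (Polynomial.X ^ ((n + 1) / 2) * ∏ l, (Polynomial.X - Polynomial.C (y l)) ^ μ l)) := by
    refine Submodule.span_le.2 ?_
    rintro _ ⟨i, hi, rfl⟩
    refine ⟨_, pw2_le _ _ (n / 2) 1 (-2 * η) 0 1 (Submodule.subset_span ⟨⟨i, by omega⟩, rfl⟩), ?_⟩
    have e : (Polynomial.C 1 * (Polynomial.X ^ 2 + Polynomial.C (η ^ 2)) +
        Polynomial.C (-2 * η) * Polynomial.X : Polynomial k) =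
        (Polynomial.X - Polynomial.C η) ^ 2 := by
      rw [map_mul, map_neg, map_pow, map_one, map_ofNat]
      ring
    rw [LinearMap.mulLeft_apply]
    beta_reduce
    rw [e, map_zero, map_one, zero_mul, one_mul, zero_add, ← pow_mul]
    ring
  obtain ⟨g, h1, h2⟩ := key h
  refine ⟨g, h1, mul_left_cancel₀ (pow_ne_zero ((n + 1) / 2) Polynomial.X_ne_zero) ?_⟩
  rw [← mul_assoc]
  exact h2

theorem FibN.red {k : Type} [Field k] {Q : Ix → Fin 4 → k} {y : Fin 3 → k} (h : FibN Q y)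
    (κ : ℕ) (m : Ix → ℤ) : red κ Q m = kS m κ 0 ((κ + 1) / 2) := by
  have e0 : Q (.inl 0) = _ := h.e 0
  have e1 : Q (.inl 1) = _ := h.e 1
  have e2 : Q (.inl 2) = _ := h.e 2
  have a3 : ∀ s, Q (.inr (.inl s)) 3 ≠ 0 := fun s => (h.pt _).2.resolve_left fun e => e (h.a2 s)
  have b2 : ∀ s, Q (.inr (.inr s)) 2 ≠ 0 := fun s => (h.pt _).2.resolve_right fun e => e (h.b3 s)
  funext l
  revert l
  refine ix_all ?_ ?_ ?_ ?_ ?_ ?_ ?_ ?_ ?_ <;>
    simp [Core.red, kS, e0, e1, e2, h.y0, h.e3, h.e4, h.a2, h.b3, h.a0, h.b0, a3, b2]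

/-- the fold with a prescribed involution -/
theorem t5W {k : Type} [Field k] {Q : Ix → Fin 4 → k} {y : Fin 3 → k} (h : FibN Q y)
    {η : k} (hη : η ≠ 0) : ∃ P : Ix → Fin 4 → LS k, (∀ l, Pt (P l)) ∧
      ∀ (p q : ℤ) (m : Ix → ℤ) (κ : ℕ), p ≤ m (.inr (.inl 0)) + m (.inr (.inl 1)) →
        p ≤ m (.inr (.inr 0)) + m (.inr (.inr 1)) → q + κ = m (.inl 0) + m (.inl 1) + m (.inl 2) →
        (∀ i : Fin 3, (κ : ℤ) ≤ m (.inl (Fin.castLE (by decide) i))) →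
        finrank (LS k) (H0 p q P m) ≤ finrank k (bS
          (H0 (p - κ) (q - 2 * ((κ + 1) / 2)) Q (kS m κ 0 ((κ + 1) / 2))) kfR
          (∏ i : Fin 3, (Polynomial.X - Polynomial.C (y i)) ^
            (kS m κ 0 ((κ + 1) / 2) (.inl (Fin.castLE (by decide) i))).toNat)
          (symW (η ^ 2) (κ / 2))) := by
  have hγ : y 0 * y 1 * y 2 ≠ 0 := mul_ne_zero (mul_ne_zero (h.y0 0) (h.y0 1)) (h.y0 2)
  have ht := tri_of h.y0 h.yy hη hγ 0
  have ar : Arms Q (fun s => .inr (.inl s)) fun s => .inr (.inr s) :=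
    ⟨h.pt, h.a2, h.b3, h.a0, h.b0, h.aa, h.bb⟩
  obtain ⟨P, h1, h2, -⟩ := t5ps (e := fun i : Fin 3 => (.inl (Fin.castLE (by decide) i) : Ix))
    (fun i j e => Fin.castLE_injective _ (Sum.inl_injective e)) ar ht h.e
  refine ⟨fun l i => algebraMap _ _ (P l i), fun l => ⟨(h1.arms.pt l).1.imp ls_ne_of_res
    ls_ne_of_res, (h1.arms.pt l).2.imp ls_ne_of_res ls_ne_of_res⟩, fun p q m κ ha hb hj hm => ?_⟩
  set S := bS (H0 (p - κ) (q - 2 * ((κ + 1) / 2)) Q (kS m κ 0 ((κ + 1) / 2))) kfR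
    (∏ i : Fin 3, (Polynomial.X - Polynomial.C (y i)) ^
      (kS m κ 0 ((κ + 1) / 2) (.inl (Fin.castLE (by decide) i))).toNat) (symW (η ^ 2) (κ / 2))
    with hS
  have : FiniteDimensional k S := Submodule.finiteDimensional_of_le inf_le_left
  refine (lim_le (psRes k) _ (S.map (LinearMap.mulLeft k (MvPolynomial.X 0 ^ κ *
    MvPolynomial.X 2 ^ ((κ + 1) / 2) * MvPolynomial.X 3 ^ ((κ + 1) / 2)))) fun G hG => ?_).trans
    (Submodule.finrank_map_le _ _)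
  obtain ⟨⟨g1, g2⟩, Z, g3, g4⟩ := h1.el psRes_unit PowerSeries.X_ne_zero psRes_X ha hb hj.le hG
  rw [h2] at g1
  obtain ⟨G1, g5, g6⟩ := t5_fac ar ha hb κ g1 g2
  rw [h.red] at g5
  refine ⟨G1, mem_bS.2 ⟨by exact_mod_cast g5, ?_⟩, g6.symm⟩
  by_cases h0 : p < κ ∨ q < 0
  · exact ⟨0, Submodule.zero_mem _, by
      rw [(mem_H0.1 g5).1.neg_deg (by omega), mul_zero, map_zero]⟩
  have m0 : (κ : ℤ) ≤ m (.inl 0) := hm 0
  have m1 : (κ : ℤ) ≤ m (.inl 1) := hm 1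
  have m2 : (κ : ℤ) ≤ m (.inl 2) := hm 2
  have e : (fun i : Fin 3 => (m (.inl (Fin.castLE (by decide) i))).toNat) = fun i =>
      (kS m κ 0 ((κ + 1) / 2) (.inl (Fin.castLE (by decide) i))).toNat + κ := by
    funext i
    fin_cases i <;> simp [kS] <;> omega
  simp only [PowerSeries.constantCoeff_C] at g3
  rw [e] at g3
  have g7 := t5_W ht (mul_comm _ η) g3 (by omega) (by simp [kS]; omega)
  refine tW_sym ?_
  rw [show tp κ Z = tp κ (MvPolynomial.map PowerSeries.constantCoeff G) from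
    congrArg (MvPolynomial.aeval ![1, 1, Polynomial.X, 1]) g4, g6, mul_assoc, mul_assoc, tp_low,
    map_mul, map_mul] at g7
  simpa [kfR] using g7

end Pool.Agent.Lib.MP_d03834_ag.Core
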