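import Pool.Agent.Lib.MP_d03834_ag.Core.N14Def
import Pool.Agent.Lib.MP_d03834_ag.Core.BiPlane

/-! Fourteen points: three quadratic transformations and the four fibre chart. -/

set_option autoImplicit false

namespace Pool.Agent.Lib.MP_d03834_ag.Core

open Module

/-- the multiplicities in the four fibre chart, in the order a1 a2 b1 b2 c1 c2 d1 d2 e f -/
def z14 (d M m w : ℤ) : Fin 10 → ℤ :=
  ![3 * d - M - 7 * m, m, 2 * d - M - 4 * m, d - 2 * m, m, 3 * d - M - 7 * m, d - 2 * m,
    2 * d - M - 4 * m, w, d - M - m]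

theorem fr14 {K : Type} [Field K] [Algebra ℂ K] {d M m w r : ℕ} (h1 : 2 * M + 10 * m ≤ 5 * d)
    (h2 : 2 * M + 7 * m ≤ 4 * d) (h3 : M + 2 * m ≤ 2 * d) (P : Fin 10 → Fin 4 → K)
    (hP : ∀ i, Pt (P i))
    (h : finrank K (H0 (3 * d - M - 6 * m) (5 * d - 2 * M - 11 * m) P (z14 d M m w)) ≤ r) :
    Hle d (y14 M m w) r := by
  have a3 := hle_chartZ (d := 5 * d - (2 * M + 10 * m)) (κ := Fin 11)
    (μ := ![d - 2 * m, d - M - m, 2 * d - M - 4 * m, 3 * d - M - 7 * m, 2 * d - M - 4 * m,
      2 * d - M - 4 * m, d - 2 * m, m, m, m, w])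
    (fun o => o.elim 2 ![7, 8, 4, 0, 9, 3, 6, 5, 10, 1]) (by decide) 0 P hP (z14 d M m w)
    (by simp; omega) (by simp; omega) (by simp [z14]; omega)
    (fun i hi => by fin_cases i <;> simp [z14] at hi ⊢) h
  have a2 := Hle.crem (b := ![6, 2, 3]) (d := 4 * d - (2 * M + 7 * m))
    (μ := ![d - 2 * m, d - M - m, d - M - m, 2 * d - M - 4 * m, 2 * d - M - 4 * m,
      2 * d - M - 4 * m, m, m, m, m, w]) (by decide) (by simp; omega)
    (fun i => by fin_cases i <;> simp <;> omega)
    (fun q hq => by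
      fin_cases q <;> first | exact absurd (by decide) hq | simp) a3
  have a1 := Hle.crem (b := ![3, 4, 5]) (d := 2 * d - (M + 2 * m))
    (μ := ![d - 2 * m, d - M - m, d - M - m, m, m, m, m, m, m, m, w]) (by decide) (by simp; omega)
    (fun i => by fin_cases i <;> simp <;> omega)
    (fun q hq => by
      fin_cases q <;> first | exact absurd (by decide) hq | simp) a2
  have a0 := Hle.crem (b := ![0, 1, 2]) (d := d)
    (μ := ![M, m, m, m, m, m, m, m, m, m, w]) (by decide) (by simp; omega)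
    (fun i => by fin_cases i <;> simp <;> omega)
    (fun q hq => by
      fin_cases q <;> first | exact absurd (by decide) hq | simp) a1
  refine a0.mono id Function.injective_id (fun q => ?_) le_rfl
  fin_cases q <;> simp [y14]

/-- the same on the range of the classes which occur -/
theorem Box14.fr {K : Type} [Field K] [Algebra ℂ K] {d M m w r : ℕ} {i e : ℤ}
    (b : Box14 d M m w i e) (P : Fin 10 → Fin 4 → K) (hP : ∀ i, Pt (P i))
    (h : finrank K (H0 (3 * d - M - 6 * m) (5 * d - 2 * M - 11 * m) P (z14 d M m w)) ≤ r) :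
    Hle d (y14 M m w) r := by
  obtain ⟨h1, h2, h3, -⟩ := b
  exact fr14 (by omega) (by omega) (by omega) P hP h

end Pool.Agent.Lib.MP_d03834_ag.Core
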