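import Pool.Agent.Lib.MP_d03834_ag.Core.S14G
import Pool.Agent.Lib.MP_d03834_ag.Core.KPC
import Pool.Agent.Lib.MP_d03834_ag.Core.ClHonB

/-! The bound in the four fibre chart for fourteen points. -/

set_option autoImplicit false

namespace Pool.Agent.Lib.MP_d03834_ag.Core

open Module

variable {O k Γ : Type} [CommRing O] [Field k] [LinearOrderedCommGroupWithZero Γ]

/-- the start configuration with its exact curve -/
def s14C [Algebra k O] (A : Arc O k) (s : k) : CCfg O k where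
  toCfg := s14c A s
  q := ![![0, 1, 0], ![algebraMap k O (-s), -(algebraMap k O s ^ 2 * A.t), algebraMap k O (-s)]]

theorem s14_ex [CharZero k] [Algebra k O] (A : Arc O k)
    (hA : ∀ x, A.res (algebraMap k O x) = x) (s : k) : Ex A (s14C A s) := by
  have ht : A.res A.t = 0 := (A.ker _).2 dvd_rfl
  refine ⟨by simp [s14C], by simp [s14C], by simp [s14C], hA _, by simp [s14C, s14c, ht], hA _,
    fun l => ?_⟩
  have e : algebraMap k O (s14z k l)⁻¹ * algebraMap k O (s14z k l) = 1 := by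
    rw [← map_mul, inv_mul_cancel₀ (s14_z0 l), map_one]
  simp only [s14C, s14c, qv, Matrix.cons_val_zero, Matrix.cons_val_one, Matrix.cons_val, map_neg,
    map_add]
  linear_combination algebraMap k O s * e

theorem s14_sta [CharZero k] [Algebra k O] (A : Arc O k)
    (hA : ∀ x, A.res (algebraMap k O x) = x) {v : Valuation k Γ} (h2 : v 2 = 1) {s : k}
    (hs : s ≠ 0) (hv : v s < 1) {u : CL} (hu : u ∈ cD.M) (hc : 0 ≤ u.2.2 1)
    (h01 : u.2.1 0 + u.2.1 1 ≤ u.1.1) (h23 : u.2.1 2 + u.2.1 3 ≤ u.1.1)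
    (hH : u.2.2 0 ≤ u.1.2 - u.1.1) : Sta A v (s14C A s) (s14χ s) u :=
  ⟨s14_shp A hA s, s14_ex A hA s, s14_ch hs, s14_le h2 hs hv, s14_nb h2 hs hv, hu,
    s14_pos h2 hs hv hc, s14_rt h2 hs hv h01 h23 hH⟩

theorem s14_nat (v : Valuation k Γ) {s : k} (hv : v s < 1) (n : ℕ) : 1 - n * s ≠ 0 := by
  have h : ∀ n : ℕ, v (n * s) < 1 := fun n => by
    induction n with
    | zero => simp
    | succ n ih =>
      rw [Nat.cast_succ, add_mul, one_mul]
      exact v.map_add_lt ih hv
  intro e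
  have := h n
  rw [← sub_eq_zero.1 e, map_one] at this
  exact lt_irrefl _ this

variable {K : Type} [Field K] [Algebra O K]

theorem s14_par [CharZero k] [Algebra k O] (A : Arc O k)
    (hA : ∀ x, A.res (algebraMap k O x) = x) (hK : Function.Injective (algebraMap O K))
    {v : Valuation k Γ} {s : k} (hs : s ≠ 0) (hv : v s < 1) :
    S14N (algebraMap O K (A.t * algebraMap k O (-s)))
      (algebraMap O K (A.t * algebraMap k O (1 - 2 * s))) := by
  have ht : A.res A.t = 0 := (A.ker _).2 dvd_rfl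
  have n0 : ∀ a : O, A.res a ≠ 0 → algebraMap O K a ≠ 0 := fun a ha =>
    ((A.unit a ha).map _).ne_zero
  have n1 : ∀ a : O, A.res a ≠ 0 → algebraMap O K (A.t * a) ≠ 0 := fun a ha => by
    rw [map_mul]
    exact mul_ne_zero ((map_ne_zero_iff _ hK).2 A.t0) (n0 a ha)
  have h1 : 1 - s ≠ 0 := by simpa using s14_nat v hv 1
  have h2 : 1 - 2 * s ≠ 0 := by simpa using s14_nat v hv 2
  have h17 : 1 - 17 * s ≠ 0 := by simpa using s14_nat v hv 17
  have ha := hA (-s)
  have hb := hA (1 - 2 * s)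
  generalize algebraMap k O (-s) = a at ha ⊢
  generalize algebraMap k O (1 - 2 * s) = b at hb ⊢
  refine ⟨n1 _ (by rwa [ha, neg_ne_zero]), n1 _ (by rwa [hb]), ?_, ?_, ?_, ?_, ?_, ?_, ?_, ?_, ?_,
    ?_, ?_⟩
  · have := n1 (b - a) (by rw [map_sub, ha, hb]; convert h1 using 1; ring)
    rwa [mul_sub, map_sub] at this
  · simpa [map_ofNat] using n0 (A.t * a - 2) (by simp [ht, map_ofNat])
  · simpa [map_ofNat] using n0 (2 * (A.t * a) - 1) (by simp [ht])
  · simpa [map_ofNat] using n0 (A.t * a - 8) (by simp [ht, map_ofNat])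
  · simpa [map_ofNat] using n0 (8 * (A.t * a) - 1) (by simp [ht])
  · simpa [map_ofNat] using n0 (A.t * a - 512) (by simp [ht, map_ofNat])
  · simpa [map_ofNat] using n0 (512 * (A.t * a) - 1) (by simp [ht])
  · simpa [map_ofNat] using n0 (A.t * b - 2) (by simp [ht, map_ofNat])
  · simpa [map_ofNat] using n0 (A.t * b - 8) (by simp [ht, map_ofNat])
  · simpa [map_ofNat] using n0 (A.t * b * (A.t * a) - 1) (by simp [ht])
  · have := n1 (b * (A.t * a) ^ 2 - 10 * b * (A.t * a) + b + 15 * a) (by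
      simp only [map_add, map_sub, map_mul, map_pow, map_ofNat, ht, ha, hb]
      convert h17 using 1
      ring)
    convert this using 1
    simp only [s14N, map_add, map_sub, map_mul, map_pow, map_ofNat]
    ring

theorem s14_pts [Algebra k O] (A : Arc O k) (s : k) :
    (s14c A s).pts A K = s14S (algebraMap O K (algebraMap k O (-s))) (algebraMap O K A.t)
      (algebraMap O K (A.t * algebraMap k O (-s)))
      (algebraMap O K (A.t * algebraMap k O (1 - 2 * s))) := by
  let f : k →+* K := (algebraMap O K).comp (algebraMap k O)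
  have hz : ∀ i, algebraMap O K (algebraMap k O (s14z k i)) = s14z K i := fun i => by
    change f _ = _
    fin_cases i <;> simp [s14z, map_ofNat]
  have hi : ∀ i, algebraMap O K (algebraMap k O (s14z k i)⁻¹) = (s14z K i)⁻¹ := fun i => by
    rw [← hz]
    exact map_inv₀ f _
  funext l j
  rcases l with i | r | r
  · fin_cases j
    · exact hz i
    · exact map_one _
    · exact map_one _
    · simp only [Cfg.pts, Cfg.pO, s14c, s14S, grP, Fin.reduceFinMk, Matrix.cons_val, map_mul,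
        map_add, map_neg, hz, hi]
      ring
  · fin_cases r <;> fin_cases j <;> simp [Cfg.pts, Cfg.pO, s14c, s14S, grP]
  · fin_cases r <;> fin_cases j <;> simp [Cfg.pts, Cfg.pO, s14c, s14S, grP]

/-- The four fibre chart, in the order a1 a2 b1 b2 c1 c2 d1 d2 e, and the bound on it. -/
theorem s14_fin [CharZero k] [CharZero K] [Algebra k O] (A : Arc O k)
    (hA : ∀ x, A.res (algebraMap k O x) = x) (hK : Function.Injective (algebraMap O K))
    {v : Valuation k Γ} (h2 : v 2 = 1) {s : k} (hs : s ≠ 0) (hv : v s < 1) (hKP : KPC A K v) :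
    ∃ T U : K, S14N T U ∧ ∀ (p q d ε : ℤ) (m : Fin 9 → ℤ) (u : CL), ε = 0 ∨ ε = 1 → u ∈ cD.M →
      0 ≤ u.2.2 1 → u.2.1 0 + u.2.1 1 ≤ u.1.1 → u.2.1 2 + u.2.1 3 ≤ u.1.1 →
      u.2.2 0 ≤ u.1.2 - u.1.1 → d = p + q - m 1 - m 2 - m 5 - m 7 →
      dgx ε u = p + d → dgy ε u = q + d → mlt ε u (.inl 0) ≤ m 5 + d → mlt ε u (.inl 1) ≤ m 4 →
      mlt ε u (.inl 2) ≤ m 7 + d → mlt ε u (.inl 3) ≤ m 6 → mlt ε u (.inl 4) ≤ m 8 →
      mlt ε u (.inr (.inl 0)) ≤ m 1 + d → mlt ε u (.inr (.inl 1)) ≤ m 0 →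
      mlt ε u (.inr (.inr 0)) ≤ m 2 + d → mlt ε u (.inr (.inr 1)) ≤ m 3 →
      (0 < cip u u → (finrank K (H0 p q (s14F9 T U) m) : ℤ) ≤ 1 + cip u u / 2) ∧
        (cip u u < 0 → finrank K (H0 p q (s14F9 T U) m) = 0) := by
  have hN := s14_par A hA hK hs hv
  refine ⟨_, _, hN, fun p q d ε m u hε hu hc h01 h23 hH hd ex ey e0 e1 e2 e3 e4 a0 a1 b0 b1 => ?_⟩
  have ne : ∀ a b : k, a ≠ b → algebraMap k O a ≠ algebraMap k O b := fun a b h e =>
    h (by rw [← hA a, e, hA])
  have h1 : 1 - s ≠ 0 := by simpa using s14_nat v hv 1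
  have k1 := s14_word9 (σ := algebraMap O K (algebraMap k O (-s))) (t := algebraMap O K A.t) hN
    ((A.unit _ (by rwa [hA, neg_ne_zero])).map _).ne_zero (by rw [map_mul, mul_comm]) hd
    e0 e1 e2 e3 e4 a0 a1 b0 b1
  rw [← s14_pts, ← ex, ← ey] at k1
  have k2 := k1.trans (Submodule.finrank_mono (H_le_HC' K hK (s14_ex A hA s) (fun i l hil => ?_)
    ?_ ?_ ε u))
  · obtain ⟨k3, k4⟩ := hKP _ _ u ε (s14_sta A hA h2 hs hv hu hc h01 h23 hH) hε
    exact ⟨fun h => le_trans (by exact_mod_cast k2) (k3 h),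
      fun h => Nat.le_zero.1 (k2.trans (k4 h).le)⟩
  · refine ne _ _ ?_
    fin_cases i <;> fin_cases l <;> first | exact absurd rfl hil | (simp [s14z]; try norm_num)
  · have := ne 0 (-s) (neg_ne_zero.2 hs).symm
    rwa [map_zero] at this
  · exact ne _ _ fun e => h1 (by linear_combination -e)

end Pool.Agent.Lib.MP_d03834_ag.Core
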