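import Pool.Agent.Lib.MP_d03834_ag.Core.N14Cl
import Pool.Agent.Lib.MP_d03834_ag.Core.N14Fr
import Pool.Agent.Lib.MP_d03834_ag.Core.S14K
import Pool.Agent.Lib.MP_d03834_ag.Core.T5G
import Pool.Agent.Lib.MP_d03834_ag.Core.Tower

/-! The bound on eleven general points for fourteen points, from the bound for start states. -/

set_option autoImplicit false

namespace Pool.Agent.Lib.MP_d03834_ag.Core.N14

open Module

theorem fr : Fr := fun K _ _ P d M m w r i e hP hb h => hb.fr P hP (by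
  have e1 : z14 d M m w = m10 (3 * d - M - 6 * m) (5 * d - 2 * M - 11 * m) (3 * d - M - 7 * m)
      (d - M - m) (k14 d M m w) := by
    funext l
    fin_cases l <;> simp [z14, m10, k14] <;> ring
  rwa [e1])

theorem fold {k : Type} [Field k] [Algebra ℂ k] {F : Fin 9 → Fin 4 → k} (h : Four F) :
    ∃ (K : Type) (_ : Field K) (_ : Algebra ℂ K) (P : Fin 10 → Fin 4 → K), (∀ l, Pt (P l)) ∧
      Fold F P := by
  obtain ⟨K, _, _, P, h1, h2⟩ := t5g2 h
  refine ⟨K, _, ‹_›, P, h1, fun p q a n κ i ε hi hε hn hκ => ?_⟩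
  have e1 : m9 p q a κ (n + i) (κ + ε) ∘ lab = m4 (n + i) (κ + ε) (m10 p q a n κ) := by
    funext l
    fin_cases l <;> simp [m9, lab, m4, m10] <;> ring
  rw [e1]
  refine h2 p q n κ i ε _ hi hε (by omega) hκ ?_ ?_ ?_ ?_ ?_ ?_ ?_ <;> simp [m10] <;> omega

theorem geo {K : Type} [Field K] [CharZero K] {σ t T U : K} (h : S14N T U) (hσ : σ ≠ 0)
    (hT : T = σ * t) : Geo (s14F T U) (s14S σ t T U) := fun p q m => by
  have e1 : rm p q m = s14m p q m := by
    funext l
    rcases l with l | l | l <;> fin_cases l <;> simp [rm, s14m, del, s14d]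
  rw [e1]
  exact s14_word h hσ hT p q m

theorem d14_arc {O k K Γ : Type} [CommRing O] [Field k] [Field K]
    [LinearOrderedCommGroupWithZero Γ] [CharZero k] [Algebra k O] [Algebra O K] [Algebra ℂ K]
    {A : Arc O k} {v : Valuation k Γ} (hK : KPC A K v)
    (hi : Function.Injective (algebraMap O K)) (hA : ∀ x, A.res (algebraMap k O x) = x)
    (h2 : v 2 = 1) {s : k} (hs : s ≠ 0) (hv : v s < 1) : D14 := by
  have : CharZero K := charZero_of_injective_algebraMap (algebraMap ℂ K).injective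
  have hN := s14_par A hA hi hs hv
  obtain ⟨a1, a2, a3, a4, a5, a6⟩ := s14_four hN
  obtain ⟨L, _, _, Q, h3, h4⟩ := fold (⟨a1, a2, a3, a4, a5, a6⟩ : Four (s14F9 _ _))
  have hB := bnd_of hK hi hA h2 hs hv
  rw [s14_pts] at hB
  exact d14_of fr h3 h4 (geo hN ((A.unit _ (by rwa [hA, neg_ne_zero])).map _).ne_zero
    (by rw [map_mul, mul_comm])) hB

theorem d14 (hK : KPC (Arc.ps (RatFunc ℂ)) (LS (RatFunc ℂ)) (vX ℂ)) : D14 :=
  d14_arc hK psIn_inj psRes_alg (vX_ofNat 2) RatFunc.X_ne_zero (by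
    rw [vX_X]
    exact (ex_lt 1).2 one_pos)

end Pool.Agent.Lib.MP_d03834_ag.Core.N14
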