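import Pool.Agent.Lib.MP_d03834_ag.Core.Dyn

/-! The lattice of the plane blown up in at most nine points, reflections in roots,
and the descent by simple moves. -/

set_option autoImplicit false

namespace Pool.Agent.Lib.MP_d03834_ag.Core

variable {L k Γ : Type} [AddCommGroup L] [Field k] [LinearOrderedCommGroupWithZero Γ]

/-- a lattice with an anticanonical class, as for at most nine points -/
structure DP (L : Type) [AddCommGroup L] where
  /-- the intersection form -/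
  ip : L →+ L →+ ℤ
  /-- the anticanonical class -/
  a : L
  /-- the sublattice which contains the lines and the roots -/
  M : AddSubgroup L
  symm : ∀ u w, ip u w = ip w u
  semi : ∀ u ∈ M, ip u a = 0 → ip u u ≤ 0
  rad : ∀ u ∈ M, ∀ g ∈ M, ip u a = 0 → ip u u = 0 → ip g a = 1 → ip u g = 0 → u = 0

namespace DP

variable (D : DP L)

/-- the lines and the roots -/
def lat : Lat L where
  ip := D.ip
  Λ := {g | D.ip g g = -1 ∧ D.ip g D.a = 1 ∧ g ∈ D.M}
  Φ := {α | D.ip α α = -2 ∧ D.ip α D.a = 0 ∧ α ∈ D.M}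
  symm := D.symm
  self := fun _ h => h.1
  nonneg := fun g hg h hh hne => by
    have h0 : D.ip (g - h) D.a = 0 := by simp [hg.2.1, hh.2.1]
    have h1 := D.semi _ (sub_mem hg.2.2 hh.2.2) h0
    have h2 := D.rad _ (sub_mem hg.2.2 hh.2.2) g hg.2.2 h0
    simp only [map_sub, AddMonoidHom.sub_apply, hg.1, hh.1, D.symm h g] at h1 h2
    by_contra h3
    exact hne (sub_eq_zero.1 (h2 (by omega) hg.2.1 (by omega)))
  rsq := fun _ h => h.1
  root := fun α hα b hb => by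
    refine ⟨?_, ?_, add_mem hb.2.2 (zsmul_mem hα.2.2 _)⟩ <;>
      simp [hα.1, hα.2.1, hb.1, hb.2.1, D.symm α b]
    ring

@[simp] theorem lat_ip : D.lat.ip = D.ip := rfl

theorem mem_line {g : L} : g ∈ D.lat.Λ ↔ D.ip g g = -1 ∧ D.ip g D.a = 1 ∧ g ∈ D.M := Iff.rfl

theorem mem_root {α : L} : α ∈ D.lat.Φ ↔ D.ip α α = -2 ∧ D.ip α D.a = 0 ∧ α ∈ D.M := Iff.rfl

/-- an isometry which fixes the anticanonical class -/
theorem iso {w : L ≃+ L} (h1 : ∀ x y, D.ip (w x) (w y) = D.ip x y) (h2 : w D.a = D.a)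
    (h4 : ∀ x, w x ∈ D.M ↔ x ∈ D.M) : D.lat.Iso w := by
  have h3 : ∀ x, D.ip (w x) D.a = D.ip x D.a := fun x => by rw [← h1 x, h2]
  exact ⟨h1, fun g => by rw [mem_line, mem_line, h1, h3, h4], fun g => by
    rw [mem_root, mem_root, h1, h3, h4]⟩

/-- the reflection in a root, as a function -/
def rf (α x : L) : L := x + D.ip x α • α

theorem ip_rf (α x y : L) : D.ip (D.rf α x) y = D.ip x y + D.ip x α * D.ip α y := by
  simp [rf]

theorem rf_rf {α : L} (h : D.ip α α = -2) (x : L) : D.rf α (D.rf α x) = x := by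
  have h1 : D.ip (D.rf α x) α = -D.ip x α := by rw [ip_rf, h]; ring
  conv_lhs => rw [rf, h1]
  rw [rf, add_assoc, ← add_smul]
  simp

/-- the reflection in a root -/
def rr {α : L} (h : D.ip α α = -2) : L ≃+ L where
  toFun := D.rf α
  invFun := D.rf α
  left_inv := D.rf_rf h
  right_inv := D.rf_rf h
  map_add' := fun x y => by
    simp only [rf, map_add, AddMonoidHom.add_apply, add_smul]
    abel

theorem rr_iso {α : L} (h : α ∈ D.lat.Φ) : D.lat.Iso (D.rr h.1) := by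
  refine D.iso (fun x y => ?_) ?_ fun x => ?_
  · change D.ip (D.rf α x) (D.rf α y) = _
    rw [ip_rf, D.symm x (D.rf α y), D.symm α (D.rf α y), ip_rf, ip_rf, h.1, D.symm y x,
      D.symm α x]
    ring
  · change D.rf α D.a = _
    rw [rf, D.symm, h.2.1, zero_smul, add_zero]
  · exact D.M.add_mem_cancel_right (zsmul_mem h.2.2 _)

variable {D} {I : Invo k Γ}

theorem P_rf {α : L} (h : α ∈ D.lat.Φ) {n : ℕ} {χ : L → k} {E : Set L} (hP : D.lat.P I n χ E) :
    D.lat.P I n (χ ∘ D.rf α) (D.rf α ⁻¹' E) := hP.comp (D.rr_iso h)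

theorem Pos_rf {α : L} (h : α ∈ D.lat.Φ) {χ : L → k} {x : L} (hx : D.lat.Pos I χ x) :
    D.lat.Pos I (χ ∘ D.rf α) (D.rf α x) := hx.comp (D.rr_iso h)

/-- The descent by simple moves: reflections in the roots of S and the flip of one line G.
The vector h is the degree of the chart. -/
theorem descent (S : Set L) (hS : S ⊆ D.lat.Φ) (G : L) (hG : G ∈ D.lat.Λ) (h : L)
    (h1 : ∀ α ∈ S, 1 ≤ D.ip α h) (h2 : D.ip G h = 0) (Q : (L → k) → Set L → L → Prop)
    (neg : ∀ n χ E x, D.lat.P I n χ E → D.ip x h < 0 → Q χ E x)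
    (nef : ∀ n χ E x, D.lat.P I n χ E → (∀ α ∈ S, 0 ≤ D.ip x α) → 0 ≤ D.ip x G → Q χ E x)
    (stepR : ∀ n χ E x, ∀ α ∈ S, D.lat.P I n χ E → D.ip x α < 0 →
      Q (χ ∘ D.rf α) (D.rf α ⁻¹' E) (D.rf α x) → Q χ E x)
    (stepG : ∀ n χ E x, D.lat.P I n χ E → I.v (χ G) < 1 → D.ip x G < 0 →
      Q (D.lat.flip I G χ) (D.lat.refl G ⁻¹' E) (D.lat.refl G x) → Q χ E x)
    {n : ℕ} {χ : L → k} {E : Set L} {x : L} (hP : D.lat.P I n χ E) (hx : D.lat.Pos I χ x) :
    Q χ E x := by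
  generalize hN : (2 * D.ip x h + if D.ip x G < 0 then 2 else 1).toNat = N
  induction N using Nat.strong_induction_on generalizing n χ E x with
  | _ N ih => ?_
  by_cases h3 : D.ip x h < 0
  · exact neg n χ E x hP h3
  by_cases h4 : D.ip x G < 0
  · have hv := hx.small hP.j hG h4
    refine stepG n χ E x hP hv h4 (ih _ ?_ (hP.flip hG hv) (hx.flip hP.j hG hv h4.le) rfl)
    have e1 : D.ip (D.lat.refl G x) h = D.ip x h := by
      have := Lat.ip_refl (T := D.lat) G x h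
      simpa [h2] using this
    have e2 : D.ip (D.lat.refl G x) G = -D.ip x G := by
      have := Lat.ip_refl (T := D.lat) G x G
      simp only [lat_ip, hG.1] at this
      omega
    rw [e1, e2, if_neg (by omega)]
    rw [if_pos h4] at hN
    omega
  by_cases h5 : ∀ α ∈ S, 0 ≤ D.ip x α
  · exact nef n χ E x hP h5 (not_lt.1 h4)
  push Not at h5
  obtain ⟨α, hα, h5⟩ := h5
  refine stepR n χ E x α hα hP h5 (ih _ ?_ (P_rf (hS hα) hP) (Pos_rf (hS hα) hx) rfl)
  have h6 : D.ip (D.rf α x) h < D.ip x h := by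
    rw [ip_rf]
    nlinarith [h1 α hα]
  rw [if_neg h4] at hN
  split_ifs <;> omega

/-- The descent by simple moves, with a finite set of disjoint lines which can be flipped. -/
theorem descent' (S : Set L) (hS : S ⊆ D.lat.Φ) (𝒢 : Finset L) (hG : ∀ G ∈ 𝒢, G ∈ D.lat.Λ)
    (hGG : ∀ G ∈ 𝒢, ∀ G' ∈ 𝒢, G ≠ G' → D.ip G G' = 0) (h : L)
    (h1 : ∀ α ∈ S, 1 ≤ D.ip α h) (h2 : ∀ G ∈ 𝒢, D.ip G h = 0)
    (Q : (L → k) → Set L → L → Prop)
    (neg : ∀ n χ E x, D.lat.P I n χ E → D.ip x h < 0 → Q χ E x)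
    (nef : ∀ n χ E x, D.lat.P I n χ E → (∀ α ∈ S, 0 ≤ D.ip x α) → (∀ G ∈ 𝒢, 0 ≤ D.ip x G) →
      Q χ E x)
    (stepR : ∀ n χ E x, ∀ α ∈ S, D.lat.P I n χ E → D.ip x α < 0 →
      Q (χ ∘ D.rf α) (D.rf α ⁻¹' E) (D.rf α x) → Q χ E x)
    (stepG : ∀ n χ E x, ∀ G ∈ 𝒢, D.lat.P I n χ E → I.v (χ G) < 1 → D.ip x G < 0 →
      Q (D.lat.flip I G χ) (D.lat.refl G ⁻¹' E) (D.lat.refl G x) → Q χ E x)
    {n : ℕ} {χ : L → k} {E : Set L} {x : L} (hP : D.lat.P I n χ E) (hx : D.lat.Pos I χ x) :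
    Q χ E x := by
  classical
  generalize hN : (D.ip x h + 1).toNat = N
  induction N using Nat.strong_induction_on generalizing n χ E x with
  | _ N ih => ?_
  generalize hM : (𝒢.filter fun G => D.ip x G < 0).card = M
  induction M using Nat.strong_induction_on generalizing n χ E x with
  | _ M ih' => ?_
  by_cases h3 : D.ip x h < 0
  · exact neg n χ E x hP h3
  by_cases h4 : ∀ G ∈ 𝒢, 0 ≤ D.ip x G
  · by_cases h5 : ∀ α ∈ S, 0 ≤ D.ip x α
    · exact nef n χ E x hP h5 h4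
    push Not at h5
    obtain ⟨α, hα, h5⟩ := h5
    refine stepR n χ E x α hα hP h5 (ih _ ?_ (P_rf (hS hα) hP) (Pos_rf (hS hα) hx) rfl)
    have h6 : D.ip (D.rf α x) h < D.ip x h := by
      rw [ip_rf]
      nlinarith [h1 α hα]
    omega
  push Not at h4
  obtain ⟨G, hG1, h4⟩ := h4
  have hv := hx.small hP.j (hG G hG1) h4
  have e : ∀ y, D.ip (D.lat.refl G x) y = D.ip x y + 2 * D.ip x G * D.ip G y :=
    Lat.ip_refl (T := D.lat) G x
  refine stepG n χ E x G hG1 hP hv h4 (ih' _ ?_ (hP.flip (hG G hG1) hv)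
    (hx.flip hP.j (hG G hG1) hv h4.le) (by rw [e, h2 G hG1, ← hN]; simp) rfl)
  rw [← hM]
  refine Finset.card_lt_card ⟨fun G' hG' => ?_, fun hh => ?_⟩
  · rw [Finset.mem_filter, e] at hG'
    refine Finset.mem_filter.2 ⟨hG'.1, ?_⟩
    by_cases h5 : G = G'
    · exact h5 ▸ h4
    · simpa [hGG G hG1 G' hG'.1 h5] using hG'.2
  · have h5 := (Finset.mem_filter.1 (hh (Finset.mem_filter.2 ⟨hG1, h4⟩))).2
    rw [e, (hG G hG1).1] at h5
    omega

/-- the standard lattice of the plane blown up in the points of ι; (d, m) is d H - ∑ m i E i -/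
def std (ι : Type) [Fintype ι] (hι : Fintype.card ι ≤ 9) : DP (ℤ × (ι → ℤ)) where
  ip := AddMonoidHom.mk' (fun u => AddMonoidHom.mk' (fun w => u.1 * w.1 - ∑ i, u.2 i * w.2 i)
    fun w w' => by simp only [Prod.fst_add, Prod.snd_add, Pi.add_apply, mul_add,
      Finset.sum_add_distrib]; ring) fun u u' => by
      refine AddMonoidHom.ext fun w => ?_
      simp only [AddMonoidHom.mk'_apply, AddMonoidHom.add_apply, Prod.fst_add, Prod.snd_add,
        Pi.add_apply, add_mul, Finset.sum_add_distrib]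
      ring
  a := (3, fun _ => 1)
  M := ⊤
  symm := fun u w => by simp [mul_comm]
  semi := fun u _ h => by
    simp only [AddMonoidHom.mk'_apply, mul_one] at h ⊢
    have h1 : 0 ≤ ∑ i, (3 * u.2 i - u.1) ^ 2 := Finset.sum_nonneg fun _ _ => sq_nonneg _
    have h2 : ∑ i, (3 * u.2 i - u.1) ^ 2 =
        9 * ∑ i, u.2 i * u.2 i - 6 * u.1 * ∑ i, u.2 i + Fintype.card ι * u.1 ^ 2 := by
      rw [Finset.mul_sum, Finset.mul_sum, ← Finset.sum_sub_distrib, ← nsmul_eq_mul,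
        ← Finset.card_univ, ← Finset.sum_const, ← Finset.sum_add_distrib]
      exact Finset.sum_congr rfl fun _ _ => by ring
    have h3 : (Fintype.card ι : ℤ) ≤ 9 := by exact_mod_cast hι
    have h4 : ∑ i, u.2 i = u.1 * 3 := by omega
    rw [h4] at h2
    nlinarith [sq_nonneg u.1]
  rad := fun u _ g _ h hu hg hug => by
    simp only [AddMonoidHom.mk'_apply, mul_one] at h hu hg hug
    have h2 : ∑ i, (3 * u.2 i - u.1) ^ 2 =
        9 * ∑ i, u.2 i * u.2 i - 6 * u.1 * ∑ i, u.2 i + Fintype.card ι * u.1 ^ 2 := by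
      rw [Finset.mul_sum, Finset.mul_sum, ← Finset.sum_sub_distrib, ← nsmul_eq_mul,
        ← Finset.card_univ, ← Finset.sum_const, ← Finset.sum_add_distrib]
      exact Finset.sum_congr rfl fun _ _ => by ring
    have h3 : (Fintype.card ι : ℤ) ≤ 9 := by exact_mod_cast hι
    have h4 : ∑ i, u.2 i = u.1 * 3 := by omega
    rw [h4] at h2
    have h5 : ∑ i, (3 * u.2 i - u.1) ^ 2 = 0 :=
      le_antisymm (by nlinarith [sq_nonneg u.1]) (Finset.sum_nonneg fun _ _ => sq_nonneg _)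
    have h6 : ∀ i, 3 * u.2 i = u.1 := fun i => by
      have := (Finset.sum_eq_zero_iff_of_nonneg fun _ _ => sq_nonneg _).1 h5 i (Finset.mem_univ i)
      have := pow_eq_zero_iff (two_ne_zero) |>.1 this
      omega
    have h7 : 3 * ∑ i, u.2 i * g.2 i = u.1 * ∑ i, g.2 i := by
      rw [Finset.mul_sum, Finset.mul_sum]
      exact Finset.sum_congr rfl fun i _ => by rw [← mul_assoc, h6]
    have h8 : u.1 = 0 := by
      have h9 : ∑ i, g.2 i = g.1 * 3 - 1 := by omega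
      rw [h9] at h7
      nlinarith
    refine Prod.ext h8 (funext fun i => ?_)
    have := h6 i
    simp only [Prod.snd_zero, Pi.zero_apply]
    omega

theorem std_ip {ι : Type} [Fintype ι] (hι : Fintype.card ι ≤ 9) (u w : ℤ × (ι → ℤ)) :
    (std ι hι).ip u w = u.1 * w.1 - ∑ i, u.2 i * w.2 i := rfl

theorem std_a {ι : Type} [Fintype ι] (hι : Fintype.card ι ≤ 9) :
    (std ι hι).a = (3, fun _ => 1) := rfl

end DP

namespace Lat

variable {T : Lat L} {I : Invo k Γ}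

/-- the class p has left: it has positive degree, and keeps it under forward flips -/
structure Gone (T : Lat L) (I : Invo k Γ) (a : L) (χ : L → k) (p : L) : Prop where
  pos : 0 < T.ip p a
  fwd : ∀ g ∈ T.Λ, I.v (χ g) < 1 → 0 ≤ T.ip p g
  bk : ∀ g ∈ T.Λ, ∀ b ∈ T.Λ, I.v (χ b) = 1 → 0 < T.ip g b → 0 ≤ T.ip p g + T.ip p b

theorem Gone.flip {a : L} (ha : ∀ g ∈ T.Λ, T.ip a g = 1) {χ : L → k} {p g : L} (hj : T.J I χ)
    (h : T.Gone I a χ p) (hg : g ∈ T.Λ) (hv : I.v (χ g) < 1) :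
    T.Gone I a (T.flip I g χ) (T.refl g p) := by
  have h0 := h.fwd g hg hv
  have hgg : I.v (T.flip I g χ g) = 1 := by
    rw [flip_self hg (hj.ch.2 g), I.unit _ (hj.ch.2 g) hv]
  have key : ∀ l ∈ T.Λ, 0 < T.ip l g → 0 ≤ T.ip p g + T.ip p l := by
    intro l hl h1
    rcases (hj.le l hl).lt_or_eq with h3 | h3
    · linarith [h.fwd l hl h3]
    · exact h.bk g hg l hl h3 (by rwa [T.symm])
  refine ⟨?_, fun l hl h1 => ?_, fun l hl b hb h2 h3 => ?_⟩
  · rw [ip_refl, T.symm g a, ha g hg]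
    linarith [h.pos]
  · have hne : l ≠ g := fun e => by
      rw [e, hgg] at h1
      exact lt_irrefl _ h1
    rw [ip_refl, T.symm g l]
    rcases (T.nonneg l hl g hg hne).eq_or_lt with h2 | h2
    · rw [flip_orth χ h2.symm] at h1
      simpa [← h2] using h.fwd l hl h1
    · nlinarith [key l hl h2]
  · rw [ip_refl, ip_refl, T.symm g l]
    by_cases hbg : b = g
    · rw [hbg] at h3 ⊢
      rw [T.self g hg]
      nlinarith [key l hl h3]
    · obtain ⟨h6, h7⟩ := (v_flip_one hg hj hv hb hbg).2 h2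
      have hne : l ≠ g := fun e => by
        rw [e, T.symm, h6] at h3
        exact lt_irrefl _ h3
      rw [T.symm g b, h6]
      nlinarith [h.bk l hl b hb h7 h3, T.nonneg l hl g hg hne]

theorem Gone.comp {a : L} {w : L ≃+ L} (hw : T.Iso w) (ha : w a = a) {χ : L → k} {p : L}
    (h : T.Gone I a χ p) : T.Gone I a (χ ∘ w) (w.symm p) := by
  have e : ∀ g, T.ip (w.symm p) g = T.ip p (w g) := fun g => by
    rw [← hw.ip, w.apply_symm_apply]
  refine ⟨by rw [e, ha]; exact h.pos, fun g hg h1 => ?_, fun g hg b hb h2 h3 => ?_⟩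
  · rw [e]
    exact h.fwd _ ((hw.line g).2 hg) h1
  · rw [e, e]
    exact h.bk _ ((hw.line g).2 hg) _ ((hw.line b).2 hb) h2 (by rwa [hw.ip])

/-- the values of the unit lines which have not been flipped lie in U -/
def Fz (T : Lat L) (I : Invo k Γ) (U : Set k) (χ : L → k) : Prop :=
  ∀ g ∈ T.Λ, I.v (χ g) = 1 → Bk I (χ g) ∨ χ g ∈ U

theorem Fz.flip {U : Set k} {χ : L → k} {g : L} (hj : T.J I χ) (h : T.Fz I U χ) (hg : g ∈ T.Λ)
    (hv : I.v (χ g) < 1) : T.Fz I U (T.flip I g χ) := by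
  intro l hl h1
  by_cases hlg : l = g
  · have hi := I.invol _ (hj.ch.2 g) hv
    rw [hlg, flip_self hg (hj.ch.2 g)] at h1 ⊢
    exact Or.inl ⟨h1, by rw [hi]; exact hj.ch.2 g, by rw [hi]; exact hv, by rw [hi]⟩
  · obtain ⟨h2, h3⟩ := (v_flip_one hg hj hv hl hlg).2 h1
    rw [flip_orth χ h2]
    exact h l hl h3

theorem Fz.comp {U : Set k} {w : L ≃+ L} (hw : T.Iso w) {χ : L → k} (h : T.Fz I U χ) :
    T.Fz I U (χ ∘ w) := fun g hg h1 => h _ ((hw.line g).2 hg) h1

/-- two disjoint lines at conjugate points, the second one small or flipped -/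
theorem P.conj {n : ℕ} {χ : L → k} {E : Set L} (h : T.P I n χ E) {l g : L} (hg : g ∈ T.Λ)
    (hα : l - g ∈ T.Φ) (h0 : T.ip l g = 0) (hv : I.v (χ g) < 1 ∨ Bk I (χ g))
    (h1 : χ l = I.ι (χ g)) : l + g ∈ E ∨ -(l + g) ∈ E := by
  have key : ∃ n', T.P I n' (T.flip I g χ) (T.refl g ⁻¹' E) := by
    rcases hv with hv | hv
    · exact ⟨_, h.flip hg hv⟩
    · rcases n with _ | n
      · exact absurd hv (h.2.1 g hg)
      · exact ⟨_, h.2.2 g hg hv⟩
  obtain ⟨n', h2⟩ := key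
  have h3 := h2.root _ hα (by
    rw [h2.j.ch.sub, flip_orth χ h0, flip_self hg (h.j.ch.2 g), h1, div_self]
    rw [← h1]
    exact h.j.ch.2 l)
  simpa only [Set.mem_preimage, refl_neg, refl_sub, refl_orth h0, refl_self hg,
    sub_neg_eq_add] using h3

/-- two disjoint lines at conjugate points for z ↦ 1 - z -/
theorem P.conj_one {v : Valuation k Γ} {n : ℕ} {χ : L → k} {E : Set L} {U : Set k}
    (h : T.P (Invo.one v) n χ E) (hz : T.Fz (Invo.one v) U χ) (hU : ∀ u ∈ U, ∀ w ∈ U, u + w ≠ 1)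
    {l g : L} (hg : g ∈ T.Λ) (hl : l ∈ T.Λ) (hα : l - g ∈ T.Φ) (hα' : g - l ∈ T.Φ)
    (h0 : T.ip l g = 0) (h1 : χ l + χ g = 1) : l + g ∈ E ∨ -(l + g) ∈ E := by
  have k1 : ∀ u ∈ T.Λ, ((Invo.one v).v (χ u) < 1 ∨ Bk (Invo.one v) (χ u)) ∨ χ u ∈ U := fun u hu => by
    rcases (h.j.le u hu).lt_or_eq with e | e
    · exact Or.inl (Or.inl e)
    · exact (hz u hu e).imp_left Or.inr
  rcases k1 g hg with e | e
  · exact h.conj hg hα h0 e (eq_sub_of_add_eq h1)
  rcases k1 l hl with e' | e'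
  · rw [add_comm]
    exact h.conj hl hα' ((T.symm g l).trans h0) e' (eq_sub_of_add_eq' h1)
  · exact absurd h1 (hU _ e' _ e)

end Lat

end Pool.Agent.Lib.MP_d03834_ag.Core
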