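import Pool.Agent.Lib.MP_d03834_ag.Core.TwoSh

/-! An explicit configuration with four disjoint effective roots: four of the free points are
the corners of a grid after one elementary transformation. -/

set_option autoImplicit false

namespace Pool.Agent.Lib.MP_d03834_ag.Core

variable {O k : Type} [CommRing O] [Field k]

/-- the parameters of the configuration -/
structure Dn (A : Arc O k) where
  /-- slope at the centre -/
  q : O
  /-- parameter of the grid -/
  a : O
  /-- the inverse of a -/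
  a' : O
  /-- position of the free point -/
  b : O
  /-- the inverse of b -/
  b' : O
  /-- position of the second point of B -/
  β : O
  aa : a * a' = 1
  bb : b * b' = 1
  q0 : A.res q ≠ 0
  β0 : A.res β ≠ 0
  two : (2 : O) ≠ 0
  a1 : a ≠ 1
  a2 : a ≠ -1
  b1 : b ≠ 1
  b2 : b ≠ -1
  b3 : b ≠ a
  b4 : b ≠ -a
  βq : β ≠ q

namespace Dn

variable {A : Arc O k} (D : Dn A)

/-- the x coordinates of the free points -/
def z : Fin 5 → O := ![-1, -D.a, D.b, D.a, 1]

/-- their inverses -/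
def zi : Fin 5 → O := ![-1, -D.a', D.b', D.a', 1]

/-- the configuration -/
def cfg : Cfg O k where
  z := D.z
  η := fun i => D.q * D.zi i + D.q * D.a' * (D.z i - A.t * D.q)
  al := ![0, -D.q]
  be := ![D.q, D.β]
  Q0 := A.res D.q
  Q1 := 0
  Q2 := A.res D.q * A.res D.a'

/-- the slope of the curve R in the middle frame -/
def mu : O := A.t * D.q * D.a'

/-- the value of the character on the line eb 0 -/
def r : k := A.res D.q / A.res D.β

/-- the character -/
def ch (u : CL) : k :=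
  (-1) ^ (u.1.1 + u.2.1 0 + u.2.1 1) * D.r ^ (u.1.1 - u.2.2 0) *
    A.res D.a ^ (u.2.1 1 + u.2.1 3 - u.1.2) * A.res D.b ^ u.2.1 2

/-- the x coordinate after the elementary transformation at a 1 and b 0 -/
def u (i : Fin 5) : O := (D.z i + A.t * D.q) * (1 - D.mu * D.z i) * D.zi i

/-- the height of the first row of the grid -/
def h0 : O := -D.q - D.q * D.a' - A.t * D.q ^ 2 * D.a'
/-- the height of the second row of the grid -/
def h1 : O := D.q + D.q * D.a' - A.t * D.q ^ 2 * D.a'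
/-- the first column of the grid -/
def u0 : O := 1 - A.t * D.q + A.t * D.q * D.a' - A.t ^ 2 * D.q ^ 2 * D.a'
/-- the second column of the grid -/
def u1 : O := 1 + A.t * D.q - A.t * D.q * D.a' - A.t ^ 2 * D.q ^ 2 * D.a'
/-- the constant of the curve η = ρ + 2 q / x through a 0, e 0, e 3 -/
def ρ : O := D.q - D.q * D.a' - A.t * D.q ^ 2 * D.a'

theorem rt (A : Arc O k) : A.res A.t = 0 := (A.ker _).2 dvd_rfl

theorem z_zi (i : Fin 5) : D.z i * D.zi i = 1 := by
  fin_cases i <;> simp [z, zi, D.aa, D.bb]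

theorem res_aa : A.res D.a * A.res D.a' = 1 := by rw [← map_mul, D.aa, map_one]
theorem res_bb : A.res D.b * A.res D.b' = 1 := by rw [← map_mul, D.bb, map_one]
theorem res_a : A.res D.a ≠ 0 := left_ne_zero_of_mul_eq_one D.res_aa
theorem res_a' : A.res D.a' ≠ 0 := right_ne_zero_of_mul_eq_one D.res_aa
theorem res_b : A.res D.b ≠ 0 := left_ne_zero_of_mul_eq_one D.res_bb
theorem res_a'_eq : A.res D.a' = (A.res D.a)⁻¹ := eq_inv_of_mul_eq_one_right D.res_aa
theorem r0 : D.r ≠ 0 := div_ne_zero D.q0 D.β0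
theorem q_ne : D.q ≠ 0 := fun e => D.q0 (by rw [e, map_zero])
theorem β_ne : D.β ≠ 0 := fun e => D.β0 (by rw [e, map_zero])
theorem a'_ne : D.a' ≠ 0 := fun e => D.res_a' (by rw [e, map_zero])
theorem a_ne : D.a ≠ 0 := fun e => D.res_a (by rw [e, map_zero])
theorem b_ne : D.b ≠ 0 := fun e => D.res_b (by rw [e, map_zero])

theorem res_z (i : Fin 5) : A.res (D.z i) ≠ 0 :=
  left_ne_zero_of_mul_eq_one (b := A.res (D.zi i)) (by rw [← map_mul, D.z_zi, map_one])

theorem res_mu : A.res D.mu = 0 := by simp [mu, rt A]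

theorem cfg_z : D.cfg.z = D.z := rfl
theorem cfg_al0 : D.cfg.al 0 = 0 := rfl
theorem cfg_al1 : D.cfg.al 1 = -D.q := rfl
theorem cfg_be0 : D.cfg.be 0 = D.q := rfl
theorem cfg_be1 : D.cfg.be 1 = D.β := rfl
theorem cfg_η (i : Fin 5) :
    D.cfg.η i = D.q * D.zi i + D.q * D.a' * (D.z i - A.t * D.q) := rfl

/-- the exact graph -/
theorem gam (i : Fin 5) :
    D.cfg.η i * D.z i = D.q + D.q * D.a' * D.z i * (D.z i - A.t * D.q) := by
  rw [cfg_η]
  linear_combination D.q * D.z_zi i

theorem gam' (i : Fin 5) :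
    D.z i * (1 - A.t * D.cfg.η i) = (D.z i - A.t * D.q) * (1 - D.mu * D.z i) := by
  rw [mu]
  linear_combination (-A.t) * D.gam i

theorem N_eq : D.cfg.N A = A.res D.β := by
  simp only [Cfg.N, cfg_al0, cfg_al1, cfg_be0, cfg_be1, map_zero, map_neg]
  change _ - 2 * A.res D.q = _
  ring

theorem isCh : IsCh D.ch := by
  have h1 : (-1 : k) ≠ 0 := by simp
  refine ⟨fun u w => ?_, fun u => mul_ne_zero (mul_ne_zero (mul_ne_zero (zpow_ne_zero _ h1)
    (zpow_ne_zero _ D.r0)) (zpow_ne_zero _ D.res_a)) (zpow_ne_zero _ D.res_b)⟩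
  simp only [ch, Prod.fst_add, Prod.snd_add, Pi.add_apply]
  rw [show u.1.1 + w.1.1 + (u.2.1 0 + w.2.1 0) + (u.2.1 1 + w.2.1 1) =
      (u.1.1 + u.2.1 0 + u.2.1 1) + (w.1.1 + w.2.1 0 + w.2.1 1) by ring,
    show u.1.1 + w.1.1 - (u.2.2 0 + w.2.2 0) = (u.1.1 - u.2.2 0) + (w.1.1 - w.2.2 0) by ring,
    show u.2.1 1 + w.2.1 1 + (u.2.1 3 + w.2.1 3) - (u.1.2 + w.1.2) =
      (u.2.1 1 + u.2.1 3 - u.1.2) + (w.2.1 1 + w.2.1 3 - w.1.2) by ring,
    zpow_add₀ h1, zpow_add₀ D.r0, zpow_add₀ D.res_a, zpow_add₀ D.res_b]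
  ring

theorem ch_e5 : D.ch e5 = -D.r := by simp [ch, e5]
theorem ch_eb0 : D.ch (eb 0) = D.r := by simp [ch, eb]
theorem ch_eb1 : D.ch (eb 1) = 1 := by simp [ch, eb]

theorem ch_aV (i j : Fin 5) :
    D.ch (aV i j) = A.res (D.z i) * A.res (D.z j) * (A.res D.a)⁻¹ := by
  have ha := D.res_a
  fin_cases i <;> fin_cases j <;> simp [ch, aV, z, zpow_ofNat] <;> field_simp

/-- the configuration has the shape -/
theorem shp : Shp A D.cfg D.ch where
  z0 := D.res_z
  cur := fun i => by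
    have := congrArg A.res (D.gam i)
    simp only [map_mul, map_add, map_sub, rt A] at this
    change _ * A.res (D.z i) = A.res D.q + 0 * _ + A.res D.q * A.res D.a' * A.res (D.z i) ^ 2
    linear_combination this
  N0 := by rw [N_eq]; exact D.β0
  e5 := by
    rw [N_eq, ch_e5, r, neg_mul, div_mul_cancel₀ _ D.β0]
    rfl
  eb := fun s => by
    rw [N_eq]
    change _ = _ - A.res (-D.q) - A.res D.q
    fin_cases s
    · change D.ch (eb 0) * _ = A.res D.q - _ - _
      rw [ch_eb0, r, div_mul_cancel₀ _ D.β0, map_neg]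
      ring
    · change D.ch (eb 1) * _ = A.res D.β - _ - _
      rw [ch_eb1, map_neg]
      ring
  aV := fun i j _ => by
    rw [ch_aV]
    change _ * A.res D.q = A.res D.q * A.res D.a' * A.res (D.z i) * A.res (D.z j)
    rw [res_a'_eq]
    ring

theorem η0 : D.cfg.η 0 = D.h0 := by simp [cfg_η, z, zi, h0]; ring
theorem η1 : D.cfg.η 1 = D.h0 := by
  simp only [cfg_η, z, zi, h0, Matrix.cons_val_zero, Matrix.cons_val_one]
  linear_combination (-D.q) * D.aa
theorem η3 : D.cfg.η 3 = D.h1 := by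
  simp only [cfg_η, z, zi, h1, Matrix.cons_val]
  linear_combination D.q * D.aa
theorem η4 : D.cfg.η 4 = D.h1 := by simp [cfg_η, z, zi, h1]; ring

theorem u_eq (i : Fin 5) : D.u i = 1 - D.mu * D.z i + A.t * D.q * D.zi i - A.t * D.q * D.mu := by
  rw [u]
  linear_combination (1 - D.mu * D.z i - A.t * D.q * D.mu) * D.z_zi i

theorem u_0 : D.u 0 = D.u0 := by simp [u_eq, z, zi, u0, mu]; ring
theorem u_3 : D.u 3 = D.u0 := by
  simp only [u_eq, z, zi, u0, mu, Matrix.cons_val]
  linear_combination (-A.t * D.q) * D.aa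
theorem u_1 : D.u 1 = D.u1 := by
  simp only [u_eq, z, zi, u1, mu, Matrix.cons_val_zero, Matrix.cons_val_one]
  linear_combination (A.t * D.q) * D.aa
theorem u_4 : D.u 4 = D.u1 := by simp [u_eq, z, zi, u1, mu]; ring

/-- the relation of the elementary transformation at a 1 and b 0 -/
theorem u_rel (i : Fin 5) :
    D.u i * (D.z i - A.t * D.q) = (1 - A.t * D.cfg.η i) * (D.z i + A.t * D.q) := by
  rw [u]
  linear_combination (-(D.z i + A.t * D.q) * D.zi i) * D.gam' i +
    ((1 - A.t * D.cfg.η i) * (D.z i + A.t * D.q)) * D.z_zi i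

theorem res_u (i : Fin 5) : A.res (D.u i) = 1 := by simp [u_eq, rt A, res_mu]
theorem res_u0 : A.res D.u0 = 1 := by rw [← u_0, res_u]
theorem res_u1 : A.res D.u1 = 1 := by rw [← u_1, res_u]
theorem res_tη (x : O) : A.res (1 - A.t * x) = 1 := by simp [rt A]

theorem ne_of_res {x : O} (h : A.res x ≠ 0) : x ≠ 0 := fun e => h (by rw [e, map_zero])

theorem u0_ne : D.u0 ≠ 0 := ne_of_res (A := A) (by rw [res_u0]; exact one_ne_zero)
theorem u1_ne : D.u1 ≠ 0 := ne_of_res (A := A) (by rw [res_u1]; exact one_ne_zero)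
theorem u_ne (i : Fin 5) : D.u i ≠ 0 := ne_of_res (A := A) (by rw [res_u]; exact one_ne_zero)
theorem tη_ne (A : Arc O k) (x : O) : 1 - A.t * x ≠ 0 :=
  ne_of_res (A := A) (by rw [res_tη]; exact one_ne_zero)
theorem zt_ne (i : Fin 5) (x : O) : D.z i - A.t * x ≠ 0 :=
  ne_of_res (A := A) (by simpa [rt A] using D.res_z i)
theorem zt_ne' (i : Fin 5) (x : O) : D.z i + A.t * x ≠ 0 :=
  ne_of_res (A := A) (by simpa [rt A] using D.res_z i)

theorem h_sub : D.a * (D.h1 - D.h0) = 2 * D.q * (D.a + 1) := by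
  rw [h1, h0]
  linear_combination (2 * D.q) * D.aa

theorem u_sub : D.a * (D.u1 - D.u0) = 2 * A.t * D.q * (D.a - 1) := by
  rw [u1, u0]
  linear_combination (-2 * A.t * D.q) * D.aa

theorem η2_h0 : D.a * D.b * (D.cfg.η 2 - D.h0) = D.q * (D.b + 1) * (D.b + D.a) := by
  simp only [cfg_η, z, zi, h0, Matrix.cons_val]
  linear_combination (D.q * D.a) * D.bb + (D.q * D.b * (D.b + 1)) * D.aa

theorem η2_h1 : D.a * D.b * (D.cfg.η 2 - D.h1) = D.q * (D.b - 1) * (D.b - D.a) := by
  simp only [cfg_η, z, zi, h1, Matrix.cons_val]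
  linear_combination (D.q * D.a) * D.bb + (D.q * D.b * (D.b - 1)) * D.aa

theorem u2_u0 : D.a * D.b * (D.u 2 - D.u0) = -(A.t * D.q * (D.b + 1) * (D.b - D.a)) := by
  simp only [u_eq, z, zi, u0, mu, Matrix.cons_val]
  linear_combination (A.t * D.q * D.a) * D.bb - (A.t * D.q * D.b * (D.b + 1)) * D.aa

theorem u2_u1 : D.a * D.b * (D.u 2 - D.u1) = -(A.t * D.q * (D.b - 1) * (D.b + D.a)) := by
  simp only [u_eq, z, zi, u1, mu, Matrix.cons_val]
  linear_combination (A.t * D.q * D.a) * D.bb - (A.t * D.q * D.b * (D.b - 1)) * D.aa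

/-- the curve η x = ρ x + 2 q passes through e 0 and e 3 -/
theorem rq0 : D.cfg.η 0 * D.z 0 = D.ρ * D.z 0 + 2 * D.q := by
  simp [η0, z, h0, ρ]; ring

theorem rq3 : D.cfg.η 3 * D.z 3 = D.ρ * D.z 3 + 2 * D.q := by
  simp only [η3, z, h1, ρ, Matrix.cons_val]
  linear_combination (2 * D.q) * D.aa

section domain
variable [IsDomain O]

theorem mu_ne : D.mu ≠ 0 := mul_ne_zero (mul_ne_zero A.t0 D.q_ne) D.a'_ne

theorem neg_ne (D : Dn A) {x : O} (h : x ≠ 0) : -x ≠ x := fun e =>
  mul_ne_zero D.two h (by linear_combination -e)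

theorem zz (i j : Fin 5) (h : i ≠ j) : D.z i ≠ D.z j := by
  have h1 := D.neg_ne (one_ne_zero (α := O))
  have h2 := D.neg_ne D.a_ne
  have h3 : -D.a ≠ 1 := fun e => D.a2 (by linear_combination -e)
  have h4 : (-1 : O) ≠ -D.a := fun e => D.a1 (by linear_combination e)
  fin_cases i <;> fin_cases j <;> first
    | exact absurd rfl h
    | exact h1 | exact h1.symm | exact h2 | exact h2.symm | exact h3 | exact h3.symm
    | exact h4 | exact h4.symm | exact D.a1 | exact D.a1.symm | exact D.a2 | exact D.a2.symm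
    | exact D.b1 | exact D.b1.symm | exact D.b2 | exact D.b2.symm
    | exact D.b3 | exact D.b3.symm | exact D.b4 | exact D.b4.symm

/-- the curve R is the exact graph through the free points, a 0 and b 0 -/
theorem rex : Rex A D.cfg (-1) D.mu where
  z0 := D.res_z
  mu0 := D.mu_ne
  mur := D.res_mu
  lar := by simp
  R := fun i => by
    rw [cfg_z, cfg_al0, cfg_be0]
    linear_combination -D.gam' i
  zz := D.zz
  ba := D.q_ne
  aa := neg_ne_zero.2 D.q_ne
  ab := D.neg_ne D.q_ne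
  ba' := D.β_ne
  bb := D.βq

theorem h_ne : D.h1 ≠ D.h0 := fun e => by
  have := D.h_sub
  rw [e, sub_self, mul_zero] at this
  exact mul_ne_zero (mul_ne_zero D.two D.q_ne) (fun e => D.a2 (by linear_combination e)) this.symm

theorem u_ne' : D.u1 ≠ D.u0 := fun e => by
  have := D.u_sub
  rw [e, sub_self, mul_zero] at this
  exact mul_ne_zero (mul_ne_zero (mul_ne_zero D.two A.t0) D.q_ne) (sub_ne_zero.2 D.a1) this.symm

theorem η2_ne0 : D.cfg.η 2 ≠ D.h0 := fun e => by
  have := D.η2_h0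
  rw [e, sub_self, mul_zero] at this
  exact mul_ne_zero (mul_ne_zero D.q_ne fun e => D.b2 (by linear_combination e))
    (fun e => D.b4 (by linear_combination e)) this.symm

theorem η2_ne1 : D.cfg.η 2 ≠ D.h1 := fun e => by
  have := D.η2_h1
  rw [e, sub_self, mul_zero] at this
  exact mul_ne_zero (mul_ne_zero D.q_ne (sub_ne_zero.2 D.b1)) (sub_ne_zero.2 D.b3) this.symm

theorem u2_ne0 : D.u 2 ≠ D.u0 := fun e => by
  have := D.u2_u0
  rw [e, sub_self, mul_zero, eq_comm, neg_eq_zero] at this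
  exact mul_ne_zero (mul_ne_zero (mul_ne_zero A.t0 D.q_ne)
    fun e => D.b2 (by linear_combination e)) (sub_ne_zero.2 D.b3) this

theorem u2_ne1 : D.u 2 ≠ D.u1 := fun e => by
  have := D.u2_u1
  rw [e, sub_self, mul_zero, eq_comm, neg_eq_zero] at this
  exact mul_ne_zero (mul_ne_zero (mul_ne_zero A.t0 D.q_ne) (sub_ne_zero.2 D.b1))
    (fun e => D.b4 (by linear_combination e)) this

theorem tq_ne : A.t * -D.q ≠ A.t * D.q := fun e => D.neg_ne D.q_ne (mul_left_cancel₀ A.t0 e)

end domain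

end Dn

end Pool.Agent.Lib.MP_d03834_ag.Core
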