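import Pool.Agent.Lib.MP_d03834_ag.Core.DownCfgB
import Pool.Agent.Lib.MP_d03834_ag.Core.DownGrl
import Pool.Agent.Lib.MP_d03834_ag.Core.FrameR
import Pool.Agent.Lib.MP_d03834_ag.Core.KPC
import Pool.Agent.Lib.MP_d03834_ag.Core.ClHonB

/-! The bound for the sections on the explicit configuration, and the curve through
a 0, b 1, e 0, e 3. -/

set_option autoImplicit false

namespace Pool.Agent.Lib.MP_d03834_ag.Core

open Module

namespace Dn

variable {O k : Type} [CommRing O] [Field k] {A : Arc O k} (D : Dn A)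

theorem H_le [IsDomain O] (K : Type) [Field K] [Algebra O K]
    (hi : Function.Injective (algebraMap O K)) (ε : ℤ) (u : CL) :
    finrank K (D.cfg.H A K ε u) ≤ finrank K (D.ccfg.HC A K ε u) :=
  Submodule.finrank_mono (H_le_HC' K hi D.ex D.zz (neg_ne_zero.2 D.q_ne).symm D.βq.symm ε u)

/-- the bound on the explicit configuration -/
theorem kp [IsDomain O] {K Γ : Type} [Field K] [Algebra O K] [LinearOrderedCommGroupWithZero Γ]
    {v : Valuation k Γ} (hi : Function.Injective (algebraMap O K)) (hK : KPC A K v)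
    (le : ∀ g ∈ cD.lat.Λ, v (D.ch g) ≤ 1)
    (nb : ∀ g ∈ cD.lat.Λ, ¬Lat.Bk (Invo.one v) (D.ch g)) {u : CL} (hM : u ∈ cD.M)
    (pos : cD.lat.Pos (Invo.one v) D.ch u)
    (rt : ∀ α ∈ cD.lat.Φ, D.ch α = 1 → 0 < cip u α → 0 ≤ cip hC α) {ε : ℤ} (hε : ε = 0 ∨ ε = 1) :
    (0 < cip u u → (finrank K (D.cfg.H A K ε u) : ℤ) ≤ 1 + cip u u / 2) ∧
      (cip u u < 0 → finrank K (D.cfg.H A K ε u) = 0) := by
  have h1 := hK D.ccfg D.ch u ε ⟨D.shp, D.ex, D.isCh, le, nb, hM, pos, rt⟩ hε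
  have h2 := D.H_le K hi ε u
  exact ⟨fun h => le_trans (by exact_mod_cast h2) (h1.1 h), fun h => by
    have := h1.2 h
    omega⟩

variable {L : Type} [Field L] (f : O →+* L) (δ : L)

/-- the bilinear form of the curve η x = ρ x + 2 q -/
def rqF (X : Fin 4 → L) : L := X 0 * X 3 - f D.ρ * X 0 * X 2 - 2 * f D.q * X 1 * X 2

theorem rqF_a0 : D.rqF f (D.pm f δ (Fr.a 0)) = 0 := by simp [rqF, pm_a0]

theorem rqF_e0 : D.rqF f (D.pm f δ (Fr.e 0)) = 0 := by
  have := congrArg f D.rq0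
  simp only [map_mul, map_add, map_ofNat] at this
  simp only [rqF, pm_e, Matrix.cons_val_zero, Matrix.cons_val_one, Matrix.cons_val,
    if_neg (show (0 : Fin 5) ≠ 2 by decide)]
  linear_combination this

theorem rqF_e3 : D.rqF f (D.pm f δ (Fr.e 3)) = 0 := by
  have := congrArg f D.rq3
  simp only [map_mul, map_add, map_ofNat] at this
  simp only [rqF, pm_e, Matrix.cons_val_zero, Matrix.cons_val_one, Matrix.cons_val,
    if_neg (show (3 : Fin 5) ≠ 2 by decide)]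
  linear_combination this

theorem rqF_b1 (h : D.β * (1 - A.t * D.ρ) = 2 * D.q) : D.rqF f (D.pm f δ (Fr.b 1)) = 0 := by
  have := congrArg f h
  simp only [map_mul, map_sub, map_ofNat, map_one] at this
  simp only [rqF, pm_b1, Matrix.cons_val_zero, Matrix.cons_val_one, Matrix.cons_val, map_mul]
  linear_combination f A.t * this

theorem rqF_a1 : D.rqF f (D.pm f δ (Fr.a 1)) = f (-(A.t * D.q)) := by simp [rqF, pm_a1]

theorem rqF_b0 : D.rqF f (D.pm f δ (Fr.b 0)) = f (-(A.t * D.q * (1 + A.t * D.ρ))) := by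
  simp only [rqF, pm_b0, Matrix.cons_val_zero, Matrix.cons_val_one, Matrix.cons_val, map_mul,
    map_neg, map_add, map_one]
  ring

variable {f δ}

/-- the frame change, four points of the torus on a curve -/
theorem exQ [IsDomain O] (hβ : D.β * (1 - A.t * D.ρ) = 2 * D.q)
    (h : ∀ y w : O, y ≠ 0 → f y + f w * δ ≠ 0) :
    ∃ (M : Type) (_ : Field M) (_ : L →+* M) (al be ga : M) (Q : Fin 5 → Fin 4 → M),
      (∀ i c, Q i c ≠ 0) ∧ (∀ i, i ≠ 4 → Q i 0 * Q i 1 * Q i 2 =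
        Q i 3 * (al * Q i 0 ^ 2 + be * Q i 0 * Q i 1 + ga * Q i 1 ^ 2)) ∧
      ∀ (p q : ℤ) (k : Fin 4 → ℤ) (m : Fin 5 → ℤ),
        finrank M (H0 p q (Sum.elim cor Q) (Sum.elim k m)) ≤ finrank L (H0 q (p + q - m 0 - m 1)
          (D.pm f δ) (Fr.mu k m (q - m 0) (q - m 1))) := by
  have e : ∀ X, Fr.bil ![-f D.ρ, 1, -(2 * f D.q), 0] X X = D.rqF f X := fun X => by
    simp only [Fr.bil, rqF, Matrix.cons_val_zero, Matrix.cons_val_one, Matrix.cons_val]
    ring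
  refine (D.grl h).exQ (r := ![-f D.ρ, 1, -(2 * f D.q), 0]) ?_ (by rw [e, rqF_e0])
    (by rw [e, rqF_e3]) (by rw [e, rqF_a0]) (by rw [e, D.rqF_b1 f δ hβ])
  have := h _ 0 (mul_ne_zero D.two D.q_ne)
  rw [map_mul, map_ofNat] at this
  simpa using this

/-- the same with the hypothesis which the fold gives -/
theorem exQ' [IsDomain O] {K : Type} [Field K] [Algebra O K]
    (hi : Function.Injective (algebraMap O K)) (hβ : D.β * (1 - A.t * D.ρ) = 2 * D.q)
    {g : K →+* L} (h : ∀ y w : K, y ≠ 0 → g y + g w * δ ≠ 0) :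
    ∃ (M : Type) (_ : Field M) (_ : L →+* M) (al be ga : M) (Q : Fin 5 → Fin 4 → M),
      (∀ i c, Q i c ≠ 0) ∧ (∀ i, i ≠ 4 → Q i 0 * Q i 1 * Q i 2 =
        Q i 3 * (al * Q i 0 ^ 2 + be * Q i 0 * Q i 1 + ga * Q i 1 ^ 2)) ∧
      ∀ (p q : ℤ) (k : Fin 4 → ℤ) (m : Fin 5 → ℤ),
        finrank M (H0 p q (Sum.elim cor Q) (Sum.elim k m)) ≤ finrank L (H0 q (p + q - m 0 - m 1)
          (D.pm (g.comp (algebraMap O K)) δ) (Fr.mu k m (q - m 0) (q - m 1))) :=
  D.exQ hβ fun _ _ hy => h _ _ ((map_ne_zero_iff _ hi).2 hy)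

end Dn

end Pool.Agent.Lib.MP_d03834_ag.Core
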