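import Pool.Agent.Lib.MP_d03834_ag.Core.TwoSh

/-! From the graph frame to the fibre frame, with one free point off the curve R. -/

set_option autoImplicit false

namespace Pool.Agent.Lib.MP_d03834_ag.Core

open Module

variable {K : Type} [Field K]

/-- the middle frame with arbitrary heights -/
def mdQ (z v : Fin 5 → K) (a b : Fin 2 → K) : Ix → Fin 4 → K
  | .inl i => ![z i, 1, 1, v i]
  | .inr (.inl s) => ![![a 0, 1, 1, 0], ![a 1, 1, 0, 1]] s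
  | .inr (.inr s) => ![![b 0, 1, 0, 1], ![b 1, 1, 1, 0]] s

/-- the fibre frame in normal form; the point e 2 is (ξ, y) -/
def fbN (z : Fin 5 → K) (a b : Fin 2 → K) (la mu ξ y : K) : Ix → Fin 4 → K
  | .inl i => ![![0, 1, (la + mu * z 0)⁻¹, 1], ![0, 1, (la + mu * z 1)⁻¹, 1], ![ξ, 1, y, 1],
      ![1, 0, 1, la + mu * z 3], ![1, 1, 1, la + mu * z 4]] i
  | .inr (.inl s) => ![fbB z la mu (a 0), fbA z (a 1)] s
  | .inr (.inr s) => ![fbA z (b 0), fbB z la mu (b 1)] s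

theorem mdQ_pt (z v : Fin 5 → K) (a b : Fin 2 → K) : ∀ l, Pt (mdQ z v a b l) := by
  refine ix_all ?_ ?_ ?_ ?_ ?_ ?_ ?_ ?_ ?_ <;> simp [mdQ, Pt]

theorem fbN_pt {z : Fin 5 → K} {a b : Fin 2 → K} {la mu : K} (ξ y : K) (hz : z 3 ≠ z 4)
    (ha : la + mu * a 0 ≠ 0) (hb : la + mu * b 1 ≠ 0) : ∀ l, Pt (fbN z a b la mu ξ y l) := by
  have h1 := sub_ne_zero.2 hz
  have h2 := sub_ne_zero.2 hz.symm
  refine ix_all ?_ ?_ ?_ ?_ ?_ ?_ ?_ ?_ ?_ <;> simp [fbN, fbA, fbB, Pt, h1, h2, ha, hb]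

theorem gr_le_mdQ {z η v : Fin 5 → K} {a b : Fin 2 → K} {t : K} (ht : t ≠ 0)
    (hR : ∀ i, (z i - a 0) * (t * η i - 1) = (z i - b 0) * v i)
    (hab : b 0 ≠ a 0) (hza : ∀ i, z i ≠ a 0) (hzb : ∀ i, z i ≠ b 0) (h1 : a 1 ≠ a 0)
    (h2 : a 1 ≠ b 0) (h3 : b 1 ≠ a 0) (h4 : b 1 ≠ b 0) (p q : ℤ) (m : Ix → ℤ) :
    finrank K (H0 p q (grP z η a b t) m) ≤
      finrank K (H0 (p + q - m (.inr (.inl 0)) - m (.inr (.inr 0))) q (mdQ z v a b)
        fun l => if l = .inr (.inl 0) ∨ l = .inr (.inr 0) then q - m l else m l) := by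
  refine shear' (grP_pt z η a b t) (mdQ_pt z v a b) (by simpa [grP, dy]) (by simp [mdQ, dy])
    (by simpa [grP, dx, sub_eq_zero]) ?_ ?_
  · refine ix_all ?_ ?_ ?_ ?_ ?_ ?_ ?_ ?_ ?_ <;> simp [mdQ, grP, dx]
  · rintro (i | s | s) hi hj
    · refine ⟨by simpa [mdQ, grP, dx, sub_eq_zero] using hza i,
        by simpa [mdQ, grP, dx, sub_eq_zero] using hzb i, ?_⟩
      simp only [mdQ, grP, dx, dy, Matrix.cons_val_zero, Matrix.cons_val_one, Matrix.cons_val]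
      linear_combination hR i
    · fin_cases s
      · exact absurd rfl hi
      · simpa [mdQ, grP, dx, dy, sub_eq_zero] using ⟨h1, h2⟩
    · fin_cases s
      · exact absurd rfl hj
      · simpa [mdQ, grP, dx, dy, sub_eq_zero] using ⟨h3, h4⟩

theorem mdQ_le_fbN {z v : Fin 5 → K} {a b : Fin 2 → K} {la mu ξ y : K} (hm : mu ≠ 0)
    (hz : ∀ i j, i ≠ j → z i ≠ z j) (hv : ∀ i, i ≠ 2 → v i = la + mu * z i)
    (h0 : ∀ i, la + mu * z i ≠ 0) (ha : la + mu * a 0 ≠ 0) (hb : la + mu * b 1 ≠ 0)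
    (hy : y * v 2 = 1) (h3 : v 3 ≠ v 2) (h4 : v 4 ≠ v 2)
    (hξ : (1 - ξ) * (v 3 - v 2) * (z 2 - z 4) = (v 4 - v 2) * (z 2 - z 3)) (p q : ℤ) (m : Ix → ℤ) :
    finrank K (H0 p q (mdQ z v a b) m) ≤
      finrank K (H0 p (q + p - m (.inl 3) - m (.inl 4)) (fbN z a b la mu ξ y)
        fun l => if l = .inl 3 ∨ l = .inl 4 then p - m l else m l) := by
  have h34 := hz 3 4 (by decide)
  have v0 := hv 0 (by decide)
  have v1 := hv 1 (by decide)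
  have v3 := hv 3 (by decide)
  have v4 := hv 4 (by decide)
  have y0 : y ≠ 0 := left_ne_zero_of_mul_eq_one hy
  have k : ∀ i j : Fin 5, i ≠ j → (la + mu * z j) * (la + mu * z i)⁻¹ - 1 ≠ 0 := fun i j e => by
    rw [sub_ne_zero, ← div_eq_mul_inv, Ne, div_eq_one_iff_eq (h0 i)]
    simpa [hm] using hz j i e.symm
  have k' : ∀ w, w ≠ v 2 → w * y - 1 ≠ 0 := fun w hw e =>
    hw (by linear_combination v 2 * e - w * hy)
  refine shear (mdQ_pt z v a b) (fbN_pt ξ y h34 ha hb)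
    (by simpa [mdQ, dx, sub_eq_zero] using h34.symm) (by simp [fbN, dx])
    (by simpa [mdQ, dy, sub_eq_zero, hm, v3, v4] using h34) ?_ ?_
  · refine ix_all ?_ ?_ ?_ ?_ ?_ ?_ ?_ ?_ ?_ <;>
      simp [fbN, mdQ, fbA, fbB, dy, v0, v1, v3, v4, h0, mul_comm (v 2), hy]
  · refine ix_all ?_ ?_ ?_ (fun h => absurd rfl h) (fun _ h => absurd rfl h) ?_ ?_ ?_ ?_ <;>
      intro _ _ <;>
      simp only [fbN, mdQ, fbA, fbB, dx, dy, Matrix.cons_val_zero, Matrix.cons_val_one,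
        Matrix.cons_val, mul_one, one_mul, mul_zero, sub_zero, zero_sub, zero_mul]
    · rw [v3, v4]
      refine ⟨k 0 3 (by decide), k 0 4 (by decide), ?_⟩
      linear_combination (z 3 - z 4) * mul_inv_cancel₀ (h0 0)
    · rw [v3, v4]
      refine ⟨k 1 3 (by decide), k 1 4 (by decide), ?_⟩
      linear_combination (z 3 - z 4) * mul_inv_cancel₀ (h0 1)
    · refine ⟨k' _ h3, k' _ h4, ?_⟩
      linear_combination y * hξ + ((1 - ξ) * (z 2 - z 4) - (z 2 - z 3)) * hy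
    · rw [v3, v4]
      exact ⟨h0 3, h0 4, by ring⟩
    · exact ⟨by simp, by simp, by ring⟩
    · exact ⟨by simp, by simp, by ring⟩
    · rw [v3, v4]
      exact ⟨h0 3, h0 4, by ring⟩

theorem fbN_le_fbP {z : Fin 5 → K} {a b : Fin 2 → K} {la mu : K} (hz : z 3 ≠ z 4)
    (h0 : ∀ i, la + mu * z i ≠ 0) (ha : la + mu * a 0 ≠ 0) (hb : la + mu * b 1 ≠ 0) (p q : ℤ)
    (m : Ix → ℤ) : H0 p q (fbN z a b la mu 0 (la + mu * z 2)⁻¹) m ≤ H0 p q (fbP z a b la mu) m := by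
  refine H0_le fun l => Or.inr ⟨l, le_rfl, fbP_pt hz ha hb l, ?_⟩
  revert l
  refine ix_all ?_ ?_ ?_ ?_ ?_ ?_ ?_ ?_ ?_ <;> simp [fbN, fbP, dx, dy, h0, mul_comm]

theorem fbN_map {L : Type} [Field L] (g : K →+* L) (z : Fin 5 → K) (a b : Fin 2 → K)
    (la mu ξ y : K) (l : Ix) (j : Fin 4) : g (fbN z a b la mu ξ y l j) =
      fbN (fun i => g (z i)) (fun s => g (a s)) (fun s => g (b s)) (g la) (g mu) (g ξ) (g y) l j := by
  revert l
  refine ix_all ?_ ?_ ?_ ?_ ?_ ?_ ?_ ?_ ?_ <;> fin_cases j <;> simp [fbN, fbA, fbB]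

end Pool.Agent.Lib.MP_d03834_ag.Core
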