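import Mathlib

/-! Residue dynamics of a folded del Pezzo surface: flips of lines, the valuation invariant,
and the fact that no new root becomes effective. -/

set_option autoImplicit false

namespace Pool.Agent.Lib.MP_d03834_ag.Core

/-- a lattice with a set of lines and a set of roots -/
structure Lat (L : Type) [AddCommGroup L] where
  /-- the intersection form -/
  ip : L →+ L →+ ℤ
  /-- the lines -/
  Λ : Set L
  /-- the roots -/
  Φ : Set L
  symm : ∀ u w, ip u w = ip w u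
  self : ∀ g ∈ Λ, ip g g = -1
  nonneg : ∀ g ∈ Λ, ∀ h ∈ Λ, g ≠ h → 0 ≤ ip g h
  rsq : ∀ α ∈ Φ, ip α α = -2
  root : ∀ α ∈ Φ, ∀ b ∈ Λ, b + ip b α • α ∈ Λ

/-- a valued field with an involution which sends small elements to units -/
structure Invo (k Γ : Type) [Field k] [LinearOrderedCommGroupWithZero Γ] where
  /-- the valuation -/
  v : Valuation k Γ
  /-- the involution -/
  ι : k → k
  unit : ∀ z, z ≠ 0 → v z < 1 → v (ι z) = 1
  invol : ∀ z, z ≠ 0 → v z < 1 → ι (ι z) = z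

variable {L k Γ : Type} [AddCommGroup L] [Field k] [LinearOrderedCommGroupWithZero Γ]

/-- a character of the lattice -/
def IsCh (χ : L → k) : Prop := (∀ u w, χ (u + w) = χ u * χ w) ∧ ∀ u, χ u ≠ 0

theorem IsCh.zero {χ : L → k} (h : IsCh χ) : χ 0 = 1 := by
  have h1 := h.1 0 0
  rw [add_zero] at h1
  exact (mul_eq_left₀ (h.2 0)).1 h1.symm

theorem IsCh.sub {χ : L → k} (h : IsCh χ) (u w : L) : χ (u - w) = χ u / χ w := by
  rw [eq_div_iff (h.2 w), ← h.1, sub_add_cancel]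

theorem IsCh.zsmul {χ : L → k} (h : IsCh χ) (n : ℤ) (u : L) : χ (n • u) = χ u ^ n := by
  induction n using Int.induction_on with
  | zero => simp [h.zero]
  | succ n ih => rw [add_smul, one_smul, h.1, ih, zpow_add_one₀ (h.2 u)]
  | pred n ih => rw [sub_smul, one_smul, h.sub, ih, zpow_sub_one₀ (h.2 u), div_eq_mul_inv]

theorem IsCh.neg {χ : L → k} (h : IsCh χ) (u : L) : χ (-u) = (χ u)⁻¹ := by
  rw [← zero_sub, h.sub, h.zero, one_div]

namespace Lat

variable (T : Lat L) (I : Invo k Γ)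

/-- the reflection in a line -/
def refl (g x : L) : L := x + (2 * T.ip x g) • g

/-- the flip of a line, in the moving frame -/
def flip (g : L) (χ : L → k) : L → k := fun u => χ u * (χ g / I.ι (χ g)) ^ T.ip u g

/-- the value of a line which has been flipped -/
def Bk (z : k) : Prop := I.v z = 1 ∧ I.ι z ≠ 0 ∧ I.v (I.ι z) < 1 ∧ I.ι (I.ι z) = z

/-- the valuation invariant -/
structure J (χ : L → k) : Prop where
  ch : IsCh χ
  le : ∀ g ∈ T.Λ, I.v (χ g) ≤ 1
  orth : ∀ g ∈ T.Λ, ∀ h ∈ T.Λ, g ≠ h → Bk I (χ g) → Bk I (χ h) → T.ip g h = 0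

/-- states at distance n from a base state; E is the set of roots which may be effective -/
def P : ℕ → (L → k) → Set L → Prop
  | 0, χ, E => T.J I χ ∧ (∀ b ∈ T.Λ, ¬Bk I (χ b)) ∧ ∀ α ∈ T.Φ, χ α = 1 → α ∈ E ∨ -α ∈ E
  | n + 1, χ, E => T.J I χ ∧ (∃ b ∈ T.Λ, Bk I (χ b)) ∧
      ∀ b ∈ T.Λ, Bk I (χ b) → P n (T.flip I b χ) (T.refl b ⁻¹' E)

variable {T I}

theorem ip_refl (g x y : L) : T.ip (T.refl g x) y = T.ip x y + 2 * T.ip x g * T.ip g y := by
  simp [refl]

theorem refl_orth {g x : L} (h : T.ip x g = 0) : T.refl g x = x := by simp [refl, h]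

theorem refl_refl {g : L} (hg : g ∈ T.Λ) (x : L) : T.refl g (T.refl g x) = x := by
  have h : T.ip (T.refl g x) g = -T.ip x g := by rw [ip_refl, T.self g hg]; ring
  conv_lhs => rw [refl, h]
  rw [refl, add_assoc, ← add_smul]
  simp

theorem refl_comm {g h : L} (hgh : T.ip g h = 0) (x : L) :
    T.refl g (T.refl h x) = T.refl h (T.refl g x) := by
  have h1 : T.ip (T.refl h x) g = T.ip x g := by rw [ip_refl, T.symm h g, hgh]; ring
  have h2 : T.ip (T.refl g x) h = T.ip x h := by rw [ip_refl, hgh]; ring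
  conv_lhs => rw [refl, h1]
  conv_rhs => rw [refl, h2]
  simp only [refl]
  abel

theorem refl_neg (g x : L) : T.refl g (-x) = -T.refl g x := by
  simp only [refl, map_neg, AddMonoidHom.neg_apply, mul_neg, neg_smul, neg_add]

theorem refl_sub (g x y : L) : T.refl g (x - y) = T.refl g x - T.refl g y := by
  simp only [refl, map_sub, AddMonoidHom.sub_apply, mul_sub, sub_smul]
  abel

theorem refl_self {g : L} (hg : g ∈ T.Λ) : T.refl g g = -g := by
  rw [refl, T.self g hg]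
  simp only [mul_neg, mul_one, neg_smul]
  rw [two_smul]
  abel

theorem ip_refl_refl {g : L} (hg : g ∈ T.Λ) (x y : L) :
    T.ip (T.refl g x) (T.refl g y) = T.ip x y := by
  rw [ip_refl, T.symm x (T.refl g y), T.symm g (T.refl g y), ip_refl, ip_refl, T.self g hg,
    T.symm y x, T.symm g x]
  ring

theorem flip_orth {g u : L} (χ : L → k) (h : T.ip u g = 0) : T.flip I g χ u = χ u := by
  simp [flip, h]

theorem flip_self {g : L} (hg : g ∈ T.Λ) {χ : L → k} (h0 : χ g ≠ 0) :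
    T.flip I g χ g = I.ι (χ g) := by
  rw [flip, T.self g hg, zpow_neg_one, inv_div, mul_div_cancel₀ _ h0]

theorem flip_ch {g : L} {χ : L → k} (h : IsCh χ) (h0 : I.ι (χ g) ≠ 0) :
    IsCh (T.flip I g χ) := by
  have hr : χ g / I.ι (χ g) ≠ 0 := div_ne_zero (h.2 g) h0
  refine ⟨fun u w => ?_, fun u => mul_ne_zero (h.2 u) (zpow_ne_zero _ hr)⟩
  simp only [flip, map_add, AddMonoidHom.add_apply, h.1, zpow_add₀ hr]
  ring

theorem flip_flip {g : L} (hg : g ∈ T.Λ) {χ : L → k} (h0 : χ g ≠ 0) (h1 : I.ι (χ g) ≠ 0)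
    (h2 : I.ι (I.ι (χ g)) = χ g) : T.flip I g (T.flip I g χ) = χ := by
  funext u
  conv_lhs => rw [flip, flip_self hg h0, h2, flip]
  rw [mul_assoc, ← mul_zpow, div_mul_div_cancel₀ h1, div_self h0, one_zpow, mul_one]

theorem flip_comm {g h : L} (hgh : T.ip g h = 0) (χ : L → k) :
    T.flip I g (T.flip I h χ) = T.flip I h (T.flip I g χ) := by
  funext u
  conv_lhs => rw [flip, flip_orth χ hgh, flip]
  conv_rhs => rw [flip, flip_orth χ ((T.symm h g).trans hgh), flip]
  ring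

/-- a base state -/
theorem P.base {χ : L → k} {E : Set L} (h1 : IsCh χ) (h2 : ∀ g ∈ T.Λ, I.v (χ g) ≤ 1)
    (h3 : ∀ b ∈ T.Λ, ¬Bk I (χ b)) (h4 : ∀ α ∈ T.Φ, χ α = 1 → α ∈ E ∨ -α ∈ E) : T.P I 0 χ E :=
  ⟨⟨h1, h2, fun g hg _ _ _ h _ => absurd h (h3 g hg)⟩, h3, h4⟩

theorem P.j {n : ℕ} {χ : L → k} {E : Set L} (h : T.P I n χ E) : T.J I χ := by
  cases n <;> exact h.1

theorem v_flip {g : L} {χ : L → k} (h : IsCh χ) (hv : I.v (χ g) < 1) (u : L) :
    I.v (T.flip I g χ u) = I.v (χ u) * I.v (χ g) ^ T.ip u g := by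
  rw [flip, map_mul, map_zpow₀, map_div₀, I.unit _ (h.2 g) hv, div_one]

/-- a line of value a unit after a forward flip is the flipped line or an old one -/
theorem v_flip_one {g : L} (hg : g ∈ T.Λ) {χ : L → k} (h : T.J I χ) (hv : I.v (χ g) < 1) {l : L}
    (hl : l ∈ T.Λ) (hne : l ≠ g) :
    I.v (T.flip I g χ l) ≤ I.v (χ l) ∧
      (I.v (T.flip I g χ l) = 1 → T.ip l g = 0 ∧ I.v (χ l) = 1) := by
  have h0 : 0 < I.v (χ g) := by
    rw [zero_lt_iff, Valuation.ne_zero_iff]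
    exact h.ch.2 g
  have h1 := T.nonneg l hl g hg hne
  rw [v_flip h.ch hv]
  refine ⟨mul_le_of_le_one_right' (zpow_le_one₀ h0 hv.le h1), fun h2 => ?_⟩
  rcases h1.eq_or_lt with h3 | h3
  · rw [← h3, zpow_zero, mul_one] at h2
    exact ⟨h3.symm, h2⟩
  · exact absurd h2 (lt_of_le_of_lt (mul_le_of_le_one_left' (h.le l hl))
      (zpow_lt_one₀ h0 hv h3)).ne

theorem J.flip {g : L} (hg : g ∈ T.Λ) {χ : L → k} (h : T.J I χ) (hv : I.v (χ g) < 1) :
    T.J I (T.flip I g χ) := by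
  have hu := I.unit _ (h.ch.2 g) hv
  have h0 : I.ι (χ g) ≠ 0 := by
    rw [← I.v.ne_zero_iff, hu]
    exact one_ne_zero
  refine ⟨flip_ch h.ch h0, fun l hl => ?_, fun l hl l' hl' hne h1 h2 => ?_⟩
  · by_cases hlg : l = g
    · rw [hlg, flip_self hg (h.ch.2 g), hu]
    · exact (v_flip_one hg h hv hl hlg).1.trans (h.le l hl)
  · by_cases hlg : l = g
    · rw [hlg, T.symm]
      exact ((v_flip_one hg h hv hl' (fun e => hne (hlg.trans e.symm))).2 h2.1).1
    · by_cases hlg' : l' = g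
      · rw [hlg']
        exact ((v_flip_one hg h hv hl hlg).2 h1.1).1
      · rw [flip_orth χ ((v_flip_one hg h hv hl hlg).2 h1.1).1] at h1
        rw [flip_orth χ ((v_flip_one hg h hv hl' hlg').2 h2.1).1] at h2
        exact h.orth l hl l' hl' hne h1 h2

/-- Lemma F: a forward flip raises the distance by one -/
theorem P.flip {g : L} (hg : g ∈ T.Λ) : ∀ {n : ℕ} {χ : L → k} {E : Set L}, T.P I n χ E →
    I.v (χ g) < 1 → T.P I (n + 1) (T.flip I g χ) (T.refl g ⁻¹' E) := by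
  intro n
  induction n with
  | zero => ?_
  | succ n ih => ?_
  all_goals
    intro χ E h hv
    have hj := h.j
    have hu := I.unit _ (hj.ch.2 g) hv
    have hi := I.invol _ (hj.ch.2 g) hv
    have h0 : I.ι (χ g) ≠ 0 := by
      rw [← I.v.ne_zero_iff, hu]
      exact one_ne_zero
    refine ⟨hj.flip hg hv, ⟨g, hg, ?_⟩, fun b hb hbk => ?_⟩
    · rw [flip_self hg (hj.ch.2 g)]
      exact ⟨hu, by rw [hi]; exact hj.ch.2 g, by rw [hi]; exact hv, by rw [hi]⟩
    by_cases hbg : b = g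
    · have e : T.refl g ⁻¹' (T.refl g ⁻¹' E) = E := by
        ext x
        simp only [Set.mem_preimage, refl_refl hg]
      rw [hbg, flip_flip hg (hj.ch.2 g) h0 hi, e]
      exact h
    have h1 := ((v_flip_one hg hj hv hb hbg).2 hbk.1).1
    rw [flip_orth χ h1] at hbk
    first
      | exact absurd hbk (h.2.1 b hb)
      | have e : T.refl b ⁻¹' (T.refl g ⁻¹' E) = T.refl g ⁻¹' (T.refl b ⁻¹' E) := by
          ext x
          simp only [Set.mem_preimage, refl_comm h1]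
        rw [flip_comm h1, e]
        refine ih (h.2.2 b hb hbk) ?_
        rwa [flip_orth χ ((T.symm g b).trans h1)]

/-- a root of period one which meets a unit line is a difference of two unit lines -/
theorem root_unit {χ : L → k} (hj : T.J I χ) {α b : L} (hα : α ∈ T.Φ) (hb : b ∈ T.Λ)
    (h1 : χ α = 1) (hv : Bk I (χ b)) (h0 : T.ip α b ≠ 0) :
    ∃ l ∈ T.Λ, χ l = χ b ∧ T.ip l b = 0 ∧ (α = l - b ∨ α = b - l) := by
  have hl := T.root α hα b hb
  have h2 : χ (b + T.ip b α • α) = χ b := by rw [hj.ch.1, hj.ch.zsmul, h1, one_zpow, mul_one]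
  have h3 : b + T.ip b α • α ≠ b := fun e => by
    have h4 := congrArg (fun u => T.ip u α) e
    simp only [map_add, map_zsmul, AddMonoidHom.add_apply, AddMonoidHom.smul_apply,
      smul_eq_mul, T.rsq α hα, T.symm b α] at h4
    omega
  have h4 := hj.orth _ hl b hb h3 (by rwa [h2]) hv
  refine ⟨_, hl, h2, h4, ?_⟩
  simp only [map_add, map_zsmul, AddMonoidHom.add_apply, AddMonoidHom.smul_apply,
    smul_eq_mul, T.self b hb, T.symm b α] at h4
  rw [T.symm b α]
  rcases Int.eq_one_or_neg_one_of_mul_eq_one (by omega : T.ip α b * T.ip α b = 1) with h | h <;>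
    rw [h]
  · exact Or.inl (by simp)
  · exact Or.inr (by simp)

/-- Lemma R: no new root becomes effective -/
theorem P.root : ∀ {n : ℕ} {χ : L → k} {E : Set L}, T.P I n χ E →
    ∀ α ∈ T.Φ, χ α = 1 → α ∈ E ∨ -α ∈ E := by
  intro n
  induction n using Nat.strong_induction_on with
  | _ n ih => ?_
  intro χ E h α hα h1
  rcases n with _ | n
  · exact h.2.2 α hα h1
  obtain ⟨hj, ⟨b, hb, hbk⟩, hP⟩ := h
  have h2 := hP b hb hbk
  by_cases h3 : T.ip α b = 0
  · have h4 := ih n n.lt_succ_self h2 α hα (by rw [flip_orth χ h3, h1])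
    simpa only [Set.mem_preimage, refl_neg, refl_orth h3] using h4
  obtain ⟨l, hl, h5, h3, h4⟩ := root_unit hj hα hb h1 hbk h3
  have h3' : T.ip b l = 0 := (T.symm b l).trans h3
  have h6 : Bk I (T.flip I b χ l) := by rwa [flip_orth χ h3, h5]
  rcases n with _ | n
  · exact absurd h6 (h2.2.1 l hl)
  have h7 := h2.2.2 l hl h6
  have h8 : T.flip I l (T.flip I b χ) l = T.flip I l (T.flip I b χ) b := by
    rw [flip_self hl (h2.j.ch.2 l), flip_orth χ h3, flip_orth _ h3', flip_self hb (hj.ch.2 b), h5]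
  have h9 : T.refl b (T.refl l α) = -α := by
    rcases h4 with h4 | h4 <;>
      rw [h4, refl_sub, refl_sub, refl_self hl, refl_orth h3', refl_neg, refl_orth h3,
        refl_self hb] <;> abel
  have h10 := ih n (by omega) h7 α hα (by
    rcases h4 with h4 | h4 <;> rw [h4, h7.j.ch.sub, h8, div_self (h7.j.ch.2 _)])
  simp only [Set.mem_preimage, refl_neg, h9, neg_neg] at h10
  exact h10.symm

/-- an isometry which preserves the lines and the roots -/
structure Iso (T : Lat L) (w : L ≃+ L) : Prop where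
  ip : ∀ x y, T.ip (w x) (w y) = T.ip x y
  line : ∀ g, w g ∈ T.Λ ↔ g ∈ T.Λ
  root : ∀ α, w α ∈ T.Φ ↔ α ∈ T.Φ

theorem J.comp {w : L ≃+ L} (hw : T.Iso w) {χ : L → k} (h : T.J I χ) : T.J I (χ ∘ w) :=
  ⟨⟨fun u x => by simp [h.ch.1], fun u => h.ch.2 _⟩, fun g hg => h.le _ ((hw.line g).2 hg),
    fun g hg l hl hne h1 h2 => (hw.ip g l).symm.trans
      (h.orth _ ((hw.line g).2 hg) _ ((hw.line l).2 hl) (w.injective.ne hne) h1 h2)⟩

/-- Lemma W: change of the marking -/
theorem P.comp {w : L ≃+ L} (hw : T.Iso w) : ∀ {n : ℕ} {χ : L → k} {E : Set L}, T.P I n χ E →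
    T.P I n (χ ∘ w) (w ⁻¹' E) := by
  intro n
  induction n with
  | zero =>
    intro χ E h
    refine ⟨h.1.comp hw, fun b hb => h.2.1 _ ((hw.line b).2 hb), fun α hα h1 => ?_⟩
    simpa only [Set.mem_preimage, map_neg] using h.2.2 _ ((hw.root α).2 hα) h1
  | succ n ih =>
    intro χ E h
    obtain ⟨hj, ⟨b, hb, hbk⟩, hP⟩ := h
    refine ⟨hj.comp hw, ⟨w.symm b, (hw.line _).1 (by simpa using hb), by simpa using hbk⟩,
      fun c hc hck => ?_⟩
    have h1 := ih (hP (w c) ((hw.line c).2 hc) hck)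
    have e1 : T.flip I (w c) χ ∘ w = T.flip I c (χ ∘ w) := by
      funext u
      simp [Lat.flip, hw.ip]
    have e2 : w ⁻¹' (T.refl (w c) ⁻¹' E) = T.refl c ⁻¹' (w ⁻¹' E) := by
      ext x
      simp [refl, hw.ip]
    rwa [e1, e2] at h1

/-- the class x is not negative on the lines whose value is a unit -/
def Pos (T : Lat L) (I : Invo k Γ) (χ : L → k) (x : L) : Prop :=
  ∀ g ∈ T.Λ, I.v (χ g) = 1 → 0 ≤ T.ip x g

theorem Pos.small {χ : L → k} {x g : L} (hj : T.J I χ) (h : T.Pos I χ x) (hg : g ∈ T.Λ)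
    (hx : T.ip x g < 0) : I.v (χ g) < 1 :=
  lt_of_le_of_ne (hj.le g hg) fun e => absurd (h g hg e) (not_le.2 hx)

theorem Pos.flip {χ : L → k} {x g : L} (hj : T.J I χ) (h : T.Pos I χ x) (hg : g ∈ T.Λ)
    (hv : I.v (χ g) < 1) (hx : T.ip x g ≤ 0) : T.Pos I (T.flip I g χ) (T.refl g x) := by
  intro l hl h1
  by_cases hlg : l = g
  · rw [hlg, ip_refl, T.self g hg]
    omega
  · obtain ⟨h2, h3⟩ := (v_flip_one hg hj hv hl hlg).2 h1
    rw [ip_refl, T.symm g l, h2]
    simpa using h l hl h3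

theorem Pos.comp {w : L ≃+ L} (hw : T.Iso w) {χ : L → k} {x : L} (h : T.Pos I χ x) :
    T.Pos I (χ ∘ w) (w.symm x) := by
  intro g hg h1
  rw [← hw.ip, w.apply_symm_apply]
  exact h _ ((hw.line g).2 hg) h1

/-- The descent. The class a has degree one on the lines. -/
theorem descent (a : L) (ha : ∀ g ∈ T.Λ, T.ip a g = 1) (Q : (L → k) → Set L → L → Prop)
    (neg : ∀ n χ E x, T.P I n χ E → T.ip x a < 0 → Q χ E x)
    (nef : ∀ n χ E x, T.P I n χ E → (∀ g ∈ T.Λ, 0 ≤ T.ip x g) → Q χ E x)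
    (step : ∀ n χ E x, ∀ g ∈ T.Λ, T.P I n χ E → I.v (χ g) < 1 → T.ip x g < 0 →
      Q (T.flip I g χ) (T.refl g ⁻¹' E) (T.refl g x) → Q χ E x)
    {n : ℕ} {χ : L → k} {E : Set L} {x : L} (h : T.P I n χ E) (hx : T.Pos I χ x) : Q χ E x := by
  generalize hN : (T.ip x a + 1).toNat = N
  induction N using Nat.strong_induction_on generalizing n χ E x with
  | _ N ih => ?_
  by_cases h1 : T.ip x a < 0
  · exact neg n χ E x h h1
  by_cases h2 : ∀ g ∈ T.Λ, 0 ≤ T.ip x g
  · exact nef n χ E x h h2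
  push Not at h2
  obtain ⟨g, hg, h2⟩ := h2
  have hv := hx.small h.j hg h2
  refine step n χ E x g hg h hv h2 (ih _ ?_ (h.flip hg hv) (hx.flip h.j hg hv h2.le) rfl)
  rw [ip_refl, T.symm g a, ha g hg]
  omega

end Lat

/-- the involution z ↦ 1 - z -/
def Invo.one (v : Valuation k Γ) : Invo k Γ where
  v := v
  ι := fun z => 1 - z
  unit := fun _ _ h => v.map_one_sub_of_lt h
  invol := fun _ _ _ => sub_sub_cancel _ _

end Pool.Agent.Lib.MP_d03834_ag.Core
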