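import Mathlib

/-! Fields of small cardinality embed in the complex numbers; base change of spaces of
polynomials along a homomorphism of fields. -/

set_option autoImplicit false

namespace Pool.Agent.Lib.MP_d03834_ag.Core

open MvPolynomial Module

/-- the cardinality is at most the continuum -/
def Sml (K : Type) : Prop := Cardinal.mk K ≤ Cardinal.continuum

theorem sml_complex : Sml ℂ := Cardinal.mk_complex.le

theorem sml_of_countable (K : Type) [Countable K] : Sml K :=
  Cardinal.mk_le_aleph0.trans Cardinal.aleph0_le_continuum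

theorem Sml.of_inj {K L : Type} (h : Sml L) (f : K → L) (hf : Function.Injective f) : Sml K :=
  (Cardinal.mk_le_of_injective hf).trans h

theorem Sml.frac {R : Type} [CommRing R] (h : Sml R) (L : Type) [CommRing L] [Algebra R L]
    [IsFractionRing R L] : Sml L := (IsFractionRing.cardinalMk R L).le.trans h

theorem Sml.seq {R : Type} (h : Sml R) : Sml (ℕ → R) := by
  have e : Cardinal.mk (ℕ → R) = Cardinal.mk R ^ Cardinal.aleph0 := by
    rw [← Cardinal.mk_nat, Cardinal.power_def]
  rw [Sml, e, ← Cardinal.continuum_power_aleph0]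
  exact Cardinal.power_le_power_right h

theorem Sml.ps {R : Type} [CommRing R] (h : Sml R) : Sml (PowerSeries R) :=
  h.seq.of_inj (fun F n => PowerSeries.coeff n F) fun _ _ e => PowerSeries.ext (congrFun e)

theorem Sml.poly {R : Type} [CommRing R] (h : Sml R) : Sml (Polynomial R) :=
  h.seq.of_inj (fun F n => F.coeff n) fun _ _ e => Polynomial.ext (congrFun e)

theorem Sml.mv {R σ : Type} [CommRing R] (h : Sml R) (h' : Sml σ) : Sml (MvPolynomial σ R) :=
  MvPolynomial.cardinalMk_le_max.trans (sup_le (sup_le h h') Cardinal.aleph0_le_continuum)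

theorem Sml.alg {R : Type} [Field R] (h : Sml R) (L : Type) [Field L] [Algebra R L]
    [Algebra.IsAlgebraic R L] : Sml L :=
  (Algebra.IsAlgebraic.cardinalMk_le_max R L).trans (max_le h Cardinal.aleph0_le_continuum)

theorem Sml.ratFunc {R : Type} [Field R] (h : Sml R) : Sml (RatFunc R) := h.poly.frac _

theorem Sml.laurent {R : Type} [Field R] (h : Sml R) : Sml (LaurentSeries R) := h.ps.frac _

/-- a small field of characteristic zero embeds in the complex numbers -/
theorem exists_emb (K : Type) [Field K] [CharZero K] (h : Sml K) : Nonempty (K →+* ℂ) := by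
  let A := MvPolynomial ℂ K
  let B := FractionRing A
  let L := AlgebraicClosure B
  let g : A →+* L := (algebraMap B L).comp (algebraMap A B)
  have hg : Function.Injective g :=
    (algebraMap B L).injective.comp (IsFractionRing.injective A B)
  have : CharZero L := (RingHom.charZero_iff (ϕ := g.comp C) (g.comp C).injective).1 inferInstance
  have h1 : Cardinal.mk L ≤ Cardinal.continuum := ((h.mv sml_complex).frac B).alg L
  have h2 : Cardinal.continuum ≤ Cardinal.mk L := by
    rw [← Cardinal.mk_complex]
    exact Cardinal.mk_le_of_injective (hg.comp (X_injective (σ := ℂ) (R := K)))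
  obtain ⟨e⟩ := IsAlgClosed.ringEquiv_of_equiv_of_charZero (K := L) (L := ℂ)
    (Cardinal.aleph0_lt_continuum.trans_le h2)
    (Cardinal.eq.1 ((le_antisymm h1 h2).trans Cardinal.mk_complex.symm))
  exact ⟨e.toRingHom.comp (g.comp C)⟩

/-- functionals on L which are linear over K -/
structure Fn {K L : Type} [CommRing K] [CommRing L] (f : K →+* L) where
  /-- the additive map -/
  fn : L →+ K
  lin : ∀ a x, fn (f a * x) = a * fn x

section ring
variable {K L σ τ : Type} [CommRing K] [CommRing L] {f : K →+* L} (l : Fn f)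

/-- the functional applied to the coefficients -/
noncomputable def Fn.ap (F : MvPolynomial σ L) : MvPolynomial σ K :=
  ∑ μ ∈ F.support, monomial μ (l.fn (coeff μ F))

theorem Fn.coeff_ap (μ : σ →₀ ℕ) (F : MvPolynomial σ L) :
    coeff μ (l.ap F) = l.fn (coeff μ F) := by
  classical
  rw [Fn.ap, coeff_sum, Finset.sum_eq_single μ]
  · rw [coeff_monomial, if_pos rfl]
  · intro ν _ h
    rw [coeff_monomial, if_neg h]
  · intro h
    rw [notMem_support_iff.1 h, map_zero, map_zero, coeff_zero]

theorem Fn.ap_zero : l.ap (0 : MvPolynomial σ L) = 0 := by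
  ext μ
  rw [l.coeff_ap, coeff_zero, coeff_zero, map_zero]

theorem Fn.ap_add (F G : MvPolynomial σ L) : l.ap (F + G) = l.ap F + l.ap G := by
  ext μ
  rw [coeff_add, l.coeff_ap, l.coeff_ap, l.coeff_ap, coeff_add, map_add]

theorem Fn.ap_mul (G : MvPolynomial σ K) (F : MvPolynomial σ L) :
    l.ap (map f G * F) = G * l.ap F := by
  classical
  ext μ
  rw [l.coeff_ap, coeff_mul, coeff_mul, map_sum]
  exact Finset.sum_congr rfl fun x _ => by rw [coeff_map, l.lin, l.coeff_ap]

theorem Fn.ap_C (c : L) : l.ap (C c : MvPolynomial σ L) = C (l.fn c) := by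
  classical
  ext μ
  rw [l.coeff_ap, coeff_C, coeff_C]
  split_ifs
  · rfl
  · exact map_zero _

/-- a coefficient which vanishes stays zero -/
theorem Fn.ap_ne {μ : σ →₀ ℕ} {F : MvPolynomial σ L} (h : coeff μ (l.ap F) ≠ 0) :
    coeff μ F ≠ 0 := fun e => h (by rw [l.coeff_ap, e, map_zero])

theorem Fn.ap_support (F : MvPolynomial σ L) : (l.ap F).support ⊆ F.support :=
  fun _ h => mem_support_iff.2 (l.ap_ne (mem_support_iff.1 h))

theorem Fn.ap_wh {M : Type} [AddCommMonoid M] {w : σ → M} {n : M} {F : MvPolynomial σ L}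
    (h : IsWeightedHomogeneous w F n) : IsWeightedHomogeneous w (l.ap F) n :=
  fun _ hμ => h (l.ap_ne hμ)

theorem Fn.ap_hom {n : ℕ} {F : MvPolynomial σ L} (h : F.IsHomogeneous n) :
    (l.ap F).IsHomogeneous n := l.ap_wh h

/-- ideals defined over K -/
theorem Fn.ap_ideal {I : Ideal (MvPolynomial σ K)} {F : MvPolynomial σ L}
    (h : F ∈ I.map (map f)) : l.ap F ∈ I := by
  have key : ∀ G, l.ap (F * G) ∈ I := by
    refine Submodule.span_induction (p := fun F _ => ∀ G, l.ap (F * G) ∈ I) ?_ ?_ ?_ ?_ h
    · rintro _ ⟨x, hx, rfl⟩ G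
      rw [l.ap_mul]
      exact Ideal.mul_mem_right _ _ hx
    · intro G
      rw [zero_mul, l.ap_zero]
      exact I.zero_mem
    · intro x y _ _ hx hy G
      rw [add_mul, l.ap_add]
      exact I.add_mem (hx G) (hy G)
    · intro a x _ hx G
      rw [smul_eq_mul, mul_comm a, mul_assoc]
      exact hx _
  simpa using key 1

theorem Fn.ap_pow {I : Ideal (MvPolynomial σ K)} {J : Ideal (MvPolynomial σ L)}
    (hJ : J ≤ I.map (map f)) {m : ℕ} {F : MvPolynomial σ L} (h : F ∈ J ^ m) : l.ap F ∈ I ^ m :=
  l.ap_ideal (by
    rw [Ideal.map_pow]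
    exact Ideal.pow_right_mono hJ m h)

theorem Fn.ap_dvd {G : MvPolynomial σ K} {F : MvPolynomial σ L} (h : map f G ∣ F) :
    G ∣ l.ap F := by
  obtain ⟨H, rfl⟩ := h
  exact ⟨_, l.ap_mul G H⟩

/-- substitutions defined over K -/
theorem Fn.ap_aeval (g : σ → MvPolynomial τ K) (F : MvPolynomial σ L) :
    l.ap (aeval (fun i => map f (g i)) F) = aeval g (l.ap F) := by
  induction F using MvPolynomial.induction_on with
  | C a => rw [l.ap_C, algHom_C, algHom_C, algebraMap_eq, algebraMap_eq, l.ap_C]
  | add a b ha hb => rw [map_add, l.ap_add, l.ap_add, map_add, ha, hb]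
  | mul_X a i ha =>
    have e : a * X i = map f (X i) * a := by rw [map_X, mul_comm]
    rw [map_mul, aeval_X, mul_comm, l.ap_mul, ha, e, l.ap_mul, map_mul, aeval_X]

/-- the ideal of a point is defined over K -/
theorem ker_eval_le (f : K →+* L) (v : σ → K) :
    RingHom.ker (eval fun i => f (v i)) ≤ (RingHom.ker (eval v)).map (map f) := by
  intro F hF
  have key : ∀ G : MvPolynomial σ L,
      G - C (eval (fun i => f (v i)) G) ∈ (RingHom.ker (eval v)).map (map f) := by
    intro G
    induction G using MvPolynomial.induction_on with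
    | C a => simp
    | add a b ha hb =>
      have := Ideal.add_mem _ ha hb
      rwa [show a - C (eval (fun i => f (v i)) a) + (b - C (eval (fun i => f (v i)) b)) =
        a + b - C (eval (fun i => f (v i)) (a + b)) by rw [map_add, map_add]; ring] at this
    | mul_X a i ha =>
      have h1 : (X i - C (f (v i)) : MvPolynomial σ L) ∈ (RingHom.ker (eval v)).map (map f) := by
        have := Ideal.mem_map_of_mem (map f)
          (show (X i - C (v i) : MvPolynomial σ K) ∈ RingHom.ker (eval v) by
            simp [RingHom.mem_ker])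
        simpa using this
      have := Ideal.add_mem _ (Ideal.mul_mem_right (X i) _ ha)
        (Ideal.mul_mem_left _ (C (eval (fun i => f (v i)) a)) h1)
      rwa [show (a - C (eval (fun i => f (v i)) a)) * X i +
        C (eval (fun i => f (v i)) a) * (X i - C (f (v i))) =
        a * X i - C (eval (fun i => f (v i)) (a * X i)) by
          rw [map_mul, eval_X, map_mul]; ring] at this
  have := key F
  rwa [RingHom.mem_ker.1 hF, map_zero, sub_zero] at this

theorem Fn.ap_ker {v : σ → K} {m : ℕ} {F : MvPolynomial σ L}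
    (h : F ∈ RingHom.ker (eval fun i => f (v i)) ^ m) : l.ap F ∈ RingHom.ker (eval v) ^ m :=
  l.ap_pow (ker_eval_le f v) h

end ring

section field
variable {K L σ : Type} [Field K] [Field L] (f : K →+* L)

/-- a polynomial is a combination of its shadows -/
theorem bc_span (S : Submodule L (MvPolynomial σ L)) (F : MvPolynomial σ L)
    (h : ∀ l : Fn f, map f (l.ap F) ∈ S) : F ∈ S := by
  classical
  let _ := f.toAlgebra
  let b := Basis.ofVectorSpace K L
  let l : Basis.ofVectorSpaceIndex K L → Fn f := fun j =>
    ⟨(b.coord j).toAddMonoidHom, fun a x => (b.coord j).map_smul a x⟩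
  have e : F = ∑ j ∈ F.support.biUnion fun μ => (b.repr (coeff μ F)).support,
      b j • map f ((l j).ap F) := by
    ext μ
    rw [coeff_sum]
    simp only [coeff_smul, coeff_map, Fn.coeff_ap]
    by_cases hμ : μ ∈ F.support
    · conv_lhs => rw [← b.linearCombination_repr (coeff μ F), Finsupp.linearCombination_apply,
        Finsupp.sum_of_support_subset _ (Finset.subset_biUnion_of_mem
          (fun μ => (b.repr (coeff μ F)).support) hμ) (fun i a => a • b i)
          (fun _ _ => zero_smul _ _)]
      exact Finset.sum_congr rfl fun j _ => mul_comm _ _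
    · simp [notMem_support_iff.1 hμ]
  rw [e]
  exact S.sum_mem fun j _ => S.smul_mem _ (h _)

/-- base change -/
theorem bc_le (W : Submodule K (MvPolynomial σ K)) [FiniteDimensional K W]
    (W' : Submodule L (MvPolynomial σ L)) (h : ∀ l : Fn f, ∀ F ∈ W', l.ap F ∈ W) :
    FiniteDimensional L W' ∧ finrank L W' ≤ finrank K W := by
  classical
  let w := finBasis K W
  let S := Submodule.span L (Set.range fun i => map f (w i : MvPolynomial σ K))
  have h1 : W' ≤ S := fun F hF => bc_span f S F fun l => by
    have e := congrArg Subtype.val (w.sum_repr ⟨_, h l F hF⟩)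
    simp only [AddSubmonoidClass.coe_finsetSum, SetLike.val_smul] at e
    rw [← e, map_sum]
    refine S.sum_mem fun i _ => ?_
    rw [smul_eq_C_mul, map_mul, map_C, ← smul_eq_C_mul]
    exact S.smul_mem _ (Submodule.subset_span ⟨i, rfl⟩)
  have : FiniteDimensional L S := FiniteDimensional.span_of_finite L (Set.finite_range _)
  exact ⟨Submodule.finiteDimensional_of_le h1, (Submodule.finrank_mono h1).trans
    ((finrank_range_le_card _).trans (Fintype.card_fin _).le)⟩

/-- base change of an emptiness statement -/
theorem bc_zero {F : MvPolynomial σ L} (h : ∀ l : Fn f, l.ap F = 0) : F = 0 :=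
  bc_span f ⊥ F fun l => by
    rw [h l, map_zero]
    exact Submodule.zero_mem _

end field

end Pool.Agent.Lib.MP_d03834_ag.Core
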