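import Pool.Agent.Lib.MP_d03834_ag.Core.Emb
import Pool.Agent.Lib.MP_d03834_ag.Core.Bi

/-! Base change in the chart of the product of two projective lines. -/

set_option autoImplicit false

namespace Pool.Agent.Lib.MP_d03834_ag.Core

open MvPolynomial Module

theorem pid_le_map {K L : Type} [CommRing K] [CommRing L] (f : K →+* L) (P : Fin 4 → K) :
    pid (fun c => f (P c)) ≤ (pid P).map (map f) := by
  refine pid_le ?_ ?_
  · have := Ideal.mem_map_of_mem (map f) (lx_mem P)
    simpa [lx] using this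
  · have := Ideal.mem_map_of_mem (map f) (ly_mem P)
    simpa [ly] using this

theorem Fn.ap_bih {K L : Type} [CommRing K] [CommRing L] {f : K →+* L} (l : Fn f) {p q : ℤ}
    {F : Cx L} (h : Bih p q F) : Bih p q (l.ap F) := l.ap_wh h

theorem Fn.ap_pid {K L : Type} [CommRing K] [CommRing L] {f : K →+* L} (l : Fn f)
    {P : Fin 4 → K} {m : ℕ} {F : Cx L} (h : F ∈ pid (fun c => f (P c)) ^ m) :
    l.ap F ∈ pid P ^ m := l.ap_pow (pid_le_map f P) h

theorem Fn.ap_H0 {K L ι : Type} [CommRing K] [CommRing L] {f : K →+* L} (l : Fn f) {p q : ℤ}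
    {P : ι → Fin 4 → K} {m : ι → ℤ} {F : Cx L} (h : F ∈ H0 p q (fun i c => f (P i c)) m) :
    l.ap F ∈ H0 p q P m :=
  mem_H0.2 ⟨l.ap_bih (mem_H0.1 h).1, fun i => l.ap_pid ((mem_H0.1 h).2 i)⟩

/-- the dimension does not grow under an extension of the field -/
theorem H0_bc {K L ι : Type} [Field K] [Field L] (f : K →+* L) (p q : ℤ) (P : ι → Fin 4 → K)
    (m : ι → ℤ) : finrank L (H0 p q (fun i c => f (P i c)) m) ≤ finrank K (H0 p q P m) :=
  (bc_le f _ _ fun l _ h => l.ap_H0 h).2

end Pool.Agent.Lib.MP_d03834_ag.Core
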