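import Pool.Agent.Lib.MP_d03834_ag.Core.BiEnd

/-! The arithmetic of the last step, for an abstract dimension function. -/

set_option autoImplicit false

namespace Pool.Agent.Lib.MP_d03834_ag.Core

open End

/-- The function h is peeled along the line and the parabola; r is bounded by the two counts. -/
theorem end_abs (h : ℕ → (Fin 3 → ℕ) → (Fin 5 → ℕ) → ℕ) (hz : ∀ N p m i, N ≤ m i → h N p m = 0)
    (pF : ∀ N p m, h N p m ≤ h (N - 1) (fun a => p a - 1) m + (N - ∑ a, p a))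
    (pG : ∀ N p m, h N p m ≤ h (N - 2) p (fun i => m i - 1) + (2 * N - 1 - ∑ i, m i))
    {u : CL} (hu : Dmn u) (h0 : 0 < cip u u) {ε : ℤ} (hε : ε = 0 ∨ ε = 1) (r : ℕ)
    (lim : ∀ (φ a p μ0 μ1 N : ℕ) (m : Fin 5 → ℕ), φ ≤ 1 → N = μ0 + μ1 + 2 * a + p + φ + 1 →
      dgx ε u = (μ0 + μ1 + 2 * a + φ : ℕ) → dgy ε u = (μ0 + μ1 + 2 * a + p : ℕ) →
      (∀ i, mlt ε u (.inl i) = m i) → mlt ε u (.inr (.inl 0)) = a →
      mlt ε u (.inr (.inl 1)) = (μ0 + μ1 + a : ℕ) → mlt ε u (.inr (.inr 0)) = (μ0 + a : ℕ) →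
      mlt ε u (.inr (.inr 1)) = (μ1 + a : ℕ) →
      (∀ c, N - φ - ∑ l, ![p, μ0, μ1] l ≤ 2 * c →
        r ≤ h (N - 1) (fun l => ![p, μ0, μ1] l - 1) m + c) ∧
      ∀ c, N - 1 - ∑ l, ![p, μ0, μ1] l ≤ 2 * c →
        r ≤ h (N - 3) (fun l => ![p, μ0, μ1] l - 1) (fun i => m i - 1) + (c - 1) +
          (2 * N - 1 - φ - ∑ i, m i)) : (r : ℤ) ≤ 1 + cip u u / 2 := by
  obtain ⟨⟨n, J⟩, m, d⟩ := u
  obtain ⟨u1, u2, u3, u4⟩ := hu
  simp only at u1 u2 u3 u4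
  let σ := Tuple.sort m
  have mo : Monotone (m ∘ σ) := Tuple.monotone_sort m
  have m0 : m (σ 0) ≤ m (σ 1) := mo (by decide : (0 : Fin 5) ≤ 1)
  have m1 : m (σ 1) ≤ m (σ 2) := mo (by decide : (1 : Fin 5) ≤ 2)
  have m2 : m (σ 2) ≤ m (σ 3) := mo (by decide : (2 : Fin 5) ≤ 3)
  have m3 : m (σ 3) ≤ m (σ 4) := mo (by decide : (3 : Fin 5) ≤ 4)
  have m4 := u2 (σ 3) (σ 4) (σ.injective.ne (by decide))
  have m5 : ∀ i, m (σ 0) ≤ m i := fun i => by
    simpa using mo (Fin.zero_le (σ.symm i))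
  rw [← Equiv.sum_comp σ, Fin.sum_univ_five] at u1
  have e : cip ((n, J), m, d) ((n, J), m, d) = J * J - (J - n) * (J - n) - d 0 * d 0 - d 1 * d 1 -
      (m (σ 0) * m (σ 0) + m (σ 1) * m (σ 1) + m (σ 2) * m (σ 2) + m (σ 3) * m (σ 3) +
        m (σ 4) * m (σ 4)) := by
    simp only [cip]
    rw [← Equiv.sum_comp σ, Fin.sum_univ_five, Fin.sum_univ_two]
    ring
  have d0 := u3 0
  have d1 := u3 1
  have d2 := u4 0
  have d3 := u4 1
  have m6 : 1 ≤ m (σ 0) := by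
    by_contra hlt
    have : m (σ 0) = 0 ∧ m (σ 1) = m (σ 4) ∧ m (σ 2) = m (σ 4) ∧ m (σ 3) = m (σ 4) ∧ d 0 = 0 ∧
      d 1 = 0 ∧ n = 2 * m (σ 4) ∧ J = 2 * m (σ 4) := by omega
    obtain ⟨e0, e1, e2, e3, e4, e5, e6, e7⟩ := this
    rw [e, e0, e1, e2, e3, e4, e5, e6, e7] at h0
    nlinarith
  obtain ⟨b, hb⟩ : ∃ b : Fin 5 → ℕ, ∀ i, m i = b i + 1 :=
    ⟨fun i => (m i - 1).toNat, fun i => by have := m5 i; beta_reduce; omega⟩
  obtain ⟨μ0, h1⟩ := Int.eq_ofNat_of_zero_le d2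
  obtain ⟨μ1, h2⟩ := Int.eq_ofNat_of_zero_le d3
  obtain ⟨p, h3⟩ := Int.eq_ofNat_of_zero_le (d2.trans d0)
  obtain ⟨φ, h4⟩ := Int.eq_ofNat_of_zero_le (Int.emod_nonneg (n + d 0 + d 1) two_ne_zero)
  obtain ⟨a, h5⟩ := Int.eq_ofNat_of_zero_le (by omega : 0 ≤ (n - d 0 - d 1) / 2 - 1)
  have q0 := hb (σ 0)
  have q1 := hb (σ 1)
  have q2 := hb (σ 2)
  have q3 := hb (σ 3)
  have q4 := hb (σ 4)
  have eJ : J = μ0 + μ1 + 2 * a + p + φ + 2 := by omega
  have en : n = μ0 + μ1 + 2 * a + φ + 2 := by omega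
  have eb : b (σ 0) + b (σ 1) + b (σ 2) + b (σ 3) + b (σ 4) + 5 =
    2 * (μ0 + μ1 + 2 * a + p + φ + 2) := by omega
  have key := num (fun N p m => h N p (m ∘ σ.symm)) (fun N p m g => hz N p _ (σ 4) (by simpa using g))
    (fun N p m => pF N p _) (fun N p m => by
      have := pG N p (m ∘ σ.symm)
      rwa [show ∑ i, (m ∘ σ.symm) i = ∑ i, m i from Equiv.sum_comp σ.symm m] at this)
    (μ0 + μ1 + 2 * a + p + φ) (fun r => ![p, μ0, μ1] r - 1) (b ∘ σ) (by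
      simp only [Pl, Function.comp_apply, Matrix.cons_val_zero, Matrix.cons_val_one,
        Matrix.cons_val]
      omega)
  rw [show (b ∘ σ) ∘ σ.symm = b from funext fun i => by simp] at key
  have hk : r ≤ h (μ0 + μ1 + 2 * a + p + φ) (fun r => ![p, μ0, μ1] r - 1) b + (a + 1) := by
    rcases hε with rfl | rfl
    · refine ((lim φ (a + 1) p μ0 μ1 _ (fun i => b i + 1) (by omega) rfl (by simp only [dgx]; omega)
        (by simp only [dgy, par]; omega) (fun i => by have := hb i; simp only [mlt]; omega)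
        (by simp [mlt]; omega) (by simp [mlt]; omega) (by simp [mlt]; omega)
        (by simp [mlt]; omega)).2 (a + 1 + φ) (by simp [Fin.sum_univ_three]; omega)).trans ?_
      rw [← Equiv.sum_comp σ, Fin.sum_univ_five, show μ0 + μ1 + 2 * (a + 1) + p + φ + 1 - 3 =
        μ0 + μ1 + 2 * a + p + φ by omega]
      rw [show (fun i => b i + 1 - 1) = b from rfl]
      omega
    · exact (lim φ a p μ0 μ1 _ b (by omega) rfl (by simp only [dgx]; omega)
        (by simp only [dgy, par]; omega) (fun i => by have := hb i; simp only [mlt]; omega)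
        (by simp [mlt]; omega) (by simp [mlt]; omega) (by simp [mlt]; omega)
        (by simp [mlt]; omega)).1 (a + 1) (by simp [Fin.sum_univ_three]; omega)
  have h6 := end_ar (p := p) (μ0 := μ0) (μ1 := μ1) (b0 := b (σ 0)) (b1 := b (σ 1))
    (b2 := b (σ 2)) (b3 := b (σ 3)) (b4 := b (σ 4)) key eb eJ
  rw [← h3, ← h1, ← h2, ← q0, ← q1, ← q2, ← q3, ← q4, ← e] at h6
  have h7 := Int.ofNat_le.2 hk
  push_cast at h7
  have h8 := Int.natCast_nonneg φ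
  rw [← sub_le_iff_le_add', Int.le_ediv_iff_mul_le two_pos]
  linarith

end Pool.Agent.Lib.MP_d03834_ag.Core
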