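import Pool.Agent.Lib.MP_d03834_ag.Core.BiEnd
import Pool.Agent.Lib.MP_d03834_ag.Core.ShStart

/-! The last step of the descent for honest points. -/

set_option autoImplicit false

namespace Pool.Agent.Lib.MP_d03834_ag.Core

variable {O k K : Type} [CommRing O] [IsDomain O] [ValuationRing O] [Field k] [Field K]
  [Algebra O K] [IsFractionRing O K]

theorem endH0 (A : Arc O k) : EndH A K 0 := fun c _ h1 h2 h3 => end_count A c h1 h2 h3 (.inl rfl)

theorem endH1 (A : Arc O k) : EndH A K 1 := fun c _ h1 h2 h3 => end_count A c h1 h2 h3 (.inr rfl)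

end Pool.Agent.Lib.MP_d03834_ag.Core
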