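import Pool.Agent.Lib.MP_d03834_ag.Core.ClDefs
import Pool.Agent.Lib.MP_d03834_ag.Core.ShStart

/-! Existence of the exact curve through the five free points. -/

set_option autoImplicit false

namespace Pool.Agent.Lib.MP_d03834_ag.Core

variable {O k : Type} [CommRing O] [Field k] {A : Arc O k}

/-- the linear system of the curve has no kernel over the residue field -/
theorem exq_ker {z η : Fin 5 → k} {Q0 Q1 Q2 : k} (h0 : ∀ i, z i ≠ 0)
    (hc : ∀ i, η i * z i = Q0 + Q1 * z i + Q2 * z i ^ 2) (q0 : Q0 ≠ 0) (q2 : Q2 ≠ 0)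
    (hz : Function.Injective z) (v : Fin 5 → k)
    (hv : ∀ l, v 0 + v 1 * z l + v 2 * z l ^ 2 = η l * (v 3 + v 4 * z l ^ 2)) : v = 0 := by
  have hw := Matrix.eq_zero_of_forall_index_sum_mul_pow_eq_zero (v := ![-Q0 * v 3, v 0 - Q1 * v 3,
    v 1 - Q2 * v 3 - Q0 * v 4, v 2 - Q1 * v 4, -Q2 * v 4]) hz (fun l => by
      simp only [Fin.sum_univ_five, Matrix.cons_val]
      have e0 : ((0 : Fin 5) : ℕ) = 0 := rfl
      have e1 : ((1 : Fin 5) : ℕ) = 1 := rfl
      have e2 : ((2 : Fin 5) : ℕ) = 2 := rfl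
      have e3 : ((3 : Fin 5) : ℕ) = 3 := rfl
      have e4 : ((4 : Fin 5) : ℕ) = 4 := rfl
      rw [e0, e1, e2, e3, e4]
      linear_combination z l * hv l + (v 3 + v 4 * z l ^ 2) * hc l)
  have w0 : -Q0 * v 3 = 0 := congrFun hw 0
  have w1 : v 0 - Q1 * v 3 = 0 := congrFun hw 1
  have w2 : v 1 - Q2 * v 3 - Q0 * v 4 = 0 := congrFun hw 2
  have w3 : v 2 - Q1 * v 4 = 0 := congrFun hw 3
  have w4 : -Q2 * v 4 = 0 := congrFun hw 4
  have v3 : v 3 = 0 := (mul_eq_zero.1 w0).resolve_left (neg_ne_zero.2 q0)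
  have v4 : v 4 = 0 := (mul_eq_zero.1 w4).resolve_left (neg_ne_zero.2 q2)
  have _ := h0
  funext i
  fin_cases i
  · change v 0 = 0
    linear_combination w1 + Q1 * v3
  · change v 1 = 0
    linear_combination w2 + Q2 * v3 + Q0 * v4
  · change v 2 = 0
    linear_combination w3 + Q1 * v4
  · exact v3
  · exact v4

/-- five free points with different residues lie on an exact curve -/
theorem exists_Ex (c : Cfg O k) (h0 : ∀ i, A.res (c.z i) ≠ 0)
    (hc : ∀ i, A.res (c.η i) * A.res (c.z i) =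
      c.Q0 + c.Q1 * A.res (c.z i) + c.Q2 * A.res (c.z i) ^ 2) (q0 : c.Q0 ≠ 0) (q2 : c.Q2 ≠ 0)
    (hz : ∀ i j, i ≠ j → A.res (c.z i) ≠ A.res (c.z j)) : ∃ q, Ex A ⟨c, q⟩ := by
  have hi : Function.Injective fun i => A.res (c.z i) := fun i j e => by
    by_contra n
    exact hz i j n e
  have ker := exq_ker h0 hc q0 q2 hi
  let M : Matrix (Fin 5) (Fin 5) O := Matrix.of fun l =>
    ![1, c.z l, c.z l ^ 2, -c.η l, -(c.η l * c.z l ^ 2)]
  have hd : A.res M.det ≠ 0 := by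
    rw [RingHom.map_det]
    intro e
    obtain ⟨v, hv, e⟩ := Matrix.exists_mulVec_eq_zero_iff.2 e
    refine hv (ker v fun l => ?_)
    have := congrFun e l
    simp only [M, Matrix.mulVec, dotProduct, Fin.sum_univ_five, RingHom.mapMatrix_apply,
      Matrix.map_apply, Matrix.of_apply, Matrix.cons_val, map_one, map_pow, map_neg, map_mul,
      Pi.zero_apply] at this
    linear_combination this
  obtain ⟨x, hx⟩ : ∃ x : Fin 5 → O, M.mulVec x = fun l => c.η l * c.z l :=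
    ⟨M⁻¹.mulVec fun l => c.η l * c.z l, by
      rw [Matrix.mulVec_mulVec, Matrix.mul_nonsing_inv _ (A.unit _ hd), Matrix.one_mulVec]⟩
  have hl : ∀ l, x 0 + x 1 * c.z l + x 2 * c.z l ^ 2 =
      c.η l * (x 3 + c.z l + x 4 * c.z l ^ 2) := fun l => by
    have := congrFun hx l
    simp only [M, Matrix.mulVec, dotProduct, Fin.sum_univ_five, Matrix.of_apply,
      Matrix.cons_val] at this
    linear_combination this
  have hr := ker ![A.res (x 0) - c.Q0, A.res (x 1) - c.Q1, A.res (x 2) - c.Q2, A.res (x 3),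
    A.res (x 4)] fun l => by
      have := congrArg A.res (hl l)
      simp only [map_add, map_mul, map_pow] at this
      simp only [Matrix.cons_val]
      linear_combination this + hc l
  refine ⟨![![x 3, 1, x 4], ![x 0, x 1, x 2]], congrFun hr 3, map_one _, congrFun hr 4,
    sub_eq_zero.1 (congrFun hr 0), sub_eq_zero.1 (congrFun hr 1), sub_eq_zero.1 (congrFun hr 2),
    fun l => ?_⟩
  simp only [qv, Matrix.cons_val]
  linear_combination hl l

theorem Ndg.ex {c : Cfg O k} (h : Ndg A c) : ∃ q, Ex A ⟨c, q⟩ :=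
  exists_Ex c h.z0 h.cur h.Q0 h.Q2 h.zz

theorem NdgC.ex {c : Cfg O k} (h : NdgC A c)
    (hz : ∀ i j, i ≠ j → A.res (c.z i) ≠ A.res (c.z j)) : ∃ q, Ex A ⟨c, q⟩ :=
  exists_Ex c h.z0 h.cur h.Q0 h.Q2 hz

/-- the exact graph curves of the start states -/
theorem Exa.ex {c : Cfg O k} {q0 q1 q2 : O} (h : Exa A c q0 q1 q2) (r0 : A.res q0 = c.Q0)
    (r1 : A.res q1 = c.Q1) (r2 : A.res q2 = c.Q2) : Ex A ⟨c, ![![0, 1, 0], ![q0, q1, q2]]⟩ := by
  refine ⟨map_zero _, map_one _, map_zero _, r0, r1, r2, fun l => ?_⟩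
  simp only [qv, Matrix.cons_val]
  linear_combination -h.e l

/-- the configuration of a character with its curve -/
noncomputable def ccfgOf (A : Arc O k) (σ : k →+* O) (χ : CL → k) : CCfg O k :=
  ⟨cfgOf A σ χ, ![![0, 1, 0], ![q0Of A σ χ, 0, σ (-χ e5 * χ dJ)]]⟩

theorem ccfgOf_cfg (A : Arc O k) (σ : k →+* O) (χ : CL → k) :
    (ccfgOf A σ χ).toCfg = cfgOf A σ χ := rfl

theorem ccfgOf_ex {σ : k →+* O} {χ : CL → k} (hσ : ∀ x, A.res (σ x) = x) (hχ : IsCh χ) :
    Ex A (ccfgOf A σ χ) :=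
  (cfgOf_exa hχ).ex (by simp only [q0Of, map_sub, map_mul, map_pow, A.rt, hσ, cfgOf]; ring)
    (map_zero _) (hσ _)

end Pool.Agent.Lib.MP_d03834_ag.Core
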