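import Pool.Agent.Lib.MP_d03834_ag.Core.Bi

/-! Curves of low degree in x through four fat points of the product of two lines. -/

set_option autoImplicit false

namespace Pool.Agent.Lib.MP_d03834_ag.Core

open MvPolynomial
open scoped Polynomial

variable {K : Type} [Field K]

theorem f4_scale {S : Type} [CommRing S] [Algebra K S] {p q : ℕ} {F : Cx K} (h : Bih p q F)
    (c d g0 g1 g2 g3 : S) : aeval ![c * g0, c * g1, d * g2, d * g3] F =
      c ^ p * d ^ q * aeval ![g0, g1, g2, g3] F := by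
  conv_lhs => rw [F.as_sum, map_sum]
  conv_rhs => rw [F.as_sum, map_sum, Finset.mul_sum]
  refine Finset.sum_congr rfl fun μ hμ => ?_
  obtain ⟨h1, h2⟩ := bih_iff.1 h μ (mem_support_iff.1 hμ)
  have e1 : p = μ 0 + μ 1 := by omega
  have e2 : q = μ 2 + μ 3 := by omega
  rw [aeval_monomial, aeval_monomial, Finsupp.prod_fintype _ _ fun _ => pow_zero _,
    Finsupp.prod_fintype _ _ fun _ => pow_zero _, Fin.prod_univ_four, Fin.prod_univ_four, e1, e2]
  simp only [Matrix.cons_val_zero, Matrix.cons_val_one, Matrix.cons_val]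
  ring

theorem f4_nat {p q : ℤ} {F : Cx K} (h : Bih p q F) (h0 : F ≠ 0) :
    ∃ a b : ℕ, p = a ∧ q = b :=
  ⟨p.toNat, q.toNat, by
    have : ¬(p < 0 ∨ q < 0) := fun e => h0 (h.neg_deg e)
    omega⟩

theorem f4_scx {S : Type} [CommRing S] [Algebra K S] {p : ℕ} {q : ℤ} {F : Cx K} (h : Bih p q F)
    (c g0 g1 g2 g3 : S) : aeval ![c * g0, c * g1, g2, g3] F =
      c ^ p * aeval ![g0, g1, g2, g3] F := by
  by_cases h0 : F = 0
  · simp [h0]
  obtain ⟨a, b, -, rfl⟩ := f4_nat h h0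
  simpa using f4_scale h c 1 g0 g1 g2 g3

theorem f4_id (F : Cx K) : aeval ![X 0, X 1, X 2, X 3] F = F := by
  have : (aeval ![X 0, X 1, X 2, X 3] : Cx K →ₐ[K] Cx K) = AlgHom.id K _ :=
    algHom_ext fun i => by fin_cases i <;> simp
  exact DFunLike.congr_fun this F

/-- a bihomogeneous polynomial which vanishes at a point lies in its ideal -/
theorem f4_pid {P : Fin 4 → K} (hP : Pt P) {p q : ℤ} {F : Cx K} (h : Bih p q F)
    (h0 : eval P F = 0) : F ∈ pid P := by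
  by_cases hF : F = 0
  · rw [hF]; exact zero_mem _
  obtain ⟨a, b, rfl, rfl⟩ := f4_nat h hF
  obtain ⟨u, v, e⟩ := exists_det hP.1
  obtain ⟨u', v', e'⟩ := exists_det hP.2
  have hC : (C u * C (P 1) - C (P 0) * C v : Cx K) = 1 := by
    rw [← map_mul, ← map_mul, ← map_sub, e, map_one]
  have hC' : (C u' * C (P 3) - C (P 2) * C v' : Cx K) = 1 := by
    rw [← map_mul, ← map_mul, ← map_sub, e', map_one]
  let k := Ideal.Quotient.mkₐ K (pid P)
  have h1 : k = aeval ![k (C u * X 1 - C v * X 0) * k (C (P 0)), k (C u * X 1 - C v * X 0) *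
      k (C (P 1)), k (C u' * X 3 - C v' * X 2) * k (C (P 2)),
      k (C u' * X 3 - C v' * X 2) * k (C (P 3))] := by
    refine algHom_ext fun i => ?_
    have m : ∀ x y z w : Cx K, w ∈ pid P → x - y * z = w → k x = k y * k z := by
      rintro x y z _ hw rfl
      rw [← map_mul]
      exact Ideal.Quotient.eq.2 hw
    rw [aeval_X]
    fin_cases i
    · exact m (X 0) _ _ _ (Ideal.mul_mem_left _ (C u) (lx_mem P))
        (by rw [lx]; linear_combination (-X 0) * hC)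
    · exact m (X 1) _ _ _ (Ideal.mul_mem_left _ (C v) (lx_mem P))
        (by rw [lx]; linear_combination (-X 1) * hC)
    · exact m (X 2) _ _ _ (Ideal.mul_mem_left _ (C u') (ly_mem P))
        (by rw [ly]; linear_combination (-X 2) * hC')
    · exact m (X 3) _ _ _ (Ideal.mul_mem_left _ (C v') (ly_mem P))
        (by rw [ly]; linear_combination (-X 3) * hC')
  have h2 : (aeval ![k (C (P 0)), k (C (P 1)), k (C (P 2)), k (C (P 3))] : Cx K →ₐ[K] _) =
      (Algebra.ofId K _).comp (aeval P) := algHom_ext fun i => by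
    fin_cases i <;> simp [k, ← algebraMap_eq]
  have h3 : k F = 0 := by
    rw [h1, f4_scale h, h2, AlgHom.comp_apply, ← RingHom.coe_coe (aeval P), coe_aeval_eq_eval, h0,
      map_zero, mul_zero]
  exact Ideal.Quotient.eq_zero_iff_mem.1 h3

/-- binary forms in y -/
theorem f4_peel {P : Fin 4 → K} {N : ℤ} {R : Cx K} (h : Bih 0 N R) {m : ℕ}
    (hm : R ∈ pid P ^ m) : ly P ^ m ∣ R := by
  have e : aeval ![C (P 0), C (P 1), X 2, X 3] R = R := by
    have a := f4_scx (p := 0) h (0 : Cx K) (C (P 0)) (C (P 1)) (X 2) (X 3)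
    have b := f4_scx (p := 0) h (0 : Cx K) (X 0) (X 1) (X 2) (X 3)
    simp only [zero_mul, pow_zero, one_mul] at a b
    rw [← a, b, f4_id]
  have := pid_map (aeval ![C (P 0), C (P 1), X 2, X 3] : Cx K →ₐ[K] Cx K)
    (I := Ideal.span {ly P}) (by simp [lx, mul_comm]) (by
      refine Ideal.mem_span_singleton.2 (dvd_of_eq ?_)
      simp [ly]) hm
  rwa [e, Ideal.span_singleton_pow, Ideal.mem_span_singleton] at this

theorem f4_ly_ne {P : Fin 4 → K} (hP : Pt P) : ly P ≠ 0 := fun e =>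
  ly_sq P hP (e ▸ zero_mem _)

theorem f4_bih_prod {ι : Type} (s : Finset ι) (P : ι → Fin 4 → K) (m : ι → ℕ) :
    Bih 0 (∑ i ∈ s, m i : ℕ) (∏ i ∈ s, ly (P i) ^ m i) := by
  classical
  induction s using Finset.induction_on with
  | empty => simpa using bih_C (1 : K)
  | insert i s hi ih =>
    rw [Finset.prod_insert hi, Finset.sum_insert hi]
    exact (((bih_ly _).pow _).mul ih).of_eq (by simp) (by simp)

theorem f4_prod {ι : Type} (s : Finset ι) (P : ι → Fin 4 → K) (hP : ∀ i, Pt (P i))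
    (hd : ∀ i j, i ≠ j → dy (P i) (P j) ≠ 0) (m : ι → ℕ) {N : ℤ} {R : Cx K} (h : Bih 0 N R)
    (hm : ∀ i ∈ s, R ∈ pid (P i) ^ m i) : ∏ i ∈ s, ly (P i) ^ m i ∣ R := by
  classical
  induction s using Finset.induction_on generalizing N R with
  | empty => simp
  | insert i s hi ih =>
    obtain ⟨R', rfl⟩ := f4_peel h (hm i (Finset.mem_insert_self _ _))
    rw [Finset.prod_insert hi]
    refine mul_dvd_mul_left _ (ih (h.of_mul ((bih_ly _).pow _) (pow_ne_zero _ (f4_ly_ne (hP i))))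
      fun j hj => ?_)
    simpa using pid_div_pow (hP j) (not_pid (by
      rw [eval_ly]; exact hd i j fun e => hi (e ▸ hj))) _ (hm j (Finset.mem_insert_of_mem hj))

theorem f4_const {R : Cx K} (h : Bih 0 0 R) : ∃ c, R = C c := by
  refine ⟨aeval ![0, 0, 0, 0] R, ?_⟩
  have a := f4_scale (p := 0) (q := 0) h (0 : Cx K) 0 (X 0) (X 1) (X 2) (X 3)
  simp only [zero_mul, pow_zero, one_mul, f4_id] at a
  have e : (aeval ![0, 0, 0, 0] : Cx K →ₐ[K] Cx K) =
      (Algebra.ofId K _).comp (aeval ![0, 0, 0, 0]) := algHom_ext fun i => by fin_cases i <;> simp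
  rw [← a, e]
  simp

/-- the coefficient of the highest power of x0, as a polynomial in y0 / y1 -/
noncomputable def f4tp : Cx K →ₐ[K] K[X] := aeval ![1, 0, Polynomial.X, 1]

/-- four points with the pencil of curves of bidegree (1, 2) through them -/
structure Pen (e : Fin 4 → Fin 4 → K) (u P1 P2 Q2 : Cx K) (κ : K) : Prop where
  pt : ∀ i, Pt (e i)
  dy : ∀ i j, i ≠ j → dy (e i) (e j) ≠ 0
  bu : Bih 0 1 u
  b1 : Bih 0 2 P1
  b2 : Bih 0 2 P2
  b3 : Bih 0 2 Q2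
  pr : Prime u
  nd : ¬u ∣ u ^ 2 * X 0 - P1 * X 1
  ne : ∀ i, eval (e i) u ≠ 0
  on : ∀ i, eval (e i) (u ^ 2) * e i 0 = eval (e i) P1 * e i 1
  k0 : κ ≠ 0
  det : Q2 * P1 - P2 * u ^ 2 = C κ * ∏ i, ly (e i)

namespace Pen

variable {e : Fin 4 → Fin 4 → K} {u P1 P2 Q2 : Cx K} {κ : K} (D : Pen e u P1 P2 Q2 κ)
include D

theorem bq : Bih 0 2 (u ^ 2) := (D.bu.pow 2).of_eq (by simp) (by simp)

theorem bc1 : Bih 1 2 (u ^ 2 * X 0 - P1 * X 1) :=
  ((D.bq.mul bih_X0).of_eq (by simp) (by simp)).sub ((D.b1.mul bih_X1).of_eq (by simp) (by simp))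

theorem bc2 : Bih 1 2 (Q2 * X 0 - P2 * X 1) :=
  ((D.b3.mul bih_X0).of_eq (by simp) (by simp)).sub ((D.b2.mul bih_X1).of_eq (by simp) (by simp))

omit D in
theorem fix {N : ℤ} {R : Cx K} (h : Bih 0 N R) (a b : Cx K) :
    aeval ![a, b, X 2, X 3] R = R := by
  have a' := f4_scx (p := 0) h (0 : Cx K) a b (X 2) (X 3)
  have b' := f4_scx (p := 0) h (0 : Cx K) (X 0) (X 1) (X 2) (X 3)
  simp only [zero_mul, pow_zero, one_mul] at a' b'
  rw [← a', b', f4_id]

theorem c2_mem (i : Fin 4) : Q2 * X 0 - P2 * X 1 ∈ pid (e i) := by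
  refine f4_pid (D.pt i) D.bc2 ?_
  have h1 := congrArg (eval (e i)) D.det
  rw [map_mul (eval (e i)) (C κ), map_prod, Finset.prod_eq_zero (Finset.mem_univ i)
    (pid_eval (ly_mem _)), mul_zero] at h1
  have h2 := D.on i
  have h3 : e i 1 ≠ 0 := fun h => (D.pt i).1.elim (fun h0 => by
    rw [h, mul_zero, map_pow] at h2
    exact mul_ne_zero (pow_ne_zero _ (D.ne i)) h0 h2) fun h0 => h0 h
  simp only [map_sub, map_mul, map_pow, eval_X] at h1 h2 ⊢
  refine mul_left_cancel₀ (pow_ne_zero 2 (D.ne i)) ?_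
  linear_combination eval (e i) Q2 * h2 + e i 1 * h1

/-- restriction to the first curve of the pencil -/
theorem res {n q : ℤ} {G : Cx K} (h : Bih n q G) (m : Fin 4 → ℕ)
    (hm : ∀ i, G ∈ pid (e i) ^ m i) : ∃ R, aeval ![P1, u ^ 2, X 2, X 3] G =
      (∏ i, ly (e i) ^ m i) * R ∧ Bih 0 (n * 2 + q - (∑ i, m i : ℕ)) R := by
  have h1 : Bih 0 (n * 2 + q) (aeval ![P1, u ^ 2, X 2, X 3] G) :=
    (h.aeval ![P1, u ^ 2, X 2, X 3] D.b1 D.bq bih_X2 bih_X3).of_eq (by ring) (by ring)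
  have h2 : ∀ i, aeval ![P1, u ^ 2, X 2, X 3] G ∈ pid (e i) ^ m i := fun i => by
    refine pid_map (aeval ![P1, u ^ 2, X 2, X 3] : Cx K →ₐ[K] Cx K) ?_ ?_ (hm i)
    · refine f4_pid (D.pt i) ((bih_lx (e i)).aeval ![P1, u ^ 2, X 2, X 3] D.b1 D.bq bih_X2
        bih_X3) ?_
      have := D.on i
      simp [lx] at this ⊢
      linear_combination -this
    · rw [fix (bih_ly _)]
      exact ly_mem _
  obtain ⟨R, hR⟩ := f4_prod Finset.univ e D.pt D.dy m h1 fun i _ => h2 i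
  refine ⟨R, hR, ((hR ▸ h1).of_mul (f4_bih_prod _ _ _)
    (Finset.prod_ne_zero_iff.2 fun i _ => pow_ne_zero _ (f4_ly_ne (D.pt i)))).of_eq (by ring) rfl⟩

/-- division by the first curve of the pencil -/
theorem step {n q : ℤ} {G : Cx K} (h : Bih n q G) (m : Fin 4 → ℕ)
    (hm : ∀ i, G ∈ pid (e i) ^ m i) (h0 : aeval ![P1, u ^ 2, X 2, X 3] G = 0) :
    ∃ G', G = (u ^ 2 * X 0 - P1 * X 1) * G' ∧ Bih (n - 1) (q - 2) G' ∧
      ∀ i, G' ∈ pid (e i) ^ (m i - 1) := by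
  have c0 : u ^ 2 * X 0 - P1 * X 1 ≠ 0 := fun h => D.nd (h ▸ dvd_zero _)
  have key : u ^ 2 * X 0 - P1 * X 1 ∣ G := by
    by_cases hG : G = 0
    · rw [hG]; exact dvd_zero _
    obtain ⟨a, b, rfl, rfl⟩ := f4_nat h hG
    let k := Ideal.Quotient.mkₐ K (Ideal.span {u ^ 2 * X 0 - P1 * X 1})
    have e1 : ∀ g0 g1 : Cx K, aeval ![k g0, k g1, k (X 2), k (X 3)] G =
        k (aeval ![g0, g1, X 2, X 3] G) := fun g0 g1 => by
      have : (aeval ![k g0, k g1, k (X 2), k (X 3)] : Cx K →ₐ[K] _) =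
          k.comp (aeval ![g0, g1, X 2, X 3]) := algHom_ext fun i => by fin_cases i <;> simp
      exact DFunLike.congr_fun this G
    have e2 : k (u ^ 2) * k (X 0) = k (X 1) * k P1 := by
      rw [← map_mul, ← map_mul]
      exact Ideal.Quotient.eq.2 (Ideal.mem_span_singleton.2 (dvd_of_eq (by ring)))
    have e3 := f4_scx h (k (u ^ 2)) (k (X 0)) (k (X 1)) (k (X 2)) (k (X 3))
    rw [e2, mul_comm (k (u ^ 2)) (k (X 1)), f4_scx h, e1, e1, h0, f4_id, map_zero, mul_zero,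
      ← map_pow, ← map_mul, ← pow_mul] at e3
    obtain ⟨H, hH⟩ := Ideal.mem_span_singleton.1 (Ideal.Quotient.eq_zero_iff_mem.1 e3.symm)
    obtain ⟨H', rfl⟩ := D.pr.pow_dvd_of_dvd_mul_left _ D.nd ⟨G, hH.symm⟩
    exact ⟨H', mul_left_cancel₀ (pow_ne_zero (2 * a) D.pr.ne_zero) (by rw [hH]; ring)⟩
  obtain ⟨G', rfl⟩ := key
  refine ⟨G', rfl, h.of_mul D.bc1 c0, fun i => pid_div (D.pt i) (fun h2 => ?_) (hm i)⟩
  have h3 := pid_sq 0 h2
  have z : ∀ R : Cx K, Bih 0 2 R → pderiv 0 R = 0 := fun R hR =>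
    pderiv_eq_zero_of_notMem_vars fun hv => by
      obtain ⟨μ, h4, h5⟩ := (mem_vars_iff_mem_support _).1 hv
      have := bih_iff.1 hR μ (mem_support_iff.1 h4)
      have := Finsupp.mem_support_iff.1 h5
      omega
  rw [map_sub, Derivation.leibniz, Derivation.leibniz, z _ D.bq, z _ D.b1] at h3
  simp at h3
  exact D.ne i h3

theorem low (μ : Fin 4 → ℕ) (t : ℕ) : ∀ {n : ℤ} {G : Cx K}, n < t →
    Bih n ((∑ i, μ i : ℕ) + 2 * t) G → (∀ i, G ∈ pid (e i) ^ (μ i + t)) → G = 0 := by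
  induction t with
  | zero => exact fun hn h _ => h.neg_deg (.inl hn)
  | succ t ih =>
    intro n G hn h hm
    obtain ⟨R, h1, h2⟩ := D.res h _ hm
    rw [h2.neg_deg (.inr (by
      simp only [Fin.sum_univ_four]
      push_cast at hn ⊢
      omega)), mul_zero] at h1
    obtain ⟨G', rfl, h3, h4⟩ := D.step h _ hm h1
    rw [ih (n := n - 1) (by push_cast at hn; omega) (h3.of_eq rfl (by push_cast; ring)) h4, mul_zero]

theorem top (μ : Fin 4 → ℕ) (t : ℕ) : ∀ {G : Cx K}, Bih t ((∑ i, μ i : ℕ) + 2 * t) G →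
    (∀ i, G ∈ pid (e i) ^ (μ i + t)) → f4tp G ∈ Submodule.span K (Set.range fun j : Fin (t + 1) =>
      f4tp (∏ i, ly (e i) ^ μ i) * f4tp (u ^ 2) ^ (j : ℕ) * f4tp Q2 ^ (t - j)) := by
  have key : ∀ (t : ℕ) {G : Cx K}, Bih t ((∑ i, μ i : ℕ) + 2 * t) G →
      (∀ i, G ∈ pid (e i) ^ (μ i + t)) → ∃ (c : K) (G' : Cx K), f4tp G =
        c • (f4tp (∏ i, ly (e i) ^ μ i) * f4tp Q2 ^ t) + f4tp (u ^ 2) * f4tp G' ∧
        Bih (t - 1) ((∑ i, μ i : ℕ) + 2 * t - 2) G' ∧ ∀ i, G' ∈ pid (e i) ^ (μ i + t - 1) := by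
    intro t G h hm
    obtain ⟨R, h1, h2⟩ := D.res h _ hm
    obtain ⟨c, rfl⟩ := f4_const (h2.of_eq rfl (by
      simp only [Fin.sum_univ_four]
      push_cast
      ring))
    have b0 : Bih t ((∑ i, μ i : ℕ) + 2 * t)
        (C (c / κ ^ t) * ((∏ i, ly (e i) ^ μ i) * (Q2 * X 0 - P2 * X 1) ^ t)) :=
      (((f4_bih_prod _ _ _).mul (D.bc2.pow t)).cmul _).of_eq (by ring) (by ring)
    obtain ⟨G', h3, h4, h5⟩ := D.step (h.sub b0) (fun i => μ i + t)
      (fun i => Ideal.sub_mem _ (hm i) (Ideal.mul_mem_left _ _ (by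
        rw [pow_add]
        exact Ideal.mul_mem_mul (Ideal.mem_of_dvd _ (Finset.dvd_prod_of_mem _ (Finset.mem_univ i))
          (Ideal.pow_mem_pow (ly_mem _) _)) (Ideal.pow_mem_pow (D.c2_mem i) _)))) (by
        have e1 : aeval ![P1, u ^ 2, X 2, X 3] (Q2 * X 0 - P2 * X 1) = C κ * ∏ i, ly (e i) := by
          rw [map_sub, map_mul, map_mul, fix D.b3, fix D.b2, ← D.det]
          simp
        have e2 : (C c : Cx K) = C (c / κ ^ t) * C κ ^ t := by
          rw [← map_pow, ← map_mul, div_mul_cancel₀ _ (pow_ne_zero _ D.k0)]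
        rw [map_sub, h1, map_mul, map_mul, map_pow, e1, fix (f4_bih_prod _ _ _), aeval_C,
          algebraMap_eq, mul_pow, ← Finset.prod_pow]
        simp only [pow_add, Finset.prod_mul_distrib]
        rw [sub_eq_zero]
        conv_lhs => rw [e2]
        ring)
    refine ⟨c / κ ^ t, G', ?_, h4, h5⟩
    have := congrArg f4tp h3
    rw [map_sub, sub_eq_iff_eq_add'] at this
    rw [this]
    simp [f4tp, Algebra.smul_def]
  induction t with
  | zero =>
    intro G h hm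
    obtain ⟨c, G', h1, h2, -⟩ := key 0 h hm
    rw [h1, h2.neg_deg (.inl (by simp)), map_zero, mul_zero, add_zero]
    exact Submodule.smul_mem _ _ (Submodule.subset_span ⟨0, by simp⟩)
  | succ t ih =>
    intro G h hm
    obtain ⟨c, G', h1, h2, h3⟩ := key (t + 1) h hm
    rw [h1]
    refine add_mem (Submodule.smul_mem _ _ (Submodule.subset_span ⟨0, by simp⟩)) ?_
    have := Submodule.mem_map_of_mem (f := LinearMap.mulLeft K (f4tp (u ^ 2)))
      (ih (h2.of_eq (by push_cast; ring) (by push_cast; ring)) h3)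
    rw [Submodule.map_span] at this
    refine Submodule.span_mono ?_ this
    rintro _ ⟨_, ⟨j, rfl⟩, rfl⟩
    refine ⟨j.succ, ?_⟩
    simp only [Fin.val_succ, Nat.add_sub_add_right, LinearMap.mulLeft_apply]
    ring

end Pen

end Pool.Agent.Lib.MP_d03834_ag.Core
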