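import Pool.Agent.Lib.MP_d03834_ag.Core.Fib4A
import Pool.Agent.Lib.MP_d03834_ag.Core.Fib4B

/-! Four fat points approach a fibre, the pencil on the fibre is free. -/

set_option autoImplicit false

namespace Pool.Agent.Lib.MP_d03834_ag.Core

open MvPolynomial Module Filter
open scoped Polynomial

variable {K : Type} [Field K]

theorem f4_prime (τ : K) : Prime (X 2 - C τ * X 3 : Cx K) := by
  let θ : K → Cx K →ₐ[K] Cx K := fun a => aeval ![X 0, X 1, X 2 - C a * X 3, X 3]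
  have h : ∀ a b, a + b = 0 → (θ a).comp (θ b) = AlgHom.id K _ := fun a b e =>
    algHom_ext fun i => by
      have : (C a + C b : Cx K) = 0 := by rw [← map_add, e, map_zero]
      fin_cases i <;> simp [θ]
      linear_combination (-X 3) * this
  have := (MulEquiv.prime_iff (AlgEquiv.ofAlgHom (θ τ) (θ (-τ)) (h _ _ (by ring))
    (h _ _ (by ring))) (p := X 2)).2 X_prime
  simpa [θ] using this

theorem f4_pen (E : Fin 4 → Fin 4 → K) (hE : ∀ i, Pt (E i))
    (hd : ∀ i j, i ≠ j → dy (E i) (E j) ≠ 0) {τ s : K} (hc : ∀ i, E i 3 * τ - E i 2 ≠ 0)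
    (hs : s ≠ 0) : ∃ (ξ ζ : Fin 4 → K) (P1 P2 : Cx K), (∀ i, ζ i ≠ 0) ∧
      Pen (fun i => ![ξ i, ζ i, E i 2, E i 3]) (X 2 - C τ * X 3) P1 P2
        ((X 2 - C τ * X 3 + C s * X 3) * X 3) (s ^ 2) := by
  obtain ⟨c, hc1⟩ : ∃ c : Fin 4 → K, ∀ i, c i = E i 3 * τ - E i 2 := ⟨_, fun _ => rfl⟩
  obtain ⟨b, hb⟩ : ∃ b : Fin 4 → K, ∀ i, b i = E i 3 := ⟨_, fun _ => rfl⟩
  obtain ⟨u, hu⟩ : ∃ u : Cx K, u = X 2 - C τ * X 3 := ⟨_, rfl⟩
  have bu : Bih 0 1 u := hu ▸ bih_X2.sub (bih_X3.cmul _)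
  have b1 : Bih 0 2 (X 3 * X 3 : Cx K) := bih_X3.mul bih_X3
  have b2 : Bih 0 2 (u * X 3) := bu.mul bih_X3
  have b3 : Bih 0 2 (u * u) := bu.mul bu
  have hl : ∀ i, ly (E i) = C (b i) * u + C (c i) * X 3 := fun i => by
    simp only [ly, hu, hb, hc1, map_sub, map_mul]
    ring
  let a0 := c 0 * c 1 * c 2 * c 3
  let a1 := b 0 * c 1 * c 2 * c 3 + c 0 * b 1 * c 2 * c 3 + c 0 * c 1 * b 2 * c 3 +
    c 0 * c 1 * c 2 * b 3
  let a2 := b 0 * b 1 * c 2 * c 3 + b 0 * c 1 * b 2 * c 3 + b 0 * c 1 * c 2 * b 3 +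
    c 0 * b 1 * b 2 * c 3 + c 0 * b 1 * c 2 * b 3 + c 0 * c 1 * b 2 * b 3
  let a3 := c 0 * b 1 * b 2 * b 3 + b 0 * c 1 * b 2 * b 3 + b 0 * b 1 * c 2 * b 3 +
    b 0 * b 1 * b 2 * c 3
  let a4 := b 0 * b 1 * b 2 * b 3
  have hc2 : ∀ i, c i ≠ 0 := fun i => hc1 i ▸ hc i
  have h0 : a0 ≠ 0 := mul_ne_zero (mul_ne_zero (mul_ne_zero (hc2 _) (hc2 _)) (hc2 _)) (hc2 _)
  refine ⟨fun i => s * a0 * (E i 3 * E i 3) + (s * a1 - a0) * (-c i * E i 3), fun i => c i ^ 2,
    C (s * a0) * (X 3 * X 3) + C (s * a1 - a0) * (u * X 3),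
    C (s * a1 - a0 - s ^ 2 * a2) * (X 3 * X 3) - C (s ^ 2 * a3) * (u * X 3) -
      C (s ^ 2 * a4) * (u * u), fun i => pow_ne_zero _ (hc2 i), ?_⟩
  rw [← hu]
  have ev : ∀ (i : Fin 4) (x y : K), eval ![x, y, E i 2, E i 3] u = -c i := fun i x y => by
    simp [hu, hc1, mul_comm]
  refine ⟨fun i => ⟨.inr (pow_ne_zero _ (hc2 i)), (hE i).2⟩, hd, bu,
    (b1.cmul _).add (b2.cmul _), ((b1.cmul _).sub (b2.cmul _)).sub (b3.cmul _),
    (bu.add (bih_X3.cmul _)).mul bih_X3, hu ▸ f4_prime τ, fun h => ?_,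
    fun i => by rw [ev]; exact neg_ne_zero.2 (hc2 i), fun i => ?_, pow_ne_zero _ hs, ?_⟩
  · have h1 := _root_.map_dvd (eval ![0, 1, τ, 1]) h
    have h2 : eval ![0, 1, τ, 1] u = 0 := by simp [hu]
    simp only [map_sub, map_mul, map_add, map_pow, h2, eval_C, eval_X, zero_dvd_iff] at h1
    simp [hs, h0] at h1
  · simp only [map_mul, map_add, map_pow, ev, eval_C, eval_X]
    simp
    ring
  · change _ = C (s ^ 2) * ∏ i, ly (E i)
    simp only [Fin.prod_univ_four, hl, a0, a1, a2, a3, a4, map_sub, map_add, map_mul, map_pow]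
    ring

theorem f4_dvd (i : Fin 4) (k : ℕ) (F : Cx K) :
    X i ^ k ∣ F ↔ ∀ μ, coeff μ F ≠ 0 → k ≤ μ i := by
  rw [X_pow_eq_monomial, monomial_one_dvd_iff_modMonomial_eq_zero]
  constructor
  · intro h μ hμ
    by_contra hn
    have := coeff_modMonomial_of_not_le (s' := μ) (s := Finsupp.single i k) F
      (by rwa [Finsupp.single_le_iff])
    rw [h] at this
    exact hμ this.symm
  · intro h
    ext μ
    by_cases e : Finsupp.single i k ≤ μ
    · exact coeff_modMonomial_of_le F e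
    · rw [coeff_modMonomial_of_not_le F e]
      by_contra hn
      exact e (Finsupp.single_le_iff.2 (h μ hn))

/-- the part of degree k in x1 -/
noncomputable def f4pi (k : ℕ) : Cx K →ₗ[K] Cx K :=
  ((Polynomial.lcoeff (Cx K) k).restrictScalars K).comp (gr ![0, 1, 0, 0]).toLinearMap

theorem f4pi_coeff (k : ℕ) (μ : Fin 4 →₀ ℕ) (F : Cx K) :
    coeff μ (f4pi k F) = if μ 1 = k then coeff μ F else 0 := by
  have : Finsupp.weight ![0, 1, 0, 0] μ = μ 1 := by
    rw [Finsupp.weight_apply, Finsupp.sum_fintype _ _ (by simp), Fin.sum_univ_four]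
    simp
  rw [← this]
  exact gr_coeff _ _ _ _

theorem f4pi_pi (n j : ℕ) (F : Cx K) :
    f4pi n (f4pi j F) = if n = j then f4pi j F else 0 := by
  ext μ
  rw [f4pi_coeff]
  split_ifs with h1 h2 h2
  · rfl
  · rw [f4pi_coeff, if_neg (by omega), coeff_zero]
  · rw [f4pi_coeff, if_neg (by omega)]
  · rfl

theorem f4pi_mul (k : ℕ) (G : Cx K) :
    f4pi k (X 1 ^ k * G) = X 1 ^ k * aeval ![X 0, 0, X 2, X 3] G := by
  have e : (gr ![0, 1, 0, 0] G).coeff 0 = aeval ![X 0, 0, X 2, X 3] G := by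
    induction G using MvPolynomial.induction_on with
    | C a => simp [gr]
    | add a b ha hb => rw [map_add, map_add, Polynomial.coeff_add, ha, hb]
    | mul_X a i ha =>
      rw [map_mul, map_mul, Polynomial.mul_coeff_zero, ha]
      fin_cases i <;> simp [gr]
  have e1 : gr ![0, 1, 0, 0] (X 1 : Cx K) = Polynomial.C (X 1) * Polynomial.X := by
    simp [gr, Polynomial.C_mul_X_eq_monomial]
  change (gr ![0, 1, 0, 0] (X 1 ^ k * G)).coeff k = _
  rw [map_mul, map_pow, e1, mul_pow, mul_assoc, ← map_pow, Polynomial.coeff_C_mul, ← e]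
  simpa using Polynomial.coeff_X_pow_mul (gr ![0, 1, 0, 0] G) k 0

theorem f4_sc (c : K) (μ : Fin 4 →₀ ℕ) (F : Cx K) :
    coeff μ (aeval ![X 0, C c * X 1, X 2, X 3] F) = c ^ μ 1 * coeff μ F := by
  classical
  induction F using MvPolynomial.induction_on' with
  | add p q hp hq => simp only [map_add, coeff_add, hp, hq, mul_add]
  | monomial ν a =>
    have : (aeval ![X 0, C c * X 1, X 2, X 3] (monomial ν a) : Cx K) =
        C (c ^ ν 1) * monomial ν a := by
      rw [aeval_monomial, monomial_eq, Finsupp.prod_fintype _ _ fun _ => pow_zero _,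
        Finsupp.prod_fintype _ _ fun _ => pow_zero _, Fin.prod_univ_four, Fin.prod_univ_four]
      simp only [Matrix.cons_val_zero, Matrix.cons_val_one, Matrix.cons_val, algebraMap_eq, map_pow]
      ring
    rw [this, coeff_C_mul, coeff_monomial]
    split_ifs with h
    · rw [h]
    · simp

theorem f4_sum (η : K) (N : ℕ) (μ : Fin 4 →₀ ℕ) (F : Cx K) :
    coeff μ ((∑ j ∈ Finset.range N, η ^ j • f4pi j) F) =
      if μ 1 < N then η ^ μ 1 * coeff μ F else 0 := by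
  simp [coeff_sum, f4pi_coeff]

/-- dehomogenisation -/
noncomputable def f4dh : Cx K →ₐ[K] K[X] := aeval ![1, 1, Polynomial.X, 1]

theorem f4dh_inj {H : Cx K} (h : ∀ μ ν, coeff μ H ≠ 0 → coeff ν H ≠ 0 → μ 2 = ν 2 → μ = ν)
    (h0 : f4dh H = 0) : H = 0 := by
  ext μ
  by_contra hμ
  have e : ∀ ν a, (f4dh (monomial ν a) : K[X]) = Polynomial.monomial (ν 2) a := fun ν a => by
    rw [f4dh, aeval_monomial, Finsupp.prod_fintype _ _ fun _ => pow_zero _, Fin.prod_univ_four,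
      ← Polynomial.C_mul_X_pow_eq_monomial]
    simp
  have := congrArg (fun f => Polynomial.coeff f (μ 2)) h0
  rw [H.as_sum, map_sum] at this
  simp only [e, Polynomial.finsetSum_coeff] at this
  rw [Finset.sum_eq_single μ (fun ν hν hn => by
    rw [Polynomial.coeff_monomial, if_neg fun e => hn (h ν μ (mem_support_iff.1 hν) hμ e)])
    fun hn => absurd (mem_support_iff.2 hμ) hn] at this
  exact hμ (by simpa using this)

/-- multiplicity m i at the point P i -/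
noncomputable def Fp {ι : Type} (P : ι → Fin 4 → K) (m : ι → ℕ) : Submodule K (Cx K) :=
  ⨅ i, (pid (P i) ^ m i).restrictScalars K

theorem mem_Fp {ι : Type} {P : ι → Fin 4 → K} {m : ι → ℕ} {F : Cx K} :
    F ∈ Fp P m ↔ ∀ i, F ∈ pid (P i) ^ m i := Submodule.mem_iInf _

/-- multiples of a power of x0 -/
noncomputable def dv0 (t : ℕ) : Submodule K (Cx K) := (Ideal.span {X 0 ^ t}).restrictScalars K

theorem mem_dv0 {t : ℕ} {F : Cx K} : F ∈ dv0 t ↔ X 0 ^ t ∣ F := Ideal.mem_span_singleton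

/-- the fold along the fibre x0 = 0 with a free pencil, inside any space V -/
theorem fib4 [CharZero K] (E : Fin 4 → Fin 4 → K) (hE : ∀ i, Pt (E i)) (h0 : ∀ i, E i 0 = 0)
    (hd : ∀ i j, i ≠ j → dy (E i) (E j) ≠ 0) (μ : Fin 4 → ℕ) (t : ℕ) (p : ℤ)
    (V : Submodule K (Cx K)) (hV : ∀ F ∈ V, Bih p ((∑ i, μ i : ℕ) + 2 * t) F) (r : ℕ)
    (h1 : finrank K ↥(V ⊓ Fp E (fun i => μ i + t) ⊓ dv0 t) ≤ r + t)
    (h2 : finrank K ↥(V ⊓ Fp E (fun i => μ i + t) ⊓ dv0 (t + 1)) ≤ r) :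
    ∃ P : Fin 4 → Fin 4 → K, (∀ i, Pt (P i) ∧ P i 1 ≠ 0 ∧ P i 2 = E i 2 ∧ P i 3 = E i 3) ∧
      finrank K ↥(V ⊓ Fp P fun i => μ i + t) ≤ r := by
  have fV : FiniteDimensional K V := Submodule.finiteDimensional_of_le
    (S₂ := weightedHomogeneousSubmodule K bw (p, (∑ i, μ i : ℕ) + 2 * t)) hV
  let φ : Cx K →ₗ[K] K[X] := f4dh.toLinearMap.comp (f4pi (p - t).toNat)
  let V0 := V ⊓ Fp E (fun i => μ i + t) ⊓ dv0 t
  have f0 : FiniteDimensional K V0 :=
    Submodule.finiteDimensional_of_le (inf_le_left.trans inf_le_left)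
  have f1 : FiniteDimensional K ↥(V ⊓ Fp E (fun i => μ i + t) ⊓ dv0 (t + 1)) :=
    Submodule.finiteDimensional_of_le (inf_le_left.trans inf_le_left)
  have hk : V0 ⊓ LinearMap.ker φ ≤ V ⊓ Fp E (fun i => μ i + t) ⊓ dv0 (t + 1) := by
    rintro F ⟨⟨a1, a2⟩, a3⟩
    refine ⟨a1, mem_dv0.2 ((f4_dvd _ _ _).2 fun ν hν => ?_)⟩
    have a4 := bih_iff.1 (hV F a1.1)
    have a5 : f4pi (p - t).toNat F = 0 := f4dh_inj (fun α β b1 b2 b3 => by
      rw [f4pi_coeff] at b1 b2
      split_ifs at b1 b2 with c1 c2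
      · have := a4 α b1
        have := a4 β b2
        ext i
        fin_cases i <;> simp <;> omega
      · exact absurd rfl b2
      all_goals exact absurd rfl b1) a3
    have a6 := f4pi_coeff (p - t).toNat ν F
    have a7 := (f4_dvd _ _ _).1 (mem_dv0.1 a2) ν hν
    have a8 := a4 ν hν
    rw [a5] at a6
    split_ifs at a6 with c1
    · exact absurd a6.symm hν
    · omega
  obtain ⟨τ, w1, hc⟩ := ((wronK t (V0.map φ)).and (eventually_all.2 fun i =>
    (eventually_cofinite_ne (E i 2 / E i 3)).mono fun τ hτ (e : E i 3 * τ - E i 2 = 0) => by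
      by_cases b : E i 3 = 0
      · rw [b, zero_mul, zero_sub, neg_eq_zero] at e
        exact (hE i).2.elim (fun a => a e) fun a => a b
      · exact hτ (by field_simp; linear_combination e))).exists
  have hg : f4tp (∏ i, ly (E i) ^ μ i) ≠ 0 := by
    rw [map_prod, Finset.prod_ne_zero_iff]
    intro i _ e
    refine pow_ne_zero (μ i) (hc i) ?_
    simpa [f4tp, ly] using congrArg (Polynomial.eval τ) e
  obtain ⟨s, w2, hs⟩ := ((pencil_semi τ t hg (V0.map φ)).and (eventually_cofinite_ne 0)).exists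
  obtain ⟨ξ, ζ, P1, P2, hζ, D⟩ := f4_pen E hE hd hc hs
  have t1 : f4tp ((X 2 - C τ * X 3 : Cx K) ^ 2) = (Polynomial.X - Polynomial.C τ) ^ 2 := by
    simp [f4tp]
  have t2 : f4tp ((X 2 - C τ * X 3 + C s * X 3) * X 3 : Cx K) =
      Polynomial.X - Polynomial.C τ + Polynomial.C s := by simp [f4tp]
  have top := fun G => D.top μ t (G := G)
  rw [t1, t2] at top
  generalize hS : Submodule.span K (Set.range fun j : Fin (t + 1) => f4tp (∏ i, ly (E i) ^ μ i) *
    ((Polynomial.X - Polynomial.C τ) ^ 2) ^ (j : ℕ) *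
      (Polynomial.X - Polynomial.C τ + Polynomial.C s) ^ (t - j)) = S at w2
  have f2 : FiniteDimensional K ↥(weightedHomogeneousSubmodule K bw (p, (∑ i, μ i : ℕ) + 2 * t) ⊓
      Fp (fun i => ![ξ i, ζ i, E i 2, E i 3]) fun i => μ i + t) :=
    Submodule.finiteDimensional_of_le inf_le_left
  obtain ⟨η, w3, hη⟩ := ((low_semi f4pi f4pi_pi (p.toNat + 1)
    (weightedHomogeneousSubmodule K bw (p, (∑ i, μ i : ℕ) + 2 * t) ⊓
      Fp (fun i => ![ξ i, ζ i, E i 2, E i 3]) fun i => μ i + t) V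
    (Fp E (fun i => μ i + t) ⊓ dv0 t ⊓ S.comap φ) (fun G hG => by
      ext ν
      have := f4_sum 1 (p.toNat + 1) ν G
      simp only [one_pow, one_smul, one_mul, LinearMap.sum_apply] at this
      rw [this]
      split_ifs with c
      · rfl
      · by_contra hn
        have := bih_iff.1 hG.1 ν (Ne.symm hn)
        omega) fun k G hG hl => by
      obtain ⟨G', rfl⟩ := (f4_dvd 1 k G).2 fun ν hν => by
        by_contra hn
        have := f4pi_coeff (ν 1) ν G
        rw [hl _ (not_le.1 hn), if_pos rfl] at this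
        exact hν this.symm
      have b1 : Bih (p - k) ((∑ i, μ i : ℕ) + 2 * t) G' :=
        (Bih.of_mul hG.1 (bih_X1.pow k) (pow_ne_zero _ (X_ne_zero _))).of_eq (by ring) (by ring)
      have b2 : ∀ i, G' ∈ pid ![ξ i, ζ i, E i 2, E i 3] ^ (μ i + t) := fun i => by
        simpa using pid_div_pow (D.pt i) (not_pid (by simpa using hζ i)) k (mem_Fp.1 hG.2 i)
      by_cases c : p - k < t
      · rw [D.low μ t c b1 b2, mul_zero, map_zero]
        exact zero_mem _
      refine ⟨⟨mem_Fp.2 fun i => ?_, mem_dv0.2 ((f4_dvd _ _ _).2 fun ν hν => ?_)⟩, ?_⟩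
      · rw [f4pi_mul]
        refine Ideal.mul_mem_left _ _ (pid_map
          (aeval ![X 0, 0, X 2, X 3] : Cx K →ₐ[K] Cx K) ?_ ?_ (b2 i))
        · simpa [lx] using Ideal.mul_mem_left _ (C (ζ i))
            (f4_pid (hE i) bih_X0 (by simpa using h0 i))
        · rw [Pen.fix (bih_ly _)]
          exact ly_mem (E i)
      · rw [f4pi_coeff] at hν
        split_ifs at hν with c1
        · have := bih_iff.1 hG.1 ν hν
          omega
        · exact absurd rfl hν
      · change f4dh (f4pi _ (f4pi _ _)) ∈ S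
        rw [f4pi_pi]
        split_ifs with c1
        · have e : f4dh.comp (aeval ![X 0, 0, X 2, X 3]) = (f4tp : Cx K →ₐ[K] K[X]) :=
            algHom_ext fun i => by fin_cases i <;> simp [f4dh, f4tp]
          have e1 : f4dh (X 1 : Cx K) = 1 := by simp [f4dh]
          rw [f4pi_mul, map_mul, map_pow, e1, one_pow, one_mul, ← AlgHom.comp_apply, e, ← hS]
          exact top G' (b1.of_eq (by omega) rfl) b2
        · rw [map_zero]
          exact zero_mem _).and (eventually_cofinite_ne 0)).exists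
  refine ⟨fun i => ![η * ξ i, ζ i, E i 2, E i 3], fun i => ⟨⟨.inr (hζ i), (hE i).2⟩, hζ i, rfl,
    rfl⟩, le_trans (le_trans (Submodule.finrank_mono ?_) w3) ?_⟩
  · intro F hF
    refine ⟨hF.1, ?_⟩
    have b := hV F hF.1
    refine ⟨aeval ![X 0, C η⁻¹ * X 1, X 2, X 3] F, ⟨(b.aeval ![X 0, C η⁻¹ * X 1, X 2, X 3] bih_X0
      (bih_X1.cmul _) bih_X2 bih_X3).of_eq (by ring) (by ring), mem_Fp.2 fun i => pid_map
        (aeval ![X 0, C η⁻¹ * X 1, X 2, X 3] : Cx K →ₐ[K] Cx K) ?_ ?_ (mem_Fp.1 hF.2 i)⟩, ?_⟩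
    · have : (C η * C η⁻¹ : Cx K) = 1 := by rw [← map_mul, mul_inv_cancel₀ hη, map_one]
      convert lx_mem ![ξ i, ζ i, E i 2, E i 3] using 1
      simp only [lx, map_sub, map_mul, aeval_C, aeval_X, algebraMap_eq, Matrix.cons_val_zero,
        Matrix.cons_val_one]
      linear_combination (-C (ξ i) * X 1) * this
    · rw [Pen.fix (bih_ly _)]
      exact ly_mem ![ξ i, ζ i, E i 2, E i 3]
    · ext ν
      rw [f4_sum, f4_sc, ← mul_assoc, ← mul_pow, mul_inv_cancel₀ hη, one_pow, one_mul]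
      split_ifs with c
      · rfl
      · by_contra hn
        have := bih_iff.1 b ν (Ne.symm hn)
        omega
  · rw [← inf_assoc, ← inf_assoc]
    have f3 : FiniteDimensional K ↥(V0 ⊓ S.comap φ) := Submodule.finiteDimensional_of_le inf_le_left
    have a1 := rk_split φ (V0 ⊓ S.comap φ)
    have a2 := rk_split φ V0
    have a3 : finrank K ((V0 ⊓ S.comap φ).map φ) ≤ finrank K ↥(V0.map φ ⊓ S) :=
      Submodule.finrank_mono (le_inf (Submodule.map_mono inf_le_left)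
        (Submodule.map_le_iff_le_comap.2 inf_le_right))
    have a4 := Submodule.finrank_mono (inf_le_inf_right (LinearMap.ker φ)
      (inf_le_left : V0 ⊓ S.comap φ ≤ V0))
    have a5 := Submodule.finrank_mono hk
    change finrank K V0 ≤ _ at h1
    change finrank K ↥(V0 ⊓ S.comap φ) ≤ r
    omega

/-- the fold in the chart: the class minus t times and minus t + 1 times the fibre -/
theorem fib4_H0 [CharZero K] {κ : Type} (E : Fin 4 → Fin 4 → K) (hE : ∀ i, Pt (E i))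
    (h0 : ∀ i, E i 0 = 0) (hd : ∀ i j, i ≠ j → dy (E i) (E j) ≠ 0) (Q : κ → Fin 4 → K)
    (hQ : ∀ j, Pt (Q j)) (hQ0 : ∀ j, Q j 0 ≠ 0) (p q : ℤ) (m : Fin 4 → ℤ) (n : κ → ℤ) (t : ℕ)
    (hm : ∀ i, (t : ℤ) ≤ m i) (hq : q + 2 * t = ∑ i, m i) (r : ℕ)
    (h1 : finrank K (H0 (p - t) q (Sum.elim E Q) (Sum.elim (fun i => m i - t) n)) ≤ r + t)
    (h2 : finrank K (H0 (p - t - 1) q (Sum.elim E Q) (Sum.elim (fun i => m i - t - 1) n)) ≤ r) :
    ∃ P : Fin 4 → Fin 4 → K, (∀ i, Pt (P i) ∧ P i 1 ≠ 0 ∧ P i 2 = E i 2 ∧ P i 3 = E i 3) ∧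
      finrank K (H0 p q (Sum.elim P Q) (Sum.elim m n)) ≤ r := by
  have hμ : ∀ i, (m i - t).toNat + t = (m i).toNat := fun i => by have := hm i; omega
  have key : ∀ (a : ℕ) (p' : ℤ) (m' : Fin 4 → ℤ), p' = p - a → (∀ i, m' i = m i - a) →
      finrank K ↥(H0 p q Q n ⊓ Fp E (fun i => (m i - t).toNat + t) ⊓ dv0 a) ≤
        finrank K (H0 p' q (Sum.elim E Q) (Sum.elim m' n)) := by
    rintro a _ m' rfl hm'
    refine le_trans (Submodule.finrank_mono ?_)
      (Submodule.finrank_map_le (LinearMap.mulLeft K (X 0 ^ a : Cx K)) _)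
    rintro F ⟨⟨a1, a2⟩, a3⟩
    obtain ⟨G, rfl⟩ := mem_dv0.1 a3
    refine ⟨G, mem_H0.2 ⟨(Bih.of_mul (mem_H0.1 a1).1 (bih_X0.pow a)
      (pow_ne_zero _ (X_ne_zero _))).of_eq (by ring) (by ring), ?_⟩, rfl⟩
    rintro (i | j)
    · have := pid_div_pow (hE i) (j := 1) (c := X 0) (fun h => by simpa using pid_sq 0 h) a
        (mem_Fp.1 a2 i)
      refine Ideal.pow_le_pow_right ?_ this
      rw [hμ, Sum.elim_inl, hm']
      omega
    · simpa using pid_div_pow (hQ j) (not_pid (by simpa using hQ0 j)) a ((mem_H0.1 a1).2 j)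
  obtain ⟨P, a1, a2⟩ := fib4 E hE h0 hd (fun i => (m i - t).toNat) t p (H0 p q Q n)
    (fun F hF => (mem_H0.1 hF).1.of_eq rfl (by
      have := hm 0
      have := hm 1
      have := hm 2
      have := hm 3
      simp only [Fin.sum_univ_four] at hq ⊢
      omega)) r ((key t _ _ rfl fun _ => rfl).trans h1)
    ((key (t + 1) _ _ (by push_cast; ring) fun _ => by push_cast; ring).trans h2)
  refine ⟨P, a1, le_trans (Submodule.finrank_mono fun F hF => ?_) a2⟩
  exact ⟨mem_H0.2 ⟨(mem_H0.1 hF).1, fun j => (mem_H0.1 hF).2 (.inr j)⟩,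
    mem_Fp.2 fun i => hμ i ▸ (mem_H0.1 hF).2 (.inl i)⟩

end Pool.Agent.Lib.MP_d03834_ag.Core
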