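import Mathlib

/-! Polynomial families of linear maps, initial subspaces, general points of a line. -/

set_option autoImplicit false

namespace Pool.Agent.Lib.MP_d03834_ag.Core

open Filter Module Polynomial

section lin
variable {K A E E' : Type} [Field K] [AddCommGroup A] [Module K A] [AddCommGroup E] [Module K E]
  [AddCommGroup E'] [Module K E']

/-- a vector which depends polynomially on a parameter -/
def PolyV (w : K → E) : Prop := ∀ φ : E →ₗ[K] K, ∃ f : K[X], ∀ η, φ (w η) = f.eval η

theorem PolyV.const (x : E) : PolyV fun _ : K => x := fun φ => ⟨C (φ x), fun _ => by simp⟩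

theorem PolyV.add {w w' : K → E} (h : PolyV w) (h' : PolyV w') : PolyV fun η => w η + w' η :=
  fun φ => by
    obtain ⟨f, hf⟩ := h φ
    obtain ⟨g, hg⟩ := h' φ
    exact ⟨f + g, fun η => by rw [map_add, hf, hg, eval_add]⟩

theorem PolyV.pow {w : K → E} (h : PolyV w) (n : ℕ) : PolyV fun η => η ^ n • w η := fun φ => by
  obtain ⟨f, hf⟩ := h φ
  exact ⟨X ^ n * f, fun η => by rw [map_smul, hf]; simp⟩

theorem PolyV.map {w : K → E} (h : PolyV w) (ψ : E →ₗ[K] E') : PolyV fun η => ψ (w η) :=
  fun φ => h (φ.comp ψ)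

theorem PolyV.sum {ι : Type} (s : Finset ι) {w : ι → K → E} (h : ∀ i, PolyV (w i)) :
    PolyV fun η => ∑ i ∈ s, w i η := fun φ => by
  choose f hf using fun i => h i φ
  exact ⟨∑ i ∈ s, f i, fun η => by simp only [map_sum, hf, eval_finsetSum]⟩

/-- the kernel can only grow in the limit -/
theorem ker_semi [FiniteDimensional K A] (T : K → A →ₗ[K] E) (hT : ∀ a, PolyV fun η => T η a) :
    ∀ᶠ η in cofinite, finrank K (LinearMap.ker (T η)) ≤ finrank K (LinearMap.ker (T 0)) := by
  classical
  obtain ⟨B, hB⟩ := (LinearMap.ker (T 0)).exists_isCompl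
  obtain ⟨ψ, hψ⟩ := LinearMap.exists_leftInverse_of_injective ((T 0).comp B.subtype)
    (LinearMap.ker_eq_bot'.2 fun x hx => Subtype.ext (Submodule.disjoint_def.1 hB.disjoint _ hx x.2))
  let b := Module.finBasis K B
  choose f hf using fun i j => hT (b j) ((b.coord i).comp ψ)
  have hd : ∀ η, (Matrix.of f).det.eval η = LinearMap.det (ψ.comp ((T η).comp B.subtype)) := by
    intro η
    rw [← LinearMap.det_toMatrix b, ← coe_evalRingHom, RingHom.map_det]
    congr 1
    ext i j
    rw [LinearMap.toMatrix_apply]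
    exact (hf i j η).symm
  have h0 : (Matrix.of f).det ≠ 0 := fun e => by
    have := hd 0
    rw [e, hψ, eval_zero, LinearMap.det_id] at this
    exact zero_ne_one this
  have h2 : ∀ᶠ η in cofinite, ¬(Matrix.of f).det.IsRoot η := by
    simpa [eventually_cofinite] using finite_setOfPred_isRoot h0
  filter_upwards [h2] with η hη
  rw [IsRoot, hd, LinearMap.det_eq_zero_iff_ker_ne_bot, not_not] at hη
  have h3 : Disjoint (LinearMap.ker (T η)) B := Submodule.disjoint_def.2 fun x hx hb => by
    have : (⟨x, hb⟩ : B) ∈ LinearMap.ker (ψ.comp ((T η).comp B.subtype)) := by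
      rw [LinearMap.mem_ker, LinearMap.comp_apply, LinearMap.comp_apply, Submodule.subtype_apply,
        LinearMap.mem_ker.1 hx, map_zero]
    rw [hη] at this
    exact congrArg Subtype.val ((Submodule.mem_bot K).1 this)
  have h4 := Submodule.finrank_add_finrank_le_of_disjoint h3
  have h5 := Submodule.finrank_add_eq_of_isCompl hB
  omega

/-- the intersection with a moving subspace can only grow in the limit -/
theorem fam_semi [FiniteDimensional K A] (σ : K → A →ₗ[K] E) (hσ : ∀ a, PolyV fun η => σ η a)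
    (h0 : Function.Injective (σ 0)) (V T : Submodule K E) [FiniteDimensional K V]
    (hT : ∀ a, σ 0 a ∈ T) :
    ∀ᶠ η in cofinite, finrank K ↥(V ⊓ LinearMap.range (σ η)) ≤ finrank K ↥(V ⊓ T) := by
  filter_upwards [ker_semi (fun η => V.mkQ.comp (σ η)) fun a => (hσ a).map V.mkQ] with η hη
  have h1 : V ⊓ LinearMap.range (σ η) ≤ (LinearMap.ker (V.mkQ.comp (σ η))).map (σ η) := by
    rintro _ ⟨hx, a, rfl⟩
    exact ⟨a, (Submodule.Quotient.mk_eq_zero V).2 hx, rfl⟩
  have h2 : (LinearMap.ker (V.mkQ.comp (σ 0))).map (σ 0) ≤ V ⊓ T := by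
    rintro _ ⟨a, ha, rfl⟩
    exact ⟨(Submodule.Quotient.mk_eq_zero V).1 ha, hT a⟩
  have h3 := Submodule.finrank_mono h2
  rw [← (Submodule.equivMapOfInjective _ h0 _).finrank_eq] at h3
  exact (Submodule.finrank_mono h1).trans ((Submodule.finrank_map_le _ _).trans (hη.trans h3))

/-- the limit of a subspace under a one parameter group is spanned by its lowest terms -/
theorem low_semi (π : ℕ → E →ₗ[K] E) (hπ : ∀ n j F, π n (π j F) = if n = j then π j F else 0)
    (N : ℕ) (I V T : Submodule K E) [FiniteDimensional K I] [FiniteDimensional K V]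
    (hI : ∀ G ∈ I, ∑ j ∈ Finset.range N, π j G = G)
    (hT : ∀ k, ∀ G ∈ I, (∀ j < k, π j G = 0) → π k G ∈ T) :
    ∀ᶠ η : K in cofinite, finrank K ↥(V ⊓ I.map (∑ j ∈ Finset.range N, η ^ j • π j)) ≤
      finrank K ↥(V ⊓ T) := by
  let J : ℕ → Submodule K E := fun k => I ⊓ ⨅ j : Fin k, LinearMap.ker (π j)
  have hJ : ∀ k G, G ∈ J k ↔ G ∈ I ∧ ∀ j < k, π j G = 0 := fun k G => by
    simp only [J, Submodule.mem_inf, Submodule.mem_iInf, LinearMap.mem_ker, Fin.forall_iff]
  have hl : ∀ k, ∃ l : (J k).map (π k) →ₗ[K] E, ∀ s, l s ∈ J k ∧ π k (l s) = s := fun k => by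
    obtain ⟨g, hg⟩ := LinearMap.exists_rightInverse_of_surjective
      ((π k).submoduleMap (J k)) (LinearMap.range_eq_top.2 (LinearMap.submoduleMap_surjective _ _))
    exact ⟨(J k).subtype.comp g, fun s => ⟨(g s).2,
      congrArg Subtype.val (LinearMap.congr_fun hg s)⟩⟩
  choose l hl using hl
  have hfd : ∀ k, FiniteDimensional K (J k) := fun k => Submodule.finiteDimensional_of_le inf_le_left
  let σ : K → ((k : Fin N) → (J k).map (π k)) →ₗ[K] E := fun η =>
    ∑ k : Fin N, ∑ j ∈ Finset.range N, η ^ (j - k) • (π j).comp ((l k).comp (LinearMap.proj k))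
  have hσ : ∀ η a, σ η a = ∑ k : Fin N, ∑ j ∈ Finset.range N, η ^ (j - k) • π j (l k (a k)) :=
    fun η a => by simp [σ]
  have h0 : ∀ a, σ 0 a = ∑ k : Fin N, (a k : E) := fun a => by
    rw [hσ]
    refine Finset.sum_congr rfl fun k _ => ?_
    rw [Finset.sum_eq_single (k : ℕ), Nat.sub_self, pow_zero, one_smul, (hl k _).2]
    · intro j _ hj
      rcases lt_or_gt_of_ne hj with h | h
      · rw [((hJ _ _).1 (hl k _).1).2 j h, smul_zero]
      · rw [zero_pow (by omega), zero_smul]
    · intro h
      exact absurd (Finset.mem_range.2 k.2) h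
  have hdec : ∀ d k, k + d = N → ∀ G ∈ J k, ∃ a : (k : Fin N) → (J k).map (π k),
      G = ∑ k : Fin N, l k (a k) := by
    intro d
    induction d with
    | zero =>
      intro k hk G hG
      refine ⟨0, ?_⟩
      rw [← hI G hG.1, Finset.sum_eq_zero fun j hj => ((hJ _ _).1 hG).2 j
        (by have := Finset.mem_range.1 hj; omega)]
      simp
    | succ d ih =>
      intro k hk G hG
      let s : (J k).map (π k) := ⟨π k G, Submodule.mem_map_of_mem hG⟩
      obtain ⟨a, ha⟩ := ih (k + 1) (by omega) (G - l k s) ((hJ _ _).2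
        ⟨I.sub_mem hG.1 (hl k s).1.1, fun j hj => by
          rcases Nat.lt_succ_iff_lt_or_eq.1 hj with h | rfl
          · exact ((hJ _ _).1 ((J k).sub_mem hG (hl k s).1)).2 j h
          · rw [map_sub, (hl _ s).2, sub_self]⟩)
      refine ⟨a + Pi.single (⟨k, by omega⟩ : Fin N) s, ?_⟩
      simp only [Pi.add_apply, map_add, Finset.sum_add_distrib, ← ha]
      rw [Finset.sum_eq_single (⟨k, by omega⟩ : Fin N), Pi.single_eq_same, sub_add_cancel]
      · intro j _ hj
        rw [Pi.single_eq_of_ne hj, map_zero]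
      · intro h
        exact absurd (Finset.mem_univ _) h
  have h1 := fam_semi σ (fun a => by
      simp only [hσ]
      exact PolyV.sum _ fun k => PolyV.sum _ fun j => (PolyV.const _).pow _)
    (LinearMap.ker_eq_bot.1 (LinearMap.ker_eq_bot'.2 fun a ha => funext fun k => by
      have e := congrArg (π k) ha
      have e2 : ∀ j : Fin N, π k (a j : E) = if k = j then (a j : E) else 0 := fun j => by
        obtain ⟨x, -, hx⟩ := (a j).2
        rw [← hx, hπ]
        simp only [Fin.ext_iff]
      rw [h0, map_sum, map_zero] at e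
      simp only [e2, Finset.sum_ite_eq, Finset.mem_univ, if_true] at e
      exact Subtype.ext e)) V T fun a => by
      rw [h0]
      refine T.sum_mem fun k _ => ?_
      obtain ⟨x, hx, e⟩ := (a k).2
      rw [← e]
      exact hT k x hx.1 ((hJ _ _).1 hx).2
  filter_upwards [h1, eventually_cofinite_ne 0] with η hη _
  refine le_trans (Submodule.finrank_mono (inf_le_inf_left _ ?_)) hη
  rintro _ ⟨G, hG, rfl⟩
  obtain ⟨a, ha⟩ := hdec N 0 (zero_add _) G ((hJ _ _).2 ⟨hG, fun j hj => absurd hj (by omega)⟩)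
  refine ⟨fun k => η ^ (k : ℕ) • a k, ?_⟩
  rw [hσ, ha, map_sum]
  refine Finset.sum_congr rfl fun k _ => ?_
  rw [LinearMap.sum_apply]
  refine Finset.sum_congr rfl fun j _ => ?_
  rw [map_smul, map_smul, smul_smul, LinearMap.smul_apply, ← pow_add]
  by_cases h : j < k
  · rw [((hJ _ _).1 (hl k _).1).2 j h, smul_zero, smul_zero]
  · rw [Nat.sub_add_cancel (not_lt.1 h)]

theorem rk_split (φ : E →ₗ[K] E') (S : Submodule K E) [FiniteDimensional K S] :
    finrank K (S.map φ) + finrank K ↥(S ⊓ LinearMap.ker φ) = finrank K S := by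
  rw [← LinearMap.finrank_range_add_finrank_ker (φ.domRestrict S), LinearMap.range_domRestrict,
    LinearMap.ker_domRestrict, ← Submodule.finrank_map_subtype_eq, Submodule.map_comap_subtype]

end lin

section wr
variable {K : Type} [Field K] [CharZero K]

/-- polynomials with a zero of order k at τ -/
noncomputable def ZK (τ : K) (k : ℕ) : Submodule K K[X] :=
  (Ideal.span {(X - C τ) ^ k}).restrictScalars K

omit [CharZero K] in
theorem mem_ZK {τ : K} {k : ℕ} {f : K[X]} : f ∈ ZK τ k ↔ (X - C τ) ^ k ∣ f :=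
  Ideal.mem_span_singleton

theorem wronK_inj {τ : K} {f g : K[X]} (hg : ¬g.IsRoot τ) (hf : f.IsRoot τ)
    (h : derivative f * g - f * derivative g = 0) : f = 0 := by
  by_contra h0
  obtain ⟨q, h1, h2⟩ := exists_eq_pow_rootMultiplicity_mul_and_not_dvd f h0 τ
  obtain ⟨e, he⟩ : ∃ e, rootMultiplicity τ f = e + 1 :=
    Nat.exists_eq_succ_of_ne_zero ((rootMultiplicity_pos h0).2 hf).ne'
  rw [he] at h1
  have h3 : (X - C τ) ^ e * (C ((e : K) + 1) * q * g +
      (X - C τ) * (derivative q * g - q * derivative g)) = 0 := by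
    rw [← h, h1]
    simp only [derivative_mul, derivative_X_sub_C_pow, Nat.add_sub_cancel, map_add, map_natCast,
      map_one, Nat.cast_add, Nat.cast_one]
    ring
  have h4 := congrArg (eval τ) ((mul_eq_zero.1 h3).resolve_left (pow_ne_zero _ (X_sub_C_ne_zero τ)))
  simp only [eval_add, eval_mul, eval_C, eval_sub, eval_X, sub_self, zero_mul, add_zero,
    eval_zero, mul_eq_zero] at h4
  rcases h4 with (h4 | h4) | h4
  · exact Nat.cast_add_one_ne_zero e h4
  · exact h2 (dvd_iff_isRoot.2 h4)
  · exact hg h4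

/-- a general point imposes independent conditions -/
theorem wronK (k : ℕ) (W : Submodule K K[X]) [FiniteDimensional K W] :
    ∀ᶠ τ in cofinite, finrank K ↥(W ⊓ ZK τ k) ≤ finrank K W - k := by
  induction k generalizing W with
  | zero => exact Eventually.of_forall fun τ => Submodule.finrank_mono inf_le_left
  | succ k ih =>
    by_cases h0 : W = ⊥
    · exact Eventually.of_forall fun τ => by rw [h0, bot_inf_eq, finrank_bot]; exact Nat.zero_le _
    obtain ⟨g, hg, hg0⟩ := (Submodule.ne_bot_iff W).1 h0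
    let D : K[X] →ₗ[K] K[X] :=
      (LinearMap.mulRight K g).comp derivative - LinearMap.mulRight K (derivative g)
    have hD : ∀ f, D f = derivative f * g - f * derivative g := fun f => rfl
    have h1 : finrank K (W.map D) + 1 ≤ finrank K W := by
      have e := rk_split D W
      have : W ⊓ LinearMap.ker D ≠ ⊥ := (Submodule.ne_bot_iff _).2
        ⟨g, ⟨hg, by change D g = 0; rw [hD]; ring⟩, hg0⟩
      have := Submodule.finrank_eq_zero.not.2 this
      omega
    have h2 : ∀ᶠ τ in cofinite, ¬g.IsRoot τ := by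
      simpa [eventually_cofinite] using finite_setOfPred_isRoot hg0
    filter_upwards [ih (W.map D), h2] with τ a1 a2
    have h3 : finrank K ↥(W ⊓ ZK τ (k + 1)) ≤ finrank K ↥(W.map D ⊓ ZK τ k) := by
      refine LinearMap.finrank_le_finrank_of_injective (f := D.restrict (p := W ⊓ ZK τ (k + 1))
        (q := W.map D ⊓ ZK τ k) fun f hf => ⟨Submodule.mem_map_of_mem hf.1, mem_ZK.2 ?_⟩) ?_
      · have a3 := mem_ZK.1 hf.2
        rw [hD]
        exact dvd_sub ((by simpa using pow_sub_one_dvd_derivative_of_pow_dvd a3 :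
          (X - C τ) ^ k ∣ derivative f).mul_right _)
          (((pow_dvd_pow _ k.le_succ).trans a3).mul_right _)
      · refine LinearMap.ker_eq_bot.1 (LinearMap.ker_eq_bot'.2 fun f hf => Subtype.ext ?_)
        exact wronK_inj a2 (dvd_iff_isRoot.1 ((dvd_pow_self _ k.succ_ne_zero).trans
          (mem_ZK.1 f.2.2))) (congrArg Subtype.val hf)
    omega

omit [CharZero K] in
/-- the symmetric power of a pencil which degenerates -/
theorem pencil_semi (τ : K) (t : ℕ) {g : K[X]} (hg : g ≠ 0) (W : Submodule K K[X])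
    [FiniteDimensional K W] : ∀ᶠ s in cofinite, finrank K ↥(W ⊓ Submodule.span K (Set.range
      fun j : Fin (t + 1) => g * ((X - C τ) ^ 2) ^ (j : ℕ) * (X - C τ + C s) ^ (t - j))) ≤
        finrank K ↥(W ⊓ ZK τ t) := by
  have hp : ∀ (n : ℕ) (x : K[X]), PolyV fun s : K => x * (X - C τ + C s) ^ n := by
    intro n x
    induction n with
    | zero => simpa using PolyV.const x
    | succ n ih =>
      have := (ih.map (LinearMap.mulRight K (X - C τ))).add (ih.pow 1)
      have e : (fun s : K => x * (X - C τ + C s) ^ (n + 1)) = fun s : K =>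
          LinearMap.mulRight K (X - C τ) (x * (X - C τ + C s) ^ n) +
            s ^ 1 • (x * (X - C τ + C s) ^ n) := funext fun s => by
        simp only [LinearMap.mulRight_apply, smul_eq_C_mul]
        ring
      rwa [e]
  have e0 : ∀ a : Fin (t + 1) → K, Fintype.linearCombination K (fun j : Fin (t + 1) =>
      g * ((X - C τ) ^ 2) ^ (j : ℕ) * (X - C τ + C 0) ^ (t - j)) a =
        (X - C τ) ^ t * (g * ∑ j, C (a j) * (X - C τ) ^ (j : ℕ)) := fun a => by
    rw [Fintype.linearCombination_apply, Finset.mul_sum, Finset.mul_sum]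
    refine Finset.sum_congr rfl fun j _ => ?_
    obtain ⟨d, hd⟩ := Nat.exists_eq_add_of_le (Nat.lt_succ_iff.1 j.2)
    generalize (j : ℕ) = i at hd
    rw [hd, Nat.add_sub_cancel_left, smul_eq_C_mul, map_zero, add_zero]
    generalize X - C τ = u
    ring
  have := fam_semi (fun s => Fintype.linearCombination K fun j : Fin (t + 1) =>
    g * ((X - C τ) ^ 2) ^ (j : ℕ) * (X - C τ + C s) ^ (t - j)) (fun a => by
      simp only [Fintype.linearCombination_apply]
      exact PolyV.sum _ fun j => (hp _ _).map (a j • LinearMap.id))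
    (LinearMap.ker_eq_bot.1 (LinearMap.ker_eq_bot'.2 fun a ha => funext fun j => by
      rw [e0, mul_eq_zero, mul_eq_zero] at ha
      have h1 := congrArg (fun f => (taylor τ f).coeff j)
        ((ha.resolve_left (pow_ne_zero _ (X_sub_C_ne_zero τ))).resolve_left hg)
      simpa [taylor_mul, taylor_pow, coeff_X_pow, Fin.val_inj] using h1))
    W (ZK τ t) fun a => by rw [e0]; exact mem_ZK.2 (dvd_mul_right _ _)
  filter_upwards [this] with s hs
  rwa [Fintype.range_linearCombination] at hs

end wr

end Pool.Agent.Lib.MP_d03834_ag.Core
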