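import Pool.Agent.Lib.MP_d03834_ag.Core.Fib4
import Pool.Agent.Lib.MP_d03834_ag.Core.BiPlane

/-! The fold along a line through five points of the plane. -/

set_option autoImplicit false

namespace Pool.Agent.Lib.MP_d03834_ag.Core

open MvPolynomial Module

variable {K : Type} [Field K]

theorem f4_a3_zero : a3 (0 : Fin 3 → K) = idealOfVars (Fin 3) K := by
  refine le_antisymm (fun F hF => ?_) (Ideal.span_le.2 ?_)
  · rw [← pow_one (idealOfVars _ _), mem_pow_idealOfVars_iff']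
    intro x hx
    rw [(Finsupp.degree_eq_zero_iff x).1 (by omega), ← constantCoeff_eq, ← eval_zero]
    exact hF
  · rintro _ ⟨i, rfl⟩
    simp [a3, RingHom.mem_ker]

/-- division by a power of X 0 -/
theorem a3_divX {v : Fin 3 → K} (hv : v 0 = 0) {a m : ℕ} {F : P3 K}
    (h : X 0 ^ a * F ∈ a3 v ^ m) : F ∈ a3 v ^ (m - a) := by
  let θ : (Fin 3 → K) → P3 K →ₐ[K] P3 K := fun w => aeval fun i => X i + C (w i)
  have e : θ (-v) (θ v F) = F := by
    have : (θ (-v)).comp (θ v) = AlgHom.id K _ := algHom_ext fun i => by simp [θ]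
    exact DFunLike.congr_fun this F
  have h1 := a3_map (θ v) 0 v (fun i => by simp [θ]) m h
  have e1 : θ v (X 0) = X 0 := by simp [θ, hv]
  rw [map_mul, map_pow, e1, f4_a3_zero, mem_pow_idealOfVars_iff'] at h1
  rw [← e]
  refine a3_map (θ (-v)) v 0 (fun i => by simp [θ]) _ ?_
  rw [f4_a3_zero, mem_pow_idealOfVars_iff']
  intro x hx
  have := h1 (Finsupp.single 0 a + x) (by rw [map_add, Finsupp.degree_single]; omega)
  rwa [X_pow_eq_monomial, coeff_monomial_mul, one_mul] at this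

theorem f4_hom_div {d a : ℕ} {F : P3 K} (h : (X 0 ^ a * F).IsHomogeneous d) :
    F.IsHomogeneous (d - a) := fun x hx => by
  have := h (d := Finsupp.single 0 a + x) (by
    rwa [X_pow_eq_monomial, coeff_monomial_mul, one_mul])
  rw [map_add, Finsupp.weight_single, Pi.one_apply, smul_eq_mul, mul_one] at this
  omega

/-- four points approach the line X 0 = 0, which passes through a fifth point -/
theorem fib4_plane [CharZero K] {κ : Type} (y : Fin 4 → K) (hy : Function.Injective y)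
    (Q : κ → Fin 3 → K) (hQ : ∀ j, Q j 0 ≠ 0) (d b t r : ℕ) (m : Fin 4 → ℕ) (n : κ → ℕ)
    (hm : ∀ i, t ≤ m i) (hd : d + 2 * t = ∑ i, m i + b)
    (h1 : finrank K (Sp (d - t) (Sum.elim (Sum.elim (fun i => ![0, y i, 1])
      fun _ : Unit => ![0, 1, 0]) Q)
        (Sum.elim (Sum.elim (fun i => m i - t) fun _ => b - t) n)) ≤ r + t)
    (h2 : finrank K (Sp (d - (t + 1)) (Sum.elim (Sum.elim (fun i => ![0, y i, 1])
      fun _ : Unit => ![0, 1, 0]) Q)
        (Sum.elim (Sum.elim (fun i => m i - (t + 1)) fun _ => b - (t + 1)) n)) ≤ r) :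
    ∃ x : Fin 4 → K, finrank K (Sp d (Sum.elim (Sum.elim (fun i => ![x i, y i, 1])
      fun _ : Unit => ![0, 1, 0]) Q) (Sum.elim (Sum.elim m fun _ => b) n)) ≤ r := by
  have hμ : ∀ i, m i - t + t = m i := fun i => Nat.sub_add_cancel (hm i)
  have hb : b ≤ d := by
    have := hm 0
    have := hm 1
    have := hm 2
    have := hm 3
    rw [Fin.sum_univ_four] at hd
    omega
  let S := Sp d (Sum.elim (fun _ : Unit => ![0, 1, 0]) Q) (Sum.elim (fun _ => b) n)
  let V : Submodule K (Cx K) := weightedHomogeneousSubmodule K bw (d, d - b) ⊓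
    (S.map (aeval (prj (0 : K) 0)).toLinearMap).comap (LinearMap.mulLeft K (fy 0 ^ b))
  let ψ : Cx K →ₐ[K] P3 K := aeval ![X 0, X 2, X 1, X 2]
  have e0 : ψ.comp (aeval (prj 0 0)) = aeval fun i => X 2 * X i := by
    refine algHom_ext fun i => ?_
    fin_cases i <;> simp [ψ, prj, fx, fy, mul_comm]
  have e1 : ∀ F G, F ∈ S → aeval (prj (0 : K) 0) F = fy 0 ^ b * G → ψ G = X 2 ^ (d - b) * F := by
    intro F G hF e
    have h3 := DFunLike.congr_fun e0 F
    have h4 : ψ (fy 0) = X 2 := by simp [ψ, fy]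
    rw [AlgHom.comp_apply, e, map_mul, map_pow, h4, scale_hom (mem_Sp.1 hF).1] at h3
    refine mul_left_cancel₀ (pow_ne_zero b (X_ne_zero 2)) ?_
    rw [h3, ← mul_assoc, ← pow_add, Nat.add_sub_cancel' hb]
  have key : ∀ a : ℕ, finrank K ↥(V ⊓ Fp (fun i => ![0, 1, y i, 1]) (fun i => m i - t + t) ⊓
      dv0 a) ≤ finrank K (Sp (d - a) (Sum.elim (Sum.elim (fun i => ![0, y i, 1])
        fun _ : Unit => ![0, 1, 0]) Q)
          (Sum.elim (Sum.elim (fun i => m i - a) fun _ => b - a) n)) := by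
    intro a
    refine rk_div ψ.toLinearMap (X 2 ^ (d - b) * X 0 ^ a) ?_ ?_
    · rintro G ⟨⟨⟨-, F, hF, e⟩, -⟩, -⟩ h0
      have h3 := e1 F G hF e
      rw [show ψ G = 0 from h0, eq_comm, mul_eq_zero] at h3
      rw [h3.resolve_left (pow_ne_zero _ (X_ne_zero _)), map_zero, eq_comm] at e
      exact (mul_eq_zero.1 e).resolve_left (pow_ne_zero _ (fy_ne 0))
    rintro G ⟨⟨⟨-, F, hF, e⟩, a2⟩, a3'⟩
    have h3 := e1 F G hF e
    have h4 : X 0 ^ a ∣ X 2 ^ (d - b) * F := by
      have h5 := _root_.map_dvd ψ (mem_dv0.1 a3')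
      rwa [h3, map_pow, show ψ (X 0) = X 0 by simp [ψ]] at h5
    obtain ⟨F1, rfl⟩ := X_prime.pow_dvd_of_dvd_mul_left a (fun h =>
      absurd (X_dvd_X.1 (X_prime.dvd_of_dvd_pow h)) (by decide)) h4
    refine ⟨F1, mem_Sp.2 ⟨f4_hom_div (mem_Sp.1 hF).1, ?_⟩, by rw [mul_assoc]; exact h3⟩
    rintro ((i | i) | j)
    · have h5 := pid_map ψ (I := a3 ![0, y i, 1]) (by simp [ψ, lx, a3, RingHom.mem_ker])
        (by simp [ψ, ly, a3, RingHom.mem_ker]) (mem_Fp.1 a2 i)
      rw [h3, hμ] at h5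
      exact a3_divX rfl (a3_cancel (by simp) h5)
    · exact a3_divX rfl ((mem_Sp.1 hF).2 (.inl i))
    · exact a3_cancel (by simpa using fun h => absurd h (hQ j)) ((mem_Sp.1 hF).2 (.inr j))
  obtain ⟨P, a1, a2⟩ := fib4 (fun i => ![0, 1, y i, 1]) (fun i => ⟨.inr (by simp), .inr (by simp)⟩)
    (fun _ => rfl) (fun i j h => by simpa [dy, sub_eq_zero] using (hy.ne h).symm)
    (fun i => m i - t) t d V (fun F hF => Bih.of_eq hF.1 rfl (by
      have := hμ 0
      have := hμ 1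
      have := hμ 2
      have := hμ 3
      simp only [Fin.sum_univ_four] at hd ⊢
      omega)) r ((key t).trans h1) ((key (t + 1)).trans h2)
  have fV : FiniteDimensional K ↥(V ⊓ Fp P fun i => m i - t + t) :=
    Submodule.finiteDimensional_of_le (inf_le_left.trans inf_le_left)
  refine ⟨fun i => P i 0 / P i 1, le_trans (rk_div (aeval (prj 0 0)).toLinearMap (fy 0 ^ b)
    (fun F hF => prj_inj 0 0 (mem_Sp.1 hF).1) fun F hF => ?_) a2⟩
  obtain ⟨h, hm'⟩ := mem_Sp.1 hF
  obtain ⟨G, e⟩ := prj_dvd (0 : K) 0 (a := 0) (b := b) h (by simp) (hm' (.inl (.inr ())))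
  rw [pow_zero, one_mul] at e
  refine ⟨G, ⟨⟨((e ▸ bih_prj 0 0 h).of_mul ((bih_fy 0).pow b) (pow_ne_zero _ (fy_ne 0))).of_eq
    (by ring) (by ring), F, mem_Sp.2 ⟨h, ?_⟩, e⟩, mem_Fp.2 fun i => ?_⟩, e⟩
  · rintro (i | j)
    · exact hm' (.inl (.inr i))
    · exact hm' (.inr j)
  · obtain ⟨b1, b2, b3, b4⟩ := a1 i
    have c3 : P i 3 = 1 := b4
    have c2 : P i 2 = y i := b3
    have h5 := prj_pid (ξ := 0) (η := 0) (P := P i) (by simpa using b2) (by simp [c3]) h
      (a3_smul (inv_ne_zero b2) h (m := m i) (by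
        have e2 : (P i 1)⁻¹ • prP 0 0 (P i) = ![P i 0 / P i 1, y i, 1] := by
          funext k
          fin_cases k <;> simp [prP, c2, c3, b2, div_eq_inv_mul]
        rw [e2]
        exact hm' (.inl (.inl i))))
    rw [e] at h5
    simpa [hμ] using pid_div_pow b1 (not_pid (by simp [fy_eval, c3])) b h5

end Pool.Agent.Lib.MP_d03834_ag.Core
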