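import Pool.Agent.Lib.MP_d03834_ag.Core.HarbA
import Pool.Agent.Lib.MP_d03834_ag.Core.Crem
import Pool.Agent.Lib.MP_d03834_ag.Core.T4

/-! General points: standard classes of nonnegative anticanonical degree, and a checker. -/

set_option autoImplicit false

namespace Pool.Agent.Lib.MP_d03834_ag.Core

open MvPolynomial Module Nag

variable {ι : Type} [Fintype ι]

theorem Harb.two_choose (n : ℕ) : 2 * (n + 1).choose 2 = n * (n + 1) := by
  induction n with
  | zero => rfl
  | succ n ih => rw [Nat.choose_succ_succ' (n + 1) 1, Nat.choose_one_right, mul_add, ih]; ring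

/-- standard classes with sum of multiplicities at most 3 d, doubled form -/
theorem Hle.harb2 {d r : ℕ} {μ : ι → ℕ} (h1 : Harb.Std d μ) (h2 : ∑ i, μ i ≤ 3 * d)
    (h3 : (d + 1) * (d + 2) ≤ 2 * r + 1 + ∑ i, μ i * (μ i + 1)) : Hle d μ r := by
  let t : ι → ℂ := fun i => ((Fintype.equivFin ι i + 1 : ℕ) : ℂ)
  have ht : Function.Injective t := fun i j e =>
    (Fintype.equivFin ι).injective (Fin.ext (Nat.succ_injective (Nat.cast_injective e)))
  have a := Harb.harb ht (fun ν ⟨i, hi⟩ h => by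
    have h0 : ∑ i, ν i * (Fintype.equivFin ι i + 1) = 0 := by
      have : ((∑ i, ν i * (Fintype.equivFin ι i + 1) : ℕ) : ℂ) = 0 := by
        rw [← h, Nat.cast_sum]
        exact Finset.sum_congr rfl fun i _ => Nat.cast_mul _ _
      exact_mod_cast this
    exact mul_ne_zero hi (Nat.succ_ne_zero _)
      (Finset.sum_eq_zero_iff.1 h0 i (Finset.mem_univ _))) d μ h1 h2
  refine hle_aff (fun i => ![t i, t i ^ 3]) (le_trans (Submodule.finrank_mono
    (t := Harb.PC t (fun i => t i ^ 3) (d + 1) μ) fun F hF => ?_) ?_)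
  · obtain ⟨b1, b2⟩ := mem_Aff.1 hF
    refine Harb.mem_PC.2 ⟨fun ν hν => by_contra fun h => hν (b1 ν (by omega)), fun i =>
      Ideal.pow_right_mono (fun x hx => ?_) _ (b2 i)⟩
    refine Ideal.span_le.2 ?_ ((H19.mem_pid _ x).2 hx)
    rintro _ ⟨a, rfl⟩
    fin_cases a
    · exact End.aid0 _ _
    · exact End.aid1 _ _
  · rw [Harb.TS] at a
    omega

/-- standard classes with sum of multiplicities at most 3 d are not special -/
theorem Hle.harb {d : ℕ} {μ : ι → ℕ} (h1 : Harb.Std d μ) (h2 : ∑ i, μ i ≤ 3 * d) :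
    Hle d μ ((d + 2).choose 2 - ∑ i, (μ i + 1).choose 2) := by
  refine Hle.harb2 h1 h2 ?_
  have a : 2 * (d + 2).choose 2 = (d + 1) * (d + 2) := Harb.two_choose (d + 1)
  have b : ∑ i, μ i * (μ i + 1) = 2 * ∑ i, (μ i + 1).choose 2 := by
    rw [Finset.mul_sum]
    exact Finset.sum_congr rfl fun i _ => (Harb.two_choose _).symm
  rw [b, ← a]
  omega

/-- at most nine points -/
theorem Hle.harb9 {d r : ℕ} {μ : ι → ℕ} (h0 : Fintype.card ι ≤ 9) (h1 : Harb.Std d μ)
    (h3 : (d + 1) * (d + 2) ≤ 2 * r + 1 + ∑ i, μ i * (μ i + 1)) : Hle d μ r :=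
  Hle.harb2 h1 (h1.nine Finset.univ h0 fun _ _ => Finset.mem_univ _) h3

omit [Fintype ι] in
/-- the three largest multiplicities are bounded by a, b, c -/
theorem Harb.std_top {d a b c : ℕ} {μ : ι → ℕ} (i j : ι) (hba : b ≤ a) (hcb : c ≤ b)
    (ha : μ i ≤ a) (hb : μ j ≤ b) (hc : ∀ q, q ≠ i → q ≠ j → μ q ≤ c) (hd : a + b + c ≤ d) :
    Harb.Std d μ := by
  classical
  intro s hs
  have h1 : ∑ q ∈ s, μ q ≤
      ∑ q ∈ s, (c + (if q = i then a - c else 0) + if q = j then b - c else 0) :=
    Finset.sum_le_sum fun q _ => by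
      by_cases e1 : q = i
      · rw [if_pos e1, e1]; omega
      by_cases e2 : q = j
      · rw [if_pos e2, e2]; omega
      have := hc q e1 e2
      omega
  rw [Finset.sum_add_distrib, Finset.sum_add_distrib, Finset.sum_const, smul_eq_mul,
    Finset.sum_ite_eq', Finset.sum_ite_eq'] at h1
  have h2 : s.card * c ≤ 3 * c := Nat.mul_le_mul_right _ hs
  split_ifs at h1 <;> omega

omit [Fintype ι] in
theorem Harb.std_unif {d m : ℕ} (h : 3 * m ≤ d) : Harb.Std d fun _ : ι => m := fun s hs => by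
  rw [Finset.sum_const, smul_eq_mul]
  exact (Nat.mul_le_mul_right _ hs).trans h

/-- uniform multiplicities -/
theorem Hle.harb_unif {n d m : ℕ} (h1 : 3 * m ≤ d) (h2 : n * m ≤ 3 * d) :
    Hle d (fun _ : Fin n => m) ((d + 2).choose 2 - n * (m + 1).choose 2) := by
  have := Hle.harb (ι := Fin n) (Harb.std_unif h1) (by simpa using h2)
  simpa using this

namespace Harb

/-- evaluation of a number before it is passed on -/
def frc {α : Type} (n : ℕ) (f : ℕ → α) : α :=
  match n with
  | 0 => f 0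
  | n + 1 => f (n + 1)

theorem frc_eq {α : Type} (n : ℕ) (f : ℕ → α) : frc n f = f n := by cases n <;> rfl

/-- evaluation of a list before it is passed on -/
def frl {α : Type} : List ℕ → (List ℕ → α) → α
  | [], f => f []
  | a :: l, f => frc a fun a => frl l fun l => f (a :: l)

theorem frl_eq {α : Type} (l : List ℕ) (f : List ℕ → α) : frl l f = f l := by
  induction l generalizing f with
  | nil => rfl
  | cons a l ih => rw [frl, frc_eq, ih]

/-- an index of the largest entry outside two given indices -/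
def amax (l : List ℕ) (a b : ℕ) : ℕ → ℕ
  | 0 => l.length
  | q + 1 => frc (amax l a b q) fun p =>
    if q ≠ a ∧ q ≠ b ∧ (p = l.length ∨ l.getD p 0 < l.getD q 0) then q else p

/-- the new multiplicities -/
def upd (n : ℕ) (l : List ℕ) (i j k d s : ℕ) : List ℕ :=
  List.ofFn fun q : Fin n =>
    if q.1 = i ∨ q.1 = j ∨ q.1 = k then l.getD q 0 + d - s else l.getD q 0

/-- reduction by quadratic maps, then the count for a standard class -/
def chk (n r : ℕ) : ℕ → ℕ → List ℕ → Bool
  | 0, _, _ => false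
  | f + 1, d, l => frc (amax l n n n) fun i => frc (amax l i n n) fun j =>
    frc (amax l i j n) fun k => frc (l.getD i 0 + l.getD j 0 + l.getD k 0) fun s =>
    if s ≤ d then
      decide (l.getD j 0 ≤ l.getD i 0 ∧ l.getD k 0 ≤ l.getD j 0 ∧ i < n ∧ j < n ∧
        (∀ q : Fin n, q.1 ≠ i → q.1 ≠ j → l.getD q 0 ≤ l.getD k 0) ∧
        (List.ofFn fun q : Fin n => l.getD q 0).sum ≤ 3 * d ∧ (d + 1) * (d + 2) ≤
          2 * r + 1 + (List.ofFn fun q : Fin n => l.getD q 0 * (l.getD q 0 + 1)).sum)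
    else decide (i < n ∧ j < n ∧ k < n ∧ i ≠ j ∧ i ≠ k ∧ j ≠ k) &&
      (decide (2 * d < s) || frc (2 * d - s) fun e => frl (upd n l i j k d s) (chk n r f e))

theorem chk_sound {n r f d : ℕ} {l : List ℕ} (h : chk n r f d l = true) :
    Hle d (fun q : Fin n => l.getD q 0) r := by
  induction f generalizing d l with
  | zero => exact absurd h (by simp [chk])
  | succ f ih =>
    simp only [chk, frc_eq, frl_eq] at h
    generalize amax l n n n = i at h
    generalize amax l i n n = j at h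
    generalize amax l i j n = k at h
    split_ifs at h with hs
    · obtain ⟨a1, a2, hi, hj, a3, a4, a5⟩ := of_decide_eq_true h
      rw [List.sum_ofFn] at a4 a5
      exact Hle.harb2 (std_top ⟨i, hi⟩ ⟨j, hj⟩ a1 a2 le_rfl le_rfl (fun q b1 b2 =>
        a3 q (fun e => b1 (Fin.ext e)) fun e => b2 (Fin.ext e)) hs) a4 a5
    rw [Bool.and_eq_true, Bool.or_eq_true] at h
    obtain ⟨⟨hi, hj, hk, n1, n2, n3⟩, h⟩ := h.imp_left of_decide_eq_true
    let b : Fin 3 → Fin n := ![⟨i, hi⟩, ⟨j, hj⟩, ⟨k, hk⟩]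
    have hb : Function.Injective b := by
      intro x y e
      have e' := congrArg Fin.val e
      fin_cases x <;> fin_cases y <;> first | rfl | (simp [b] at e'; omega)
    have e0 : ((l.getD (b 0) 0 : ℕ) : ℤ) + (l.getD (b 1) 0 : ℕ) + (l.getD (b 2) 0 : ℕ) =
        ((l.getD i 0 + l.getD j 0 + l.getD k 0 : ℕ) : ℤ) := by push_cast; rfl
    by_cases h2 : 2 * d < l.getD i 0 + l.getD j 0 + l.getD k 0
    · exact Hle.crem_neg (μ := fun q : Fin n => (l.getD q 0 : ℕ)) hb (by rw [e0]; omega)
    have h3 := ih (h.resolve_left fun e => h2 (of_decide_eq_true e))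
    generalize l.getD i 0 + l.getD j 0 + l.getD k 0 = s at h2 h3 e0
    refine Hle.crem (μ := fun q : Fin n => (l.getD q 0 : ℕ)) (d' := 2 * d - s)
      (μ' := fun q => if q.1 = i ∨ q.1 = j ∨ q.1 = k then d - s + (l.getD q 0 : ℕ)
        else (l.getD q 0 : ℕ)) hb (by rw [e0]; omega) (fun x => ?_) (fun q hq => ?_) ?_
    · rw [e0, if_pos (by fin_cases x <;> simp [b])]
    · rw [if_neg]
      rintro (e | e | e)
      exacts [hq ⟨0, Fin.ext e.symm⟩, hq ⟨1, Fin.ext e.symm⟩, hq ⟨2, Fin.ext e.symm⟩]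
    · refine h3.mono id Function.injective_id (fun q => ?_) le_rfl
      have : (upd n l i j k d s).getD q 0 =
          if q.1 = i ∨ q.1 = j ∨ q.1 = k then l.getD q 0 + d - s else l.getD q 0 := by
        rw [upd, List.getD_eq_getElem _ _ (by simp), List.getElem_ofFn]
      rw [this, id]
      split_ifs <;> omega

end Harb

/-- the checker, for any multiplicities on Fin n -/
theorem Hle.of_chk {n d r : ℕ} {μ : Fin n → ℕ} (f : ℕ)
    (h : Harb.chk n r f d (List.ofFn μ) = true) : Hle d μ r :=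
  (Harb.chk_sound h).mono id Function.injective_id (fun q => by
    rw [List.getD_eq_getElem _ _ (by simp), List.getElem_ofFn]; exact le_rfl) le_rfl

end Pool.Agent.Lib.MP_d03834_ag.Core
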