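import Pool.Agent.Lib.MP_d03834_ag.Core.BiEndA

/-! Plane curves with fat points on a cuspidal cubic: standard classes are not special. -/

set_option autoImplicit false

namespace Pool.Agent.Lib.MP_d03834_ag.Core.Harb

open MvPolynomial Module End

variable {k ι : Type} [Field k] [Fintype ι]

/-- restriction to a graph -/
noncomputable def rg (g : Polynomial k) : A2 k →ₐ[k] Polynomial k := aeval ![Polynomial.X, g]

/-- the equation of a graph -/
noncomputable def cg (g : Polynomial k) : A2 k := X 1 - Polynomial.aeval (X 0 : A2 k) g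

theorem rg_dvd {g : Polynomial k} {G : A2 k} (h : rg g G = 0) : cg g ∣ G := by
  have e : (Polynomial.aeval (X 0 : A2 k)).comp (rg g) =
      aeval ![X 0, Polynomial.aeval (X 0 : A2 k) g] := by
    refine algHom_ext fun i => ?_
    fin_cases i <;> simp [rg]
  have h1 := sub_dvd ![X 0, Polynomial.aeval (X 0 : A2 k) g] (cg g)
    (fun i => by fin_cases i <;> simp [cg]) G
  rwa [← e, AlgHom.comp_apply, h, map_zero, sub_zero] at h1

theorem rg_aid {g : Polynomial k} {a b : k} (hb : g.eval a = b) {m : ℕ} {G : A2 k}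
    (h : G ∈ aid a b ^ m) : (Polynomial.X - Polynomial.C a) ^ m ∣ rg g G := by
  rw [← Ideal.mem_span_singleton, ← Ideal.span_singleton_pow]
  refine aid_map (rg g) (by simp [rg]) ?_ h
  rw [Ideal.mem_span_singleton, Polynomial.dvd_iff_isRoot]
  simp [rg, hb]

theorem der_cg (g : Polynomial k) : pderiv 1 (cg g) = 1 := by
  have : pderiv 1 (Polynomial.aeval (X 0 : A2 k) g) = 0 := by
    induction g using Polynomial.induction_on' with
    | add p q hp hq => rw [map_add, map_add, hp, hq, add_zero]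
    | monomial n a => simp [Polynomial.aeval_monomial]
  rw [cg, map_sub, this]
  simp

theorem cg_div {g : Polynomial k} {a b : k} {n : ℕ} {H : A2 k} (h : cg g * H ∈ aid a b ^ n) :
    H ∈ aid a b ^ (n - 1) :=
  aid_div (not_sq 1 (by rw [der_cg, map_one]; exact one_ne_zero)) h

/-- curves of degree less than N with fat points -/
noncomputable def PC (t u : ι → k) (N : ℕ) (μ : ι → ℕ) : Submodule k (A2 k) :=
  Dg 1 1 N ⊓ ⨅ i, (aid (t i) (u i) ^ μ i).restrictScalars k

omit [Fintype ι] in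
theorem mem_PC {t u : ι → k} {N : ℕ} {μ : ι → ℕ} {G : A2 k} :
    G ∈ PC t u N μ ↔ G ∈ Dg 1 1 N ∧ ∀ i, G ∈ aid (t i) (u i) ^ μ i := by
  simp [PC, Submodule.mem_iInf]

instance (t u : ι → k) (N : ℕ) (μ : ι → ℕ) : FiniteDimensional k (PC t u N μ) :=
  Submodule.finiteDimensional_of_le inf_le_left

omit [Fintype ι] in
theorem PC_div {t u : ι → k} {N e : ℕ} {μ : ι → ℕ} {g : Polynomial k} (ν : Fin 2 →₀ ℕ)
    (hc : coeff ν (cg g) ≠ 0) (he : e ≤ ν 0 + ν 1) {G : A2 k} (h : G ∈ PC t u N μ)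
    (h0 : rg g G = 0) :
    ∃ H ∈ PC t u (N - e) fun i => μ i - 1, LinearMap.mulLeft k (cg g) H = G := by
  obtain ⟨H, rfl⟩ := rg_dvd h0
  exact ⟨H, mem_PC.2 ⟨Dg.div (mem_PC.1 h).1 ν hc (by omega), fun i =>
    cg_div ((mem_PC.1 h).2 i)⟩, rfl⟩

theorem coeff_cg1 (g : Polynomial k) : coeff (Finsupp.single 1 1) (cg g) ≠ 0 := by
  have h := congrArg (coeff 0) (der_cg g)
  rw [coeff_pderiv] at h
  intro h0
  simp [h0] at h

theorem coeff_cg3 :
    coeff (Finsupp.single 0 3) (cg (Polynomial.X ^ 3 : Polynomial k)) ≠ 0 := by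
  simp [cg, coeff_X_pow, coeff_X', Finsupp.single_eq_single_iff]

/-- twice the number of conditions -/
def TS (μ : ι → ℕ) : ℕ := ∑ i, μ i * (μ i + 1)

theorem TS_pred (μ : ι → ℕ) : TS μ = TS (fun i => μ i - 1) + 2 * ∑ i, μ i := by
  rw [TS, TS, Finset.mul_sum, ← Finset.sum_add_distrib]
  refine Finset.sum_congr rfl fun i _ => ?_
  rcases μ i with _ | n
  · rfl
  · rw [Nat.add_sub_cancel]; ring

theorem sum_pred {μ : ι → ℕ} {N : ℕ} (h : ∑ i, μ i ≤ N + 1) : ∑ i, (μ i - 1) ≤ N := by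
  by_cases h0 : ∃ i, μ i ≠ 0
  · obtain ⟨i, hi⟩ := h0
    have : ∑ i, (μ i - 1) < ∑ i, μ i :=
      Finset.sum_lt_sum (fun _ _ => Nat.sub_le _ _) ⟨i, Finset.mem_univ _, by omega⟩
    omega
  · push Not at h0
    simp [h0]

/-- points on a line -/
theorem line {t u : ι → k} (ht : Function.Injective t) {g : Polynomial k} (hg : g.natDegree ≤ 1)
    (N : ℕ) (μ : ι → ℕ) (h1 : ∀ i, μ i ≠ 0 → g.eval (t i) = u i) (h2 : ∑ i, μ i ≤ N) :
    2 * finrank k (PC t u N μ) + TS μ ≤ N * (N + 1) := by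
  induction N generalizing μ with
  | zero =>
    have e : PC t u 0 μ = ⊥ := (Submodule.eq_bot_iff _).2 fun G hG => Dg.zero (mem_PC.1 hG).1
    have h3 : ∀ i, μ i = 0 := fun i =>
      Finset.sum_eq_zero_iff.1 (Nat.le_zero.1 h2) i (Finset.mem_univ _)
    simp [e, TS, h3]
  | succ N ih =>
    have a := ih (fun i => μ i - 1) (fun i hi => h1 i (by omega)) (sum_pred h2)
    have b := rk_peel (PC t u (N + 1) μ) _ (Mu (pr t μ) (N + 1 - ∑ i, μ i)) (rg g).toLinearMap _
      (fun G hG => mem_Mu ht (Dg.aeval (mem_PC.1 hG).1 Polynomial.natDegree_X_le hg) fun i => by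
        by_cases h0 : μ i = 0
        · simp [h0]
        · exact rg_aid (h1 i h0) ((mem_PC.1 hG).2 i))
      fun G hG => PC_div (e := 1) _ (coeff_cg1 g) (by simp) hG
    have c := rk_Mu (pr t μ) (N + 1 - ∑ i, μ i)
    have d := TS_pred μ
    rw [Nat.add_sub_cancel] at b
    have e : (N + 1) * (N + 1 + 1) = N * (N + 1) + 2 * (N + 1) := by ring
    omega

theorem rg_gap {d : ℕ} {G : A2 k} (h : G ∈ Dg 1 1 (d + 2)) :
    (rg (Polynomial.X ^ 3) G).coeff (3 * d + 2) = 0 := by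
  rw [G.as_sum, map_sum, Polynomial.finset_sum_coeff]
  refine Finset.sum_eq_zero fun μ hμ => ?_
  have h1 := h μ (mem_support_iff.1 hμ)
  rw [rg, aeval_monomial, Finsupp.prod_fintype _ _ fun _ => pow_zero _, Fin.prod_univ_two]
  simp only [Matrix.cons_val_zero, Matrix.cons_val_one, Matrix.cons_val_fin_one, ← pow_mul,
    ← pow_add, Polynomial.algebraMap_apply, Polynomial.coeff_C_mul, Polynomial.coeff_X_pow]
  rw [if_neg (by omega), mul_zero]

theorem rg_deg {d : ℕ} {G : A2 k} (h : G ∈ Dg 1 1 (d + 1)) :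
    rg (Polynomial.X ^ 3) G ∈ Polynomial.degreeLT k (3 * d + 1) :=
  Dg.aeval (a := 3) (b := 3) (fun μ hμ => by have := h μ hμ; omega)
    (Polynomial.natDegree_X_le.trans (by norm_num)) (by simp)

theorem pr_monic (t : ι → k) (μ : ι → ℕ) : (pr t μ).Monic :=
  Polynomial.monic_prod_of_monic _ _ fun _ _ => (Polynomial.monic_X_sub_C _).pow _

theorem pr_next (t : ι → k) (μ : ι → ℕ) : (pr t μ).nextCoeff = -∑ i, (μ i : k) * t i := by
  rw [pr, Polynomial.Monic.nextCoeff_prod _ _ fun _ _ => (Polynomial.monic_X_sub_C _).pow _,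
    ← Finset.sum_neg_distrib]
  refine Finset.sum_congr rfl fun i _ => ?_
  rw [(Polynomial.monic_X_sub_C _).nextCoeff_pow, Polynomial.nextCoeff_X_sub_C]
  simp

/-- one step along the cubic -/
theorem cubic {t : ι → k} (ht : Function.Injective t) (d : ℕ) (μ : ι → ℕ)
    (h2 : ∑ i, μ i ≤ 3 * (d + 1)) (h3 : ∑ i, (μ i : k) * t i ≠ 0) :
    finrank k (PC t (fun i => t i ^ 3) (d + 2) μ) + ∑ i, μ i ≤
      finrank k (PC t (fun i => t i ^ 3) (d + 2 - 3) fun i => μ i - 1) + 3 * (d + 1) := by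
  have b := rk_peel (PC t (fun i => t i ^ 3) (d + 2) μ) _
    (Mu (pr t μ) (3 * (d + 1) + 1 - ∑ i, μ i) ⊓ LinearMap.ker (Polynomial.lcoeff k (3 * d + 2)))
    (rg (Polynomial.X ^ 3)).toLinearMap _
    (fun G hG => ⟨mem_Mu ht (rg_deg (mem_PC.1 hG).1) fun i =>
      rg_aid (by simp) ((mem_PC.1 hG).2 i), rg_gap (mem_PC.1 hG).1⟩)
    fun G hG => PC_div (e := 3) _ coeff_cg3 (by simp) hG
  have c := rk_Mu (pr t μ) (3 * (d + 1) + 1 - ∑ i, μ i)
  have e : Mu (pr t μ) (3 * (d + 1) + 1 - ∑ i, μ i) ⊓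
      LinearMap.ker (Polynomial.lcoeff k (3 * d + 2)) <
      Mu (pr t μ) (3 * (d + 1) + 1 - ∑ i, μ i) := by
    refine lt_of_le_of_ne inf_le_left fun e => ?_
    have hm : pr t μ * Polynomial.X ^ (3 * d + 2 - ∑ i, μ i) ∈
        Mu (pr t μ) (3 * (d + 1) + 1 - ∑ i, μ i) :=
      ⟨_, Polynomial.mem_degreeLT.2 (by
        rw [Polynomial.degree_X_pow]
        exact Nat.cast_lt.2 (by omega)), rfl⟩
    have h4 : (pr t μ * Polynomial.X ^ (3 * d + 2 - ∑ i, μ i)).coeff (3 * d + 2) = 0 :=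
      (e.ge hm).2
    rw [Polynomial.coeff_mul_X_pow', if_pos (Nat.sub_le _ _)] at h4
    rcases h2.lt_or_eq with h5 | h5
    · rw [show 3 * d + 2 - (3 * d + 2 - ∑ i, μ i) = (pr t μ).natDegree by rw [pr_deg]; omega,
        (pr_monic t μ).coeff_natDegree] at h4
      exact one_ne_zero h4
    · have h6 := pr_next t μ
      rw [Polynomial.nextCoeff_of_natDegree_pos (by rw [pr_deg]; omega), pr_deg,
        show ∑ i, μ i - 1 = 3 * d + 2 - (3 * d + 2 - ∑ i, μ i) by omega, h4] at h6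
      exact h3 (neg_eq_zero.1 h6.symm)
  have f := Submodule.finrank_lt_finrank_of_lt e
  omega

/-- standard classes -/
def Std (d : ℕ) (μ : ι → ℕ) : Prop := ∀ s : Finset ι, s.card ≤ 3 → ∑ i ∈ s, μ i ≤ d

omit [Fintype ι] in
theorem Std.sum {d : ℕ} {μ : ι → ℕ} (h : Std d μ) (c : ℕ) (s : Finset ι) (hs : s.card ≤ 3 * c) :
    ∑ i ∈ s, μ i ≤ c * d := by
  classical
  induction c generalizing s with
  | zero => simp [Finset.card_eq_zero.1 (Nat.le_zero.1 hs)]
  | succ c ih =>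
    obtain ⟨u, hu, e⟩ := Finset.exists_subset_card_eq (s := s) (min_le_right 3 s.card)
    have a := ih (s \ u) (by rw [Finset.card_sdiff_of_subset hu]; omega)
    have b := h u (by omega)
    rw [← Finset.sum_sdiff hu, add_mul]
    omega

theorem Std.nine {d : ℕ} {μ : ι → ℕ} (h : Std d μ) (s : Finset ι) (hs : s.card ≤ 9)
    (h0 : ∀ i, μ i ≠ 0 → i ∈ s) : ∑ i, μ i ≤ 3 * d := by
  rw [← Finset.sum_subset (Finset.subset_univ s) fun i _ hi => by_contra fun e => hi (h0 i e)]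
  exact h.sum 3 s hs

omit [Fintype ι] in
theorem sum_supp {μ : ι → ℕ} {s : Finset ι} (h : ∀ i ∈ s, μ i ≠ 0) :
    ∑ i ∈ s, μ i = ∑ i ∈ s, (μ i - 1) + s.card := by
  rw [Finset.card_eq_sum_ones, ← Finset.sum_add_distrib]
  exact Finset.sum_congr rfl fun i hi => by have := h i hi; omega

/-- standard classes of nonnegative degree on the cubic -/
theorem harb {t : ι → k} (ht : Function.Injective t)
    (hp : ∀ μ : ι → ℕ, (∃ i, μ i ≠ 0) → ∑ i, (μ i : k) * t i ≠ 0) (d : ℕ) (μ : ι → ℕ)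
    (h1 : Std d μ) (h2 : ∑ i, μ i ≤ 3 * d) :
    2 * finrank k (PC t (fun i => t i ^ 3) (d + 1) μ) + TS μ ≤ (d + 1) * (d + 2) := by
  classical
  induction d using Nat.strong_induction_on generalizing μ with
  | _ d ih =>
  let S : Finset ι := Finset.univ.filter fun i => μ i ≠ 0
  have hS : ∀ i, i ∈ S ↔ μ i ≠ 0 := fun i => by simp [S]
  have hs : ∀ ν : ι → ℕ, (∀ i, μ i = 0 → ν i = 0) → ∑ i ∈ S, ν i = ∑ i, ν i := fun ν hν =>
    Finset.sum_subset (Finset.subset_univ S) fun i _ hi => hν i (by_contra fun e => hi ((hS i).2 e))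
  rcases Nat.lt_or_ge S.card 3 with h3 | h3
  · refine line ht (g := Lagrange.interpolate S t fun i => t i ^ 3) ?_ _ μ (fun i hi =>
      Lagrange.eval_interpolate_at_node _ ht.injOn ((hS i).2 hi)) ?_
    · have := Lagrange.degree_interpolate_lt (s := S) (fun i => t i ^ 3) ht.injOn
      by_cases h0 : Lagrange.interpolate S t (fun i => t i ^ 3) = 0
      · rw [h0]; simp
      · have := (Polynomial.natDegree_lt_iff_degree_lt h0).2 this
        omega
    · rw [← hs μ fun _ e => e]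
      exact (h1 S h3.le).trans d.le_succ
  have key : ∀ s : Finset ι, s.card ≤ 3 → ∑ i ∈ s, (μ i - 1) + 3 ≤ d := fun s h4 => by
    obtain ⟨u, u1, u2, u3⟩ := Finset.exists_subsuperset_card_eq (n := 3)
      (Finset.inter_subset_right (s₁ := s) (s₂ := S))
      ((Finset.card_le_card Finset.inter_subset_left).trans h4) h3
    have a := h1 u u3.le
    have b := sum_supp fun i hi => (hS i).1 (u2 hi)
    have c : ∑ i ∈ s, (μ i - 1) ≤ ∑ i ∈ u, (μ i - 1) := by
      rw [← Finset.sum_subset (Finset.inter_subset_left (s₁ := s) (s₂ := S)) fun i a b => by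
        have : μ i = 0 := by_contra fun e => b (Finset.mem_inter.2 ⟨a, (hS i).2 e⟩)
        omega]
      exact Finset.sum_le_sum_of_subset u1
    omega
  obtain ⟨e, rfl⟩ : ∃ e, d = e + 3 := ⟨d - 3, by have := key ∅ (by simp); omega⟩
  have h4 : Std e fun i => μ i - 1 := fun s h => Nat.le_of_add_le_add_right (key s h)
  have a := ih e (by omega) _ h4 (by
    rcases Nat.lt_or_ge S.card 9 with h5 | h5
    · exact h4.nine S h5.le fun i hi => (hS i).2 (by omega)
    · have b := sum_supp fun i hi => (hS i).1 hi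
      rw [hs μ fun _ e => e, hs (fun i => μ i - 1) fun _ e => by omega] at b
      omega)
  obtain ⟨i, hi⟩ := Finset.card_pos.1 (by omega : 0 < S.card)
  have b := cubic ht (e + 2) μ h2 (hp μ ⟨i, (hS i).1 hi⟩)
  have c := TS_pred μ
  have f : (e + 3 + 1) * (e + 3 + 2) = (e + 1) * (e + 2) + 6 * (e + 3) := by ring
  rw [show e + 2 + 2 - 3 = e + 1 from rfl, show e + 2 + 2 = e + 3 + 1 from rfl] at b
  omega

end Pool.Agent.Lib.MP_d03834_ag.Core.Harb
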