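import Pool.Agent.Lib.MP_d03834_ag.Core.Harb

/-! A checker which combines collisions of four points, quadratic maps and standard classes. -/

set_option autoImplicit false

namespace Pool.Agent.Lib.MP_d03834_ag.Core.Harb

/-- the bound for a list of multiplicities -/
def HL (d : ℕ) (l : List ℕ) (r : ℕ) : Prop := Hle d (fun q : Fin l.length => l.getD q 0) r

theorem perm_ex {l l' : List ℕ} (h : l.Perm l') : ∃ f : ℕ → ℕ, Function.Injective f ∧
    ∀ q < l.length, f q < l'.length ∧ l.getD q 0 = l'.getD (f q) 0 := by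
  induction h with
  | nil => exact ⟨id, Function.injective_id, fun q h => ⟨h, rfl⟩⟩
  | cons a _ ih =>
    obtain ⟨f, h1, h2⟩ := ih
    refine ⟨fun q => Nat.casesOn q 0 fun q => f q + 1, ?_, ?_⟩
    · rintro (_ | x) (_ | y) e
      · rfl
      · exact absurd e.symm (Nat.succ_ne_zero _)
      · exact absurd e (Nat.succ_ne_zero _)
      · rw [h1 (Nat.succ_injective e)]
    · rintro (_ | q) hq
      · exact ⟨Nat.succ_pos _, rfl⟩
      · have := h2 q (Nat.lt_of_succ_lt_succ hq)
        exact ⟨Nat.succ_lt_succ this.1, this.2⟩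
  | swap a b l =>
    refine ⟨Equiv.swap 0 1, (Equiv.swap 0 1).injective, ?_⟩
    rintro (_ | _ | q) hq
    · exact ⟨by simp, by simp⟩
    · exact ⟨by simp, by simp⟩
    · rw [Equiv.swap_apply_of_ne_of_ne (by omega) (by omega)]
      exact ⟨hq, rfl⟩
  | trans _ _ i1 i2 =>
    obtain ⟨f, a1, a2⟩ := i1
    obtain ⟨g, b1, b2⟩ := i2
    exact ⟨g ∘ f, b1.comp a1, fun q hq =>
      ⟨(b2 _ (a2 q hq).1).1, (a2 q hq).2.trans (b2 _ (a2 q hq).1).2⟩⟩

theorem HL.perm {d r : ℕ} {l l' : List ℕ} (h : HL d l r) (p : l.Perm l') : HL d l' r := by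
  obtain ⟨f, h1, h2⟩ := perm_ex p
  exact Hle.mono h (fun q => ⟨f q, (h2 q q.2).1⟩)
    (fun x y e => Fin.ext (h1 (congrArg Fin.val e))) (fun q => (h2 q q.2).2.le) le_rfl

/-- the first three indices -/
def b3 (n : ℕ) : Fin 3 → Fin (n + 1 + 1 + 1) := fun i => ⟨i, by omega⟩

theorem b3_inj (n : ℕ) : Function.Injective (b3 n) := fun _ _ e => Fin.ext (Fin.mk.inj e)

theorem HL.neg {d r a b c : ℕ} {t : List ℕ} (h : 2 * d < a + b + c) : HL d (a :: b :: c :: t) r :=
  Hle.crem_neg (μ := fun q : Fin (t.length + 1 + 1 + 1) => ((a :: b :: c :: t).getD q 0 : ℕ))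
    (b3_inj _) (by
      change 2 * (d : ℤ) < a + b + c
      omega)

theorem HL.crem {d r a b c s : ℕ} {t : List ℕ} (hs : s = a + b + c) (h2 : s ≤ 2 * d)
    (h : HL (2 * d - s) ((a + d - s) :: (b + d - s) :: (c + d - s) :: t) r) :
    HL d (a :: b :: c :: t) r := by
  refine Hle.crem (μ := fun q : Fin (t.length + 1 + 1 + 1) => ((a :: b :: c :: t).getD q 0 : ℕ))
    (d' := 2 * d - s) (μ' := fun q => (if q.1 < 3 then (d : ℤ) - s else 0) +
      ((a :: b :: c :: t).getD q 0 : ℕ)) (b3_inj _) ?_ (fun x => ?_) (fun q hq => ?_) ?_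
  · change _ = 2 * (d : ℤ) - (a + b + c)
    omega
  · change _ ≤ (d : ℤ) - (a + b + c) + _
    rw [if_pos (show (b3 t.length x).1 < 3 from x.2)]
    omega
  · rw [if_neg fun e => hq ⟨⟨q, e⟩, rfl⟩, zero_add]
  · refine Hle.mono h id Function.injective_id ?_ le_rfl
    rintro ⟨_ | _ | _ | q, hq⟩
    · change a + d - s ≤ ((d : ℤ) - s + a).toNat
      omega
    · change b + d - s ≤ ((d : ℤ) - s + b).toNat
      omega
    · change c + d - s ≤ ((d : ℤ) - s + c).toNat
      omega
    · change t.getD q 0 ≤ ((if q + 1 + 1 + 1 < 3 then (d : ℤ) - s else 0) + t.getD q 0).toNat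
      rw [if_neg (by omega)]
      omega

theorem HL.one {d r a : ℕ} {t : List ℕ} (h : HL d (a :: t) r) :
    Hle d (Sum.elim (fun q : Fin t.length => t.getD q 0) fun _ : Unit => a) r :=
  Hle.mono h (Fin.cases (.inr ()) .inl) (by
    intro x y
    refine Fin.cases ?_ (fun x => ?_) x <;> refine Fin.cases ?_ (fun y => ?_) y <;> simp)
    (fun q => Fin.cases le_rfl (fun _ => le_rfl) q) le_rfl

theorem HL.four {d r v : ℕ} {t : List ℕ} (hv : 0 < v) (h0 : HL d (2 * v :: t) (r + v))
    (h1 : HL d ((2 * v + 1) :: t) r) : HL d (v :: v :: v :: v :: t) r :=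
  Hle.mono (h0.one.four hv h1.one) (κ := Fin (t.length + 1 + 1 + 1 + 1))
    (Sum.elim (fun q => ⟨q + 4, by omega⟩) fun q => ⟨q, by omega⟩) (by
      rintro (x | x) (y | y) e <;> have := congrArg Fin.val e <;> simp at this
      · rw [Fin.ext this]
      · omega
      · omega
      · rw [Fin.ext this]) (by
      rintro (q | q)
      · exact le_rfl
      · fin_cases q <;> exact le_rfl) le_rfl

/-- four equal neighbours -/
def fnd : List ℕ → Option (ℕ × List ℕ)
  | [] => none
  | a :: l =>
    match l with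
    | b :: c :: e :: t =>
      if 0 < a ∧ b = a ∧ c = a ∧ e = a then some (a, t)
      else (fnd l).map fun p => (p.1, a :: p.2)
    | _ => none

theorem fnd_ok {l t : List ℕ} {v : ℕ} (h : fnd l = some (v, t)) :
    0 < v ∧ (v :: v :: v :: v :: t).Perm l := by
  induction l generalizing t with
  | nil => simp [fnd] at h
  | cons a l ih =>
    unfold fnd at h
    split at h
    · split_ifs at h with h1
      · obtain ⟨h0, rfl, rfl, rfl⟩ := h1
        obtain ⟨rfl, rfl⟩ := Prod.mk.inj (Option.some.inj h)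
        exact ⟨h0, .refl _⟩
      · obtain ⟨⟨w, u⟩, e1, e2⟩ := Option.map_eq_some_iff.1 h
        obtain ⟨rfl, rfl⟩ := Prod.mk.inj e2
        exact ⟨(ih e1).1, (List.perm_middle (l₁ := [w, w, w, w])).trans ((ih e1).2.cons a)⟩
    · simp at h

theorem sum_getD (l : List ℕ) (g : ℕ → ℕ) :
    ∑ q : Fin l.length, g (l.getD q 0) = (l.map g).sum := by
  induction l with
  | nil => rfl
  | cons a l ih => exact (Fin.sum_univ_succ _).trans (congrArg (g a + ·) ih)

theorem HL.std {d r a b c : ℕ} {t : List ℕ} (h1 : b ≤ a) (h2 : c ≤ b) (h3 : ∀ x ∈ t, x ≤ c)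
    (h4 : a + b + c ≤ d) (h5 : (a :: b :: c :: t).sum ≤ 3 * d)
    (h6 : (d + 1) * (d + 2) ≤ 2 * r + 1 + ((a :: b :: c :: t).map fun x => x * (x + 1)).sum) :
    HL d (a :: b :: c :: t) r := by
  refine Hle.harb2 (std_top (a := a) (b := b) (c := c) (b3 t.length 0) (b3 t.length 1) h1 h2
    le_rfl le_rfl ?_ h4) ?_ ?_
  · rintro ⟨_ | _ | _ | q, hq⟩ e1 e2
    · exact absurd rfl e1
    · exact absurd rfl e2
    · exact le_rfl
    · have h : q < t.length := by simpa using hq
      change t.getD q 0 ≤ c
      rw [List.getD_eq_getElem _ _ h]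
      exact h3 _ (List.getElem_mem h)
  · rw [sum_getD _ fun x => x, List.map_id']
    exact h5
  · rw [sum_getD _ fun x => x * (x + 1)]
    exact h6

/-- evaluation of a number before it is passed on -/
noncomputable def fc {α : Type} (n : ℕ) (f : ℕ → α) : α := Nat.rec (f 0) (fun k _ => f k.succ) n

theorem fc_eq {α : Type} (n : ℕ) (f : ℕ → α) : fc n f = f n := by cases n <;> rfl

/-- insertion, with the result passed on -/
noncomputable def ins {α : Type} (a : ℕ) (l : List ℕ) : (List ℕ → α) → α :=
  List.rec (fun f => f [a])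
    (fun b l ih f => cond (Nat.ble b a) (f (a :: b :: l)) (ih fun u => f (b :: u))) l

theorem ins_ex {α : Type} (a : ℕ) (l : List ℕ) (f : List ℕ → α) :
    ∃ u, u.Perm (a :: l) ∧ ins a l f = f u := by
  induction l generalizing f with
  | nil => exact ⟨_, .refl _, rfl⟩
  | cons b l ih =>
    change ∃ u, _ ∧ cond (Nat.ble b a) (f (a :: b :: l)) (ins a l fun u => f (b :: u)) = f u
    cases Nat.ble b a with
    | true => exact ⟨_, .refl _, rfl⟩
    | false =>
      obtain ⟨u, h1, h2⟩ := ih fun u => f (b :: u)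
      exact ⟨b :: u, (h1.cons b).trans (.swap _ _ _), h2⟩

/-- the combined checker; it succeeds more often if the list is decreasing -/
noncomputable def go : ℕ → ℕ → ℕ → List ℕ → Bool
  | 0, _, _, _ => false
  | f + 1, d, r, l =>
    match l with
    | a :: b :: c :: t => fc (a + b + c) fun s =>
      cond (Nat.ble s d)
        (cond (Nat.ble l.sum (3 * d))
          (Nat.ble b a && Nat.ble c b && t.all (fun x => Nat.ble x c) &&
            Nat.ble ((d + 1) * (d + 2)) (2 * r + 1 + (l.map fun x => x * (x + 1)).sum))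
          (match fnd l with
          | some (v, u) => (fc (2 * v + 1) fun w => ins w u (go f d r)) &&
            fc (2 * v) fun w => fc (r + v) fun r => ins w u (go f d r)
          | none => false))
        (Nat.blt (2 * d) s || fc (2 * d - s) fun e => fc (a + d - s) fun a =>
          fc (b + d - s) fun b => fc (c + d - s) fun c =>
            ins c t fun t => ins b t fun t => ins a t (go f e r))
    | _ => false

theorem go_sound {f d r : ℕ} {l : List ℕ} (h : go f d r l = true) : HL d l r := by
  induction f generalizing d l r with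
  | zero => exact absurd h (by simp [go])
  | succ f ih =>
    have key : ∀ {a d r : ℕ} {t : List ℕ}, ins a t (go f d r) = true → HL d (a :: t) r := by
      intro a d r t h
      obtain ⟨u, h1, h2⟩ := ins_ex a t (go f d r)
      exact (ih (h2 ▸ h)).perm h1
    unfold go at h
    split at h
    swap
    · exact absurd h (by simp)
    rename_i a b c t
    simp only [fc_eq, cond_eq_ite, Nat.ble_eq] at h
    split_ifs at h with h1 h2
    · simp only [Bool.and_eq_true, Nat.ble_eq, List.all_eq_true] at h
      exact HL.std h.1.1.1 h.1.1.2 h.1.2 h1 h2 h.2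
    · split at h
      · rename_i e
        rw [Bool.and_eq_true] at h
        exact (HL.four (fnd_ok e).1 (key h.2) (key h.1)).perm (fnd_ok e).2
      · exact absurd h (by simp)
    · by_cases h3 : 2 * d < a + b + c
      · exact HL.neg h3
      · rw [Bool.or_eq_true, Nat.blt_eq, or_iff_right h3] at h
        obtain ⟨u, u1, u2⟩ := ins_ex (c + d - (a + b + c)) t fun t =>
          ins (b + d - (a + b + c)) t fun t => ins (a + d - (a + b + c)) t
            (go f (2 * d - (a + b + c)) r)
        rw [u2] at h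
        obtain ⟨w, w1, w2⟩ := ins_ex (b + d - (a + b + c)) u fun t =>
          ins (a + d - (a + b + c)) t (go f (2 * d - (a + b + c)) r)
        rw [w2] at h
        exact HL.crem rfl (by omega) ((key h).perm ((w1.trans (u1.cons _)).cons _))

/-- the combined checker, for any multiplicities on Fin n -/
theorem of_go {n d r : ℕ} {μ : Fin n → ℕ} (f : ℕ)
    (h : go f d r ((List.ofFn μ).insertionSort (· ≥ ·)) = true) : Hle d μ r :=
  Hle.mono ((go_sound h).perm (List.perm_insertionSort _ _))
    (Fin.cast (List.length_ofFn (f := μ))) (Fin.cast_injective _)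
    (fun q => by rw [List.getD_eq_getElem _ _ q.2, List.getElem_ofFn]; exact le_rfl) le_rfl

/-- all critical pairs with lo ≤ m < lo + len and p m d; a / b is a little below the root of n -/
noncomputable def rng (n a b : ℕ) (p : ℕ → ℕ → Bool) (lo len : ℕ) : Bool :=
  (List.range len).all fun i => fc (lo + i) fun m => fc (n * (m * (m + 1))) fun N =>
    fc (a * m / b - 2) fun L => Nat.ble ((L + 1) * (L + 2)) N && Nat.blt N ((L + 6) * (L + 7)) &&
      (List.range 6).all fun j => fc (L + j) fun d =>
        cond (Nat.ble (d * (d + 1)) N && Nat.blt N ((d + 2) * (d + 3)) && p m d)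
          (fc (((d + 1) * (d + 2) - N) / 2) fun r => go 99 d r (List.replicate n m)) true

theorem rng_sound {n a b lo len m d : ℕ} {p : ℕ → ℕ → Bool} (h : rng n a b p lo len = true)
    (m1 : lo ≤ m) (m2 : m < lo + len) (hp : p m d = true)
    (h1 : (d + 1).choose 2 ≤ n * (m + 1).choose 2) (h2 : n * (m + 1).choose 2 < (d + 3).choose 2) :
    Hle d (fun _ : Fin n => m) ((d + 2).choose 2 - n * (m + 1).choose 2) := by
  have a0 := two_choose d
  have b0 : 2 * (d + 2).choose 2 = (d + 1) * (d + 2) := two_choose (d + 1)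
  have c : 2 * (d + 3).choose 2 = (d + 2) * (d + 3) := two_choose (d + 2)
  have e : n * (m * (m + 1)) = 2 * (n * (m + 1).choose 2) := by rw [← two_choose]; ring
  simp only [rng, fc_eq, List.all_eq_true, List.mem_range, Bool.and_eq_true, Nat.ble_eq,
    Nat.blt_eq] at h
  have h3 := h (m - lo) (by omega)
  rw [show lo + (m - lo) = m by omega] at h3
  generalize a * m / b - 2 = L at h3
  obtain ⟨⟨g1, g2⟩, h3⟩ := h3
  have d1 : L ≤ d := by
    by_contra hn
    have : (d + 2) * (d + 3) ≤ (L + 1) * (L + 2) := Nat.mul_le_mul (by omega) (by omega)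
    omega
  have d2 : d < L + 6 := by
    by_contra hn
    have : (L + 6) * (L + 7) ≤ d * (d + 1) := Nat.mul_le_mul (by omega) (by omega)
    omega
  have h4 := h3 (d - L) (by omega)
  rw [show L + (d - L) = d by omega, hp, Nat.ble_eq_true_of_le (by omega),
    Nat.blt_eq.mpr (by omega)] at h4
  refine Hle.mono (go_sound h4) (Fin.cast List.length_replicate) (Fin.cast_injective _)
    (fun q => ?_) (by omega)
  rw [List.getD_eq_getElem _ _ q.2, List.getElem_replicate]

end Pool.Agent.Lib.MP_d03834_ag.Core.Harb
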