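import Pool.Agent.Lib.MP_d03834_ag.Core.Bi

/-! The quotient of the plane by a reflection, as a monomial map to the product of two lines. -/

set_option autoImplicit false

namespace Pool.Agent.Lib.MP_d03834_ag.Core.Inv

open MvPolynomial

section ring
variable {K : Type} [CommRing K]

/-- pull back along the quotient map -/
noncomputable def qm : Cx K →ₐ[K] MvPolynomial (Fin 3) K := aeval ![X 0, X 2, X 1 ^ 2, X 0 * X 2]

/-- the image of a point under the quotient map -/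
def qt (v : Fin 3 → K) : Fin 4 → K := ![v 0, v 2, v 1 ^ 2, v 0 * v 2]

/-- the reflection, on points -/
def rf (v : Fin 3 → K) : Fin 3 → K := ![v 0, -v 1, v 2]

/-- the four corners -/
def crn : Fin 4 → Fin 4 → K := ![![0, 1, 0, 1], ![1, 0, 0, 1], ![0, 1, 1, 0], ![1, 0, 1, 0]]

/-- exponents in the quotient -/
noncomputable def ex (a c J : ℕ) (ν : Fin 3 →₀ ℕ) : Fin 4 →₀ ℕ :=
  Finsupp.equivFunOnFinite.symm ![ν 0 + ν 1 / 2 - a, ν 2 + ν 1 / 2 - c, ν 1 / 2, J - ν 1 / 2]

/-- the part of parity e, in the quotient -/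
noncomputable def Tq (e a c J : ℕ) : MvPolynomial (Fin 3) K →ₗ[K] Cx K :=
  (basisMonomials (Fin 3) K).constr K fun ν => if ν 1 % 2 = e then monomial (ex a c J ν) 1 else 0

/-- the part of parity e -/
noncomputable def par (e : ℕ) : MvPolynomial (Fin 3) K →ₗ[K] MvPolynomial (Fin 3) K :=
  (basisMonomials (Fin 3) K).constr K fun ν => if ν 1 % 2 = e then monomial ν 1 else 0

theorem cs_mon {W : Type} [AddCommGroup W] [Module K W] (f : (Fin 3 →₀ ℕ) → W) (ν : Fin 3 →₀ ℕ)
    (r : K) : (basisMonomials (Fin 3) K).constr K f (monomial ν r) = r • f ν := by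
  have e : (monomial ν r : MvPolynomial (Fin 3) K) = r • basisMonomials (Fin 3) K ν := by
    rw [coe_basisMonomials, smul_monomial, smul_eq_mul, mul_one]
  rw [e, map_smul, Module.Basis.constr_basis]

theorem mon3 (ν : Fin 3 →₀ ℕ) :
    (monomial ν 1 : MvPolynomial (Fin 3) K) = X 0 ^ ν 0 * X 1 ^ ν 1 * X 2 ^ ν 2 := by
  rw [monomial_eq, Finsupp.prod_fintype _ _ fun _ => pow_zero _, Fin.prod_univ_three, map_one,
    one_mul]

theorem mon4 (ν : Fin 4 →₀ ℕ) :
    (monomial ν 1 : Cx K) = X 0 ^ ν 0 * X 1 ^ ν 1 * X 2 ^ ν 2 * X 3 ^ ν 3 := by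
  rw [monomial_eq, Finsupp.prod_fintype _ _ fun _ => pow_zero _, Fin.prod_univ_four, map_one,
    one_mul]

theorem par_add (F : MvPolynomial (Fin 3) K) : par 0 F + par 1 F = F := by
  induction F using MvPolynomial.induction_on' with
  | monomial ν r =>
    rw [par, par, cs_mon, cs_mon]
    rcases Nat.mod_two_eq_zero_or_one (ν 1) with h | h <;> simp [h, smul_monomial]
  | add a b ha hb => rw [map_add, map_add, add_add_add_comm, ha, hb]

theorem par_sub (F : MvPolynomial (Fin 3) K) :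
    par 0 F - par 1 F = aeval ![X 0, -X 1, X 2] F := by
  induction F using MvPolynomial.induction_on' with
  | monomial ν r =>
    rw [par, par, cs_mon, cs_mon, aeval_monomial, Finsupp.prod_fintype _ _ fun _ => pow_zero _,
      Fin.prod_univ_three, mon3, algebraMap_eq]
    rcases Nat.mod_two_eq_zero_or_one (ν 1) with h | h
    · simp [h, smul_eq_C_mul, (Nat.even_iff.2 h).neg_pow]
    · simp [h, smul_eq_C_mul, (Nat.odd_iff.2 h).neg_pow]
  | add a b ha hb => rw [map_add, map_add, map_add, ← ha, ← hb]; abel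

theorem qm_Tq {e a c J : ℕ} {F : MvPolynomial (Fin 3) K}
    (h : ∀ ν ∈ F.support, ν 1 % 2 = e → a ≤ ν 0 + ν 1 / 2 ∧ c ≤ ν 2 + ν 1 / 2 ∧ ν 1 / 2 ≤ J) :
    X 1 ^ e * X 0 ^ a * X 2 ^ c * qm (Tq e a c J F) = X 0 ^ J * X 2 ^ J * par e F := by
  conv_lhs => rw [F.as_sum]
  conv_rhs => rw [F.as_sum]
  rw [map_sum, map_sum, map_sum, Finset.mul_sum, Finset.mul_sum]
  refine Finset.sum_congr rfl fun ν hν => ?_
  rw [Tq, par, cs_mon, cs_mon, map_smul, mul_smul_comm, mul_smul_comm]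
  congr 1
  split_ifs with he
  · obtain ⟨h1, h2, h3⟩ := h ν hν he
    obtain ⟨j, hj⟩ : ∃ j, j = ν 1 / 2 := ⟨_, rfl⟩
    obtain ⟨A, hA⟩ := Nat.exists_eq_add_of_le h1
    obtain ⟨B, hB⟩ := Nat.exists_eq_add_of_le h2
    obtain ⟨D, hD⟩ := Nat.exists_eq_add_of_le h3
    have e0 : ex a c J ν 0 = A := by simp [ex]; omega
    have e1 : ex a c J ν 1 = B := by simp [ex]; omega
    have e2 : ex a c J ν 2 = j := by simp [ex, hj]
    have e3 : ex a c J ν 3 = D := by simp [ex]; omega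
    have e4 : ν 1 = e + 2 * j := by omega
    have e5 : (X 0 : MvPolynomial (Fin 3) K) ^ a * X 0 ^ A * X 0 ^ D = X 0 ^ J * X 0 ^ ν 0 := by
      rw [← pow_add, ← pow_add, ← pow_add]; congr 1; omega
    have e6 : (X 2 : MvPolynomial (Fin 3) K) ^ c * X 2 ^ B * X 2 ^ D = X 2 ^ J * X 2 ^ ν 2 := by
      rw [← pow_add, ← pow_add, ← pow_add]; congr 1; omega
    rw [mon4, mon3, e0, e1, e2, e3, e4]
    simp only [qm, map_mul, map_pow, aeval_X, Matrix.cons_val]
    rw [pow_add, pow_mul, mul_pow]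
    linear_combination (X 1 ^ e * (X 1 ^ 2) ^ j * (X 2 ^ c * X 2 ^ B * X 2 ^ D)) * e5 +
      (X 1 ^ e * (X 1 ^ 2) ^ j * (X 0 ^ J * X 0 ^ ν 0)) * e6
  · simp

theorem Tq_mem {e a c J : ℕ} {F : MvPolynomial (Fin 3) K} (W : Submodule K (Cx K))
    (h : ∀ ν ∈ F.support, ν 1 % 2 = e → monomial (ex a c J ν) (1 : K) ∈ W) : Tq e a c J F ∈ W := by
  rw [F.as_sum, map_sum]
  refine W.sum_mem fun ν hν => ?_
  rw [Tq, cs_mon]
  refine W.smul_mem _ ?_
  split_ifs with he
  · exact h ν hν he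
  · exact W.zero_mem

theorem bih_mon (μ : Fin 4 →₀ ℕ) {p q : ℤ} (h1 : (μ 0 + μ 1 : ℤ) = p) (h2 : (μ 2 + μ 3 : ℤ) = q) :
    Bih p q (monomial μ (1 : K)) := by
  refine isWeightedHomogeneous_monomial bw μ 1 ?_
  rw [bw_wt, h1, h2]

theorem mon_mem (μ : Fin 4 →₀ ℕ) (I : Ideal (Cx K)) (i j : Fin 4) (hij : i ≠ j) (hi : X i ∈ I)
    (hj : X j ∈ I) {n : ℕ} (h : n ≤ μ i + μ j) : monomial μ (1 : K) ∈ I ^ n := by
  classical
  have e : μ = (μ - Finsupp.single i (μ i) - Finsupp.single j (μ j)) +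
      (Finsupp.single i (μ i) + Finsupp.single j (μ j)) := by
    ext k
    by_cases a : k = i
    · subst a; simp [hij]
    by_cases b : k = j
    · subst b; simp [a]
    simp [a, b]
  rw [e, ← mul_one (1 : K), ← monomial_mul, ← one_mul (1 : K), ← monomial_mul,
    ← X_pow_eq_monomial, ← X_pow_eq_monomial]
  refine Ideal.mul_mem_left _ _ (Ideal.pow_le_pow_right h ?_)
  rw [pow_add]
  exact Ideal.mul_mem_mul (Ideal.pow_mem_pow hi _) (Ideal.pow_mem_pow hj _)

theorem sub_eval {σ S : Type} [CommRing S] [Algebra K S] (φ : MvPolynomial σ K →ₐ[K] S)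
    (v : σ → K) (I : Ideal S) (h : ∀ i, φ (X i) - algebraMap K S (v i) ∈ I)
    (F : MvPolynomial σ K) : φ F - algebraMap K S (eval v F) ∈ I := by
  induction F using MvPolynomial.induction_on with
  | C a => simp [← algebraMap_eq]
  | add a b ha hb =>
    have := I.add_mem ha hb
    rw [map_add, map_add, map_add]
    convert this using 1
    ring
  | mul_X a i ha =>
    have := I.add_mem (I.mul_mem_right (φ (X i)) ha)
      (I.mul_mem_left (algebraMap K S (eval v a)) (h i))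
    rw [map_mul, map_mul, map_mul, eval_X]
    convert this using 1
    ring

theorem ker_map {σ S : Type} [CommRing S] [Algebra K S] (φ : MvPolynomial σ K →ₐ[K] S)
    (v : σ → K) (I : Ideal S) (h : ∀ i, φ (X i) - algebraMap K S (v i) ∈ I) {m : ℕ}
    {F : MvPolynomial σ K} (hF : F ∈ RingHom.ker (eval v) ^ m) : φ F ∈ I ^ m := by
  have h3 := Ideal.mem_map_of_mem φ hF
  rw [Ideal.map_pow] at h3
  refine Ideal.pow_right_mono (Ideal.map_le_iff_le_comap.2 fun G hG => ?_) m h3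
  have := sub_eval φ v I h G
  rwa [(RingHom.mem_ker).1 hG, map_zero, sub_zero] at this

theorem bih_scale {S : Type} [CommRing S] [Algebra K S] {p q : ℤ} {G : Cx K} (h : Bih p q G)
    (a b : S) (w : Fin 4 → S) :
    aeval ![a * w 0, a * w 1, b * w 2, b * w 3] G = a ^ p.toNat * b ^ q.toNat * aeval w G := by
  conv_lhs => rw [G.as_sum]
  conv_rhs => rw [G.as_sum]
  rw [map_sum, map_sum, Finset.mul_sum]
  refine Finset.sum_congr rfl fun μ hμ => ?_
  obtain ⟨rfl, rfl⟩ := bih_iff.1 h μ (mem_support_iff.1 hμ)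
  rw [aeval_monomial, aeval_monomial, Finsupp.prod_fintype _ _ fun _ => pow_zero _,
    Finsupp.prod_fintype _ _ fun _ => pow_zero _, Fin.prod_univ_four, Fin.prod_univ_four]
  have e1 : ((μ 0 : ℤ) + μ 1).toNat = μ 0 + μ 1 := by omega
  have e2 : ((μ 2 : ℤ) + μ 3).toNat = μ 2 + μ 3 := by omega
  rw [e1, e2]
  simp only [Matrix.cons_val, mul_pow, pow_add]
  ring

theorem ex_sqrt {S : Type} [CommRing S] (I : Ideal S) (y h w : S) (hy : 2 * y * h = 1)
    (hw : y ^ 2 - w ∈ I) (n : ℕ) : ∃ s, s - y ∈ I ∧ s ^ 2 - w ∈ I ^ (n + 1) := by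
  induction n with
  | zero => exact ⟨y, by simp, by simpa using hw⟩
  | succ n ih =>
    obtain ⟨s, h1, h2⟩ := ih
    have h3 : s ^ 2 - w ∈ I := Ideal.pow_le_self (Nat.succ_ne_zero n) h2
    refine ⟨s - h * (s ^ 2 - w), ?_, ?_⟩
    · have := I.sub_mem h1 (I.mul_mem_left h h3)
      convert this using 1
      ring
    · have := Ideal.mul_mem_mul h2 (I.sub_mem (I.mul_mem_left (h ^ 2) h3) (I.mul_mem_left (2 * h) h1))
      rw [pow_succ]
      convert this using 1
      linear_combination (-(s ^ 2 - w)) * hy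

end ring

section field
variable {K : Type} [Field K]

/-- the quotient map is unramified on the torus -/
theorem pid_of_qm (h2 : (2 : K) ≠ 0) {v : Fin 3 → K} (hv : ∀ i, v i ≠ 0) {p q : ℤ} {G : Cx K}
    (hG : Bih p q G) {m : ℕ} (h : qm G ∈ RingHom.ker (eval v) ^ m) : G ∈ pid (qt v) ^ m := by
  let L := Localization.Away (X 0 * X 1 * X 3 : Cx K)
  let J : Ideal L := (pid (qt v)).map (algebraMap (Cx K) L)
  let S := L ⧸ J ^ m
  let π : Cx K →ₐ[K] S := (Ideal.Quotient.mkₐ K (J ^ m)).comp (IsScalarTower.toAlgHom K (Cx K) L)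
  let I : Ideal S := J.map (Ideal.Quotient.mk (J ^ m))
  have hI : I ^ m = ⊥ :=
    (Ideal.map_pow _ J m).symm.trans (Ideal.map_quotient_self _)
  have hπ : ∀ F ∈ pid (qt v), π F ∈ I := fun F hF =>
    Ideal.mem_map_of_mem _ (Ideal.mem_map_of_mem _ hF)
  have hu : IsUnit (π (X 0) * π (X 1) * π (X 3)) := by
    rw [← map_mul, ← map_mul]
    exact (IsLocalization.Away.algebraMap_isUnit (S := L) (X 0 * X 1 * X 3 : Cx K)).map
      (Ideal.Quotient.mk (J ^ m))
  have u0 : IsUnit (π (X 0)) := isUnit_of_mul_isUnit_left (isUnit_of_mul_isUnit_left hu)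
  obtain ⟨i1, u1⟩ := (isUnit_of_mul_isUnit_right (isUnit_of_mul_isUnit_left hu)).exists_right_inv
  obtain ⟨i3, u3⟩ := (isUnit_of_mul_isUnit_right hu).exists_right_inv
  let c : K → S := algebraMap K S
  have hc : ∀ r : K, π (C r) = c r := fun r => π.commutes r
  have hx : c (v 2) * π (X 0) - c (v 0) * π (X 1) ∈ I := by
    have := hπ _ (lx_mem (qt v))
    simpa [lx, qt, hc] using this
  have hy : c (v 0) * c (v 2) * π (X 2) - c (v 1) ^ 2 * π (X 3) ∈ I := by
    have := hπ _ (ly_mem (qt v))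
    simpa [ly, qt, hc, c] using this
  let a : S := c (v 2) * i1
  let b : S := a * π (X 0) * c (v 2) * i3
  have h0 : a * π (X 0) - c (v 0) ∈ I := by
    convert I.mul_mem_left i1 hx using 1
    simp only [a]
    linear_combination (c (v 0)) * u1
  have h1 : c (v 1) ^ 2 - b * π (X 2) ∈ I := by
    convert I.neg_mem (I.add_mem (I.mul_mem_left i3 hy)
      (I.mul_mem_left (c (v 2) * i3 * π (X 2)) h0)) using 1
    simp only [b]
    linear_combination (-(c (v 1)) ^ 2) * u3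
  obtain ⟨s, s1, s2⟩ := ex_sqrt I (c (v 1)) (c (2 * v 1)⁻¹) (b * π (X 2)) (by
    have : (2 : S) = c 2 := (map_ofNat (algebraMap K S) 2).symm
    rw [this, ← map_mul, ← map_mul, mul_inv_cancel₀ (mul_ne_zero h2 (hv 1)), map_one]) h1 m
  have s3 : s ^ 2 = b * π (X 2) := by
    have := Ideal.pow_le_pow_right (Nat.le_succ m) s2
    rwa [hI, Ideal.mem_bot, sub_eq_zero] at this
  let η : MvPolynomial (Fin 3) K →ₐ[K] S := aeval ![a * π (X 0), s, c (v 2)]
  have k1 := ker_map η v I (fun i => by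
    fin_cases i
    · simpa [η] using h0
    · simpa [η] using s1
    · simp [η, c]) h
  have k2 : η.comp qm = aeval ![a * π (X 0), a * π (X 1), b * π (X 2), b * π (X 3)] := by
    refine algHom_ext fun i => ?_
    fin_cases i
    · simp [η, qm]
    · simp only [η, qm, a]
      simp
      linear_combination (-c (v 2)) * u1
    · simp [η, qm, s3]
    · simp only [η, qm, b]
      simp
      linear_combination (-(a * π (X 0) * c (v 2))) * u3
  have k3 : aeval (fun i => π (X i)) G = π G := by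
    have : aeval (fun i => π (X i)) = π := algHom_ext fun i => by simp
    rw [this]
  have ua : IsUnit a :=
    ((hv 2).isUnit.map (algebraMap K S)).mul (IsUnit.of_mul_eq_one_right _ u1)
  have ub : IsUnit b := ((ua.mul u0).mul ((hv 2).isUnit.map (algebraMap K S))).mul
    (IsUnit.of_mul_eq_one_right _ u3)
  have k4 : π G = 0 := by
    rw [hI, Ideal.mem_bot, ← AlgHom.comp_apply, k2, bih_scale hG a b fun i => π (X i), k3] at k1
    exact ((ua.pow _).mul (ub.pow _)).mul_right_eq_zero.1 k1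
  have k5 : algebraMap (Cx K) L G ∈ (pid (qt v) ^ m).map (algebraMap (Cx K) L) := by
    rw [Ideal.map_pow]
    exact Ideal.Quotient.eq_zero_iff_mem.1 k4
  obtain ⟨_, ⟨n, rfl⟩, k6⟩ := (IsLocalization.algebraMap_mem_map_algebraMap_iff
    (Submonoid.powers (X 0 * X 1 * X 3 : Cx K)) L _ _).1 k5
  have hP : Pt (qt v) := ⟨.inl (hv 0), .inr (mul_ne_zero (hv 0) (hv 2))⟩
  have := pid_div_pow hP (not_pid (c := X 0 * X 1 * X 3) (by
    simp [qt, hv 0, hv 2])) n k6
  simpa using this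

/-- the part of parity e of the system, on the quotient -/
noncomputable def Hq {ι : Type} (d M m e a c J : ℕ) (v : ι → Fin 3 → K) (μ : ι → ℕ) :
    Submodule K (Cx K) :=
  H0 ((d : ℤ) - e - a - c) J (Sum.elim crn fun i => qt (v i))
    (Sum.elim ![(m : ℤ) - e - a, (M : ℤ) - e - c, (J : ℤ) - a, (J : ℤ) - c] fun i => (μ i : ℤ))

theorem par_mem (h2 : (2 : K) ≠ 0) {v : Fin 3 → K} {m : ℕ} {F : MvPolynomial (Fin 3) K}
    (h : F ∈ RingHom.ker (eval v) ^ m) (h' : F ∈ RingHom.ker (eval (rf v)) ^ m) {e : ℕ}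
    (he : e ≤ 1) : par e F ∈ RingHom.ker (eval v) ^ m := by
  have h3 := ker_map (aeval ![X 0, -X 1, X 2] : MvPolynomial (Fin 3) K →ₐ[K] MvPolynomial (Fin 3) K)
    (rf v) (RingHom.ker (eval v)) (fun i => by fin_cases i <;> simp [rf, RingHom.mem_ker]) h'
  rw [← par_sub] at h3
  rw [← par_add F] at h
  have hc : (C (2 : K)⁻¹ * 2 : MvPolynomial (Fin 3) K) = 1 := by
    rw [← map_ofNat C 2, ← map_mul, inv_mul_cancel₀ h2, map_one]
  rcases Nat.le_one_iff_eq_zero_or_eq_one.1 he with rfl | rfl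
  · convert Ideal.mul_mem_left _ (C (2 : K)⁻¹) (Ideal.add_mem _ h h3) using 1
    linear_combination (-par 0 F) * hc
  · convert Ideal.mul_mem_left _ (C (2 : K)⁻¹) (Ideal.sub_mem _ h h3) using 1
    linear_combination (-par 1 F) * hc

theorem ker_cancel {σ : Type} {v : σ → K} {g F : MvPolynomial σ K} (hg : eval v g ≠ 0) {m : ℕ}
    (h : g * F ∈ RingHom.ker (eval v) ^ m) : F ∈ RingHom.ker (eval v) ^ m := by
  have h1 : 1 - C (eval v g)⁻¹ * g ∈ RingHom.ker (eval v) := by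
    simp [RingHom.mem_ker, inv_mul_cancel₀ hg]
  obtain ⟨u, hu⟩ := sub_dvd_pow_sub_pow (1 : MvPolynomial σ K) (1 - C (eval v g)⁻¹ * g) m
  have h2 := Ideal.add_mem _ (Ideal.mul_mem_right F _ (Ideal.pow_mem_pow h1 m))
    (Ideal.mul_mem_left _ (C (eval v g)⁻¹ * u) h)
  convert h2 using 1
  rw [one_pow] at hu
  linear_combination F * hu

theorem Tq_Hq (h2 : (2 : K) ≠ 0) {ι : Type} {d M m e a c J : ℕ} {v : ι → Fin 3 → K}
    (hv : ∀ i j, v i j ≠ 0) {μ : ι → ℕ} (he : e ≤ 1) (ha : 2 * a + e ≤ m + 1)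
    (hc : 2 * c + e ≤ M + 1) (hJ : d ≤ 2 * J + 1 + e) {F : MvPolynomial (Fin 3) K}
    (h1 : ∀ ν ∈ F.support, ν 0 + ν 1 + ν 2 = d ∧ ν 0 + M ≤ d ∧ ν 2 + m ≤ d)
    (h3 : ∀ i, F ∈ RingHom.ker (eval (v i)) ^ μ i ∧ F ∈ RingHom.ker (eval (rf (v i))) ^ μ i) :
    Tq e a c J F ∈ Hq d M m e a c J v μ ∧ (Tq e a c J F = 0 → par e F = 0) := by
  have hq := qm_Tq (e := e) (a := a) (c := c) (J := J) (F := F) fun ν hν h => by
    have := h1 ν hν
    omega
  have hb : Bih ((d : ℤ) - e - a - c) J (Tq e a c J F) :=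
    Tq_mem (weightedHomogeneousSubmodule K bw _) fun ν hν h => by
      have := h1 ν hν
      refine bih_mon _ ?_ ?_ <;> simp only [ex, Finsupp.equivFunOnFinite_symm_apply_apply,
        Matrix.cons_val] <;> omega
  refine ⟨mem_H0.2 ⟨hb, ?_⟩, fun h => ?_⟩
  · rintro (i | i)
    · have k : ∀ (P : Fin 4 → K) (s t : Fin 4) (n : ℕ), s ≠ t → X s ∈ pid P → X t ∈ pid P →
          (∀ ν ∈ F.support, ν 1 % 2 = e → n ≤ ex a c J ν s + ex a c J ν t) →
          Tq e a c J F ∈ pid P ^ n := fun P s t n hst hs ht hn =>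
        Tq_mem ((pid P ^ n).restrictScalars K) fun ν hν h => mon_mem _ _ s t hst hs ht (hn ν hν h)
      fin_cases i
      · refine k _ 0 2 _ (by decide) (by simpa [lx, crn] using lx_mem (crn (K := K) 0))
          (by simpa [ly, crn] using ly_mem (crn (K := K) 0)) fun ν hν h => ?_
        have := h1 ν hν
        simp [ex]
        omega
      · refine k _ 1 2 _ (by decide) (by simpa [lx, crn] using lx_mem (crn (K := K) 1))
          (by simpa [ly, crn] using ly_mem (crn (K := K) 1)) fun ν hν h => ?_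
        have := h1 ν hν
        simp [ex]
        omega
      · refine k _ 0 3 _ (by decide) (by simpa [lx, crn] using lx_mem (crn (K := K) 2))
          (by simpa [ly, crn] using ly_mem (crn (K := K) 2)) fun ν hν h => ?_
        have := h1 ν hν
        simp [ex]
        omega
      · refine k _ 1 3 _ (by decide) (by simpa [lx, crn] using lx_mem (crn (K := K) 3))
          (by simpa [ly, crn] using ly_mem (crn (K := K) 3)) fun ν hν h => ?_
        have := h1 ν hν
        simp [ex]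
        omega
    · refine pid_of_qm h2 (hv i) hb (ker_cancel (g := X 1 ^ e * X 0 ^ a * X 2 ^ c)
        (by simp [hv i 0, hv i 1, hv i 2]) ?_)
      rw [hq]
      exact Ideal.mul_mem_left _ _ (par_mem h2 (h3 i).1 (h3 i).2 he)
  · rw [h, map_zero, mul_zero] at hq
    exact (mul_eq_zero.1 hq.symm).resolve_left (by simp)

/-- a symmetric system is the sum of its even part and its odd part -/
theorem split_raw (h2 : (2 : K) ≠ 0) {ι : Type} {d M m a c J a' c' J' : ℕ} {v : ι → Fin 3 → K}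
    (hv : ∀ i j, v i j ≠ 0) {μ : ι → ℕ} (ha : 2 * a ≤ m + 1) (hc : 2 * c ≤ M + 1)
    (hJ : d ≤ 2 * J + 1) (ha' : 2 * a' ≤ m) (hc' : 2 * c' ≤ M) (hJ' : d ≤ 2 * J' + 2)
    (W : Submodule K (MvPolynomial (Fin 3) K))
    (h1 : ∀ F ∈ W, ∀ ν ∈ F.support, ν 0 + ν 1 + ν 2 = d ∧ ν 0 + M ≤ d ∧ ν 2 + m ≤ d)
    (h3 : ∀ F ∈ W, ∀ i,
      F ∈ RingHom.ker (eval (v i)) ^ μ i ∧ F ∈ RingHom.ker (eval (rf (v i))) ^ μ i) :
    Module.finrank K W ≤
      Module.finrank K (Hq d M m 0 a c J v μ) + Module.finrank K (Hq d M m 1 a' c' J' v μ) := by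
  have k0 := fun F hF => Tq_Hq h2 hv (e := 0) (a := a) (c := c) (J := J) (by omega) (by omega)
    (by omega) (by omega) (h1 F hF) (h3 F hF)
  have k1 := fun F hF => Tq_Hq h2 hv (e := 1) (a := a') (c := c') (J := J') (by omega) (by omega)
    (by omega) (by omega) (h1 F hF) (h3 F hF)
  have : FiniteDimensional K (Hq d M m 0 a c J v μ) := H0_fin _ _ _ _
  have : FiniteDimensional K (Hq d M m 1 a' c' J' v μ) := H0_fin _ _ _ _
  rw [← Module.finrank_prod]
  refine LinearMap.finrank_le_finrank_of_injective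
    (f := ((Tq 0 a c J).restrict fun F hF => (k0 F hF).1).prod
      ((Tq 1 a' c' J').restrict fun F hF => (k1 F hF).1))
    (LinearMap.ker_eq_bot.1 (LinearMap.ker_eq_bot'.2 fun F hF => Subtype.ext ?_))
  have e0 := (k0 F F.2).2 (congrArg (fun x => (x.1 : Cx K)) hF)
  have e1 := (k1 F F.2).2 (congrArg (fun x => (x.2 : Cx K)) hF)
  rw [← par_add (F : MvPolynomial (Fin 3) K), e0, e1, add_zero]
  rfl

end field

end Pool.Agent.Lib.MP_d03834_ag.Core.Inv
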