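import Pool.Agent.Lib.MP_d03834_ag.Core.InvA

/-! Extension of the ground field and lifting of points along the quotient map. -/

set_option autoImplicit false

namespace Pool.Agent.Lib.MP_d03834_ag.Core.Inv

open MvPolynomial

variable {K L : Type} [Field K] [Field L] [Algebra K L]

/-- a linear form applied to the coefficients -/
noncomputable def cf {σ : Type} (f : L →ₗ[K] K) (F : MvPolynomial σ L) : MvPolynomial σ K :=
  ∑ μ ∈ F.support, monomial μ (f (coeff μ F))

theorem cf_coeff {σ : Type} (f : L →ₗ[K] K) (F : MvPolynomial σ L) (μ : σ →₀ ℕ) :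
    coeff μ (cf f F) = f (coeff μ F) := by
  classical
  rw [cf, coeff_sum]
  simp only [coeff_monomial, Finset.sum_ite_eq', mem_support_iff]
  split_ifs with h
  · rfl
  · rw [not_not.1 h, map_zero]

theorem cf_add {σ : Type} (f : L →ₗ[K] K) (F G : MvPolynomial σ L) :
    cf f (F + G) = cf f F + cf f G := by
  ext μ
  simp [cf_coeff]

theorem cf_mul {σ : Type} (f : L →ₗ[K] K) (G : MvPolynomial σ K) (F : MvPolynomial σ L) :
    cf f (F * map (algebraMap K L) G) = cf f F * G := by
  classical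
  ext μ
  rw [cf_coeff, coeff_mul, coeff_mul, map_sum]
  refine Finset.sum_congr rfl fun x _ => ?_
  rw [coeff_map, cf_coeff, mul_comm, ← Algebra.smul_def, map_smul, smul_eq_mul, mul_comm]

theorem cf_mem {σ : Type} (f : L →ₗ[K] K) (I : Ideal (MvPolynomial σ K)) {F : MvPolynomial σ L}
    (h : F ∈ I.map (map (algebraMap K L))) : cf f F ∈ I := by
  have k : ∀ c : MvPolynomial σ L, cf f (c * F) ∈ I := by
    refine Submodule.span_induction (p := fun F _ => ∀ c : MvPolynomial σ L, cf f (c * F) ∈ I)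
      ?_ ?_ ?_ ?_ h
    · rintro _ ⟨G, hG, rfl⟩ c
      rw [cf_mul]
      exact I.mul_mem_left _ hG
    · intro c
      rw [mul_zero, cf, support_zero, Finset.sum_empty]
      exact I.zero_mem
    · intro x y _ _ hx hy c
      rw [mul_add, cf_add]
      exact I.add_mem (hx c) (hy c)
    · intro a x _ hx c
      rw [smul_eq_mul, ← mul_assoc]
      exact hx _
  simpa using k 1

/-- a space whose coefficient parts lie in a finite dimensional space -/
theorem rk_ext {σ : Type} (S : Submodule L (MvPolynomial σ L)) (T : Submodule K (MvPolynomial σ K))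
    [FiniteDimensional K T] (h : ∀ F ∈ S, ∀ f : L →ₗ[K] K, cf f F ∈ T) :
    Module.finrank L S ≤ Module.finrank K T := by
  classical
  let b := Module.finBasis K T
  let B := Module.Basis.ofVectorSpace K L
  let U := Submodule.span L (Set.range fun i => map (algebraMap K L) (b i : MvPolynomial σ K))
  have hU : ∀ G ∈ T, map (algebraMap K L) G ∈ U := fun G hG => by
    have e := congrArg (fun x : T => map (algebraMap K L) (x : MvPolynomial σ K))
      (b.sum_repr ⟨G, hG⟩)
    simp only [AddSubmonoidClass.coe_finset_sum, SetLike.val_smul, map_sum] at e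
    rw [← e]
    refine U.sum_mem fun i _ => ?_
    rw [smul_eq_C_mul, map_mul, map_C, ← smul_eq_C_mul]
    exact U.smul_mem _ (Submodule.subset_span ⟨i, rfl⟩)
  have hS : S ≤ U := fun F hF => by
    have e : F = ∑ j ∈ F.support.biUnion fun μ => (B.repr (coeff μ F)).support,
        B j • map (algebraMap K L) (cf (B.coord j) F) := by
      ext μ
      rw [coeff_sum]
      simp only [coeff_smul, coeff_map, cf_coeff, Module.Basis.coord_apply, smul_eq_mul]
      conv_lhs => rw [← B.linearCombination_repr (coeff μ F), Finsupp.linearCombination_apply]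
      rw [Finsupp.sum_of_support_subset _ (s := F.support.biUnion fun μ => (B.repr (coeff μ F)).support)
        _ _ (by simp)]
      · exact Finset.sum_congr rfl fun j _ => by rw [Algebra.smul_def, mul_comm]
      · intro j hj
        by_cases h0 : coeff μ F = 0
        · simp [h0] at hj
        · exact Finset.mem_biUnion.2 ⟨μ, mem_support_iff.2 h0, hj⟩
    rw [e]
    exact U.sum_mem fun j _ => U.smul_mem _ (hU _ (h F hF _))
  have : FiniteDimensional L U := FiniteDimensional.span_of_finite L (Set.finite_range _)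
  refine (Submodule.finrank_mono hS).trans ((finrank_range_le_card _).trans ?_)
  simp

/-- extension of the ground field does not increase the dimension -/
theorem H0_ext {ι : Type} (p q : ℤ) (P : ι → Fin 4 → K) (m : ι → ℤ) :
    Module.finrank L (H0 p q (fun i c => algebraMap K L (P i c)) m) ≤
      Module.finrank K (H0 p q P m) := by
  refine rk_ext _ _ fun F hF f => mem_H0.2 ⟨bih_iff.2 fun μ hμ => bih_iff.1 (mem_H0.1 hF).1 μ
    fun h0 => hμ (by rw [cf_coeff, h0, map_zero]), fun i => cf_mem f _ ?_⟩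
  rw [Ideal.map_pow]
  refine Ideal.pow_right_mono (pid_le ?_ ?_) _ ((mem_H0.1 hF).2 i)
  · convert Ideal.mem_map_of_mem (map (algebraMap K L)) (lx_mem (P i))
    simp [lx]
  · convert Ideal.mem_map_of_mem (map (algebraMap K L)) (ly_mem (P i))
    simp [ly]

theorem pid_scale {P Q : Fin 4 → K} (a b : K) (h0 : Q 0 = a * P 0) (h1 : Q 1 = a * P 1)
    (h2 : Q 2 = b * P 2) (h3 : Q 3 = b * P 3) : pid Q ≤ pid P := by
  refine pid_le ?_ ?_
  · convert Ideal.mul_mem_left _ (C a) (lx_mem P) using 1
    simp only [lx, h0, h1, map_mul]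
    ring
  · convert Ideal.mul_mem_left _ (C b) (ly_mem P) using 1
    simp only [ly, h2, h3, map_mul]
    ring

/-- every point of the torus is an image -/
theorem ex_up [IsAlgClosed K] {Q : Fin 4 → K} (hQ : ∀ c, Q c ≠ 0) :
    ∃ v : Fin 3 → K, (∀ j, v j ≠ 0) ∧ v 0 = Q 0 ∧ v 2 = Q 1 ∧ v 1 ^ 2 * Q 3 = Q 0 * Q 1 * Q 2 ∧
      pid (qt v) ≤ pid Q := by
  obtain ⟨y, hy⟩ := IsAlgClosed.exists_pow_nat_eq (Q 0 * Q 1 * Q 2 / Q 3) two_pos
  have h0 := hQ 0
  have h1 := hQ 1
  have h2 := hQ 2
  have h3 := hQ 3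
  refine ⟨![Q 0, y, Q 1], fun j => ?_, rfl, rfl, by simp [hy, h3], pid_scale 1 (Q 0 * Q 1 / Q 3)
    (by simp [qt]) (by simp [qt]) (by simp [qt, hy]; ring) (by simp [qt, h3])⟩
  fin_cases j
  · exact h0
  · rintro (h : y = 0)
    rw [h] at hy
    exact div_ne_zero (mul_ne_zero (mul_ne_zero h0 h1) h2) h3 (by simpa using hy.symm)
  · exact h1

theorem crn_map (c j : Fin 4) : algebraMap K L (crn c j) = crn c j := by
  fin_cases c <;> fin_cases j <;> simp [crn]

/-- lifting of a configuration on the quotient -/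
theorem ex_Hq [IsAlgClosed L] {ι : Type} (Q : ι → Fin 4 → K) (hQ : ∀ i c, Q i c ≠ 0) :
    ∃ v : ι → Fin 3 → L, (∀ i j, v i j ≠ 0) ∧ (∀ i, v i 0 = algebraMap K L (Q i 0) ∧
      v i 2 = algebraMap K L (Q i 1) ∧
      v i 1 ^ 2 * algebraMap K L (Q i 3) = algebraMap K L (Q i 0 * Q i 1 * Q i 2)) ∧
      ∀ (d M m e a c J : ℕ) (μ : ι → ℕ), Module.finrank L (Hq d M m e a c J v μ) ≤
        Module.finrank K (H0 ((d : ℤ) - e - a - c) J (Sum.elim crn Q) (Sum.elim
          ![(m : ℤ) - e - a, (M : ℤ) - e - c, (J : ℤ) - a, (J : ℤ) - c] fun i => (μ i : ℤ))) := by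
  choose v h1 h2 h3 h4 h5 using fun i => ex_up (Q := fun c => algebraMap K L (Q i c))
    fun c => (map_ne_zero _).2 (hQ i c)
  refine ⟨v, h1, fun i => ⟨h2 i, h3 i, by rw [h4 i, map_mul, map_mul]⟩,
    fun d M m e a c J μ => le_trans (Submodule.finrank_mono fun F hF => ?_) (H0_ext (L := L) _ _ _ _)⟩
  refine mem_H0.2 ⟨(mem_H0.1 hF).1, ?_⟩
  rintro (i | i)
  · convert (mem_H0.1 hF).2 (.inl i) using 3
    exact funext (crn_map i)
  · exact Ideal.pow_right_mono (h5 i) _ ((mem_H0.1 hF).2 (.inr i))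

end Pool.Agent.Lib.MP_d03834_ag.Core.Inv
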