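import Pool.Agent.Lib.MP_d03834_ag.Core.KPC

/-! The bound for the sections in divisibility form, from any state of the descent. -/

set_option autoImplicit false

namespace Pool.Agent.Lib.MP_d03834_ag.Core

open Module

variable {O k Γ : Type} [CommRing O] [Field k] [LinearOrderedCommGroupWithZero Γ]

/-- the bound for all states at any distance from a base state -/
def KPE (A : Arc O k) (K : Type) [Field K] [Algebra O K] (v : Valuation k Γ) : Prop :=
  ∀ (c : CCfg O k) (χ : CL → k) (E : Set CL) (n : ℕ) (u : CL) (ε : ℤ), Shp A c.toCfg χ → Ex A c →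
    cD.lat.P (Invo.one v) n χ E → cD.lat.Pos (Invo.one v) χ u → Eok u E → u ∈ cD.M →
    ε = 0 ∨ ε = 1 →
    (0 < cip u u → (finrank K (c.HC A K ε u) : ℤ) ≤ 1 + cip u u / 2) ∧
      (cip u u < 0 → finrank K (c.HC A K ε u) = 0)

theorem kpe_of {A : Arc O k} {K : Type} [Field K] [Algebra O K] {v : Valuation k Γ}
    (hV : StepVC A K) (hH : StepHC A K) (hF : StepFC A K v) (hE : EndC A K) : KPE A K v := by
  intro c χ E n u ε h1 h2 hP hx hEo hu hε
  have key : ∀ r : ℤ, 0 ≤ r → (∀ (c : CCfg O k) (w : CL), NdgC A c.toCfg → Ex A c → Dmn w →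
      cip w w = cip u u → (finrank K (c.HC A K ε w) : ℤ) ≤ r) →
      (finrank K (c.HC A K ε u) : ℤ) ≤ r := fun r hr hfin =>
    kpe_abs (v := v) (cip u u) (fun (c : CCfg O k) χ => Shp A c.toCfg χ ∧ Ex A c)
      (fun c w => (finrank K (c.HC A K ε w) : ℤ) ≤ r)
      (fun c χ w i j hij h h1 h2 h3 h4 h5 => by
        obtain ⟨c', a1, a2, a3⟩ := hV c χ w i j hij h.1 h.2 h1 h2 h3 h4 h5
        exact ⟨c', ⟨a1, a2⟩, fun g => le_trans (by exact_mod_cast a3 ε hε) g⟩)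
      (fun c χ w s h h1 h2 h3 h4 h5 => by
        obtain ⟨c', a1, a2, a3⟩ := hH c χ w s h.1 h.2 h1 h2 h3 h4 h5
        exact ⟨c', ⟨a1, a2⟩, fun g => le_trans (by exact_mod_cast a3 ε hε) g⟩)
      (fun c χ w s h h1 _ _ => by
        obtain ⟨c', a1, a2, a3⟩ := hF c χ w s h.1 h.2 h1.ch
        exact ⟨c', ⟨a1, a2⟩, fun g => le_trans (by exact_mod_cast a3 ε) g⟩)
      (fun c _ w _ h => by
        rw [HC_neg A K c (by omega) h]
        exact_mod_cast hr)
      (fun c χ w h h1 h2 h3 => hfin c w (h.1.ndgC h1.ch) h.2 h2 h3)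
      ⟨h1, h2⟩ hP hx hEo hu rfl
  refine ⟨fun h => key _ (by omega) fun c w h1 h2 h3 h4 => ?_, fun h => ?_⟩
  · have := hE c w ε h1 h2 h3 (by omega) hε
    rwa [h4] at this
  · have := key 0 le_rfl fun c w _ _ h3 h4 => absurd h3.sq (by omega)
    omega

theorem KPE.kpc {A : Arc O k} {K : Type} [Field K] [Algebra O K] {v : Valuation k Γ}
    (h : KPE A K v) : KPC A K v := fun c χ u ε hs hε =>
  h c χ _ 0 u ε hs.shp hs.ex (P_base u hs.ch hs.le hs.nb) hs.pos (Eok.base hs.rt) hs.M hε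

/-- a flip at any line keeps the sign invariant for the roots of degree zero and for those whose
image has non-negative degree in the chart -/
theorem Eok.refl {u g : CL} {E : Set CL} (hg : g ∈ cD.lat.Λ)
    (h : ∀ b ∈ E, b ∈ cD.M ∧ cip b b = -2 ∧ 0 ≤ cip u b ∧
      (0 < cip u b → 0 ≤ cip hC (cD.lat.refl g b))) :
    Eok (cD.lat.refl g u) (cD.lat.refl g ⁻¹' E) := fun b hb => by
  obtain ⟨a1, a2, a3, a4⟩ := h _ hb
  have e0 : cD.lat.refl g (cD.lat.refl g b) = b := Lat.refl_refl (T := cD.lat) hg b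
  have e : cip (cD.lat.refl g u) b = cip u (cD.lat.refl g b) := by
    conv_lhs => rw [← e0]
    exact Lat.ip_refl_refl (T := cD.lat) hg u _
  refine ⟨?_, (Lat.ip_refl_refl (T := cD.lat) hg b b).symm.trans a2, e ▸ a3, fun h3 => ?_⟩
  · rw [← e0]
    exact add_mem a1 (zsmul_mem hg.2.2 _)
  · have := a4 (e ▸ h3)
    rwa [e0] at this

/-- the bound for a state which is one forward flip away from a base state -/
theorem KPE.flip1 {A : Arc O k} {K : Type} [Field K] [Algebra O K] {v : Valuation k Γ}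
    (h : KPE A K v) {c : CCfg O k} {χ : CL → k} {g u : CL} {ε : ℤ} (hχ : IsCh χ)
    (le : ∀ l ∈ cD.lat.Λ, v (χ l) ≤ 1) (nb : ∀ l ∈ cD.lat.Λ, ¬Lat.Bk (Invo.one v) (χ l))
    (hg : g ∈ cD.lat.Λ) (hv : v (χ g) < 1)
    (shp : Shp A c.toCfg (cD.lat.flip (Invo.one v) g χ)) (ex : Ex A c) (hu : u ∈ cD.M)
    (pos : cD.lat.Pos (Invo.one v) (cD.lat.flip (Invo.one v) g χ) u)
    (rt : ∀ α ∈ cD.lat.Φ, χ α = 1 → 0 < cip u (cD.lat.refl g α) →
      0 ≤ cip hC (cD.lat.refl g α)) (hε : ε = 0 ∨ ε = 1) :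
    (0 < cip u u → (finrank K (c.HC A K ε u) : ℤ) ≤ 1 + cip u u / 2) ∧
      (cip u u < 0 → finrank K (c.HC A K ε u) = 0) := by
  have e0 : cD.lat.refl g (cD.lat.refl g u) = u := Lat.refl_refl (T := cD.lat) hg u
  have e1 : ∀ b, cip (cD.lat.refl g u) b = cip u (cD.lat.refl g b) := fun b => by
    conv_rhs => rw [← e0]
    exact (Lat.ip_refl_refl (T := cD.lat) hg _ b).symm
  have hE := Eok.refl (u := cD.lat.refl g u)
    (E := {α | α ∈ cD.lat.Φ ∧ χ α = 1 ∧ 0 ≤ cip (cD.lat.refl g u) α}) hg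
    fun b hb => ⟨hb.1.2.2, hb.1.1, hb.2.2, fun h1 => rt b hb.1 hb.2.1 (e1 b ▸ h1)⟩
  rw [e0] at hE
  exact h c _ _ 1 u ε shp ex ((P_base (cD.lat.refl g u) hχ le nb).flip hg hv) pos hE hu hε

end Pool.Agent.Lib.MP_d03834_ag.Core
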