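import Pool.Agent.Lib.MP_d03834_ag.Core.TenA

/-! Ten general points, four of the same multiplicity: the bounds from the fold and from the
bound on the shape. -/

set_option autoImplicit false

namespace Pool.Agent.Lib.MP_d03834_ag.Core

open Module H19

/-- All bounds; k is the degree on the canonical class and y is the square. -/
def PZ : Prop := ∀ (d b r : ℕ) (a : Fin 6 → ℕ) (k y : ℤ), k = ∑ i, (a i : ℤ) + 4 * b - 3 * d →
  y = d ^ 2 - ∑ i, (a i : ℤ) ^ 2 - 4 * b ^ 2 →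
  (0 ≤ k ∧ y < 0) ∨ (0 ≤ k ∧ 0 < y ∧ 1 + y / 2 ≤ r) ∨
    (-1 ≤ k ∧ 2 * k + 1 < y ∧ 1 + (y - k) / 2 ≤ r) ∨ (-1 ≤ k ∧ y < 2 * k + 1 ∧ k / 2 + 1 ≤ r) →
  Hle d (ten a b) r

/-- the exact count as soon as the square is larger than 2 k + 1 -/
def PX : Prop := ∀ (d b r : ℕ) (a : Fin 6 → ℕ), 3 * d ≤ ∑ i, a i + 4 * b + 1 →
  ∑ i, a i ^ 2 + 4 * b ^ 2 + 2 * (∑ i, a i + 4 * b) + 1 < d ^ 2 + 6 * d →
    tn (d + 1) ≤ ∑ i, tn (a i) + 4 * tn b + r → Hle d (ten a b) r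

/-- emptiness for a negative square -/
def PE : Prop := ∀ (d b r : ℕ) (a : Fin 6 → ℕ), 3 * d ≤ ∑ i, a i + 4 * b →
  d ^ 2 < ∑ i, a i ^ 2 + 4 * b ^ 2 → Hle d (ten a b) r

theorem PZ.pu (h : PZ) : PU := fun d b u a h1 h2 h3 => by
  zify at h1 h2 h3
  exact h d b u a _ _ rfl rfl (Or.inr (Or.inl ⟨by omega, by omega, by omega⟩))

theorem PZ.pe (h : PZ) : PE := fun d b u a h1 h2 => by
  zify at h1 h2
  exact h d b u a _ _ rfl rfl (Or.inl ⟨by omega, by omega⟩)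

theorem PZ.px (h : PZ) : PX := fun d b r a h1 h2 h3 => by
  have t : ∀ n : ℕ, 2 * (tn n : ℤ) = n ^ 2 + n := fun n => by
    have := two_tn n
    zify at this
    linarith
  have e := t (d + 1)
  have e0 := t (a 0)
  have e1 := t (a 1)
  have e2 := t (a 2)
  have e3 := t (a 3)
  have e4 := t (a 4)
  have e5 := t (a 5)
  have e6 := t b
  have e7 : ((d + 1 : ℕ) : ℤ) ^ 2 = d ^ 2 + 2 * d + 1 := by push_cast; ring
  zify at h1 h2 h3
  refine h d b r a _ _ rfl rfl (Or.inr (Or.inr (Or.inl ⟨by omega, by omega, ?_⟩)))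
  simp only [Fin.sum_univ_six] at h3 ⊢
  omega

theorem PZ.ps (h : PZ) : PS := fun d b r a h1 h2 h3 => by
  refine h.px d b r a (by omega) ?_ h3
  simp only [Fin.sum_univ_six] at h1 h2 ⊢
  have : a 0 + a 1 + a 2 + a 3 + a 4 + 4 * b ≤ 3 * d := by
    zify at h2 ⊢
    by_contra hc
    have h0 : (0 : ℤ) < d := by
      rcases Nat.eq_zero_or_pos d with e | e
      · subst e
        nlinarith [sq_nonneg (a 0 : ℤ), sq_nonneg (a 1 : ℤ), sq_nonneg (a 2 : ℤ),
          sq_nonneg (a 3 : ℤ), sq_nonneg (a 4 : ℤ), sq_nonneg (a 5 : ℤ), sq_nonneg (b : ℤ)]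
      · exact_mod_cast e
    nlinarith [sq_nonneg (3 * (a 0 : ℤ) - d), sq_nonneg (3 * (a 1 : ℤ) - d),
      sq_nonneg (3 * (a 2 : ℤ) - d), sq_nonneg (3 * (a 3 : ℤ) - d), sq_nonneg (3 * (a 4 : ℤ) - d),
      sq_nonneg (3 * (b : ℤ) - d), sq_nonneg (a 5 : ℤ), mul_pos h0 (sub_pos.2 (not_le.1 hc))]
  omega

/-- the fold in the fibre frame -/
def Fold {K : Type} [Field K] (Q : Ix → Fin 4 → K) {L : Type} [Field L] (P : Ix → Fin 4 → L) :
    Prop :=
  ∀ (p q : ℤ) (m : Ix → ℤ) (k : ℕ), p ≤ m (.inr (.inr 0)) + m (.inr (.inl 1)) →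
    p ≤ m (.inr (.inl 0)) + m (.inr (.inr 1)) → q + k ≤ m (.inl 0) + m (.inl 1) + m (.inl 2) →
    finrank L (H0 p q P m) ≤ finrank K (H0 (p - k) (q - 2 * ((k + 1) / 2)) Q (tenR k m)) ∧
    finrank L (H0 p q P m) ≤
      k / 2 + 1 + finrank K (H0 (p - (k + 1)) (q - 2 * ((k + 1 + 1) / 2)) Q (tenR (k + 1) m))

theorem ten_par {d b k y : ℤ} {a : Fin 6 → ℤ} (hk : k = ∑ i, a i + 4 * b - 3 * d)
    (hy : y = d ^ 2 - ∑ i, a i ^ 2 - 4 * b ^ 2) : (y - k) % 2 = 0 := by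
  have t : ∀ n : ℤ, (n ^ 2 + n) % 2 = 0 := fun n => by
    have := Int.even_mul_succ_self n
    rw [Int.even_iff] at this
    rw [← this]
    congr 1
    ring
  have e := t d
  have e0 := t (a 0)
  have e1 := t (a 1)
  have e2 := t (a 2)
  have e3 := t (a 3)
  have e4 := t (a 4)
  have e5 := t (a 5)
  rw [Fin.sum_univ_six] at hk hy
  omega

theorem pz_of {O k' K L : Type} [CommRing O] [IsDomain O] [Field k'] [Field K] [Algebra O K]
    [Algebra ℂ K] [Field L] [Algebra ℂ L] {A : Arc O k'} {c : Cfg O k'} {la mu : O}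
    (h : Rex A c la mu) (hi : Function.Injective (algebraMap O K)) {P : Ix → Fin 4 → L}
    (hP : ∀ l, Pt (P l)) (hF : Fold (c.fb A K la mu) P)
    (kp : ∀ (ε : ℤ) (u : CL), ε = 0 ∨ ε = 1 → u ∈ cD.M → 0 ≤ u.2.2 1 →
      (0 < cip u u → (finrank K (c.H A K ε u) : ℤ) ≤ 1 + cip u u / 2) ∧
      (cip u u < 0 → finrank K (c.H A K ε u) = 0)) : PZ := by
  intro d b r a k y hk hy hc
  have par := ten_par hk hy
  have k0 := fun e => kp 0 (tenU d b (fun i => a i) k 0) (Or.inl rfl) (tenU_M hk 0) e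
  have k1 := fun e => kp 1 (tenU d b (fun i => a i) k 1) (Or.inr rfl) (tenU_M hk 1) e
  rw [tenU_sq hk, ← hy] at k0 k1
  have l0 := ten_le h hi (ε := 0) hk
  have l1 := ten_le h hi (ε := 1) hk
  generalize finrank K (c.H A K 0 _) = x0 at k0 l0
  generalize finrank K (c.H A K 1 _) = x1 at k1 l1
  by_cases hn : k = -1
  · subst hn
    refine ten_of_chart _ (h.pt hi) (le_trans (le_of_eq ?_) (l1.trans ?_))
    · have e : tenR (-1 + 1) (tenM d b fun i => a i) = tenM d b fun i => a i := by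
        funext l
        revert l
        refine ix_all ?_ ?_ ?_ ?_ ?_ ?_ ?_ ?_ ?_ <;> simp [tenR]
      rw [e, neg_add_cancel, sub_zero, show (2 * ((0 + 1) / 2) : ℤ) = 0 from rfl, sub_zero]
    · have := k1 (by simp [tenU])
      omega
  obtain ⟨n, rfl⟩ := Int.eq_ofNat_of_zero_le (a := k) (by omega)
  have s := hk
  rw [Fin.sum_univ_six] at s
  obtain ⟨f0, f1⟩ := hF (tenP d b fun i => a i) (tenQ d b fun i => a i) (tenM d b fun i => a i) n
    (by simp [tenP, tenM]; omega) (by simp [tenP, tenM]; omega) (by simp [tenQ, tenM]; omega)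
  rw [add_zero] at l0
  have g0 := k0 (by simp [tenU])
  have g1 := k1 (by simp [tenU]; omega)
  have f2 := f0.trans l0
  have f3 := f1.trans (Nat.add_le_add_left l1 _)
  refine ten_of_chart P hP ?_
  revert f2 f3
  generalize finrank L (H0 (tenP d b fun i => a i) (tenQ d b fun i => a i) P
    (tenM d b fun i => a i)) = x
  clear f0 f1 l0 l1 k0 k1
  omega

end Pool.Agent.Lib.MP_d03834_ag.Core
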