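import Pool.Agent.Lib.MP_d03834_ag.Core.N10Def
import Pool.Agent.Lib.MP_d03834_ag.Core.TenB0
import Pool.Agent.Lib.MP_d03834_ag.Core.T4

/-! Ten points of the same multiplicity. -/

set_option autoImplicit false

namespace Pool.Agent.Lib.MP_d03834_ag.Core

open Module H19

/-- the plane points which belong to the points of the chart -/
def g10 : Option Ix → Fin 10
  | none => 7
  | some (.inl i) => ![8, 9, 2, 5, 6] i
  | some (.inr (.inl s)) => ![3, 4] s
  | some (.inr (.inr s)) => ![0, 1] s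

/-- multiplicities 3 e + k + x e -/
def mu10 (e k : ℤ) (x : Fin 10 → ℤ) (i : Fin 10) : ℤ := 3 * e + k + x i * e

/-- three quadratic transformations and the chart -/
theorem Ch10.hle {e k r : ℕ} (h : Ch10 e k r) :
    Hle (10 * e + 3 * k) (fun _ : Fin 10 => 3 * e + k) r := by
  obtain ⟨K, _, _, P, hP, h⟩ := h
  have e0 : (fun _ : Fin 10 => 3 * e + k) = fun l => (mu10 e k 0 l).toNat := by
    funext l
    simp only [mu10, Pi.zero_apply]
    omega
  rw [e0]
  have i1 : Function.Injective (![0, 1, 2] : Fin 3 → Fin 10) := by decide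
  have i2 : Function.Injective (![0, 3, 4] : Fin 3 → Fin 10) := by decide
  have i3 : Function.Injective (![1, 5, 6] : Fin 3 → Fin 10) := by decide
  refine Hle.crem i1 (d' := 11 * e + 3 * k) (μ' := mu10 e k ![1, 1, 1, 0, 0, 0, 0, 0, 0, 0])
    (by simp [mu10]; ring) (fun i => by fin_cases i <;> simp [mu10] <;> omega) (fun q hq => ?_) ?_
  · fin_cases q <;> first | exact absurd (by decide) hq | simp [mu10]
  refine Hle.crem i2 (d' := 12 * e + 3 * k) (μ' := mu10 e k ![2, 1, 1, 1, 1, 0, 0, 0, 0, 0])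
    (by simp [mu10]; ring) (fun i => by fin_cases i <;> simp [mu10] <;> omega) (fun q hq => ?_) ?_
  · fin_cases q <;> first | exact absurd (by decide) hq | simp [mu10]
  refine Hle.crem i3 (d' := 14 * e + 3 * k) (μ' := mu10 e k ![2, 3, 1, 1, 1, 2, 2, 0, 0, 0])
    (by simp [mu10]; ring) (fun i => by fin_cases i <;> simp [mu10] <;> omega) (fun q hq => ?_) ?_
  · fin_cases q <;> first | exact absurd (by decide) hq | simp [mu10]
  refine hle_chartZ g10 (by decide) (.inr (.inl 1)) P hP (m10 e k) ?_ ?_ ?_ ?_ h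
  · simp [mu10, g10]; ring
  · simp [mu10, g10]; ring
  · simp [mu10, g10, m10]; omega
  · refine ix_all ?_ ?_ ?_ ?_ ?_ ?_ ?_ ?_ ?_ <;> simp [mu10, g10, m10] <;> omega

/-- the range of the fold with the broken curve, positive square only -/
def Down10p : Prop := ∀ e k r : ℕ, 1 ≤ e → 3 * e ≤ k → k ^ 2 < 10 * e ^ 2 →
  10 * e ^ 2 + 2 ≤ k ^ 2 + k + 2 * r → Ch10 e k r

theorem Down10.p (h : Down10) : Down10p := fun e k r h1 h2 h3 h4 =>
  h e k r h1 h2 (by nlinarith) h4

theorem n10_unif {d m r : ℕ} (h : Hle d (ten (fun _ => m) m) r) :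
    Hle d (fun _ : Fin 10 => m) r :=
  h.mono finSumFinEquiv finSumFinEquiv.injective (by rintro (q | q) <;> exact le_rfl) le_rfl

theorem n10_ch (n : ℕ) : 2 * (n + 1).choose 2 = n ^ 2 + n := by
  have := two_tn n
  unfold tn at this
  nlinarith

theorem core10_ofp (hZ : PZ) (hD : Down10p) : CoreN 10 := by
  intro m d hm h1 h2
  have t0 := n10_ch d
  have t1 := n10_ch (d + 1)
  have t2 := n10_ch (d + 2)
  have t3 := n10_ch m
  rw [show d + 1 + 1 = d + 2 from rfl] at t1
  rw [show d + 2 + 1 = d + 3 from rfl] at t2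
  generalize hr : (d + 2).choose 2 - 10 * (m + 1).choose 2 = r
  have hv : (d + 1) ^ 2 + (d + 1) ≤ 10 * (m ^ 2 + m) + 2 * r := by omega
  have hu : d ^ 2 + d ≤ 10 * (m ^ 2 + m) := by omega
  have hl : 10 * (m ^ 2 + m) < (d + 2) ^ 2 + (d + 2) := by omega
  clear h1 h2 t0 t1 t2 t3 hr
  have hk : 3 * d ≤ 10 * m + 1 := by nlinarith
  rcases lt_or_ge (d ^ 2) (10 * m ^ 2) with c | c
  · exact n10_unif (hZ.pe d m r _ (by simp; nlinarith) (by simp; omega))
  rcases lt_or_ge (10 * m ^ 2 + 20 * m + 1) (d ^ 2 + 6 * d) with c1 | c1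
  · refine n10_unif (hZ.px d m r _ (by simp; omega) (by simp; omega) ?_)
    have s1 := two_tn (d + 1)
    have s2 := two_tn m
    simp
    nlinarith
  have he : 3 * m < d := by nlinarith
  have hk' : 3 * d ≤ 10 * m := by nlinarith
  obtain ⟨e, k, rfl, rfl⟩ : ∃ e k, d = 10 * e + 3 * k ∧ m = 3 * e + k :=
    ⟨d - 3 * m, 10 * m - 3 * d, by omega, by omega⟩
  have e1 : 1 ≤ e := by omega
  have y0 : k ^ 2 ≤ 10 * e ^ 2 := by nlinarith
  have y1 : 10 * e ^ 2 ≤ k ^ 2 + 2 * k + 1 := by nlinarith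
  refine (hD e k r e1 (by nlinarith) (y0.lt_of_ne fun c2 => ?_) (by nlinarith)).hle
  have ir : Irrational (√(10 : ℕ)) := by norm_num [irrational_sqrt_ofNat_iff, IsSquare]
  refine ir.ne_rational k e ?_
  have e2 : (0 : ℝ) < e := by exact_mod_cast e1
  have e3 : (k : ℝ) ^ 2 = 10 * e ^ 2 := by exact_mod_cast c2
  have e4 : ((10 : ℕ) : ℝ) = ((k : ℝ) / e) ^ 2 := by
    rw [div_pow, e3]
    field_simp
    norm_num
  rw [e4, Real.sqrt_sq (by positivity)]
  simp

theorem core10_of (hZ : PZ) (hD : Down10) : CoreN 10 := core10_ofp hZ hD.p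

end Pool.Agent.Lib.MP_d03834_ag.Core
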