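import Pool.Agent.Lib.MP_d03834_ag.Core.N10W

/-! The three classes for ten points in the frame of the broken curve and in the shape. -/

set_option autoImplicit false

namespace Pool.Agent.Lib.MP_d03834_ag.Core

open Module

/-- the class in the shape -/
def u10 (e k : ℤ) : CL :=
  ((8 * e - k, 10 * e - k), ![3 * e, 3 * e, 4 * e, 5 * e - k, 5 * e - k], ![e, e])

/-- the multiplicities in the frame of the broken curve, lowered by i on the first piece,
by j on the second piece and by l on the two arms -/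
def nb10 (e k i j l : ℤ) : Ix → ℤ
  | .inl r => ![3 * e - i, 3 * e - i, 4 * e - i, 6 * e - j, 6 * e - j] r
  | .inr (.inl s) => ![6 * e - (k + 1) / 2 - l, 7 * e + k / 2 - l] s
  | .inr (.inr s) => ![7 * e - (k + 1) / 2 - l, 6 * e + k / 2 - l] s

theorem u10_eb (e k : ℤ) : u10 e k - eb 1 =
    ((8 * e - k, 10 * e - k), ![3 * e, 3 * e, 4 * e, 5 * e - k, 5 * e - k], ![e, e + 1]) := by
  refine Prod.ext (by simp [u10, eb]) (Prod.ext (by simp [u10, eb]) (funext fun s => ?_))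
  fin_cases s <;> simp [u10, eb, -Matrix.cons_add]

theorem u10_e5 (e k : ℤ) : u10 e k - e5 =
    ((8 * e - k - 1, 10 * e - k), ![3 * e, 3 * e, 4 * e, 5 * e - k, 5 * e - k], ![e, e]) := by
  simp [u10, e5]

theorem u10_M (e k : ℤ) : u10 e k ∈ cD.M := by
  rw [cD_M, Fin.sum_univ_five]
  simp [u10]
  ring

theorem u10_sq (e k : ℤ) : cip (u10 e k) (u10 e k) = 10 * e ^ 2 - k ^ 2 := by
  simp [cip, u10, Fin.sum_univ_five, Fin.sum_univ_two]
  ring

theorem u10_sq1 (e k : ℤ) :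
    cip (u10 e k - eb 1) (u10 e k - eb 1) = 10 * e ^ 2 - k ^ 2 - 2 * e - 1 := by
  rw [u10_eb]
  simp [cip, Fin.sum_univ_five, Fin.sum_univ_two]
  ring

theorem u10_sq2 (e k : ℤ) :
    cip (u10 e k - e5) (u10 e k - e5) = 10 * e ^ 2 - k ^ 2 - 4 * e - 1 := by
  rw [u10_e5]
  simp [cip, Fin.sum_univ_five, Fin.sum_univ_two]
  ring

variable {K O k : Type} [Field K] [CommRing O] [Field k]

/-- the three spaces in the frame of the broken curve against the three spaces in the shape -/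
theorem Rex.brk3 [IsDomain O] {A : Arc O k} {c : Cfg O k} {la mu : O} (h : Rex A c la mu)
    (h1 : c.al 1 = c.be 1) (h2 : c.η 3 = c.η 4) [Algebra O K]
    (hi : Function.Injective (algebraMap O K)) :
    ∃ (y : Fin 3 → K) (y0 xg xa xb : K), BrN y y0 xg xa xb ∧ ∀ e κ : ℤ,
      finrank K (H0 (13 * e) (11 * e - κ % 2) (brP y y0 xg xa xb) (nb10 e κ 0 0 0)) ≤
        finrank K (c.H A K 0 (u10 e κ)) ∧
      finrank K (H0 (13 * e - 1) (11 * e - 2 + κ % 2) (brP y y0 xg xa xb)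
        (nb10 e κ 1 0 (1 - κ % 2))) ≤ finrank K (c.H A K 1 (u10 e κ - eb 1)) ∧
      finrank K (H0 (13 * e - 1) (11 * e - 3 + κ % 2) (brP y y0 xg xa xb)
        (nb10 e κ 1 1 (1 - κ % 2))) ≤ finrank K (c.H A K 1 (u10 e κ - e5)) := by
  obtain ⟨y, y0, xg, xa, xb, hN, hb⟩ := h.brk h1 h2 hi
  refine ⟨y, y0, xg, xa, xb, hN, fun e κ => ?_⟩
  rw [u10_eb, u10_e5]
  refine ⟨hb _ _ _ _ _ _ rfl ?_ ?_ ?_,
    hb _ _ _ _ _ _ rfl ?_ ?_ ?_, hb _ _ _ _ _ _ rfl ?_ ?_ ?_⟩
  all_goals try refine ix_all ?_ ?_ ?_ ?_ ?_ ?_ ?_ ?_ ?_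
  all_goals
    simp [dgx, dgy, par, mlt, brM, nb10, u10]
    try omega

end Pool.Agent.Lib.MP_d03834_ag.Core
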