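import Pool.Agent.Lib.MP_d03834_ag.Core.ShStep

/-! Words of moves on configurations with a finite list of effective roots. -/

set_option autoImplicit false

namespace Pool.Agent.Lib.MP_d03834_ag.Core.S10

open Module

section lattice

variable {L k Γ : Type} [AddCommGroup L] [Field k] [LinearOrderedCommGroupWithZero Γ]
  {T : Lat L} {I : Invo k Γ}

theorem P_mono : ∀ {n : ℕ} {χ : L → k} {E E' : Set L}, T.P I n χ E → E ⊆ E' →
    T.P I n χ E' := by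
  intro n
  induction n with
  | zero => exact fun h hE => ⟨h.1, h.2.1, fun α hα e => (h.2.2 α hα e).imp (@hE _) (@hE _)⟩
  | succ n ih => exact fun h hE =>
      ⟨h.1, h.2.1, fun b hb hk => ih (h.2.2 b hb hk) (Set.preimage_mono hE)⟩

theorem gone_add {a : L} {χ : L → k} {p q : L} (hp : T.Gone I a χ p) (hq : T.Gone I a χ q) :
    T.Gone I a χ (p + q) := by
  refine ⟨?_, fun g hg h => ?_, fun g hg b hb h1 h2 => ?_⟩ <;>
    simp only [map_add, AddMonoidHom.add_apply]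
  · linarith [hp.pos, hq.pos]
  · linarith [hp.fwd g hg h, hq.fwd g hg h]
  · linarith [hp.bk g hg b hb h1 h2, hq.bk g hg b hb h1 h2]

/-- a root after the flip of two lines which meet it -/
theorem gone_two {a : L} (ha : ∀ g ∈ T.Λ, T.ip g a = 1) {χ : L → k} {l b c : L}
    (hl : l ∈ T.Λ) (hb : b ∈ T.Λ) (hc : c ∈ T.Λ) (h1 : T.ip l b = 0) (h2 : T.ip l c = 1)
    (h3 : T.ip b c = 0) (vb : I.v (χ b) = 1) (vc : I.v (χ c) = 1) :
    T.Gone I a χ (l + b + c + c) := by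
  have key : ∀ g ∈ T.Λ, (g = b ∧ T.ip (l + b + c + c) g = -1) ∨
      (g = c ∧ T.ip (l + b + c + c) g = -1) ∨
      (0 ≤ T.ip (l + b + c + c) g ∧ T.ip g b ≤ T.ip (l + b + c + c) g ∧
        T.ip g c ≤ T.ip (l + b + c + c) g) := by
    intro g hg
    simp only [map_add, AddMonoidHom.add_apply]
    by_cases e1 : g = b
    · exact Or.inl ⟨e1, by rw [e1, h1, T.self b hb, T.symm c b, h3]; rfl⟩
    by_cases e2 : g = c
    · exact Or.inr (Or.inl ⟨e2, by rw [e2, h2, T.self c hc, h3]; rfl⟩)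
    by_cases e3 : g = l
    · rw [e3, T.self l hl, T.symm b l, T.symm c l, h1, h2]
      omega
    have k1 := T.nonneg g hg b hb e1
    have k2 := T.nonneg g hg c hc e2
    have k3 := T.nonneg g hg l hl e3
    rw [T.symm l g, T.symm b g, T.symm c g]
    omega
  refine ⟨?_, fun g hg h => ?_, fun g hg d hd _ h5 => ?_⟩
  · simp only [map_add, AddMonoidHom.add_apply, ha l hl, ha b hb, ha c hc]
    omega
  · rcases key g hg with e | e | e
    · rw [e.1, vb] at h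
      exact absurd h (lt_irrefl _)
    · rw [e.1, vc] at h
      exact absurd h (lt_irrefl _)
    · exact e.1
  · have h6 := T.symm g d
    have h7 := T.self b hb
    have h8 := T.self c hc
    have h9 := T.symm c b
    rcases key g hg with ⟨e, e0⟩ | ⟨e, e0⟩ | e <;> rcases key d hd with ⟨e', e1⟩ | ⟨e', e1⟩ | e' <;>
      first
        | omega
        | (subst e e'; omega)
        | (subst e; omega)
        | (subst e'; omega)

theorem pos_comb {χ : L → k} {ι : Type} [Fintype ι] {Y : ι → L}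
    (h : ∀ i, T.Pos I χ (Y i)) (a : ι → ℕ) : T.Pos I χ (∑ i, a i • Y i) := fun g hg e => by
  rw [map_sum, AddMonoidHom.finsetSum_apply]
  exact Finset.sum_nonneg fun i _ => by
    rw [map_nsmul, AddMonoidHom.nsmul_apply]
    exact nsmul_nonneg (h i g hg e) _

end lattice

variable {O k Γ K : Type} [CommRing O] [Field k] [LinearOrderedCommGroupWithZero Γ] [Field K]
  [Algebra O K] {A : Arc O k} {N : ℕ}

/-- a class from its nine coordinates -/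
def cv (n J m0 m1 m2 m3 m4 c0 c1 : ℤ) : CL := ((n, J), ![m0, m1, m2, m3, m4], ![c0, c1])

instance clDec : DecidableEq CL := inferInstance

/-- the root e j - e i -/
def ee (i j : Fin 5) : CL := ((0, 0), Pi.single i 1 - Pi.single j 1, 0)

theorem aV_ee : ∀ i j, i ≠ j → ∃ l, l ≠ i ∧ l ≠ j ∧ aV l i - aV l j = ee i j ∧
    ee i j ∈ cD.lat.Φ ∧ -ee i j = ee j i := by decide

/-- the state along a word: L contains the effective roots, B consists of unit lines -/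
structure Sw (A : Arc O k) (v : Valuation k Γ) (c : Cfg O k) (χ : CL → k) (L B : List CL)
    (Y : Fin N → CL) : Prop where
  shp : Shp A c χ
  P : ∃ n, cD.lat.P (Invo.one v) n χ {p | p ∈ L}
  fz : cD.lat.Fz (Invo.one v) {1} χ
  un : ∀ b ∈ B, v (χ b) = 1
  pos : ∀ i, cD.lat.Pos (Invo.one v) χ (Y i)

theorem one_U : ∀ u ∈ ({1} : Set k), ∀ w ∈ ({1} : Set k), u + w ≠ 1 := by
  rintro _ rfl _ rfl
  simp

variable {v : Valuation k Γ} {c : Cfg O k} {χ : CL → k} {L B L' B' : List CL} {Y Y' : Fin N → CL}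

theorem Sw.root (h : Sw A v c χ L B Y) {α : CL} (hα : α ∈ cD.lat.Φ) (h1 : α ∉ L) (h2 : -α ∉ L) :
    χ α ≠ 1 := fun e => by
  obtain ⟨n, hP⟩ := h.P
  exact (hP.root α hα e).elim h1 h2

theorem Sw.conj (h : Sw A v c χ L B Y) {l g : CL} (hg : g ∈ cD.lat.Λ) (hl : l ∈ cD.lat.Λ)
    (hα : l - g ∈ cD.lat.Φ) (hα' : g - l ∈ cD.lat.Φ) (h0 : cD.ip l g = 0) (h1 : l + g ∉ L)
    (h2 : -(l + g) ∉ L) : χ l + χ g ≠ 1 := fun e => by
  obtain ⟨n, hP⟩ := h.P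
  exact (hP.conj_one h.fz one_U hg hl hα hα' h0 e).elim h1 h2

theorem Sw.ch (h : Sw A v c χ L B Y) : IsCh χ := by
  obtain ⟨n, hP⟩ := h.P
  exact hP.j.ch

theorem Sw.zz (h : Sw A v c χ L B Y) (h1 : ∀ i j, ee i j ∉ L) {i j : Fin 5} (hij : i ≠ j) :
    A.res (c.z i) ≠ A.res (c.z j) := by
  obtain ⟨l, k1, k2, k3, k4, k5⟩ := aV_ee i j hij
  exact h.shp.zz h.ch k1 k2 (k3 ▸ h.root k4 (h1 i j) (k5 ▸ h1 j i))

theorem Sw.eta (h : Sw A v c χ L B Y) (h1 : ∀ i j, ee i j ∉ L) {i j : Fin 5} (hij : i ≠ j)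
    (h2 : aV i j ∉ L ∧ -aV i j ∉ L) : c.η i ≠ c.η j := fun e => by
  have := cur_sub (h.shp.cur i) (h.shp.cur j)
  rw [e, sub_self, mul_zero] at this
  exact mul_ne_zero (sub_ne_zero.2 (h.zz h1 hij))
    (sub_ne_zero.2 (h.shp.ka h.ch hij (h.root (aV_root i j hij) h2.1 h2.2))) this.symm

theorem Sw.rf (h : Sw A v c χ L B Y) {α : CL} (hα : α ∈ cD.lat.Φ) {c' : Cfg O k}
    (h1 : Shp A c' (χ ∘ cD.rf α)) (hL : ∀ p ∈ L, cD.rf α p ∈ L') (hB : ∀ b ∈ B', cD.rf α b ∈ B)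
    (hY : ∀ i, cD.rf α (Y i) = Y' i) : Sw A v c' (χ ∘ cD.rf α) L' B' Y' := by
  obtain ⟨n, hP⟩ := h.P
  refine ⟨h1, ⟨n, P_mono (DP.P_rf hα hP) fun p hp => ?_⟩, h.fz.comp (cD.rr_iso hα),
    fun b hb => h.un _ (hB b hb), fun i => hY i ▸ DP.Pos_rf hα (h.pos i)⟩
  have := hL _ hp
  rwa [cD.rf_rf hα.1] at this

/-- the bound r for the non negative combinations of the classes Y which have the square σ -/
def Gd (A : Arc O k) (K : Type) [Field K] [Algebra O K] (ε σ : ℤ) (r : ℕ) (c : Cfg O k)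
    (Y : Fin N → CL) : Prop :=
  ∀ a : Fin N → ℕ, cip (∑ i, a i • Y i) (∑ i, a i • Y i) = σ →
    finrank K (c.H A K ε (∑ i, a i • Y i)) ≤ r

theorem rf_comb {α : CL} (hα : α ∈ cD.lat.Φ) (hY : ∀ i, cD.rf α (Y i) = Y' i) (a : Fin N → ℕ) :
    cD.rf α (∑ i, a i • Y i) = ∑ i, a i • Y' i := by
  change cD.rr hα.1 _ = _
  rw [map_sum]
  exact Finset.sum_congr rfl fun i _ => by rw [map_nsmul, ← hY i]; rfl

theorem refl_comb {g : CL} (hY : ∀ i, cD.lat.refl g (Y i) = Y' i) (a : Fin N → ℕ) :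
    cD.lat.refl g (∑ i, a i • Y i) = ∑ i, a i • Y' i := by
  simp only [← hY, Lat.refl, smul_add, Finset.sum_add_distrib, map_sum, map_nsmul,
    AddMonoidHom.finsetSum_apply, AddMonoidHom.nsmul_apply, Finset.mul_sum, Finset.sum_smul]
  congr 1
  exact Finset.sum_congr rfl fun i _ => by rw [mul_smul_comm, smul_assoc]

variable {ε σ : ℤ} {r : ℕ}

theorem Sw.goV (hK : Function.Injective (algebraMap O K)) (h : Sw A v c χ L B Y) (i j : Fin 5)
    (L' B' : List CL) (Y' : Fin N → CL)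
    (ck : i ≠ j ∧ (∀ i j, ee i j ∉ L) ∧ (∀ l, l ≠ i → aV i l ∉ L ∧ -aV i l ∉ L) ∧
      (∀ l, l ≠ j → aV j l ∉ L ∧ -aV j l ∉ L) ∧ (∀ p ∈ L, cD.rf (aV i j) p ∈ L') ∧
      (∀ b ∈ B', cD.rf (aV i j) b ∈ B) ∧ ∀ l, cD.rf (aV i j) (Y l) = Y' l)
    (ih : ∀ c' χ', Sw A v c' χ' L' B' Y' → Gd A K ε σ r c' Y') : Gd A K ε σ r c Y := by
  obtain ⟨hij, h1, h2, h3, h4, h5, h6⟩ := ck
  have hr := aV_root i j hij
  obtain ⟨c', k1, k2⟩ := moveV h.shp h.ch hij (h.zz h1 hij)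
    fun l hi hj => ⟨h.zz h1 hi, h.zz h1 hj⟩
  intro a ha
  refine (stepV hK hij k1 (fun e => h.zz h1 hij (congrArg _ e)) (h.eta h1 hij (h2 j hij.symm))
    (fun l hi hj => ⟨h.eta h1 hi.symm (h2 l hi), h.eta h1 hj.symm (h3 l hj)⟩) ε _).trans ?_
  rw [← cip_rf hr, rf_comb hr h6] at ha
  rw [rf_comb hr h6]
  exact ih c' _ (h.rf hr k2 h4 h5 h6) a ha

theorem Sw.goH [IsDomain O] (hK : Function.Injective (algebraMap O K)) (h : Sw A v c χ L B Y)
    (s : Fin 2) (L' B' : List CL) (Y' : Fin N → CL)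
    (ck : (∀ r, aH r ∉ L ∧ -aH r ∉ L) ∧ (eb 0 - eb 1 ∉ L ∧ -(eb 0 - eb 1) ∉ L) ∧
      (eb 0 + eb 1 ∉ L ∧ -(eb 0 + eb 1) ∉ L) ∧ (e5 + eb s.rev ∉ L ∧ -(e5 + eb s.rev) ∉ L) ∧
      (∀ p ∈ L, cD.rf (aH s) p ∈ L') ∧ (∀ b ∈ B', cD.rf (aH s) b ∈ B) ∧
      ∀ l, cD.rf (aH s) (Y l) = Y' l)
    (ih : ∀ c' χ', Sw A v c' χ' L' B' Y' → Gd A K ε σ r c' Y') : Gd A K ε σ r c Y := by
  obtain ⟨h1, h2, h3, h3', h4, h5, h6⟩ := ck
  have hr := aH_root s
  obtain ⟨c', k1, k2⟩ := moveH h.shp h.ch s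
  have e1 : ∀ r, c.al 1 ≠ c.be r := fun r e =>
    h.shp.a1b h.ch (h.root (aH_root r) (h1 r).1 (h1 r).2) (congrArg _ e)
  have e2 : c.be 0 ≠ c.be 1 := fun e => h.shp.bb h.ch (h.root eb_sub.1 h2.1 h2.2) (congrArg _ e)
  intro a ha
  refine (stepH hK k1 h.shp.z0 (e1 s) (fun e => h.shp.aa (h.conj (eb_line 1) (eb_line 0) eb_sub.1
    eb_sub.2 (by decide) h3.1 h3.2) (congrArg _ e)) (fun e => h.shp.a0b (h.conj (eb_line s.rev)
    e5_line (eb_e5 _).2 (eb_e5 _).1 (by rw [cD_ip, cip_eb]; rfl) h3'.1 h3'.2) (congrArg _ e))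
    (e1 _).symm (by fin_cases s; exacts [e2.symm, e2]) ε _).trans ?_
  rw [← cip_rf hr, rf_comb hr h6] at ha
  rw [rf_comb hr h6]
  exact ih c' _ (h.rf hr k2 h4 h5 h6) a ha

theorem Sw.goF (h : Sw A v c χ L B Y) (s : Fin 2) (L' B' : List CL) (Y' : Fin N → CL)
    (ck : (∃ l, cD.ip (Y l) (eb s) < 0) ∧ (∀ l, cD.ip (Y l) (eb s) ≤ 0) ∧
      (∀ p ∈ L, cD.lat.refl (eb s) p ∈ L') ∧
      (∀ b ∈ B', b = eb s ∨ (b ∈ B ∧ cD.ip b (eb s) = 0)) ∧
      ∀ l, cD.lat.refl (eb s) (Y l) = Y' l)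
    (ih : ∀ c' χ', Sw A v c' χ' L' B' Y' → Gd A K ε σ r c' Y') : Gd A K ε σ r c Y := by
  obtain ⟨⟨l, h1⟩, h2, h4, h5, h6⟩ := ck
  obtain ⟨n, hP⟩ := h.P
  have hg := eb_line s
  have hv := (h.pos l).small hP.j hg h1
  obtain ⟨c', k1, k2⟩ := moveF v h.shp h.ch s
  intro a ha
  refine (stepF k1 ε _).trans ?_
  rw [← cip_refl s, refl_comb h6] at ha
  rw [refl_comb h6]
  refine ih c' _ ⟨k2, ⟨_, P_mono (hP.flip hg hv) fun p hp => ?_⟩, h.fz.flip hP.j hg hv,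
    fun b hb => ?_, fun i => h6 i ▸ (h.pos i).flip hP.j hg hv (h2 i)⟩ a ha
  · have := h4 _ hp
    rwa [Lat.refl_refl hg] at this
  · rcases h5 b hb with e | e
    · rw [e, Lat.flip_self hg (h.ch.2 _)]
      exact (Invo.one v).unit _ (h.ch.2 _) hv
    · rw [Lat.flip_orth χ e.2]
      exact h.un b e.1

theorem Sw.fin [IsDomain O] (hK : Function.Injective (algebraMap O K)) (h : Sw A v c χ L B Y)
    (hε : 0 ≤ ε)
    (fin : ∀ c u, Ndg A c → Dmn u → cip u u = σ → finrank K (Cfg.H A K c ε u) ≤ r)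
    (hg : ∀ p ∈ L, cD.lat.Gone (Invo.one v) cD.a χ p) (hY : ∀ i, Y i ∈ cD.M) :
    Gd A K ε σ r c Y := fun a ha =>
  kp_of_end hK one_U hε σ r fin ⟨h.shp, h.P, h.fz, hg⟩ (pos_comb h.pos a)
    (sum_mem fun i _ => nsmul_mem (hY i) _) ha

end Pool.Agent.Lib.MP_d03834_ag.Core.S10
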