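import Pool.Agent.Lib.MP_d03834_ag.Core.KPC

/-! Eleven points: the configurations, the spaces below the second fold, the classes. -/

set_option autoImplicit false

namespace Pool.Agent.Lib.MP_d03834_ag.Core

open Module
open scoped Polynomial

/-- Ten points a1 a2 b1 b2 c1 c2 d1 d2 e ν. For κ = 2 α x4 = -2 β x5 the first eight are the points
z = ±sA, ±sB, ±α, ±1/β of the nodal curve x = κ (z ^ 2 - 1) / ((z - α) (1 - β z)), y = z ^ 2. -/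
def q11 {A : Type} [CommRing A] (κ α β sA sB x4 x5 e0 e1 σ : A) : Fin 10 → Fin 4 → A :=
  ![![κ * (sA ^ 2 - 1), (sA - α) * (1 - β * sA), sA ^ 2, 1],
    ![κ * (sA ^ 2 - 1), (-sA - α) * (1 + β * sA), sA ^ 2, 1],
    ![κ * (sB ^ 2 - 1), (sB - α) * (1 - β * sB), sB ^ 2, 1],
    ![κ * (sB ^ 2 - 1), (-sB - α) * (1 + β * sB), sB ^ 2, 1],
    ![1, 0, α ^ 2, 1], ![x4 * (1 - α ^ 2), 1 + α * β, α ^ 2, 1],
    ![1, 0, 1, β ^ 2], ![x5 * (1 - β ^ 2), 1 + α * β, 1, β ^ 2],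
    ![1, σ, e0, e1], ![0, 1, 1, 1]]

/-- the family in the parameters σ, τ, t, s -/
def pt11 {A : Type} [CommRing A] (σ τ t s : A) : Fin 10 → Fin 4 → A :=
  q11 (τ * (2 * ((1 - t) ^ 2 * (6 - 9 * t)) * ((1 - 3 * t) ^ 2 * (2 - t))))
    (τ * ((1 - 3 * t) ^ 2 * (2 - t))) (τ * -((1 - t) ^ 2 * (6 - 9 * t)))
    (2 * (1 - 3 * t)) (2 * (1 - t)) ((1 - t) ^ 2 * (6 - 9 * t)) ((1 - 3 * t) ^ 2 * (2 - t))
    ((2 * (1 - 3 * t)) ^ 2 * (2 - t - s)) (6 - 9 * t - s) σ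

/-- The limit of the second fold. Labels a1 a2 b1 b2 c1 c2 d1 d2 e ν = 0, …, 9; a2 is infinitely
near to a1 = (0, ya) along y = ya, b2 to b1 = (0, yb) along y = yb; ν is forgotten. -/
noncomputable def W11 {K : Type} [CommRing K] (ya yb ye x4 x5 : K) (p q : ℤ) (m : Fin 10 → ℤ) :
    Submodule K (Cx K) :=
  H0 p q ![![1, 0, 0, 1], ![x4, 1, 0, 1], ![1, 0, 1, 0], ![x5, 1, 1, 0], ![1, 0, ye, 1]]
      ![m 4, m 5, m 6, m 7, m 8] ⊓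
    DvS ![Polynomial.C ya, 1] ![1, 0] ![0, 0] ![m 0, m 1] ⊓
    DvS ![Polynomial.C yb, 1] ![1, 0] ![0, 0] ![m 2, m 3]

/-- The middle frame: b at the double point (0, 0) of y = 0, a at the double point (w, ∞) of
y = ∞, e at the points over z of the line y = 1 - t x. -/
noncomputable def M11 {K : Type} [CommRing K] (t w : K) (z : Fin 5 → K) (p q : ℤ)
    (a b : Fin 2 → ℤ) (e : Fin 5 → ℤ) : Submodule K (Cx K) :=
  BiS K p q ⊓ DvS ![0, 1] ![1, 0] ![0, 0] b ⊓ DvS ![1, 0] ![0, 1] ![w, w] a ⊓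
    DvS ![1 - Polynomial.C t * Polynomial.X, 1] ![1, 0] z e

/-- the multiplicities after j twists along the line c1 d1 e -/
def tw3 (j : ℤ) (m : Fin 10 → ℤ) : Fin 10 → ℤ :=
  ![m 0 - (j + 1) / 2, m 1 - (j + 1) / 2, m 2 - (j + 1) / 2, m 3 - (j + 1) / 2,
    m 4 - j, m 5, m 6 - j, m 7, m 8 - j, m 9]

/-- the multiplicities after j twists along the line a1 b1 ν -/
def tw2 (j : ℤ) (m : Fin 10 → ℤ) : Fin 10 → ℤ :=
  ![m 0 - j, m 1, m 2 - j, m 3, m 4 - (j + 1) / 2, m 5 - (j + 1) / 2, m 6 - (j + 1) / 2,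
    m 7 - (j + 1) / 2, m 8, m 9 - j]

/-- the inequalities of the start state -/
structure Ok11 (u : CL) : Prop where
  M : u ∈ cD.M
  g : u.1.1 ≤ u.1.2
  g' : u.1.2 - u.1.1 ≤ u.2.1 2
  c : ∀ s, 0 ≤ u.2.2 s ∧ u.2.2 s ≤ u.2.1 2
  e03 : u.2.1 0 + u.2.1 3 ≤ u.1.2
  e14 : u.2.1 1 + u.2.1 4 ≤ u.1.2
  r : ∀ s, max (u.2.1 0) (u.2.1 3) + max (u.2.1 1) (u.2.1 4) + u.2.2 s ≤ u.1.2

/-- The class (p, q, m) in the chart of the four lines is u + ε K in the chart of the shape, and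
the two transformations apply. -/
structure Cl11 (p q : ℤ) (m : Fin 10 → ℤ) (ε : ℤ) (u : CL) : Prop where
  ok : Ok11 u
  h5 : 0 ≤ m 5 ∧ m 5 ≤ p
  h7 : 0 ≤ m 7 ∧ m 7 ≤ p
  h4 : m 4 + m 5 ≤ p
  h6 : m 6 + m 7 ≤ p
  dy : dgy ε u = q + p - m 5 - m 7
  dx : dgx ε u = p + 2 * dgy ε u - m 0 - m 1 - m 2 - m 3
  ab : ∀ l : Fin 4, 0 ≤ ![m 0, m 1, m 2, m 3] l ∧ ![m 0, m 1, m 2, m 3] l ≤ dgy ε u
  me : ∀ l, mlt ε u (.inl l) = ![m 4, m 6, m 8, p - m 5, p - m 7] l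
  ma : ∀ s, mlt ε u (.inr (.inl s)) = dgy ε u - ![m 2, m 3] s
  mb : ∀ s, mlt ε u (.inr (.inr s)) = dgy ε u - ![m 0, m 1] s

end Pool.Agent.Lib.MP_d03834_ag.Core
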