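import Pool.Agent.Lib.MP_d03834_ag.Core.N11ShA
import Pool.Agent.Lib.MP_d03834_ag.Core.ShMove

/-! Eleven points: from the limit of the frame X to the shape frame. -/

set_option autoImplicit false

namespace Pool.Agent.Lib.MP_d03834_ag.Core.N11Sh

open Module BW

variable {K : Type} [Field K] {t a b : K}

/-- the limit of the frame X; the labels are a1 a2 b1 b2 c1 c2 d1 d2 eps nu -/
def X0 (u v w x3 xn yn : K) : Fin 10 → Fin 4 → K :=
  ![![u, 1, w, 1], ![w, 1, w, 1], ![u, 1, v, 1], ![x3, 1, 1, 1], ![1, 1, 0, 1], ![0, 1, 0, 1],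
    ![1, 1, 1, 0], ![1, 0, 1, 0], ![1, 1, 1, 1], ![xn, 1, yn, 1]]

/-- the degree in x in the shape frame -/
def shP (p q : ℤ) (m : Fin 10 → ℤ) : ℤ :=
  3 * p + 3 * q - m 0 - 2 * m 1 - m 3 - m 2 - m 4 - m 5 - 3 * m 7

/-- the degree in y in the shape frame -/
def shQ (p q : ℤ) (m : Fin 10 → ℤ) : ℤ :=
  3 * p + 4 * q - m 0 - 2 * m 1 - m 3 - 2 * m 2 - 2 * m 4 - m 5 - 3 * m 7

/-- the multiplicities in the shape frame -/
def shM (p q : ℤ) (m : Fin 10 → ℤ) : Ix → ℤ
  | .inl i => ![2 * p + 2 * q - m 0 - m 1 - m 3 - m 2 - m 4 - 2 * m 7,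
      2 * p + 3 * q - m 0 - 2 * m 1 - m 3 - m 2 - m 4 - m 5 - 2 * m 7,
      2 * p + 2 * q - m 0 - m 1 - m 2 - m 4 - m 5 - 2 * m 7, m 6, m 8] i
  | .inr (.inl s) => ![p + q - m 1 - m 2 - m 7, p + q - m 1 - m 4 - m 7] s
  | .inr (.inr s) => ![2 * p + 2 * q - m 1 - m 3 - m 2 - m 4 - m 5 - 2 * m 7, q - m 7] s

/-- the labels -/
def lab : Fin 9 → Fin 10 := ![0, 1, 3, 6, 8, 2, 4, 5, 7]

/-- the labels -/
def lbx : Ix → Fin 9
  | .inl i => ![0, 1, 2, 3, 4] i
  | .inr (.inl s) => ![5, 6] s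
  | .inr (.inr s) => ![7, 8] s

theorem ac_wd (p q : ℤ) (m : Fin 10 → ℤ) :
    (acW wd.reverse (p, q, fun l => m (lab l))).1 = shP p q m ∧
    (acW wd.reverse (p, q, fun l => m (lab l))).2.1 = shQ p q m ∧
    ∀ l, (acW wd.reverse (p, q, fun l => m (lab l))).2.2 (lbx l) = shM p q m l := by
  refine ⟨?_, ?_, ix_all ?_ ?_ ?_ ?_ ?_ ?_ ?_ ?_ ?_⟩ <;>
    simp [wd, acW, ac, lab, lbx, shP, shQ, shM] <;> ring

/-- from the limit of the frame X to the shape frame -/
theorem n11_shape (h : Gen t a b) {z η : Fin 5 → K} {β u w v x3 : K} (z0 : z 0 = a) (z2 : z 2 = 1)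
    (z4 : z 4 = b) (z3 : z 3 * (a * (1 - t)) = 2 * a - a ^ 2 - t) (z1 : z 1 * z 3 = a * b)
    (hη : ∀ i, η i * (z i * (a * b + t ^ 2)) = a * b + z i ^ 2)
    (hβ : β * (a * b + t ^ 2 - t * (z 1 + a)) = t * (a * b - z 1 * a))
    (hu : u * (a ^ 2 * b * (1 - t) - t * (2 * a - a ^ 2 - t)) = b * (t - a) ^ 2)
    (hw : w * ((a - 1) * (a ^ 2 * b * (1 - t) - t * (2 * a - a ^ 2 - t))) =
      (t - a) * (2 * a - a ^ 2 - t - a * b * (1 - t)))
    (hv : v * ((a - 1) * (a ^ 2 * b * (1 - t) - t * (2 * a - a ^ 2 - t))) =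
      (t - a * b) * (2 * a - a ^ 2 - t - a * b * (1 - t)))
    (hx : x3 * (2 * a - a ^ 2 - t - a * b * (1 - t)) = b * (a - 1) * (t - a))
    (xn yn : K) (p q : ℤ) (m : Fin 10 → ℤ) :
    finrank K (H0 p q (X0 u v w x3 xn yn) m) ≤
      finrank K (H0 (shP p q m) (shQ p q m) (grP z η ![0, t] ![t, β] t) (shM p q m)) := by
  obtain ⟨e1, e2, e3⟩ := ac_wd p q m
  have k1 : z 1 * (2 * a - a ^ 2 - t) = a ^ 2 * b * (1 - t) := by
    linear_combination a * (1 - t) * z1 - z 1 * z3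
  have n1 : 2 * a - a ^ 2 - t ≠ 0 := nz (by ring) (neg_ne_zero.2 h.f10)
  have n2 : a * (1 - t) ≠ 0 := mul_ne_zero h.f1 (nz (by ring) (neg_ne_zero.2 h.f3))
  have k2 : rk (F7 t a b) (p, q, fun l => m (lab l)) =
      rk (F0 t a b) (acW wd.reverse (p, q, fun l => m (lab l))) := by
    rw [rk_F h, acW_rev' (by decide)]
  refine le_trans (Submodule.finrank_mono (H0_le (Q := F7 t a b) (n := fun l => m (lab l))
    fun l => .inr ⟨lab l, le_rfl, pt7 h l, ?_, ?_⟩)) (le_trans k2.le ?_)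
  · revert l
    refine all9 ?_ ?_ ?_ ?_ ?_ ?_ ?_ ?_ ?_ <;> simp only [dx, lab, F7, X0, Matrix.cons_val,
      Matrix.cons_val_zero, Matrix.cons_val_one]
    exacts [by linear_combination -hu, by linear_combination -hw, by linear_combination -hx,
      by ring, by ring, by linear_combination -hu, by ring, by ring, by ring]
  · revert l
    refine all9 ?_ ?_ ?_ ?_ ?_ ?_ ?_ ?_ ?_ <;> simp only [dy, lab, F7, X0, Matrix.cons_val,
      Matrix.cons_val_zero, Matrix.cons_val_one]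
    exacts [by linear_combination -hw, by linear_combination -hw, by ring,
      by ring, by ring, by linear_combination -hv, by ring, by ring, by ring]
  rw [rk, e1, e2]
  refine Submodule.finrank_mono (H0_le fun l => .inr ⟨lbx l, (e3 l).ge, grP_pt _ _ _ _ _ l, ?_, ?_⟩)
  · revert l
    refine ix_all ?_ ?_ ?_ ?_ ?_ ?_ ?_ ?_ ?_ <;> simp only [dx, lbx, F0, grP, Matrix.cons_val,
      Matrix.cons_val_zero, Matrix.cons_val_one, z0, z2, z4]
    exacts [by ring, by linear_combination -k1, by ring, by linear_combination -z3, by ring,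
      by ring, by ring, by ring,
      by linear_combination (t + a ^ 2 - 2 * a) * hβ + t * (a - β) * k1]
  · revert l
    have h0 := hη 0
    have h1 := hη 1
    have h2 := hη 2
    have h3 := hη 3
    have h4 := hη 4
    rw [z0] at h0
    rw [z2] at h2
    rw [z4] at h4
    refine ix_all ?_ ?_ ?_ ?_ ?_ ?_ ?_ ?_ ?_ <;> simp only [dy, lbx, F0, grP, Matrix.cons_val,
      Matrix.cons_val_zero, Matrix.cons_val_one]
    · exact mul_left_cancel₀ h.f1 (by linear_combination -h0)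
    · refine mul_left_cancel₀ (mul_ne_zero h.f1 h.f2) ?_
      linear_combination (-(2 * a - a ^ 2 - t) ^ 2) * h1 +
        ((2 * a - a ^ 2 - t) * (a * b + t ^ 2) * η 1 - z 1 * (2 * a - a ^ 2 - t) -
          a ^ 2 * b * (1 - t)) * k1
    · linear_combination -h2
    · linear_combination (-(a * (1 - t)) ^ 2) * h3 +
        (a * (1 - t) * (a * b + t ^ 2) * η 3 - z 3 * (a * (1 - t)) - (2 * a - a ^ 2 - t)) * z3
    · exact mul_left_cancel₀ h.f2 (by linear_combination -h4)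
    all_goals ring

/-- the same with the coordinates of the frame X and their properties -/
theorem n11_X (h : Gen t a b) {z η : Fin 5 → K} {β : K} (z0 : z 0 = a) (z2 : z 2 = 1)
    (z4 : z 4 = b) (z3 : z 3 * (a * (1 - t)) = 2 * a - a ^ 2 - t) (z1 : z 1 * z 3 = a * b)
    (hη : ∀ i, η i * (z i * (a * b + t ^ 2)) = a * b + z i ^ 2)
    (hβ : β * (a * b + t ^ 2 - t * (z 1 + a)) = t * (a * b - z 1 * a)) :
    ∃ u v w x3 : K, x3 * w = u ∧ u ≠ 0 ∧ v ≠ 0 ∧ w ≠ 0 ∧ u - 1 ≠ 0 ∧ v - 1 ≠ 0 ∧ w - 1 ≠ 0 ∧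
      u - v ≠ 0 ∧ u - w ≠ 0 ∧ v - w ≠ 0 ∧ ∀ (xn yn : K) (p q : ℤ) (m : Fin 10 → ℤ),
      finrank K (H0 p q (X0 u v w x3 xn yn) m) ≤
        finrank K (H0 (shP p q m) (shQ p q m) (grP z η ![0, t] ![t, β] t) (shM p q m)) := by
  have n1 : a ^ 2 * b * (1 - t) - t * (2 * a - a ^ 2 - t) ≠ 0 := nz (by ring) h.f28
  have n2 : 2 * a - a ^ 2 - t - a * b * (1 - t) ≠ 0 := nz (by ring) h.f25
  have n3 := mul_ne_zero h.f4 n1
  obtain ⟨u, hu⟩ : ∃ u, u * _ = b * (t - a) ^ 2 := ⟨_, div_mul_cancel₀ _ n1⟩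
  obtain ⟨w, hw⟩ : ∃ w, w * _ = (t - a) * (2 * a - a ^ 2 - t - a * b * (1 - t)) :=
    ⟨_, div_mul_cancel₀ _ n3⟩
  obtain ⟨v, hv⟩ : ∃ v, v * _ = (t - a * b) * (2 * a - a ^ 2 - t - a * b * (1 - t)) :=
    ⟨_, div_mul_cancel₀ _ n3⟩
  obtain ⟨x3, hx⟩ : ∃ x3, x3 * _ = b * (a - 1) * (t - a) := ⟨_, div_mul_cancel₀ _ n2⟩
  have k : ∀ x y : K, x * ((a - 1) * (a ^ 2 * b * (1 - t) - t * (2 * a - a ^ 2 - t))) = y →
      y ≠ 0 → x ≠ 0 := fun x y e hy => left_ne_zero_of_mul (nz e hy)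
  exact ⟨u, v, w, x3, mul_right_cancel₀ n3 (by linear_combination x3 * hw + (t - a) * hx - (a - 1) * hu),
    k _ _ (by linear_combination (a - 1) * hu)
      (mul_ne_zero (mul_ne_zero h.f2 h.f4) (pow_ne_zero 2 h.f7)),
    k _ _ (by linear_combination hv) (mul_ne_zero h.f13 h.f25),
    k _ _ (by linear_combination hw) (mul_ne_zero h.f7 h.f25),
    k _ _ (by linear_combination (a - 1) * hu)
      (mul_ne_zero (mul_ne_zero (mul_ne_zero h.f0 h.f4) h.f5) h.f10),
    k _ _ (by linear_combination hv) (mul_ne_zero (mul_ne_zero h.f1 h.f5) h.f33),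
    k _ _ (by linear_combination hw)
      (mul_ne_zero (mul_ne_zero (mul_ne_zero h.f1 h.f3) h.f5) h.f10),
    k _ _ (by linear_combination (a - 1) * hu - hv) (neg_ne_zero.2 (mul_ne_zero h.f5 h.f28)),
    k _ _ (by linear_combination (a - 1) * hu - hw)
      (neg_ne_zero.2 (mul_ne_zero (mul_ne_zero h.f5 h.f7) h.f10)),
    k _ _ (by linear_combination hv - hw)
      (neg_ne_zero.2 (mul_ne_zero (mul_ne_zero h.f1 h.f5) h.f25)),
    n11_shape h z0 z2 z4 z3 z1 hη hβ hu hw hv hx⟩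

/-- the conditions from the residues -/
theorem Gen.of_res {O k : Type} [CommRing O] [Field k] [Algebra O K] (A : Arc O k)
    (hK : Function.Injective (algebraMap O K)) {x y : O} {α γ : k} (hx : A.res x = α)
    (hy : A.res y = γ) (h2 : (2 : k) ≠ 0) (a0 : α ≠ 0) (a1 : α - 1 ≠ 0) (a2 : α - 2 ≠ 0) (b0 : γ ≠ 0) (b1 : γ - 1 ≠ 0)
    (c1 : α - γ ≠ 0) (c2 : α + γ - 2 ≠ 0) (c3 : α * γ + α - 2 ≠ 0) (c4 : α * γ - (α - 2) ^ 2 ≠ 0) :
    Gen (algebraMap O K A.t) (algebraMap O K x) (algebraMap O K y) := by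
  have key : ∀ (e : O) (c : k) (f : K), algebraMap O K e = f → A.res e = c → c ≠ 0 → f ≠ 0 :=
    fun e c f h1 h2 h3 => h1 ▸ (map_ne_zero_iff _ hK).2 fun e0 => h3 (by rw [← h2, e0, map_zero])
  exact ⟨(map_ne_zero_iff _ hK).2 A.t0,
    key (x) (α) _ (by simp only [map_add, map_sub, map_mul, map_pow, map_ofNat, map_one])
      (by simp only [map_add, map_sub, map_mul, map_pow, map_ofNat, map_one, hx, hy, A.rt] <;> ring)
      a0,
    key (y) (γ) _ (by simp only [map_add, map_sub, map_mul, map_pow, map_ofNat, map_one])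
      (by simp only [map_add, map_sub, map_mul, map_pow, map_ofNat, map_one, hx, hy, A.rt] <;> ring)
      b0,
    key (A.t - 1) (-1) _ (by simp only [map_add, map_sub, map_mul, map_pow, map_ofNat, map_one])
      (by simp only [map_add, map_sub, map_mul, map_pow, map_ofNat, map_one, hx, hy, A.rt] <;> ring)
      (neg_ne_zero.2 one_ne_zero),
    key (x - 1) (α - 1) _ (by simp only [map_add, map_sub, map_mul, map_pow, map_ofNat, map_one])
      (by simp only [map_add, map_sub, map_mul, map_pow, map_ofNat, map_one, hx, hy, A.rt] <;> ring)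
      a1,
    key (y - 1) (γ - 1) _ (by simp only [map_add, map_sub, map_mul, map_pow, map_ofNat, map_one])
      (by simp only [map_add, map_sub, map_mul, map_pow, map_ofNat, map_one, hx, hy, A.rt] <;> ring)
      b1,
    key (x - y) (α - γ) _ (by simp only [map_add, map_sub, map_mul, map_pow, map_ofNat, map_one])
      (by simp only [map_add, map_sub, map_mul, map_pow, map_ofNat, map_one, hx, hy, A.rt] <;> ring)
      c1,
    key (A.t - x) (-α) _ (by simp only [map_add, map_sub, map_mul, map_pow, map_ofNat, map_one])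
      (by simp only [map_add, map_sub, map_mul, map_pow, map_ofNat, map_one, hx, hy, A.rt] <;> ring)
      (neg_ne_zero.2 a0),
    key (A.t - y) (-γ) _ (by simp only [map_add, map_sub, map_mul, map_pow, map_ofNat, map_one])
      (by simp only [map_add, map_sub, map_mul, map_pow, map_ofNat, map_one, hx, hy, A.rt] <;> ring)
      (neg_ne_zero.2 b0),
    key (A.t + x ^ 2 - 2 * x) (α * (α - 2)) _ (by simp only [map_add, map_sub, map_mul, map_pow, map_ofNat, map_one])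
      (by simp only [map_add, map_sub, map_mul, map_pow, map_ofNat, map_one, hx, hy, A.rt] <;> ring)
      (mul_ne_zero a0 a2),
    key (A.t ^ 2 + x * y) (α * γ) _ (by simp only [map_add, map_sub, map_mul, map_pow, map_ofNat, map_one])
      (by simp only [map_add, map_sub, map_mul, map_pow, map_ofNat, map_one, hx, hy, A.rt] <;> ring)
      (mul_ne_zero a0 b0),
    key (A.t - x * y) (-(α * γ)) _ (by simp only [map_add, map_sub, map_mul, map_pow, map_ofNat, map_one])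
      (by simp only [map_add, map_sub, map_mul, map_pow, map_ofNat, map_one, hx, hy, A.rt] <;> ring)
      (neg_ne_zero.2 (mul_ne_zero a0 b0)),
    key (A.t * x + A.t - 2 * x) (-(2 * α)) _ (by simp only [map_add, map_sub, map_mul, map_pow, map_ofNat, map_one])
      (by simp only [map_add, map_sub, map_mul, map_pow, map_ofNat, map_one, hx, hy, A.rt] <;> ring)
      (neg_ne_zero.2 (mul_ne_zero h2 a0)),
    key (A.t * x * y - A.t - x ^ 2 - x * y + 2 * x) (-(α * (α + γ - 2))) _ (by simp only [map_add, map_sub, map_mul, map_pow, map_ofNat, map_one])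
      (by simp only [map_add, map_sub, map_mul, map_pow, map_ofNat, map_one, hx, hy, A.rt] <;> ring)
      (neg_ne_zero.2 (mul_ne_zero a0 c2)),
    key (A.t * x ^ 2 * y - A.t - x ^ 2 * y - x ^ 2 + 2 * x) (-(α * (α * γ + α - 2))) _ (by simp only [map_add, map_sub, map_mul, map_pow, map_ofNat, map_one])
      (by simp only [map_add, map_sub, map_mul, map_pow, map_ofNat, map_one, hx, hy, A.rt] <;> ring)
      (neg_ne_zero.2 (mul_ne_zero a0 c3)),
    key (A.t ^ 2 * x ^ 3 * y - A.t ^ 2 - 2 * A.t * x ^ 3 * y - 2 * A.t * x ^ 2 + 4 * A.t * x - x ^ 4 + x ^ 3 * y + 4 * x ^ 3 - 4 * x ^ 2) (α ^ 2 * (α * γ - (α - 2) ^ 2)) _ (by simp only [map_add, map_sub, map_mul, map_pow, map_ofNat, map_one])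
      (by simp only [map_add, map_sub, map_mul, map_pow, map_ofNat, map_one, hx, hy, A.rt] <;> ring)
      (mul_ne_zero (pow_ne_zero 2 a0) c4),
    key (A.t ^ 2 - A.t * x ^ 2 * y + A.t * x ^ 2 - 2 * A.t * x + x ^ 2 * y) (α ^ 2 * γ) _ (by simp only [map_add, map_sub, map_mul, map_pow, map_ofNat, map_one])
      (by simp only [map_add, map_sub, map_mul, map_pow, map_ofNat, map_one, hx, hy, A.rt] <;> ring)
      (mul_ne_zero (pow_ne_zero 2 a0) b0),
    key (A.t ^ 2 * x - A.t * x - A.t - x ^ 2 + 2 * x) (-(α * (α - 2))) _ (by simp only [map_add, map_sub, map_mul, map_pow, map_ofNat, map_one])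
      (by simp only [map_add, map_sub, map_mul, map_pow, map_ofNat, map_one, hx, hy, A.rt] <;> ring)
      (neg_ne_zero.2 (mul_ne_zero a0 a2)),
    key (A.t ^ 3 + A.t ^ 2 * x ^ 3 * y - A.t ^ 2 * x ^ 2 * y + A.t ^ 2 * x ^ 2 - A.t ^ 2 * x * y - 3 * A.t ^ 2 * x - 2 * A.t * x ^ 3 * y - A.t * x ^ 3 + 3 * A.t * x ^ 2 * y + 2 * A.t * x ^ 2 + A.t * x * y + x ^ 3 * y - 2 * x ^ 2 * y) (α ^ 2 * γ * (α - 2)) _ (by simp only [map_add, map_sub, map_mul, map_pow, map_ofNat, map_one])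
      (by simp only [map_add, map_sub, map_mul, map_pow, map_ofNat, map_one, hx, hy, A.rt] <;> ring)
      (mul_ne_zero (mul_ne_zero (pow_ne_zero 2 a0) b0) a2),
    key (A.t ^ 2 + A.t * x ^ 2 - A.t * x * y - 2 * A.t * x + x * y) (α * γ) _
      (by simp only [map_add, map_sub, map_mul, map_pow, map_ofNat])
      (by simp only [map_add, map_sub, map_mul, map_pow, map_ofNat, hx, hy, A.rt]; ring)
      (mul_ne_zero a0 b0)⟩

end Pool.Agent.Lib.MP_d03834_ag.Core.N11Sh
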