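import Pool.Agent.Lib.MP_d03834_ag.Core.N11St
import Pool.Agent.Lib.MP_d03834_ag.Core.N11Sh
import Pool.Agent.Lib.MP_d03834_ag.Core.KPF
import Pool.Agent.Lib.MP_d03834_ag.Core.Tower

/-! Eleven points: the four bounds in the frame X. -/

set_option autoImplicit false

namespace Pool.Agent.Lib.MP_d03834_ag.Core

open Module N11Sh

/-- the degree in x in the frame X after the three folds -/
def x11p (d m j i n : ℤ) : ℤ := 3 * d - 7 * m - 3 * j - i - (i + 1) / 2 - n

/-- the degree in y in the frame X after the three folds -/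
def x11q (d m j i n : ℤ) : ℤ := 4 * d - 10 * m - 4 * j - 2 * ((i + 1) / 2) - 2 * ((n + 1) / 2)

/-- the multiplicities in the frame X after the three folds -/
def x11m (d m j i n : ℤ) : Fin 10 → ℤ :=
  ![2 * d - 5 * m - 2 * j - 2 * ((i + 1) / 2) - n, d - 2 * m - j - (i + 1) / 2,
    2 * d - 5 * m - 2 * j - n, m - j - (i + 1) / 2, d - 2 * m - j - i - (n + 1) / 2,
    2 * d - 5 * m - 2 * j - (i + 1) / 2 - (n + 1) / 2, m - j - i - (n + 1) / 2,
    3 * d - 8 * m - 2 * j - (i + 1) / 2 - (n + 1) / 2, m - 2 * j - i, 0]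

theorem x11_cls (d m j n ε i : ℤ) (hi : i = 10 * m - 3 * d + ε) :
    shP (x11p d m j i n) (x11q d m j i n) (x11m d m j i n) = dgx ε (u11 d m j n ε) ∧
    shQ (x11p d m j i n) (x11q d m j i n) (x11m d m j i n) = dgy ε (u11 d m j n ε) ∧
    shM (x11p d m j i n) (x11q d m j i n) (x11m d m j i n) = mlt ε (u11 d m j n ε) := by
  refine ⟨?_, ?_, funext ?_⟩
  · simp [dgx, u11, cl, shP, x11p, x11q, x11m]
    omega
  · simp [dgy, par, u11, cl, shQ, x11p, x11q, x11m]
    omega
  · rintro (l | s | s)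
    · fin_cases l <;> simp [mlt, u11, cl, shM, x11p, x11q, x11m] <;> omega
    · fin_cases s <;> simp [mlt, u11, cl, shM, x11p, x11q, x11m] <;> omega
    · fin_cases s <;> simp [mlt, u11, cl, shM, x11p, x11q, x11m] <;> omega

variable {O k Γ : Type} [CommRing O] [Field k] [LinearOrderedCommGroupWithZero Γ] [CharZero k]
  {A : Arc O k} {K : Type} [Field K] [Algebra O K] {v : Valuation k Γ} {s : k}

omit [CharZero k] in
theorem C11.pts {a b : O} {c : CCfg O k} (h : C11 A a b c) :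
    c.toCfg.pts A K = grP (fun i => algebraMap O K (c.z i)) (fun i => algebraMap O K (c.η i))
      ![0, algebraMap O K A.t] ![algebraMap O K A.t, algebraMap O K (A.t * c.be 1)]
      (algebraMap O K A.t) := by
  funext l j
  rcases l with i | r | r
  · fin_cases j <;> simp [Cfg.pts, Cfg.pO, grP]
  · fin_cases r <;> fin_cases j <;> simp [Cfg.pts, Cfg.pO, grP, h.al0, h.al1]
  · fin_cases r <;> fin_cases j <;> simp [Cfg.pts, Cfg.pO, grP, h.be0]

/-- the four bounds in the frame X -/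
theorem x11_kb [IsDomain O] (hi : Function.Injective (algebraMap O K)) (hK : KPE A K v)
    (T : Triv v s) {a b : O} (ha : A.res a = 2 * (1 - s)) (hb : A.res b = 3) :
    ∃ u v w x3 : K, x3 * w = u ∧ u ≠ 0 ∧ v ≠ 0 ∧ w ≠ 0 ∧ u - 1 ≠ 0 ∧ v - 1 ≠ 0 ∧ w - 1 ≠ 0 ∧
      u - v ≠ 0 ∧ u - w ≠ 0 ∧ v - w ≠ 0 ∧ ∀ (xn yn : K) (m d ε : ℤ), R11 m d → ε = 0 ∨ ε = 1 →
      KB11 (q110 m d ε) (BW.rk (X0 u v w x3 xn yn)
        (x11p d m (7 * m - 2 * d) (10 * m - 3 * d + ε) (4 * d - 13 * m + 1),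
          x11q d m (7 * m - 2 * d) (10 * m - 3 * d + ε) (4 * d - 13 * m + 1),
          x11m d m (7 * m - 2 * d) (10 * m - 3 * d + ε) (4 * d - 13 * m + 1))) ∧
      KB11 (q111 m d ε) (BW.rk (X0 u v w x3 xn yn)
        (x11p d m (7 * m - 2 * d + 1) (10 * m - 3 * d + ε) (4 * d - 13 * m - 2),
          x11q d m (7 * m - 2 * d + 1) (10 * m - 3 * d + ε) (4 * d - 13 * m - 2),
          x11m d m (7 * m - 2 * d + 1) (10 * m - 3 * d + ε) (4 * d - 13 * m - 2))) := by
  obtain ⟨c, h⟩ := c11_ex (A := A) T.s0 T.one_sub ha hb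
  have ne : ∀ {e : k} (x y : ℚ), x ≠ 0 → e = x + y * s → e ≠ 0 := fun x y hx he =>
    he ▸ T.poly hx
  have g : Gen (algebraMap O K A.t) (algebraMap O K a) (algebraMap O K b) :=
    Gen.of_res A hi ha hb two_ne_zero (mul_ne_zero two_ne_zero T.one_sub)
      (ne 1 (-2) one_ne_zero (by push_cast; ring))
      (fun e => mul_ne_zero two_ne_zero T.s0 (by linear_combination -e)) three_ne_zero
      (by norm_num) (ne (-1) (-2) (by norm_num) (by push_cast; ring))
      (ne 3 (-2) (by norm_num) (by push_cast; ring))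
      (ne 6 (-8) (by norm_num) (by push_cast; ring)) fun e => by
        have h1 : v (s * (3 + 2 * s)) < 1 := by
          rw [map_mul]
          refine mul_lt_one_of_lt_of_le T.lt (v.map_add_le T.three.le ?_)
          rw [map_mul, T.two, one_mul]
          exact T.lt.le
        rw [show s * (3 + 2 * s) = 3 by linear_combination -e / 2, T.three] at h1
        exact lt_irrefl _ h1
  obtain ⟨u, v', w, x3, e, n1, n2, n3, n4, n5, n6, n7, n8, n9, H⟩ := n11_X g
    (z := fun i => algebraMap O K (c.z i)) (η := fun i => algebraMap O K (c.η i))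
    (β := algebraMap O K (A.t * c.be 1)) (congrArg _ h.z0) (by simp only [h.z2, map_one])
    (congrArg _ h.z4) (by simpa [map_ofNat] using congrArg (algebraMap O K) h.z3)
    (by simpa using congrArg (algebraMap O K) h.z1)
    (fun i => by simpa [mul_assoc] using congrArg (algebraMap O K) (h.η i))
    (by
      have := congrArg (algebraMap O K) h.be1
      simp only [map_mul, map_sub, map_add, map_pow] at this ⊢
      rw [mul_assoc, this])
  refine ⟨u, v', w, x3, e, n1, n2, n3, n4, n5, n6, n7, n8, n9, fun xn yn m d ε hR hε => ?_⟩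
  have le : ∀ j n, BW.rk (X0 u v' w x3 xn yn) (x11p d m j (10 * m - 3 * d + ε) n,
      x11q d m j (10 * m - 3 * d + ε) n, x11m d m j (10 * m - 3 * d + ε) n) ≤
      finrank K (c.toCfg.H A K ε (u11 d m j n ε)) := fun j n => by
    obtain ⟨e1, e2, e3⟩ := x11_cls d m j n ε _ rfl
    rw [Cfg.H, h.pts, ← e1, ← e2, ← e3]
    exact H _ _ _ _ _
  have mono : ∀ {q : ℤ} {x y : ℕ}, x ≤ y → KB11 q y → KB11 q x := fun h1 h2 =>
    ⟨fun e => by have := h2.1 e; omega, fun e => by have := h2.2 e; omega⟩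
  have := h.kp hi hK T ha hb hR hε
  exact ⟨mono (le _ _) this.1, mono (le _ _) this.2⟩

end Pool.Agent.Lib.MP_d03834_ag.Core
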