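import Pool.Agent.Lib.MP_d03834_ag.Core.T5R

/-! Eleven points: the fold along the fibre through a1, b1 and the node, in the honest frame. -/

set_option autoImplicit false

namespace Pool.Agent.Lib.MP_d03834_ag.Core.X11

open Module

section defs
variable {F : Type} [Field F]

/-- the denominator of the quadratic map -/
def qM (al p1 x y : F) : F := (al - p1) * x * y + p1 * (1 - al) * y + al * (p1 - 1) * x

/-- the multiplier of the quadratic map -/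
def qL (al p1 x y : F) : F := (y * (1 - p1) - x * (1 - al) + p1 - al) / qM al p1 x y

/-- the denominator of the last shear, at the points (xb, yb) and (1, 1) -/
def sD (xb yb x y : F) : F := (x - xb) * (y - 1) - (x - 1) * (y - yb)

/-- the last shear -/
def sX (ka xb yb x y : F) : F := ka + (1 - ka) * ((x - xb) * (y - 1)) / sD xb yb x y

/-- the points a1 a2 b1 b2 c1 c2 d1 d2 eps nu in the honest frame -/
def pX (al be p nu p1 p2 q1 q2 : F) : Fin 10 → Fin 4 → F :=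
  ![![al / be, 1, 1 / (be * qL al p1 q1 be), 1],
    ![sX (al * q1 / (p1 * be)) (al * q1 * qL al p1 q1 be) (p1 * be * qL al p1 q1 be) p2 p1, 1,
      1 / (be * qL al p1 q1 be), 1],
    ![al * q1 / (p1 * be), 1, 1 / (p1 * be * qL al p1 q1 be), 1],
    ![al * qL al p1 q2 be, 1, qL al p1 q2 be / qL al p1 q1 be, 1],
    ![1, 1, 0, 1], ![0, 1, 0, 1], ![1, 1, 1, 0], ![1, 0, 1, 0], ![1, 1, 1, 1],
    ![sX (al * q1 / (p1 * be)) (al * q1 * qL al p1 q1 be) (p1 * be * qL al p1 q1 be)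
        (al * p * qL al p1 p nu) (p1 * nu * qL al p1 p nu), 1,
      nu * qL al p1 p nu / (be * qL al p1 q1 be), 1]]

/-- the limit -/
def p0 (r be p nu : F) : Fin 10 → Fin 4 → F :=
  ![![r ^ 2, 1, p / be, 1], ![p / be, 1, p / be, 1], ![r ^ 2, 1, 1 / be, 1],
    ![be * r ^ 2 / p, 1, 1, 1], ![1, 1, 0, 1], ![0, 1, 0, 1], ![1, 1, 1, 0], ![1, 0, 1, 0],
    ![1, 1, 1, 1], ![r ^ 2, 1, nu / be, 1]]

/-- the conditions on the limit -/
structure Gen (r be p nu : F) : Prop where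
  r0 : r ≠ 0
  r1 : r ^ 2 ≠ 1
  b0 : be ≠ 0
  p0 : p ≠ 0
  p1 : p ≠ 1
  n0 : nu ≠ 0
  n1 : nu ≠ 1
  np : nu ≠ p
  nb : nu ≠ be
  na : nu ≠ be * r ^ 2
  a1 : be * r ^ 2 ≠ 1
  pa : p ≠ be * r ^ 2
  pb : p ≠ be

theorem xL {al p1 x y : F} (h : qM al p1 x y ≠ 0) :
    x * qL al p1 x y = 1 + (1 - al) * (x - p1) * (y - x) / qM al p1 x y := by
  rw [qL]
  field_simp
  rw [qM]
  ring

end defs

/-- the multiplicities after j twists -/
def rd (j : ℤ) (m : Fin 10 → ℤ) : Fin 10 → ℤ :=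
  ![m 0 - j, m 1, m 2 - j, m 3, m 4 - (j + 1) / 2, m 5 - (j + 1) / 2, m 6 - (j + 1) / 2,
    m 7 - (j + 1) / 2, m 8, m 9 - j]

variable {O k K : Type} [CommRing O] [Field k] [Field K] [Algebra O K] {π : O →+* k}

theorem rs_M {al p1 x y : K} {a p b : k} (ha : Rs π al a) (h1 : Rs π p1 p) (hx : Rs π x p)
    (hy : Rs π y b) : Rs π (qM al p1 x y) (p * (1 - p) * (b - a)) :=
  (((((ha.sub h1).mul hx).mul hy).add ((h1.mul (Rs.one.sub ha)).mul hy)).add
    ((ha.mul (h1.sub Rs.one)).mul hx)).of_eq (by ring)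

theorem rs_L (hπ : ∀ z, π z ≠ 0 → IsUnit z) {al p1 x y : K} {a p b : k} (ha : Rs π al a)
    (h1 : Rs π p1 p) (hx : Rs π x p) (hy : Rs π y b) (p0 : p ≠ 0) (p1' : 1 - p ≠ 0)
    (hb : b - a ≠ 0) : Rs π (qL al p1 x y) (1 / p) :=
  (((((hy.mul (Rs.one.sub h1)).sub (hx.mul (Rs.one.sub ha))).add h1).sub ha).div hπ
    (rs_M ha h1 hx hy) (mul_ne_zero (mul_ne_zero p0 p1') hb)).of_eq (by field_simp; ring)

theorem rs_D {xb yb x y : K} {a b c d : k} (ha : Rs π xb a) (hb : Rs π yb b) (hx : Rs π x c)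
    (hy : Rs π y d) : Rs π (sD xb yb x y) ((c - a) * (d - 1) - (c - 1) * (d - b)) :=
  ((hx.sub ha).mul (hy.sub Rs.one)).sub ((hx.sub Rs.one).mul (hy.sub hb))

/-- the fold -/
theorem fold [IsDomain O] [ValuationRing O] [IsFractionRing O K] (hπ : ∀ z, π z ≠ 0 → IsUnit z)
    {t : O} (ht0 : t ≠ 0) (ht : π t = 0) {r be p nu P1 P2 Q1 Q2 al p1 p2 q1 q2 : K}
    {r0 b0 c0 n0 x2 y2 : k} (G : Gen r0 b0 c0 n0) (hr : Rs π r r0) (hb : Rs π be b0)
    (hp : Rs π p c0) (hn : Rs π nu n0) (hP1 : Rs π P1 (b0 * r0 ^ 2 - n0)) (hP2 : Rs π P2 x2)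
    (hQ1 : Rs π Q1 (r0 * (b0 - n0))) (hQ2 : Rs π Q2 y2) (ea : al = be * r ^ 2)
    (e1 : p1 = p + algebraMap O K t * P1) (e2 : p2 = p + algebraMap O K t * P2)
    (f1 : q1 = p + algebraMap O K t * Q1) (f2 : q2 = p + algebraMap O K t * Q2)
    {a b κ ε : ℤ} {m : Fin 10 → ℤ} (hε : ε = 0 ∨ ε = 1) (h0 : 0 ≤ κ + ε) (h1 : a ≤ m 4 + m 5)
    (h2 : a ≤ m 6 + m 7) (h3 : b + κ ≤ m 0 + m 2 + m 9) :
    (finrank K (H0 a b (pX al be p nu p1 p2 q1 q2) m) : ℤ) ≤ ε * ((κ + 2) / 2) +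
      finrank k (H0 (a - (κ + ε)) (b - 2 * ((κ + ε + 1) / 2)) (p0 r0 b0 c0 n0) (rd (κ + ε) m)) := by
  obtain ⟨g0, g1, g2, g3, g4, g5, g6, g7, g8, g9, g10, g11, g12⟩ := G
  have T : Rs π (algebraMap O K t) 0 := (Rs.alg t).of_eq ht
  have ha : Rs π al (b0 * r0 ^ 2) := ea ▸ hb.mul (hr.pow 2)
  have nr : ∀ {x y : K} {c : k}, Rs π y c → x = p + algebraMap O K t * y → Rs π x c0 :=
    fun h e => e ▸ (hp.add (T.mul h)).of_eq (by ring)
  have k1 := nr hP1 e1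
  have k2 := nr hP2 e2
  have l1 := nr hQ1 f1
  have l2 := nr hQ2 f2
  have s1 : 1 - c0 ≠ 0 := sub_ne_zero.2 g4.symm
  have s2 : 1 - r0 ^ 2 ≠ 0 := sub_ne_zero.2 g1.symm
  have s3 : b0 - b0 * r0 ^ 2 ≠ 0 := fun e => mul_ne_zero g2 s2 (by linear_combination e)
  have s4 : n0 - b0 * r0 ^ 2 ≠ 0 := sub_ne_zero.2 g9
  have s5 : n0 - b0 ≠ 0 := sub_ne_zero.2 g8
  have s6 : b0 * r0 ^ 2 - 1 ≠ 0 := sub_ne_zero.2 g10
  have s7 : 1 - r0 ≠ 0 := fun e => s2 (by linear_combination (1 + r0) * e)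
  have L1 := rs_L hπ ha k1 l1 hb g3 s1 s3
  have L2 := rs_L hπ ha k1 l2 hb g3 s1 s3
  have Ln := rs_L hπ ha k1 hp hn g3 s1 s4
  have M1 := rs_M ha k1 l1 hb
  have Mn := rs_M ha k1 hp hn
  have m1 := mul_ne_zero (mul_ne_zero g3 s1) s3
  have mn := mul_ne_zero (mul_ne_zero g3 s1) s4
  have i0 : 1 / c0 ≠ 0 := one_div_ne_zero g3
  have U : Rs π (al / be) (r0 ^ 2) := (ha.div hπ hb g2).of_eq (by field_simp)
  have Ka : Rs π (al * q1 / (p1 * be)) (r0 ^ 2) :=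
    ((ha.mul l1).div hπ (k1.mul hb) (mul_ne_zero g3 g2)).of_eq (by field_simp)
  have Xb : Rs π (al * q1 * qL al p1 q1 be) (b0 * r0 ^ 2) :=
    ((ha.mul l1).mul L1).of_eq (by field_simp)
  have Yb : Rs π (p1 * be * qL al p1 q1 be) b0 := ((k1.mul hb).mul L1).of_eq (by field_simp)
  have Xn : Rs π (al * p * qL al p1 p nu) (b0 * r0 ^ 2) :=
    ((ha.mul hp).mul Ln).of_eq (by field_simp)
  have Yn : Rs π (p1 * nu * qL al p1 p nu) n0 := ((k1.mul hn).mul Ln).of_eq (by field_simp)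
  have W : Rs π (1 / (be * qL al p1 q1 be)) (c0 / b0) :=
    (Rs.one.div hπ (hb.mul L1) (mul_ne_zero g2 i0)).of_eq (by field_simp)
  have D2 := (rs_D Xb Yb k2 k1).of_eq (a' := -((1 - c0) * (b0 - b0 * r0 ^ 2))) (by ring)
  have Dn := (rs_D Xb Yb Xn Yn).of_eq (a' := -((b0 * r0 ^ 2 - 1) * (n0 - b0))) (by ring)
  have d2 := neg_ne_zero.2 (mul_ne_zero s1 s3)
  have dn := neg_ne_zero.2 (mul_ne_zero s6 s5)
  have A2 : Rs π (sX (al * q1 / (p1 * be)) (al * q1 * qL al p1 q1 be) (p1 * be * qL al p1 q1 be)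
      p2 p1) (c0 / b0) :=
    (Ka.add (((Rs.one.sub Ka).mul ((k2.sub Xb).mul (k1.sub Rs.one))).div hπ D2 d2)).of_eq (by
      field_simp
      ring)
  have Nu : Rs π (sX (al * q1 / (p1 * be)) (al * q1 * qL al p1 q1 be) (p1 * be * qL al p1 q1 be)
      (al * p * qL al p1 p nu) (p1 * nu * qL al p1 p nu)) (r0 ^ 2) :=
    (Ka.add (((Rs.one.sub Ka).mul ((Xn.sub Xb).mul (Yn.sub Rs.one))).div hπ Dn dn)).of_eq (by simp)
  have E1 : Rs π (al / be * (Q1 - P1) / p1)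
      (r0 ^ 2 * (1 - r0) / (c0 * (1 - c0)) * ((1 - c0) * (n0 + r0 * b0))) :=
    ((U.mul (hQ1.sub hP1)).div hπ k1 g3).of_eq (by field_simp; ring)
  have s8 : 1 + r0 ≠ 0 := fun e => s2 (by linear_combination (1 - r0) * e)
  have B1 := ((hP1.neg.mul (hn.sub hp)).div hπ Mn mn).of_eq (a' := (n0 - c0) / (c0 * (1 - c0))) (by
    rw [div_eq_div_iff mn (mul_ne_zero g3 s1)]
    ring)
  have B2 := (((hQ1.sub hP1).mul (hb.sub l1)).div hπ M1 m1).of_eq
    (a' := (r0 * b0 + n0) * (b0 - c0) / (c0 * (1 - c0) * b0 * (1 + r0))) (by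
      rw [div_eq_div_iff m1 (mul_ne_zero (mul_ne_zero (mul_ne_zero g3 s1) g2) s8)]
      ring)
  have E2 : Rs π (al / be * (Q1 - P1) / p1 + (1 - al * q1 / (p1 * be)) *
      (al * (1 - al) * (-P1 * (nu - p) / qM al p1 p nu - (Q1 - P1) * (be - q1) / qM al p1 q1 be) *
        (p1 * nu * qL al p1 p nu - 1)) / sD (al * q1 * qL al p1 q1 be) (p1 * be * qL al p1 q1 be)
          (al * p * qL al p1 p nu) (p1 * nu * qL al p1 p nu))
      (r0 ^ 2 * (1 - r0) / (c0 * (1 - c0)) * ((n0 - c0) * (1 + r0 * b0))) :=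
    (E1.add ((((Rs.one.sub Ka).mul (((ha.mul (Rs.one.sub ha)).mul (B1.sub B2)).mul
      (Yn.sub Rs.one))).div hπ Dn dn).of_eq (a' := r0 ^ 2 * (1 - r0) / (c0 * (1 - c0)) *
        ((n0 - 1) * (r0 * b0 + c0))) (by
          rw [div_eq_iff dn]
          field_simp
          ring))).of_eq (by ring)
  have z1 := k1.ne hπ g3
  have zb := hb.ne hπ g2
  have eb : al * q1 / (p1 * be) = al / be + algebraMap O K t * (al / be * (Q1 - P1) / p1) := by
    rw [show q1 = p1 + algebraMap O K t * (Q1 - P1) by rw [e1, f1]; ring]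
    field_simp
  have c1 : r0 ^ 2 * (1 - r0) / (c0 * (1 - c0)) ≠ 0 :=
    div_ne_zero (mul_ne_zero (pow_ne_zero _ g0) s7) (mul_ne_zero g3 s1)
  refine (t5_rs hπ ht0 ht (X0 := p0 r0 b0 c0 n0) (e := ![0, 2, 9]) (a := ![4, 5]) (b := ![6, 7])
    (ξ := ![0, _, _]) (ξ0 := ![0, _, _]) (fun l c => ?_) (fun l => ?_) U
    (fun i => by fin_cases i; exacts [Rs.zero, E1, E2]) (fun i => ?_)
    (fun i => by fin_cases i <;> rfl) (fun i => by fin_cases i <;> rfl)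
    (fun i => by fin_cases i <;> rfl) (fun i => by fin_cases i <;> rfl) (fun i => ?_) (fun i => ?_)
    (by simp [p0, dx]) (by simp [p0, dx])
    (al := r0 ^ 2 * (1 - r0) / (c0 * (1 - c0)) * (r0 * b0 ^ 2))
    (be := r0 ^ 2 * (1 - r0) / (c0 * (1 - c0)) * (n0 - c0 * r0 * b0))
    (ga := r0 ^ 2 * (1 - r0) / (c0 * (1 - c0)) * -(c0 * n0 / b0))
    ⟨fun i => ?_, fun i j hij => ?_, fun i => ?_, mul_ne_zero c1 (mul_ne_zero g0 (pow_ne_zero _ g2)),
      mul_ne_zero c1 (neg_ne_zero.2 (div_ne_zero (mul_ne_zero g3 g5) g2))⟩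
    hε h0 h1 h2 h3).trans (le_of_eq ?_)
  · fin_cases l <;> fin_cases c
    exacts [U, .one, W, .one, A2, .one, W, .one, Ka, .one,
      Rs.one.div hπ Yb g2, .one, (ha.mul L2).of_eq (mul_one_div _ _), .one,
      (L2.div hπ L1 i0).of_eq (div_self i0), .one, .one, .one, .zero, .one, .zero, .one, .zero,
      .one, .one, .one, .one, .zero, .one, .zero, .one, .zero, .one, .one, .one, .one, Nu, .one,
      ((hn.mul Ln).div hπ (hb.mul L1) (mul_ne_zero g2 i0)).of_eq (a' := n0 / b0) (by field_simp), .one]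
  · fin_cases l <;> simp [p0, Pt]
  · fin_cases i
    · simp [pX]
    · exact eb
    · have x1 := xL (M1.ne hπ m1)
      have x2 := xL (Mn.ne hπ mn)
      have x3 : al * p * qL al p1 p nu - al * q1 * qL al p1 q1 be = algebraMap O K t * (al * (1 - al) *
          (-P1 * (nu - p) / qM al p1 p nu - (Q1 - P1) * (be - q1) / qM al p1 q1 be)) := by
        rw [mul_assoc, mul_assoc, x1, x2, show p - p1 = algebraMap O K t * -P1 by rw [e1]; ring,
          show q1 - p1 = algebraMap O K t * (Q1 - P1) by rw [e1, f1]; ring]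
        ring
      change sX _ _ _ _ _ = _ + _ * (_ + _)
      rw [sX, x3]
      linear_combination eb
  · fin_cases i
    · simpa [p0] using g1.symm
    · simpa [p0] using (pow_ne_zero 2 g0).symm
  · fin_cases i
    · simpa [p0] using g1.symm
    · simp [p0]
  · fin_cases i
    exacts [div_ne_zero g3 g2, one_div_ne_zero g2, div_ne_zero g5 g2]
  · have w : ∀ {x y : k}, x ≠ y → x / b0 ≠ y / b0 := fun h e => h ((div_left_inj' g2).1 e)
    fin_cases i <;> fin_cases j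
    exacts [absurd rfl hij, w g4, w g7.symm, w g4.symm, absurd rfl hij, w g6.symm, w g7, w g6,
      absurd rfl hij]
  · fin_cases i <;> simp only [p0] <;> simp <;> field_simp <;> ring
  · have u1 : c0 / b0 ≠ r0 ^ 2 := fun e => g11 (by rw [← e]; field_simp)
    have u2 : b0 * r0 ^ 2 / c0 ≠ r0 ^ 2 := fun e => g12 (by
      field_simp at e
      exact e.symm)
    refine congrArg (fun n => ε * ((κ + 2) / 2) + (finrank k (H0 _ _ (p0 r0 b0 c0 n0) n) : ℤ))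
      (funext fun l => ?_)
    fin_cases l <;> simp [p0, rd, g1.symm, g2, g3, g5, u1, u2, (pow_ne_zero 2 g0).symm]

end Pool.Agent.Lib.MP_d03834_ag.Core.X11
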