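import Pool.Agent.Lib.MP_d03834_ag.Core.N11Pl
import Pool.Agent.Lib.MP_d03834_ag.Core.BiShear
import Pool.Agent.Lib.MP_d03834_ag.Core.Fib4

/-! Eleven points: the free fold along the rational quartic, in the chart where it is a fibre. -/

set_option autoImplicit false

namespace Pool.Agent.Lib.MP_d03834_ag.Core

open Module

/-- the labels of the four points on the fibre -/
def n11E : Fin 4 → Fin 10 := ![1, 3, 4, 6]

/-- the labels of the other points -/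
def n11O : Fin 6 → Fin 10 := ![0, 2, 5, 7, 8, 9]

/-- the multiplicities of the class minus j times the fibre -/
def n11S (d m j : ℤ) : Fin 10 → ℤ :=
  ![3 * d - 8 * m, d - 2 * m - j, 3 * d - 8 * m, m - j, d - 2 * m - j, 3 * d - 8 * m, m - j,
    2 * d - 5 * m, d - 2 * m, 5 * d - 14 * m]

variable {K : Type} [Field K]

theorem n11_H0 (p q : ℤ) (Q : Fin 10 → Fin 4 → K) (hQ : ∀ l, Pt (Q l)) (n : Fin 10 → ℤ) :
    H0 p q (Sum.elim (fun i => Q (n11E i)) fun j => Q (n11O j))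
      (Sum.elim (fun i => n (n11E i)) fun j => n (n11O j)) = H0 p q Q n := by
  refine le_antisymm (H0_le fun l => .inr ?_) (H0_le fun l => .inr ?_)
  · have : (∃ i, n11E i = l) ∨ ∃ j, n11O j = l := by revert l; decide
    rcases this with ⟨i, rfl⟩ | ⟨j, rfl⟩
    · exact ⟨.inl i, le_rfl, hQ _, dx_self _, dy_self _⟩
    · exact ⟨.inr j, le_rfl, hQ _, dx_self _, dy_self _⟩
  · rcases l with i | j
    · exact ⟨n11E i, le_rfl, hQ _, dx_self _, dy_self _⟩
    · exact ⟨n11O j, le_rfl, hQ _, dx_self _, dy_self _⟩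

theorem n11_fib0 [Algebra ℂ K] {d m t r : ℕ} (h3 : 3 * m ≤ d) (ht : t + 2 * d = 7 * m)
    (Q : Fin 10 → Fin 4 → K) (hQ : ∀ l, Pt (Q l)) (h0 : ∀ i, Q (n11E i) 0 = 0)
    (hd : ∀ i j, i ≠ j → dy (Q (n11E i)) (Q (n11E j)) ≠ 0) (ho : ∀ j, Q (n11O j) 0 ≠ 0)
    (h1 : finrank K (H0 (5 * d - 13 * m - t) (6 * d - 16 * m) Q (n11S d m t)) ≤ r + t)
    (h2 : finrank K (H0 (5 * d - 13 * m - (t + 1)) (6 * d - 16 * m) Q (n11S d m (t + 1))) ≤ r) :
    Hle d (fun _ : Fin 11 => m) r := by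
  have : CharZero K := charZero_of_injective_algebraMap (algebraMap ℂ K).injective
  have e1 : ∀ j : ℤ, (fun i => n11T d m (n11E i) - j) = fun i => n11S d m j (n11E i) :=
    fun j => funext fun i => by fin_cases i <;> rfl
  have e2 : ∀ j : ℤ, (fun i => n11T d m (n11O i)) = fun i => n11S d m j (n11O i) :=
    fun j => funext fun i => by fin_cases i <;> rfl
  obtain ⟨P, hP, h⟩ := fib4_H0 (fun i => Q (n11E i)) (fun _ => hQ _) h0 hd (fun j => Q (n11O j))
    (fun _ => hQ _) ho (5 * d - 13 * m) (6 * d - 16 * m) (fun i => n11T d m (n11E i))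
    (fun i => n11T d m (n11O i)) t
    (fun i => by fin_cases i <;> simp [n11T, n11E] <;> omega)
    (by simp [Fin.sum_univ_four, n11T, n11E]; omega) r
    (by rwa [e1, e2 t, n11_H0 _ _ Q hQ])
    (by
      rw [show (fun i => n11T d m (n11E i) - t - 1) = fun i => n11T d m (n11E i) - (t + 1) from
        funext fun i => sub_sub _ _ _, sub_sub, e1, e2 (t + 1), n11_H0 _ _ Q hQ]
      exact h2)
  let Q' : Fin 10 → Fin 4 → K := ![Q 0, P 0, Q 2, P 1, P 2, Q 5, P 3, Q 7, Q 8, Q 9]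
  have hQ' : ∀ l, Pt (Q' l) := fun l => by
    fin_cases l
    exacts [hQ 0, (hP 0).1, hQ 2, (hP 1).1, (hP 2).1, hQ 5, (hP 3).1, hQ 7, hQ 8, hQ 9]
  refine n11_plane (by omega) Q' hQ' ?_
  rw [← n11_H0 _ _ Q' hQ']
  have a1 : (fun i => Q' (n11E i)) = P := funext fun i => by fin_cases i <;> rfl
  have a2 : (fun j => Q' (n11O j)) = fun j => Q (n11O j) := funext fun i => by fin_cases i <;> rfl
  rwa [a1, a2]

/-- the fold along a fibre in any position -/
theorem n11_fib [Algebra ℂ K] {d m t r : ℕ} (h3 : 3 * m ≤ d) (ht : t + 2 * d = 7 * m)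
    (Q : Fin 10 → Fin 4 → K) (hQ : ∀ l, Pt (Q l)) (h0 : ∀ i, dx (Q 1) (Q (n11E i)) = 0)
    (hd : ∀ i j, i ≠ j → dy (Q (n11E i)) (Q (n11E j)) ≠ 0)
    (ho : ∀ j, dx (Q 1) (Q (n11O j)) ≠ 0)
    (h1 : finrank K (H0 (5 * d - 13 * m - t) (6 * d - 16 * m) Q (n11S d m t)) ≤ r + t)
    (h2 : finrank K (H0 (5 * d - 13 * m - (t + 1)) (6 * d - 16 * m) Q (n11S d m (t + 1))) ≤ r) :
    Hle d (fun _ : Fin 11 => m) r := by
  have hx : dx (Q 1) (Q 0) ≠ 0 := ho 0
  have hdet : Q 1 1 * -Q 0 0 - -Q 1 0 * Q 0 1 ≠ 0 := fun z => hx (by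
    rw [dx]; linear_combination -z)
  have hone : (1 : K) * 1 - 0 * 0 ≠ 0 := by simp
  let Q' : Fin 10 → Fin 4 → K := fun l => act (Q 1 1) (-Q 1 0) (Q 0 1) (-Q 0 0) 1 0 0 1 (Q l)
  have a0 : ∀ l, Q' l 0 = dx (Q 1) (Q l) := fun l => by simp [Q', act, dx, sub_eq_add_neg]
  have a1 : ∀ l, Q' l 1 = dx (Q 0) (Q l) := fun l => by simp [Q', act, dx, sub_eq_add_neg]
  have a2 : ∀ l, Q' l 2 = Q l 2 := fun l => by simp [Q', act]
  have a3 : ∀ l, Q' l 3 = Q l 3 := fun l => by simp [Q', act]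
  refine n11_fib0 h3 ht Q' (fun l => ⟨?_, by rw [a2, a3]; exact (hQ l).2⟩)
    (fun i => by rw [a0, h0]) (fun i j hij => by rw [dy, a2, a2, a3, a3]; exact hd i j hij)
    (fun j => by rw [a0]; exact ho j) ((rk_lin hdet hone _ _ _ _).trans h1)
    ((rk_lin hdet hone _ _ _ _).trans h2)
  rw [a0, a1]
  by_contra hn
  push Not at hn
  obtain ⟨b1, b2⟩ := hn
  simp only [dx] at hx b1 b2
  rcases (hQ l).1 with z | z
  · exact mul_ne_zero hx z (by linear_combination Q 0 0 * b1 - Q 1 0 * b2)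
  · exact mul_ne_zero hx z (by linear_combination Q 0 1 * b1 - Q 1 1 * b2)

end Pool.Agent.Lib.MP_d03834_ag.Core
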