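import Pool.Agent.Lib.MP_d03834_ag.Core.ClDefs
import Pool.Agent.Lib.MP_d03834_ag.Core.ClHon
import Pool.Agent.Lib.MP_d03834_ag.Core.LimB

/-! Multiplicities in divisibility form: honest points, limits, division by lines. -/

set_option autoImplicit false

namespace Pool.Agent.Lib.MP_d03834_ag.Core

open scoped Polynomial

section ring
variable {A B : Type} [CommRing A] [CommRing B]

theorem t5c_nx_map (f : A →+* B) (q : Fin 2 → A[X]) (n : Fin 2 → A) (F : Cx A) (j : ℕ) :
    (nx (fun i => (q i).map f) (fun i => f (n i)) (MvPolynomial.map f F)).coeff j =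
      ((nx q n F).coeff j).map f := by
  have : (nx (fun i => (q i).map f) fun i => f (n i)).toRingHom.comp (MvPolynomial.map f) =
      (Polynomial.mapRingHom (Polynomial.mapRingHom f)).comp (nx q n).toRingHom := by
    refine MvPolynomial.ringHom_ext (fun a => ?_) fun i => ?_
    · simp [nx]
    · fin_cases i <;> simp [nx]
  have h := DFunLike.congr_fun this F
  simp only [RingHom.comp_apply, AlgHom.toRingHom_eq_coe, RingHom.coe_coe,
    Polynomial.coe_mapRingHom] at h
  rw [h, Polynomial.coeff_map, Polynomial.coe_mapRingHom]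

theorem Dv.push {ι : Type} [Fintype ι] (f : A →+* B) {q : Fin 2 → A[X]} {n : Fin 2 → A}
    {z : ι → A} {m : ι → ℤ} {F : Cx A} (h : Dv q n z m F) :
    Dv (fun i => (q i).map f) (fun i => f (n i)) (fun l => f (z l)) m (MvPolynomial.map f F) :=
  fun j => by
    rw [t5c_nx_map]
    have := Polynomial.map_dvd f (h j)
    simpa [Polynomial.map_prod] using this

theorem Dv.pull {ι : Type} [Fintype ι] {f : A →+* B} (hf : Function.Injective f)
    {q : Fin 2 → A[X]} {n : Fin 2 → A} {z : ι → A} {m : ι → ℤ} {F : Cx A}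
    (h : Dv (fun i => (q i).map f) (fun i => f (n i)) (fun l => f (z l)) m
      (MvPolynomial.map f F)) : Dv q n z m F := fun j => by
  have h1 := h j
  rw [t5c_nx_map] at h1
  rw [← Polynomial.map_dvd_map f hf (Polynomial.monic_prod_of_monic _ _ fun l _ =>
    (Polynomial.monic_X_sub_C _).pow _)]
  simpa [Polynomial.map_prod] using h1

end ring

variable {K : Type} [Field K]

theorem Dv.hon {ι : Type} [Fintype ι] (q : Fin 2 → K[X]) (n : Fin 2 → K) {P : ι → Fin 4 → K}
    {z : ι → K} {m : ι → ℤ} (hz : Function.Injective z) (hx : ∀ i, P i 0 = z i * P i 1)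
    (hy : ∀ i, P i 3 * (q 0).eval (z i) = P i 2 * (q 1).eval (z i)) {F : Cx K}
    (h : ∀ i, F ∈ pid (P i) ^ (m i).toNat) : Dv q n z m F := fun j => by
  have := Hon.hon_dvd (q 0) (q 1) (Polynomial.C (n 0)) (Polynomial.C (n 1))
    (m := fun i => (m i).toNat) (fun i l hil _ _ => hz.ne hil) hx hy h j
  have e : ∀ l, (m l - j).toNat = (m l).toNat - j := fun l => by omega
  simp only [e]
  exact this

theorem t5c_unit {D : ℕ → K[X]} (hD : ∀ j, D (j + 1) ∣ D j) {c : K} (hc : c ≠ 0) (e : K[X])
    {g : K[X][X]} (h : ∀ j, D j ∣ ((Polynomial.C (Polynomial.C c) +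
      Polynomial.X * Polynomial.C e) * g).coeff j) (j : ℕ) : D j ∣ g.coeff j := by
  have u : IsUnit (Polynomial.C c : K[X]) := (IsUnit.mk0 c hc).map Polynomial.C
  induction j with
  | zero =>
    have := h 0
    rwa [add_mul, mul_assoc, Polynomial.coeff_add, Polynomial.coeff_X_mul_zero, add_zero,
      Polynomial.coeff_C_mul, u.dvd_mul_left] at this
  | succ j ih =>
    have := h (j + 1)
    rwa [add_mul, mul_assoc, Polynomial.coeff_add, Polynomial.coeff_X_mul, Polynomial.coeff_C_mul,
      Polynomial.coeff_C_mul, dvd_add_left (((hD j).trans ih).mul_left e), u.dvd_mul_left] at this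

/-- division by a horizontal line different from the carrier -/
theorem Dv.div_ly {ι : Type} [Fintype ι] {u : K} {z : ι → K} {m : ι → ℤ} {P : Fin 4 → K}
    (hP : P 3 * u ≠ P 2) (a : ℕ) {F : Cx K}
    (h : Dv ![Polynomial.C u, 1] ![1, 0] z m (ly P ^ a * F)) :
    Dv ![Polynomial.C u, 1] ![1, 0] z m F := by
  induction a with
  | zero => simpa using h
  | succ a ih =>
    have e : nx ![Polynomial.C u, 1] ![1, 0] (ly P) = Polynomial.C (Polynomial.C (P 3 * u - P 2)) +
        Polynomial.X * Polynomial.C (Polynomial.C (P 3)) := by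
      simp [nx, ly]
      ring
    refine ih fun j => t5c_unit
      (D := fun j => ∏ l, (Polynomial.X - Polynomial.C (z l)) ^ (m l - (j : ℕ)).toNat)
      (fun j => Finset.prod_dvd_prod_of_dvd _ _ fun l _ => pow_dvd_pow _ (by push_cast; omega))
      (sub_ne_zero.2 hP) (Polynomial.C (P 3)) (fun j => ?_) j
    have := h j
    rwa [pow_succ', mul_assoc, map_mul, e] at this

/-- division by a vertical line through the point s -/
theorem Dv.div_lx {q : Fin 2 → K[X]} {n : Fin 2 → K} {z : Fin 2 → K} {m m' : Fin 2 → ℤ} (s : Fin 2)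
    {P : Fin 4 → K} (h0 : P 0 = z s) (h1 : P 1 = 1) (a : ℕ)
    (hm : z s.rev = z s → m s.rev ≤ m s - a) (m1 : m' s = m s - a) (m2 : m' s.rev = m s.rev)
    {F : Cx K} (h : Dv q n z m (lx P ^ a * F)) : Dv q n z m' F := fun j => by
  have h2 := h j
  have e : nx q n (lx P) = Polynomial.C (Polynomial.X - Polynomial.C (z s)) := by
    simp [nx, lx, h0, h1]
  rw [map_mul, map_pow, e, ← map_pow, Polynomial.coeff_C_mul] at h2
  have hp : ∀ f : Fin 2 → K[X], ∏ l, f l = f s * f s.rev := fun f => by
    fin_cases s <;> simp [Fin.prod_univ_two, mul_comm]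
  rw [hp] at h2 ⊢
  rw [m1, m2]
  have x0 : (Polynomial.X - Polynomial.C (z s)) ^ a ≠ 0 :=
    pow_ne_zero _ (Polynomial.X_sub_C_ne_zero _)
  by_cases c : (a : ℤ) ≤ m s - j
  · have e1 : (m s - j).toNat = a + (m s - a - j).toNat := by omega
    rw [e1, pow_add, mul_assoc] at h2
    exact (mul_dvd_mul_iff_left x0).1 h2
  · have e1 : (m s - a - j).toNat = 0 := by omega
    rw [e1, pow_zero, one_mul]
    by_cases c2 : z s.rev = z s
    · have e2 : (m s.rev - j).toNat = 0 := by have := hm c2; omega
      rw [e2, pow_zero]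
      exact one_dvd _
    · exact ((Polynomial.isCoprime_X_sub_C_of_isUnit_sub
        (sub_ne_zero.2 c2).isUnit).pow).dvd_of_dvd_mul_left ((Dvd.intro_left _ rfl).trans h2)

end Pool.Agent.Lib.MP_d03834_ag.Core
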