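import Pool.Agent.Lib.MP_d03834_ag.Core.N11C
import Pool.Agent.Lib.MP_d03834_ag.Core.T5cA
import Pool.Agent.Lib.MP_d03834_ag.Core.T5G
import Pool.Agent.Lib.MP_d03834_ag.Core.Tower

/-! Eleven points: the fold along the line a1 b1 ν. -/

set_option autoImplicit false

namespace Pool.Agent.Lib.MP_d03834_ag.Core

open Module
open scoped Polynomial

/-- the fold with extra conditions on the limit -/
theorem t5_ext {O k K ι : Type} [CommRing O] [IsDomain O] [ValuationRing O] [Field k] [Field K]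
    [Algebra O K] [IsFractionRing O K] {π : O →+* k} (hπ : ∀ x, π x ≠ 0 → IsUnit x) {t : O}
    (ht0 : t ≠ 0) (ht : π t = 0) {P : ι → Fin 4 → O} {e : Fin 3 → ι} {a b : Fin 2 → ι}
    {ξ y : Fin 3 → O} {al be ga : k} (h : T5 π t P e a b ξ y al be ga) {p q κ ε : ℤ} {m : ι → ℤ}
    (hε : ε = 0 ∨ ε = 1) {j : ℕ} (hj : κ + ε = j) (ha : p ≤ m (a 0) + m (a 1))
    (hb : p ≤ m (b 0) + m (b 1)) (he : q + κ ≤ m (e 0) + m (e 1) + m (e 2))
    (E W : Submodule k (Cx k)) [FiniteDimensional k W]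
    (hE : ∀ G : Cx O, MvPolynomial.map (algebraMap O K) G ∈
      H0 p q (fun l c => algebraMap O K (P l c)) m → MvPolynomial.map π G ∈ E)
    (hW : ∀ G ∈ H0 (p - j) (q - 2 * ((j + 1) / 2 : ℕ)) (fun l c => π (P l c))
      (red j (fun l c => π (P l c)) m), MvPolynomial.X 0 ^ j * MvPolynomial.X 2 ^ ((j + 1) / 2) *
        MvPolynomial.X 3 ^ ((j + 1) / 2) * G ∈ E → G ∈ W) :
    (finrank K (H0 p q (fun l c => algebraMap O K (P l c)) m) : ℤ) ≤
      ε * ((κ + 2) / 2) + finrank k W := by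
  have dv : finrank k ↥(H0 p q (fun l c => π (P l c)) m ⊓ E ⊓ LowS k ![1, 0, 0, 0] j) ≤
      finrank k W := brk_le LinearMap.id _ (fun _ _ e => e) fun F hF => by
    obtain ⟨G, h1, h2⟩ := t5_fac h.arms ha hb j hF.1.1 hF.2
    exact ⟨G, hW G h1 (h2 ▸ hF.1.2), h2⟩
  have f1 : FiniteDimensional k ↥(H0 p q (fun l c => π (P l c)) m ⊓ E) :=
    Submodule.finiteDimensional_of_le inf_le_left
  have f2 : ∀ i, FiniteDimensional k ↥(H0 p q (fun l c => π (P l c)) m ⊓ E ⊓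
      LowS k ![1, 0, 0, 0] i) := fun _ => Submodule.finiteDimensional_of_le inf_le_left
  rcases hε with rfl | rfl
  · obtain rfl : κ = j := by omega
    have : finrank K (H0 p q (fun l c => algebraMap O K (P l c)) m) ≤ finrank k W :=
      (lim_le (K := K) π _ _ fun G hG => show _ ∈ H0 p q (fun l c => π (P l c)) m ⊓ E ⊓
      LowS k ![1, 0, 0, 0] j from ⟨⟨(h.el hπ ht0 ht ha hb he hG).1.1, hE G hG⟩,
        (h.el hπ ht0 ht ha hb he hG).1.2⟩).trans dv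
    omega
  rcases j with _ | n
  · obtain rfl : κ = -1 := by omega
    have : finrank K (H0 p q (fun l c => algebraMap O K (P l c)) m) ≤ finrank k W :=
      (lim_le (K := K) π _ _ fun G hG => show _ ∈ H0 p q (fun l c => π (P l c)) m ⊓ E ⊓
      LowS k ![1, 0, 0, 0] 0 from ⟨⟨mem_H0.2
        ⟨((mem_H0.1 hG).1.of_map (IsFractionRing.injective O K)).map π,
          fun l => pid_lim π hπ (h.arms.pt l) ((mem_H0.1 hG).2 l)⟩, hE G hG⟩, low_zero _ _⟩).trans dv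
    omega
  obtain rfl : κ = n := by omega
  by_cases h0 : p < n ∨ q < 0
  · have := t5a (K := K) hπ ht0 ht h ha hb he
    rw [(Submodule.eq_bot_iff (H0 (p - n) _ _ _)).2 fun F hF => (mem_H0.1 hF).1.neg_deg (by omega),
      finrank_bot] at this
    omega
  have f3 : FiniteDimensional k ↥(H0 p q (fun l i => π (P l i)) m ⊓ E ⊓ LowS k ![1, 0, 0, 0] n ⊓
      ((Zs (fun i => π (ξ i)) (fun i => π (y i)) p.toNat q.toNat n fun i => (m (e i)).toNat).map
        (cmp ![1, 0, 0, 0] n)).comap (cmp ![1, 0, 0, 0] n)) :=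
    Submodule.finiteDimensional_of_le inf_le_left
  have : finrank K (H0 p q (fun l c => algebraMap O K (P l c)) m) ≤ n / 2 + 1 + finrank k W :=
    (lim_le (K := K) π _ _ fun G hG => show _ ∈ H0 p q (fun l i => π (P l i)) m ⊓ E ⊓
      LowS k ![1, 0, 0, 0] n ⊓
      ((Zs (fun i => π (ξ i)) (fun i => π (y i)) p.toNat q.toNat n fun i => (m (e i)).toNat).map
        (cmp ![1, 0, 0, 0] n)).comap (cmp ![1, 0, 0, 0] n) from
      ⟨⟨⟨(h.el hπ ht0 ht ha hb he hG).1.1, hE G hG⟩, (h.el hπ ht0 ht ha hb he hG).1.2⟩,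
        (h.el hπ ht0 ht ha hb he hG).2⟩).trans ((t5_split _ _ _ n).trans
    (add_le_add (t5_dim h.tri (by omega) (by omega)) dv))
  omega

variable {K : Type} [Field K]

/-- two points on one level, in the limit -/
theorem f11_dv {O L : Type} [CommRing O] [Field L] [Algebra O L] (hi : Function.Injective
    (algebraMap O L)) (π : O →+* K) {t x0 x1 y : O} (ht : π t = 0) (hx : t * x0 ≠ t * x1)
    {m0 m1 : ℤ} {G : Cx O}
    (h0 : MvPolynomial.map (algebraMap O L) G ∈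
      pid (fun c => algebraMap O L (![t * x0, 1, y, 1] c)) ^ m0.toNat)
    (h1 : MvPolynomial.map (algebraMap O L) G ∈
      pid (fun c => algebraMap O L (![t * x1, 1, y, 1] c)) ^ m1.toNat) :
    Dv ![Polynomial.C (π y), 1] ![1, 0] ![0, 0] ![m0, m1] (MvPolynomial.map π G) := by
  have a1 : Dv ![Polynomial.C y, 1] ![1, 0] ![t * x0, t * x1] ![m0, m1] G := by
    refine Dv.pull hi (Dv.hon _ _ (P := fun l c => algebraMap O L
      (![![t * x0, 1, y, 1], ![t * x1, 1, y, 1]] l c)) (fun i l e => ?_) (fun i => ?_)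
      (fun i => ?_) fun i => ?_)
    · have := hi e
      fin_cases i <;> fin_cases l
      exacts [rfl, absurd this hx, absurd this hx.symm, rfl]
    · fin_cases i <;> simp
    · fin_cases i <;> simp
    · fin_cases i
      exacts [h0, h1]
  convert a1.push π using 1 <;> funext i <;> fin_cases i <;> simp [ht]

/-- division by the fixed curves -/
theorem f11_div {y : K} (hy : y ≠ 0) {m0 m1 : ℤ} {j c : ℕ} (hm : m1 ≤ m0 - j) {G : Cx K}
    (h : Dv ![Polynomial.C y, 1] ![1, 0] ![0, 0] ![m0, m1]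
      (MvPolynomial.X 0 ^ j * MvPolynomial.X 2 ^ c * MvPolynomial.X 3 ^ c * G)) :
    Dv ![Polynomial.C y, 1] ![1, 0] ![0, 0] ![m0 - j, m1] G := by
  have e : (MvPolynomial.X 0 ^ j * MvPolynomial.X 2 ^ c * MvPolynomial.X 3 ^ c * G : Cx K) =
      lx ![0, 1, 0, 1] ^ j * (ly ![0, 1, 0, 1] ^ c * (ly ![0, 1, -1, 0] ^ c * G)) := by
    simp [lx, ly, mul_assoc]
  rw [e] at h
  have r : (0 : Fin 2).rev = 1 := by decide
  have a1 := Dv.div_lx (m' := ![m0 - j, m1]) 0 (P := ![0, 1, 0, 1]) (by simp) (by simp) j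
    (fun _ => by simpa [r] using hm) (by simp) (by simp [r]) h
  exact Dv.div_ly (P := ![0, 1, -1, 0]) (by simp) c
    (Dv.div_ly (P := ![0, 1, 0, 1]) (by simpa using hy) c a1)

/-- the ten points in the chart of the fold -/
def t11 {A : Type} [CommRing A] (t k0 α β sA sB x4 x5 e0 e1 z0 z1 z2 z3 wA wB w9 : A) :
    Fin 10 → Fin 4 → A :=
  ![![t * (k0 * (sA ^ 2 - 1) * z0), 1, (sA ^ 2 - α ^ 2) * wA, 1],
    ![t * (k0 * (sA ^ 2 - 1) * z1), 1, (sA ^ 2 - α ^ 2) * wA, 1],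
    ![t * (k0 * (sB ^ 2 - 1) * z2), 1, (sB ^ 2 - α ^ 2) * wB, 1],
    ![t * (k0 * (sB ^ 2 - 1) * z3), 1, (sB ^ 2 - α ^ 2) * wB, 1], ![1, 0, 0, 1],
    ![x4 * (1 - α ^ 2), 1 + α * β, 0, 1], ![1, 0, 1, 0], ![x5 * (1 - β ^ 2), 1 + α * β, 1, 0],
    ![1, 0, e0 - α ^ 2 * e1, e1 - β ^ 2 * e0], ![t * 0, 1, (1 - α ^ 2) * w9, 1]]

theorem t11_map {A B : Type} [CommRing A] [CommRing B] (f : A →+* B)
    (t k0 α β sA sB x4 x5 e0 e1 z0 z1 z2 z3 wA wB w9 : A) :
    (fun l i => f (t11 t k0 α β sA sB x4 x5 e0 e1 z0 z1 z2 z3 wA wB w9 l i)) =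
      t11 (f t) (f k0) (f α) (f β) (f sA) (f sB) (f x4) (f x5) (f e0) (f e1) (f z0) (f z1) (f z2)
        (f z3) (f wA) (f wB) (f w9) := by
  funext l i
  fin_cases l <;> fin_cases i <;> simp [t11]

theorem f11_up {t k0 α β sA sB x4 x5 e0 e1 z0 z1 z2 z3 wA wB w9 : K}
    (g0 : (sA - α) * (1 - β * sA) * z0 = 1) (g1 : (-sA - α) * (1 + β * sA) * z1 = 1)
    (g2 : (sB - α) * (1 - β * sB) * z2 = 1) (g3 : (-sB - α) * (1 + β * sB) * z3 = 1)
    (gA : (1 - β ^ 2 * sA ^ 2) * wA = 1) (gB : (1 - β ^ 2 * sB ^ 2) * wB = 1)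
    (g9 : (1 - β ^ 2) * w9 = 1) (d : 1 * 1 - -α ^ 2 * -β ^ 2 ≠ 0) (n5 : 1 + α * β ≠ 0)
    (n8 : e1 ≠ 0) (hP : ∀ l, Pt (t11 t k0 α β sA sB x4 x5 e0 e1 z0 z1 z2 z3 wA wB w9 l))
    (p q : ℤ) (m : Fin 10 → ℤ) :
    finrank K (H0 p q (q11 (t * k0) α β sA sB x4 x5 e0 e1 0) m) ≤
      finrank K (H0 p q (t11 t k0 α β sA sB x4 x5 e0 e1 z0 z1 z2 z3 wA wB w9) m) := by
  refine (rk_lin45 (a := 1) (b := 0) (c := 0) (d := 1) (by simp) d p q (fun l => ?_) m).trans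
    (Submodule.finrank_mono (H0_le fun l => .inr ⟨l, le_rfl, hP l, ?_, ?_⟩))
  · fin_cases l
    exacts [⟨.inr (left_ne_zero_of_mul_eq_one g0), .inr one_ne_zero⟩,
      ⟨.inr (left_ne_zero_of_mul_eq_one g1), .inr one_ne_zero⟩,
      ⟨.inr (left_ne_zero_of_mul_eq_one g2), .inr one_ne_zero⟩,
      ⟨.inr (left_ne_zero_of_mul_eq_one g3), .inr one_ne_zero⟩,
      ⟨.inl one_ne_zero, .inr one_ne_zero⟩, ⟨.inr n5, .inr one_ne_zero⟩,
      ⟨.inl one_ne_zero, .inl one_ne_zero⟩, ⟨.inr n5, .inl one_ne_zero⟩,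
      ⟨.inl one_ne_zero, .inr n8⟩, ⟨.inr one_ne_zero, .inr one_ne_zero⟩]
  · fin_cases l <;> simp [act, dx, q11, t11, -mul_eq_zero]
    · linear_combination t * k0 * (sA ^ 2 - 1) * g0
    · linear_combination t * k0 * (sA ^ 2 - 1) * g1
    · linear_combination t * k0 * (sB ^ 2 - 1) * g2
    · linear_combination t * k0 * (sB ^ 2 - 1) * g3
    all_goals ring
  · fin_cases l <;> simp [act, dy, q11, t11, -mul_eq_zero]
    · linear_combination (sA ^ 2 - α ^ 2) * gA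
    · linear_combination (sA ^ 2 - α ^ 2) * gA
    · linear_combination (sB ^ 2 - α ^ 2) * gB
    · linear_combination (sB ^ 2 - α ^ 2) * gB
    all_goals first | ring1 | linear_combination (1 - α ^ 2) * g9

/-- the fold along a1 b1 ν -/
theorem f11 [CharZero K] {k0 u v sA sB x4 x5 e0 e1 ye : K} (hk : k0 ≠ 0) (hA : sA ≠ 0)
    (hB : sB ≠ 0) (hAB : sA ^ 2 ≠ sB ^ 2) (hA1 : sA ^ 2 ≠ 1) (hB1 : sB ^ 2 ≠ 1) (h4 : x4 ≠ 0)
    (h5 : x5 ≠ 0) (he : e1 ≠ 0) (he0 : e0 ≠ 0) (ee : ye * e1 = e0) {p q n i : ℤ} {m : Fin 10 → ℤ}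
    (hi : i = 0 ∨ i = 1) (h0 : 0 ≤ n + i) (hc : p ≤ m 4 + m 5) (hd : p ≤ m 6 + m 7)
    (hq : q + n ≤ m 0 + m 2 + m 9) (ha : m 1 ≤ m 0 - (n + i)) (hb : m 3 ≤ m 2 - (n + i)) :
    (finrank (LS K) (H0 p q (q11 (lsT K * lsC K k0) (lsT K * lsC K u) (lsT K * lsC K v)
      (lsC K sA) (lsC K sB) (lsC K x4) (lsC K x5) (lsC K e0) (lsC K e1) 0) m) : ℤ) ≤
      i * ((n + 2) / 2) + finrank K (W11 (sA ^ 2) (sB ^ 2) ye x4 x5 (p - (n + i))
        (q - 2 * ((n + i + 1) / 2)) (tw2 (n + i) m)) := by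
  classical
  obtain ⟨j, hj⟩ := Int.eq_ofNat_of_zero_le h0
  let π := psRes K
  let f := algebraMap (PowerSeries K) (LS K)
  let c : K →+* PowerSeries K := PowerSeries.C
  let t : PowerSeries K := PowerSeries.X
  have πc : ∀ x, π (c x) = x := psRes_C
  have πt : π t = 0 := psRes_X
  have fi : Function.Injective f := psIn_inj
  have inv : ∀ x : PowerSeries K, π x ≠ 0 → ∃ z, x * z = 1 ∧ π z = (π x)⁻¹ := fun x hx => by
    obtain ⟨z, hz⟩ := (psRes_unit x hx).exists_right_inv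
    exact ⟨z, hz, eq_inv_of_mul_eq_one_right (by rw [← map_mul, hz, map_one])⟩
  let α := t * c u
  let β := t * c v
  have πα : π α = 0 := by simp [α, πt]
  have πβ : π β = 0 := by simp [β, πt]
  obtain ⟨z0, a0, b0⟩ := inv ((c sA - α) * (1 - β * c sA)) (by simp [πα, πβ, πc, hA])
  obtain ⟨z1, a1, b1⟩ := inv ((-c sA - α) * (1 + β * c sA)) (by simp [πα, πβ, πc, hA])
  obtain ⟨z2, a2, b2⟩ := inv ((c sB - α) * (1 - β * c sB)) (by simp [πα, πβ, πc, hB])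
  obtain ⟨z3, a3, b3⟩ := inv ((-c sB - α) * (1 + β * c sB)) (by simp [πα, πβ, πc, hB])
  obtain ⟨wA, aA, bA⟩ := inv (1 - β ^ 2 * c sA ^ 2) (by simp [πβ])
  obtain ⟨wB, aB, bB⟩ := inv (1 - β ^ 2 * c sB ^ 2) (by simp [πβ])
  obtain ⟨w9, a9, b9⟩ := inv (1 - β ^ 2) (by simp [πβ])
  simp [πα, πβ, πc] at b0 b1 b2 b3 bA bB b9
  let yA := (c sA ^ 2 - α ^ 2) * wA
  let yB := (c sB ^ 2 - α ^ 2) * wB
  let y9 := (1 - α ^ 2) * w9
  have πA : π yA = sA ^ 2 := by simp [yA, πα, πc, bA]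
  have πB : π yB = sB ^ 2 := by simp [yB, πα, πc, bB]
  have π9 : π y9 = 1 := by simp [y9, πα, b9]
  let kA := c k0 * (c sA ^ 2 - 1)
  let kB := c k0 * (c sB ^ 2 - 1)
  have πkA : π kA = k0 * (sA ^ 2 - 1) := by simp [kA, πc]
  have πkB : π kB = k0 * (sB ^ 2 - 1) := by simp [kB, πc]
  let T := t11 t (c k0) α β (c sA) (c sB) (c x4) (c x5) (c e0) (c e1) z0 z1 z2 z3 wA wB w9
  have hQ : (fun l i => π (T l i)) = ![![0, 1, sA ^ 2, 1], ![0, 1, sA ^ 2, 1], ![0, 1, sB ^ 2, 1],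
      ![0, 1, sB ^ 2, 1], ![1, 0, 0, 1], ![x4, 1, 0, 1], ![1, 0, 1, 0], ![x5, 1, 1, 0],
      ![1, 0, e0, e1], ![0, 1, 1, 1]] := by
    funext l i
    fin_cases l <;> fin_cases i <;> simp [T, t11, πt, bA, bB, b9, πα, πβ, πc]
  have hs : sA + sB ≠ 0 := fun e => hAB (by linear_combination (sA - sB) * e)
  have hT : T5 π t T ![0, 2, 9] ![4, 5] ![6, 7] ![kA * z0, kB * z2, 0] ![yA, yB, y9]
      (k0 / (sA + sB)) (k0 * (sA * sB - 1) / (sA + sB)) (-k0 * sA * sB / (sA + sB)) := by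
    refine ⟨?_, ⟨fun i => ?_, fun i l hil => ?_, fun i => ?_, div_ne_zero hk hs, ?_⟩, fun i => ?_,
      fun s => ?_, fun s => ?_⟩
    · rw [hQ]
      refine ⟨fun l => ?_, fun s => ?_, fun s => ?_, fun s => ?_, fun s => ?_, ?_, ?_⟩
      · fin_cases l <;> simp [Pt, he]
      · fin_cases s <;> simp
      · fin_cases s <;> simp
      · fin_cases s <;> simp [h4]
      · fin_cases s <;> simp [h5]
      · simp [dx]
      · simp [dx]
    · fin_cases i <;> simp [πA, πB, π9, hA, hB]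
    · fin_cases i <;> fin_cases l <;> simp [πA, πB, π9] at hil ⊢
      exacts [hAB, by simpa using hA1, hAB.symm, by simpa using hB1, hA1.symm, hB1.symm]
    · fin_cases i <;> simp [πA, πB, π9, πkA, πkB, b0, b2] <;> field_simp <;> ring
    · exact div_ne_zero (mul_ne_zero (mul_ne_zero (neg_ne_zero.2 hk) hA) hB) hs
    · fin_cases i <;> rfl
    · fin_cases s <;> rfl
    · fin_cases s <;> rfl
  have ne : ∀ {k z z' : PowerSeries K} {s : K}, π k ≠ 0 → s ≠ 0 → π z = s⁻¹ → π z' = -s⁻¹ →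
      t * (k * z) ≠ t * (k * z') := fun {k z z' s} h1 h2 h3 h4 e => by
    have := congrArg π (mul_left_cancel₀ PowerSeries.X_ne_zero e)
    rw [map_mul, map_mul, h3, h4] at this
    have h6 := mul_left_cancel₀ h1 this
    exact two_ne_zero (α := K) (mul_right_cancel₀ (inv_ne_zero h2) (by linear_combination h6))
  have fin : FiniteDimensional K (W11 (sA ^ 2) (sB ^ 2) ye x4 x5 (p - (n + i))
      (q - 2 * ((n + i + 1) / 2)) (tw2 (n + i) m)) :=
    Submodule.finiteDimensional_of_le (inf_le_left.trans inf_le_left)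
  have key := t5_ext (K := LS K) psRes_unit PowerSeries.X_ne_zero πt hT (m := m) hi hj hc hd hq
    (DvS ![Polynomial.C (sA ^ 2), 1] ![1, 0] ![0, 0] ![m 0, m 1] ⊓
      DvS ![Polynomial.C (sB ^ 2), 1] ![1, 0] ![0, 0] ![m 2, m 3])
    (W11 (sA ^ 2) (sB ^ 2) ye x4 x5 (p - (n + i)) (q - 2 * ((n + i + 1) / 2)) (tw2 (n + i) m))
    (fun G hG => ⟨πA ▸ f11_dv fi π πt (ne (by
        rw [πkA]; exact mul_ne_zero hk (sub_ne_zero.2 hA1)) hA b0 b1) ((mem_H0.1 hG).2 0)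
        ((mem_H0.1 hG).2 1), πB ▸ f11_dv fi π πt (ne (by
        rw [πkB]; exact mul_ne_zero hk (sub_ne_zero.2 hB1)) hB b2 b3) ((mem_H0.1 hG).2 2)
        ((mem_H0.1 hG).2 3)⟩) (fun G hG hE => by
      rw [hQ] at hG
      rw [hj] at ha hb ⊢
      refine ⟨⟨?_, f11_div (pow_ne_zero 2 hA) ha hE.1⟩, f11_div (pow_ne_zero 2 hB) hb hE.2⟩
      rw [show ((j : ℤ) + 1) / 2 = ((j + 1) / 2 : ℕ) by omega]
      refine H0_le (fun l => .inr ⟨![4, 5, 6, 7, 8] l, ?_, ?_, ?_, ?_⟩) hG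
      · fin_cases l <;> simp [red, tw2, h4, h5, he, he0]
      · fin_cases l <;> simp [Pt]
      · fin_cases l <;> simp [dx]
      · fin_cases l <;> simp [dy]
        linear_combination ee)
  refine le_trans (Int.ofNat_le.2 ?_) key
  have f0 : ∀ x, π x ≠ 0 → f x ≠ 0 := fun x hx => ls_ne_of_res hx
  have g : ∀ {x : PowerSeries K}, x = 1 → f x = 1 := fun e => by rw [e, map_one]
  have hP : ∀ l, Pt fun i => f (T l i) := fun l =>
    ⟨(hT.arms.pt l).1.imp (f0 _) (f0 _), (hT.arms.pt l).2.imp (f0 _) (f0 _)⟩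
  have e := t11_map f t (c k0) α β (c sA) (c sB) (c x4) (c x5) (c e0) (c e1) z0 z1 z2 z3 wA wB w9
  have up := f11_up (by simpa using g a0) (by simpa using g a1) (by simpa using g a2)
    (by simpa using g a3) (by simpa using g aA) (by simpa using g aB) (by simpa using g a9)
    (by
      have := f0 (1 - α ^ 2 * β ^ 2) (by simp [πα])
      rw [map_sub, map_mul, map_pow, map_pow, map_one] at this
      simpa using this)
    (by simpa using f0 (1 + α * β) (by simp [πα])) (f0 _ (by rwa [πc]))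
    (fun l => congrFun e l ▸ hP l) p q m
  rw [← e, show f α = lsT K * lsC K u from map_mul f _ _,
    show f β = lsT K * lsC K v from map_mul f _ _] at up
  exact up

end Pool.Agent.Lib.MP_d03834_ag.Core
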