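import Pool.Agent.Lib.MP_d03834_ag.Core.BiWord

/-! Eleven points: from the chart of the four lines to the frame X. -/

set_option autoImplicit false

namespace Pool.Agent.Lib.MP_d03834_ag.Core.N11X

open Module BW

section ring
variable {R : Type} [CommRing R]

/-- the line through (1, 1) and (p, α) -/
def ll (α p x y : R) : R := y * (1 - p) - x * (1 - α) + p - α

/-- the conic through (0, 0), (1, 1), (p, α) and the two points at infinity -/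
def mm (α p x y : R) : R := (α - p) * x * y + p * (1 - α) * y + α * (p - 1) * x

/-- the numerator of the last shear -/
def n4 (α β p q x y : R) : R := mm α p q β * x * y * ll α p x y -
  β * (α - 1) * (q - 1) * x * mm α p x y + q * (p - 1) * (β - 1) * y * mm α p x y

/-- the denominator of the last shear -/
def d4 (α β p q x y : R) : R := p * (α - 1) * (q - 1) * y * ll α p x y -
  α * (p - 1) * (β - 1) * x * ll α p x y - ll α p q β * mm α p x y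

/-- the chart of the four lines; the labels are a1 a2 b1 b2 c1 c2 d1 d2 eps nu -/
def F0 (α β p1 p2 q1 q2 n ν : R) : Fin 10 → Fin 4 → R :=
  ![![p1, 1, α, 1], ![p2, 1, α, 1], ![q1, 1, β, 1], ![q2, 1, β, 1], ![1, 1, 0, 1], ![0, 1, 0, 1],
    ![1, 1, 1, 0], ![1, 0, 1, 0], ![1, 1, 1, 1], ![n, 1, ν, 1]]

/-- the frame X -/
def FX (u w x2 xb yb x3 y3 xn yn : R) : Fin 10 → Fin 4 → R :=
  ![![u, 1, w, 1], ![x2, 1, w, 1], ![xb, 1, yb, 1], ![x3, 1, y3, 1], ![1, 1, 0, 1], ![0, 1, 0, 1],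
    ![1, 1, 1, 0], ![1, 0, 1, 0], ![1, 1, 1, 1], ![xn, 1, yn, 1]]

/-- the coordinates in the frame X -/
structure Eqs (α β p1 p2 q1 q2 n ν u w x2 xb yb x3 y3 xn yn : R) : Prop where
  eu : u * β = α
  ew : w * (β * ll α p1 q1 β) = mm α p1 q1 β
  ex2 : x2 * (β * ((α - 1) * (q1 - 1) - (β - 1) * (p2 - 1))) =
    p2 * (α * q1 - β * q1 - α * β + β) + α * q1 * (β - 1)
  exb : xb * (p1 * β) = α * q1
  eyb : yb * p1 = w
  ex3 : x3 * mm α p1 q2 β = α * ll α p1 q2 β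
  ey3 : y3 * mm α p1 q2 β = β * w * ll α p1 q2 β
  exn : xn * (β * mm α p1 n ν * d4 α β p1 q1 n ν) = α * ll α p1 n ν * n4 α β p1 q1 n ν
  eyn : yn * mm α p1 n ν = ν * w * ll α p1 n ν

/-- the conditions for the four shears -/
structure Gen (α β p1 p2 q1 q2 n ν yn : R) : Prop where
  α0 : α ≠ 0
  β0 : β ≠ 0
  α1 : α - 1 ≠ 0
  β1 : β - 1 ≠ 0
  αβ : α - β ≠ 0
  ν0 : ν ≠ 0
  ν1 : ν - 1 ≠ 0
  p10 : p1 ≠ 0
  p20 : p2 ≠ 0
  q10 : q1 ≠ 0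
  q20 : q2 ≠ 0
  n0 : n ≠ 0
  p11 : p1 - 1 ≠ 0
  q11 : q1 - 1 ≠ 0
  p12 : p1 - p2 ≠ 0
  q12 : q1 - q2 ≠ 0
  αp1 : α - p1 ≠ 0
  αp2 : α - p2 ≠ 0
  βq1 : β - q1 ≠ 0
  βq2 : β - q2 ≠ 0
  νn : ν - n ≠ 0
  D1 : p1 * β - α * q1 ≠ 0
  D2 : p1 * β - α * q2 ≠ 0
  Dn : p1 * ν - α * n ≠ 0
  l1 : ll α p1 q1 β ≠ 0
  l2 : ll α p1 q2 β ≠ 0
  ln : ll α p1 n ν ≠ 0
  m1 : mm α p1 q1 β ≠ 0
  m2 : mm α p1 q2 β ≠ 0
  mn : mm α p1 n ν ≠ 0
  d2 : (α - 1) * (q1 - 1) - (β - 1) * (p2 - 1) ≠ 0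
  dn : d4 α β p1 q1 n ν ≠ 0
  yn1 : yn - 1 ≠ 0

end ring

/-- the word -/
def wd : List (Letter (Fin 10)) :=
  [.Kx 5 7, .Ky 0 8, .Kx 5 7, .Ky 2 0, .R ![8, 1, 0, 3, 4, 5, 6, 7, 2, 9]]

variable {K : Type} [Field K]

theorem shc {ι : Type} [DecidableEq ι] {P P' : ι → Fin 4 → K} {i j : ι} (hij : j ≠ i) (c : K)
    (hc : c ≠ 0) (hP : ∀ l, Pt (P l)) (hP' : ∀ l, Pt (P' l)) (hx : dx (P i) (P j) ≠ 0)
    (hx' : dx (P' i) (P' j) ≠ 0) (hy : dy (P i) (P j) ≠ 0) (hv : ∀ l, dy (P l) (P' l) = 0)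
    (ho : ∀ l, l ≠ i → l ≠ j → dy (P i) (P' l) ≠ 0 ∧ dy (P j) (P' l) ≠ 0 ∧
      dx (P l) (P j) * dy (P i) (P' l) * dx (P' j) (P' l) =
        c * (dx (P l) (P i) * dy (P j) (P' l) * dx (P' i) (P' l))) (u : Cls ι) :
    rk P u ≤ rk P' (ac (.Ky i j) u) := by
  let Q := Function.update P' i ![c * P' i 0, c * P' i 1, P' i 2, P' i 3]
  have h1 : ∀ l, l ≠ i → Q l = P' l := fun l h => Function.update_of_ne h _ _
  have h2 : Q i = ![c * P' i 0, c * P' i 1, P' i 2, P' i 3] := Function.update_self ..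
  have h3 : ∀ X, dx (Q i) X = c * dx (P' i) X := fun X => by rw [h2]; simp [dx]; ring
  have h4 : ∀ l X, dy X (Q l) = dy X (P' l) := fun l X => by
    by_cases e : l = i
    · rw [e, h2]; rfl
    · rw [h1 l e]
  have hQ : ∀ l, Pt (Q l) := fun l => by
    by_cases e : l = i
    · rw [e, h2]; exact ⟨(hP' i).1.imp (mul_ne_zero hc) (mul_ne_zero hc), (hP' i).2⟩
    · rw [h1 l e]; exact hP' l
  refine (shear (P' := Q) hP hQ hx (by rw [h3, h1 j hij]; exact mul_ne_zero hc hx') hy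
    (fun l => by rw [h4, hv]) fun l a b => ?_).trans (Submodule.finrank_mono
      (H0_le fun l => .inr ⟨l, le_rfl, hP' l, ?_, by rw [dy_comm, h4, dy_self, neg_zero]⟩))
  · rw [h3, h1 l a, h1 j hij, (ho l a b).2.2]
    exact ⟨(ho l a b).1, (ho l a b).2.1, by ring⟩
  · by_cases e : l = i
    · rw [e, h3, dx_self, mul_zero]
    · rw [h1 l e, dx_self]

theorem shc' {ι : Type} [DecidableEq ι] {P P' : ι → Fin 4 → K} {i j : ι} (hij : j ≠ i) (c : K)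
    (hc : c ≠ 0) (hP : ∀ l, Pt (P l)) (hP' : ∀ l, Pt (P' l)) (hx : dy (P i) (P j) ≠ 0)
    (hx' : dy (P' i) (P' j) ≠ 0) (hy : dx (P i) (P j) ≠ 0) (hv : ∀ l, dx (P l) (P' l) = 0)
    (ho : ∀ l, l ≠ i → l ≠ j → dx (P i) (P' l) ≠ 0 ∧ dx (P j) (P' l) ≠ 0 ∧
      dy (P l) (P j) * dx (P i) (P' l) * dy (P' j) (P' l) =
        c * (dy (P l) (P i) * dx (P j) (P' l) * dy (P' i) (P' l))) (u : Cls ι) :
    rk P u ≤ rk P' (ac (.Kx i j) u) := by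
  have := shc (P := fun l => swP (P l)) (P' := fun l => swP (P' l)) hij c hc (fun l => (hP l).swP)
    (fun l => (hP' l).swP) hx hx' hy hv ho (u.2.1, u.1, u.2.2)
  exact (rk_swp _ _ _ _).trans_le (this.trans_eq (rk_swp _ _ _ _).symm)

theorem fin10 {Q : Fin 10 → Prop} (h0 : Q 0) (h1 : Q 1) (h2 : Q 2) (h3 : Q 3) (h4 : Q 4) (h5 : Q 5)
    (h6 : Q 6) (h7 : Q 7) (h8 : Q 8) (h9 : Q 9) (l : Fin 10) : Q l := by
  fin_cases l
  exacts [h0, h1, h2, h3, h4, h5, h6, h7, h8, h9]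

theorem mm_x (α p x y : K) :
    mm α p x y - α * x * ll α p x y = (α - 1) * (x - 1) * (p * y - α * x) := by
  simp only [mm, ll]; ring

theorem mm_y (α p x y : K) :
    mm α p x y - p * y * ll α p x y = (p - 1) * (y - 1) * (p * y - α * x) := by
  simp only [mm, ll]; ring

theorem k9 {α β p q x y w xb yb xn yn : K} (β0 : β ≠ 0) (p0 : p ≠ 0) (l1 : ll α p q β ≠ 0)
    (m1 : mm α p q β ≠ 0) (mn : mm α p x y ≠ 0) (ew : w * (β * ll α p q β) = mm α p q β)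
    (exb : xb * (p * β) = α * q) (eyb : yb * p = w)
    (exn : xn * (β * mm α p x y * d4 α β p q x y) = α * ll α p x y * n4 α β p q x y)
    (eyn : yn * mm α p x y = y * w * ll α p x y) :
    (mm α p x y * 1 - α * x * ll α p x y * 1) * (1 * yn - 1 * 1) * (1 * xn - xb * 1) =
      (mm α p q β)⁻¹ * ((mm α p x y * (α * q * ll α p q β) - α * x * ll α p x y * mm α p q β) *
        (1 * yn - yb * 1) * (1 * xn - 1 * 1)) := by
  simp only [n4, d4] at exn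
  generalize ll α p x y = L at *
  generalize mm α p x y = M at *
  obtain rfl := eq_div_of_mul_eq (mul_ne_zero β0 l1) ew
  obtain rfl := eq_div_of_mul_eq (mul_ne_zero p0 β0) exb
  obtain rfl := eq_div_of_mul_eq p0 eyb
  obtain rfl := eq_div_of_mul_eq mn eyn
  field_simp
  simp only [ll, mm] at exn ⊢
  linear_combination (p * β - α * q) * exn

theorem k1 {α β p q x w xb yb x2 : K} (β0 : β ≠ 0) (p0 : p ≠ 0) (l1 : ll α p q β ≠ 0)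
    (m1 : mm α p q β ≠ 0) (ew : w * (β * ll α p q β) = mm α p q β)
    (exb : xb * (p * β) = α * q) (eyb : yb * p = w)
    (ex2 : x2 * (β * ((α - 1) * (q - 1) - (β - 1) * (x - 1))) =
      x * (α * q - β * q - α * β + β) + α * q * (β - 1)) :
    (1 * 1 - x * 1) * (1 * w - 1 * 1) * (1 * x2 - xb * 1) =
      (mm α p q β)⁻¹ * ((1 * (α * q * ll α p q β) - x * mm α p q β) *
        (1 * w - yb * 1) * (1 * x2 - 1 * 1)) := by
  obtain rfl := eq_div_of_mul_eq (mul_ne_zero β0 l1) ew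
  obtain rfl := eq_div_of_mul_eq (mul_ne_zero p0 β0) exb
  obtain rfl := eq_div_of_mul_eq p0 eyb
  field_simp
  simp only [ll, mm]
  linear_combination (p - 1) * (p * β - α * q) * ex2

theorem k8 {α β p q w xb yb u : K} (β0 : β ≠ 0) (p0 : p ≠ 0) (l1 : ll α p q β ≠ 0)
    (m1 : mm α p q β ≠ 0) (ew : w * (β * ll α p q β) = mm α p q β)
    (exb : xb * (p * β) = α * q) (eyb : yb * p = w) (eu : u * β = α) :
    (1 * 1 - α * 1) * (1 * w - 1 * 1) * (1 * u - xb * 1) =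
      (mm α p q β)⁻¹ * ((1 * (α * q * ll α p q β) - α * mm α p q β) *
        (1 * w - yb * 1) * (1 * u - 1 * 1)) := by
  obtain rfl := eq_div_of_mul_eq β0 eu
  obtain rfl := eq_div_of_mul_eq (mul_ne_zero β0 l1) ew
  obtain rfl := eq_div_of_mul_eq (mul_ne_zero p0 β0) exb
  obtain rfl := eq_div_of_mul_eq p0 eyb
  field_simp
  simp only [ll, mm]
  ring1

theorem n4_d4 (α β p q x : K) : n4 α β p q x β = β * d4 α β p q x β := by
  simp only [n4, d4, ll, mm]; ring1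

/-- the four shears -/
theorem le {α β p1 p2 q1 q2 n ν u w x2 xb yb x3 y3 xn yn : K}
    (e : Eqs α β p1 p2 q1 q2 n ν u w x2 xb yb x3 y3 xn yn) (g : Gen α β p1 p2 q1 q2 n ν yn)
    (c : Cls (Fin 10)) :
    rk (F0 α β p1 p2 q1 q2 n ν) c ≤ rk (FX u w x2 xb yb x3 y3 xn yn) (acW wd c) := by
  obtain ⟨α0, β0, α1, β1, αβ, ν0, ν1, p10, p20, q10, q20, n0, p11, q11, p12, q12, αp1, αp2, βq1, βq2,
    νn, D1, D2, Dn, l1, l2, ln, m1, m2, mn, d2, dn, yn1⟩ := g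
  have hw := eq_div_of_mul_eq (mul_ne_zero β0 l1) e.ew
  have hxb := eq_div_of_mul_eq (mul_ne_zero p10 β0) e.exb
  have hyb := eq_div_of_mul_eq p10 e.eyb
  have hy3 := eq_div_of_mul_eq m2 e.ey3
  have hyn := eq_div_of_mul_eq mn e.eyn
  have w0 : w ≠ 0 := hw ▸ div_ne_zero m1 (mul_ne_zero β0 l1)
  have yb0 : yb ≠ 0 := hyb ▸ div_ne_zero w0 p10
  have n1 : ∀ {x y z : K}, z ≠ 0 → x - y = z ∨ y - x = z → x - y ≠ 0 := fun hz h => by
    rcases h with h | h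
    · rwa [h]
    · rw [← neg_sub, h]; exact neg_ne_zero.2 hz
  have n2 : ∀ {x y z : K}, z ≠ 0 → x * y = z → x ≠ 0 := fun hz h e => hz (by rw [← h, e, zero_mul])
  have w1 : w - 1 ≠ 0 := n2 (y := β * ll α p1 q1 β)
    (neg_ne_zero.2 (mul_ne_zero (mul_ne_zero p11 αβ) βq1))
    (by rw [sub_mul, e.ew]; simp only [mm, ll]; ring)
  have yb1 : yb - 1 ≠ 0 := n2 (y := p1 * β * ll α p1 q1 β) (mul_ne_zero (mul_ne_zero p11 β1) D1)
    (by rw [← mm_y]; linear_combination β * ll α p1 q1 β * e.eyb + e.ew)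
  have wyb : yb - w ≠ 0 := n2 (y := -p1) (mul_ne_zero p11 w0) (by linear_combination -e.eyb)
  have y31 : y3 - 1 ≠ 0 := n2 (y := ll α p1 q1 β * mm α p1 q2 β) (mul_ne_zero q12
    (mul_ne_zero (mul_ne_zero p11 αp1) (mul_ne_zero β1 αβ))) (by
      have : ll α p1 q2 β * mm α p1 q1 β - ll α p1 q1 β * mm α p1 q2 β =
        (q1 - q2) * ((p1 - 1) * (α - p1) * ((β - 1) * (α - β))) := by simp only [mm, ll]; ring
      linear_combination ll α p1 q1 β * e.ey3 + ll α p1 q2 β * e.ew + this)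
  have y3b : yb - y3 ≠ 0 := n2 (y := p1 * mm α p1 q2 β) (mul_ne_zero w0
    (mul_ne_zero (mul_ne_zero p11 β1) D2)) (by
      rw [← mm_y]; linear_combination mm α p1 q2 β * e.eyb - p1 * e.ey3)
  have ynb : yb - yn ≠ 0 := n2 (y := p1 * mm α p1 n ν) (mul_ne_zero w0
    (mul_ne_zero (mul_ne_zero p11 ν1) Dn)) (by
      rw [← mm_y]; linear_combination mm α p1 n ν * e.eyb - p1 * e.eyn)
  let F1 : Fin 10 → Fin 4 → K := ![![p1, 1, α, p1], ![p2, 1, α, p2], ![q1, 1, β, q1],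
    ![q2, 1, β, q2], ![1, 1, 0, 1], ![0, 1, 1, 0], ![1, 1, 1, 0], ![1, 0, 0, 1], ![1, 1, 1, 1],
    ![n, 1, ν, n]]
  let F2 : Fin 10 → Fin 4 → K := ![![1, 1, α, p1], ![p2, 1, α, p2],
    ![α * q1 * ll α p1 q1 β, mm α p1 q1 β, β, q1], ![α * q2 * ll α p1 q2 β, mm α p1 q2 β, β, q2],
    ![1, 1, 0, 1], ![0, 1, 1, 0], ![1, 1, 1, 0], ![1, 0, 0, 1], ![α, 1, 1, 1],
    ![α * n * ll α p1 n ν, mm α p1 n ν, ν, n]]
  let F3 : Fin 10 → Fin 4 → K := ![![1, 1, yb, 1], ![p2, 1, w, 1],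
    ![α * q1 * ll α p1 q1 β, mm α p1 q1 β, 1, 1], ![α * q2 * ll α p1 q2 β, mm α p1 q2 β, y3, 1],
    ![1, 1, 0, 1], ![0, 1, 0, 1], ![1, 1, 1, 0], ![1, 0, 1, 0], ![α, 1, w, 1],
    ![α * n * ll α p1 n ν, mm α p1 n ν, yn, 1]]
  let F4 : Fin 10 → Fin 4 → K := ![![xb, 1, yb, 1], ![x2, 1, w, 1], ![1, 1, 1, 1], ![x3, 1, y3, 1],
    ![1, 1, 0, 1], ![0, 1, 0, 1], ![1, 1, 1, 0], ![1, 0, 1, 0], ![u, 1, w, 1], ![xn, 1, yn, 1]]
  have t0 : ∀ l, Pt (F0 α β p1 p2 q1 q2 n ν l) := by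
    refine fin10 ?_ ?_ ?_ ?_ ?_ ?_ ?_ ?_ ?_ ?_ <;> simp [F0, Pt]
  have t1 : ∀ l, Pt (F1 l) := by
    refine fin10 ?_ ?_ ?_ ?_ ?_ ?_ ?_ ?_ ?_ ?_ <;> simp [F1, Pt, α0, β0, ν0]
  have t2 : ∀ l, Pt (F2 l) := by
    refine fin10 ?_ ?_ ?_ ?_ ?_ ?_ ?_ ?_ ?_ ?_ <;> simp [F2, Pt, α0, β0, ν0, m1, m2, mn]
  have t3 : ∀ l, Pt (F3 l) := by
    refine fin10 ?_ ?_ ?_ ?_ ?_ ?_ ?_ ?_ ?_ ?_ <;> simp [F3, Pt, m1, m2, mn]
  have t4 : ∀ l, Pt (F4 l) := by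
    refine fin10 ?_ ?_ ?_ ?_ ?_ ?_ ?_ ?_ ?_ ?_ <;> simp [F4, Pt]
  have s1 := shc' (i := 5) (j := 7) (by decide) (-1) (by simp) t0 t1 (by simp [F0, dy])
    (by simp [F1, dy]) (by simp [F0, dx])
    (by refine fin10 ?_ ?_ ?_ ?_ ?_ ?_ ?_ ?_ ?_ ?_ <;> simp [F0, F1, dx]) (by
      refine fin10 ?_ ?_ ?_ ?_ ?_ ?_ ?_ ?_ ?_ ?_ <;>
        simp [F0, F1, dx, dy, p10, p20, q10, q20, n0, mul_comm])
  have s2 := shc (i := 0) (j := 8) (by decide) α α0 t1 t2 (n1 p11 (by simp [F1]))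
    (n1 α1 (by simp [F2])) (n1 αp1 (by simp [F1]))
    (by refine fin10 ?_ ?_ ?_ ?_ ?_ ?_ ?_ ?_ ?_ ?_ <;> simp [F1, F2, dy, mul_comm]) (by
      refine fin10 (fun h => absurd rfl h) (fun _ _ => ⟨n1 (mul_ne_zero α0 p12) ?_, n1 αp2 ?_, ?_⟩)
        (fun _ _ => ⟨n1 D1 ?_, n1 βq1 ?_, ?_⟩) (fun _ _ => ⟨n1 D2 ?_, n1 βq2 ?_, ?_⟩)
        (fun _ _ => ⟨n1 α0 ?_, n1 one_ne_zero ?_, ?_⟩) (fun _ _ => ⟨n1 p10 ?_, n1 one_ne_zero ?_, ?_⟩)
        (fun _ _ => ⟨n1 p10 ?_, n1 one_ne_zero ?_, ?_⟩) (fun _ _ => ⟨n1 α0 ?_, n1 one_ne_zero ?_, ?_⟩)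
        (fun _ h => absurd rfl h) (fun _ _ => ⟨n1 Dn ?_, n1 νn ?_, ?_⟩) <;>
      simp only [F1, F2, dx, dy, ll, mm, Matrix.cons_val] <;>
      first | ring1 | (left; trivial) | (left; ring1) | (right; ring1))
  have s3 := shc' (i := 5) (j := 7) (by decide) (-α / w) (by simp [α0, w0]) t2 t3
    (by simp [F2, dy]) (by simp [F3, dy]) (by simp [F2, dx])
    (by refine fin10 ?_ ?_ ?_ ?_ ?_ ?_ ?_ ?_ ?_ ?_ <;> simp [F2, F3, dx, mul_comm]) (by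
      refine fin10 ?_ ?_ ?_ ?_ ?_ ?_ ?_ ?_ ?_ ?_ <;> intro h1 h2 <;>
        first
        | exact absurd rfl h1
        | exact absurd rfl h2
        | (refine ⟨by simp [F2, F3, dx, α0, p20, q10, q20, n0, l1, l2, ln],
            by simp [F2, F3, dx, m1, m2, mn], ?_⟩
           simp only [F2, F3, dx, dy, Matrix.cons_val, hyb, hy3, hyn, hw]
           try field_simp
           try ring1))
  have s4 := shc (i := 2) (j := 0) (by decide) (mm α p1 q1 β)⁻¹ (inv_ne_zero m1) t3 t4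
    (n1 (mul_ne_zero (mul_ne_zero α1 q11) D1) (by simp [F3, ← mm_x]))
    (n2 (y := -(p1 * β)) D1 (by simp only [F4, dx, Matrix.cons_val]; linear_combination -e.exb))
    (n1 yb1 (by simp [F3]))
    (by refine fin10 ?_ ?_ ?_ ?_ ?_ ?_ ?_ ?_ ?_ ?_ <;> simp [F3, F4, dy, mul_comm]) (by
      refine fin10 (fun _ h => absurd rfl h)
        (fun _ _ => ⟨n1 w1 ?_, n1 wyb ?_, k1 β0 p10 l1 m1 e.ew e.exb e.eyb e.ex2⟩)
        (fun h => absurd rfl h) (fun _ _ => ⟨n1 y31 ?_, n1 y3b ?_, k9 (xn := x3) β0 p10 l1 m1 m2 e.ew e.exb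
          e.eyb (by rw [n4_d4]; linear_combination β * d4 α β p1 q1 q2 β * e.ex3) e.ey3⟩)
        (fun _ _ => ⟨n1 one_ne_zero ?_, n1 yb0 ?_, ?_⟩)
        (fun _ _ => ⟨n1 one_ne_zero ?_, n1 yb0 ?_, ?_⟩)
        (fun _ _ => ⟨n1 one_ne_zero ?_, n1 one_ne_zero ?_, ?_⟩)
        (fun _ _ => ⟨n1 one_ne_zero ?_, n1 one_ne_zero ?_, ?_⟩)
        (fun _ _ => ⟨n1 w1 ?_, n1 wyb ?_, k8 β0 p10 l1 m1 e.ew e.exb e.eyb e.eu⟩)
        (fun _ _ => ⟨n1 yn1 ?_, n1 ynb ?_, k9 β0 p10 l1 m1 mn e.ew e.exb e.eyb e.exn e.eyn⟩) <;>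
      simp only [F3, F4, dx, dy, Matrix.cons_val] <;>
      first
      | (left; trivial)
      | (left; ring1)
      | (right; ring1)
      | ring1
      | (simp only [hxb, hyb, hw]
         field_simp
         try ring1))
  refine (s1 c).trans ((s2 _).trans ((s3 _).trans ((s4 _).trans (Submodule.finrank_mono
    (H0_le fun l => .inr ⟨![8, 1, 0, 3, 4, 5, 6, 7, 2, 9] l, le_rfl, ?_⟩)))))
  revert l
  refine fin10 ?_ ?_ ?_ ?_ ?_ ?_ ?_ ?_ ?_ ?_ <;> simp [F4, FX, Pt, dx, dy]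

end Pool.Agent.Lib.MP_d03834_ag.Core.N11X
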