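import Pool.Agent.Lib.MP_d03834_ag.Core.N11F
import Pool.Agent.Lib.MP_d03834_ag.Core.N11X

/-! Eleven points: from the chart of the four lines to the honest frame, then the fold. -/

set_option autoImplicit false

namespace Pool.Agent.Lib.MP_d03834_ag.Core.X11

open Module

variable {O k K : Type} [CommRing O] [Field k] [Field K] [Algebra O K] {π : O →+* k}

/-- from the chart of the four lines -/
theorem word (hπ : ∀ z, π z ≠ 0 → IsUnit z) {be p nu al p1 p2 q1 q2 : K} {r0 b0 c0 n0 : k}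
    (G : Gen r0 b0 c0 n0) (g13 : b0 ≠ 1) (ha : Rs π al (b0 * r0 ^ 2)) (hb : Rs π be b0)
    (hp : Rs π p c0) (hn : Rs π nu n0) (k1 : Rs π p1 c0) (k2 : Rs π p2 c0) (l1 : Rs π q1 c0)
    (l2 : Rs π q2 c0) (pp : p1 ≠ p2) (qq : q1 ≠ q2) (c : BW.Cls (Fin 10)) :
    BW.rk (N11X.F0 al be p1 p2 q1 q2 p nu) c ≤
      BW.rk (pX al be p nu p1 p2 q1 q2) (BW.acW N11X.wd c) := by
  obtain ⟨g0, g1, g2, g3, g4, g5, g6, g7, g8, g9, g10, g11, g12⟩ := G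
  have s1 : 1 - c0 ≠ 0 := sub_ne_zero.2 g4.symm
  have s2 : 1 - r0 ^ 2 ≠ 0 := sub_ne_zero.2 g1.symm
  have s3 : b0 - b0 * r0 ^ 2 ≠ 0 := fun e => mul_ne_zero g2 s2 (by linear_combination e)
  have s4 : n0 - b0 * r0 ^ 2 ≠ 0 := sub_ne_zero.2 g9
  have s5 : n0 - b0 ≠ 0 := sub_ne_zero.2 g8
  have s6 : b0 * r0 ^ 2 - 1 ≠ 0 := sub_ne_zero.2 g10
  have i0 : 1 / c0 ≠ 0 := one_div_ne_zero g3
  have L1 := rs_L hπ ha k1 l1 hb g3 s1 s3
  have Ln := rs_L hπ ha k1 hp hn g3 s1 s4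
  have m1 : N11X.mm al p1 q1 be ≠ 0 :=
    (rs_M ha k1 l1 hb).ne hπ (mul_ne_zero (mul_ne_zero g3 s1) s3)
  have m2 : N11X.mm al p1 q2 be ≠ 0 :=
    (rs_M ha k1 l2 hb).ne hπ (mul_ne_zero (mul_ne_zero g3 s1) s3)
  have mn : N11X.mm al p1 p nu ≠ 0 :=
    (rs_M ha k1 hp hn).ne hπ (mul_ne_zero (mul_ne_zero g3 s1) s4)
  have eL : ∀ x y : K, qL al p1 x y = N11X.ll al p1 x y / N11X.mm al p1 x y := fun _ _ => rfl
  have nl : ∀ {x y : K}, qL al p1 x y ≠ 0 → N11X.ll al p1 x y ≠ 0 := fun h e =>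
    h (by rw [eL, e, zero_div])
  have n1 := nl (L1.ne hπ i0)
  have n2 := nl ((rs_L hπ ha k1 l2 hb g3 s1 s3).ne hπ i0)
  have nn := nl (Ln.ne hπ i0)
  have z1 := k1.ne hπ g3
  have zb := hb.ne hπ g2
  have Xb : Rs π (al * q1 * qL al p1 q1 be) (b0 * r0 ^ 2) :=
    ((ha.mul l1).mul L1).of_eq (by field_simp)
  have Yb : Rs π (p1 * be * qL al p1 q1 be) b0 := ((k1.mul hb).mul L1).of_eq (by field_simp)
  have Xn : Rs π (al * p * qL al p1 p nu) (b0 * r0 ^ 2) :=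
    ((ha.mul hp).mul Ln).of_eq (by field_simp)
  have Yn : Rs π (p1 * nu * qL al p1 p nu) n0 := ((k1.mul hn).mul Ln).of_eq (by field_simp)
  have D2 := ((rs_D Xb Yb k2 k1).of_eq (a' := -((1 - c0) * (b0 - b0 * r0 ^ 2))) (by ring)).ne hπ
    (neg_ne_zero.2 (mul_ne_zero s1 s3))
  have Dn := ((rs_D Xb Yb Xn Yn).of_eq (a' := -((b0 * r0 ^ 2 - 1) * (n0 - b0))) (by ring)).ne hπ
    (neg_ne_zero.2 (mul_ne_zero s6 s5))
  have o := Rs.one (π := π) (K := K)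
  have lr : ∀ {x y : K} {b : k}, Rs π x c0 → Rs π y b →
      Rs π (N11X.ll al p1 x y) ((1 - c0) * (b - b0 * r0 ^ 2)) := fun hx hy =>
    ((((hy.mul (o.sub k1)).sub (hx.mul (o.sub ha))).add k1).sub ha).of_eq (by ring)
  refine N11X.le ⟨div_mul_cancel₀ _ zb, ?_, ?_, div_mul_cancel₀ _ (mul_ne_zero z1 zb), ?_, ?_, ?_,
    ?_, ?_⟩ ⟨ha.ne hπ (mul_ne_zero g2 (pow_ne_zero _ g0)), zb, (ha.sub o).ne hπ s6,
    (hb.sub o).ne hπ (sub_ne_zero.2 g13), (ha.sub hb).ne hπ fun e => s3 (by linear_combination -e),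
    hn.ne hπ g5, (hn.sub o).ne hπ (sub_ne_zero.2 g6), z1, k2.ne hπ g3, l1.ne hπ g3, l2.ne hπ g3,
    hp.ne hπ g3, (k1.sub o).ne hπ (sub_ne_zero.2 g4), (l1.sub o).ne hπ (sub_ne_zero.2 g4),
    sub_ne_zero.2 pp, sub_ne_zero.2 qq, (ha.sub k1).ne hπ (sub_ne_zero.2 g11.symm),
    (ha.sub k2).ne hπ (sub_ne_zero.2 g11.symm), (hb.sub l1).ne hπ (sub_ne_zero.2 g12.symm),
    (hb.sub l2).ne hπ (sub_ne_zero.2 g12.symm), (hn.sub hp).ne hπ (sub_ne_zero.2 g7),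
    ((k1.mul hb).sub (ha.mul l1)).ne hπ fun e => mul_ne_zero g3 s3 (by linear_combination e),
    ((k1.mul hb).sub (ha.mul l2)).ne hπ fun e => mul_ne_zero g3 s3 (by linear_combination e),
    ((k1.mul hn).sub (ha.mul hp)).ne hπ fun e => mul_ne_zero g3 s4 (by linear_combination e),
    n1, n2, nn, m1, m2, mn,
    (((ha.sub o).mul (l1.sub o)).sub ((hb.sub o).mul (k2.sub o))).ne hπ fun e =>
      mul_ne_zero s1 s3 (by linear_combination e),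
    ((((((k1.mul (ha.sub o)).mul (l1.sub o)).mul hn).mul (lr hp hn)).sub
      ((((ha.mul (k1.sub o)).mul (hb.sub o)).mul hp).mul (lr hp hn))).sub
      ((lr l1 hb).mul (rs_M ha k1 hp hn))).ne hπ fun e =>
        mul_ne_zero (mul_ne_zero (mul_ne_zero (mul_ne_zero g3 (pow_ne_zero 2 s1)) s4) s6) s5
          (by linear_combination -e),
    (((hn.mul Ln).div hπ (hb.mul L1) (mul_ne_zero g2 i0)).sub o).ne hπ fun e => s5 (by
      field_simp at e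
      linear_combination e)⟩ c
  · rw [eL]
    field_simp
  · rw [sX, add_mul, ← eq_sub_iff_add_eq', div_mul_eq_mul_div, div_eq_iff D2, sD, eL]
    field_simp
    simp only [N11X.ll, N11X.mm]
    ring
  · field_simp
  · rw [eL]
    field_simp
  · rw [eL, eL]
    field_simp
  · rw [sX, add_mul, ← eq_sub_iff_add_eq', div_mul_eq_mul_div, div_eq_iff Dn, sD, eL, eL,
      N11X.n4, N11X.d4]
    generalize N11X.ll al p1 p nu = x at *
    generalize N11X.mm al p1 p nu = y at *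
    field_simp
    simp only [N11X.ll, N11X.mm]
    ring
  · rw [eL, eL]
    field_simp

/-- the word and the fold -/
theorem fold_F0 [IsDomain O] [ValuationRing O] [IsFractionRing O K]
    (hπ : ∀ z, π z ≠ 0 → IsUnit z) {t : O} (ht0 : t ≠ 0) (ht : π t = 0)
    {r be p nu P1 P2 Q1 Q2 al p1 p2 q1 q2 : K} {r0 b0 c0 n0 x2 y2 : k} (G : Gen r0 b0 c0 n0)
    (g13 : b0 ≠ 1) (hr : Rs π r r0) (hb : Rs π be b0) (hp : Rs π p c0) (hn : Rs π nu n0)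
    (hP1 : Rs π P1 (b0 * r0 ^ 2 - n0)) (hP2 : Rs π P2 x2) (hQ1 : Rs π Q1 (r0 * (b0 - n0)))
    (hQ2 : Rs π Q2 y2) (pp : P1 ≠ P2) (qq : Q1 ≠ Q2) (ea : al = be * r ^ 2)
    (e1 : p1 = p + algebraMap O K t * P1) (e2 : p2 = p + algebraMap O K t * P2)
    (f1 : q1 = p + algebraMap O K t * Q1) (f2 : q2 = p + algebraMap O K t * Q2)
    {c : BW.Cls (Fin 10)} {a b κ ε : ℤ} {m : Fin 10 → ℤ} (hc : BW.acW N11X.wd c = (a, b, m))
    (hε : ε = 0 ∨ ε = 1) (h0 : 0 ≤ κ + ε) (h1 : a ≤ m 4 + m 5) (h2 : a ≤ m 6 + m 7)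
    (h3 : b + κ ≤ m 0 + m 2 + m 9) :
    (BW.rk (N11X.F0 al be p1 p2 q1 q2 p nu) c : ℤ) ≤ ε * ((κ + 2) / 2) +
      finrank k (H0 (a - (κ + ε)) (b - 2 * ((κ + ε + 1) / 2)) (p0 r0 b0 c0 n0) (rd (κ + ε) m)) := by
  have T : Rs π (algebraMap O K t) 0 := (Rs.alg t).of_eq ht
  have t0 : algebraMap O K t ≠ 0 := (map_ne_zero_iff _ (IsFractionRing.injective O K)).2 ht0
  have nr : ∀ {x y : K} {c : k}, Rs π y c → x = p + algebraMap O K t * y → Rs π x c0 :=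
    fun h e => e ▸ (hp.add (T.mul h)).of_eq (by ring)
  have w := word hπ G g13 (ea ▸ hb.mul (hr.pow 2) : Rs π al _) hb hp hn (nr hP1 e1) (nr hP2 e2)
    (nr hQ1 f1) (nr hQ2 f2)
    (fun e => pp (mul_left_cancel₀ t0 (add_left_cancel (e1.symm.trans (e.trans e2)))))
    (fun e => qq (mul_left_cancel₀ t0 (add_left_cancel (f1.symm.trans (e.trans f2))))) c
  rw [hc] at w
  exact (Int.ofNat_le.2 w).trans
    (fold hπ ht0 ht G hr hb hp hn hP1 hP2 hQ1 hQ2 ea e1 e2 f1 f2 hε h0 h1 h2 h3)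

end Pool.Agent.Lib.MP_d03834_ag.Core.X11
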