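import Pool.Agent.Lib.MP_d03834_ag.Core.T5G

/-! The collision of three points with a fibre between two arms, without coordinates, over a
valuation ring; the case in which only one point moves. -/

set_option autoImplicit false

namespace Pool.Agent.Lib.MP_d03834_ag.Core

open Module

/-- all points may move; u is the fibre, w is off the fibre, the arms are exact -/
theorem t5v {O k K ι : Type} [CommRing O] [IsDomain O] [ValuationRing O] [Field k] [Field K]
    [Algebra O K] [IsFractionRing O K] {π : O →+* k} (hπ : ∀ x, π x ≠ 0 → IsUnit x) {t : O}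
    (ht0 : t ≠ 0) (ht : π t = 0) {P : ι → Fin 4 → O} {e : Fin 3 → ι} {a b : Fin 2 → ι}
    (h : T5G (fun l c => π (P l c)) e a b) (ha1 : dy (P (a 0)) (P (a 1)) = 0)
    (hb1 : dy (P (b 0)) (P (b 1)) = 0) {u w : Fin 4 → O} (huw : π (dx u w) ≠ 0) {η : Fin 3 → O}
    (hη : ∀ i, dx u (P (e i)) = t * η i) {α β γ : k} (hα : α ≠ 0) (hγ : γ ≠ 0)
    (cur : ∀ i, π (η i) * π (dy (P (a 0)) (P (e i))) * π (dy (P (b 0)) (P (e i))) =
      π (dx w (P (e i))) * (α * π (dy (P (a 0)) (P (e i))) ^ 2 +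
        β * π (dy (P (a 0)) (P (e i))) * π (dy (P (b 0)) (P (e i))) +
        γ * π (dy (P (b 0)) (P (e i))) ^ 2))
    {p q κ ε : ℤ} {m : ι → ℤ} (hε : ε = 0 ∨ ε = 1) (h0 : 0 ≤ κ + ε)
    (ha : p ≤ m (a 0) + m (a 1)) (hb : p ≤ m (b 0) + m (b 1))
    (he : q + κ ≤ m (e 0) + m (e 1) + m (e 2)) :
    (finrank K (H0 p q (fun l c => algebraMap O K (P l c)) m) : ℤ) ≤ ε * ((κ + 2) / 2) +
      finrank k (H0 (p - (κ + ε)) (q - 2 * ((κ + ε + 1) / 2)) (fun l c => π (P l c))
        (redG (fun l c => π (P l c)) (e 0) (a 0) (b 0) (κ + ε) m)) := by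
  classical
  let f := algebraMap O K
  let Q : ι → Fin 4 → k := fun l c => π (P l c)
  let U : Fin 4 → k := fun c => π (u c)
  let W : Fin 4 → k := fun c => π (w c)
  have f0 : ∀ x, π x ≠ 0 → f x ≠ 0 := fun x hx => ((hπ x hx).map f).ne_zero
  have πx : ∀ v v' : Fin 4 → O, π (dx v v') = dx (fun c => π (v c)) fun c => π (v' c) :=
    fun v v' => by simp only [dx, map_sub, map_mul]
  have πy : ∀ v v' : Fin 4 → O, π (dy v v') = dy (fun c => π (v c)) fun c => π (v' c) :=
    fun v v' => by simp only [dy, map_sub, map_mul]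
  have ei : Function.Injective e := fun i j hij => by
    by_contra hn
    exact h.ey i j hn (by rw [hij, dy_self])
  have UW : dx U W ≠ 0 := πx u w ▸ huw
  have Ue : ∀ i, dx U (Q (e i)) = 0 := fun i => by
    rw [← πx, hη, map_mul, ht, zero_mul]
  have We : ∀ i, π (dx w (P (e i))) ≠ 0 := fun i => by
    rw [πx]
    exact dx_ne45 (by rw [dx_comm]; exact neg_ne_zero.2 UW) (Ue i) (h.pt _)
  have Ul : ∀ l, dx U (Q l) = 0 ↔ dx (Q (e 0)) (Q l) = 0 := fun l => by
    have h1 := Ue 0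
    constructor <;> intro h2 <;> by_contra h3
    · have h4 : dx (Q l) U = 0 := by rw [dx_comm, h2, neg_zero]
      have h5 : dx (Q (e 0)) U = 0 := by rw [dx_comm, h1, neg_zero]
      rw [dx] at UW h4 h5
      refine UW ?_
      have h6 : U 0 = 0 := mul_left_cancel₀ h3 (by
        rw [dx]; linear_combination Q l 0 * h5 - Q (e 0) 0 * h4)
      have h7 : U 1 = 0 := mul_left_cancel₀ h3 (by
        rw [dx]; linear_combination Q l 1 * h5 - Q (e 0) 1 * h4)
      rw [h6, h7]
      ring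
    · exact dx_ne45 h3 (by rw [dx_comm, h2, neg_zero]) (h.pt _) h1
  have Ae : ∀ i, π (dy (P (a 0)) (P (e i))) ≠ 0 := fun i => by rw [πy]; exact h.ea i
  have Be : ∀ i, π (dy (P (b 0)) (P (e i))) ≠ 0 := fun i => by rw [πy]; exact h.eb i
  choose x1 hx1 using fun i => (hπ _ (We i)).exists_right_inv
  choose y1 hy1 using fun i => (hπ _ (Be i)).exists_right_inv
  let ξ : Fin 3 → O := fun i => η i * x1 i
  let y : Fin 3 → O := fun i => dy (P (a 0)) (P (e i)) * y1 i
  have hξ : ∀ i, ξ i * dx w (P (e i)) = η i := fun i => by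
    simp only [ξ]
    linear_combination η i * hx1 i
  have hy : ∀ i, y i * dy (P (b 0)) (P (e i)) = dy (P (a 0)) (P (e i)) := fun i => by
    simp only [y]
    linear_combination dy (P (a 0)) (P (e i)) * hy1 i
  have y0 : ∀ i, π (y i) ≠ 0 := fun i e0 => Ae i (by rw [← hy, map_mul, e0, zero_mul])
  let G : ι → Fin 4 → O := fun l => ![dx u (P l), dx w (P l), dy (P (a 0)) (P l),
    dy (P (b 0)) (P l)]
  have d1 : U 1 * -W 0 - -U 0 * W 1 ≠ 0 := fun e0 => UW (by rw [dx]; linear_combination -e0)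
  have d2 : Q (a 0) 3 * -Q (b 0) 2 - -Q (a 0) 2 * Q (b 0) 3 ≠ 0 := fun e0 =>
    h.ab (by rw [dy]; linear_combination -e0)
  have eG : ∀ l, (fun c => π (G l c)) = act (U 1) (-U 0) (W 1) (-W 0) (Q (a 0) 3) (-Q (a 0) 2)
      (Q (b 0) 3) (-Q (b 0) 2) (Q l) := fun l => funext fun c => by
    fin_cases c <;> simp [G, act, dx, dy, U, W, Q] <;> ring
  have hG : ∀ l, Pt fun c => π (G l c) := fun l => eG l ▸ (h.pt l).act45 d1 d2
  let T : ι → Fin 4 → O := Function.extend e (fun i => ![t * ξ i, 1, y i, 1]) G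
  have Te : ∀ i, T (e i) = ![t * ξ i, 1, y i, 1] := fun i => ei.extend_apply _ _ _
  have To : ∀ l, ¬(∃ i, e i = l) → T l = G l := fun l hl => Function.extend_apply' _ _ _ hl
  have ya : ∀ s, dy (P (a 0)) (P (a s)) = 0 := fun s => by
    fin_cases s
    exacts [dy_self _, ha1]
  have yb : ∀ s, dy (P (b 0)) (P (b s)) = 0 := fun s => by
    fin_cases s
    exacts [dy_self _, hb1]
  have Ta : ∀ s, T (a s) = G (a s) := fun s => To _ fun ⟨i, hi⟩ => Ae i (by rw [hi, ya, map_zero])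
  have Tb : ∀ s, T (b s) = G (b s) := fun s => To _ fun ⟨i, hi⟩ => Be i (by rw [hi, yb, map_zero])
  have G0 : ∀ l, π (G l 0) = dx U (Q l) := fun l => πx _ _
  have G2 : ∀ l, π (G l 2) = dy (Q (a 0)) (Q l) := fun l => πy _ _
  have G3 : ∀ l, π (G l 3) = dy (Q (b 0)) (Q l) := fun l => πy _ _
  have dG : ∀ l l', (dx (fun i => π (G l i)) fun i => π (G l' i)) = -dx U W * dx (Q l) (Q l') :=
    fun l l' => by
      rw [eG, eG]
      simp [act, dx]
      ring
  have a2 : ∀ s, T (a s) 2 = 0 := fun s => by rw [Ta]; exact ya s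
  have b3 : ∀ s, T (b s) 3 = 0 := fun s => by rw [Tb]; exact yb s
  have hT : T5 π t T e a b ξ y α β γ := by
    refine ⟨⟨fun l => ?_, fun s => by rw [a2, map_zero], fun s => by rw [b3, map_zero],
      fun s => by rw [Ta, G0, Ne, Ul]; exact h.ax s, fun s => by rw [Tb, G0, Ne, Ul]; exact h.bx s,
      ?_, ?_⟩, ⟨y0, fun i j hij e0 => ?_, fun i => ?_, hα, hγ⟩, Te, a2, b3⟩
    · by_cases hl : ∃ i, e i = l
      · obtain ⟨i, rfl⟩ := hl
        simp [Te, Pt]
      · simpa only [To l hl] using hG l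
    · simp only [Ta, dG]
      exact mul_ne_zero (neg_ne_zero.2 UW) h.aa
    · simp only [Tb, dG]
      exact mul_ne_zero (neg_ne_zero.2 UW) h.bb
    · refine mul_ne_zero h.ab (h.ey i j hij) ?_
      have h1 := congrArg π (hy i)
      have h2 := congrArg π (hy j)
      rw [map_mul] at h1 h2
      rw [← show π (y i) = π (y j) from e0] at h2
      simp only [dy, map_sub, map_mul] at h1 h2 ⊢
      linear_combination (π (P (b 0) 3) * π (P (e i) 2) - π (P (b 0) 2) * π (P (e i) 3)) * h2 -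
        (π (P (b 0) 3) * π (P (e j) 2) - π (P (b 0) 2) * π (P (e j) 3)) * h1
    · have h1 := cur i
      rw [← hy i, ← hξ i, map_mul π (ξ i), map_mul π (y i)] at h1
      refine mul_left_cancel₀ (mul_ne_zero (We i) (pow_ne_zero 2 (Be i))) ?_
      linear_combination h1
  have hP : ∀ l, Pt fun i => f (P l i) := fun l =>
    ⟨(h.pt l).1.imp (f0 _) (f0 _), (h.pt l).2.imp (f0 _) (f0 _)⟩
  have key := t5_int (K := K) hπ ht0 ht hT hε h0 ha hb he
  have up : finrank K (H0 p q (fun l i => f (P l i)) m) ≤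
      finrank K (H0 p q (fun l i => f (T l i)) m) := by
    have g1 : f (u 1) * -f (w 0) - -f (u 0) * f (w 1) ≠ 0 := fun e0 =>
      f0 _ huw (by rw [dx, map_sub, map_mul, map_mul]; linear_combination -e0)
    have g2 : f (P (a 0) 3) * -f (P (b 0) 2) - -f (P (a 0) 2) * f (P (b 0) 3) ≠ 0 := fun e0 =>
      f0 (dy (P (a 0)) (P (b 0))) (by rw [πy]; exact h.ab)
        (by rw [dy, map_sub, map_mul, map_mul]; linear_combination -e0)
    refine (rk_lin45 g1 g2 p q hP m).trans (Submodule.finrank_mono (H0_le fun l =>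
      .inr ⟨l, le_rfl, ?_, ?_⟩))
    · exact ⟨(hT.arms.pt l).1.imp (f0 _) (f0 _), (hT.arms.pt l).2.imp (f0 _) (f0 _)⟩
    by_cases hl : ∃ i, e i = l
    · obtain ⟨i, rfl⟩ := hl
      have h1 := congrArg f (hξ i)
      have h2 := congrArg f (hy i)
      have h3 := congrArg f (hη i)
      simp only [dx, dy, map_mul, map_sub] at h1 h2 h3
      constructor
      · simp [Te, act, dx]
        linear_combination f t * h1 - h3
      · simp [Te, act, dy]
        linear_combination h2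
    · constructor
      · simp [To l hl, act, dx, G]
        ring
      · simp [To l hl, act, dy, G]
        ring
  have dn : finrank k (H0 (p - (κ + ε)) (q - 2 * ((κ + ε + 1) / 2)) (fun l i => π (T l i))
      (red (κ + ε).toNat (fun l i => π (T l i)) m)) ≤
      finrank k (H0 (p - (κ + ε)) (q - 2 * ((κ + ε + 1) / 2)) Q
        (redG Q (e 0) (a 0) (b 0) (κ + ε) m)) := by
    refine le_trans (Submodule.finrank_mono (H0_le fun l => .inr ⟨l, ?_, eG l ▸ hG l, ?_⟩))
      (rk_lin d1 d2 _ _ Q _)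
    · by_cases hl : ∃ i, e i = l
      · obtain ⟨i, rfl⟩ := hl
        have h1 : dx (Q (e 0)) (Q (e i)) = 0 := h.ex i
        have h2 : dy (Q (a 0)) (Q (e i)) ≠ 0 := h.ea i
        have h3 : dy (Q (b 0)) (Q (e i)) ≠ 0 := h.eb i
        simp [redG, red, Te, ht, y0 i, h1, h2, h3]
        omega
      · simp only [redG, red, To l hl, G0, G2, G3, Ul]
        split_ifs <;> omega
    rw [← eG]
    by_cases hl : ∃ i, e i = l
    · obtain ⟨i, rfl⟩ := hl
      refine ⟨?_, ?_⟩
      · change π (T (e i) 1) * π (G (e i) 0) - π (T (e i) 0) * π (G (e i) 1) = 0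
        simp [Te, G0, Ue i, ht]
      · change π (T (e i) 3) * π (dy (P (a 0)) (P (e i))) -
          π (T (e i) 2) * π (dy (P (b 0)) (P (e i))) = 0
        rw [← hy i]
        simp [Te]
    · simp only [To l hl]
      exact ⟨dx_self _, dy_self _⟩
  exact (Int.ofNat_le.2 up).trans (key.trans (add_le_add_right (Int.ofNat_le.2 dn) _))

/-- only the point e 2 leaves the fibre -/
theorem t5v1 {O k K ι : Type} [CommRing O] [IsDomain O] [ValuationRing O] [Field k] [Field K]
    [Algebra O K] [IsFractionRing O K] {π : O →+* k} (hπ : ∀ x, π x ≠ 0 → IsUnit x) {t : O}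
    (ht0 : t ≠ 0) (ht : π t = 0) {P : ι → Fin 4 → O} {e : Fin 3 → ι} {a b : Fin 2 → ι}
    (h : T5G (fun l c => π (P l c)) e a b) (ha1 : dy (P (a 0)) (P (a 1)) = 0)
    (hb1 : dy (P (b 0)) (P (b 1)) = 0) (h1 : dx (P (e 0)) (P (e 1)) = 0) {η : O} (hη0 : π η ≠ 0)
    (hη : dx (P (e 0)) (P (e 2)) = t * η)
    {p q κ ε : ℤ} {m : ι → ℤ} (hε : ε = 0 ∨ ε = 1) (h0 : 0 ≤ κ + ε)
    (ha : p ≤ m (a 0) + m (a 1)) (hb : p ≤ m (b 0) + m (b 1))
    (he : q + κ ≤ m (e 0) + m (e 1) + m (e 2)) :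
    (finrank K (H0 p q (fun l c => algebraMap O K (P l c)) m) : ℤ) ≤ ε * ((κ + 2) / 2) +
      finrank k (H0 (p - (κ + ε)) (q - 2 * ((κ + ε + 1) / 2)) (fun l c => π (P l c))
        (redG (fun l c => π (P l c)) (e 0) (a 0) (b 0) (κ + ε) m)) := by
  have πx : ∀ v v' : Fin 4 → O, π (dx v v') = dx (fun c => π (v c)) fun c => π (v' c) :=
    fun v v' => by simp only [dx, map_sub, map_mul]
  have πy : ∀ v v' : Fin 4 → O, π (dy v v') = dy (fun c => π (v c)) fun c => π (v' c) :=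
    fun v v' => by simp only [dy, map_sub, map_mul]
  let A : Fin 3 → k := fun i => π (dy (P (a 0)) (P (e i)))
  let B : Fin 3 → k := fun i => π (dy (P (b 0)) (P (e i)))
  have hA : ∀ i, A i ≠ 0 := fun i => by simp only [A, πy]; exact h.ea i
  have hB : ∀ i, B i ≠ 0 := fun i => by simp only [B, πy]; exact h.eb i
  have hD : ∀ i j, i ≠ j → A i * B j - A j * B i ≠ 0 := fun i j hij e0 => by
    refine mul_ne_zero h.ab (h.ey i j hij) ?_
    simp only [A, B, dy, map_sub, map_mul] at e0 ⊢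
    linear_combination e0
  have hW : π (dx (P (a 0)) (P (e 2))) ≠ 0 := by
    rw [πx]
    exact dx_ne45 (by rw [dx_comm]; exact neg_ne_zero.2 (h.ax 0)) (h.ex 2) (h.pt _)
  have hN := mul_ne_zero hW (mul_ne_zero (hD 2 0 (by decide)) (hD 2 1 (by decide)))
  obtain ⟨c, hc⟩ : ∃ c, c * (π (dx (P (a 0)) (P (e 2))) * ((A 2 * B 0 - A 0 * B 2) *
    (A 2 * B 1 - A 1 * B 2))) = π η * A 2 * B 2 := ⟨_, div_mul_cancel₀ _ hN⟩
  have c0 : c ≠ 0 := fun e0 => mul_ne_zero (mul_ne_zero hη0 (hA 2)) (hB 2) (by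
    rw [← hc, e0, zero_mul])
  refine t5v hπ ht0 ht h ha1 hb1 (u := P (e 0)) (w := P (a 0)) (by rw [πx]; exact h.ax 0)
    (η := ![0, 0, η]) (fun i => ?_) (α := c * (B 0 * B 1)) (β := -c * (A 0 * B 1 + A 1 * B 0))
    (γ := c * (A 0 * A 1)) (mul_ne_zero c0 (mul_ne_zero (hB 0) (hB 1)))
    (mul_ne_zero c0 (mul_ne_zero (hA 0) (hA 1))) (fun i => ?_) hε h0 ha hb he
  · fin_cases i
    exacts [(dx_self _).trans (mul_zero _).symm, h1.trans (mul_zero _).symm, hη]
  · fin_cases i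
    · change π 0 * A 0 * B 0 = _ * (_ * A 0 ^ 2 + _ * A 0 * B 0 + _ * B 0 ^ 2)
      rw [map_zero]
      ring
    · change π 0 * A 1 * B 1 = _ * (_ * A 1 ^ 2 + _ * A 1 * B 1 + _ * B 1 ^ 2)
      rw [map_zero]
      ring
    · change π η * A 2 * B 2 = π (dx (P (a 0)) (P (e 2))) *
        (_ * A 2 ^ 2 + _ * A 2 * B 2 + _ * B 2 ^ 2)
      linear_combination -hc

/-- constant data, only the point e 2 moves -/
theorem t5g1 {k ι : Type} [Field k] {Q : ι → Fin 4 → k} {e : Fin 3 → ι} {a b : Fin 2 → ι}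
    (h : T5G Q e a b) :
    ∃ PO : ι → Fin 4 → PowerSeries k, (∀ l c, PowerSeries.constantCoeff (PO l c) = Q l c) ∧
      (∀ l, l ≠ e 2 → ∀ c, PO l c = PowerSeries.C (Q l c)) ∧
      ∀ (p q κ ε : ℤ) (m : ι → ℤ), ε = 0 ∨ ε = 1 → 0 ≤ κ + ε → p ≤ m (a 0) + m (a 1) →
        p ≤ m (b 0) + m (b 1) → q + κ ≤ m (e 0) + m (e 1) + m (e 2) →
        (finrank (FractionRing (PowerSeries k)) (H0 p q
          (fun l c => algebraMap (PowerSeries k) (FractionRing (PowerSeries k)) (PO l c)) m) : ℤ) ≤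
          ε * ((κ + 2) / 2) + finrank k (H0 (p - (κ + ε)) (q - 2 * ((κ + ε + 1) / 2)) Q
            (redG Q (e 0) (a 0) (b 0) (κ + ε) m)) := by
  classical
  let π : PowerSeries k →+* k := PowerSeries.constantCoeff
  let c : k →+* PowerSeries k := PowerSeries.C
  let t : PowerSeries k := PowerSeries.X
  have hπ : ∀ x, π x ≠ 0 → IsUnit x := fun x hx =>
    PowerSeries.isUnit_iff_constantCoeff.2 (Ne.isUnit hx)
  have πc : ∀ x, π (c x) = x := fun x => PowerSeries.constantCoeff_C x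
  have πt : π t = 0 := PowerSeries.constantCoeff_X
  let cc : ι → PowerSeries k := fun l => if l = e 2 then t else 0
  let PO : ι → Fin 4 → PowerSeries k := fun l => ![c (Q l 0) + cc l * c (Q (a 0) 0),
    c (Q l 1) + cc l * c (Q (a 0) 1), c (Q l 2), c (Q l 3)]
  have hcc : ∀ l, π (cc l) = 0 := fun l => by
    simp only [cc]
    split_ifs
    exacts [πt, map_zero _]
  have hPO : ∀ l i, π (PO l i) = Q l i := fun l i => by
    fin_cases i <;> simp [PO, πc, hcc]
  have hQ : (fun l i => π (PO l i)) = Q := funext fun l => funext (hPO l)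
  have hy : ∀ l l', dy (PO l) (PO l') = c (dy (Q l) (Q l')) := fun l l' => by simp [PO, dy]
  have n0 : e 0 ≠ e 2 := fun e0 => h.ey 0 2 (by decide) (by rw [e0, dy_self])
  have n1 : e 1 ≠ e 2 := fun e0 => h.ey 1 2 (by decide) (by rw [e0, dy_self])
  refine ⟨PO, hPO, fun l hl i => by fin_cases i <;> simp [PO, cc, hl, c],
    fun p q κ ε m hε h0 ha hb he => ?_⟩
  have key := t5v1 (K := FractionRing (PowerSeries k)) hπ PowerSeries.X_ne_zero πt (P := PO)
    (e := e) (a := a) (b := b) (hQ ▸ h) (by rw [hy, h.ay, map_zero]) (by rw [hy, h.bv, map_zero])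
    (by simpa [PO, cc, n0, n1, dx] using congrArg c (h.ex 1)) (η := c (dx (Q (e 0)) (Q (a 0))))
    (by rw [πc]; exact h.ax 0) (by
      have h2 := congrArg c (h.ex 2)
      simp only [dx, map_sub, map_mul, map_zero] at h2
      simp [PO, cc, n0, dx]
      linear_combination h2) hε h0 ha hb he
  rwa [hQ] at key

end Pool.Agent.Lib.MP_d03834_ag.Core
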