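import Pool.Agent.Lib.MP_d03834_ag.Core.N11C
import Pool.Agent.Lib.MP_d03834_ag.Core.T5G1
import Pool.Agent.Lib.MP_d03834_ag.Core.Tower

/-! Eleven points: the fold along c1 d1 e. -/

set_option autoImplicit false

namespace Pool.Agent.Lib.MP_d03834_ag.Core

open Module

variable {K : Type} [Field K]

theorem g11 [CharZero K] (Q : Fin 10 → Fin 4 → K) (hQ : ∀ l, Pt (Q l)) {e0 e1 : K}
    (h4 : Q 4 1 = 0) (h6 : Q 6 1 = 0) (h8 : Q 8 = ![1, 0, e0, e1])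
    (hx : ∀ l : Fin 7, Q (![0, 1, 2, 3, 5, 7, 9] l) 1 ≠ 0)
    (ha : dy (Q 0) (Q 1) = 0) (hb : dy (Q 2) (Q 3) = 0) (hab : dy (Q 0) (Q 2) ≠ 0)
    (haa : dx (Q 0) (Q 1) ≠ 0) (hbb : dx (Q 2) (Q 3) ≠ 0)
    (hy : ∀ l : Fin 6, dy (Q 0) (Q (![4, 5, 6, 7, 8, 9] l)) ≠ 0 ∧
      dy (Q 2) (Q (![4, 5, 6, 7, 8, 9] l)) ≠ 0)
    (h46 : dy (Q 4) (Q 6) ≠ 0) (h48 : dy (Q 4) (Q 8) ≠ 0) (h68 : dy (Q 6) (Q 8) ≠ 0)
    (P : Fin 10 → Fin 4 → LS K) (hP : ∀ l, l ≠ 8 → P l = fun c => lsC K (Q l c))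
    (hP8 : P 8 = ![1, lsT K, lsC K e0, lsC K e1]) {p q κ ε : ℤ} {m : Fin 10 → ℤ}
    (hε : ε = 0 ∨ ε = 1) (h0 : 0 ≤ κ + ε) (hma : p ≤ m 0 + m 1) (hmb : p ≤ m 2 + m 3)
    (hq : q + κ ≤ m 4 + m 6 + m 8) :
    (finrank (LS K) (H0 p q P m) : ℤ) ≤ ε * ((κ + 2) / 2) +
      finrank K (H0 (p - (κ + ε)) (q - 2 * ((κ + ε + 1) / 2)) Q (tw3 (κ + ε) m)) := by
  let R : Fin 10 → Fin 4 → PowerSeries K := fun l =>
    if l = 8 then ![1, PowerSeries.X, PowerSeries.C e0, PowerSeries.C e1]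
    else fun c => PowerSeries.C (Q l c)
  have sy : ∀ {u v : Fin 4 → K}, dy u v ≠ 0 → dy v u ≠ 0 := fun h e =>
    h (by rw [dy] at e ⊢; linear_combination -e)
  have n4 : Q 4 0 ≠ 0 := (hQ 4).1.resolve_right fun e => e h4
  have x4 : ∀ l, dx (Q 4) (Q l) = 0 ↔ Q l 1 = 0 := fun l => by simp [dx, h4, n4]
  have h81 : Q 8 1 = 0 := by rw [h8]; rfl
  have eQ : (fun l c => psRes K (R l c)) = Q := by
    funext l c
    by_cases h : l = 8
    · subst h
      fin_cases c <;> simp [R, h8]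
    · simp [R, h]
  have eP : (fun l c => algebraMap (PowerSeries K) (LS K) (R l c)) = P := by
    funext l c
    by_cases h : l = 8
    · subst h
      fin_cases c <;> simp [R, hP8, lsC_eq, lsT_eq]
    · simp [R, h, hP l h, lsC_eq]
  have cy : ∀ l l' : Fin 10, l ≠ 8 → l' ≠ 8 → dy (Q l) (Q l') = 0 → dy (R l) (R l') = 0 :=
    fun l l' h h' e => by
      simp only [R, if_neg h, if_neg h', dy, ← map_mul, ← map_sub]
      exact (congrArg PowerSeries.C e).trans (map_zero _)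
  have y0 := hy 0
  have y1 := hy 1
  have y2 := hy 2
  have y3 := hy 3
  have y4 := hy 4
  have y5 := hy 5
  have z0 := hx 0
  have z1 := hx 1
  have z2 := hx 2
  have z3 := hx 3
  have z4 := hx 4
  have z5 := hx 5
  have z6 := hx 6
  simp only [Matrix.cons_val] at y0 y1 y2 y3 y4 y5 z0 z1 z2 z3 z4 z5 z6
  have T : T5G Q ![4, 6, 8] ![0, 1] ![2, 3] := by
    refine ⟨hQ, fun i => ?_, fun i j h => ?_, fun i => ?_, fun i => ?_, ha, hb, hab, fun s => ?_,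
      fun s => ?_, haa, hbb⟩
    · fin_cases i <;> simp [x4, h4, h6, h81]
    · fin_cases i <;> fin_cases j <;>
        first | exact absurd rfl h | assumption | exact sy h46 | exact sy h48 | exact sy h68
    · fin_cases i <;> simp [y0, y2, y4]
    · fin_cases i <;> simp [y0, y2, y4]
    · fin_cases s <;> simp [x4, z0, z1]
    · fin_cases s <;> simp [x4, z2, z3]
  have er : redG Q 4 0 2 (κ + ε) m = tw3 (κ + ε) m := by
    have a1 := dy_ne (sy hab) ha (hQ 1)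
    have a3 := dy_ne hab hb (hQ 3)
    have a0 := sy hab
    clear h8
    funext l
    fin_cases l <;> simp [redG, tw3, dy_self, *]
  have := t5v1 (K := LS K) (P := R) (e := ![4, 6, 8]) (a := ![0, 1]) (b := ![2, 3]) psRes_unit
    PowerSeries.X_ne_zero psRes_X (by rw [eQ]; exact T) (cy 0 1 (by decide) (by decide) ha)
    (cy 2 3 (by decide) (by decide) hb) (by simp [R, dx, h4, h6]) (η := -PowerSeries.C (Q 4 0))
    (by simpa using n4) (by simp [R, dx, h4, mul_comm]) hε h0 hma hmb hq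
  rw [eQ, eP] at this
  rw [← er]
  exact this

end Pool.Agent.Lib.MP_d03834_ag.Core
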