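import Pool.Agent.Lib.MP_d03834_ag.Core.ClH
import Pool.Agent.Lib.MP_d03834_ag.Core.N11C

/-! Eleven points: the double shear at the two chains on the arms. -/

set_option autoImplicit false

namespace Pool.Agent.Lib.MP_d03834_ag.Core

open Polynomial Module Hs

variable {K : Type} [Field K]

namespace H11

/-- the expansion of F in y1, y0 has the coefficients c -/
def Rp (d : ℕ) (c : ℕ → K[X]) (F : Cx K) : Prop :=
  ∀ (R : Type) [CommRing R] [Algebra K R] (x u v : R), MvPolynomial.aeval ![x, 1, u, v] F =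
    ∑ l ∈ Finset.range (d + 1), aeval x (c l) * (v ^ l * u ^ (d - l))

theorem exists_rp {p d : ℕ} {F : Cx K} (h : Bih p d F) :
    ∃ c, Rp d c F ∧ ∀ l, (c l).natDegree ≤ p := by
  obtain ⟨c, h1, h2⟩ := exists_rep one_ne_zero (h.blin 1 0 0 1 1 (-1) 1 0)
  refine ⟨c, fun R _ _ x u v => ?_, h2⟩
  have := h1 R x v (v - u)
  rw [blin_ev] at this
  simpa using this

theorem Rp.dA {d : ℕ} {c : ℕ → K[X]} {F : Cx K} (h : Rp d c F)
    (D : ℕ → K[X]) (hD : ∀ i j, i ≤ j → D j ∣ D i) :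
    (∀ j, D j ∣ (nx ![1, 0] ![0, 1] F).coeff j) ↔ ∀ l, l < d + 1 → D l ∣ c l := by
  rw [← tri D c (fun _ => 1) (d + 1) hD fun l => by simp, nx, h]
  simp [aeval_CX]

theorem Rp.dB {d : ℕ} {c : ℕ → K[X]} {F : Cx K} (h : Rp d c F)
    (D : ℕ → K[X]) (hD : ∀ i j, i ≤ j → D j ∣ D i) :
    (∀ j, D j ∣ (nx ![0, 1] ![1, 0] F).coeff j) ↔ ∀ l, l < d + 1 → D l ∣ c (d - l) := by
  rw [← tri D (fun l => c (d - l)) (fun _ => 1) (d + 1) hD fun l => by simp, nx, h,
    ← Finset.sum_range_reflect]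
  rw [Finset.sum_congr rfl fun l hl => ?_]
  have := Finset.mem_range.1 hl
  rw [Nat.add_sub_cancel, show d - (d - l) = l by omega]
  simp [aeval_CX]

/-- G is the transform of F -/
def Rl (t w : K) (μ ν : ℕ) (F G : Cx K) : Prop :=
  ∀ (R : Type) [CommRing R] [Algebra K R] (x u v : R),
    MvPolynomial.aeval ![x, 1, (u - algebraMap K R t * v) * (x - algebraMap K R 0) ^ 2,
      u * (x - algebraMap K R w) ^ 2] F =
    MvPolynomial.aeval ![x, 1, u, v] G *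
      ((x - algebraMap K R w) ^ μ * (x - algebraMap K R 0) ^ ν)

theorem core {t w : K} (ht : t ≠ 0) (hw : w ≠ 0) {p d a0 a1 b0 b1 : ℤ} {F : Cx K}
    (hF : Bih p d F) (k0 : 0 ≤ a0) (k1 : 0 ≤ a1) (k2 : 0 ≤ b0) (k3 : 0 ≤ b1)
    (hA : ∀ j : ℕ, (X - C w) ^ (a0 - j).toNat * (X - C w) ^ (a1 - j).toNat ∣
      (nx ![1, 0] ![0, 1] F).coeff j)
    (hB : ∀ j : ℕ, (X - C 0) ^ (b0 - j).toNat * (X - C 0) ^ (b1 - j).toNat ∣
      (nx ![0, 1] ![1, 0] F).coeff j) :
    ∃ G, Bih (p + 2 * d - a0 - a1 - b0 - b1) d G ∧ Rl t w (a0 + a1).toNat (b0 + b1).toNat F G ∧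
      (∀ j : ℕ, (X - C 0) ^ (d - b0 - j).toNat * (X - C 0) ^ (d - b1 - j).toNat ∣
        (nx ![0, 1] ![1, 0] G).coeff j) ∧
      ∀ j : ℕ, (X - C w) ^ (d - a0 - j).toNat * (X - C w) ^ (d - a1 - j).toNat ∣
        (nx ![C t, 1] ![1, 0] G).coeff j := by
  by_cases h0 : F = 0
  · exact ⟨0, bih_zero _ _, fun R _ _ x u v => by simp [h0], by simp, by simp⟩
  lift p to ℕ using not_lt.1 fun e => h0 (hF.neg_deg (.inl e))
  lift d to ℕ using not_lt.1 fun e => h0 (hF.neg_deg (.inr e))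
  obtain ⟨c, hc, hd⟩ := exists_rp hF
  rw [hc.dA _ (pw_dvd _ _ _ _)] at hA
  rw [hc.dB _ (pw_dvd _ _ _ _)] at hB
  have h1 : ∀ l : ℕ, ∃ r, l ≤ d → c l = (X - C w) ^ (a0 - l).toNat * (X - C w) ^ (a1 - l).toNat *
      ((X - C 0) ^ (b0 - (d - l : ℕ)).toNat * (X - C 0) ^ (b1 - (d - l : ℕ)).toNat) * r := by
    intro l
    by_cases hl : l ≤ d
    · have h2 := hB (d - l) (by omega)
      rw [show d - (d - l) = l by omega] at h2
      have cp : ∀ i j : ℕ, IsCoprime ((X - C w) ^ i) ((X - C (0 : K)) ^ j) := fun i j =>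
        cop fun e => absurd e hw
      obtain ⟨r, hr⟩ := IsCoprime.mul_dvd (IsCoprime.mul_left ((cp _ _).mul_right (cp _ _))
        ((cp _ _).mul_right (cp _ _))) (hA l (by omega)) h2
      exact ⟨r, fun _ => hr⟩
    · exact ⟨0, fun e => absurd e hl⟩
  choose r hr using h1
  let c' : ℕ → K[X] := fun l => (X - C 0) ^ (d - b0 - l).toNat * (X - C 0) ^ (d - b1 - l).toNat *
    ((X - C w) ^ (d - a0 - (d - l : ℕ)).toNat * (X - C w) ^ (d - a1 - (d - l : ℕ)).toNat) * r l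
  have h2 : ∀ l, l ≤ d → c l * ((X - C w) ^ (2 * l) * (X - C 0) ^ (2 * (d - l))) =
      c' l * ((X - C w) ^ (a0 + a1).toNat * (X - C 0) ^ (b0 + b1).toNat) := fun l hl => by
    have e1 : (X - C w) ^ (a0 - l).toNat * (X - C w) ^ (a1 - l).toNat * (X - C w) ^ (2 * l) =
        (X - C w) ^ (d - a0 - (d - l : ℕ)).toNat * (X - C w) ^ (d - a1 - (d - l : ℕ)).toNat *
          (X - C w) ^ (a0 + a1).toNat := by
      simp only [← pow_add]
      congr 1
      omega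
    have e2 : (X - C (0 : K)) ^ (b0 - (d - l : ℕ)).toNat * (X - C 0) ^ (b1 - (d - l : ℕ)).toNat *
        (X - C 0) ^ (2 * (d - l)) = (X - C 0) ^ (d - b0 - l).toNat *
          (X - C 0) ^ (d - b1 - l).toNat * (X - C 0) ^ (b0 + b1).toNat := by
      simp only [← pow_add]
      congr 1
      omega
    have e3 := congrArg₂ (· * ·) e1 e2
    rw [hr l hl]
    simp only [c']
    linear_combination r l * e3
  obtain ⟨G, hG, hb⟩ := exists_form t (p + 2 * d - a0 - a1 - b0 - b1) d c' fun l hl h3 => by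
    have h4 := congrArg natDegree (h2 l hl)
    have mo : ∀ i j : ℕ, ((X - C w) ^ i * (X - C (0 : K)) ^ j).Monic := fun i j =>
      ((monic_X_sub_C _).pow _).mul ((monic_X_sub_C _).pow _)
    have de : ∀ i j : ℕ, ((X - C w) ^ i * (X - C (0 : K)) ^ j).natDegree = i + j := fun i j => by
      rw [((monic_X_sub_C _).pow _).natDegree_mul ((monic_X_sub_C _).pow _)]
      simp only [natDegree_pow, natDegree_X_sub_C, mul_one]
    rw [natDegree_mul h3 (mo _ _).ne_zero, de] at h4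
    have h6 := natDegree_mul_le (p := c l) (q := (X - C w) ^ (2 * l) * (X - C 0) ^ (2 * (d - l)))
    rw [de] at h6
    have := hd l
    omega
  refine ⟨G, hb, fun R _ _ x u v => ?_, (hG.dA ht _ (pw_dvd _ _ _ _)).2 fun l _ =>
    (dvd_mul_right _ _).mul_right _, (hG.dB ht _ (pw_dvd _ _ _ _)).2 fun l hl => ?_⟩
  · rw [hc, hG, Finset.sum_mul]
    refine Finset.sum_congr rfl fun l hl => ?_
    have h3 := congrArg (aeval x) (h2 l (by have := Finset.mem_range.1 hl; omega))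
    simp only [map_mul, map_pow, map_sub, aeval_X, aeval_C] at h3
    rw [mul_pow, mul_pow, ← pow_mul, ← pow_mul]
    linear_combination u ^ l * (u - algebraMap K R t * v) ^ (d - l) * h3
  · simp only [c']
    rw [show d - (d - l) = l by omega]
    exact (dvd_mul_left _ _).mul_right _

theorem Rl.gam {ι : Type} [Fintype ι] {t w : K} (ht : t ≠ 0) {p d : ℤ} {μ ν : ℕ} {F G : Cx K}
    (h : Rl t w μ ν F G) (hF : Bih p d F) {z : ι → K} {m : ι → ℤ}
    (h1 : ∀ l, z l ≠ 0) (h2 : ∀ l, z l ≠ w) (hD : Dv ![1 - C t * X, 1] ![1, 0] z m F) :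
    Dv ![X ^ 2, C t⁻¹ * (X ^ 2 - (1 - C t * X) * (X - C w) ^ 2)] ![0, 1] z m G := by
  intro j
  have e0 : (C t * C t⁻¹ : K[X]) = 1 := by rw [← map_mul, mul_inv_cancel₀ ht, map_one]
  have e := h K[X][X] (C X) (C (X ^ 2)) (C (C t⁻¹ * (X ^ 2 - (1 - C t * X) * (X - C w) ^ 2)) +
    C (-C t⁻¹ * (X - C w) ^ 2) * X)
  have e1 := hF.scale (R := K[X][X]) 1 (C ((X - C w) ^ 2 * X ^ 2)) (C X) 1
    (C (1 - C t * X) + X) 1
  have e2 := nx_eval ![X ^ 2, C t⁻¹ * (X ^ 2 - (1 - C t * X) * (X - C w) ^ 2)] ![0, 1] G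
    (C X : K[X][X]) (C (-C t⁻¹ * (X - C w) ^ 2) * X)
  have e3 : ((aeval (C X : K[X][X]) : K[X] →ₐ[K] K[X][X]) : K[X] →+* K[X][X]) = C :=
    RingHom.ext aeval_CX
  have e4 : ∀ a : K, (C X : K[X][X]) - algebraMap K K[X][X] a = C (X - C a) := fun a => by simp
  have e5 : nx ![1 - C t * X, 1] ![1, 0] F =
      MvPolynomial.aeval ![C X, 1, (C (1 - C t * X) + X : K[X][X]), 1] F := by simp [nx]
  rw [e3, ← comp] at e2
  simp only [aeval_CX, Matrix.cons_val_zero, Matrix.cons_val_one, map_zero, map_one, mul_zero,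
    add_zero, mul_one] at e2
  rw [one_mul, one_mul, one_pow, one_mul, ← e5] at e1
  have e7 := congrArg (C : K[X] →+* K[X][X]) e0
  rw [e2, e4, e4, show (C (X ^ 2) - algebraMap K K[X][X] t *
      (C (C t⁻¹ * (X ^ 2 - (1 - C t * X) * (X - C w) ^ 2)) + C (-C t⁻¹ * (X - C w) ^ 2) * X)) *
        C (X - C 0) ^ 2 = (C ((X - C w) ^ 2 * X ^ 2) * (C (1 - C t * X) + X) : K[X][X]) by
      simp only [map_mul, map_add, map_sub, map_pow, map_neg, map_one, map_zero,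
        Polynomial.algebraMap_apply, Algebra.algebraMap_self, RingHom.id_apply] at e7 ⊢
      linear_combination (-(C X ^ 2 - (1 - C (C t) * C X) * (C X - C (C w)) ^ 2) +
        (C X - C (C w)) ^ 2 * X) * C X ^ 2 * e7,
    show C (X ^ 2) * C (X - C w) ^ 2 = (C ((X - C w) ^ 2 * X ^ 2) * 1 : K[X][X]) by
      simp only [map_mul, map_pow]; ring, e1] at e
  have e6 := congrArg (coeff · j) e
  simp only [← map_pow, ← map_mul, coeff_mul_C, coeff_C_mul, comp_C_mul_X_coeff] at e6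
  refine Rgr.dvd_cancel _ _ _
    (D := (-C t⁻¹ * (X - C w) ^ 2) ^ j * ((X - C w) ^ μ * (X - C 0) ^ ν)) (fun l _ => ?_) ?_
  · have k1 := h1 l
    have k2 := sub_ne_zero.2 (h2 l)
    simp [k1, k2, ht]
  · rw [mul_comm, ← mul_assoc, ← e6]
    exact (hD j).mul_left _

theorem rank_le {t w : K} (ht : t ≠ 0) {p d : ℤ} {μ ν : ℕ} {V W : Submodule K (Cx K)}
    [FiniteDimensional K W] (hV : ∀ F ∈ V, Bih p d F) (h : ∀ F ∈ V, ∃ G ∈ W, Rl t w μ ν F G) :
    finrank K V ≤ finrank K W := by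
  let R := FractionRing (Cx K)
  let ι := algebraMap (Cx K) R
  have hι : Function.Injective ι := IsFractionRing.injective _ _
  have h1 : ι (MvPolynomial.X 1) ≠ 0 := (map_ne_zero_iff _ hι).2 (MvPolynomial.X_ne_zero _)
  obtain ⟨x, hx⟩ : ∃ x, ι (MvPolynomial.X 1) * x = ι (MvPolynomial.X 0) :=
    ⟨_, mul_div_cancel₀ _ h1⟩
  have h2 : ∀ a : K, x - algebraMap K R a ≠ 0 := fun a e => by
    have e1 : ι (MvPolynomial.X 0) = ι (MvPolynomial.X 1 * MvPolynomial.C a) := by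
      rw [← hx, sub_eq_zero.1 e, map_mul]
      rfl
    simpa using congrArg (MvPolynomial.eval ![a + 1, 1, 0, 0]) (hι e1)
  let φ : Cx K →ₗ[K] R × R → R := LinearMap.pi fun e =>
    (MvPolynomial.aeval ![x, 1, (e.1 - algebraMap K R t * e.2) * (x - algebraMap K R 0) ^ 2,
      e.1 * (x - algebraMap K R w) ^ 2]).toLinearMap
  let ψ : Cx K →ₗ[K] R × R → R := LinearMap.pi fun e => (LinearMap.mulRight K
    ((x - algebraMap K R w) ^ μ * (x - algebraMap K R 0) ^ ν)).comp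
      (MvPolynomial.aeval ![x, 1, e.1, e.2]).toLinearMap
  refine le_trans ?_ (Submodule.finrank_map_le ψ W)
  refine LinearMap.finrank_le_finrank_of_injective (f := φ.restrict (p := V) (q := W.map ψ)
    fun F hF => ?_) (LinearMap.ker_eq_bot.1 (LinearMap.ker_eq_bot'.2 fun F hF => ?_))
  · obtain ⟨G, hG, e⟩ := h F hF
    exact ⟨G, hG, funext fun y => (e R x y.1 y.2).symm⟩
  obtain ⟨u, hu⟩ : ∃ u, u * (x - algebraMap K R w) ^ 2 = ι (MvPolynomial.X 3) :=
    ⟨_, div_mul_cancel₀ _ (pow_ne_zero _ (h2 w))⟩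
  obtain ⟨u', hu'⟩ : ∃ u', u' * (x - algebraMap K R 0) ^ 2 = ι (MvPolynomial.X 2) :=
    ⟨_, div_mul_cancel₀ _ (pow_ne_zero _ (h2 0))⟩
  obtain ⟨v, hv⟩ : ∃ v, algebraMap K R t * v = u - u' :=
    ⟨_, mul_div_cancel₀ _ ((_root_.map_ne_zero _).2 ht)⟩
  have e2 : MvPolynomial.aeval ![x, 1, (u - algebraMap K R t * v) * (x - algebraMap K R 0) ^ 2,
      u * (x - algebraMap K R w) ^ 2] F.1 = 0 := congrFun (congrArg Subtype.val hF) (u, v)
  have e3 := (hV F F.2).scale (ι (MvPolynomial.X 1)) 1 x 1 (ι (MvPolynomial.X 2))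
    (ι (MvPolynomial.X 3))
  rw [hv, sub_sub_cancel, hu, hu'] at e2
  rw [e2, mul_zero, hx, mul_one, one_mul, one_mul] at e3
  have e4 : (MvPolynomial.aeval ![ι (MvPolynomial.X 0), ι (MvPolynomial.X 1), ι (MvPolynomial.X 2),
      ι (MvPolynomial.X 3)] : Cx K →ₐ[K] R) = IsScalarTower.toAlgHom K (Cx K) R :=
    MvPolynomial.algHom_ext fun i => by fin_cases i <;> simp [ι]
  rw [e4] at e3
  exact Subtype.ext (hι (e3.trans (map_zero ι).symm))

end H11

/-- the double shear from the middle frame to the shape -/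
theorem h11 {t w : K} {z : Fin 5 → K} {g : Fin 2 → Fin 3 → K} (ht : t ≠ 0) (hw : w ≠ 0)
    (hz : ∀ l, z l ≠ 0) (hzw : ∀ l, z l ≠ w) (hg : ∀ l, qv (g 0) (z l) ≠ 0)
    (hd : ∏ l, (Polynomial.X - Polynomial.C (z l)) ∣
      (qd (g 0) - Polynomial.C t * qd (g 1)) * Polynomial.X ^ 2 -
        (1 - Polynomial.C t * Polynomial.X) * (Polynomial.X - Polynomial.C w) ^ 2 * qd (g 0))
    {p q : ℤ} {a b : Fin 2 → ℤ} {e : Fin 5 → ℤ} {m : Ix → ℤ} (ha : ∀ s, 0 ≤ a s ∧ a s ≤ q)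
    (hb : ∀ s, 0 ≤ b s ∧ b s ≤ q) (e1 : ∀ l, m (.inl l) = e l)
    (e2 : ∀ s, m (.inr (.inl s)) = q - b s) (e3 : ∀ s, m (.inr (.inr s)) = q - a s) :
    finrank K (M11 t w z p q a b e) ≤
      finrank K (HD t g z ![0, 0] ![w, w] (p + 2 * q - a 0 - a 1 - b 0 - b 1) q m) := by
  have : FiniteDimensional K (HD t g z ![0, 0] ![w, w] (p + 2 * q - a 0 - a 1 - b 0 - b 1) q m) :=
    Submodule.finiteDimensional_of_le (S₂ := MvPolynomial.weightedHomogeneousSubmodule K bw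
      (p + 2 * q - a 0 - a 1 - b 0 - b 1, q)) fun _ hF => (mem_HD.1 hF).1
  refine H11.rank_le (w := w) (μ := (a 0 + a 1).toNat) (ν := (b 0 + b 1).toNat) ht
    (fun F hF => hF.1.1.1) fun F hF => ?_
  obtain ⟨⟨⟨k1, k2⟩, k3⟩, k4⟩ := hF
  obtain ⟨G, g1, g2, g3, g4⟩ := H11.core ht hw k1 (ha 0).1 (ha 1).1 (hb 0).1 (hb 1).1
    (fun j => by
      simpa only [Fin.prod_univ_two, Matrix.cons_val_zero, Matrix.cons_val_one] using k3 j)
    fun j => by
      simpa only [Fin.prod_univ_two, Matrix.cons_val_zero, Matrix.cons_val_one] using k2 j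
  refine ⟨G, mem_HD.2 ⟨g1, ?_, fun j => ?_, fun j => ?_⟩, g2⟩
  · simp only [e1]
    refine (g2.gam ht k1 hz hzw k4).regraph g1 (fun l => by simpa using hz l)
      (fun l => Or.inl (by simpa [qd_eval] using hg l)) ?_
    have e0 : (C t * C t⁻¹ : K[X]) = 1 := by rw [← map_mul, mul_inv_cancel₀ ht, map_one]
    convert hd.mul_left (C t⁻¹) using 1
    simp only [Matrix.cons_val_zero, Matrix.cons_val_one]
    linear_combination qd (g 1) * X ^ 2 * e0
  · simpa only [Fin.prod_univ_two, Matrix.cons_val_zero, Matrix.cons_val_one, e2] using g3 j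
  · simpa only [Fin.prod_univ_two, Matrix.cons_val_zero, Matrix.cons_val_one, e3] using g4 j

end Pool.Agent.Lib.MP_d03834_ag.Core
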