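import Pool.Agent.Lib.MP_d03834_ag.Core.BiPlane
import Pool.Agent.Lib.MP_d03834_ag.Core.Crem

/-! Eleven points of equal multiplicity in the chart in which the rational quartic is a fibre. -/

set_option autoImplicit false

namespace Pool.Agent.Lib.MP_d03834_ag.Core

open Module

/-- the multiplicities in the top chart; the points 1, 3, 4, 6 approach a fibre -/
def n11T (d m : ℤ) : Fin 10 → ℤ :=
  ![3 * d - 8 * m, d - 2 * m, 3 * d - 8 * m, m, d - 2 * m, 3 * d - 8 * m, m, 2 * d - 5 * m,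
    d - 2 * m, 5 * d - 14 * m]

theorem n11_plane {K : Type} [Field K] [Algebra ℂ K] {d m r : ℕ} (h5 : 5 * m ≤ 2 * d)
    (Q : Fin 10 → Fin 4 → K) (hQ : ∀ l, Pt (Q l))
    (h : finrank K (H0 (5 * d - 13 * m) (6 * d - 16 * m) Q (n11T d m)) ≤ r) :
    Hle d (fun _ : Fin 11 => m) r := by
  let μ1 : Fin 11 → ℤ := ![d - 2 * m, d - 2 * m, d - 2 * m, m, m, m, m, m, m, m, m]
  let μ2 : Fin 11 → ℤ :=
    ![2 * d - 5 * m, d - 2 * m, d - 2 * m, d - 2 * m, d - 2 * m, m, m, m, m, m, m]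
  let μ3 : Fin 11 → ℤ := ![2 * d - 5 * m, d - 2 * m, d - 2 * m, d - 2 * m, d - 2 * m,
    3 * d - 8 * m, 3 * d - 8 * m, 3 * d - 8 * m, m, m, m]
  have h3 : Hle (6 * d - 15 * m) (fun j => (μ3 j).toNat) r := by
    refine hle_chartZ (fun o : Option (Fin 10) => o.elim 1 ![5, 2, 6, 8, 3, 7, 9, 0, 4, 10])
      (by decide) 9 Q hQ (n11T d m) ?_ ?_ ?_ (fun i hi => ?_) h
    · simp [μ3]
      omega
    · simp [μ3]
      omega
    · simp [μ3, n11T]
      omega
    · fin_cases i <;> simp [μ3, n11T] at hi ⊢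
  have h2 : Hle (3 * d - 6 * m) (fun j => (μ2 j).toNat) r := by
    refine Hle.crem (b := ![5, 6, 7]) (by decide) ?_ (fun i => ?_) (fun q hq => ?_) h3
    · simp [μ2]
      omega
    · fin_cases i <;> simp [μ2, μ3] <;> omega
    · fin_cases q <;> simp [μ2, μ3] at hq ⊢
  have h1 : Hle (2 * d - 3 * m) (fun j => (μ1 j).toNat) r := by
    refine Hle.crem (b := ![0, 3, 4]) (by decide) ?_ (fun i => ?_) (fun q hq => ?_) h2
    · simp [μ1]
      omega
    · fin_cases i <;> simp [μ1, μ2] <;> omega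
    · fin_cases q <;> simp [μ1, μ2] at hq ⊢
  have h0 : Hle d (fun j : Fin 11 => ((fun _ => (m : ℤ)) j).toNat) r := by
    refine Hle.crem (b := ![0, 1, 2]) (by decide) ?_ (fun i => ?_) (fun q hq => ?_) h1
    · omega
    · fin_cases i <;> simp [μ1] <;> omega
    · fin_cases q <;> simp [μ1] at hq ⊢
  simpa using h0

end Pool.Agent.Lib.MP_d03834_ag.Core
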