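import Pool.Agent.Lib.MP_d03834_ag.Core.BiWordB
import Pool.Agent.Lib.MP_d03834_ag.Core.TwoSh

/-! Eleven points: the word from the shape frame to the limit of the frame X. -/

set_option autoImplicit false

namespace Pool.Agent.Lib.MP_d03834_ag.Core.N11Sh

open Module BW

variable {K : Type} [Field K]

theorem all9 {Q : Fin 9 → Prop} (h0 : Q 0) (h1 : Q 1) (h2 : Q 2) (h3 : Q 3) (h4 : Q 4) (h5 : Q 5)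
    (h6 : Q 6) (h7 : Q 7) (h8 : Q 8) : ∀ l, Q l := by
  intro l
  fin_cases l
  exacts [h0, h1, h2, h3, h4, h5, h6, h7, h8]

theorem nz {x y : K} (e : x = y) (h : y ≠ 0) : x ≠ 0 := e ▸ h

theorem rk_step {w : Letter (Fin 9)} {P Q : Fin 9 → Fin 4 → K} (h : Valid w P) (hP : ∀ l, Pt (P l))
    (hQ : ∀ l, Pt (Q l)) (hx : ∀ l, dx (mv w P l) (Q l) = 0) (hy : ∀ l, dy (mv w P l) (Q l) = 0)
    (u : Cls (Fin 9)) : rk P u = rk Q (ac w u) := by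
  rw [rk_mv h hP, rk, rk, H0_congr (h.pt hP) hQ hx hy]

/-- the frame after 0 letters -/
def F0 (t a b : K) : Fin 9 → Fin 4 → K
  | 0 => ![a, 1, (t ^ 2 + a * b), (a + b)]
  | 1 => ![a ^ 2 * b * (t - 1), (t + a ^ 2 - 2 * a), a * (t - 1) * (t + a ^ 2 - 2 * a) * (t ^ 2 + a * b), (t ^ 2 * a ^ 3 * b + t ^ 2 - 2 * t * a ^ 3 * b + 2 * t * a ^ 2 - 4 * t * a + a ^ 4 + a ^ 3 * b - 4 * a ^ 3 + 4 * a ^ 2)]
  | 2 => ![1, 1, (t ^ 2 + a * b), (a * b + 1)]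
  | 3 => ![(t + a ^ 2 - 2 * a), a * (t - 1), a * (t - 1) * (t + a ^ 2 - 2 * a) * (t ^ 2 + a * b), (t ^ 2 * a ^ 3 * b + t ^ 2 - 2 * t * a ^ 3 * b + 2 * t * a ^ 2 - 4 * t * a + a ^ 4 + a ^ 3 * b - 4 * a ^ 3 + 4 * a ^ 2)]
  | 4 => ![b, 1, (t ^ 2 + a * b), (a + b)]
  | 5 => ![0, 1, 0, 1]
  | 6 => ![t, 1, 0, 1]
  | 7 => ![t, 1, t, 1]
  | 8 => ![-(t * a * b * (a - 1) * (t * a + t - 2 * a)), (t ^ 3 - t ^ 2 * a ^ 2 * b + t ^ 2 * a ^ 2 - 3 * t ^ 2 * a - t * a ^ 3 + t * a ^ 2 * b + 2 * t * a ^ 2 + t * a * b + a ^ 3 * b - 2 * a ^ 2 * b), t, 1]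

/-- the frame after 1 letters -/
def F1 (t a b : K) : Fin 9 → Fin 4 → K
  | 0 => ![a, 1, -((a - 1) * (t * a + t - 2 * a)), a * (b - 1)]
  | 1 => ![a ^ 2 * b * (t - 1), (t + a ^ 2 - 2 * a), 1, 0]
  | 2 => ![1, 1, 0, 1]
  | 3 => ![(t + a ^ 2 - 2 * a), a * (t - 1), 0, 1]
  | 4 => ![b, 1, -(t * a * b - t - a ^ 2 - a * b + 2 * a), b * (a - 1)]
  | 5 => ![0, 1, (t + a ^ 2 - 2 * a), a * b]
  | 6 => ![t, 1, a * (t - 1) ^ 2 * (t + a ^ 2 - 2 * a), (t ^ 2 - t * a ^ 2 * b + t * a ^ 2 - 2 * t * a + a ^ 2 * b)]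
  | 7 => ![t, 1, (t ^ 2 * a - t * a - t - a ^ 2 + 2 * a), (t - a * b)]
  | 8 => ![-(t * a * b * (a - 1) * (t * a + t - 2 * a)), (t ^ 3 - t ^ 2 * a ^ 2 * b + t ^ 2 * a ^ 2 - 3 * t ^ 2 * a - t * a ^ 3 + t * a ^ 2 * b + 2 * t * a ^ 2 + t * a * b + a ^ 3 * b - 2 * a ^ 2 * b), (t ^ 3 + t ^ 2 * a ^ 3 * b - t ^ 2 * a ^ 2 * b + t ^ 2 * a ^ 2 - t ^ 2 * a * b - 3 * t ^ 2 * a - 2 * t * a ^ 3 * b - t * a ^ 3 + 3 * t * a ^ 2 * b + 2 * t * a ^ 2 + t * a * b + a ^ 3 * b - 2 * a ^ 2 * b), a * b * (t - 1) * (t - a * b)]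

/-- the frame after 2 letters -/
def F2 (t a b : K) : Fin 9 → Fin 4 → K
  | 0 => ![1, 0, -((a - 1) * (t * a + t - 2 * a)), a * (b - 1)]
  | 1 => ![-((t - a * b) * (t * a * b - t - a ^ 2 - a * b + 2 * a)), (b - 1) * (t ^ 2 - t * a ^ 2 * b + t * a ^ 2 - 2 * t * a + a ^ 2 * b), 1, 0]
  | 2 => ![-(t ^ 2 * a - t * a - t - a ^ 2 + 2 * a), (t - 1) * (t * a + t - 2 * a), 0, 1]
  | 3 => ![-1, 1, 0, 1]
  | 4 => ![-1, 1, -(t * a * b - t - a ^ 2 - a * b + 2 * a), b * (a - 1)]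
  | 5 => ![-1, 1, (t + a ^ 2 - 2 * a), a * b]
  | 6 => ![1, 0, a * (t - 1) ^ 2 * (t + a ^ 2 - 2 * a), (t ^ 2 - t * a ^ 2 * b + t * a ^ 2 - 2 * t * a + a ^ 2 * b)]
  | 7 => ![0, 1, (t ^ 2 * a - t * a - t - a ^ 2 + 2 * a), (t - a * b)]
  | 8 => ![-((t + a ^ 2 - 2 * a) * (t - a * b)), (t ^ 2 - t * a ^ 2 * b + t * a ^ 2 - 2 * t * a + a ^ 2 * b), (t ^ 3 + t ^ 2 * a ^ 3 * b - t ^ 2 * a ^ 2 * b + t ^ 2 * a ^ 2 - t ^ 2 * a * b - 3 * t ^ 2 * a - 2 * t * a ^ 3 * b - t * a ^ 3 + 3 * t * a ^ 2 * b + 2 * t * a ^ 2 + t * a * b + a ^ 3 * b - 2 * a ^ 2 * b), a * b * (t - 1) * (t - a * b)]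

/-- the frame after 3 letters -/
def F3 (t a b : K) : Fin 9 → Fin 4 → K
  | 0 => ![1, 0, a * (t - 1), (a - 1) * (t ^ 2 - t * a ^ 2 * b + t * a ^ 2 - 2 * t * a + a ^ 2 * b)]
  | 1 => ![-((t - a * b) * (t * a * b - t - a ^ 2 - a * b + 2 * a)), (b - 1) * (t ^ 2 - t * a ^ 2 * b + t * a ^ 2 - 2 * t * a + a ^ 2 * b), 1, 0]
  | 2 => ![-(t ^ 2 * a - t * a - t - a ^ 2 + 2 * a), (t - 1) * (t * a + t - 2 * a), 0, 1]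
  | 3 => ![-1, 1, 1, 0]
  | 4 => ![-1, 1, -1, (t * a * b - t - a ^ 2 - a * b + 2 * a)]
  | 5 => ![-1, 1, a, (a - 1) * (t + a ^ 2 - 2 * a)]
  | 6 => ![1, 0, -(t * a + t - 2 * a), a * (t - 1) * (b - 1) * (t + a ^ 2 - 2 * a)]
  | 7 => ![0, 1, -1, (t * a * b - t - a ^ 2 - a * b + 2 * a)]
  | 8 => ![-((t + a ^ 2 - 2 * a) * (t - a * b)), (t ^ 2 - t * a ^ 2 * b + t * a ^ 2 - 2 * t * a + a ^ 2 * b), a * (t - 1), (a - 1) * (t ^ 2 - t * a ^ 2 * b + t * a ^ 2 - 2 * t * a + a ^ 2 * b)]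

/-- the frame after 4 letters -/
def F4 (t a b : K) : Fin 9 → Fin 4 → K
  | 0 => ![1, 0, a * (t - 1), (a - 1) * (t ^ 2 - t * a ^ 2 * b + t * a ^ 2 - 2 * t * a + a ^ 2 * b)]
  | 1 => ![a * b * (t - 1) * (t - a) ^ 2, (t ^ 2 - t * a ^ 2 * b + t * a ^ 2 - 2 * t * a + a ^ 2 * b), 1, 0]
  | 2 => ![(t - a) ^ 2, a * (t - 1), 0, 1]
  | 3 => ![0, 1, 1, 0]
  | 4 => ![0, 1, -1, (t * a * b - t - a ^ 2 - a * b + 2 * a)]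
  | 5 => ![1, 0, a, (a - 1) * (t + a ^ 2 - 2 * a)]
  | 6 => ![0, 1, -(t * a + t - 2 * a), a * (t - 1) * (b - 1) * (t + a ^ 2 - 2 * a)]
  | 7 => ![(t - a), 1, -1, (t * a * b - t - a ^ 2 - a * b + 2 * a)]
  | 8 => ![b * (t - a) ^ 3, (t ^ 2 - t * a ^ 2 * b + t * a ^ 2 - 2 * t * a + a ^ 2 * b), a * (t - 1), (a - 1) * (t ^ 2 - t * a ^ 2 * b + t * a ^ 2 - 2 * t * a + a ^ 2 * b)]

/-- the frame after 5 letters -/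
def F5 (t a b : K) : Fin 9 → Fin 4 → K
  | 0 => ![1, 0, 1, 0]
  | 1 => ![a * b * (t - 1) * (t - a) ^ 2, (t ^ 2 - t * a ^ 2 * b + t * a ^ 2 - 2 * t * a + a ^ 2 * b), 1, 0]
  | 2 => ![(t - a) ^ 2, a * (t - 1), (t * a * b - t - a ^ 2 - a * b + 2 * a), a * (t - 1) * (t * a ^ 2 * b - t - a ^ 2 * b - a ^ 2 + 2 * a)]
  | 3 => ![0, 1, 0, 1]
  | 4 => ![0, 1, (t * a * b - t - a ^ 2 - a * b + 2 * a), a * (t - 1) * (t * a ^ 2 * b - t - a ^ 2 * b - a ^ 2 + 2 * a)]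
  | 5 => ![1, 0, (t + a ^ 2 - 2 * a), a * (t * a ^ 2 * b - t - a ^ 2 * b - a ^ 2 + 2 * a)]
  | 6 => ![0, 1, (b - 1) * (t + a ^ 2 - 2 * a), (t - a) * (t * a ^ 2 * b - t - a ^ 2 * b - a ^ 2 + 2 * a)]
  | 7 => ![(t - a), 1, (b - 1) * (t + a ^ 2 - 2 * a), (t - a) * (t * a ^ 2 * b - t - a ^ 2 * b - a ^ 2 + 2 * a)]
  | 8 => ![b * (t - a) ^ 3, (t ^ 2 - t * a ^ 2 * b + t * a ^ 2 - 2 * t * a + a ^ 2 * b), 0, 1]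

/-- the frame after 6 letters -/
def F6 (t a b : K) : Fin 9 → Fin 4 → K
  | 0 => ![b * (t - a) ^ 2, (t ^ 2 - t * a ^ 2 * b + t * a ^ 2 - 2 * t * a + a ^ 2 * b), 1, 0]
  | 1 => ![(t - a) * (t * a * b - t - a ^ 2 - a * b + 2 * a), (a - 1) * (t ^ 2 - t * a ^ 2 * b + t * a ^ 2 - 2 * t * a + a ^ 2 * b), 1, 0]
  | 2 => ![b * (a - 1) * (t - a), (t * a * b - t - a ^ 2 - a * b + 2 * a), (t * a * b - t - a ^ 2 - a * b + 2 * a), a * (t - 1) * (t * a ^ 2 * b - t - a ^ 2 * b - a ^ 2 + 2 * a)]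
  | 3 => ![1, 1, 0, 1]
  | 4 => ![1, 1, (t * a * b - t - a ^ 2 - a * b + 2 * a), a * (t - 1) * (t * a ^ 2 * b - t - a ^ 2 * b - a ^ 2 + 2 * a)]
  | 5 => ![b * (t - a) ^ 2, (t ^ 2 - t * a ^ 2 * b + t * a ^ 2 - 2 * t * a + a ^ 2 * b), (t + a ^ 2 - 2 * a), a * (t * a ^ 2 * b - t - a ^ 2 * b - a ^ 2 + 2 * a)]
  | 6 => ![1, 1, (b - 1) * (t + a ^ 2 - 2 * a), (t - a) * (t * a ^ 2 * b - t - a ^ 2 * b - a ^ 2 + 2 * a)]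
  | 7 => ![0, 1, (b - 1) * (t + a ^ 2 - 2 * a), (t - a) * (t * a ^ 2 * b - t - a ^ 2 * b - a ^ 2 + 2 * a)]
  | 8 => ![1, 0, 0, 1]

/-- the frame after 7 letters -/
def F7 (t a b : K) : Fin 9 → Fin 4 → K
  | 0 => ![b * (t - a) ^ 2, (t ^ 2 - t * a ^ 2 * b + t * a ^ 2 - 2 * t * a + a ^ 2 * b), (t - a) * (t * a * b - t - a ^ 2 - a * b + 2 * a), (a - 1) * (t ^ 2 - t * a ^ 2 * b + t * a ^ 2 - 2 * t * a + a ^ 2 * b)]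
  | 1 => ![(t - a) * (t * a * b - t - a ^ 2 - a * b + 2 * a), (a - 1) * (t ^ 2 - t * a ^ 2 * b + t * a ^ 2 - 2 * t * a + a ^ 2 * b), (t - a) * (t * a * b - t - a ^ 2 - a * b + 2 * a), (a - 1) * (t ^ 2 - t * a ^ 2 * b + t * a ^ 2 - 2 * t * a + a ^ 2 * b)]
  | 2 => ![b * (a - 1) * (t - a), (t * a * b - t - a ^ 2 - a * b + 2 * a), 1, 1]
  | 3 => ![1, 1, 1, 0]
  | 4 => ![1, 1, 1, 1]
  | 5 => ![b * (t - a) ^ 2, (t ^ 2 - t * a ^ 2 * b + t * a ^ 2 - 2 * t * a + a ^ 2 * b), (t - a * b) * (t * a * b - t - a ^ 2 - a * b + 2 * a), (a - 1) * (t ^ 2 - t * a ^ 2 * b + t * a ^ 2 - 2 * t * a + a ^ 2 * b)]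
  | 6 => ![1, 1, 0, 1]
  | 7 => ![0, 1, 0, 1]
  | 8 => ![1, 0, 1, 0]

/-- the factors which do not vanish -/
structure Gen (t a b : K) : Prop where
  f0 : t ≠ 0
  f1 : a ≠ 0
  f2 : b ≠ 0
  f3 : t - 1 ≠ 0
  f4 : a - 1 ≠ 0
  f5 : b - 1 ≠ 0
  f6 : a - b ≠ 0
  f7 : t - a ≠ 0
  f8 : t - b ≠ 0
  f10 : t + a ^ 2 - 2 * a ≠ 0
  f11 : t ^ 2 + a * b ≠ 0
  f13 : t - a * b ≠ 0
  f22 : t * a + t - 2 * a ≠ 0
  f25 : t * a * b - t - a ^ 2 - a * b + 2 * a ≠ 0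
  f26 : t * a ^ 2 * b - t - a ^ 2 * b - a ^ 2 + 2 * a ≠ 0
  f27 : t ^ 2 * a ^ 3 * b - t ^ 2 - 2 * t * a ^ 3 * b - 2 * t * a ^ 2 + 4 * t * a - a ^ 4 + a ^ 3 * b + 4 * a ^ 3 - 4 * a ^ 2 ≠ 0
  f28 : t ^ 2 - t * a ^ 2 * b + t * a ^ 2 - 2 * t * a + a ^ 2 * b ≠ 0
  f29 : t ^ 2 * a - t * a - t - a ^ 2 + 2 * a ≠ 0
  f30 : t ^ 3 + t ^ 2 * a ^ 3 * b - t ^ 2 * a ^ 2 * b + t ^ 2 * a ^ 2 - t ^ 2 * a * b - 3 * t ^ 2 * a - 2 * t * a ^ 3 * b - t * a ^ 3 + 3 * t * a ^ 2 * b + 2 * t * a ^ 2 + t * a * b + a ^ 3 * b - 2 * a ^ 2 * b ≠ 0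
  f33 : t ^ 2 + t * a ^ 2 - t * a * b - 2 * t * a + a * b ≠ 0

variable {t a b : K}

theorem pt0 (h : Gen t a b) : ∀ l, Pt (F0 t a b l) :=
  all9 ⟨.inr (one_ne_zero), .inl h.f11⟩
    ⟨.inr h.f10, .inl ((mul_ne_zero (mul_ne_zero (mul_ne_zero h.f1 h.f3) h.f10) h.f11))⟩
    ⟨.inr (one_ne_zero), .inl h.f11⟩
    ⟨.inr ((mul_ne_zero h.f1 h.f3)), .inl ((mul_ne_zero (mul_ne_zero (mul_ne_zero h.f1 h.f3) h.f10) h.f11))⟩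
    ⟨.inr (one_ne_zero), .inl h.f11⟩
    ⟨.inr (one_ne_zero), .inr (one_ne_zero)⟩
    ⟨.inr (one_ne_zero), .inr (one_ne_zero)⟩
    ⟨.inr (one_ne_zero), .inr (one_ne_zero)⟩
    ⟨.inl ((neg_ne_zero.2 (mul_ne_zero (mul_ne_zero (mul_ne_zero (mul_ne_zero h.f0 h.f1) h.f2) h.f4) h.f22))), .inr (one_ne_zero)⟩

theorem pt1 (h : Gen t a b) : ∀ l, Pt (F1 t a b l) :=
  all9 ⟨.inr (one_ne_zero), .inr ((mul_ne_zero h.f1 h.f5))⟩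
    ⟨.inr h.f10, .inl (one_ne_zero)⟩
    ⟨.inr (one_ne_zero), .inr (one_ne_zero)⟩
    ⟨.inr ((mul_ne_zero h.f1 h.f3)), .inr (one_ne_zero)⟩
    ⟨.inr (one_ne_zero), .inr ((mul_ne_zero h.f2 h.f4))⟩
    ⟨.inr (one_ne_zero), .inr ((mul_ne_zero h.f1 h.f2))⟩
    ⟨.inr (one_ne_zero), .inr h.f28⟩
    ⟨.inr (one_ne_zero), .inr h.f13⟩
    ⟨.inl ((neg_ne_zero.2 (mul_ne_zero (mul_ne_zero (mul_ne_zero (mul_ne_zero h.f0 h.f1) h.f2) h.f4) h.f22))), .inr ((mul_ne_zero (mul_ne_zero (mul_ne_zero h.f1 h.f2) h.f3) h.f13))⟩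

theorem pt2 (h : Gen t a b) : ∀ l, Pt (F2 t a b l) :=
  all9 ⟨.inl (one_ne_zero), .inr ((mul_ne_zero h.f1 h.f5))⟩
    ⟨.inl ((neg_ne_zero.2 (mul_ne_zero h.f13 h.f25))), .inl (one_ne_zero)⟩
    ⟨.inl ((neg_ne_zero.2 h.f29)), .inr (one_ne_zero)⟩
    ⟨.inr (one_ne_zero), .inr (one_ne_zero)⟩
    ⟨.inr (one_ne_zero), .inr ((mul_ne_zero h.f2 h.f4))⟩
    ⟨.inr (one_ne_zero), .inr ((mul_ne_zero h.f1 h.f2))⟩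
    ⟨.inl (one_ne_zero), .inr h.f28⟩
    ⟨.inr (one_ne_zero), .inr h.f13⟩
    ⟨.inr h.f28, .inr ((mul_ne_zero (mul_ne_zero (mul_ne_zero h.f1 h.f2) h.f3) h.f13))⟩

theorem pt3 (h : Gen t a b) : ∀ l, Pt (F3 t a b l) :=
  all9 ⟨.inl (one_ne_zero), .inl ((mul_ne_zero h.f1 h.f3))⟩
    ⟨.inl ((neg_ne_zero.2 (mul_ne_zero h.f13 h.f25))), .inl (one_ne_zero)⟩
    ⟨.inl ((neg_ne_zero.2 h.f29)), .inr (one_ne_zero)⟩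
    ⟨.inr (one_ne_zero), .inl (one_ne_zero)⟩
    ⟨.inr (one_ne_zero), .inl ((neg_ne_zero.2 one_ne_zero))⟩
    ⟨.inr (one_ne_zero), .inl h.f1⟩
    ⟨.inl (one_ne_zero), .inl ((neg_ne_zero.2 h.f22))⟩
    ⟨.inr (one_ne_zero), .inl ((neg_ne_zero.2 one_ne_zero))⟩
    ⟨.inr h.f28, .inl ((mul_ne_zero h.f1 h.f3))⟩

theorem pt4 (h : Gen t a b) : ∀ l, Pt (F4 t a b l) :=
  all9 ⟨.inl (one_ne_zero), .inl ((mul_ne_zero h.f1 h.f3))⟩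
    ⟨.inr h.f28, .inl (one_ne_zero)⟩
    ⟨.inr ((mul_ne_zero h.f1 h.f3)), .inr (one_ne_zero)⟩
    ⟨.inr (one_ne_zero), .inl (one_ne_zero)⟩
    ⟨.inr (one_ne_zero), .inl ((neg_ne_zero.2 one_ne_zero))⟩
    ⟨.inl (one_ne_zero), .inl h.f1⟩
    ⟨.inr (one_ne_zero), .inl ((neg_ne_zero.2 h.f22))⟩
    ⟨.inr (one_ne_zero), .inl ((neg_ne_zero.2 one_ne_zero))⟩
    ⟨.inr h.f28, .inl ((mul_ne_zero h.f1 h.f3))⟩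

theorem pt5 (h : Gen t a b) : ∀ l, Pt (F5 t a b l) :=
  all9 ⟨.inl (one_ne_zero), .inl (one_ne_zero)⟩
    ⟨.inr h.f28, .inl (one_ne_zero)⟩
    ⟨.inr ((mul_ne_zero h.f1 h.f3)), .inl h.f25⟩
    ⟨.inr (one_ne_zero), .inr (one_ne_zero)⟩
    ⟨.inr (one_ne_zero), .inl h.f25⟩
    ⟨.inl (one_ne_zero), .inl h.f10⟩
    ⟨.inr (one_ne_zero), .inl ((mul_ne_zero h.f5 h.f10))⟩
    ⟨.inr (one_ne_zero), .inl ((mul_ne_zero h.f5 h.f10))⟩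
    ⟨.inr h.f28, .inr (one_ne_zero)⟩

theorem pt6 (h : Gen t a b) : ∀ l, Pt (F6 t a b l) :=
  all9 ⟨.inl ((mul_ne_zero h.f2 (pow_ne_zero 2 h.f7))), .inl (one_ne_zero)⟩
    ⟨.inl ((mul_ne_zero h.f7 h.f25)), .inl (one_ne_zero)⟩
    ⟨.inr h.f25, .inl h.f25⟩
    ⟨.inr (one_ne_zero), .inr (one_ne_zero)⟩
    ⟨.inr (one_ne_zero), .inl h.f25⟩
    ⟨.inl ((mul_ne_zero h.f2 (pow_ne_zero 2 h.f7))), .inl h.f10⟩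
    ⟨.inr (one_ne_zero), .inl ((mul_ne_zero h.f5 h.f10))⟩
    ⟨.inr (one_ne_zero), .inl ((mul_ne_zero h.f5 h.f10))⟩
    ⟨.inl (one_ne_zero), .inr (one_ne_zero)⟩

theorem pt7 (h : Gen t a b) : ∀ l, Pt (F7 t a b l) :=
  all9 ⟨.inl ((mul_ne_zero h.f2 (pow_ne_zero 2 h.f7))), .inl ((mul_ne_zero h.f7 h.f25))⟩
    ⟨.inl ((mul_ne_zero h.f7 h.f25)), .inl ((mul_ne_zero h.f7 h.f25))⟩
    ⟨.inr h.f25, .inr (one_ne_zero)⟩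
    ⟨.inr (one_ne_zero), .inl (one_ne_zero)⟩
    ⟨.inr (one_ne_zero), .inr (one_ne_zero)⟩
    ⟨.inl ((mul_ne_zero h.f2 (pow_ne_zero 2 h.f7))), .inl ((mul_ne_zero h.f13 h.f25))⟩
    ⟨.inr (one_ne_zero), .inr (one_ne_zero)⟩
    ⟨.inr (one_ne_zero), .inr (one_ne_zero)⟩
    ⟨.inl (one_ne_zero), .inl (one_ne_zero)⟩

theorem va0 (h : Gen t a b) : Valid (.Kx 1 2) (F0 t a b) :=
  ⟨(nz (by ring : ((t ^ 2 * a ^ 3 * b + t ^ 2 - 2 * t * a ^ 3 * b + 2 * t * a ^ 2 - 4 * t * a + a ^ 4 + a ^ 3 * b - 4 * a ^ 3 + 4 * a ^ 2)) * ((t ^ 2 + a * b)) - (a * (t - 1) * (t + a ^ 2 - 2 * a) * (t ^ 2 + a * b)) * ((a * b + 1)) = (a - 1) * (t - a) * (t ^ 2 + a * b) * (t * a ^ 2 * b - t - a ^ 2 * b - a ^ 2 + 2 * a)) (mul_ne_zero (mul_ne_zero (mul_ne_zero h.f4 h.f7) h.f11) h.f26)),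
    (nz (by ring : ((t + a ^ 2 - 2 * a)) * 1 - (a ^ 2 * b * (t - 1)) * 1 = -(t * a ^ 2 * b - t - a ^ 2 * b - a ^ 2 + 2 * a)) (neg_ne_zero.2 h.f26)),
    all9 (fun _ _ => ⟨(nz (by ring : ((t + a ^ 2 - 2 * a)) * a - (a ^ 2 * b * (t - 1)) * 1 = -(a * (t * a * b - t - a ^ 2 - a * b + 2 * a))) (neg_ne_zero.2 (mul_ne_zero h.f1 h.f25))),
      (nz (by ring : 1 * a - 1 * 1 = (a - 1)) h.f4)⟩)
    (fun e => absurd rfl e)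
    (fun _ e => absurd rfl e)
    (fun _ _ => ⟨(nz (by ring : ((t + a ^ 2 - 2 * a)) * ((t + a ^ 2 - 2 * a)) - (a ^ 2 * b * (t - 1)) * (a * (t - 1)) = -(t ^ 2 * a ^ 3 * b - t ^ 2 - 2 * t * a ^ 3 * b - 2 * t * a ^ 2 + 4 * t * a - a ^ 4 + a ^ 3 * b + 4 * a ^ 3 - 4 * a ^ 2)) (neg_ne_zero.2 h.f27)),
      (nz (by ring : 1 * ((t + a ^ 2 - 2 * a)) - 1 * (a * (t - 1)) = -((a - 1) * (t - a))) (neg_ne_zero.2 (mul_ne_zero h.f4 h.f7)))⟩)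
    (fun _ _ => ⟨(nz (by ring : ((t + a ^ 2 - 2 * a)) * b - (a ^ 2 * b * (t - 1)) * 1 = -(b * (a - 1) * (t * a + t - 2 * a))) (neg_ne_zero.2 (mul_ne_zero (mul_ne_zero h.f2 h.f4) h.f22))),
      (nz (by ring : 1 * b - 1 * 1 = (b - 1)) h.f5)⟩)
    (fun _ _ => ⟨(nz (by ring : ((t + a ^ 2 - 2 * a)) * 0 - (a ^ 2 * b * (t - 1)) * 1 = -(a ^ 2 * b * (t - 1))) (neg_ne_zero.2 (mul_ne_zero (mul_ne_zero (pow_ne_zero 2 h.f1) h.f2) h.f3))),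
      (nz (by ring : (1 * 0 - 1 * 1 : K) = -1) (neg_ne_zero.2 one_ne_zero))⟩)
    (fun _ _ => ⟨(nz (by ring : ((t + a ^ 2 - 2 * a)) * t - (a ^ 2 * b * (t - 1)) * 1 = (t ^ 2 - t * a ^ 2 * b + t * a ^ 2 - 2 * t * a + a ^ 2 * b)) h.f28),
      (nz (by ring : 1 * t - 1 * 1 = (t - 1)) h.f3)⟩)
    (fun _ _ => ⟨(nz (by ring : ((t + a ^ 2 - 2 * a)) * t - (a ^ 2 * b * (t - 1)) * 1 = (t ^ 2 - t * a ^ 2 * b + t * a ^ 2 - 2 * t * a + a ^ 2 * b)) h.f28),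
      (nz (by ring : 1 * t - 1 * 1 = (t - 1)) h.f3)⟩)
    (fun _ _ => ⟨(nz (by ring : ((t + a ^ 2 - 2 * a)) * (-(t * a * b * (a - 1) * (t * a + t - 2 * a))) - (a ^ 2 * b * (t - 1)) * ((t ^ 3 - t ^ 2 * a ^ 2 * b + t ^ 2 * a ^ 2 - 3 * t ^ 2 * a - t * a ^ 3 + t * a ^ 2 * b + 2 * t * a ^ 2 + t * a * b + a ^ 3 * b - 2 * a ^ 2 * b)) = -(a * b * (t ^ 2 - t * a ^ 2 * b + t * a ^ 2 - 2 * t * a + a ^ 2 * b) * (t ^ 2 * a - t * a - t - a ^ 2 + 2 * a))) (neg_ne_zero.2 (mul_ne_zero (mul_ne_zero (mul_ne_zero h.f1 h.f2) h.f28) h.f29))),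
      (nz (by ring : 1 * (-(t * a * b * (a - 1) * (t * a + t - 2 * a))) - 1 * ((t ^ 3 - t ^ 2 * a ^ 2 * b + t ^ 2 * a ^ 2 - 3 * t ^ 2 * a - t * a ^ 3 + t * a ^ 2 * b + 2 * t * a ^ 2 + t * a * b + a ^ 3 * b - 2 * a ^ 2 * b)) = -(t ^ 3 + t ^ 2 * a ^ 3 * b - t ^ 2 * a ^ 2 * b + t ^ 2 * a ^ 2 - t ^ 2 * a * b - 3 * t ^ 2 * a - 2 * t * a ^ 3 * b - t * a ^ 3 + 3 * t * a ^ 2 * b + 2 * t * a ^ 2 + t * a * b + a ^ 3 * b - 2 * a ^ 2 * b)) (neg_ne_zero.2 h.f30))⟩)⟩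

theorem eq0 (t a b : K) : ∀ l, dy (mv (.Kx 1 2) (F0 t a b) l) (F1 t a b l) = 0 :=
  all9 (by ring : (((((a * b + 1)) * ((t ^ 2 + a * b)) - ((t ^ 2 + a * b)) * ((a + b))) * (((t + a ^ 2 - 2 * a)) * a - (a ^ 2 * b * (t - 1)) * 1)) * (-((a - 1) * (t * a + t - 2 * a))) - ((((t ^ 2 * a ^ 3 * b + t ^ 2 - 2 * t * a ^ 3 * b + 2 * t * a ^ 2 - 4 * t * a + a ^ 4 + a ^ 3 * b - 4 * a ^ 3 + 4 * a ^ 2)) * ((t ^ 2 + a * b)) - (a * (t - 1) * (t + a ^ 2 - 2 * a) * (t ^ 2 + a * b)) * ((a + b))) * (1 * a - 1 * 1)) * (a * (b - 1)) : K) = 0)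
    (by ring : (0 * 1 - 1 * 0 : K) = 0)
    (by ring : (1 * 0 - 0 * 1 : K) = 0)
    (by ring : (((((a * b + 1)) * (a * (t - 1) * (t + a ^ 2 - 2 * a) * (t ^ 2 + a * b)) - ((t ^ 2 + a * b)) * ((t ^ 2 * a ^ 3 * b + t ^ 2 - 2 * t * a ^ 3 * b + 2 * t * a ^ 2 - 4 * t * a + a ^ 4 + a ^ 3 * b - 4 * a ^ 3 + 4 * a ^ 2))) * (((t + a ^ 2 - 2 * a)) * ((t + a ^ 2 - 2 * a)) - (a ^ 2 * b * (t - 1)) * (a * (t - 1)))) * 0 - ((((t ^ 2 * a ^ 3 * b + t ^ 2 - 2 * t * a ^ 3 * b + 2 * t * a ^ 2 - 4 * t * a + a ^ 4 + a ^ 3 * b - 4 * a ^ 3 + 4 * a ^ 2)) * (a * (t - 1) * (t + a ^ 2 - 2 * a) * (t ^ 2 + a * b)) - (a * (t - 1) * (t + a ^ 2 - 2 * a) * (t ^ 2 + a * b)) * ((t ^ 2 * a ^ 3 * b + t ^ 2 - 2 * t * a ^ 3 * b + 2 * t * a ^ 2 - 4 * t * a + a ^ 4 + a ^ 3 * b - 4 * a ^ 3 + 4 * a ^ 2))) * (1 * ((t + a ^ 2 - 2 * a))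 - 1 * (a * (t - 1)))) * 1 : K) = 0)
    (by ring : (((((a * b + 1)) * ((t ^ 2 + a * b)) - ((t ^ 2 + a * b)) * ((a + b))) * (((t + a ^ 2 - 2 * a)) * b - (a ^ 2 * b * (t - 1)) * 1)) * (-(t * a * b - t - a ^ 2 - a * b + 2 * a)) - ((((t ^ 2 * a ^ 3 * b + t ^ 2 - 2 * t * a ^ 3 * b + 2 * t * a ^ 2 - 4 * t * a + a ^ 4 + a ^ 3 * b - 4 * a ^ 3 + 4 * a ^ 2)) * ((t ^ 2 + a * b)) - (a * (t - 1) * (t + a ^ 2 - 2 * a) * (t ^ 2 + a * b)) * ((a + b))) * (1 * b - 1 * 1)) * (b * (a - 1)) : K) = 0)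
    (by ring : (((((a * b + 1)) * 0 - ((t ^ 2 + a * b)) * 1) * (((t + a ^ 2 - 2 * a)) * 0 - (a ^ 2 * b * (t - 1)) * 1)) * ((t + a ^ 2 - 2 * a)) - ((((t ^ 2 * a ^ 3 * b + t ^ 2 - 2 * t * a ^ 3 * b + 2 * t * a ^ 2 - 4 * t * a + a ^ 4 + a ^ 3 * b - 4 * a ^ 3 + 4 * a ^ 2)) * 0 - (a * (t - 1) * (t + a ^ 2 - 2 * a) * (t ^ 2 + a * b)) * 1) * (1 * 0 - 1 * 1)) * (a * b) : K) = 0)
    (by ring : (((((a * b + 1)) * 0 - ((t ^ 2 + a * b)) * 1) * (((t + a ^ 2 - 2 * a)) * t - (a ^ 2 * b * (t - 1)) * 1)) * (a * (t - 1) ^ 2 * (t + a ^ 2 - 2 * a)) - ((((t ^ 2 * a ^ 3 * b + t ^ 2 - 2 * t * a ^ 3 * b + 2 * t * a ^ 2 - 4 * t * a + a ^ 4 + a ^ 3 * b - 4 * a ^ 3 + 4 * a ^ 2)) * 0 - (a * (t - 1) * (t + a ^ 2 - 2 * a) * (t ^ 2 + a * b)) * 1) * (1 * t - 1 * 1)) * ((t ^ 2 - t * a ^ 2 * b + t * a ^ 2 - 2 * t * a +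 a ^ 2 * b)) : K) = 0)
    (by ring : (((((a * b + 1)) * t - ((t ^ 2 + a * b)) * 1) * (((t + a ^ 2 - 2 * a)) * t - (a ^ 2 * b * (t - 1)) * 1)) * ((t ^ 2 * a - t * a - t - a ^ 2 + 2 * a)) - ((((t ^ 2 * a ^ 3 * b + t ^ 2 - 2 * t * a ^ 3 * b + 2 * t * a ^ 2 - 4 * t * a + a ^ 4 + a ^ 3 * b - 4 * a ^ 3 + 4 * a ^ 2)) * t - (a * (t - 1) * (t + a ^ 2 - 2 * a) * (t ^ 2 + a * b)) * 1) * (1 * t - 1 * 1)) * ((t - a * b)) : K) = 0)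
    (by ring : (((((a * b + 1)) * t - ((t ^ 2 + a * b)) * 1) * (((t + a ^ 2 - 2 * a)) * (-(t * a * b * (a - 1) * (t * a + t - 2 * a))) - (a ^ 2 * b * (t - 1)) * ((t ^ 3 - t ^ 2 * a ^ 2 * b + t ^ 2 * a ^ 2 - 3 * t ^ 2 * a - t * a ^ 3 + t * a ^ 2 * b + 2 * t * a ^ 2 + t * a * b + a ^ 3 * b - 2 * a ^ 2 * b)))) * ((t ^ 3 + t ^ 2 * a ^ 3 * b - t ^ 2 * a ^ 2 * b + t ^ 2 * a ^ 2 - t ^ 2 * a * b - 3 * t ^ 2 * a - 2 * t * a ^ 3 * b - t * a ^ 3 + 3 * t * a ^ 2 * b + 2 * t * a ^ 2 + t * a * b + a ^ 3 * b - 2 * a ^ 2 * b)) - ((((t ^ 2 * a ^ 3 * b + t ^ 2 - 2 * t * a ^ 3 * b + 2 * t * a ^ 2 - 4 * t * a + a ^ 4 + a ^ 3 * b - 4 * a ^ 3 + 4 * a ^ 2)) * t - (a * (t - 1) * (t + a ^ 2 - 2 * a) * (t ^ 2 + a * b)) * 1) * (1 * (-(t * a * b * (a - 1) * (t * a + t - 2 * a))) - 1 * ((t ^ 3 - t ^ 2 * a ^ 2 * b +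 t ^ 2 * a ^ 2 - 3 * t ^ 2 * a - t * a ^ 3 + t * a ^ 2 * b + 2 * t * a ^ 2 + t * a * b + a ^ 3 * b - 2 * a ^ 2 * b)))) * (a * b * (t - 1) * (t - a * b)) : K) = 0)

theorem er0 (t a b : K) : ∀ l, dx (mv (.Kx 1 2) (F0 t a b) l) (F1 t a b l) = 0 :=
  all9 (sub_eq_zero.2 (mul_comm _ _))
    (sub_eq_zero.2 (mul_comm _ _))
    (sub_eq_zero.2 (mul_comm _ _))
    (sub_eq_zero.2 (mul_comm _ _))
    (sub_eq_zero.2 (mul_comm _ _))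
    (sub_eq_zero.2 (mul_comm _ _))
    (sub_eq_zero.2 (mul_comm _ _))
    (sub_eq_zero.2 (mul_comm _ _))
    (sub_eq_zero.2 (mul_comm _ _))

theorem va1 (h : Gen t a b) : Valid (.Ky 0 7) (F1 t a b) :=
  ⟨(nz (by ring : 1 * t - a * 1 = (t - a)) h.f7),
    (nz (by ring : (a * (b - 1)) * ((t ^ 2 * a - t * a - t - a ^ 2 + 2 * a)) - (-((a - 1) * (t * a + t - 2 * a))) * ((t - a * b)) = (t - a) * (t * a ^ 2 * b - t - a ^ 2 * b - a ^ 2 + 2 * a)) (mul_ne_zero h.f7 h.f26)),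
    all9 (fun e => absurd rfl e)
    (fun _ _ => ⟨(nz (by ring : (a * (b - 1)) * 1 - (-((a - 1) * (t * a + t - 2 * a))) * 0 = a * (b - 1)) (mul_ne_zero h.f1 h.f5)),
      (nz (by ring : ((t - a * b)) * 1 - ((t ^ 2 * a - t * a - t - a ^ 2 + 2 * a)) * 0 = (t - a * b)) h.f13)⟩)
    (fun _ _ => ⟨(nz (by ring : (a * (b - 1)) * 0 - (-((a - 1) * (t * a + t - 2 * a))) * 1 = (a - 1) * (t * a + t - 2 * a)) (mul_ne_zero h.f4 h.f22)),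
      (nz (by ring : ((t - a * b)) * 0 - ((t ^ 2 * a - t * a - t - a ^ 2 + 2 * a)) * 1 = -(t ^ 2 * a - t * a - t - a ^ 2 + 2 * a)) (neg_ne_zero.2 h.f29))⟩)
    (fun _ _ => ⟨(nz (by ring : (a * (b - 1)) * 0 - (-((a - 1) * (t * a + t - 2 * a))) * 1 = (a - 1) * (t * a + t - 2 * a)) (mul_ne_zero h.f4 h.f22)),
      (nz (by ring : ((t - a * b)) * 0 - ((t ^ 2 * a - t * a - t - a ^ 2 + 2 * a)) * 1 = -(t ^ 2 * a - t * a - t - a ^ 2 + 2 * a)) (neg_ne_zero.2 h.f29))⟩)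
    (fun _ _ => ⟨(nz (by ring : (a * (b - 1)) * (-(t * a * b - t - a ^ 2 - a * b + 2 * a)) - (-((a - 1) * (t * a + t - 2 * a))) * (b * (a - 1)) = (a - b) * (t * a ^ 2 * b - t - a ^ 2 * b - a ^ 2 + 2 * a)) (mul_ne_zero h.f6 h.f26)),
      (nz (by ring : ((t - a * b)) * (-(t * a * b - t - a ^ 2 - a * b + 2 * a)) - ((t ^ 2 * a - t * a - t - a ^ 2 + 2 * a)) * (b * (a - 1)) = -((t - b) * (t * a ^ 2 * b - t - a ^ 2 * b - a ^ 2 + 2 * a))) (neg_ne_zero.2 (mul_ne_zero h.f8 h.f26)))⟩)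
    (fun _ _ => ⟨(nz (by ring : (a * (b - 1)) * ((t + a ^ 2 - 2 * a)) - (-((a - 1) * (t * a + t - 2 * a))) * (a * b) = a * (t * a ^ 2 * b - t - a ^ 2 * b - a ^ 2 + 2 * a)) (mul_ne_zero h.f1 h.f26)),
      (nz (by ring : ((t - a * b)) * ((t + a ^ 2 - 2 * a)) - ((t ^ 2 * a - t * a - t - a ^ 2 + 2 * a)) * (a * b) = -(t * (t * a ^ 2 * b - t - a ^ 2 * b - a ^ 2 + 2 * a))) (neg_ne_zero.2 (mul_ne_zero h.f0 h.f26)))⟩)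
    (fun _ _ => ⟨(nz (by ring : (a * (b - 1)) * (a * (t - 1) ^ 2 * (t + a ^ 2 - 2 * a)) - (-((a - 1) * (t * a + t - 2 * a))) * ((t ^ 2 - t * a ^ 2 * b + t * a ^ 2 - 2 * t * a + a ^ 2 * b)) = (t - a) ^ 2 * (t * a ^ 2 * b - t - a ^ 2 * b - a ^ 2 + 2 * a)) (mul_ne_zero (pow_ne_zero 2 h.f7) h.f26)),
      (nz (by ring : ((t - a * b)) * (a * (t - 1) ^ 2 * (t + a ^ 2 - 2 * a)) - ((t ^ 2 * a - t * a - t - a ^ 2 + 2 * a)) * ((t ^ 2 - t * a ^ 2 * b + t * a ^ 2 - 2 * t * a + a ^ 2 * b)) = t * (a - 1) * (t - a) * (t * a ^ 2 * b - t - a ^ 2 * b - a ^ 2 + 2 * a)) (mul_ne_zero (mul_ne_zero (mul_ne_zero h.f0 h.f4) h.f7) h.f26))⟩)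
    (fun _ e => absurd rfl e)
    (fun _ _ => ⟨(nz (by ring : (a * (b - 1)) * ((t ^ 3 + t ^ 2 * a ^ 3 * b - t ^ 2 * a ^ 2 * b + t ^ 2 * a ^ 2 - t ^ 2 * a * b - 3 * t ^ 2 * a - 2 * t * a ^ 3 * b - t * a ^ 3 + 3 * t * a ^ 2 * b + 2 * t * a ^ 2 + t * a * b + a ^ 3 * b - 2 * a ^ 2 * b)) - (-((a - 1) * (t * a + t - 2 * a))) * (a * b * (t - 1) * (t - a * b)) = a * (t - a) * (t - b) * (t * a ^ 2 * b - t - a ^ 2 * b - a ^ 2 + 2 * a)) (mul_ne_zero (mul_ne_zero (mul_ne_zero h.f1 h.f7) h.f8) h.f26)),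
      (nz (by ring : ((t - a * b)) * ((t ^ 3 + t ^ 2 * a ^ 3 * b - t ^ 2 * a ^ 2 * b + t ^ 2 * a ^ 2 - t ^ 2 * a * b - 3 * t ^ 2 * a - 2 * t * a ^ 3 * b - t * a ^ 3 + 3 * t * a ^ 2 * b + 2 * t * a ^ 2 + t * a * b + a ^ 3 * b - 2 * a ^ 2 * b)) - ((t ^ 2 * a - t * a - t - a ^ 2 + 2 * a)) * (a * b * (t - 1) * (t - a * b)) = -(t * (t - a) * (t - a * b) * (t * a ^ 2 * b - t - a ^ 2 * b - a ^ 2 + 2 * a))) (neg_ne_zero.2 (mul_ne_zero (mul_ne_zero (mul_ne_zero h.f0 h.f7) h.f13) h.f26)))⟩)⟩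

theorem eq1 (t a b : K) : ∀ l, dx (mv (.Ky 0 7) (F1 t a b) l) (F2 t a b l) = 0 :=
  all9 (by ring : (0 * 1 - 1 * 0 : K) = 0)
    (by ring : (((1 * (a ^ 2 * b * (t - 1)) - t * ((t + a ^ 2 - 2 * a))) * ((a * (b - 1)) * 1 - (-((a - 1) * (t * a + t - 2 * a))) * 0)) * (-((t - a * b) * (t * a * b - t - a ^ 2 - a * b + 2 * a))) - ((1 * (a ^ 2 * b * (t - 1)) - a * ((t + a ^ 2 - 2 * a))) * (((t - a * b)) * 1 - ((t ^ 2 * a - t * a - t - a ^ 2 + 2 * a)) * 0)) * ((b - 1) * (t ^ 2 - t * a ^ 2 * b + t * a ^ 2 - 2 * t * a + a ^ 2 * b)) : K) = 0)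
    (by ring : (((1 * 1 - t * 1) * ((a * (b - 1)) * 0 - (-((a - 1) * (t * a + t - 2 * a))) * 1)) * (-(t ^ 2 * a - t * a - t - a ^ 2 + 2 * a)) - ((1 * 1 - a * 1) * (((t - a * b)) * 0 - ((t ^ 2 * a - t * a - t - a ^ 2 + 2 * a)) * 1)) * ((t - 1) * (t * a + t - 2 * a)) : K) = 0)
    (by ring : (((1 * ((t + a ^ 2 - 2 * a)) - t * (a * (t - 1))) * ((a * (b - 1)) * 0 - (-((a - 1) * (t * a + t - 2 * a))) * 1)) * (-1) - ((1 * ((t + a ^ 2 - 2 * a)) - a * (a * (t - 1))) * (((t - a * b)) * 0 - ((t ^ 2 * a - t * a - t - a ^ 2 + 2 * a)) * 1)) * 1 : K) = 0)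
    (by ring : (((1 * b - t * 1) * ((a * (b - 1)) * (-(t * a * b - t - a ^ 2 - a * b + 2 * a)) - (-((a - 1) * (t * a + t - 2 * a))) * (b * (a - 1)))) * (-1) - ((1 * b - a * 1) * (((t - a * b)) * (-(t * a * b - t - a ^ 2 - a * b + 2 * a)) - ((t ^ 2 * a - t * a - t - a ^ 2 + 2 * a)) * (b * (a - 1)))) * 1 : K) = 0)
    (by ring : (((1 * 0 - t * 1) * ((a * (b - 1)) * ((t + a ^ 2 - 2 * a)) - (-((a - 1) * (t * a + t - 2 * a))) * (a * b))) * (-1) - ((1 * 0 - a * 1) * (((t - a * b)) * ((t + a ^ 2 - 2 * a)) - ((t ^ 2 * a - t * a - t - a ^ 2 + 2 * a)) * (a * b))) * 1 : K) = 0)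
    (by ring : (((1 * t - t * 1) * ((a * (b - 1)) * (a * (t - 1) ^ 2 * (t + a ^ 2 - 2 * a)) - (-((a - 1) * (t * a + t - 2 * a))) * ((t ^ 2 - t * a ^ 2 * b + t * a ^ 2 - 2 * t * a + a ^ 2 * b)))) * 1 - ((1 * t - a * 1) * (((t - a * b)) * (a * (t - 1) ^ 2 * (t + a ^ 2 - 2 * a)) - ((t ^ 2 * a - t * a - t - a ^ 2 + 2 * a)) * ((t ^ 2 - t * a ^ 2 * b + t * a ^ 2 - 2 * t * a + a ^ 2 * b)))) * 0 : K) = 0)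
    (by ring : (1 * 0 - 0 * 1 : K) = 0)
    (by ring : (((1 * (-(t * a * b * (a - 1) * (t * a + t - 2 * a))) - t * ((t ^ 3 - t ^ 2 * a ^ 2 * b + t ^ 2 * a ^ 2 - 3 * t ^ 2 * a - t * a ^ 3 + t * a ^ 2 * b + 2 * t * a ^ 2 + t * a * b + a ^ 3 * b - 2 * a ^ 2 * b))) * ((a * (b - 1)) * ((t ^ 3 + t ^ 2 * a ^ 3 * b - t ^ 2 * a ^ 2 * b + t ^ 2 * a ^ 2 - t ^ 2 * a * b - 3 * t ^ 2 * a - 2 * t * a ^ 3 * b - t * a ^ 3 + 3 * t * a ^ 2 * b + 2 * t * a ^ 2 + t * a * b + a ^ 3 * b - 2 * a ^ 2 * b)) - (-((a - 1) * (t * a + t - 2 * a))) * (a * b * (t - 1) * (t - a * b)))) * (-((t + a ^ 2 - 2 * a) * (t - a * b))) - ((1 * (-(t * a * b * (a - 1) * (t * a + t - 2 * a))) - a * ((t ^ 3 - t ^ 2 * a ^ 2 * b + t ^ 2 * a ^ 2 - 3 * t ^ 2 * a - t * a ^ 3 + t * a ^ 2 * b + 2 * t * a ^ 2 + t * a * b + a ^ 3 * b - 2 * a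 ^ 2 * b))) * (((t - a * b)) * ((t ^ 3 + t ^ 2 * a ^ 3 * b - t ^ 2 * a ^ 2 * b + t ^ 2 * a ^ 2 - t ^ 2 * a * b - 3 * t ^ 2 * a - 2 * t * a ^ 3 * b - t * a ^ 3 + 3 * t * a ^ 2 * b + 2 * t * a ^ 2 + t * a * b + a ^ 3 * b - 2 * a ^ 2 * b)) - ((t ^ 2 * a - t * a - t - a ^ 2 + 2 * a)) * (a * b * (t - 1) * (t - a * b)))) * ((t ^ 2 - t * a ^ 2 * b + t * a ^ 2 - 2 * t * a + a ^ 2 * b)) : K) = 0)

theorem er1 (t a b : K) : ∀ l, dy (mv (.Ky 0 7) (F1 t a b) l) (F2 t a b l) = 0 :=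
  all9 (sub_eq_zero.2 (mul_comm _ _))
    (sub_eq_zero.2 (mul_comm _ _))
    (sub_eq_zero.2 (mul_comm _ _))
    (sub_eq_zero.2 (mul_comm _ _))
    (sub_eq_zero.2 (mul_comm _ _))
    (sub_eq_zero.2 (mul_comm _ _))
    (sub_eq_zero.2 (mul_comm _ _))
    (sub_eq_zero.2 (mul_comm _ _))
    (sub_eq_zero.2 (mul_comm _ _))

theorem va2 (h : Gen t a b) : Valid (.Kx 1 2) (F2 t a b) :=
  ⟨(nz (by ring : (0 * 0 - 1 * 1 : K) = -1) (neg_ne_zero.2 one_ne_zero)),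
    (nz (by ring : ((b - 1) * (t ^ 2 - t * a ^ 2 * b + t * a ^ 2 - 2 * t * a + a ^ 2 * b)) * (-(t ^ 2 * a - t * a - t - a ^ 2 + 2 * a)) - (-((t - a * b) * (t * a * b - t - a ^ 2 - a * b + 2 * a))) * ((t - 1) * (t * a + t - 2 * a)) = (t - a) ^ 2 * (t - b) * (t * a ^ 2 * b - t - a ^ 2 * b - a ^ 2 + 2 * a)) (mul_ne_zero (mul_ne_zero (pow_ne_zero 2 h.f7) h.f8) h.f26)),
    all9 (fun _ _ => ⟨(nz (by ring : ((b - 1) * (t ^ 2 - t * a ^ 2 * b + t * a ^ 2 - 2 * t * a + a ^ 2 * b)) * 1 - (-((t - a * b) * (t * a * b - t - a ^ 2 - a * b + 2 * a))) * 0 = (b - 1) * (t ^ 2 - t * a ^ 2 * b + t * a ^ 2 - 2 * t * a + a ^ 2 * b)) (mul_ne_zero h.f5 h.f28)),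
      (nz (by ring : ((t - 1) * (t * a + t - 2 * a)) * 1 - (-(t ^ 2 * a - t * a - t - a ^ 2 + 2 * a)) * 0 = (t - 1) * (t * a + t - 2 * a)) (mul_ne_zero h.f3 h.f22))⟩)
    (fun e => absurd rfl e)
    (fun _ e => absurd rfl e)
    (fun _ _ => ⟨(nz (by ring : ((b - 1) * (t ^ 2 - t * a ^ 2 * b + t * a ^ 2 - 2 * t * a + a ^ 2 * b)) * (-1) - (-((t - a * b) * (t * a * b - t - a ^ 2 - a * b + 2 * a))) * 1 = b * (a - 1) * (t - a) ^ 2) (mul_ne_zero (mul_ne_zero h.f2 h.f4) (pow_ne_zero 2 h.f7))),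
      (nz (by ring : ((t - 1) * (t * a + t - 2 * a)) * (-1) - (-(t ^ 2 * a - t * a - t - a ^ 2 + 2 * a)) * 1 = -(t - a) ^ 2) (neg_ne_zero.2 (pow_ne_zero 2 h.f7)))⟩)
    (fun _ _ => ⟨(nz (by ring : ((b - 1) * (t ^ 2 - t * a ^ 2 * b + t * a ^ 2 - 2 * t * a + a ^ 2 * b)) * (-1) - (-((t - a * b) * (t * a * b - t - a ^ 2 - a * b + 2 * a))) * 1 = b * (a - 1) * (t - a) ^ 2) (mul_ne_zero (mul_ne_zero h.f2 h.f4) (pow_ne_zero 2 h.f7))),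
      (nz (by ring : ((t - 1) * (t * a + t - 2 * a)) * (-1) - (-(t ^ 2 * a - t * a - t - a ^ 2 + 2 * a)) * 1 = -(t - a) ^ 2) (neg_ne_zero.2 (pow_ne_zero 2 h.f7)))⟩)
    (fun _ _ => ⟨(nz (by ring : ((b - 1) * (t ^ 2 - t * a ^ 2 * b + t * a ^ 2 - 2 * t * a + a ^ 2 * b)) * (-1) - (-((t - a * b) * (t * a * b - t - a ^ 2 - a * b + 2 * a))) * 1 = b * (a - 1) * (t - a) ^ 2) (mul_ne_zero (mul_ne_zero h.f2 h.f4) (pow_ne_zero 2 h.f7))),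
      (nz (by ring : ((t - 1) * (t * a + t - 2 * a)) * (-1) - (-(t ^ 2 * a - t * a - t - a ^ 2 + 2 * a)) * 1 = -(t - a) ^ 2) (neg_ne_zero.2 (pow_ne_zero 2 h.f7)))⟩)
    (fun _ _ => ⟨(nz (by ring : ((b - 1) * (t ^ 2 - t * a ^ 2 * b + t * a ^ 2 - 2 * t * a + a ^ 2 * b)) * 1 - (-((t - a * b) * (t * a * b - t - a ^ 2 - a * b + 2 * a))) * 0 = (b - 1) * (t ^ 2 - t * a ^ 2 * b + t * a ^ 2 - 2 * t * a + a ^ 2 * b)) (mul_ne_zero h.f5 h.f28)),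
      (nz (by ring : ((t - 1) * (t * a + t - 2 * a)) * 1 - (-(t ^ 2 * a - t * a - t - a ^ 2 + 2 * a)) * 0 = (t - 1) * (t * a + t - 2 * a)) (mul_ne_zero h.f3 h.f22))⟩)
    (fun _ _ => ⟨(nz (by ring : ((b - 1) * (t ^ 2 - t * a ^ 2 * b + t * a ^ 2 - 2 * t * a + a ^ 2 * b)) * 0 - (-((t - a * b) * (t * a * b - t - a ^ 2 - a * b + 2 * a))) * 1 = (t - a * b) * (t * a * b - t - a ^ 2 - a * b + 2 * a)) (mul_ne_zero h.f13 h.f25)),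
      (nz (by ring : ((t - 1) * (t * a + t - 2 * a)) * 0 - (-(t ^ 2 * a - t * a - t - a ^ 2 + 2 * a)) * 1 = (t ^ 2 * a - t * a - t - a ^ 2 + 2 * a)) h.f29)⟩)
    (fun _ _ => ⟨(nz (by ring : ((b - 1) * (t ^ 2 - t * a ^ 2 * b + t * a ^ 2 - 2 * t * a + a ^ 2 * b)) * (-((t + a ^ 2 - 2 * a) * (t - a * b))) - (-((t - a * b) * (t * a * b - t - a ^ 2 - a * b + 2 * a))) * ((t ^ 2 - t * a ^ 2 * b + t * a ^ 2 - 2 * t * a + a ^ 2 * b)) = b * (a - 1) * (t - a) * (t - a * b) * (t ^ 2 - t * a ^ 2 * b + t * a ^ 2 - 2 * t * a + a ^ 2 * b)) (mul_ne_zero (mul_ne_zero (mul_ne_zero (mul_ne_zero h.f2 h.f4) h.f7) h.f13) h.f28)),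
      (nz (by ring : ((t - 1) * (t * a + t - 2 * a)) * (-((t + a ^ 2 - 2 * a) * (t - a * b))) - (-(t ^ 2 * a - t * a - t - a ^ 2 + 2 * a)) * ((t ^ 2 - t * a ^ 2 * b + t * a ^ 2 - 2 * t * a + a ^ 2 * b)) = -((t - a) * (t ^ 3 + t ^ 2 * a ^ 3 * b - t ^ 2 * a ^ 2 * b + t ^ 2 * a ^ 2 - t ^ 2 * a * b - 3 * t ^ 2 * a - 2 * t * a ^ 3 * b - t * a ^ 3 + 3 * t * a ^ 2 * b + 2 * t * a ^ 2 + t * a * b + a ^ 3 * b - 2 * a ^ 2 * b))) (neg_ne_zero.2 (mul_ne_zero h.f7 h.f30)))⟩)⟩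

theorem eq2 (t a b : K) : ∀ l, dy (mv (.Kx 1 2) (F2 t a b) l) (F3 t a b l) = 0 :=
  all9 (by ring : (((1 * (-((a - 1) * (t * a + t - 2 * a))) - 0 * (a * (b - 1))) * (((b - 1) * (t ^ 2 - t * a ^ 2 * b + t * a ^ 2 - 2 * t * a + a ^ 2 * b)) * 1 - (-((t - a * b) * (t * a * b - t - a ^ 2 - a * b + 2 * a))) * 0)) * (a * (t - 1)) - ((0 * (-((a - 1) * (t * a + t - 2 * a))) - 1 * (a * (b - 1))) * (((t - 1) * (t * a + t - 2 * a)) * 1 - (-(t ^ 2 * a - t * a - t - a ^ 2 + 2 * a)) * 0)) * ((a - 1) * (t ^ 2 - t * a ^ 2 * b + t * a ^ 2 - 2 * t * a + a ^ 2 * b)) : K) = 0)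
    (by ring : (0 * 1 - 1 * 0 : K) = 0)
    (by ring : (1 * 0 - 0 * 1 : K) = 0)
    (by ring : (((1 * 0 - 0 * 1) * (((b - 1) * (t ^ 2 - t * a ^ 2 * b + t * a ^ 2 - 2 * t * a + a ^ 2 * b)) * (-1) - (-((t - a * b) * (t * a * b - t - a ^ 2 - a * b + 2 * a))) * 1)) * 1 - ((0 * 0 - 1 * 1) * (((t - 1) * (t * a + t - 2 * a)) * (-1) - (-(t ^ 2 * a - t * a - t - a ^ 2 + 2 * a)) * 1)) * 0 : K) = 0)
    (by ring : (((1 * (-(t * a * b - t - a ^ 2 - a * b + 2 * a)) - 0 * (b * (a - 1))) * (((b - 1) * (t ^ 2 - t * a ^ 2 * b + t * a ^ 2 - 2 * t * a + a ^ 2 * b)) * (-1) - (-((t - a * b) * (t * a * b - t - a ^ 2 - a * b + 2 * a))) * 1)) * (-1) - ((0 * (-(t * a * b - t - a ^ 2 - a * b + 2 * a)) - 1 * (b * (a - 1))) * (((t - 1) * (t * a + t - 2 * a)) * (-1) - (-(t ^ 2 * a - t * a - t - a ^ 2 + 2 * a)) * 1))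 * ((t * a * b - t - a ^ 2 - a * b + 2 * a)) : K) = 0)
    (by ring : (((1 * ((t + a ^ 2 - 2 * a)) - 0 * (a * b)) * (((b - 1) * (t ^ 2 - t * a ^ 2 * b + t * a ^ 2 - 2 * t * a + a ^ 2 * b)) * (-1) - (-((t - a * b) * (t * a * b - t - a ^ 2 - a * b + 2 * a))) * 1)) * a - ((0 * ((t + a ^ 2 - 2 * a)) - 1 * (a * b)) * (((t - 1) * (t * a + t - 2 * a)) * (-1) - (-(t ^ 2 * a - t * a - t - a ^ 2 + 2 * a)) * 1)) * ((a - 1) * (t + a ^ 2 - 2 * a)) : K) = 0)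
    (by ring : (((1 * (a * (t - 1) ^ 2 * (t + a ^ 2 - 2 * a)) - 0 * ((t ^ 2 - t * a ^ 2 * b + t * a ^ 2 - 2 * t * a + a ^ 2 * b))) * (((b - 1) * (t ^ 2 - t * a ^ 2 * b + t * a ^ 2 - 2 * t * a + a ^ 2 * b)) * 1 - (-((t - a * b) * (t * a * b - t - a ^ 2 - a * b + 2 * a))) * 0)) * (-(t * a + t - 2 * a)) - ((0 * (a * (t - 1) ^ 2 * (t + a ^ 2 - 2 * a)) - 1 * ((t ^ 2 - t * a ^ 2 * b + t * a ^ 2 - 2 * t * a + a ^ 2 * b))) * (((t - 1) * (t * a + t - 2 * a)) * 1 - (-(t ^ 2 * a - t * a - t - a ^ 2 + 2 * a)) * 0)) * (a * (t - 1) * (b - 1) * (t + a ^ 2 - 2 * a)) : K) = 0)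
    (by ring : (((1 * ((t ^ 2 * a - t * a - t - a ^ 2 + 2 * a)) - 0 * ((t - a * b))) * (((b - 1) * (t ^ 2 - t * a ^ 2 * b + t * a ^ 2 - 2 * t * a + a ^ 2 * b)) * 0 - (-((t - a * b) * (t * a * b - t - a ^ 2 - a * b + 2 * a))) * 1)) * (-1) - ((0 * ((t ^ 2 * a - t * a - t - a ^ 2 + 2 * a)) - 1 * ((t - a * b))) * (((t - 1) * (t * a + t - 2 * a)) * 0 - (-(t ^ 2 * a - t * a - t - a ^ 2 + 2 * a)) * 1)) * ((t * a * b - t - a ^ 2 - a * b + 2 * a)) : K) = 0)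
    (by ring : (((1 * ((t ^ 3 + t ^ 2 * a ^ 3 * b - t ^ 2 * a ^ 2 * b + t ^ 2 * a ^ 2 - t ^ 2 * a * b - 3 * t ^ 2 * a - 2 * t * a ^ 3 * b - t * a ^ 3 + 3 * t * a ^ 2 * b + 2 * t * a ^ 2 + t * a * b + a ^ 3 * b - 2 * a ^ 2 * b)) - 0 * (a * b * (t - 1) * (t - a * b))) * (((b - 1) * (t ^ 2 - t * a ^ 2 * b + t * a ^ 2 - 2 * t * a + a ^ 2 * b)) * (-((t + a ^ 2 - 2 * a) * (t - a * b))) - (-((t - a * b) * (t * a * b - t - a ^ 2 - a * b + 2 * a))) * ((t ^ 2 - t * a ^ 2 * b + t * a ^ 2 - 2 * t * a + a ^ 2 * b)))) * (a * (t - 1)) - ((0 * ((t ^ 3 + t ^ 2 * a ^ 3 * b - t ^ 2 * a ^ 2 * b + t ^ 2 * a ^ 2 - t ^ 2 * a * b - 3 * t ^ 2 * a - 2 * t * a ^ 3 * b - t * a ^ 3 + 3 * t * a ^ 2 * b + 2 * t * a ^ 2 + t * a * b + a ^ 3 * b - 2 * a ^ 2 * b)) - 1 * (a * b * (t - 1) * (t - a * b))) * (((t - 1) * (t *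 a + t - 2 * a)) * (-((t + a ^ 2 - 2 * a) * (t - a * b))) - (-(t ^ 2 * a - t * a - t - a ^ 2 + 2 * a)) * ((t ^ 2 - t * a ^ 2 * b + t * a ^ 2 - 2 * t * a + a ^ 2 * b)))) * ((a - 1) * (t ^ 2 - t * a ^ 2 * b + t * a ^ 2 - 2 * t * a + a ^ 2 * b)) : K) = 0)

theorem er2 (t a b : K) : ∀ l, dx (mv (.Kx 1 2) (F2 t a b) l) (F3 t a b l) = 0 :=
  all9 (sub_eq_zero.2 (mul_comm _ _))
    (sub_eq_zero.2 (mul_comm _ _))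
    (sub_eq_zero.2 (mul_comm _ _))
    (sub_eq_zero.2 (mul_comm _ _))
    (sub_eq_zero.2 (mul_comm _ _))
    (sub_eq_zero.2 (mul_comm _ _))
    (sub_eq_zero.2 (mul_comm _ _))
    (sub_eq_zero.2 (mul_comm _ _))
    (sub_eq_zero.2 (mul_comm _ _))

theorem va3 (h : Gen t a b) : Valid (.Ky 5 6) (F3 t a b) :=
  ⟨(nz (by ring : (1 * 1 - (-1) * 0 : K) = 1) one_ne_zero),
    (nz (by ring : ((a - 1) * (t + a ^ 2 - 2 * a)) * (-(t * a + t - 2 * a)) - a * (a * (t - 1) * (b - 1) * (t + a ^ 2 - 2 * a)) = -((t + a ^ 2 - 2 * a) * (t * a ^ 2 * b - t - a ^ 2 * b - a ^ 2 + 2 * a))) (neg_ne_zero.2 (mul_ne_zero h.f10 h.f26))),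
    all9 (fun _ _ => ⟨(nz (by ring : ((a - 1) * (t + a ^ 2 - 2 * a)) * (a * (t - 1)) - a * ((a - 1) * (t ^ 2 - t * a ^ 2 * b + t * a ^ 2 - 2 * t * a + a ^ 2 * b)) = a * (a - 1) * (t * a ^ 2 * b - t - a ^ 2 * b - a ^ 2 + 2 * a)) (mul_ne_zero (mul_ne_zero h.f1 h.f4) h.f26)),
      (nz (by ring : (a * (t - 1) * (b - 1) * (t + a ^ 2 - 2 * a)) * (a * (t - 1)) - (-(t * a + t - 2 * a)) * ((a - 1) * (t ^ 2 - t * a ^ 2 * b + t * a ^ 2 - 2 * t * a + a ^ 2 * b)) = (t - a) ^ 2 * (t * a ^ 2 * b - t - a ^ 2 * b - a ^ 2 + 2 * a)) (mul_ne_zero (pow_ne_zero 2 h.f7) h.f26))⟩)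
    (fun _ _ => ⟨(nz (by ring : ((a - 1) * (t + a ^ 2 - 2 * a)) * 1 - a * 0 = (a - 1) * (t + a ^ 2 - 2 * a)) (mul_ne_zero h.f4 h.f10)),
      (nz (by ring : (a * (t - 1) * (b - 1) * (t + a ^ 2 - 2 * a)) * 1 - (-(t * a + t - 2 * a)) * 0 = a * (t - 1) * (b - 1) * (t + a ^ 2 - 2 * a)) (mul_ne_zero (mul_ne_zero (mul_ne_zero h.f1 h.f3) h.f5) h.f10))⟩)
    (fun _ _ => ⟨(nz (by ring : ((a - 1) * (t + a ^ 2 - 2 * a)) * 0 - a * 1 = -a) (neg_ne_zero.2 h.f1)),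
      (nz (by ring : (a * (t - 1) * (b - 1) * (t + a ^ 2 - 2 * a)) * 0 - (-(t * a + t - 2 * a)) * 1 = (t * a + t - 2 * a)) h.f22)⟩)
    (fun _ _ => ⟨(nz (by ring : ((a - 1) * (t + a ^ 2 - 2 * a)) * 1 - a * 0 = (a - 1) * (t + a ^ 2 - 2 * a)) (mul_ne_zero h.f4 h.f10)),
      (nz (by ring : (a * (t - 1) * (b - 1) * (t + a ^ 2 - 2 * a)) * 1 - (-(t * a + t - 2 * a)) * 0 = a * (t - 1) * (b - 1) * (t + a ^ 2 - 2 * a)) (mul_ne_zero (mul_ne_zero (mul_ne_zero h.f1 h.f3) h.f5) h.f10))⟩)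
    (fun _ _ => ⟨(nz (by ring : ((a - 1) * (t + a ^ 2 - 2 * a)) * (-1) - a * ((t * a * b - t - a ^ 2 - a * b + 2 * a)) = -(t * a ^ 2 * b - t - a ^ 2 * b - a ^ 2 + 2 * a)) (neg_ne_zero.2 h.f26)),
      (nz (by ring : (a * (t - 1) * (b - 1) * (t + a ^ 2 - 2 * a)) * (-1) - (-(t * a + t - 2 * a)) * ((t * a * b - t - a ^ 2 - a * b + 2 * a)) = (t - a) * (t * a ^ 2 * b - t - a ^ 2 * b - a ^ 2 + 2 * a)) (mul_ne_zero h.f7 h.f26))⟩)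
    (fun e => absurd rfl e)
    (fun _ e => absurd rfl e)
    (fun _ _ => ⟨(nz (by ring : ((a - 1) * (t + a ^ 2 - 2 * a)) * (-1) - a * ((t * a * b - t - a ^ 2 - a * b + 2 * a)) = -(t * a ^ 2 * b - t - a ^ 2 * b - a ^ 2 + 2 * a)) (neg_ne_zero.2 h.f26)),
      (nz (by ring : (a * (t - 1) * (b - 1) * (t + a ^ 2 - 2 * a)) * (-1) - (-(t * a + t - 2 * a)) * ((t * a * b - t - a ^ 2 - a * b + 2 * a)) = (t - a) * (t * a ^ 2 * b - t - a ^ 2 * b - a ^ 2 + 2 * a)) (mul_ne_zero h.f7 h.f26))⟩)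
    (fun _ _ => ⟨(nz (by ring : ((a - 1) * (t + a ^ 2 - 2 * a)) * (a * (t - 1)) - a * ((a - 1) * (t ^ 2 - t * a ^ 2 * b + t * a ^ 2 - 2 * t * a + a ^ 2 * b)) = a * (a - 1) * (t * a ^ 2 * b - t - a ^ 2 * b - a ^ 2 + 2 * a)) (mul_ne_zero (mul_ne_zero h.f1 h.f4) h.f26)),
      (nz (by ring : (a * (t - 1) * (b - 1) * (t + a ^ 2 - 2 * a)) * (a * (t - 1)) - (-(t * a + t - 2 * a)) * ((a - 1) * (t ^ 2 - t * a ^ 2 * b + t * a ^ 2 - 2 * t * a + a ^ 2 * b)) = (t - a) ^ 2 * (t * a ^ 2 * b - t - a ^ 2 * b - a ^ 2 + 2 * a)) (mul_ne_zero (pow_ne_zero 2 h.f7) h.f26))⟩)⟩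

theorem eq3 (t a b : K) : ∀ l, dx (mv (.Ky 5 6) (F3 t a b) l) (F4 t a b l) = 0 :=
  all9 (by ring : (((0 * 1 - 1 * 0) * (((a - 1) * (t + a ^ 2 - 2 * a)) * (a * (t - 1)) - a * ((a - 1) * (t ^ 2 - t * a ^ 2 * b + t * a ^ 2 - 2 * t * a + a ^ 2 * b)))) * 1 - ((1 * 1 - (-1) * 0) * ((a * (t - 1) * (b - 1) * (t + a ^ 2 - 2 * a)) * (a * (t - 1)) - (-(t * a + t - 2 * a)) * ((a - 1) * (t ^ 2 - t * a ^ 2 * b + t * a ^ 2 - 2 * t * a + a ^ 2 * b)))) * 0 : K) = 0)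
    (by ring : (((0 * (-((t - a * b) * (t * a * b - t - a ^ 2 - a * b + 2 * a))) - 1 * ((b - 1) * (t ^ 2 - t * a ^ 2 * b + t * a ^ 2 - 2 * t * a + a ^ 2 * b))) * (((a - 1) * (t + a ^ 2 - 2 * a)) * 1 - a * 0)) * (a * b * (t - 1) * (t - a) ^ 2) - ((1 * (-((t - a * b) * (t * a * b - t - a ^ 2 - a * b + 2 * a))) - (-1) * ((b - 1) * (t ^ 2 - t * a ^ 2 * b + t * a ^ 2 - 2 * t * a + a ^ 2 * b))) * ((a * (t - 1) * (b - 1) * (t + a ^ 2 - 2 * a)) * 1 - (-(t * a + t - 2 * a)) * 0)) * ((t ^ 2 - t * a ^ 2 * b + t * a ^ 2 - 2 * t * a + a ^ 2 * b)) : K) = 0)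
    (by ring : (((0 * (-(t ^ 2 * a - t * a - t - a ^ 2 + 2 * a)) - 1 * ((t - 1) * (t * a + t - 2 * a))) * (((a - 1) * (t + a ^ 2 - 2 * a)) * 0 - a * 1)) * ((t - a) ^ 2) - ((1 * (-(t ^ 2 * a - t * a - t - a ^ 2 + 2 * a)) - (-1) * ((t - 1) * (t * a + t - 2 * a))) * ((a * (t - 1) * (b - 1) * (t + a ^ 2 - 2 * a)) * 0 - (-(t * a + t - 2 * a)) * 1)) * (a * (t - 1)) : K) = 0)
    (by ring : (((0 * (-1) - 1 * 1) * (((a - 1) * (t + a ^ 2 - 2 * a)) * 1 - a * 0)) * 0 - ((1 * (-1) - (-1) * 1) * ((a * (t - 1) * (b - 1) * (t + a ^ 2 - 2 * a)) * 1 - (-(t * a + t - 2 * a)) * 0)) * 1 : K) = 0)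
    (by ring : (((0 * (-1) - 1 * 1) * (((a - 1) * (t + a ^ 2 - 2 * a)) * (-1) - a * ((t * a * b - t - a ^ 2 - a * b + 2 * a)))) * 0 - ((1 * (-1) - (-1) * 1) * ((a * (t - 1) * (b - 1) * (t + a ^ 2 - 2 * a)) * (-1) - (-(t * a + t - 2 * a)) * ((t * a * b - t - a ^ 2 - a * b + 2 * a)))) * 1 : K) = 0)
    (by ring : (0 * 1 - 1 * 0 : K) = 0)
    (by ring : (1 * 0 - 0 * 1 : K) = 0)
    (by ring : (((0 * 0 - 1 * 1) * (((a - 1) * (t + a ^ 2 - 2 * a)) * (-1) - a * ((t * a * b - t - a ^ 2 - a * b + 2 * a)))) * ((t - a)) - ((1 * 0 - (-1) * 1) * ((a * (t - 1) * (b - 1) * (t + a ^ 2 - 2 * a)) * (-1) - (-(t * a + t - 2 * a)) * ((t * a * b - t - a ^ 2 - a * b + 2 * a)))) * 1 : K) = 0)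
    (by ring : (((0 * (-((t + a ^ 2 - 2 * a) * (t - a * b))) - 1 * ((t ^ 2 - t * a ^ 2 * b + t * a ^ 2 - 2 * t * a + a ^ 2 * b))) * (((a - 1) * (t + a ^ 2 - 2 * a)) * (a * (t - 1)) - a * ((a - 1) * (t ^ 2 - t * a ^ 2 * b + t * a ^ 2 - 2 * t * a + a ^ 2 * b)))) * (b * (t - a) ^ 3) - ((1 * (-((t + a ^ 2 - 2 * a) * (t - a * b))) - (-1) * ((t ^ 2 - t * a ^ 2 * b + t * a ^ 2 - 2 * t * a + a ^ 2 * b))) * ((a * (t - 1) * (b - 1) * (t + a ^ 2 - 2 * a)) * (a * (t - 1)) - (-(t * a + t - 2 * a)) * ((a - 1) * (t ^ 2 - t * a ^ 2 * b + t * a ^ 2 - 2 * t * a + a ^ 2 * b)))) * ((t ^ 2 - t * a ^ 2 * b + t * a ^ 2 - 2 * t * a + a ^ 2 * b)) : K) = 0)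

theorem er3 (t a b : K) : ∀ l, dy (mv (.Ky 5 6) (F3 t a b) l) (F4 t a b l) = 0 :=
  all9 (sub_eq_zero.2 (mul_comm _ _))
    (sub_eq_zero.2 (mul_comm _ _))
    (sub_eq_zero.2 (mul_comm _ _))
    (sub_eq_zero.2 (mul_comm _ _))
    (sub_eq_zero.2 (mul_comm _ _))
    (sub_eq_zero.2 (mul_comm _ _))
    (sub_eq_zero.2 (mul_comm _ _))
    (sub_eq_zero.2 (mul_comm _ _))
    (sub_eq_zero.2 (mul_comm _ _))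

theorem va4 (h : Gen t a b) : Valid (.Kx 1 8) (F4 t a b) :=
  ⟨(nz (by ring : 0 * (a * (t - 1)) - 1 * ((a - 1) * (t ^ 2 - t * a ^ 2 * b + t * a ^ 2 - 2 * t * a + a ^ 2 * b)) = -((a - 1) * (t ^ 2 - t * a ^ 2 * b + t * a ^ 2 - 2 * t * a + a ^ 2 * b))) (neg_ne_zero.2 (mul_ne_zero h.f4 h.f28))),
    (nz (by ring : ((t ^ 2 - t * a ^ 2 * b + t * a ^ 2 - 2 * t * a + a ^ 2 * b)) * (b * (t - a) ^ 3) - (a * b * (t - 1) * (t - a) ^ 2) * ((t ^ 2 - t * a ^ 2 * b + t * a ^ 2 - 2 * t * a + a ^ 2 * b)) = -(t * b * (a - 1) * (t - a) ^ 2 * (t ^ 2 - t * a ^ 2 * b + t * a ^ 2 - 2 * t * a + a ^ 2 * b))) (neg_ne_zero.2 (mul_ne_zero (mul_ne_zero (mul_ne_zero (mul_ne_zero h.f0 h.f2) h.f4) (pow_ne_zero 2 h.f7)) h.f28))),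
    all9 (fun _ _ => ⟨(nz (by ring : ((t ^ 2 - t * a ^ 2 * b + t * a ^ 2 - 2 * t * a + a ^ 2 * b)) * 1 - (a * b * (t - 1) * (t - a) ^ 2) * 0 = (t ^ 2 - t * a ^ 2 * b + t * a ^ 2 - 2 * t * a + a ^ 2 * b)) h.f28),
      (nz (by ring : ((t ^ 2 - t * a ^ 2 * b + t * a ^ 2 - 2 * t * a + a ^ 2 * b)) * 1 - (b * (t - a) ^ 3) * 0 = (t ^ 2 - t * a ^ 2 * b + t * a ^ 2 - 2 * t * a + a ^ 2 * b)) h.f28)⟩)
    (fun e => absurd rfl e)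
    (fun _ _ => ⟨(nz (by ring : ((t ^ 2 - t * a ^ 2 * b + t * a ^ 2 - 2 * t * a + a ^ 2 * b)) * ((t - a) ^ 2) - (a * b * (t - 1) * (t - a) ^ 2) * (a * (t - 1)) = -(t * (t - a) ^ 2 * (t * a ^ 2 * b - t - a ^ 2 * b - a ^ 2 + 2 * a))) (neg_ne_zero.2 (mul_ne_zero (mul_ne_zero h.f0 (pow_ne_zero 2 h.f7)) h.f26))),
      (nz (by ring : ((t ^ 2 - t * a ^ 2 * b + t * a ^ 2 - 2 * t * a + a ^ 2 * b)) * ((t - a) ^ 2) - (b * (t - a) ^ 3) * (a * (t - 1)) = -(t * (t - a) ^ 2 * (t * a * b - t - a ^ 2 - a * b + 2 * a))) (neg_ne_zero.2 (mul_ne_zero (mul_ne_zero h.f0 (pow_ne_zero 2 h.f7)) h.f25)))⟩)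
    (fun _ _ => ⟨(nz (by ring : ((t ^ 2 - t * a ^ 2 * b + t * a ^ 2 - 2 * t * a + a ^ 2 * b)) * 0 - (a * b * (t - 1) * (t - a) ^ 2) * 1 = -(a * b * (t - 1) * (t - a) ^ 2)) (neg_ne_zero.2 (mul_ne_zero (mul_ne_zero (mul_ne_zero h.f1 h.f2) h.f3) (pow_ne_zero 2 h.f7)))),
      (nz (by ring : ((t ^ 2 - t * a ^ 2 * b + t * a ^ 2 - 2 * t * a + a ^ 2 * b)) * 0 - (b * (t - a) ^ 3) * 1 = -(b * (t - a) ^ 3)) (neg_ne_zero.2 (mul_ne_zero h.f2 (pow_ne_zero 3 h.f7))))⟩)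
    (fun _ _ => ⟨(nz (by ring : ((t ^ 2 - t * a ^ 2 * b + t * a ^ 2 - 2 * t * a + a ^ 2 * b)) * 0 - (a * b * (t - 1) * (t - a) ^ 2) * 1 = -(a * b * (t - 1) * (t - a) ^ 2)) (neg_ne_zero.2 (mul_ne_zero (mul_ne_zero (mul_ne_zero h.f1 h.f2) h.f3) (pow_ne_zero 2 h.f7)))),
      (nz (by ring : ((t ^ 2 - t * a ^ 2 * b + t * a ^ 2 - 2 * t * a + a ^ 2 * b)) * 0 - (b * (t - a) ^ 3) * 1 = -(b * (t - a) ^ 3)) (neg_ne_zero.2 (mul_ne_zero h.f2 (pow_ne_zero 3 h.f7))))⟩)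
    (fun _ _ => ⟨(nz (by ring : ((t ^ 2 - t * a ^ 2 * b + t * a ^ 2 - 2 * t * a + a ^ 2 * b)) * 1 - (a * b * (t - 1) * (t - a) ^ 2) * 0 = (t ^ 2 - t * a ^ 2 * b + t * a ^ 2 - 2 * t * a + a ^ 2 * b)) h.f28),
      (nz (by ring : ((t ^ 2 - t * a ^ 2 * b + t * a ^ 2 - 2 * t * a + a ^ 2 * b)) * 1 - (b * (t - a) ^ 3) * 0 = (t ^ 2 - t * a ^ 2 * b + t * a ^ 2 - 2 * t * a + a ^ 2 * b)) h.f28)⟩)
    (fun _ _ => ⟨(nz (by ring : ((t ^ 2 - t * a ^ 2 * b + t * a ^ 2 - 2 * t * a + a ^ 2 * b)) * 0 - (a * b * (t - 1) * (t - a) ^ 2) * 1 = -(a * b * (t - 1) * (t - a) ^ 2)) (neg_ne_zero.2 (mul_ne_zero (mul_ne_zero (mul_ne_zero h.f1 h.f2) h.f3) (pow_ne_zero 2 h.f7)))),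
      (nz (by ring : ((t ^ 2 - t * a ^ 2 * b + t * a ^ 2 - 2 * t * a + a ^ 2 * b)) * 0 - (b * (t - a) ^ 3) * 1 = -(b * (t - a) ^ 3)) (neg_ne_zero.2 (mul_ne_zero h.f2 (pow_ne_zero 3 h.f7))))⟩)
    (fun _ _ => ⟨(nz (by ring : ((t ^ 2 - t * a ^ 2 * b + t * a ^ 2 - 2 * t * a + a ^ 2 * b)) * ((t - a)) - (a * b * (t - 1) * (t - a) ^ 2) * 1 = -(t * (t - a) * (t * a * b - t - a ^ 2 - a * b + 2 * a))) (neg_ne_zero.2 (mul_ne_zero (mul_ne_zero h.f0 h.f7) h.f25))),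
      (nz (by ring : ((t ^ 2 - t * a ^ 2 * b + t * a ^ 2 - 2 * t * a + a ^ 2 * b)) * ((t - a)) - (b * (t - a) ^ 3) * 1 = -(t * (b - 1) * (t - a) * (t + a ^ 2 - 2 * a))) (neg_ne_zero.2 (mul_ne_zero (mul_ne_zero (mul_ne_zero h.f0 h.f5) h.f7) h.f10)))⟩)
    (fun _ e => absurd rfl e)⟩

theorem eq4 (t a b : K) : ∀ l, dy (mv (.Kx 1 8) (F4 t a b) l) (F5 t a b l) = 0 :=
  all9 (by ring : (((((a - 1) * (t ^ 2 - t * a ^ 2 * b + t * a ^ 2 - 2 * t * a + a ^ 2 * b)) * (a * (t - 1)) - (a * (t - 1)) * ((a - 1) * (t ^ 2 - t * a ^ 2 * b + t * a ^ 2 - 2 * t * a + a ^ 2 * b))) * (((t ^ 2 - t * a ^ 2 * b + t * a ^ 2 - 2 * t * a + a ^ 2 * b)) * 1 - (a * b * (t - 1) * (t - a) ^ 2) * 0)) * 1 - ((0 * (a * (t - 1)) - 1 * ((a - 1) * (t ^ 2 - t * a ^ 2 * b + t * a ^ 2 - 2 * t * a + a ^ 2 * b))) * (((t ^ 2 - t * a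 ^ 2 * b + t * a ^ 2 - 2 * t * a + a ^ 2 * b)) * 1 - (b * (t - a) ^ 3) * 0)) * 0 : K) = 0)
    (by ring : (0 * 1 - 1 * 0 : K) = 0)
    (by ring : (((((a - 1) * (t ^ 2 - t * a ^ 2 * b + t * a ^ 2 - 2 * t * a + a ^ 2 * b)) * 0 - (a * (t - 1)) * 1) * (((t ^ 2 - t * a ^ 2 * b + t * a ^ 2 - 2 * t * a + a ^ 2 * b)) * ((t - a) ^ 2) - (a * b * (t - 1) * (t - a) ^ 2) * (a * (t - 1)))) * ((t * a * b - t - a ^ 2 - a * b + 2 * a)) - ((0 * 0 - 1 * 1) * (((t ^ 2 - t * a ^ 2 * b + t * a ^ 2 - 2 * t * a + a ^ 2 * b)) * ((t - a) ^ 2) - (b * (t - a) ^ 3) * (a * (t - 1)))) * (a * (t - 1) * (t * a ^ 2 * b - t - a ^ 2 * b - a ^ 2 + 2 * a)) : K) = 0)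
    (by ring : (((((a - 1) * (t ^ 2 - t * a ^ 2 * b + t * a ^ 2 - 2 * t * a + a ^ 2 * b)) * 1 - (a * (t - 1)) * 0) * (((t ^ 2 - t * a ^ 2 * b + t * a ^ 2 - 2 * t * a + a ^ 2 * b)) * 0 - (a * b * (t - 1) * (t - a) ^ 2) * 1)) * 0 - ((0 * 1 - 1 * 0) * (((t ^ 2 - t * a ^ 2 * b + t * a ^ 2 - 2 * t * a + a ^ 2 * b)) * 0 - (b * (t - a) ^ 3) * 1)) * 1 : K) = 0)
    (by ring : (((((a - 1) * (t ^ 2 - t * a ^ 2 * b + t * a ^ 2 - 2 * t * a + a ^ 2 * b)) * (-1) - (a * (t - 1)) * ((t * a * b - t - a ^ 2 - a * b + 2 * a))) * (((t ^ 2 - t * a ^ 2 * b + t * a ^ 2 - 2 * t * a + a ^ 2 * b)) * 0 - (a * b * (t - 1) * (t - a) ^ 2) * 1)) * ((t * a * b - t - a ^ 2 - a * b + 2 * a)) - ((0 * (-1) - 1 * ((t * a * b - t - a ^ 2 - a * b + 2 * a))) * (((t ^ 2 - t * a ^ 2 * b + t * a ^ 2 - 2 * t * a + a ^ 2 * b)) * 0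 - (b * (t - a) ^ 3) * 1)) * (a * (t - 1) * (t * a ^ 2 * b - t - a ^ 2 * b - a ^ 2 + 2 * a)) : K) = 0)
    (by ring : (((((a - 1) * (t ^ 2 - t * a ^ 2 * b + t * a ^ 2 - 2 * t * a + a ^ 2 * b)) * a - (a * (t - 1)) * ((a - 1) * (t + a ^ 2 - 2 * a))) * (((t ^ 2 - t * a ^ 2 * b + t * a ^ 2 - 2 * t * a + a ^ 2 * b)) * 1 - (a * b * (t - 1) * (t - a) ^ 2) * 0)) * ((t + a ^ 2 - 2 * a)) - ((0 * a - 1 * ((a - 1) * (t + a ^ 2 - 2 * a))) * (((t ^ 2 - t * a ^ 2 * b + t * a ^ 2 - 2 * t * a + a ^ 2 * b)) * 1 - (b * (t - a) ^ 3) * 0)) * (a * (t * a ^ 2 * b - t - a ^ 2 * b - a ^ 2 + 2 * a)) : K) = 0)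
    (by ring : (((((a - 1) * (t ^ 2 - t * a ^ 2 * b + t * a ^ 2 - 2 * t * a + a ^ 2 * b)) * (-(t * a + t - 2 * a)) - (a * (t - 1)) * (a * (t - 1) * (b - 1) * (t + a ^ 2 - 2 * a))) * (((t ^ 2 - t * a ^ 2 * b + t * a ^ 2 - 2 * t * a + a ^ 2 * b)) * 0 - (a * b * (t - 1) * (t - a) ^ 2) * 1)) * ((b - 1) * (t + a ^ 2 - 2 * a)) - ((0 * (-(t * a + t - 2 * a)) - 1 * (a * (t - 1) * (b - 1) * (t + a ^ 2 - 2 * a))) * (((t ^ 2 - t * a ^ 2 * b + t * a ^ 2 - 2 * t * a + a ^ 2 * b)) * 0 - (b * (t - a) ^ 3) * 1)) * ((t - a) * (t * a ^ 2 * b - t - a ^ 2 * b - a ^ 2 + 2 * a)) : K) = 0)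
    (by ring : (((((a - 1) * (t ^ 2 - t * a ^ 2 * b + t * a ^ 2 - 2 * t * a + a ^ 2 * b)) * (-1) - (a * (t - 1)) * ((t * a * b - t - a ^ 2 - a * b + 2 * a))) * (((t ^ 2 - t * a ^ 2 * b + t * a ^ 2 - 2 * t * a + a ^ 2 * b)) * ((t - a)) - (a * b * (t - 1) * (t - a) ^ 2) * 1)) * ((b - 1) * (t + a ^ 2 - 2 * a)) - ((0 * (-1) - 1 * ((t * a * b - t - a ^ 2 - a * b + 2 * a))) * (((t ^ 2 - t * a ^ 2 * b + t * a ^ 2 - 2 * t * a + a ^ 2 * b)) * ((t - a)) - (b * (t - a) ^ 3) * 1)) * ((t - a) * (t * a ^ 2 * b - t - a ^ 2 * b - a ^ 2 + 2 * a)) : K) = 0)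
    (by ring : (1 * 0 - 0 * 1 : K) = 0)

theorem er4 (t a b : K) : ∀ l, dx (mv (.Kx 1 8) (F4 t a b) l) (F5 t a b l) = 0 :=
  all9 (sub_eq_zero.2 (mul_comm _ _))
    (sub_eq_zero.2 (mul_comm _ _))
    (sub_eq_zero.2 (mul_comm _ _))
    (sub_eq_zero.2 (mul_comm _ _))
    (sub_eq_zero.2 (mul_comm _ _))
    (sub_eq_zero.2 (mul_comm _ _))
    (sub_eq_zero.2 (mul_comm _ _))
    (sub_eq_zero.2 (mul_comm _ _))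
    (sub_eq_zero.2 (mul_comm _ _))

theorem va5 (h : Gen t a b) : Valid (.X3 8 7 6) (F5 t a b) :=
  ⟨(nz (by ring : ((t ^ 2 - t * a ^ 2 * b + t * a ^ 2 - 2 * t * a + a ^ 2 * b)) * ((t - a)) - (b * (t - a) ^ 3) * 1 = -(t * (b - 1) * (t - a) * (t + a ^ 2 - 2 * a))) (neg_ne_zero.2 (mul_ne_zero (mul_ne_zero (mul_ne_zero h.f0 h.f5) h.f7) h.f10))),
    (nz (by ring : ((t ^ 2 - t * a ^ 2 * b + t * a ^ 2 - 2 * t * a + a ^ 2 * b)) * 0 - (b * (t - a) ^ 3) * 1 = -(b * (t - a) ^ 3)) (neg_ne_zero.2 (mul_ne_zero h.f2 (pow_ne_zero 3 h.f7)))),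
    (nz (by ring : 1 * 0 - ((t - a)) * 1 = -(t - a)) (neg_ne_zero.2 h.f7))⟩

theorem eq5 (t a b : K) : ∀ l, dx (mv (.X3 8 7 6) (F5 t a b) l) (F6 t a b l) = 0 :=
  all9 (by ring : (((((t ^ 2 - t * a ^ 2 * b + t * a ^ 2 - 2 * t * a + a ^ 2 * b)) * 1 - (b * (t - a) ^ 3) * 0) * (1 * 0 - ((t - a)) * 1)) * (b * (t - a) ^ 2) - ((1 * 1 - ((t - a)) * 0) * (((t ^ 2 - t * a ^ 2 * b + t * a ^ 2 - 2 * t * a + a ^ 2 * b)) * 0 - (b * (t - a) ^ 3) * 1)) * ((t ^ 2 - t * a ^ 2 * b + t * a ^ 2 - 2 * t * a + a ^ 2 * b)) : K) = 0)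
    (by ring : (((((t ^ 2 - t * a ^ 2 * b + t * a ^ 2 - 2 * t * a + a ^ 2 * b)) * (a * b * (t - 1) * (t - a) ^ 2) - (b * (t - a) ^ 3) * ((t ^ 2 - t * a ^ 2 * b + t * a ^ 2 - 2 * t * a + a ^ 2 * b))) * (1 * 0 - ((t - a)) * 1)) * ((t - a) * (t * a * b - t - a ^ 2 - a * b + 2 * a)) - ((1 * (a * b * (t - 1) * (t - a) ^ 2) - ((t - a)) * ((t ^ 2 - t * a ^ 2 * b + t * a ^ 2 - 2 * t * a + a ^ 2 * b))) * (((t ^ 2 - t * a ^ 2 * b + t * a ^ 2 - 2 * t * a + a ^ 2 * b)) * 0 - (b * (t - a) ^ 3) * 1)) * ((a - 1) * (t ^ 2 - t * a ^ 2 * b + t * a ^ 2 - 2 * t * a + a ^ 2 * b)) : K) = 0)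
    (by ring : (((((t ^ 2 - t * a ^ 2 * b + t * a ^ 2 - 2 * t * a + a ^ 2 * b)) * ((t - a) ^ 2) - (b * (t - a) ^ 3) * (a * (t - 1))) * (1 * 0 - ((t - a)) * 1)) * (b * (a - 1) * (t - a)) - ((1 * ((t - a) ^ 2) - ((t - a)) * (a * (t - 1))) * (((t ^ 2 - t * a ^ 2 * b + t * a ^ 2 - 2 * t * a + a ^ 2 * b)) * 0 - (b * (t - a) ^ 3) * 1)) * ((t * a * b - t - a ^ 2 - a * b + 2 * a)) : K) = 0)
    (by ring : (((((t ^ 2 - t * a ^ 2 * b + t * a ^ 2 - 2 * t * a + a ^ 2 * b)) * 0 - (b * (t - a) ^ 3) * 1) * (1 * 0 - ((t - a)) * 1)) * 1 - ((1 * 0 - ((t - a)) * 1) * (((t ^ 2 - t * a ^ 2 * b + t * a ^ 2 - 2 * t * a + a ^ 2 * b)) * 0 - (b * (t - a) ^ 3) * 1)) * 1 : K) = 0)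
    (by ring : (((((t ^ 2 - t * a ^ 2 * b + t * a ^ 2 - 2 * t * a + a ^ 2 * b)) * 0 - (b * (t - a) ^ 3) * 1) * (1 * 0 - ((t - a)) * 1)) * 1 - ((1 * 0 - ((t - a)) * 1) * (((t ^ 2 - t * a ^ 2 * b + t * a ^ 2 - 2 * t * a + a ^ 2 * b)) * 0 - (b * (t - a) ^ 3) * 1)) * 1 : K) = 0)
    (by ring : (((((t ^ 2 - t * a ^ 2 * b + t * a ^ 2 - 2 * t * a + a ^ 2 * b)) * 1 - (b * (t - a) ^ 3) * 0) * (1 * 0 - ((t - a)) * 1)) * (b * (t - a) ^ 2) - ((1 * 1 - ((t - a)) * 0) * (((t ^ 2 - t * a ^ 2 * b + t * a ^ 2 - 2 * t * a + a ^ 2 * b)) * 0 - (b * (t - a) ^ 3) * 1)) * ((t ^ 2 - t * a ^ 2 * b + t * a ^ 2 - 2 * t * a + a ^ 2 * b)) : K) = 0)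
    (by ring : (((((t ^ 2 - t * a ^ 2 * b + t * a ^ 2 - 2 * t * a + a ^ 2 * b)) * 0 - (b * (t - a) ^ 3) * 1) * (1 * 0 - ((t - a)) * 1)) * 1 - ((1 * 0 - ((t - a)) * 1) * (((t ^ 2 - t * a ^ 2 * b + t * a ^ 2 - 2 * t * a + a ^ 2 * b)) * 0 - (b * (t - a) ^ 3) * 1)) * 1 : K) = 0)
    (by ring : (((((t ^ 2 - t * a ^ 2 * b + t * a ^ 2 - 2 * t * a + a ^ 2 * b)) * ((t - a)) - (b * (t - a) ^ 3) * 1) * (1 * 0 - ((t - a)) * 1)) * 0 - ((1 * ((t - a)) - ((t - a)) * 1) * (((t ^ 2 - t * a ^ 2 * b + t * a ^ 2 - 2 * t * a + a ^ 2 * b)) * 0 - (b * (t - a) ^ 3) * 1)) * 1 : K) = 0)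
    (by ring : (((((t ^ 2 - t * a ^ 2 * b + t * a ^ 2 - 2 * t * a + a ^ 2 * b)) * (b * (t - a) ^ 3) - (b * (t - a) ^ 3) * ((t ^ 2 - t * a ^ 2 * b + t * a ^ 2 - 2 * t * a + a ^ 2 * b))) * (1 * 0 - ((t - a)) * 1)) * 1 - ((1 * (b * (t - a) ^ 3) - ((t - a)) * ((t ^ 2 - t * a ^ 2 * b + t * a ^ 2 - 2 * t * a + a ^ 2 * b))) * (((t ^ 2 - t * a ^ 2 * b + t * a ^ 2 - 2 * t * a + a ^ 2 * b)) * 0 - (b * (t - a) ^ 3) * 1)) * 0 : K) = 0)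

theorem er5 (t a b : K) : ∀ l, dy (mv (.X3 8 7 6) (F5 t a b) l) (F6 t a b l) = 0 :=
  all9 (sub_eq_zero.2 (mul_comm _ _))
    (sub_eq_zero.2 (mul_comm _ _))
    (sub_eq_zero.2 (mul_comm _ _))
    (sub_eq_zero.2 (mul_comm _ _))
    (sub_eq_zero.2 (mul_comm _ _))
    (sub_eq_zero.2 (mul_comm _ _))
    (sub_eq_zero.2 (mul_comm _ _))
    (sub_eq_zero.2 (mul_comm _ _))
    (sub_eq_zero.2 (mul_comm _ _))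

theorem va6 (h : Gen t a b) : Valid (.Y3 8 7 4) (F6 t a b) :=
  ⟨(nz (by ring : 1 * ((b - 1) * (t + a ^ 2 - 2 * a)) - 0 * ((t - a) * (t * a ^ 2 * b - t - a ^ 2 * b - a ^ 2 + 2 * a)) = (b - 1) * (t + a ^ 2 - 2 * a)) (mul_ne_zero h.f5 h.f10)),
    (nz (by ring : 1 * ((t * a * b - t - a ^ 2 - a * b + 2 * a)) - 0 * (a * (t - 1) * (t * a ^ 2 * b - t - a ^ 2 * b - a ^ 2 + 2 * a)) = (t * a * b - t - a ^ 2 - a * b + 2 * a)) h.f25),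
    (nz (by ring : ((t - a) * (t * a ^ 2 * b - t - a ^ 2 * b - a ^ 2 + 2 * a)) * ((t * a * b - t - a ^ 2 - a * b + 2 * a)) - ((b - 1) * (t + a ^ 2 - 2 * a)) * (a * (t - 1) * (t * a ^ 2 * b - t - a ^ 2 * b - a ^ 2 + 2 * a)) = (a - 1) * (t * a ^ 2 * b - t - a ^ 2 * b - a ^ 2 + 2 * a) * (t ^ 2 - t * a ^ 2 * b + t * a ^ 2 - 2 * t * a + a ^ 2 * b)) (mul_ne_zero (mul_ne_zero h.f4 h.f26) h.f28))⟩

theorem eq6 (t a b : K) : ∀ l, dy (mv (.Y3 8 7 4) (F6 t a b) l) (F7 t a b l) = 0 :=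
  all9 (by ring : (((1 * 1 - 0 * 0) * (((t - a) * (t * a ^ 2 * b - t - a ^ 2 * b - a ^ 2 + 2 * a)) * ((t * a * b - t - a ^ 2 - a * b + 2 * a)) - ((b - 1) * (t + a ^ 2 - 2 * a)) * (a * (t - 1) * (t * a ^ 2 * b - t - a ^ 2 * b - a ^ 2 + 2 * a)))) * ((t - a) * (t * a * b - t - a ^ 2 - a * b + 2 * a)) - ((((t - a) * (t * a ^ 2 * b - t - a ^ 2 * b - a ^ 2 + 2 * a)) * 1 - ((b - 1) * (t + a ^ 2 - 2 * a)) * 0) * (1 * ((t * a * b - t - a ^ 2 - a * b + 2 * a)) - 0 * (a * (t - 1) * (t * a ^ 2 * b - t - a ^ 2 * b - a ^ 2 + 2 * a)))) * ((a - 1) * (t ^ 2 - t * a ^ 2 * b + t * a ^ 2 - 2 * t * a + a ^ 2 * b)) : K) = 0)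
    (by ring : (((1 * 1 - 0 * 0) * (((t - a) * (t * a ^ 2 * b - t - a ^ 2 * b - a ^ 2 + 2 * a)) * ((t * a * b - t - a ^ 2 - a * b + 2 * a)) - ((b - 1) * (t + a ^ 2 - 2 * a)) * (a * (t - 1) * (t * a ^ 2 * b - t - a ^ 2 * b - a ^ 2 + 2 * a)))) * ((t - a) * (t * a * b - t - a ^ 2 - a * b + 2 * a)) - ((((t - a) * (t * a ^ 2 * b - t - a ^ 2 * b - a ^ 2 + 2 * a)) * 1 - ((b - 1) * (t + a ^ 2 - 2 * a)) * 0) * (1 * ((t * a * b - t - a ^ 2 - a * b + 2 * a)) - 0 * (a * (t - 1) * (t * a ^ 2 * b - t - a ^ 2 * b - a ^ 2 + 2 * a)))) * ((a - 1) * (t ^ 2 - t * a ^ 2 * b + t * a ^ 2 - 2 * t * a + a ^ 2 * b)) : K) = 0)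
    (by ring : (((1 * ((t * a * b - t - a ^ 2 - a * b + 2 * a)) - 0 * (a * (t - 1) * (t * a ^ 2 * b - t - a ^ 2 * b - a ^ 2 + 2 * a))) * (((t - a) * (t * a ^ 2 * b - t - a ^ 2 * b - a ^ 2 + 2 * a)) * ((t * a * b - t - a ^ 2 - a * b + 2 * a)) - ((b - 1) * (t + a ^ 2 - 2 * a)) * (a * (t - 1) * (t * a ^ 2 * b - t - a ^ 2 * b - a ^ 2 + 2 * a)))) * 1 - ((((t - a) * (t * a ^ 2 * b - t - a ^ 2 * b - a ^ 2 + 2 * a)) * ((t * a * b - t - a ^ 2 - a * b + 2 * a)) - ((b - 1) * (t + a ^ 2 - 2 * a)) * (a * (t - 1) * (t * a ^ 2 * b - t - a ^ 2 * b - a ^ 2 + 2 * a))) * (1 * ((t * a * b - t - a ^ 2 - a * b + 2 * a)) - 0 * (a * (t - 1) * (t * a ^ 2 * b - t - a ^ 2 * b - a ^ 2 + 2 * a)))) * 1 : K) = 0)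
    (by ring : (((1 * 0 - 0 * 1) * (((t - a) * (t * a ^ 2 * b - t - a ^ 2 * b - a ^ 2 + 2 * a)) * ((t * a * b - t - a ^ 2 - a * b + 2 * a)) - ((b - 1) * (t + a ^ 2 - 2 * a)) * (a * (t - 1) * (t * a ^ 2 * b - t - a ^ 2 * b - a ^ 2 + 2 * a)))) * 1 - ((((t - a) * (t * a ^ 2 * b - t - a ^ 2 * b - a ^ 2 + 2 * a)) * 0 - ((b - 1) * (t + a ^ 2 - 2 * a)) * 1) * (1 * ((t * a * b - t - a ^ 2 - a * b + 2 * a)) - 0 * (a * (t - 1) * (t * a ^ 2 * b - t - a ^ 2 * b - a ^ 2 + 2 * a)))) * 0 : K) = 0)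
    (by ring : (((1 * ((t * a * b - t - a ^ 2 - a * b + 2 * a)) - 0 * (a * (t - 1) * (t * a ^ 2 * b - t - a ^ 2 * b - a ^ 2 + 2 * a))) * (((t - a) * (t * a ^ 2 * b - t - a ^ 2 * b - a ^ 2 + 2 * a)) * ((t * a * b - t - a ^ 2 - a * b + 2 * a)) - ((b - 1) * (t + a ^ 2 - 2 * a)) * (a * (t - 1) * (t * a ^ 2 * b - t - a ^ 2 * b - a ^ 2 + 2 * a)))) * 1 - ((((t - a) * (t * a ^ 2 * b - t - a ^ 2 * b - a ^ 2 + 2 * a)) * ((t * a * b - t - a ^ 2 - a * b + 2 * a)) - ((b - 1) * (t + a ^ 2 - 2 * a)) * (a * (t - 1) * (t * a ^ 2 * b - t - a ^ 2 * b - a ^ 2 + 2 * a))) * (1 * ((t * a * b - t - a ^ 2 - a * b + 2 * a)) - 0 * (a * (t - 1) * (t * a ^ 2 * b - t - a ^ 2 * b - a ^ 2 + 2 * a)))) * 1 : K) = 0)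
    (by ring : (((1 * ((t + a ^ 2 - 2 * a)) - 0 * (a * (t * a ^ 2 * b - t - a ^ 2 * b - a ^ 2 + 2 * a))) * (((t - a) * (t * a ^ 2 * b - t - a ^ 2 * b - a ^ 2 + 2 * a)) * ((t * a * b - t - a ^ 2 - a * b + 2 * a)) - ((b - 1) * (t + a ^ 2 - 2 * a)) * (a * (t - 1) * (t * a ^ 2 * b - t - a ^ 2 * b - a ^ 2 + 2 * a)))) * ((t - a * b) * (t * a * b - t - a ^ 2 - a * b + 2 * a)) - ((((t - a) * (t * a ^ 2 * b - t - a ^ 2 * b - a ^ 2 + 2 * a)) * ((t + a ^ 2 - 2 * a)) - ((b - 1) * (t + a ^ 2 - 2 * a)) * (a * (t * a ^ 2 * b - t - a ^ 2 * b - a ^ 2 + 2 * a))) * (1 * ((t * a * b - t - a ^ 2 - a * b + 2 * a)) - 0 * (a * (t - 1) * (t * a ^ 2 * b - t - a ^ 2 * b - a ^ 2 + 2 * a)))) * ((a - 1) * (t ^ 2 - t * a ^ 2 * b + t * a ^ 2 - 2 * t * a + a ^ 2 * b)) : K) = 0)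
    (by ring : (((1 * ((b - 1) * (t + a ^ 2 - 2 * a)) - 0 * ((t - a) * (t * a ^ 2 * b - t - a ^ 2 * b - a ^ 2 + 2 * a))) * (((t - a) * (t * a ^ 2 * b - t - a ^ 2 * b - a ^ 2 + 2 * a)) * ((t * a * b - t - a ^ 2 - a * b + 2 * a)) - ((b - 1) * (t + a ^ 2 - 2 * a)) * (a * (t - 1) * (t * a ^ 2 * b - t - a ^ 2 * b - a ^ 2 + 2 * a)))) * 0 - ((((t - a) * (t * a ^ 2 * b - t - a ^ 2 * b - a ^ 2 + 2 * a)) * ((b - 1) * (t + a ^ 2 - 2 * a)) - ((b - 1) * (t + a ^ 2 - 2 * a)) * ((t - a) * (t * a ^ 2 * b - t - a ^ 2 * b - a ^ 2 + 2 * a))) * (1 * ((t * a * b - t - a ^ 2 - a * b + 2 * a)) - 0 * (a * (t - 1) * (t * a ^ 2 * b - t - a ^ 2 * b - a ^ 2 + 2 * a)))) * 1 : K) = 0)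
    (by ring : (((1 * ((b - 1) * (t + a ^ 2 - 2 * a)) - 0 * ((t - a) * (t * a ^ 2 * b - t - a ^ 2 * b - a ^ 2 + 2 * a))) * (((t - a) * (t * a ^ 2 * b - t - a ^ 2 * b - a ^ 2 + 2 * a)) * ((t * a * b - t - a ^ 2 - a * b + 2 * a)) - ((b - 1) * (t + a ^ 2 - 2 * a)) * (a * (t - 1) * (t * a ^ 2 * b - t - a ^ 2 * b - a ^ 2 + 2 * a)))) * 0 - ((((t - a) * (t * a ^ 2 * b - t - a ^ 2 * b - a ^ 2 + 2 * a)) * ((b - 1) * (t + a ^ 2 - 2 * a)) - ((b - 1) * (t + a ^ 2 - 2 * a)) * ((t - a) * (t * a ^ 2 * b - t - a ^ 2 * b - a ^ 2 + 2 * a))) * (1 * ((t * a * b - t - a ^ 2 - a * b + 2 * a)) - 0 * (a * (t - 1) * (t * a ^ 2 * b - t - a ^ 2 * b - a ^ 2 + 2 * a)))) * 1 : K) = 0)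
    (by ring : (((1 * 0 - 0 * 1) * (((t - a) * (t * a ^ 2 * b - t - a ^ 2 * b - a ^ 2 + 2 * a)) * ((t * a * b - t - a ^ 2 - a * b + 2 * a)) - ((b - 1) * (t + a ^ 2 - 2 * a)) * (a * (t - 1) * (t * a ^ 2 * b - t - a ^ 2 * b - a ^ 2 + 2 * a)))) * 1 - ((((t - a) * (t * a ^ 2 * b - t - a ^ 2 * b - a ^ 2 + 2 * a)) * 0 - ((b - 1) * (t + a ^ 2 - 2 * a)) * 1) * (1 * ((t * a * b - t - a ^ 2 - a * b + 2 * a)) - 0 * (a * (t - 1) * (t * a ^ 2 * b - t - a ^ 2 * b - a ^ 2 + 2 * a)))) * 0 : K) = 0)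

theorem er6 (t a b : K) : ∀ l, dx (mv (.Y3 8 7 4) (F6 t a b) l) (F7 t a b l) = 0 :=
  all9 (sub_eq_zero.2 (mul_comm _ _))
    (sub_eq_zero.2 (mul_comm _ _))
    (sub_eq_zero.2 (mul_comm _ _))
    (sub_eq_zero.2 (mul_comm _ _))
    (sub_eq_zero.2 (mul_comm _ _))
    (sub_eq_zero.2 (mul_comm _ _))
    (sub_eq_zero.2 (mul_comm _ _))
    (sub_eq_zero.2 (mul_comm _ _))
    (sub_eq_zero.2 (mul_comm _ _))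

/-- the word -/
def wd : List (Letter (Fin 9)) := [.Kx 1 2, .Ky 0 7, .Kx 1 2, .Ky 5 6, .Kx 1 8]

theorem rk_F (h : Gen t a b) (u : Cls (Fin 9)) : rk (F0 t a b) u = rk (F7 t a b) (acW wd u) := by
  rw [rk_step (va0 h) (pt0 h) (pt1 h) (er0 t a b) (eq0 t a b),
    rk_step (va1 h) (pt1 h) (pt2 h) (eq1 t a b) (er1 t a b),
    rk_step (va2 h) (pt2 h) (pt3 h) (er2 t a b) (eq2 t a b),
    rk_step (va3 h) (pt3 h) (pt4 h) (eq3 t a b) (er3 t a b),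
    rk_step (va4 h) (pt4 h) (pt5 h) (er4 t a b) (eq4 t a b),
    rk_step (va5 h) (pt5 h) (pt6 h) (eq5 t a b) (er5 t a b),
    rk_step (va6 h) (pt6 h) (pt7 h) (er6 t a b) (eq6 t a b)]
  rfl

end Pool.Agent.Lib.MP_d03834_ag.Core.N11Sh
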