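import Pool.Agent.Lib.MP_d03834_ag.Core.KPC
import Pool.Agent.Lib.MP_d03834_ag.Core.Start
import Pool.Agent.Lib.MP_d03834_ag.Core.Tower

/-! Start states from the calculator. -/

set_option autoImplicit false

namespace Pool.Agent.Lib.MP_d03834_ag.Core

open Module

section

variable {O k Γ : Type} [CommRing O] [Field k] [LinearOrderedCommGroupWithZero Γ] [CharZero k]
  {A : Arc O k} {v : Valuation k Γ} {s : k} {D : Mon} {UL OL EL : List CL} {c : CCfg O k}
  {χ : CL → k} {u : CL}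

/-- a start state from the check -/
theorem Sta.of_ok (shp : Shp A c.toCfg χ) (ex : Ex A c) (ch : IsCh χ) (T : Triv v s)
    (hD : D.Ok UL OL EL) (h : Lead v s D χ) (hO : ∀ g ∈ OL, χ g = 1) (hM : u ∈ cD.M)
    (hU : ∀ g ∈ UL, 0 ≤ cip u g) (hE : ∀ α ∈ EL, 0 ≤ cip u α) : Sta A v c χ u :=
  ⟨shp, ex, ch, start_le T hD h, start_nb T hD h hO, hM, start_pos T hD h hU,
    start_rt T hD h hE⟩

/-- a start state for the monomial character -/
theorem Sta.of_mon (shp : Shp A c.toCfg (D.chi s)) (ex : Ex A c) (T : Triv v s)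
    (hD : D.Ok UL OL EL) (hO : ∀ g ∈ OL, cip D.lam g = 0 ∧ D.cq g = 1) (hM : u ∈ cD.M)
    (hU : ∀ g ∈ UL, 0 ≤ cip u g) (hE : ∀ α ∈ EL, 0 ≤ cip u α) : Sta A v c (D.chi s) u :=
  Sta.of_ok shp ex (hD.1.chi T.s0) T hD (Lead.self hD.1 T.s0) (Mon.chi_one T.s0 hO) hM hU hE

/-- the two bounds from the check -/
theorem KPC.of_ok {K : Type} [Field K] [Algebra O K] (hK : KPC A K v) (shp : Shp A c.toCfg χ)
    (ex : Ex A c) (ch : IsCh χ) (T : Triv v s) (hD : D.Ok UL OL EL) (h : Lead v s D χ)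
    (hO : ∀ g ∈ OL, χ g = 1) (hM : u ∈ cD.M) (hU : ∀ g ∈ UL, 0 ≤ cip u g)
    (hE : ∀ α ∈ EL, 0 ≤ cip u α) {ε : ℤ} (hε : ε = 0 ∨ ε = 1) :
    (0 < cip u u → (finrank K (c.HC A K ε u) : ℤ) ≤ 1 + cip u u / 2) ∧
      (cip u u < 0 → finrank K (c.HC A K ε u) = 0) :=
  hK c χ u ε (Sta.of_ok shp ex ch T hD h hO hM hU hE) hε

theorem Triv.pow (T : Triv v s) {n : ℕ} (hn : n ≠ 0) : Triv v (s ^ n) :=
  ⟨pow_ne_zero _ T.s0, by rw [map_pow]; exact pow_lt_one' T.lt hn, T.rat⟩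

theorem Triv.two (T : Triv v s) : v 2 = 1 := by simpa using T.rat 2 two_ne_zero

theorem Triv.three (T : Triv v s) : v 3 = 1 := by simpa using T.rat 3 three_ne_zero

end

/-- the X-adic valuation on rational functions -/
theorem triv_vX (F : Type) [Field F] [CharZero F] : Triv (vX F) RatFunc.X := by
  refine ⟨RatFunc.X_ne_zero, ?_, fun q hq => ?_⟩
  · rw [← zpow_one RatFunc.X, vX_zpow, ex_lt]
    exact one_pos
  · rw [← map_ratCast (RatFunc.C : F →+* RatFunc F) q]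
    exact vX_C (by exact_mod_cast hq)

/-- leading terms in the sense of the tower file are leading terms in the sense of Nr -/
theorem Ld.nr {F : Type} [Field F] {z : RatFunc F} {c : F} {a : ℤ} (h : Ld z c a) :
    Nr (vX F) z (RatFunc.C c * RatFunc.X ^ a) := by
  rw [Nr, vX_mon h.c0]
  exact h.lt

theorem Ld.nrq {F : Type} [Field F] [CharZero F] {z : RatFunc F} {q : ℚ} {a : ℤ}
    (h : Ld z (q : F) a) : Nr (vX F) z ((q : RatFunc F) * RatFunc.X ^ a) := by
  rw [← map_ratCast (RatFunc.C : F →+* RatFunc F) q]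
  exact h.nr

end Pool.Agent.Lib.MP_d03834_ag.Core
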