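import Pool.Agent.Lib.MP_d03834_ag.Core.KPE
import Pool.Agent.Lib.MP_d03834_ag.Core.StartK
import Pool.Agent.Lib.MP_d03834_ag.Core.ClHonB
import Pool.Agent.Lib.MP_d03834_ag.Core.ShMove
import Pool.Agent.Lib.MP_d03834_ag.Core.N11Ar

/-! Eleven points: the start state, one flip away from a base state. -/

set_option autoImplicit false

namespace Pool.Agent.Lib.MP_d03834_ag.Core

open Module

/-- the line which has been flipped -/
def s11g : CL := cl 1 1 1 1 0 0 0 0 0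

/-- the unit lines of the base state -/
def s11U : List CL :=
  [cl 0 0 0 0 0 0 0 0 (-1), cl 1 1 0 0 1 0 1 0 0, cl 1 1 0 1 0 0 1 0 0, cl 1 1 0 1 1 0 0 0 0,
   cl 1 2 0 1 1 1 1 0 0, cl 1 2 1 1 1 0 1 0 0, cl 2 2 0 1 1 1 1 1 0, cl 2 2 1 1 1 0 1 1 0,
   cl 2 3 1 1 1 1 2 1 0, cl 2 3 1 1 2 1 1 1 0, cl 2 3 1 2 1 1 1 1 0, cl 3 4 1 2 2 1 2 1 1]

/-- the roots of value one of the base state, up to sign -/
def s11E : List CL :=
  [cl 0 0 (-1) 0 0 1 0 0 0, cl 0 0 0 (-1) 0 0 1 0 0, cl 0 1 0 0 0 1 1 0 0, cl 0 1 0 1 0 1 0 0 0,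
   cl 0 1 1 0 0 0 1 0 0, cl 0 1 1 1 0 0 0 0 0, cl 1 0 0 0 0 0 0 1 0, cl 1 1 0 0 0 1 1 1 0,
   cl 1 1 0 1 0 1 0 1 0, cl 1 1 1 0 0 0 1 1 0, cl 1 1 1 1 0 0 0 1 0, cl 1 2 1 1 0 1 1 1 0]

/-- the monomial data of the base state -/
def s11D : Mon := ⟨cl (-1) 0 (-1) 0 0 (-1) 0 1 0, 1, 1 / 6, ![2, 3, 1, 2, 3], ![1, 1]⟩

theorem s11D_ok : s11D.Ok s11U [eb 1] s11E := by decide +kernel

/-- the class with the twists j, n and k + ε -/
def u11 (d m j n ε : ℤ) : CL :=
  cl (9 * d - 27 * m - 5 * j - n - (n + 1) / 2) (10 * d - 30 * m - 6 * j - 2 * ((n + 1) / 2))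
    (5 * d - 15 * m - 3 * j - (n + 1) / 2) (6 * d - 18 * m - 4 * j - 2 * ((n + 1) / 2))
    (3 * d - 9 * m - 2 * j) (3 * d - 9 * m - j - (n + 1) / 2) (3 * d - 9 * m - 2 * j)
    (d - 3 * m - j - n + (n + 1) / 2) (10 * m - 3 * d + ε)

theorem u11_M (d m j n ε : ℤ) : u11 d m j n ε ∈ cD.M := cl_M.2 (by ring)

theorem s11_par (n : ℤ) : (2 * ((n + 1) / 2) - n) ^ 2 = n % 2 := by
  rcases Int.emod_two_eq_zero_or_one n with h | h
  · rw [h, show 2 * ((n + 1) / 2) - n = 0 by omega]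
    rfl
  · rw [h, show 2 * ((n + 1) / 2) - n = 1 by omega]
    rfl

theorem u11_sq0 (d m : ℤ) {ε : ℤ} (hε : ε = 0 ∨ ε = 1) :
    cip (u11 d m (7 * m - 2 * d) (4 * d - 13 * m + 1) ε)
      (u11 d m (7 * m - 2 * d) (4 * d - 13 * m + 1) ε) = q110 m d ε := by
  rw [u11, cip_cl_cl, q110, ← s11_par]
  rcases hε with rfl | rfl <;> ring

theorem u11_sq1 (d m : ℤ) {ε : ℤ} (hε : ε = 0 ∨ ε = 1) :
    cip (u11 d m (7 * m - 2 * d + 1) (4 * d - 13 * m - 2) ε)
      (u11 d m (7 * m - 2 * d + 1) (4 * d - 13 * m - 2) ε) = q111 m d ε := by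
  rw [u11, cip_cl_cl, q111, show (4 * d - 13 * m) % 2 = (4 * d - 13 * m - 2) % 2 by omega,
    ← s11_par]
  rcases hε with rfl | rfl <;> ring

theorem s11_refl (n J m0 m1 m2 m3 m4 c0 c1 : ℤ) :
    cD.lat.refl s11g (cl n J m0 m1 m2 m3 m4 c0 c1) =
      cl (n + 2 * (J - m0 - m1)) (J + 2 * (J - m0 - m1)) (m0 + 2 * (J - m0 - m1))
        (m1 + 2 * (J - m0 - m1)) m2 m3 m4 c0 c1 := by
  rw [Lat.refl, DP.lat_ip, cD_ip, s11g, cip_cl_cl]
  refine Prod.ext (Prod.ext ?_ ?_) (Prod.ext (funext fun i => ?_) (funext fun i => ?_))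
  · simp [cl]
    ring
  · simp [cl]
    ring
  · fin_cases i <;> simp [cl] <;> ring
  · fin_cases i <;> simp [cl]

/-- the lattice conditions on the class -/
structure S11 (u : CL) : Prop where
  M : u ∈ cD.M
  g : 0 ≤ cip u s11g
  U : ∀ l ∈ s11U, 0 ≤ cip (cD.lat.refl s11g u) l
  E : ∀ β ∈ s11E, 0 ≤ cip hC (cD.lat.refl s11g β) ∧ 0 ≤ cip u (cD.lat.refl s11g β) ∨
    cip hC (cD.lat.refl s11g β) ≤ 0 ∧ cip u (cD.lat.refl s11g β) ≤ 0

theorem u11_ok {d m j n ε : ℤ} (h0 : 0 ≤ n) (h2 : d + 1 ≤ 3 * m + j)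
    (h3 : j + n + 6 * m ≤ 2 * d + 1) (h4 : 0 ≤ 10 * m - 3 * d + ε)
    (h5 : 10 * m - 3 * d + ε + 12 * m ≤ 4 * d) :
    S11 (u11 d m j n ε) := by
  refine ⟨u11_M d m j n ε, ?_, ?_, ?_⟩
  · rw [u11, s11g, cip_cl_cl]
    omega
  · rw [u11, s11_refl]
    simp only [s11U, List.forall_mem_cons, cip_cl_cl, List.not_mem_nil, false_imp_iff,
      implies_true, and_true]
    omega
  · have e : hC = cl 1 2 0 0 0 0 0 0 0 := by decide
    rw [u11, e]
    simp only [s11E, List.forall_mem_cons, s11_refl, cip_cl_cl, List.not_mem_nil, false_imp_iff,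
      implies_true, and_true]
    omega

variable {O k Γ : Type} [CommRing O] [Field k] [LinearOrderedCommGroupWithZero Γ] [CharZero k]
  {A : Arc O k} {K : Type} [Field K] [Algebra O K] {v : Valuation k Γ} {s : k}

/-- the bound for any character with the right leading terms -/
theorem S11.kp {u : CL} (h : S11 u) (hK : KPE A K v) (T : Triv v s) {D : Mon}
    (hD : D.Ok s11U [eb 1] s11E) (hg : 0 < cip D.lam s11g) {χ : CL → k} (ch : IsCh χ)
    (hl : Lead v s D χ) (h1 : χ (eb 1) = 1) {c : CCfg O k}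
    (shp : Shp A c.toCfg (cD.lat.flip (Invo.one v) s11g χ)) (ex : Ex A c) {ε : ℤ}
    (hε : ε = 0 ∨ ε = 1) : KB11 (cip u u) (finrank K (c.HC A K ε u)) := by
  have hO : ∀ g ∈ [eb 1], χ g = 1 := fun g hg => by rwa [List.mem_singleton.1 hg]
  have g0 : s11g ∈ cD.lat.Λ := by decide
  have hv := hl.small T hD.1 hg
  have e0 : cD.lat.refl s11g (cD.lat.refl s11g u) = u := Lat.refl_refl (T := cD.lat) g0 u
  have pos := Lat.Pos.flip (start_P T hD ch hl hO).1 (start_pos T hD hl h.U) g0 hv (by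
    have := h.g
    rw [Lat.ip_refl, cD.lat.self _ g0, DP.lat_ip, cD_ip]
    omega)
  rw [e0] at pos
  refine hK.flip1 ch (start_le T hD hl) (start_nb T hD hl hO) g0 hv shp ex h.M pos
    (fun α hα e h2 => ?_) hε
  rcases start_root T hD hl α hα e with h3 | h3
  · have := h.E _ h3
    omega
  · have := h.E _ h3
    rw [Lat.refl_neg, cip_neg, cip_neg] at this
    omega

/-- the four bounds for any character with the right leading terms -/
theorem R11.kp {m d : ℤ} (h : R11 m d) (hK : KPE A K v) (T : Triv v s) {D : Mon}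
    (hD : D.Ok s11U [eb 1] s11E) (hg : 0 < cip D.lam s11g) {χ : CL → k} (ch : IsCh χ)
    (hl : Lead v s D χ) (h1 : χ (eb 1) = 1) {c : CCfg O k}
    (shp : Shp A c.toCfg (cD.lat.flip (Invo.one v) s11g χ)) (ex : Ex A c) {ε : ℤ}
    (hε : ε = 0 ∨ ε = 1) :
    KB11 (q110 m d ε)
        (finrank K (c.HC A K ε (u11 d m (7 * m - 2 * d) (4 * d - 13 * m + 1) ε))) ∧
      KB11 (q111 m d ε)
        (finrank K (c.HC A K ε (u11 d m (7 * m - 2 * d + 1) (4 * d - 13 * m - 2) ε))) := by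
  obtain ⟨l1, l2⟩ := h.lin
  have l3 := h.k1
  have l4 := h.m16
  rw [← u11_sq0 d m hε, ← u11_sq1 d m hε]
  exact ⟨(u11_ok (by omega) (by omega) (by omega) (by omega) (by omega)).kp hK T hD hg ch hl h1
    shp ex hε, (u11_ok (by omega) (by omega) (by omega) (by omega) (by omega)).kp hK T hD hg ch
    hl h1 shp ex hε⟩

theorem s11_flip (v : Valuation k Γ) (s0 : s ≠ 0) (s1 : 1 - s ≠ 0) :
    cD.lat.flip (Invo.one v) s11g (s11D.chi s) =
      chG s (6 * (1 - s))⁻¹ ![2 * (1 - s), 3 * (1 - s) / s, 1, 2 * s, 3] ![s, 1] := by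
  have e0 : s11D.chi s s11g = s := by
    rw [Mon.chi_eq s0, show cip s11D.lam s11g = 1 by decide,
      show s11D.cq s11g = 1 by decide +kernel]
    simp
  have hr : s / (1 - s) ≠ 0 := div_ne_zero s0 s1
  have e1 : (6 * (1 - s))⁻¹ = s11D.vb s * (s / (1 - s)) := by
    simp [Mon.vb, s11D, cl]
    field_simp
  have e2 : 2 * (1 - s) = s11D.vz s 0 / (s / (1 - s)) := by
    simp [Mon.vz, s11D, cl]
    field_simp
  have e3 : 3 * (1 - s) / s = s11D.vz s 1 / (s / (1 - s)) := by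
    simp [Mon.vz, s11D, cl]
    field_simp
  have e4 : s11D.vz s 2 = 1 := by simp [Mon.vz, s11D, cl]
  have e5 : s11D.vz s 3 = 2 * s := by simp [Mon.vz, s11D, cl]
  have e6 : s11D.vz s 4 = 3 := by simp [Mon.vz, s11D, cl]
  have e7 : s11D.va s = s := by simp [Mon.va, s11D, cl]
  have e8 : s11D.vg s 0 = s := by simp [Mon.vg, s11D, cl]
  have e9 : s11D.vg s 1 = 1 := by simp [Mon.vg, s11D, cl]
  funext u
  rw [Lat.flip, e0, DP.lat_ip, cD_ip, s11g, cip_cl, e1, e2, e3]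
  change _ * (s / (1 - s)) ^ _ = _
  generalize s / (1 - s) = r at hr
  rw [show u.1.1 * 1 + u.1.2 * 1 - u.1.1 * 1 -
    (u.2.1 0 * 1 + u.2.1 1 * 1 + u.2.1 2 * 0 + u.2.1 3 * 0 + u.2.1 4 * 0) -
    (u.2.2 0 * 0 + u.2.2 1 * 0) = u.1.2 - u.2.1 0 - u.2.1 1 by ring, zpow_sub₀ hr, zpow_sub₀ hr]
  simp only [Mon.chi, chG, Fin.prod_univ_five, Fin.prod_univ_two, e4, e5, e6, e7, e8, e9,
    Matrix.cons_val_zero, Matrix.cons_val_one, Matrix.cons_val, mul_zpow, div_zpow]
  have := zpow_ne_zero (u.2.1 0) hr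
  have := zpow_ne_zero (u.2.1 1) hr
  field_simp

/-- the exact configuration with the parameters a, b -/
structure C11 (A : Arc O k) (a b : O) (c : CCfg O k) : Prop where
  z0 : c.z 0 = a
  z1 : c.z 1 * c.z 3 = a * b
  z2 : c.z 2 = 1
  z3 : c.z 3 * (a * (1 - A.t)) = 2 * a - a ^ 2 - A.t
  z4 : c.z 4 = b
  η : ∀ i, c.η i * c.z i * (a * b + A.t ^ 2) = a * b + c.z i ^ 2
  al0 : c.al 0 = 0
  al1 : c.al 1 = 1
  be0 : c.be 0 = 1
  be1 : c.be 1 * (a * b + A.t ^ 2 - A.t * (c.z 1 + a)) = a * b - c.z 1 * a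
  Q0 : c.Q0 = 1
  Q1 : c.Q1 = 0
  Q2 : c.Q2 * A.res (a * b) = 1
  ex : Ex A c

variable {a b : O} {c : CCfg O k}

theorem c11_ex (s0 : s ≠ 0) (s1 : 1 - s ≠ 0) (ha : A.res a = 2 * (1 - s)) (hb : A.res b = 3) :
    ∃ c, C11 A a b c := by
  have a0 : A.res a ≠ 0 := ha ▸ mul_ne_zero two_ne_zero s1
  have b0 : A.res b ≠ 0 := hb ▸ three_ne_zero
  obtain ⟨z3, h3⟩ := A.div (2 * a - a ^ 2 - A.t) (b := a * (1 - A.t)) (by simpa [A.rt] using a0)
  have r3 : A.res z3 = 2 * s := by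
    have := congrArg A.res h3
    simp only [map_mul, map_sub, map_pow, map_one, map_ofNat, A.rt, ha] at this
    refine mul_right_cancel₀ (mul_ne_zero two_ne_zero s1) ?_
    linear_combination this
  have n3 : A.res z3 ≠ 0 := r3 ▸ mul_ne_zero two_ne_zero s0
  obtain ⟨z1, h1⟩ := A.div (a * b) n3
  have n1 : A.res z1 ≠ 0 := fun e => by
    have := congrArg A.res h1
    rw [map_mul, map_mul, e, zero_mul] at this
    exact mul_ne_zero a0 b0 this.symm
  obtain ⟨w, hw⟩ := A.div 1 (b := a * b + A.t ^ 2) (by simpa [A.rt] using ⟨a0, b0⟩)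
  obtain ⟨β, hβ⟩ := A.div (a * b - z1 * a) (b := a * b + A.t ^ 2 - A.t * (z1 + a))
    (by simpa [A.rt] using ⟨a0, b0⟩)
  have hz : ∀ i : Fin 5, A.res (![a, z1, 1, z3, b] i) ≠ 0 := fun i => by
    fin_cases i <;> simp [a0, b0, n1, n3]
  choose η hη using fun i => A.div (w * (a * b + ![a, z1, 1, z3, b] i ^ 2)) (hz i)
  have rw' : A.res w * A.res (a * b) = 1 := by simpa [A.rt] using congrArg A.res hw
  refine ⟨⟨⟨![a, z1, 1, z3, b], η, ![0, 1], ![1, β], 1, 0, A.res w⟩,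
    ![![0, 1, 0], ![w * (a * b), 0, w]]⟩, rfl, h1, rfl, h3, rfl, fun i => ?_, rfl, rfl, rfl, hβ,
    rfl, rfl, rw', by simp, by simp, by simp, ?_, by simp, by simp, fun i => ?_⟩
  · dsimp only
    rw [hη]
    linear_combination (a * b + ![a, z1, 1, z3, b] i ^ 2) * hw
  · simpa using rw'
  · simp only [qv, Matrix.cons_val_zero, Matrix.cons_val_one, Matrix.cons_val]
    linear_combination -hη i

theorem C11.res (h : C11 A a b c) (s0 : s ≠ 0) (s1 : 1 - s ≠ 0) (ha : A.res a = 2 * (1 - s))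
    (hb : A.res b = 3) (i : Fin 5) :
    A.res (c.z i) = ![2 * (1 - s), 3 * (1 - s) / s, 1, 2 * s, 3] i := by
  have r3 : A.res (c.z 3) = 2 * s := by
    have := congrArg A.res h.z3
    simp only [map_mul, map_sub, map_pow, map_one, map_ofNat, A.rt, ha] at this
    refine mul_right_cancel₀ (mul_ne_zero two_ne_zero s1) ?_
    linear_combination this
  have r1 : A.res (c.z 1) = 3 * (1 - s) / s := by
    have := congrArg A.res h.z1
    rw [map_mul, map_mul, r3, ha, hb] at this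
    rw [eq_div_iff s0]
    linear_combination this / 2
  fin_cases i
  · simpa [h.z0] using ha
  · simpa using r1
  · simp [h.z2]
  · simpa using r3
  · simpa [h.z4] using hb

theorem C11.rbe (h : C11 A a b c) (s0 : s ≠ 0) (s1 : 1 - s ≠ 0) (ha : A.res a = 2 * (1 - s))
    (hb : A.res b = 3) : A.res (c.be 1) = 2 - s⁻¹ := by
  have e := congrArg A.res h.be1
  have r1 : A.res (c.z 1) = 3 * (1 - s) / s := h.res s0 s1 ha hb 1
  simp only [map_mul, map_sub, map_add, map_pow, A.rt, ha, hb, r1] at e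
  refine mul_right_cancel₀ (mul_ne_zero (by norm_num : (6 : k) ≠ 0) s1) ?_
  have : s * s⁻¹ = 1 := mul_inv_cancel₀ s0
  rw [div_eq_mul_inv] at e
  linear_combination e + 6 * (1 - s) * this

theorem C11.shp (h : C11 A a b c) (s0 : s ≠ 0) (s1 : 1 - s ≠ 0) (ha : A.res a = 2 * (1 - s))
    (hb : A.res b = 3) :
    Shp A c.toCfg (chG s (6 * (1 - s))⁻¹ ![2 * (1 - s), 3 * (1 - s) / s, 1, 2 * s, 3] ![s, 1]) := by
  have hN : c.toCfg.N A = -s⁻¹ := by
    simp only [Cfg.N, h.al0, h.al1, h.be0, h.rbe s0 s1 ha hb, h.Q0, map_zero, map_one]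
    ring
  have i1 : s * s⁻¹ = 1 := mul_inv_cancel₀ s0
  have q2 := h.Q2
  rw [map_mul, ha, hb] at q2
  refine Shp.of_chG (fun i => ?_) (h.res s0 s1 ha hb) (fun i => ?_) ?_ ?_ ?_ fun r => ?_
  · fin_cases i <;> simp [s0, s1]
  · have e := congrArg A.res (h.η i)
    simp only [map_mul, map_add, map_pow, A.rt, ha, hb, h.res s0 s1 ha hb] at e
    rw [h.Q0, h.Q1]
    generalize ![2 * (1 - s), 3 * (1 - s) / s, 1, 2 * s, 3] i = x at e ⊢
    linear_combination c.Q2 * e - (A.res (c.η i) * x - 1) * q2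
  · rw [hN]
    exact neg_ne_zero.2 (inv_ne_zero s0)
  · rw [hN, h.Q0]
    linear_combination -i1
  · rw [h.Q0, mul_one]
    exact inv_eq_of_mul_eq_one_left (by linear_combination q2)
  · rw [hN, h.Q0, h.al1]
    fin_cases r
    · simp only [Fin.zero_eta, Matrix.cons_val_zero, h.be0, map_one]
      linear_combination -i1
    · simp only [Fin.mk_one, Matrix.cons_val_one, Matrix.cons_val_zero, h.rbe s0 s1 ha hb, map_one]
      ring

theorem Triv.one_sub (T : Triv v s) : 1 - s ≠ 0 := fun e => by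
  have := T.lt
  rw [← sub_eq_zero.1 e, map_one] at this
  exact lt_irrefl _ this

theorem Triv.poly (T : Triv v s) {x y : ℚ} (hx : x ≠ 0) : (x : k) + y * s ≠ 0 := fun e => by
  have h1 : v ((y : k) * s) < 1 := by
    by_cases hy : y = 0
    · simp [hy]
    · rw [map_mul, T.rat y hy, one_mul]
      exact T.lt
  rw [show (y : k) * s = -x by linear_combination e, v.map_neg, T.rat x hx] at h1
  exact lt_irrefl _ h1

/-- the residues of the five free points are distinct -/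
theorem C11.zz (h : C11 A a b c) (T : Triv v s) (ha : A.res a = 2 * (1 - s)) (hb : A.res b = 3)
    (i l : Fin 5) (hil : i ≠ l) : A.res (c.z i) ≠ A.res (c.z l) := by
  have s0 := T.s0
  rw [h.res s0 T.one_sub ha hb, h.res s0 T.one_sub ha hb]
  have k1 : ∀ {x y : k}, x ≠ y → y ≠ x := Ne.symm
  have n01 : 2 * (1 - s) ≠ 3 * (1 - s) / s := fun e => T.poly (x := 3) (y := -2) (by norm_num) (by
    rw [eq_div_iff s0] at e
    refine mul_right_cancel₀ T.one_sub ?_
    push_cast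
    linear_combination -e)
  have n02 : 2 * (1 - s) ≠ 1 := fun e => T.poly (x := 1) (y := -2) (by norm_num) (by
    push_cast
    linear_combination e)
  have n03 : 2 * (1 - s) ≠ 2 * s := fun e => T.poly (x := 2) (y := -4) (by norm_num) (by
    push_cast
    linear_combination e)
  have n04 : 2 * (1 - s) ≠ 3 := fun e => T.poly (x := -1) (y := -2) (by norm_num) (by
    push_cast
    linear_combination e)
  have n12 : 3 * (1 - s) / s ≠ 1 := fun e => T.poly (x := 3) (y := -4) (by norm_num) (by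
    rw [div_eq_iff s0] at e
    push_cast
    linear_combination e)
  have n13 : 3 * (1 - s) / s ≠ 2 * s := fun e => by
    rw [div_eq_iff s0] at e
    have h1 : v (s * (3 + 2 * s)) < 1 := by
      rw [map_mul]
      refine mul_lt_one_of_lt_of_le T.lt (v.map_add_le T.three.le ?_)
      rw [map_mul, T.two, one_mul]
      exact T.lt.le
    rw [show s * (3 + 2 * s) = 3 by linear_combination -e, T.three] at h1
    exact lt_irrefl _ h1
  have n14 : 3 * (1 - s) / s ≠ 3 := fun e => T.poly (x := 3) (y := -6) (by norm_num) (by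
    rw [div_eq_iff s0] at e
    push_cast
    linear_combination e)
  have n23 : (1 : k) ≠ 2 * s := fun e => T.poly (x := 1) (y := -2) (by norm_num) (by
    push_cast
    linear_combination e)
  have n24 : (1 : k) ≠ 3 := by norm_num
  have n34 : 2 * s ≠ 3 := fun e => T.poly (x := -3) (y := 2) (by norm_num) (by
    push_cast
    linear_combination e)
  fin_cases i <;> fin_cases l <;> first | exact absurd rfl hil | assumption | (apply k1; assumption)

/-- the four bounds for the honest sections on the exact configuration -/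
theorem C11.kp [IsDomain O] (h : C11 A a b c) (hi : Function.Injective (algebraMap O K))
    (hK : KPE A K v) (T : Triv v s) (ha : A.res a = 2 * (1 - s)) (hb : A.res b = 3) {m d : ℤ}
    (hR : R11 m d) {ε : ℤ} (hε : ε = 0 ∨ ε = 1) :
    KB11 (q110 m d ε)
        (finrank K (c.toCfg.H A K ε (u11 d m (7 * m - 2 * d) (4 * d - 13 * m + 1) ε))) ∧
      KB11 (q111 m d ε)
        (finrank K (c.toCfg.H A K ε (u11 d m (7 * m - 2 * d + 1) (4 * d - 13 * m - 2) ε))) := by
  have le : ∀ u, finrank K (c.toCfg.H A K ε u) ≤ finrank K (c.HC A K ε u) := fun u =>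
    Submodule.finrank_mono (H_le_HC' K hi h.ex
      (fun i l hil e => h.zz T ha hb i l hil (by rw [e])) (by rw [h.al0, h.al1]; exact zero_ne_one)
      (fun e => T.poly (x := 1) (y := -1) one_ne_zero (by
        have := h.rbe T.s0 T.one_sub ha hb
        rw [← e, h.be0, map_one] at this
        push_cast
        linear_combination s * this + mul_inv_cancel₀ T.s0 * (-1))) ε u)
  have mono : ∀ {q : ℤ} {x y : ℕ}, x ≤ y → KB11 q y → KB11 q x := fun h1 h2 =>
    ⟨fun e => by have := h2.1 e; omega, fun e => by have := h2.2 e; omega⟩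
  have := hR.kp hK T s11D_ok (by decide) (s11D_ok.1.chi T.s0) (Lead.self s11D_ok.1 T.s0)
    (Mon.chi_one (OL := [eb 1]) T.s0 (by decide +kernel) _ (List.mem_singleton_self _))
    (s11_flip v T.s0 T.one_sub ▸ h.shp T.s0 T.one_sub ha hb) h.ex hε
  exact ⟨mono (le _) this.1, mono (le _) this.2⟩

end Pool.Agent.Lib.MP_d03834_ag.Core
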