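import Pool.Agent.Lib.MP_d03834_ag.Core.N11C
import Pool.Agent.Lib.MP_d03834_ag.Core.StartK

/-! Eleven points: the start state. -/

set_option autoImplicit false

namespace Pool.Agent.Lib.MP_d03834_ag.Core

open Module
open scoped Polynomial

namespace St11

section ring

variable {R : Type} [CommRing R]

/-- the first quadratic polynomial; b = z1 z2, σ = z1 + z2, 2 S c = 1 -/
def qa (t b σ S c : R) : Fin 3 → R :=
  ![t * b * S * c, 1 + t ^ 2 * b * S * c - t * b * c - t * σ, t ^ 2 * b * c]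

/-- the second quadratic polynomial -/
def qb (t b σ S c : R) : Fin 3 → R :=
  ![qa t b σ S c 0 * (-2 * t * b) + qa t b σ S c 1 * (2 * b + t ^ 2 * b ^ 2) -
      t * b ^ 2 * qa t b σ S c 2 + t ^ 2 * b * c * (2 * σ * b + S * (σ ^ 2 + 2 * b)),
    qa t b σ S c 0 - 2 * t * b * qa t b σ S c 1 + qa t b σ S c 2 * (2 * b + t ^ 2 * b ^ 2) -
      t ^ 2 * b * c * (σ ^ 2 + 2 * b + 2 * σ * S),
    qa t b σ S c 1 - 2 * t * b * qa t b σ S c 2 + t ^ 2 * b * c * (2 * σ + S)]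

theorem q_id {t z1 z2 S c : R} (h : 2 * S * c = 1) (x : R) :
    x ^ 2 * qv (qb t (z1 * z2) (z1 + z2) S c) x =
      qv (qa t (z1 * z2) (z1 + z2) S c) x *
        (2 * (z1 * z2) * x - t * (z1 * z2) ^ 2 + x * (x - t * (z1 * z2)) ^ 2) -
      t ^ 2 * (z1 * z2) * c * ((x - z1) * (x - z2) * (x - S) * (x - z1) * (x - z2)) := by
  simp only [qv, qa, qb, Matrix.cons_val_zero, Matrix.cons_val_one, Matrix.cons_val]
  linear_combination (-(t * (z1 * z2) ^ 2 * (1 - t * (z1 + z2)) * x)) * h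

theorem qd_qa (t b σ S c : R) : qd (qa t b σ S c) = qv (qa (Polynomial.C t) (Polynomial.C b)
    (Polynomial.C σ) (Polynomial.C S) (Polynomial.C c)) Polynomial.X := by
  simp [qd, qv, qa]

theorem qd_qb (t b σ S c : R) : qd (qb t b σ S c) = qv (qb (Polynomial.C t) (Polynomial.C b)
    (Polynomial.C σ) (Polynomial.C S) (Polynomial.C c)) Polynomial.X := by
  simp [qd, qv, qa, qb, map_ofNat]

theorem q_dvd {t z1 z2 S c : R} (h : 2 * S * c = 1) :
    ∏ l, (Polynomial.X - Polynomial.C (![z1, z2, S, z1, z2] l)) ∣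
      (qd (qa t (z1 * z2) (z1 + z2) S c) -
        Polynomial.C t * qd (qb t (z1 * z2) (z1 + z2) S c)) * Polynomial.X ^ 2 -
      (1 - Polynomial.C t * Polynomial.X) * (Polynomial.X - Polynomial.C (t * (z1 * z2))) ^ 2 *
        qd (qa t (z1 * z2) (z1 + z2) S c) := by
  have h' : 2 * Polynomial.C S * Polynomial.C c = 1 := by
    simpa [map_ofNat] using congrArg Polynomial.C h
  have e := q_id (t := Polynomial.C t) (z1 := Polynomial.C z1) (z2 := Polynomial.C z2) h'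
    Polynomial.X
  refine ⟨Polynomial.C t ^ 3 * (Polynomial.C z1 * Polynomial.C z2) * Polynomial.C c, ?_⟩
  rw [qd_qa, qd_qb, Fin.prod_univ_five]
  simp only [map_mul, map_add, Matrix.cons_val_zero, Matrix.cons_val_one, Matrix.cons_val]
  linear_combination (-Polynomial.C t) * e

end ring

/-- the leading terms of the character -/
def D : Mon := ⟨cl 0 0 0 0 (-1) 0 0 0 0, 1, 1 / 24, ![2, 6, 1, 2, 6], ![1 / 2, 1 / 2]⟩

/-- the twelve unit lines -/
def UL : List CL :=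
  [cl 0 0 0 0 0 0 0 (-1) 0, cl 0 0 0 0 0 0 0 0 (-1), cl 1 0 0 0 0 0 0 0 0, cl 1 1 0 0 0 1 1 0 0,
   cl 1 1 0 1 0 0 1 0 0, cl 1 1 0 1 0 1 0 0 0, cl 1 1 1 0 0 0 1 0 0, cl 1 1 1 0 0 1 0 0 0,
   cl 1 1 1 1 0 0 0 0 0, cl 1 2 1 1 0 1 1 0 0, cl 2 2 1 1 0 1 1 0 1, cl 2 2 1 1 0 1 1 1 0]

/-- the roots of degree zero -/
def E0 : List CL := [cl 0 0 0 1 0 0 (-1) 0 0, cl 0 0 1 0 0 (-1) 0 0 0, cl 0 0 0 0 0 0 0 1 (-1)]

/-- the roots of positive degree -/
def E1 : List CL :=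
  [cl 1 1 0 0 0 1 1 0 1, cl 1 1 0 1 0 1 0 0 1, cl 1 1 1 0 0 0 1 0 1, cl 1 1 1 1 0 0 0 0 1,
   cl 1 1 0 0 0 1 1 1 0, cl 1 1 0 1 0 1 0 1 0, cl 1 1 1 0 0 0 1 1 0, cl 1 1 1 1 0 0 0 1 0,
   cl 2 2 1 1 0 1 1 1 1]

theorem D_ok : D.Ok UL [cl 1 0 0 0 0 0 0 0 0] (E0 ++ E1) := by decide +kernel

theorem D_one : ∀ g ∈ [cl 1 0 0 0 0 0 0 0 0], cip D.lam g = 0 ∧ D.cq g = 1 := by decide +kernel

theorem E0_deg : ∀ g ∈ E0, cip hC g = 0 := by decide +kernel

theorem ok_U {u : CL} (h : Ok11 u) : ∀ g ∈ UL, 0 ≤ cip u g := by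
  obtain ⟨h0, h1, h2, h3, h4, h5, h6⟩ := h
  rw [cD_M, Fin.sum_univ_five] at h0
  have := h3 0
  have := h3 1
  have := h6 0
  have := h6 1
  simp [UL, cip_cl]
  omega

theorem ok_E {u : CL} (h : Ok11 u) : ∀ g ∈ E1, 0 ≤ cip u g := by
  obtain ⟨h0, h1, h2, h3, h4, h5, h6⟩ := h
  rw [cD_M, Fin.sum_univ_five] at h0
  have := h3 0
  have := h3 1
  have := h6 0
  have := h6 1
  simp [E1, cip_cl]
  omega

variable {O k Γ : Type} [CommRing O] [Field k] [LinearOrderedCommGroupWithZero Γ] [CharZero k]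

/-- the configuration -/
noncomputable def cf (t z1 z2 S c : O) : CCfg O k where
  z := ![z1, z2, S, z1, z2]
  η := fun l => (2 * (z1 * z2) * ![z1, z2, S, z1, z2] l - t * (z1 * z2) ^ 2 +
    ![z1, z2, S, z1, z2] l * (![z1, z2, S, z1, z2] l - t * (z1 * z2)) ^ 2) *
      Ring.inverse (![z1, z2, S, z1, z2] l) ^ 2
  al := fun _ => 0
  be := fun _ => z1 * z2
  Q0 := 24
  Q1 := 0
  Q2 := 1
  q := ![qa t (z1 * z2) (z1 + z2) S c, qb t (z1 * z2) (z1 + z2) S c]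

variable {A : Arc O k} {v : Valuation k Γ} {s : k} {z1 z2 S c : O}

theorem cf_z (h1 : A.res z1 = 2) (h2 : A.res z2 = 6) (h3 : A.res S = s) (i : Fin 5) :
    A.res (![z1, z2, S, z1, z2] i) = D.vz s i := by
  fin_cases i <;> simp [D, Mon.vz, cl, h1, h2, h3]

theorem cf_inv (hs : s ≠ 0) (h1 : A.res z1 = 2) (h2 : A.res z2 = 6) (h3 : A.res S = s)
    (i : Fin 5) : ![z1, z2, S, z1, z2] i * Ring.inverse (![z1, z2, S, z1, z2] i) = 1 :=
  Ring.mul_inverse_cancel _ (A.unit _ (by rw [cf_z h1 h2 h3]; exact D_ok.1.vz hs i))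

theorem cf_shp (hs : s ≠ 0) (h1 : A.res z1 = 2) (h2 : A.res z2 = 6) (h3 : A.res S = s) :
    Shp A (cf (k := k) A.t z1 z2 S c).toCfg (D.chi s) := by
  have hN : (cf (k := k) A.t z1 z2 S c).toCfg.N A = -24 := by
    simp only [Cfg.N, cf, map_mul, map_zero, h1, h2]
    ring
  refine Shp.of_chG (D_ok.1.vz hs) (cf_z h1 h2 h3) (fun i => ?_) (by rw [hN]; norm_num) ?_ ?_
    fun r => ?_
  · have e := congrArg A.res (cf_inv hs h1 h2 h3 i)
    rw [map_mul, map_one, cf_z h1 h2 h3] at e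
    simp only [cf, map_mul, map_add, map_sub, map_pow, map_ofNat, cf_z h1 h2 h3, h1, h2, A.rt]
    linear_combination (24 + D.vz s i ^ 2) *
      (D.vz s i * A.res (Ring.inverse (![z1, z2, S, z1, z2] i)) + 1) * e
  · rw [hN]
    simp [cf, D, Mon.va, cl]
  · simp [cf, D, Mon.vb, cl]
  · rw [hN]
    fin_cases r <;> simp [cf, D, Mon.vg, cl, h1, h2] <;> norm_num

theorem cf_ex (hs : s ≠ 0) (h1 : A.res z1 = 2) (h2 : A.res z2 = 6) (h3 : A.res S = s)
    (h : 2 * S * c = 1) : Ex A (cf (k := k) A.t z1 z2 S c) := by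
  refine ⟨?_, ?_, ?_, ?_, ?_, ?_, fun l => ?_⟩
  iterate 6 simp [cf, qa, qb, A.rt, h1, h2, map_ofNat] <;> norm_num
  have e := q_id (t := A.t) (z1 := z1) (z2 := z2) h (![z1, z2, S, z1, z2] l)
  have e0 : (![z1, z2, S, z1, z2] l - z1) * (![z1, z2, S, z1, z2] l - z2) *
      (![z1, z2, S, z1, z2] l - S) = 0 := by
    fin_cases l <;> simp
  have e1 := cf_inv hs h1 h2 h3 l
  simp only [cf, Matrix.cons_val_zero, Matrix.cons_val_one]
  rw [e0] at e
  generalize ![z1, z2, S, z1, z2] l = x at *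
  generalize Ring.inverse x = y at *
  linear_combination y ^ 2 * e - qv (qb A.t (z1 * z2) (z1 + z2) S c) x * (x * y + 1) * e1

theorem cf_sta (T : Triv v s) (h1 : A.res z1 = 2) (h2 : A.res z2 = 6) (h3 : A.res S = s)
    (h : 2 * S * c = 1) {u : CL} (hu : Ok11 u) :
    Sta A v (cf (k := k) A.t z1 z2 S c) (D.chi s) u := by
  have L := Lead.self (v := v) D_ok.1 T.s0
  refine ⟨cf_shp T.s0 h1 h2 h3, cf_ex T.s0 h1 h2 h3 h, D_ok.1.chi T.s0, start_le T D_ok L,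
    start_nb T D_ok L (Mon.chi_one T.s0 D_one), hu.M, start_pos T D_ok L (ok_U hu),
    fun α hα a1 a2 => ?_⟩
  rcases start_root T D_ok L α hα a1 with a3 | a3
  · exact D_ok.2.2.2 α a3
  · rcases List.mem_append.1 a3 with a4 | a4
    · have := E0_deg _ a4
      rw [cip_neg] at this
      omega
    · have := ok_E hu _ a4
      rw [cip_neg] at this
      omega

end St11

/-- the start state for eleven points -/
theorem sta11 : ∃ (c : CCfg (PowerSeries (RatFunc ℂ)) (RatFunc ℂ)) (χ : CL → RatFunc ℂ),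
    c.z = ![2 - PowerSeries.X, 6 - 9 * PowerSeries.X, PowerSeries.C RatFunc.X,
      2 - PowerSeries.X, 6 - 9 * PowerSeries.X] ∧ (∀ s, c.al s = 0) ∧
    (∀ s, c.be s = (2 - PowerSeries.X) * (6 - 9 * PowerSeries.X)) ∧
    (∏ l, (Polynomial.X - Polynomial.C (c.z l)) ∣
      (qd (c.q 0) - Polynomial.C PowerSeries.X * qd (c.q 1)) * Polynomial.X ^ 2 -
        (1 - Polynomial.C PowerSeries.X * Polynomial.X) * (Polynomial.X - Polynomial.C
          (PowerSeries.X * ((2 - PowerSeries.X) * (6 - 9 * PowerSeries.X)))) ^ 2 * qd (c.q 0)) ∧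
    ∀ u, Ok11 u → Sta (Arc.ps (RatFunc ℂ)) (vX ℂ) c χ u := by
  have h : (2 * PowerSeries.C RatFunc.X * PowerSeries.C (2 * RatFunc.X)⁻¹ :
      PowerSeries (RatFunc ℂ)) = 1 := by
    rw [← map_ofNat (PowerSeries.C (R := RatFunc ℂ)) 2, ← map_mul, ← map_mul,
      mul_inv_cancel₀ (mul_ne_zero two_ne_zero RatFunc.X_ne_zero), map_one]
  exact ⟨St11.cf PowerSeries.X (2 - PowerSeries.X) (6 - 9 * PowerSeries.X)
    (PowerSeries.C RatFunc.X) (PowerSeries.C (2 * RatFunc.X)⁻¹), St11.D.chi RatFunc.X, rfl,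
    fun _ => rfl, fun _ => rfl, St11.q_dvd h, fun u hu =>
      St11.cf_sta (A := Arc.ps (RatFunc ℂ)) (triv_vX ℂ) (by simp [Arc.ps, map_ofNat])
        (by simp [Arc.ps, map_ofNat]) (by simp [Arc.ps]) h hu⟩

end Pool.Agent.Lib.MP_d03834_ag.Core
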