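import Pool.Agent.Lib.MP_d03834_ag.Core.N11W
import Pool.Agent.Lib.MP_d03834_ag.Core.N11Fc
import Pool.Agent.Lib.MP_d03834_ag.Core.N11G
import Pool.Agent.Lib.MP_d03834_ag.Core.N11K
import Pool.Agent.Lib.MP_d03834_ag.Core.N11Ev
import Pool.Agent.Lib.MP_d03834_ag.Core.N11Ef

/-! Eleven points: the tower of the two folds. -/

set_option autoImplicit false
set_option linter.unusedSimpArgs false

namespace Pool.Agent.Lib.MP_d03834_ag.Core

open Module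

section tower

open MvPolynomial Function

variable {K : Type} [Field K]

theorem pt11_map {A B : Type} [CommRing A] [CommRing B] (f : A →+* B) (σ τ t s : A) :
    BW.mp f (pt11 σ τ t s) = pt11 (f σ) (f τ) (f t) (f s) := by
  funext l c
  fin_cases l <;> fin_cases c <;> simp [BW.mp, pt11, q11, map_ofNat]

theorem pt11_lift {A B : Type} [CommRing A] [CommRing B] (f : A →+* B) (τ : B) (t s : A) :
    pt11 0 τ (f t) (f s) =
      q11 (τ * f (2 * ((1 - t) ^ 2 * (6 - 9 * t)) * ((1 - 3 * t) ^ 2 * (2 - t))))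
        (τ * f ((1 - 3 * t) ^ 2 * (2 - t))) (τ * f (-((1 - t) ^ 2 * (6 - 9 * t))))
        (f (2 * (1 - 3 * t))) (f (2 * (1 - t))) (f ((1 - t) ^ 2 * (6 - 9 * t)))
        (f ((1 - 3 * t) ^ 2 * (2 - t))) (f ((2 * (1 - 3 * t)) ^ 2 * (2 - t - s)))
        (f (6 - 9 * t - s)) 0 := by
  simp only [pt11, map_mul, map_sub, map_pow, map_neg, map_one, map_ofNat]

theorem q11_ne {A : Type} [CommRing A] (κ α β sA sB x4 x5 e0 e1 σ : A) (l : Fin 10) (hl : l ≠ 8) :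
    q11 κ α β sA sB x4 x5 e0 e1 σ l = q11 κ α β sA sB x4 x5 e0 e1 0 l := by
  fin_cases l <;> simp [q11] at hl ⊢

theorem pt11_ne {A : Type} [CommRing A] (σ τ t s : A) (l : Fin 10) (hl : l ≠ 8) :
    pt11 σ τ t s l = pt11 0 τ t s l :=
  q11_ne _ _ _ _ _ _ _ _ _ _ l hl

theorem pt11_eight {A B : Type} [CommRing A] [CommRing B] (f : A →+* B) (σ : B) (τ t s : A) :
    pt11 σ (f τ) (f t) (f s) 8 =
      ![1, σ, f ((2 * (1 - 3 * t)) ^ 2 * (2 - t - s)), f (6 - 9 * t - s)] := by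
  simp only [map_mul, map_sub, map_pow, map_one, map_ofNat]
  rfl

/-- the configurations below the first fold -/
def fam11 : BW.Fam (Fin 10) (Fin 3) where
  pt := fun _ _ x => pt11 0 (x 0) (x 1) (x 2)
  nat := fun _ _ _ _ f x => by rw [pt11_map, map_zero]

/-- the second fold -/
theorem up11a [CharZero K] {t s ye : K}
    (hx : Injective (eval₂Hom (Int.castRingHom K) ![t, s]))
    (ee : ye * (6 - 9 * t - s) = (2 * (1 - 3 * t)) ^ 2 * (2 - t - s)) {p q n i : ℤ}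
    {m : Fin 10 → ℤ} (hi : i = 0 ∨ i = 1) (h0 : 0 ≤ n + i) (hc : p ≤ m 4 + m 5)
    (hd : p ≤ m 6 + m 7) (hq : q + n ≤ m 0 + m 2 + m 9) (ha : m 1 ≤ m 0 - (n + i))
    (hb : m 3 ≤ m 2 - (n + i)) :
    (finrank (LS K) (H0 p q (pt11 0 (lsT K) (lsC K t) (lsC K s)) m) : ℤ) ≤
      i * ((n + 2) / 2) + finrank K (W11 ((2 * (1 - 3 * t)) ^ 2) ((2 * (1 - t)) ^ 2) ye
        ((1 - t) ^ 2 * (6 - 9 * t)) ((1 - 3 * t) ^ 2 * (2 - t)) (p - (n + i))
        (q - 2 * ((n + i + 1) / 2)) (tw2 (n + i) m)) := by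
  have nz : ∀ (F : MvPolynomial (Fin 2) ℤ) {a : K},
      eval₂Hom (Int.castRingHom ℤ) ![5, 7] F ≠ 0 →
      eval₂Hom (Int.castRingHom K) ![t, s] F = a → a ≠ 0 := fun F _ h e => e ▸ ne_of_mod hx _ h
  have g1 : 1 - t ≠ 0 := nz (1 - X 0) (by simp [map_ofNat])
    (by simp only [map_sub, map_mul, map_pow, map_one, map_ofNat, eval₂Hom_X']; rfl)
  have g2 : 1 - 3 * t ≠ 0 := nz (1 - 3 * X 0) (by simp [map_ofNat])
    (by simp only [map_sub, map_mul, map_pow, map_one, map_ofNat, eval₂Hom_X']; rfl)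
  have g3 : 2 - t ≠ 0 := nz (2 - X 0) (by simp [map_ofNat])
    (by simp only [map_sub, map_mul, map_pow, map_one, map_ofNat, eval₂Hom_X']; rfl)
  have g4 : 6 - 9 * t ≠ 0 := nz (6 - 9 * X 0) (by simp [map_ofNat])
    (by simp only [map_sub, map_mul, map_pow, map_one, map_ofNat, eval₂Hom_X']; rfl)
  have g5 : 6 - 9 * t - s ≠ 0 := nz (6 - 9 * X 0 - X 1) (by simp [map_ofNat])
    (by simp only [map_sub, map_mul, map_pow, map_one, map_ofNat, eval₂Hom_X']; rfl)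
  have g6 : (2 * (1 - 3 * t)) ^ 2 - (2 * (1 - t)) ^ 2 ≠ 0 := nz ((2 * (1 - 3 * X 0)) ^ 2 - (2 * (1 - X 0)) ^ 2) (by simp [map_ofNat])
    (by simp only [map_sub, map_mul, map_pow, map_one, map_ofNat, eval₂Hom_X']; rfl)
  have g7 : (2 * (1 - 3 * t)) ^ 2 - 1 ≠ 0 := nz ((2 * (1 - 3 * X 0)) ^ 2 - 1) (by simp [map_ofNat])
    (by simp only [map_sub, map_mul, map_pow, map_one, map_ofNat, eval₂Hom_X']; rfl)
  have g8 : (2 * (1 - t)) ^ 2 - 1 ≠ 0 := nz ((2 * (1 - X 0)) ^ 2 - 1) (by simp [map_ofNat])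
    (by simp only [map_sub, map_mul, map_pow, map_one, map_ofNat, eval₂Hom_X']; rfl)
  have g9 : 2 - t - s ≠ 0 := nz (2 - X 0 - X 1) (by simp [map_ofNat])
    (by simp only [map_sub, map_mul, map_pow, map_one, map_ofNat, eval₂Hom_X']; rfl)
  have x4 := mul_ne_zero (pow_ne_zero 2 g1) g4
  have x5 := mul_ne_zero (pow_ne_zero 2 g2) g3
  have := f11 (u := (1 - 3 * t) ^ 2 * (2 - t)) (v := -((1 - t) ^ 2 * (6 - 9 * t)))
    (mul_ne_zero (mul_ne_zero two_ne_zero x4) x5) (mul_ne_zero two_ne_zero g2)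
    (mul_ne_zero two_ne_zero g1) (sub_ne_zero.1 g6) (sub_ne_zero.1 g7) (sub_ne_zero.1 g8) x4 x5 g5
    (mul_ne_zero (pow_ne_zero 2 (mul_ne_zero two_ne_zero g2)) g9) ee hi h0 hc hd hq ha hb
  rw [pt11_lift (lsC K) (lsT K)]
  exact this

/-- the first fold -/
theorem up11b [CharZero K] {τ t s : K} (hx : Injective (eval₂Hom (Int.castRingHom K) ![τ, t, s]))
    {p q κ ε : ℤ} {m : Fin 10 → ℤ} (hε : ε = 0 ∨ ε = 1) (h0 : 0 ≤ κ + ε) (hma : p ≤ m 0 + m 1)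
    (hmb : p ≤ m 2 + m 3) (hq : q + κ ≤ m 4 + m 6 + m 8) :
    (finrank (LS K) (H0 p q (pt11 (lsT K) (lsC K τ) (lsC K t) (lsC K s)) m) : ℤ) ≤
      ε * ((κ + 2) / 2) + finrank K (H0 (p - (κ + ε)) (q - 2 * ((κ + ε + 1) / 2))
        (pt11 0 τ t s) (tw3 (κ + ε) m)) := by
  obtain ⟨c1, -, c2, c3⟩ := fam11.cert (ls := [0, 1, 2, 3, 4, 5, 6, 7, 8, 9]) (ix := Fin.val)
    (by decide) (p := 10007) (y := ![11, 5, 7]) (w := [])
    (sx := [(4, 0), (4, 1), (4, 2), (4, 3), (4, 5), (4, 7), (4, 9), (0, 1), (2, 3)])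
    (sy := [(0, 2), (0, 4), (0, 5), (0, 6), (0, 7), (0, 8), (0, 9), (2, 4), (2, 5), (2, 6), (2, 7),
      (2, 8), (2, 9), (4, 6), (4, 8), (6, 8)]) (by decide +kernel) hx
  change ∀ l, Pt (pt11 0 τ t s l) at c1
  simp only [List.forall_mem_cons] at c2 c3
  obtain ⟨x0, x1, x2, x3, x5, x7, x9, aa, bb, -⟩ := c2
  obtain ⟨ab, a4, a5, a6, a7, a8, a9, b4, b5, b6, b7, b8, b9, y46, y48, y68, -⟩ := c3
  have k : ∀ l, dx (pt11 0 τ t s 4) (pt11 0 τ t s l) ≠ 0 → pt11 0 τ t s l 1 ≠ 0 := fun l h e =>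
    h (by
      have e4 : pt11 0 τ t s 4 1 = 0 := rfl
      rw [dx, e, e4, zero_mul, mul_zero, sub_zero])
  refine g11 (pt11 0 τ t s) c1 rfl rfl rfl (fun l => ?_) (by simp [dy, pt11, q11])
    (by simp [dy, pt11, q11]) ab aa bb (fun l => ?_) y46 y48 y68 _ (fun l hl => ?_) ?_ hε h0 hma hmb
    hq
  · fin_cases l
    exacts [k 0 x0, k 1 x1, k 2 x2, k 3 x3, k 5 x5, k 7 x7, k 9 x9]
  · fin_cases l
    exacts [⟨a4, b4⟩, ⟨a5, b5⟩, ⟨a6, b6⟩, ⟨a7, b7⟩, ⟨a8, b8⟩, ⟨a9, b9⟩]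
  · change _ = BW.mp (lsC K) (pt11 0 τ t s) l
    rw [pt11_map, map_zero]
    exact pt11_ne _ _ _ _ l hl
  · exact pt11_eight (lsC K) _ τ t s

end tower

end Pool.Agent.Lib.MP_d03834_ag.Core
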