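import Pool.Agent.Lib.MP_d03834_ag.Core.N11Top
import Pool.Agent.Lib.MP_d03834_ag.Core.BiRel

/-! Eleven points: the word to the top chart on the limit of the rescaled arc. -/

set_option autoImplicit false

namespace Pool.Agent.Lib.MP_d03834_ag.Core.N11V

open BW

variable {k : Type} [Field k]

/-- the conditions on the residues of the parameters -/
structure Res (r b p n : k) : Prop where
  h2 : (2 : k) ≠ 0
  hr : r ≠ 0
  hr1 : r - 1 ≠ 0
  hr2 : r + 1 ≠ 0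
  hb : b ≠ 0
  hn : n ≠ 0
  hn1 : n - 1 ≠ 0
  hnb : n - b ≠ 0
  ha : b * r ^ 2 - n ≠ 0
  hm : n - b * r ≠ 0
  hp : n + b * r ≠ 0
  he : 1 + b * r ≠ 0
  p0 : p ≠ 0
  p1 : p - 1 ≠ 0

theorem nz1 {x y : k} (h : y ≠ 0) (e : x = y) : x ≠ 0 := e ▸ h

theorem nz2 {x y : k} (h : y ≠ 0) (e : x = -y) : x ≠ 0 := e ▸ neg_ne_zero.2 h

/-- the limit of the rescaled arc -/
def g0 (r b p n : k) : Fin 10 → Fin 4 → k :=
  ![![b * r ^ 2 - n, 1, b * r ^ 2, 1], ![-(b * r ^ 2 - n), 1, b * r ^ 2, 1],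
    ![r * (b - n), 1, b, 1], ![-(r * (b - n)), 1, b, 1], ![1 - p, 0, 0, 1], ![-p, 0, 0, 1],
    ![1 - p, 0, 1, 0], ![1, 0, 1, 0], ![1 - p, 0, 1, 1], ![0, 1, n, 1]]

/-- after the first shear -/
def g1 (r b n : k) : Fin 10 → Fin 4 → k :=
  ![![b * r ^ 2 - n, 1, b * r + n, b * (r + 1)], ![-(b * r ^ 2 - n), 1, b * r - n, b * (r - 1)],
    ![r * (b - n), 1, 0, 1], ![-(r * (b - n)), 1, 1, 0], ![1, 0, n, b], ![1, 0, n, b],
    ![1, 0, 1, 1], ![1, 0, 1, 1], ![1, 0, 1 - n, 1 - b], ![0, 1, 1, 0]]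

/-- after the second shear -/
def g2 (r b n : k) : Fin 10 → Fin 4 → k :=
  ![![0, 1, b * r + n, b * (r + 1)], ![b * r, b * r ^ 2 - n, b * r - n, b * (r - 1)],
    ![1, r - 1, 0, 1], ![b, b * r - n, 1, 0], ![0, 1, n, b], ![0, 1, n, b],
    ![0, 0, 1, 1], ![1, 0, 1, 1], ![0, 1, 1 - n, 1 - b], ![b * (r + 1), b * r ^ 2 - n, 1, 0]]

/-- the pairs with different y after the first shear -/
def sy : List (Fin 10 × Fin 10) :=
  [(7, 0), (7, 1), (7, 2), (7, 3), (7, 4), (7, 5), (7, 8), (7, 9), (0, 1), (0, 2), (0, 3), (0,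
    4), (0, 5), (0, 6), (0, 7), (0, 8), (0, 9), (5, 0), (5, 1), (5, 2), (5, 3), (5, 6), (5, 7),
    (5, 8), (5, 9), (2, 0), (2, 1), (2, 3), (2, 4), (2, 5), (2, 6), (2, 7), (2, 8), (2, 9), (1,
    3), (1, 4), (1, 6), (3, 4), (3, 6), (4, 6)]

variable {r b p n : k}

theorem g1_y (h : Res r b p n) : ∀ e ∈ sy, dy (g1 r b n e.1) (g1 r b n e.2) ≠ 0 := by
  simp only [sy, List.forall_mem_cons, List.not_mem_nil, false_imp_iff, implies_true, and_true]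
  refine ⟨?_, ?_, ?_, ?_, ?_, ?_, ?_, ?_, ?_, ?_, ?_, ?_, ?_, ?_, ?_, ?_, ?_, ?_, ?_, ?_, ?_, ?_, ?_,
    ?_, ?_, ?_, ?_, ?_, ?_, ?_, ?_, ?_, ?_, ?_, ?_, ?_, ?_, ?_, ?_, ?_⟩
  · exact nz1 h.hnb (by simp only [dy, g1, Matrix.cons_val]; ring)
  · exact nz2 h.hnb (by simp only [dy, g1, Matrix.cons_val]; ring)
  · exact nz2 one_ne_zero (by simp only [dy, g1, Matrix.cons_val]; ring)
  · exact nz1 one_ne_zero (by simp only [dy, g1, Matrix.cons_val]; ring)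
  · exact nz1 h.hnb (by simp only [dy, g1, Matrix.cons_val]; ring)
  · exact nz1 h.hnb (by simp only [dy, g1, Matrix.cons_val]; ring)
  · exact nz2 h.hnb (by simp only [dy, g1, Matrix.cons_val]; ring)
  · exact nz1 one_ne_zero (by simp only [dy, g1, Matrix.cons_val]; ring)
  · exact nz2 (mul_ne_zero (mul_ne_zero (mul_ne_zero h.h2 h.hr) h.hb) h.hnb)
      (by simp only [dy, g1, Matrix.cons_val]; ring)
  · exact nz2 h.hp (by simp only [dy, g1, Matrix.cons_val]; ring)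
  · exact nz1 (mul_ne_zero h.hr2 h.hb) (by simp only [dy, g1, Matrix.cons_val]; ring)
  · exact nz1 (mul_ne_zero (mul_ne_zero h.hr h.hb) h.hnb)
      (by simp only [dy, g1, Matrix.cons_val]; ring)
  · exact nz1 (mul_ne_zero (mul_ne_zero h.hr h.hb) h.hnb)
      (by simp only [dy, g1, Matrix.cons_val]; ring)
  · exact nz2 h.hnb (by simp only [dy, g1, Matrix.cons_val]; ring)
  · exact nz2 h.hnb (by simp only [dy, g1, Matrix.cons_val]; ring)
  · exact nz2 (mul_ne_zero h.hnb h.he) (by simp only [dy, g1, Matrix.cons_val]; ring)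
  · exact nz1 (mul_ne_zero h.hr2 h.hb) (by simp only [dy, g1, Matrix.cons_val]; ring)
  · exact nz2 (mul_ne_zero (mul_ne_zero h.hr h.hb) h.hnb)
      (by simp only [dy, g1, Matrix.cons_val]; ring)
  · exact nz2 (mul_ne_zero (mul_ne_zero h.hr h.hb) h.hnb)
      (by simp only [dy, g1, Matrix.cons_val]; ring)
  · exact nz2 h.hn (by simp only [dy, g1, Matrix.cons_val]; ring)
  · exact nz1 h.hb (by simp only [dy, g1, Matrix.cons_val]; ring)
  · exact nz2 h.hnb (by simp only [dy, g1, Matrix.cons_val]; ring)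
  · exact nz2 h.hnb (by simp only [dy, g1, Matrix.cons_val]; ring)
  · exact nz2 h.hnb (by simp only [dy, g1, Matrix.cons_val]; ring)
  · exact nz1 h.hb (by simp only [dy, g1, Matrix.cons_val]; ring)
  · exact nz1 h.hp (by simp only [dy, g1, Matrix.cons_val]; ring)
  · exact nz2 h.hm (by simp only [dy, g1, Matrix.cons_val]; ring)
  · exact nz1 one_ne_zero (by simp only [dy, g1, Matrix.cons_val]; ring)
  · exact nz1 h.hn (by simp only [dy, g1, Matrix.cons_val]; ring)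
  · exact nz1 h.hn (by simp only [dy, g1, Matrix.cons_val]; ring)
  · exact nz1 one_ne_zero (by simp only [dy, g1, Matrix.cons_val]; ring)
  · exact nz1 one_ne_zero (by simp only [dy, g1, Matrix.cons_val]; ring)
  · exact nz2 h.hn1 (by simp only [dy, g1, Matrix.cons_val]; ring)
  · exact nz1 one_ne_zero (by simp only [dy, g1, Matrix.cons_val]; ring)
  · exact nz1 (mul_ne_zero h.hr1 h.hb) (by simp only [dy, g1, Matrix.cons_val]; ring)
  · exact nz1 (mul_ne_zero (mul_ne_zero h.hr h.hb) h.hnb)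
      (by simp only [dy, g1, Matrix.cons_val]; ring)
  · exact nz1 h.hnb (by simp only [dy, g1, Matrix.cons_val]; ring)
  · exact nz2 h.hb (by simp only [dy, g1, Matrix.cons_val]; ring)
  · exact nz2 one_ne_zero (by simp only [dy, g1, Matrix.cons_val]; ring)
  · exact nz2 h.hnb (by simp only [dy, g1, Matrix.cons_val]; ring)

theorem rel1 (h : Res r b p n) : Rel (mv (.Kx 9 2) (g0 r b p n)) (g1 r b n) := by
  have a := neg_ne_zero.2 h.p0
  have c : 1 - p ≠ 0 := nz2 h.p1 (by ring)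
  refine rel_sc ![1, 1, 1, 1, 1 - p, -p, 1 - p, 1, 1 - p, 1]
    ![(b * r ^ 2 - n) * (r - 1), -((b * r ^ 2 - n) * (r + 1)), 1, -(2 * r * (n - b) * (n - b)),
      p - 1, p, 1 - p, 1, 1 - p, 1] (fun l => ?_) (fun l => ?_) fun l => ?_
  · fin_cases l
    exacts [one_ne_zero, one_ne_zero, one_ne_zero, one_ne_zero, c, a, c, one_ne_zero, c,
      one_ne_zero]
  · fin_cases l
    exacts [mul_ne_zero h.ha h.hr1, neg_ne_zero.2 (mul_ne_zero h.ha h.hr2), one_ne_zero,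
      neg_ne_zero.2 (mul_ne_zero (mul_ne_zero (mul_ne_zero h.h2 h.hr) h.hnb) h.hnb), h.p1, h.p0, c,
      one_ne_zero, c, one_ne_zero]
  · fin_cases l <;> simp [mv, g0, g1, dx, dy] <;> (try constructor) <;> ring

theorem rel2 (h : Res r b p n) : Rel (mv (.Ky 7 0) (g1 r b n)) (g2 r b n) := by
  refine rel_sc ![1, 2 * (n - b), b * r + n, -(r + 1), n - b, n - b, 1, 1, -(n - b), -1]
    (fun _ => 1) (fun l => ?_) (fun _ => one_ne_zero) fun l => ?_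
  · fin_cases l
    exacts [one_ne_zero, mul_ne_zero h.h2 h.hnb, nz1 h.hp (add_comm _ _), neg_ne_zero.2 h.hr2,
      h.hnb, h.hnb, one_ne_zero, one_ne_zero, neg_ne_zero.2 h.hnb, neg_ne_zero.2 one_ne_zero]
  · fin_cases l <;> simp [mv, g1, g2, dx, dy] <;> (try constructor) <;> ring

theorem g3_x (h : Res r b p n) : ∀ j ∈ [0, 2, 5, 7, 8, 9],
    dx (mv (.Ky 5 2) (g2 r b n) 1) (mv (.Ky 5 2) (g2 r b n) j) ≠ 0 := by
  have c := mul_ne_zero (mul_ne_zero h.hb h.hr) h.hm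
  have d := mul_ne_zero h.hr h.hnb
  simp only [List.forall_mem_cons, List.not_mem_nil, false_imp_iff, implies_true, and_true]
  refine ⟨?_, ?_, ?_, ?_, ?_, ?_⟩
  · exact nz1 (mul_ne_zero c (mul_ne_zero h.hb d)) (by simp [mv, g2, dx, dy]; ring)
  · exact nz1 c (by simp [mv, g2, dx, dy]; ring)
  · exact nz2 (mul_ne_zero c h.hnb) (by simp [mv, g2, dx, dy]; ring)
  · exact nz2 (mul_ne_zero c d) (by simp [mv, g2, dx, dy]; ring)
  · exact nz1 (mul_ne_zero c h.hnb) (by simp [mv, g2, dx, dy]; ring)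
  · exact nz2 (mul_ne_zero c (mul_ne_zero h.hb d)) (by simp [mv, g2, dx, dy]; ring)

theorem g0_v (h : Res r b p n) : Valid (.Kx 9 2) (g0 r b p n) := by
  have d := mul_ne_zero h.hr h.hnb
  refine ⟨nz2 h.hnb (by simp [g0, dy]), nz2 d (by simp [g0, dx]; ring), fun l a c => ?_⟩
  fin_cases l
  · exact ⟨nz1 h.ha (by simp [g0, dx]), nz1 (mul_ne_zero h.hr1 h.hp) (by simp [g0, dx]; ring)⟩
  · exact ⟨nz2 h.ha (by simp [g0, dx]), nz1 (mul_ne_zero h.hr2 h.hm) (by simp [g0, dx]; ring)⟩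
  · exact absurd rfl c
  · exact ⟨nz1 d (by simp [g0, dx]; ring), nz1 (mul_ne_zero h.h2 d) (by simp [g0, dx]; ring)⟩
  · exact ⟨nz2 h.p1 (by simp [g0, dx]), nz2 h.p1 (by simp [g0, dx])⟩
  · exact ⟨nz2 h.p0 (by simp [g0, dx]), nz2 h.p0 (by simp [g0, dx])⟩
  · exact ⟨nz2 h.p1 (by simp [g0, dx]), nz2 h.p1 (by simp [g0, dx])⟩
  · exact ⟨by simp [g0, dx], by simp [g0, dx]⟩
  · exact ⟨nz2 h.p1 (by simp [g0, dx]), nz2 h.p1 (by simp [g0, dx])⟩
  · exact absurd rfl a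

section arc
variable {O : Type} [CommRing O]

/-- the chart of the four lines, the labels are a1 a2 b1 b2 c1 c2 d1 d2 eps nu -/
def F1 (α β p1 p2 q1 q2 n ν : O) (e : Fin 4 → O) : Fin 10 → Fin 4 → O :=
  ![![p1, 1, α, 1], ![p2, 1, α, 1], ![q1, 1, β, 1], ![q2, 1, β, 1], ![1, 1, 0, 1], ![0, 1, 0, 1],
    ![1, 1, 1, 0], ![1, 0, 1, 0], e, ![n, 1, ν, 1]]

/-- the rescaled arc -/
def G0 (t r b p n P1 P2 Q1 Q2 : O) : Fin 10 → Fin 4 → O :=
  ![![P1, 1, b * r ^ 2, 1], ![P2, 1, b * r ^ 2, 1], ![Q1, 1, b, 1], ![Q2, 1, b, 1],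
    ![1 - p, t, 0, 1], ![-p, t, 0, 1], ![1 - p, t, 1, 0], ![1, 0, 1, 0], ![1 - p, t, 1, 1],
    ![0, 1, n, 1]]

/-- the leading terms of the arc -/
structure Lead (π : O →+* k) (r b n P1 P2 Q1 Q2 : O) : Prop where
  p1 : π P1 = π b * π r ^ 2 - π n
  p2 : π P2 = -(π b * π r ^ 2 - π n)
  q1 : π Q1 = π r * (π b - π n)
  q2 : π Q2 = -(π r * (π b - π n))

variable [IsDomain O] {π : O →+* k} {t r b p n P1 P2 Q1 Q2 : O}

theorem G0_valid (ht0 : t ≠ 0) (ht : π t = 0) (h : Res (π r) (π b) (π p) (π n))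
    (l : Lead π r b n P1 P2 Q1 Q2) : ValidW n11W (G0 t r b p n P1 P2 Q1 Q2) := by
  have e0 : mp π (G0 t r b p n P1 P2 Q1 Q2) = g0 (π r) (π b) (π p) (π n) := by
    funext i c
    fin_cases i <;> fin_cases c <;> simp [mp, G0, g0, ht, l.p1, l.p2, l.q1, l.q2]
  have nz : ∀ {x : O}, π x ≠ 0 → x ≠ 0 := fun a e => a (by rw [e, map_zero])
  have hq : t * Q1 ≠ 0 :=
    mul_ne_zero ht0 (nz (l.q1 ▸ nz2 (mul_ne_zero h.hr h.hnb) (by ring)))
  have y76 : dy (mv (.Kx 9 2) (G0 t r b p n P1 P2 Q1 Q2) 7)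
      (mv (.Kx 9 2) (G0 t r b p n P1 P2 Q1 Q2) 6) ≠ 0 := fun e => hq (by
    simp [mv, G0, dx, dy] at e ⊢
    tauto)
  have y54 : dy (mv (.Kx 9 2) (G0 t r b p n P1 P2 Q1 Q2) 5)
      (mv (.Kx 9 2) (G0 t r b p n P1 P2 Q1 Q2) 4) ≠ 0 := fun e =>
    mul_ne_zero (mul_ne_zero (nz h.hb) (nz h.hn)) hq (by
      rw [← e]
      simp [mv, G0, dx, dy]
      ring)
  generalize G0 t r b p n P1 P2 Q1 Q2 = G at *
  have r1 : Rel (mp π (mv (.Kx 9 2) G)) (g1 (π r) (π b) (π n)) := by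
    rw [← mv_mp, e0]
    exact rel1 h
  have r2 : Rel (mp π (mv (.Ky 7 0) (mv (.Kx 9 2) G))) (g2 (π r) (π b) (π n)) := by
    rw [← mv_mp]
    exact (r1.ky 7 0).trans (rel2 h)
  have r3 := r2.ky 5 2
  rw [mv_mp] at r3
  have hy : ∀ i j, (i, j) ∈ sy → dy (mv (.Kx 9 2) G i) (mv (.Kx 9 2) G j) ≠ 0 := fun i j a =>
    nz (dy_mp π _ i j ▸ r1.y i j (g1_y h (i, j) a))
  have hx : ∀ j ∈ [0, 2, 5, 7, 8, 9], dx (mv (.Ky 5 2) (mv (.Ky 7 0) (mv (.Kx 9 2) G)) 1)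
      (mv (.Ky 5 2) (mv (.Ky 7 0) (mv (.Kx 9 2) G)) j) ≠ 0 := fun j a =>
    nz (dx_mp π _ 1 j ▸ r3.x 1 j (g3_x h j a))
  refine ⟨(ValidW.of_mp π (w := [.Kx 9 2]) (e0 ▸ ⟨g0_v h, trivial⟩)).1,
    ⟨nz ((dx_mp π _ 7 0).symm.trans_ne (r1.x 7 0 (by simp [g1, dx]))), hy 7 0 (by decide),
      fun j a c => ⟨?_, ?_⟩⟩, ⟨nz ((dx_mp π _ 5 2).symm.trans_ne (r2.x 5 2 (by simp [g2, dx]))),
      ?_, fun j a c => ⟨?_, ?_⟩⟩, ?_⟩
  · by_cases e : j = 6
    · exact e ▸ y76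
    · exact hy 7 j (by revert j; decide)
  · exact hy 0 j (by revert j; decide)
  · rw [dy_ky]
    exact hy 5 2 (by decide)
  · rw [dy_ky]
    by_cases e : j = 4
    · exact e ▸ y54
    · exact hy 5 j (by revert j; decide)
  · rw [dy_ky]
    exact hy 2 j (by revert j; decide)
  · have hz : ∀ i j, (i, j) ∈ sy → dy (mv (.Ky 5 2) (mv (.Ky 7 0) (mv (.Kx 9 2) G)) i)
        (mv (.Ky 5 2) (mv (.Ky 7 0) (mv (.Kx 9 2) G)) j) ≠ 0 := fun i j a => by
      rw [dy_ky, dy_ky]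
      exact hy i j a
    exact ⟨hz 1 3 (by decide), hz 1 4 (by decide), hz 1 6 (by decide), hz 3 4 (by decide),
      hz 3 6 (by decide), hz 4 6 (by decide), hx 0 (by decide), hx 2 (by decide), hx 5 (by decide),
      hx 7 (by decide), hx 8 (by decide), hx 9 (by decide), trivial⟩

/-- the word to the top chart is valid on the arc -/
theorem n11_valid (ht0 : t ≠ 0) (ht : π t = 0) (h : Res (π r) (π b) (π p) (π n))
    (l : Lead π r b n P1 P2 Q1 Q2) :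
    ValidW n11W (F1 (b * r ^ 2) b (p + t * P1) (p + t * P2) (p + t * Q1) (p + t * Q2) p n
      ![1, 1, 1, 1]) := by
  refine Rel.validW ⟨prp_x 1 (-p) 0 t ![t, t, t, t, 1, 1, 1, 1, 1, t] (by simpa using ht0)
    (fun l => ?_) (fun l => ?_) fun l => ?_, prp_y 1 0 0 1 (fun _ => 1) (by simp)
    (fun _ => one_ne_zero) (fun l => ?_) fun l => ?_⟩ ?_ (G0_valid ht0 ht h l)
  · fin_cases l <;> simp [ht0]
  · fin_cases l <;> simp [F1, G0, sub_eq_add_neg]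
  · fin_cases l <;> simp [F1, G0]
  · fin_cases l <;> simp [F1, G0]
  · fin_cases l <;> simp [F1, G0]
  · simp [n11W, n11W0, n11W1, Shr]

end arc

end Pool.Agent.Lib.MP_d03834_ag.Core.N11V
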