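import Pool.Agent.Lib.MP_d03834_ag.Core.N11C
import Pool.Agent.Lib.MP_d03834_ag.Core.ClV
import Pool.Agent.Lib.MP_d03834_ag.Core.BiShear

/-! Eleven points: from the chart of the four lines to the middle frame. -/

set_option autoImplicit false

namespace Pool.Agent.Lib.MP_d03834_ag.Core

open Module MvPolynomial
open scoped Polynomial PowerSeries

variable {K : Type} [Field K]

namespace V11

theorem ev_comp {S : Type} [CommRing S] [Algebra K S] (v : Fin 4 → S) (g : Fin 4 → Cx K)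
    (F : Cx K) : aeval v (aeval g F) =
      aeval ![aeval v (g 0), aeval v (g 1), aeval v (g 2), aeval v (g 3)] F := by
  rw [← AlgHom.comp_apply, comp_aeval]
  congr 2
  funext i
  fin_cases i <;> rfl

variable {E : Type} [Field E] [Algebra K E]

theorem arc_ev {v : Fin 4 → E⟦X⟧} {P : Fin 4 → K}
    (h : ∀ i, PowerSeries.X ∣ v i - algebraMap K E⟦X⟧ (P i)) (G : Cx K) :
    PowerSeries.X ∣ aeval v G - algebraMap K E⟦X⟧ (eval P G) := by
  induction G using MvPolynomial.induction_on with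
  | C a => simp
  | add p q hp hq =>
    convert dvd_add hp hq using 1
    simp only [map_add]
    ring
  | mul_X p i hp =>
    convert dvd_add (hp.mul_right (v i)) ((h i).mul_left (algebraMap K E⟦X⟧ (eval P p))) using 1
    simp only [map_mul, aeval_X, eval_X]
    ring

/-- a line of multiple points goes to a line of multiple points -/
theorem ln {ι : Type} [Fintype ι] {u w : K} {z z' : ι → K} {m : ι → ℤ} {p d : ℤ} {F G D : Cx K}
    {g : Fin 4 → Cx K} {q : Fin 2 → K[X]} {n : Fin 2 → K} (hz : ∀ l, z l = 0)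
    (hz' : ∀ l, z' l = w) (hF : Bih p d F) (h : Dv ![Polynomial.C u, 1] ![1, 0] z m F)
    (hG : aeval g F = D * G) (P : Fin 4 → K) (hP : P = ![w, 1, (q 0).eval w, (q 1).eval w])
    (hD : eval P D ≠ 0) (h0 : eval P (g 0) = 0) (h1 : eval P (g 1) ≠ 0) (h3 : eval P (g 3) ≠ 0)
    (hg : Polynomial.X ∣ nx q n (g 2 - C u * g 3)) : Dv q n z' m G := by
  refine dv_of_arc fun w0 j S hS hne E _ _ β x _ hx => ?_
  obtain ⟨l0, hl0⟩ := hne
  obtain rfl : w0 = w := by rw [← ((hS l0).1 hl0).1, hz']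
  have hx' : PowerSeries.X ∣ x - algebraMap K E⟦X⟧ w0 := by simp [hx]
  have hζ : PowerSeries.X ∣ PowerSeries.X ^ S.card * PowerSeries.C β :=
    (dvd_pow_self _ (Finset.card_pos.2 ⟨l0, hl0⟩).ne').mul_right _
  obtain ⟨c, hc⟩ := hg
  have e0 := nx_eval q n (g 2 - C u * g 3) x (PowerSeries.X ^ S.card * PowerSeries.C β)
  rw [hc, Polynomial.eval₂_mul, Polynomial.eval₂_X] at e0
  generalize hv : ![x, 1, Polynomial.aeval x (q 0) +
    PowerSeries.X ^ S.card * PowerSeries.C β * algebraMap K E⟦X⟧ (n 0), Polynomial.aeval x (q 1) +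
    PowerSeries.X ^ S.card * PowerSeries.C β * algebraMap K E⟦X⟧ (n 1)] = v at e0 ⊢
  have a : ∀ i, PowerSeries.X ∣ v i - algebraMap K E⟦X⟧ (P i) := fun i => by
    rw [← hv, hP]
    fin_cases i
    · exact hx'
    · simp
    · convert dvd_add (ps_aeval hx' (q 0)) (hζ.mul_right (algebraMap K E⟦X⟧ (n 0))) using 1
      simp
      ring
    · convert dvd_add (ps_aeval hx' (q 1)) (hζ.mul_right (algebraMap K E⟦X⟧ (n 1))) using 1
      simp
      ring
  have e1 := congrArg (aeval v) hG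
  rw [map_mul, ev_comp] at e1
  obtain ⟨ν, hν⟩ := (ps_const h1 (arc_ev a _)).exists_right_inv
  have e2 := hF.scale (aeval v (g 1)) 1 (aeval v (g 0) * ν) 1 (aeval v (g 2)) (aeval v (g 3))
  rw [show aeval v (g 1) * (aeval v (g 0) * ν) = aeval v (g 0) by
    linear_combination aeval v (g 0) * hν, mul_one, one_mul, one_mul] at e2
  rw [← (ps_const hD (arc_ev a _)).dvd_mul_left, ← e1, e2]
  refine Dvd.dvd.mul_left (h.arc hF (w := 0) (by simp) S (fun l _ => hz l) ?_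
    (Or.inr (ps_const h3 (arc_ev a _))) ?_) _
  · have := arc_ev a (g 0)
    rw [h0, map_zero, sub_zero] at this
    rw [map_zero, sub_zero]
    exact this.mul_right _
  · simp only [map_sub, map_mul, aeval_C] at e0
    simp only [Matrix.cons_val_zero, Matrix.cons_val_one, Polynomial.aeval_C, map_one, one_mul, e0]
    exact (dvd_mul_right _ _).mul_right _

theorem arc_pid {F : Cx K} {a b : K} {m : ℕ} (h : F ∈ pid ![1, 0, a, b] ^ m)
    {x0 x1 y0 y1 : E⟦X⟧} (h1 : PowerSeries.X ∣ x1)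
    (h2 : PowerSeries.X ∣ algebraMap K E⟦X⟧ b * y0 - algebraMap K E⟦X⟧ a * y1) :
    PowerSeries.X ^ m ∣ aeval ![x0, x1, y0, y1] F := by
  rw [← Ideal.mem_span_singleton, ← Ideal.span_singleton_pow]
  refine pid_map _ ?_ ?_ h <;> rw [Ideal.mem_span_singleton]
  · simpa [lx] using h1
  · simpa [ly] using h2

/-- a base point of the substitution and the point infinitely near to it -/
theorem cl {F : Cx K} {p d m n : ℤ} {a b : K} (hF : Bih p d F)
    (h : F ∈ pid ![1, 0, a, b] ^ m.toNat) (hn : 0 ≤ n ∧ n ≤ p) (hm : m + n ≤ p)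
    {r y0 y1 A B G : E⟦X⟧} {β : E} {i k : Fin 5} (hik : i ≠ k) {S : Finset (Fin 5)}
    (hS : S = {i} ∨ S = {k} ∨ S = {i, k}) {e : Fin 5 → ℤ} (ei : e i = m) (ek : e k = p - n)
    (hr : PowerSeries.X ∣ r)
    (hy : PowerSeries.X ∣ algebraMap K E⟦X⟧ b * y0 - algebraMap K E⟦X⟧ a * y1)
    (hA : Associated A PowerSeries.X) (hB : IsUnit B)
    (hG : aeval ![r, PowerSeries.X ^ S.card * PowerSeries.C β, y0, y1] F = A ^ n.toNat * B * G) :
    PowerSeries.X ^ (∑ l ∈ S, e l).toNat ∣ G := by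
  have key : ∀ N M : ℕ, N + n.toNat ≤ M → PowerSeries.X ^ M ∣ A ^ n.toNat * B * G →
      PowerSeries.X ^ N ∣ G := fun N M h1 h2 => by
    rw [mul_right_comm, hB.dvd_mul_right] at h2
    refine (mul_dvd_mul_iff_left (pow_ne_zero n.toNat PowerSeries.X_ne_zero)).1 ?_
    rw [← pow_add]
    exact (pow_dvd_pow _ (by omega)).trans
      (h2.trans (mul_dvd_mul_right (hA.pow_pow (n := n.toNat)).dvd G))
  obtain ⟨r, rfl⟩ := hr
  have one : ∀ N : ℤ, N ≤ p - n → S.card = 1 → PowerSeries.X ^ N.toNat ∣ G := fun N h1 h2 => by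
    refine key _ p.toNat (by omega) ?_
    have := hF.scale PowerSeries.X 1 r (PowerSeries.C β) y0 y1
    rw [← hG, h2, pow_one, ← one_mul y0, ← one_mul y1, this, mul_assoc]
    exact dvd_mul_right _ _
  rcases hS with rfl | rfl | rfl
  · exact one _ (by rw [Finset.sum_singleton]; omega) rfl
  · exact one _ (by rw [Finset.sum_singleton]; omega) rfl
  · refine key _ (p.toNat + m.toNat) (by rw [Finset.sum_pair hik]; omega) ?_
    have := hF.scale PowerSeries.X 1 r (PowerSeries.X * PowerSeries.C β) y0 y1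
    rw [← hG, Finset.card_pair hik, pow_two, mul_assoc, ← one_mul y0, ← one_mul y1, this, one_pow,
      mul_one, pow_add]
    exact mul_dvd_mul_left _ (arc_pid h (dvd_mul_right _ _) hy)

theorem ass {t : K} (ht : t ≠ 0) {β : E} (hβ : Gnr K β) {s : ℕ} (hs : s ≠ 0) :
    Associated (PowerSeries.X ^ s * PowerSeries.C β - algebraMap K E⟦X⟧ t * PowerSeries.X)
      PowerSeries.X := by
  have h := (((Vc.Lk.const (E := E) ht).mul (Vc.Lk.lin (K := K) 0 0)).sub one_ne_zero hβ s).neg_left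
  rw [if_pos rfl, zero_add, min_eq_left (by omega), pow_one] at h
  convert h using 1
  simp

/-- the horizontal line through a point of the line y = 1 - t x -/
noncomputable def yl (t z : K) : Cx K := X 2 - C (1 - t * z) * X 3

/-- the substitution -/
noncomputable def sb (t z1 z2 la : K) : Fin 4 → Cx K :=
  ![(X 2 - C ((1 - t * z1) * (1 - t * z2)) * X 3) * X 0 - C (t * (z1 * z2)) * (X 2 * X 1),
    C t * (X 3 * X 0) + (X 2 - X 3) * X 1, C la * yl t z1, yl t z2]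

theorem yl_ly (t z : K) : yl t z = ly ![0, 1, 1 - t * z, 1] := by simp [yl, ly]

theorem yl_bih (t z : K) : Bih 0 1 (yl t z) := bih_X2.sub (bih_X3.cmul _)

theorem yl_ne (t z : K) : yl t z ≠ 0 := by
  rw [yl_ly]
  exact ly_ne ⟨Or.inr (by simp), Or.inr (by simp)⟩

theorem sb_bih (t z1 z2 la : K) {p q : ℤ} {F : Cx K} (h : Bih p q F) :
    Bih p (p + q) (aeval (sb t z1 z2 la) F) :=
  (h.aeval (a := 1) (b := 1) (sb t z1 z2 la)
    (((bih_X2.sub (bih_X3.cmul _)).mul bih_X0).sub ((bih_X2.mul bih_X1).cmul _))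
    (((bih_X3.mul bih_X0).cmul _).add ((bih_X2.sub bih_X3).mul bih_X1))
    ((yl_bih t z1).cmul _) (yl_bih t z2)).of_eq (by ring) (by ring)

theorem sb_inj {t z1 z2 la : K} (ht : t ≠ 0) (h12 : z1 ≠ z2) (hla : la ≠ 0) {p q : ℤ} {F : Cx K}
    (h : Bih p q F) (h0 : aeval (sb t z1 z2 la) F = 0) : F = 0 := by
  obtain ⟨U, hU⟩ : ∃ U : Cx K, U = C (1 - t * z2) * X 2 - C (la * (1 - t * z1)) * X 3 := ⟨_, rfl⟩
  obtain ⟨V, hV⟩ : ∃ V : Cx K, V = X 2 - C la * X 3 := ⟨_, rfl⟩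
  have c0 : (C (t * (z1 - z2)) : Cx K) ≠ 0 := C_ne_zero.2 (mul_ne_zero ht (sub_ne_zero.2 h12))
  have c1 : (C la : Cx K) ≠ 0 := C_ne_zero.2 hla
  have e := ev_comp ![(U - V) * X 0 + C (t * (z1 * z2)) * U * X 1,
    -(C t * V * X 0) + (U - C ((1 - t * z1) * (1 - t * z2)) * V) * X 1, U, V] (sb t z1 z2 la) F
  have e1 := h.aeval_mul (X : Fin 4 → Cx K)
    (C (t * (z1 - z2)) * X 2 * (C la * C (t * (z1 - z2)) * X 3)) (C la * C (t * (z1 - z2)))
  rw [h0, map_zero] at e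
  rw [aeval_X_left_apply] at e1
  have e2 : (C (t * (z1 - z2)) * X 2 * (C la * C (t * (z1 - z2)) * X 3)) ^ p.toNat *
      (C la * C (t * (z1 - z2))) ^ q.toNat * F = 0 := by
    rw [← e1, e]
    congr 2
    funext i
    fin_cases i <;> simp [sb, yl, hU, hV] <;> ring
  exact (mul_eq_zero.1 e2).resolve_left (mul_ne_zero (pow_ne_zero _ (mul_ne_zero
    (mul_ne_zero c0 (X_ne_zero _)) (mul_ne_zero (mul_ne_zero c1 c0) (X_ne_zero _))))
    (pow_ne_zero _ (mul_ne_zero c1 c0)))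

theorem gm {t z1 z2 z3 la ye : K} (ht : t ≠ 0) (h12 : z1 ≠ z2) (h13 : z1 ≠ z3) (h23 : z2 ≠ z3)
    (ee : ye * (z2 - z3) = la * (z1 - z3)) {p q m4 m5 m6 m7 m8 : ℤ} (h5 : 0 ≤ m5 ∧ m5 ≤ p)
    (h7 : 0 ≤ m7 ∧ m7 ≤ p) (h4 : m4 + m5 ≤ p) (h6 : m6 + m7 ≤ p) {F G : Cx K} (hF : Bih p q F)
    (a4 : F ∈ pid ![1, 0, 0, 1] ^ m4.toNat) (a6 : F ∈ pid ![1, 0, 1, 0] ^ m6.toNat)
    (a8 : F ∈ pid ![1, 0, ye, 1] ^ m8.toNat)
    (hG : aeval (sb t z1 z2 la) F = yl t z1 ^ m5.toNat * yl t z2 ^ m7.toNat * G) :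
    Dv ![1 - Polynomial.C t * Polynomial.X, 1] ![1, 0] ![z1, z2, z3, z1, z2]
      ![m4, m6, m8, p - m5, p - m7] G := by
  refine dv_of_arc fun w j S hS hne E _ _ β x hβ hx => ?_
  have hc := (Finset.card_pos.2 hne).ne'
  have hζ : PowerSeries.X ∣ PowerSeries.X ^ S.card * PowerSeries.C β :=
    (dvd_pow_self _ hc).mul_right _
  simp only [Matrix.cons_val_zero, Matrix.cons_val_one, map_sub, map_mul, map_one, map_zero,
    Polynomial.aeval_C, Polynomial.aeval_X, mul_one, mul_zero, add_zero]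
  generalize hv : ![x, 1, 1 - algebraMap K E⟦X⟧ t * x +
    PowerSeries.X ^ S.card * PowerSeries.C β, 1] = v
  have a : ∀ i, PowerSeries.X ∣ v i - algebraMap K E⟦X⟧ (![w, 1, 1 - t * w, 1] i) := fun i => by
    rw [← hv]
    fin_cases i
    · simp [hx]
    · simp
    · convert dvd_sub hζ (dvd_mul_left PowerSeries.X (algebraMap K E⟦X⟧ t)) using 1
      simp [hx]
      ring
    · simp
  have z0 : ∀ H : Cx K, eval ![w, 1, 1 - t * w, 1] H = 0 → PowerSeries.X ∣ aeval v H :=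
    fun H h => by simpa [h] using arc_ev a H
  have un : ∀ z, z ≠ w → IsUnit (aeval v (yl t z)) := fun z hz => ps_const
    (mul_ne_zero ht (sub_ne_zero.2 hz)) (by
      convert arc_ev a (yl t z)
      simp [yl]
      ring)
  have as : Associated (aeval v (yl t w)) PowerSeries.X := by
    convert ass ht hβ hc using 1
    simp [yl, ← hv, hx]
    ring
  have e1 := congrArg (aeval v) hG
  rw [map_mul, map_mul, map_pow, map_pow, ev_comp, show aeval v (sb t z1 z2 la 1) =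
    PowerSeries.X ^ S.card * PowerSeries.C β by simp [sb, ← hv]; ring] at e1
  have hz : ∀ l ∈ S, ![z1, z2, z3, z1, z2] l = w := fun l hl => ((hS l).1 hl).1
  have sub : ∀ i k : Fin 5, (∀ l, ![z1, z2, z3, z1, z2] l = w → l = i ∨ l = k) →
      S = {i} ∨ S = {k} ∨ S = {i, k} := fun i k h => by
    have : S ⊆ {i, k} := fun l hl => by simpa using h l (hz l hl)
    rcases Finset.subset_insert_iff.1 this |> Finset.subset_singleton_iff.1 with e | e
    · exact .inl (((Finset.erase_eq_empty_iff _ _).1 e).resolve_left hne.ne_empty)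
    · by_cases hi : i ∈ S
      · exact .inr (.inr (by rw [← e, Finset.insert_erase hi]))
      · exact .inr (.inl (by rw [← e, Finset.erase_eq_of_notMem hi]))
  by_cases c1 : z1 = w
  · subst c1
    refine cl hF a4 h5 h4 (i := 0) (k := 3) (by decide) (sub _ _ fun l hl => ?_) rfl rfl
      (z0 _ ?_) ?_ as ((un _ h12.symm).pow _) e1
    · fin_cases l <;> simp_all
    · simp [sb]
      ring
    · simpa using z0 (sb t z1 z2 la 2) (by simp [sb, yl])
  by_cases c2 : z2 = w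
  · subst c2
    refine cl hF a6 h7 h6 (i := 1) (k := 4) (by decide) (sub _ _ fun l hl => ?_) rfl rfl
      (z0 _ ?_) ?_ as ((un _ h12).pow m5.toNat) (by rw [e1]; ring)
    · fin_cases l <;> simp_all
    · simp [sb]
      ring
    · simpa using z0 (sb t z1 z2 la 3) (by simp [sb, yl])
  have hS2 : S = {2} := by
    have := sub 2 2 fun l hl => by fin_cases l <;> simp_all
    simpa using this
  have c3 : z3 = w := hz 2 (by simp [hS2])
  subst c3
  rw [← (((un _ c1).pow m5.toNat).mul ((un _ c2).pow m7.toNat)).dvd_mul_left, ← e1]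
  have e2 : (∑ l ∈ S, ![m4, m6, m8, p - m5, p - m7] l) = m8 := by simp [hS2]
  rw [e2]
  refine arc_pid a8 hζ ?_
  have e3 := z0 (sb t z1 z2 la 2 - C ye * sb t z1 z2 la 3) (by
    simp [sb, yl]
    linear_combination -t * ee)
  rwa [map_sub, map_mul, aeval_C, ← one_mul (aeval v (sb t z1 z2 la 2)),
    ← map_one (algebraMap K E⟦X⟧)] at e3

end V11

open V11 in
/-- the shear at c2, d2 -/
theorem v11 {t z1 z2 z3 la ya yb ye x4 x5 : K} (ht : t ≠ 0) (h1 : z1 ≠ 0) (h2 : z2 ≠ 0)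
    (h12 : z1 ≠ z2) (h13 : z1 ≠ z3) (h23 : z2 ≠ z3) (hy1 : 1 - t * z1 ≠ 0) (hy2 : 1 - t * z2 ≠ 0)
    (hla : la ≠ 0) (ea : ya = la) (eb : yb * (1 - t * z2) = la * (1 - t * z1))
    (ee : ye * (z2 - z3) = la * (z1 - z3)) (e4 : x4 = (1 - t * z1) * z2)
    (e5 : x5 = (1 - t * z2) * z1) {p q : ℤ} {m : Fin 10 → ℤ} (h5 : 0 ≤ m 5 ∧ m 5 ≤ p)
    (h7 : 0 ≤ m 7 ∧ m 7 ≤ p) (h4 : m 4 + m 5 ≤ p) (h6 : m 6 + m 7 ≤ p) :
    finrank K (W11 ya yb ye x4 x5 p q m) ≤
      finrank K (M11 t (t * (z1 * z2)) ![z1, z2, z3, z1, z2] p (q + p - m 5 - m 7) ![m 0, m 1]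
        ![m 2, m 3] ![m 4, m 6, m 8, p - m 5, p - m 7]) := by
  subst ea
  have : FiniteDimensional K (M11 t (t * (z1 * z2)) ![z1, z2, z3, z1, z2] p (q + p - m 5 - m 7)
      ![m 0, m 1] ![m 2, m 3] ![m 4, m 6, m 8, p - m 5, p - m 7]) :=
    Submodule.finiteDimensional_of_le (S₂ := weightedHomogeneousSubmodule K bw (_, _))
      fun _ hF => hF.1.1.1
  refine brk_le (aeval (sb t z1 z2 ya)).toLinearMap
    (yl t z1 ^ (m 5).toNat * yl t z2 ^ (m 7).toNat)
    (fun F hF h0 => sb_inj ht h12 hla (mem_H0.1 hF.1.1).1 h0) fun F hF => ?_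
  obtain ⟨⟨hF, hA⟩, hB⟩ := hF
  obtain ⟨hF, hP⟩ := mem_H0.1 hF
  have d1 : yl t z1 ^ (m 5).toNat ∣ aeval (sb t z1 z2 ya) F := by
    rw [← Ideal.mem_span_singleton, ← Ideal.span_singleton_pow]
    refine pid_map _ ?_ ?_ (hP 1) <;> rw [Ideal.mem_span_singleton]
    · exact ⟨X 0 - C z2 * X 1, by simp [lx, sb, yl, e4]; ring⟩
    · exact ⟨C ya, by simp [ly, sb, mul_comm]⟩
  have d2 : yl t z2 ^ (m 7).toNat ∣ aeval (sb t z1 z2 ya) F := by
    rw [← Ideal.mem_span_singleton, ← Ideal.span_singleton_pow]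
    refine pid_map _ ?_ ?_ (hP 3) <;> rw [Ideal.mem_span_singleton]
    · exact ⟨X 0 - C z1 * X 1, by simp [lx, sb, yl, e5]; ring⟩
    · exact ⟨-1, by simp [ly, sb]⟩
  have rel : IsRelPrime (yl t z1) (yl t z2) := by
    rw [yl_ly, yl_ly]
    refine ly_rel fun e => mul_ne_zero ht (sub_ne_zero.2 h12) ?_
    simp [dy] at e
    linear_combination e
  obtain ⟨G, hG⟩ := rel.pow.mul_dvd d1 d2
  refine ⟨G, ⟨⟨⟨?_, ?_⟩, ?_⟩, gm ht h12 h13 h23 ee h5 h7 h4 h6 hF (hP 0) (hP 2) (hP 4) hG⟩, hG⟩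
  · have hb := sb_bih t z1 z2 ya hF
    rw [hG] at hb
    exact (hb.of_mul (((yl_bih t z1).pow _).mul ((yl_bih t z2).pow _))
      (mul_ne_zero (pow_ne_zero _ (yl_ne _ _)) (pow_ne_zero _ (yl_ne _ _)))).of_eq (by ring)
      (by omega)
  · refine ln (w := 0) (by simp) (by simp) hF hB hG ![0, 1, 0, 1] (by simp) ?_ ?_ ?_ ?_
      ⟨Polynomial.C (Polynomial.C (ya - yb)), ?_⟩
    · simp [yl, sub_ne_zero.2 (sub_ne_zero.1 hy1).symm, sub_ne_zero.2 (sub_ne_zero.1 hy2).symm]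
    · simp [sb]
    · simp [sb]
    · simp [sb, yl, sub_ne_zero.2 (sub_ne_zero.1 hy2).symm]
    · have := congrArg (fun c => (Polynomial.C (Polynomial.C c) : K[X][X])) eb
      simp [sb, yl, nx] at this ⊢
      linear_combination this
  · refine ln (w := t * (z1 * z2)) (by simp) (by simp) hF hA hG ![t * (z1 * z2), 1, 1, 0] (by simp)
      ?_ ?_ ?_ ?_ ⟨Polynomial.C (Polynomial.C (ya * t * (z1 - z2))), ?_⟩
    · simp [yl]
    · simp [sb]
    · simp [sb]
    · simp [sb, yl]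
    · simp [sb, yl, nx]
      ring

end Pool.Agent.Lib.MP_d03834_ag.Core
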