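import Pool.Agent.Lib.MP_d03834_ag.Core.N11St1
import Pool.Agent.Lib.MP_d03834_ag.Core.N11Vc
import Pool.Agent.Lib.MP_d03834_ag.Core.N11H
import Pool.Agent.Lib.MP_d03834_ag.Core.N11Ar
import Pool.Agent.Lib.MP_d03834_ag.Core.KPF

/-! Eleven points: the bound below the second fold. -/

set_option autoImplicit false

namespace Pool.Agent.Lib.MP_d03834_ag.Core

open Module
open scoped Polynomial

theorem qd_map11 {R S : Type} [CommRing R] [CommRing S] (f : R →+* S) (a : Fin 3 → R) :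
    (qd a).map f = qd fun i => f (a i) := by
  simp [qd]

/-- the two substitutions -/
theorem w11_le {O k K : Type} [CommRing O] [Field k] [CharZero k] [Field K] [Algebra O K]
    {A : Arc O k} (hi : Function.Injective (algebraMap O K)) {c : CCfg O k} {S : O}
    (hz : c.z = ![2 - A.t, 6 - 9 * A.t, S, 2 - A.t, 6 - 9 * A.t]) (ha : ∀ s, c.al s = 0)
    (hb : ∀ s, c.be s = (2 - A.t) * (6 - 9 * A.t))
    (hd : ∏ l, (Polynomial.X - Polynomial.C (c.z l)) ∣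
      (qd (c.q 0) - Polynomial.C A.t * qd (c.q 1)) * Polynomial.X ^ 2 -
        (1 - Polynomial.C A.t * Polynomial.X) * (Polynomial.X - Polynomial.C
          (A.t * ((2 - A.t) * (6 - 9 * A.t)))) ^ 2 * qd (c.q 0))
    (ex : Ex A c) (s0 : A.res S ≠ 0) (s2 : A.res S ≠ 2) (s6 : A.res S ≠ 6) {t s ye : K}
    (ht : t = algebraMap O K A.t) (hs : s = algebraMap O K S)
    (he : ye * (6 - 9 * t - s) = (2 * (1 - 3 * t)) ^ 2 * (2 - t - s)) {p q ε : ℤ}
    {m : Fin 10 → ℤ} {u : CL} (h : Cl11 p q m ε u) :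
    finrank K (W11 ((2 * (1 - 3 * t)) ^ 2) ((2 * (1 - t)) ^ 2) ye ((1 - t) ^ 2 * (6 - 9 * t))
      ((1 - 3 * t) ^ 2 * (2 - t)) p q m) ≤ finrank K (c.HC A K ε u) := by
  have ne : ∀ (a : O) (b : K), algebraMap O K a = b → A.res a ≠ 0 → b ≠ 0 := fun a b e h1 h2 =>
    h1 (by rw [hi (e.trans (h2.trans (map_zero _).symm)), map_zero])
  have t0 : t ≠ 0 := ht ▸ (map_ne_zero_iff _ hi).2 A.t0
  have n1 : 2 - t ≠ 0 := ne (2 - A.t) _ (by simp [ht, map_ofNat]) (by simp [A.rt, map_ofNat])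
  have n2 : 6 - 9 * t ≠ 0 :=
    ne (6 - 9 * A.t) _ (by simp [ht, map_ofNat]) (by simp [A.rt, map_ofNat])
  have ez : (fun l => algebraMap O K (c.z l)) = ![2 - t, 6 - 9 * t, s, 2 - t, 6 - 9 * t] := by
    funext l
    fin_cases l <;> simp [hz, ht, hs, map_ofNat]
  have rz : ∀ l, A.res (c.z l) ≠ 0 := fun l => by
    fin_cases l <;> simp [hz, A.rt, map_ofNat, s0]
  have a1 := v11 (z1 := 2 - t) (z2 := 6 - 9 * t) (z3 := s) (la := (2 * (1 - 3 * t)) ^ 2)
    (yb := (2 * (1 - t)) ^ 2) (ye := ye) (x4 := (1 - t) ^ 2 * (6 - 9 * t))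
    (x5 := (1 - 3 * t) ^ 2 * (2 - t)) t0 n1 n2
    (sub_ne_zero.1 (ne (2 - A.t - (6 - 9 * A.t)) _ (by simp [ht, map_ofNat])
      (by simp [A.rt, map_ofNat]; norm_num)))
    (sub_ne_zero.1 (ne (2 - A.t - S) _ (by simp [ht, hs, map_ofNat])
      (by simpa [A.rt, map_ofNat, sub_eq_zero] using s2.symm)))
    (sub_ne_zero.1 (ne (6 - 9 * A.t - S) _ (by simp [ht, hs, map_ofNat])
      (by simpa [A.rt, map_ofNat, sub_eq_zero] using s6.symm)))
    (ne (1 - A.t * (2 - A.t)) _ (by simp [ht, map_ofNat]) (by simp [A.rt]))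
    (ne (1 - A.t * (6 - 9 * A.t)) _ (by simp [ht, map_ofNat]) (by simp [A.rt]))
    (ne ((2 * (1 - 3 * A.t)) ^ 2) _ (by simp [ht, map_ofNat]) (by simp [A.rt, map_ofNat]))
    rfl (by ring) he (by ring) (by ring) (q := q) h.h5 h.h7 h.h4 h.h6
  have hd' := Polynomial.map_dvd (algebraMap O K) hd
  have a2 := h11 (t := t) (w := t * ((2 - t) * (6 - 9 * t)))
    (z := ![2 - t, 6 - 9 * t, s, 2 - t, 6 - 9 * t]) (g := fun r i => algebraMap O K (c.q r i))
    t0 (mul_ne_zero t0 (mul_ne_zero n1 n2))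
    (fun l => ne (c.z l) _ (congrFun ez l) (rz l))
    (fun l => sub_ne_zero.1 (ne (c.z l - A.t * ((2 - A.t) * (6 - 9 * A.t))) _
      (by rw [map_sub, congrFun ez l]; simp [ht, map_ofNat]) (by simpa [A.rt] using rz l)))
    (fun l => ne (qv (c.q 0) (c.z l)) _ (by rw [← congrFun ez l]; simp [qv])
      (by simpa [qv, ex.r00, ex.r01, ex.r02] using rz l))
    (by
      rw [← ez]
      simpa [Polynomial.map_prod, qd_map11, ht, map_ofNat] using hd')
    (p := p) (q := dgy ε u) (a := ![m 0, m 1]) (b := ![m 2, m 3])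
    (e := ![m 4, m 6, m 8, p - m 5, p - m 7]) (m := mlt ε u)
    (fun r => by fin_cases r; exacts [h.ab 0, h.ab 1])
    (fun r => by fin_cases r; exacts [h.ab 2, h.ab 3]) h.me h.ma h.mb
  rw [← h.dy] at a1
  refine a1.trans (a2.trans (le_of_eq ?_))
  have e1 : (fun r => algebraMap O K (A.t * c.al r)) = ![0, 0] := by
    funext r
    fin_cases r <;> simp [ha]
  have e2 : (fun r => algebraMap O K (A.t * c.be r)) =
      ![t * ((2 - t) * (6 - 9 * t)), t * ((2 - t) * (6 - 9 * t))] := by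
    funext r
    fin_cases r <;> simp [hb, ht, map_ofNat]
  rw [CCfg.HC, ez, e1, e2, h.dx, ← ht]
  rfl

/-- the bound below the second fold -/
theorem w11_kb {t s ye : LS (RatFunc ℂ)} (ht : t = lsT _) (hs : s = lsC _ RatFunc.X)
    (he : ye * (6 - 9 * t - s) = (2 * (1 - 3 * t)) ^ 2 * (2 - t - s)) {p q ε : ℤ}
    {m : Fin 10 → ℤ} {u : CL} (h : Cl11 p q m ε u) (hε : ε = 0 ∨ ε = 1) :
    KB11 (cip u u) (finrank (LS (RatFunc ℂ)) (W11 ((2 * (1 - 3 * t)) ^ 2) ((2 * (1 - t)) ^ 2) ye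
      ((1 - t) ^ 2 * (6 - 9 * t)) ((1 - 3 * t) ^ 2 * (2 - t)) p q m)) := by
  obtain ⟨c, χ, h1, h2, h3, h4, h5⟩ := sta11
  have hX : ∀ n : ℂ, (RatFunc.X : RatFunc ℂ) ≠ RatFunc.C n := fun n e => by
    have := congrArg RatFunc.intDegree e
    simp at this
  have a := w11_le (A := Arc.ps (RatFunc ℂ)) (IsFractionRing.injective _ (LS (RatFunc ℂ))) h1 h2 h3
    h4 (h5 u h.ok).ex (by simpa [Arc.ps] using RatFunc.X_ne_zero)
    (by simpa [Arc.ps, map_ofNat] using hX 2) (by simpa [Arc.ps, map_ofNat] using hX 6) ht hs he h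
  obtain ⟨b1, b2⟩ := kpc _ (LS (RatFunc ℂ)) _ c χ u ε (h5 u h.ok) hε
  exact ⟨fun y => le_trans (by exact_mod_cast a) (b1 y), fun y => Nat.le_zero.1 (a.trans (b2 y).le)⟩

end Pool.Agent.Lib.MP_d03834_ag.Core
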