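import Pool.Agent.Lib.MP_d03834_ag.Core.N12Defs
import Pool.Agent.Lib.MP_d03834_ag.Core.Inv
import Pool.Agent.Lib.MP_d03834_ag.Core.LimB
import Pool.Agent.Lib.MP_d03834_ag.Core.BiPlane

/-! Twelve points: from the quotient to the symmetric configuration on a smooth conic. -/

set_option autoImplicit false

namespace Pool.Agent.Lib.MP_d03834_ag.Core

open MvPolynomial Module

theorem cor_map {A B : Type} [CommRing A] [CommRing B] (f : A →+* B) (c j : Fin 4) :
    f (cor c j) = cor c j := by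
  fin_cases c <;> fin_cases j <;> simp [cor]

theorem cor_pt {K : Type} [Field K] (c : Fin 4) : Pt (cor c : Fin 4 → K) := by
  fin_cases c <;> simp [Pt, cor]

/-- the curve may be assumed to have a non zero discriminant -/
theorem n12_disc {K : Type} [Field K] {α β γ : K} {Q : Fin 5 → Fin 4 → K} (h0 : ∀ i c, Q i c ≠ 0)
    (h1 : ∀ i, i ≠ 4 → OnQ α β γ (Q i)) :
    ∃ (a b c : FractionRing (PowerSeries K)) (R : Fin 5 → Fin 4 → FractionRing (PowerSeries K)),
      (∀ i c, R i c ≠ 0) ∧ b ^ 2 - 4 * a * c ≠ 0 ∧ (∀ i, i ≠ 4 → OnQ a b c (R i)) ∧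
      ∀ (p q : ℤ) (m : Fin 4 ⊕ Fin 5 → ℤ),
        finrank (FractionRing (PowerSeries K)) (H0 p q (Sum.elim cor R) m) ≤
          finrank K (H0 p q (Sum.elim cor Q) m) := by
  let f := algebraMap (PowerSeries K) (FractionRing (PowerSeries K))
  have hf : Function.Injective f := IsFractionRing.injective _ _
  let c : K →+* PowerSeries K := PowerSeries.C
  let π : PowerSeries K →+* K := PowerSeries.constantCoeff
  let S : Fin 5 → Fin 4 → PowerSeries K := fun i =>
    ![c (Q i 0), c (Q i 1), c (Q i 2) + PowerSeries.X * c (Q i 3), c (Q i 3)]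
  have hS : ∀ i j, π (S i j) = Q i j := fun i j => by fin_cases j <;> simp [S, π, c]
  refine ⟨f (c α), f (c β + PowerSeries.X), f (c γ), fun i j => f (S i j), fun i j h => ?_,
    fun h => ?_, fun i hi => ?_, fun p q m => ?_⟩
  · refine h0 i j ?_
    rw [← hS, hf (h.trans (map_zero f).symm), map_zero]
  · have e : (c β + PowerSeries.X) ^ 2 - 4 * c α * c γ = 0 := hf (by simpa [map_ofNat] using h)
    have e2 : (c β + PowerSeries.X) ^ 2 - 4 * c α * c γ =
        c (β ^ 2 - 4 * α * γ) + c (2 * β) * PowerSeries.X + PowerSeries.X ^ 2 := by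
      simp only [map_sub, map_mul, map_pow, map_ofNat]
      ring
    have e3 := congrArg (PowerSeries.coeff 2) (e2.symm.trans e)
    simp [c, PowerSeries.coeff_X_pow, -map_mul, -map_sub] at e3
  · have e := congrArg (fun x => f (c x)) (h1 i hi)
    simp only [map_mul, map_add, map_pow] at e
    simp only [OnQ, S, Matrix.cons_val, map_add, map_mul]
    linear_combination e
  · have := H0_lim (K := FractionRing (PowerSeries K)) π
      (fun x hx => PowerSeries.isUnit_iff_constantCoeff.2 (Ne.isUnit hx)) p q (Sum.elim cor S)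
      (by
        rintro (l | l)
        · simpa [cor_map] using cor_pt l
        · exact ⟨.inl (by simpa [hS] using h0 l 0), .inl (by simpa [hS] using h0 l 2)⟩) m
    rwa [show (fun l i => algebraMap (PowerSeries K) (FractionRing (PowerSeries K))
        (Sum.elim cor S l i)) = Sum.elim cor fun i j => f (S i j) from by
        funext l i
        rcases l with l | l
        · exact cor_map _ l i
        · rfl,
      show (fun l i => π (Sum.elim cor S l i)) = Sum.elim cor Q from by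
        funext l i
        rcases l with l | l
        · exact cor_map _ l i
        · exact hS l i] at this

theorem crn_cor {K ι : Type} [Field K] (Q : ι → Fin 4 → K) (p q : ℤ) (k : Fin 4 → ℤ) (m : ι → ℤ) :
    finrank K (H0 p q (Sum.elim Inv.crn Q) (Sum.elim ![k 2, k 0, k 1, k 3] m)) ≤
      finrank K (H0 p q (Sum.elim cor Q) (Sum.elim k m)) := by
  refine Submodule.finrank_mono (H0_mono ?_)
  rintro (j | j)
  · refine .inr ⟨.inl (![1, 2, 0, 3] j), ?_, ?_⟩ <;> fin_cases j <;> simp [Inv.crn, cor]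
  · exact .inr ⟨.inr j, rfl, le_rfl⟩

/-- the statement on the symmetric configuration -/
theorem Down12.up (h : Down12) : ∃ (L : Type) (_ : Field L) (_ : IsAlgClosed L) (_ : Algebra ℂ L)
    (a b c : L) (v : Fin 8 → Fin 3 → L) (w : Fin 4 → Fin 3 → L), b ^ 2 - 4 * a * c ≠ 0 ∧
    (∀ i, v i 1 ≠ 0) ∧ (∀ i, v i 1 ^ 2 = a * v i 0 ^ 2 + b * v i 0 * v i 2 + c * v i 2 ^ 2) ∧
    (∀ j, w j ≠ 0) ∧ ∀ (g al m : ℕ) (k : ℤ), 1 ≤ g → k = dk g al m m → DPos g al m m →
      DPos (g - 1) al (m - 1) m → 0 ≤ k → k + 1 ≤ al → 2 * k + 4 ≤ m →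
      (finrank L (Sp g (Sum.elim v w) (Sum.elim (fun _ => al) fun _ => m)) : ℤ) ≤
        db (dy2 g al m m) k + db (dy2 (g - 1) al (m - 1) m) k := by
  obtain ⟨K, _, _, α, β, γ, Q, h0, h1, h⟩ := h
  obtain ⟨a, b, c, R, r0, rd, r1, hR⟩ := n12_disc h0 h1
  let F := FractionRing (PowerSeries K)
  let L := AlgebraicClosure F
  let f := algebraMap F L
  have hf : Function.Injective f := f.injective
  obtain ⟨v, v0, v1, hv⟩ := Inv.ex_Hq (L := L) R r0
  have : CharZero L := charZero_of_injective_algebraMap (algebraMap ℂ L).injective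
  have hq : ∀ i, i ≠ 4 →
      v i 1 ^ 2 = f a * v i 0 ^ 2 + f b * v i 0 * v i 2 + f c * v i 2 ^ 2 := fun i hi => by
    obtain ⟨e0, e2, e1⟩ := v1 i
    have e := congrArg f (r1 i hi)
    rw [e0, e2]
    refine mul_right_cancel₀ ((map_ne_zero f).2 (r0 i 3)) ?_
    rw [e1, e]
    simp only [map_mul, map_add, map_pow, f]
    ring
  refine ⟨L, inferInstance, inferInstance, inferInstance, f a, f b, f c,
    ![v 0, v 1, v 2, v 3, Inv.rf (v 0), Inv.rf (v 1), Inv.rf (v 2), Inv.rf (v 3)],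
    ![Pi.single 0 1, Pi.single 2 1, v 4, Inv.rf (v 4)], fun e => rd (hf (by simpa [map_ofNat] using e)),
    fun i => ?_, fun i => ?_, fun j => ?_, fun g al m k hg hk p0 p1 k0 k1 k2 => ?_⟩
  · fin_cases i <;> simp [Inv.rf, v0]
  · fin_cases i <;> simp [Inv.rf, hq]
  · fin_cases j
    · simp
    · simp
    · exact fun e => v0 4 0 (congrFun e 0)
    · exact fun e => v0 4 0 (congrFun e 0)
  have s0 : finrank L (Sp g (Sum.elim
      ![v 0, v 1, v 2, v 3, Inv.rf (v 0), Inv.rf (v 1), Inv.rf (v 2), Inv.rf (v 3)]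
      ![Pi.single 0 1, Pi.single 2 1, v 4, Inv.rf (v 4)]) (Sum.elim (fun _ => al) fun _ => m)) ≤
      finrank L (Sp g (Inv.sym v) (Sum.elim ![m, m]
        (Sum.elim ![al, al, al, al, m] ![al, al, al, al, m]))) := by
    refine Submodule.finrank_mono (Sp_mono (Sum.elim ![.inr 0, .inr 1] (Sum.elim
      ![.inl 0, .inl 1, .inl 2, .inl 3, .inr 2] ![.inl 4, .inl 5, .inl 6, .inl 7, .inr 3])) ?_ ?_)
    · rintro (q | q | q) <;> fin_cases q <;> rfl
    · rintro (q | q | q) <;> fin_cases q <;> exact le_rfl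
  have s1 := Inv.Sp_split (K := L) two_ne_zero (d := g) (M := m) (m := m) (a := (m + 1) / 2)
    (c := (m + 1) / 2) (J := g / 2) (a' := m / 2) (c' := m / 2) (J' := (g - 1) / 2) v0
    (μ := ![al, al, al, al, m]) (by omega) (by omega) (by omega) (by omega) (by omega) (by omega)
  have e : (fun i => ((![al, al, al, al, m] i : ℕ) : ℤ)) = ![(al : ℤ), al, al, al, m] := by
    funext i
    fin_cases i <;> rfl
  have hk' : k = dk (g - 1) al (m - 1) m := by
    rw [hk, dk, dk]
    ring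
  have t0 := h g al m m p0 le_rfl (by omega) (hk ▸ k0) (hk ▸ k1) (by rw [← hk]; omega)
  have t1 := h (g - 1) al (m - 1) m p1 (by omega) (by omega) (hk' ▸ k0) (hk' ▸ k1)
    (by rw [← hk']; omega)
  have u0 := hv g m m 0 ((m + 1) / 2) ((m + 1) / 2) (g / 2) ![al, al, al, al, m]
  have u1 := hv g m m 1 (m / 2) (m / 2) ((g - 1) / 2) ![al, al, al, al, m]
  have w0 := (crn_cor R _ _ (pk g m m) _).trans
    (hR (pa g m m) (g / 2) (Sum.elim (pk g m m) ![(al : ℤ), al, al, al, m]))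
  have w1 := (crn_cor R _ _ (pk (g - 1) (m - 1) (m - 1)) _).trans (hR (pa (g - 1) (m - 1) (m - 1))
    ((g - 1) / 2) (Sum.elim (pk (g - 1) (m - 1) (m - 1)) ![(al : ℤ), al, al, al, m]))
  rw [e, show ((g : ℤ) - (0 : ℕ) - ((m + 1) / 2 : ℕ) - ((m + 1) / 2 : ℕ)) = pa g m m from by
      unfold pa; omega, show ((g / 2 : ℕ) : ℤ) = g / 2 from by omega,
    show (![(m : ℤ) - (0 : ℕ) - ((m + 1) / 2 : ℕ), (m : ℤ) - (0 : ℕ) - ((m + 1) / 2 : ℕ),
      (g : ℤ) / 2 - ((m + 1) / 2 : ℕ), (g : ℤ) / 2 - ((m + 1) / 2 : ℕ)] : Fin 4 → ℤ) =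
      ![pk g m m 2, pk g m m 0, pk g m m 1, pk g m m 3] from by
      funext i
      fin_cases i <;> simp [pk] <;> omega] at u0
  rw [e, show ((g : ℤ) - (1 : ℕ) - (m / 2 : ℕ) - (m / 2 : ℕ)) = pa (g - 1) (m - 1) (m - 1) from by
      unfold pa; omega, show (((g - 1) / 2 : ℕ) : ℤ) = (g - 1) / 2 from by omega,
    show (![(m : ℤ) - (1 : ℕ) - (m / 2 : ℕ), (m : ℤ) - (1 : ℕ) - (m / 2 : ℕ),
      ((g : ℤ) - 1) / 2 - (m / 2 : ℕ), ((g : ℤ) - 1) / 2 - (m / 2 : ℕ)] : Fin 4 → ℤ) =
      ![pk (g - 1) (m - 1) (m - 1) 2, pk (g - 1) (m - 1) (m - 1) 0, pk (g - 1) (m - 1) (m - 1) 1,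
        pk (g - 1) (m - 1) (m - 1) 3] from by
      funext i
      fin_cases i <;> simp [pk] <;> omega] at u1
  rw [← hk] at t0
  rw [← hk'] at t1
  exact (Int.ofNat_le.2 (s0.trans (s1.trans (add_le_add (u0.trans w0) (u1.trans w1))))).trans
    (by rw [Nat.cast_add]; exact add_le_add t0 t1)

end Pool.Agent.Lib.MP_d03834_ag.Core
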