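import Pool.Agent.Lib.MP_d03834_ag.Rul.Amp
import Pool.Agent.Lib.MP_d03834_ag.Rul.Plane
import Pool.Agent.Lib.MP_d03834_ag.Nag.AmpZ

/-! Plane curves with fat points, general and special configurations. -/

set_option autoImplicit false

namespace Pool.Agent.Lib.MP_d03834_ag.Core

open MvPolynomial Module Nag

/-- ternary polynomials -/
abbrev P3 (K : Type) [CommRing K] : Type := MvPolynomial (Fin 3) K

/-- the ideal of a point of affine three space -/
noncomputable def a3 {K : Type} [CommRing K] (v : Fin 3 → K) : Ideal (P3 K) :=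
  RingHom.ker (eval v)

/-- forms of degree d with multiplicity μ q at the point with homogeneous coordinates v q -/
noncomputable def Sp {K ι : Type} [CommRing K] (d : ℕ) (v : ι → Fin 3 → K) (μ : ι → ℕ) :
    Submodule K (P3 K) :=
  homogeneousSubmodule (Fin 3) K d ⊓ ⨅ q, (a3 (v q) ^ μ q).restrictScalars K

/-- homogeneous coordinates of an affine point -/
def hv {K : Type} [CommRing K] (p : Fin 2 → K) : Fin 3 → K := ![p 0, p 1, 1]

/-- for general points the dimension is at most r -/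
def Hle {ι : Type} (d : ℕ) (μ : ι → ℕ) (r : ℕ) : Prop :=
  Emp d (Sum.elim μ fun _ : Fin r => 1)

section ring
variable {K : Type} [CommRing K] {ι : Type}

theorem mem_Sp {d : ℕ} {v : ι → Fin 3 → K} {μ : ι → ℕ} {F : P3 K} :
    F ∈ Sp d v μ ↔ F.IsHomogeneous d ∧ ∀ q, F ∈ a3 (v q) ^ μ q := by
  simp [Sp, Submodule.mem_iInf]

theorem eval_aeval3 (φ : P3 K →ₐ[K] P3 K) (v : Fin 3 → K) (F : P3 K) :
    eval v (φ F) = eval (fun i => eval v (φ (X i))) F := by
  induction F using MvPolynomial.induction_on with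
  | C a => simp [← algebraMap_eq]
  | add a b ha hb => simp [ha, hb]
  | mul_X a i ha => simp [ha]

theorem a3_map (φ : P3 K →ₐ[K] P3 K) (v w : Fin 3 → K) (h : ∀ i, eval v (φ (X i)) = w i) (m : ℕ)
    {F : P3 K} (hF : F ∈ a3 w ^ m) : φ F ∈ a3 v ^ m := by
  have h1 : (a3 w).map φ ≤ a3 v := by
    rw [Ideal.map_le_iff_le_comap]
    intro x hx
    rw [Ideal.mem_comap, a3, RingHom.mem_ker, eval_aeval3, funext h]
    exact hx
  have h2 := Ideal.mem_map_of_mem φ hF
  rw [Ideal.map_pow] at h2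
  exact Ideal.pow_right_mono h1 m h2

/-- the linear substitution given by a matrix -/
noncomputable def lin3 (M : Matrix (Fin 3) (Fin 3) K) : P3 K →ₐ[K] P3 K :=
  aeval fun i => ∑ j, C (M i j) * X j

theorem lin_X (M : Matrix (Fin 3) (Fin 3) K) (v : Fin 3 → K) (i : Fin 3) :
    eval v (lin3 M (X i)) = M.mulVec v i := by
  simp [lin3, Matrix.mulVec, dotProduct]

theorem lin_hom (M : Matrix (Fin 3) (Fin 3) K) {d : ℕ} {F : P3 K} (h : F.IsHomogeneous d) :
    (lin3 M F).IsHomogeneous d := by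
  have := h.aeval (S := K) (τ := Fin 3) (fun i => ∑ j, C (M i j) * X j) (n := 1) fun i =>
    IsHomogeneous.sum _ _ _ fun j _ => (isHomogeneous_X K j).C_mul _
  rw [one_mul] at this
  exact this

theorem lin3_lin (M N : Matrix (Fin 3) (Fin 3) K) (F : P3 K) :
    lin3 M (lin3 N F) = lin3 (N * M) F := by
  have : (lin3 M).comp (lin3 N) = lin3 (N * M) := by
    refine algHom_ext fun i => ?_
    simp only [lin3, AlgHom.comp_apply, aeval_X, map_sum, map_mul, aeval_C, algebraMap_eq,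
      Matrix.mul_apply, Finset.mul_sum, Finset.sum_mul, mul_assoc]
    exact Finset.sum_comm
  exact DFunLike.congr_fun this F

theorem lin_one (F : P3 K) : lin3 1 F = F := by
  have : lin3 (1 : Matrix (Fin 3) (Fin 3) K) = AlgHom.id K _ := by
    refine algHom_ext fun i => ?_
    simp [lin3, Matrix.one_apply, apply_ite]
  exact DFunLike.congr_fun this F

theorem lin_mem (M : Matrix (Fin 3) (Fin 3) K) (v : Fin 3 → K) (m : ℕ) {F : P3 K}
    (h : F ∈ a3 (M.mulVec v) ^ m) : lin3 M F ∈ a3 v ^ m :=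
  a3_map _ _ _ (lin_X M v) m h

theorem scale_hom {d : ℕ} {F : P3 K} (h : F.IsHomogeneous d) (c : P3 K) :
    aeval (fun i => c * X i) F = c ^ d * F := by
  conv_lhs => rw [F.as_sum, map_sum]
  conv_rhs => rw [F.as_sum, Finset.mul_sum]
  refine Finset.sum_congr rfl fun ν hν => ?_
  have h1 : ν.degree = d := by
    by_contra hn
    exact mem_support_iff.1 hν (h.coeff_eq_zero hn)
  rw [Finsupp.degree_eq_sum, Fin.sum_univ_three] at h1
  rw [aeval_monomial, monomial_eq, Finsupp.prod_fintype _ _ fun _ => pow_zero _,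
    Finsupp.prod_fintype _ _ fun _ => pow_zero _, Fin.prod_univ_three, Fin.prod_univ_three, ← h1,
    algebraMap_eq]
  ring

theorem hid_a3 (p : Fin 2 → K) (c : K) (m : ℕ) {F : P3 K} (h : F ∈ hid p ^ m) :
    F ∈ a3 (c • hv p) ^ m := by
  refine Ideal.pow_right_mono ?_ m h
  rw [hid, Ideal.span_le]
  rintro _ (rfl | rfl) <;> simp [a3, hv, RingHom.mem_ker, mul_comm]

theorem Sp_mono {κ : Type} {d : ℕ} {v : ι → Fin 3 → K} {μ : ι → ℕ} {w : κ → Fin 3 → K}
    {ν : κ → ℕ} (f : κ → ι) (h1 : ∀ q, v (f q) = w q) (h2 : ∀ q, ν q ≤ μ (f q)) :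
    Sp d v μ ≤ Sp d w ν := fun _ hF => mem_Sp.2 ⟨(mem_Sp.1 hF).1, fun q =>
  Ideal.pow_le_pow_right (h2 q) (h1 q ▸ (mem_Sp.1 hF).2 (f q))⟩

end ring

section field
variable {K : Type} [Field K] {ι : Type}

instance hom_fin (d : ℕ) : FiniteDimensional K (homogeneousSubmodule (Fin 3) K d) :=
  Submodule.finiteDimensional_of_le (S₂ := restrictTotalDegree (Fin 3) K d) fun _ hF =>
    (mem_restrictTotalDegree _ _ _).2 (IsHomogeneous.totalDegree_le hF)

instance Sp_fin (d : ℕ) (v : ι → Fin 3 → K) (μ : ι → ℕ) : FiniteDimensional K (Sp d v μ) :=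
  Submodule.finiteDimensional_of_le inf_le_left

theorem a3_cancel {v : Fin 3 → K} {g F : P3 K} (hg : eval v g ≠ 0) {m : ℕ}
    (h : g * F ∈ a3 v ^ m) : F ∈ a3 v ^ m := by
  have h1 : 1 - C (eval v g)⁻¹ * g ∈ a3 v := by
    simp [a3, RingHom.mem_ker, inv_mul_cancel₀ hg]
  have h2 := Ideal.pow_mem_pow h1 m
  obtain ⟨u, hu⟩ : g ∣ 1 - (1 - C (eval v g)⁻¹ * g) ^ m := by
    have := sub_dvd_pow_sub_pow 1 (1 - C (eval v g)⁻¹ * g) m
    rw [one_pow, sub_sub_cancel] at this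
    exact (Dvd.intro_left _ rfl).trans this
  have : F = u * (g * F) + (1 - C (eval v g)⁻¹ * g) ^ m * F := by linear_combination F * hu
  rw [this]
  exact Ideal.add_mem _ (Ideal.mul_mem_left _ _ h) (Ideal.mul_mem_right _ _ h2)

theorem a3_smul {v : Fin 3 → K} {c : K} (hc : c ≠ 0) {d m : ℕ} {F : P3 K}
    (hF : F.IsHomogeneous d) (h : F ∈ a3 (c • v) ^ m) : F ∈ a3 v ^ m := by
  have := a3_map (aeval fun i => C c * X i) v (c • v) (fun i => by simp) m h
  rw [scale_hom hF] at this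
  exact a3_cancel (by rw [map_pow, eval_C]; exact pow_ne_zero _ hc) this

theorem rk3_le {S T : Submodule K (P3 K)} [FiniteDimensional K T] (φ : P3 K →ₗ[K] P3 K)
    (h1 : ∀ F ∈ S, φ F ∈ T) (h2 : ∀ F ∈ S, φ F = 0 → F = 0) : finrank K S ≤ finrank K T :=
  LinearMap.finrank_le_finrank_of_injective (f := φ.restrict h1)
    (LinearMap.ker_eq_bot.1 (LinearMap.ker_eq_bot'.2 fun F h =>
      Subtype.ext (h2 F F.2 (congrArg Subtype.val h))))

theorem lin3_inj {M : Matrix (Fin 3) (Fin 3) K} (hM : M.det ≠ 0) {F : P3 K} (h : lin3 M F = 0) :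
    F = 0 := by
  have := congrArg (lin3 M⁻¹) h
  rwa [lin3_lin, Matrix.mul_nonsing_inv _ (Ne.isUnit hM), lin_one, map_zero] at this

/-- projective transformations and rescaling of the homogeneous coordinates -/
theorem Sp_lin {M : Matrix (Fin 3) (Fin 3) K} (hM : M.det ≠ 0) (d : ℕ) (v w : ι → Fin 3 → K)
    (μ : ι → ℕ) (h : ∀ q, ∃ c : K, c ≠ 0 ∧ M.mulVec (v q) = c • w q) :
    finrank K (Sp d w μ) ≤ finrank K (Sp d v μ) := by
  refine rk3_le (lin3 M).toLinearMap (fun F hF => mem_Sp.2 ⟨lin_hom M (mem_Sp.1 hF).1, fun q => ?_⟩)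
    fun F _ => lin3_inj hM
  obtain ⟨c, hc, e⟩ := h q
  refine lin_mem M _ _ (a3_smul (inv_ne_zero hc) (mem_Sp.1 hF).1 ?_)
  rw [e, smul_smul, inv_mul_cancel₀ hc, one_smul]
  exact (mem_Sp.1 hF).2 q

theorem ex_ne {σ : Type} [Infinite K] {G : MvPolynomial σ K} (h : G ≠ 0) : ∃ x, eval x G ≠ 0 := by
  by_contra hn
  push Not at hn
  exact h (MvPolynomial.funext fun x => by rw [hn, map_zero])

theorem hv_ne [Infinite K] {d : ℕ} {F : P3 K} (hF : F.IsHomogeneous d) (h : F ≠ 0) :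
    ∃ p, eval (hv p) F ≠ 0 := by
  obtain ⟨x, hx⟩ := ex_ne (mul_ne_zero (X_ne_zero 2) h)
  rw [map_mul, eval_X, mul_ne_zero_iff] at hx
  refine ⟨![x 0 / x 2, x 1 / x 2], fun h0 => hx.2 ?_⟩
  have := a3_smul (v := x) (inv_ne_zero hx.1) (m := 1) hF (by
    rw [pow_one, a3, RingHom.mem_ker, ← h0]
    congr 2
    funext i
    fin_cases i <;> simp [hv, hx.1, div_eq_inv_mul])
  rwa [pow_one] at this

theorem simple3 [Infinite K] (d r : ℕ) (W : Submodule K (P3 K))
    (hW : W ≤ homogeneousSubmodule (Fin 3) K d) (h : finrank K W ≤ r) :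
    ∃ p : Fin r → Fin 2 → K, ∀ F ∈ W, (∀ q, eval (hv (p q)) F = 0) → F = 0 := by
  induction r generalizing W with
  | zero =>
    have := Submodule.finiteDimensional_of_le hW
    refine ⟨fun q => q.elim0, fun F hF _ => ?_⟩
    rwa [Submodule.finrank_eq_zero.1 (Nat.le_zero.1 h), Submodule.mem_bot] at hF
  | succ r ih =>
    have := Submodule.finiteDimensional_of_le hW
    by_cases h0 : W = ⊥
    · exact ⟨0, fun F hF _ => by rwa [h0, Submodule.mem_bot] at hF⟩
    obtain ⟨F, h1, h2⟩ := (Submodule.ne_bot_iff W).1 h0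
    obtain ⟨p0, h3⟩ := hv_ne (hW h1) h2
    have hlt : W ⊓ (a3 (hv p0)).restrictScalars K < W :=
      lt_of_le_of_ne inf_le_left fun e => h3 (e.ge h1).2
    obtain ⟨p, h5⟩ := ih (W ⊓ (a3 (hv p0)).restrictScalars K) (inf_le_left.trans hW) (by
      have := Submodule.finrank_lt_finrank_of_lt hlt
      omega)
    exact ⟨Fin.cons p0 p, fun G hG h => h5 G ⟨hG, h 0⟩ fun q => h q.succ⟩

theorem rk_simple (r : ℕ) (W : Submodule K (P3 K)) (p : Fin r → Fin 3 → K)
    (h : ∀ F ∈ W, (∀ q, eval (p q) F = 0) → F = 0) : finrank K W ≤ r := by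
  let φ : W →ₗ[K] Fin r → K :=
    (LinearMap.pi fun q => (aeval (p q) : P3 K →ₐ[K] K).toLinearMap).comp W.subtype
  have hφ : Function.Injective φ := by
    refine LinearMap.ker_eq_bot.1 (LinearMap.ker_eq_bot'.2 ?_)
    rintro ⟨F, hF⟩ h0
    refine Subtype.ext (h F hF fun q => ?_)
    rw [← coe_aeval_eq_eval]
    exact congrFun h0 q
  have := LinearMap.finrank_le_finrank_of_injective hφ
  rwa [Module.finrank_fintype_fun_eq_card, Fintype.card_fin] at this

/-- one configuration over one field gives the bound for general complex points -/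
theorem hle_of [Fintype ι] [Algebra ℂ K] {d r : ℕ} {μ : ι → ℕ} (v : ι → Fin 3 → K)
    (hv0 : ∀ q, v q ≠ 0) (h : finrank K (Sp d v μ) ≤ r) : Hle d μ r := by
  classical
  have : Infinite K := Infinite.of_injective _ (algebraMap ℂ K).injective
  obtain ⟨x, hx⟩ := ex_ne (G := ∏ q, (C (v q 2) + C (v q 0) * X 0 + C (v q 1) * X 1 :
      MvPolynomial (Fin 2) K)) (Finset.prod_ne_zero_iff.2 fun q _ h0 => hv0 q (by
    have a := congrArg (eval ![0, 0]) h0
    have b := congrArg (eval ![1, 0]) h0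
    have c := congrArg (eval ![0, 1]) h0
    simp at a b c
    funext i
    fin_cases i <;> simp_all))
  rw [map_prod, Finset.prod_ne_zero_iff] at hx
  let c : ι → K := fun q => v q 2 + v q 0 * x 0 + v q 1 * x 1
  have hc : ∀ q, c q ≠ 0 := fun q => by simpa using hx q (Finset.mem_univ _)
  let p : ι → Fin 2 → K := fun q => ![v q 0 / c q, v q 1 / c q]
  have h1 := (Sp_lin (M := !![1, 0, 0; 0, 1, 0; x 0, x 1, 1]) (by simp [Matrix.det_fin_three]) d v
    (fun q => hv (p q)) μ fun q => ⟨c q, hc q, by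
      funext i
      have := hc q
      fin_cases i <;> simp [Matrix.mulVec, dotProduct, Fin.sum_univ_three, hv, p]
      · field_simp
      · field_simp
      · simp only [c]; ring⟩).trans h
  obtain ⟨s, hs⟩ := simple3 d r _ inf_le_left h1
  refine gen d _ (Sum.elim p s) fun F hF hm => hs F (mem_Sp.2 ⟨hF, fun q => ?_⟩) fun q => ?_
  · simpa using hid_a3 _ 1 _ (hm (.inl q))
  · have := hid_a3 _ 1 _ (hm (.inr q))
    rw [one_smul, Sum.elim_inr, Sum.elim_inr, pow_one] at this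
    exact this

end field

theorem a3_dh {p : Fin 2 → ℂ} {m : ℕ} {F : P3 ℂ} (h : F ∈ a3 (hv p) ^ m) :
    H19.dh F ∈ H19.pid p ^ m := by
  have h1 : (a3 (hv p)).map H19.dh ≤ H19.pid p := by
    rw [Ideal.map_le_iff_le_comap]
    intro G hG
    have e : (eval p).comp (H19.dh : P3 ℂ →+* P2) = eval (hv p) := by
      refine MvPolynomial.ringHom_ext (fun c => ?_) fun i => ?_
      · simp [H19.dh]
      · fin_cases i <;> simp [H19.dh, hv]
    rw [Ideal.mem_comap, H19.mem_pid]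
    exact (RingHom.congr_fun e G).trans hG
  have h2 := Ideal.mem_map_of_mem H19.dh h
  rw [Ideal.map_pow] at h2
  exact Ideal.pow_right_mono h1 m h2

theorem a3_hid {p : Fin 2 → ℂ} {d m : ℕ} {F : P3 ℂ} (hF : F.IsHomogeneous d)
    (h : F ∈ a3 (hv p) ^ m) : F ∈ hid p ^ m := H19.mem_of_dh p m d hF (a3_dh h)

/-- a property of general configurations -/
def Gn (ι : Type) (Q : (ι → Fin 2 → ℂ) → Prop) : Prop :=
  ∃ G : MvPolynomial (ι × Fin 2) ℂ, G ≠ 0 ∧
    ∀ p : ι → Fin 2 → ℂ, eval (fun ij : ι × Fin 2 => p ij.1 ij.2) G ≠ 0 → Q p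

theorem Gn.and {ι : Type} {Q Q' : (ι → Fin 2 → ℂ) → Prop} (h : Gn ι Q) (h' : Gn ι Q') :
    Gn ι fun p => Q p ∧ Q' p := by
  obtain ⟨F, hF, hQ⟩ := h
  obtain ⟨G, hG, hQ'⟩ := h'
  refine ⟨F * G, mul_ne_zero hF hG, fun p hp => ?_⟩
  rw [map_mul, mul_ne_zero_iff] at hp
  exact ⟨hQ p hp.1, hQ' p hp.2⟩

theorem Gn.all {ι α : Type} [Fintype α] {Q : α → (ι → Fin 2 → ℂ) → Prop} (h : ∀ a, Gn ι (Q a)) :
    Gn ι fun p => ∀ a, Q a p := by
  choose G h0 hG using h
  refine ⟨∏ a, G a, Finset.prod_ne_zero_iff.2 fun a _ => h0 a, fun p hp a => hG a p ?_⟩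
  rw [map_prod, Finset.prod_ne_zero_iff] at hp
  exact hp a (Finset.mem_univ _)

theorem Gn.ex {ι : Type} {Q : (ι → Fin 2 → ℂ) → Prop} (h : Gn ι Q) : ∃ p, Q p := by
  obtain ⟨G, h0, hG⟩ := h
  obtain ⟨x, hx⟩ := ex_ne h0
  exact ⟨fun q a => x (q, a), hG _ hx⟩

theorem Gn.of_ne {ι : Type} (G : MvPolynomial (ι × Fin 2) ℂ) (p0 : ι → Fin 2 → ℂ)
    (h : eval (fun ij : ι × Fin 2 => p0 ij.1 ij.2) G ≠ 0) :
    Gn ι fun p => eval (fun ij : ι × Fin 2 => p ij.1 ij.2) G ≠ 0 :=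
  ⟨G, fun e => h (by rw [e, map_zero]), fun _ hp => hp⟩

/-- the bound holds on a dense open set of configurations -/
theorem Hle.gn {ι : Type} {d r : ℕ} {μ : ι → ℕ} (h : Hle d μ r) :
    Gn ι fun p => finrank ℂ (Sp d (fun q => hv (p q)) μ) ≤ r := by
  obtain ⟨G, G0, hG⟩ := h
  obtain ⟨x, hx⟩ := ex_ne G0
  let Q : Fin r → Fin 2 → ℂ := fun q a => x (.inr q, a)
  let s : (ι ⊕ Fin r) × Fin 2 → MvPolynomial (ι × Fin 2) ℂ := fun ij =>
    Sum.elim (fun i => X (i, ij.2)) (fun q => C (Q q ij.2)) ij.1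
  have e : ∀ y : ι × Fin 2 → ℂ, eval y (aeval s G) = eval (fun ij : (ι ⊕ Fin r) × Fin 2 =>
      Sum.elim (fun i a => y (i, a)) Q ij.1 ij.2) G := by
    intro y
    rw [← coe_aeval_eq_eval, ← coe_aeval_eq_eval, RingHom.coe_coe, RingHom.coe_coe,
      ← AlgHom.comp_apply, comp_aeval]
    congr 2
    funext ⟨i, a⟩
    rcases i with i | q <;> simp [s]
  refine ⟨aeval s G, fun h0 => hx ?_, fun p hp => rk_simple r _ (fun q => hv (Q q)) ?_⟩
  · have := e fun ij => x (.inl ij.1, ij.2)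
    rw [h0, map_zero] at this
    rw [this]
    congr 2
    funext ⟨i, a⟩
    rcases i with i | q <;> rfl
  intro F hF h1
  rw [e] at hp
  refine hG (Sum.elim p Q) hp F (mem_Sp.1 hF).1 ?_
  rintro (i | q)
  · exact a3_hid (mem_Sp.1 hF).1 ((mem_Sp.1 hF).2 i)
  · exact a3_hid (mem_Sp.1 hF).1 (by rw [Sum.elim_inr, Sum.elim_inr, pow_one]; exact h1 q)

theorem hv_ne_zero {K : Type} [CommRing K] [Nontrivial K] (p : Fin 2 → K) : hv p ≠ 0 :=
  fun h => by simpa [hv] using congrFun h 2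

/-- renaming, more points, larger multiplicities, larger bound -/
theorem Hle.mono {ι κ : Type} [Fintype κ] {d r r' : ℕ} {μ : ι → ℕ} {ν : κ → ℕ} (h : Hle d μ r)
    (f : ι → κ) (hf : Function.Injective f) (h1 : ∀ q, μ q ≤ ν (f q)) (h2 : r ≤ r') :
    Hle d ν r' := by
  obtain ⟨p, hp⟩ := h.gn.ex
  refine hle_of (fun q => hv (Function.extend f p 0 q)) (fun q => hv_ne_zero _)
    ((Submodule.finrank_mono (Sp_mono f (fun q => ?_) h1)).trans (hp.trans h2))
  rw [hf.extend_apply]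

end Pool.Agent.Lib.MP_d03834_ag.Core
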