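import Pool.Agent.Lib.MP_d03834_ag.Core.Fib4A
import Pool.Agent.Lib.MP_d03834_ag.Core.Top

/-! Semicontinuity of plane systems in a polynomial one parameter family, over any field. -/

set_option autoImplicit false

namespace Pool.Agent.Lib.MP_d03834_ag.Core

open MvPolynomial Module Filter
open scoped Polynomial

variable {K : Type} [Field K] {ι : Type}

theorem PolyV.pi [Fintype ι] {E : ι → Type} [∀ q, AddCommGroup (E q)] [∀ q, Module K (E q)]
    {w : K → ∀ q, E q} (h : ∀ q, PolyV fun η => w η q) : PolyV w := by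
  classical
  have := PolyV.sum Finset.univ fun q => (h q).map (LinearMap.single K E q)
  simpa [Finset.univ_sum_single] using this

theorem PolyV.ev (G : (P3 K)[X]) : PolyV fun η : K => G.eval (C η) := by
  have := PolyV.sum G.support fun n => (PolyV.const (K := K) (G.coeff n)).pow n
  convert this using 2 with η
  rw [Polynomial.eval_eq_sum, Polynomial.sum_def]
  exact Finset.sum_congr rfl fun n _ => by rw [smul_eq_C_mul, map_pow, mul_comm]

/-- translation of the origin -/
noncomputable def shf (v : Fin 3 → K) : P3 K →ₐ[K] P3 K := aeval fun i => X i + C (v i)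

theorem shf_iff (v : Fin 3 → K) (m : ℕ) (F : P3 K) :
    shf v F ∈ a3 (0 : Fin 3 → K) ^ m ↔ F ∈ a3 v ^ m := by
  refine ⟨fun h => ?_, a3_map _ _ _ (fun i => by simp [shf]) m⟩
  have h1 := a3_map (shf (-v)) v 0 (fun i => by simp [shf]) m h
  have e : (shf (-v)).comp (shf v) = AlgHom.id K _ := algHom_ext fun i => by simp [shf]
  rwa [← AlgHom.comp_apply, e] at h1

theorem shf_poly (P : Fin 3 → K[X]) (F : P3 K) :
    PolyV fun η : K => shf (fun i => (P i).eval η) F := by
  let ψ : P3 K →+* (P3 K)[X] := eval₂Hom (Polynomial.C.comp C)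
    fun i => Polynomial.C (X i) + (P i).map C
  have e : ∀ η : K, (Polynomial.evalRingHom (C η)).comp ψ =
      (shf fun i => (P i).eval η : P3 K →+* P3 K) := fun η =>
    MvPolynomial.ringHom_ext (fun c => by simp [ψ, shf]) fun i => by
      simp [ψ, shf, Polynomial.eval_map, Polynomial.eval₂_at_apply]
  have := PolyV.ev (ψ F)
  convert this using 2 with η
  exact (RingHom.congr_fun (e η) F).symm

/-- the dimension can only grow at the special parameter -/
theorem Sp_semi [Fintype ι] (d : ℕ) (P : ι → Fin 3 → K[X]) (μ : ι → ℕ) :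
    ∀ᶠ η in cofinite, finrank K (Sp d (fun q i => (P q i).eval η) μ) ≤
      finrank K (Sp d (fun q i => (P q i).eval 0) μ) := by
  let T : K → homogeneousSubmodule (Fin 3) K d →ₗ[K]
      ∀ q, P3 K ⧸ (a3 (0 : Fin 3 → K) ^ μ q).restrictScalars K := fun η =>
    LinearMap.pi fun q => (Submodule.mkQ _).comp
      ((shf fun i => (P q i).eval η).toLinearMap.comp (Submodule.subtype _))
  have hk : ∀ η, finrank K (LinearMap.ker (T η)) =
      finrank K (Sp d (fun q i => (P q i).eval η) μ) := fun η => by
    have : LinearMap.ker (T η) = (Sp d (fun q i => (P q i).eval η) μ).comap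
        (homogeneousSubmodule (Fin 3) K d).subtype := by
      ext F
      rw [LinearMap.mem_ker, Submodule.mem_comap, mem_Sp, funext_iff]
      refine ⟨fun h => ⟨F.2, fun q => (shf_iff _ _ _).1 ?_⟩, fun h q => ?_⟩
      · exact (Submodule.Quotient.mk_eq_zero _).1 (h q)
      · exact (Submodule.Quotient.mk_eq_zero _).2 ((shf_iff _ _ _).2 (h.2 q))
    rw [this]
    exact (Submodule.comapSubtypeEquivOfLe inf_le_left).finrank_eq
  filter_upwards [ker_semi T fun F => PolyV.pi fun q =>
    (shf_poly (P q) F).map (Submodule.mkQ _)] with η hη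
  rwa [hk, hk] at hη

theorem ev_ne1 (f : K[X]) (h : f.eval 1 ≠ 0) : ∀ᶠ η in cofinite, f.eval η ≠ 0 := by
  have h0 : f ≠ 0 := fun e => h (by rw [e, Polynomial.eval_zero])
  simpa [eventually_cofinite] using Polynomial.finite_setOfPred_isRoot h0

end Pool.Agent.Lib.MP_d03834_ag.Core
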