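import Pool.Agent.Lib.MP_d03834_ag.Core.Fib4P
import Pool.Agent.Lib.MP_d03834_ag.Core.SpSemi
import Pool.Agent.Lib.MP_d03834_ag.Core.Crem

/-! Eight points on a conic: the fold along a rational curve of square minus four. -/

set_option autoImplicit false

namespace Pool.Agent.Lib.MP_d03834_ag.Core

open MvPolynomial Module Filter Nag
open scoped Polynomial

namespace Cnc

variable {K : Type} [Field K]

/-- the standard parametrisation of the conic -/
def cp {R : Type} [CommRing R] (u : R) : Fin 3 → R := ![u ^ 2, u, 1]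

/-- the chord through two points of the conic -/
def ch {R : Type} [CommRing R] (a b : R) (w : Fin 3 → R) : R := w 0 - (a + b) * w 1 + a * b * w 2

/-- five plus three points on the conic and four more -/
abbrev Ix : Type := (Fin 4 ⊕ Unit) ⊕ (Fin 3 ⊕ Fin 4)

/-- the three chords as coordinates -/
def M1 (a b c : K) : Matrix (Fin 3) (Fin 3) K :=
  !![1, -(b + c), b * c; 1, -(a + c), a * c; 1, -(a + b), a * b]

theorem M1_det (a b c : K) : (M1 a b c).det = (a - b) * (b - c) * (c - a) := by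
  simp [M1, Matrix.det_fin_three]
  ring

theorem M1_mul (a b c : K) (w : Fin 3 → K) :
    (M1 a b c).mulVec w = ![ch b c w, ch a c w, ch a b w] := by
  funext i
  fin_cases i <;> simp [M1, ch, Matrix.mulVec, dotProduct, Fin.sum_univ_three] <;> ring

theorem ch_cp (a b u : K) : ch a b (cp u) = (u - a) * (u - b) := by
  simp [ch, cp]
  ring

/-- the frame in which the image line is the first axis -/
def M2 (a b c e : K) : Matrix (Fin 3) (Fin 3) K :=
  !![b - c, c - a, a - b; 1, -1, 0; e - b, a - e, 0]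

theorem M2_det (a b c e : K) : (M2 a b c e).det = (a - b) ^ 2 := by
  simp [M2, Matrix.det_fin_three]
  ring

theorem M2_mul (a b c e : K) (w : Fin 3 → K) : (M2 a b c e).mulVec w =
    ![(b - c) * w 0 + (c - a) * w 1 + (a - b) * w 2, w 0 - w 1, (e - b) * w 0 + (a - e) * w 1] := by
  funext i
  fin_cases i <;> simp [M2, Matrix.mulVec, dotProduct, Fin.sum_univ_three]
  ring

/-- the configuration on the conic -/
def cfg (U : Fin 3 → K) (e : K) (s : Fin 4 → K) (w : Fin 4 → Fin 3 → K) : Ix → Fin 3 → K :=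
  Sum.elim (Sum.elim (fun i => cp (s i)) fun _ => cp e) (Sum.elim (fun i => cp (U i)) w)

/-- the remaining points after the quadratic map -/
def rest (U : Fin 3 → K) (e : K) (w : Fin 4 → Fin 3 → K) : Fin 3 ⊕ Fin 4 → Fin 3 → K :=
  fun q => (M2 (U 0) (U 1) (U 2) e).mulVec
    (Sum.elim (fun i => Pi.single i 1) (fun j => sg ((M1 (U 0) (U 1) (U 2)).mulVec (w j))) q)

theorem rest0 {U : Fin 3 → K} (hU : Function.Injective U) (e : K) {w : Fin 4 → Fin 3 → K}
    (hw : ∀ j, w j 0 * w j 2 - w j 1 ^ 2 ≠ 0) (q : Fin 3 ⊕ Fin 4) : rest U e w q 0 ≠ 0 := by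
  have n01 : U 0 - U 1 ≠ 0 := sub_ne_zero.2 (hU.ne (by decide))
  have n12 : U 1 - U 2 ≠ 0 := sub_ne_zero.2 (hU.ne (by decide))
  have n20 : U 2 - U 0 ≠ 0 := sub_ne_zero.2 (hU.ne (by decide))
  rcases q with i | j
  · fin_cases i <;> simpa [rest, M2_mul]
  · have : rest U e w (.inr j) 0 =
        (U 0 - U 1) * (U 1 - U 2) * (U 2 - U 0) * (w j 0 * w j 2 - w j 1 ^ 2) := by
      simp [rest, M2_mul, M1_mul, sg, ch]
      ring
    rw [this]
    exact mul_ne_zero (mul_ne_zero (mul_ne_zero n01 n12) n20) (hw j)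

/-- from the conic to the line -/
theorem to_line {U : Fin 3 → K} (hU : Function.Injective U) {e : K} (he : ∀ i, e ≠ U i)
    {s : Fin 4 → K} (hs : ∀ j i, s j ≠ U i) (hse : ∀ j, s j ≠ e) {w : Fin 4 → Fin 3 → K}
    (h0 : ∀ j, ch (U 1) (U 2) (w j) ≠ 0) (h1 : ∀ j, ch (U 0) (U 2) (w j) ≠ 0)
    (h2 : ∀ j, ch (U 0) (U 1) (w j) ≠ 0) {D d a g m : ℕ} (hd : d + 3 * g = 2 * D)
    (ha : a + 2 * g = D) :
    finrank K (Sp D (Sum.elim (Sum.elim (fun i => ![0, (e - s i)⁻¹, 1]) fun _ : Unit => ![0, 1, 0])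
      (rest U e w)) (Sum.elim (Sum.elim (fun _ => a) fun _ => a)
        (Sum.elim (fun _ => g) fun _ => m))) ≤
    finrank K (Sp d (cfg U e s w) (Sum.elim (Sum.elim (fun _ => a) fun _ => a)
        (Sum.elim (fun _ => a) fun _ => m))) := by
  have n01 : U 0 - U 1 ≠ 0 := sub_ne_zero.2 (hU.ne (by decide))
  have n12 : U 1 - U 2 ≠ 0 := sub_ne_zero.2 (hU.ne (by decide))
  have n20 : U 2 - U 0 ≠ 0 := sub_ne_zero.2 (hU.ne (by decide))
  have n10 : U 1 - U 0 ≠ 0 := sub_ne_zero.2 (hU.ne (by decide))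
  have n21 : U 2 - U 1 ≠ 0 := sub_ne_zero.2 (hU.ne (by decide))
  have n02 : U 0 - U 2 ≠ 0 := sub_ne_zero.2 (hU.ne (by decide))
  let lp : K → Fin 3 → K := fun u => ![u - U 0, u - U 1, u - U 2]
  let V : Ix → Fin 3 → K := Sum.elim (Sum.elim (fun i => lp (s i)) fun _ => lp e)
    (Sum.elim (fun i => Pi.single i 1) fun j => sg ((M1 (U 0) (U 1) (U 2)).mulVec (w j)))
  let W : Ix → Fin 3 → K := fun q => (M1 (U 0) (U 1) (U 2)).mulVec (cfg U e s w q)
  let μ : Ix → ℤ := Sum.elim (fun _ => a) (Sum.elim (fun _ => g) fun _ => m)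
  let μ' : Ix → ℤ := Sum.elim (fun _ => a) (Sum.elim (fun _ => a) fun _ => m)
  have hl : ∀ u, (∀ i, u ≠ U i) → (∀ j, (M1 (U 0) (U 1) (U 2)).mulVec (cp u) j ≠ 0) ∧
      ∃ c : K, c ≠ 0 ∧ sg ((M1 (U 0) (U 1) (U 2)).mulVec (cp u)) = c • lp u := fun u hu => by
    have a0 := sub_ne_zero.2 (hu 0)
    have a1 := sub_ne_zero.2 (hu 1)
    have a2 := sub_ne_zero.2 (hu 2)
    rw [M1_mul, ch_cp, ch_cp, ch_cp]
    refine ⟨fun j => ?_, _, mul_ne_zero (mul_ne_zero a0 a1) a2, ?_⟩
    · fin_cases j <;> simp [a0, a1, a2]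
    · funext j
      fin_cases j <;> simp [sg, lp] <;> ring
  have e1 : (Sum.elim (Sum.elim (fun _ => a) fun _ => a) (Sum.elim (fun _ => g) fun _ => m) :
      Ix → ℕ) = fun q => (μ q).toNat := by
    funext q
    rcases q with (i | i) | (i | i) <;> simp [μ]
  have e2 : (Sum.elim (Sum.elim (fun _ => a) fun _ => a) (Sum.elim (fun _ => a) fun _ => m) :
      Ix → ℕ) = fun q => (μ' q).toNat := by
    funext q
    rcases q with (i | i) | (i | i) <;> simp [μ']
  rw [e1, e2]
  refine (Sp_lin (M := M2 (U 0) (U 1) (U 2) e) (by rw [M2_det]; exact pow_ne_zero _ n01) D V _ _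
    ?_).trans ((Sp_crem (fun i => .inr (.inl i)) (w := W) (fun i => ⟨1, one_ne_zero,
      (one_smul _ _).symm⟩) (fun i => ?_) ?_ ?_ (fun i => ?_) ?_).trans
      (Sp_lin (M := M1 (U 0) (U 1) (U 2)) ?_ d _ W _ fun q => ⟨1, one_ne_zero,
        (one_smul _ _).symm⟩))
  · rintro ((i | i) | q)
    · have := sub_ne_zero.2 (hse i).symm
      refine ⟨(U 0 - U 1) * (s i - e), mul_ne_zero n01 (sub_ne_zero.2 (hse i)), ?_⟩
      funext j
      fin_cases j <;> simp [V, lp, M2_mul]
      · ring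
      · field_simp
        ring
      · ring
    · refine ⟨U 1 - U 0, n10, ?_⟩
      funext j
      fin_cases j <;> simp [V, lp, M2_mul] <;> ring
    · refine ⟨1, one_ne_zero, ?_⟩
      rw [one_smul]
      rcases q with i | j <;> rfl
  · fin_cases i
    · refine ⟨_, mul_ne_zero n01 n02, ?_⟩
      funext j
      fin_cases j <;> simp [W, cfg, M1_mul, ch_cp]
    · refine ⟨_, mul_ne_zero n10 n12, ?_⟩
      funext j
      fin_cases j <;> simp [W, cfg, M1_mul, ch_cp]
    · refine ⟨_, mul_ne_zero n20 n21, ?_⟩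
      funext j
      fin_cases j <;> simp [W, cfg, M1_mul, ch_cp]
  · rintro ((i | i) | (i | j)) hq
    · exact hl _ (hs i)
    · exact hl _ he
    · exact (hq ⟨i, rfl⟩).elim
    · refine ⟨fun k => ?_, 1, one_ne_zero, (one_smul _ _).symm⟩
      change (M1 (U 0) (U 1) (U 2)).mulVec (w j) k ≠ 0
      rw [M1_mul]
      fin_cases k
      exacts [h0 j, h1 j, h2 j]
  · simp only [μ, Sum.elim_inr, Sum.elim_inl]
    omega
  · simp only [μ, μ', Sum.elim_inr, Sum.elim_inl]
    omega
  · rintro ((i | i) | (i | j)) hq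
    · exact le_rfl
    · exact le_rfl
    · exact (hq ⟨i, rfl⟩).elim
    · exact le_rfl
  · rw [M1_det]
    exact mul_ne_zero (mul_ne_zero n01 n12) n20

/-- the multiplicities on the conic configuration -/
def mu (a m : ℕ) : Ix → ℕ :=
  Sum.elim (Sum.elim (fun _ => a) fun _ => a) (Sum.elim (fun _ => a) fun _ => m)

/-- the fold for a non degenerate configuration -/
theorem top_gen [Algebra ℂ K] {U : Fin 3 → K} (hU : Function.Injective U) {e : K}
    (he : ∀ i, e ≠ U i) {s : Fin 4 → K} (hi : Function.Injective s) (hs : ∀ j i, s j ≠ U i)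
    (hse : ∀ j, s j ≠ e) {w : Fin 4 → Fin 3 → K}
    (h0 : ∀ j, ch (U 1) (U 2) (w j) ≠ 0) (h1 : ∀ j, ch (U 0) (U 2) (w j) ≠ 0)
    (h2 : ∀ j, ch (U 0) (U 1) (w j) ≠ 0) (hw : ∀ j, w j 0 * w j 2 - w j 1 ^ 2 ≠ 0)
    {d m t a d1 r : ℕ} (hd : d + t = 4 * m) (hm : m = a + 1 + t) (hd1 : d = d1 + 2 + 2 * t)
    (k1 : finrank K (Sp (d1 + 2) (cfg U e s w) (mu (a + 1) m)) ≤ r + t)
    (k2 : finrank K (Sp d1 (cfg U e s w) (mu a m)) ≤ r) : Hle d (fun _ : Fin 12 => m) r := by
  have : CharZero K := charZero_of_injective_algebraMap (algebraMap ℂ K).injective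
  have hy : Function.Injective fun i => (e - s i)⁻¹ := fun i j h =>
    hi (sub_right_injective (inv_injective h))
  obtain ⟨x, hx⟩ := fib4_plane _ hy (rest U e w) (rest0 hU e hw) (5 * a + 5 + 3 * t) m t r
    (fun _ => m) (Sum.elim (fun _ => 2 * a + 2 + t) fun _ => m) (fun _ => by omega)
    (by simp; omega)
    (by
      rw [show m - t = a + 1 by omega]
      exact (to_line hU he hs hse h0 h1 h2 (by omega) (by omega)).trans k1)
    (by
      rw [show m - (t + 1) = a by omega]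
      exact (to_line hU he hs hse h0 h1 h2 (by omega) (by omega)).trans k2)
  have h3 := hle_of _ (by
    rintro ((i | i) | q) h
    · simpa using congrFun h 2
    · simpa using congrFun h 1
    · exact rest0 hU e hw q (congrFun h 0)) hx
  let μ' : Ix → ℤ := Sum.elim (fun _ => m) (Sum.elim (fun _ => (2 * a + 2 + t : ℕ)) fun _ => m)
  have e1 : (Sum.elim (Sum.elim (fun _ => m) fun _ => m)
      (Sum.elim (fun _ => 2 * a + 2 + t) fun _ => m) : Ix → ℕ) = fun q => (μ' q).toNat := by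
    funext q
    rcases q with (i | i) | (i | i) <;> simp only [μ', Sum.elim_inl, Sum.elim_inr, Int.toNat_natCast]
  rw [e1] at h3
  have h4 := Hle.crem (b := fun i : Fin 3 => (.inr (.inl i) : Ix))
    (Sum.inr_injective.comp Sum.inl_injective) (d := d) (μ := fun _ => (m : ℤ)) (by omega)
    (fun i => by simp only [μ', Sum.elim_inr, Sum.elim_inl]; omega) (by
      rintro ((i | i) | (i | j)) hq
      · exact le_rfl
      · exact le_rfl
      · exact (hq ⟨i, rfl⟩).elim
      · exact le_rfl) h3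
  let f : Ix ≃ Fin 12 := Fintype.equivFinOfCardEq (by simp)
  exact h4.mono f f.injective (fun _ => by simp) le_rfl

/-- the segment from a value to a target -/
noncomputable def sgm (x y : K) : K[X] := Polynomial.C x + Polynomial.C (y - x) * Polynomial.X

theorem sgm0 (x y : K) : (sgm x y).eval 0 = x := by simp [sgm]

theorem sgm1 (x y : K) : (sgm x y).eval 1 = y := by simp [sgm]

theorem ev_cp (η : K) (u : K[X]) (i : Fin 3) : (cp u i).eval η = cp (u.eval η) i := by
  fin_cases i <;> simp [cp]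

theorem ev_ch (η : K) (a b : K[X]) (w : Fin 3 → K[X]) :
    (ch a b w).eval η = ch (a.eval η) (b.eval η) fun i => (w i).eval η := by
  simp [ch]

/-- the fold for any configuration on the standard conic -/
theorem top_std [Algebra ℂ K] (U : Fin 3 → K) (e : K) (s : Fin 4 → K) (w : Fin 4 → Fin 3 → K)
    {d m t a d1 r : ℕ} (hd : d + t = 4 * m) (hm : m = a + 1 + t) (hd1 : d = d1 + 2 + 2 * t)
    (k1 : finrank K (Sp (d1 + 2) (cfg U e s w) (mu (a + 1) m)) ≤ r + t)
    (k2 : finrank K (Sp d1 (cfg U e s w) (mu a m)) ≤ r) : Hle d (fun _ : Fin 12 => m) r := by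
  have : CharZero K := charZero_of_injective_algebraMap (algebraMap ℂ K).injective
  have : Infinite K := Infinite.of_injective _ (algebraMap ℂ K).injective
  let U' : Fin 3 → K[X] := fun i => sgm (U i) (i : ℕ)
  let e' : K[X] := sgm e (3 : ℕ)
  let s' : Fin 4 → K[X] := fun i => sgm (s i) (4 + i : ℕ)
  let w' : Fin 4 → Fin 3 → K[X] := fun j i => sgm (w j i) (![1, 0, 1] i)
  let P : Ix → Fin 3 → K[X] :=
    Sum.elim (Sum.elim (fun i => cp (s' i)) fun _ => cp e') (Sum.elim (fun i => cp (U' i)) w')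
  have hP : ∀ η, (fun q i => (P q i).eval η) = cfg (fun i => (U' i).eval η) (e'.eval η)
      (fun i => (s' i).eval η) fun j i => (w' j i).eval η := fun η => by
    funext q i
    rcases q with (j | j) | (j | j)
    exacts [ev_cp _ _ _, ev_cp _ _ _, ev_cp _ _ _, rfl]
  have hne : ∀ (x y : K) (p q : ℕ), p ≠ q →
      ∀ᶠ η in cofinite, (sgm x p).eval η ≠ (sgm y q).eval η := fun x y p q h => by
    simpa only [Polynomial.eval_sub, sub_ne_zero] using ev_ne1 (sgm x p - sgm y q) (by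
      rw [Polynomial.eval_sub, sgm1, sgm1, sub_ne_zero]
      exact fun e => h (Nat.cast_injective e))
  have hch : ∀ (i k : Fin 3) (j : Fin 4), ∀ᶠ η in cofinite,
      ch ((U' i).eval η) ((U' k).eval η) (fun l => (w' j l).eval η) ≠ 0 := fun i k j => by
    simpa only [ev_ch] using ev_ne1 (ch (U' i) (U' k) (w' j)) (by
      have : ((1 + i * k : ℕ) : K) ≠ 0 := Nat.cast_ne_zero.2 (by omega)
      simpa [ev_ch, U', w', sgm1, ch] using this)
  have c1 : ∀ᶠ η in cofinite, Function.Injective fun i => (U' i).eval η := by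
    have : ∀ᶠ η in cofinite, ∀ i k : Fin 3, i ≠ k → (U' i).eval η ≠ (U' k).eval η :=
      eventually_all.2 fun i => eventually_all.2 fun k => eventually_all.2 fun h =>
        hne _ _ _ _ (Fin.val_ne_of_ne h)
    exact this.mono fun η h i k e => by_contra fun n => h i k n e
  have c2 : ∀ᶠ η in cofinite, ∀ i, e'.eval η ≠ (U' i).eval η :=
    eventually_all.2 fun i => hne _ _ _ _ (by omega)
  have c3 : ∀ᶠ η in cofinite, Function.Injective fun i => (s' i).eval η := by
    have : ∀ᶠ η in cofinite, ∀ i k : Fin 4, i ≠ k → (s' i).eval η ≠ (s' k).eval η :=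
      eventually_all.2 fun i => eventually_all.2 fun k => eventually_all.2 fun h =>
        hne _ _ _ _ (by have := Fin.val_ne_of_ne h; omega)
    exact this.mono fun η h i k e => by_contra fun n => h i k n e
  have c4 : ∀ᶠ η in cofinite, ∀ j i, (s' j).eval η ≠ (U' i).eval η :=
    eventually_all.2 fun j => eventually_all.2 fun i => hne _ _ _ _ (by omega)
  have c5 : ∀ᶠ η in cofinite, ∀ j, (s' j).eval η ≠ e'.eval η :=
    eventually_all.2 fun j => hne _ _ _ _ (by omega)
  have c6 : ∀ᶠ η in cofinite, ∀ j,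
      (w' j 0).eval η * (w' j 2).eval η - (w' j 1).eval η ^ 2 ≠ 0 :=
    eventually_all.2 fun j => (ev_ne1 (w' j 0 * w' j 2 - w' j 1 ^ 2) (by simp [w', sgm1])).mono
      fun η h => by rwa [Polynomial.eval_sub, Polynomial.eval_mul, Polynomial.eval_pow] at h
  obtain ⟨η, ⟨⟨⟨⟨⟨⟨⟨⟨⟨⟨b1, b2⟩, b3⟩, b4⟩, b5⟩, b6⟩, b7⟩, b8⟩, b9⟩, g1⟩, g2⟩⟩ :=
    ((((((((((c1.and c2).and c3).and c4).and c5).and (eventually_all.2 (hch 1 2))).and
      (eventually_all.2 (hch 0 2))).and (eventually_all.2 (hch 0 1))).and c6).and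
      (Sp_semi (d1 + 2) P (mu (a + 1) m))).and (Sp_semi d1 P (mu a m))).exists
  have hP0 : (fun q i => (P q i).eval 0) = cfg U e s w := by
    rw [hP]
    simp only [U', e', s', w', sgm0]
  rw [hP0, hP] at g1 g2
  exact top_gen b1 b2 b3 b4 b5 b6 b7 b8 b9 hd hm hd1 (g1.trans k1) (g2.trans k2)

/-- a binary quadratic form with non zero discriminant is a product of independent factors -/
theorem quad_fac [IsAlgClosed K] (h2 : (2 : K) ≠ 0) {al be ga : K} (h : be ^ 2 - 4 * al * ga ≠ 0) :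
    ∃ p q r s : K, p * s - q * r ≠ 0 ∧ p * r = al ∧ p * s + q * r = be ∧ q * s = ga := by
  by_cases h0 : al = 0
  · refine ⟨be, ga, 0, 1, ?_, by simp [h0], by simp, by simp⟩
    simpa [h0] using h
  obtain ⟨δ, hδ⟩ := IsAlgClosed.exists_pow_nat_eq (be ^ 2 - 4 * al * ga) two_pos
  refine ⟨al, (be + δ) / 2, 1, (be - δ) / (2 * al), ?_, mul_one _, ?_, ?_⟩
  · have : al * ((be - δ) / (2 * al)) - (be + δ) / 2 * 1 = -δ := by
      field_simp
      ring
    rw [this, neg_ne_zero]
    rintro rfl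
    exact h (by rw [← hδ]; simp)
  · field_simp
    ring
  · field_simp
    linear_combination -hδ

end Cnc

open Cnc in
/-- eight points on a smooth conic and four arbitrary points -/
theorem conic_top {L : Type} [Field L] [IsAlgClosed L] [Algebra ℂ L] (al be ga : L)
    (hq : be ^ 2 - 4 * al * ga ≠ 0) (v : Fin 8 → Fin 3 → L) (hv : ∀ i, v i 1 ≠ 0)
    (hc : ∀ i, v i 1 ^ 2 = al * v i 0 ^ 2 + be * v i 0 * v i 2 + ga * v i 2 ^ 2)
    (w : Fin 4 → Fin 3 → L) {d m t a d1 r : ℕ} (hd : d + t = 4 * m) (hm : m = a + 1 + t)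
    (hd1 : d = d1 + 2 + 2 * t)
    (k1 : finrank L (Sp (d1 + 2) (Sum.elim v w) (Sum.elim (fun _ => a + 1) fun _ => m)) ≤ r + t)
    (k2 : finrank L (Sp d1 (Sum.elim v w) (Sum.elim (fun _ => a) fun _ => m)) ≤ r) :
    Hle d (fun _ : Fin 12 => m) r := by
  have : CharZero L := charZero_of_injective_algebraMap (algebraMap ℂ L).injective
  obtain ⟨p, q, x, y, h0, e1, e2, e3⟩ := quad_fac two_ne_zero hq
  let M : Matrix (Fin 3) (Fin 3) L := !![p, 0, q; 0, 1, 0; x, 0, y]
  let z : Fin 8 → L := fun i => x * v i 0 + y * v i 2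
  have hz : ∀ i, (p * v i 0 + q * v i 2) * z i = v i 1 ^ 2 := fun i => by
    rw [hc, ← e1, ← e2, ← e3]
    ring
  have hz0 : ∀ i, z i ≠ 0 := fun i h => pow_ne_zero 2 (hv i) (by rw [← hz, h, mul_zero])
  let u : Fin 8 → L := fun i => v i 1 / z i
  let f : Fin 8 ⊕ Fin 4 → Ix := Sum.elim ![.inl (.inl 0), .inl (.inl 1), .inl (.inl 2),
    .inl (.inl 3), .inl (.inr ()), .inr (.inl 0), .inr (.inl 1), .inr (.inl 2)]
    fun j => .inr (.inr j)
  have key : ∀ D b : ℕ, finrank L (Sp D (cfg ![u 5, u 6, u 7] (u 4) ![u 0, u 1, u 2, u 3]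
      fun j => M.mulVec (w j)) (mu b m)) ≤
      finrank L (Sp D (Sum.elim v w) (Sum.elim (fun _ => b) fun _ => m)) := fun D b => by
    refine (Submodule.finrank_mono (Sp_mono (w := Sum.elim (fun i => cp (u i))
      fun j => M.mulVec (w j)) f ?_ ?_)).trans (Sp_lin (M := M) ?_ D _ _ _ ?_)
    · rintro (i | j)
      · fin_cases i <;> rfl
      · rfl
    · rintro (i | j)
      · fin_cases i <;> exact le_rfl
      · exact le_rfl
    · have : M.det = p * y - q * x := by
        simp [M, Matrix.det_fin_three]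
      rwa [this]
    · rintro (i | j)
      · refine ⟨z i, hz0 i, ?_⟩
        have h1 := hz0 i
        have h2 := hz i
        funext k
        fin_cases k <;> simp [M, cp, u, Matrix.mulVec, dotProduct, Fin.sum_univ_three]
        · field_simp
          linear_combination h2
        · field_simp
        · rfl
      · exact ⟨1, one_ne_zero, (one_smul _ _).symm⟩
  exact top_std _ _ _ _ hd hm hd1 ((key _ _).trans k1) ((key _ _).trans k2)

end Pool.Agent.Lib.MP_d03834_ag.Core
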