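import Pool.Agent.Lib.MP_d03834_ag.Core.N12A
import Pool.Agent.Lib.MP_d03834_ag.Core.N12Top
import Pool.Agent.Lib.MP_d03834_ag.Core.T4

/-! Twelve points: the assembly for large multiplicities. -/

set_option autoImplicit false

namespace Pool.Agent.Lib.MP_d03834_ag.Core

open MvPolynomial Module

theorem n12_ch (a : ℕ) : 2 * (a + 1).choose 2 = (a + 1) * a := by
  rw [Nat.choose_two_right, Nat.add_sub_cancel, Nat.mul_div_cancel' (by
    rw [mul_comm]; exact (Nat.even_mul_succ_self a).two_dvd)]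

/-- twelve points of multiplicity at least twenty -/
theorem core12_big (h : Down12) {m d : ℕ} (hm : 20 ≤ m)
    (h1 : (d + 1).choose 2 ≤ 12 * (m + 1).choose 2)
    (h2 : 12 * (m + 1).choose 2 < (d + 3).choose 2) :
    Hle d (fun _ : Fin 12 => m) ((d + 2).choose 2 - 12 * (m + 1).choose 2) := by
  have a0 := n12_ch m
  have a1 := n12_ch d
  have a2 : 2 * (d + 2).choose 2 = (d + 2) * (d + 1) := n12_ch (d + 1)
  have a3 : 2 * (d + 3).choose 2 = (d + 3) * (d + 2) := n12_ch (d + 2)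
  have b1 : (d : ℤ) * (d + 1) ≤ 12 * (m * (m + 1)) := by
    have : (d + 1) * d ≤ 12 * ((m + 1) * m) := by omega
    zify at this
    linarith
  have b2 : (12 : ℤ) * (m * (m + 1)) < (d + 2) * (d + 3) := by
    have : 12 * ((m + 1) * m) < (d + 3) * (d + 2) := by omega
    zify at this
    linarith
  have hm' : (20 : ℤ) ≤ m := by omega
  obtain ⟨l1, l2⟩ := n12_lin (m := m) (d := d) (by omega) (by omega) b1 b2
  have hk : 2 * (d : ℤ) ≤ 7 * m := by
    by_contra hn
    push Not at hn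
    nlinarith
  have hok : N12ok m d := (n12_ar (by omega) (by omega) b1 b2).resolve_left (by
    simp only [Finset.mem_insert, Finset.mem_singleton, Prod.mk.injEq]
    omega)
  obtain ⟨-, -, p0, p1, p2, p3, w1, w2⟩ := hok
  obtain ⟨L, _, _, _, a, b, c, v, w, hq, hv, hc, -, hS⟩ := h.up
  obtain ⟨t, ht⟩ : ∃ t : ℕ, d + t = 4 * m := ⟨4 * m - d, by omega⟩
  obtain ⟨al, hal⟩ : ∃ al : ℕ, m = al + 1 + t := ⟨m - 1 - t, by omega⟩
  obtain ⟨g, hg⟩ : ∃ g : ℕ, d = g + 2 + 2 * t := ⟨d - 2 - 2 * t, by omega⟩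
  have e1 : ((g + 2 : ℕ) : ℤ) = 3 * d - 8 * m := by omega
  have e2 : ((al + 1 : ℕ) : ℤ) = d - 3 * m := by omega
  have e3 : (g : ℤ) = 3 * d - 8 * m - 2 := by omega
  have e4 : (al : ℤ) = d - 3 * m - 1 := by omega
  have e5 : (3 * d - 8 * m - 2 - 1 : ℤ) = 3 * d - 8 * m - 3 := by ring
  have k1 := hS (g + 2) (al + 1) m (7 * m - 2 * d) (by omega) (by unfold dk; omega)
    (by rwa [e1, e2]) (by rwa [e1, e2]) (by omega) (by omega) (by omega)
  have k2 := hS g al m (7 * m - 2 * d) (by omega) (by unfold dk; omega)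
    (by rwa [e3, e4]) (by rwa [e3, e4, e5]) (by omega) (by omega) (by omega)
  rw [e1, e2] at k1
  rw [e3, e4, e5] at k2
  have hr : max 0 (((d : ℤ) + 1) * (d + 2) - 12 * (m * (m + 1))) =
      2 * ((d + 2).choose 2 - 12 * (m + 1).choose 2 : ℕ) := by
    have c2 : ((d : ℤ) + 1) * (d + 2) = 2 * ((d + 2).choose 2 : ℕ) := by
      zify at a2
      linarith
    have c0 : (m : ℤ) * (m + 1) = 2 * ((m + 1).choose 2 : ℕ) := by
      zify at a0
      linarith
    rw [c2, c0]
    omega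
  rw [hr] at w1 w2
  exact conic_top a b c hq v hv hc w ht hal hg (by omega) (by omega)

/-- twelve points from the statement on the quotient and the small multiplicities -/
theorem core12_of (h : Down12) (hs : ∀ m d : ℕ, 2 ≤ m → m ≤ 19 →
    (d + 1).choose 2 ≤ 12 * (m + 1).choose 2 → 12 * (m + 1).choose 2 < (d + 3).choose 2 →
    Hle d (fun _ : Fin 12 => m) ((d + 2).choose 2 - 12 * (m + 1).choose 2)) : CoreN 12 :=
  fun m d hm h1 h2 => (le_or_gt 20 m).elim (fun e => core12_big h e h1 h2)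
    fun e => hs m d hm (by omega) h1 h2

end Pool.Agent.Lib.MP_d03834_ag.Core
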