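import Pool.Agent.Lib.MP_d03834_ag.Core.N12
import Pool.Agent.Lib.MP_d03834_ag.Core.Down12
import Pool.Agent.Lib.MP_d03834_ag.Core.KPF

/-! Twelve general points. -/

set_option autoImplicit false

namespace Pool.Agent.Lib.MP_d03834_ag.Core

theorem core12 : CoreN 12 := (down12_of (kpc _ _ _)).core

end Pool.Agent.Lib.MP_d03834_ag.Core
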