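import Pool.Agent.Lib.MP_d03834_ag.Core.N12Top

/-! Eight points on a conic, no condition on the discriminant. -/

set_option autoImplicit false

namespace Pool.Agent.Lib.MP_d03834_ag.Core

open MvPolynomial Module Filter Nag
open scoped Polynomial

theorem Cnc.quad_sq {K : Type} [Field K] [IsAlgClosed K] {al be ga : K}
    (h : be ^ 2 - 4 * al * ga = 0) : ∃ p q : K, p ^ 2 = al ∧ 2 * p * q = be ∧ q ^ 2 = ga := by
  obtain ⟨p, hp⟩ := IsAlgClosed.exists_pow_nat_eq al two_pos
  obtain ⟨q, hq⟩ := IsAlgClosed.exists_pow_nat_eq ga two_pos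
  have : (2 * p * q - be) * (2 * p * q + be) = 0 := by
    rw [← hp, ← hq] at h
    linear_combination -h
  rcases mul_eq_zero.1 this with e | e
  · exact ⟨p, q, hp, by linear_combination e, hq⟩
  · exact ⟨p, -q, hp, by linear_combination -e, by rw [neg_sq, hq]⟩

/-- eight points on a conic of the symmetric form and four arbitrary points -/
theorem conic_top0 {L : Type} [Field L] [IsAlgClosed L] [Algebra ℂ L] (al be ga : L)
    (v : Fin 8 → Fin 3 → L) (hv : ∀ i, v i 1 ≠ 0)
    (hc : ∀ i, v i 1 ^ 2 = al * v i 0 ^ 2 + be * v i 0 * v i 2 + ga * v i 2 ^ 2)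
    (w : Fin 4 → Fin 3 → L) {d m t a d1 r : ℕ} (hd : d + t = 4 * m) (hm : m = a + 1 + t)
    (hd1 : d = d1 + 2 + 2 * t)
    (k1 : finrank L (Sp (d1 + 2) (Sum.elim v w) (Sum.elim (fun _ => a + 1) fun _ => m)) ≤ r + t)
    (k2 : finrank L (Sp d1 (Sum.elim v w) (Sum.elim (fun _ => a) fun _ => m)) ≤ r) :
    Hle d (fun _ : Fin 12 => m) r := by
  by_cases hq : be ^ 2 - 4 * al * ga = 0
  swap
  · exact conic_top al be ga hq v hv hc w hd hm hd1 k1 k2
  have : CharZero L := charZero_of_injective_algebraMap (algebraMap ℂ L).injective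
  have : Infinite L := Infinite.of_injective _ (algebraMap ℂ L).injective
  obtain ⟨p, q, rfl, rfl, rfl⟩ := Cnc.quad_sq hq
  let A : Fin 8 → L := fun i => p * v i 0 + q * v i 2
  have hA : ∀ i, v i 1 ^ 2 = A i ^ 2 := fun i => by rw [hc]; ring
  have hA0 : ∀ i, A i ≠ 0 := fun i h => pow_ne_zero 2 (hv i) (by rw [hA, h]; simp)
  obtain ⟨x, y, hxy⟩ : ∃ x y : L, p * y - q * x = 1 := by
    by_cases hp : p = 0
    · have hq0 : q ≠ 0 := fun h => hA0 0 (by simp [A, hp, h])
      exact ⟨-q⁻¹, 0, by simp [hq0]⟩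
    · exact ⟨0, p⁻¹, by simp [hp]⟩
  let c : Fin 8 → L := fun i => A i * (x * v i 0 + y * v i 2) / (2 * v i 1)
  let g : Fin 8 → Fin 3 → L := fun i => ![-q * (c i ^ 2 / A i), c i, p * (c i ^ 2 / A i)]
  let P : Fin 8 ⊕ Fin 4 → Fin 3 → L[X] := Sum.elim
    (fun i k => Polynomial.C (v i k) + Polynomial.C (g i k) * Polynomial.X)
    fun j k => Polynomial.C (w j k)
  have hP : ∀ η, (fun q k => (P q k).eval η) = Sum.elim (fun i k => v i k + g i k * η) w :=
    fun η => by
      funext q k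
      rcases q with i | j <;> simp [P]
  have hP0 : (fun q k => (P q k).eval 0) = Sum.elim v w := by
    rw [hP]
    simp
  have c1 : ∀ᶠ η : L in cofinite, η ≠ 0 := eventually_cofinite_ne 0
  have c2 : ∀ᶠ η : L in cofinite, ∀ i, v i 1 + g i 1 * η ≠ 0 := eventually_all.2 fun i => by
    by_cases h : g i 1 = 0
    · exact Eventually.of_forall fun _ => by rw [h, zero_mul, add_zero]; exact hv i
    · refine (eventually_cofinite_ne (-v i 1 / g i 1)).mono fun η e h0 => e ?_
      field_simp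
      linear_combination h0
  obtain ⟨η, ⟨⟨b1, b2⟩, g1⟩, g2⟩ := (((c1.and c2).and
    (Sp_semi (d1 + 2) P (Sum.elim (fun _ => a + 1) fun _ => m))).and
    (Sp_semi d1 P (Sum.elim (fun _ => a) fun _ => m))).exists
  rw [hP0, hP] at g1 g2
  refine conic_top (p * (p + η * x)) (p * (q + η * y) + q * (p + η * x)) (q * (q + η * y)) ?_
    (fun i k => v i k + g i k * η) b2 (fun i => ?_) w hd hm hd1 (g1.trans k1) (g2.trans k2)
  · have : (p * (q + η * y) + q * (p + η * x)) ^ 2 - 4 * (p * (p + η * x)) * (q * (q + η * y)) =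
        (η * (p * y - q * x)) ^ 2 := by ring
    rw [this, hxy, mul_one]
    exact pow_ne_zero _ b1
  · have h1 : 2 * v i 1 * c i = A i * (x * v i 0 + y * v i 2) := by
      have := hv i
      simp only [c]
      field_simp
    have h2 : A i * (c i ^ 2 / A i) = c i ^ 2 := by
      have := hA0 i
      field_simp
    have h3 := hA i
    simp only [g, Matrix.cons_val_zero, Matrix.cons_val_one, Matrix.cons_val_two,
      Matrix.tail_cons, Matrix.head_cons]
    generalize c i ^ 2 / A i = z at h2 ⊢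
    simp only [A] at h1 h2 h3
    linear_combination h3 + η * h1 - η ^ 2 * h2 -
      η ^ 2 * z * (p * v i 0 + q * v i 2) * hxy

end Pool.Agent.Lib.MP_d03834_ag.Core
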