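import Pool.Agent.Lib.MP_d03834_ag.Core.TenU
import Pool.Agent.Lib.MP_d03834_ag.Core.T4

/-! Thirteen points: the two systems left by the collision of four points. -/

set_option autoImplicit false

namespace Pool.Agent.Lib.MP_d03834_ag.Core

open H19

lemma cS (hS : PS) (hC : PC) {m d r : ℕ} (h0 : 3 * m ≤ d) (h1 : 3 * d ≤ 11 * m)
    (h2 : 13 * m ^ 2 + 2 * d + 1 < d ^ 2 + 6 * m)
    (h3 : (d + 1) * (d + 2) ≤ 13 * (m * (m + 1)) + 2 * r) :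
    Hle d (ten ![2 * m, m, m, m, m, m] m) (r + m) := by
  obtain ⟨e, rfl⟩ := Nat.exists_eq_add_of_le h0
  refine hC _ (2 * m + 2 * e) _ _ _ _ _ _ _ _ (m + e) e e (by omega) (by omega) (by omega)
    (by omega) (hS _ _ _ _ ?_ ?_ ?_)
  · simp [Fin.sum_univ_six]
    omega
  · simp [Fin.sum_univ_six]
    nlinarith
  · have := two_tn (2 * m + 2 * e + 1)
    have := two_tn (m + e)
    have := two_tn m
    have := two_tn e
    simp [Fin.sum_univ_six]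
    nlinarith

lemma n13_small (hU : PU) (hS : PS) (hC : PC) {m d r : ℕ} (hm : 2 ≤ m) (hM : m < 16)
    (w1 : d * (d + 1) ≤ 13 * (m * (m + 1))) (w2 : 13 * (m * (m + 1)) < (d + 2) * (d + 3))
    (h3 : (d + 1) * (d + 2) ≤ 13 * (m * (m + 1)) + 2 * r) :
    Hle d (ten ![2 * m, m, m, m, m, m] m) (r + m) ∧
      Hle d (ten ![2 * m + 1, m, m, m, m, m] m) r := by
  have hd : d ≤ 4 * m := by nlinarith
  have hd' : 3 * m ≤ d := by nlinarith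
  have key :
      (m = 2 ∧ d = 7) ∨
      (m = 2 ∧ d = 8) ∨
      (m = 3 ∧ d = 11) ∨
      (m = 3 ∧ d = 12) ∨
      (m = 4 ∧ d = 14) ∨
      (m = 4 ∧ d = 15) ∨
      (m = 5 ∧ d = 18) ∨
      (m = 5 ∧ d = 19) ∨
      (m = 6 ∧ d = 21) ∨
      (m = 6 ∧ d = 22) ∨
      (m = 7 ∧ d = 25) ∨
      (m = 7 ∧ d = 26) ∨
      (m = 8 ∧ d = 29) ∨
      (m = 8 ∧ d = 30) ∨
      (m = 9 ∧ d = 32) ∨
      (m = 9 ∧ d = 33) ∨
      (m = 10 ∧ d = 36) ∨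
      (m = 10 ∧ d = 37) ∨
      (m = 11 ∧ d = 39) ∨
      (m = 11 ∧ d = 40) ∨
      (m = 12 ∧ d = 43) ∨
      (m = 12 ∧ d = 44) ∨
      (m = 13 ∧ d = 47) ∨
      (m = 13 ∧ d = 48) ∨
      (m = 14 ∧ d = 50) ∨
      (m = 14 ∧ d = 51) ∨
      (m = 15 ∧ d = 54) ∨
      (m = 15 ∧ d = 55) := by
    clear h3
    interval_cases m <;> interval_cases d <;> simp_all
  rcases key with
    ⟨rfl, rfl⟩ | ⟨rfl, rfl⟩ | ⟨rfl, rfl⟩ | ⟨rfl, rfl⟩ | ⟨rfl, rfl⟩ | 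
    ⟨rfl, rfl⟩ | ⟨rfl, rfl⟩ | ⟨rfl, rfl⟩ | ⟨rfl, rfl⟩ | ⟨rfl, rfl⟩ | 
    ⟨rfl, rfl⟩ | ⟨rfl, rfl⟩ | ⟨rfl, rfl⟩ | ⟨rfl, rfl⟩ | ⟨rfl, rfl⟩ | 
    ⟨rfl, rfl⟩ | ⟨rfl, rfl⟩ | ⟨rfl, rfl⟩ | ⟨rfl, rfl⟩ | ⟨rfl, rfl⟩ | 
    ⟨rfl, rfl⟩ | ⟨rfl, rfl⟩ | ⟨rfl, rfl⟩ | ⟨rfl, rfl⟩ | ⟨rfl, rfl⟩ | 
    ⟨rfl, rfl⟩ | ⟨rfl, rfl⟩ | ⟨rfl, rfl⟩
  · exact ⟨(cM hU 7 1 4 2 2 2 2 2 2 0 0 0 0 1 1 0 4 2 2 2 3 3 2 2 (by decide)).le (by omega),
      cE hU 7 4 5 2 2 2 2 2 2 0 1 1 1 2 2 1 (by decide) r⟩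
  · exact ⟨(cM hU 8 0 4 2 2 2 2 2 2 0 0 0 0 0 0 0 4 3 3 2 2 2 2 8 (by decide)).le (by omega),
      (cM hU 8 3 5 2 2 2 2 2 2 1 0 1 1 1 1 1 6 3 3 3 3 3 3 6 (by decide)).le (by omega)⟩
  · exact ⟨(cM hU 11 0 6 3 3 3 3 3 3 0 0 0 0 0 0 0 6 3 3 3 3 3 3 3 (by decide)).le (by omega),
      cE hU 11 6 7 3 3 3 3 3 3 2 1 1 2 2 2 2 (by decide) r⟩
  · exact ⟨(cM hU 12 0 6 3 3 3 3 3 3 0 0 0 0 0 0 0 6 5 4 3 3 3 3 16 (by decide)).le (by omega),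
      (cM hU 12 4 7 3 3 3 3 3 3 2 1 1 1 1 2 1 9 6 4 4 4 5 4 13 (by decide)).le (by omega)⟩
  · exact ⟨(cM hU 14 0 8 4 4 4 4 4 4 0 0 0 0 0 0 0 7 4 4 4 4 4 4 4 (by decide)).le (by omega),
      cE hU 14 3 9 4 4 4 4 4 4 0 0 0 1 1 1 1 (by decide) r⟩
  · exact ⟨(cM hU 15 0 8 4 4 4 4 4 4 0 0 0 0 0 0 0 8 5 4 4 4 4 4 10 (by decide)).le (by omega),
      (cM hU 15 3 9 4 4 4 4 4 4 1 0 1 1 1 1 1 10 4 5 5 5 5 5 6 (by decide)).le (by omega)⟩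
  · exact ⟨(cM hU 18 0 10 5 5 5 5 5 5 0 0 0 0 0 0 0 10 4 5 5 5 5 5 5 (by decide)).le (by omega),
      cE hU 18 4 11 5 5 5 5 5 5 1 0 1 1 2 2 1 (by decide) r⟩
  · exact ⟨(cM hU 19 0 10 5 5 5 5 5 5 0 0 0 0 0 0 0 11 6 5 5 5 5 5 20 (by decide)).le (by omega),
      (cM hU 19 0 11 5 5 5 5 5 5 0 0 0 0 0 0 0 11 6 5 5 5 5 5 15 (by decide)).le (by omega)⟩
  · exact ⟨(cM hU 21 0 12 6 6 6 6 6 6 0 0 0 0 0 0 0 11 5 6 6 6 6 6 6 (by decide)).le (by omega),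
      cE hU 21 3 13 6 6 6 6 6 6 0 0 1 1 2 2 0 (by decide) r⟩
  · exact ⟨cS hS hC (by omega) (by omega) (by omega) (by omega),
      (cM hU 22 0 13 6 6 6 6 6 6 0 0 0 0 0 0 0 13 5 6 6 6 6 6 3 (by decide)).le (by omega)⟩
  · exact ⟨(cM hU 25 0 14 7 7 7 7 7 7 0 0 0 0 0 0 0 14 6 7 7 7 7 7 7 (by decide)).le (by omega),
      cE hU 25 2 15 7 7 7 7 7 7 1 0 0 0 1 1 0 (by decide) r⟩
  · exact ⟨(cM hU 26 0 14 7 7 7 7 7 7 0 0 0 0 0 0 0 15 7 7 7 7 7 7 21 (by decide)).le (by omega),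
      (cM hU 26 0 15 7 7 7 7 7 7 0 0 0 0 0 0 0 15 7 7 7 7 7 7 14 (by decide)).le (by omega)⟩
  · exact ⟨(cM hU 29 0 16 8 8 8 8 8 8 0 0 0 0 0 0 0 16 8 8 8 8 8 8 8 (by decide)).le (by omega),
      cE hU 29 6 17 8 8 8 8 8 8 3 2 2 2 2 2 1 (by decide) r⟩
  · exact ⟨(cM hU 30 0 16 8 8 8 8 8 8 0 0 0 0 0 0 0 17 9 8 8 8 8 8 36 (by decide)).le (by omega),
      (cM hU 30 0 17 8 8 8 8 8 8 0 0 0 0 0 0 0 17 9 8 8 8 8 8 28 (by decide)).le (by omega)⟩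
  · exact ⟨(cM hU 32 0 18 9 9 9 9 9 9 0 0 0 0 0 0 0 17 9 9 9 9 9 9 9 (by decide)).le (by omega),
      cE hU 32 3 19 9 9 9 9 9 9 1 1 1 1 1 1 0 (by decide) r⟩
  · exact ⟨cS hS hC (by omega) (by omega) (by omega) (by omega),
      (cM hU 33 3 19 9 9 9 9 9 9 2 1 1 0 0 0 1 21 10 10 9 9 9 10 10 (by decide)).le (by omega)⟩
  · exact ⟨(cM hU 36 0 20 10 10 10 10 10 10 0 0 0 0 0 0 0 20 9 10 10 10 10 10 10 (by decide)).le (by omega),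
      cE hU 36 4 21 10 10 10 10 10 10 2 0 0 1 1 2 1 (by decide) r⟩
  · exact ⟨(cM hU 37 0 20 10 10 10 10 10 10 0 0 0 0 0 0 0 21 10 10 10 10 10 10 36 (by decide)).le (by omega),
      (cM hU 37 0 21 10 10 10 10 10 10 0 0 0 0 0 0 0 21 10 10 10 10 10 10 26 (by decide)).le (by omega)⟩
  · exact ⟨(cM hU 39 0 22 11 11 11 11 11 11 0 0 0 0 0 0 0 21 10 11 11 11 11 11 11 (by decide)).le (by omega),
      cE hU 39 3 23 11 11 11 11 11 11 1 0 0 0 1 3 0 (by decide) r⟩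
  · exact ⟨cS hS hC (by omega) (by omega) (by omega) (by omega),
      (cM hU 40 0 23 11 11 11 11 11 11 0 0 0 0 0 0 0 23 10 11 11 11 11 11 3 (by decide)).le (by omega)⟩
  · exact ⟨(cM hU 43 0 24 12 12 12 12 12 12 0 0 0 0 0 0 0 24 11 11 12 12 12 12 12 (by decide)).le (by omega),
      cE hU 43 2 25 12 12 12 12 12 12 1 0 0 0 0 2 0 (by decide) r⟩
  · exact ⟨cS hS hC (by omega) (by omega) (by omega) (by omega),
      (cM hU 44 3 25 12 12 12 12 12 12 2 1 1 0 0 0 1 27 13 13 12 12 12 13 21 (by decide)).le (by omega)⟩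
  · exact ⟨(cM hU 47 0 26 13 13 13 13 13 13 0 0 0 0 0 0 0 26 13 13 13 13 13 13 13 (by decide)).le (by omega),
      cE hU 47 6 27 13 13 13 13 13 13 2 1 1 2 2 2 2 (by decide) r⟩
  · exact ⟨(cM hU 48 0 26 13 13 13 13 13 13 0 0 0 0 0 0 0 27 13 13 13 13 13 13 55 (by decide)).le (by omega),
      (cM hU 48 0 27 13 13 13 13 13 13 0 0 0 0 0 0 0 27 13 13 13 13 13 13 42 (by decide)).le (by omega)⟩
  · exact ⟨(cM hU 50 0 28 14 14 14 14 14 14 0 0 0 0 0 0 0 27 14 14 14 14 14 14 14 (by decide)).le (by omega),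
      cE hU 50 3 29 14 14 14 14 14 14 0 0 0 1 1 1 1 (by decide) r⟩
  · exact ⟨cS hS hC (by omega) (by omega) (by omega) (by omega),
      (cM hU 51 3 29 14 14 14 14 14 14 2 1 1 0 0 0 1 31 15 15 14 14 14 15 13 (by decide)).le (by omega)⟩
  · exact ⟨(cM hU 54 0 30 15 15 15 15 15 15 0 0 0 0 0 0 0 30 14 15 15 15 15 15 15 (by decide)).le (by omega),
      cE hU 54 4 31 15 15 15 15 15 15 1 0 1 1 2 2 1 (by decide) r⟩
  · exact ⟨cS hS hC (by omega) (by omega) (by omega) (by omega),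
      (cM hU 55 3 31 15 15 15 15 15 15 2 1 1 0 0 0 1 33 16 16 15 15 15 16 36 (by decide)).le (by omega)⟩

lemma n13_zero (hU : PU) (hS : PS) (hC : PC) {m d r : ℕ} (hm : 16 ≤ m)
    (w1 : d * (d + 1) ≤ 13 * (m * (m + 1))) (w2 : 13 * (m * (m + 1)) < (d + 2) * (d + 3))
    (h3 : (d + 1) * (d + 2) ≤ 13 * (m * (m + 1)) + 2 * r) :
    Hle d (ten ![2 * m, m, m, m, m, m] m) (r + m) := by
  have k0 : 3 * d ≤ 11 * m := by
    by_contra hn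
    nlinarith
  have k1 : 7 * m ≤ 2 * d := by
    by_contra hn
    nlinarith
  by_cases c : 13 * m ^ 2 + 2 * d + 1 < d ^ 2 + 6 * m
  · exact cS hS hC (by omega) k0 c h3
  obtain ⟨n, rfl⟩ : ∃ n, m = n + 1 := ⟨m - 1, by omega⟩
  have low : ∀ a1 a2 a3 : ℕ, a1 ≤ n + 1 → a2 ≤ n + 1 → a3 ≤ n + 1 →
      Hle d (ten ![2 * (n + 1), a1, a2, a3, n + 1, n + 1] (n + 1)) (n + 1) →
      Hle d (ten ![2 * (n + 1), n + 1, n + 1, n + 1, n + 1, n + 1] (n + 1)) (r + (n + 1)) := by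
    intro a1 a2 a3 b1 b2 b3 h
    refine h.mono id Function.injective_id ?_ (by omega)
    rintro (i | i)
    · fin_cases i <;> simp [ten, b1, b2, b3]
    · simp [ten]
  have e : (n + 1) ^ 2 = n ^ 2 + 2 * n + 1 := by ring
  have e2 : (2 * (n + 1)) ^ 2 = 4 * (n + 1) ^ 2 := by ring
  by_cases c0 : 13 * (n + 1) ^ 2 < d ^ 2
  · exact low _ _ _ le_rfl le_rfl le_rfl (cU hU (by omega) (by omega) (by omega))
  have k2 : 3 * d + 3 ≤ 11 * (n + 1) := by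
    by_contra hn
    nlinarith
  by_cases c1 : 13 * (n + 1) ^ 2 < d ^ 2 + (2 * n + 1)
  · exact low n _ _ (by omega) le_rfl le_rfl (cU hU (by omega) (by omega) (by omega))
  by_cases c2 : 13 * (n + 1) ^ 2 < d ^ 2 + 2 * (2 * n + 1)
  · exact low n n _ (by omega) (by omega) le_rfl (cU hU (by omega) (by omega) (by omega))
  have c3 : 13 * (n + 1) ^ 2 < d ^ 2 + 3 * (2 * n + 1) := by nlinarith
  exact low n n n (by omega) (by omega) (by omega) (cU hU (by omega) (by omega) (by omega))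

lemma n13_big (hU : PU) {m d r : ℕ} (k0 : 3 * d ≤ 11 * m)
    (h3 : (d + 1) * (d + 2) ≤ 13 * (m * (m + 1)) + 2 * r)
    (c : 13 * (m * (m + 1)) + 8 + 11 * m < (d + 1) * (d + 2) + 3 * d) :
    Hle d (ten ![2 * m + 1, m, m, m, m, m] m) r := by
  have e1 : (2 * m + 3) ^ 2 + (m + 1) ^ 2 + (m + 1) ^ 2 + m ^ 2 + m ^ 2 + m ^ 2 +
      4 * (m + 1) ^ 2 = 13 * (m * (m + 1)) + 11 * m + 15 := by ring
  have e2 : (d + 3) ^ 2 = (d + 1) * (d + 2) + 3 * d + 7 := by ring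
  refine (cU hU (d := d + 3) (a0 := 2 * m + 3) (a1 := m + 1) (a2 := m + 1) (a3 := m) (a4 := m)
    (a5 := m) (b := m + 1) (u := r) (by omega) (by omega) (by omega)).mul
    (ten ![2, 1, 1, 0, 0, 0] 1) (by simp only [ten_sum, tn_eq]; decide) ?_
  simp only [ten_sum]
  simp [ten]

lemma n13_emp (hU : PU) {m d k δ j : ℕ} (r : ℕ) (hk : 11 * m = 3 * d + k)
    (hδ : 13 * m ^ 2 + 4 * m + 1 = d ^ 2 + δ) (a2 : 2 * d + 6 * k + 6 < 6 * δ)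
    (j1 : 7 * δ < 2 * d * j) (j2 : 2 * d * j ≤ 7 * δ + 2 * d) (j3 : 3 * j ≤ 7 * (k + 1)) :
    Hle d (ten ![2 * m + 1, m, m, m, m, m] m) r := by
  have s1 : (7 * (2 * m + 1)) ^ 2 + (7 * m) ^ 2 + (7 * m) ^ 2 + (7 * m) ^ 2 + (7 * m) ^ 2 +
      (7 * m) ^ 2 + 4 * (7 * m) ^ 2 = 49 * (13 * m ^ 2 + 4 * m + 1) := by ring
  have s2 : (6 * d + j + d) ^ 2 = 49 * d ^ 2 + 7 * (2 * d * j) + j ^ 2 := by ring
  refine (cU hU (d := 6 * d + j + d) (a0 := 7 * (2 * m + 1)) (a1 := 7 * m) (a2 := 7 * m)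
    (a3 := 7 * m) (a4 := 7 * m) (a5 := 7 * m) (b := 7 * m)
    (u := (7 * (2 * d * j) + j ^ 2 - 49 * δ) / 2 + 1) (by omega) (by omega) (by omega)).empty
      (ten ![6 * (2 * m + 1), 6 * m, 6 * m, 6 * m, 6 * m, 6 * m] (6 * m)) ?_ r
  have e1 : 6 * (2 * m + 1) + (2 * m + 1) = 7 * (2 * m + 1) := by ring
  have e2 : 6 * m + m = 7 * m := by ring
  have t1 : 2 * tn (6 * (2 * m + 1)) = 144 * m ^ 2 + 156 * m + 42 := by rw [two_tn]; ring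
  have t2 : 2 * tn (6 * m) = 36 * m ^ 2 + 6 * m := by rw [two_tn]; ring
  have t3 : 2 * tn (6 * d + j + 1) = 36 * d ^ 2 + 6 * (2 * d * j) + j ^ 2 + 18 * d + 3 * j + 2 := by
    rw [two_tn]; ring
  simp only [ten_sum]
  simp only [ten, Sum.elim_inl, Sum.elim_inr, Matrix.cons_val, e1, e2, Nat.sub_self]
  omega

lemma n13_one (hU : PU) {m d r : ℕ} (hm : 16 ≤ m)
    (w1 : d * (d + 1) ≤ 13 * (m * (m + 1))) (w2 : 13 * (m * (m + 1)) < (d + 2) * (d + 3))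
    (h3 : (d + 1) * (d + 2) ≤ 13 * (m * (m + 1)) + 2 * r) :
    Hle d (ten ![2 * m + 1, m, m, m, m, m] m) r := by
  have k0 : 3 * d ≤ 11 * m := by
    by_contra hn
    nlinarith
  have k1 : 7 * m ≤ 2 * d := by
    by_contra hn
    nlinarith
  by_cases c : 13 * (m * (m + 1)) + 8 + 11 * m < (d + 1) * (d + 2) + 3 * d
  · exact n13_big hU k0 h3 c
  clear h3 w1 w2
  obtain ⟨k, hk⟩ := Nat.exists_eq_add_of_le k0
  have e1 : 13 * (m * (m + 1)) = 13 * m ^ 2 + 13 * m := by ring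
  have e2 : (d + 1) * (d + 2) = d ^ 2 + 3 * d + 2 := by ring
  obtain ⟨δ, hδ⟩ : ∃ δ, 13 * m ^ 2 + 4 * m + 1 = d ^ 2 + δ :=
    Nat.exists_eq_add_of_le (by omega)
  have a1 : 2 * m ≤ δ + 5 + 2 * k := by omega
  clear c e1 e2
  have q1 : 9 * δ + 4 * m ^ 2 + k ^ 2 = 22 * (m * k) + 36 * m + 9 := by
    zify at hk hδ ⊢
    linear_combination (-9) * hδ + (11 * m + 3 * d - k : ℤ) * hk
  have q2 : 2 * k ≤ m := by omega
  have a2 : 2 * d + 6 * k + 6 < 6 * δ := by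
    by_cases q : 4 * k + 8 ≤ m
    · omega
    · nlinarith
  obtain ⟨j, j1, j2⟩ : ∃ j, 7 * δ < 2 * d * j ∧ 2 * d * j ≤ 7 * δ + 2 * d := by
    have p : 0 < 2 * d := by omega
    refine ⟨7 * δ / (2 * d) + 1, Nat.lt_mul_div_succ _ p, ?_⟩
    have := Nat.mul_div_le (7 * δ) (2 * d)
    rw [mul_add, mul_one]
    omega
  refine n13_emp hU r hk hδ a2 j1 j2 ?_
  by_contra hn
  have q3 : 2 * d * (7 * (k + 1) + 1) ≤ 2 * d * (3 * j) := Nat.mul_le_mul_left _ (by omega)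
  have q4 : 14 * (d * k) + 10 * d ≤ 21 * δ := by nlinarith
  have q5 : 7 * (m * k) ≤ 2 * (d * k) := by nlinarith
  nlinarith

theorem n13 (hU : PU) (hS : PS) (hC : PC) {m d r : ℕ} (hm : 2 ≤ m)
    (w1 : d * (d + 1) ≤ 13 * (m * (m + 1))) (w2 : 13 * (m * (m + 1)) < (d + 2) * (d + 3))
    (h3 : (d + 1) * (d + 2) ≤ 13 * (m * (m + 1)) + 2 * r) :
    Hle d (ten ![2 * m, m, m, m, m, m] m) (r + m) ∧
      Hle d (ten ![2 * m + 1, m, m, m, m, m] m) r := by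
  rcases Nat.lt_or_ge m 16 with h | h
  · exact n13_small hU hS hC hm h w1 w2 h3
  · exact ⟨n13_zero hU hS hC h w1 w2 h3, n13_one hU h w1 w2 h3⟩

lemma n13_perm {d r M m : ℕ} (h : Hle d (ten ![M, m, m, m, m, m] m) r) :
    Hle d (Sum.elim (fun _ : Fin 9 => m) fun _ : Unit => M) r := by
  refine h.mono (Sum.elim ![.inr (), .inl 0, .inl 1, .inl 2, .inl 3, .inl 4]
    ![.inl 5, .inl 6, .inl 7, .inl 8]) (by decide) ?_ le_rfl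
  rintro (i | i) <;> fin_cases i <;> exact le_rfl

theorem core13_of (hU : PU) (hS : PS) : CoreN 13 := by
  intro m d hm w1 w2
  have t0 := Nag.ampZ_two m
  have t1 := Nag.ampZ_two d
  have t2 : 2 * (d + 2).choose 2 = (d + 1) * (d + 2) := Nag.ampZ_two (d + 1)
  have t3 : 2 * (d + 3).choose 2 = (d + 2) * (d + 3) := Nag.ampZ_two (d + 2)
  obtain ⟨h0, h1⟩ := n13 hU hS pc (d := d) (r := (d + 2).choose 2 - 13 * (m + 1).choose 2) hm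
    (by omega) (by omega) (by omega)
  exact Hle.four_unif (n := 9) (by omega) (n13_perm h0) (n13_perm h1)

end Pool.Agent.Lib.MP_d03834_ag.Core
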