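import Pool.Agent.Lib.MP_d03834_ag.Core.Top

/-! The bound on eleven general points which is needed for fourteen points. -/

set_option autoImplicit false

namespace Pool.Agent.Lib.MP_d03834_ag.Core

/-- the multiplicities (M, m ^ 9, w) -/
def y14 (M m w : ℕ) : Fin 11 → ℕ := ![M, m, m, m, m, m, m, m, m, m, w]

/-- the degree on the second folded curve, M + 9 m + w - 3 d - (d - M - m) -/
def k14 (d M m w : ℤ) : ℤ := 2 * M + 10 * m + w - 4 * d

/-- the square of the class after the two folds, with the twists d - M - m + i and k + e -/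
def s14 (d M m w i e : ℤ) : ℤ :=
  d ^ 2 - M ^ 2 - 9 * m ^ 2 - w ^ 2 + (d - M - m) ^ 2 - (d - M - m + i) ^ 2 -
    (d - M - m + i) % 2 - e * (2 * k14 d M m w + 1)

/-- the price of the two twists -/
def c14 (d M m w i e : ℤ) : ℤ := i * ((d - M - m) / 2 + 1) + e * ((k14 d M m w + 2) / 2)

/-- the range of the classes which occur -/
structure Box14 (d M m w i e : ℤ) : Prop where
  m10 : 10 ≤ m
  hM : M = 2 * m ∨ M = 2 * m + 1
  lo : 101 * m ≤ 27 * d + 18
  up : 31 * d ≤ 116 * m + 42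
  hw : m ≤ w
  hk : w = m ∨ k14 d M m w = -1
  hi : i = 0 ∨ i = 1
  he : e = 0 ∨ e = 1
  ke : 0 ≤ k14 d M m w + e
  ro : M = 2 * m ∨ e = 0 ∨ k14 d M m w = -1

/-- the bound on eleven general points -/
def D14 : Prop :=
  ∀ (d M m w r : ℕ) (i e : ℤ), Box14 d M m w i e →
    (s14 d M m w i e < 0 ∧ c14 d M m w i e ≤ r) ∨
      (0 < s14 d M m w i e ∧ c14 d M m w i e + 1 + s14 d M m w i e / 2 ≤ r) →
    Hle d (y14 M m w) r

end Pool.Agent.Lib.MP_d03834_ag.Core
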