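import Pool.Agent.Lib.MP_d03834_ag.Core.ShLat

/-! The start state for fourteen points: a configuration with three effective roots in a chain
and one line of value one. -/

set_option autoImplicit false

namespace Pool.Agent.Lib.MP_d03834_ag.Core

variable {O k Γ : Type} [CommRing O] [Field k] [LinearOrderedCommGroupWithZero Γ]

/-- the exponent of two -/
def s14e (u : CL) : ℤ := u.2.1 0 - u.2.1 1 + 3 * (u.2.1 2 - u.2.1 3) + 9 * u.2.1 4

/-- the character of the start state -/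
def s14χ (s : k) (u : CL) : k := s ^ (u.1.1 - u.2.2 0) * 2 ^ s14e u

/-- the x coordinates of the free points -/
def s14z (k : Type) [Field k] : Fin 5 → k := ![2, 2⁻¹, 8, 8⁻¹, 512]

/-- the start configuration -/
def s14c [Algebra k O] (A : Arc O k) (s : k) : Cfg O k where
  z := fun i => algebraMap k O (s14z k i)
  η := fun i => -algebraMap k O s *
    (algebraMap k O ((s14z k i)⁻¹ + s14z k i) + algebraMap k O s * A.t)
  al := ![0, algebraMap k O (-s)]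
  be := ![algebraMap k O (-s), algebraMap k O (1 - 2 * s)]
  Q0 := -s
  Q1 := 0
  Q2 := -s

theorem s14_z0 [CharZero k] (i : Fin 5) : s14z k i ≠ 0 := by
  fin_cases i <;> simp [s14z]

theorem s14_ch [CharZero k] {s : k} (hs : s ≠ 0) : IsCh (s14χ s) := by
  refine ⟨fun u w => ?_, fun u => mul_ne_zero (zpow_ne_zero _ hs) (zpow_ne_zero _ two_ne_zero)⟩
  have e1 : (u + w).1.1 - (u + w).2.2 0 = (u.1.1 - u.2.2 0) + (w.1.1 - w.2.2 0) := by
    simp only [Prod.fst_add, Prod.snd_add, Pi.add_apply]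
    ring
  have e2 : s14e (u + w) = s14e u + s14e w := by
    simp only [s14e, Prod.fst_add, Prod.snd_add, Pi.add_apply]
    ring
  rw [s14χ, e1, e2, zpow_add₀ hs, zpow_add₀ two_ne_zero, s14χ, s14χ]
  ring

theorem s14_shp [CharZero k] [Algebra k O] (A : Arc O k)
    (hA : ∀ x, A.res (algebraMap k O x) = x) (s : k) : Shp A (s14c A s) (s14χ s) := by
  have ht : A.res A.t = 0 := (A.ker _).2 dvd_rfl
  have hN : (s14c A s).N A = 1 := by
    simp only [Cfg.N, s14c, Matrix.cons_val_zero, Matrix.cons_val_one, hA, map_zero]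
    ring
  refine ⟨fun i => ?_, fun i => ?_, by rw [hN]; exact one_ne_zero, ?_, fun r => ?_,
    fun i j hij => ?_⟩
  · simpa only [s14c, hA] using s14_z0 i
  · simp only [s14c, map_mul, map_neg, RingHom.map_add A.res, hA, ht]
    have := s14_z0 (k := k) i
    field_simp
    ring
  · rw [hN]
    simp [s14χ, s14e, e5, s14c]
  · rw [hN]
    fin_cases r
    · simp only [s14c, Matrix.cons_val_zero, Matrix.cons_val_one, hA, Fin.zero_eta]
      simp [s14χ, s14e, eb]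
    · simp only [s14c, Matrix.cons_val_zero, Matrix.cons_val_one, hA, Fin.mk_one]
      simp [s14χ, s14e, eb]
      ring
  · have key : ∀ i : Fin 5, (2 : k) ^ s14e ((0, 0), Pi.single i 1, 0) = s14z k i := by
      intro i
      fin_cases i <;> simp [s14e, s14z] <;> norm_num
    have e : s14e (aV i j) =
        s14e ((0, 0), Pi.single i 1, 0) + s14e ((0, 0), Pi.single j 1, 0) := by
      simp only [s14e, aV, Pi.add_apply]
      ring
    simp only [s14c, hA]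
    rw [s14χ, e, zpow_add₀ two_ne_zero, key, key]
    simp [aV]
    ring

theorem s14_a {u : CL} (hu : u ∈ cD.M) : cD.ip u cD.a = u.1.1 - u.2.2 0 - u.2.2 1 := by
  have h := cD_M.1 hu
  change cip u ((4, 5), fun _ => 2, fun _ => 1) = _
  simp only [cip, Fin.sum_univ_five, Fin.sum_univ_two] at h ⊢
  omega

theorem s14_v {v : Valuation k Γ} (h2 : v 2 = 1) (s : k) (u : CL) :
    v (s14χ s u) = v s ^ (u.1.1 - u.2.2 0) := by
  rw [s14χ, map_mul, map_zpow₀, map_zpow₀, h2, one_zpow, mul_one]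

theorem s14_G (s : k) : s14χ s (eb 1) = 1 := by simp [s14χ, s14e, eb]

theorem s14_lt {v : Valuation k Γ} (h2 : v 2 = 1) {s : k} (hs : s ≠ 0) (hv : v s < 1) {g : CL}
    (hg : g ∈ cD.lat.Λ) (hne : g ≠ eb 1) : v (s14χ s g) < 1 := by
  have h1 := cD.lat.nonneg g hg _ (eb_line 1) hne
  have h3 := hg.2.1
  rw [DP.lat_ip, cD_ip, cip_eb] at h1
  rw [s14_a hg.2.2] at h3
  rw [s14_v h2]
  exact zpow_lt_one₀ (zero_lt_iff.2 (v.ne_zero_iff.2 hs)) hv (by omega)

theorem s14_le {v : Valuation k Γ} (h2 : v 2 = 1) {s : k} (hs : s ≠ 0) (hv : v s < 1) :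
    ∀ g ∈ cD.lat.Λ, v (s14χ s g) ≤ 1 := fun g hg => by
  by_cases e : g = eb 1
  · rw [e, s14_G, map_one]
  · exact (s14_lt h2 hs hv hg e).le

theorem s14_nb {v : Valuation k Γ} (h2 : v 2 = 1) {s : k} (hs : s ≠ 0) (hv : v s < 1) :
    ∀ g ∈ cD.lat.Λ, ¬Lat.Bk (Invo.one v) (s14χ s g) := fun g hg h => by
  by_cases e : g = eb 1
  · rw [e, s14_G] at h
    exact h.2.1 (sub_self _)
  · exact (s14_lt h2 hs hv hg e).ne h.1

theorem s14_pos {v : Valuation k Γ} (h2 : v 2 = 1) {s : k} (hs : s ≠ 0) (hv : v s < 1) {u : CL}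
    (hc : 0 ≤ u.2.2 1) : cD.lat.Pos (Invo.one v) (s14χ s) u := fun g hg h => by
  by_cases e : g = eb 1
  · rwa [e, DP.lat_ip, cD_ip, cip_eb]
  · exact absurd h (s14_lt h2 hs hv hg e).ne

theorem s14_sq (a : ℤ) (ha : a ^ 2 ≤ 50) : -7 ≤ a ∧ a ≤ 7 := ⟨by nlinarith, by nlinarith⟩

/-- the roots of value one lie in the span of three simple roots -/
theorem s14_root [CharZero k] {v : Valuation k Γ} (h2 : v 2 = 1) {s : k} (hs : s ≠ 0)
    (hv : v s < 1) {α : CL} (hα : α ∈ cD.lat.Φ) (h : s14χ s α = 1) :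
    ∃ n p q : ℤ, α = ((n, p + q), ![p, p, q, q, 0], ![n, 0]) ∧
      (0 ≤ n ∧ 0 ≤ p ∧ 0 ≤ q ∨ n ≤ 0 ∧ p ≤ 0 ∧ q ≤ 0) := by
  have h0 : 0 < v s := zero_lt_iff.2 (v.ne_zero_iff.2 hs)
  have e1 : α.1.1 - α.2.2 0 = 0 := by
    have := s14_v h2 s α
    rw [h, map_one] at this
    exact (zpow_eq_one_iff_right₀ h0.le hv.ne).1 this.symm
  have e2 : s14e α = 0 := by
    rw [s14χ, e1, zpow_zero, one_mul] at h
    have h' : (2 : ℚ) ^ s14e α = 1 := Rat.cast_injective (α := k) (by simpa using h)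
    exact (zpow_eq_one_iff_right₀ (by norm_num) (by norm_num)).1 h'
  have e3 := hα.2.1
  rw [s14_a hα.2.2] at e3
  have key := cip_key α hα.2.2 hα.2.1
  have sq : cip α α = -2 := hα.1
  have hM := cD_M.1 hα.2.2
  rw [sq] at key
  have k0 := sq_nonneg (5 * α.2.1 0 - 2 * α.1.2)
  have k1 := sq_nonneg (5 * α.2.1 1 - 2 * α.1.2)
  have k2 := sq_nonneg (5 * α.2.1 2 - 2 * α.1.2)
  have k3 := sq_nonneg (5 * α.2.1 3 - 2 * α.1.2)
  have k4 := sq_nonneg (5 * α.2.1 4 - 2 * α.1.2)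
  have k5 := sq_nonneg (2 * α.2.2 0 - α.1.1)
  have k6 := sq_nonneg (2 * α.2.2 1 - α.1.1)
  have k7 := sq_nonneg (4 * α.1.2 - 5 * α.1.1)
  have k8 := sq_nonneg α.1.1
  have z := s14_sq
  have l0 := z (5 * α.2.1 0 - 2 * α.1.2) (by omega)
  have l1 := z (5 * α.2.1 1 - 2 * α.1.2) (by omega)
  have l2 := z (5 * α.2.1 2 - 2 * α.1.2) (by omega)
  have l3 := z (5 * α.2.1 3 - 2 * α.1.2) (by omega)
  simp only [s14e] at e2
  simp only [cip, Fin.sum_univ_five, Fin.sum_univ_two] at sq hM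
  obtain ⟨⟨n, J⟩, m, c⟩ := α
  simp only at *
  clear key k0 k1 k2 k3 k4 k5 k6 k7 k8 z h hα
  have d1 : -2 ≤ m 0 - m 1 ∧ m 0 - m 1 ≤ 2 := by constructor <;> omega
  have d2 : -2 ≤ m 2 - m 3 ∧ m 2 - m 3 ≤ 2 := by constructor <;> omega
  clear l0 l1 l2 l3
  have f4 : m 4 = 0 := by omega
  have f1 : m 1 = m 0 := by omega
  have f3 : m 3 = m 2 := by omega
  have f5 : J = m 0 + m 2 := by omega
  have f6 : c 0 = n := by omega
  have f7 : c 1 = 0 := by omega
  refine ⟨n, m 0, m 2, ?_, ?_⟩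
  · refine Prod.ext (Prod.ext rfl f5) (Prod.ext (funext fun i => ?_) (funext fun i => ?_))
    · fin_cases i <;> simp [f1, f3, f4]
    · fin_cases i <;> simp [f6, f7]
  · rw [f4, f1, f3, f5, f6, f7] at sq
    have g : (n - 2 * m 0) ^ 2 + (n - 2 * m 2) ^ 2 + 2 * n ^ 2 = 4 := by linear_combination -2 * sq
    generalize m 0 = p at g ⊢
    generalize m 2 = q at g ⊢
    clear * - g
    have y : ∀ a : ℤ, a ^ 2 ≤ 4 → -2 ≤ a ∧ a ≤ 2 := fun a ha => ⟨by nlinarith, by nlinarith⟩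
    have j1 := sq_nonneg (n - 2 * p)
    have j2 := sq_nonneg (n - 2 * q)
    have j3 := sq_nonneg n
    obtain ⟨a1, a2⟩ := y n (by omega)
    obtain ⟨a3, a4⟩ := y (n - 2 * p) (by omega)
    obtain ⟨a5, a6⟩ := y (n - 2 * q) (by omega)
    obtain ⟨b1, b2⟩ : -2 ≤ p ∧ p ≤ 2 := by omega
    obtain ⟨b3, b4⟩ : -2 ≤ q ∧ q ≤ 2 := by omega
    clear * - g a1 a2 b1 b2 b3 b4
    interval_cases n <;> interval_cases p <;> interval_cases q <;> omega

theorem s14_rt [CharZero k] {v : Valuation k Γ} (h2 : v 2 = 1) {s : k} (hs : s ≠ 0)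
    (hv : v s < 1) {u : CL} (h01 : u.2.1 0 + u.2.1 1 ≤ u.1.1) (h23 : u.2.1 2 + u.2.1 3 ≤ u.1.1)
    (hH : u.2.2 0 ≤ u.1.2 - u.1.1) :
    ∀ α ∈ cD.lat.Φ, s14χ s α = 1 → 0 < cip u α → 0 ≤ cip hC α := fun α hα h hu => by
  obtain ⟨n, p, q, rfl, h1⟩ := s14_root h2 hs hv hα h
  simp only [cip, hC, Fin.sum_univ_five, Fin.sum_univ_two] at hu ⊢
  simp at hu ⊢
  rcases h1 with h1 | ⟨a, b, c⟩
  · omega
  · nlinarith [mul_nonneg (neg_nonneg.2 a) (sub_nonneg.2 hH),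
      mul_nonneg (neg_nonneg.2 b) (sub_nonneg.2 h01), mul_nonneg (neg_nonneg.2 c) (sub_nonneg.2 h23)]

end Pool.Agent.Lib.MP_d03834_ag.Core
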