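import Pool.Agent.Lib.MP_d03834_ag.Core.RexKP
import Pool.Agent.Lib.MP_d03834_ag.Core.S14
import Pool.Agent.Lib.MP_d03834_ag.Core.N14Def

/-! The classes which occur for fourteen points: four fibre chart, two folds, reflection. -/

set_option autoImplicit false

namespace Pool.Agent.Lib.MP_d03834_ag.Core.N14

open Module

/-- the multiplicities at a1 a2 b1 b2 c1 c2 d1 d2 e f in the four fibre chart -/
def m10 (p q a f k : ℤ) : Fin 10 → ℤ :=
  ![a, p - a, q - a, p - q + a, p - a, a, p - q + a, q - a, 2 * q - 2 * p + k, f]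

/-- the degree in x after the twists i and j -/
def px (p i j : ℤ) : ℤ := p - i - j

/-- the degree in y after the twists i and j -/
def qy (q i j : ℤ) : ℤ := q - 2 * ((i + 1) / 2) - 2 * ((j + 1) / 2)

/-- the multiplicities after the twists i and j, in the labels e0 .. e4, a0, a1, b0, b1
= c2, c1, d2, d1, e, a2, a1, b1, b2 -/
def m9 (p q a k i j : ℤ) : Ix → ℤ
  | .inl l => ![a - (i + 1) / 2, p - a - (i + 1) / 2 - j, q - a - (i + 1) / 2,
      p - q + a - (i + 1) / 2 - j, 2 * q - 2 * p + k - j] l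
  | .inr (.inl s) => ![p - a - (j + 1) / 2, a - i - (j + 1) / 2] s
  | .inr (.inr s) => ![q - a - i - (j + 1) / 2, p - q + a - (j + 1) / 2] s

/-- the degree on the root through a0 b0 e0 e2 -/
def del (p q : ℤ) (m : Ix → ℤ) : ℤ :=
  p + q - m (.inr (.inl 0)) - m (.inr (.inr 0)) - m (.inl 0) - m (.inl 2)

/-- the multiplicities after the reflection -/
def rm (p q : ℤ) (m : Ix → ℤ) : Ix → ℤ
  | .inl l => m (.inl l) + ![del p q m, 0, del p q m, 0, 0] l
  | .inr (.inl s) => m (.inr (.inl s)) + ![del p q m, 0] s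
  | .inr (.inr s) => m (.inr (.inr s)) + ![del p q m, 0] s

theorem del_m9 (p q a k i j : ℤ) :
    del (px p i j) (qy q i j) (m9 p q a k i j) = 2 * a - q - j := by
  simp only [del, px, qy, m9, Matrix.cons_val_zero, Matrix.cons_val]
  ring

/-- the class on the folded surface for the twists i and k + e -/
def u14 (p q a k i e : ℤ) : CL :=
  ((p + 2 * a - q - i - 2 * k, 2 * a - 2 * ((i + 1) / 2) - 2 * k),
    ![3 * a - q - (i + 1) / 2 - k, p - a - (i + 1) / 2 - k, a - (i + 1) / 2 - k,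
      p - q + a - (i + 1) / 2 - k, 2 * q - 2 * p],
    ![q - p - i, k + e])

theorem u14_M (p q a k i e : ℤ) : u14 p q a k i e ∈ cD.M := by
  rw [cD_M]
  simp only [u14, Fin.sum_univ_five, Matrix.cons_val_zero, Matrix.cons_val_one, Matrix.cons_val]
  ring

theorem u14_dgx (p q a k i e : ℤ) : dgx e (u14 p q a k i e) =
    px p i (k + e) + del (px p i (k + e)) (qy q i (k + e)) (m9 p q a k i (k + e)) := by
  rw [del_m9]
  simp only [dgx, u14, px]
  ring

theorem u14_dgy (p q a k i e : ℤ) : dgy e (u14 p q a k i e) =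
    qy q i (k + e) + del (px p i (k + e)) (qy q i (k + e)) (m9 p q a k i (k + e)) := by
  rw [del_m9]
  simp only [dgy, par, u14, qy, Matrix.cons_val_zero, Matrix.cons_val_one]
  omega

theorem u14_mlt (p q a k i e : ℤ) : mlt e (u14 p q a k i e) =
    rm (px p i (k + e)) (qy q i (k + e)) (m9 p q a k i (k + e)) := by
  funext l
  rcases l with l | l | l <;> fin_cases l <;> simp [mlt, rm, del_m9, u14, m9] <;> omega

theorem u14_c1 (p q a k i e : ℤ) : (u14 p q a k i e).2.2 1 = k + e := rfl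

theorem u14_01 (p q a k i e : ℤ) :
    (u14 p q a k i e).2.1 0 + (u14 p q a k i e).2.1 1 ≤ (u14 p q a k i e).1.1 := by
  simp only [u14, Matrix.cons_val_zero, Matrix.cons_val_one]
  omega

theorem u14_23 (p q a k i e : ℤ) :
    (u14 p q a k i e).2.1 2 + (u14 p q a k i e).2.1 3 ≤ (u14 p q a k i e).1.1 := by
  simp only [u14, Matrix.cons_val]
  omega

theorem u14_H (p q a k : ℤ) {i : ℤ} (e : ℤ) (hi : 0 ≤ i) :
    (u14 p q a k i e).2.2 0 ≤ (u14 p q a k i e).1.2 - (u14 p q a k i e).1.1 := by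
  simp only [u14, Matrix.cons_val_zero]
  omega

theorem u14_sq (d M m w i : ℤ) {e : ℤ} (he : e = 0 ∨ e = 1) :
    cip (u14 (3 * d - M - 6 * m) (5 * d - 2 * M - 11 * m) (3 * d - M - 7 * m) (k14 d M m w)
        (d - M - m + i) e)
      (u14 (3 * d - M - 6 * m) (5 * d - 2 * M - 11 * m) (3 * d - M - 7 * m) (k14 d M m w)
        (d - M - m + i) e) = s14 d M m w i e := by
  obtain ⟨h, h1, h2⟩ : ∃ h : ℤ, (d - M - m + i + 1) / 2 = h ∧
      (i = 2 * h - d + M + m ∧ (d - M - m + i) % 2 = 0 ∨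
        i = 2 * h - 1 - d + M + m ∧ (d - M - m + i) % 2 = 1) := ⟨_, rfl, by omega⟩
  simp only [cip, u14, s14, k14, h1, Fin.sum_univ_five, Fin.sum_univ_two, Matrix.cons_val_zero,
    Matrix.cons_val_one, Matrix.cons_val]
  rcases h2 with ⟨h2, h3⟩ | ⟨h2, h3⟩ <;> rw [h3, h2] <;> rcases he with rfl | rfl <;> ring

/-- the labels of a1 a2 b1 b2 c1 c2 d1 d2 e among the nine points of the shape -/
def lab : Fin 9 → Ix :=
  ![.inr (.inl 1), .inr (.inl 0), .inr (.inr 0), .inr (.inr 1), .inl 1, .inl 0, .inl 3, .inl 2,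
    .inl 4]

theorem lab_surj : Function.Surjective lab := by decide

theorem H0_lab {K : Type} [CommRing K] (p q : ℤ) (G : Ix → Fin 4 → K) (m : Ix → ℤ) :
    H0 p q (G ∘ lab) (m ∘ lab) = H0 p q G m := by
  ext F
  simp only [mem_H0, Function.comp]
  exact and_congr_right fun _ =>
    (lab_surj.forall (p := fun l => F ∈ pid (G l) ^ (m l).toNat)).symm

/-- the bound for the classes which are not negative on the three roots and on the line -/
def Bnd {K : Type} [Field K] (P : Ix → Fin 4 → K) : Prop :=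
  ∀ (ε : ℤ) (u : CL), ε = 0 ∨ ε = 1 → u ∈ cD.M → 0 ≤ u.2.2 1 → u.2.1 0 + u.2.1 1 ≤ u.1.1 →
    u.2.1 2 + u.2.1 3 ≤ u.1.1 → u.2.2 0 ≤ u.1.2 - u.1.1 →
    (0 < cip u u → (finrank K (H0 (dgx ε u) (dgy ε u) P (mlt ε u)) : ℤ) ≤ 1 + cip u u / 2) ∧
      (cip u u < 0 → finrank K (H0 (dgx ε u) (dgy ε u) P (mlt ε u)) = 0)

/-- the three shears from the four fibre chart G to the shape P -/
def Geo {K : Type} [Field K] (G P : Ix → Fin 4 → K) : Prop :=
  ∀ (p q : ℤ) (m : Ix → ℤ), finrank K (H0 p q G m) ≤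
    finrank K (H0 (p + del p q m) (q + del p q m) P (rm p q m))

/-- the two folds, from nine points F over k to ten points P over K -/
def Fold {k K : Type} [Field k] [Field K] (F : Fin 9 → Fin 4 → k) (P : Fin 10 → Fin 4 → K) :
    Prop :=
  ∀ (p q a n κ i ε : ℤ), i = 0 ∨ i = 1 → ε = 0 ∨ ε = 1 → 0 ≤ n → 0 ≤ κ + ε →
    (finrank K (H0 p q P (m10 p q a n κ)) : ℤ) ≤ i * ((n + 2) / 2) + ε * ((κ + 2) / 2) +
      finrank k (H0 (px p (n + i) (κ + ε)) (qy q (n + i) (κ + ε)) F
        (m9 p q a κ (n + i) (κ + ε) ∘ lab))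

/-- three Cremona transformations and the chart -/
def Fr : Prop :=
  ∀ (K : Type) [Field K] [Algebra ℂ K] (P : Fin 10 → Fin 4 → K) (d M m w r : ℕ) (i e : ℤ),
    (∀ l, Pt (P l)) → Box14 d M m w i e →
    finrank K (H0 (3 * d - M - 6 * m) (5 * d - 2 * M - 11 * m) P
      (m10 (3 * d - M - 6 * m) (5 * d - 2 * M - 11 * m) (3 * d - M - 7 * m) (d - M - m)
        (k14 d M m w))) ≤ r → Hle d (y14 M m w) r

theorem d14_of (hFr : Fr) {k K : Type} [Field k] [Field K] [Algebra ℂ K]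
    {G P : Ix → Fin 4 → k} {Q : Fin 10 → Fin 4 → K} (hQ : ∀ l, Pt (Q l))
    (hF : Fold (G ∘ lab) Q) (hG : Geo G P) (hB : Bnd P) : D14 := by
  intro d M m w r i e hb hr
  refine hFr K Q d M m w r i e hQ hb ?_
  have hn : (0 : ℤ) ≤ d - M - m := by
    have := hb.m10
    have := hb.hM
    have := hb.lo
    omega
  have hi := hb.hi
  have h1 := hF (3 * d - M - 6 * m) (5 * d - 2 * M - 11 * m) (3 * d - M - 7 * m) (d - M - m)
    (k14 d M m w) i e hb.hi hb.he hn hb.ke
  rw [H0_lab] at h1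
  have h2 := hG (px (3 * d - M - 6 * m) (d - M - m + i) (k14 d M m w + e))
    (qy (5 * d - 2 * M - 11 * m) (d - M - m + i) (k14 d M m w + e))
    (m9 (3 * d - M - 6 * m) (5 * d - 2 * M - 11 * m) (3 * d - M - 7 * m) (k14 d M m w)
      (d - M - m + i) (k14 d M m w + e))
  rw [← u14_dgx, ← u14_dgy, ← u14_mlt] at h2
  obtain ⟨h3, h4⟩ := hB e (u14 (3 * d - M - 6 * m) (5 * d - 2 * M - 11 * m) (3 * d - M - 7 * m)
    (k14 d M m w) (d - M - m + i) e) hb.he (u14_M ..) hb.ke (u14_01 ..) (u14_23 ..)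
    (u14_H _ _ _ _ _ (by omega))
  rw [u14_sq _ _ _ _ _ hb.he] at h3 h4
  have h5 : i * (((d : ℤ) - M - m + 2) / 2) = i * (((d : ℤ) - M - m) / 2 + 1) := by
    congr 1
    omega
  rw [h5] at h1
  simp only [c14] at hr
  rcases hr with ⟨a1, a2⟩ | ⟨a1, a2⟩
  · have := h4 a1
    omega
  · have := h3 a1
    omega

section start
variable {O k Γ : Type} [CommRing O] [Field k] [LinearOrderedCommGroupWithZero Γ]

/-- the start configuration with its exact curve -/
def cc [Algebra k O] (A : Arc O k) (s : k) : CCfg O k where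
  toCfg := s14c A s
  q := ![![0, 1, 0], ![-algebraMap k O s, -algebraMap k O s * algebraMap k O s * A.t,
    -algebraMap k O s]]

theorem cc_ex [CharZero k] [Algebra k O] (A : Arc O k)
    (hA : ∀ x, A.res (algebraMap k O x) = x) (s : k) : Ex A (cc A s) := by
  have ht : A.res A.t = 0 := (A.ker _).2 dvd_rfl
  refine ⟨by simp [cc], by simp [cc], by simp [cc], by simp [cc, s14c, hA],
    by simp [cc, s14c, ht], by simp [cc, s14c, hA], fun l => ?_⟩
  have h1 : algebraMap k O (s14z k l)⁻¹ * algebraMap k O (s14z k l) = 1 := by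
    rw [← map_mul, inv_mul_cancel₀ (s14_z0 l), map_one]
  simp only [cc, s14c, qv, map_add, Matrix.cons_val_zero, Matrix.cons_val_one, Matrix.cons_val]
  linear_combination algebraMap k O s * h1

theorem s14z_inj [CharZero k] (i l : Fin 5) (h : i ≠ l) : s14z k i ≠ s14z k l := by
  fin_cases i <;> fin_cases l <;> simp [s14z] at h ⊢ <;> norm_num

theorem bnd_of [CharZero k] [Algebra k O] {A : Arc O k} {K : Type} [Field K] [Algebra O K]
    {v : Valuation k Γ} (hK : KPC A K v) (hi : Function.Injective (algebraMap O K))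
    (hA : ∀ x, A.res (algebraMap k O x) = x) (h2 : v 2 = 1) {s : k} (hs : s ≠ 0)
    (hv : v s < 1) : Bnd ((s14c A s).pts A K) := by
  intro ε u hε hM hc h01 h23 hH
  have hne : ∀ x y : k, x ≠ y → algebraMap k O x ≠ algebraMap k O y := fun x y h e =>
    h (by rw [← hA x, e, hA])
  have h1 : s ≠ 1 := fun e => by
    rw [e, map_one] at hv
    exact lt_irrefl _ hv
  refine Sta.kpH (c := cc A s) hK hi ⟨s14_shp A hA s, cc_ex A hA s, s14_ch hs, s14_le h2 hs hv,
    s14_nb h2 hs hv, hM, s14_pos h2 hs hv hc, s14_rt h2 hs hv h01 h23 hH⟩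
    (fun i l h => hne _ _ (s14z_inj i l h)) ?_ (hne _ _ fun e => h1 (by linear_combination e)) hε
  have := hne 0 (-s) (neg_ne_zero.2 hs).symm
  rwa [map_zero] at this

end start

end Pool.Agent.Lib.MP_d03834_ag.Core.N14
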