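import Pool.Agent.Lib.MP_d03834_ag.Core.N15Top
import Pool.Agent.Lib.MP_d03834_ag.Core.Down15
import Pool.Agent.Lib.MP_d03834_ag.Core.KPF

/-! Fifteen points. -/

set_option autoImplicit false

namespace Pool.Agent.Lib.MP_d03834_ag.Core

theorem core15 : CoreN 15 := core15_of (down15_of (kpc _ _ _))

end Pool.Agent.Lib.MP_d03834_ag.Core
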