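import Mathlib

/-! Polya two point lemma: a polynomial that is even around the point one has many low monomials. -/

set_option autoImplicit false

namespace Pool.Agent.Lib.MP_d03834_ag.Core

open Polynomial

/-- number of non zero coefficients of index below `n` -/
noncomputable def lowCnt {k : Type} [Field k] (Q : k[X]) (n : ℕ) : ℕ := by
  classical exact ((Finset.range n).filter fun b => Q.coeff b ≠ 0).card

theorem lowCnt_zero {k : Type} [Field k] (Q : k[X]) : lowCnt Q 0 = 0 := by
  simp [lowCnt]

theorem lowCnt_succ_zero {k : Type} [Field k] (Q : k[X]) (n : ℕ) (h : Q.coeff n = 0) :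
    lowCnt Q (n + 1) = lowCnt Q n := by
  classical
  unfold lowCnt
  rw [Finset.range_add_one, Finset.filter_insert, if_neg (by simpa using h)]

theorem lowCnt_succ_ne {k : Type} [Field k] (Q : k[X]) (n : ℕ) (h : Q.coeff n ≠ 0) :
    lowCnt Q (n + 1) = lowCnt Q n + 1 := by
  classical
  unfold lowCnt
  rw [Finset.range_add_one, Finset.filter_insert, if_pos h, Finset.card_insert_of_notMem (by simp)]

theorem lowCnt_mono {k : Type} [Field k] (Q : k[X]) {a b : ℕ} (h : a ≤ b) :
    lowCnt Q a ≤ lowCnt Q b := by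
  classical
  unfold lowCnt
  exact Finset.card_le_card (Finset.filter_subset_filter _ (Finset.range_mono h))

theorem polya_real (Q : ℝ[X]) (hQ : Q ≠ 0) (ho : ∀ j, Odd j → (taylor 1 Q).coeff j = 0) :
    ∃ j, j + 1 ≤ lowCnt Q (2 * j + 1) := by
  classical
  by_contra hc
  push Not at hc
  have hne : ∀ j, j ≤ Q.natDegree → derivative^[j] Q ≠ 0 := fun j hj h => by
    have := coeff_iterate_derivative (k := j) Q (Q.natDegree - j)
    rw [h, coeff_zero, Nat.sub_add_cancel hj, nsmul_eq_mul] at this
    have h1 : (Q.natDegree.descFactorial j : ℝ) ≠ 0 := by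
      exact_mod_cast (Nat.descFactorial_pos.2 hj).ne'
    exact mul_ne_zero h1 (leadingCoeff_ne_zero.2 hQ) this.symm
  have h0 : ∀ j, Q.coeff j = 0 → (derivative^[j] Q).eval 0 = 0 := fun j h => by
    rw [← coeff_zero_eq_eval_zero, coeff_iterate_derivative, zero_add, h, smul_zero]
  have h1 : ∀ j, Odd j → (derivative^[j] Q).eval 1 = 0 := fun j h => by
    have := ho j h
    rw [taylor_coeff] at this
    rw [← factorial_smul_hasseDeriv, LinearMap.smul_apply, eval_smul, this, smul_zero]
  let Z : ℕ → Finset ℝ := fun j =>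
    (derivative^[j] Q).roots.toFinset.filter fun x => 0 ≤ x ∧ x ≤ 1
  have key : ∀ j, j ≤ Q.natDegree → 1 + (j + 1) / 2 ≤ (Z j).card + lowCnt Q (j + 1) := by
    intro j
    induction j with
    | zero =>
      intro _
      by_cases h : Q.coeff 0 = 0
      · have : (0 : ℝ) ∈ Z 0 := by
          simp only [Z, Finset.mem_filter, Multiset.mem_toFinset]
          exact ⟨(mem_roots (hne 0 (Nat.zero_le _))).2 (h0 0 h), le_rfl, zero_le_one⟩
        have := Finset.card_pos.2 ⟨_, this⟩
        omega
      · rw [lowCnt_succ_ne Q 0 h]; omega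
    | succ j ih =>
      intro hj
      have ih := ih (by omega)
      let T : Finset ℝ :=
        (derivative^[j + 1] Q).roots.toFinset.filter fun x => 0 < x ∧ x < 1
      have hT : (Z j).card ≤ T.card + 1 := by
        refine Finset.card_le_of_interleaved fun x hx y hy hxy _ => ?_
        simp only [Z, Finset.mem_filter, Multiset.mem_toFinset] at hx hy
        have ex := (mem_roots (hne j (by omega))).1 hx.1
        have ey := (mem_roots (hne j (by omega))).1 hy.1
        obtain ⟨c, hc1, hc2⟩ := exists_deriv_eq_zero (f := fun t => (derivative^[j] Q).eval t) hxy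
          (derivative^[j] Q).continuous.continuousOn (by
            show (derivative^[j] Q).eval x = (derivative^[j] Q).eval y
            rw [ex.eq_zero, ey.eq_zero])
        refine ⟨c, ?_, hc1.1, hc1.2⟩
        simp only [T, Finset.mem_filter, Multiset.mem_toFinset]
        refine ⟨(mem_roots (hne (j + 1) hj)).2 ?_, by linarith [hx.2.1, hc1.1],
          by linarith [hy.2.2, hc1.2]⟩
        rw [Function.iterate_succ_apply', IsRoot.def, ← Polynomial.deriv]
        exact hc2
      have sub : T ⊆ Z (j + 1) := fun x hx => by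
        simp only [T, Z, Finset.mem_filter] at hx ⊢
        exact ⟨hx.1, hx.2.1.le, hx.2.2.le⟩
      have n0 : (0 : ℝ) ∉ T := by simp [T]
      have n1 : (1 : ℝ) ∉ T := by simp [T]
      have m0 : Q.coeff (j + 1) = 0 → (0 : ℝ) ∈ Z (j + 1) := fun h => by
        simp only [Z, Finset.mem_filter, Multiset.mem_toFinset]
        exact ⟨(mem_roots (hne _ hj)).2 (h0 _ h), le_rfl, zero_le_one⟩
      have m1 : Odd (j + 1) → (1 : ℝ) ∈ Z (j + 1) := fun h => by
        simp only [Z, Finset.mem_filter, Multiset.mem_toFinset]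
        exact ⟨(mem_roots (hne _ hj)).2 (h1 _ h), zero_le_one, le_rfl⟩
      by_cases ha : Q.coeff (j + 1) = 0 <;> rcases Nat.even_or_odd (j + 1) with hb | hb
      · have : (insert 0 T).card ≤ (Z (j + 1)).card :=
          Finset.card_le_card (Finset.insert_subset (m0 ha) sub)
        rw [Finset.card_insert_of_notMem n0] at this
        rw [lowCnt_succ_zero Q _ ha]
        obtain ⟨i, hi⟩ := hb
        omega
      · have : (insert 1 (insert 0 T)).card ≤ (Z (j + 1)).card :=
          Finset.card_le_card (Finset.insert_subset (m1 hb) (Finset.insert_subset (m0 ha) sub))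
        rw [Finset.card_insert_of_notMem (by simp [n1]), Finset.card_insert_of_notMem n0] at this
        rw [lowCnt_succ_zero Q _ ha]
        obtain ⟨i, hi⟩ := hb
        omega
      · have := Finset.card_le_card sub
        rw [lowCnt_succ_ne Q _ ha]
        obtain ⟨i, hi⟩ := hb
        omega
      · have : (insert 1 T).card ≤ (Z (j + 1)).card :=
          Finset.card_le_card (Finset.insert_subset (m1 hb) sub)
        rw [Finset.card_insert_of_notMem n1] at this
        rw [lowCnt_succ_ne Q _ ha]
        obtain ⟨i, hi⟩ := hb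
        omega
  have hk := key Q.natDegree le_rfl
  have hZ : Z Q.natDegree = ∅ := by
    have hd : (derivative^[Q.natDegree] Q).natDegree = 0 := by
      have := natDegree_iterate_derivative Q Q.natDegree
      omega
    have hr : (derivative^[Q.natDegree] Q).roots = 0 := by
      rw [eq_C_of_natDegree_eq_zero hd, roots_C]
    simp [Z, hr]
  rw [hZ, Finset.card_empty] at hk
  have h2 := hc ((Q.natDegree + 1) / 2)
  have h3 := lowCnt_mono Q (a := Q.natDegree + 1) (b := 2 * ((Q.natDegree + 1) / 2) + 1) (by omega)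
  omega

theorem coeff_sub_one_pow (R : Type) [CommRing R] (n b : ℕ) :
    ((X - 1 : R[X]) ^ n).coeff b = (((X - 1 : ℤ[X]) ^ n).coeff b : R) := by
  have : (X - 1 : R[X]) ^ n = ((X - 1 : ℤ[X]) ^ n).map (Int.castRingHom R) := by
    rw [Polynomial.map_pow, Polynomial.map_sub, map_X, Polynomial.map_one]
  rw [this, coeff_map, eq_intCast]

theorem taylor_even {R : Type} [CommRing R] (τ : ℕ) (μ : ℕ → R) (j : ℕ) :
    (taylor 1 (∑ i ∈ Finset.range (τ + 1), C (μ i) * (X - 1 : R[X]) ^ (2 * i))).coeff j =
      ∑ i ∈ Finset.range (τ + 1), if j = 2 * i then μ i else 0 := by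
  rw [map_sum, finsetSum_coeff]
  refine Finset.sum_congr rfl fun i _ => ?_
  rw [taylor_mul, taylor_C, taylor_pow, map_sub, taylor_X, taylor_one, C_1, add_sub_cancel_right,
    coeff_C_mul, coeff_X_pow]
  split_ifs <;> simp

/-- Polya lemma in characteristic zero -/
theorem polya {k : Type} [Field k] [CharZero k] (τ : ℕ) (μ : ℕ → k) (i0 : ℕ) (hi : i0 ≤ τ)
    (hμ : μ i0 ≠ 0) : ∃ j, j + 1 ≤
      lowCnt (∑ i ∈ Finset.range (τ + 1), C (μ i) * (X - 1 : k[X]) ^ (2 * i)) (2 * j + 1) := by
  classical
  obtain ⟨φ, hφ⟩ : ∃ φ : Module.Dual ℚ k, φ (μ i0) ≠ 0 := by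
    by_contra h
    push Not at h
    exact hμ ((Module.forall_dual_apply_eq_zero_iff ℚ _).1 h)
  set Q : k[X] := ∑ i ∈ Finset.range (τ + 1), C (μ i) * (X - 1 : k[X]) ^ (2 * i) with hQ
  set P : ℝ[X] := ∑ i ∈ Finset.range (τ + 1), C ((φ (μ i) : ℚ) : ℝ) * (X - 1 : ℝ[X]) ^ (2 * i)
    with hP
  have hc : ∀ b, P.coeff b = ((φ (Q.coeff b) : ℚ) : ℝ) := fun b => by
    rw [hP, hQ, finsetSum_coeff, finsetSum_coeff, map_sum, Rat.cast_sum]
    refine Finset.sum_congr rfl fun i _ => ?_
    rw [coeff_C_mul, coeff_C_mul, coeff_sub_one_pow, coeff_sub_one_pow k, mul_comm (μ i),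
      ← zsmul_eq_mul, map_zsmul, zsmul_eq_mul]
    push_cast
    ring
  have hP0 : P ≠ 0 := fun h => by
    have := taylor_even τ (fun i => ((φ (μ i) : ℚ) : ℝ)) (2 * i0)
    rw [← hP, h, map_zero, coeff_zero, Finset.sum_eq_single i0 (fun i _ hne => if_neg (by omega))
      (fun hn => absurd (Finset.mem_range.2 (by omega)) hn), if_pos rfl] at this
    exact hφ (by exact_mod_cast this.symm)
  obtain ⟨j, hj⟩ := polya_real P hP0 fun j hj => by
    rw [hP, taylor_even]
    refine Finset.sum_eq_zero fun i _ => if_neg ?_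
    obtain ⟨l, hl⟩ := hj
    omega
  refine ⟨j, hj.trans ?_⟩
  unfold lowCnt
  refine Finset.card_le_card fun b hb => ?_
  simp only [Finset.mem_filter] at hb ⊢
  refine ⟨hb.1, fun h => hb.2 ?_⟩
  rw [hc, h, map_zero, Rat.cast_zero]

/-- an injective matrix over a domain has a left inverse up to a non zero scalar -/
theorem left_quasi {A ι κ : Type} [CommRing A] [IsDomain A] [Fintype ι] [Fintype κ]
    [DecidableEq ι] [DecidableEq κ] (M : Matrix ι κ A) (h : ∀ μ : κ → A, M.mulVec μ = 0 → μ = 0) :
    ∃ (δ : A) (L : Matrix κ ι A), δ ≠ 0 ∧ L * M = δ • (1 : Matrix κ κ A) := by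
  let K := FractionRing A
  have inj := IsFractionRing.injective A K
  let M' : Matrix ι κ K := M.map (algebraMap A K)
  have hk : LinearMap.ker (Matrix.toLin' M') = ⊥ := by
    rw [LinearMap.ker_eq_bot']
    intro v hv
    obtain ⟨d, hd⟩ := IsLocalization.exist_integer_multiples_of_finite (nonZeroDivisors A) v
    choose μ hμ using hd
    have h1 : M.mulVec μ = 0 := by
      funext e
      apply inj
      have := congrFun hv e
      rw [Matrix.toLin'_apply] at this
      simp only [Matrix.mulVec, dotProduct, M', Matrix.map_apply, Pi.zero_apply] at this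
      simp only [Matrix.mulVec, dotProduct, map_sum, map_mul, hμ, Pi.zero_apply, map_zero,
        Algebra.smul_def]
      rw [show ∑ x, algebraMap A K (M e x) * (algebraMap A K d * v x) =
        algebraMap A K d * ∑ x, algebraMap A K (M e x) * v x by
          rw [Finset.mul_sum]; exact Finset.sum_congr rfl fun x _ => by ring, this, mul_zero]
    funext i
    have h2 := hμ i
    rw [h μ h1, Pi.zero_apply, map_zero, Algebra.smul_def] at h2
    have hd0 : algebraMap A K d ≠ 0 := fun h0 =>
      nonZeroDivisors.ne_zero d.2 (inj (by rw [h0, map_zero]))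
    exact (mul_eq_zero.1 h2.symm).resolve_left hd0
  obtain ⟨g, hg⟩ := LinearMap.exists_leftInverse_of_injective _ hk
  have hL : LinearMap.toMatrix' g * M' = 1 := by
    have := congrArg LinearMap.toMatrix' hg
    rwa [LinearMap.toMatrix'_comp, LinearMap.toMatrix'_toLin', LinearMap.toMatrix'_id] at this
  obtain ⟨d, hd⟩ := IsLocalization.exist_integer_multiples_of_finite (nonZeroDivisors A)
    (fun p : κ × ι => LinearMap.toMatrix' g p.1 p.2)
  choose l hl using hd
  refine ⟨d, Matrix.of fun i e => l (i, e), nonZeroDivisors.ne_zero d.2, ?_⟩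
  ext i j
  apply inj
  have := congrFun (congrFun hL i) j
  simp only [Matrix.mul_apply, M', Matrix.map_apply] at this
  simp only [Matrix.mul_apply, Matrix.of_apply, map_sum, map_mul, hl, Algebra.smul_def,
    Matrix.smul_apply, smul_eq_mul]
  rw [show ∑ x, algebraMap A K d * LinearMap.toMatrix' g i x * algebraMap A K (M x j) =
    algebraMap A K d * ∑ x, LinearMap.toMatrix' g i x * algebraMap A K (M x j) by
      rw [Finset.mul_sum]; exact Finset.sum_congr rfl fun x _ => by ring, this]
  by_cases hij : i = j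
  · subst hij; simp
  · simp [Matrix.one_apply_ne hij]

end Pool.Agent.Lib.MP_d03834_ag.Core
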