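import Pool.Agent.Lib.MP_d03834_ag.Core.Asm

/-! The projective form of the statement. -/

set_option autoImplicit false

namespace Pool.Agent.Lib.MP_d03834_ag.Core.Proj

open MvPolynomial Module

variable {n : ℕ}

/-- the multigrading of the coordinate ring of a product of planes -/
def wt (n : ℕ) : Fin n × Fin 3 → Fin n → ℕ := fun ij => Pi.single ij.1 1

/-- a product of powers of the last coordinates -/
noncomputable def Zp (e : Fin n → ℕ) : MvPolynomial (Fin n × Fin 3) ℂ := ∏ i, X (i, 2) ^ e i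

theorem Zp_hom (e : Fin n → ℕ) : IsWeightedHomogeneous (wt n) (Zp e) e := by
  have h := IsWeightedHomogeneous.prod (w := wt n) Finset.univ
    (fun i : Fin n => (X (i, 2) ^ e i : MvPolynomial (Fin n × Fin 3) ℂ))
    (fun i => e i • wt n (i, 2)) fun i _ => (isWeightedHomogeneous_X ℂ (wt n) (i, 2)).pow (e i)
  have h2 : ∑ i, e i • wt n (i, 2) = e := by
    funext l
    simp [wt, Finset.sum_apply, Pi.single_apply]
  rw [h2] at h
  exact h

theorem Zp_eval (e : Fin n → ℕ) (v : Fin n → Fin 3 → ℂ) :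
    eval (fun ij : Fin n × Fin 3 => v ij.1 ij.2) (Zp e) = ∏ i, v i 2 ^ e i := by
  simp [Zp]

/-- affine coordinates -/
noncomputable def aff (v : Fin 3 → ℂ) : Fin 2 → ℂ := fun j => v j.castSucc / v 2

theorem homog (F : MvPolynomial (Fin n × Fin 2) ℂ) :
    ∃ (G : MvPolynomial (Fin n × Fin 3) ℂ) (e : Fin n → ℕ), IsWeightedHomogeneous (wt n) G e ∧
      ∀ v : Fin n → Fin 3 → ℂ, (∀ i, v i 2 ≠ 0) →
        eval (fun ij : Fin n × Fin 3 => v ij.1 ij.2) G =
          (∏ i, v i 2 ^ e i) * eval (fun ij : Fin n × Fin 2 => aff (v ij.1) ij.2) F := by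
  induction F using MvPolynomial.induction_on with
  | C a => exact ⟨C a, 0, isWeightedHomogeneous_C _ a, fun v _ => by simp⟩
  | add a b ha hb =>
    obtain ⟨G, e, h1, h2⟩ := ha
    obtain ⟨G', e', h3, h4⟩ := hb
    refine ⟨G * Zp e' + G' * Zp e, e + e', (h1.mul (Zp_hom e')).add ?_, fun v hv => ?_⟩
    · rw [add_comm e e']
      exact h3.mul (Zp_hom e)
    · simp only [map_add, map_mul, h2 v hv, h4 v hv, Zp_eval, Pi.add_apply, pow_add,
        Finset.prod_mul_distrib]
      ring
  | mul_X a ij ha =>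
    obtain ⟨G, e, h1, h2⟩ := ha
    refine ⟨G * X (ij.1, ij.2.castSucc), e + wt n (ij.1, ij.2.castSucc),
      h1.mul (isWeightedHomogeneous_X ℂ _ _), fun v hv => ?_⟩
    have h3 : ∏ i, v i 2 ^ (wt n (ij.1, ij.2.castSucc) i) = v ij.1 2 := by
      simp [wt, Pi.single_apply, pow_ite]
    simp only [map_mul, h2 v hv, eval_X, Pi.add_apply, pow_add, Finset.prod_mul_distrib, h3, aff]
    have := hv ij.1
    field_simp

theorem eval_hom {F : MvPolynomial (Fin 3) ℂ} {k : ℕ} (hF : F.IsHomogeneous k) (u : Fin 3 → ℂ) :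
    aeval (fun i => C (u i) * X 2 : Fin 3 → MvPolynomial (Fin 3) ℂ) F = C (eval u F) * X 2 ^ k := by
  conv_lhs => rw [F.as_sum]
  conv_rhs => rw [F.as_sum]
  simp only [map_sum, Finset.sum_mul, aeval_monomial, eval_monomial, algebraMap_eq, map_mul]
  refine Finset.sum_congr rfl fun a ha => ?_
  have h1 : a 0 + a 1 + a 2 = k := by
    have := hF (mem_support_iff.mp ha)
    rw [← this, Finsupp.weight_apply, Finsupp.sum_fintype _ _ (by simp)]
    simp [Fin.sum_univ_three]
  rw [Finsupp.prod_fintype _ _ (by simp), Finsupp.prod_fintype _ _ (by simp), ← h1]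
  simp only [Fin.prod_univ_three, map_mul, map_pow, mul_pow, pow_add]
  ring

theorem eval_smul {F : MvPolynomial (Fin 3) ℂ} {k : ℕ} (hF : F.IsHomogeneous k) (c : ℂ)
    (u : Fin 3 → ℂ) : eval (fun i => c * u i) F = c ^ k * eval u F := by
  have h := congrArg (eval fun _ => c) (eval_hom hF u)
  rw [eval_aeval3] at h
  simp only [aeval_X, map_mul, eval_C, eval_X, map_pow] at h
  rw [mul_comm (c ^ k), ← h]
  congr 2
  funext i
  ring

theorem span_eq (v : Fin 3 → ℂ) (hz : v 2 ≠ 0) :
    Ideal.span {G : MvPolynomial (Fin 3) ℂ | (∃ k, G.IsHomogeneous k) ∧ eval v G = 0} =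
      H19.hid (aff v) := by
  apply le_antisymm
  · rw [Ideal.span_le]
    rintro G ⟨⟨k, hk⟩, h0⟩
    have e1 : (fun i => v 2 * hv (aff v) i) = v := by
      funext i
      fin_cases i <;> simp [hv, aff] <;> field_simp
    have h1 : eval (hv (aff v)) G = 0 := by
      have := eval_smul hk (v 2) (hv (aff v))
      rw [e1, h0] at this
      exact (mul_eq_zero.mp this.symm).resolve_left (pow_ne_zero _ hz)
    have h2 := eval_hom hk (hv (aff v))
    rw [h1, C_0, zero_mul] at h2
    have h3 : ∀ F : MvPolynomial (Fin 3) ℂ,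
        F - aeval (fun i => C (hv (aff v) i) * X 2 : Fin 3 → MvPolynomial (Fin 3) ℂ) F ∈
          H19.hid (aff v) := by
      intro F
      induction F using MvPolynomial.induction_on with
      | C a => simp
      | add a b ha hb =>
        rw [map_add]
        convert add_mem ha hb using 1
        ring
      | mul_X a i ha =>
        have h4 : (X i - C (hv (aff v) i) * X 2 : MvPolynomial (Fin 3) ℂ) ∈ H19.hid (aff v) := by
          fin_cases i
          · exact Ideal.subset_span (by simp [hv])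
          · exact Ideal.subset_span (by simp [hv])
          · simp [hv]
        rw [map_mul, aeval_X]
        convert add_mem (Ideal.mul_mem_right (C (hv (aff v) i) * X 2) _ ha)
          (Ideal.mul_mem_left _ a h4) using 1
        ring
    have := h3 G
    rwa [h2, sub_zero] at this
  · rw [H19.hid, Ideal.span_le]
    rintro G (rfl | rfl)
    · refine Ideal.subset_span ⟨⟨1, (isHomogeneous_X ℂ 0).sub
        ((isHomogeneous_X ℂ 2).C_mul _)⟩, ?_⟩
      simp [aff, hz]
    · refine Ideal.subset_span ⟨⟨1, (isHomogeneous_X ℂ 1).sub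
        ((isHomogeneous_X ℂ 2).C_mul _)⟩, ?_⟩
      simp [aff, hz]

theorem count (n m d : ℕ) :
    ((Nat.choose (d + 2) 2 - n * Nat.choose (m + 1) 2 : ℕ) : ℚ) =
      max 0 (((d : ℚ) + 1) * (d + 2) / 2 - n * ((m : ℚ) * (m + 1) / 2)) := by
  have h1 : ((Nat.choose (d + 2) 2 : ℕ) : ℚ) = ((d : ℚ) + 1) * (d + 2) / 2 := by
    rw [Nat.cast_choose_two]
    push_cast
    ring
  have h2 : ((Nat.choose (m + 1) 2 : ℕ) : ℚ) = (m : ℚ) * (m + 1) / 2 := by
    rw [Nat.cast_choose_two]
    push_cast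
    ring
  rw [← h1, ← h2]
  rcases le_total (Nat.choose (d + 2) 2) (n * Nat.choose (m + 1) 2) with h | h
  · rw [Nat.sub_eq_zero_of_le h, max_eq_left]
    · simp
    · have : ((Nat.choose (d + 2) 2 : ℕ) : ℚ) ≤ (n * Nat.choose (m + 1) 2 : ℕ) := by
        exact_mod_cast h
      push_cast at this
      linarith
  · rw [Nat.cast_sub h, max_eq_right]
    · push_cast
      ring
    · have : ((n * Nat.choose (m + 1) 2 : ℕ) : ℚ) ≤ (Nat.choose (d + 2) 2 : ℕ) := by
        exact_mod_cast h
      push_cast at this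
      linarith

theorem proj_of {m : ℕ} (h : Shgh n m) :
    ∃ (Φ : MvPolynomial (Fin n × Fin 3) ℂ) (e : Fin n → ℕ),
      IsWeightedHomogeneous (fun ij : Fin n × Fin 3 => (Pi.single ij.1 1 : Fin n → ℕ)) Φ e ∧
      (∃ p : Fin n → Projectivization ℂ (Fin 3 → ℂ),
        eval (fun ij : Fin n × Fin 3 => (p ij.1).rep ij.2) Φ ≠ 0) ∧
      ∀ p : Fin n → Projectivization ℂ (Fin 3 → ℂ),
        eval (fun ij : Fin n × Fin 3 => (p ij.1).rep ij.2) Φ ≠ 0 → ∀ d : ℕ,
          (finrank ℂ ↥(homogeneousSubmodule (Fin 3) ℂ d ⊓ Submodule.restrictScalars ℂ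
            (⨅ i : Fin n, Ideal.span {G : MvPolynomial (Fin 3) ℂ |
              (∃ k, G.IsHomogeneous k) ∧ eval (p i).rep G = 0} ^ m)) : ℚ) =
          max 0 (((d : ℚ) + 1) * (d + 2) / 2 - n * ((m : ℚ) * (m + 1) / 2)) := by
  obtain ⟨F, hF, hQ⟩ := h
  obtain ⟨G, e, h1, h2⟩ := homog F
  refine ⟨G * Zp fun _ => 1, e + fun _ => 1, h1.mul (Zp_hom _), ?_, fun p hp d => ?_⟩
  · obtain ⟨x, hx⟩ : ∃ x : Fin n × Fin 2 → ℂ, eval x F ≠ 0 := by
      by_contra hc
      push Not at hc
      exact hF (MvPolynomial.funext fun x => by rw [hc x, map_zero])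
    have hne : ∀ i : Fin n, hv (fun j => x (i, j)) ≠ 0 := fun i hi => by
      have := congrFun hi 2
      simp [hv] at this
    refine ⟨fun i => Projectivization.mk ℂ _ (hne i), ?_⟩
    choose c hc using fun i => Projectivization.exists_smul_eq_mk_rep ℂ _ (hne i)
    have hz : ∀ i, (Projectivization.mk ℂ _ (hne i)).rep 2 ≠ 0 := fun i => by
      rw [← hc i]
      simp [hv, Units.smul_def]
    have ha : (fun ij : Fin n × Fin 2 => aff (Projectivization.mk ℂ _ (hne ij.1)).rep ij.2) = x := by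
      funext ⟨i, j⟩
      have := (c i).ne_zero
      simp only [aff, ← hc i]
      fin_cases j <;> simp [hv, Units.smul_def]
    rw [map_mul, h2 (fun i => (Projectivization.mk ℂ _ (hne i)).rep) hz,
      Zp_eval _ fun i => (Projectivization.mk ℂ _ (hne i)).rep, ha]
    exact mul_ne_zero (mul_ne_zero (Finset.prod_ne_zero_iff.mpr fun i _ => pow_ne_zero _ (hz i)) hx)
      (Finset.prod_ne_zero_iff.mpr fun i _ => pow_ne_zero _ (hz i))
  · rw [map_mul, Zp_eval _ fun i => (p i).rep] at hp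
    have hz : ∀ i, (p i).rep 2 ≠ 0 := fun i => by
      have := Finset.prod_ne_zero_iff.mp (right_ne_zero_of_mul hp) i (Finset.mem_univ i)
      rwa [pow_one] at this
    have h3 := left_ne_zero_of_mul hp
    rw [h2 (fun i => (p i).rep) hz] at h3
    have h4 := hQ (fun i => aff (p i).rep) (right_ne_zero_of_mul h3) d
    have h5 : (⨅ i : Fin n, Ideal.span {G : MvPolynomial (Fin 3) ℂ |
        (∃ k, G.IsHomogeneous k) ∧ eval (p i).rep G = 0} ^ m) =
        ⨅ i : Fin n, H19.hid (aff (p i).rep) ^ m :=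
      iInf_congr fun i => by rw [span_eq (p i).rep (hz i)]
    rw [← count, ← h4, h5]

end Pool.Agent.Lib.MP_d03834_ag.Core.Proj
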