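import Pool.Agent.Lib.MP_d03834_ag.Core.ShLat

/-! The start state for twelve points: characters whose order is one multiplicity. -/

set_option autoImplicit false

namespace Pool.Agent.Lib.MP_d03834_ag.Core.S12

/-- the twelve lines with one multiplicity zero -/
theorem ln12 {n J c0 c1 x0 x1 x2 x3 : ℤ} (h1 : x0 + x1 + x2 + x3 = 2 * J) (h2 : c0 + c1 = n - 1)
    (h3 : n * J + J * n - n * n - (x0 * x0 + x1 * x1 + x2 * x2 + x3 * x3) -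
      (c0 * c0 + c1 * c1) = -1) :
    (n, J, c0, x0, x1, x2) ∈ [((1 : ℤ), (0 : ℤ), (0 : ℤ), (0 : ℤ), (0 : ℤ), (0 : ℤ)),
      (1, 2, 0, 1, 1, 1), (0, 0, -1, 0, 0, 0), (0, 0, 0, 0, 0, 0), (2, 2, 1, 1, 1, 1),
      (2, 2, 0, 1, 1, 1), (1, 1, 0, 1, 1, 0), (1, 1, 0, 1, 0, 1), (1, 1, 0, 1, 0, 0),
      (1, 1, 0, 0, 1, 1), (1, 1, 0, 0, 1, 0), (1, 1, 0, 0, 0, 1)] := by
  obtain rfl : x3 = 2 * J - x0 - x1 - x2 := by omega
  obtain rfl : c1 = n - 1 - c0 := by omega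
  have key : 4 * (J - n) ^ 2 + (2 * x0 - J) ^ 2 + (2 * x1 - J) ^ 2 + (2 * x2 - J) ^ 2 +
      (2 * (2 * J - x0 - x1 - x2) - J) ^ 2 + 2 * (n - 1) ^ 2 + 2 * (2 * c0 - n + 1) ^ 2 = 4 := by
    linear_combination (-4) * h3
  have k0 := sq_nonneg (J - n)
  have k1 := sq_nonneg (2 * x0 - J)
  have k2 := sq_nonneg (2 * x1 - J)
  have k3 := sq_nonneg (2 * x2 - J)
  have k4 := sq_nonneg (2 * (2 * J - x0 - x1 - x2) - J)
  have k5 := sq_nonneg (n - 1)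
  have k6 := sq_nonneg (2 * c0 - n + 1)
  have b : ∀ {a : ℤ}, a ^ 2 ≤ 4 → -2 ≤ a ∧ a ≤ 2 := fun h => by constructor <;> nlinarith
  have b' : ∀ {a : ℤ}, a ^ 2 ≤ 3 → -1 ≤ a ∧ a ≤ 1 := fun h => by constructor <;> nlinarith
  have l0 := b' (a := J - n) (by omega)
  have l1 := b (a := 2 * x0 - J) (by omega)
  have l2 := b (a := 2 * x1 - J) (by omega)
  have l3 := b (a := 2 * x2 - J) (by omega)
  have l5 := b' (a := n - 1) (by omega)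
  have l6 := b' (a := 2 * c0 - n + 1) (by omega)
  have all : ∀ n ∈ [(0 : ℤ), 1, 2], ∀ J ∈ [(-1 : ℤ), 0, 1, 2, 3], ∀ c0 ∈ [(-1 : ℤ), 0, 1],
      ∀ x0 ∈ [(-1 : ℤ), 0, 1, 2], ∀ x1 ∈ [(-1 : ℤ), 0, 1, 2], ∀ x2 ∈ [(-1 : ℤ), 0, 1, 2],
      4 * (J - n) ^ 2 + (2 * x0 - J) ^ 2 + (2 * x1 - J) ^ 2 + (2 * x2 - J) ^ 2 +
      (2 * (2 * J - x0 - x1 - x2) - J) ^ 2 + 2 * (n - 1) ^ 2 + 2 * (2 * c0 - n + 1) ^ 2 = 4 →
      (n, J, c0, x0, x1, x2) ∈ [((1 : ℤ), (0 : ℤ), (0 : ℤ), (0 : ℤ), (0 : ℤ), (0 : ℤ)),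
      (1, 2, 0, 1, 1, 1), (0, 0, -1, 0, 0, 0), (0, 0, 0, 0, 0, 0), (2, 2, 1, 1, 1, 1),
      (2, 2, 0, 1, 1, 1), (1, 1, 0, 1, 1, 0), (1, 1, 0, 1, 0, 1), (1, 1, 0, 1, 0, 0),
      (1, 1, 0, 0, 1, 1), (1, 1, 0, 0, 1, 0), (1, 1, 0, 0, 0, 1)] := by decide +kernel
  refine all n ?_ J ?_ c0 ?_ x0 ?_ x1 ?_ x2 ?_ key <;>
    simp only [List.mem_cons, List.not_mem_nil, or_false] <;> omega

/-- a class which is non negative on the twelve lines -/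
theorem pos12 {n J c0 c1 x0 x1 x2 x3 N I d0 d1 y0 y1 y2 y3 y : ℤ}
    (h1 : x0 + x1 + x2 + x3 = 2 * J) (h2 : c0 + c1 = n - 1)
    (h3 : n * J + J * n - n * n - (x0 * x0 + x1 * x1 + x2 * x2 + x3 * x3) -
      (c0 * c0 + c1 * c1) = -1) (hM : y0 + y1 + y2 + y3 + y = 2 * I) (a1 : N ≤ I)
    (a2 : I - N ≤ y) (a3 : 0 ≤ d0 ∧ d0 ≤ y) (a4 : 0 ≤ d1 ∧ d1 ≤ y)
    (a5 : y0 + y1 ≤ I ∧ y0 + y2 ≤ I ∧ y0 + y3 ≤ I ∧ y1 + y2 ≤ I ∧ y1 + y3 ≤ I ∧ y2 + y3 ≤ I) :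
    0 ≤ N * J + I * n - N * n - (y0 * x0 + y1 * x1 + y2 * x2 + y3 * x3) - (d0 * c0 + d1 * c1) := by
  have h := ln12 h1 h2 h3
  obtain rfl : x3 = 2 * J - x0 - x1 - x2 := by omega
  obtain rfl : c1 = n - 1 - c0 := by omega
  simp only [List.mem_cons, List.not_mem_nil, or_false, Prod.mk.injEq] at h
  rcases h with h | h | h | h | h | h | h | h | h | h | h | h <;>
    obtain ⟨rfl, rfl, rfl, rfl, rfl, rfl⟩ := h <;> omega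

/-- the four positive roots in the kernel -/
theorem rt4 {n J x0 x1 : ℤ} (h3 : n * J + J * n - n * n -
      (x0 * x0 + x1 * x1 + (J - x1) * (J - x1) + (J - x0) * (J - x0)) - n * n = -2)
    (h4 : Even (n + x0 + x1)) :
    (n, J, x0, x1) ∈ [((0 : ℤ), (1 : ℤ), (1 : ℤ), (1 : ℤ)), (0, 1, 0, 0), (1, 1, 1, 0),
      (1, 1, 0, 1), (0, -1, -1, -1), (0, -1, 0, 0), (-1, -1, -1, 0), (-1, -1, 0, -1)] := by
  have key : 2 * n ^ 2 + 2 * (J - n) ^ 2 + (2 * x0 - J) ^ 2 + (2 * x1 - J) ^ 2 = 4 := by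
    linear_combination (-2) * h3
  have k0 := sq_nonneg (J - n)
  have k1 := sq_nonneg (2 * x0 - J)
  have k2 := sq_nonneg (2 * x1 - J)
  have k5 := sq_nonneg n
  have b : ∀ {a : ℤ}, a ^ 2 ≤ 4 → -2 ≤ a ∧ a ≤ 2 := fun h => by constructor <;> nlinarith
  have b' : ∀ {a : ℤ}, a ^ 2 ≤ 3 → -1 ≤ a ∧ a ≤ 1 := fun h => by constructor <;> nlinarith
  have l0 := b' (a := J - n) (by omega)
  have l1 := b (a := 2 * x0 - J) (by omega)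
  have l2 := b (a := 2 * x1 - J) (by omega)
  have l5 := b' (a := n) (by omega)
  have all : ∀ n ∈ [(-1 : ℤ), 0, 1], ∀ J ∈ [(-2 : ℤ), -1, 0, 1, 2],
      ∀ x0 ∈ [(-2 : ℤ), -1, 0, 1, 2], ∀ x1 ∈ [(-2 : ℤ), -1, 0, 1, 2],
      2 * n ^ 2 + 2 * (J - n) ^ 2 + (2 * x0 - J) ^ 2 + (2 * x1 - J) ^ 2 = 4 →
      (n + x0 + x1) % 2 = 0 →
      (n, J, x0, x1) ∈ [((0 : ℤ), (1 : ℤ), (1 : ℤ), (1 : ℤ)), (0, 1, 0, 0), (1, 1, 1, 0),
      (1, 1, 0, 1), (0, -1, -1, -1), (0, -1, 0, 0), (-1, -1, -1, 0), (-1, -1, 0, -1)] := by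
    decide +kernel
  refine all n ?_ J ?_ x0 ?_ x1 ?_ key (Int.even_iff.1 h4) <;>
    simp only [List.mem_cons, List.not_mem_nil, or_false] <;> omega

/-- the sign of a root in the kernel -/
theorem rt12 {n J x0 x1 N I d0 y0 y1 y2 y3 : ℤ} (h3 : n * J + J * n - n * n -
      (x0 * x0 + x1 * x1 + (J - x1) * (J - x1) + (J - x0) * (J - x0)) - n * n = -2)
    (h4 : Even (n + x0 + x1)) (a1 : y0 + y1 ≤ N) (a2 : y2 + y3 ≤ N) (a3 : y0 + y2 + d0 ≤ I)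
    (a4 : y1 + y3 + d0 ≤ I) (h : 0 < N * J + I * n - N * n -
      (y0 * x0 + y1 * x1 + y2 * (J - x1) + y3 * (J - x0)) - d0 * n) : 0 ≤ n + J := by
  have h := rt4 h3 h4
  simp only [List.mem_cons, List.not_mem_nil, or_false, Prod.mk.injEq] at h
  rcases h with h | h | h | h | h | h | h | h <;> obtain ⟨rfl, rfl, rfl, rfl⟩ := h <;> omega

theorem ker23 {x y z : ℤ} (h : (-1 : ℚ) ^ z * (1 / 2) ^ x * 3 ^ y = 1) :
    x = 0 ∧ y = 0 ∧ Even z := by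
  have : Fact (Nat.Prime 2) := ⟨Nat.prime_two⟩
  have : Fact (Nat.Prime 3) := ⟨Nat.prime_three⟩
  have hz : ((-1 : ℚ) ^ z) ^ 2 = 1 := by
    rw [← zpow_natCast, ← zpow_mul, mul_comm, zpow_mul]
    simp
  have h1 : ((3 : ℕ) : ℚ) ^ (y * 2) = ((2 : ℕ) : ℚ) ^ (x * 2) := by
    have h2 : ((-1 : ℚ) ^ z * (1 / 2) ^ x * 3 ^ y) ^ 2 = 1 := by rw [h, one_pow]
    rw [mul_pow, mul_pow, hz, one_mul, one_div, inv_zpow, inv_pow,
      inv_mul_eq_one₀ (by positivity)] at h2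
    rw [zpow_mul, zpow_mul]
    exact_mod_cast h2.symm
  have e2 := congrArg (padicValRat 2) h1
  have e3 := congrArg (padicValRat 3) h1
  rw [padicValRat.zpow, padicValRat.zpow, padicValRat.of_nat, padicValRat.of_nat,
    padicValNat_self, padicValNat_primes (by decide)] at e2 e3
  obtain rfl : x = 0 := by omega
  obtain rfl : y = 0 := by omega
  refine ⟨rfl, rfl, Int.not_odd_iff_even.1 fun ho => ?_⟩
  rw [ho.neg_one_zpow] at h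
  norm_num at h

variable {k Γ : Type} [Field k] [LinearOrderedCommGroupWithZero Γ]

/-- the inequalities for the class -/
structure Ok (u : CL) : Prop where
  M : u ∈ cD.M
  nJ : u.1.1 ≤ u.1.2
  Jm : u.1.2 - u.1.1 ≤ u.2.1 2
  c0 : 0 ≤ u.2.2 0 ∧ u.2.2 0 ≤ u.2.1 2
  c1 : 0 ≤ u.2.2 1 ∧ u.2.2 1 ≤ u.2.1 2
  t0 : u.2.1 0 + u.2.1 1 ≤ u.1.1
  t1 : u.2.1 3 + u.2.1 4 ≤ u.1.1
  t2 : u.2.1 0 + u.2.1 3 + u.2.2 0 ≤ u.1.2
  t3 : u.2.1 1 + u.2.1 4 + u.2.2 0 ≤ u.1.2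
  d0 : u.2.1 0 + u.2.1 4 ≤ u.1.2
  d1 : u.2.1 1 + u.2.1 3 ≤ u.1.2

theorem line_eq {g : CL} (hg : g ∈ cD.lat.Λ) : ∑ i, g.2.1 i = 2 * g.1.2 ∧
    g.2.2 0 + g.2.2 1 = g.1.1 - 1 ∧ cip g g = -1 := by
  obtain ⟨h1, h2, h3⟩ := hg
  have h4 : ∑ i, g.2.1 i = 2 * g.1.2 := h3
  refine ⟨h4, ?_, h1⟩
  change cip g ((4, 5), fun _ => 2, fun _ => 1) = 1 at h2
  simp only [cip, Fin.sum_univ_five, Fin.sum_univ_two] at h2 h4
  omega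

theorem root_eq {g : CL} (hg : g ∈ cD.lat.Φ) : ∑ i, g.2.1 i = 2 * g.1.2 ∧
    g.2.2 0 + g.2.2 1 = g.1.1 ∧ cip g g = -2 := by
  obtain ⟨h1, h2, h3⟩ := hg
  have h4 : ∑ i, g.2.1 i = 2 * g.1.2 := h3
  refine ⟨h4, ?_, h1⟩
  change cip g ((4, 5), fun _ => 2, fun _ => 1) = 0 at h2
  simp only [cip, Fin.sum_univ_five, Fin.sum_univ_two] at h2 h4
  omega

/-- the multiplicity of a line at a free point is not negative -/
theorem m2_nonneg {g : CL} (hg : g ∈ cD.lat.Λ) : 0 ≤ g.2.1 2 := by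
  let w : CL := ((1, 2), ![1, 1, 0, 1, 1], 0)
  have hw : w ∈ cD.lat.Λ := by decide
  by_cases h1 : g = e5
  · rw [h1]
    exact le_rfl
  by_cases h2 : g = w
  · rw [h2]
    exact le_rfl
  have a := cD.lat.nonneg g hg _ e5_line h1
  have b := cD.lat.nonneg g hg _ hw h2
  have c := (line_eq hg).1
  rw [DP.lat_ip, cD_ip] at a b
  rw [cip_e5] at a
  simp [cip, w, Fin.sum_univ_five] at b
  rw [Fin.sum_univ_five] at c
  omega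

/-- Characters with rational constants whose order is the multiplicity at the free point. -/
theorem start_q [CharZero k] (v : Valuation k Γ) (hv : ∀ x : ℚ, x ≠ 0 → v (x : k) = 1) {s : k}
    (s0 : s ≠ 0) (s1 : v s < 1) (ρ : CL → ℚ) (hρ : ∀ u, ρ u ≠ 0) {χ : CL → k}
    (hχ : ∀ u, χ u = (ρ u : k) * s ^ u.2.1 2) :
    (∀ g ∈ cD.lat.Λ, v (χ g) ≤ 1) ∧ (∀ g ∈ cD.lat.Λ, ¬Lat.Bk (Invo.one v) (χ g)) ∧
      (∀ g, v (χ g) = 1 → g.2.1 2 = 0) ∧ ∀ g, χ g = 1 → g.2.1 2 = 0 ∧ ρ g = 1 := by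
  have p0 : 0 < v s := by rwa [zero_lt_iff, Valuation.ne_zero_iff]
  have e : ∀ u, v (χ u) = v s ^ u.2.1 2 := fun u => by
    rw [hχ, map_mul, hv _ (hρ u), one_mul, map_zpow₀]
  have z : ∀ g, v (χ g) = 1 → g.2.1 2 = 0 := fun g h => by
    rw [e] at h
    rcases lt_trichotomy (g.2.1 2) 0 with h1 | h1 | h1
    · exact absurd h (one_lt_zpow_of_neg₀ p0 s1 h1).ne'
    · exact h1
    · exact absurd h (zpow_lt_one₀ p0 s1 h1).ne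
  refine ⟨fun g hg => ?_, fun g _ h => ?_, z, fun g h => ?_⟩
  · rw [e]
    exact zpow_le_one₀ p0 s1.le (m2_nonneg hg)
  · obtain ⟨h1, h2, h3, -⟩ := h
    have h4 : (Invo.one v).ι (χ g) = ((1 - ρ g : ℚ) : k) := by
      change 1 - χ g = _
      rw [hχ, z g h1, zpow_zero, mul_one]
      push_cast
      rfl
    rw [h4] at h2 h3
    exact h3.ne (hv _ fun e => h2 (by rw [e, Rat.cast_zero]))
  · have h1 := z g (by rw [h, map_one])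
    rw [hχ, h1, zpow_zero, mul_one] at h
    exact ⟨h1, by exact_mod_cast h⟩

theorem Ok.line {u g : CL} (h : Ok u) (hg : g ∈ cD.lat.Λ) (h0 : g.2.1 2 = 0) : 0 ≤ cip u g := by
  obtain ⟨h1, h2, h3⟩ := line_eq hg
  have hM : ∑ i, u.2.1 i = 2 * u.1.2 := h.M
  obtain ⟨-, a1, a2, a3, a4, a5, a6, a7, a8, a9, a10⟩ := h
  simp only [cip, Fin.sum_univ_five, Fin.sum_univ_two, h0, mul_zero, add_zero] at h1 h3 hM ⊢
  exact pos12 (y := u.2.1 2) h1 h2 h3 (by omega) a1 a2 a3 a4 (by omega)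

/-- The start state for twelve points. -/
theorem start [CharZero k] (v : Valuation k Γ) (hv : ∀ x : ℚ, x ≠ 0 → v (x : k) = 1) {r a b : k}
    (hr : r = 1 / 2) (ha : a = 3) (b0 : b ≠ 0) (b1 : v b < 1) {χ : CL → k}
    (hχ : ∀ u, χ u = (-1) ^ (u.1.1 + u.2.1 0 + u.2.1 1) * r ^ (u.1.1 - u.2.2 0) *
      a ^ (u.2.1 1 + u.2.1 3 - u.1.2) * b ^ u.2.1 2) :
    (∀ g ∈ cD.lat.Λ, v (χ g) ≤ 1) ∧ (∀ g ∈ cD.lat.Λ, ¬Lat.Bk (Invo.one v) (χ g)) ∧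
      ∀ u, Ok u → cD.lat.Pos (Invo.one v) χ u ∧
        ∀ α ∈ cD.lat.Φ, χ α = 1 → 0 < cip u α → 0 ≤ cip hC α := by
  obtain ⟨h1, h2, h3, h4⟩ := start_q v hv b0 b1
    (fun u => (-1) ^ (u.1.1 + u.2.1 0 + u.2.1 1) * (1 / 2) ^ (u.1.1 - u.2.2 0) *
      3 ^ (u.2.1 1 + u.2.1 3 - u.1.2)) (fun u => by positivity) (χ := χ) fun u => by
        rw [hχ, hr, ha]
        push_cast
        rfl
  refine ⟨h1, h2, fun u hu => ⟨fun g hg e => hu.line hg (h3 g e), fun α hα e h => ?_⟩⟩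
  obtain ⟨e0, e1⟩ := h4 α e
  obtain ⟨e2, e3, e4⟩ := ker23 e1
  obtain ⟨f1, f2, f3⟩ := root_eq hα
  rw [show cip hC α = cip α hC from cD.symm _ _, cip_hC]
  simp only [cip, Fin.sum_univ_five, Fin.sum_univ_two, e0, mul_zero, add_zero] at f1 f3 h
  have g0 : α.2.2 0 = α.1.1 := by omega
  have g1 : α.2.2 1 = 0 := by omega
  have g3 : α.2.1 3 = α.1.2 - α.2.1 1 := by omega
  have g4 : α.2.1 4 = α.1.2 - α.2.1 0 := by omega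
  rw [g0, g1, g3, g4, mul_zero, add_zero] at f3 h
  exact rt12 f3 e4 hu.t0 hu.t1 hu.t2 hu.t3 h

end Pool.Agent.Lib.MP_d03834_ag.Core.S12
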