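import Pool.Agent.Lib.MP_d03834_ag.Core.S14
import Pool.Agent.Lib.MP_d03834_ag.Core.TwoSh
import Pool.Agent.Lib.MP_d03834_ag.Core.ShStep

/-! From the four fibre chart for fourteen points to the start configuration: three shears. -/

set_option autoImplicit false

namespace Pool.Agent.Lib.MP_d03834_ag.Core

open Module

variable {K : Type} [Field K]

theorem s14_sh {ι : Type} [DecidableEq ι] {p p' q : ℤ} {m m' : ι → ℤ} {P P' : ι → Fin 4 → K}
    {i j : ι} (hP : ∀ l, Pt (P l)) (hP' : ∀ l, Pt (P' l)) (hy : dy (P i) (P j) ≠ 0)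
    (hy' : dy (P' i) (P' j) ≠ 0) (hx : dx (P i) (P j) ≠ 0) (hv : ∀ l, dx (P l) (P' l) = 0)
    (ho : ∀ l, l ≠ i → l ≠ j → dx (P i) (P' l) ≠ 0 ∧ dx (P j) (P' l) ≠ 0 ∧
      dy (P l) (P j) * dx (P i) (P' l) * dy (P' j) (P' l) =
        dy (P l) (P i) * dx (P j) (P' l) * dy (P' i) (P' l))
    (hp : p' = p + q - m i - m j) (mi : m' i ≤ q - m i) (mj : m' j ≤ q - m j)
    (ml : ∀ l, l ≠ i → l ≠ j → m' l ≤ m l) :
    finrank K (H0 p q P m) ≤ finrank K (H0 p' q P' m') := by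
  subst hp
  refine (shear' hP hP' hy hy' hx hv ho).trans
    (Submodule.finrank_mono (H0_le fun l => Or.inr ⟨l, ?_, hP' l, dx_self _, dy_self _⟩))
  by_cases h1 : l = i
  · simpa [h1] using mi
  by_cases h2 : l = j
  · simpa [h2] using mj
  simpa [h1, h2] using ml l h1 h2

/-- the numerator of the last point -/
def s14N (T U : K) : K := U * T ^ 2 - 10 * U * T + U + 15 * T

/-- the start frame -/
def s14S (σ t T U : K) : Ix → Fin 4 → K :=
  grP (s14z K) (fun i => σ * ((s14z K i)⁻¹ + s14z K i - T)) ![0, T] ![T, U] t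

/-- the first intermediate frame -/
def s14G1 (σ T U : K) : Ix → Fin 4 → K
  | .inl i => ![![2, 1, 1, 0], ![1, 2, 0, 1], ![8, 1, 15, 2], ![1, 8, -3, 8],
      ![512, 1, 1023, 2]] i
  | .inr (.inl s) => ![![0, 1, 0, σ], ![T, 1, 1, 0]] s
  | .inr (.inr s) => ![![T, 1, 2 * T - 1, 2],
      ![U, 1, U * (T - 2) * (2 * T - 1), 2 * T * (U - 2)]] s

/-- the second intermediate frame -/
def s14G2 (T U : K) : Ix → Fin 4 → K
  | .inl i => ![![T - 2, 6, 1, 0], ![1, 1, 0, 1], ![-1, 0, 2 * T - 1, 2], ![1, 1, -3, 8],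
      ![1, 1, 1023, 2]] i
  | .inr (.inl s) => ![![15 * T, 8 * (2 * T - 1), 0, 1], ![0, 1, 1, 0]] s
  | .inr (.inr s) => ![![0, 1, 15, 2],
      ![-s14N T U, (U - 8) * (2 * T - 1), U * (T - 2) * (2 * T - 1), 2 * T * (U - 2)]] s

/-- the four fibre chart -/
def s14F (T U : K) : Ix → Fin 4 → K
  | .inl i => ![![T - 2, 6, 0, 3], ![1, 1, 0, 1], ![-1, 0, 1, 1], ![1, 1, 1, 1],
      ![1, 1, -1364, 1]] i
  | .inr (.inl s) => ![![15 * T, 8 * (2 * T - 1), 8, 0], ![0, 1, 1, 0]] s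
  | .inr (.inr s) => ![![0, 1, 4 * (T - 2), 3 * T],
      ![-s14N T U, (U - 8) * (2 * T - 1), 4 * (T - 2), 3 * T]] s

/-- the conditions on the two parameters -/
structure S14N (T U : K) : Prop where
  T0 : T ≠ 0
  U0 : U ≠ 0
  UT : U - T ≠ 0
  T2 : T - 2 ≠ 0
  Th : 2 * T - 1 ≠ 0
  T8 : T - 8 ≠ 0
  Te : 8 * T - 1 ≠ 0
  Tz : T - 512 ≠ 0
  Tw : 512 * T - 1 ≠ 0
  U2 : U - 2 ≠ 0
  U8 : U - 8 ≠ 0
  U1 : U * T - 1 ≠ 0
  N0 : s14N T U ≠ 0

variable [CharZero K] {σ t T U : K}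

theorem s14G1_pt (h : S14N T U) (hσ : σ ≠ 0) : ∀ l, Pt (s14G1 σ T U l) := by
  refine ix_all ?_ ?_ ?_ ?_ ?_ ?_ ?_ ?_ ?_ <;> simp [s14G1, Pt, hσ, h.T0, h.U2]

theorem s14G2_pt (h : S14N T U) : ∀ l, Pt (s14G2 T U l) := by
  refine ix_all ?_ ?_ ?_ ?_ ?_ ?_ ?_ ?_ ?_ <;> simp [s14G2, Pt, h.T0, h.U2, h.N0]

theorem s14F_pt (h : S14N T U) : ∀ l, Pt (s14F T U l) := by
  refine ix_all ?_ ?_ ?_ ?_ ?_ ?_ ?_ ?_ ?_ <;> simp [s14F, Pt, h.T0, h.N0]

omit [CharZero K] in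
theorem s14_ne {a b c : K} (hb : b ≠ 0) (hc : c ≠ 0) (e : a = c * b) : a ≠ 0 :=
  e ▸ mul_ne_zero hc hb

theorem s14_one (h : S14N T U) (hσ : σ ≠ 0) (hT : T = σ * t) {p p' q : ℤ} {m m' : Ix → ℤ}
    (hp : p' = p + q - m (.inr (.inl 0)) - m (.inl 0))
    (mi : m' (.inr (.inl 0)) ≤ q - m (.inr (.inl 0))) (mj : m' (.inl 0) ≤ q - m (.inl 0))
    (ml : ∀ l, l ≠ .inr (.inl 0) → l ≠ .inl 0 → m' l ≤ m l) :
    finrank K (H0 p q (s14G1 σ T U) m) ≤ finrank K (H0 p' q (s14S σ t T U) m') := by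
  refine s14_sh (s14G1_pt h hσ) (grP_pt _ _ _ _ _) (by simpa [s14G1, dy]) (by simp [s14S, grP, dy])
    (by simp [s14G1, dx]) ?_ ?_ hp mi mj ml
  · refine ix_all ?_ ?_ ?_ ?_ ?_ ?_ ?_ ?_ ?_ <;> simp [s14G1, s14S, grP, s14z, dx]
  · refine ix_all (fun _ h => absurd rfl h) ?_ ?_ ?_ ?_ (fun h => absurd rfl h) ?_ ?_ ?_ <;>
      intro _ _ <;>
      simp only [s14G1, s14S, grP, s14z, dx, dy, Matrix.cons_val_zero, Matrix.cons_val_one,
        Matrix.cons_val, mul_one, one_mul, mul_zero, zero_mul, sub_zero, zero_sub, inv_inv]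
    · exact ⟨by norm_num, by norm_num, by ring⟩
    · exact ⟨by norm_num, by norm_num, by ring⟩
    · exact ⟨by norm_num, by norm_num, by ring⟩
    · exact ⟨by norm_num, by norm_num, by ring⟩
    · exact ⟨h.T0, h.T2, trivial⟩
    · exact ⟨h.T0, h.T2, by subst hT; ring⟩
    · exact ⟨h.U0, h.U2, by subst hT; ring⟩

theorem s14_two (h : S14N T U) (hσ : σ ≠ 0) {p q q' : ℤ} {m m' : Ix → ℤ}
    (hq : q' = q + p - m (.inr (.inr 0)) - m (.inl 2))
    (mi : m' (.inr (.inr 0)) ≤ p - m (.inl 2)) (mj : m' (.inl 2) ≤ p - m (.inr (.inr 0)))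
    (ml : ∀ l, l ≠ .inr (.inr 0) → l ≠ .inl 2 → m' l ≤ m l) :
    finrank K (H0 p q (s14G2 T U) m) ≤ finrank K (H0 p q' (s14G1 σ T U) m') := by
  refine shearS (s14G2_pt h) (s14G1_pt h hσ) (by simp [s14G2, dx])
    (by simpa [s14G1, dx] using h.T8) ?_ (by simp [s14G2, s14G1, dy, mul_comm])
    (by simp [s14G2, s14G1, dy, mul_comm]) ?_ hq mi mj ml
  · refine s14_ne h.T8 (c := 4) (by norm_num) ?_
    simp [s14G2, dy]
    ring
  · refine ix_all ?_ ?_ (fun _ h => absurd rfl h) ?_ ?_ ?_ ?_ (fun h => absurd rfl h) ?_ <;>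
      intro _ _ <;>
      simp only [s14G1, s14G2, s14N, dx, dy, Matrix.cons_val_zero, Matrix.cons_val_one,
        Matrix.cons_val, mul_one, one_mul, mul_zero, zero_mul, sub_zero, zero_sub]
    · exact ⟨trivial, by norm_num, by norm_num, by ring⟩
    · exact ⟨trivial, by norm_num, neg_ne_zero.2 h.Th, by ring⟩
    · exact ⟨by ring, by norm_num, s14_ne h.Te (c := -2) (by norm_num) (by ring), by ring⟩
    · exact ⟨by ring, by norm_num, s14_ne h.Tz (c := -4) (by norm_num) (by ring), by ring⟩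
    · exact ⟨trivial, s14_ne hσ (c := -15) (by norm_num) (by ring),
        s14_ne hσ (neg_ne_zero.2 h.Th) (by ring), by ring⟩
    · exact ⟨trivial, by norm_num, by norm_num, by ring⟩
    · exact ⟨by ring, s14_ne h.N0 (c := 4) (by norm_num) (by rw [s14N]; ring),
        s14_ne (mul_ne_zero h.Th h.UT) (c := -4) (by norm_num) (by ring),
        by ring⟩

theorem s14_three (h : S14N T U) {p p' q : ℤ} {m m' : Ix → ℤ}
    (hp : p' = p + q - m (.inr (.inl 0)) - m (.inl 0))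
    (mi : m' (.inr (.inl 0)) ≤ q - m (.inr (.inl 0))) (mj : m' (.inl 0) ≤ q - m (.inl 0))
    (ml : ∀ l, l ≠ .inr (.inl 0) → l ≠ .inl 0 → m' l ≤ m l) :
    finrank K (H0 p q (s14F T U) m) ≤ finrank K (H0 p' q (s14G2 T U) m') := by
  refine s14_sh (s14F_pt h) (s14G2_pt h) (by simp [s14F, dy]) (by simp [s14G2, dy]) ?_ ?_ ?_
    hp mi mj ml
  · refine s14_ne (mul_ne_zero h.Te h.T8) (c := 2) (by norm_num) ?_
    simp [s14F, dx]
    ring
  · refine ix_all ?_ ?_ ?_ ?_ ?_ ?_ ?_ ?_ ?_ <;> simp [s14F, s14G2, dx, mul_comm]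
  · refine ix_all (fun _ h => absurd rfl h) ?_ ?_ ?_ ?_ (fun h => absurd rfl h) ?_ ?_ ?_ <;>
      intro _ _ <;>
      simp only [s14F, s14G2, s14N, dx, dy, Matrix.cons_val_zero, Matrix.cons_val_one,
        Matrix.cons_val, mul_one, one_mul, mul_zero, zero_mul, sub_zero, zero_sub]
    · exact ⟨s14_ne h.T8 one_ne_zero (by ring), s14_ne h.T8 (c := -1) (by norm_num) (by ring),
        by simp⟩
    · exact ⟨s14_ne h.Th (c := -8) (by norm_num) (by ring), by norm_num, by ring⟩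
    · exact ⟨s14_ne h.T8 one_ne_zero (by ring), s14_ne h.T8 (c := -1) (by norm_num) (by ring),
        by ring⟩
    · exact ⟨s14_ne h.T8 one_ne_zero (by ring), s14_ne h.T8 (c := -1) (by norm_num) (by ring),
        by ring⟩
    · exact ⟨s14_ne h.T0 (c := -15) (by norm_num) (by ring),
        s14_ne h.T2 (c := -1) (by norm_num) (by ring), by simp⟩
    · exact ⟨s14_ne h.T0 (c := -15) (by norm_num) (by ring),
        s14_ne h.T2 (c := -1) (by norm_num) (by ring), by ring⟩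
    · exact ⟨s14_ne (mul_ne_zero (mul_ne_zero h.Th h.Te) h.T8) (neg_ne_zero.2 h.U0) (by ring),
        s14_ne (mul_ne_zero h.Te h.T8) (neg_ne_zero.2 h.U2) (by ring), by ring⟩

/-- the degree of the reflection -/
def s14d (p q : ℤ) (m : Ix → ℤ) : ℤ :=
  p + q - m (.inr (.inl 0)) - m (.inr (.inr 0)) - m (.inl 0) - m (.inl 2)

/-- the multiplicities after the reflection -/
def s14m (p q : ℤ) (m : Ix → ℤ) (l : Ix) : ℤ :=
  if l = .inr (.inl 0) ∨ l = .inr (.inr 0) ∨ l = .inl 0 ∨ l = .inl 2 then m l + s14d p q m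
  else m l

/-- the three shears -/
theorem s14_word (h : S14N T U) (hσ : σ ≠ 0) (hT : T = σ * t) (p q : ℤ) (m : Ix → ℤ) :
    finrank K (H0 p q (s14F T U) m) ≤
      finrank K (H0 (p + s14d p q m) (q + s14d p q m) (s14S σ t T U) (s14m p q m)) := by
  refine (s14_three h (m' := fun l => if l = .inr (.inl 0) ∨ l = .inl 0 then q - m l else m l)
    rfl (by simp) (by simp) fun l h1 h2 => by simp [h1, h2]).trans ?_
  refine (s14_two h hσ (q' := q + s14d p q m) (m' := fun l =>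
    if l = .inr (.inl 0) ∨ l = .inl 0 then q - m l else s14m p q m l) ?_ ?_ ?_
      fun l h1 h2 => ?_).trans (s14_one h hσ hT ?_ ?_ ?_ fun l h1 h2 => ?_)
  · simp [s14d]
    ring
  · simp [s14m, s14d]
    omega
  · simp [s14m, s14d]
    omega
  · by_cases h3 : l = .inr (.inl 0) ∨ l = .inl 0
    · simp [h3]
    · simp [s14m, h1, h2, not_or.1 h3]
  · simp [s14d]
    ring
  · simp [s14m]
    omega
  · simp [s14m]
    omega
  · simp [h1, h2]

/-- the order a1 a2 b1 b2 c1 c2 d1 d2 e -/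
def s14ix : Fin 9 → Ix := ![.inr (.inl 1), .inr (.inl 0), .inr (.inr 0), .inr (.inr 1), .inl 1,
  .inl 0, .inl 3, .inl 2, .inl 4]

/-- the position of a label -/
def s14pos : Ix → Fin 9
  | .inl i => ![5, 4, 7, 6, 8] i
  | .inr (.inl s) => ![1, 0] s
  | .inr (.inr s) => ![2, 3] s

theorem s14ix_pos : ∀ l, s14ix (s14pos l) = l := by decide

/-- the four fibre chart in the order a1 a2 b1 b2 c1 c2 d1 d2 e -/
def s14F9 (T U : K) (i : Fin 9) : Fin 4 → K := s14F T U (s14ix i)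

theorem s14_four (h : S14N T U) : (∀ l, Pt (s14F9 T U l)) ∧
    (dy (s14F9 T U 0) (s14F9 T U 1) = 0 ∧ dy (s14F9 T U 2) (s14F9 T U 3) = 0 ∧
      dy (s14F9 T U 4) (s14F9 T U 5) = 0 ∧ dy (s14F9 T U 6) (s14F9 T U 7) = 0) ∧
    (∀ i j : Fin 5, i ≠ j →
      dy (s14F9 T U (![0, 2, 4, 6, 8] i)) (s14F9 T U (![0, 2, 4, 6, 8] j)) ≠ 0) ∧
    (dx (s14F9 T U 0) (s14F9 T U 2) = 0 ∧ dx (s14F9 T U 4) (s14F9 T U 6) = 0 ∧
      dx (s14F9 T U 4) (s14F9 T U 8) = 0) ∧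
    (∀ i : Fin 5, dx (s14F9 T U 0) (s14F9 T U (![1, 3, 4, 5, 7] i)) ≠ 0) ∧
    ∀ i : Fin 4, dx (s14F9 T U 4) (s14F9 T U (![1, 3, 5, 7] i)) ≠ 0 := by
  refine ⟨fun l => s14F_pt h _, ?_, ?_, ?_, fun i => ?_, fun i => ?_⟩
  · simp [s14F9, s14ix, s14F, dy, mul_comm]
  · have key : ∀ i j : Fin 5, i < j →
        dy (s14F9 T U (![0, 2, 4, 6, 8] i)) (s14F9 T U (![0, 2, 4, 6, 8] j)) ≠ 0 := by
      intro i j hij
      fin_cases i <;> fin_cases j <;> simp only [Fin.lt_def] at hij <;> try omega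
      all_goals simp only [s14F9, s14ix, s14F, dy, Fin.zero_eta, Fin.mk_one, Fin.reduceFinMk,
        Matrix.cons_val_zero, Matrix.cons_val_one, Matrix.cons_val, mul_one, one_mul, mul_zero,
        zero_mul, sub_zero, zero_sub]
      · exact s14_ne h.T0 (c := -3) (by norm_num) (by ring)
      · norm_num
      · norm_num
      · norm_num
      · exact s14_ne h.T2 (c := -4) (by norm_num) (by ring)
      · exact s14_ne h.T8 (c := -1) (by norm_num) (by ring)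
      · exact s14_ne h.Tw (c := -8) (by norm_num) (by ring)
      · norm_num
      · norm_num
      · norm_num
    intro i j hij
    rcases lt_or_gt_of_ne hij with e | e
    · exact key i j e
    · rw [dy_comm]
      exact neg_ne_zero.2 (key j i e)
  · simp [s14F9, s14ix, s14F, dx]
  · fin_cases i <;> simp [s14F9, s14ix, s14F, dx, h.T0, h.N0, h.T2]
  · fin_cases i
    all_goals simp only [s14F9, s14ix, s14F, s14N, dx, Fin.zero_eta, Fin.mk_one, Fin.reduceFinMk,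
      Matrix.cons_val_zero, Matrix.cons_val_one, Matrix.cons_val, one_mul, mul_zero, sub_zero]
    · exact s14_ne h.T8 (c := -1) (by norm_num) (by ring)
    · exact s14_ne h.T8 (neg_ne_zero.2 h.U1) (by ring)
    · exact s14_ne h.T8 one_ne_zero (by ring)
    · norm_num

/-- the three shears, in the order a1 a2 b1 b2 c1 c2 d1 d2 e -/
theorem s14_word9 (h : S14N T U) (hσ : σ ≠ 0) (hT : T = σ * t) {p q d : ℤ} {m : Fin 9 → ℤ}
    {n : Ix → ℤ} (hd : d = p + q - m 1 - m 2 - m 5 - m 7) (e0 : n (.inl 0) ≤ m 5 + d)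
    (e1 : n (.inl 1) ≤ m 4) (e2 : n (.inl 2) ≤ m 7 + d) (e3 : n (.inl 3) ≤ m 6)
    (e4 : n (.inl 4) ≤ m 8) (a0 : n (.inr (.inl 0)) ≤ m 1 + d) (a1 : n (.inr (.inl 1)) ≤ m 0)
    (b0 : n (.inr (.inr 0)) ≤ m 2 + d) (b1 : n (.inr (.inr 1)) ≤ m 3) :
    finrank K (H0 p q (s14F9 T U) m) ≤ finrank K (H0 (p + d) (q + d) (s14S σ t T U) n) := by
  have e : s14d p q (fun l => m (s14pos l)) = d := by rw [hd]; rfl
  refine (Submodule.finrank_mono (H0_le (n := fun l => m (s14pos l)) fun l =>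
    Or.inr ⟨s14pos l, le_rfl, s14F_pt h l, ?_, ?_⟩)).trans ((s14_word h hσ hT p q _).trans ?_)
  · rw [s14F9, s14ix_pos, dx_self]
  · rw [s14F9, s14ix_pos, dy_self]
  rw [e]
  refine Submodule.finrank_mono (H0_le fun l => Or.inr ⟨l, ?_, grP_pt _ _ _ _ _ l, dx_self _,
    dy_self _⟩)
  revert l
  refine ix_all ?_ ?_ ?_ ?_ ?_ ?_ ?_ ?_ ?_ <;> rw [s14m, e] <;> simpa [s14pos]

end Pool.Agent.Lib.MP_d03834_ag.Core
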