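import Pool.Agent.Lib.MP_d03834_ag.Core.ShLat

/-! The start state for fifteen points: one unit line, four disjoint effective roots. -/

set_option autoImplicit false

namespace Pool.Agent.Lib.MP_d03834_ag.Core

variable {k Γ : Type} [Field k] [LinearOrderedCommGroupWithZero Γ]

/-- the character of the grid configuration -/
def gch (r a b : k) (u : CL) : k :=
  (-1) ^ (u.1.1 + u.2.1 0 + u.2.1 1) * r ^ (u.1.1 - u.2.2 0) *
    a ^ (u.2.1 1 + u.2.1 3 - u.1.2) * b ^ u.2.1 2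

/-- r is small, a and b are multiplicatively independent units -/
structure Sm15 (v : Valuation k Γ) (r a b : k) : Prop where
  r0 : r ≠ 0
  vr : v r < 1
  va : v a = 1
  vb : v b = 1
  two : (2 : k) ≠ 0
  ind : ∀ i j : ℤ, (a ^ i * b ^ j) ^ 2 = 1 → i = 0 ∧ j = 0

theorem cip_a (u : CL) (hu : u ∈ cD.M) : cD.ip u cD.a = u.1.1 - u.2.2 0 - u.2.2 1 := by
  rw [cD_M, Fin.sum_univ_five] at hu
  change cip u ((4, 5), fun _ => 2, fun _ => 1) = _
  simp only [cip, Fin.sum_univ_five, Fin.sum_univ_two]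
  omega

theorem ord_line {g : CL} (hg : g ∈ cD.lat.Λ) : g = eb 1 ∨ 0 < g.1.1 - g.2.2 0 := by
  by_cases h : g = eb 1
  · exact Or.inl h
  have h1 := cD.lat.nonneg g hg _ (eb_line 1) h
  have h2 := hg.2.1
  rw [cip_a g hg.2.2] at h2
  rw [DP.lat_ip, cD_ip, cip_eb] at h1
  exact Or.inr (by omega)

theorem gch_eb1 (r a b : k) : gch r a b (eb 1) = 1 := by simp [gch, eb]

namespace Sm15

variable {v : Valuation k Γ} {r a b : k} (h : Sm15 v r a b)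
include h

theorem vr0 : 0 < v r := by
  rw [zero_lt_iff, Valuation.ne_zero_iff]
  exact h.r0

theorem v_ch (u : CL) : v (gch r a b u) = v r ^ (u.1.1 - u.2.2 0) := by
  simp [gch, h.va, h.vb]

theorem small {g : CL} (hg : g ∈ cD.lat.Λ) : g = eb 1 ∨ v (gch r a b g) < 1 :=
  (ord_line hg).imp_right fun h1 => by
    rw [h.v_ch]
    exact zpow_lt_one₀ h.vr0 h.vr h1

theorem le : ∀ g ∈ cD.lat.Λ, v (gch r a b g) ≤ 1 := fun g hg => by
  rcases h.small hg with rfl | h1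
  · rw [gch_eb1, map_one]
  · exact h1.le

theorem unit {g : CL} (hg : g ∈ cD.lat.Λ) (h1 : v (gch r a b g) = 1) : g = eb 1 :=
  (h.small hg).resolve_right fun h2 => h2.ne h1

theorem nb : ∀ g ∈ cD.lat.Λ, ¬Lat.Bk (Invo.one v) (gch r a b g) := fun g hg h1 => by
  have h2 := h1.2.1
  rw [h.unit hg h1.1, gch_eb1] at h2
  exact h2 (sub_self _)

theorem fz : cD.lat.Fz (Invo.one v) {1} (gch r a b) := fun g hg h1 =>
  Or.inr (by rw [h.unit hg h1, gch_eb1]; rfl)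

theorem pos {u : CL} (hu : 0 ≤ u.2.2 1) : cD.lat.Pos (Invo.one v) (gch r a b) u :=
  fun g hg h1 => by
    rw [h.unit hg h1, DP.lat_ip, cD_ip, cip_eb]
    exact hu

/-- the roots of value one -/
theorem root {α : CL} (hα : α ∈ cD.lat.Φ) (h1 : gch r a b α = 1) :
    α.2.2 0 = α.1.1 ∧ α.2.2 1 = 0 ∧ α.2.1 2 = 0 ∧ α.2.1 3 = α.1.2 - α.2.1 1 ∧
      α.2.1 4 = α.1.2 - α.2.1 0 ∧ (α.1.1 + α.2.1 0 + α.2.1 1) % 2 = 0 ∧
      ((α.1.2 = 1 ∧ 0 ≤ α.1.1 ∧ α.1.1 ≤ 1 ∧ 0 ≤ α.2.1 0 ∧ α.2.1 0 ≤ 1 ∧ 0 ≤ α.2.1 1 ∧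
        α.2.1 1 ≤ 1) ∨ (α.1.2 = -1 ∧ -1 ≤ α.1.1 ∧ α.1.1 ≤ 0 ∧ -1 ≤ α.2.1 0 ∧ α.2.1 0 ≤ 0 ∧
        -1 ≤ α.2.1 1 ∧ α.2.1 1 ≤ 0)) := by
  have e0 : α.1.1 - α.2.2 0 = 0 := by
    have h2 := h.v_ch α
    rw [h1, map_one] at h2
    exact (zpow_eq_one_iff_right₀ h.vr0.le h.vr.ne).1 h2.symm
  have e1 := hα.2.1
  rw [cip_a α hα.2.2] at e1
  rw [gch, e0, zpow_zero, mul_one, mul_assoc] at h1
  have hs : ((-1 : k) ^ (α.1.1 + α.2.1 0 + α.2.1 1)) ^ 2 = 1 := by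
    rw [← zpow_natCast, ← zpow_mul, mul_comm, zpow_mul]
    simp
  have h3 := congrArg (· ^ 2) h1
  simp only [mul_pow (_ ^ (_ + _ + _)), hs, one_mul, one_pow] at h3
  obtain ⟨e2, e3⟩ := h.ind _ _ h3
  rw [e2, e3, zpow_zero, zpow_zero, mul_one, mul_one] at h1
  have e4 : (α.1.1 + α.2.1 0 + α.2.1 1) % 2 = 0 := by
    by_contra h4
    rw [Odd.neg_one_zpow (Int.odd_iff.2 (by omega))] at h1
    exact h.two (by linear_combination -h1)
  have e5 := hα.2.2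
  rw [cD_M, Fin.sum_univ_five] at e5
  have e6 := hα.1
  rw [cD_ip, cip, Fin.sum_univ_five, Fin.sum_univ_two] at e6
  have f0 : α.2.2 0 = α.1.1 := by omega
  have f1 : α.2.2 1 = 0 := by omega
  have f3 : α.2.1 3 = α.1.2 - α.2.1 1 := by omega
  have f4 : α.2.1 4 = α.1.2 - α.2.1 0 := by omega
  refine ⟨f0, f1, e3, f3, f4, e4, ?_⟩
  rw [f0, f1, e3, f3, f4] at e6
  generalize α.1.1 = n at *
  generalize α.1.2 = J at *
  generalize α.2.1 0 = x at *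
  generalize α.2.1 1 = y at *
  have key : (2 * n - J) ^ 2 + (2 * x - J) ^ 2 + (2 * y - J) ^ 2 + J ^ 2 = 4 := by
    linear_combination -2 * e6
  have bd : ∀ z : ℤ, z ^ 2 ≤ 4 → -2 ≤ z ∧ z ≤ 2 := fun z hz => ⟨by nlinarith, by nlinarith⟩
  have s1 := sq_nonneg (2 * n - J)
  have s2 := sq_nonneg (2 * x - J)
  have s3 := sq_nonneg (2 * y - J)
  have s4 := sq_nonneg J
  obtain ⟨b1, b2⟩ := bd (2 * n - J) (by omega)
  obtain ⟨b3, b4⟩ := bd (2 * x - J) (by omega)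
  obtain ⟨b5, b6⟩ := bd (2 * y - J) (by omega)
  obtain ⟨b7, b8⟩ := bd J (by omega)
  have c1 : -2 ≤ n ∧ n ≤ 2 := by omega
  have c2 : -2 ≤ x ∧ x ≤ 2 := by omega
  have c3 : -2 ≤ y ∧ y ≤ 2 := by omega
  obtain ⟨c1, c1'⟩ := c1
  obtain ⟨c2, c2'⟩ := c2
  obtain ⟨c3, c3'⟩ := c3
  clear s1 s2 s3 s4 e6 bd
  interval_cases J <;> interval_cases n <;> interval_cases x <;> interval_cases y <;> omega

/-- the sign clause, from the degrees on the four effective roots -/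
theorem rt {u : CL} (t0 : u.2.1 0 + u.2.1 1 ≤ u.1.1) (t1 : u.2.1 3 + u.2.1 4 ≤ u.1.1)
    (t2 : u.2.1 0 + u.2.1 3 + u.2.2 0 ≤ u.1.2) (t3 : u.2.1 1 + u.2.1 4 + u.2.2 0 ≤ u.1.2) :
    ∀ α ∈ cD.lat.Φ, gch r a b α = 1 → 0 < cip u α → 0 ≤ cip hC α := fun α hα h1 h2 => by
  obtain ⟨f0, f1, f2, f3, f4, f5, f6⟩ := h.root hα h1
  rw [show cip hC α = cip α hC from cD.symm _ _, cip_hC]
  rw [cip, Fin.sum_univ_five, Fin.sum_univ_two, f0, f1, f2, f3, f4] at h2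
  generalize α.1.1 = n at *
  generalize α.1.2 = J at *
  generalize α.2.1 0 = x at *
  generalize α.2.1 1 = y at *
  rcases f6 with f6 | ⟨rfl, c1, c1', c2, c2', c3, c3'⟩
  · omega
  · interval_cases n <;> interval_cases x <;> interval_cases y <;> omega

end Sm15

theorem ind23 [CharZero k] (i j : ℤ) (h : ((2 : k) ^ i * 3 ^ j) ^ 2 = 1) : i = 0 ∧ j = 0 := by
  have h1 : ((2 : ℚ) ^ i * 3 ^ j) ^ 2 = 1 := by
    apply Rat.cast_injective (α := k)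
    simpa using h
  have h2 : (2 : ℚ) ^ i * 3 ^ j = 1 :=
    (pow_eq_one_iff_of_nonneg (by positivity) two_ne_zero).1 h1
  have p2 : Fact (Nat.Prime 2) := ⟨by norm_num⟩
  have p3 : Fact (Nat.Prime 3) := ⟨by norm_num⟩
  have a1 := congrArg (padicValRat 2) h2
  have a2 := congrArg (padicValRat 3) h2
  rw [padicValRat.mul (by positivity) (by positivity), padicValRat.zpow,
    padicValRat.zpow, padicValRat.one] at a1 a2
  have b22 : padicValRat 2 2 = 1 := padicValRat.self (by norm_num)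
  have b33 : padicValRat 3 3 = 1 := padicValRat.self (by norm_num)
  have b23 : padicValRat 2 3 = 0 := by
    rw [show (3 : ℚ) = ((3 : ℕ) : ℚ) from rfl, padicValRat.of_nat, padicValNat_primes (by norm_num)]
    rfl
  have b32 : padicValRat 3 2 = 0 := by
    rw [show (2 : ℚ) = ((2 : ℕ) : ℚ) from rfl, padicValRat.of_nat, padicValNat_primes (by norm_num)]
    rfl
  rw [b22, b23] at a1
  rw [b32, b33] at a2
  omega

/-- the choice a = 2, b = 3 -/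
theorem sm15_23 [CharZero k] {v : Valuation k Γ} {r : k} (r0 : r ≠ 0) (vr : v r < 1)
    (v2 : v 2 = 1) (v3 : v 3 = 1) : Sm15 v r 2 3 := ⟨r0, vr, v2, v3, two_ne_zero, ind23⟩

end Pool.Agent.Lib.MP_d03834_ag.Core
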