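import Pool.Agent.Lib.MP_d03834_ag.Core.ShStart
import Pool.Agent.Lib.MP_d03834_ag.Core.BiEnd

/-! The bound for the sections on the general surface V, without hypotheses. -/

set_option autoImplicit false

namespace Pool.Agent.Lib.MP_d03834_ag.Core

variable {O k Γ : Type} [CommRing O] [IsDomain O] [ValuationRing O] [Field k]
  [LinearOrderedCommGroupWithZero Γ] {K : Type} [Field K] [Algebra O K] [IsFractionRing O K]

theorem endH (A : Arc O k) {ε : ℤ} (hε : ε = 0 ∨ ε = 1) : EndH A K ε :=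
  fun c _ hc hu h0 => end_count A c hc hu h0 hε

/-- the theorem on V for any state without effective roots -/
theorem kpS {A : Arc O k} {v : Valuation k Γ} {U : Set k} (hU : ∀ u ∈ U, ∀ w ∈ U, u + w ≠ 1)
    {ε : ℤ} (hε : ε = 0 ∨ ε = 1) {c : Cfg O k} {χ : CL → k} {E : Set CL} {u : CL}
    (hs : St A v U c χ E) (hx : cD.lat.Pos (Invo.one v) χ u) (hu : u ∈ cD.M) :
    (0 < cip u u → (Module.finrank K (c.H A K ε u) : ℤ) ≤ 1 + cip u u / 2) ∧
      (cip u u < 0 → Module.finrank K (c.H A K ε u) = 0) :=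
  kp_st (IsFractionRing.injective O K) hU (by omega) (endH A hε) hs hx hu

/-- the theorem on the general V -/
theorem kpV [CharZero k] (A : Arc O k) (K : Type) [Field K] [Algebra O K] [IsFractionRing O K]
    (σ : k →+* O) (hσ : ∀ x, A.res (σ x) = x) (v : Valuation k Γ) {s : k} (hs : s ≠ 0)
    (hv : v s < 1) :
    ∃ (c : Cfg O k) (la mu : O), Rex A c la mu ∧ Ndg A c ∧ ∀ ε : ℤ, ε = 0 ∨ ε = 1 →
      ∀ u ∈ cD.M, 0 ≤ u.2.2 1 →
        (0 < cip u u → (Module.finrank K (c.H A K ε u) : ℤ) ≤ 1 + cip u u / 2) ∧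
          (cip u u < 0 → Module.finrank K (c.H A K ε u) = 0) := by
  obtain ⟨c, la, mu, h1, h2, h3⟩ := kp0 (IsFractionRing.injective O K) hσ v hs hv
  exact ⟨c, la, mu, h1, h2, fun ε hε => h3 ε (by omega) (endH A hε)⟩

end Pool.Agent.Lib.MP_d03834_ag.Core
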