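import Pool.Agent.Lib.MP_d03834_ag.Core.ShEnd
import Pool.Agent.Lib.MP_d03834_ag.Core.Tower

/-! The general surface V over the field of Laurent series over rational functions. -/

set_option autoImplicit false

namespace Pool.Agent.Lib.MP_d03834_ag.Core

/-- the theorem on the general V over the standard tower -/
theorem kpC (F : Type) [Field F] [CharZero F] :
    ∃ (c : Cfg (PowerSeries (RatFunc F)) (RatFunc F)) (la mu : PowerSeries (RatFunc F)),
      Rex (Arc.ps (RatFunc F)) c la mu ∧ Ndg (Arc.ps (RatFunc F)) c ∧ ∀ ε : ℤ, ε = 0 ∨ ε = 1 →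
      ∀ u ∈ cD.M, 0 ≤ u.2.2 1 →
        (0 < cip u u → (Module.finrank (LS (RatFunc F))
          (c.H (Arc.ps (RatFunc F)) (LS (RatFunc F)) ε u) : ℤ) ≤ 1 + cip u u / 2) ∧
        (cip u u < 0 → Module.finrank (LS (RatFunc F))
          (c.H (Arc.ps (RatFunc F)) (LS (RatFunc F)) ε u) = 0) :=
  kpV (Arc.ps (RatFunc F)) (LS (RatFunc F)) PowerSeries.C (fun x => PowerSeries.constantCoeff_C x)
    (vX F) RatFunc.X_ne_zero (by
      rw [vX_X, ← WithZero.exp_zero, WithZero.exp_lt_exp]
      decide)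

end Pool.Agent.Lib.MP_d03834_ag.Core
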