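import Pool.Agent.Lib.MP_d03834_ag.Core.ShMove

/-! The descent on configurations, for any property which is transported by the three moves. -/

set_option autoImplicit false

namespace Pool.Agent.Lib.MP_d03834_ag.Core

variable {O k Γ : Type} [CommRing O] [Field k] [LinearOrderedCommGroupWithZero Γ] {A : Arc O k}

/-- all classes of E have left -/
def AllGone (I : Invo k Γ) (χ : CL → k) (E : Set CL) : Prop := ∀ p ∈ E, cD.lat.Gone I cD.a χ p

theorem cD_a (g : CL) (hg : g ∈ cD.lat.Λ) : cD.lat.ip cD.a g = 1 := (cD.symm _ _).trans hg.2.1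

theorem AllGone.flip {I : Invo k Γ} {χ : CL → k} {E : Set CL} (h : AllGone I χ E)
    (hj : cD.lat.J I χ) {g : CL} (hg : g ∈ cD.lat.Λ) (hv : I.v (χ g) < 1) :
    AllGone I (cD.lat.flip I g χ) (cD.lat.refl g ⁻¹' E) := fun p hp => by
  have := (h _ hp).flip cD_a hj hg hv
  rwa [Lat.refl_refl hg] at this

theorem AllGone.rf {I : Invo k Γ} {χ : CL → k} {E : Set CL} (h : AllGone I χ E) {α : CL}
    (hα : α ∈ cD.lat.Φ) : AllGone I (χ ∘ cD.rf α) (cD.rf α ⁻¹' E) := fun p hp => by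
  have := (h _ hp).comp (cD.rr_iso hα) (by
    change cD.rf α cD.a = _
    rw [DP.rf, cD.symm, hα.2.1, zero_smul, add_zero])
  rwa [show (cD.rr hα.1).symm (cD.rf α p) = p from cD.rf_rf hα.1 p] at this

theorem AllGone.root {I : Invo k Γ} {χ : CL → k} {E : Set CL} {n : ℕ} (h : AllGone I χ E)
    (hP : cD.lat.P I n χ E) {α : CL} (hα : α ∈ cD.lat.Φ) : χ α ≠ 1 := fun e => by
  rcases hP.root α hα e with h1 | h1
  · have := (h _ h1).pos
    rw [DP.lat_ip, hα.2.1] at this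
    exact lt_irrefl _ this
  · have := (h _ h1).pos
    rw [DP.lat_ip, map_neg, AddMonoidHom.neg_apply, hα.2.1] at this
    exact lt_irrefl _ this

theorem AllGone.conj {v : Valuation k Γ} {χ : CL → k} {E : Set CL} {n : ℕ} {U : Set k}
    (h : AllGone (Invo.one v) χ E) (hP : cD.lat.P (Invo.one v) n χ E)
    (hz : cD.lat.Fz (Invo.one v) U χ) (hU : ∀ u ∈ U, ∀ w ∈ U, u + w ≠ 1) {l g : CL}
    (hg : g ∈ cD.lat.Λ) (hl : l ∈ cD.lat.Λ) (hα : l - g ∈ cD.lat.Φ) (hα' : g - l ∈ cD.lat.Φ)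
    (h0 : cD.ip l g = 0) : χ l + χ g ≠ 1 := fun e => by
  have h0' : cD.ip g l = 0 := (cD.symm g l).trans h0
  rcases hP.conj_one hz hU hg hl hα hα' h0 e with h1 | h1
  · have k1 : ∀ u ∈ cD.lat.Λ, cD.ip (l + g) u = -1 → (Invo.one v).v (χ u) = 1 := fun u hu h2 =>
      (hP.j.le u hu).lt_or_eq.resolve_left fun h3 => by
        have := (h _ h1).fwd u hu h3
        rw [DP.lat_ip, h2] at this
        omega
    have k2 := k1 l hl (by simp [hl.1, h0'])
    have k3 := k1 g hg (by simp [hg.1, h0])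
    rcases hz l hl k2 with h2 | h2
    · exact h2.2.2.1.ne (by rwa [show (Invo.one v).ι (χ l) = χ g from sub_eq_of_eq_add' e.symm])
    rcases hz g hg k3 with h3 | h3
    · exact h3.2.2.1.ne (by rwa [show (Invo.one v).ι (χ g) = χ l from sub_eq_of_eq_add e.symm])
    exact hU _ h2 _ h3 e
  · have := (h _ h1).pos
    simp [hl.2.1, hg.2.1] at this

/-- the state of the descent: shape, valuation invariant, no effective root -/
structure St (A : Arc O k) (v : Valuation k Γ) (U : Set k) (c : Cfg O k) (χ : CL → k)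
    (E : Set CL) : Prop where
  shp : Shp A c χ
  P : ∃ n, cD.lat.P (Invo.one v) n χ E
  fz : cD.lat.Fz (Invo.one v) U χ
  gone : AllGone (Invo.one v) χ E

theorem St.ndg {v : Valuation k Γ} {U : Set k} {c : Cfg O k} {χ : CL → k} {E : Set CL}
    (hs : St A v U c χ E) (hU : ∀ u ∈ U, ∀ w ∈ U, u + w ≠ 1) : Ndg A c := by
  obtain ⟨h, ⟨n, hP⟩, hz, hg⟩ := hs
  have hχ := hP.j.ch
  refine ⟨h.z0, h.cur, h.N0, h.Q0 hχ, h.Q2 hχ, fun i j hij => ?_,
    fun i j hij => h.ka hχ hij (hg.root hP (aV_root i j hij)), h.sl hχ, fun r s => ?_,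
    h.aa (hg.conj hP hz hU (eb_line 1) (eb_line 0) eb_sub.1 eb_sub.2 (by decide)),
    h.bb hχ (hg.root hP eb_sub.1)⟩
  · obtain ⟨l, h1, h2, h3⟩ := aV_sub i j hij
    exact h.zz hχ h1 h2 (hg.root hP h3)
  · fin_cases r
    · exact h.a0b (hg.conj hP hz hU (eb_line s.rev) e5_line (eb_e5 _).2 (eb_e5 _).1
        (by rw [cD_ip, cip_eb]; rfl))
    · exact h.a1b hχ (hg.root hP (aH_root s))

theorem cip_rf {α : CL} (hα : α ∈ cD.lat.Φ) (u : CL) :
    cip (cD.rf α u) (cD.rf α u) = cip u u := (cD.rr_iso hα).ip u u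

theorem rf_M {α u : CL} (hα : α ∈ cD.lat.Φ) (hu : u ∈ cD.M) : cD.rf α u ∈ cD.M :=
  add_mem hu (zsmul_mem hα.2.2 _)

theorem cip_refl (s : Fin 2) (u : CL) :
    cip (cD.lat.refl (eb s) u) (cD.lat.refl (eb s) u) = cip u u :=
  Lat.ip_refl_refl (T := cD.lat) (eb_line s) u u

theorem refl_M {u : CL} (s : Fin 2) (hu : u ∈ cD.M) : cD.lat.refl (eb s) u ∈ cD.M :=
  add_mem hu (zsmul_mem (eb_line s).2.2 _)

/-- The descent on configurations. -/
theorem kp_abs {v : Valuation k Γ} {U : Set k} (hU : ∀ u ∈ U, ∀ w ∈ U, u + w ≠ 1) (σ : ℤ)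
    (Good : Cfg O k → CL → Prop)
    (hV : ∀ c c' i j u, i ≠ j → Ndg A c → RelV A c c' i j → Good c' (cD.rf (aV i j) u) → Good c u)
    (hH : ∀ c c' s u, Ndg A c → RelH A c c' s → Good c' (cD.rf (aH s) u) → Good c u)
    (hF : ∀ c c' s u, RelF A c c' s → Good c' (cD.lat.refl (eb s) u) → Good c u)
    (neg : ∀ c u, u.1.1 + u.1.2 < 0 → Good c u)
    (fin : ∀ c u, Ndg A c → Dmn u → cip u u = σ → Good c u)
    {c : Cfg O k} {χ : CL → k} {E : Set CL} {u : CL} (hs : St A v U c χ E)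
    (hx : cD.lat.Pos (Invo.one v) χ u) (hu : u ∈ cD.M) (hσ : cip u u = σ) : Good c u := by
  obtain ⟨h, ⟨n, hP⟩, hz, hg⟩ := hs
  refine DP.descent' (D := cD) (I := Invo.one v)
    {α | (∃ i j, i ≠ j ∧ α = aV i j) ∨ ∃ s, α = aH s} ?_ {eb 0, eb 1} ?_ (by decide) hC ?_
    (by decide) (fun χ E u => ∀ c, Shp A c χ → cD.lat.Fz (Invo.one v) U χ →
      AllGone (Invo.one v) χ E → u ∈ cD.M → cip u u = σ → Good c u) ?_ ?_ ?_ ?_ hP hx c h hz hg
      hu hσ
  · rintro _ (⟨i, j, hij, rfl⟩ | ⟨s, rfl⟩)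
    exacts [aV_root i j hij, aH_root s]
  · intro G hG
    rcases Finset.mem_insert.1 hG with rfl | hG
    exacts [eb_line 0, Finset.mem_singleton.1 hG ▸ eb_line 1]
  · rintro _ (⟨i, j, -, rfl⟩ | ⟨s, rfl⟩) <;> rw [cD_ip, cip_hC] <;> rfl
  · intro n χ E u _ h1 c _ _ _ _ _
    exact neg c u (by rwa [cD_ip, cip_hC] at h1)
  · intro n χ E u hP h1 h2 c h hz hg hu hσ
    refine fin c u (St.ndg ⟨h, ⟨n, hP⟩, hz, hg⟩ hU) ⟨hu, fun i j hij => ?_, fun s => ?_,
      fun s => ?_⟩ hσ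
    · have := h1 _ (Or.inl ⟨i, j, hij, rfl⟩)
      rw [cD_ip, cip_aV] at this
      omega
    · have := h1 _ (Or.inr ⟨s, rfl⟩)
      rw [cD_ip, cip_aH] at this
      omega
    · have := h2 (eb s) (by fin_cases s <;> simp)
      rwa [cD_ip, cip_eb] at this
  · intro n χ E u α hα hP _ ih c h hz hg hu hσ
    have hn := St.ndg ⟨h, ⟨n, hP⟩, hz, hg⟩ hU
    rcases hα with ⟨i, j, hij, rfl⟩ | ⟨s, rfl⟩
    · have hr := aV_root i j hij
      obtain ⟨c', h1, h2⟩ := moveV h hP.j.ch hij (hn.zz i j hij)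
        fun l hi hj => ⟨hn.zz l i hi, hn.zz l j hj⟩
      exact hV c c' i j u hij hn h1 (ih c' h2 (hz.comp (cD.rr_iso hr)) (hg.rf hr) (rf_M hr hu)
        ((cip_rf hr u).trans hσ))
    · have hr := aH_root s
      obtain ⟨c', h1, h2⟩ := moveH h hP.j.ch s
      exact hH c c' s u hn h1 (ih c' h2 (hz.comp (cD.rr_iso hr)) (hg.rf hr) (rf_M hr hu)
        ((cip_rf hr u).trans hσ))
  · intro n χ E u G hG hP hv _ ih c h hz hg hu hσ
    obtain ⟨s, rfl⟩ : ∃ s, G = eb s := by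
      rcases Finset.mem_insert.1 hG with rfl | hG
      exacts [⟨0, rfl⟩, ⟨1, Finset.mem_singleton.1 hG⟩]
    obtain ⟨c', h1, h2⟩ := moveF v h hP.j.ch s
    exact hF c c' s u h1 (ih c' h2 (hz.flip hP.j (eb_line s) hv) (hg.flip hP.j (eb_line s) hv)
      (refl_M s hu) ((cip_refl s u).trans hσ))

end Pool.Agent.Lib.MP_d03834_ag.Core
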