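import Pool.Agent.Lib.MP_d03834_ag.Core.LimB

/-! Points approach a curve or a point at constant heights: every slice of the limit is the top
slice of a polynomial which satisfies the conditions of the rescaled points. -/

set_option autoImplicit false

namespace Pool.Agent.Lib.MP_d03834_ag.Core

open MvPolynomial Module

section fn
variable {k K σ : Type} [Field k] [CommRing K] [Algebra k K]

/-- a linear form applied to all coefficients -/
noncomputable def slc (l : K →ₗ[k] k) (F : MvPolynomial σ K) : MvPolynomial σ k :=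
  ∑ μ ∈ F.support, monomial μ (l (coeff μ F))

theorem slc_coeff (l : K →ₗ[k] k) (F : MvPolynomial σ K) (μ : σ →₀ ℕ) :
    coeff μ (slc l F) = l (coeff μ F) := by
  classical
  rw [slc, coeff_sum]
  simp only [coeff_monomial]
  rw [Finset.sum_ite_eq']
  split_ifs with h
  · rfl
  · rw [notMem_support_iff.1 h, map_zero]

theorem slc_add (l : K →ₗ[k] k) (F G : MvPolynomial σ K) : slc l (F + G) = slc l F + slc l G := by
  ext μ
  simp only [slc_coeff, coeff_add, map_add]

theorem slc_mul (l : K →ₗ[k] k) (F : MvPolynomial σ K) (c : MvPolynomial σ k) :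
    slc l (F * map (algebraMap k K) c) = slc l F * c := by
  classical
  ext μ
  simp only [slc_coeff, coeff_mul, map_sum, coeff_map]
  refine Finset.sum_congr rfl fun x _ => ?_
  rw [mul_comm, ← Algebra.smul_def, map_smul, smul_eq_mul, mul_comm]

theorem slc_mem (l : K →ₗ[k] k) {I : Ideal (MvPolynomial σ k)} {F : MvPolynomial σ K}
    (h : F ∈ I.map (map (algebraMap k K))) : slc l F ∈ I := by
  have key : ∀ a, slc l (a * F) ∈ I := by
    refine Submodule.span_induction (p := fun F _ => ∀ a, slc l (a * F) ∈ I) ?_ ?_ ?_ ?_ h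
    · rintro _ ⟨c, hc, rfl⟩ a
      rw [slc_mul]
      exact I.mul_mem_left _ hc
    · intro a
      have : slc l (a * 0) = 0 := by
        ext μ
        simp [slc_coeff]
      rw [this]
      exact I.zero_mem
    · intro x y _ _ hx hy a
      rw [mul_add, slc_add]
      exact I.add_mem (hx a) (hy a)
    · intro b x _ hx a
      rw [smul_eq_mul, ← mul_assoc]
      exact hx _
  simpa using key 1

theorem pid_const {Q : Fin 4 → k} {m : ℕ} {F : Cx K}
    (h : F ∈ pid (fun i => algebraMap k K (Q i)) ^ m) :
    F ∈ (pid Q ^ m).map (map (algebraMap k K)) := by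
  rw [Ideal.map_pow]
  refine Ideal.pow_right_mono (pid_le ?_ ?_) m h
  · convert Ideal.mem_map_of_mem (map (algebraMap k K)) (lx_mem Q)
    simp [lx]
  · convert Ideal.mem_map_of_mem (map (algebraMap k K)) (ly_mem Q)
    simp [ly]

theorem ker_const {v : σ → k} {m : ℕ} {F : MvPolynomial σ K}
    (h : F ∈ RingHom.ker (eval fun i => algebraMap k K (v i)) ^ m) :
    F ∈ (RingHom.ker (eval v) ^ m).map (map (algebraMap k K)) := by
  rw [Ideal.map_pow]
  refine Ideal.pow_right_mono (fun G hG => ?_) m h
  have key : ∀ G : MvPolynomial σ K, G - C (eval (fun i => algebraMap k K (v i)) G) ∈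
      (RingHom.ker (eval v)).map (map (algebraMap k K)) := fun G => by
    induction G using MvPolynomial.induction_on with
    | C a => simp
    | add p q hp hq =>
      convert Ideal.add_mem _ hp hq using 1
      simp only [map_add]
      ring
    | mul_X p i hp =>
      have h1 : (X i - C (algebraMap k K (v i)) : MvPolynomial σ K) ∈
          (RingHom.ker (eval v)).map (map (algebraMap k K)) := by
        convert Ideal.mem_map_of_mem (map (algebraMap k K))
          (show X i - C (v i) ∈ RingHom.ker (eval v) by simp [RingHom.mem_ker])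
        simp
      convert Ideal.add_mem _ (Ideal.mul_mem_left _ p h1)
        (Ideal.mul_mem_left _ (C (algebraMap k K (v i))) hp) using 1
      simp only [map_mul, eval_X]
      ring
  have := key G
  rwa [RingHom.mem_ker.1 hG, map_zero, sub_zero] at this

end fn

section val
variable {k O K σ : Type} [Field k] [CommRing O] [Field K] [Algebra k O] [Algebra O K]
  [Algebra k K] [IsScalarTower k O K]

/-- the slice of weight b -/
theorem slice (hinj : Function.Injective (algebraMap O K)) (π : O →ₐ[k] k) {t : O} (ht0 : t ≠ 0)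
    (ht : π t = 0) (w : σ → ℕ) (b : ℕ) (G : MvPolynomial σ O) :
    ∃ H : MvPolynomial σ k, Top w b H ∧
      (∀ μ, Finsupp.weight w μ = b → coeff μ H = π (coeff μ G)) ∧
      (∀ μ, coeff μ H ≠ 0 → coeff μ G ≠ 0) ∧
      ∀ I : Ideal (MvPolynomial σ k), scl w (algebraMap O K t) (map (algebraMap O K) G) ∈
        I.map (map (algebraMap k K)) → H ∈ I := by
  let f : O →ₗ[k] K := (LinearMap.mulLeft k (algebraMap O K t ^ b)).comp
    (IsScalarTower.toAlgHom k O K).toLinearMap
  have t0 : algebraMap O K t ≠ 0 := fun e => ht0 (hinj (by rw [e, map_zero]))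
  obtain ⟨g, hg⟩ := f.exists_leftInverse_of_injective (LinearMap.ker_eq_bot.2 fun x y e =>
    hinj (mul_left_cancel₀ (pow_ne_zero b t0) e))
  have hl : ∀ a : O, (π.toLinearMap.comp g) (algebraMap O K t ^ b * algebraMap O K a) = π a :=
    fun a => congrArg π (LinearMap.congr_fun hg a)
  have hc : ∀ μ j, Finsupp.weight w μ = b + j → coeff μ (slc (π.toLinearMap.comp g)
      (scl w (algebraMap O K t) (map (algebraMap O K) G))) = 0 ^ j * π (coeff μ G) := by
    intro μ j e
    rw [slc_coeff, scl_coeff, coeff_map, e, pow_add, mul_assoc, ← map_pow _ t j, ← map_mul, hl,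
      map_mul, map_pow, ht]
  refine ⟨slc (π.toLinearMap.comp g) (scl w (algebraMap O K t) (map (algebraMap O K) G)),
    fun μ hμ => ?_, fun μ e => ?_, fun μ hμ e => hμ ?_, fun I => slc_mem _⟩
  · by_contra hlt
    obtain ⟨j, hj⟩ := Nat.exists_eq_add_of_lt (not_le.1 hlt)
    exact hμ (by rw [hc μ (j + 1) (by omega), pow_succ, mul_zero, zero_mul])
  · rw [hc μ 0 e, pow_zero, one_mul]
  · rw [slc_coeff, scl_coeff, coeff_map, e, map_zero, mul_zero, map_zero]

/-- the slice in the Cox ring -/
theorem slice_H0 {ι : Type} (hinj : Function.Injective (algebraMap O K)) (π : O →ₐ[k] k) {t : O}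
    (ht0 : t ≠ 0) (ht : π t = 0) (w : Fin 4 → ℕ) (b : ℕ) {p q : ℤ} (Q : ι → Fin 4 → k)
    (m : ι → ℤ) {G : Cx O} (hG : map (algebraMap O K) G ∈
      H0 p q (fun l i => algebraMap O K t ^ w i * algebraMap k K (Q l i)) m) :
    ∃ H ∈ H0 p q Q m, Top w b H ∧ ∀ μ, Finsupp.weight w μ = b → coeff μ H = π (coeff μ G) := by
  obtain ⟨H, h1, h2, h3, h4⟩ := slice hinj π ht0 ht w b G
  obtain ⟨a1, a2⟩ := mem_H0.1 hG
  exact ⟨H, mem_H0.2 ⟨fun μ hμ => a1.of_map hinj (h3 μ hμ),
    fun l => h4 _ (pid_const (scl_pid w _ (a2 l)))⟩, h1, h2⟩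

end val

end Pool.Agent.Lib.MP_d03834_ag.Core
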