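import Pool.Agent.Lib.MP_d03834_ag.Core.Cert

/-! Small multiplicities for 10 general points. -/

set_option autoImplicit false

namespace Pool.Agent.Lib.MP_d03834_ag.Core.Cert

theorem e10_9 : Hle 28 (fun _ : Fin 10 => 9) 0 :=
  hle_cert 0 (n := 7) (fun _ => 9) (by decide +kernel)

theorem f10_9 : Hle 29 (fun _ : Fin 10 => 9) 15 :=
  hle_cert 0 (n := 7) (fun _ => 9) (by decide +kernel)

theorem c10_9 : CoreAt 10 9 :=
  coreAt_of 28 15 (by decide) (by decide) (by decide) e10_9 f10_9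

theorem e10_10 : Hle 31 (fun _ : Fin 10 => 10) 0 :=
  hle_cert 0 (n := 7) (fun _ => 10) (by decide +kernel)

theorem f10_10 : Hle 32 (fun _ : Fin 10 => 10) 11 :=
  hle_cert 0 (n := 7) (fun _ => 10) (by decide +kernel)

theorem c10_10 : CoreAt 10 10 :=
  coreAt_of 31 11 (by decide) (by decide) (by decide) e10_10 f10_10

end Pool.Agent.Lib.MP_d03834_ag.Core.Cert
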