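import Pool.Agent.Lib.MP_d03834_ag.Core.Sm10a
import Pool.Agent.Lib.MP_d03834_ag.Core.Sm10b

/-! Small multiplicities for 10 general points, all together. -/

set_option autoImplicit false

namespace Pool.Agent.Lib.MP_d03834_ag.Core.Cert

theorem small10 {m : ℕ} (h2 : 2 ≤ m) (h : m ≤ 10) : CoreAt 10 m := by
  interval_cases m
  exacts [c10_2, c10_3, c10_4, c10_5, c10_6, c10_7, c10_8, c10_9, c10_10]

end Pool.Agent.Lib.MP_d03834_ag.Core.Cert
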