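import Pool.Agent.Lib.MP_d03834_ag.Core.Cert

/-! Small multiplicities for 10 general points. -/

set_option autoImplicit false

namespace Pool.Agent.Lib.MP_d03834_ag.Core.Cert

theorem e10_2 : Hle 6 (fun _ : Fin 10 => 2) 0 :=
  hle_cert 0 (n := 7) (fun _ => 2) (by decide +kernel)

theorem f10_2 : Hle 7 (fun _ : Fin 10 => 2) 6 :=
  hle_cert 0 (n := 7) (fun _ => 2) (by decide +kernel)

theorem c10_2 : CoreAt 10 2 :=
  coreAt_of 6 6 (by decide) (by decide) (by decide) e10_2 f10_2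

theorem e10_3 : Hle 9 (fun _ : Fin 10 => 3) 0 :=
  hle_cert 0 (n := 7) (fun _ => 3) (by decide +kernel)

theorem f10_3 : Hle 10 (fun _ : Fin 10 => 3) 6 :=
  hle_cert 0 (n := 7) (fun _ => 3) (by decide +kernel)

theorem c10_3 : CoreAt 10 3 :=
  coreAt_of 9 6 (by decide) (by decide) (by decide) e10_3 f10_3

theorem e10_4 : Hle 12 (fun _ : Fin 10 => 4) 0 :=
  hle_cert 0 (n := 7) (fun _ => 4) (by decide +kernel)

theorem f10_4 : Hle 13 (fun _ : Fin 10 => 4) 5 :=
  hle_cert 0 (n := 7) (fun _ => 4) (by decide +kernel)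

theorem c10_4 : CoreAt 10 4 :=
  coreAt_of 12 5 (by decide) (by decide) (by decide) e10_4 f10_4

theorem e10_5 : Hle 15 (fun _ : Fin 10 => 5) 0 :=
  hle_cert 0 (n := 7) (fun _ => 5) (by decide +kernel)

theorem f10_5 : Hle 16 (fun _ : Fin 10 => 5) 3 :=
  hle_cert 0 (n := 7) (fun _ => 5) (by decide +kernel)

theorem c10_5 : CoreAt 10 5 :=
  coreAt_of 15 3 (by decide) (by decide) (by decide) e10_5 f10_5

theorem e10_6 : Hle 19 (fun _ : Fin 10 => 6) 0 :=
  hle_cert 0 (n := 7) (fun _ => 6) (by decide +kernel)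

theorem f10_6 : Hle 20 (fun _ : Fin 10 => 6) 21 :=
  hle_cert 0 (n := 7) (fun _ => 6) (by decide +kernel)

theorem c10_6 : CoreAt 10 6 :=
  coreAt_of 19 21 (by decide) (by decide) (by decide) e10_6 f10_6

theorem e10_7 : Hle 22 (fun _ : Fin 10 => 7) 0 :=
  hle_cert 0 (n := 7) (fun _ => 7) (by decide +kernel)

theorem f10_7 : Hle 23 (fun _ : Fin 10 => 7) 20 :=
  hle_cert 0 (n := 7) (fun _ => 7) (by decide +kernel)

theorem c10_7 : CoreAt 10 7 :=
  coreAt_of 22 20 (by decide) (by decide) (by decide) e10_7 f10_7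

theorem e10_8 : Hle 25 (fun _ : Fin 10 => 8) 0 :=
  hle_cert 0 (n := 7) (fun _ => 8) (by decide +kernel)

theorem f10_8 : Hle 26 (fun _ : Fin 10 => 8) 18 :=
  hle_cert 0 (n := 7) (fun _ => 8) (by decide +kernel)

theorem c10_8 : CoreAt 10 8 :=
  coreAt_of 25 18 (by decide) (by decide) (by decide) e10_8 f10_8

end Pool.Agent.Lib.MP_d03834_ag.Core.Cert
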