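import Pool.Agent.Lib.MP_d03834_ag.Core.Cert

/-! Small multiplicities for 12 general points. -/

set_option autoImplicit false

namespace Pool.Agent.Lib.MP_d03834_ag.Core.Cert

theorem e12_7 : Hle 24 (fun _ : Fin 12 => 7) 0 :=
  hle_cert 0 (n := 9) (fun _ => 7) (by decide +kernel)

theorem f12_7 : Hle 25 (fun _ : Fin 12 => 7) 15 :=
  hle_cert 0 (n := 9) (fun _ => 7) (by decide +kernel)

theorem c12_7 : CoreAt 12 7 :=
  coreAt_of 24 15 (by decide) (by decide) (by decide) e12_7 f12_7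

theorem e12_8 : Hle 27 (fun _ : Fin 12 => 8) 0 :=
  hle_cert 0 (n := 9) (fun _ => 8) (by decide +kernel)

theorem f12_8 : Hle 28 (fun _ : Fin 12 => 8) 3 :=
  hle_cert 0 (n := 9) (fun _ => 8) (by decide +kernel)

theorem c12_8 : CoreAt 12 8 :=
  coreAt_of 27 3 (by decide) (by decide) (by decide) e12_8 f12_8

end Pool.Agent.Lib.MP_d03834_ag.Core.Cert
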