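import Pool.Agent.Lib.MP_d03834_ag.Core.Sm12a
import Pool.Agent.Lib.MP_d03834_ag.Core.Sm12b

/-! Small multiplicities for 12 general points, all together. -/

set_option autoImplicit false

namespace Pool.Agent.Lib.MP_d03834_ag.Core.Cert

theorem small12 {m : ℕ} (h2 : 2 ≤ m) (h : m ≤ 8) : CoreAt 12 m := by
  interval_cases m
  exacts [c12_2, c12_3, c12_4, c12_5, c12_6, c12_7, c12_8]

end Pool.Agent.Lib.MP_d03834_ag.Core.Cert
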