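import Pool.Agent.Lib.MP_d03834_ag.Core.Cert

/-! Small multiplicities for 12 general points. -/

set_option autoImplicit false

namespace Pool.Agent.Lib.MP_d03834_ag.Core.Cert

theorem e12_2 : Hle 7 (fun _ : Fin 12 => 2) 0 :=
  hle_cert 0 (n := 9) (fun _ => 2) (by decide +kernel)

theorem f12_2 : Hle 8 (fun _ : Fin 12 => 2) 9 :=
  hle_cert 0 (n := 9) (fun _ => 2) (by decide +kernel)

theorem c12_2 : CoreAt 12 2 :=
  coreAt_of 7 9 (by decide) (by decide) (by decide) e12_2 f12_2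

theorem e12_3 : Hle 10 (fun _ : Fin 12 => 3) 0 :=
  hle_cert 0 (n := 9) (fun _ => 3) (by decide +kernel)

theorem f12_3 : Hle 11 (fun _ : Fin 12 => 3) 6 :=
  hle_cert 0 (n := 9) (fun _ => 3) (by decide +kernel)

theorem c12_3 : CoreAt 12 3 :=
  coreAt_of 10 6 (by decide) (by decide) (by decide) e12_3 f12_3

theorem e12_4 : Hle 14 (fun _ : Fin 12 => 4) 0 :=
  hle_cert 0 (n := 9) (fun _ => 4) (by decide +kernel)

theorem f12_4 : Hle 15 (fun _ : Fin 12 => 4) 16 :=
  hle_cert 0 (n := 9) (fun _ => 4) (by decide +kernel)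

theorem c12_4 : CoreAt 12 4 :=
  coreAt_of 14 16 (by decide) (by decide) (by decide) e12_4 f12_4

theorem e12_5 : Hle 17 (fun _ : Fin 12 => 5) 0 :=
  hle_cert 0 (n := 9) (fun _ => 5) (by decide +kernel)

theorem f12_5 : Hle 18 (fun _ : Fin 12 => 5) 10 :=
  hle_cert 0 (n := 9) (fun _ => 5) (by decide +kernel)

theorem c12_5 : CoreAt 12 5 :=
  coreAt_of 17 10 (by decide) (by decide) (by decide) e12_5 f12_5

theorem e12_6 : Hle 20 (fun _ : Fin 12 => 6) 0 :=
  hle_cert 0 (n := 9) (fun _ => 6) (by decide +kernel)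

theorem f12_6 : Hle 21 (fun _ : Fin 12 => 6) 1 :=
  hle_cert 0 (n := 9) (fun _ => 6) (by decide +kernel)

theorem c12_6 : CoreAt 12 6 :=
  coreAt_of 20 1 (by decide) (by decide) (by decide) e12_6 f12_6

end Pool.Agent.Lib.MP_d03834_ag.Core.Cert
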