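import Pool.Agent.Lib.MP_d03834_ag.Core.Cert

/-! Small multiplicities for 14 general points. -/

set_option autoImplicit false

namespace Pool.Agent.Lib.MP_d03834_ag.Core.Cert

theorem e14_2 : Hle 7 (fun _ : Fin 14 => 2) 0 :=
  hle_cert 0 (n := 11) (fun _ => 2) (by decide +kernel)

theorem f14_2 : Hle 8 (fun _ : Fin 14 => 2) 3 :=
  hle_cert 0 (n := 11) (fun _ => 2) (by decide +kernel)

theorem c14_2 : CoreAt 14 2 :=
  coreAt_of 7 3 (by decide) (by decide) (by decide) e14_2 f14_2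

theorem e14_3 : Hle 11 (fun _ : Fin 14 => 3) 0 :=
  hle_cert 0 (n := 11) (fun _ => 3) (by decide +kernel)

theorem f14_3 : Hle 12 (fun _ : Fin 14 => 3) 7 :=
  hle_cert 0 (n := 11) (fun _ => 3) (by decide +kernel)

theorem c14_3 : CoreAt 14 3 :=
  coreAt_of 11 7 (by decide) (by decide) (by decide) e14_3 f14_3

theorem e14_4 : Hle 15 (fun _ : Fin 14 => 4) 0 :=
  hle_cert 0 (n := 11) (fun _ => 4) (by decide +kernel)

theorem f14_4 : Hle 16 (fun _ : Fin 14 => 4) 13 :=
  hle_cert 0 (n := 11) (fun _ => 4) (by decide +kernel)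

theorem c14_4 : CoreAt 14 4 :=
  coreAt_of 15 13 (by decide) (by decide) (by decide) e14_4 f14_4

theorem e14_5 : Hle 19 (fun _ : Fin 14 => 5) 0 :=
  hle_cert 0 (n := 11) (fun _ => 5) (by decide +kernel)

theorem f14_5 : Hle 20 (fun _ : Fin 14 => 5) 21 :=
  hle_cert 0 (n := 11) (fun _ => 5) (by decide +kernel)

theorem c14_5 : CoreAt 14 5 :=
  coreAt_of 19 21 (by decide) (by decide) (by decide) e14_5 f14_5

theorem e14_6 : Hle 22 (fun _ : Fin 14 => 6) 0 :=
  hle_cert 0 (n := 11) (fun _ => 6) (by decide +kernel)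

theorem f14_6 : Hle 23 (fun _ : Fin 14 => 6) 6 :=
  hle_cert 0 (n := 11) (fun _ => 6) (by decide +kernel)

theorem c14_6 : CoreAt 14 6 :=
  coreAt_of 22 6 (by decide) (by decide) (by decide) e14_6 f14_6

theorem e14_7 : Hle 26 (fun _ : Fin 14 => 7) 0 :=
  hle_cert 0 (n := 11) (fun _ => 7) (by decide +kernel)

theorem f14_7 : Hle 27 (fun _ : Fin 14 => 7) 14 :=
  hle_cert 0 (n := 11) (fun _ => 7) (by decide +kernel)

theorem c14_7 : CoreAt 14 7 :=
  coreAt_of 26 14 (by decide) (by decide) (by decide) e14_7 f14_7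

end Pool.Agent.Lib.MP_d03834_ag.Core.Cert
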