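import Pool.Agent.Lib.MP_d03834_ag.Core.Sm15a

/-! Small multiplicities for 15 general points, all together. -/

set_option autoImplicit false

namespace Pool.Agent.Lib.MP_d03834_ag.Core.Cert

theorem small15 {m : ℕ} (h2 : 2 ≤ m) (h : m ≤ 4) : CoreAt 15 m := by
  interval_cases m
  exacts [c15_2, c15_3, c15_4]

end Pool.Agent.Lib.MP_d03834_ag.Core.Cert
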