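import Pool.Agent.Lib.MP_d03834_ag.Core.Cert

/-! Small multiplicities for 15 general points. -/

set_option autoImplicit false

namespace Pool.Agent.Lib.MP_d03834_ag.Core.Cert

theorem e15_2 : Hle 8 (fun _ : Fin 15 => 2) 0 :=
  hle_cert 0 (n := 12) (fun _ => 2) (by decide +kernel)

theorem f15_2 : Hle 9 (fun _ : Fin 15 => 2) 10 :=
  hle_cert 0 (n := 12) (fun _ => 2) (by decide +kernel)

theorem c15_2 : CoreAt 15 2 :=
  coreAt_of 8 10 (by decide) (by decide) (by decide) e15_2 f15_2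

theorem e15_3 : Hle 11 (fun _ : Fin 15 => 3) 0 :=
  hle_cert 0 (n := 12) (fun _ => 3) (by decide +kernel)

theorem f15_3 : Hle 12 (fun _ : Fin 15 => 3) 1 :=
  hle_cert 0 (n := 12) (fun _ => 3) (by decide +kernel)

theorem c15_3 : CoreAt 15 3 :=
  coreAt_of 11 1 (by decide) (by decide) (by decide) e15_3 f15_3

theorem e15_4 : Hle 15 (fun _ : Fin 15 => 4) 0 :=
  hle_cert 0 (n := 12) (fun _ => 4) (by decide +kernel)

theorem f15_4 : Hle 16 (fun _ : Fin 15 => 4) 3 :=
  hle_cert 0 (n := 12) (fun _ => 4) (by decide +kernel)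

theorem c15_4 : CoreAt 15 4 :=
  coreAt_of 15 3 (by decide) (by decide) (by decide) e15_4 f15_4

end Pool.Agent.Lib.MP_d03834_ag.Core.Cert
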