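import Pool.Agent.Lib.MP_d03834_ag.Core.HarbS

/-! The critical degrees for small multiplicities, fifteen points. -/

set_option autoImplicit false

namespace Pool.Agent.Lib.MP_d03834_ag.Core

open Harb

theorem Harb.sm15 : rng 15 387 100 (fun _ _ => true) 2 269 = true := by
  decide +kernel

theorem smH15 {m d : ℕ} (hm : 2 ≤ m) (h : m ≤ 270)
    (h1 : (d + 1).choose 2 ≤ 15 * (m + 1).choose 2)
    (h2 : 15 * (m + 1).choose 2 < (d + 3).choose 2) :
    Hle d (fun _ : Fin 15 => m) ((d + 2).choose 2 - 15 * (m + 1).choose 2) :=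
  rng_sound sm15 hm (by omega) rfl h1 h2

end Pool.Agent.Lib.MP_d03834_ag.Core
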