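import Pool.Agent.Lib.MP_d03834_ag.Core.ShLat

/-! The lists of the 56 lines and of the 63 positive roots of the chart lattice. -/

set_option autoImplicit false

namespace Pool.Agent.Lib.MP_d03834_ag.Core

/-- a class from its nine coordinates -/
def cl (n J m0 m1 m2 m3 m4 c0 c1 : ℤ) : CL := ((n, J), ![m0, m1, m2, m3, m4], ![c0, c1])

/-- the nine coordinates of a class -/
def crd (u : CL) : List ℤ :=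
  [u.1.1, u.1.2, u.2.1 0, u.2.1 1, u.2.1 2, u.2.1 3, u.2.1 4, u.2.2 0, u.2.2 1]

theorem cl_eq (u : CL) : u = cl u.1.1 u.1.2 (u.2.1 0) (u.2.1 1) (u.2.1 2) (u.2.1 3) (u.2.1 4)
    (u.2.2 0) (u.2.2 1) := by
  refine Prod.ext rfl (Prod.ext (funext fun i => ?_) (funext fun i => ?_)) <;> fin_cases i <;> rfl

theorem cip_cl (u : CL) (n J m0 m1 m2 m3 m4 c0 c1 : ℤ) :
    cip u (cl n J m0 m1 m2 m3 m4 c0 c1) = u.1.1 * J + u.1.2 * n - u.1.1 * n -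
      (u.2.1 0 * m0 + u.2.1 1 * m1 + u.2.1 2 * m2 + u.2.1 3 * m3 + u.2.1 4 * m4) -
      (u.2.2 0 * c0 + u.2.2 1 * c1) := by
  simp [cip, cl, Fin.sum_univ_five]

theorem cip_cl_cl (n J m0 m1 m2 m3 m4 c0 c1 n' J' m0' m1' m2' m3' m4' c0' c1' : ℤ) :
    cip (cl n' J' m0' m1' m2' m3' m4' c0' c1') (cl n J m0 m1 m2 m3 m4 c0 c1) =
      n' * J + J' * n - n' * n - (m0' * m0 + m1' * m1 + m2' * m2 + m3' * m3 + m4' * m4) -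
      (c0' * c0 + c1' * c1) := by
  simp [cip, cl, Fin.sum_univ_five]

theorem cl_M {n J m0 m1 m2 m3 m4 c0 c1 : ℤ} :
    cl n J m0 m1 m2 m3 m4 c0 c1 ∈ cD.M ↔ m0 + m1 + m2 + m3 + m4 = 2 * J := by
  simp [cD_M, cl, Fin.sum_univ_five]

theorem cip_symm (u w : CL) : cip u w = cip w u := cD.symm u w

theorem cip_neg (u w : CL) : cip u (-w) = -cip u w := map_neg (cD.ip u) w

/-- the 56 lines -/
def lineL : List CL :=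
  [cl 0 0 0 0 0 0 0 (-1) 0, cl 0 0 0 0 0 0 0 0 (-1), cl 1 0 0 0 0 0 0 0 0, cl 1 1 0 0 0 1 1 0 0,
   cl 1 1 0 0 1 0 1 0 0, cl 1 1 0 0 1 1 0 0 0, cl 1 1 0 1 0 0 1 0 0, cl 1 1 0 1 0 1 0 0 0,
   cl 1 1 0 1 1 0 0 0 0, cl 1 1 1 0 0 0 1 0 0, cl 1 1 1 0 0 1 0 0 0, cl 1 1 1 0 1 0 0 0 0,
   cl 1 1 1 1 0 0 0 0 0, cl 1 2 0 1 1 1 1 0 0, cl 1 2 1 0 1 1 1 0 0, cl 1 2 1 1 0 1 1 0 0,
   cl 1 2 1 1 1 0 1 0 0, cl 1 2 1 1 1 1 0 0 0, cl 2 2 0 1 1 1 1 0 1, cl 2 2 1 0 1 1 1 0 1,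
   cl 2 2 1 1 0 1 1 0 1, cl 2 2 1 1 1 0 1 0 1, cl 2 2 1 1 1 1 0 0 1, cl 2 2 0 1 1 1 1 1 0,
   cl 2 2 1 0 1 1 1 1 0, cl 2 2 1 1 0 1 1 1 0, cl 2 2 1 1 1 0 1 1 0, cl 2 2 1 1 1 1 0 1 0,
   cl 2 3 1 1 1 1 2 0 1, cl 2 3 1 1 1 2 1 0 1, cl 2 3 1 1 2 1 1 0 1, cl 2 3 1 2 1 1 1 0 1,
   cl 2 3 2 1 1 1 1 0 1, cl 2 3 1 1 1 1 2 1 0, cl 2 3 1 1 1 2 1 1 0, cl 2 3 1 1 2 1 1 1 0,
   cl 2 3 1 2 1 1 1 1 0, cl 2 3 2 1 1 1 1 1 0, cl 3 3 1 1 1 1 2 1 1, cl 3 3 1 1 1 2 1 1 1,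
   cl 3 3 1 1 2 1 1 1 1, cl 3 3 1 2 1 1 1 1 1, cl 3 3 2 1 1 1 1 1 1, cl 3 4 1 1 2 2 2 1 1,
   cl 3 4 1 2 1 2 2 1 1, cl 3 4 1 2 2 1 2 1 1, cl 3 4 1 2 2 2 1 1 1, cl 3 4 2 1 1 2 2 1 1,
   cl 3 4 2 1 2 1 2 1 1, cl 3 4 2 1 2 2 1 1 1, cl 3 4 2 2 1 1 2 1 1, cl 3 4 2 2 1 2 1 1 1,
   cl 3 4 2 2 2 1 1 1 1, cl 3 5 2 2 2 2 2 1 1, cl 4 5 2 2 2 2 2 1 2, cl 4 5 2 2 2 2 2 2 1]

/-- the 63 positive roots -/
def rootL : List CL :=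
  [cl 0 0 0 0 0 1 (-1) 0 0, cl 0 0 0 0 1 (-1) 0 0 0, cl 0 0 0 0 1 0 (-1) 0 0,
   cl 0 0 0 1 (-1) 0 0 0 0, cl 0 0 0 1 0 (-1) 0 0 0, cl 0 0 0 1 0 0 (-1) 0 0,
   cl 0 0 1 (-1) 0 0 0 0 0, cl 0 0 1 0 (-1) 0 0 0 0, cl 0 0 1 0 0 (-1) 0 0 0,
   cl 0 0 1 0 0 0 (-1) 0 0, cl 0 0 0 0 0 0 0 1 (-1), cl 0 1 0 0 0 1 1 0 0, cl 0 1 0 0 1 0 1 0 0,
   cl 0 1 0 0 1 1 0 0 0, cl 0 1 0 1 0 0 1 0 0, cl 0 1 0 1 0 1 0 0 0, cl 0 1 0 1 1 0 0 0 0,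
   cl 0 1 1 0 0 0 1 0 0, cl 0 1 1 0 0 1 0 0 0, cl 0 1 1 0 1 0 0 0 0, cl 0 1 1 1 0 0 0 0 0,
   cl 1 0 0 0 0 0 0 0 1, cl 1 0 0 0 0 0 0 1 0, cl 1 1 0 0 0 1 1 0 1, cl 1 1 0 0 1 0 1 0 1,
   cl 1 1 0 0 1 1 0 0 1, cl 1 1 0 1 0 0 1 0 1, cl 1 1 0 1 0 1 0 0 1, cl 1 1 0 1 1 0 0 0 1,
   cl 1 1 1 0 0 0 1 0 1, cl 1 1 1 0 0 1 0 0 1, cl 1 1 1 0 1 0 0 0 1, cl 1 1 1 1 0 0 0 0 1,
   cl 1 1 0 0 0 1 1 1 0, cl 1 1 0 0 1 0 1 1 0, cl 1 1 0 0 1 1 0 1 0, cl 1 1 0 1 0 0 1 1 0,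
   cl 1 1 0 1 0 1 0 1 0, cl 1 1 0 1 1 0 0 1 0, cl 1 1 1 0 0 0 1 1 0, cl 1 1 1 0 0 1 0 1 0,
   cl 1 1 1 0 1 0 0 1 0, cl 1 1 1 1 0 0 0 1 0, cl 1 2 0 1 1 1 1 0 1, cl 1 2 1 0 1 1 1 0 1,
   cl 1 2 1 1 0 1 1 0 1, cl 1 2 1 1 1 0 1 0 1, cl 1 2 1 1 1 1 0 0 1, cl 1 2 0 1 1 1 1 1 0,
   cl 1 2 1 0 1 1 1 1 0, cl 1 2 1 1 0 1 1 1 0, cl 1 2 1 1 1 0 1 1 0, cl 1 2 1 1 1 1 0 1 0,
   cl 2 2 0 1 1 1 1 1 1, cl 2 2 1 0 1 1 1 1 1, cl 2 2 1 1 0 1 1 1 1, cl 2 2 1 1 1 0 1 1 1,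
   cl 2 2 1 1 1 1 0 1 1, cl 2 3 1 1 1 1 2 1 1, cl 2 3 1 1 1 2 1 1 1, cl 2 3 1 1 2 1 1 1 1,
   cl 2 3 1 2 1 1 1 1 1, cl 2 3 2 1 1 1 1 1 1]

/-- the integers a, a + 1, .., a + k - 1 -/
def rgZ (a : ℤ) (k : ℕ) : List ℤ := (List.range k).map fun i : ℕ => a + i

theorem mem_rgZ {a x : ℤ} {k : ℕ} (h1 : a ≤ x) (h2 : x < a + k) : x ∈ rgZ a k :=
  List.mem_map.2 ⟨(x - a).toNat, List.mem_range.2 (by omega), by omega⟩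

theorem sq_bd {x c B : ℤ} (b : ℤ) (h : c * x ^ 2 ≤ B) (hc : 0 < c) (h0 : 0 ≤ b)
    (hb : B < c * (b + 1) ^ 2) : -b ≤ x ∧ x ≤ b := by
  have h1 : x ^ 2 < (b + 1) ^ 2 := lt_of_mul_lt_mul_left (h.trans_lt hb) hc.le
  have h2 := abs_lt_of_sq_lt_sq' h1 (by omega)
  omega

theorem lineL_line : ∀ g ∈ lineL, g ∈ cD.lat.Λ := by decide +kernel

theorem rootL_root : ∀ g ∈ rootL, g ∈ cD.lat.Φ := by decide +kernel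

theorem rootL_pos : ∀ g ∈ rootL, 0 ≤ cip hC g := by decide +kernel

theorem line_fin : ∀ n ∈ rgZ 0 5, ∀ J ∈ rgZ (-1) 8, ∀ c ∈ rgZ (-1) 4,
    4 * J * J ≤ 5 * (2 * n * J - n * n + 1 - c * c - (n - 1 - c) * (n - 1 - c)) →
    ∀ m0 ∈ rgZ ((2 * J - 2) / 5) 3, ∀ m1 ∈ rgZ ((2 * J - 2) / 5) 3,
    ∀ m2 ∈ rgZ ((2 * J - 2) / 5) 3, ∀ m3 ∈ rgZ ((2 * J - 2) / 5) 3,
    m0 * m0 + m1 * m1 + m2 * m2 + m3 * m3 +
      (2 * J - m0 - m1 - m2 - m3) * (2 * J - m0 - m1 - m2 - m3) =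
      2 * n * J - n * n + 1 - c * c - (n - 1 - c) * (n - 1 - c) →
    cl n J m0 m1 m2 m3 (2 * J - m0 - m1 - m2 - m3) c (n - 1 - c) ∈ lineL := by
  decide +kernel

theorem root_fin : ∀ n ∈ rgZ (-2) 5, ∀ J ∈ rgZ (-4) 9, ∀ c ∈ rgZ (-2) 5,
    4 * J * J ≤ 5 * (2 * n * J - n * n + 2 - c * c - (n - c) * (n - c)) →
    ∀ m0 ∈ rgZ ((2 * J - 3) / 5) 3, ∀ m1 ∈ rgZ ((2 * J - 3) / 5) 3,
    ∀ m2 ∈ rgZ ((2 * J - 3) / 5) 3, ∀ m3 ∈ rgZ ((2 * J - 3) / 5) 3,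
    m0 * m0 + m1 * m1 + m2 * m2 + m3 * m3 +
      (2 * J - m0 - m1 - m2 - m3) * (2 * J - m0 - m1 - m2 - m3) =
      2 * n * J - n * n + 2 - c * c - (n - c) * (n - c) →
    cl n J m0 m1 m2 m3 (2 * J - m0 - m1 - m2 - m3) c (n - c) ∈ rootL ∨
      -cl n J m0 m1 m2 m3 (2 * J - m0 - m1 - m2 - m3) c (n - c) ∈ rootL := by
  decide +kernel

/-- the list of lines is complete -/
theorem line_mem {g : CL} (hg : g ∈ cD.lat.Λ) : g ∈ lineL := by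
  rw [cl_eq g] at hg ⊢
  generalize g.1.1 = n, g.1.2 = J, g.2.1 0 = m0, g.2.1 1 = m1, g.2.1 2 = m2, g.2.1 3 = m3,
    g.2.1 4 = m4, g.2.2 0 = c, g.2.2 1 = c1 at hg ⊢
  obtain ⟨h1, h2, h3⟩ := hg
  rw [cl_M] at h3
  rw [cD_ip, cip_cl_cl] at h1
  change cip _ (cl 4 5 2 2 2 2 2 1 1) = 1 at h2
  rw [cip_cl_cl] at h2
  obtain rfl : m4 = 2 * J - m0 - m1 - m2 - m3 := by omega
  obtain rfl : c1 = n - 1 - c := by omega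
  have key : 4 * (10 * m0 - 4 * J) ^ 2 + 4 * (10 * m1 - 4 * J) ^ 2 + 4 * (10 * m2 - 4 * J) ^ 2 +
      4 * (10 * m3 - 4 * J) ^ 2 + 4 * (10 * (2 * J - m0 - m1 - m2 - m3) - 4 * J) ^ 2 +
      25 * (4 * c - 2 * n + 2) ^ 2 + 25 * (4 * (n - 1 - c) - 2 * n + 2) ^ 2 +
      5 * (8 * J - 10 * n) ^ 2 + 25 * (2 * n - 4) ^ 2 = 600 := by
    linear_combination (-400) * h1
  have k0 := sq_nonneg (10 * m0 - 4 * J)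
  have k1 := sq_nonneg (10 * m1 - 4 * J)
  have k2 := sq_nonneg (10 * m2 - 4 * J)
  have k3 := sq_nonneg (10 * m3 - 4 * J)
  have k4 := sq_nonneg (10 * (2 * J - m0 - m1 - m2 - m3) - 4 * J)
  have k5 := sq_nonneg (4 * c - 2 * n + 2)
  have k6 := sq_nonneg (4 * (n - 1 - c) - 2 * n + 2)
  have k7 := sq_nonneg (8 * J - 10 * n)
  have k8 := sq_nonneg (2 * n - 4)
  have b0 := sq_bd (x := 10 * m0 - 4 * J) (c := 4) (B := 600) 12 (by omega) (by omega) (by omega)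
    (by norm_num)
  have b1 := sq_bd (x := 10 * m1 - 4 * J) (c := 4) (B := 600) 12 (by omega) (by omega) (by omega)
    (by norm_num)
  have b2 := sq_bd (x := 10 * m2 - 4 * J) (c := 4) (B := 600) 12 (by omega) (by omega) (by omega)
    (by norm_num)
  have b3 := sq_bd (x := 10 * m3 - 4 * J) (c := 4) (B := 600) 12 (by omega) (by omega) (by omega)
    (by norm_num)
  have b5 := sq_bd (x := 4 * c - 2 * n + 2) (c := 25) (B := 600) 4 (by omega) (by omega)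
    (by omega) (by norm_num)
  have b7 := sq_bd (x := 8 * J - 10 * n) (c := 5) (B := 600) 10 (by omega) (by omega) (by omega)
    (by norm_num)
  have b8 := sq_bd (x := 2 * n - 4) (c := 25) (B := 600) 4 (by omega) (by omega) (by omega)
    (by norm_num)
  refine line_fin n (mem_rgZ (by omega) (by omega)) J (mem_rgZ (by omega) (by omega)) c
    (mem_rgZ (by omega) (by omega)) ?_ m0 (mem_rgZ (by omega) (by omega)) m1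
    (mem_rgZ (by omega) (by omega)) m2 (mem_rgZ (by omega) (by omega)) m3
    (mem_rgZ (by omega) (by omega)) (by linear_combination (-1) * h1)
  nlinarith

/-- the list of roots is complete up to sign -/
theorem root_mem {g : CL} (hg : g ∈ cD.lat.Φ) : g ∈ rootL ∨ -g ∈ rootL := by
  rw [cl_eq g] at hg ⊢
  generalize g.1.1 = n, g.1.2 = J, g.2.1 0 = m0, g.2.1 1 = m1, g.2.1 2 = m2, g.2.1 3 = m3,
    g.2.1 4 = m4, g.2.2 0 = c, g.2.2 1 = c1 at hg ⊢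
  obtain ⟨h1, h2, h3⟩ := hg
  rw [cl_M] at h3
  rw [cD_ip, cip_cl_cl] at h1
  change cip _ (cl 4 5 2 2 2 2 2 1 1) = 0 at h2
  rw [cip_cl_cl] at h2
  obtain rfl : m4 = 2 * J - m0 - m1 - m2 - m3 := by omega
  obtain rfl : c1 = n - c := by omega
  have key : 4 * (5 * m0 - 2 * J) ^ 2 + 4 * (5 * m1 - 2 * J) ^ 2 + 4 * (5 * m2 - 2 * J) ^ 2 +
      4 * (5 * m3 - 2 * J) ^ 2 + 4 * (5 * (2 * J - m0 - m1 - m2 - m3) - 2 * J) ^ 2 +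
      25 * (2 * c - n) ^ 2 + 25 * (2 * (n - c) - n) ^ 2 +
      5 * (4 * J - 5 * n) ^ 2 + 25 * n ^ 2 = 200 := by
    linear_combination (-100) * h1
  have k0 := sq_nonneg (5 * m0 - 2 * J)
  have k1 := sq_nonneg (5 * m1 - 2 * J)
  have k2 := sq_nonneg (5 * m2 - 2 * J)
  have k3 := sq_nonneg (5 * m3 - 2 * J)
  have k4 := sq_nonneg (5 * (2 * J - m0 - m1 - m2 - m3) - 2 * J)
  have k5 := sq_nonneg (2 * c - n)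
  have k6 := sq_nonneg (2 * (n - c) - n)
  have k7 := sq_nonneg (4 * J - 5 * n)
  have k8 := sq_nonneg n
  have b0 := sq_bd (x := 5 * m0 - 2 * J) (c := 4) (B := 200) 7 (by omega) (by omega) (by omega)
    (by norm_num)
  have b1 := sq_bd (x := 5 * m1 - 2 * J) (c := 4) (B := 200) 7 (by omega) (by omega) (by omega)
    (by norm_num)
  have b2 := sq_bd (x := 5 * m2 - 2 * J) (c := 4) (B := 200) 7 (by omega) (by omega) (by omega)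
    (by norm_num)
  have b3 := sq_bd (x := 5 * m3 - 2 * J) (c := 4) (B := 200) 7 (by omega) (by omega) (by omega)
    (by norm_num)
  have b5 := sq_bd (x := 2 * c - n) (c := 25) (B := 200) 2 (by omega) (by omega) (by omega)
    (by norm_num)
  have b7 := sq_bd (x := 4 * J - 5 * n) (c := 5) (B := 200) 6 (by omega) (by omega) (by omega)
    (by norm_num)
  have b8 := sq_bd (x := n) (c := 25) (B := 200) 2 (by omega) (by omega) (by omega) (by norm_num)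
  refine root_fin n (mem_rgZ (by omega) (by omega)) J (mem_rgZ (by omega) (by omega)) c
    (mem_rgZ (by omega) (by omega)) ?_ m0 (mem_rgZ (by omega) (by omega)) m1
    (mem_rgZ (by omega) (by omega)) m2 (mem_rgZ (by omega) (by omega)) m3
    (mem_rgZ (by omega) (by omega)) (by linear_combination (-1) * h1)
  nlinarith

theorem lineL_iff {g : CL} : g ∈ cD.lat.Λ ↔ g ∈ lineL := ⟨line_mem, lineL_line g⟩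

end Pool.Agent.Lib.MP_d03834_ag.Core
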