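import Pool.Agent.Lib.MP_d03834_ag.Core.T5G

/-! Integral elements of the fraction field with a given residue, and the fold for
configurations given by formulas in the fraction field. -/

set_option autoImplicit false

namespace Pool.Agent.Lib.MP_d03834_ag.Core

open Module

variable {O k K : Type} [CommRing O] [Field k] [Field K] [Algebra O K]

/-- x is integral with residue a -/
def Rs (π : O →+* k) (x : K) (a : k) : Prop := ∃ y : O, algebraMap O K y = x ∧ π y = a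

variable {π : O →+* k} {x y : K} {a b : k}

theorem Rs.alg (z : O) : Rs π (algebraMap O K z) (π z) := ⟨z, rfl, rfl⟩

theorem Rs.zero : Rs π (0 : K) 0 := ⟨0, map_zero _, map_zero _⟩

theorem Rs.one : Rs π (1 : K) 1 := ⟨1, map_one _, map_one _⟩

theorem Rs.nat (n : ℕ) : Rs π (n : K) n := ⟨n, map_natCast _ n, map_natCast _ n⟩

theorem Rs.add (h : Rs π x a) (h' : Rs π y b) : Rs π (x + y) (a + b) := by
  obtain ⟨u, rfl, rfl⟩ := h
  obtain ⟨v, rfl, rfl⟩ := h'
  exact ⟨u + v, map_add _ _ _, map_add _ _ _⟩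

theorem Rs.sub (h : Rs π x a) (h' : Rs π y b) : Rs π (x - y) (a - b) := by
  obtain ⟨u, rfl, rfl⟩ := h
  obtain ⟨v, rfl, rfl⟩ := h'
  exact ⟨u - v, map_sub _ _ _, map_sub _ _ _⟩

theorem Rs.neg (h : Rs π x a) : Rs π (-x) (-a) := by
  obtain ⟨u, rfl, rfl⟩ := h
  exact ⟨-u, map_neg _ _, map_neg _ _⟩

theorem Rs.mul (h : Rs π x a) (h' : Rs π y b) : Rs π (x * y) (a * b) := by
  obtain ⟨u, rfl, rfl⟩ := h
  obtain ⟨v, rfl, rfl⟩ := h'
  exact ⟨u * v, map_mul _ _ _, map_mul _ _ _⟩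

theorem Rs.pow (h : Rs π x a) (n : ℕ) : Rs π (x ^ n) (a ^ n) := by
  obtain ⟨u, rfl, rfl⟩ := h
  exact ⟨u ^ n, map_pow _ _ _, map_pow _ _ _⟩

theorem Rs.of_eq {a' : k} (h : Rs π x a) (e : a = a') : Rs π x a' := e ▸ h

theorem Rs.ne (hπ : ∀ z, π z ≠ 0 → IsUnit z) (h : Rs π x a) (ha : a ≠ 0) : x ≠ 0 := by
  obtain ⟨u, rfl, rfl⟩ := h
  exact ((hπ u ha).map _).ne_zero

theorem Rs.div (hπ : ∀ z, π z ≠ 0 → IsUnit z) (h : Rs π x a) (h' : Rs π y b) (hb : b ≠ 0) :
    Rs π (x / y) (a / b) := by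
  have h0 := h'.ne hπ hb
  obtain ⟨u, rfl, rfl⟩ := h
  obtain ⟨v, rfl, rfl⟩ := h'
  obtain ⟨w, hw⟩ := (hπ v hb).exists_right_inv
  refine ⟨u * w, ?_, ?_⟩
  · rw [eq_div_iff h0, ← map_mul, mul_assoc, mul_comm w, hw, mul_one]
  · rw [eq_div_iff hb, ← map_mul, mul_assoc, mul_comm w, hw, mul_one]

open Classical in
/-- the fold along the fibre x = u for points given in the fraction field -/
theorem t5_rs [IsDomain O] [ValuationRing O] [IsFractionRing O K] {ι : Type}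
    (hπ : ∀ z, π z ≠ 0 → IsUnit z) {t : O} (ht0 : t ≠ 0) (ht : π t = 0) {X : ι → Fin 4 → K}
    {X0 : ι → Fin 4 → k} (h : ∀ l c, Rs π (X l c) (X0 l c)) (pt : ∀ l, Pt (X0 l))
    {e : Fin 3 → ι} {a b : Fin 2 → ι} {u : K} {u0 : k} (hu : Rs π u u0) {ξ : Fin 3 → K}
    {ξ0 : Fin 3 → k} (hξ : ∀ i, Rs π (ξ i) (ξ0 i))
    (e0 : ∀ i, X (e i) 0 = u + algebraMap O K t * ξ i) (e1 : ∀ i, X (e i) 1 = 1)
    (e3 : ∀ i, X (e i) 3 = 1) (a2 : ∀ s, X (a s) 2 = 0) (b3 : ∀ s, X (b s) 3 = 0)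
    (a0 : ∀ s, X0 (a s) 0 ≠ u0 * X0 (a s) 1) (b0 : ∀ s, X0 (b s) 0 ≠ u0 * X0 (b s) 1)
    (aa : dx (X0 (a 0)) (X0 (a 1)) ≠ 0) (bb : dx (X0 (b 0)) (X0 (b 1)) ≠ 0) {al be ga : k}
    (tri : Tri ξ0 (fun i => X0 (e i) 2) al be ga) {p q κ ε : ℤ} {m : ι → ℤ}
    (hε : ε = 0 ∨ ε = 1) (h0 : 0 ≤ κ + ε) (ha : p ≤ m (a 0) + m (a 1))
    (hb : p ≤ m (b 0) + m (b 1)) (he : q + κ ≤ m (e 0) + m (e 1) + m (e 2)) :
    (finrank K (H0 p q X m) : ℤ) ≤ ε * ((κ + 2) / 2) +
      finrank k (H0 (p - (κ + ε)) (q - 2 * ((κ + ε + 1) / 2)) X0 fun l =>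
        m l - (if X0 l 0 = u0 * X0 l 1 then κ + ε else 0) -
          (if X0 l 2 = 0 then (κ + ε + 1) / 2 else 0) -
          (if X0 l 3 = 0 then (κ + ε + 1) / 2 else 0)) := by
  have hi := IsFractionRing.injective O K
  choose Y hY hY0 using h
  choose η hη hη0 using hξ
  obtain ⟨v, rfl, rfl⟩ := hu
  obtain rfl : X = fun l c => algebraMap O K (Y l c) := funext fun l => funext fun c => (hY l c).symm
  obtain rfl : X0 = fun l c => π (Y l c) := funext fun l => funext fun c => (hY0 l c).symm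
  obtain rfl : ξ0 = fun i => π (η i) := funext fun i => (hη0 i).symm
  let P : ι → Fin 4 → O := fun l => ![Y l 0 - v * Y l 1, Y l 1, Y l 2, Y l 3]
  have z : ∀ {w : O}, algebraMap O K w = 0 → w = 0 := fun e => hi (e.trans (map_zero _).symm)
  have o : ∀ {w : O}, algebraMap O K w = 1 → w = 1 := fun e => hi (e.trans (map_one _).symm)
  have d1 : ∀ {F : Type} [Field F] (w : F), (1 : F) * 1 - -w * 0 ≠ 0 := fun w => by simp
  have d2 : ∀ {F : Type} [Field F], (1 : F) * 1 - 0 * 0 ≠ 0 := by simp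
  have q0 : (fun l c => π (P l c)) = fun l => act 1 (-π v) 0 1 1 0 0 1 fun c => π (Y l c) :=
    funext fun l => funext fun c => by fin_cases c <;> simp [P, act, sub_eq_add_neg]
  have q1 : (fun l c => algebraMap O K (P l c)) =
      fun l => act 1 (-algebraMap O K v) 0 1 1 0 0 1 fun c => algebraMap O K (Y l c) :=
    funext fun l => funext fun c => by fin_cases c <;> simp [P, act, sub_eq_add_neg]
  have ptK : ∀ l, Pt fun c => algebraMap O K (Y l c) := fun l =>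
    ⟨(pt l).1.imp (fun h e => h (by simp [z e])) fun h e => h (by simp [z e]),
      (pt l).2.imp (fun h e => h (by simp [z e])) fun h e => h (by simp [z e])⟩
  have T : T5 π t P e a b η (fun i => Y (e i) 2) al be ga := by
    refine ⟨⟨fun l => congrFun q0 l ▸ (pt l).act45 (d1 _) d2, fun s => ?_, fun s => ?_, fun s => ?_,
      fun s => ?_, ?_, ?_⟩, tri, fun i => ?_, fun s => z (a2 s), fun s => z (b3 s)⟩
    · simp [P, z (a2 s)]
    · simp [P, z (b3 s)]
    · simpa [P, sub_eq_zero] using a0 s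
    · simpa [P, sub_eq_zero] using b0 s
    · refine fun e => aa ?_
      simp only [dx, P] at e ⊢
      simp at e
      linear_combination e
    · refine fun e => bb ?_
      simp only [dx, P] at e ⊢
      simp at e
      linear_combination e
    · have : Y (e i) 0 = v + t * η i := hi (by rw [map_add, map_mul, hη]; exact e0 i)
      simp [P, this, o (e1 i), o (e3 i)]
  have k1 := t5_int (K := K) hπ ht0 ht T hε h0 ha hb he
  have k2 := rk_lin45 (d1 (algebraMap O K v)) d2 p q ptK m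
  have k3 := rk_lin (d1 (π v)) d2 (p - (κ + ε)) (q - 2 * ((κ + ε + 1) / 2)) (fun l c => π (Y l c))
    (red (κ + ε).toNat (fun l c => π (P l c)) m)
  rw [← q1] at k2
  rw [← q0] at k3
  have k4 : red (κ + ε).toNat (fun l c => π (P l c)) m = fun l =>
      m l - (if π (Y l 0) = π v * π (Y l 1) then κ + ε else 0) -
        (if π (Y l 2) = 0 then (κ + ε + 1) / 2 else 0) -
        (if π (Y l 3) = 0 then (κ + ε + 1) / 2 else 0) := funext fun l => by
    by_cases c0 : π (Y l 0) = π v * π (Y l 1) <;> by_cases c2 : π (Y l 2) = 0 <;>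
      by_cases c3 : π (Y l 3) = 0 <;> simp [red, P, sub_eq_zero, c0, c2, c3] <;> omega
  rw [k4] at k1 k3
  exact (Int.ofNat_le.2 k2).trans (k1.trans (add_le_add le_rfl (Int.ofNat_le.2 k3)))

end Pool.Agent.Lib.MP_d03834_ag.Core
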