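import Pool.Agent.Lib.MP_d03834_ag.Core.TenU
import Pool.Agent.Lib.MP_d03834_ag.Core.BiPlane
import Pool.Agent.Lib.MP_d03834_ag.Core.TwoSh

/-! Ten general points, four of the same multiplicity: the chart and the class on the shape. -/

set_option autoImplicit false

namespace Pool.Agent.Lib.MP_d03834_ag.Core

open Module

/-- the multiplicities in the fibre frame -/
def tenM (d b : ℤ) (a : Fin 6 → ℤ) : Ix → ℤ
  | .inl i => ![a 2, a 4, a 5, d - 2 * b, 2 * d - a 0 - a 1 - a 3 - 2 * b] i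
  | .inr (.inl s) => ![d - a 1 - b, b] s
  | .inr (.inr s) => ![2 * d - a 0 - a 1 - 3 * b, d - a 0 - b] s

/-- the degree in x in the fibre frame -/
def tenP (d b : ℤ) (a : Fin 6 → ℤ) : ℤ := 2 * d - a 0 - a 1 - 2 * b

/-- the degree in y in the fibre frame -/
def tenQ (d b : ℤ) (a : Fin 6 → ℤ) : ℤ := 3 * d - a 0 - a 1 - a 3 - 4 * b

/-- the plane points which belong to the points of the chart -/
def tenG : Option Ix → Fin 6 ⊕ Fin 4
  | none => .inr 1
  | some (.inl i) => ![.inl 2, .inl 4, .inl 5, .inl 3, .inr 0] i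
  | some (.inr (.inl s)) => ![.inl 0, .inr 3] s
  | some (.inr (.inr s)) => ![.inr 2, .inl 1] s

theorem ten_all {Q : Fin 6 ⊕ Fin 4 → Prop} (a0 : Q (.inl 0)) (a1 : Q (.inl 1)) (a2 : Q (.inl 2))
    (a3 : Q (.inl 3)) (a4 : Q (.inl 4)) (a5 : Q (.inl 5)) (b0 : Q (.inr 0)) (b1 : Q (.inr 1))
    (b2 : Q (.inr 2)) (b3 : Q (.inr 3)) : ∀ l, Q l := by
  rintro (i | i) <;> fin_cases i
  exacts [a0, a1, a2, a3, a4, a5, b0, b1, b2, b3]

/-- two quadratic transformations and the chart -/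
theorem ten_of_chart {K : Type} [Field K] [Algebra ℂ K] {d b r : ℕ} {a : Fin 6 → ℕ}
    (P : Ix → Fin 4 → K) (hP : ∀ l, Pt (P l))
    (h : finrank K (H0 (tenP d b fun i => a i) (tenQ d b fun i => a i) P
      (tenM d b fun i => a i)) ≤ r) : Hle d (ten a b) r := by
  have e : ten a b = fun l => (Sum.elim (fun i => (a i : ℤ)) (fun _ => (b : ℤ)) l).toNat := by
    funext l
    rcases l with i | i <;> simp [ten]
  rw [e]
  have i1 : Function.Injective (![.inl 0, .inl 1, .inr 0] : Fin 3 → Fin 6 ⊕ Fin 4) := by decide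
  have i2 : Function.Injective (![.inl 3, .inr 0, .inr 1] : Fin 3 → Fin 6 ⊕ Fin 4) := by decide
  by_cases n1 : 2 * (d : ℤ) < a 0 + a 1 + b
  · exact Hle.crem_neg i1 (by simpa using n1)
  obtain ⟨d1, h1⟩ := Int.eq_ofNat_of_zero_le (a := 2 * d - (a 0 + a 1 + b)) (by omega)
  refine Hle.crem i1 (d' := d1) (μ' := Sum.elim
    ![d - a 1 - b, d - a 0 - b, a 2, a 3, a 4, a 5] ![d - a 0 - a 1, b, b, b])
    (by simpa using h1.symm) (fun i => by fin_cases i <;> simp <;> omega) ?_ ?_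
  · refine ten_all ?_ ?_ ?_ ?_ ?_ ?_ ?_ ?_ ?_ ?_ <;>
      first | exact fun h => absurd (by decide) h | simp
  by_cases n2 : 2 * (d1 : ℤ) < a 3 + (d - a 0 - a 1) + b
  · exact Hle.crem_neg i2 (by simpa using n2)
  obtain ⟨d2, h2⟩ :=
    Int.eq_ofNat_of_zero_le (a := 2 * d1 - (a 3 + (d - a 0 - a 1) + b)) (by omega)
  refine Hle.crem i2 (d' := d2) (μ' := Sum.elim
    ![d - a 1 - b, d - a 0 - b, a 2, d - 2 * b, a 4, a 5]
    ![2 * d - a 0 - a 1 - a 3 - 2 * b, d - a 3 - b, b, b])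
    (by simpa using h2.symm) (fun i => by fin_cases i <;> simp <;> omega) ?_ ?_
  · refine ten_all ?_ ?_ ?_ ?_ ?_ ?_ ?_ ?_ ?_ ?_ <;>
      first | exact fun h => absurd (by decide) h | simp
  refine hle_chartZ tenG (by decide) (.inr (.inr 0)) P hP _ (by simp [tenG, tenP]; omega)
    (by simp [tenG, tenQ]; omega) (by simp [tenG, tenM]; omega) ?_ h
  refine ix_all ?_ ?_ ?_ ?_ ?_ ?_ ?_ (fun h => absurd rfl h) ?_ <;> simp [tenG, tenM]

/-- the class on the shape; k is the degree on the canonical class -/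
def tenU (d b : ℤ) (a : Fin 6 → ℤ) (k ε : ℤ) : CL :=
  ((d - a 0 - 2 * k, tenP d b a - 2 * k),
    ![a 2 - k, a 4 - k, a 5 - k, d - a 0 - a 1 - k, a 3 - k], ![2 * b + a 0 - d, k + ε])

theorem tenU_M {d b k : ℤ} {a : Fin 6 → ℤ} (hk : k = ∑ i, a i + 4 * b - 3 * d) (ε : ℤ) :
    tenU d b a k ε ∈ cD.M := by
  rw [Fin.sum_univ_six] at hk
  simp only [cD_M, tenU, tenP, Fin.sum_univ_five, Matrix.cons_val_zero, Matrix.cons_val_one,
    Matrix.cons_val]
  omega

theorem tenU_sq {d b k : ℤ} {a : Fin 6 → ℤ} (hk : k = ∑ i, a i + 4 * b - 3 * d) (ε : ℤ) :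
    cip (tenU d b a k ε) (tenU d b a k ε) =
      d ^ 2 - ∑ i, a i ^ 2 - 4 * b ^ 2 - ε * (2 * k + ε) := by
  rw [Fin.sum_univ_six] at hk
  simp only [cip, tenU, tenP, Fin.sum_univ_five, Fin.sum_univ_two, Fin.sum_univ_six,
    Matrix.cons_val_zero, Matrix.cons_val_one, Matrix.cons_val]
  subst hk
  ring

/-- the multiplicities after removing the curves R, A, B -/
def tenR (j : ℤ) (m : Ix → ℤ) : Ix → ℤ
  | .inl i => m (.inl i) - ![j, j, j, 0, 0] i
  | .inr s => m (.inr s) - (j + 1) / 2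

theorem ten_le {O k' K : Type} [CommRing O] [IsDomain O] [Field k'] [Field K] [Algebra O K]
    {A : Arc O k'} {c : Cfg O k'} {la mu : O} (h : Rex A c la mu)
    (hi : Function.Injective (algebraMap O K)) {d b k ε : ℤ} {a : Fin 6 → ℤ}
    (hk : k = ∑ i, a i + 4 * b - 3 * d) :
    finrank K (H0 (tenP d b a - (k + ε)) (tenQ d b a - 2 * ((k + ε + 1) / 2)) (c.fb A K la mu)
      (tenR (k + ε) (tenM d b a))) ≤ finrank K (c.H A K ε (tenU d b a k ε)) := by
  rw [Fin.sum_univ_six] at hk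
  refine h.le hi ?_ ?_ (ix_all ?_ ?_ ?_ ?_ ?_ ?_ ?_ ?_ ?_) <;>
    simp [dgx, dgy, par, mlt, grM, tenU, tenP, tenQ, tenM, tenR] <;> omega

end Pool.Agent.Lib.MP_d03834_ag.Core
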