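import Pool.Agent.Lib.MP_d03834_ag.Core.Ten
import Pool.Agent.Lib.MP_d03834_ag.Core.Crem

/-! Ten points, four of the same multiplicity: the two bounds and their consequences. -/

set_option autoImplicit false

namespace Pool.Agent.Lib.MP_d03834_ag.Core

open H19

/-- six multiplicities and four times the multiplicity b -/
def ten (a : Fin 6 → ℕ) (b : ℕ) : Fin 6 ⊕ Fin 4 → ℕ := Sum.elim a fun _ => b

/-- the upper bound one plus half of the square -/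
def PU : Prop := ∀ (d b u : ℕ) (a : Fin 6 → ℕ), 3 * d ≤ ∑ i, a i + 4 * b →
  ∑ i, a i ^ 2 + 4 * b ^ 2 < d ^ 2 → d ^ 2 < ∑ i, a i ^ 2 + 4 * b ^ 2 + 2 * u → Hle d (ten a b) u

/-- the exact count -/
def PS : Prop := ∀ (d b r : ℕ) (a : Fin 6 → ℕ), 3 * d ≤ ∑ i, a i + 4 * b →
  ∑ i, a i ^ 2 + 4 * b ^ 2 + 2 * a 5 + 1 < d ^ 2 →
    tn (d + 1) ≤ ∑ i, tn (a i) + 4 * tn b + r → Hle d (ten a b) r

/-- the quadratic transformation at three of the six points -/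
def PC : Prop := ∀ d d' b r a0 a1 a2 a3 a4 a5 c0 c4 c5 : ℕ, d' + a0 + a4 + a5 = 2 * d →
  c0 + a4 + a5 = d → c4 + a0 + a5 = d → c5 + a0 + a4 = d →
    Hle d' (ten ![c0, a1, a2, a3, c4, c5] b) r → Hle d (ten ![a0, a1, a2, a3, a4, a5] b) r

theorem pc : PC := by
  intro d d' b r a0 a1 a2 a3 a4 a5 c0 c4 c5 e e0 e4 e5 h
  have hb : Function.Injective (![.inl 0, .inl 4, .inl 5] : Fin 3 → Fin 6 ⊕ Fin 4) := by decide
  have := Hle.crem hb (d := d) (d' := d') (r := r)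
    (μ := fun q => (ten ![a0, a1, a2, a3, a4, a5] b q : ℤ))
    (μ' := fun q => (ten ![c0, a1, a2, a3, c4, c5] b q : ℤ)) (by simp [ten]; omega)
    (fun i => by fin_cases i <;> simp [ten] <;> omega) (by
      rintro (i | i) hq
      · fin_cases i
        · exact absurd ⟨0, rfl⟩ hq
        · simp [ten]
        · simp [ten]
        · simp [ten]
        · exact absurd ⟨1, rfl⟩ hq
        · exact absurd ⟨2, rfl⟩ hq
      · simp [ten]) (by simpa only [Int.toNat_natCast] using h)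
  simpa only [Int.toNat_natCast] using this

/-- triangular numbers, computable form -/
def t2 (n : ℕ) : ℕ := n * (n + 1) / 2

lemma tn_eq (n : ℕ) : tn n = t2 n := by
  have := two_tn n
  unfold t2
  omega

lemma ten_sum (f : Fin 6 ⊕ Fin 4 → ℕ) : ∑ i, f i = f (.inl 0) + f (.inl 1) + f (.inl 2) +
    f (.inl 3) + f (.inl 4) + f (.inl 5) + (f (.inr 0) + f (.inr 1) + f (.inr 2) + f (.inr 3)) := by
  rw [Fintype.sum_sum_type, Fin.sum_univ_six, Fin.sum_univ_four]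

theorem cU (hU : PU) {d a0 a1 a2 a3 a4 a5 b u : ℕ}
    (h1 : 3 * d ≤ a0 + a1 + a2 + a3 + a4 + a5 + 4 * b)
    (h2 : a0 ^ 2 + a1 ^ 2 + a2 ^ 2 + a3 ^ 2 + a4 ^ 2 + a5 ^ 2 + 4 * b ^ 2 < d ^ 2)
    (h3 : d ^ 2 < a0 ^ 2 + a1 ^ 2 + a2 ^ 2 + a3 ^ 2 + a4 ^ 2 + a5 ^ 2 + 4 * b ^ 2 + 2 * u) :
    Hle d (ten ![a0, a1, a2, a3, a4, a5] b) u :=
  hU d b u _ (by simpa [Fin.sum_univ_six] using h1) (by simpa [Fin.sum_univ_six] using h2)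
    (by simpa [Fin.sum_univ_six] using h3)

/-- multiply, change the multiplicities, apply the upper bound -/
theorem cM (hU : PU) (d l a0 a1 a2 a3 a4 a5 b l0 l1 l2 l3 l4 l5 β z0 z1 z2 z3 z4 z5 z r : ℕ)
    (h : 3 * (d + l) ≤ z0 + z1 + z2 + z3 + z4 + z5 + 4 * z ∧
      z0 ^ 2 + z1 ^ 2 + z2 ^ 2 + z3 ^ 2 + z4 ^ 2 + z5 ^ 2 + 4 * z ^ 2 < (d + l) ^ 2 ∧
      t2 l0 + t2 l1 + t2 l2 + t2 l3 + t2 l4 + t2 l5 + 4 * t2 β < t2 (l + 1) ∧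
      ((d + l) ^ 2 - (z0 ^ 2 + z1 ^ 2 + z2 ^ 2 + z3 ^ 2 + z4 ^ 2 + z5 ^ 2 + 4 * z ^ 2)) / 2 + 1 +
        ((t2 z0 - t2 (a0 + l0)) + (t2 z1 - t2 (a1 + l1)) + (t2 z2 - t2 (a2 + l2)) +
          (t2 z3 - t2 (a3 + l3)) + (t2 z4 - t2 (a4 + l4)) + (t2 z5 - t2 (a5 + l5)) +
          4 * (t2 z - t2 (b + β))) ≤ r) :
    Hle d (ten ![a0, a1, a2, a3, a4, a5] b) r := by
  obtain ⟨h1, h2, h3, h4⟩ := h
  refine (cU hU (u := ((d + l) ^ 2 -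
    (z0 ^ 2 + z1 ^ 2 + z2 ^ 2 + z3 ^ 2 + z4 ^ 2 + z5 ^ 2 + 4 * z ^ 2)) / 2 + 1) h1 h2
    (by omega)).mul (ten ![l0, l1, l2, l3, l4, l5] β) ?_ ?_
  · simp only [ten_sum, tn_eq]
    simp [ten]
    omega
  · simp only [ten_sum, tn_eq]
    simp [ten]
    omega

/-- emptiness from the upper bound -/
theorem cE (hU : PU) (d l a0 a1 a2 a3 a4 a5 b l0 l1 l2 l3 l4 l5 β : ℕ)
    (h : 3 * (l + d) ≤ l0 + a0 + (l1 + a1) + (l2 + a2) + (l3 + a3) + (l4 + a4) + (l5 + a5) +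
        4 * (β + b) ∧
      (l0 + a0) ^ 2 + (l1 + a1) ^ 2 + (l2 + a2) ^ 2 + (l3 + a3) ^ 2 + (l4 + a4) ^ 2 +
        (l5 + a5) ^ 2 + 4 * (β + b) ^ 2 < (l + d) ^ 2 ∧
      ((l + d) ^ 2 - ((l0 + a0) ^ 2 + (l1 + a1) ^ 2 + (l2 + a2) ^ 2 + (l3 + a3) ^ 2 +
        (l4 + a4) ^ 2 + (l5 + a5) ^ 2 + 4 * (β + b) ^ 2)) / 2 + 1 +
        (t2 l0 + t2 l1 + t2 l2 + t2 l3 + t2 l4 + t2 l5 + 4 * t2 β) < t2 (l + 1)) (r : ℕ) :
    Hle d (ten ![a0, a1, a2, a3, a4, a5] b) r := by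
  obtain ⟨h1, h2, h3⟩ := h
  refine (cU hU (u := ((l + d) ^ 2 - ((l0 + a0) ^ 2 + (l1 + a1) ^ 2 + (l2 + a2) ^ 2 +
    (l3 + a3) ^ 2 + (l4 + a4) ^ 2 + (l5 + a5) ^ 2 + 4 * (β + b) ^ 2)) / 2 + 1) h1 h2
    (by omega)).empty (ten ![l0, l1, l2, l3, l4, l5] β) ?_ r
  simp only [ten_sum, tn_eq]
  simp [ten]
  omega

end Pool.Agent.Lib.MP_d03834_ag.Core
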