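import Pool.Agent.Lib.MP_d03834_ag.Core.ShLat

/-! Words of elementary moves through frames with honest points. -/

set_option autoImplicit false

namespace Pool.Agent.Lib.MP_d03834_ag.Core.Wd

/-- explicit vectors of the lattice of the chart -/
structure V9 where
  /-- coordinate -/
  n : ℤ
  /-- coordinate -/
  j : ℤ
  /-- coordinate -/
  m0 : ℤ
  /-- coordinate -/
  m1 : ℤ
  /-- coordinate -/
  m2 : ℤ
  /-- coordinate -/
  m3 : ℤ
  /-- coordinate -/
  m4 : ℤ
  /-- coordinate -/
  c0 : ℤ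
  /-- coordinate -/
  c1 : ℤ

namespace V9

/-- the class -/
def cl (u : V9) : CL := ((u.n, u.j), ![u.m0, u.m1, u.m2, u.m3, u.m4], ![u.c0, u.c1])

/-- the vector of a class -/
def of (u : CL) : V9 :=
  ⟨u.1.1, u.1.2, u.2.1 0, u.2.1 1, u.2.1 2, u.2.1 3, u.2.1 4, u.2.2 0, u.2.2 1⟩

/-- the form -/
def ip (u w : V9) : ℤ := u.n * w.j + u.j * w.n - u.n * w.n -
  (u.m0 * w.m0 + u.m1 * w.m1 + u.m2 * w.m2 + u.m3 * w.m3 + u.m4 * w.m4) -
  (u.c0 * w.c0 + u.c1 * w.c1)

/-- u + t w -/
def ax (u : V9) (t : ℤ) (w : V9) : V9 := ⟨u.n + t * w.n, u.j + t * w.j, u.m0 + t * w.m0,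
  u.m1 + t * w.m1, u.m2 + t * w.m2, u.m3 + t * w.m3, u.m4 + t * w.m4, u.c0 + t * w.c0,
  u.c1 + t * w.c1⟩

/-- the opposite -/
def ng (u : V9) : V9 := ⟨-u.n, -u.j, -u.m0, -u.m1, -u.m2, -u.m3, -u.m4, -u.c0, -u.c1⟩

/-- the test of equality -/
def eq (u w : V9) : Bool := decide (u.n = w.n) && decide (u.j = w.j) && decide (u.m0 = w.m0) &&
  decide (u.m1 = w.m1) && decide (u.m2 = w.m2) && decide (u.m3 = w.m3) && decide (u.m4 = w.m4) &&
  decide (u.c0 = w.c0) && decide (u.c1 = w.c1)

/-- membership in a list -/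
def mem (u : V9) (L : List V9) : Bool := L.any fun w => u.eq w

/-- membership up to sign -/
def pm (u : V9) (L : List V9) : Bool := u.mem L || u.ng.mem L

/-- the anticanonical class -/
def ac : V9 := ⟨4, 5, 2, 2, 2, 2, 2, 1, 1⟩

/-- the test for a line -/
def line (u : V9) : Bool := decide (u.ip u = -1) && decide (u.ip ac = 1) &&
  decide (u.m0 + u.m1 + u.m2 + u.m3 + u.m4 = 2 * u.j)

/-- the test for a root -/
def root (u : V9) : Bool := decide (u.ip u = -2) && decide (u.ip ac = 0) &&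
  decide (u.m0 + u.m1 + u.m2 + u.m3 + u.m4 = 2 * u.j)

theorem cl_of (u : CL) : (of u).cl = u := by
  refine Prod.ext rfl (Prod.ext (funext fun i => ?_) (funext fun i => ?_)) <;> fin_cases i <;> rfl

theorem of_cl (u : V9) : of u.cl = u := rfl

theorem ip_cl (u w : V9) : cip u.cl w.cl = u.ip w := by
  simp [cip, cl, ip, Fin.sum_univ_five, Fin.sum_univ_two]

theorem ax_cl (u : V9) (t : ℤ) (w : V9) : (u.ax t w).cl = u.cl + t • w.cl := by
  refine Prod.ext rfl (Prod.ext (funext fun i => ?_) (funext fun i => ?_)) <;> fin_cases i <;> rfl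

theorem ng_cl (u : V9) : u.ng.cl = -u.cl := by
  refine Prod.ext rfl (Prod.ext (funext fun i => ?_) (funext fun i => ?_)) <;> fin_cases i <;> rfl

theorem ac_cl : ac.cl = cD.a := by
  refine Prod.ext rfl (Prod.ext (funext fun i => ?_) (funext fun i => ?_)) <;> fin_cases i <;> rfl

theorem eq_iff {u w : V9} : u.eq w = true ↔ u = w := by
  cases u
  cases w
  simp [eq, and_assoc]

theorem cl_inj {u w : V9} (h : u.cl = w.cl) : u = w := by rw [← of_cl u, h, of_cl]

theorem mem_iff {u : V9} {L : List V9} : u.mem L = true ↔ u ∈ L := by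
  simp [mem, eq_iff]

theorem pm_iff {u : V9} {L : List V9} : u.pm L = true ↔ u ∈ L ∨ u.ng ∈ L := by
  simp [pm, mem_iff]

theorem line_iff {u : V9} : u.line = true ↔ u.cl ∈ cD.lat.Λ := by
  rw [DP.mem_line, cD_ip, cD_ip, ← ac_cl, ip_cl, ip_cl, cD_M]
  simp [line, cl, Fin.sum_univ_five, and_assoc]

theorem root_iff {u : V9} : u.root = true ↔ u.cl ∈ cD.lat.Φ := by
  rw [DP.mem_root, cD_ip, cD_ip, ← ac_cl, ip_cl, ip_cl, cD_M]
  simp [root, cl, Fin.sum_univ_five, and_assoc]

end V9

/-- the root which exchanges the free points i and j -/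
def eE (i j : Fin 5) : CL := ((0, 0), Pi.single i 1 - Pi.single j 1, 0)

/-- the letters: shears, exchanges of labels, flips -/
inductive Mv
  | V (i j : Fin 5)
  | H (s : Fin 2)
  | E (i j : Fin 5)
  | B
  | F (s : Fin 2)

namespace Mv

/-- the root or the line of a letter -/
def cls : Mv → CL
  | V i j => aV i j
  | H s => aH s
  | E i j => eE i j
  | B => eb 0 - eb 1
  | F s => eb s

/-- the vector of a letter -/
def vec : Mv → V9
  | V i j => ⟨0, 1, (if i = 0 ∨ j = 0 then 1 else 0), (if i = 1 ∨ j = 1 then 1 else 0),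
      (if i = 2 ∨ j = 2 then 1 else 0), (if i = 3 ∨ j = 3 then 1 else 0),
      (if i = 4 ∨ j = 4 then 1 else 0), 0, 0⟩
  | H s => ⟨1, 0, 0, 0, 0, 0, 0, (if s = 0 then 1 else 0), (if s = 1 then 1 else 0)⟩
  | E i j => ⟨0, 0, (if i = 0 then 1 else if j = 0 then -1 else 0),
      (if i = 1 then 1 else if j = 1 then -1 else 0), (if i = 2 then 1 else if j = 2 then -1 else 0),
      (if i = 3 then 1 else if j = 3 then -1 else 0), (if i = 4 then 1 else if j = 4 then -1 else 0),
      0, 0⟩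
  | B => ⟨0, 0, 0, 0, 0, 0, 0, -1, 1⟩
  | F s => ⟨0, 0, 0, 0, 0, 0, 0, (if s = 0 then -1 else 0), (if s = 1 then -1 else 0)⟩

/-- the letter is a flip -/
def fl : Mv → Bool
  | F _ => true
  | _ => false

/-- the two labels differ -/
def wf : Mv → Bool
  | V i j => decide (i ≠ j)
  | E i j => decide (i ≠ j)
  | _ => true

theorem vec_of : ∀ m : Mv, m.wf = true → m.vec.eq (V9.of m.cls) = true
  | V i j => by revert i j; decide
  | H s => by revert s; decide
  | E i j => by revert i j; decide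
  | B => by decide
  | F s => by revert s; decide

theorem vec_cl {m : Mv} (h : m.wf = true) : m.vec.cl = m.cls := by
  rw [V9.eq_iff.1 (vec_of m h), V9.cl_of]

theorem vec_root : ∀ m : Mv, m.wf = true → m.fl = false → m.vec.root = true
  | V i j => by revert i j; decide
  | H s => by revert s; decide
  | E i j => by revert i j; decide
  | B => by decide
  | F s => by revert s; decide

theorem cls_root {m : Mv} (h : m.wf = true) (h' : m.fl = false) : m.cls ∈ cD.lat.Φ := by
  rw [← vec_cl h]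
  exact V9.root_iff.1 (vec_root m h h')

theorem fl_eq {m : Mv} (h : m.fl = true) : ∃ s, m = F s := by
  cases m <;> first | exact ⟨_, rfl⟩ | exact absurd h (by simp [fl])

/-- the action on classes -/
def act (m : Mv) (x : CL) : CL := if m.fl then cD.lat.refl m.cls x else cD.rf m.cls x

/-- the action on vectors -/
def av (m : Mv) (u : V9) : V9 :=
  u.ax (if m.fl then 2 * u.ip m.vec else u.ip m.vec) m.vec

theorem av_cl {m : Mv} (h : m.wf = true) (u : V9) : (m.av u).cl = m.act u.cl := by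
  rw [av, act, V9.ax_cl, ← V9.ip_cl, vec_cl h]
  split_ifs <;> rfl

theorem ip_act (m : Mv) (x y : CL) : cip (m.act x) y = cip x (m.act y) := by
  have s : ∀ u w, cip u w = cip w u := cD.symm
  rw [s x, act, act]
  split_ifs
  · have h1 := Lat.ip_refl (T := cD.lat) m.cls x y
    have h2 := Lat.ip_refl (T := cD.lat) m.cls y x
    simp only [DP.lat_ip, cD_ip] at h1 h2
    rw [h1, h2, s y x, s y m.cls, s m.cls x]
    ring
  · have h1 := cD.ip_rf m.cls x y
    have h2 := cD.ip_rf m.cls y x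
    simp only [cD_ip] at h1 h2
    rw [h1, h2, s y x, s y m.cls, s m.cls x]
    ring

end Mv

end Pool.Agent.Lib.MP_d03834_ag.Core.Wd
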