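import Pool.Agent.Lib.MP_d03834_ag.Core.WdRun
import Pool.Agent.Lib.MP_d03834_ag.Core.ShStep

/-! Weakening of states, the descent by words, and the elementary steps for honest points. -/

set_option autoImplicit false

namespace Pool.Agent.Lib.MP_d03834_ag.Core.Wd

open Module

variable {k Γ : Type} [Field k] [LinearOrderedCommGroupWithZero Γ]
variable {v : Valuation k Γ} {κ κ' : Kn} {χ : CL → k} {x : CL}

/-- the test that the class q has left; Λ is a list of all lines -/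
def gone (Λ Un : List V9) (q : V9) : Bool := decide (2 < q.ip V9.ac) &&
  (Λ.all fun g => decide (0 ≤ q.ip g) || g.mem Un) &&
  Λ.all fun g => decide (0 ≤ q.ip g) || Λ.all fun b => decide (g.ip b ≤ 0) ||
    decide (0 ≤ q.ip g + q.ip b)

theorem gone_ok {Λ Un : List V9} (hΛ : ∀ g ∈ cD.lat.Λ, V9.of g ∈ Λ)
    (hU : ∀ g ∈ Un, v (χ g.cl) = 1) {q : V9} (h : gone Λ Un q = true) :
    cD.lat.Gone (Invo.one v) cD.a χ q.cl ∧ 2 < cip q.cl cD.a := by
  simp only [gone, Bool.and_eq_true, decide_eq_true_iff, List.all_eq_true, Bool.or_eq_true,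
    V9.mem_iff, ← V9.ip_cl, V9.ac_cl] at h
  obtain ⟨⟨h1, h2⟩, h3⟩ := h
  refine ⟨⟨(show (0 : ℤ) < 2 by decide).trans h1, fun g hg hv => ?_, fun g hg b hb _ h4 => ?_⟩, h1⟩
  · rcases h2 _ (hΛ g hg) with e | e
    · rwa [V9.cl_of] at e
    · have := hU _ e
      rw [V9.cl_of] at this
      exact absurd this (ne_of_lt hv)
  · have a1 := h3 _ (hΛ g hg)
    have a2 := h3 _ (hΛ b hb)
    have s : cip b g = cip g b := cD.symm b g
    change 0 < cip g b at h4
    change 0 ≤ cip q.cl g + cip q.cl b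
    rcases a1 with a1 | a1
    · rcases a2 with a2 | a2
      · rw [V9.cl_of] at a1 a2
        omega
      · have := a2 _ (hΛ g hg)
        simp only [V9.cl_of] at this
        omega
    · have := a1 _ (hΛ b hb)
      simp only [V9.cl_of] at this
      omega

/-- the test that the knowledge κ implies the knowledge κ' -/
def Kn.le (Λ : List V9) (κ κ' : Kn) : Bool :=
  (κ.L.all fun q => q.pm κ'.L || gone Λ κ.Un q || gone Λ κ.Un q.ng) &&
  (κ'.Un.all fun g => g.mem κ.Un) && (κ'.Sm.all fun g => g.mem κ.Sm) &&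
  κ'.Vr.all fun u => u.pm κ.Vr || κ.Un.any fun g => (g.ax 1 u).mem κ.Un

theorem ng_ng (u : V9) : u.ng.ng = u := V9.cl_inj (by rw [V9.ng_cl, V9.ng_cl, neg_neg])

theorem pm_ng {u : V9} {L : List V9} (h : u.ng.pm L = true) : u.pm L = true := by
  rw [V9.pm_iff] at h ⊢
  rw [ng_ng] at h
  exact h.symm

theorem WSt.le {Λ : List V9} (hΛ : ∀ g ∈ cD.lat.Λ, V9.of g ∈ Λ) (h : WSt v κ χ x)
    (h0 : κ.le Λ κ' = true) : WSt v κ' χ x := by
  obtain ⟨n, E, hP, hF, hx, hE, h1, h2, h3⟩ := h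
  simp only [Kn.le, Bool.and_eq_true, List.all_eq_true, Bool.or_eq_true, V9.mem_iff,
    List.any_eq_true] at h0
  obtain ⟨⟨⟨a1, a2⟩, a3⟩, a4⟩ := h0
  have key : ∀ p : CL, (V9.of p).pm κ.L = true → (V9.of p).pm κ'.L = true ∨
      (Out v χ p ∧ (2 < cip p cD.a ∨ 2 < cip (-p) cD.a)) := by
    intro p hp
    rcases V9.pm_iff.1 hp with e | e
    · rcases a1 _ e with (b | b) | b
      · exact Or.inl b
      · have := gone_ok hΛ h1 b
        rw [V9.cl_of] at this
        exact Or.inr ⟨Or.inl this.1, Or.inl this.2⟩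
      · have := gone_ok hΛ h1 b
        rw [V9.ng_cl, V9.cl_of] at this
        exact Or.inr ⟨Or.inr this.1, Or.inr this.2⟩
    · rcases a1 _ e with (b | b) | b
      · exact Or.inl (pm_ng b)
      · have := gone_ok hΛ h1 b
        rw [V9.ng_cl, V9.cl_of] at this
        exact Or.inr ⟨Or.inr this.1, Or.inr this.2⟩
      · have := gone_ok hΛ h1 b
        rw [ng_ng, V9.cl_of] at this
        exact Or.inr ⟨Or.inl this.1, Or.inl this.2⟩
  refine ⟨n, E, hP, fun l hl g hg e0 e1 e2 e3 e4 e5 => ?_, hx, fun p hp => ?_,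
    fun g hg => h1 g (a2 g hg), fun g hg => h2 g (a3 g hg), fun u hu => ?_⟩
  · refine (key _ (hF l hl g hg e0 e1 e2 e3 e4 e5)).resolve_right fun e => ?_
    have p3 : cD.ip (l + g) cD.a = 2 := by simp [hl.2.1, hg.2.1]
    have := e.2
    rw [← cD_ip, ← cD_ip, map_neg, AddMonoidHom.neg_apply, p3] at this
    omega
  · rcases hE p hp with e | e
    · exact (key p e).imp_right And.left
    · exact Or.inr e
  · rcases a4 u hu with e | ⟨g, hg, e⟩
    · rcases V9.pm_iff.1 e with e | e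
      · exact h3 u e
      · have := h3 _ e
        rwa [V9.ng_cl, hP.j.ch.neg, map_inv₀, inv_eq_one] at this
    · have := h1 _ e
      rwa [V9.ax_cl, one_smul, hP.j.ch.1, map_mul, h1 g hg, one_mul] at this

/-- The descent by words between finitely many base frames. -/
theorem descentW {S : Type} {Λ : List V9} (hΛ : ∀ g ∈ cD.lat.Λ, V9.of g ∈ Λ)
    {Q : (CL → k) → CL → Prop} (hQ : Steps v Q) (κ : S → Kn) (hκ : ∀ a, hon (κ a).L = true)
    (Inv : S → CL → Prop) (μ : CL → ℕ)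
    (step : ∀ a x, Inv a x → (∀ χ, WSt v (κ a) χ x → Q χ x) ∨ ∃ w b, (κ a).chk w = true ∧
      ((κ a).run w).le Λ (κ b) = true ∧ (∀ q ∈ (κ a).side w, cip x q.1.cl ≤ q.2) ∧
      Inv b (wact w x) ∧ μ (wact w x) < μ x)
    {a : S} (h : WSt v (κ a) χ x) (hx : Inv a x) : Q χ x := by
  induction hN : μ x using Nat.strong_induction_on generalizing a χ x with
  | _ N ih =>
    rcases step a x hx with e | ⟨w, b, e1, e2, e3, e4, e5⟩
    · exact e χ h
    · obtain ⟨s1, s2⟩ := h.word hQ (hκ a) e1 e3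
      exact s2 (ih _ (hN ▸ e5) (s1.le hΛ e2) e4 rfl)

/-- a base state -/
theorem WSt.base (h1 : IsCh χ) (h2 : ∀ g ∈ cD.lat.Λ, v (χ g) ≤ 1)
    (h3 : ∀ g ∈ cD.lat.Λ, ¬Lat.Bk (Invo.one v) (χ g))
    (h4 : ∀ α ∈ cD.lat.Φ, χ α = 1 → (V9.of α).pm κ.L = true) (h5 : Fp v χ κ.L)
    (h6 : cD.lat.Pos (Invo.one v) χ x) (h7 : ∀ g ∈ κ.Un, v (χ g.cl) = 1)
    (h8 : ∀ g ∈ κ.Sm, v (χ g.cl) < 1) (h9 : ∀ g ∈ κ.Vr, v (χ g.cl) = 1) : WSt v κ χ x :=
  ⟨0, {p | (V9.of p).pm κ.L = true}, Lat.P.base h1 h2 h3 fun α hα e => Or.inl (h4 α hα e), h5, h6,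
    fun _ hp => Or.inl hp, h7, h8, h9⟩

variable {O : Type} [CommRing O] {A : Arc O k} {K : Type} [Field K] [Algebra O K]

theorem rf_eE (i j : Fin 5) (u : CL) :
    cD.rf (eE i j) u = (u.1, fun l => u.2.1 (Equiv.swap i j l), u.2.2) := by
  have e : cip u (eE i j) = u.2.1 j - u.2.1 i := by
    simp [cip, eE, Pi.single_apply, mul_sub, Finset.sum_sub_distrib]
  rw [DP.rf, cD_ip, e]
  refine Prod.ext (Prod.ext ?_ ?_) (Prod.ext (funext fun l => ?_) ?_) <;>
    simp [eE, Pi.single_apply, Equiv.swap_apply_def]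
  split_ifs with h1 h2 <;> simp_all

theorem rf_B (u : CL) : cD.rf (eb 0 - eb 1) u = (u.1, u.2.1, fun s => u.2.2 s.rev) := by
  have e : cD.ip u (eb 0 - eb 1) = u.2.2 0 - u.2.2 1 := by
    rw [map_sub, cD_ip, cD_ip, cip_eb, cip_eb]
  rw [DP.rf, e]
  refine Prod.ext (Prod.ext ?_ ?_) (Prod.ext ?_ (funext fun l => ?_))
  · simp [eb]
  · simp [eb]
  · simp [eb]
  · fin_cases l <;> simp [eb]

theorem Hon.zz {c : Cfg O k} (h : Shp A c χ) (hχ : IsCh χ) (hn : Hon χ) {i j : Fin 5}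
    (hij : i ≠ j) : A.res (c.z i) ≠ A.res (c.z j) := by
  have : ∀ i j : Fin 5, i ≠ j → ∃ l, l ≠ i ∧ l ≠ j ∧ aV l i - aV l j = eE i j := by decide
  obtain ⟨l, h1, h2, h3⟩ := this i j hij
  exact h.zz hχ h1 h2 (h3 ▸ hn.e i j hij)

theorem eta_ne {c : Cfg O k} (h : Shp A c χ) (hχ : IsCh χ) (hn : Hon χ) {i j : Fin 5}
    (hij : i ≠ j) (h1 : χ (aV i j) ≠ 1) : c.η i ≠ c.η j := fun e => by
  have := cur_sub (h.cur i) (h.cur j)
  rw [e, sub_self, mul_zero] at this
  exact mul_ne_zero (sub_ne_zero.2 (hn.zz h hχ hij)) (sub_ne_zero.2 (h.ka hχ hij h1)) this.symm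

theorem H_mono {c c' : Cfg O k} {ε : ℤ} {x x' : CL} (h : c.H A K ε x ≤ c'.H A K ε x') :
    finrank K (c.H A K ε x) ≤ finrank K (c'.H A K ε x') := by
  unfold Cfg.H at h ⊢
  exact Submodule.finrank_mono h

/-- the elementary steps for the dimension of the space of sections -/
theorem steps_H [IsDomain O] (hK : Function.Injective (algebraMap O K)) (v : Valuation k Γ)
    (ε : ℤ) (r : ℕ) :
    Steps v fun χ x => ∀ c, Shp A c χ → finrank K (c.H A K ε x) ≤ r := by
  have ne : ∀ a b : O, A.res a ≠ A.res b → a ≠ b := fun a b h e => h (by rw [e])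
  refine ⟨fun m χ x hw hf hχ h0 h1 h2 hq c hc => ?_, fun s χ x hχ _ _ _ hq c hc => ?_⟩
  · cases m with
    | V i j =>
      have hij : i ≠ j := by simpa [Mv.wf] using hw
      obtain ⟨c', r1, r2⟩ := moveV hc hχ hij (h0.zz hc hχ hij)
        fun l a b => ⟨h0.zz hc hχ a, h0.zz hc hχ b⟩
      have t : ∀ i j l : Fin 5, i ≠ j → l ≠ i → l ≠ j →
          cD.rf (aV i j) (eE l j) = aV i l ∧ cD.rf (aV i j) (eE l i) = aV j l := by decide
      refine (stepV hK hij r1 (ne _ _ (h0.zz hc hχ hij)) (eta_ne hc hχ h0 hij h2)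
        (fun l a b => ⟨eta_ne hc hχ h0 a.symm ?_, eta_ne hc hχ h0 b.symm ?_⟩) ε x).trans (hq c' r2)
      · exact (t i j l hij a b).1 ▸ h1.e l j b
      · exact (t i j l hij a b).2 ▸ h1.e l i a
    | H s =>
      obtain ⟨c', r1, r2⟩ := moveH hc hχ s
      have hχ' : IsCh (χ ∘ cD.rf (aH s)) := ⟨fun u w => by
        rw [Function.comp_apply, show cD.rf (aH s) (u + w) = _ from
          map_add (cD.rr (aH_root s).1) u w, hχ.1]; rfl, fun u => hχ.2 _⟩
      have b1 := r2.aa h1.a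
      have b2 := r2.bb hχ' h1.b
      have b3 := hc.bb hχ h0.b
      rw [r1.a0, r1.a1] at b1
      have b4 := r1.bs
      have b5 := r1.br
      refine (stepH hK r1 hc.z0 (ne _ _ (hc.a1b hχ h2)) (ne _ _ (hc.aa h0.a)) (ne _ _ b1)
        (ne _ _ ?_) (ne _ _ ?_) ε x).trans (hq c' r2)
      · rw [← b4, ← b5]
        fin_cases s
        exacts [b2.symm, b2]
      · fin_cases s
        exacts [b3.symm, b3]
    | E i j =>
      have hij : i ≠ j := by simpa [Mv.wf] using hw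
      have t : ∀ i j : Fin 5, i ≠ j → cD.rf (eE i j) e5 = e5 ∧
          (∀ s, cD.rf (eE i j) (eb s) = eb s) ∧ ∀ l r, cD.rf (eE i j) (aV l r) =
            aV (Equiv.swap i j l) (Equiv.swap i j r) := by decide
      obtain ⟨t1, t2, t3⟩ := t i j hij
      refine le_trans (H_mono ?_) (hq ⟨c.z ∘ Equiv.swap i j, c.η ∘ Equiv.swap i j,
        c.al, c.be, c.Q0, c.Q1, c.Q2⟩ ⟨fun l => hc.z0 _, fun l => hc.cur _, hc.N0, ?_, fun s => ?_,
          fun l r hlr => ?_⟩)
      · rw [Mv.cls, rf_eE i j]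
        refine H0_le fun l => Or.inr ?_
        rcases l with l | l
        · exact ⟨.inl (Equiv.swap i j l), le_rfl, Cfg.pt _ _, by simp [dx, Cfg.pts, Cfg.pO],
            by simp [dy, Cfg.pts, Cfg.pO]⟩
        · refine ⟨.inr l, ?_, Cfg.pt _ _, ?_, ?_⟩ <;> rcases l with l | l <;>
            simp [dx, dy, Cfg.pts, Cfg.pO, mlt]
      · exact (congrArg (fun u => χ u * _) t1).trans hc.e5
      · exact (congrArg (fun u => χ u * _) (t2 s)).trans (hc.eb s)
      · exact (congrArg (fun u => χ u * _) (t3 l r)).trans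
          (hc.aV _ _ ((Equiv.swap i j).injective.ne hlr))
    | B =>
      have t1 : cD.rf (eb 0 - eb 1) e5 = e5 := by decide
      have t2 : ∀ s, cD.rf (eb 0 - eb 1) (eb s) = eb s.rev := by decide
      have t3 : ∀ l r, cD.rf (eb 0 - eb 1) (aV l r) = aV l r := by decide
      have hN : Cfg.N A ⟨c.z, c.η, c.al, fun s => c.be s.rev, c.Q0, c.Q1, c.Q2⟩ = c.N A := by
        simp only [Cfg.N]
        change A.res (c.be 1) + A.res (c.be 0) - _ - _ - _ = _
        ring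
      refine le_trans (H_mono ?_) (hq ⟨c.z, c.η, c.al, fun s => c.be s.rev,
        c.Q0, c.Q1, c.Q2⟩ ⟨hc.z0, hc.cur, hN ▸ hc.N0, ?_, fun s => ?_, fun l r hlr => ?_⟩)
      · rw [Mv.cls, rf_B]
        have e1 : dgy ε (x.1, x.2.1, fun s => x.2.2 s.rev) = dgy ε x := by
          change x.1.2 - (x.1.1 + x.2.2 1 + x.2.2 0) % 2 - _ = _
          rw [add_right_comm]
          rfl
        rw [Cfg.H, Cfg.H, e1]
        refine H0_le fun l => Or.inr ?_
        rcases l with l | l | l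
        · exact ⟨.inl l, le_rfl, Cfg.pt _ _, by simp [dx, Cfg.pts, Cfg.pO],
            by simp [dy, Cfg.pts, Cfg.pO]⟩
        · refine ⟨.inr (.inl l), ?_, Cfg.pt _ _, by simp [dx, Cfg.pts, Cfg.pO],
            by simp [dy, Cfg.pts, Cfg.pO]⟩
          fin_cases l <;> simp [mlt] <;> omega
        · exact ⟨.inr (.inr l.rev), by simp [mlt], Cfg.pt _ _, by simp [dx, Cfg.pts, Cfg.pO],
            by simp [dy, Cfg.pts, Cfg.pO]⟩
      · rw [hN]
        exact (congrArg (fun u => χ u * _) t1).trans hc.e5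
      · rw [hN]
        exact (congrArg (fun u => χ u * _) (t2 s)).trans (hc.eb _)
      · exact (congrArg (fun u => χ u * _) (t3 l r)).trans (hc.aV _ _ hlr)
    | F s => exact absurd hf (by simp [Mv.fl])
  · obtain ⟨c', r1, r2⟩ := moveF v hc hχ s
    exact (stepF r1 ε x).trans (hq c' r2)

end Pool.Agent.Lib.MP_d03834_ag.Core.Wd
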