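import Pool.Agent.Lib.MP_d03834_ag.Core.Wd
import Pool.Agent.Lib.MP_d03834_ag.Core.ShKP

/-! States along a word of moves and the test of a word. -/

set_option autoImplicit false

namespace Pool.Agent.Lib.MP_d03834_ag.Core.Wd

variable {k Γ : Type} [Field k] [LinearOrderedCommGroupWithZero Γ]

/-- the action of a letter on characters -/
def Mv.ch (v : Valuation k Γ) (m : Mv) (χ : CL → k) : CL → k :=
  if m.fl then cD.lat.flip (Invo.one v) m.cls χ else χ ∘ cD.rf m.cls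

/-- the nine points stay distinct in the limit -/
structure Hon (χ : CL → k) : Prop where
  e : ∀ i j, i ≠ j → χ (eE i j) ≠ 1
  b : χ (eb 0 - eb 1) ≠ 1
  a : χ (eb 0) + χ (eb 1) ≠ 1

/-- the elementary steps -/
structure Steps (v : Valuation k Γ) (Q : (CL → k) → CL → Prop) : Prop where
  R : ∀ (m : Mv) χ x, m.wf = true → m.fl = false → IsCh χ → Hon χ → Hon (χ ∘ cD.rf m.cls) →
    χ m.cls ≠ 1 → Q (χ ∘ cD.rf m.cls) (cD.rf m.cls x) → Q χ x
  F : ∀ s χ x, IsCh χ → Hon χ → Hon (cD.lat.flip (Invo.one v) (eb s) χ) → v (χ (eb s)) < 1 →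
    Q (cD.lat.flip (Invo.one v) (eb s) χ) (cD.lat.refl (eb s) x) → Q χ x

/-- frozen lines at conjugate points are recorded in the list -/
def Fp (v : Valuation k Γ) (χ : CL → k) (L : List V9) : Prop :=
  ∀ l ∈ cD.lat.Λ, ∀ g ∈ cD.lat.Λ, cip l g = 0 → v (χ l) = 1 → v (χ g) = 1 →
    ¬Lat.Bk (Invo.one v) (χ l) → ¬Lat.Bk (Invo.one v) (χ g) → χ l + χ g = 1 →
      (V9.of (l + g)).pm L = true

/-- what is known about a state: live classes, unit lines, small lines, unit roots -/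
structure Kn where
  /-- the classes which can be effective -/
  L : List V9
  /-- lines of value a unit -/
  Un : List V9
  /-- classes of small value -/
  Sm : List V9
  /-- classes of value a unit -/
  Vr : List V9

/-- the class has left, up to sign -/
def Out (v : Valuation k Γ) (χ : CL → k) (p : CL) : Prop :=
  cD.lat.Gone (Invo.one v) cD.a χ p ∨ cD.lat.Gone (Invo.one v) cD.a χ (-p)

/-- the state -/
def WSt (v : Valuation k Γ) (κ : Kn) (χ : CL → k) (x : CL) : Prop :=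
  ∃ n E, cD.lat.P (Invo.one v) n χ E ∧ Fp v χ κ.L ∧ cD.lat.Pos (Invo.one v) χ x ∧
    (∀ p ∈ E, (V9.of p).pm κ.L = true ∨ Out v χ p) ∧ (∀ g ∈ κ.Un, v (χ g.cl) = 1) ∧
    (∀ g ∈ κ.Sm, v (χ g.cl) < 1) ∧ ∀ g ∈ κ.Vr, v (χ g.cl) = 1

variable {v : Valuation k Γ} {κ : Kn} {χ : CL → k} {x : CL}

theorem pm_neg {p : CL} {L : List V9} (h : (V9.of (-p)).pm L = true) : (V9.of p).pm L = true := by
  rw [V9.pm_iff] at h ⊢
  have e1 : V9.of (-p) = (V9.of p).ng := V9.cl_inj (by rw [V9.ng_cl, V9.cl_of, V9.cl_of])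
  have e2 : (V9.of (-p)).ng = V9.of p := V9.cl_inj (by rw [V9.ng_cl, V9.cl_of, V9.cl_of, neg_neg])
  rw [e2, e1] at h
  exact h.symm

theorem WSt.ch (h : WSt v κ χ x) : IsCh χ := by
  obtain ⟨n, E, hP, -⟩ := h
  exact hP.j.ch

theorem WSt.root_ne (h : WSt v κ χ x) {α : CL} (hα : α ∈ cD.lat.Φ)
    (h1 : (V9.of α).pm κ.L = false) : χ α ≠ 1 := by
  obtain ⟨n, E, hP, -, -, hE, -⟩ := h
  intro e
  have z : cD.lat.ip α cD.a = 0 := hα.2.1
  have key : ∀ p, p = α ∨ p = -α → ¬Out v χ p := by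
    rintro p (rfl | rfl) (h | h) <;> have := h.pos <;> simp at this <;>
      simp_all
  rcases hP.root α hα e with h | h
  · rcases hE _ h with h2 | h2
    · simp [h1] at h2
    · exact key _ (Or.inl rfl) h2
  · rcases hE _ h with h2 | h2
    · simp [pm_neg h2] at h1
    · exact key _ (Or.inr rfl) h2

theorem line_sub {l g : CL} (hl : l ∈ cD.lat.Λ) (hg : g ∈ cD.lat.Λ) (h0 : cip l g = 0) :
    l - g ∈ cD.lat.Φ := by
  have h0' : cD.ip l g = 0 := h0
  refine ⟨?_, ?_, sub_mem hl.2.2 hg.2.2⟩ <;>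
    simp [hl.1, hg.1, hl.2.1, hg.2.1, cD.symm g l, h0']

theorem WSt.pair_ne (h : WSt v κ χ x) {l g : CL} (hl : l ∈ cD.lat.Λ) (hg : g ∈ cD.lat.Λ)
    (h0 : cip l g = 0) (h1 : (V9.of (l + g)).pm κ.L = false) : χ l + χ g ≠ 1 := by
  obtain ⟨n, E, hP, hF, -, hE, -⟩ := h
  have main : ∀ l ∈ cD.lat.Λ, ∀ g ∈ cD.lat.Λ, cip l g = 0 → (V9.of (l + g)).pm κ.L = false →
      (v (χ g) < 1 ∨ Lat.Bk (Invo.one v) (χ g)) → χ l + χ g ≠ 1 := by
    intro l hl g hg h0 h1 a1 e
    have h0' : cD.ip g l = 0 := (cD.symm g l).trans h0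
    have h0'' : cD.ip l g = 0 := h0
    have e' : χ l = 1 - χ g := eq_sub_of_add_eq e
    have p1 : cD.lat.ip (l + g) l = -1 := by simp [hl.1, h0']
    have p2 : cD.lat.ip (l + g) g = -1 := by simp [hg.1, h0'']
    have p3 : cD.lat.ip (l + g) cD.a = 2 := by simp [hl.2.1, hg.2.1]
    have k1 : ¬cD.lat.Gone (Invo.one v) cD.a χ (l + g) := by
      intro h
      rcases a1 with a1 | a1
      · have := h.fwd g hg a1
        omega
      · have := h.fwd l hl (by rw [e']; exact a1.2.2.1)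
        omega
    have k2 : ¬cD.lat.Gone (Invo.one v) cD.a χ (-(l + g)) := fun h => by
      have := h.pos
      rw [map_neg, AddMonoidHom.neg_apply, p3] at this
      omega
    rcases hP.conj hg (line_sub hl hg h0) h0 a1 e' with h | h
    · rcases hE _ h with h2 | h2 | h2
      · simp [h1] at h2
      · exact k1 h2
      · exact k2 h2
    · rcases hE _ h with h2 | h2 | h2
      · simp [pm_neg h2] at h1
      · exact k2 h2
      · exact k1 (by simpa using h2)
  by_cases a1 : v (χ g) < 1 ∨ Lat.Bk (Invo.one v) (χ g)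
  · exact main l hl g hg h0 h1 a1
  by_cases a2 : v (χ l) < 1 ∨ Lat.Bk (Invo.one v) (χ l)
  · rw [add_comm]
    exact main g hg l hl ((cD.symm g l).trans h0) (by rwa [add_comm]) a2
  rw [not_or] at a1 a2
  intro e
  have := hF l hl g hg h0 (le_antisymm (hP.j.le l hl) (not_lt.1 a2.1))
    (le_antisymm (hP.j.le g hg) (not_lt.1 a1.1)) a2.2 a1.2 e
  simp [h1] at this

/-- no class of the list makes two points collide -/
def hon (L : List V9) : Bool := L.all fun u =>
  !(decide (u.n = 0) && decide (u.j = 0) && ((decide (u.c0 = 0) && decide (u.c1 = 0)) ||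
    (decide (u.c0 ≠ 0) && decide (u.c1 ≠ 0))))

theorem hon_pm {L : List V9} (h : hon L = true) {u : V9} (h1 : u.n = 0) (h2 : u.j = 0)
    (h3 : (u.c0 = 0 ∧ u.c1 = 0) ∨ (u.c0 ≠ 0 ∧ u.c1 ≠ 0)) : u.pm L = false := by
  rw [hon, List.all_eq_true] at h
  rw [Bool.eq_false_iff, Ne, V9.pm_iff]
  rintro (e | e) <;> have := h _ e <;> rcases h3 with h3 | h3 <;> simp [V9.ng, h1, h2, h3] at this

theorem eE_root : ∀ i j, i ≠ j → eE i j ∈ cD.lat.Φ := by decide

theorem WSt.hon (h : WSt v κ χ x) (h1 : hon κ.L = true) : Hon χ :=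
  ⟨fun i j hij => h.root_ne (eE_root i j hij) (hon_pm h1 rfl rfl (Or.inl ⟨rfl, rfl⟩)),
    h.root_ne eb_sub.1 (hon_pm h1 rfl rfl (Or.inr (by decide))),
    h.pair_ne (eb_line 0) (eb_line 1) (by decide) (hon_pm h1 rfl rfl (Or.inr (by decide)))⟩

/-- the knowledge after a letter -/
def Kn.step (κ : Kn) (m : Mv) : Kn :=
  if m.fl then
    ⟨κ.L.map m.av, m.vec :: κ.Un.filter fun u => decide (u.ip m.vec = 0),
      (κ.Sm.filter fun u => decide (u.ip m.vec = 0)) ++
        (κ.Vr.filter fun u => decide (u.ip m.vec * u.ip m.vec = 1)).map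
          fun u => m.vec.ax (u.ip m.vec) u,
      κ.Vr.filter fun u => decide (u.ip m.vec = 0)⟩
  else ⟨κ.L.map m.av, κ.Un.map m.av, κ.Sm.map m.av, κ.Vr.map m.av⟩

/-- the bound which a flip asks for -/
def Kn.bd (κ : Kn) (m : Mv) : ℤ := if m.vec.mem κ.Sm then 0 else -1

theorem Mv.act_act {m : Mv} (h : m.wf = true) (p : CL) : m.act (m.act p) = p := by
  unfold Mv.act
  cases hf : m.fl
  · exact cD.rf_rf (Mv.cls_root h hf).1 p
  · obtain ⟨s, rfl⟩ := Mv.fl_eq hf
    exact Lat.refl_refl (eb_line s) p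

theorem Mv.act_neg (m : Mv) (p : CL) : m.act (-p) = -m.act p := by
  unfold Mv.act
  split_ifs
  · exact Lat.refl_neg _ _
  · simp only [DP.rf, map_neg, AddMonoidHom.neg_apply, neg_smul, neg_add]

theorem pm_map {m : Mv} (h : m.wf = true) {L : List V9} {p : CL}
    (h1 : (V9.of (m.act p)).pm L = true) : (V9.of p).pm (L.map m.av) = true := by
  rw [V9.pm_iff] at h1 ⊢
  refine h1.imp (fun e => List.mem_map.2 ⟨_, e, V9.cl_inj ?_⟩)
    fun e => List.mem_map.2 ⟨_, e, V9.cl_inj ?_⟩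
  · rw [Mv.av_cl h, V9.cl_of, V9.cl_of, Mv.act_act h]
  · rw [Mv.av_cl h, V9.ng_cl, V9.ng_cl, V9.cl_of, V9.cl_of, Mv.act_neg, Mv.act_act h]

theorem gone_rf {α p : CL} (hα : α ∈ cD.lat.Φ)
    (h : cD.lat.Gone (Invo.one v) cD.a χ (cD.rf α p)) :
    cD.lat.Gone (Invo.one v) cD.a (χ ∘ cD.rf α) p :=
  AllGone.rf (E := {cD.rf α p}) (fun _ hq => hq ▸ h) hα p rfl

theorem WSt.stepR (h : WSt v κ χ x) {m : Mv} (hw : m.wf = true) (hf : m.fl = false) :
    WSt v (κ.step m) (χ ∘ cD.rf m.cls) (cD.rf m.cls x) := by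
  obtain ⟨n, E, hP, hF, hx, hE, h1, h2, h3⟩ := h
  have hα := Mv.cls_root hw hf
  have ea : ∀ p, m.act p = cD.rf m.cls p := fun p => by simp [Mv.act, hf]
  have iso := cD.rr_iso hα
  have val : ∀ u : V9, (χ ∘ cD.rf m.cls) (m.av u).cl = χ u.cl := fun u => by
    rw [Function.comp, Mv.av_cl hw, ← ea, Mv.act_act hw]
  simp only [Kn.step, hf, Bool.false_eq_true, if_false]
  refine ⟨n, _, DP.P_rf hα hP, fun l hl g hg e0 e1 e2 e3 e4 e5 => pm_map hw ?_, DP.Pos_rf hα hx,
    fun p hp => (hE _ hp).imp (fun e => pm_map hw (by rwa [ea])) fun e => e.imp (gone_rf hα)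
      fun e => gone_rf hα (by rwa [← ea, Mv.act_neg, ea]), ?_, ?_, ?_⟩
  · have := hF _ ((iso.line l).2 hl) _ ((iso.line g).2 hg) ((iso.ip l g).trans e0) e1 e2 e3 e4 e5
    rwa [← map_add, ← show m.act (l + g) = cD.rr hα.1 (l + g) from ea _] at this
  all_goals
    intro g hg
    obtain ⟨u, hu, rfl⟩ := List.mem_map.1 hg
    rw [val]
  exacts [h1 u hu, h2 u hu, h3 u hu]

theorem WSt.small (h : WSt v κ χ x) {s : Fin 2} (hb : cip x (eb s) ≤ κ.bd (.F s)) :
    v (χ (eb s)) < 1 ∧ cip x (eb s) ≤ 0 := by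
  obtain ⟨n, E, hP, hF, hx, hE, h1, h2, h3⟩ := h
  rw [Kn.bd] at hb
  split_ifs at hb with hm
  · have := h2 _ (V9.mem_iff.1 hm)
    rw [Mv.vec_cl rfl] at this
    exact ⟨this, hb⟩
  · exact ⟨hx.small hP.j (eb_line s) (show cip x (eb s) < 0 by omega), by omega⟩

theorem WSt.stepF (h : WSt v κ χ x) {s : Fin 2} (hb : cip x (eb s) ≤ κ.bd (.F s)) :
    WSt v (κ.step (.F s)) (cD.lat.flip (Invo.one v) (eb s) χ) (cD.lat.refl (eb s) x) := by
  obtain ⟨hv, hx0⟩ := h.small hb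
  obtain ⟨n, E, hP, hF, hx, hE, h1, h2, h3⟩ := h
  have hg := eb_line s
  have hv' : (Invo.one v).v (χ (eb s)) < 1 := hv
  have ev : (Mv.F s).vec.cl = eb s := Mv.vec_cl rfl
  have val : ∀ u : V9, u.ip (Mv.F s).vec = 0 →
      cD.lat.flip (Invo.one v) (eb s) χ u.cl = χ u.cl := fun u hu =>
    Lat.flip_orth χ (by rw [← V9.ip_cl, ev] at hu; exact hu)
  have gf : ∀ p, cD.lat.Gone (Invo.one v) cD.a χ (cD.lat.refl (eb s) p) →
      cD.lat.Gone (Invo.one v) cD.a (cD.lat.flip (Invo.one v) (eb s) χ) p := fun p e => by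
    simpa only [Lat.refl_refl hg] using e.flip cD_a hP.j hg hv'
  have bk : Lat.Bk (Invo.one v) (cD.lat.flip (Invo.one v) (eb s) χ (eb s)) := by
    have hi := (Invo.one v).invol _ (hP.j.ch.2 (eb s)) hv'
    rw [Lat.flip_self hg (hP.j.ch.2 _)]
    exact ⟨(Invo.one v).unit _ (hP.j.ch.2 _) hv', by rw [hi]; exact hP.j.ch.2 _,
      by rw [hi]; exact hv', by rw [hi]⟩
  simp only [Kn.step, Mv.fl, if_true]
  refine ⟨n + 1, _, hP.flip hg hv', fun l hl g hg' e0 e1 e2 e3 e4 e5 => pm_map rfl ?_,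
    hx.flip hP.j hg hv' hx0, fun p hp => (hE _ hp).imp (pm_map rfl) fun e => e.imp (gf p)
      fun e => gf _ (by rwa [Lat.refl_neg]), ?_, ?_, ?_⟩
  · have a1 := (Lat.v_flip_one hg hP.j hv' hl fun e => e3 (e ▸ bk)).2 e1
    have a2 := (Lat.v_flip_one hg hP.j hv' hg' fun e => e4 (e ▸ bk)).2 e2
    rw [Lat.flip_orth χ a1.1] at e3 e5
    rw [Lat.flip_orth χ a2.1] at e4 e5
    have := hF l hl g hg' e0 a1.2 a2.2 e3 e4 e5
    rwa [show (Mv.F s).act (l + g) = l + g from Lat.refl_orth (T := cD.lat) (by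
      rw [map_add, AddMonoidHom.add_apply]
      exact (congrArg₂ _ a1.1 a2.1).trans (add_zero _))]
  · intro g hg'
    rcases List.mem_cons.1 hg' with rfl | hg'
    · rw [ev]
      exact bk.1
    · rw [List.mem_filter, decide_eq_true_iff] at hg'
      rw [val g hg'.2]
      exact h1 g hg'.1
  · intro g hg'
    rcases List.mem_append.1 hg' with hg' | hg'
    · rw [List.mem_filter, decide_eq_true_iff] at hg'
      rw [val g hg'.2]
      exact h2 g hg'.1
    · obtain ⟨u, hu, rfl⟩ := List.mem_map.1 hg'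
      rw [List.mem_filter, decide_eq_true_iff] at hu
      rw [val, V9.ax_cl, hP.j.ch.1, hP.j.ch.zsmul, map_mul, map_zpow₀, h3 u hu.1, one_zpow,
        mul_one, ev]
      · exact hv
      · have e1 : cip (eb s) (eb s) = -1 := hg.1
        have e2 := hu.2
        rw [← V9.ip_cl, V9.ax_cl, ← cD_ip, map_add, map_zsmul, AddMonoidHom.add_apply,
          AddMonoidHom.smul_apply, cD_ip, cD_ip, V9.ip_cl u, ev, e1, smul_eq_mul, e2]
        rfl
  · intro g hg'
    rw [List.mem_filter, decide_eq_true_iff] at hg'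
    rw [val g hg'.2]
    exact h3 g hg'.1

/-- the test of one letter -/
def Kn.ok (κ : Kn) (m : Mv) : Bool :=
  m.wf && hon (κ.step m).L && (m.fl || !m.vec.pm κ.L)

/-- the test of a word -/
def Kn.chk : List Mv → Kn → Bool
  | [], _ => true
  | m :: w, κ => κ.ok m && chk w (κ.step m)

/-- the knowledge after a word -/
def Kn.run : List Mv → Kn → Kn
  | [], κ => κ
  | m :: w, κ => run w (κ.step m)

/-- the class after a word -/
def wact : List Mv → CL → CL
  | [], x => x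
  | m :: w, x => wact w (m.act x)

/-- the character after a word -/
def wch (v : Valuation k Γ) : List Mv → (CL → k) → CL → k
  | [], χ => χ
  | m :: w, χ => wch v w (m.ch v χ)

/-- the pull back of a vector along a word -/
def wpb : List Mv → V9 → V9
  | [], y => y
  | m :: w, y => m.av (wpb w y)

/-- the inequalities which the flips of a word ask for, in the first frame -/
def Kn.side : List Mv → Kn → List (V9 × ℤ)
  | [], _ => []
  | m :: w, κ => (if m.fl then [(m.vec, κ.bd m)] else []) ++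
      (side w (κ.step m)).map fun q => (m.av q.1, q.2)

theorem ip_wact {w : List Mv} (h : ∀ m ∈ w, m.wf = true) (x : CL) (y : V9) :
    cip (wact w x) y.cl = cip x (wpb w y).cl := by
  induction w generalizing x with
  | nil => rfl
  | cons m w ih =>
    rw [wact, wpb, ih fun m hm => h m (List.mem_cons_of_mem _ hm), Mv.ip_act,
      Mv.av_cl (h m List.mem_cons_self)]

theorem Kn.chk_wf {w : List Mv} {κ : Kn} (h : κ.chk w = true) : ∀ m ∈ w, m.wf = true := by
  induction w generalizing κ with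
  | nil => simp
  | cons m w ih =>
    simp only [Kn.chk, Kn.ok, Bool.and_eq_true] at h
    intro m' hm
    rcases List.mem_cons.1 hm with rfl | hm
    exacts [h.1.1.1, ih h.2 m' hm]

/-- A word which passes the test transports the state and the property. -/
theorem WSt.word {Q : (CL → k) → CL → Prop} (hQ : Steps v Q) {w : List Mv} (h : WSt v κ χ x)
    (h0 : Wd.hon κ.L = true) (h1 : κ.chk w = true) (h2 : ∀ q ∈ κ.side w, cip x q.1.cl ≤ q.2) :
    WSt v (κ.run w) (wch v w χ) (wact w x) ∧ (Q (wch v w χ) (wact w x) → Q χ x) := by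
  induction w generalizing κ χ x with
  | nil => exact ⟨h, id⟩
  | cons m w ih =>
    simp only [Kn.chk, Kn.ok, Bool.and_eq_true, Bool.or_eq_true, Bool.not_eq_true'] at h1
    obtain ⟨⟨⟨a1, a2⟩, a3⟩, a4⟩ := h1
    have a5 : ∀ q ∈ (κ.step m).side w, cip (m.act x) q.1.cl ≤ q.2 := fun q hq => by
      rw [Mv.ip_act, ← Mv.av_cl a1]
      exact h2 (m.av q.1, q.2) (List.mem_append_right _ (List.mem_map.2 ⟨q, hq, rfl⟩))
    rw [Kn.run, wch, wact]
    cases hf : m.fl
    · have e1 : m.act x = cD.rf m.cls x := by simp [Mv.act, hf]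
      have e2 : m.ch v χ = χ ∘ cD.rf m.cls := by simp [Mv.ch, hf]
      have s1 := h.stepR a1 hf
      rw [e1] at a5
      rw [e1, e2]
      obtain ⟨b1, b2⟩ := ih s1 a2 a4 a5
      refine ⟨b1, fun q => hQ.R m χ x a1 hf h.ch (h.hon h0) (s1.hon a2)
        (h.root_ne (Mv.cls_root a1 hf) ?_) (b2 q)⟩
      rw [← Mv.vec_cl a1, V9.of_cl]
      exact a3.resolve_left (by simp [hf])
    · obtain ⟨s, rfl⟩ := Mv.fl_eq hf
      have hb : cip x (eb s) ≤ κ.bd (.F s) := by
        have := h2 ((Mv.F s).vec, κ.bd (.F s)) (List.mem_append_left _ (by simp [Mv.fl]))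
        rwa [Mv.vec_cl rfl] at this
      have s1 := h.stepF hb
      obtain ⟨b1, b2⟩ := ih s1 a2 a4 a5
      exact ⟨b1, fun q => hQ.F s χ x h.ch (h.hon h0) (s1.hon a2) (h.small hb).1 (b2 q)⟩

end Pool.Agent.Lib.MP_d03834_ag.Core.Wd
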